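import Mathlib
import Pool.Agent.Lib_MP_112ba8_e.Defs

/-!
Definitions for the lower bound `g_3 ≥ 36.64` of the sixth moment of zeta (certificate S5).
-/

namespace Pool.Agent.SixT

open Filter Topology MeasureTheory
open Pool.Agent.EvenMoment (cl Wgt Sz ker ar)

/-! ### Dirichlet polynomials -/

/-- `n^(-it)` -/
noncomputable def en (n : ℕ) (t : ℝ) : ℂ := Complex.exp (-(t * Real.log n : ℝ) * Complex.I)

/-- the integers `1 ≤ n ≤ e^L` (`L = log T`, so `n ≤ T`) -/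
noncomputable def NN (L : ℝ) : Finset ℕ := Finset.Icc 1 ⌊Real.exp L⌋₊

/-- `∑ φ(log n / L) n^(-1/2-it)` -/
noncomputable def VP (φ : ℝ → ℝ) (L t : ℝ) : ℂ :=
  ∑ n ∈ NN L, ((φ (Real.log n / L) / Real.sqrt n : ℝ) : ℂ) * en n t

/-- `∑ Ψ(log a / L, log b / L, log k / L) (a b k)^(-1/2) (a b / k)^(-it)` -/
noncomputable def CP (Ψ : ℝ → ℝ → ℝ → ℝ) (L t : ℝ) : ℂ :=
  ∑ a ∈ NN L, ∑ b ∈ NN L, ∑ k ∈ NN L,
    ((Ψ (Real.log a / L) (Real.log b / L) (Real.log k / L) / Real.sqrt (a * b * k) : ℝ) : ℂ) *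
      (en a t * en b t * (starRingEnd ℂ) (en k t))

/-- `X(t) = ζ(1-s)/ζ(s)` on the critical line, `s = 1/2 + it` -/
noncomputable def XX (t : ℝ) : ℂ :=
  2 * (2 * Real.pi : ℂ) ^ (-(cl t)) * Complex.Gamma (cl t) * Complex.cos (Real.pi * cl t / 2)

/-! ### discrete and continuous functionals -/

/-- `n₀ n₁ n₂ = m₀ m₁ m₂` -/
abbrev TN : Type := {q : (ℕ+ × ℕ+ × ℕ+) × (ℕ+ × ℕ+ × ℕ+) //
  (q.1.1 : ℕ) * q.1.2.1 * q.1.2.2 = q.2.1 * q.2.2.1 * q.2.2.2}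

/-- `∑ (n₀ n₁ n₂)⁻¹ G(log n_i / L, log m_j / L)` over `n₀ n₁ n₂ = m₀ m₁ m₂` -/
noncomputable def S9 (G : ℝ → ℝ → ℝ → ℝ → ℝ → ℝ → ℝ) (L : ℝ) : ℝ :=
  ∑' q : TN, (1 / ((q.1.1.1 : ℝ) * q.1.1.2.1 * q.1.1.2.2)) *
    G (Real.log q.1.1.1 / L) (Real.log q.1.1.2.1 / L) (Real.log q.1.1.2.2 / L)
      (Real.log q.1.2.1 / L) (Real.log q.1.2.2.1 / L) (Real.log q.1.2.2.2 / L)

/-- the same sum restricted to `(n₀, m₀) = 1` -/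
noncomputable def S8 (G : ℝ → ℝ → ℝ → ℝ → ℝ → ℝ → ℝ) (L : ℝ) : ℝ :=
  ∑' q : TN, (if Nat.Coprime q.1.1.1 q.1.2.1 then (1 : ℝ) else 0) *
    ((1 / ((q.1.1.1 : ℝ) * q.1.1.2.1 * q.1.1.2.2)) *
    G (Real.log q.1.1.1 / L) (Real.log q.1.1.2.1 / L) (Real.log q.1.1.2.2 / L)
      (Real.log q.1.2.1 / L) (Real.log q.1.2.2.1 / L) (Real.log q.1.2.2.2 / L))

/-- Lebesgue measure on `(0, ∞)` -/
noncomputable def mu : Measure ℝ := volume.restrict (Set.Ioi 0)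

noncomputable def mu3 : Measure (ℝ × ℝ × ℝ) := mu.prod (mu.prod mu)

/-- `3 × 3` matrices `y` with positive entries -/
noncomputable def mu9 : Measure ((ℝ × ℝ × ℝ) × (ℝ × ℝ × ℝ) × (ℝ × ℝ × ℝ)) := mu3.prod (mu3.prod mu3)

/-- the same with `y₀₀ = 0` -/
noncomputable def mu8 : Measure ((ℝ × ℝ) × (ℝ × ℝ × ℝ) × (ℝ × ℝ × ℝ)) :=
  (mu.prod mu).prod (mu3.prod mu3)

/-- `∫ G(row sums, column sums)` over `3 × 3` matrices with positive entries -/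
noncomputable def I9 (G : ℝ → ℝ → ℝ → ℝ → ℝ → ℝ → ℝ) : ℝ :=
  ∫ y, G (y.1.1 + y.1.2.1 + y.1.2.2) (y.2.1.1 + y.2.1.2.1 + y.2.1.2.2)
    (y.2.2.1 + y.2.2.2.1 + y.2.2.2.2)
    (y.1.1 + y.2.1.1 + y.2.2.1) (y.1.2.1 + y.2.1.2.1 + y.2.2.2.1)
    (y.1.2.2 + y.2.1.2.2 + y.2.2.2.2) ∂mu9

/-- the same over the matrices with `y₀₀ = 0` -/
noncomputable def I8 (G : ℝ → ℝ → ℝ → ℝ → ℝ → ℝ → ℝ) : ℝ :=
  ∫ y, G (y.1.1 + y.1.2) (y.2.1.1 + y.2.1.2.1 + y.2.1.2.2)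
    (y.2.2.1 + y.2.2.2.1 + y.2.2.2.2)
    (y.2.1.1 + y.2.2.1) (y.1.1 + y.2.1.2.1 + y.2.2.2.1)
    (y.1.2 + y.2.1.2.2 + y.2.2.2.2) ∂mu8

/-- joint continuity of a function of six variables -/
def Cont6 (G : ℝ → ℝ → ℝ → ℝ → ℝ → ℝ → ℝ) : Prop :=
  Continuous fun p : (ℝ × ℝ × ℝ) × (ℝ × ℝ × ℝ) => G p.1.1 p.1.2.1 p.1.2.2 p.2.1 p.2.2.1 p.2.2.2

/-- smooth functions of three variables with compact support in the open octant -/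
structure Tst (M : ℝ → ℝ → ℝ → ℝ) : Prop where
  smooth : ContDiff ℝ (⊤ : ℕ∞) fun p : ℝ × ℝ × ℝ => M p.1 p.2.1 p.2.2
  supp : ∃ a b : ℝ, 0 < a ∧ ∀ x y z, (x < a ∨ y < a ∨ z < a ∨ b < x ∨ b < y ∨ b < z) → M x y z = 0

/-- `M(x,y,z) = -M(y,x,z)` -/
def Anti (M : ℝ → ℝ → ℝ → ℝ) : Prop := ∀ x y z, M x y z = -M y x z

/-- `(∂₁ - ∂₂) M` -/
noncomputable def D12 (M : ℝ → ℝ → ℝ → ℝ) (x y z : ℝ) : ℝ := deriv (fun t => M (x + t) (y - t) z) 0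

/-- `(∂₁ + ∂₃) M` -/
noncomputable def D13 (M : ℝ → ℝ → ℝ → ℝ) (x y z : ℝ) : ℝ := deriv (fun t => M (x + t) y (z + t)) 0

/-- `(∂₂ + ∂₃) M` -/
noncomputable def D23 (M : ℝ → ℝ → ℝ → ℝ) (x y z : ℝ) : ℝ := deriv (fun t => M x (y + t) (z + t)) 0

/-- `(∂₁ - ∂₂)(∂₁ + ∂₃)(∂₂ + ∂₃) M` -/
noncomputable def DD (M : ℝ → ℝ → ℝ → ℝ) : ℝ → ℝ → ℝ → ℝ := D12 (D13 (D23 M))

/-- thin nonnegative smooth windows on `(1/4 - 2δ, 1/4 - δ)` with integral `c` -/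
structure Thin (φ : ℝ → ℝ) (δ c : ℝ) : Prop where
  smooth : ContDiff ℝ (⊤ : ℕ∞) φ
  nonneg : ∀ s, 0 ≤ φ s
  supp : ∀ s, (s ≤ 1 / 4 - 2 * δ ∨ 1 / 4 - δ ≤ s) → φ s = 0
  int : ∫ s, φ s = c

/-! ### the twisted second moment on average -/

/-- `∫ w(t/T) |ζ|² (h/r)^(it) dt` -/
noncomputable def M2 (w : ℝ → ℝ) (T : ℝ) (h r : ℕ) : ℂ :=
  ∫ t : ℝ, ((w (t / T) * ‖riemannZeta (cl t)‖ ^ 2 : ℝ) : ℂ) *
    Complex.exp (t * (Real.log h - Real.log r : ℝ) * Complex.I)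

/-- reduced product `h r / (h, r)²` -/
noncomputable def red (h r : ℕ) : ℝ := (h : ℝ) * r / (Nat.gcd h r : ℝ) ^ 2

/-- the main term of `M2` -/
noncomputable def M2main (w : ℝ → ℝ) (T : ℝ) (h r : ℕ) : ℝ :=
  (∫ x, w x) * T * (Real.log T - Real.log (red h r)) / Real.sqrt (red h r)

/-- bounded variation in each variable -/
structure BV (f : ℕ → ℕ → ℂ) (A : ℝ) : Prop where
  b0 : ∀ n k, ‖f n k‖ ≤ A
  bk : ∀ n N, ∑ k ∈ Finset.range N, ‖f n (k + 1) - f n k‖ ≤ A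
  bn : ∀ k N, ∑ n ∈ Finset.range N, ‖f (n + 1) k - f n k‖ ≤ A

/-- `κ = |η| / Re η` -/
noncomputable def kap (η : ℂ) : ℝ := ‖η‖ / η.re

/-- the constant of the sum `∑ 1/(e^{bx}-1) = (c₀ - log x)/x + O(1)` (it is Euler's constant) -/
noncomputable def c0 : ℝ :=
  ∫ u in Set.Ioi (0 : ℝ), (1 / (Real.exp u - 1) - Real.exp (-u) / u)

/-- `h / (h, r)` -/
def hq (h r : ℕ) : ℕ := h / Nat.gcd h r

/-- main term of `Sz` near `2 π i r / h` -/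
noncomputable def mainz (q : ℕ) (η : ℂ) : ℂ :=
  (1 / ((q : ℂ) * η)) * ((c0 : ℂ) - Complex.log η - 2 * Real.log q)

/-- the off-diagonal part of `Sz` near `2 π i r / h` -/
noncomputable def offz (h r : ℕ) (η : ℂ) : ℂ :=
  Sz (2 * Real.pi * Complex.I * ((r : ℂ) / h) + η) - mainz (hq h r) η

/-! ### the twisted third moment -/

/-- `∑_{a,b,c ≥ 1} e^{-abcz}` -/
noncomputable def Tz (z : ℂ) : ℂ := ∑' a : ℕ, Sz (((a : ℂ) + 1) * z)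

/-- `∫ w(t/T) |ζ|² ζ (h/k)^(it) dt` -/
noncomputable def M3 (w : ℝ → ℝ) (T : ℝ) (h k : ℕ) : ℂ :=
  ∫ t : ℝ, ((w (t / T) * ‖riemannZeta (cl t)‖ ^ 2 : ℝ) : ℂ) * riemannZeta (cl t) *
    Complex.exp (t * (Real.log h - Real.log k : ℝ) * Complex.I)

/-- the frequency `p_v = (2 - 2 π i v) / T` -/
noncomputable def pv (T v : ℝ) : ℂ := (2 - 2 * Real.pi * Complex.I * v) / T

/-- `2 π i (r/h) e^{-i p}` -/
noncomputable def zv (T v : ℝ) (h r : ℕ) : ℂ :=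
  2 * Real.pi * Complex.I * ((r : ℂ) / h) * Complex.exp (-(Complex.I * pv T v))

/-- smooth cut off for `c ≤ C₀`, `u = c / C₀` -/
noncomputable def VA (A : ℕ) (u : ℝ) : ℝ := 1 - (1 - Real.exp (-u)) ^ A

/-- `∑_{c ≥ 0} (1 - e^{-c/C₀})^A e^{-cy}` -/
noncomputable def DA (A : ℕ) (C₀ : ℝ) (y : ℂ) : ℂ :=
  ∑ j ∈ Finset.range (A + 1), (-1 : ℂ) ^ j * (A.choose j) * (1 / (1 - Complex.exp (-(y + j / C₀))))

/-- `∫_0^∞ e^{-yx} (1 - e^{-x/C₀})^A dx` -/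
noncomputable def IA (A : ℕ) (C₀ : ℝ) (y : ℂ) : ℂ :=
  ∫ x in Set.Ioi (0 : ℝ), Complex.exp (-(y * x)) * (((1 - Real.exp (-(x / C₀))) ^ A : ℝ) : ℂ)

/-- the function `G` with `w(x) e^{2x} = ∫ G(v) e^{2 π i v x} dv` -/
structure GG (w : ℝ → ℝ) (G : ℝ → ℂ) : Prop where
  cont : Continuous G
  int : Integrable G
  mom : ∀ n : ℕ, Integrable fun v : ℝ => |v| ^ n * ‖G v‖
  eq : ∀ x : ℝ, ∫ v : ℝ, G v * Complex.exp ((2 * Real.pi * v * x : ℝ) * Complex.I) =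
      ((w x * Real.exp (2 * x) : ℝ) : ℂ)

/-! ### the constants of the certificate -/

/-- `Δ(1-z, x, y) / 2` -/
noncomputable def dl (x y z : ℝ) : ℝ := (1 - z - x) * (1 - z - y) * (x - y) / 2

/-- coefficient of `x V` (`v = 1/4`) on the chamber `x > y` -/
noncomputable def mm (x y z : ℝ) : ℝ :=
  if x ≤ 1 / 4 then (x - y) * (1 - z - 1 / 4) else (1 - z - x) * max 0 (1 / 4 - y)

/-- coefficient of `ζ |V|²` on the chamber `x > y`, for `x < 1/2` -/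
noncomputable def qq (x y z : ℝ) : ℝ := max 0 (min (1 / 4) x - max y z)

/-- region of the third moment -/
def OW : Set (ℝ × ℝ × ℝ) :=
  {p | 0 < p.2.1 ∧ p.2.1 < p.1 ∧ 0 < p.2.2 ∧ p.1 + p.2.1 < 1 / 2 ∧ p.1 + p.2.1 + p.2.2 < 1}

/-- first region of the second moment -/
def OA : Set (ℝ × ℝ × ℝ) :=
  {p | 0 < p.2.1 ∧ p.2.1 < p.1 ∧ 0 < p.2.2 ∧ p.1 + p.2.1 < 1 / 2 ∧ p.1 + p.2.1 + p.2.2 < 1 ∧
    p.2.2 < 3 / 4}

/-- second region of the second moment -/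
def OB : Set (ℝ × ℝ × ℝ) :=
  {p | 0 < p.2.1 ∧ p.2.1 < p.1 ∧ 0 < p.2.2 ∧ p.2.2 < 1 / 4 ∧ 1 / 2 < p.1 + p.2.1 ∧
    p.1 + p.2.1 + p.2.2 < 1}

end Pool.Agent.SixT
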