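import Mathlib

/-!
Smooth compactly supported functions inside an open set `U` are dense in `L²(U)`; integral form.
-/

open MeasureTheory Set Filter Topology
open scoped ContDiff Manifold

namespace Pool.Agent.SixPoly

/-- smooth cut-off between a compact set and an open set -/
theorem exists_cutoff {E : Type*} [NormedAddCommGroup E] [NormedSpace ℝ E]
    [FiniteDimensional ℝ E] {K U : Set E} (hK : IsCompact K) (hU : IsOpen U) (hKU : K ⊆ U) :
    ∃ φ : E → ℝ, ContDiff ℝ ∞ φ ∧ HasCompactSupport φ ∧ tsupport φ ⊆ U ∧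
      (∀ x ∈ K, φ x = 1) ∧ ∀ x, φ x ∈ Icc (0 : ℝ) 1 := by
  obtain ⟨K', hK', hKi, hK'U⟩ := exists_compact_between hK hU hKU
  obtain ⟨f, hf0, hf1, hf⟩ := exists_contMDiffMap_zero_one_of_isClosed (n := ⊤) 𝓘(ℝ, E)
    (s := (interior K')ᶜ) (t := K) isOpen_interior.isClosed_compl hK.isClosed
    (Set.disjoint_left.2 fun x hx hx' => hx (hKi hx'))
  have hsupp : Function.support f ⊆ K' := by
    intro x hx
    by_contra h
    exact hx (hf0 (fun h' => h (interior_subset h')))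
  have hts : tsupport f ⊆ K' := closure_minimal hsupp hK'.isClosed
  refine ⟨f, f.contMDiff.contDiff, HasCompactSupport.of_support_subset_isCompact hK' hsupp,
    hts.trans hK'U, fun x hx => hf1 hx, hf⟩

theorem approx_in_open {E : Type*} [NormedAddCommGroup E] [NormedSpace ℝ E]
    [FiniteDimensional ℝ E] [MeasurableSpace E] [BorelSpace E] {μ : Measure E}
    [IsFiniteMeasureOnCompacts μ] [μ.InnerRegularCompactLTTop] {U : Set E} (hU : IsOpen U)
    (hμ : μ U ≠ ⊤) {f : E → ℝ} (hfm : AEStronglyMeasurable f μ) (hfU : ∀ x ∉ U, f x = 0)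
    {B : ℝ} (hB : ∀ x, |f x| ≤ B) {ε : ℝ} (hε : 0 < ε) :
    ∃ g : E → ℝ, ContDiff ℝ ∞ g ∧ HasCompactSupport g ∧ tsupport g ⊆ U ∧
      Integrable (fun x => (f x - g x) ^ 2) μ ∧ ∫ x, (f x - g x) ^ 2 ∂μ ≤ ε := by
  have hB0 : 0 ≤ B := (abs_nonneg _).trans (hB 0)
  -- f ∈ L²
  have hfi : Integrable (U.indicator fun _ => (B ^ 2 : ℝ)) μ := by
    rw [integrable_indicator_iff hU.measurableSet]
    exact integrableOn_const hμ
  have hf2 : Integrable (fun x => (f x) ^ 2) μ := by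
    refine hfi.mono (hfm.pow 2) (Eventually.of_forall fun x => ?_)
    by_cases hx : x ∈ U
    · rw [indicator_of_mem hx, Real.norm_eq_abs, Real.norm_eq_abs, abs_pow, abs_pow, abs_of_nonneg hB0]
      exact pow_le_pow_left₀ (abs_nonneg _) (hB x) 2
    · rw [hfU x hx]; simp
  have hfL : MemLp f 2 μ := (memLp_two_iff_integrable_sq hfm).2 hf2
  obtain ⟨g₀, hg₀c, hg₀s, hg₀⟩ := hfL.exist_eLpNorm_sub_le (by norm_num) (by norm_num)
    (ε := Real.sqrt (ε / 4)) (Real.sqrt_pos.2 (by positivity))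
  have hg₀m : MemLp g₀ 2 μ := hg₀s.continuous.memLp_of_hasCompactSupport hg₀c
  have hd : MemLp (f - g₀) 2 μ := hfL.sub hg₀m
  have hd2 : Integrable (fun x => (f x - g₀ x) ^ 2) μ :=
    (memLp_two_iff_integrable_sq hd.1).1 hd
  have hdI : ∫ x, (f x - g₀ x) ^ 2 ∂μ ≤ ε / 4 := by
    have h1 := hd.eLpNorm_eq_integral_rpow_norm (by norm_num) (by norm_num)
    rw [h1] at hg₀
    have h2 := (ENNReal.ofReal_le_ofReal_iff (Real.sqrt_nonneg _)).1 hg₀
    have h3 : (∫ a, ‖(f - g₀) a‖ ^ (2 : ENNReal).toReal ∂μ) = ∫ x, (f x - g₀ x) ^ 2 ∂μ := by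
      refine integral_congr_ae (Eventually.of_forall fun x => ?_)
      simp [Real.norm_eq_abs, sq_abs]
    rw [h3] at h2
    have h0 : 0 ≤ ∫ x, (f x - g₀ x) ^ 2 ∂μ := integral_nonneg fun x => sq_nonneg _
    have h4 : (∫ x, (f x - g₀ x) ^ 2 ∂μ) ^ ((2 : ENNReal).toReal)⁻¹ =
        Real.sqrt (∫ x, (f x - g₀ x) ^ 2 ∂μ) := by
      rw [Real.sqrt_eq_rpow]; norm_num
    rw [h4] at h2
    exact (Real.sqrt_le_sqrt_iff (by positivity)).1 h2
  -- compact set
  obtain ⟨K, hKU, hK, hKm⟩ := hU.measurableSet.exists_isCompact_sdiff_lt hμ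
    (ε := ENNReal.ofReal (ε / (4 * (B ^ 2 + 1)))) (by
      simp only [ne_eq, ENNReal.ofReal_eq_zero, not_le]; positivity)
  obtain ⟨φ, hφs, hφc, hφU, hφ1, hφ01⟩ := exists_cutoff hK hU hKU
  have hmeasK : μ.real (U \ K) ≤ ε / (4 * (B ^ 2 + 1)) := by
    refine ENNReal.toReal_le_of_le_ofReal (by positivity) hKm.le
  refine ⟨fun x => φ x * g₀ x, hφs.mul hg₀s, hφc.mul_right, ?_, ?_⟩
  · exact (tsupport_mul_subset_left (f := φ) (g := g₀)).trans hφU
  have hpt : ∀ x, (f x - φ x * g₀ x) ^ 2 ≤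
      2 * (U \ K).indicator (fun _ => B ^ 2) x + 2 * (f x - g₀ x) ^ 2 := by
    intro x
    have h01 := hφ01 x
    have e1 : f x - φ x * g₀ x = (1 - φ x) * f x + φ x * (f x - g₀ x) := by ring
    rw [e1]
    have e2 : ((1 - φ x) * f x + φ x * (f x - g₀ x)) ^ 2 ≤
        2 * ((1 - φ x) * f x) ^ 2 + 2 * (φ x * (f x - g₀ x)) ^ 2 := by
      nlinarith [sq_nonneg ((1 - φ x) * f x - φ x * (f x - g₀ x))]
    have e3 : (φ x * (f x - g₀ x)) ^ 2 ≤ (f x - g₀ x) ^ 2 := by
      rw [mul_pow]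
      have : φ x ^ 2 ≤ 1 := by nlinarith [h01.1, h01.2]
      nlinarith [sq_nonneg (f x - g₀ x)]
    have e4 : ((1 - φ x) * f x) ^ 2 ≤ (U \ K).indicator (fun _ => B ^ 2) x := by
      by_cases hxK : x ∈ K
      · rw [hφ1 x hxK, indicator_of_notMem (fun h => h.2 hxK)]; simp
      · by_cases hxU : x ∈ U
        · rw [indicator_of_mem (show x ∈ U \ K from ⟨hxU, hxK⟩), mul_pow]
          have a1 : (1 - φ x) ^ 2 ≤ 1 := by nlinarith [h01.1, h01.2]
          have a2 : f x ^ 2 ≤ B ^ 2 := by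
            rw [← sq_abs (f x)]; exact pow_le_pow_left₀ (abs_nonneg _) (hB x) 2
          nlinarith [sq_nonneg (f x), sq_nonneg (1 - φ x)]
        · rw [hfU x hxU, indicator_of_notMem (fun h => hxU h.1)]; simp
    linarith
  have hiI : Integrable ((U \ K).indicator fun _ => (B ^ 2 : ℝ)) μ := by
    rw [integrable_indicator_iff (hU.measurableSet.diff hK.measurableSet)]
    exact integrableOn_const (ne_top_of_le_ne_top hμ (measure_mono sdiff_subset))
  have hdom : Integrable (fun x => 2 * (U \ K).indicator (fun _ => B ^ 2) x +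
      2 * (f x - g₀ x) ^ 2) μ := (hiI.const_mul 2).add (hd2.const_mul 2)
  have hgm : AEStronglyMeasurable (fun x => (f x - φ x * g₀ x) ^ 2) μ :=
    (hfm.sub ((hφs.continuous.mul hg₀s.continuous).aestronglyMeasurable)).pow 2
  have hint : Integrable (fun x => (f x - φ x * g₀ x) ^ 2) μ :=
    hdom.mono' hgm (Eventually.of_forall fun x => by
      rw [Real.norm_eq_abs, abs_of_nonneg (sq_nonneg _)]; exact hpt x)
  refine ⟨hint, ?_⟩
  calc ∫ x, (f x - φ x * g₀ x) ^ 2 ∂μ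
      ≤ ∫ x, (2 * (U \ K).indicator (fun _ => B ^ 2) x + 2 * (f x - g₀ x) ^ 2) ∂μ :=
        integral_mono hint hdom hpt
    _ = 2 * (μ.real (U \ K) * B ^ 2) + 2 * ∫ x, (f x - g₀ x) ^ 2 ∂μ := by
        rw [integral_add (hiI.const_mul 2) (hd2.const_mul 2), integral_const_mul,
          integral_const_mul, integral_indicator (hU.measurableSet.diff hK.measurableSet),
          setIntegral_const, smul_eq_mul]
    _ ≤ ε := by
        have h1 : μ.real (U \ K) * B ^ 2 ≤ ε / 4 := by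
          calc μ.real (U \ K) * B ^ 2 ≤ ε / (4 * (B ^ 2 + 1)) * B ^ 2 := by gcongr
            _ ≤ ε / 4 := by
                rw [div_mul_eq_mul_div, div_le_div_iff₀ (by positivity) (by positivity)]
                nlinarith [sq_nonneg B]
        linarith

end Pool.Agent.SixPoly
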