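import Mathlib
import Pool.Agent.Lib_MP_112ba8_t.Defs
import Pool.Agent.Lib_MP_112ba8_t.PolyApprox

/-!
Piece F1: approximation by antisymmetric test functions.
-/

open MeasureTheory Set Filter Topology

namespace Pool.Agent.SixT

theorem Tst_of_cpt {M : ℝ → ℝ → ℝ → ℝ}
    (hs : ContDiff ℝ (⊤ : ℕ∞) fun p : ℝ × ℝ × ℝ => M p.1 p.2.1 p.2.2) {K : Set (ℝ × ℝ × ℝ)}
    (hK : IsCompact K) (hK0 : ∀ p ∈ K, 0 < p.1 ∧ 0 < p.2.1 ∧ 0 < p.2.2)
    (hK1 : ∀ p ∈ K, p.1 ≤ 1 ∧ p.2.1 ≤ 1 ∧ p.2.2 ≤ 1)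
    (hM : ∀ x y z, M x y z ≠ 0 → (x, y, z) ∈ K ∨ (y, x, z) ∈ K) : Tst M := by
  refine ⟨hs, ?_⟩
  rcases K.eq_empty_or_nonempty with hE | hne
  · refine ⟨1, 1, one_pos, fun x y z _ => ?_⟩
    by_contra h
    rcases hM x y z h with h' | h' <;> simp [hE] at h'
  have hcont : Continuous fun p : ℝ × ℝ × ℝ => min p.1 (min p.2.1 p.2.2) := by fun_prop
  obtain ⟨q, hq, hmin⟩ := hK.exists_isMinOn hne hcont.continuousOn
  have hqp : 0 < min q.1 (min q.2.1 q.2.2) := by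
    obtain ⟨h1, h2, h3⟩ := hK0 q hq
    exact lt_min h1 (lt_min h2 h3)
  refine ⟨min q.1 (min q.2.1 q.2.2), 1, hqp, fun x y z hxyz => ?_⟩
  by_contra h
  rcases hM x y z h with h' | h'
  · have h1 : min q.1 (min q.2.1 q.2.2) ≤ min x (min y z) := hmin h'
    obtain ⟨h2, h3, h4⟩ := hK1 _ h'
    simp only at h2 h3 h4
    have h5 := min_le_left x (min y z)
    have h6 := (min_le_right x (min y z)).trans (min_le_left y z)
    have h7 := (min_le_right x (min y z)).trans (min_le_right y z)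
    rcases hxyz with h | h | h | h | h | h <;> linarith
  · have h1 : min q.1 (min q.2.1 q.2.2) ≤ min y (min x z) := hmin h'
    obtain ⟨h2, h3, h4⟩ := hK1 _ h'
    simp only at h2 h3 h4
    have h5 := min_le_left y (min x z)
    have h6 := (min_le_right y (min x z)).trans (min_le_left x z)
    have h7 := (min_le_right y (min x z)).trans (min_le_right x z)
    rcases hxyz with h | h | h | h | h | h <;> linarith

/-- F1 -/
theorem approx {O : Set (ℝ × ℝ × ℝ)} (hO : IsOpen O) (hO1 : ∀ p ∈ O, 0 < p.2.1 ∧ p.2.1 < p.1 ∧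
    0 < p.2.2 ∧ p.1 < 1 ∧ p.2.2 < 1) {F : ℝ × ℝ × ℝ → ℝ} (hF : Measurable F) {B : ℝ}
    (hB : ∀ p ∈ O, |F p| ≤ B) {ε : ℝ} (hε : 0 < ε) :
    ∃ M : ℝ → ℝ → ℝ → ℝ, Tst M ∧ Anti M ∧
      (∃ K : Set (ℝ × ℝ × ℝ), IsCompact K ∧ K ⊆ O ∧ ∀ p : ℝ × ℝ × ℝ, p.2.1 ≤ p.1 → p ∉ K →
        M p.1 p.2.1 p.2.2 = 0) ∧
      ∫ p in O, (M p.1 p.2.1 p.2.2 - F p) ^ 2 ≤ ε := by
  have hbox : O ⊆ Icc ((0, 0, 0) : ℝ × ℝ × ℝ) (1, 1, 1) := by
    intro p hp
    obtain ⟨h1, h2, h3, h4, h5⟩ := hO1 p hp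
    exact ⟨⟨(h1.trans h2).le, h1.le, h3.le⟩, ⟨h4.le, (h2.trans h4).le, h5.le⟩⟩
  have hvol : volume O ≠ ⊤ := by
    have hc : IsCompact (Icc ((0, 0, 0) : ℝ × ℝ × ℝ) (1, 1, 1)) := isCompact_Icc
    exact ((measure_mono hbox).trans_lt hc.measure_lt_top).ne
  have hfm : AEStronglyMeasurable (O.indicator F) (volume : Measure (ℝ × ℝ × ℝ)) :=
    (hF.indicator hO.measurableSet).aestronglyMeasurable
  have hB' : ∀ p, |O.indicator F p| ≤ max B 0 := by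
    intro p
    by_cases hp : p ∈ O
    · rw [indicator_of_mem hp]; exact (hB p hp).trans (le_max_left _ _)
    · rw [indicator_of_notMem hp, abs_zero]; exact le_max_right _ _
  obtain ⟨g, hgs, hgc, hgO, hgi, hg⟩ := SixPoly.approx_in_open hO hvol hfm
    (fun p hp => indicator_of_notMem hp F) hB' hε
  have hK0 : ∀ p ∈ tsupport g, 0 < p.1 ∧ 0 < p.2.1 ∧ 0 < p.2.2 := by
    intro p hp
    obtain ⟨h1, h2, h3, h4, h5⟩ := hO1 p (hgO hp)
    exact ⟨h1.trans h2, h1, h3⟩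
  have hK1 : ∀ p ∈ tsupport g, p.1 ≤ 1 ∧ p.2.1 ≤ 1 ∧ p.2.2 ≤ 1 := by
    intro p hp
    obtain ⟨h1, h2, h3, h4, h5⟩ := hO1 p (hgO hp)
    exact ⟨h4.le, (h2.trans h4).le, h5.le⟩
  have hz : ∀ p : ℝ × ℝ × ℝ, p ∉ tsupport g → g p = 0 := fun p hp =>
    image_eq_zero_of_notMem_tsupport hp
  -- the reflected part vanishes on `y ≤ x`
  have hz' : ∀ x y z : ℝ, y ≤ x → g (y, x, z) = 0 := by
    intro x y z hxy
    by_contra h
    have h1 : (y, x, z) ∈ O := hgO (by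
      by_contra h'
      exact h (hz _ h'))
    have := (hO1 _ h1).2.1
    simp only at this
    linarith
  refine ⟨fun x y z => g (x, y, z) - g (y, x, z), ?_, ?_, ⟨tsupport g, hgc, hgO, ?_⟩, ?_⟩
  · refine Tst_of_cpt ?_ hgc hK0 hK1 ?_
    · have h1 : ContDiff ℝ (⊤ : ℕ∞) fun p : ℝ × ℝ × ℝ => g (p.1, p.2.1, p.2.2) :=
        hgs.comp (by fun_prop : ContDiff ℝ (⊤ : ℕ∞) fun p : ℝ × ℝ × ℝ => (p.1, p.2.1, p.2.2))
      have h2 : ContDiff ℝ (⊤ : ℕ∞) fun p : ℝ × ℝ × ℝ => g (p.2.1, p.1, p.2.2) :=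
        hgs.comp (by fun_prop : ContDiff ℝ (⊤ : ℕ∞) fun p : ℝ × ℝ × ℝ => (p.2.1, p.1, p.2.2))
      exact h1.sub h2
    · intro x y z h
      by_contra h'
      rw [not_or] at h'
      exact h (by simp only [hz _ h'.1, hz _ h'.2, sub_zero])
  · intro x y z
    ring
  · intro p hp hpK
    simp only
    rw [hz' _ _ _ hp, hz _ hpK, sub_zero]
  · have h1 : ∫ p in O, (g (p.1, p.2.1, p.2.2) - g (p.2.1, p.1, p.2.2) - F p) ^ 2 =
        ∫ p in O, (O.indicator F p - g p) ^ 2 := by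
      refine setIntegral_congr_fun hO.measurableSet fun p hp => ?_
      rw [hz' _ _ _ (hO1 p hp).2.1.le, indicator_of_mem hp]
      ring
    rw [h1]
    refine le_trans (setIntegral_le_integral hgi (Eventually.of_forall fun p => sq_nonneg _)) hg

end Pool.Agent.SixT
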