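import Mathlib
import Pool.Agent.Lib_MP_112ba8_t.Defs

/-!
Piece G1 (about 60 lines). With `x = ‖z‖²`, `Z = z`: the difference of the two sides is a sum of squares:
`|ζ|⁶ - 4Re xV R̄ + 2|R|² - 4xRe(ζC̄) + x|V|⁴ + 4|V|²Re(ζC̄) + 2|C|² + 2Re(X C²)`.
Put `a = X^{1/2}`-rotated real coordinates: choose `e` with `e² = X`, then `e z` is real
(`conj z = X z` means `conj(ez) = ē z̄ = ē X z = e z`), `z̃ = ez ∈ ℝ`, `Ṽ = V`, `R`, `C̃ = e C`: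
`Re(ζ C̄) = z̃ Re C̃`, `Re(X C²) = Re C̃²`, `2|C|² + 2Re(XC²) = 4 (Re C̃)²`. The claim becomes
`z̃⁶ - 4z̃² Re(V R̄) + 2|R|² - 4(z̃² - |V|²) z̃ c + z̃²|V|⁴ + 4c² ≥ 0`, `c = Re C̃`:
`(z̃(z̃²-|V|²) - 2c)² = z̃²(z̃²-|V|²)² - 4c z̃(z̃²-|V|²) + 4c²` and
`z̃⁶ + z̃²|V|⁴ - z̃²(z̃²-|V|²)² = 2 z̃⁴|V|²`, `2z̃⁴|V|² - 4z̃²Re(VR̄) + 2|R|² = 2|z̃²V - R|²`.
-/

namespace Pool.Agent.SixT

open Filter Topology MeasureTheory
open Pool.Agent.EvenMoment (cl Wgt Sz ker ar)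

theorem cert (z X V C R : ℂ) (hX : ‖X‖ = 1) (hz : (starRingEnd ℂ) z = X * z) :
    ‖z‖ ^ 2 * (4 * (V * (starRingEnd ℂ) R).re) - 2 * ‖R‖ ^ 2 +
      4 * (‖z‖ ^ 2 * (z * (starRingEnd ℂ) C).re) - ‖z‖ ^ 2 * ‖V‖ ^ 4 -
      4 * (‖V‖ ^ 2 * (z * (starRingEnd ℂ) C).re) - 2 * ‖C‖ ^ 2 - 2 * (X * C ^ 2).re ≤
      ‖z‖ ^ 6 := by
  obtain ⟨e, he⟩ : ∃ e : ℂ, e ^ 2 = X := IsAlgClosed.exists_pow_nat_eq X (by norm_num)
  have he1 : ‖e‖ = 1 := by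
    have h : ‖e‖ ^ 2 = 1 := by rw [← norm_pow, he, hX]
    nlinarith [norm_nonneg e]
  have hee : e * (starRingEnd ℂ) e = 1 := by
    rw [Complex.mul_conj, Complex.normSq_eq_norm_sq, he1]
    norm_num
  -- w = e z is real
  set w : ℂ := e * z with hw
  have hwre : (starRingEnd ℂ) w = w := by
    have h1 : (starRingEnd ℂ) w = (starRingEnd ℂ) e * (X * z) := by
      rw [hw, map_mul, hz]
    rw [h1, ← he, hw]
    have : (starRingEnd ℂ) e * (e ^ 2 * z) = (e * (starRingEnd ℂ) e) * (e * z) := by ring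
    rw [this, hee, one_mul]
  obtain ⟨r, hr⟩ : ∃ r : ℝ, (r : ℂ) = w := by
    refine ⟨w.re, ?_⟩
    exact Complex.conj_eq_iff_re.mp hwre
  set D : ℂ := e * C with hD
  have hzn : ‖z‖ ^ 2 = r ^ 2 := by
    have h1 : ‖w‖ = ‖z‖ := by rw [hw, norm_mul, he1, one_mul]
    rw [← h1, ← hr, Complex.norm_real, Real.norm_eq_abs, sq_abs]
  have hCn : ‖C‖ ^ 2 = D.re ^ 2 + D.im ^ 2 := by
    have h1 : ‖D‖ = ‖C‖ := by rw [hD, norm_mul, he1, one_mul]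
    rw [← h1, ← Complex.normSq_eq_norm_sq, Complex.normSq_apply]
    ring
  have hzC : (z * (starRingEnd ℂ) C).re = r * D.re := by
    have h1 : z * (starRingEnd ℂ) C = w * (starRingEnd ℂ) D := by
      rw [hw, hD, map_mul]
      have : e * z * ((starRingEnd ℂ) e * (starRingEnd ℂ) C) =
        (e * (starRingEnd ℂ) e) * (z * (starRingEnd ℂ) C) := by ring
      rw [this, hee, one_mul]
    rw [h1, ← hr, Complex.re_ofReal_mul, Complex.conj_re]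
  have hXC : (X * C ^ 2).re = D.re ^ 2 - D.im ^ 2 := by
    have h1 : X * C ^ 2 = D ^ 2 := by rw [hD, ← he]; ring
    rw [h1, sq, Complex.mul_re]
    ring
  have hz6 : ‖z‖ ^ 6 = (r ^ 2) ^ 3 := by
    rw [← hzn]; ring
  have hV4 : ‖V‖ ^ 4 = (V.re ^ 2 + V.im ^ 2) ^ 2 := by
    have : ‖V‖ ^ 2 = V.re ^ 2 + V.im ^ 2 := by
      rw [← Complex.normSq_eq_norm_sq, Complex.normSq_apply]; ring
    rw [← this]; ring
  have hV2 : ‖V‖ ^ 2 = V.re ^ 2 + V.im ^ 2 := by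
    rw [← Complex.normSq_eq_norm_sq, Complex.normSq_apply]; ring
  have hR2 : ‖R‖ ^ 2 = R.re ^ 2 + R.im ^ 2 := by
    rw [← Complex.normSq_eq_norm_sq, Complex.normSq_apply]; ring
  have hVR : (V * (starRingEnd ℂ) R).re = V.re * R.re + V.im * R.im := by
    rw [Complex.mul_re, Complex.conj_re, Complex.conj_im]; ring
  rw [hzn, hCn, hzC, hXC, hz6, hV4, hV2, hR2, hVR]
  nlinarith [sq_nonneg (r * (r ^ 2 - (V.re ^ 2 + V.im ^ 2)) - 2 * D.re),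
    sq_nonneg (r ^ 2 * V.re - R.re), sq_nonneg (r ^ 2 * V.im - R.im)]

end Pool.Agent.SixT
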