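import Mathlib
import Pool.Agent.Lib_MP_112ba8_t.Defs

/-!
Finite differences of holomorphic functions near a horizontal ray (used for C4, C5).
-/

namespace Pool.Agent.SixT

open Filter Topology MeasureTheory

namespace DAFd

/-- open neighbourhood of radius `r` of the ray `y + [0, ∞)` -/
def ray (y : ℂ) (r : ℝ) : Set ℂ := {s | ∃ t : ℝ, 0 ≤ t ∧ ‖s - (y + t)‖ < r}

lemma ray_open (y : ℂ) (r : ℝ) : IsOpen (ray y r) := by
  have : ray y r = ⋃ t ∈ Set.Ici (0 : ℝ), Metric.ball (y + (t : ℂ)) r := by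
    ext s
    simp only [ray, Set.mem_ofPred_eq, Set.mem_iUnion, Metric.mem_ball, dist_eq_norm, Set.mem_Ici,
      exists_prop]
  rw [this]
  exact isOpen_biUnion fun t _ => Metric.isOpen_ball

lemma ray_mono (y : ℂ) {r r' : ℝ} (h : r ≤ r') : ray y r ⊆ ray y r' := by
  rintro s ⟨t, ht, hs⟩
  exact ⟨t, ht, lt_of_lt_of_le hs h⟩

lemma ray_add {y s : ℂ} {r h : ℝ} (hh : 0 ≤ h) (hs : s ∈ ray y r) : s + (h : ℂ) ∈ ray y r := by
  obtain ⟨t, ht, hs⟩ := hs
  refine ⟨t + h, by linarith, ?_⟩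
  have e : s + (h : ℂ) - (y + ((t + h : ℝ) : ℂ)) = s - (y + t) := by
    push_cast
    ring
  rw [e]
  exact hs

lemma ray_ball {y s u : ℂ} {r δ : ℝ} (hs : s ∈ ray y r) (hu : ‖u - s‖ ≤ δ) : u ∈ ray y (r + δ) := by
  obtain ⟨t, ht, hs⟩ := hs
  refine ⟨t, ht, ?_⟩
  have e : u - (y + (t : ℂ)) = (s - (y + t)) + (u - s) := by ring
  rw [e]
  refine lt_of_le_of_lt (norm_add_le _ _) ?_
  linarith

lemma self_mem_ray (y : ℂ) {r : ℝ} (hr : 0 < r) : y ∈ ray y r := ⟨0, le_refl _, by simpa using hr⟩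

/-- one step of the difference operator -/
lemma step {g : ℂ → ℂ} {y : ℂ} {ρ δ M h : ℝ} (hδ : 0 < δ) (hh : 0 ≤ h)
    (hg : DifferentiableOn ℂ g (ray y (ρ + δ))) (hb : ∀ s ∈ ray y (ρ + δ), ‖g s‖ ≤ M) :
    DifferentiableOn ℂ (fwdDiff (h : ℂ) g) (ray y ρ) ∧
      ∀ s ∈ ray y ρ, ‖fwdDiff (h : ℂ) g s‖ ≤ h / δ * M := by
  have hsub : ray y ρ ⊆ ray y (ρ + δ) := ray_mono y (by linarith)
  constructor
  · have h1 : DifferentiableOn ℂ (fun s => g (s + (h : ℂ))) (ray y ρ) := by
      refine DifferentiableOn.comp (t := ray y (ρ + δ)) hg ?_ ?_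
      · exact (differentiable_id.add_const _).differentiableOn
      · intro s hs
        exact hsub (ray_add hh hs)
    exact h1.sub (hg.mono hsub)
  · intro s hs
    have hseg : ∀ x ∈ segment ℝ s (s + (h : ℂ)), x ∈ ray y ρ := by
      rintro x ⟨a, b, ha, hb', hab, rfl⟩
      have e : a • s + b • (s + (h : ℂ)) = s + ((b * h : ℝ) : ℂ) := by
        have : (a : ℂ) + b = 1 := by exact_mod_cast hab
        simp only [Complex.real_smul]
        push_cast
        linear_combination s * this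
      rw [e]
      exact ray_add (mul_nonneg hb' hh) hs
    have hd : ∀ x ∈ segment ℝ s (s + (h : ℂ)), DifferentiableAt ℂ g x := fun x hx =>
      (hg x (hsub (hseg x hx))).differentiableAt ((ray_open y _).mem_nhds (hsub (hseg x hx)))
    have hbd : ∀ x ∈ segment ℝ s (s + (h : ℂ)), ‖deriv g x‖ ≤ M / δ := by
      intro x hx
      have hcb : Metric.closedBall x δ ⊆ ray y (ρ + δ) := by
        intro u hu
        rw [Metric.mem_closedBall, dist_eq_norm] at hu
        exact ray_ball (hseg x hx) hu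
      refine Complex.norm_deriv_le_of_forall_mem_sphere_norm_le hδ ?_ ?_
      · refine DifferentiableOn.diffContOnCl ?_
        rw [closure_ball x hδ.ne']
        exact hg.mono hcb
      · intro u hu
        exact hb u (hcb (Metric.sphere_subset_closedBall hu))
    have h2 := Convex.norm_image_sub_le_of_norm_deriv_le hd hbd (convex_segment _ _)
      (left_mem_segment ℝ s (s + (h : ℂ))) (right_mem_segment ℝ s (s + (h : ℂ)))
    have e : ‖s + (h : ℂ) - s‖ = h := by
      rw [add_sub_cancel_left, Complex.norm_real, Real.norm_of_nonneg hh]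
    rw [e] at h2
    rw [fwdDiff]
    refine h2.trans (le_of_eq ?_)
    ring

lemma iter {f : ℂ → ℂ} {y : ℂ} {r M h : ℝ} (hr : 0 < r) (hh : 0 ≤ h)
    (hf : DifferentiableOn ℂ f (ray y r)) (hb : ∀ s ∈ ray y r, ‖f s‖ ≤ M) (n k : ℕ) (hk : k ≤ n) :
    DifferentiableOn ℂ ((fwdDiff (h : ℂ))^[k] f) (ray y (r - k * (r / (n + 1)))) ∧
      ∀ s ∈ ray y (r - k * (r / (n + 1))),
        ‖(fwdDiff (h : ℂ))^[k] f s‖ ≤ ((n + 1) * h / r) ^ k * M := by
  induction k with
  | zero =>
    simp only [Function.iterate_zero, id, Nat.cast_zero, zero_mul, sub_zero, pow_zero, one_mul]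
    exact ⟨hf, hb⟩
  | succ k ih =>
    obtain ⟨ih1, ih2⟩ := ih (by omega)
    have hδ : 0 < r / ((n : ℝ) + 1) := by positivity
    have e : r - k * (r / ((n : ℝ) + 1)) = (r - ((k + 1 : ℕ) : ℝ) * (r / (n + 1))) + r / (n + 1) := by
      push_cast
      ring
    rw [e] at ih1 ih2
    obtain ⟨h1, h2⟩ := step hδ hh ih1 ih2
    rw [Function.iterate_succ', Function.comp_apply]
    refine ⟨h1, fun s hs => (h2 s hs).trans (le_of_eq ?_)⟩
    rw [pow_succ]
    field_simp

theorem fd_bound {f : ℂ → ℂ} {y : ℂ} {r M h : ℝ} (hr : 0 < r) (hh : 0 ≤ h)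
    (hf : DifferentiableOn ℂ f (ray y r)) (hb : ∀ s ∈ ray y r, ‖f s‖ ≤ M) (n : ℕ) :
    ‖∑ j ∈ Finset.range (n + 1), (-1 : ℂ) ^ j * (n.choose j) * f (y + j * h)‖ ≤
      ((n + 1) * h / r) ^ n * M := by
  have h1 := (iter hr hh hf hb n n le_rfl).2 y (self_mem_ray y (by
    have : r - n * (r / ((n : ℝ) + 1)) = r / (n + 1) := by
      field_simp
      ring
    rw [this]
    positivity))
  have h2 : ∑ j ∈ Finset.range (n + 1), (-1 : ℂ) ^ j * (n.choose j) * f (y + j * h) =
      (-1) ^ n * (fwdDiff (h : ℂ))^[n] f y := by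
    rw [fwdDiff_iter_eq_sum_shift, Finset.mul_sum]
    refine Finset.sum_congr rfl fun j hj => ?_
    have hj' : j ≤ n := by
      have := Finset.mem_range.1 hj
      omega
    simp only [zsmul_eq_mul, nsmul_eq_mul]
    push_cast
    have e : (-1 : ℂ) ^ n * (-1) ^ (n - j) = (-1) ^ j := by
      have : n = (n - j) + j := by omega
      conv_lhs => rw [this]
      rw [Nat.add_sub_cancel, pow_add]
      have h3 : ((-1 : ℂ) ^ (n - j)) * (-1) ^ (n - j) = 1 := by
        rw [← mul_pow]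
        norm_num
      linear_combination ((-1 : ℂ)) ^ j * h3
    rw [← e]
    ring
  rw [h2, norm_mul, norm_pow, norm_neg, norm_one, one_pow, one_mul]
  exact h1

end DAFd

end Pool.Agent.SixT
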