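import Mathlib
import Pool.Agent.Lib_MP_112ba8_t.Defs
import Pool.Agent.Lib_MP_112ba8_t.DAFd
import Pool.Agent.Lib_MP_112ba8_e.ClassC

/-!
C4: the smoothed sum `DA` away from the poles.
-/

namespace Pool.Agent.SixT

open Filter Topology MeasureTheory
open Pool.Agent.EvenMoment (cl Wgt Sz ker ar)

namespace DAF

open DAFd

/-- `1 - e^{-s}` is bounded below away from `2 π i ℤ` -/
lemma one_sub_ge {s : ℂ} {ρ : ℝ} (hρ : 0 < ρ) (hρ1 : ρ ≤ 1)
    (hs : ∀ j : ℤ, ρ ≤ ‖s - 2 * Real.pi * Complex.I * j‖) :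
    ρ / 10 ≤ ‖1 - Complex.exp (-s)‖ := by
  have hpi := Real.pi_pos
  have hpi2 := Real.pi_lt_d2
  set n : ℤ := round (s.im / (2 * Real.pi)) with hn
  set u : ℂ := s - 2 * Real.pi * Complex.I * n with hu
  have hue : Complex.exp (-s) = Complex.exp (-u) := by
    rw [Complex.exp_eq_exp_iff_exists_int]
    refine ⟨-n, ?_⟩
    rw [hu]
    push_cast
    ring
  have hure : u.re = s.re := by simp [hu]
  have huim : u.im = s.im - 2 * Real.pi * n := by simp [hu]
  have hun : ρ ≤ ‖u‖ := hs n
  rw [hue]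
  by_cases h1 : ‖u‖ ≤ 1 / 2
  · have h2 : ‖Complex.exp (-u) - 1 - (-u)‖ ≤ ‖-u‖ ^ 2 :=
      Complex.norm_exp_sub_one_sub_id_le (by rw [norm_neg]; linarith)
    rw [norm_neg] at h2
    have h3 : ‖u‖ ≤ ‖1 - Complex.exp (-u)‖ + ‖Complex.exp (-u) - 1 - (-u)‖ := by
      have : u = (1 - Complex.exp (-u)) + (Complex.exp (-u) - 1 - (-u)) := by ring
      calc ‖u‖ = ‖(1 - Complex.exp (-u)) + (Complex.exp (-u) - 1 - (-u))‖ := by rw [← this]
        _ ≤ _ := norm_add_le _ _
    nlinarith [norm_nonneg u]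
  · push Not at h1
    have h2 : ‖u‖ ≤ |u.re| + |u.im| := Complex.norm_le_abs_re_add_abs_im u
    have hrev : ‖Complex.exp (-u)‖ = Real.exp (-u.re) := by rw [Complex.norm_exp, Complex.neg_re]
    by_cases h3 : 1 / 4 ≤ u.re
    · have h4 : Real.exp (-u.re) ≤ 4 / 5 := by
        have h5 := Real.add_one_le_exp (u.re)
        rw [Real.exp_neg]
        rw [inv_le_comm₀ (Real.exp_pos _) (by norm_num)]
        linarith
      have h5 : ‖(1 : ℂ)‖ - ‖Complex.exp (-u)‖ ≤ ‖1 - Complex.exp (-u)‖ := norm_sub_norm_le _ _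
      rw [norm_one, hrev] at h5
      linarith
    · push Not at h3
      by_cases h4 : u.re ≤ -(1 / 4)
      · have h5 := Real.add_one_le_exp (-u.re)
        have h6 : ‖Complex.exp (-u)‖ - ‖(1 : ℂ)‖ ≤ ‖Complex.exp (-u) - 1‖ := norm_sub_norm_le _ _
        rw [norm_one, hrev] at h6
        rw [norm_sub_rev]
        linarith
      · push Not at h4
        have h5 : 1 / 4 ≤ |u.im| := by
          have : |u.re| ≤ 1 / 4 := abs_le.2 ⟨h4.le, h3.le⟩
          linarith
        -- chord
        have h6 := Pool.Agent.EvenMoment.ClassC.norm_exp_sub_one_theta (s.im / (2 * Real.pi))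
        rw [← hn] at h6
        have h7 : s.im / (2 * Real.pi) - n = u.im / (2 * Real.pi) := by
          rw [huim]
          field_simp
        rw [h7, abs_div, abs_of_pos (by positivity : (0 : ℝ) < 2 * Real.pi)] at h6
        have h8 : Complex.exp (2 * Real.pi * Complex.I * ((s.im / (2 * Real.pi) : ℝ) : ℂ)) =
            Complex.exp (u.im * Complex.I) := by
          rw [Complex.exp_eq_exp_iff_exists_int]
          refine ⟨n, ?_⟩
          rw [huim]
          push_cast
          have : (Real.pi : ℂ) ≠ 0 := by exact_mod_cast hpi.ne'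
          field_simp
          ring
        rw [h8] at h6
        have h9 : 1 / 7 ≤ ‖Complex.exp (u.im * Complex.I) - 1‖ := by
          refine le_trans ?_ h6
          rw [mul_div_assoc', le_div_iff₀ (by positivity)]
          nlinarith
        by_cases h10 : u.re ≤ 0
        · have h11 := Pool.Agent.EvenMoment.ClassC.norm_exp_sub_one_ge (-u)
            (by rw [Complex.neg_re]; linarith)
          rw [Complex.neg_im] at h11
          have h12 : ‖Complex.exp (((-u.im : ℝ) : ℂ) * Complex.I) - 1‖ =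
              ‖Complex.exp (u.im * Complex.I) - 1‖ := by
            have e : (starRingEnd ℂ) (Complex.exp (u.im * Complex.I) - 1) =
                Complex.exp (((-u.im : ℝ) : ℂ) * Complex.I) - 1 := by
              rw [map_sub, ← Complex.exp_conj, map_mul, Complex.conj_I, Complex.conj_ofReal, map_one]
              push_cast
              congr 2
              ring
            rw [← e, RCLike.norm_conj]
          rw [h12] at h11
          rw [norm_sub_rev]
          linarith
        · push Not at h10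
          have h11 := Pool.Agent.EvenMoment.ClassC.norm_exp_sub_one_ge u h10.le
          have h12 : 1 - Complex.exp (-u) = Complex.exp (-u) * (Complex.exp u - 1) := by
            rw [mul_sub, ← Complex.exp_add]
            simp
          have h13 := Real.add_one_le_exp (-u.re)
          rw [h12, norm_mul, hrev]
          have h14 : 3 / 4 ≤ Real.exp (-u.re) := by linarith
          have h15 : 1 / 7 ≤ ‖Complex.exp u - 1‖ := h9.trans h11
          nlinarith [norm_nonneg (Complex.exp u - 1)]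

/-- `1 / (e^s - 1)` -/
noncomputable def g (s : ℂ) : ℂ := 1 / (Complex.exp s - 1)

lemma g_eq (s : ℂ) : g s = Complex.exp (-s) / (1 - Complex.exp (-s)) := by
  have h : Complex.exp (-s) * (Complex.exp s - 1) = 1 - Complex.exp (-s) := by
    rw [mul_sub, ← Complex.exp_add]
    simp
  have hne : Complex.exp (-s) ≠ 0 := Complex.exp_ne_zero _
  rw [g, ← h, ← div_div, div_self hne]

lemma g_bound {s : ℂ} {ρ : ℝ} (hρ : 0 < ρ) (hρ1 : ρ ≤ 1)
    (hs : ∀ j : ℤ, ρ ≤ ‖s - 2 * Real.pi * Complex.I * j‖) :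
    ‖g s‖ ≤ 10 * ρ⁻¹ * Real.exp (-s.re) := by
  have h1 := one_sub_ge hρ hρ1 hs
  rw [g_eq, norm_div, Complex.norm_exp, Complex.neg_re, div_le_iff₀ (by linarith)]
  have h2 : 1 ≤ 10 * ρ⁻¹ * ‖1 - Complex.exp (-s)‖ := by
    have : 10 * ρ⁻¹ * (ρ / 10) = 1 := by field_simp
    rw [← this]
    exact mul_le_mul_of_nonneg_left h1 (by positivity)
  nlinarith [Real.exp_pos (-s.re)]

end DAF

open DAF DAFd

theorem DA_far {A : ℕ} (hA : 0 < A) : ∃ C : ℝ, 0 < C ∧ ∀ C₀ ρ : ℝ, 1 ≤ C₀ → 0 < ρ → ρ ≤ 1 → ∀ y : ℂ, 0 < y.re →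
    (∀ j : ℤ, ρ ≤ ‖y - 2 * Real.pi * Complex.I * j‖) →
    ‖DA A C₀ y‖ ≤ C * (C₀ * ρ)⁻¹ ^ A * ρ⁻¹ * Real.exp (-y.re) := by
  refine ⟨(2 * (A + 1 : ℝ)) ^ A * (20 * Real.exp (1 / 2)), by positivity,
    fun C₀ ρ hC hρ hρ1 y hy hs => ?_⟩
  have hC0 : 0 < C₀ := by linarith
  have hray : ∀ s ∈ ray y (ρ / 2), (∀ j : ℤ, ρ / 2 ≤ ‖s - 2 * Real.pi * Complex.I * j‖) ∧
      y.re - 1 / 2 ≤ s.re := by
    rintro s ⟨t, ht, hst⟩
    constructor
    · intro j
      have h1 := hs j
      have h2 : ‖y - 2 * Real.pi * Complex.I * j‖ ≤ ‖(y + (t : ℂ)) - 2 * Real.pi * Complex.I * j‖ := by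
        rw [← sq_le_sq₀ (norm_nonneg _) (norm_nonneg _), ← Complex.normSq_eq_norm_sq,
          ← Complex.normSq_eq_norm_sq, Complex.normSq_apply, Complex.normSq_apply]
        simp only [Complex.sub_re, Complex.sub_im, Complex.add_re, Complex.add_im,
          Complex.ofReal_re, Complex.ofReal_im, add_zero]
        have e : (2 * Real.pi * Complex.I * (j : ℂ)).re = 0 := by simp
        rw [e]
        nlinarith
      have h3 : (y + (t : ℂ)) - 2 * Real.pi * Complex.I * j =
          (s - 2 * Real.pi * Complex.I * j) - (s - (y + t)) := by ring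
      have h4 := norm_sub_le (s - 2 * Real.pi * Complex.I * j) (s - (y + (t : ℂ)))
      rw [← h3] at h4
      linarith
    · have a1 := Complex.abs_re_le_norm (s - (y + (t : ℂ)))
      simp only [Complex.sub_re, Complex.add_re, Complex.ofReal_re] at a1
      have b1 := (abs_le.1 (a1.trans hst.le)).1
      linarith
  have hb : ∀ s ∈ ray y (ρ / 2), ‖g s‖ ≤ 20 * ρ⁻¹ * (Real.exp (1 / 2) * Real.exp (-y.re)) := by
    intro s hsr
    obtain ⟨h1, h2⟩ := hray s hsr
    refine (g_bound (by linarith : 0 < ρ / 2) (by linarith) h1).trans ?_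
    have h3 : Real.exp (-s.re) ≤ Real.exp (1 / 2) * Real.exp (-y.re) := by
      rw [← Real.exp_add]
      exact Real.exp_le_exp.2 (by linarith)
    have h4 : 10 * (ρ / 2)⁻¹ = 20 * ρ⁻¹ := by
      rw [inv_div]
      ring
    rw [h4]
    exact mul_le_mul_of_nonneg_left h3 (by positivity)
  have hd : DifferentiableOn ℂ g (ray y (ρ / 2)) := by
    intro s hsr
    obtain ⟨h1, _⟩ := hray s hsr
    have h2 := one_sub_ge (by linarith : 0 < ρ / 2) (by linarith) h1
    have h3 : Complex.exp s - 1 ≠ 0 := by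
      intro h
      have h4 : Complex.exp s = 1 := sub_eq_zero.1 h
      have h5 : (1 : ℂ) - Complex.exp (-s) = 0 := by rw [Complex.exp_neg, h4]; simp
      rw [h5, norm_zero] at h2
      linarith
    unfold g
    have : DifferentiableAt ℂ (fun s => Complex.exp s - 1) s := by fun_prop
    exact ((differentiableAt_const 1).div this h3).differentiableWithinAt
  have key := fd_bound (f := g) (y := y) (r := ρ / 2) (h := C₀⁻¹) (by positivity) (by positivity)
    hd hb A
  have hsum : DA A C₀ y =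
      ∑ k ∈ Finset.range (A + 1), (-1 : ℂ) ^ k * (A.choose k) * g (y + k * (C₀⁻¹ : ℝ)) := by
    have h0 : ∑ k ∈ Finset.range (A + 1), (-1 : ℂ) ^ k * (A.choose k) = 0 := by
      have := Int.alternating_sum_range_choose_of_ne hA.ne'
      exact_mod_cast this
    rw [DA, ← sub_eq_zero, ← Finset.sum_sub_distrib, ← h0]
    refine Finset.sum_congr rfl fun k _ => ?_
    have e1 : y + k * ((C₀⁻¹ : ℝ) : ℂ) = y + k / C₀ := by
      push_cast
      ring
    have hne : Complex.exp (y + k / C₀) ≠ 1 := by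
      intro h
      have h1 := congrArg norm h
      rw [Complex.norm_exp, norm_one, Real.exp_eq_one_iff] at h1
      have h2 : ((k : ℂ) / C₀).re = k / C₀ := by
        have : ((k : ℂ) / C₀) = ((k / C₀ : ℝ) : ℂ) := by push_cast; ring
        rw [this, Complex.ofReal_re]
      rw [Complex.add_re, h2] at h1
      have : 0 ≤ (k : ℝ) / C₀ := by positivity
      linarith
    rw [e1, g, Complex.exp_neg]
    have h3 : Complex.exp (y + k / C₀) ≠ 0 := Complex.exp_ne_zero _
    have h4 : Complex.exp (y + k / C₀) - 1 ≠ 0 := sub_ne_zero.2 hne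
    have h5 : 1 - (Complex.exp (y + k / C₀))⁻¹ ≠ 0 := by
      intro h
      apply hne
      have : (Complex.exp (y + k / C₀))⁻¹ = 1 := (sub_eq_zero.1 h).symm
      rw [inv_eq_one] at this
      exact this
    have h6 : 1 / (1 - (Complex.exp (y + k / C₀))⁻¹) = 1 + 1 / (Complex.exp (y + k / C₀) - 1) := by
      rw [div_eq_iff h5]
      field_simp
      ring
    rw [h6]
    ring
  rw [hsum]
  refine key.trans (le_of_eq ?_)
  have e : ((A : ℝ) + 1) * C₀⁻¹ / (ρ / 2) = 2 * (A + 1) * (C₀ * ρ)⁻¹ := by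
    field_simp
  rw [e, mul_pow]
  ring

end Pool.Agent.SixT
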