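import Mathlib
import Pool.Agent.Lib_MP_112ba8_t.Defs
import Pool.Agent.Lib_MP_112ba8_t.DAFd

/-!
C5: the smoothed sum `DA` near a pole, and the integral `IA`.
-/

namespace Pool.Agent.SixT

open Filter Topology MeasureTheory
open Pool.Agent.EvenMoment (cl Wgt Sz ker ar)

namespace DAN

/-- `1 - e^{-s}` -/
noncomputable def E1 (s : ℂ) : ℂ := 1 - Complex.exp (-s)

/-- `(1 - e^{-s}) / s` -/
noncomputable def P1 : ℂ → ℂ := dslope E1 0

/-- `s / (1 - e^{-s})` -/
noncomputable def F1 (s : ℂ) : ℂ := 1 / P1 s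

/-- `1 / (1 - e^{-s}) - 1 / s` -/
noncomputable def G1 : ℂ → ℂ := dslope F1 0

lemma E1_diff : Differentiable ℂ E1 := by
  unfold E1
  fun_prop

lemma E1_zero : E1 0 = 0 := by simp [E1]

lemma E1_hasDerivAt : HasDerivAt E1 1 0 := by
  have h : HasDerivAt (fun s : ℂ => 1 - Complex.exp (-s)) (-(Complex.exp (-0) * -1)) 0 :=
    ((hasDerivAt_neg (0 : ℂ)).cexp).const_sub 1
  have e : -(Complex.exp (-0) * -1) = (1 : ℂ) := by simp
  rw [e] at h
  exact h

lemma P1_zero : P1 0 = 1 := by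
  rw [P1, dslope_same, E1_hasDerivAt.deriv]

lemma P1_ne {s : ℂ} (hs : s ≠ 0) : P1 s = E1 s / s := by
  rw [P1, dslope_of_ne _ hs, slope_def_field, E1_zero, sub_zero, sub_zero]

lemma P1_diff : Differentiable ℂ P1 := by
  rw [← differentiableOn_univ, P1, Complex.differentiableOn_dslope Filter.univ_mem]
  exact E1_diff.differentiableOn

/-- the strip `|Im s| < 2 π` -/
def strip : Set ℂ := {s | |s.im| < 2 * Real.pi}

lemma strip_open : IsOpen strip := isOpen_lt (continuous_abs.comp Complex.continuous_im) continuous_const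

lemma strip_zero : strip ∈ 𝓝 (0 : ℂ) := strip_open.mem_nhds (by simp [strip, Real.pi_pos])

lemma E1_ne {s : ℂ} (hs : s ∈ strip) (h0 : s ≠ 0) : E1 s ≠ 0 := by
  intro h
  have h1 : Complex.exp (-s) = 1 := by
    rw [E1, sub_eq_zero] at h
    exact h.symm
  rw [Complex.exp_eq_one_iff] at h1
  obtain ⟨n, hn⟩ := h1
  have him : s.im = -(n * (2 * Real.pi)) := by
    have := congrArg Complex.im hn
    simp at this
    linarith
  have hs' : |s.im| < 2 * Real.pi := hs
  rw [him, abs_neg, abs_mul, abs_of_pos (by positivity : (0 : ℝ) < 2 * Real.pi)] at hs'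
  have h2 : |(n : ℝ)| < 1 := by
    by_contra hc
    have := Real.pi_pos
    nlinarith [not_lt.1 hc]
  have h3 : n = 0 := by
    have : |n| < 1 := by exact_mod_cast h2
    exact Int.abs_lt_one_iff.1 this
  apply h0
  have : -s = 0 := by rw [hn, h3]; simp
  simpa using this

lemma P1_ne_zero {s : ℂ} (hs : s ∈ strip) : P1 s ≠ 0 := by
  by_cases h0 : s = 0
  · rw [h0, P1_zero]
    exact one_ne_zero
  · rw [P1_ne h0]
    exact div_ne_zero (E1_ne hs h0) h0

lemma F1_diff : DifferentiableOn ℂ F1 strip := by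
  unfold F1
  exact (differentiableOn_const 1).div P1_diff.differentiableOn fun s hs => P1_ne_zero hs

lemma G1_diff : DifferentiableOn ℂ G1 strip := by
  rw [G1, Complex.differentiableOn_dslope strip_zero]
  exact F1_diff

lemma G1_eq {s : ℂ} (hs : s ≠ 0) : G1 s = 1 / E1 s - 1 / s := by
  rw [G1, dslope_of_ne _ hs, slope_def_field, sub_zero, F1, F1, P1_zero, P1_ne hs]
  by_cases h : E1 s = 0
  · rw [h]
    simp
    field_simp
  · field_simp

lemma G1_bound : ∃ M : ℝ, 0 < M ∧ ∀ s : ℂ, -1 ≤ s.re → |s.im| ≤ 4 → ‖G1 s‖ ≤ M := by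
  have hpi := Real.pi_gt_three
  have hK : IsCompact (Set.Icc (-1 : ℝ) 1 ×ℂ Set.Icc (-4 : ℝ) 4) :=
    IsCompact.reProdIm isCompact_Icc isCompact_Icc
  have hsub : (Set.Icc (-1 : ℝ) 1 ×ℂ Set.Icc (-4 : ℝ) 4) ⊆ strip := by
    intro s hs
    rw [Complex.mem_reProdIm] at hs
    have := abs_le.2 ⟨hs.2.1, hs.2.2⟩
    show |s.im| < 2 * Real.pi
    linarith
  obtain ⟨C, hC⟩ := hK.exists_bound_of_continuousOn (G1_diff.continuousOn.mono hsub)
  refine ⟨max C 3, by positivity, fun s h1 h2 => ?_⟩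
  by_cases h3 : s.re ≤ 1
  · exact (hC s (by
      rw [Complex.mem_reProdIm]
      exact ⟨⟨h1, h3⟩, abs_le.1 h2⟩)).trans (le_max_left _ _)
  · push Not at h3
    have h0 : s ≠ 0 := by
      rintro rfl
      simp at h3
      linarith
    have hn : 1 ≤ ‖s‖ := h3.le.trans (Complex.re_le_norm s)
    have he : 1 / 2 ≤ ‖E1 s‖ := by
      have h4 : ‖Complex.exp (-s)‖ ≤ 1 / 2 := by
        rw [Complex.norm_exp, Complex.neg_re]
        have h5 : Real.exp (-s.re) ≤ Real.exp (-1) := Real.exp_le_exp.2 (by linarith)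
        have h6 : Real.exp (-1) < 0.3678794412 := Real.exp_neg_one_lt_d9
        linarith
      have h5 : ‖(1 : ℂ)‖ - ‖Complex.exp (-s)‖ ≤ ‖(1 : ℂ) - Complex.exp (-s)‖ :=
        norm_sub_norm_le _ _
      rw [norm_one] at h5
      rw [E1]
      linarith
    rw [G1_eq h0]
    refine le_trans (norm_sub_le _ _) (le_trans ?_ (le_max_right _ _))
    rw [norm_div, norm_div, norm_one]
    have a1 : 1 / ‖E1 s‖ ≤ 2 := by
      rw [div_le_iff₀ (by linarith)]
      linarith
    have a2 : 1 / ‖s‖ ≤ 1 := by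
      rw [div_le_iff₀ (by linarith)]
      linarith
    linarith

end DAN

open DAN DAFd

/-- the finite difference form of `IA` -/
theorem IA_eq (A : ℕ) {C₀ : ℝ} (hC : 0 < C₀) {y : ℂ} (hy : 0 < y.re) :
    IA A C₀ y = ∑ j ∈ Finset.range (A + 1), (-1 : ℂ) ^ j * (A.choose j) * (1 / (y + j / C₀)) := by
  have h1 : ∀ x : ℝ, Complex.exp (-(y * x)) * (((1 - Real.exp (-(x / C₀))) ^ A : ℝ) : ℂ) =
      ∑ j ∈ Finset.range (A + 1), (-1 : ℂ) ^ j * (A.choose j) *
        Complex.exp (-(y + j / C₀) * x) := by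
    intro x
    have h2 : (((1 - Real.exp (-(x / C₀))) ^ A : ℝ) : ℂ) =
        ∑ j ∈ Finset.range (A + 1), (-1 : ℂ) ^ j * (A.choose j) * Complex.exp (-(j * (x / C₀))) := by
      have h3 : (1 : ℂ) - Complex.exp (-(x / C₀)) = -Complex.exp (-(x / C₀)) + 1 := by ring
      push_cast
      rw [h3, add_pow]
      refine Finset.sum_congr rfl fun j _ => ?_
      rw [one_pow, mul_one, neg_pow, ← Complex.exp_nat_mul]
      have h4 : (j : ℂ) * -(x / C₀) = -(j * (x / C₀)) := by ring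
      rw [h4]
      ring
    rw [h2, Finset.mul_sum]
    refine Finset.sum_congr rfl fun j _ => ?_
    have h5 : -(y + j / C₀) * x = -(y * x) + -(j * (x / C₀)) := by ring
    rw [h5, Complex.exp_add]
    ring
  rw [IA]
  simp_rw [h1]
  have hre : ∀ j : ℕ, (-(y + (j : ℂ) / C₀)).re < 0 := by
    intro j
    have h2 : ((j : ℂ) / C₀).re = j / C₀ := by
      have : ((j : ℂ) / C₀) = ((j / C₀ : ℝ) : ℂ) := by push_cast; ring
      rw [this, Complex.ofReal_re]
    rw [Complex.neg_re, Complex.add_re, h2]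
    have : 0 ≤ (j : ℝ) / C₀ := by positivity
    linarith
  rw [integral_finsetSum]
  · refine Finset.sum_congr rfl fun j _ => ?_
    rw [integral_const_mul, integral_exp_mul_complex_Ioi (hre j) 0]
    congr 1
    have h3 : -(y + (j : ℂ) / C₀) ≠ 0 := by
      intro h
      have := hre j
      rw [h] at this
      simp at this
    simp only [Complex.ofReal_zero, mul_zero, Complex.exp_zero]
    rw [neg_div_neg_eq]
  · intro j _
    exact (integrableOn_exp_mul_complex_Ioi (hre j) 0).const_mul _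

/-- C5: near a pole -/
theorem DA_near {A : ℕ} (hA : 0 < A) : ∃ C : ℝ, 0 < C ∧ ∀ C₀ : ℝ, 1 ≤ C₀ → ∀ y : ℂ, 0 < y.re →
    ∀ j : ℤ, |y.im - 2 * Real.pi * j| ≤ 3 →
    ‖DA A C₀ y - IA A C₀ (y - 2 * Real.pi * Complex.I * j)‖ ≤ C * C₀⁻¹ ^ A := by
  obtain ⟨M, hM, hb⟩ := G1_bound
  have hpi := Real.pi_gt_three
  refine ⟨((A + 1 : ℝ)) ^ A * M, by positivity, fun C₀ hC y hy j hj => ?_⟩
  have hC0 : 0 < C₀ := by linarith
  set s₀ : ℂ := y - 2 * Real.pi * Complex.I * j with hs₀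
  have hre : s₀.re = y.re := by simp [hs₀]
  have him : s₀.im = y.im - 2 * Real.pi * j := by simp [hs₀]
  have hray : ∀ s ∈ ray s₀ 1, -1 ≤ s.re ∧ |s.im| ≤ 4 := by
    rintro s ⟨t, ht, hs⟩
    have a1 := Complex.abs_re_le_norm (s - (s₀ + (t : ℂ)))
    have a2 := Complex.abs_im_le_norm (s - (s₀ + (t : ℂ)))
    simp only [Complex.sub_re, Complex.add_re, Complex.ofReal_re, Complex.sub_im, Complex.add_im,
      Complex.ofReal_im, add_zero] at a1 a2
    rw [hre] at a1
    rw [him] at a2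
    have b1 := (abs_le.1 (a1.trans hs.le)).1
    constructor
    · linarith
    · have b2 := abs_le.1 (a2.trans hs.le)
      have b3 := abs_le.1 hj
      rw [abs_le]
      constructor <;> linarith [b2.1, b2.2, b3.1, b3.2]
  have hstrip : ray s₀ 1 ⊆ strip := by
    intro s hs
    have := (hray s hs).2
    show |s.im| < 2 * Real.pi
    linarith
  have key := fd_bound (f := G1) (y := s₀) (r := 1) (M := M) (h := C₀⁻¹) one_pos (by positivity)
    (G1_diff.mono hstrip) (fun s hs => hb s (hray s hs).1 (hray s hs).2) A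
  have hIA := IA_eq A hC0 (y := s₀) (by rw [hre]; exact hy)
  have hsum : DA A C₀ y - IA A C₀ s₀ =
      ∑ k ∈ Finset.range (A + 1), (-1 : ℂ) ^ k * (A.choose k) * G1 (s₀ + k * (C₀⁻¹ : ℝ)) := by
    rw [hIA, DA, ← Finset.sum_sub_distrib]
    refine Finset.sum_congr rfl fun k _ => ?_
    have e1 : s₀ + k * ((C₀⁻¹ : ℝ) : ℂ) = s₀ + k / C₀ := by
      push_cast
      ring
    have hne : s₀ + (k : ℂ) / C₀ ≠ 0 := by
      intro h
      have h2 : ((k : ℂ) / C₀).re = k / C₀ := by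
        have : ((k : ℂ) / C₀) = ((k / C₀ : ℝ) : ℂ) := by push_cast; ring
        rw [this, Complex.ofReal_re]
      have h3 := congrArg Complex.re h
      rw [Complex.add_re, h2, hre, Complex.zero_re] at h3
      have : 0 ≤ (k : ℝ) / C₀ := by positivity
      linarith
    have e2 : E1 (s₀ + k / C₀) = 1 - Complex.exp (-(y + k / C₀)) := by
      rw [E1]
      congr 1
      rw [Complex.exp_eq_exp_iff_exists_int]
      refine ⟨j, ?_⟩
      rw [hs₀]
      ring
    rw [e1, G1_eq hne, e2]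
    ring
  rw [hsum]
  refine key.trans (le_of_eq ?_)
  rw [div_one, mul_pow]
  ring

/-- the damping factor lies in `[0, 1]` -/
lemma DAN.damp {C₀ x : ℝ} (hC : 0 < C₀) (hx : 0 < x) :
    0 ≤ 1 - Real.exp (-(x / C₀)) ∧ 1 - Real.exp (-(x / C₀)) ≤ 1 ∧
      1 - Real.exp (-(x / C₀)) ≤ x / C₀ := by
  have h1 : Real.exp (-(x / C₀)) ≤ 1 := Real.exp_le_one_iff.2 (by
    have : 0 < x / C₀ := by positivity
    linarith)
  have h2 := Real.exp_pos (-(x / C₀))
  have h3 := Real.add_one_le_exp (-(x / C₀))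
  exact ⟨by linarith, by linarith, by linarith⟩

lemma DAN.exp_int {c : ℝ} (hc : 0 < c) :
    IntegrableOn (fun t : ℝ => Real.exp (-(c * t))) (Set.Ioi 0) := by
  have := integrableOn_exp_mul_Ioi (a := -c) (by linarith) 0
  refine this.congr_fun (fun t _ => ?_) measurableSet_Ioi
  simp

lemma DAN.exp_integral {c : ℝ} (hc : 0 < c) :
    ∫ t in Set.Ioi (0 : ℝ), Real.exp (-(c * t)) = 1 / c := by
  have := integral_exp_mul_Ioi (a := -c) (by linarith) 0
  simp only [mul_zero, Real.exp_zero] at this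
  rw [neg_div_neg_eq] at this
  rw [← this]
  refine setIntegral_congr_fun measurableSet_Ioi (fun t _ => ?_)
  simp

lemma DAN.pow_int {c : ℝ} (hc : 0 < c) (A : ℕ) :
    IntegrableOn (fun t : ℝ => t ^ A * Real.exp (-(c * t))) (Set.Ioi 0) ∧
    ∫ t in Set.Ioi (0 : ℝ), t ^ A * Real.exp (-(c * t)) = A.factorial / c ^ (A + 1) := by
  have hk : (0 : ℝ) < (A : ℝ) + 1 := by positivity
  have key := Real.integral_rpow_mul_exp_neg_mul_Ioi hk hc
  have e : ∀ t : ℝ, t ^ (((A : ℝ) + 1) - 1) * Real.exp (-(c * t)) = t ^ A * Real.exp (-(c * t)) := by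
    intro t
    rw [add_sub_cancel_right, Real.rpow_natCast]
  simp_rw [e] at key
  have h1 : (1 / c) ^ ((A : ℝ) + 1) * Real.Gamma ((A : ℝ) + 1) = A.factorial / c ^ (A + 1) := by
    rw [Real.Gamma_nat_eq_factorial]
    have : (1 / c) ^ ((A : ℝ) + 1) = (1 / c) ^ (A + 1) := by
      rw [← Real.rpow_natCast]
      push_cast
      rfl
    rw [this, one_div, inv_pow]
    field_simp
  rw [h1] at key
  refine ⟨?_, key⟩
  have hne : ∫ t in Set.Ioi (0 : ℝ), t ^ A * Real.exp (-(c * t)) ≠ 0 := by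
    rw [key]
    positivity
  exact .of_integral_ne_zero hne

lemma DAN.IA_meas (A : ℕ) (C₀ : ℝ) (y : ℂ) : Continuous fun x : ℝ =>
    Complex.exp (-(y * x)) * (((1 - Real.exp (-(x / C₀))) ^ A : ℝ) : ℂ) := by
  fun_prop

lemma DAN.IA_term (A : ℕ) {C₀ x : ℝ} (hC : 0 < C₀) (hx : 0 < x) (y : ℂ) :
    ‖Complex.exp (-(y * x)) * (((1 - Real.exp (-(x / C₀))) ^ A : ℝ) : ℂ)‖ =
      Real.exp (-(y.re * x)) * (1 - Real.exp (-(x / C₀))) ^ A := by
  obtain ⟨h1, h2, h3⟩ := DAN.damp hC hx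
  rw [norm_mul, Complex.norm_exp, Complex.norm_real, Real.norm_of_nonneg (pow_nonneg h1 A)]
  simp

lemma DAN.IA_integrable (A : ℕ) {C₀ : ℝ} (hC : 0 < C₀) {y : ℂ} (hy : 0 < y.re) :
    IntegrableOn (fun x : ℝ => Complex.exp (-(y * x)) *
      (((1 - Real.exp (-(x / C₀))) ^ A : ℝ) : ℂ)) (Set.Ioi 0) := by
  refine (DAN.exp_int hy).mono' (DAN.IA_meas A C₀ y).aestronglyMeasurable ?_
  filter_upwards [ae_restrict_mem measurableSet_Ioi] with x hx
  rw [DAN.IA_term A hC hx]
  obtain ⟨h1, h2, h3⟩ := DAN.damp hC hx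
  exact mul_le_of_le_one_right (Real.exp_pos _).le (pow_le_one₀ h1 h2)

theorem IA_bound (A : ℕ) {C₀ : ℝ} (hC : 0 < C₀) {y : ℂ} (hy : 0 < y.re) :
    ‖IA A C₀ y‖ ≤ 1 / y.re ∧ ‖IA A C₀ y‖ ≤ (A.factorial : ℝ) / (C₀ ^ A * y.re ^ (A + 1)) := by
  constructor
  · rw [← DAN.exp_integral hy, IA]
    refine norm_integral_le_of_norm_le (DAN.exp_int hy) ?_
    filter_upwards [ae_restrict_mem measurableSet_Ioi] with x hx
    rw [DAN.IA_term A hC hx]
    obtain ⟨h1, h2, h3⟩ := DAN.damp hC hx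
    exact mul_le_of_le_one_right (Real.exp_pos _).le (pow_le_one₀ h1 h2)
  · obtain ⟨h4, h5⟩ := DAN.pow_int hy A
    have e : (A.factorial : ℝ) / (C₀ ^ A * y.re ^ (A + 1)) =
        ∫ t in Set.Ioi (0 : ℝ), (C₀ ^ A)⁻¹ * (t ^ A * Real.exp (-(y.re * t))) := by
      rw [integral_const_mul, h5]
      have : C₀ ^ A ≠ 0 := by positivity
      have : y.re ^ (A + 1) ≠ 0 := by positivity
      field_simp
    rw [e, IA]
    refine norm_integral_le_of_norm_le (h4.const_mul _) ?_
    filter_upwards [ae_restrict_mem measurableSet_Ioi] with x hx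
    rw [DAN.IA_term A hC hx]
    obtain ⟨h1, h2, h3⟩ := DAN.damp hC hx
    have h6 : (1 - Real.exp (-(x / C₀))) ^ A ≤ (x / C₀) ^ A := pow_le_pow_left₀ h1 h3 A
    have h7 : (C₀ ^ A)⁻¹ * (x ^ A * Real.exp (-(y.re * x))) =
        Real.exp (-(y.re * x)) * (x / C₀) ^ A := by
      rw [div_pow]
      ring
    rw [h7]
    exact mul_le_mul_of_nonneg_left h6 (Real.exp_pos _).le

theorem IA_diff (A : ℕ) {C₀ : ℝ} (hC : 0 < C₀) {y y' : ℂ} {a : ℝ} (ha : 0 < a) (hy : a ≤ y.re)
    (hy' : a ≤ y'.re) : ‖IA A C₀ y - IA A C₀ y'‖ ≤ ‖y - y'‖ / a ^ 2 := by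
  have hint := DAN.IA_integrable A hC (lt_of_lt_of_le ha hy)
  have hint' := DAN.IA_integrable A hC (lt_of_lt_of_le ha hy')
  rw [IA, IA, ← integral_sub hint hint']
  obtain ⟨h4, h5⟩ := DAN.pow_int ha 1
  have e : ‖y - y'‖ / a ^ 2 =
      ∫ t in Set.Ioi (0 : ℝ), ‖y - y'‖ * (t ^ 1 * Real.exp (-(a * t))) := by
    rw [integral_const_mul, h5]
    simp
    ring
  rw [e]
  refine norm_integral_le_of_norm_le (h4.const_mul _) ?_
  filter_upwards [ae_restrict_mem measurableSet_Ioi] with x hx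
  have hx' : 0 < x := hx
  obtain ⟨h1, h2, h3⟩ := DAN.damp hC hx'
  rw [← sub_mul, norm_mul, Complex.norm_real, Real.norm_of_nonneg (pow_nonneg h1 A)]
  have h6 : ‖Complex.exp (-(y * x)) - Complex.exp (-(y' * x))‖ ≤
      (x * Real.exp (-(a * x))) * ‖y - y'‖ := by
    have hconv : Convex ℝ {s : ℂ | a ≤ s.re} := convex_halfSpace_re_ge a
    have hder : ∀ s ∈ {s : ℂ | a ≤ s.re}, HasDerivWithinAt (fun s : ℂ => Complex.exp (-(s * x)))
        (Complex.exp (-(s * x)) * -(x : ℂ)) {s : ℂ | a ≤ s.re} s := by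
      intro s _
      have h : HasDerivAt (fun s : ℂ => -(s * (x : ℂ))) (-(x : ℂ)) s := by
        have := (hasDerivAt_mul_const (x : ℂ) (x := s)).neg
        exact this
      exact h.cexp.hasDerivWithinAt
    have hbd : ∀ s ∈ {s : ℂ | a ≤ s.re}, ‖Complex.exp (-(s * x)) * -(x : ℂ)‖ ≤
        x * Real.exp (-(a * x)) := by
      intro s hs
      rw [norm_mul, norm_neg, Complex.norm_real, Real.norm_of_nonneg hx'.le, Complex.norm_exp]
      have : (-(s * (x : ℂ))).re = -(s.re * x) := by simp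
      rw [this, mul_comm]
      refine mul_le_mul_of_nonneg_left (Real.exp_le_exp.2 ?_) hx'.le
      have hs' : a ≤ s.re := hs
      nlinarith
    exact hconv.norm_image_sub_le_of_norm_hasDerivWithin_le hder hbd hy' hy
  have h7 : (1 - Real.exp (-(x / C₀))) ^ A ≤ 1 := pow_le_one₀ h1 h2
  calc ‖Complex.exp (-(y * x)) - Complex.exp (-(y' * x))‖ * (1 - Real.exp (-(x / C₀))) ^ A
      ≤ ‖Complex.exp (-(y * x)) - Complex.exp (-(y' * x))‖ * 1 :=
        mul_le_mul_of_nonneg_left h7 (norm_nonneg _)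
    _ ≤ (x * Real.exp (-(a * x))) * ‖y - y'‖ := by rw [mul_one]; exact h6
    _ = ‖y - y'‖ * (x ^ 1 * Real.exp (-(a * x))) := by ring

theorem IA_wgt {w : ℝ → ℝ} (hw : Wgt w) {G : ℝ → ℂ} (hG : GG w G) (A : ℕ) {C₀ T j : ℝ}
    (hC : 0 < C₀) (hT : 0 < T) (hj : 0 < j) :
    ∫ v : ℝ, G v * IA A C₀ (2 * Real.pi * j * pv T v) =
      ((T / (2 * Real.pi * j) * ∫ u, w u * (1 - Real.exp (-(u * T / (2 * Real.pi * j * C₀)))) ^ A :
        ℝ) : ℂ) := by
  have hpi := Real.pi_pos
  set c : ℝ := 2 * Real.pi * j / T with hc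
  have hc0 : 0 < c := by positivity
  have hcT : (2 * Real.pi * j : ℂ) / T = (c : ℂ) := by
    rw [hc]
    push_cast
    ring
  have h1 : ∀ v : ℝ, 2 * Real.pi * j * pv T v = (c : ℂ) * (2 - 2 * Real.pi * Complex.I * v) := by
    intro v
    rw [pv, ← hcT]
    ring
  -- swap
  have h2 : ∀ v : ℝ, G v * IA A C₀ (2 * Real.pi * j * pv T v) =
      ∫ x in Set.Ioi (0 : ℝ), G v * (Complex.exp (-((c : ℂ) * (2 - 2 * Real.pi * Complex.I * v) * x)) *
        (((1 - Real.exp (-(x / C₀))) ^ A : ℝ) : ℂ)) := by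
    intro v
    rw [h1, IA, integral_const_mul]
  simp_rw [h2]
  rw [integral_integral_swap]
  · have h3 : ∀ x ∈ Set.Ioi (0 : ℝ), (∫ v : ℝ, G v *
        (Complex.exp (-((c : ℂ) * (2 - 2 * Real.pi * Complex.I * v) * x)) *
        (((1 - Real.exp (-(x / C₀))) ^ A : ℝ) : ℂ))) =
        ((w (c * x) * (1 - Real.exp (-(x / C₀))) ^ A : ℝ) : ℂ) := by
      intro x _
      have h4 := hG.eq (c * x)
      have h5 : ∀ v : ℝ, G v *
        (Complex.exp (-((c : ℂ) * (2 - 2 * Real.pi * Complex.I * v) * x)) *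
        (((1 - Real.exp (-(x / C₀))) ^ A : ℝ) : ℂ)) =
        (Complex.exp (-(2 * (c * x))) * (((1 - Real.exp (-(x / C₀))) ^ A : ℝ) : ℂ)) *
          (G v * Complex.exp ((2 * Real.pi * v * (c * x) : ℝ) * Complex.I)) := by
        intro v
        have e : -((c : ℂ) * (2 - 2 * Real.pi * Complex.I * v) * x) =
            -(2 * (c * x)) + ((2 * Real.pi * v * (c * x) : ℝ) : ℂ) * Complex.I := by
          push_cast
          ring
        rw [e, Complex.exp_add]
        ring
      simp_rw [h5]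
      rw [integral_const_mul, h4]
      have e2 : Complex.exp (-(2 * ((c : ℂ) * x))) = ((Real.exp (-(2 * (c * x))) : ℝ) : ℂ) := by
        push_cast
        rfl
      rw [e2, ← Complex.ofReal_mul, ← Complex.ofReal_mul]
      congr 1
      have e3 : Real.exp (-(2 * (c * x))) * Real.exp (2 * (c * x)) = 1 := by
        rw [← Real.exp_add]
        simp
      linear_combination (1 - Real.exp (-(x / C₀))) ^ A * w (c * x) * e3
    rw [setIntegral_congr_fun measurableSet_Ioi h3, integral_complex_ofReal]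
    congr 1
    obtain ⟨a, ha, _, hsupp⟩ := hw.supp
    have h6 := integral_comp_mul_left_Ioi
      (fun u => w u * (1 - Real.exp (-(u / (c * C₀)))) ^ A) 0 hc0
    have h7 : ∀ x : ℝ, c * x / (c * C₀) = x / C₀ := by
      intro x
      field_simp
    simp only [h7, mul_zero, smul_eq_mul] at h6
    rw [h6]
    have h8 : (∫ u in Set.Ioi (0 : ℝ), w u * (1 - Real.exp (-(u / (c * C₀)))) ^ A) =
        ∫ u, w u * (1 - Real.exp (-(u / (c * C₀)))) ^ A := by
      refine setIntegral_eq_integral_of_forall_compl_eq_zero fun u hu => ?_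
      have : w u = 0 := hsupp u (Or.inl (by
        simp only [Set.mem_Ioi, not_lt] at hu
        linarith))
      rw [this, zero_mul]
    rw [h8, hc]
    congr 1
    · field_simp
    · refine integral_congr_ae (ae_of_all _ fun u => ?_)
      have : u / (2 * Real.pi * j / T * C₀) = u * T / (2 * Real.pi * j * C₀) := by
        field_simp
      simp only [this]
  · -- integrability on the product
    have hI : Integrable (fun p : ℝ × ℝ => ‖G p.1‖ * Real.exp (-((2 * c) * p.2)))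
        (volume.prod (volume.restrict (Set.Ioi 0))) :=
      hG.int.norm.mul_prod (DAN.exp_int (by positivity : 0 < 2 * c))
    refine hI.mono' ?_ ?_
    · have hm : Measurable fun p : ℝ × ℝ => G p.1 :=
        hG.cont.measurable.comp measurable_fst
      have hm2 : Continuous fun p : ℝ × ℝ =>
          (Complex.exp (-((c : ℂ) * (2 - 2 * Real.pi * Complex.I * p.1) * p.2)) *
          (((1 - Real.exp (-(p.2 / C₀))) ^ A : ℝ) : ℂ)) := by
        fun_prop
      exact (hm.mul hm2.measurable).aestronglyMeasurable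
    · have hae : ∀ᵐ p : ℝ × ℝ ∂(volume.prod (volume.restrict (Set.Ioi 0))), p.2 ∈ Set.Ioi (0 : ℝ) := by
        have h := (Measure.quasiMeasurePreserving_snd (μ := (volume : Measure ℝ))
          (ν := volume.restrict (Set.Ioi (0 : ℝ)))).ae
            (ae_restrict_mem (μ := (volume : Measure ℝ)) (s := Set.Ioi (0 : ℝ)) measurableSet_Ioi)
        exact h
      filter_upwards [hae] with p hp
      have hp' : 0 < p.2 := hp
      obtain ⟨h3, h4, _⟩ := DAN.damp hC hp'
      simp only [Function.uncurry]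
      rw [norm_mul, norm_mul, Complex.norm_real, Real.norm_of_nonneg (pow_nonneg h3 A),
        Complex.norm_exp]
      have e : (-((c : ℂ) * (2 - 2 * Real.pi * Complex.I * p.1) * p.2)).re = -((2 * c) * p.2) := by
        simp
        left
        ring
      rw [e]
      have h5 : (1 - Real.exp (-(p.2 / C₀))) ^ A ≤ 1 := pow_le_one₀ h3 h4
      refine mul_le_mul_of_nonneg_left ?_ (norm_nonneg _)
      exact mul_le_of_le_one_right (Real.exp_pos _).le h5

end Pool.Agent.SixT
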