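import Mathlib
import Pool.Agent.Lib_MP_112ba8_t.Defs

/-!
Auxiliary facts for the pieces E1, E2, E3: directional derivatives of test functions, a class of
measures on the positive orthant, permutations of the factors of product measures.
-/

namespace Pool.Agent.SixT

open Filter Topology MeasureTheory

/-! ### directional derivatives -/

/-- the uncurried function -/
def mxU (N : ℝ → ℝ → ℝ → ℝ) : ℝ × ℝ × ℝ → ℝ := fun p => N p.1 p.2.1 p.2.2

/-- directional derivative -/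
noncomputable def mxd (v : ℝ × ℝ × ℝ) (N : ℝ → ℝ → ℝ → ℝ) (x y z : ℝ) : ℝ :=
  fderiv ℝ (mxU N) (x, y, z) v

lemma mx_curve (v : ℝ × ℝ × ℝ) {N : ℝ → ℝ → ℝ → ℝ} (hN : ContDiff ℝ (⊤ : ℕ∞) (mxU N))
    (x y z t : ℝ) :
    HasDerivAt (fun t : ℝ => N (x + t * v.1) (y + t * v.2.1) (z + t * v.2.2))
      (mxd v N (x + t * v.1) (y + t * v.2.1) (z + t * v.2.2)) t := by
  have h1 : HasFDerivAt (mxU N) (fderiv ℝ (mxU N) (x + t * v.1, y + t * v.2.1, z + t * v.2.2))
      (x + t * v.1, y + t * v.2.1, z + t * v.2.2) :=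
    (hN.differentiable (by simp)).differentiableAt.hasFDerivAt
  have hx : HasDerivAt (fun t : ℝ => x + t * v.1) v.1 t := by
    simpa using ((hasDerivAt_id t).mul_const v.1).const_add x
  have hy : HasDerivAt (fun t : ℝ => y + t * v.2.1) v.2.1 t := by
    simpa using ((hasDerivAt_id t).mul_const v.2.1).const_add y
  have hz : HasDerivAt (fun t : ℝ => z + t * v.2.2) v.2.2 t := by
    simpa using ((hasDerivAt_id t).mul_const v.2.2).const_add z
  have h2 : HasDerivAt (fun t : ℝ => (x + t * v.1, y + t * v.2.1, z + t * v.2.2)) v t := by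
    have := hx.prodMk (hy.prodMk hz)
    exact this
  exact h1.comp_hasDerivAt t h2

lemma mx_deriv (v : ℝ × ℝ × ℝ) {N : ℝ → ℝ → ℝ → ℝ} (hN : ContDiff ℝ (⊤ : ℕ∞) (mxU N))
    (x y z : ℝ) :
    deriv (fun t : ℝ => N (x + t * v.1) (y + t * v.2.1) (z + t * v.2.2)) 0 = mxd v N x y z := by
  have h := (mx_curve v hN x y z 0).deriv
  rw [h]
  simp

lemma mx_D12 {N : ℝ → ℝ → ℝ → ℝ} (hN : ContDiff ℝ (⊤ : ℕ∞) (mxU N)) :
    D12 N = mxd (1, -1, 0) N := by
  funext x y z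
  rw [← mx_deriv (1, -1, 0) hN x y z]
  unfold D12
  congr 1
  funext t
  simp [sub_eq_add_neg]

lemma mx_D13 {N : ℝ → ℝ → ℝ → ℝ} (hN : ContDiff ℝ (⊤ : ℕ∞) (mxU N)) :
    D13 N = mxd (1, 0, 1) N := by
  funext x y z
  rw [← mx_deriv (1, 0, 1) hN x y z]
  unfold D13
  congr 1
  funext t
  simp

lemma mx_D23 {N : ℝ → ℝ → ℝ → ℝ} (hN : ContDiff ℝ (⊤ : ℕ∞) (mxU N)) :
    D23 N = mxd (0, 1, 1) N := by
  funext x y z
  rw [← mx_deriv (0, 1, 1) hN x y z]
  unfold D23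
  congr 1
  funext t
  simp

lemma mx_smooth (v : ℝ × ℝ × ℝ) {N : ℝ → ℝ → ℝ → ℝ} (hN : ContDiff ℝ (⊤ : ℕ∞) (mxU N)) :
    ContDiff ℝ (⊤ : ℕ∞) (mxU (mxd v N)) := by
  have h : ContDiff ℝ (⊤ : ℕ∞) (fun p : ℝ × ℝ × ℝ => fderiv ℝ (mxU N) p v) :=
    (hN.fderiv_right (m := (⊤ : ℕ∞)) (by simp)).clm_apply contDiff_const
  exact h

lemma mx_comm (v w : ℝ × ℝ × ℝ) {N : ℝ → ℝ → ℝ → ℝ} (hN : ContDiff ℝ (⊤ : ℕ∞) (mxU N)) :
    mxd v (mxd w N) = mxd w (mxd v N) := by
  have key : ∀ (a b : ℝ × ℝ × ℝ) (p : ℝ × ℝ × ℝ),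
      fderiv ℝ (fun q => fderiv ℝ (mxU N) q b) p a = fderiv ℝ (fderiv ℝ (mxU N)) p a b := by
    intro a b p
    have hd : DifferentiableAt ℝ (fderiv ℝ (mxU N)) p :=
      ((hN.fderiv_right (m := (⊤ : ℕ∞)) (by simp)).differentiable (by simp)).differentiableAt
    rw [fderiv_clm_apply hd (differentiableAt_const b)]
    simp
  funext x y z
  have h1 : mxd v (mxd w N) x y z = fderiv ℝ (fun q => fderiv ℝ (mxU N) q w) (x, y, z) v := rfl
  have h2 : mxd w (mxd v N) x y z = fderiv ℝ (fun q => fderiv ℝ (mxU N) q v) (x, y, z) w := rfl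
  rw [h1, h2, key, key]
  have hs : IsSymmSndFDerivAt ℝ (mxU N) (x, y, z) := by
    apply ContDiffAt.isSymmSndFDerivAt (n := (⊤ : ℕ∞)) hN.contDiffAt
    simp only [minSmoothness_of_isRCLikeNormedField]
    exact WithTop.coe_le_coe.2 (le_top : (2 : ℕ∞) ≤ ⊤)
  exact hs v w

lemma mx_Tst (v : ℝ × ℝ × ℝ) {N : ℝ → ℝ → ℝ → ℝ} (hN : Tst N) : Tst (mxd v N) := by
  refine ⟨mx_smooth v hN.smooth, ?_⟩
  obtain ⟨a, b, ha, hab⟩ := hN.supp
  refine ⟨a, b, ha, ?_⟩
  intro x y z hxyz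
  have hopen : IsOpen {p : ℝ × ℝ × ℝ | p.1 < a ∨ p.2.1 < a ∨ p.2.2 < a ∨ b < p.1 ∨ b < p.2.1 ∨
      b < p.2.2} := by
    have c1 : Continuous fun p : ℝ × ℝ × ℝ => p.1 := by fun_prop
    have c2 : Continuous fun p : ℝ × ℝ × ℝ => p.2.1 := by fun_prop
    have c3 : Continuous fun p : ℝ × ℝ × ℝ => p.2.2 := by fun_prop
    exact (isOpen_lt c1 continuous_const).union ((isOpen_lt c2 continuous_const).union
      ((isOpen_lt c3 continuous_const).union ((isOpen_lt continuous_const c1).union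
        ((isOpen_lt continuous_const c2).union (isOpen_lt continuous_const c3)))))
  have hev : mxU N =ᶠ[𝓝 (x, y, z)] fun _ => (0 : ℝ) := by
    filter_upwards [hopen.mem_nhds (show ((x, y, z) : ℝ × ℝ × ℝ) ∈ _ from hxyz)] with p hp
    exact hab p.1 p.2.1 p.2.2 hp
  unfold mxd
  rw [hev.fderiv_eq]
  simp

lemma mx_DD {M : ℝ → ℝ → ℝ → ℝ} (hM : Tst M) :
    DD M = mxd (0, 1, 1) (mxd (1, 0, 1) (mxd (1, -1, 0) M)) := by
  have h1 : ContDiff ℝ (⊤ : ℕ∞) (mxU M) := hM.smooth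
  unfold DD
  rw [mx_D23 h1, mx_D13 (mx_smooth _ h1), mx_D12 (mx_smooth _ (mx_smooth _ h1))]
  rw [mx_comm (1, -1, 0) (1, 0, 1) (mx_smooth _ h1), mx_comm (1, -1, 0) (0, 1, 1) h1,
    mx_comm (1, 0, 1) (0, 1, 1) (mx_smooth _ h1)]

lemma mx_bdd {N : ℝ → ℝ → ℝ → ℝ} (hN : Tst N) : ∃ C : ℝ, 0 ≤ C ∧ ∀ x y z, |N x y z| ≤ C := by
  obtain ⟨a, b, ha, hab⟩ := hN.supp
  have hc : Continuous (mxU N) := hN.smooth.continuous
  obtain ⟨C, hC⟩ := (isCompact_Icc (a := ((a, a, a) : ℝ × ℝ × ℝ)) (b := (b, b, b))).exists_bound_of_continuousOn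
    hc.continuousOn
  refine ⟨max C 0, le_max_right _ _, fun x y z => ?_⟩
  by_cases h : (x < a ∨ y < a ∨ z < a ∨ b < x ∨ b < y ∨ b < z)
  · rw [hab x y z h]; simp
  · push Not at h
    refine le_trans ?_ (le_max_left _ _)
    exact hC (x, y, z) ⟨⟨h.1, h.2.1, h.2.2.1⟩, ⟨h.2.2.2.1, h.2.2.2.2.1, h.2.2.2.2.2⟩⟩

lemma mx_cont {N : ℝ → ℝ → ℝ → ℝ} (hN : Tst N) : Continuous (mxU N) := hN.smooth.continuous

/-! ### measures on the positive orthant -/

/-- s-finite measures, finite on order intervals, and carried by the positive orthant -/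
class MxM {α : Type*} [MeasurableSpace α] [Preorder α] [Zero α] (μ : Measure α) : Prop where
  sf : SFinite μ
  fin : ∀ b : α, μ (Set.Iic b) < ⊤
  pos : ∀ᵐ y ∂μ, 0 ≤ y
  meas : ∀ b : α, MeasurableSet (Set.Iic b)

attribute [instance] MxM.sf

instance mxM_mu : MxM mu where
  sf := by unfold mu; infer_instance
  fin := by
    intro b
    unfold mu
    rw [Measure.restrict_apply measurableSet_Iic]
    have : Set.Iic b ∩ Set.Ioi (0 : ℝ) = Set.Ioc 0 b := by ext x; simp [and_comm]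
    rw [this]
    simp
  pos := by
    unfold mu
    filter_upwards [ae_restrict_mem measurableSet_Ioi] with y hy
    exact le_of_lt hy
  meas := fun b => measurableSet_Iic

instance mxM_dirac : MxM (Measure.dirac (0 : ℝ)) where
  sf := inferInstance
  fin := fun b => measure_lt_top _ _
  pos := by simp
  meas := fun b => measurableSet_Iic

instance mxM_prod {α β : Type*} [MeasurableSpace α] [Preorder α] [Zero α] [MeasurableSpace β]
    [Preorder β] [Zero β] (μ : Measure α) (ν : Measure β) [MxM μ] [MxM ν] :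
    MxM (μ.prod ν) where
  sf := inferInstance
  fin := by
    intro b
    rw [Set.Iic_prod_eq, Measure.prod_prod]
    exact ENNReal.mul_lt_top (MxM.fin b.1) (MxM.fin b.2)
  pos := by
    have h1 : ∀ᵐ y ∂(μ.prod ν), 0 ≤ y.1 :=
      Measure.quasiMeasurePreserving_fst.ae (MxM.pos (μ := μ))
    have h2 : ∀ᵐ y ∂(μ.prod ν), 0 ≤ y.2 :=
      Measure.quasiMeasurePreserving_snd.ae (MxM.pos (μ := ν))
    filter_upwards [h1, h2] with y hy1 hy2
    exact ⟨hy1, hy2⟩
  meas := by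
    intro b
    rw [Set.Iic_prod_eq]
    exact (MxM.meas (μ := μ) b.1).prod (MxM.meas (μ := ν) b.2)

lemma mx_int {α : Type*} [MeasurableSpace α] [Preorder α] [Zero α] (μ : Measure α) [MxM μ]
    {F : α → ℝ} (hF : Measurable F) (b : α) (C : ℝ) (h1 : ∀ y, 0 ≤ y → |F y| ≤ C)
    (h2 : ∀ y, 0 ≤ y → ¬ y ≤ b → F y = 0) : Integrable F μ := by
  have hm : MeasurableSet (Set.Iic b) := MxM.meas (μ := μ) b
  have h3 : IntegrableOn F (Set.Iic b) μ := by
    refine IntegrableOn.of_bound (MxM.fin b) hF.aestronglyMeasurable C ?_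
    filter_upwards [ae_restrict_of_ae (MxM.pos (μ := μ))] with y hy
    exact h1 y hy
  have h4 : (fun y => (Set.Iic b).indicator F y) =ᵐ[μ] F := by
    filter_upwards [MxM.pos (μ := μ)] with y hy
    by_cases hb : y ≤ b
    · exact Set.indicator_of_mem (show y ∈ Set.Iic b from hb) F
    · rw [h2 y hy hb]
      exact Set.indicator_of_notMem (show y ∉ Set.Iic b from hb) F
  exact ((integrable_indicator_iff hm).mpr h3).congr h4

/-! ### permutations of factors -/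

section perm

variable {α β γ δ : Type*} [MeasurableSpace α] [MeasurableSpace β] [MeasurableSpace γ]
  [MeasurableSpace δ]

lemma mx_assoc (μ : Measure α) (ν : Measure β) (ρ : Measure γ) [SFinite μ] [SFinite ν]
    [SFinite ρ] : MeasurePreserving (fun x : (α × β) × γ => (x.1.1, (x.1.2, x.2)))
      ((μ.prod ν).prod ρ) (μ.prod (ν.prod ρ)) :=
  ⟨by fun_prop, Measure.prodAssoc_prod⟩

lemma mx_assoc' (μ : Measure α) (ν : Measure β) (ρ : Measure γ) [SFinite μ] [SFinite ν]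
    [SFinite ρ] : MeasurePreserving (fun x : α × (β × γ) => ((x.1, x.2.1), x.2.2))
      (μ.prod (ν.prod ρ)) ((μ.prod ν).prod ρ) := by
  have h : MeasurePreserving (MeasurableEquiv.prodAssoc : (α × β) × γ ≃ᵐ α × β × γ)
      ((μ.prod ν).prod ρ) (μ.prod (ν.prod ρ)) := ⟨by fun_prop, Measure.prodAssoc_prod⟩
  exact h.symm _

lemma mx_swap (μ : Measure α) (ν : Measure β) [SFinite μ] [SFinite ν] :
    MeasurePreserving (fun x : α × β => (x.2, x.1)) (μ.prod ν) (ν.prod μ) :=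
  Measure.measurePreserving_swap

lemma mx_four (μ : Measure α) (ν : Measure β) (ρ : Measure γ) (σ : Measure δ) [SFinite μ]
    [SFinite ν] [SFinite ρ] [SFinite σ] :
    MeasurePreserving (fun x : (α × β) × (γ × δ) => ((x.1.1, x.2.1), (x.1.2, x.2.2)))
      ((μ.prod ν).prod (ρ.prod σ)) ((μ.prod ρ).prod (ν.prod σ)) := by
  -- (a,b),(c,d) → a,(b,(c,d)) → a,((b,c),d) → a,((c,b),d) → a,(c,(b,d)) → (a,c),(b,d)
  have h1 := mx_assoc μ ν (ρ.prod σ)
  have h2 := (MeasurePreserving.id μ).prod (mx_assoc' ν ρ σ)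
  have h3 := (MeasurePreserving.id μ).prod ((mx_swap ν ρ).prod (MeasurePreserving.id σ))
  have h4 := (MeasurePreserving.id μ).prod (mx_assoc ρ ν σ)
  have h5 := mx_assoc' μ ρ (ν.prod σ)
  exact h5.comp (h4.comp (h3.comp (h2.comp h1)))

/-- integrals under a measure preserving map -/
lemma mx_integral {μ : Measure α} {ν : Measure β} {f : α → β} (hf : MeasurePreserving f μ ν)
    {g : β → ℝ} (hg : Measurable g) : ∫ y, g y ∂ν = ∫ x, g (f x) ∂μ := by
  rw [← hf.map_eq, integral_map hf.measurable.aemeasurable hg.aestronglyMeasurable]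

end perm

/-! ### the shear `(α, β) ↦ (α, α + β)` -/

lemma mx_mumu : mu.prod mu = (volume : Measure (ℝ × ℝ)).restrict (Set.Ioi 0 ×ˢ Set.Ioi 0) := by
  unfold mu
  rw [Measure.prod_restrict, Measure.volume_eq_prod]

lemma mx_shear (f : ℝ → ℝ → ℝ) :
    ∫ p, f p.1 (p.1 + p.2) ∂(mu.prod mu) =
      ∫ p, (if p.1 < p.2 then f p.1 p.2 else 0) ∂(mu.prod mu) := by
  have h0 : MeasurePreserving (MeasurableEquiv.shearAddRight ℝ)
      (volume : Measure (ℝ × ℝ)) (volume : Measure (ℝ × ℝ)) := by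
    have := measurePreserving_prod_add (volume : Measure ℝ) (volume : Measure ℝ)
    exact this
  have hs : MeasurableSet {p : ℝ × ℝ | 0 < p.1 ∧ p.1 < p.2} :=
    (measurableSet_lt measurable_const measurable_fst).inter
      (measurableSet_lt measurable_fst measurable_snd)
  have h1 := h0.restrict_preimage hs
  have h2 : (MeasurableEquiv.shearAddRight ℝ) ⁻¹' {p : ℝ × ℝ | 0 < p.1 ∧ p.1 < p.2} =
      (Set.Ioi 0 ×ˢ Set.Ioi 0 : Set (ℝ × ℝ)) := by
    ext p
    have : (MeasurableEquiv.shearAddRight ℝ) p = (p.1, p.1 + p.2) := rfl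
    simp [this]
  rw [h2, ← mx_mumu] at h1
  have h3 := h1.integral_comp' (g := fun p : ℝ × ℝ => f p.1 p.2)
  have h4 : ∀ p, (MeasurableEquiv.shearAddRight ℝ) p = (p.1, p.1 + p.2) := fun p => rfl
  simp only [h4] at h3
  rw [h3]
  have h5 : {p : ℝ × ℝ | 0 < p.1 ∧ p.1 < p.2} =
      {p : ℝ × ℝ | p.1 < p.2} ∩ (Set.Ioi 0 ×ˢ Set.Ioi 0) := by
    ext p
    simp only [Set.mem_ofPred_eq, Set.mem_inter_iff, Set.mem_prod, Set.mem_Ioi]
    constructor
    · rintro ⟨h, h'⟩; exact ⟨h', h, h.trans h'⟩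
    · rintro ⟨h, h', _⟩; exact ⟨h', h⟩
  have h6 : MeasurableSet {p : ℝ × ℝ | p.1 < p.2} := measurableSet_lt measurable_fst measurable_snd
  rw [h5, ← Measure.restrict_restrict h6, ← mx_mumu, ← integral_indicator h6]
  rfl

end Pool.Agent.SixT
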