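import Mathlib
import Pool.Agent.Lib_MP_112ba8_t.MixA

/-!
The common generalization of E2 and E3: the law of `y₀₀` is any measure `ν` of class `MxM`
(`ν = mu` for E2, `ν = dirac 0` for E3).
-/

namespace Pool.Agent.SixT

open Filter Topology MeasureTheory

lemma mx_rc {α β γ : Type*} [MeasurableSpace α] [MeasurableSpace β] [MeasurableSpace γ]
    (μ : Measure α) (ν : Measure β) (ρ : Measure γ) [SFinite μ] [SFinite ν] [SFinite ρ] :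
    MeasurePreserving (fun x : (α × β) × γ => ((x.1.1, x.2), x.1.2))
      ((μ.prod ν).prod ρ) ((μ.prod ρ).prod ν) := by
  have h1 := mx_assoc μ ν ρ
  have h2 := (MeasurePreserving.id μ).prod (mx_swap ν ρ)
  have h3 := mx_assoc' μ ρ ν
  exact h3.comp (h2.comp h1)

/-- fundamental theorem of calculus along a ray -/
lemma mx_ftc (v : ℝ × ℝ × ℝ) (hv : v.2.2 = 1) {P : ℝ → ℝ → ℝ → ℝ} (hP : Tst P) (x y z : ℝ) :
    ∫ t, mxd v P (x + t * v.1) (y + t * v.2.1) (z + t * v.2.2) ∂mu = - P x y z := by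
  obtain ⟨a, b, ha, hab⟩ := hP.supp
  obtain ⟨a', b', ha', hab'⟩ := (mx_Tst v hP).supp
  obtain ⟨C, hC0, hC⟩ := mx_bdd (mx_Tst v hP)
  have hmeas : Measurable fun t : ℝ => mxd v P (x + t * v.1) (y + t * v.2.1) (z + t * v.2.2) := by
    have h1 := mx_cont (mx_Tst v hP)
    have h2 : Continuous fun t : ℝ =>
        ((x + t * v.1, y + t * v.2.1, z + t * v.2.2) : ℝ × ℝ × ℝ) := by fun_prop
    exact (h1.comp h2).measurable
  have hint : Integrable (fun t : ℝ => mxd v P (x + t * v.1) (y + t * v.2.1) (z + t * v.2.2)) mu := by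
    refine mx_int mu hmeas (b' - z) C (fun t _ => hC _ _ _) (fun t _ ht => ?_)
    apply hab'
    right; right; right; right; right
    rw [hv]
    push Not at ht
    linarith
  have htend : Tendsto (fun t : ℝ => P (x + t * v.1) (y + t * v.2.1) (z + t * v.2.2)) atTop
      (𝓝 0) := by
    refine (tendsto_const_nhds (x := (0 : ℝ))).congr' ?_
    filter_upwards [eventually_gt_atTop (b - z)] with t ht
    symm
    apply hab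
    right; right; right; right; right
    rw [hv]
    linarith
  have h := integral_Ioi_of_hasDerivAt_of_tendsto' (a := (0 : ℝ))
    (f := fun t : ℝ => P (x + t * v.1) (y + t * v.2.1) (z + t * v.2.2))
    (f' := fun t : ℝ => mxd v P (x + t * v.1) (y + t * v.2.1) (z + t * v.2.2))
    (m := 0) (fun t _ => mx_curve v hP.smooth x y z t) hint htend
  unfold mu
  rw [h]
  simp

lemma mx_step1_int {M : ℝ → ℝ → ℝ → ℝ} (hM : Tst M) (X Y Z : ℝ) :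
    Integrable (fun p : ℝ × ℝ => DD M (X + p.1) (Y + p.2) (Z + p.1 + p.2)) (mu.prod mu) := by
  have tQ : Tst (DD M) := by rw [mx_DD hM]; exact mx_Tst _ (mx_Tst _ (mx_Tst _ hM))
  obtain ⟨a', b', ha', hab'⟩ := tQ.supp
  obtain ⟨C, hC0, hC⟩ := mx_bdd tQ
  refine mx_int (mu.prod mu) ?_ (b' - X, b' - Y) C (fun t _ => hC _ _ _) (fun p _ hp => ?_)
  · have h2 : Continuous fun p : ℝ × ℝ =>
      ((X + p.1, Y + p.2, Z + p.1 + p.2) : ℝ × ℝ × ℝ) := by fun_prop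
    exact ((mx_cont tQ).comp h2).measurable
  · apply hab'
    by_cases h : p.1 ≤ b' - X
    · have h2 : ¬ p.2 ≤ b' - Y := fun h2 => hp ⟨h, h2⟩
      right; right; right; right; left
      push Not at h2
      linarith
    · right; right; right; left
      push Not at h
      linarith

/-- Step 1, iterated form -/
lemma mx_step1' {M : ℝ → ℝ → ℝ → ℝ} (hM : Tst M) (X Y Z : ℝ) :
    ∫ u in Set.Ioi (0 : ℝ), ∫ u' in Set.Ioi (0 : ℝ), DD M (X + u) (Y + u') (Z + u + u') =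
      D12 M X Y Z := by
  rw [mx_DD hM, mx_D12 hM.smooth]
  set N := mxd (1, -1, 0) M with hN
  have tN : Tst N := mx_Tst _ hM
  set P := mxd (1, 0, 1) N with hP
  have tP : Tst P := mx_Tst _ tN
  have h1 : ∀ x : ℝ, ∫ y in Set.Ioi (0 : ℝ), mxd (0, 1, 1) P (X + x) (Y + y) (Z + x + y) =
      - P (X + x) Y (Z + x) := by
    intro x
    have := mx_ftc (0, 1, 1) rfl tP (X + x) Y (Z + x)
    simpa [mu] using this
  simp only [h1]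
  rw [integral_neg]
  have := mx_ftc (1, 0, 1) rfl tN X Y Z
  simp only [mul_one, mul_zero, add_zero, mu] at this
  rw [this, neg_neg]

/-- Step 1 -/
lemma mx_step1 {M : ℝ → ℝ → ℝ → ℝ} (hM : Tst M) (X Y Z : ℝ) :
    ∫ p, DD M (X + p.1) (Y + p.2) (Z + p.1 + p.2) ∂(mu.prod mu) = D12 M X Y Z := by
  rw [integral_prod _ (mx_step1_int hM X Y Z)]
  exact mx_step1' hM X Y Z

/-- Step 2 -/
lemma mx_step2 {M : ℝ → ℝ → ℝ → ℝ} (hM : Tst M) {h : ℝ → ℝ} (hh : Measurable h) {C' K : ℝ}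
    (hb : ∀ a, 0 ≤ a → |h a| ≤ C') (hK : ∀ a, K ≤ a → h a = 0) (q y z : ℝ) :
    ∫ p, h (p.1 + p.2) * D12 M (p.1 + q) (p.2 + y) z ∂(mu.prod mu) =
      ∫ a, h a * (M (a + q) y z - M q (a + y) z) ∂mu := by
  rw [mx_D12 hM.smooth]
  set N := mxd (1, -1, 0) M with hN
  have tN : Tst N := mx_Tst _ hM
  obtain ⟨C, hC0, hC⟩ := mx_bdd tN
  have e1 : ∫ p, h (p.1 + p.2) * N (p.1 + q) (p.2 + y) z ∂(mu.prod mu) =
      ∫ p, (fun α a => h a * N (α + q) (a - α + y) z) p.1 (p.1 + p.2) ∂(mu.prod mu) := by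
    congr 1
    funext p
    simp
  rw [e1, mx_shear (fun α a => h a * N (α + q) (a - α + y) z)]
  have hmeas : Measurable fun p : ℝ × ℝ =>
      (if p.1 < p.2 then h p.2 * N (p.1 + q) (p.2 - p.1 + y) z else 0) := by
    refine Measurable.ite (measurableSet_lt measurable_fst measurable_snd) ?_ measurable_const
    refine (hh.comp measurable_snd).mul ?_
    have h2 : Continuous fun p : ℝ × ℝ =>
      ((p.1 + q, p.2 - p.1 + y, z) : ℝ × ℝ × ℝ) := by fun_prop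
    exact ((mx_cont tN).comp h2).measurable
  have hint : Integrable (fun p : ℝ × ℝ =>
      (if p.1 < p.2 then h p.2 * N (p.1 + q) (p.2 - p.1 + y) z else 0)) (mu.prod mu) := by
    refine mx_int (mu.prod mu) hmeas (K, K) (C' * C) (fun p hp => ?_) (fun p hp hp' => ?_)
    · have hC' : 0 ≤ C' := (abs_nonneg _).trans (hb 0 le_rfl)
      split_ifs
      · rw [abs_mul]
        exact mul_le_mul (hb _ hp.2) (hC _ _ _) (abs_nonneg _) hC'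
      · simpa using mul_nonneg hC' hC0
    · split_ifs with hlt
      · have : K ≤ p.2 := by
          by_contra hcon
          push Not at hcon
          exact hp' ⟨(hlt.trans hcon).le, hcon.le⟩
        rw [hK _ this, zero_mul]
      · rfl
  rw [integral_prod_symm _ hint]
  apply integral_congr_ae
  filter_upwards [MxM.pos (μ := mu)] with a ha
  have e2 : ∀ x : ℝ, (if x < a then h a * N (x + q) (a - x + y) z else 0) =
      (Set.Iio a).indicator (fun x => h a * N (x + q) (a - x + y) z) x := by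
    intro x
    by_cases hx : x < a
    · rw [if_pos hx, Set.indicator_of_mem (show x ∈ Set.Iio a from hx)]
    · rw [if_neg hx, Set.indicator_of_notMem (show x ∉ Set.Iio a from hx)]
  simp only [e2]
  rw [integral_indicator measurableSet_Iio]
  unfold mu
  rw [Measure.restrict_restrict measurableSet_Iio, Set.Iio_inter_Ioi, ← integral_Ioc_eq_integral_Ioo,
    ← intervalIntegral.integral_of_le ha, intervalIntegral.integral_const_mul]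
  congr 1
  have hcurve : ∀ t : ℝ, HasDerivAt (fun t : ℝ => M (t + q) (a - t + y) z)
      (N (t + q) (a - t + y) z) t := by
    intro t
    have := mx_curve (1, -1, 0) hM.smooth q (a + y) z t
    simp only [mul_one, mul_neg, mul_zero, add_zero] at this
    have e3 : ∀ s : ℝ, q + s = s + q := fun s => add_comm _ _
    have e4 : ∀ s : ℝ, a + y + -s = a - s + y := fun s => by ring
    simp only [e3, e4] at this
    exact this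
  have hcont : Continuous fun t : ℝ => N (t + q) (a - t + y) z := by
    have h2 : Continuous fun t : ℝ =>
      ((t + q, a - t + y, z) : ℝ × ℝ × ℝ) := by fun_prop
    exact (mx_cont tN).comp h2
  rw [intervalIntegral.integral_eq_sub_of_hasDerivAt (fun t _ => hcurve t)
    (hcont.intervalIntegrable _ _)]
  simp

section generic

variable (ν : Measure ℝ) [MxM ν]

/-- the six-fold function -/
def mxE (M H : ℝ → ℝ → ℝ → ℝ) (x : (ℝ × ((ℝ × (ℝ × ℝ)) × ℝ)) × ℝ) : ℝ :=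
  H (x.1.1 + x.2) (x.1.2.1.1 + x.1.2.1.2.1 + x.1.2.1.2.2) (x.1.1 + x.1.2.1.1 + x.1.2.2) *
    M (x.2 + x.1.2.1.2.1) x.1.2.1.2.2 x.1.2.2

lemma mx_Hb {H : ℝ → ℝ → ℝ → ℝ} {B : ℝ}
    (hB : ∀ s₀ s₁ r₀, |s₀| ≤ B → |s₁| ≤ B → |r₀| ≤ B → |H s₀ s₁ r₀| ≤ B)
    (hB1 : ∀ s₀ s₁ r₀, B ≤ r₀ → H s₀ s₁ r₀ = 0) (hB2 : ∀ s₀ s₁ r₀, B ≤ s₀ → H s₀ s₁ r₀ = 0)
    (hB3 : ∀ s₀ s₁ r₀, B ≤ s₁ → H s₀ s₁ r₀ = 0) (s₀ s₁ r₀ : ℝ) (h0 : 0 ≤ s₀) (h1 : 0 ≤ s₁)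
    (h2 : 0 ≤ r₀) : |H s₀ s₁ r₀| ≤ |B| := by
  by_cases c1 : B ≤ r₀
  · rw [hB1 _ _ _ c1]; simp
  by_cases c2 : B ≤ s₀
  · rw [hB2 _ _ _ c2]; simp
  by_cases c3 : B ≤ s₁
  · rw [hB3 _ _ _ c3]; simp
  push Not at c1 c2 c3
  refine (hB s₀ s₁ r₀ ?_ ?_ ?_).trans (le_abs_self B)
  · rw [abs_of_nonneg h0]; exact c2.le
  · rw [abs_of_nonneg h1]; exact c3.le
  · rw [abs_of_nonneg h2]; exact c1.le

lemma mx_E_meas {M H : ℝ → ℝ → ℝ → ℝ} (hM : Tst M)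
    (hH : Measurable fun p : ℝ × ℝ × ℝ => H p.1 p.2.1 p.2.2) : Measurable (mxE M H) := by
  have c1 : Measurable fun x : (ℝ × ((ℝ × (ℝ × ℝ)) × ℝ)) × ℝ =>
      ((x.1.1 + x.2, x.1.2.1.1 + x.1.2.1.2.1 + x.1.2.1.2.2, x.1.1 + x.1.2.1.1 + x.1.2.2) :
        ℝ × ℝ × ℝ) := by fun_prop
  have c2 : Measurable fun x : (ℝ × ((ℝ × (ℝ × ℝ)) × ℝ)) × ℝ =>
      ((x.2 + x.1.2.1.2.1, x.1.2.1.2.2, x.1.2.2) : ℝ × ℝ × ℝ) := by fun_prop
  exact (hH.comp c1).mul ((mx_cont hM).measurable.comp c2)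

lemma mx_E_int {M H : ℝ → ℝ → ℝ → ℝ} (hM : Tst M)
    (hH : Measurable fun p : ℝ × ℝ × ℝ => H p.1 p.2.1 p.2.2) {B : ℝ}
    (hB : ∀ s₀ s₁ r₀, |s₀| ≤ B → |s₁| ≤ B → |r₀| ≤ B → |H s₀ s₁ r₀| ≤ B)
    (hB1 : ∀ s₀ s₁ r₀, B ≤ r₀ → H s₀ s₁ r₀ = 0) (hB2 : ∀ s₀ s₁ r₀, B ≤ s₀ → H s₀ s₁ r₀ = 0)
    (hB3 : ∀ s₀ s₁ r₀, B ≤ s₁ → H s₀ s₁ r₀ = 0) :
    Integrable (mxE M H) ((ν.prod ((mu.prod (mu.prod mu)).prod mu)).prod mu) := by
  obtain ⟨C, hC0, hC⟩ := mx_bdd hM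
  refine mx_int _ (mx_E_meas hM hH) ((B, ((B, (B, B)), B)), B) (|B| * C) (fun x hx => ?_)
    (fun x hx hx' => ?_)
  · obtain ⟨⟨h1, ⟨⟨h2, h3, h4⟩, h5⟩⟩, h6⟩ := hx
    simp only [Prod.fst_zero, Prod.snd_zero] at h1 h2 h3 h4 h5 h6
    unfold mxE
    rw [abs_mul]
    exact mul_le_mul (mx_Hb hB hB1 hB2 hB3 _ _ _ (by positivity) (by positivity) (by positivity))
      (hC _ _ _) (abs_nonneg _) (abs_nonneg _)
  · obtain ⟨⟨h1, ⟨⟨h2, h3, h4⟩, h5⟩⟩, h6⟩ := hx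
    simp only [Prod.fst_zero, Prod.snd_zero] at h1 h2 h3 h4 h5 h6
    unfold mxE
    by_cases c1 : B ≤ x.1.1 + x.2
    · rw [hB2 _ _ _ c1, zero_mul]
    by_cases c2 : B ≤ x.1.2.1.1 + x.1.2.1.2.1 + x.1.2.1.2.2
    · rw [hB3 _ _ _ c2, zero_mul]
    by_cases c3 : B ≤ x.1.1 + x.1.2.1.1 + x.1.2.2
    · rw [hB1 _ _ _ c3, zero_mul]
    push Not at c1 c2 c3
    exfalso
    apply hx'
    refine ⟨⟨?_, ⟨⟨?_, ?_, ?_⟩, ?_⟩⟩, ?_⟩ <;> simp only <;> linarith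

/-- the nine-fold function -/
def mxF (M H : ℝ → ℝ → ℝ → ℝ) (y : (ℝ × (ℝ × ℝ)) × ((ℝ × (ℝ × ℝ)) × (ℝ × (ℝ × ℝ)))) : ℝ :=
  H (y.1.1 + y.1.2.1 + y.1.2.2) (y.2.1.1 + y.2.1.2.1 + y.2.1.2.2) (y.1.1 + y.2.1.1 + y.2.2.1) *
    M (y.1.2.1 + y.2.1.2.1 + y.2.2.2.1) (y.1.2.2 + y.2.1.2.2 + y.2.2.2.2)
      (y.2.2.1 + y.2.2.2.1 + y.2.2.2.2)

lemma mx_F_meas {M H : ℝ → ℝ → ℝ → ℝ} (hM : Tst M)
    (hH : Measurable fun p : ℝ × ℝ × ℝ => H p.1 p.2.1 p.2.2) : Measurable (mxF M H) := by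
  have c1 : Measurable fun y : (ℝ × (ℝ × ℝ)) × ((ℝ × (ℝ × ℝ)) × (ℝ × (ℝ × ℝ))) =>
      ((y.1.1 + y.1.2.1 + y.1.2.2, y.2.1.1 + y.2.1.2.1 + y.2.1.2.2, y.1.1 + y.2.1.1 + y.2.2.1) :
        ℝ × ℝ × ℝ) := by fun_prop
  have c2 : Measurable fun y : (ℝ × (ℝ × ℝ)) × ((ℝ × (ℝ × ℝ)) × (ℝ × (ℝ × ℝ))) =>
      ((y.1.2.1 + y.2.1.2.1 + y.2.2.2.1, y.1.2.2 + y.2.1.2.2 + y.2.2.2.2,
      y.2.2.1 + y.2.2.2.1 + y.2.2.2.2) : ℝ × ℝ × ℝ) := by fun_prop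
  exact (hH.comp c1).mul ((mx_cont hM).measurable.comp c2)

lemma mx_F_int {M H : ℝ → ℝ → ℝ → ℝ} (hM : Tst M)
    (hH : Measurable fun p : ℝ × ℝ × ℝ => H p.1 p.2.1 p.2.2) {B : ℝ}
    (hB : ∀ s₀ s₁ r₀, |s₀| ≤ B → |s₁| ≤ B → |r₀| ≤ B → |H s₀ s₁ r₀| ≤ B)
    (hB1 : ∀ s₀ s₁ r₀, B ≤ r₀ → H s₀ s₁ r₀ = 0) (hB2 : ∀ s₀ s₁ r₀, B ≤ s₀ → H s₀ s₁ r₀ = 0)
    (hB3 : ∀ s₀ s₁ r₀, B ≤ s₁ → H s₀ s₁ r₀ = 0) :
    Integrable (mxF M H) ((ν.prod (mu.prod mu)).prod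
      ((mu.prod (mu.prod mu)).prod (mu.prod (mu.prod mu)))) := by
  obtain ⟨C, hC0, hC⟩ := mx_bdd hM
  obtain ⟨a, b, ha, hab⟩ := hM.supp
  set K := max B b with hKdef
  have hK1 : B ≤ K := le_max_left _ _
  have hK2 : b ≤ K := le_max_right _ _
  refine mx_int _ (mx_F_meas hM hH) ((K, (K, K)), ((K, (K, K)), (K, (K, K)))) (|B| * C)
    (fun x hx => ?_) (fun x hx hx' => ?_)
  · obtain ⟨⟨h1, h2, h3⟩, ⟨⟨h4, h5, h6⟩, ⟨h7, h8, h9⟩⟩⟩ := hx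
    simp only [Prod.fst_zero, Prod.snd_zero] at h1 h2 h3 h4 h5 h6 h7 h8 h9
    unfold mxF
    rw [abs_mul]
    exact mul_le_mul (mx_Hb hB hB1 hB2 hB3 _ _ _ (by positivity) (by positivity) (by positivity))
      (hC _ _ _) (abs_nonneg _) (abs_nonneg _)
  · obtain ⟨⟨h1, h2, h3⟩, ⟨⟨h4, h5, h6⟩, ⟨h7, h8, h9⟩⟩⟩ := hx
    simp only [Prod.fst_zero, Prod.snd_zero] at h1 h2 h3 h4 h5 h6 h7 h8 h9
    unfold mxF
    by_cases c1 : B ≤ x.1.1 + x.1.2.1 + x.1.2.2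
    · rw [hB2 _ _ _ c1, zero_mul]
    by_cases c2 : B ≤ x.2.1.1 + x.2.1.2.1 + x.2.1.2.2
    · rw [hB3 _ _ _ c2, zero_mul]
    by_cases c3 : B ≤ x.1.1 + x.2.1.1 + x.2.2.1
    · rw [hB1 _ _ _ c3, zero_mul]
    by_cases c4 : b < x.1.2.1 + x.2.1.2.1 + x.2.2.2.1
    · rw [hab _ _ _ (Or.inr (Or.inr (Or.inr (Or.inl c4)))), mul_zero]
    by_cases c5 : b < x.1.2.2 + x.2.1.2.2 + x.2.2.2.2
    · rw [hab _ _ _ (Or.inr (Or.inr (Or.inr (Or.inr (Or.inl c5))))), mul_zero]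
    push Not at c1 c2 c3 c4 c5
    exfalso
    apply hx'
    refine ⟨⟨?_, ?_, ?_⟩, ⟨⟨?_, ?_, ?_⟩, ⟨?_, ?_, ?_⟩⟩⟩ <;> simp only <;> linarith

/-- Steps A, B -/
lemma mx_AB {M H : ℝ → ℝ → ℝ → ℝ} (hM : Tst M) (hA : Anti M)
    (hH : Measurable fun p : ℝ × ℝ × ℝ => H p.1 p.2.1 p.2.2) {B : ℝ}
    (hB : ∀ s₀ s₁ r₀, |s₀| ≤ B → |s₁| ≤ B → |r₀| ≤ B → |H s₀ s₁ r₀| ≤ B)
    (hB1 : ∀ s₀ s₁ r₀, B ≤ r₀ → H s₀ s₁ r₀ = 0) (hB2 : ∀ s₀ s₁ r₀, B ≤ s₀ → H s₀ s₁ r₀ = 0)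
    (hB3 : ∀ s₀ s₁ r₀, B ≤ s₁ → H s₀ s₁ r₀ = 0) :
    ∫ y, mxF (DD M) H y ∂((ν.prod (mu.prod mu)).prod
      ((mu.prod (mu.prod mu)).prod (mu.prod (mu.prod mu)))) =
    2 * ∫ x, mxE M H x ∂((ν.prod ((mu.prod (mu.prod mu)).prod mu)).prod mu) := by
  have tN : Tst (D12 M) := by rw [mx_D12 hM.smooth]; exact mx_Tst _ hM
  have tD : Tst (DD M) := by rw [mx_DD hM]; exact mx_Tst _ (mx_Tst _ (mx_Tst _ hM))
  have hHb := mx_Hb hB hB1 hB2 hB3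
  -- bring the last two variables out
  have pa : MeasurePreserving
      (fun w : ((ℝ × (ℝ × ℝ)) × ((ℝ × (ℝ × ℝ)) × ℝ)) × (ℝ × ℝ) =>
        (w.1.1, (w.1.2.1, (w.1.2.2, w.2))))
      (((ν.prod (mu.prod mu)).prod ((mu.prod (mu.prod mu)).prod mu)).prod (mu.prod mu))
      ((ν.prod (mu.prod mu)).prod ((mu.prod (mu.prod mu)).prod (mu.prod (mu.prod mu)))) :=
    ((MeasurePreserving.id _).prod (mx_assoc _ _ _)).comp (mx_assoc _ _ _)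
  have ia := pa.integrable_comp_of_integrable (mx_F_int ν tD hH hB hB1 hB2 hB3)
  rw [mx_integral pa (mx_F_meas tD hH)]
  have ea := integral_prod _ ia
  simp only [Function.comp_def] at ea
  rw [ea]
  have e1 : ∀ w : (ℝ × (ℝ × ℝ)) × ((ℝ × (ℝ × ℝ)) × ℝ),
      ∫ y, mxF (DD M) H (w.1, (w.2.1, (w.2.2, y))) ∂(mu.prod mu) =
      H (w.1.1 + w.1.2.1 + w.1.2.2) (w.2.1.1 + w.2.1.2.1 + w.2.1.2.2) (w.1.1 + w.2.1.1 + w.2.2) *
        D12 M (w.1.2.1 + w.2.1.2.1) (w.1.2.2 + w.2.1.2.2) w.2.2 := by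
    intro w
    unfold mxF
    dsimp only
    rw [integral_const_mul]
    congr 1
    exact mx_step1 hM _ _ _
  have ig := ia.integral_prod_left
  simp only [Function.comp_def, e1] at ig
  simp only [e1]
  -- bring `(α, β)` out
  have pb : MeasurePreserving
      (fun v : (ℝ × ((ℝ × (ℝ × ℝ)) × ℝ)) × (ℝ × ℝ) => ((v.1.1, v.2), v.1.2))
      ((ν.prod ((mu.prod (mu.prod mu)).prod mu)).prod (mu.prod mu))
      ((ν.prod (mu.prod mu)).prod ((mu.prod (mu.prod mu)).prod mu)) := mx_rc _ _ _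
  have mG : Measurable fun w : (ℝ × (ℝ × ℝ)) × ((ℝ × (ℝ × ℝ)) × ℝ) =>
      H (w.1.1 + w.1.2.1 + w.1.2.2) (w.2.1.1 + w.2.1.2.1 + w.2.1.2.2) (w.1.1 + w.2.1.1 + w.2.2) *
        D12 M (w.1.2.1 + w.2.1.2.1) (w.1.2.2 + w.2.1.2.2) w.2.2 := by
    have c1 : Measurable fun w : (ℝ × (ℝ × ℝ)) × ((ℝ × (ℝ × ℝ)) × ℝ) =>
      ((w.1.1 + w.1.2.1 + w.1.2.2, w.2.1.1 + w.2.1.2.1 + w.2.1.2.2, w.1.1 + w.2.1.1 + w.2.2) :
        ℝ × ℝ × ℝ) := by fun_prop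
    have c2 : Measurable fun w : (ℝ × (ℝ × ℝ)) × ((ℝ × (ℝ × ℝ)) × ℝ) =>
      ((w.1.2.1 + w.2.1.2.1, w.1.2.2 + w.2.1.2.2, w.2.2) : ℝ × ℝ × ℝ) := by fun_prop
    exact (hH.comp c1).mul ((mx_cont tN).measurable.comp c2)
  have ib := pb.integrable_comp_of_integrable ig
  rw [mx_integral pb mG]
  have eb := integral_prod _ ib
  simp only [Function.comp_def] at eb
  rw [eb]
  -- the full six-fold measure
  have iE := mx_E_int ν hM hH hB hB1 hB2 hB3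
  have ps : MeasurePreserving
      (fun x : (ℝ × ((ℝ × (ℝ × ℝ)) × ℝ)) × ℝ =>
        (((x.1.1, ((x.1.2.1.1, (x.1.2.1.2.2, x.1.2.1.2.1)), x.1.2.2)), x.2) :
          (ℝ × ((ℝ × (ℝ × ℝ)) × ℝ)) × ℝ))
      ((ν.prod ((mu.prod (mu.prod mu)).prod mu)).prod mu)
      ((ν.prod ((mu.prod (mu.prod mu)).prod mu)).prod mu) :=
    ((MeasurePreserving.id _).prod ((((MeasurePreserving.id _).prod (mx_swap _ _))).prod
      (MeasurePreserving.id _))).prod (MeasurePreserving.id _)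
  have iE' := ps.integrable_comp_of_integrable iE
  simp only [Function.comp_def] at iE'
  have e2 : ∫ v, ∫ p, H (v.1 + p.1 + p.2) (v.2.1.1 + v.2.1.2.1 + v.2.1.2.2)
        (v.1 + v.2.1.1 + v.2.2) * D12 M (p.1 + v.2.1.2.1) (p.2 + v.2.1.2.2) v.2.2
        ∂(mu.prod mu) ∂(ν.prod ((mu.prod (mu.prod mu)).prod mu)) =
      ∫ v, ∫ a, (mxE M H (v, a) +
        mxE M H ((v.1, ((v.2.1.1, (v.2.1.2.2, v.2.1.2.1)), v.2.2)), a)) ∂mu
        ∂(ν.prod ((mu.prod (mu.prod mu)).prod mu)) := by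
    apply integral_congr_ae
    filter_upwards [MxM.pos (μ := ν.prod ((mu.prod (mu.prod mu)).prod mu))] with v hv
    obtain ⟨h1, ⟨⟨h2, h3, h4⟩, h5⟩⟩ := hv
    simp only [Prod.fst_zero, Prod.snd_zero] at h1 h2 h3 h4 h5
    have hmh : Measurable fun a : ℝ => H (v.1 + a) (v.2.1.1 + v.2.1.2.1 + v.2.1.2.2)
        (v.1 + v.2.1.1 + v.2.2) := by
      have c1 : Measurable fun a : ℝ => ((v.1 + a, v.2.1.1 + v.2.1.2.1 + v.2.1.2.2,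
        v.1 + v.2.1.1 + v.2.2) : ℝ × ℝ × ℝ) := by fun_prop
      exact hH.comp c1
    have h6 := mx_step2 hM hmh (C' := |B|) (K := B)
      (fun a ha => hHb _ _ _ (by positivity) (by positivity) (by positivity))
      (fun a ha => hB2 _ _ _ (by linarith)) v.2.1.2.1 v.2.1.2.2 v.2.2
    simp only [← add_assoc] at h6
    rw [h6]
    congr 1
    funext a
    unfold mxE
    dsimp only
    rw [hA v.2.1.2.1 (a + v.2.1.2.2) v.2.2, add_right_comm v.2.1.1 v.2.1.2.2 v.2.1.2.1]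
    ring
  rw [e2]
  have e3 := integral_prod _ (iE.add iE')
  simp only [Pi.add_apply] at e3
  rw [← e3, integral_add iE iE', two_mul]
  congr 1
  exact (mx_integral ps (mx_E_meas hM hH)).symm

/-- the right side as a six-fold function -/
noncomputable def mxQ (M H : ℝ → ℝ → ℝ → ℝ) (x : (ℝ × (ℝ × ℝ)) × (ℝ × (ℝ × ℝ))) : ℝ :=
  if x.2.1 < x.1.1 then M x.1.1 x.1.2.1 x.1.2.2 *
    H (x.2.2.1 + x.1.1 - x.2.1) (x.2.2.2 + x.2.1 + x.1.2.1) (x.2.2.1 + x.2.2.2 + x.1.2.2) else 0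

lemma mx_Q_meas {M H : ℝ → ℝ → ℝ → ℝ} (hM : Tst M)
    (hH : Measurable fun p : ℝ × ℝ × ℝ => H p.1 p.2.1 p.2.2) : Measurable (mxQ M H) := by
  have c1 : Measurable fun x : (ℝ × (ℝ × ℝ)) × (ℝ × (ℝ × ℝ)) =>
      ((x.2.2.1 + x.1.1 - x.2.1, x.2.2.2 + x.2.1 + x.1.2.1, x.2.2.1 + x.2.2.2 + x.1.2.2) :
        ℝ × ℝ × ℝ) := by fun_prop
  have c2 : Measurable fun x : (ℝ × (ℝ × ℝ)) × (ℝ × (ℝ × ℝ)) =>
      ((x.1.1, x.1.2.1, x.1.2.2) : ℝ × ℝ × ℝ) := by fun_prop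
  exact Measurable.ite (measurableSet_lt (by fun_prop) (by fun_prop))
    (((mx_cont hM).measurable.comp c2).mul (hH.comp c1)) measurable_const

/-- bounds for `mxQ` -/
lemma mx_Q_bd {M H : ℝ → ℝ → ℝ → ℝ} (hM : Tst M) {B : ℝ}
    (hB : ∀ s₀ s₁ r₀, |s₀| ≤ B → |s₁| ≤ B → |r₀| ≤ B → |H s₀ s₁ r₀| ≤ B)
    (hB1 : ∀ s₀ s₁ r₀, B ≤ r₀ → H s₀ s₁ r₀ = 0) (hB2 : ∀ s₀ s₁ r₀, B ≤ s₀ → H s₀ s₁ r₀ = 0)
    (hB3 : ∀ s₀ s₁ r₀, B ≤ s₁ → H s₀ s₁ r₀ = 0) :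
    ∃ C K : ℝ, (∀ x, 0 ≤ x → |mxQ M H x| ≤ C) ∧
      (∀ x, 0 ≤ x → ¬ x ≤ ((K, (K, K)), (K, (K, K))) → mxQ M H x = 0) := by
  obtain ⟨C, hC0, hC⟩ := mx_bdd hM
  obtain ⟨a, b, ha, hab⟩ := hM.supp
  refine ⟨C * |B|, max B b, fun x hx => ?_, fun x hx hx' => ?_⟩
  · obtain ⟨⟨h1, h2, h3⟩, ⟨h4, h5, h6⟩⟩ := hx
    simp only [Prod.fst_zero, Prod.snd_zero] at h1 h2 h3 h4 h5 h6
    unfold mxQ
    split_ifs with h
    · rw [abs_mul]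
      exact mul_le_mul (hC _ _ _) (mx_Hb hB hB1 hB2 hB3 _ _ _ (by linarith) (by linarith)
        (by linarith)) (abs_nonneg _) hC0
    · simpa using mul_nonneg hC0 (abs_nonneg B)
  · obtain ⟨⟨h1, h2, h3⟩, ⟨h4, h5, h6⟩⟩ := hx
    simp only [Prod.fst_zero, Prod.snd_zero] at h1 h2 h3 h4 h5 h6
    set K := max B b with hKdef
    have hK1 : B ≤ K := le_max_left _ _
    have hK2 : b ≤ K := le_max_right _ _
    unfold mxQ
    split_ifs with h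
    · by_cases c1 : b < x.1.1
      · rw [hab _ _ _ (Or.inr (Or.inr (Or.inr (Or.inl c1)))), zero_mul]
      by_cases c2 : b < x.1.2.1
      · rw [hab _ _ _ (Or.inr (Or.inr (Or.inr (Or.inr (Or.inl c2))))), zero_mul]
      by_cases c3 : b < x.1.2.2
      · rw [hab _ _ _ (Or.inr (Or.inr (Or.inr (Or.inr (Or.inr c3))))), zero_mul]
      by_cases c4 : B ≤ x.2.2.1 + x.2.2.2 + x.1.2.2
      · rw [hB1 _ _ _ c4, mul_zero]
      push Not at c1 c2 c3 c4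
      exfalso
      apply hx'
      refine ⟨⟨?_, ?_, ?_⟩, ⟨?_, ?_, ?_⟩⟩ <;> simp only <;> linarith
    · rfl

/-- Step D -/
lemma mx_D {M H : ℝ → ℝ → ℝ → ℝ} (hM : Tst M)
    (hH : Measurable fun p : ℝ × ℝ × ℝ => H p.1 p.2.1 p.2.2) {B : ℝ}
    (hB : ∀ s₀ s₁ r₀, |s₀| ≤ B → |s₁| ≤ B → |r₀| ≤ B → |H s₀ s₁ r₀| ≤ B)
    (hB1 : ∀ s₀ s₁ r₀, B ≤ r₀ → H s₀ s₁ r₀ = 0) (hB2 : ∀ s₀ s₁ r₀, B ≤ s₀ → H s₀ s₁ r₀ = 0)
    (hB3 : ∀ s₀ s₁ r₀, B ≤ s₁ → H s₀ s₁ r₀ = 0) :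
    ∫ p, M p.1 p.2.1 p.2.2 * (∫ q in Set.Ioo 0 p.1, ∫ u, (∫ u' in Set.Ioi (0 : ℝ),
        H (u + p.1 - q) (u' + q + p.2.1) (u + u' + p.2.2)) ∂ν) ∂(mu.prod (mu.prod mu)) =
    ∫ x, mxQ M H x ∂((mu.prod (mu.prod mu)).prod (mu.prod (ν.prod mu))) := by
  obtain ⟨C, K, hC, hK⟩ := mx_Q_bd hM hB hB1 hB2 hB3
  have iQ : Integrable (mxQ M H) ((mu.prod (mu.prod mu)).prod (mu.prod (ν.prod mu))) :=
    mx_int _ (mx_Q_meas hM hH) ((K, (K, K)), (K, (K, K))) C hC hK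
  rw [integral_prod _ iQ]
  apply integral_congr_ae
  filter_upwards [MxM.pos (μ := mu.prod (mu.prod mu))] with p hp
  have i1 : Integrable (fun w => mxQ M H (p, w)) (mu.prod (ν.prod mu)) := by
    refine mx_int _ ((mx_Q_meas hM hH).comp measurable_prodMk_left) (K, (K, K)) C
      (fun w hw => hC _ ⟨hp, hw⟩) (fun w hw hw' => hK _ ⟨hp, hw⟩ ?_)
    exact fun h => hw' h.2
  rw [integral_prod _ i1]
  have e1 : ∀ q : ℝ, ∫ w, mxQ M H (p, (q, w)) ∂(ν.prod mu) =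
      (Set.Iio p.1).indicator (fun q => M p.1 p.2.1 p.2.2 * ∫ w, H (w.1 + p.1 - q)
        (w.2 + q + p.2.1) (w.1 + w.2 + p.2.2) ∂(ν.prod mu)) q := by
    intro q
    by_cases hq : q < p.1
    · rw [Set.indicator_of_mem (show q ∈ Set.Iio p.1 from hq), ← integral_const_mul]
      congr 1
      funext w
      unfold mxQ
      dsimp only
      rw [if_pos hq]
    · rw [Set.indicator_of_notMem (show q ∉ Set.Iio p.1 from hq)]
      unfold mxQ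
      dsimp only
      simp only [if_neg hq, integral_zero]
  simp only [e1]
  rw [integral_indicator measurableSet_Iio, integral_const_mul]
  congr 1
  unfold mu
  rw [Measure.restrict_restrict measurableSet_Iio, Set.Iio_inter_Ioi]
  apply setIntegral_congr_fun measurableSet_Ioo
  intro q hq
  dsimp only
  have i2 : Integrable (fun w : ℝ × ℝ => H (w.1 + p.1 - q) (w.2 + q + p.2.1)
      (w.1 + w.2 + p.2.2)) (ν.prod mu) := by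
    refine mx_int _ ?_ (B, B) |B| (fun w hw => ?_) (fun w hw hw' => ?_)
    · have c1 : Measurable fun w : ℝ × ℝ => ((w.1 + p.1 - q, w.2 + q + p.2.1,
        w.1 + w.2 + p.2.2) : ℝ × ℝ × ℝ) := by fun_prop
      exact hH.comp c1
    · obtain ⟨h1, h2⟩ := hw
      obtain ⟨h3, h4, h5⟩ := hp
      simp only [Prod.fst_zero, Prod.snd_zero] at h1 h2 h3 h4 h5
      have := hq.1
      have := hq.2
      exact mx_Hb hB hB1 hB2 hB3 _ _ _ (by linarith) (by linarith) (by linarith)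
    · obtain ⟨h1, h2⟩ := hw
      obtain ⟨h3, h4, h5⟩ := hp
      simp only [Prod.fst_zero, Prod.snd_zero] at h1 h2 h3 h4 h5
      apply hB1
      by_contra hcon
      push Not at hcon
      exact hw' ⟨by simp only; linarith, by simp only; linarith⟩
  exact (integral_prod _ i2).symm

/-- Step E -/
lemma mx_EQ {M H : ℝ → ℝ → ℝ → ℝ} (hM : Tst M)
    (hH : Measurable fun p : ℝ × ℝ × ℝ => H p.1 p.2.1 p.2.2) {B : ℝ}
    (hB : ∀ s₀ s₁ r₀, |s₀| ≤ B → |s₁| ≤ B → |r₀| ≤ B → |H s₀ s₁ r₀| ≤ B)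
    (hB1 : ∀ s₀ s₁ r₀, B ≤ r₀ → H s₀ s₁ r₀ = 0) (hB2 : ∀ s₀ s₁ r₀, B ≤ s₀ → H s₀ s₁ r₀ = 0)
    (hB3 : ∀ s₀ s₁ r₀, B ≤ s₁ → H s₀ s₁ r₀ = 0) :
    ∫ x, mxQ M H x ∂((mu.prod (mu.prod mu)).prod (mu.prod (ν.prod mu))) =
    ∫ x, mxE M H x ∂((ν.prod ((mu.prod (mu.prod mu)).prod mu)).prod mu) := by
  obtain ⟨C, K, hC, hK⟩ := mx_Q_bd hM hB hB1 hB2 hB3
  have iQ : Integrable (mxQ M H) ((mu.prod (mu.prod mu)).prod (mu.prod (ν.prod mu))) :=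
    mx_int _ (mx_Q_meas hM hH) ((K, (K, K)), (K, (K, K))) C hC hK
  -- `(((u,u'),(y,z)),(q,x)) ↦ ((x,(y,z)),(q,(u,u')))`
  have p3 : MeasurePreserving
      (fun v : ((ℝ × ℝ) × (ℝ × ℝ)) × (ℝ × ℝ) => ((v.2.2, v.1.2), (v.2.1, v.1.1)))
      (((ν.prod mu).prod (mu.prod mu)).prod (mu.prod mu))
      ((mu.prod (mu.prod mu)).prod (mu.prod (ν.prod mu))) := by
    have h1 := mx_swap ((ν.prod mu).prod (mu.prod mu)) (mu.prod mu)
    have h2 := mx_four mu mu (ν.prod mu) (mu.prod mu)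
    have h3 := mx_swap (mu.prod (ν.prod mu)) (mu.prod (mu.prod mu))
    exact h3.comp (h2.comp h1)
  have i3 := p3.integrable_comp_of_integrable iQ
  rw [mx_integral p3 (mx_Q_meas hM hH)]
  have e3 := integral_prod _ i3
  simp only [Function.comp_def] at e3
  rw [e3]
  have e4 : ∀ W : (ℝ × ℝ) × (ℝ × ℝ),
      ∫ v, mxQ M H ((v.2, W.2), (v.1, W.1)) ∂(mu.prod mu) =
      ∫ v, H (W.1.1 + v.2) (W.1.2 + v.1 + W.2.1) (W.1.1 + W.1.2 + W.2.2) *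
        M (v.2 + v.1) W.2.1 W.2.2 ∂(mu.prod mu) := by
    intro W
    have := mx_shear (fun q x => M x W.2.1 W.2.2 *
      H (W.1.1 + x - q) (W.1.2 + q + W.2.1) (W.1.1 + W.1.2 + W.2.2))
    unfold mxQ
    dsimp only
    rw [← this]
    congr 1
    funext v
    rw [mul_comm, add_comm v.1 v.2]
    congr 2
    ring
  simp only [e4]
  -- `((u,((u',(q,y)),z)),a) ↦ (((u,u'),(y,z)),(q,a))`
  have p2 : MeasurePreserving
      (fun x : (ℝ × ((ℝ × (ℝ × ℝ)) × ℝ)) × ℝ =>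
        (((x.1.1, x.1.2.1.1), (x.1.2.1.2.2, x.1.2.2)), (x.1.2.1.2.1, x.2)))
      ((ν.prod ((mu.prod (mu.prod mu)).prod mu)).prod mu)
      (((ν.prod mu).prod (mu.prod mu)).prod (mu.prod mu)) := by
    have h1 := mx_assoc ν ((mu.prod (mu.prod mu)).prod mu) mu
    have h2 := (MeasurePreserving.id ν).prod (mx_assoc (mu.prod (mu.prod mu)) mu mu)
    have h3 := (MeasurePreserving.id ν).prod (mx_assoc mu (mu.prod mu) (mu.prod mu))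
    have h4 := mx_assoc' ν mu ((mu.prod mu).prod (mu.prod mu))
    have h5 := (MeasurePreserving.id (ν.prod mu)).prod
      ((mx_swap mu mu).prod (MeasurePreserving.id (mu.prod mu)))
    have h6 := (MeasurePreserving.id (ν.prod mu)).prod (mx_four mu mu mu mu)
    have h7 := mx_assoc' (ν.prod mu) (mu.prod mu) (mu.prod mu)
    exact h7.comp (h6.comp (h5.comp (h4.comp (h3.comp (h2.comp h1)))))
  have mR : Measurable fun x : ((ℝ × ℝ) × (ℝ × ℝ)) × (ℝ × ℝ) =>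
      H (x.1.1.1 + x.2.2) (x.1.1.2 + x.2.1 + x.1.2.1) (x.1.1.1 + x.1.1.2 + x.1.2.2) *
        M (x.2.2 + x.2.1) x.1.2.1 x.1.2.2 := by
    have c1 : Measurable fun x : ((ℝ × ℝ) × (ℝ × ℝ)) × (ℝ × ℝ) =>
      ((x.1.1.1 + x.2.2, x.1.1.2 + x.2.1 + x.1.2.1, x.1.1.1 + x.1.1.2 + x.1.2.2) :
        ℝ × ℝ × ℝ) := by fun_prop
    have c2 : Measurable fun x : ((ℝ × ℝ) × (ℝ × ℝ)) × (ℝ × ℝ) =>
      ((x.2.2 + x.2.1, x.1.2.1, x.1.2.2) : ℝ × ℝ × ℝ) := by fun_prop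
    exact (hH.comp c1).mul ((mx_cont hM).measurable.comp c2)
  have iE := mx_E_int ν hM hH hB hB1 hB2 hB3
  have iR : Integrable (fun x : ((ℝ × ℝ) × (ℝ × ℝ)) × (ℝ × ℝ) =>
      H (x.1.1.1 + x.2.2) (x.1.1.2 + x.2.1 + x.1.2.1) (x.1.1.1 + x.1.1.2 + x.1.2.2) *
        M (x.2.2 + x.2.1) x.1.2.1 x.1.2.2) (((ν.prod mu).prod (mu.prod mu)).prod (mu.prod mu)) := by
    rw [← p2.integrable_comp mR.aestronglyMeasurable]
    exact iE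
  have e5 := integral_prod _ iR
  rw [← e5, mx_integral p2 mR]
  rfl

/-- the generic identity -/
theorem mx_main {M H : ℝ → ℝ → ℝ → ℝ} (hM : Tst M) (hA : Anti M)
    (hH : Measurable fun p : ℝ × ℝ × ℝ => H p.1 p.2.1 p.2.2) {B : ℝ}
    (hB : ∀ s₀ s₁ r₀, |s₀| ≤ B → |s₁| ≤ B → |r₀| ≤ B → |H s₀ s₁ r₀| ≤ B)
    (hB1 : ∀ s₀ s₁ r₀, B ≤ r₀ → H s₀ s₁ r₀ = 0) (hB2 : ∀ s₀ s₁ r₀, B ≤ s₀ → H s₀ s₁ r₀ = 0)
    (hB3 : ∀ s₀ s₁ r₀, B ≤ s₁ → H s₀ s₁ r₀ = 0) :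
    ∫ y, mxF (DD M) H y ∂((ν.prod (mu.prod mu)).prod
      ((mu.prod (mu.prod mu)).prod (mu.prod (mu.prod mu)))) =
    2 * ∫ p, M p.1 p.2.1 p.2.2 * (∫ q in Set.Ioo 0 p.1, ∫ u, (∫ u' in Set.Ioi (0 : ℝ),
        H (u + p.1 - q) (u' + q + p.2.1) (u + u' + p.2.2)) ∂ν) ∂(mu.prod (mu.prod mu)) := by
  rw [mx_AB ν hM hA hH hB hB1 hB2 hB3, mx_D ν hM hH hB hB1 hB2 hB3,
    mx_EQ ν hM hH hB hB1 hB2 hB3]

end generic

end Pool.Agent.SixT
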