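import Mathlib
import Pool.Agent.Lib_MP_112ba8_t.Defs

/-!
Piece E0 (about 150 lines) plus simple properties of `DD`, `CP` used by the others; please also add:
`DD_add : DD (fun x y z => M x y z + N x y z) = fun x y z => DD M x y z + DD N x y z` and
`DD_smul`, `CP_add`, `CP_smul`, `DD_support` (below).
`Tst_DD`: the directional derivatives of a smooth compactly supported function are smooth and vanish
where `M` vanishes in a neighbourhood.
-/

namespace Pool.Agent.SixT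

open Filter Topology MeasureTheory
open Pool.Agent.EvenMoment (cl Wgt Sz ker ar)

/-! ### vanishing on open sets -/

theorem TstDD_D12_zero {M : ℝ → ℝ → ℝ → ℝ} {U : Set (ℝ × ℝ × ℝ)} (hU : IsOpen U)
    (h : ∀ p ∈ U, M p.1 p.2.1 p.2.2 = 0) {x y z : ℝ} (hp : ((x, y, z) : ℝ × ℝ × ℝ) ∈ U) :
    D12 M x y z = 0 := by
  have hc : Continuous (fun t : ℝ => ((x + t, y - t, z) : ℝ × ℝ × ℝ)) := by fun_prop
  have h1 : ∀ᶠ t in 𝓝 (0 : ℝ), ((x + t, y - t, z) : ℝ × ℝ × ℝ) ∈ U := by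
    apply hc.continuousAt.eventually
    apply hU.mem_nhds
    simpa using hp
  have h2 : (fun t => M (x + t) (y - t) z) =ᶠ[𝓝 0] fun _ => (0 : ℝ) := by
    filter_upwards [h1] with t ht using h _ ht
  unfold D12
  rw [h2.deriv_eq]
  simp

theorem TstDD_D13_zero {M : ℝ → ℝ → ℝ → ℝ} {U : Set (ℝ × ℝ × ℝ)} (hU : IsOpen U)
    (h : ∀ p ∈ U, M p.1 p.2.1 p.2.2 = 0) {x y z : ℝ} (hp : ((x, y, z) : ℝ × ℝ × ℝ) ∈ U) :
    D13 M x y z = 0 := by
  have hc : Continuous (fun t : ℝ => ((x + t, y, z + t) : ℝ × ℝ × ℝ)) := by fun_prop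
  have h1 : ∀ᶠ t in 𝓝 (0 : ℝ), ((x + t, y, z + t) : ℝ × ℝ × ℝ) ∈ U := by
    apply hc.continuousAt.eventually
    apply hU.mem_nhds
    simpa using hp
  have h2 : (fun t => M (x + t) y (z + t)) =ᶠ[𝓝 0] fun _ => (0 : ℝ) := by
    filter_upwards [h1] with t ht using h _ ht
  unfold D13
  rw [h2.deriv_eq]
  simp

theorem TstDD_D23_zero {M : ℝ → ℝ → ℝ → ℝ} {U : Set (ℝ × ℝ × ℝ)} (hU : IsOpen U)
    (h : ∀ p ∈ U, M p.1 p.2.1 p.2.2 = 0) {x y z : ℝ} (hp : ((x, y, z) : ℝ × ℝ × ℝ) ∈ U) :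
    D23 M x y z = 0 := by
  have hc : Continuous (fun t : ℝ => ((x, y + t, z + t) : ℝ × ℝ × ℝ)) := by fun_prop
  have h1 : ∀ᶠ t in 𝓝 (0 : ℝ), ((x, y + t, z + t) : ℝ × ℝ × ℝ) ∈ U := by
    apply hc.continuousAt.eventually
    apply hU.mem_nhds
    simpa using hp
  have h2 : (fun t => M x (y + t) (z + t)) =ᶠ[𝓝 0] fun _ => (0 : ℝ) := by
    filter_upwards [h1] with t ht using h _ ht
  unfold D23
  rw [h2.deriv_eq]
  simp

theorem TstDD_DD_zero {M : ℝ → ℝ → ℝ → ℝ} {U : Set (ℝ × ℝ × ℝ)} (hU : IsOpen U)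
    (h : ∀ p ∈ U, M p.1 p.2.1 p.2.2 = 0) : ∀ p ∈ U, DD M p.1 p.2.1 p.2.2 = 0 := by
  intro p hp
  refine TstDD_D12_zero hU (fun q hq => ?_) hp
  refine TstDD_D13_zero hU (fun r hr => ?_) hq
  exact TstDD_D23_zero hU h hr

/-- support of `DD M`: if `M` vanishes off a closed set then so does `DD M` -/
theorem DD_support {M : ℝ → ℝ → ℝ → ℝ} {S : Set (ℝ × ℝ × ℝ)} (hS : IsClosed S)
    (h : ∀ p : ℝ × ℝ × ℝ, p ∉ S → M p.1 p.2.1 p.2.2 = 0) :
    ∀ p : ℝ × ℝ × ℝ, p ∉ S → DD M p.1 p.2.1 p.2.2 = 0 :=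
  TstDD_DD_zero (U := Sᶜ) hS.isOpen_compl h

/-! ### smoothness -/

theorem TstDD_hasDerivAt {F : ℝ × ℝ × ℝ → ℝ} (hF : Differentiable ℝ F) (p v : ℝ × ℝ × ℝ) :
    HasDerivAt (fun t : ℝ => F (p + t • v)) (fderiv ℝ F p v) 0 := by
  have h1 : HasDerivAt (fun t : ℝ => p + t • v) v 0 := by
    have := ((hasDerivAt_id (0 : ℝ)).smul_const v).const_add p
    simpa using this
  have h2 : HasFDerivAt F (fderiv ℝ F p) (p + (0 : ℝ) • v) := by
    have := (hF p).hasFDerivAt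
    simpa using this
  exact h2.comp_hasDerivAt (0 : ℝ) h1

theorem TstDD_D12_eq {M : ℝ → ℝ → ℝ → ℝ}
    (hM : Differentiable ℝ fun p : ℝ × ℝ × ℝ => M p.1 p.2.1 p.2.2) (x y z : ℝ) :
    D12 M x y z = fderiv ℝ (fun p : ℝ × ℝ × ℝ => M p.1 p.2.1 p.2.2) (x, y, z) (1, -1, 0) := by
  have h := (TstDD_hasDerivAt hM (x, y, z) (1, -1, 0)).deriv
  rw [← h]
  unfold D12
  congr 1
  funext t
  simp [sub_eq_add_neg]

theorem TstDD_D13_eq {M : ℝ → ℝ → ℝ → ℝ}
    (hM : Differentiable ℝ fun p : ℝ × ℝ × ℝ => M p.1 p.2.1 p.2.2) (x y z : ℝ) :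
    D13 M x y z = fderiv ℝ (fun p : ℝ × ℝ × ℝ => M p.1 p.2.1 p.2.2) (x, y, z) (1, 0, 1) := by
  have h := (TstDD_hasDerivAt hM (x, y, z) (1, 0, 1)).deriv
  rw [← h]
  unfold D13
  congr 1
  funext t
  simp

theorem TstDD_D23_eq {M : ℝ → ℝ → ℝ → ℝ}
    (hM : Differentiable ℝ fun p : ℝ × ℝ × ℝ => M p.1 p.2.1 p.2.2) (x y z : ℝ) :
    D23 M x y z = fderiv ℝ (fun p : ℝ × ℝ × ℝ => M p.1 p.2.1 p.2.2) (x, y, z) (0, 1, 1) := by
  have h := (TstDD_hasDerivAt hM (x, y, z) (0, 1, 1)).deriv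
  rw [← h]
  unfold D23
  congr 1
  funext t
  simp

theorem TstDD_smooth_fderiv {F : ℝ × ℝ × ℝ → ℝ} (hF : ContDiff ℝ (⊤ : ℕ∞) F) (v : ℝ × ℝ × ℝ) :
    ContDiff ℝ (⊤ : ℕ∞) fun p => fderiv ℝ F p v :=
  (hF.fderiv_right (m := (⊤ : ℕ∞)) (by simp)).clm_apply contDiff_const

theorem TstDD_diff {M : ℝ → ℝ → ℝ → ℝ} (hM : Tst M) :
    Differentiable ℝ fun p : ℝ × ℝ × ℝ => M p.1 p.2.1 p.2.2 :=
  hM.smooth.differentiable (by simp)

theorem TstDD_open (a b : ℝ) : IsOpen {p : ℝ × ℝ × ℝ | p.1 < a ∨ p.2.1 < a ∨ p.2.2 < a ∨ b < p.1 ∨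
    b < p.2.1 ∨ b < p.2.2} := by
  simp only [Set.ofPred_or]
  have h1 : Continuous fun p : ℝ × ℝ × ℝ => p.1 := continuous_fst
  have h2 : Continuous fun p : ℝ × ℝ × ℝ => p.2.1 := continuous_fst.comp continuous_snd
  have h3 : Continuous fun p : ℝ × ℝ × ℝ => p.2.2 := continuous_snd.comp continuous_snd
  exact (isOpen_lt h1 continuous_const).union ((isOpen_lt h2 continuous_const).union
    ((isOpen_lt h3 continuous_const).union ((isOpen_lt continuous_const h1).union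
    ((isOpen_lt continuous_const h2).union (isOpen_lt continuous_const h3)))))

theorem TstDD_D12 {M : ℝ → ℝ → ℝ → ℝ} (hM : Tst M) : Tst (D12 M) := by
  constructor
  · have : (fun p : ℝ × ℝ × ℝ => D12 M p.1 p.2.1 p.2.2) =
        fun p => fderiv ℝ (fun p : ℝ × ℝ × ℝ => M p.1 p.2.1 p.2.2) p (1, -1, 0) := by
      funext p
      exact TstDD_D12_eq (TstDD_diff hM) p.1 p.2.1 p.2.2
    rw [this]
    exact TstDD_smooth_fderiv hM.smooth _
  · obtain ⟨a, b, ha, h⟩ := hM.supp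
    refine ⟨a, b, ha, fun x y z hx => ?_⟩
    exact TstDD_D12_zero (TstDD_open a b) (fun p hp => h _ _ _ hp) hx

theorem TstDD_D13 {M : ℝ → ℝ → ℝ → ℝ} (hM : Tst M) : Tst (D13 M) := by
  constructor
  · have : (fun p : ℝ × ℝ × ℝ => D13 M p.1 p.2.1 p.2.2) =
        fun p => fderiv ℝ (fun p : ℝ × ℝ × ℝ => M p.1 p.2.1 p.2.2) p (1, 0, 1) := by
      funext p
      exact TstDD_D13_eq (TstDD_diff hM) p.1 p.2.1 p.2.2
    rw [this]
    exact TstDD_smooth_fderiv hM.smooth _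
  · obtain ⟨a, b, ha, h⟩ := hM.supp
    refine ⟨a, b, ha, fun x y z hx => ?_⟩
    exact TstDD_D13_zero (TstDD_open a b) (fun p hp => h _ _ _ hp) hx

theorem TstDD_D23 {M : ℝ → ℝ → ℝ → ℝ} (hM : Tst M) : Tst (D23 M) := by
  constructor
  · have : (fun p : ℝ × ℝ × ℝ => D23 M p.1 p.2.1 p.2.2) =
        fun p => fderiv ℝ (fun p : ℝ × ℝ × ℝ => M p.1 p.2.1 p.2.2) p (0, 1, 1) := by
      funext p
      exact TstDD_D23_eq (TstDD_diff hM) p.1 p.2.1 p.2.2
    rw [this]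
    exact TstDD_smooth_fderiv hM.smooth _
  · obtain ⟨a, b, ha, h⟩ := hM.supp
    refine ⟨a, b, ha, fun x y z hx => ?_⟩
    exact TstDD_D23_zero (TstDD_open a b) (fun p hp => h _ _ _ hp) hx

theorem Tst_DD {M : ℝ → ℝ → ℝ → ℝ} (hM : Tst M) : Tst (DD M) :=
  TstDD_D12 (TstDD_D13 (TstDD_D23 hM))

/-! ### closure properties of `Tst` -/

theorem TstDD_add {M N : ℝ → ℝ → ℝ → ℝ} (hM : Tst M) (hN : Tst N) :
    Tst fun x y z => M x y z + N x y z := by
  refine ⟨hM.smooth.add hN.smooth, ?_⟩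
  obtain ⟨a, b, ha, h⟩ := hM.supp
  obtain ⟨a', b', ha', h'⟩ := hN.supp
  refine ⟨min a a', max b b', lt_min ha ha', fun x y z hx => ?_⟩
  rw [h x y z, h' x y z, add_zero]
  · rcases hx with h | h | h | h | h | h
    · exact Or.inl (lt_of_lt_of_le h (min_le_right _ _))
    · exact Or.inr (Or.inl (lt_of_lt_of_le h (min_le_right _ _)))
    · exact Or.inr (Or.inr (Or.inl (lt_of_lt_of_le h (min_le_right _ _))))
    · exact Or.inr (Or.inr (Or.inr (Or.inl (lt_of_le_of_lt (le_max_right _ _) h))))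
    · exact Or.inr (Or.inr (Or.inr (Or.inr (Or.inl (lt_of_le_of_lt (le_max_right _ _) h)))))
    · exact Or.inr (Or.inr (Or.inr (Or.inr (Or.inr (lt_of_le_of_lt (le_max_right _ _) h)))))
  · rcases hx with h | h | h | h | h | h
    · exact Or.inl (lt_of_lt_of_le h (min_le_left _ _))
    · exact Or.inr (Or.inl (lt_of_lt_of_le h (min_le_left _ _)))
    · exact Or.inr (Or.inr (Or.inl (lt_of_lt_of_le h (min_le_left _ _))))
    · exact Or.inr (Or.inr (Or.inr (Or.inl (lt_of_le_of_lt (le_max_left _ _) h))))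
    · exact Or.inr (Or.inr (Or.inr (Or.inr (Or.inl (lt_of_le_of_lt (le_max_left _ _) h)))))
    · exact Or.inr (Or.inr (Or.inr (Or.inr (Or.inr (lt_of_le_of_lt (le_max_left _ _) h)))))

theorem TstDD_smul {M : ℝ → ℝ → ℝ → ℝ} (hM : Tst M) (c : ℝ) :
    Tst fun x y z => c * M x y z := by
  refine ⟨contDiff_const.mul hM.smooth, ?_⟩
  obtain ⟨a, b, ha, h⟩ := hM.supp
  exact ⟨a, b, ha, fun x y z hx => by rw [h x y z hx, mul_zero]⟩

theorem TstDD_Tst_zero : Tst fun _ _ _ => (0 : ℝ) :=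
  ⟨contDiff_const, 1, 1, one_pos, fun _ _ _ _ => rfl⟩

theorem TstDD_Tst_sum {ι : Type} (s : Finset ι) {M : ι → ℝ → ℝ → ℝ → ℝ}
    (hM : ∀ i ∈ s, Tst (M i)) : Tst fun x y z => ∑ i ∈ s, M i x y z := by
  classical
  induction s using Finset.induction_on with
  | empty => simpa using TstDD_Tst_zero
  | insert i s hi ih =>
    have h1 : Tst (M i) := hM i (Finset.mem_insert_self i s)
    have h2 := ih fun j hj => hM j (Finset.mem_insert_of_mem hj)
    have h3 := TstDD_add h1 h2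
    simpa only [Finset.sum_insert hi] using h3

/-! ### linearity of the derivatives -/

theorem TstDD_D12_add {M N : ℝ → ℝ → ℝ → ℝ} (hM : Tst M) (hN : Tst N) :
    D12 (fun x y z => M x y z + N x y z) = fun x y z => D12 M x y z + D12 N x y z := by
  funext x y z
  rw [TstDD_D12_eq (TstDD_diff (TstDD_add hM hN)), TstDD_D12_eq (TstDD_diff hM),
    TstDD_D12_eq (TstDD_diff hN)]
  rw [fderiv_fun_add ((TstDD_diff hM) _) ((TstDD_diff hN) _)]
  rfl

theorem TstDD_D13_add {M N : ℝ → ℝ → ℝ → ℝ} (hM : Tst M) (hN : Tst N) :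
    D13 (fun x y z => M x y z + N x y z) = fun x y z => D13 M x y z + D13 N x y z := by
  funext x y z
  rw [TstDD_D13_eq (TstDD_diff (TstDD_add hM hN)), TstDD_D13_eq (TstDD_diff hM),
    TstDD_D13_eq (TstDD_diff hN)]
  rw [fderiv_fun_add ((TstDD_diff hM) _) ((TstDD_diff hN) _)]
  rfl

theorem TstDD_D23_add {M N : ℝ → ℝ → ℝ → ℝ} (hM : Tst M) (hN : Tst N) :
    D23 (fun x y z => M x y z + N x y z) = fun x y z => D23 M x y z + D23 N x y z := by
  funext x y z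
  rw [TstDD_D23_eq (TstDD_diff (TstDD_add hM hN)), TstDD_D23_eq (TstDD_diff hM),
    TstDD_D23_eq (TstDD_diff hN)]
  rw [fderiv_fun_add ((TstDD_diff hM) _) ((TstDD_diff hN) _)]
  rfl

theorem TstDD_DD_add {M N : ℝ → ℝ → ℝ → ℝ} (hM : Tst M) (hN : Tst N) :
    DD (fun x y z => M x y z + N x y z) = fun x y z => DD M x y z + DD N x y z := by
  unfold DD
  rw [TstDD_D23_add hM hN, TstDD_D13_add (TstDD_D23 hM) (TstDD_D23 hN),
    TstDD_D12_add (TstDD_D13 (TstDD_D23 hM)) (TstDD_D13 (TstDD_D23 hN))]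

theorem DD_add {M N : ℝ → ℝ → ℝ → ℝ} (hM : Tst M) (hN : Tst N) (x y z : ℝ) :
    DD (fun x y z => M x y z + N x y z) x y z = DD M x y z + DD N x y z := by
  rw [TstDD_DD_add hM hN]

theorem TstDD_DD_smul (M : ℝ → ℝ → ℝ → ℝ) (c : ℝ) :
    DD (fun x y z => c * M x y z) = fun x y z => c * DD M x y z := by
  have h1 : ∀ M : ℝ → ℝ → ℝ → ℝ, D12 (fun x y z => c * M x y z) = fun x y z => c * D12 M x y z := by
    intro M
    funext x y z
    exact deriv_const_mul_field c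
  have h2 : ∀ M : ℝ → ℝ → ℝ → ℝ, D13 (fun x y z => c * M x y z) = fun x y z => c * D13 M x y z := by
    intro M
    funext x y z
    exact deriv_const_mul_field c
  have h3 : ∀ M : ℝ → ℝ → ℝ → ℝ, D23 (fun x y z => c * M x y z) = fun x y z => c * D23 M x y z := by
    intro M
    funext x y z
    exact deriv_const_mul_field c
  unfold DD
  rw [h3, h2, h1]

theorem DD_smul (M : ℝ → ℝ → ℝ → ℝ) (c x y z : ℝ) :
    DD (fun x y z => c * M x y z) x y z = c * DD M x y z := by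
  rw [TstDD_DD_smul]

theorem TstDD_DD_const_zero : DD (fun _ _ _ => (0 : ℝ)) = fun _ _ _ => 0 := by
  funext x y z
  exact TstDD_DD_zero isOpen_univ (fun _ _ => rfl) (x, y, z) (Set.mem_univ _)

theorem DD_sum {ι : Type} (s : Finset ι) {M : ι → ℝ → ℝ → ℝ → ℝ} (hM : ∀ i ∈ s, Tst (M i))
    (x y z : ℝ) :
    DD (fun x y z => ∑ i ∈ s, M i x y z) x y z = ∑ i ∈ s, DD (M i) x y z := by
  classical
  induction s using Finset.induction_on with
  | empty =>
    simp only [Finset.sum_empty]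
    rw [TstDD_DD_const_zero]
  | insert i s hi ih =>
    have h1 : Tst (M i) := hM i (Finset.mem_insert_self i s)
    have h2 : ∀ j ∈ s, Tst (M j) := fun j hj => hM j (Finset.mem_insert_of_mem hj)
    simp only [Finset.sum_insert hi]
    rw [DD_add h1 (TstDD_Tst_sum s h2), ih h2]

/-! ### the polynomials `CP`, `VP` -/

theorem CP_add (Ψ Ψ' : ℝ → ℝ → ℝ → ℝ) (L t : ℝ) :
    CP (fun x y z => Ψ x y z + Ψ' x y z) L t = CP Ψ L t + CP Ψ' L t := by
  unfold CP
  simp only [← Finset.sum_add_distrib]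
  refine Finset.sum_congr rfl fun a _ => Finset.sum_congr rfl fun b _ =>
    Finset.sum_congr rfl fun k _ => ?_
  rw [add_div, Complex.ofReal_add, add_mul]

theorem CP_smul (c : ℝ) (Ψ : ℝ → ℝ → ℝ → ℝ) (L t : ℝ) :
    CP (fun x y z => c * Ψ x y z) L t = (c : ℂ) * CP Ψ L t := by
  unfold CP
  simp only [Finset.mul_sum]
  refine Finset.sum_congr rfl fun a _ => Finset.sum_congr rfl fun b _ =>
    Finset.sum_congr rfl fun k _ => ?_
  rw [mul_div_assoc, Complex.ofReal_mul, mul_assoc]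

theorem TstDD_CP_zero (L t : ℝ) : CP (fun _ _ _ => 0) L t = 0 := by
  simp [CP]

theorem CP_sum {ι : Type} (s : Finset ι) (Ψ : ι → ℝ → ℝ → ℝ → ℝ) (L t : ℝ) :
    CP (fun x y z => ∑ i ∈ s, Ψ i x y z) L t = ∑ i ∈ s, CP (Ψ i) L t := by
  classical
  induction s using Finset.induction_on with
  | empty =>
    simp only [Finset.sum_empty]
    exact TstDD_CP_zero L t
  | insert i s hi ih =>
    simp only [Finset.sum_insert hi]
    rw [CP_add, ih]

theorem TstDD_en_cont (n : ℕ) : Continuous (en n) := by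
  unfold en
  fun_prop

theorem CP_cont (Ψ : ℝ → ℝ → ℝ → ℝ) (L : ℝ) : Continuous (CP Ψ L) := by
  unfold CP
  refine continuous_finsetSum _ fun a _ => continuous_finsetSum _ fun b _ =>
    continuous_finsetSum _ fun k _ => ?_
  exact continuous_const.mul (((TstDD_en_cont a).mul (TstDD_en_cont b)).mul
    (Complex.continuous_conj.comp (TstDD_en_cont k)))

theorem VP_cont (φ : ℝ → ℝ) (L : ℝ) : Continuous (VP φ L) := by
  unfold VP
  refine continuous_finsetSum _ fun n _ => ?_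
  exact continuous_const.mul (TstDD_en_cont n)

theorem XX_cont : Continuous XX := by
  have hcl : Continuous cl := by
    unfold cl
    fun_prop
  have hG : Continuous fun t : ℝ => Complex.Gamma (cl t) := by
    rw [continuous_iff_continuousAt]
    intro t
    have h1 : DifferentiableAt ℂ Complex.Gamma (cl t) := by
      apply Complex.differentiableAt_Gamma
      intro m hm
      have h2 := congrArg Complex.re hm
      have h3 : (cl t).re = 1 / 2 := by simp [cl]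
      rw [h3] at h2
      simp at h2
      have h4 : (0 : ℝ) ≤ m := Nat.cast_nonneg m
      linarith
    exact ContinuousAt.comp (f := cl) (g := Complex.Gamma) h1.continuousAt hcl.continuousAt
  have hne : (2 * Real.pi : ℂ) ≠ 0 := by
    simp [Real.pi_ne_zero]
  have hp : Continuous fun t : ℝ => (2 * Real.pi : ℂ) ^ (-(cl t)) := by
    exact hcl.neg.const_cpow (Or.inl hne)
  have hcos : Continuous fun t : ℝ => Complex.cos (Real.pi * cl t / 2) := by
    exact Complex.continuous_cos.comp ((continuous_const.mul hcl).div_const 2)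
  unfold XX
  exact ((continuous_const.mul hp).mul hG).mul hcos

end Pool.Agent.SixT
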