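import Mathlib
import Pool.Agent.Lib_MP_112ba8_t.Defs
import Pool.Agent.Lib_MP_112ba8_t.TstDD
import Pool.Agent.Lib_MP_112ba8_t.MixB

/-!
Piece E2: the mixed identity over `3 × 3` matrices. It is `mx_main` (file `MixB.lean`) with
`ν = mu`.
-/

namespace Pool.Agent.SixT

open Filter Topology MeasureTheory
open Pool.Agent.EvenMoment (cl Wgt Sz ker ar)

theorem I9_mix {M : ℝ → ℝ → ℝ → ℝ} (hM : Tst M) (hA : Anti M) {H : ℝ → ℝ → ℝ → ℝ}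
    (hH : Measurable fun p : ℝ × ℝ × ℝ => H p.1 p.2.1 p.2.2) {B : ℝ}
    (hB : ∀ s₀ s₁ r₀, |s₀| ≤ B → |s₁| ≤ B → |r₀| ≤ B → |H s₀ s₁ r₀| ≤ B)
    (hB1 : ∀ s₀ s₁ r₀, B ≤ r₀ → H s₀ s₁ r₀ = 0) (hB2 : ∀ s₀ s₁ r₀, B ≤ s₀ → H s₀ s₁ r₀ = 0)
    (hB3 : ∀ s₀ s₁ r₀, B ≤ s₁ → H s₀ s₁ r₀ = 0) :
    I9 (fun s₀ s₁ s₂ r₀ r₁ r₂ => H s₀ s₁ r₀ * DD M r₁ r₂ s₂) =
      2 * ∫ p, M p.1 p.2.1 p.2.2 * (∫ q in Set.Ioo 0 p.1, ∫ u in Set.Ioi (0 : ℝ),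
        ∫ u' in Set.Ioi (0 : ℝ), H (u + p.1 - q) (u' + q + p.2.1) (u + u' + p.2.2)) ∂mu3 :=
  mx_main mu hM hA hH hB hB1 hB2 hB3

end Pool.Agent.SixT
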