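import Mathlib
import Pool.Agent.Lib_MP_112ba8_t.Defs
import Pool.Agent.Lib_MP_112ba8_t.TstDD
import Pool.Agent.Lib_MP_112ba8_t.Mix9

/-!
Piece E3: the mixed identity over the matrices with `y₀₀ = 0`. It is `mx_main` (file `MixB.lean`)
with `ν = dirac 0`.
-/

namespace Pool.Agent.SixT

open Filter Topology MeasureTheory
open Pool.Agent.EvenMoment (cl Wgt Sz ker ar)

theorem I8_mix {M : ℝ → ℝ → ℝ → ℝ} (hM : Tst M) (hA : Anti M) {H : ℝ → ℝ → ℝ → ℝ}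
    (hH : Measurable fun p : ℝ × ℝ × ℝ => H p.1 p.2.1 p.2.2) {B : ℝ}
    (hB : ∀ s₀ s₁ r₀, |s₀| ≤ B → |s₁| ≤ B → |r₀| ≤ B → |H s₀ s₁ r₀| ≤ B)
    (hB1 : ∀ s₀ s₁ r₀, B ≤ r₀ → H s₀ s₁ r₀ = 0) (hB2 : ∀ s₀ s₁ r₀, B ≤ s₀ → H s₀ s₁ r₀ = 0)
    (hB3 : ∀ s₀ s₁ r₀, B ≤ s₁ → H s₀ s₁ r₀ = 0) :
    I8 (fun s₀ s₁ s₂ r₀ r₁ r₂ => H s₀ s₁ r₀ * DD M r₁ r₂ s₂) =
      2 * ∫ p, M p.1 p.2.1 p.2.2 * (∫ q in Set.Ioo 0 p.1,
        ∫ u' in Set.Ioi (0 : ℝ), H (p.1 - q) (u' + q + p.2.1) (u' + p.2.2)) ∂mu3 := by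
  have tD : Tst (DD M) := by rw [mx_DD hM]; exact mx_Tst _ (mx_Tst _ (mx_Tst _ hM))
  have h0 : MeasurePreserving (fun w : ℝ × ℝ => ((0 : ℝ), w)) (mu.prod mu)
      ((Measure.dirac (0 : ℝ)).prod (mu.prod mu)) :=
    ⟨measurable_prodMk_left, (Measure.dirac_prod (0 : ℝ)).symm⟩
  have h1 := h0.prod (MeasurePreserving.id ((mu.prod (mu.prod mu)).prod (mu.prod (mu.prod mu))))
  have h2 := mx_main (Measure.dirac (0 : ℝ)) hM hA hH hB hB1 hB2 hB3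
  rw [mx_integral h1 (mx_F_meas tD hH)] at h2
  simp only [integral_dirac, zero_add] at h2
  have h3 : I8 (fun s₀ s₁ s₂ r₀ r₁ r₂ => H s₀ s₁ r₀ * DD M r₁ r₂ s₂) =
      ∫ x, mxF (DD M) H (Prod.map (fun w : ℝ × ℝ => ((0 : ℝ), w)) id x)
        ∂((mu.prod mu).prod ((mu.prod (mu.prod mu)).prod (mu.prod (mu.prod mu)))) := by
    unfold I8 mu8 mu3 mxF
    congr 1
    funext y
    simp [Prod.map]
  rw [h3, h2]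
  rfl

end Pool.Agent.SixT
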