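import Mathlib
import Pool.Agent.Lib_MP_112ba8_t.Mix8
import Pool.Agent.Lib_MP_112ba8_t.Mix9

/-!
Piece E6 (about 250 lines).

`I8_mix` with `H = (1-s₀-r₀) 1_{s₁<γ}` (times indicators of `0 ≤ s₀ < 2`, `0 ≤ r₀ < 2`) and `I9_mix` with
`H = 1_{r₀<1-γ}` (times indicators of `s₀ < 2`, `s₁ < 2`). With `a = 1-z`, on the support of `M`
(`x+y < γ`, `z < 1-γ`):
`J8 = ∫_{q∈(0,x)}∫_{u'∈(0,γ-q-y)} (1-x+q-z-u') = x a (γ-y) - x (γ-y)²/2 - a x²/2`,
`J9 = ∫_{q∈(0,x)}∫_{u,u'>0, u+u'+z<1-γ} 1 = x (a-γ)²/2`,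
`J8+J9 = x a²/2 - x y a + x y γ - x y²/2 - a x²/2`,
and `(J8+J9)(x,y) - (J8+J9)(y,x) = (x-y)/2 (a² + xy - a(x+y)) = dl x y z`.
By antisymmetry of `M` the integral over all `(x,y)` is the integral over `y < x` of `M` times this.
-/

namespace Pool.Agent.SixT

open Filter Topology MeasureTheory
open Pool.Agent.EvenMoment (cl Wgt Sz ker ar)

/-- truncated `(1-s₀-r₀) 1_{s₁<γ}` -/
private noncomputable def eqxzcH8 (γ s₀ s₁ r₀ : ℝ) : ℝ :=
  if (0 ≤ s₀ ∧ s₀ < 2 ∧ 0 ≤ r₀ ∧ r₀ < 2 ∧ s₁ < γ) then 1 - s₀ - r₀ else 0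

/-- truncated `1_{r₀<1-γ}` -/
private noncomputable def eqxzcH9 (γ s₀ s₁ r₀ : ℝ) : ℝ :=
  if (s₀ < 2 ∧ s₁ < 2 ∧ r₀ < 1 - γ) then 1 else 0

private noncomputable def eqxzcK8 (γ x y z : ℝ) : ℝ :=
  x * (1 - z) * (γ - y) - x * (γ - y) ^ 2 / 2 - (1 - z) * x ^ 2 / 2

private noncomputable def eqxzcK9 (γ x z : ℝ) : ℝ := x * (1 - z - γ) ^ 2 / 2

private lemma eqxzc_H8_meas (γ : ℝ) :
    Measurable fun p : ℝ × ℝ × ℝ => eqxzcH8 γ p.1 p.2.1 p.2.2 := by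
  unfold eqxzcH8
  refine Measurable.ite ?_ (by fun_prop) measurable_const
  refine (measurableSet_le measurable_const measurable_fst).inter
    ((measurableSet_lt measurable_fst measurable_const).inter
    ((measurableSet_le measurable_const measurable_snd.snd).inter
    ((measurableSet_lt measurable_snd.snd measurable_const).inter
    (measurableSet_lt measurable_snd.fst measurable_const))))

private lemma eqxzc_H9_meas (γ : ℝ) :
    Measurable fun p : ℝ × ℝ × ℝ => eqxzcH9 γ p.1 p.2.1 p.2.2 := by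
  unfold eqxzcH9
  refine Measurable.ite ?_ measurable_const measurable_const
  refine (measurableSet_lt measurable_fst measurable_const).inter
    ((measurableSet_lt measurable_snd.fst measurable_const).inter
    (measurableSet_lt measurable_snd.snd measurable_const))

private lemma eqxzc_DDs {M : ℝ → ℝ → ℝ → ℝ} {γ : ℝ}
    (hs : ∀ x y z, M x y z ≠ 0 → x + y < γ ∧ z < 1 - γ) (x y z : ℝ) (h : DD M x y z ≠ 0) :
    x + y ≤ γ ∧ z ≤ 1 - γ := by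
  have hclosed : IsClosed {p : ℝ × ℝ × ℝ | p.1 + p.2.1 ≤ γ ∧ p.2.2 ≤ 1 - γ} := by
    have c1 : IsClosed {p : ℝ × ℝ × ℝ | p.1 + p.2.1 ≤ γ} :=
      isClosed_le (by fun_prop) (by fun_prop)
    have c2 : IsClosed {p : ℝ × ℝ × ℝ | p.2.2 ≤ 1 - γ} :=
      isClosed_le (by fun_prop) (by fun_prop)
    exact c1.inter c2
  by_contra hc
  apply h
  refine DD_support hclosed ?_ (x, y, z) hc
  intro p hp
  by_contra hp'
  obtain ⟨h1, h2⟩ := hs _ _ _ hp'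
  exact hp ⟨h1.le, h2.le⟩

private lemma eqxzc_I8 {M : ℝ → ℝ → ℝ → ℝ} {γ : ℝ} (hγ : 0 < γ) (hγ1 : γ ≤ 1 / 2)
    (hs : ∀ x y z, M x y z ≠ 0 → x + y < γ ∧ z < 1 - γ) :
    I8 (fun s₀ s₁ s₂ r₀ r₁ r₂ => (1 - s₀ - r₀) * (if s₁ < γ then 1 else 0) * DD M r₁ r₂ s₂) =
    I8 (fun s₀ s₁ s₂ r₀ r₁ r₂ => eqxzcH8 γ s₀ s₁ r₀ * DD M r₁ r₂ s₂) := by
  unfold I8 mu8 mu3
  apply integral_congr_ae
  filter_upwards [MxM.pos (μ := (mu.prod mu).prod ((mu.prod (mu.prod mu)).prod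
    (mu.prod (mu.prod mu))))] with y hy
  obtain ⟨⟨h1, h2⟩, ⟨⟨h3, h4, h5⟩, ⟨h6, h7, h8⟩⟩⟩ := hy
  simp only [Prod.fst_zero, Prod.snd_zero] at h1 h2 h3 h4 h5 h6 h7 h8
  by_cases hd : DD M (y.1.1 + y.2.1.2.1 + y.2.2.2.1) (y.1.2 + y.2.1.2.2 + y.2.2.2.2)
      (y.2.2.1 + y.2.2.2.1 + y.2.2.2.2) = 0
  · rw [hd, mul_zero, mul_zero]
  · obtain ⟨hd1, hd2⟩ := eqxzc_DDs hs _ _ _ hd
    congr 1
    unfold eqxzcH8
    by_cases c : y.2.1.1 + y.2.1.2.1 + y.2.1.2.2 < γ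
    · rw [if_pos c, if_pos ⟨by linarith, by linarith, by linarith, by linarith, c⟩, mul_one]
    · rw [if_neg c, if_neg (fun h => c h.2.2.2.2), mul_zero]

private lemma eqxzc_I9 {M : ℝ → ℝ → ℝ → ℝ} {γ : ℝ} (hγ : 0 < γ) (hγ1 : γ ≤ 1 / 2)
    (hs : ∀ x y z, M x y z ≠ 0 → x + y < γ ∧ z < 1 - γ) :
    I9 (fun s₀ s₁ s₂ r₀ r₁ r₂ => (if r₀ < 1 - γ then 1 else 0) * DD M r₁ r₂ s₂) =
    I9 (fun s₀ s₁ s₂ r₀ r₁ r₂ => eqxzcH9 γ s₀ s₁ r₀ * DD M r₁ r₂ s₂) := by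
  unfold I9 mu9 mu3
  apply integral_congr_ae
  filter_upwards [MxM.pos (μ := (mu.prod (mu.prod mu)).prod ((mu.prod (mu.prod mu)).prod
    (mu.prod (mu.prod mu))))] with y hy
  obtain ⟨⟨h0, h1, h2⟩, ⟨⟨h3, h4, h5⟩, ⟨h6, h7, h8⟩⟩⟩ := hy
  simp only [Prod.fst_zero, Prod.snd_zero] at h0 h1 h2 h3 h4 h5 h6 h7 h8
  by_cases hd : DD M (y.1.2.1 + y.2.1.2.1 + y.2.2.2.1) (y.1.2.2 + y.2.1.2.2 + y.2.2.2.2)
      (y.2.2.1 + y.2.2.2.1 + y.2.2.2.2) = 0
  · rw [hd, mul_zero, mul_zero]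
  · obtain ⟨hd1, hd2⟩ := eqxzc_DDs hs _ _ _ hd
    congr 1
    unfold eqxzcH9
    by_cases c : y.1.1 + y.2.1.1 + y.2.2.1 < 1 - γ
    · rw [if_pos c, if_pos ⟨by linarith, by linarith, c⟩]
    · rw [if_neg c, if_neg (fun h => c h.2.2)]

private lemma eqxzc_ftc {F f : ℝ → ℝ} (hF : ∀ t, HasDerivAt F (f t) t) (hf : Continuous f) {c : ℝ}
    (hc : 0 ≤ c) : ∫ t in Set.Ioo 0 c, f t = F c - F 0 := by
  rw [← integral_Ioc_eq_integral_Ioo, ← intervalIntegral.integral_of_le hc,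
    intervalIntegral.integral_eq_sub_of_hasDerivAt (fun t _ => hF t)
    (hf.intervalIntegrable _ _)]

/-- cutting an integral over `(0,∞)` -/
private lemma eqxzc_cut {f g : ℝ → ℝ} {c : ℝ} (h1 : ∀ t, 0 < t → t < c → f t = g t)
    (h2 : ∀ t, 0 < t → c ≤ t → f t = 0) :
    ∫ t in Set.Ioi (0 : ℝ), f t = ∫ t in Set.Ioo 0 c, g t := by
  have e1 : ∀ t ∈ Set.Ioi (0 : ℝ), f t = (Set.Iio c).indicator g t := by
    intro t ht
    by_cases hc : t < c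
    · rw [Set.indicator_of_mem (show t ∈ Set.Iio c from hc)]
      exact h1 t ht hc
    · rw [Set.indicator_of_notMem (show t ∉ Set.Iio c from hc)]
      exact h2 t ht (not_lt.mp hc)
  rw [setIntegral_congr_fun measurableSet_Ioi e1, integral_indicator measurableSet_Iio,
    Measure.restrict_restrict measurableSet_Iio, Set.Iio_inter_Ioi]

private lemma eqxzc_J8 {γ x y z : ℝ} (hγ : 0 < γ) (hγ1 : γ ≤ 1 / 2) (hx : 0 ≤ x) (hy : 0 ≤ y)
    (hz : 0 ≤ z) (h1 : x + y < γ) (h2 : z < 1 - γ) :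
    ∫ q in Set.Ioo 0 x, ∫ u' in Set.Ioi (0 : ℝ), eqxzcH8 γ (x - q) (u' + q + y) (u' + z) =
      eqxzcK8 γ x y z := by
  have e1 : ∀ q ∈ Set.Ioo 0 x,
      ∫ u' in Set.Ioi (0 : ℝ), eqxzcH8 γ (x - q) (u' + q + y) (u' + z) =
      (1 - x + q - z) * (γ - q - y) - (γ - q - y) ^ 2 / 2 := by
    intro q hq
    have hq1 := hq.1
    have hq2 := hq.2
    rw [eqxzc_cut (c := γ - q - y) (g := fun u' => (1 - x + q - z) - u')]
    · rw [eqxzc_ftc (F := fun u => (1 - x + q - z) * u - u ^ 2 / 2) (f := fun u' => (1 - x + q - z) - u')]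
      · ring
      · intro t
        have h3 := ((hasDerivAt_id t).const_mul (1 - x + q - z)).sub
          (((hasDerivAt_id t).pow 2).div_const 2)
        exact h3.congr_deriv (by simp)
      · fun_prop
      · linarith
    · intro t ht ht'
      unfold eqxzcH8
      rw [if_pos ⟨by linarith, by linarith, by linarith, by linarith, by linarith⟩]
      ring
    · intro t ht ht'
      unfold eqxzcH8
      rw [if_neg]
      rintro ⟨_, _, _, _, h⟩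
      linarith
  rw [setIntegral_congr_fun measurableSet_Ioo e1]
  rw [eqxzc_ftc (F := fun q => (γ - y) * (1 - z - x - (γ - y) / 2) * q +
    (3 * (γ - y) / 2 - (1 - z - x - (γ - y) / 2)) * (q ^ 2 / 2) - q ^ 3 / 2)]
  · unfold eqxzcK8
    ring
  · intro t
    have h3 := (((hasDerivAt_id t).const_mul ((γ - y) * (1 - z - x - (γ - y) / 2))).add
      ((((hasDerivAt_id t).pow 2).div_const 2).const_mul
        (3 * (γ - y) / 2 - (1 - z - x - (γ - y) / 2)))).sub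
          (((hasDerivAt_id t).pow 3).div_const 2)
    exact h3.congr_deriv (by simp; ring)
  · fun_prop
  · exact hx

private lemma eqxzc_J9 {γ x y z : ℝ} (hγ : 0 < γ) (hγ1 : γ ≤ 1 / 2) (hx : 0 ≤ x) (hy : 0 ≤ y)
    (hz : 0 ≤ z) (h1 : x + y < γ) (h2 : z < 1 - γ) :
    ∫ q in Set.Ioo 0 x, ∫ u in Set.Ioi (0 : ℝ), ∫ u' in Set.Ioi (0 : ℝ),
      eqxzcH9 γ (u + x - q) (u' + q + y) (u + u' + z) = eqxzcK9 γ x z := by
  have e1 : ∀ q ∈ Set.Ioo 0 x, ∫ u in Set.Ioi (0 : ℝ), ∫ u' in Set.Ioi (0 : ℝ),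
      eqxzcH9 γ (u + x - q) (u' + q + y) (u + u' + z) = (1 - z - γ) ^ 2 / 2 := by
    intro q hq
    have hq1 := hq.1
    have hq2 := hq.2
    rw [eqxzc_cut (c := 1 - z - γ) (g := fun u => (1 - z - γ) - u)]
    · rw [eqxzc_ftc (F := fun u => (1 - z - γ) * u - u ^ 2 / 2) (f := fun u => (1 - z - γ) - u)]
      · ring
      · intro t
        have h3 := ((hasDerivAt_id t).const_mul (1 - z - γ)).sub
          (((hasDerivAt_id t).pow 2).div_const 2)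
        exact h3.congr_deriv (by simp)
      · fun_prop
      · linarith
    · intro u hu hu'
      rw [eqxzc_cut (c := 1 - z - γ - u) (g := fun _ => 1)]
      · rw [eqxzc_ftc (F := fun t => t) (f := fun _ => 1)]
        · ring
        · intro t
          exact hasDerivAt_id t
        · fun_prop
        · linarith
      · intro t ht ht'
        unfold eqxzcH9
        rw [if_pos ⟨by linarith, by linarith, by linarith⟩]
      · intro t ht ht'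
        unfold eqxzcH9
        rw [if_neg]
        rintro ⟨_, _, h⟩
        linarith
    · intro u hu hu'
      have : ∀ t ∈ Set.Ioi (0 : ℝ),
          eqxzcH9 γ (u + x - q) (t + q + y) (u + t + z) = 0 := by
        intro t ht
        have ht' : 0 < t := ht
        unfold eqxzcH9
        rw [if_neg]
        rintro ⟨_, _, h⟩
        linarith
      rw [setIntegral_congr_fun measurableSet_Ioi this, integral_zero]
  rw [setIntegral_congr_fun measurableSet_Ioo e1]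
  rw [eqxzc_ftc (F := fun q => (1 - z - γ) ^ 2 / 2 * q) (f := fun _ => (1 - z - γ) ^ 2 / 2)]
  · unfold eqxzcK9
    ring
  · intro t
    have h3 := (hasDerivAt_id t).const_mul ((1 - z - γ) ^ 2 / 2)
    exact h3.congr_deriv (by simp)
  · fun_prop
  · exact hx

private lemma eqxzc_int {M : ℝ → ℝ → ℝ → ℝ} (hM : Tst M) {k : ℝ × ℝ × ℝ → ℝ} (hk : Continuous k) :
    Integrable (fun p : ℝ × ℝ × ℝ => M p.1 p.2.1 p.2.2 * k p) mu3 := by
  have i1 : IsLocallyFiniteMeasure mu := by unfold mu; infer_instance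
  have i2 : SFinite mu := by unfold mu; infer_instance
  have i3 : IsFiniteMeasureOnCompacts mu3 := by unfold mu3; infer_instance
  refine Continuous.integrable_of_hasCompactSupport (hM.smooth.continuous.mul hk) ?_
  obtain ⟨a, b, ha, hab⟩ := hM.supp
  refine HasCompactSupport.intro
    (isCompact_Icc.prod (isCompact_Icc.prod isCompact_Icc) :
      IsCompact (Set.Icc a b ×ˢ (Set.Icc a b ×ˢ Set.Icc a b))) ?_
  rintro ⟨x, y, z⟩ hp
  have : M x y z = 0 := by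
    apply hab
    by_contra hc
    push Not at hc
    obtain ⟨h1, h2, h3, h4, h5, h6⟩ := hc
    exact hp ⟨⟨h1, h4⟩, ⟨h2, h5⟩, ⟨h3, h6⟩⟩
  show M x y z * k (x, y, z) = 0
  rw [this, zero_mul]

private lemma eqxzc_swap : MeasurePreserving (fun p : ℝ × ℝ × ℝ => (p.2.1, (p.1, p.2.2))) mu3 mu3 := by
  unfold mu3
  have h1 := mx_assoc' mu mu mu
  have h2 := (mx_swap mu mu).prod (MeasurePreserving.id mu)
  have h3 := mx_assoc mu mu mu
  exact h3.comp (h2.comp h1)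

theorem eq_xzC {M : ℝ → ℝ → ℝ → ℝ} (hM : Tst M) (hA : Anti M) {γ : ℝ} (hγ : 0 < γ) (hγ1 : γ ≤ 1 / 2)
    (hs : ∀ x y z, M x y z ≠ 0 → x + y < γ ∧ z < 1 - γ) :
    I8 (fun s₀ s₁ s₂ r₀ r₁ r₂ => (1 - s₀ - r₀) * (if s₁ < γ then 1 else 0) * DD M r₁ r₂ s₂) +
      I9 (fun s₀ s₁ s₂ r₀ r₁ r₂ => (if r₀ < 1 - γ then 1 else 0) * DD M r₁ r₂ s₂) =
      2 * ∫ p in {p : ℝ × ℝ × ℝ | p.2.1 < p.1}, M p.1 p.2.1 p.2.2 * dl p.1 p.2.1 p.2.2 ∂mu3 := by
  obtain ⟨a, b, ha, hab⟩ := hM.supp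
  have hpos : ∀ x y z, M x y z ≠ 0 → 0 ≤ x ∧ 0 ≤ y ∧ 0 ≤ z := by
    intro x y z h
    refine ⟨?_, ?_, ?_⟩
    · by_contra hc
      exact h (hab x y z (Or.inl (by linarith [not_le.mp hc])))
    · by_contra hc
      exact h (hab x y z (Or.inr (Or.inl (by linarith [not_le.mp hc]))))
    · by_contra hc
      exact h (hab x y z (Or.inr (Or.inr (Or.inl (by linarith [not_le.mp hc])))))
  have h8 := I8_mix hM hA (H := eqxzcH8 γ) (eqxzc_H8_meas γ) (B := 3)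
    (fun s₀ s₁ r₀ _ _ _ => by
      unfold eqxzcH8
      split_ifs with h
      · obtain ⟨c1, c2, c3, c4, c5⟩ := h
        rw [abs_le]
        constructor <;> linarith
      · simp)
    (fun s₀ s₁ r₀ h => by
      unfold eqxzcH8
      rw [if_neg]
      rintro ⟨c1, c2, c3, c4, c5⟩
      linarith)
    (fun s₀ s₁ r₀ h => by
      unfold eqxzcH8
      rw [if_neg]
      rintro ⟨c1, c2, c3, c4, c5⟩
      linarith)
    (fun s₀ s₁ r₀ h => by
      unfold eqxzcH8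
      rw [if_neg]
      rintro ⟨c1, c2, c3, c4, c5⟩
      linarith)
  have h9 := I9_mix hM hA (H := eqxzcH9 γ) (eqxzc_H9_meas γ) (B := 3)
    (fun s₀ s₁ r₀ _ _ _ => by
      unfold eqxzcH9
      split_ifs with h
      · norm_num
      · simp)
    (fun s₀ s₁ r₀ h => by
      unfold eqxzcH9
      rw [if_neg]
      rintro ⟨c1, c2, c3⟩
      linarith)
    (fun s₀ s₁ r₀ h => by
      unfold eqxzcH9
      rw [if_neg]
      rintro ⟨c1, c2, c3⟩
      linarith)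
    (fun s₀ s₁ r₀ h => by
      unfold eqxzcH9
      rw [if_neg]
      rintro ⟨c1, c2, c3⟩
      linarith)
  rw [eqxzc_I8 hγ hγ1 hs, eqxzc_I9 hγ hγ1 hs, h8, h9, ← mul_add]
  congr 1
  have e8 : ∀ p : ℝ × ℝ × ℝ, M p.1 p.2.1 p.2.2 * (∫ q in Set.Ioo 0 p.1,
        ∫ u' in Set.Ioi (0 : ℝ), eqxzcH8 γ (p.1 - q) (u' + q + p.2.1) (u' + p.2.2)) =
      M p.1 p.2.1 p.2.2 * eqxzcK8 γ p.1 p.2.1 p.2.2 := by
    intro p
    by_cases h : M p.1 p.2.1 p.2.2 = 0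
    · rw [h, zero_mul, zero_mul]
    · obtain ⟨c1, c2, c3⟩ := hpos _ _ _ h
      obtain ⟨c4, c5⟩ := hs _ _ _ h
      rw [eqxzc_J8 hγ hγ1 c1 c2 c3 c4 c5]
  have e9 : ∀ p : ℝ × ℝ × ℝ, M p.1 p.2.1 p.2.2 * (∫ q in Set.Ioo 0 p.1,
        ∫ u in Set.Ioi (0 : ℝ), ∫ u' in Set.Ioi (0 : ℝ),
          eqxzcH9 γ (u + p.1 - q) (u' + q + p.2.1) (u + u' + p.2.2)) =
      M p.1 p.2.1 p.2.2 * eqxzcK9 γ p.1 p.2.2 := by
    intro p
    by_cases h : M p.1 p.2.1 p.2.2 = 0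
    · rw [h, zero_mul, zero_mul]
    · obtain ⟨c1, c2, c3⟩ := hpos _ _ _ h
      obtain ⟨c4, c5⟩ := hs _ _ _ h
      rw [eqxzc_J9 hγ hγ1 c1 c2 c3 c4 c5]
  simp only [e8, e9]
  have i8 : Integrable (fun p : ℝ × ℝ × ℝ => M p.1 p.2.1 p.2.2 * eqxzcK8 γ p.1 p.2.1 p.2.2) mu3 :=
    eqxzc_int hM (k := fun p => eqxzcK8 γ p.1 p.2.1 p.2.2) (by unfold eqxzcK8; fun_prop)
  have i9 : Integrable (fun p : ℝ × ℝ × ℝ => M p.1 p.2.1 p.2.2 * eqxzcK9 γ p.1 p.2.2) mu3 :=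
    eqxzc_int hM (k := fun p => eqxzcK9 γ p.1 p.2.2) (by unfold eqxzcK9; fun_prop)
  rw [← integral_add i8 i9]
  -- the two halves
  have mS : MeasurableSet {p : ℝ × ℝ × ℝ | p.2.1 < p.1} :=
    measurableSet_lt (by fun_prop) (by fun_prop)
  have mS' : MeasurableSet {p : ℝ × ℝ × ℝ | p.1 < p.2.1} :=
    measurableSet_lt (by fun_prop) (by fun_prop)
  have mM : Measurable fun p : ℝ × ℝ × ℝ => M p.1 p.2.1 p.2.2 := hM.smooth.continuous.measurable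
  have iK : Integrable (fun p : ℝ × ℝ × ℝ => M p.1 p.2.1 p.2.2 * eqxzcK8 γ p.1 p.2.1 p.2.2 +
      M p.1 p.2.1 p.2.2 * eqxzcK9 γ p.1 p.2.2) mu3 := i8.add i9
  have e1 : ∫ p, (M p.1 p.2.1 p.2.2 * eqxzcK8 γ p.1 p.2.1 p.2.2 +
        M p.1 p.2.1 p.2.2 * eqxzcK9 γ p.1 p.2.2) ∂mu3 =
      ∫ p, ({p : ℝ × ℝ × ℝ | p.2.1 < p.1}.indicator (fun p => M p.1 p.2.1 p.2.2 *
        eqxzcK8 γ p.1 p.2.1 p.2.2 + M p.1 p.2.1 p.2.2 * eqxzcK9 γ p.1 p.2.2) p +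
        {p : ℝ × ℝ × ℝ | p.1 < p.2.1}.indicator (fun p => M p.1 p.2.1 p.2.2 *
        eqxzcK8 γ p.1 p.2.1 p.2.2 + M p.1 p.2.1 p.2.2 * eqxzcK9 γ p.1 p.2.2) p) ∂mu3 := by
    congr 1
    funext p
    rcases lt_trichotomy p.1 p.2.1 with h | h | h
    · rw [Set.indicator_of_notMem (show p ∉ {p : ℝ × ℝ × ℝ | p.2.1 < p.1} from not_lt.mpr h.le),
        Set.indicator_of_mem (show p ∈ {p : ℝ × ℝ × ℝ | p.1 < p.2.1} from h), zero_add]
    · rw [Set.indicator_of_notMem (show p ∉ {p : ℝ × ℝ × ℝ | p.2.1 < p.1} from not_lt.mpr h.le),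
        Set.indicator_of_notMem (show p ∉ {p : ℝ × ℝ × ℝ | p.1 < p.2.1} from not_lt.mpr h.ge)]
      have : M p.1 p.2.1 p.2.2 = 0 := by
        have h3 := hA p.1 p.1 p.2.2
        rw [← h]
        linarith
      rw [this]
      simp
    · rw [Set.indicator_of_mem (show p ∈ {p : ℝ × ℝ × ℝ | p.2.1 < p.1} from h),
        Set.indicator_of_notMem (show p ∉ {p : ℝ × ℝ × ℝ | p.1 < p.2.1} from not_lt.mpr h.le),
        add_zero]
  rw [e1, integral_add (iK.indicator mS) (iK.indicator mS')]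
  have e2 : ∫ p, {p : ℝ × ℝ × ℝ | p.1 < p.2.1}.indicator (fun p => M p.1 p.2.1 p.2.2 *
        eqxzcK8 γ p.1 p.2.1 p.2.2 + M p.1 p.2.1 p.2.2 * eqxzcK9 γ p.1 p.2.2) p ∂mu3 =
      ∫ p, {p : ℝ × ℝ × ℝ | p.2.1 < p.1}.indicator (fun p => -(M p.1 p.2.1 p.2.2 *
        (eqxzcK8 γ p.2.1 p.1 p.2.2 + eqxzcK9 γ p.2.1 p.2.2))) p ∂mu3 := by
    rw [mx_integral eqxzc_swap]
    · congr 1
      funext p
      by_cases h : p.2.1 < p.1
      · rw [Set.indicator_of_mem (show (p.2.1, (p.1, p.2.2)) ∈ {p : ℝ × ℝ × ℝ | p.1 < p.2.1} from h),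
          Set.indicator_of_mem (show p ∈ {p : ℝ × ℝ × ℝ | p.2.1 < p.1} from h)]
        dsimp only
        rw [hA p.2.1 p.1 p.2.2]
        ring
      · rw [Set.indicator_of_notMem
            (show (p.2.1, (p.1, p.2.2)) ∉ {p : ℝ × ℝ × ℝ | p.1 < p.2.1} from h),
          Set.indicator_of_notMem (show p ∉ {p : ℝ × ℝ × ℝ | p.2.1 < p.1} from h)]
    · refine Measurable.indicator ?_ mS'
      refine (mM.mul ?_).add (mM.mul ?_)
      · unfold eqxzcK8; fun_prop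
      · unfold eqxzcK9; fun_prop
  rw [e2, ← integral_add (iK.indicator mS)]
  · rw [← integral_indicator mS]
    congr 1
    funext p
    by_cases h : p.2.1 < p.1
    · rw [Set.indicator_of_mem (show p ∈ {p : ℝ × ℝ × ℝ | p.2.1 < p.1} from h),
        Set.indicator_of_mem (show p ∈ {p : ℝ × ℝ × ℝ | p.2.1 < p.1} from h),
        Set.indicator_of_mem (show p ∈ {p : ℝ × ℝ × ℝ | p.2.1 < p.1} from h)]
      unfold eqxzcK8 eqxzcK9 dl
      ring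
    · rw [Set.indicator_of_notMem (show p ∉ {p : ℝ × ℝ × ℝ | p.2.1 < p.1} from h),
        Set.indicator_of_notMem (show p ∉ {p : ℝ × ℝ × ℝ | p.2.1 < p.1} from h),
        Set.indicator_of_notMem (show p ∉ {p : ℝ × ℝ × ℝ | p.2.1 < p.1} from h), add_zero]
  · refine Integrable.indicator ?_ mS
    exact (eqxzc_int hM (k := fun p => eqxzcK8 γ p.2.1 p.1 p.2.2 + eqxzcK9 γ p.2.1 p.2.2)
      (by unfold eqxzcK8 eqxzcK9; fun_prop)).neg

end Pool.Agent.SixT
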