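import Mathlib
import Pool.Agent.Lib_MP_112ba8_t.Defs

/-!
Geometry of the regions for the final assembly (part of piece G3).
-/

namespace Pool.Agent.SixT

open Filter Topology MeasureTheory

/-- the swap `(x,y,z) ↦ (y,x,z)` -/
def fgs (p : ℝ × ℝ × ℝ) : ℝ × ℝ × ℝ := (p.2.1, p.1, p.2.2)

lemma fgs_fgs (p : ℝ × ℝ × ℝ) : fgs (fgs p) = p := rfl

lemma fgs_cont : Continuous fgs := by unfold fgs; fun_prop

lemma fgs_mp : MeasurePreserving fgs (volume : Measure (ℝ × ℝ × ℝ)) volume := by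
  have h1 : MeasurePreserving (MeasurableEquiv.prodAssoc : (ℝ × ℝ) × ℝ ≃ᵐ ℝ × ℝ × ℝ)
      ((volume.prod volume).prod volume) (volume.prod (volume.prod volume)) :=
    measurePreserving_prodAssoc _ _ _
  have h2 : MeasurePreserving (Prod.map Prod.swap id : (ℝ × ℝ) × ℝ → (ℝ × ℝ) × ℝ)
      (((volume : Measure ℝ).prod volume).prod (volume : Measure ℝ))
      ((volume.prod volume).prod volume) :=
    Measure.measurePreserving_swap.prod (MeasurePreserving.id _)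
  exact (h1.comp h2).comp (h1.symm _)

/-- the open octant -/
def oct : Set (ℝ × ℝ × ℝ) := Set.Ioi 0 ×ˢ (Set.Ioi 0 ×ˢ Set.Ioi 0)

lemma oct_meas : MeasurableSet oct :=
  measurableSet_Ioi.prod (measurableSet_Ioi.prod measurableSet_Ioi)

lemma mem_oct {p : ℝ × ℝ × ℝ} : p ∈ oct ↔ 0 < p.1 ∧ 0 < p.2.1 ∧ 0 < p.2.2 := by
  simp [oct]

lemma mu3_eq : mu3 = (volume : Measure (ℝ × ℝ × ℝ)).restrict oct := by
  unfold mu3 mu oct
  rw [Measure.prod_restrict, Measure.prod_restrict]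
  rfl

/-- a function supported in the mirror image of a subset of the chamber -/
structure Supp (M : ℝ → ℝ → ℝ → ℝ) (O : Set (ℝ × ℝ × ℝ)) : Prop where
  anti : Anti M
  zero : ∀ p : ℝ × ℝ × ℝ, p.2.1 ≤ p.1 → p ∉ O → M p.1 p.2.1 p.2.2 = 0

/-- admissible regions -/
structure Reg (O : Set (ℝ × ℝ × ℝ)) : Prop where
  opn : IsOpen O
  sub : ∀ p ∈ O, 0 < p.2.1 ∧ p.2.1 < p.1 ∧ 0 < p.2.2 ∧ p.1 < 1 ∧ p.2.2 < 1

lemma Reg.sub_oct {O : Set (ℝ × ℝ × ℝ)} (h : Reg O) : O ⊆ oct := by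
  intro p hp
  obtain ⟨h1, h2, h3, h4, h5⟩ := h.sub p hp
  exact mem_oct.2 ⟨by linarith, h1, h3⟩

lemma Reg.fin {O : Set (ℝ × ℝ × ℝ)} (h : Reg O) : volume O ≠ ⊤ := by
  have h1 : O ⊆ Set.Icc (0, 0, 0) (1, 1, 1) := by
    intro p hp
    obtain ⟨h1, h2, h3, h4, h5⟩ := h.sub p hp
    refine ⟨⟨?_, ?_, ?_⟩, ⟨?_, ?_, ?_⟩⟩ <;> simp only <;> linarith
  exact ((measure_mono h1).trans_lt isCompact_Icc.measure_lt_top).ne

lemma Reg.integrable {O : Set (ℝ × ℝ × ℝ)} (h : Reg O) {f : ℝ × ℝ × ℝ → ℝ} (hf : Measurable f)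
    {C : ℝ} (hC : ∀ p ∈ O, |f p| ≤ C) : IntegrableOn f O := by
  refine Measure.integrableOn_of_bounded h.fin hf.aestronglyMeasurable (M := C) ?_
  exact (ae_restrict_iff' h.opn.measurableSet).2 (ae_of_all _ fun p hp => hC p hp)

/-- integrals over the chamber -/
lemma int_chamber {O : Set (ℝ × ℝ × ℝ)} (h : Reg O) {M : ℝ → ℝ → ℝ → ℝ} (hM : Supp M O)
    (g : ℝ × ℝ × ℝ → ℝ) :
    ∫ p in {p : ℝ × ℝ × ℝ | p.2.1 < p.1}, M p.1 p.2.1 p.2.2 * g p ∂mu3 =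
      ∫ p in O, M p.1 p.2.1 p.2.2 * g p := by
  have hm : MeasurableSet {p : ℝ × ℝ × ℝ | p.2.1 < p.1} :=
    measurableSet_lt (by fun_prop) (by fun_prop)
  rw [mu3_eq, Measure.restrict_restrict hm]
  refine (setIntegral_eq_of_subset_of_forall_sdiff_eq_zero (hm.inter oct_meas) ?_ ?_)
  · intro p hp
    exact ⟨(h.sub p hp).2.1, h.sub_oct hp⟩
  · rintro p ⟨hp1, hp2⟩
    rw [hM.zero p hp1.1.le hp2, zero_mul]

lemma int_sq {O : Set (ℝ × ℝ × ℝ)} (h : Reg O) {M : ℝ → ℝ → ℝ → ℝ} (hM : Supp M O)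
    (hT : Tst M) :
    ∫ p, M p.1 p.2.1 p.2.2 ^ 2 ∂mu3 = 2 * ∫ p in O, M p.1 p.2.1 p.2.2 ^ 2 := by
  have hm : MeasurableSet {p : ℝ × ℝ × ℝ | p.2.1 < p.1} :=
    measurableSet_lt (by fun_prop) (by fun_prop)
  have hcont : Continuous fun p : ℝ × ℝ × ℝ => M p.1 p.2.1 p.2.2 := hT.smooth.continuous
  have hcs : HasCompactSupport fun p : ℝ × ℝ × ℝ => M p.1 p.2.1 p.2.2 ^ 2 := by
    obtain ⟨a, b, ha, hab⟩ := hT.supp
    refine HasCompactSupport.intro (isCompact_Icc (a := ((a, a, a) : ℝ × ℝ × ℝ))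
      (b := (b, b, b))) fun p hp => ?_
    have : M p.1 p.2.1 p.2.2 = 0 := by
      apply hab
      by_contra hc
      push Not at hc
      obtain ⟨h1, h2, h3, h4, h5, h6⟩ := hc
      exact hp ⟨⟨h1, h2, h3⟩, ⟨h4, h5, h6⟩⟩
    simp only [this]
    norm_num
  have hint : Integrable fun p : ℝ × ℝ × ℝ => M p.1 p.2.1 p.2.2 ^ 2 :=
    (hcont.pow 2).integrable_of_hasCompactSupport hcs
  have hmle : MeasurableSet {p : ℝ × ℝ × ℝ | p.2.1 ≤ p.1} :=
    measurableSet_le (by fun_prop) (by fun_prop)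
  have h0 : ∫ p in oct ∩ {p : ℝ × ℝ × ℝ | p.2.1 ≤ p.1}, M p.1 p.2.1 p.2.2 ^ 2 =
      ∫ p in O, M p.1 p.2.1 p.2.2 ^ 2 := by
    refine (setIntegral_eq_of_subset_of_forall_sdiff_eq_zero (oct_meas.inter hmle) ?_ ?_)
    · intro p hp
      exact ⟨h.sub_oct hp, (h.sub p hp).2.1.le⟩
    · rintro p ⟨hp1, hp2⟩
      rw [hM.zero p hp1.2 hp2]
      norm_num
  have h1 : ∫ p in oct ∩ {p : ℝ × ℝ × ℝ | p.1 < p.2.1}, M p.1 p.2.1 p.2.2 ^ 2 =
      ∫ p in O, M p.1 p.2.1 p.2.2 ^ 2 := by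
    have e1 : fgs ⁻¹' (oct ∩ {p : ℝ × ℝ × ℝ | p.2.1 < p.1}) =
        oct ∩ {p : ℝ × ℝ × ℝ | p.1 < p.2.1} := by
      ext p
      simp only [Set.mem_preimage, Set.mem_inter_iff, mem_oct, Set.mem_ofPred_eq, fgs]
      tauto
    have e2 : ∫ p in fgs ⁻¹' (oct ∩ {p : ℝ × ℝ × ℝ | p.2.1 < p.1}),
        (fun p : ℝ × ℝ × ℝ => M p.1 p.2.1 p.2.2 ^ 2) (fgs p) =
        ∫ p in (oct ∩ {p : ℝ × ℝ × ℝ | p.2.1 < p.1}), M p.1 p.2.1 p.2.2 ^ 2 := by
      have hemb : MeasurableEmbedding fgs := by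
        refine ⟨fun a b hab => ?_, fgs_cont.measurable, fun s hs => ?_⟩
        · have := congrArg fgs hab
          simpa [fgs_fgs] using this
        · have : fgs '' s = fgs ⁻¹' s := by
            ext p
            constructor
            · rintro ⟨q, hq, rfl⟩
              simpa [fgs_fgs] using hq
            · intro hp
              exact ⟨fgs p, hp, fgs_fgs p⟩
          rw [this]
          exact fgs_cont.measurable hs
      exact fgs_mp.setIntegral_preimage_emb hemb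
        (fun p : ℝ × ℝ × ℝ => M p.1 p.2.1 p.2.2 ^ 2) _
    rw [e1] at e2
    have e3 : ∫ p in oct ∩ {p : ℝ × ℝ × ℝ | p.1 < p.2.1}, M p.1 p.2.1 p.2.2 ^ 2 =
        ∫ p in oct ∩ {p : ℝ × ℝ × ℝ | p.1 < p.2.1},
          (fun p : ℝ × ℝ × ℝ => M p.1 p.2.1 p.2.2 ^ 2) (fgs p) := by
      refine integral_congr_ae (ae_of_all _ fun p => ?_)
      simp only [fgs]
      rw [hM.anti p.1 p.2.1 p.2.2]
      ring
    rw [e3, e2]
    refine (setIntegral_eq_of_subset_of_forall_sdiff_eq_zero (oct_meas.inter hm) ?_ ?_)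
    · intro p hp
      exact ⟨h.sub_oct hp, (h.sub p hp).2.1⟩
    · rintro p ⟨hp1, hp2⟩
      rw [hM.zero p hp1.2.le hp2]
      norm_num
  have hsplit : oct = (oct ∩ {p : ℝ × ℝ × ℝ | p.2.1 ≤ p.1}) ∪ (oct ∩ {p : ℝ × ℝ × ℝ | p.1 < p.2.1}) := by
    ext p
    simp only [Set.mem_union, Set.mem_inter_iff, Set.mem_ofPred_eq]
    constructor
    · intro hp
      rcases le_or_gt p.2.1 p.1 with h2 | h2
      · exact Or.inl ⟨hp, h2⟩
      · exact Or.inr ⟨hp, h2⟩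
    · rintro (⟨hp, _⟩ | ⟨hp, _⟩) <;> exact hp
  have hm2 : MeasurableSet {p : ℝ × ℝ × ℝ | p.1 < p.2.1} :=
    measurableSet_lt (by fun_prop) (by fun_prop)
  rw [mu3_eq]
  rw [hsplit, setIntegral_union ?_ (oct_meas.inter hm2) hint.integrableOn hint.integrableOn, h0, h1]
  · ring
  · rw [Set.disjoint_left]
    rintro p ⟨_, hp1⟩ ⟨_, hp2⟩
    exact absurd (show p.1 < p.2.1 from hp2) (not_lt.2 hp1)

/-! ### the three regions -/

lemma reg_OW : Reg OW := by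
  constructor
  · unfold OW
    simp only [Set.ofPred_and]
    refine IsOpen.inter ?_ (IsOpen.inter ?_ (IsOpen.inter ?_ (IsOpen.inter ?_ ?_))) <;>
      exact isOpen_lt (by fun_prop) (by fun_prop)
  · rintro p ⟨h1, h2, h3, h4, h5⟩
    exact ⟨h1, h2, h3, by linarith, by linarith⟩

lemma reg_OA : Reg OA := by
  constructor
  · unfold OA
    simp only [Set.ofPred_and]
    refine IsOpen.inter ?_ (IsOpen.inter ?_ (IsOpen.inter ?_ (IsOpen.inter ?_
      (IsOpen.inter ?_ ?_)))) <;>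
      exact isOpen_lt (by fun_prop) (by fun_prop)
  · rintro p ⟨h1, h2, h3, h4, h5, h6⟩
    exact ⟨h1, h2, h3, by linarith, by linarith⟩

lemma reg_OB : Reg OB := by
  constructor
  · unfold OB
    simp only [Set.ofPred_and]
    refine IsOpen.inter ?_ (IsOpen.inter ?_ (IsOpen.inter ?_ (IsOpen.inter ?_
      (IsOpen.inter ?_ ?_)))) <;>
      exact isOpen_lt (by fun_prop) (by fun_prop)
  · rintro p ⟨h1, h2, h3, h4, h5, h6⟩
    exact ⟨h1, h2, h3, by linarith, by linarith⟩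

lemma disj_AB : Disjoint OA OB := by
  rw [Set.disjoint_left]
  rintro p ⟨_, _, _, h4, _, _⟩ ⟨_, _, _, _, h5, _⟩
  linarith

lemma mm_meas : Measurable fun p : ℝ × ℝ × ℝ => mm p.1 p.2.1 p.2.2 := by
  unfold mm
  refine Measurable.ite (measurableSet_le (by fun_prop) (by fun_prop)) (by fun_prop) ?_
  exact Measurable.mul (by fun_prop) (measurable_const.max (by fun_prop))

lemma dl_meas : Measurable fun p : ℝ × ℝ × ℝ => dl p.1 p.2.1 p.2.2 := by
  unfold dl; fun_prop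

lemma qq_meas : Measurable fun p : ℝ × ℝ × ℝ => qq p.1 p.2.1 p.2.2 := by
  unfold qq
  exact measurable_const.max ((measurable_const.min (by fun_prop)).sub
    (Measurable.max (by fun_prop) (by fun_prop)))

lemma mm_le {x y z : ℝ} (hy : 0 < y) (hyx : y < x) (hz : 0 < z) (hx1 : x < 1) (hz1 : z < 1) :
    |mm x y z| ≤ 1 := by
  unfold mm
  split_ifs with h
  · rw [abs_mul]
    have h1 : |x - y| ≤ 1 := by rw [abs_le]; constructor <;> linarith
    have h2 : |1 - z - 1 / 4| ≤ 1 := by rw [abs_le]; constructor <;> linarith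
    nlinarith [abs_nonneg (x - y), abs_nonneg (1 - z - 1 / 4)]
  · rw [abs_mul]
    have h1 : |1 - z - x| ≤ 1 := by rw [abs_le]; constructor <;> linarith
    have h2 : |max 0 (1 / 4 - y)| ≤ 1 := by
      rw [abs_of_nonneg (le_max_left _ _)]
      exact max_le (by norm_num) (by linarith)
    nlinarith [abs_nonneg (1 - z - x), abs_nonneg (max 0 (1 / 4 - y))]

lemma dl_le {x y z : ℝ} (hy : 0 < y) (hyx : y < x) (hz : 0 < z) (hx1 : x < 1) (hz1 : z < 1) :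
    |dl x y z| ≤ 1 := by
  unfold dl
  have h1 : |1 - z - x| ≤ 1 := by rw [abs_le]; constructor <;> linarith
  have h2 : |1 - z - y| ≤ 1 := by rw [abs_le]; constructor <;> linarith
  have h3 : |x - y| ≤ 1 := by rw [abs_le]; constructor <;> linarith
  have e1 : |(1 - z - x) * (1 - z - y) * (x - y) / 2| = |1 - z - x| * |1 - z - y| * |x - y| / 2 := by
    rw [abs_div, abs_mul, abs_mul]
    norm_num
  rw [e1]
  have h4 : |1 - z - x| * |1 - z - y| ≤ 1 := mul_le_one₀ h1 (abs_nonneg _) h2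
  have h5 : |1 - z - x| * |1 - z - y| * |x - y| ≤ 1 := mul_le_one₀ h4 (abs_nonneg _) h3
  linarith

lemma qq_le {x y z : ℝ} (hy : 0 < y) : |qq x y z| ≤ 1 := by
  unfold qq
  rw [abs_of_nonneg (le_max_left _ _)]
  refine max_le (by norm_num) ?_
  have h1 := min_le_left (1 / 4) x
  have h2 := le_max_left y z
  linarith

/-! ### completing the square -/

lemma square_bound {O : Set (ℝ × ℝ × ℝ)} (h : Reg O) {M : ℝ → ℝ → ℝ → ℝ} (hT : Tst M)
    {g : ℝ × ℝ × ℝ → ℝ} (hg : Measurable g) {C : ℝ} (hC : ∀ p ∈ O, |g p| ≤ C) {η : ℝ}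
    (hη : ∫ p in O, (M p.1 p.2.1 p.2.2 - g p / 2) ^ 2 ≤ η) :
    2 * (∫ p in O, g p ^ 2) - 8 * η ≤
      8 * (∫ p in O, M p.1 p.2.1 p.2.2 * g p) - 8 * ∫ p in O, M p.1 p.2.1 p.2.2 ^ 2 := by
  have hcont : Continuous fun p : ℝ × ℝ × ℝ => M p.1 p.2.1 p.2.2 := hT.smooth.continuous
  obtain ⟨B, hB⟩ : ∃ B : ℝ, ∀ p ∈ O, |M p.1 p.2.1 p.2.2| ≤ B := by
    have hK : IsCompact (Set.Icc ((0, 0, 0) : ℝ × ℝ × ℝ) (1, 1, 1)) := isCompact_Icc
    obtain ⟨B, hB⟩ := hK.exists_bound_of_continuousOn hcont.continuousOn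
    refine ⟨B, fun p hp => ?_⟩
    obtain ⟨h1, h2, h3, h4, h5⟩ := h.sub p hp
    apply hB
    refine ⟨⟨?_, ?_, ?_⟩, ⟨?_, ?_, ?_⟩⟩ <;> simp only <;> linarith
  have i1 : IntegrableOn (fun p : ℝ × ℝ × ℝ => g p ^ 2) O := by
    refine h.integrable (hg.pow_const 2) (C := C ^ 2) fun p hp => ?_
    rw [abs_pow]
    exact pow_le_pow_left₀ (abs_nonneg _) (hC p hp) 2
  have i2 : IntegrableOn (fun p : ℝ × ℝ × ℝ => M p.1 p.2.1 p.2.2 * g p) O := by
    refine h.integrable (hcont.measurable.mul hg) (C := B * C) fun p hp => ?_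
    rw [abs_mul]
    exact mul_le_mul (hB p hp) (hC p hp) (abs_nonneg _) ((abs_nonneg _).trans (hB p hp))
  have i3 : IntegrableOn (fun p : ℝ × ℝ × ℝ => M p.1 p.2.1 p.2.2 ^ 2) O := by
    refine h.integrable (hcont.measurable.pow_const 2) (C := B ^ 2) fun p hp => ?_
    rw [abs_pow]
    exact pow_le_pow_left₀ (abs_nonneg _) (hB p hp) 2
  have e : ∫ p in O, (M p.1 p.2.1 p.2.2 - g p / 2) ^ 2 =
      (∫ p in O, M p.1 p.2.1 p.2.2 ^ 2) - (∫ p in O, M p.1 p.2.1 p.2.2 * g p) +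
        (1 / 4) * ∫ p in O, g p ^ 2 := by
    have i32 : IntegrableOn (fun p : ℝ × ℝ × ℝ => M p.1 p.2.1 p.2.2 ^ 2 -
        M p.1 p.2.1 p.2.2 * g p) O := i3.sub i2
    rw [← integral_const_mul, ← integral_sub i3 i2, ← integral_add i32 (i1.const_mul _)]
    refine integral_congr_ae (ae_of_all _ fun p => ?_)
    simp only
    ring
  rw [e] at hη
  linarith

/-- compact sets stay away from the boundary -/
lemma compact_margin {K : Set (ℝ × ℝ × ℝ)} (hK : IsCompact K) {f : ℝ × ℝ × ℝ → ℝ}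
    (hf : Continuous f) {b : ℝ} (hb : ∀ p ∈ K, f p < b) :
    ∃ ε₀ : ℝ, 0 < ε₀ ∧ ∀ ε : ℝ, ε ≤ ε₀ → ∀ p ∈ K, f p ≤ b - ε := by
  rcases K.eq_empty_or_nonempty with h | h
  · exact ⟨1, one_pos, fun ε _ p hp => by rw [h] at hp; exact absurd hp (Set.notMem_empty _)⟩
  · obtain ⟨q, hq, hmax⟩ := hK.exists_isMaxOn h hf.continuousOn
    refine ⟨b - f q, by linarith [hb q hq], fun ε hε p hp => ?_⟩
    have : f p ≤ f q := hmax hp
    linarith

end Pool.Agent.SixT
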