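import Mathlib
import Pool.Agent.Lib_MP_112ba8_t.Mix8

/-!
Piece E4 (about 250 lines).

`I8_mix` with `H(s₀,s₁,r₀) = (1-s₀-r₀) φ(s₁)`, multiplied by indicator functions of `s₀ < B`, `r₀ < B` for a
large `B` (automatic on the support: in `I8`, `s₀ = y₀₁+y₀₂ ≤ r₁+r₂`, `r₀ = y₁₀+y₂₀ ≤ s₁+s₂`).
Inner integral: substitute `s = u'+q+y`:
`∫_{q∈(0,x)}∫_{u'>0} (1-(x-q)-(u'+z)) φ(u'+q+y) = ∫ φ(s) K(s;x,y,z) ds`,
`K(s;x,y,z) = ∫_{q∈(0,x), q<s-y} (1-x-z-s+y+2q) dq = Q (1-x-z-s+y+Q)`, `Q = min(x, max(0,s-y))`.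
`|K(s)-K(1/4)| ≤ C|s-1/4|` on the support of `M`, `0 < s < 1/4`, and `|s-1/4| ≤ 2δ` on the support of `φ`:
the inner integral is `c K(1/4;x,y,z) + O(δ)`. Finally
`2∫ M(x,y,z) c K(1/4;x,y,z) = 2c ∫_{y<x} M(x,y,z) (K(1/4;x,y,z)-K(1/4;y,x,z))` and
`K(1/4;x,y,z)-K(1/4;y,x,z) = mm x y z` for `0 < y < x`, `0 < z`:
`x ≤ 1/4, x+y ≤ 1/4`: `x(1-z-1/4+y) - y(1-z-1/4+x) = (x-y)(1-z-1/4)`;
`x ≤ 1/4 < x+y`: `(1/4-y)(1-x-z) - (1/4-x)(1-y-z) = (x-y)(1-z-1/4)`;
`x > 1/4`: `(1-x-z) max(0,1/4-y) - 0`.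
-/

namespace Pool.Agent.SixT

open Filter Topology MeasureTheory
open Pool.Agent.EvenMoment (cl Wgt Sz ker ar)

namespace LimXVR

/-- `Q = min(x, max(0, s-y))` -/
noncomputable def QQ (x y s : ℝ) : ℝ := min x (max 0 (s - y))

/-- `K(s;x,y,z)` -/
noncomputable def KK (x y z s : ℝ) : ℝ := QQ x y s * (1 - x - z - s + y + QQ x y s)

theorem QQ_nonneg {x : ℝ} (hx : 0 ≤ x) (y s : ℝ) : 0 ≤ QQ x y s := le_min hx (le_max_left _ _)

theorem QQ_le (x y s : ℝ) : QQ x y s ≤ x := min_le_left _ _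

theorem QQ_lip (x y s t : ℝ) : |QQ x y s - QQ x y t| ≤ |s - t| := by
  unfold QQ
  have h1 : |min x (max 0 (s - y)) - min x (max 0 (t - y))| ≤ max |x - x| |max 0 (s - y) - max 0 (t - y)| :=
    abs_min_sub_min_le_max _ _ _ _
  have h2 : |max 0 (s - y) - max 0 (t - y)| ≤ max |(0:ℝ) - 0| |(s - y) - (t - y)| :=
    abs_max_sub_max_le_max _ _ _ _
  have h3 : (s - y) - (t - y) = s - t := by ring
  rw [h3] at h2
  simp only [sub_self, abs_zero] at h1 h2
  have h4 : max 0 |s - t| = |s - t| := max_eq_right (abs_nonneg _)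
  rw [h4] at h2
  have h5 : max 0 |max 0 (s - y) - max 0 (t - y)| = |max 0 (s - y) - max 0 (t - y)| :=
    max_eq_right (abs_nonneg _)
  rw [h5] at h1
  exact h1.trans h2

theorem KK_lip {b x y z s t : ℝ} (hx : 0 ≤ x) (hy : 0 ≤ y) (hz : 0 ≤ z) (hxb : x ≤ b) (hyb : y ≤ b)
    (hzb : z ≤ b) (hs : 0 ≤ s) (hs1 : s ≤ 1) :
    |KK x y z s - KK x y z t| ≤ (2 + 6 * b) * |s - t| := by
  have h1 := QQ_lip x y s t
  have h2 := QQ_nonneg hx y s
  have h3 := QQ_le x y s
  have h4 := QQ_nonneg hx y t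
  have h5 := QQ_le x y t
  unfold KK
  have e : QQ x y s * (1 - x - z - s + y + QQ x y s) - QQ x y t * (1 - x - z - t + y + QQ x y t) =
      (QQ x y s - QQ x y t) * (1 - x - z - s + y + QQ x y s) +
        QQ x y t * ((t - s) + (QQ x y s - QQ x y t)) := by ring
  rw [e]
  have hA : |1 - x - z - s + y + QQ x y s| ≤ 2 + 4 * b := by
    rw [abs_le]; constructor <;> linarith
  have hB : |(t - s) + (QQ x y s - QQ x y t)| ≤ 2 * |s - t| := by
    refine (abs_add_le _ _).trans ?_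
    rw [abs_sub_comm t s]; linarith
  have hb : 0 ≤ b := hx.trans hxb
  calc |(QQ x y s - QQ x y t) * (1 - x - z - s + y + QQ x y s) +
        QQ x y t * ((t - s) + (QQ x y s - QQ x y t))| ≤
      |(QQ x y s - QQ x y t) * (1 - x - z - s + y + QQ x y s)| +
        |QQ x y t * ((t - s) + (QQ x y s - QQ x y t))| := abs_add_le _ _
    _ ≤ |s - t| * (2 + 4 * b) + b * (2 * |s - t|) := by
        rw [abs_mul, abs_mul, abs_of_nonneg h4]
        gcongr
        exact h5.trans hxb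
    _ = (2 + 6 * b) * |s - t| := by ring

theorem KK_sub_eq_mm {x y z : ℝ} (hy : 0 < y) (hyx : y < x) :
    KK x y z (1 / 4) - KK y x z (1 / 4) = mm x y z := by
  unfold KK QQ mm
  by_cases hx : x ≤ 1 / 4
  · rw [if_pos hx]
    rw [max_eq_right (by linarith : (0:ℝ) ≤ 1 / 4 - y), max_eq_right (by linarith : (0:ℝ) ≤ 1 / 4 - x)]
    by_cases hxy : x + y ≤ 1 / 4
    · rw [min_eq_left (by linarith), min_eq_left (by linarith)]; ring
    · rw [min_eq_right (by linarith), min_eq_right (by linarith)]; ring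
  · rw [if_neg hx]
    rw [max_eq_left (by linarith : 1 / 4 - x ≤ (0:ℝ)), min_eq_right hy.le]
    have h1 : min x (max 0 (1 / 4 - y)) = max 0 (1 / 4 - y) := by
      apply min_eq_right
      exact max_le (by linarith) (by linarith)
    rw [h1]
    by_cases h2 : y ≤ 1 / 4
    · rw [max_eq_right (by linarith : (0:ℝ) ≤ 1 / 4 - y)]; ring
    · rw [max_eq_left (by linarith : 1 / 4 - y ≤ (0:ℝ))]; ring

theorem QQ_cont : Continuous fun p : (ℝ × ℝ × ℝ) × ℝ => QQ p.1.1 p.1.2.1 p.2 := by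
  unfold QQ; fun_prop

theorem KK_cont : Continuous fun p : (ℝ × ℝ × ℝ) × ℝ => KK p.1.1 p.1.2.1 p.1.2.2 p.2 := by
  have := QQ_cont
  unfold KK
  fun_prop

/-- the inner integral -/
theorem inner {φ : ℝ → ℝ} {δ c : ℝ} (hφ : Thin φ δ c) (hδ : 0 < δ) (hδ1 : δ < 1 / 8) {x y : ℝ}
    (hx : 0 < x) (hy : 0 < y) (z : ℝ) :
    ∫ q in Set.Ioo 0 x, ∫ u' in Set.Ioi (0 : ℝ), (1 - (x - q) - (u' + z)) * φ (u' + q + y) =
      ∫ s, φ s * KK x y z s := by
  have hcont : Continuous φ := hφ.smooth.continuous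
  have h0 : ∀ s, s ∉ Set.Ioo (0 : ℝ) (1 / 4) → φ s = 0 := by
    intro s hs
    apply hφ.supp
    rw [Set.mem_Ioo, not_and_or, not_lt, not_lt] at hs
    rcases hs with h | h
    · left; linarith
    · right; linarith
  have step1 : ∀ q : ℝ, (∫ u' in Set.Ioi (0 : ℝ), (1 - (x - q) - (u' + z)) * φ (u' + q + y)) =
      ∫ s in Set.Ioo (0 : ℝ) (1 / 4), (if q < s - y then (1 - x - z - s + y + 2 * q) * φ s else 0) := by
    intro q
    rw [← integral_indicator measurableSet_Ioi]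
    rw [← integral_sub_right_eq_self _ (q + y)]
    rw [setIntegral_eq_integral_of_forall_compl_eq_zero]
    · apply integral_congr_ae
      filter_upwards with s
      by_cases h : q < s - y
      · rw [if_pos h, Set.indicator_of_mem]
        · have e1 : s - (q + y) + q + y = s := by ring
          rw [e1]; ring
        · rw [Set.mem_Ioi]; linarith
      · rw [if_neg h, Set.indicator_of_notMem]
        rw [Set.mem_Ioi]; linarith
    · intro s hs
      rw [h0 s hs]; simp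
  rw [setIntegral_congr_fun measurableSet_Ioo (fun q _ => step1 q)]
  have hswap := integral_integral_swap (μ := volume.restrict (Set.Ioo (0:ℝ) x))
    (ν := volume.restrict (Set.Ioo (0 : ℝ) (1 / 4)))
    (f := fun q s => if q < s - y then (1 - x - z - s + y + 2 * q) * φ s else 0) ?_
  · rw [hswap]
    rw [← setIntegral_eq_integral_of_forall_compl_eq_zero (s := Set.Ioo (0 : ℝ) (1 / 4))
      (f := fun s => φ s * KK x y z s)]
    · apply setIntegral_congr_fun measurableSet_Ioo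
      intro s hs
      simp only
      have hQ0 := QQ_nonneg hx.le y s
      have e2 : (∫ q in Set.Ioo 0 x, if q < s - y then (1 - x - z - s + y + 2 * q) * φ s else 0) =
          ∫ q in Set.Ioo 0 (QQ x y s), (1 - x - z - s + y + 2 * q) * φ s := by
        rw [← integral_indicator measurableSet_Ioo, ← integral_indicator measurableSet_Ioo]
        apply integral_congr_ae
        filter_upwards with q
        by_cases hq : q ∈ Set.Ioo 0 (QQ x y s)
        · have hq1 : q < x := hq.2.trans_le (QQ_le x y s)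
          have hq2 : q < s - y := by
            have := hq.2.trans_le (min_le_right x (max 0 (s - y)))
            rcases lt_max_iff.mp this with h | h
            · exact absurd hq.1 (by linarith)
            · exact h
          rw [Set.indicator_of_mem hq, Set.indicator_of_mem (show q ∈ Set.Ioo 0 x from ⟨hq.1, hq1⟩),
            if_pos hq2]
        · rw [Set.indicator_of_notMem hq]
          by_cases hq1 : q ∈ Set.Ioo 0 x
          · rw [Set.indicator_of_mem hq1, if_neg]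
            intro h
            apply hq
            refine ⟨hq1.1, ?_⟩
            unfold QQ
            exact lt_min hq1.2 (lt_max_of_lt_right h)
          · rw [Set.indicator_of_notMem hq1]
      rw [e2, ← integral_Ioc_eq_integral_Ioo, ← intervalIntegral.integral_of_le hQ0]
      rw [intervalIntegral.integral_mul_const]
      have e3 : (∫ q in (0:ℝ)..(QQ x y s), (1 - x - z - s + y + 2 * q)) =
          QQ x y s * (1 - x - z - s + y + QQ x y s) := by
        rw [intervalIntegral.integral_add (by simp) (by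
          apply Continuous.intervalIntegrable; fun_prop)]
        rw [intervalIntegral.integral_const, intervalIntegral.integral_const_mul, integral_id]
        simp only [smul_eq_mul]
        ring
      rw [e3]
      unfold KK
      ring
    · intro s hs
      rw [h0 s hs]; simp
  · -- integrability
    obtain ⟨Φ, hΦ⟩ : ∃ Φ, ∀ s ∈ Set.Icc (0:ℝ) (1 / 4), ‖φ s‖ ≤ Φ := by
      obtain ⟨Φ, hΦ⟩ := (isCompact_Icc (a := (0:ℝ)) (b := 1 / 4)).exists_bound_of_continuousOn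
        hcont.continuousOn
      exact ⟨Φ, hΦ⟩
    have hmeas : Measurable (fun p : ℝ × ℝ => if p.1 < p.2 - y then
        (1 - x - z - p.2 + y + 2 * p.1) * φ p.2 else 0) := by
      apply Measurable.ite
      · exact measurableSet_lt (by fun_prop) (by fun_prop)
      · exact Continuous.measurable (by fun_prop)
      · exact measurable_const
    have : (Function.uncurry fun q s : ℝ => if q < s - y then (1 - x - z - s + y + 2 * q) * φ s else 0)
        = (fun p : ℝ × ℝ => if p.1 < p.2 - y then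
        (1 - x - z - p.2 + y + 2 * p.1) * φ p.2 else 0) := by
      funext p; rfl
    rw [this]
    have : IsFiniteMeasure ((volume.restrict (Set.Ioo (0:ℝ) x)).prod
        (volume.restrict (Set.Ioo (0 : ℝ) (1 / 4)))) := by infer_instance
    refine Integrable.of_bound hmeas.aestronglyMeasurable
      ((1 + 3 * x + |z| + 1 / 4 + y) * Φ) ?_
    rw [Measure.prod_restrict]
    filter_upwards [ae_restrict_mem (measurableSet_Ioo.prod measurableSet_Ioo)] with p hp
    have hp1 : p.1 ∈ Set.Ioo 0 x := hp.1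
    have hp2 : p.2 ∈ Set.Ioo (0:ℝ) (1 / 4) := hp.2
    have hΦ0 : 0 ≤ Φ := (norm_nonneg _).trans (hΦ _ ⟨hp2.1.le, hp2.2.le⟩)
    have hz := abs_nonneg z
    split_ifs
    · rw [norm_mul]
      gcongr
      · rw [Real.norm_eq_abs, abs_le]
        have := neg_abs_le z
        have := le_abs_self z
        constructor <;> linarith [hp1.1, hp1.2, hp2.1, hp2.2]
      · exact hΦ _ ⟨hp2.1.le, hp2.2.le⟩
    · rw [norm_zero]; positivity


theorem mp_swap : MeasurePreserving (fun p : ℝ × ℝ × ℝ => (p.2.1, p.1, p.2.2)) mu3 mu3 := by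
  have : SFinite mu := by unfold mu; infer_instance
  unfold mu3
  have h1 := (measurePreserving_prodAssoc mu mu mu)
  have h2 := (MeasurePreserving.prod (Measure.measurePreserving_swap (μ := mu) (ν := mu))
    (MeasurePreserving.id mu))
  have h3 := h1.comp (h2.comp (h1.symm _))
  exact h3

theorem mu3_eq : mu3 = volume.restrict (Set.Ioi (0:ℝ) ×ˢ (Set.Ioi (0:ℝ) ×ˢ Set.Ioi (0:ℝ))) := by
  unfold mu3 mu
  rw [Measure.prod_restrict, Measure.prod_restrict]
  rfl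

theorem mu8_eq : mu8 = volume.restrict ((Set.Ioi (0:ℝ) ×ˢ Set.Ioi (0:ℝ)) ×ˢ
    ((Set.Ioi (0:ℝ) ×ˢ (Set.Ioi (0:ℝ) ×ˢ Set.Ioi (0:ℝ))) ×ˢ
    (Set.Ioi (0:ℝ) ×ˢ (Set.Ioi (0:ℝ) ×ˢ Set.Ioi (0:ℝ))))) := by
  unfold mu8
  rw [mu3_eq]
  unfold mu
  rw [Measure.prod_restrict, Measure.prod_restrict, Measure.prod_restrict]
  rfl

theorem ae_pos : ∀ᵐ p ∂mu3, 0 < p.1 ∧ 0 < p.2.1 ∧ 0 < p.2.2 := by
  rw [mu3_eq]
  filter_upwards [ae_restrict_mem (measurableSet_Ioi.prod (measurableSet_Ioi.prod measurableSet_Ioi))]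
    with p hp
  exact ⟨hp.1, hp.2.1, hp.2.2⟩

theorem M_bound {M : ℝ → ℝ → ℝ → ℝ} (hM : Tst M) : Integrable (fun p : ℝ × ℝ × ℝ => M p.1 p.2.1 p.2.2) mu3 := by
  obtain ⟨a, b, ha, hb⟩ := hM.supp
  rw [mu3_eq]
  apply Integrable.restrict
  apply Continuous.integrable_of_hasCompactSupport hM.smooth.continuous
  apply HasCompactSupport.intro (K := Set.Icc a b ×ˢ (Set.Icc a b ×ˢ Set.Icc a b))
  · exact isCompact_Icc.prod (isCompact_Icc.prod isCompact_Icc)
  · intro p hp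
    apply hb
    by_contra h
    push Not at h
    apply hp
    exact ⟨⟨h.1, h.2.2.2.1⟩, ⟨h.2.1, h.2.2.2.2.1⟩, ⟨h.2.2.1, h.2.2.2.2.2⟩⟩

theorem MK_int {M : ℝ → ℝ → ℝ → ℝ} (hM : Tst M) {F : ℝ × ℝ × ℝ → ℝ} (hF : Continuous F) :
    Integrable (fun p : ℝ × ℝ × ℝ => M p.1 p.2.1 p.2.2 * F p) mu3 := by
  obtain ⟨a, b, ha, hb⟩ := hM.supp
  rw [mu3_eq]
  apply Integrable.restrict
  apply Continuous.integrable_of_hasCompactSupport (hM.smooth.continuous.mul hF)
  apply HasCompactSupport.intro (K := Set.Icc a b ×ˢ (Set.Icc a b ×ˢ Set.Icc a b))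
  · exact isCompact_Icc.prod (isCompact_Icc.prod isCompact_Icc)
  · intro p hp
    show M p.1 p.2.1 p.2.2 * F p = 0
    rw [hb, zero_mul]
    by_contra h
    push Not at h
    apply hp
    exact ⟨⟨h.1, h.2.2.2.1⟩, ⟨h.2.1, h.2.2.2.2.1⟩, ⟨h.2.2.1, h.2.2.2.2.2⟩⟩

theorem fold {M : ℝ → ℝ → ℝ → ℝ} (hM : Tst M) (hA : Anti M) :
    ∫ p : ℝ × ℝ × ℝ, M p.1 p.2.1 p.2.2 * KK p.1 p.2.1 p.2.2 (1 / 4) ∂mu3 =
      ∫ p in {p : ℝ × ℝ × ℝ | p.2.1 < p.1}, M p.1 p.2.1 p.2.2 * mm p.1 p.2.1 p.2.2 ∂mu3 := by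
  have hK : Continuous fun p : ℝ × ℝ × ℝ => KK p.1 p.2.1 p.2.2 (1 / 4) :=
    KK_cont.comp (f := fun p : ℝ × ℝ × ℝ => (p, (1 / 4 : ℝ))) (by fun_prop)
  have hK' : Continuous fun p : ℝ × ℝ × ℝ => KK p.2.1 p.1 p.2.2 (1 / 4) :=
    hK.comp (f := fun p : ℝ × ℝ × ℝ => (p.2.1, p.1, p.2.2)) (by fun_prop)
  have hi := MK_int hM hK
  have hi' := MK_int hM hK'
  have hS : MeasurableSet {p : ℝ × ℝ × ℝ | p.2.1 < p.1} := measurableSet_lt (by fun_prop) (by fun_prop)
  have hS' : MeasurableSet {p : ℝ × ℝ × ℝ | p.1 < p.2.1} := measurableSet_lt (by fun_prop) (by fun_prop)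
  rw [← integral_add_compl hS hi]
  have e1 : ∫ p in {p : ℝ × ℝ × ℝ | p.2.1 < p.1}ᶜ, M p.1 p.2.1 p.2.2 * KK p.1 p.2.1 p.2.2 (1 / 4) ∂mu3 =
      ∫ p in {p : ℝ × ℝ × ℝ | p.2.1 < p.1}, -(M p.1 p.2.1 p.2.2 * KK p.2.1 p.1 p.2.2 (1 / 4)) ∂mu3 := by
    rw [← integral_indicator hS.compl, ← integral_indicator hS]
    have h1 : (fun p : ℝ × ℝ × ℝ => Set.indicator {p : ℝ × ℝ × ℝ | p.2.1 < p.1}ᶜ
        (fun p => M p.1 p.2.1 p.2.2 * KK p.1 p.2.1 p.2.2 (1 / 4)) p) =
        (fun p : ℝ × ℝ × ℝ => Set.indicator {p : ℝ × ℝ × ℝ | p.1 < p.2.1}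
        (fun p => M p.1 p.2.1 p.2.2 * KK p.1 p.2.1 p.2.2 (1 / 4)) p) := by
      funext p
      rcases lt_trichotomy p.1 p.2.1 with h | h | h
      · rw [Set.indicator_of_mem, Set.indicator_of_mem]
        · exact h
        · simp only [Set.mem_compl_iff, Set.mem_ofPred_eq, not_lt]; exact h.le
      · rw [Set.indicator_of_mem, Set.indicator_of_notMem]
        · have : M p.1 p.2.1 p.2.2 = 0 := by
            have := hA p.1 p.2.1 p.2.2
            rw [← h] at this ⊢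
            linarith
          rw [this, zero_mul]
        · simp only [Set.mem_ofPred_eq, not_lt]; exact h.ge
        · simp only [Set.mem_compl_iff, Set.mem_ofPred_eq, not_lt]; exact h.le
      · rw [Set.indicator_of_notMem, Set.indicator_of_notMem]
        · simp only [Set.mem_ofPred_eq, not_lt]; exact h.le
        · simp only [Set.mem_compl_iff, Set.mem_ofPred_eq, not_not]; exact h
    rw [h1]
    have h2 := integral_map (μ := mu3) (φ := fun p : ℝ × ℝ × ℝ => (p.2.1, p.1, p.2.2))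
      (f := fun p : ℝ × ℝ × ℝ => Set.indicator {p : ℝ × ℝ × ℝ | p.1 < p.2.1}
        (fun p => M p.1 p.2.1 p.2.2 * KK p.1 p.2.1 p.2.2 (1 / 4)) p)
      mp_swap.measurable.aemeasurable (by
        rw [mp_swap.map_eq]
        exact (hi.indicator hS').aestronglyMeasurable)
    rw [mp_swap.map_eq] at h2
    rw [h2]
    apply integral_congr_ae
    filter_upwards with p
    by_cases h : p.2.1 < p.1
    · rw [Set.indicator_of_mem (show p ∈ {p : ℝ × ℝ × ℝ | p.2.1 < p.1} from h),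
        Set.indicator_of_mem (show ((p.2.1, p.1, p.2.2) : ℝ × ℝ × ℝ) ∈ {p : ℝ × ℝ × ℝ | p.1 < p.2.1} from h)]
      simp only
      rw [hA p.2.1 p.1 p.2.2]; ring
    · rw [Set.indicator_of_notMem (show p ∉ {p : ℝ × ℝ × ℝ | p.2.1 < p.1} from h),
        Set.indicator_of_notMem (show ((p.2.1, p.1, p.2.2) : ℝ × ℝ × ℝ) ∉ {p : ℝ × ℝ × ℝ | p.1 < p.2.1} from h)]
  have hi3 : Integrable (fun p : ℝ × ℝ × ℝ => -(M p.1 p.2.1 p.2.2 * KK p.2.1 p.1 p.2.2 (1 / 4)))
      (mu3.restrict {p : ℝ × ℝ × ℝ | p.2.1 < p.1}) := hi'.neg.integrableOn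
  rw [e1, ← integral_add hi.integrableOn hi3]
  apply integral_congr_ae
  filter_upwards [ae_restrict_of_ae ae_pos, ae_restrict_mem hS] with p hp hp1
  rw [← KK_sub_eq_mm hp.2.1 hp1]
  ring

end LimXVR

open LimXVR in
theorem lim_xVR {M : ℝ → ℝ → ℝ → ℝ} (hM : Tst M) (hA : Anti M) {c : ℝ} (hc : 0 < c) {ε : ℝ}
    (hε : 0 < ε) : ∃ δ₀ : ℝ, 0 < δ₀ ∧ ∀ δ : ℝ, 0 < δ → δ < δ₀ → ∀ φ : ℝ → ℝ, Thin φ δ c →
    |I8 (fun s₀ s₁ s₂ r₀ r₁ r₂ => (1 - s₀ - r₀) * φ s₁ * DD M r₁ r₂ s₂) -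
      2 * c * ∫ p in {p : ℝ × ℝ × ℝ | p.2.1 < p.1}, M p.1 p.2.1 p.2.2 * mm p.1 p.2.1 p.2.2 ∂mu3| ≤ ε := by
  obtain ⟨a, b₁, ha, hb₁⟩ := hM.supp
  obtain ⟨a', b₂, ha', hb₂⟩ := (Tst_DD hM).supp
  set b : ℝ := max 0 (max b₁ b₂) with hb
  have hb0 : 0 ≤ b := le_max_left _ _
  have hb1 : b₁ ≤ b := (le_max_left _ _).trans (le_max_right _ _)
  have hb2 : b₂ ≤ b := (le_max_right _ _).trans (le_max_right _ _)
  set A : ℝ := ∫ p : ℝ × ℝ × ℝ, |M p.1 p.2.1 p.2.2| ∂mu3 with hAdef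
  have hA0 : 0 ≤ A := integral_nonneg fun _ => abs_nonneg _
  refine ⟨min (1 / 8) (ε / (4 * c * (2 + 6 * b) * (A + 1))), by positivity, ?_⟩
  intro δ hδ hδ' φ hφ
  have hδ1 : δ < 1 / 8 := hδ'.trans_le (min_le_left _ _)
  have hδ2 : δ * (4 * c * (2 + 6 * b) * (A + 1)) ≤ ε := by
    have := (hδ'.trans_le (min_le_right _ _)).le
    rwa [le_div_iff₀ (by positivity)] at this
  have hcont : Continuous φ := hφ.smooth.continuous
  have h0 : ∀ s, s ∉ Set.Ioo (0 : ℝ) (1 / 4) → φ s = 0 := by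
    intro s hs
    apply hφ.supp
    rw [Set.mem_Ioo, not_and_or, not_lt, not_lt] at hs
    rcases hs with h | h
    · left; linarith
    · right; linarith
  obtain ⟨Φ, hΦ⟩ : ∃ Φ, ∀ s, |φ s| ≤ Φ := by
    obtain ⟨Φ, hΦ⟩ := (isCompact_Icc (a := (0:ℝ)) (b := 1 / 4)).exists_bound_of_continuousOn
      hcont.continuousOn
    refine ⟨max Φ 0, fun s => ?_⟩
    by_cases hs : s ∈ Set.Ioo (0:ℝ) (1 / 4)
    · exact (hΦ s ⟨hs.1.le, hs.2.le⟩).trans (le_max_left _ _)
    · rw [h0 s hs, abs_zero]; exact le_max_right _ _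
  have hΦ0 : 0 ≤ Φ := (abs_nonneg _).trans (hΦ 0)
  set B₀ : ℝ := 2 * b + 1 with hB₀
  set H : ℝ → ℝ → ℝ → ℝ := fun s₀ s₁ r₀ =>
    if |s₀| < B₀ ∧ |r₀| < B₀ then (1 - s₀ - r₀) * φ s₁ else 0 with hH
  set B : ℝ := (1 + 2 * B₀) * Φ + B₀ with hB
  have hB₀1 : 1 ≤ B₀ := by linarith
  have hBB : B₀ ≤ B := by
    have : 0 ≤ (1 + 2 * B₀) * Φ := by positivity
    linarith
  have hHm : Measurable fun p : ℝ × ℝ × ℝ => H p.1 p.2.1 p.2.2 := by
    rw [hH]
    apply Measurable.ite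
    · have m1 : MeasurableSet {p : ℝ × ℝ × ℝ | |p.1| < B₀} :=
        measurableSet_lt (f := fun p : ℝ × ℝ × ℝ => |p.1|) (by fun_prop) (by fun_prop)
      have m2 : MeasurableSet {p : ℝ × ℝ × ℝ | |p.2.2| < B₀} :=
        measurableSet_lt (f := fun p : ℝ × ℝ × ℝ => |p.2.2|) (by fun_prop) (by fun_prop)
      exact m1.inter m2
    · exact Continuous.measurable (by fun_prop)
    · exact measurable_const
  have hmix := I8_mix hM hA (H := H) hHm (B := B) ?_ ?_ ?_ ?_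
  rotate_left
  · intro s₀ s₁ r₀ _ _ _
    rw [hH]
    simp only
    split_ifs with h
    · rw [abs_mul]
      have h1 : |1 - s₀ - r₀| ≤ 1 + 2 * B₀ := by
        have := abs_lt.mp h.1
        have := abs_lt.mp h.2
        rw [abs_le]; constructor <;> linarith
      have h2 : |1 - s₀ - r₀| * |φ s₁| ≤ (1 + 2 * B₀) * Φ :=
        mul_le_mul h1 (hΦ _) (abs_nonneg _) (by positivity)
      linarith
    · rw [abs_zero]; linarith
  · intro s₀ s₁ r₀ h
    rw [hH]
    simp only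
    rw [if_neg]
    rintro ⟨_, h2⟩
    have := le_abs_self r₀
    linarith
  · intro s₀ s₁ r₀ h
    rw [hH]
    simp only
    rw [if_neg]
    rintro ⟨h2, _⟩
    have := le_abs_self s₀
    linarith
  · intro s₀ s₁ r₀ h
    rw [hH]
    simp only
    rw [h0 s₁, mul_zero, ite_self]
    rintro ⟨_, h2⟩
    linarith
  -- the left side
  have hleft : I8 (fun s₀ s₁ s₂ r₀ r₁ r₂ => (1 - s₀ - r₀) * φ s₁ * DD M r₁ r₂ s₂) =
      I8 (fun s₀ s₁ s₂ r₀ r₁ r₂ => H s₀ s₁ r₀ * DD M r₁ r₂ s₂) := by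
    unfold I8
    apply integral_congr_ae
    have hpos : ∀ᵐ y ∂mu8, (0 < y.1.1 ∧ 0 < y.1.2) ∧ (0 < y.2.1.1 ∧ 0 < y.2.1.2.1 ∧ 0 < y.2.1.2.2) ∧
        (0 < y.2.2.1 ∧ 0 < y.2.2.2.1 ∧ 0 < y.2.2.2.2) := by
      rw [mu8_eq]
      filter_upwards [ae_restrict_mem ((measurableSet_Ioi.prod measurableSet_Ioi).prod
        ((measurableSet_Ioi.prod (measurableSet_Ioi.prod measurableSet_Ioi)).prod
        (measurableSet_Ioi.prod (measurableSet_Ioi.prod measurableSet_Ioi))))] with y hy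
      exact ⟨⟨hy.1.1, hy.1.2⟩, ⟨hy.2.1.1, hy.2.1.2.1, hy.2.1.2.2⟩, ⟨hy.2.2.1, hy.2.2.2.1, hy.2.2.2.2⟩⟩
    filter_upwards [hpos] with y hy
    obtain ⟨⟨h1, h2⟩, ⟨h3, h4, h5⟩, ⟨h6, h7, h8⟩⟩ := hy
    by_cases hD : DD M (y.1.1 + y.2.1.2.1 + y.2.2.2.1) (y.1.2 + y.2.1.2.2 + y.2.2.2.2)
        (y.2.2.1 + y.2.2.2.1 + y.2.2.2.2) = 0
    · rw [hD]; simp
    · have hD' := mt (hb₂ _ _ _) hD
      push Not at hD'
      obtain ⟨-, -, -, g1, g2, g3⟩ := hD'
      by_cases hφ0 : φ (y.2.1.1 + y.2.1.2.1 + y.2.1.2.2) = 0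
      · rw [hH]; simp only; rw [hφ0]; simp
      · have hs := not_imp_comm.mp (h0 (y.2.1.1 + y.2.1.2.1 + y.2.1.2.2)) hφ0
        rw [hH]
        simp only
        rw [if_pos]
        constructor
        · rw [abs_of_pos (by linarith)]; linarith
        · rw [abs_of_pos (by linarith)]; linarith [hs.2]
  have hright : ∀ p : ℝ × ℝ × ℝ, M p.1 p.2.1 p.2.2 * (∫ q in Set.Ioo 0 p.1,
        ∫ u' in Set.Ioi (0 : ℝ), H (p.1 - q) (u' + q + p.2.1) (u' + p.2.2)) =
      M p.1 p.2.1 p.2.2 * (∫ s, φ s * KK p.1 p.2.1 p.2.2 s) := by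
    intro p
    by_cases hMp : M p.1 p.2.1 p.2.2 = 0
    · rw [hMp, zero_mul, zero_mul]
    · have hM' := mt (hb₁ _ _ _) hMp
      push Not at hM'
      obtain ⟨g1, g2, g3, g4, g5, g6⟩ := hM'
      congr 1
      rw [← inner hφ hδ hδ1 (by linarith : 0 < p.1) (by linarith : 0 < p.2.1) p.2.2]
      apply setIntegral_congr_fun measurableSet_Ioo
      intro q hq
      apply setIntegral_congr_fun measurableSet_Ioi
      intro u hu
      have hq1 := hq.1
      have hq2 := hq.2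
      have hu1 : 0 < u := hu
      simp only
      by_cases hφ0 : φ (u + q + p.2.1) = 0
      · rw [hH]; simp only; rw [hφ0]; simp
      · have hs := not_imp_comm.mp (h0 (u + q + p.2.1)) hφ0
        rw [hH]
        simp only
        rw [if_pos]
        constructor
        · rw [abs_of_pos (by linarith)]; linarith
        · rw [abs_of_pos (by linarith)]; linarith [hs.2]
  rw [hleft, hmix, mul_assoc, ← fold hM hA]
  rw [integral_congr_ae (Filter.Eventually.of_forall hright)]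
  -- the difference
  have hKc : Continuous fun p : ℝ × ℝ × ℝ => KK p.1 p.2.1 p.2.2 (1 / 4) :=
    KK_cont.comp (f := fun p : ℝ × ℝ × ℝ => (p, (1 / 4 : ℝ))) (by fun_prop)
  have hi := MK_int hM hKc
  have hφi : Integrable φ := by
    apply hcont.integrable_of_hasCompactSupport
    apply HasCompactSupport.intro (K := Set.Icc 0 (1 / 4)) isCompact_Icc
    intro s hs
    apply h0
    intro h
    exact hs ⟨h.1.le, h.2.le⟩
  have hφK : ∀ p : ℝ × ℝ × ℝ, Integrable (fun s => φ s * KK p.1 p.2.1 p.2.2 s) := by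
    intro p
    apply Continuous.integrable_of_hasCompactSupport
    · apply hcont.mul
      exact KK_cont.comp (f := fun s : ℝ => (p, s)) (by fun_prop)
    · apply HasCompactSupport.intro (K := Set.Icc 0 (1 / 4)) isCompact_Icc
      intro s hs
      rw [h0, zero_mul]
      intro h
      exact hs ⟨h.1.le, h.2.le⟩
  have hdiff : ∀ p : ℝ × ℝ × ℝ, |M p.1 p.2.1 p.2.2 * (∫ s, φ s * KK p.1 p.2.1 p.2.2 s) -
      c * (M p.1 p.2.1 p.2.2 * KK p.1 p.2.1 p.2.2 (1 / 4))| ≤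
      |M p.1 p.2.1 p.2.2| * ((2 + 6 * b) * (2 * δ) * c) := by
    intro p
    by_cases hMp : M p.1 p.2.1 p.2.2 = 0
    · rw [hMp]; simp
    · have hM' := mt (hb₁ _ _ _) hMp
      push Not at hM'
      obtain ⟨g1, g2, g3, g4, g5, g6⟩ := hM'
      have e1 : M p.1 p.2.1 p.2.2 * (∫ s, φ s * KK p.1 p.2.1 p.2.2 s) -
          c * (M p.1 p.2.1 p.2.2 * KK p.1 p.2.1 p.2.2 (1 / 4)) =
          M p.1 p.2.1 p.2.2 * ∫ s, φ s * (KK p.1 p.2.1 p.2.2 s - KK p.1 p.2.1 p.2.2 (1 / 4)) := by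
        have : ∫ s, φ s * (KK p.1 p.2.1 p.2.2 s - KK p.1 p.2.1 p.2.2 (1 / 4)) =
            (∫ s, φ s * KK p.1 p.2.1 p.2.2 s) - c * KK p.1 p.2.1 p.2.2 (1 / 4) := by
          rw [← hφ.int, ← integral_mul_const, ← integral_sub (hφK p) (hφi.mul_const _)]
          apply integral_congr_ae
          filter_upwards with s
          ring
        rw [this]; ring
      rw [e1, abs_mul]
      gcongr
      calc |∫ s, φ s * (KK p.1 p.2.1 p.2.2 s - KK p.1 p.2.1 p.2.2 (1 / 4))| ≤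
          ∫ s, |φ s * (KK p.1 p.2.1 p.2.2 s - KK p.1 p.2.1 p.2.2 (1 / 4))| := abs_integral_le_integral_abs
        _ ≤ ∫ s, (2 + 6 * b) * (2 * δ) * φ s := by
            apply integral_mono_of_nonneg
            · exact Filter.Eventually.of_forall fun s => abs_nonneg _
            · exact hφi.const_mul _
            · filter_upwards with s
              by_cases hs : φ s = 0
              · rw [hs]; simp
              · have hs' := mt (hφ.supp s) hs
                push Not at hs'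
                rw [abs_mul, abs_of_nonneg (hφ.nonneg s), mul_comm]
                have hlip := KK_lip (b := b) (x := p.1) (y := p.2.1) (z := p.2.2) (s := s) (t := 1 / 4)
                  (by linarith) (by linarith) (by linarith) (by linarith) (by linarith) (by linarith)
                  (by linarith [hs'.1]) (by linarith [hs'.2])
                have h5 : |s - 1 / 4| ≤ 2 * δ := by
                  rw [abs_le]; constructor <;> linarith [hs'.1, hs'.2]
                refine mul_le_mul_of_nonneg_right ?_ (hφ.nonneg s)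
                refine hlip.trans ?_
                gcongr
        _ = (2 + 6 * b) * (2 * δ) * c := by rw [integral_const_mul, hφ.int]
  have hi2 : Integrable (fun p : ℝ × ℝ × ℝ => M p.1 p.2.1 p.2.2 * (∫ s, φ s * KK p.1 p.2.1 p.2.2 s)) mu3 := by
    have hgi : Integrable (fun p : ℝ × ℝ × ℝ => |M p.1 p.2.1 p.2.2| * ((2 + 6 * b) * (2 * δ) * c) +
        |c * (M p.1 p.2.1 p.2.2 * KK p.1 p.2.1 p.2.2 (1 / 4))|) mu3 :=
      ((M_bound hM).abs.mul_const _).add (hi.const_mul c).abs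
    refine hgi.mono' ?_ ?_
    · apply AEStronglyMeasurable.mul (M_bound hM).aestronglyMeasurable
      apply StronglyMeasurable.aestronglyMeasurable
      apply StronglyMeasurable.integral_prod_right (f := fun (p : ℝ × ℝ × ℝ) (s : ℝ) => φ s * KK p.1 p.2.1 p.2.2 s)
      apply Continuous.stronglyMeasurable
      exact (hcont.comp continuous_snd).mul KK_cont
    · filter_upwards with p
      have h1 := hdiff p
      have h2 := abs_sub_abs_le_abs_sub (M p.1 p.2.1 p.2.2 * (∫ s, φ s * KK p.1 p.2.1 p.2.2 s))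
        (c * (M p.1 p.2.1 p.2.2 * KK p.1 p.2.1 p.2.2 (1 / 4)))
      rw [Real.norm_eq_abs]
      linarith
  rw [← mul_sub, abs_mul, abs_two, ← integral_const_mul, ← integral_sub hi2 (hi.const_mul c)]
  have hfin : |∫ p : ℝ × ℝ × ℝ, (M p.1 p.2.1 p.2.2 * (∫ s, φ s * KK p.1 p.2.1 p.2.2 s) -
      c * (M p.1 p.2.1 p.2.2 * KK p.1 p.2.1 p.2.2 (1 / 4))) ∂mu3| ≤ A * ((2 + 6 * b) * (2 * δ) * c) := by
    refine abs_integral_le_integral_abs.trans ?_
    rw [hAdef, ← integral_mul_const]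
    apply integral_mono (hi2.sub (hi.const_mul c)).abs ((M_bound hM).abs.mul_const _)
    exact hdiff
  calc 2 * |∫ p : ℝ × ℝ × ℝ, (M p.1 p.2.1 p.2.2 * (∫ s, φ s * KK p.1 p.2.1 p.2.2 s) -
      c * (M p.1 p.2.1 p.2.2 * KK p.1 p.2.1 p.2.2 (1 / 4))) ∂mu3| ≤
      2 * (A * ((2 + 6 * b) * (2 * δ) * c)) := by gcongr
    _ ≤ δ * (4 * c * (2 + 6 * b) * (A + 1)) := by
        have : 0 ≤ δ * c * (2 + 6 * b) := by positivity
        nlinarith
    _ ≤ ε := hδ2

end Pool.Agent.SixT
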