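import Mathlib
import Pool.Agent.Lib_MP_112ba8_t.Mix9

/-!
Piece E5 (about 250 lines).

`I9_mix` with `H(s₀,s₁,r₀) = φ(s₁) φ(r₀)` times the indicator of `s₀ < B` (`s₀ ≤ r₀+r₁+r₂`). Inner integral:
`s = u'+q+y`, `s' = u+u'+z`: `u' = s-q-y ≥ 0`, `u = s'-z-s+q+y ≥ 0`, so it equals
`∫∫ φ(s)φ(s') K(s,s';x,y,z)`, `K = length of {q ∈ (0,x) : z-y+s-s' ≤ q ≤ s-y}
= max(0, min(x,s-y) - max(0,z-y+s-s'))`, Lipschitz in `s, s'`; at `s = s' = v = 1/4`:
`K = max(0, min(x+y,v) - max(y,z))`. For `x > y`: `K(x,y,z) - K(y,x,z) = qq x y z`: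
with `m = min(x+y,v)`: `max(0,m-max(y,z)) - max(0,m-max(x,z))`; `z ≥ x`: `0`; `z < x`, `x ≤ v`: `x - max(y,z)`
(then `m ≥ x`); `z < x`, `x > v`: `m = v`, `max(0,v-max(y,z))`.
-/

namespace Pool.Agent.SixT

open Filter Topology MeasureTheory
open Pool.Agent.EvenMoment (cl Wgt Sz ker ar)

section limZVVC

variable {φ : ℝ → ℝ} {δ c : ℝ}

private theorem zc_compact (h : Thin φ δ c) : HasCompactSupport φ := by
  refine HasCompactSupport.intro (isCompact_Icc (a := 1 / 4 - 2 * δ) (b := 1 / 4 - δ))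
    (fun x hx => h.supp x ?_)
  by_contra hc
  push Not at hc
  exact hx ⟨hc.1.le, hc.2.le⟩

private theorem zc_int (h : Thin φ δ c) : Integrable φ :=
  h.smooth.continuous.integrable_of_hasCompactSupport (zc_compact h)

private theorem zc_int_shift (h : Thin φ δ c) (t : ℝ) : Integrable fun u => φ (u + t) :=
  (zc_int h).comp_add_right t

private theorem zc_tail_nonneg (h : Thin φ δ c) (t : ℝ) :
    0 ≤ ∫ u in Set.Ioi (0 : ℝ), φ (u + t) :=
  integral_nonneg fun _ => h.nonneg _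

private theorem zc_tail_le (h : Thin φ δ c) (t : ℝ) :
    ∫ u in Set.Ioi (0 : ℝ), φ (u + t) ≤ c := by
  calc ∫ u in Set.Ioi (0 : ℝ), φ (u + t) ≤ ∫ u, φ (u + t) :=
        setIntegral_le_integral (zc_int_shift h t) (ae_of_all _ fun u => h.nonneg _)
    _ = c := by rw [integral_add_right_eq_self (fun u => φ u) t]; exact h.int

private theorem zc_tail_full (h : Thin φ δ c) {t : ℝ} (ht : t ≤ 1 / 4 - 2 * δ) :
    ∫ u in Set.Ioi (0 : ℝ), φ (u + t) = c := by
  rw [setIntegral_eq_integral_of_forall_compl_eq_zero,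
    integral_add_right_eq_self (fun u => φ u) t, h.int]
  intro u hu
  simp only [Set.mem_Ioi, not_lt] at hu
  exact h.supp _ (Or.inl (by linarith))

private theorem zc_tail_zero (h : Thin φ δ c) {t : ℝ} (ht : 1 / 4 - δ ≤ t) :
    ∫ u in Set.Ioi (0 : ℝ), φ (u + t) = 0 := by
  apply setIntegral_eq_zero_of_forall_eq_zero
  intro u hu
  have h1 : (0 : ℝ) < u := hu
  exact h.supp _ (Or.inr (by linarith))

/-- the integrand for fixed `q` -/
private theorem zc_int2 (h : Thin φ δ c) (a z : ℝ) :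
    Integrable (fun p : ℝ × ℝ => φ (p.2 + a) * φ (p.1 + p.2 + z)) (volume.prod volume) := by
  have hc : Continuous fun p : ℝ × ℝ => φ (p.2 + a) * φ (p.1 + p.2 + z) := by
    have := h.smooth.continuous
    fun_prop
  rw [← Measure.volume_eq_prod]
  refine hc.integrable_of_hasCompactSupport ?_
  refine HasCompactSupport.intro
    ((isCompact_Icc (a := 1 / 4 - 2 * δ - z - (1 / 4 - δ - a)) (b := 1 / 4 - δ - z - (1 / 4 - 2 * δ - a))).prod
      (isCompact_Icc (a := 1 / 4 - 2 * δ - a) (b := 1 / 4 - δ - a))) ?_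
  rintro ⟨u, v⟩ hx
  by_contra hne
  have h1 : φ (v + a) ≠ 0 := left_ne_zero_of_mul hne
  have h2 : φ (u + v + z) ≠ 0 := right_ne_zero_of_mul hne
  have h3 : ¬(v + a ≤ 1 / 4 - 2 * δ ∨ 1 / 4 - δ ≤ v + a) := fun hh => h1 (h.supp _ hh)
  have h4 : ¬(u + v + z ≤ 1 / 4 - 2 * δ ∨ 1 / 4 - δ ≤ u + v + z) := fun hh => h2 (h.supp _ hh)
  push Not at h3 h4
  apply hx
  simp only [Set.mem_prod, Set.mem_Icc]
  refine ⟨⟨?_, ?_⟩, ?_, ?_⟩ <;> linarith [h3.1, h3.2, h4.1, h4.2]

private theorem zc_swap (h : Thin φ δ c) (a z : ℝ) :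
    ∫ u in Set.Ioi (0 : ℝ), ∫ v in Set.Ioi (0 : ℝ), φ (v + a) * φ (u + v + z) =
      ∫ v in Set.Ioi (0 : ℝ), φ (v + a) * ∫ u in Set.Ioi (0 : ℝ), φ (u + (v + z)) := by
  have hi : Integrable (Function.uncurry fun u v : ℝ => φ (v + a) * φ (u + v + z))
      ((volume.restrict (Set.Ioi (0 : ℝ))).prod (volume.restrict (Set.Ioi (0 : ℝ)))) := by
    rw [Measure.prod_restrict]
    exact (zc_int2 h a z).restrict
  rw [integral_integral_swap hi]
  refine integral_congr_ae (ae_of_all _ fun v => ?_)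
  simp only
  rw [← integral_const_mul]
  simp only [add_assoc]

/-- the function `A(q)`, `a = q + y` -/
private noncomputable def zcA (φ : ℝ → ℝ) (a z : ℝ) : ℝ :=
  ∫ u in Set.Ioi (0 : ℝ), ∫ v in Set.Ioi (0 : ℝ), φ (v + a) * φ (u + v + z)

private theorem zcA_nonneg (h : Thin φ δ c) (a z : ℝ) : 0 ≤ zcA φ a z :=
  integral_nonneg fun _ => integral_nonneg fun _ => mul_nonneg (h.nonneg _) (h.nonneg _)

private theorem zcA_le (h : Thin φ δ c) (a z : ℝ) : zcA φ a z ≤ c ^ 2 := by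
  have hc : 0 ≤ c := (zc_tail_nonneg h 0).trans (zc_tail_le h 0)
  rw [zcA, zc_swap h]
  calc ∫ v in Set.Ioi (0 : ℝ), φ (v + a) * ∫ u in Set.Ioi (0 : ℝ), φ (u + (v + z))
      ≤ ∫ v in Set.Ioi (0 : ℝ), φ (v + a) * c := by
        refine integral_mono_of_nonneg (ae_of_all _ fun v => mul_nonneg (h.nonneg _)
          (zc_tail_nonneg h _)) ((zc_int_shift h a).mul_const c).restrict
          (ae_of_all _ fun v => mul_le_mul_of_nonneg_left (zc_tail_le h _) (h.nonneg _))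
    _ = (∫ v in Set.Ioi (0 : ℝ), φ (v + a)) * c := integral_mul_const _ _
    _ ≤ c * c := mul_le_mul_of_nonneg_right (zc_tail_le h a) hc
    _ = c ^ 2 := by ring

private theorem zcA_zero1 (h : Thin φ δ c) {a : ℝ} (z : ℝ) (ha : 1 / 4 - δ ≤ a) :
    zcA φ a z = 0 := by
  rw [zcA, zc_swap h]
  apply setIntegral_eq_zero_of_forall_eq_zero
  intro v hv
  have h1 : (0 : ℝ) < v := hv
  rw [h.supp (v + a) (Or.inr (by linarith)), zero_mul]

private theorem zcA_zero2 (h : Thin φ δ c) {a z : ℝ} (ha : a + δ ≤ z) :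
    zcA φ a z = 0 := by
  rw [zcA, zc_swap h]
  apply setIntegral_eq_zero_of_forall_eq_zero
  intro v _
  by_cases h1 : v + a ≤ 1 / 4 - 2 * δ
  · rw [h.supp (v + a) (Or.inl h1), zero_mul]
  · push Not at h1
    rw [zc_tail_zero h (by linarith), mul_zero]

private theorem zcA_full (h : Thin φ δ c) {a z : ℝ} (ha : z + δ ≤ a) (ha1 : a ≤ 1 / 4 - 2 * δ) :
    zcA φ a z = c ^ 2 := by
  rw [zcA, zc_swap h]
  have : ∀ v : ℝ, φ (v + a) * ∫ u in Set.Ioi (0 : ℝ), φ (u + (v + z)) = φ (v + a) * c := by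
    intro v
    by_cases h1 : 1 / 4 - δ ≤ v + a
    · rw [h.supp (v + a) (Or.inr h1), zero_mul, zero_mul]
    · push Not at h1
      rw [zc_tail_full h (by linarith)]
  simp only [this]
  rw [integral_mul_const, zc_tail_full h ha1]
  ring

private theorem zcA_meas (h : Thin φ δ c) :
    StronglyMeasurable fun p : ℝ × ℝ => zcA φ p.1 p.2 := by
  have hc : Continuous fun p : ((ℝ × ℝ) × ℝ) × ℝ => φ (p.2 + p.1.1.1) * φ (p.1.2 + p.2 + p.1.1.2) := by
    have := h.smooth.continuous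
    fun_prop
  have h1 := (hc.stronglyMeasurable).integral_prod_right' (ν := volume.restrict (Set.Ioi (0 : ℝ)))
  exact h1.integral_prod_right' (ν := volume.restrict (Set.Ioi (0 : ℝ)))

/-- the limit kernel -/
private noncomputable def zcK (x y z : ℝ) : ℝ := max 0 (min (x + y) (1 / 4) - max y z)

private theorem zc_key (h : Thin φ δ c) (hδ : 0 < δ) (y z q : ℝ) :
    |zcA φ (q + y) z - (Set.Ioo (z - y) (1 / 4 - y)).indicator (fun _ => c ^ 2) q| ≤
      (Set.Icc (z - y - δ) (z - y + δ) ∪ Set.Icc (1 / 4 - y - 2 * δ) (1 / 4 - y)).indicator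
        (fun _ => c ^ 2) q := by
  have h0 := zcA_nonneg h (q + y) z
  have h1 := zcA_le h (q + y) z
  by_cases hq : q ∈ Set.Icc (z - y - δ) (z - y + δ) ∪ Set.Icc (1 / 4 - y - 2 * δ) (1 / 4 - y)
  · rw [Set.indicator_of_mem hq, abs_le]
    by_cases hq2 : q ∈ Set.Ioo (z - y) (1 / 4 - y)
    · rw [Set.indicator_of_mem hq2]
      constructor <;> linarith
    · rw [Set.indicator_of_notMem hq2]
      constructor <;> nlinarith [sq_nonneg c]
  · rw [Set.indicator_of_notMem hq]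
    rw [Set.mem_union, Set.mem_Icc, Set.mem_Icc] at hq
    push Not at hq
    obtain ⟨ha, hb⟩ := hq
    refine le_of_eq ?_
    rw [abs_eq_zero, sub_eq_zero]
    by_cases c1 : z - y - δ ≤ q
    · have c1' := ha c1
      by_cases c2 : 1 / 4 - y - 2 * δ ≤ q
      · have c2' := hb c2
        rw [zcA_zero1 h z (by linarith), Set.indicator_of_notMem]
        intro hh
        linarith [hh.2]
      · push Not at c2
        rw [zcA_full h (by linarith) (by linarith), Set.indicator_of_mem]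
        exact ⟨by linarith, by linarith⟩
    · push Not at c1
      rw [zcA_zero2 h (by linarith), Set.indicator_of_notMem]
      intro hh
      linarith [hh.1]

private theorem zc_vol (x y z : ℝ) (c : ℝ) :
    ∫ q in Set.Ioo 0 x, (Set.Ioo (z - y) (1 / 4 - y)).indicator (fun _ => c) q =
      c * zcK x y z := by
  rw [setIntegral_indicator measurableSet_Ioo, Set.Ioo_inter_Ioo, setIntegral_const,
    Real.volume_real_Ioo, smul_eq_mul, mul_comm, zcK]
  congr 1
  rw [max_comm]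
  congr 1
  have e1 : min (x + y) (1 / 4) = min x (1 / 4 - y) + y := by
    rw [← min_add_add_right]; congr 1; ring
  have e2 : max y z = max 0 (z - y) + y := by
    rw [← max_add_add_right]; congr 1 <;> ring
  rw [e1, e2]
  ring

private theorem zc_J (h : Thin φ δ c) (hδ : 0 < δ) (x y z : ℝ) :
    |(∫ q in Set.Ioo 0 x, zcA φ (q + y) z) - c ^ 2 * zcK x y z| ≤ 4 * δ * c ^ 2 := by
  rw [← zc_vol, ← integral_sub]
  rotate_left
  · refine Measure.integrableOn_of_bounded (M := c ^ 2) (by simp) ?_ (ae_of_all _ fun q => ?_)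
    · exact ((zcA_meas h).comp_measurable
        (show Measurable fun q : ℝ => (q + y, z) by fun_prop)).aestronglyMeasurable
    · rw [Real.norm_eq_abs, abs_of_nonneg (zcA_nonneg h _ _)]
      exact zcA_le h _ _
  · refine (IntegrableOn.integrable_indicator ?_ measurableSet_Ioo).restrict
    exact integrableOn_const (by simp) (by simp)
  set E := Set.Icc (z - y - δ) (z - y + δ) ∪ Set.Icc (1 / 4 - y - 2 * δ) (1 / 4 - y) with hE
  have hEm : MeasurableSet E := measurableSet_Icc.union measurableSet_Icc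
  have hEv : volume E ≤ ENNReal.ofReal (4 * δ) := by
    refine (measure_union_le _ _).trans ?_
    rw [Real.volume_Icc, Real.volume_Icc, ← ENNReal.ofReal_add (by linarith) (by linarith)]
    apply le_of_eq
    congr 1
    ring
  have hEf : volume E ≠ ⊤ := ne_top_of_le_ne_top ENNReal.ofReal_ne_top hEv
  have hEi : Integrable (E.indicator fun _ : ℝ => c ^ 2) :=
    IntegrableOn.integrable_indicator (integrableOn_const hEf (by simp)) hEm
  calc |∫ q in Set.Ioo 0 x, (zcA φ (q + y) z -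
          (Set.Ioo (z - y) (1 / 4 - y)).indicator (fun _ => c ^ 2) q)|
      ≤ ∫ q in Set.Ioo 0 x, E.indicator (fun _ => c ^ 2) q := by
        rw [← Real.norm_eq_abs]
        refine norm_integral_le_of_norm_le hEi.restrict (ae_of_all _ fun q => ?_)
        rw [Real.norm_eq_abs]
        exact zc_key h hδ y z q
    _ ≤ ∫ q, E.indicator (fun _ => c ^ 2) q :=
        setIntegral_le_integral hEi (ae_of_all _ fun q => Set.indicator_nonneg
          (fun _ _ => sq_nonneg c) q)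
    _ = (volume E).toReal * c ^ 2 := by
        rw [integral_indicator hEm, setIntegral_const, smul_eq_mul]
        rfl
    _ ≤ 4 * δ * c ^ 2 := by
        refine mul_le_mul_of_nonneg_right ?_ (sq_nonneg c)
        exact ENNReal.toReal_le_of_le_ofReal (by linarith) hEv

private theorem zc_mu3 : mu3 = (volume : Measure (ℝ × ℝ × ℝ)).restrict
    (Set.Ioi 0 ×ˢ Set.Ioi 0 ×ˢ Set.Ioi 0) := by
  rw [mu3, mu, Measure.prod_restrict, Measure.prod_restrict, ← Measure.volume_eq_prod,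
    ← Measure.volume_eq_prod]

private theorem zc_sf : SFinite mu := by unfold mu; infer_instance

private theorem zc_sf3 : SFinite mu3 := by rw [zc_mu3]; infer_instance

private theorem zc_ae3 : ∀ᵐ p ∂mu3, 0 < p.1 ∧ 0 < p.2.1 ∧ 0 < p.2.2 := by
  rw [zc_mu3]
  filter_upwards [ae_restrict_mem (measurableSet_Ioi.prod
    (measurableSet_Ioi.prod measurableSet_Ioi))] with p hp
  exact ⟨hp.1, hp.2.1, hp.2.2⟩

private theorem zc_ae9 : ∀ᵐ y ∂mu9, (0 < y.1.1 ∧ 0 < y.1.2.1 ∧ 0 < y.1.2.2) ∧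
    (0 < y.2.1.1 ∧ 0 < y.2.1.2.1 ∧ 0 < y.2.1.2.2) ∧
    (0 < y.2.2.1 ∧ 0 < y.2.2.2.1 ∧ 0 < y.2.2.2.2) := by
  have := zc_sf3
  have h1 : ∀ᵐ y ∂mu9, 0 < y.1.1 ∧ 0 < y.1.2.1 ∧ 0 < y.1.2.2 :=
    Measure.quasiMeasurePreserving_fst.ae zc_ae3
  have h2 : ∀ᵐ y ∂(mu3.prod mu3), 0 < y.1.1 ∧ 0 < y.1.2.1 ∧ 0 < y.1.2.2 :=
    Measure.quasiMeasurePreserving_fst.ae zc_ae3
  have h3 : ∀ᵐ y ∂(mu3.prod mu3), 0 < y.2.1 ∧ 0 < y.2.2.1 ∧ 0 < y.2.2.2 :=
    Measure.quasiMeasurePreserving_snd.ae zc_ae3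
  have h4 : ∀ᵐ y ∂mu9, 0 < y.2.1.1 ∧ 0 < y.2.1.2.1 ∧ 0 < y.2.1.2.2 :=
    Measure.quasiMeasurePreserving_snd.ae h2
  have h5 : ∀ᵐ y ∂mu9, 0 < y.2.2.1 ∧ 0 < y.2.2.2.1 ∧ 0 < y.2.2.2.2 :=
    Measure.quasiMeasurePreserving_snd.ae h3
  filter_upwards [h1, h4, h5] with y a b c using ⟨a, b, c⟩

private def zcT : (ℝ × ℝ × ℝ) ≃ᵐ (ℝ × ℝ × ℝ) :=
  MeasurableEquiv.prodAssoc.symm.trans
    ((MeasurableEquiv.prodComm.prodCongr (MeasurableEquiv.refl ℝ)).trans MeasurableEquiv.prodAssoc)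

private theorem zcT_mp : MeasurePreserving zcT mu3 mu3 := by
  have := zc_sf
  exact (measurePreserving_prodAssoc mu mu mu).comp
    ((Measure.measurePreserving_swap.prod (MeasurePreserving.id mu)).comp
      ((measurePreserving_prodAssoc mu mu mu).symm _))

private theorem zcM_cont {M : ℝ → ℝ → ℝ → ℝ} (hM : Tst M) :
    Continuous fun p : ℝ × ℝ × ℝ => M p.1 p.2.1 p.2.2 := hM.smooth.continuous

private theorem zcM_comp {M : ℝ → ℝ → ℝ → ℝ} (hM : Tst M) :
    HasCompactSupport fun p : ℝ × ℝ × ℝ => M p.1 p.2.1 p.2.2 := by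
  obtain ⟨a, b, ha, hb⟩ := hM.supp
  refine HasCompactSupport.intro ((isCompact_Icc (a := a) (b := b)).prod
    ((isCompact_Icc (a := a) (b := b)).prod (isCompact_Icc (a := a) (b := b)))) ?_
  rintro ⟨x, y, z⟩ hx
  refine hb x y z ?_
  by_contra hc
  push Not at hc
  apply hx
  simp only [Set.mem_prod, Set.mem_Icc]
  exact ⟨⟨hc.1, hc.2.2.2.1⟩, ⟨hc.2.1, hc.2.2.2.2.1⟩, hc.2.2.1, hc.2.2.2.2.2⟩

private theorem zc_integrable {M : ℝ → ℝ → ℝ → ℝ} (hM : Tst M) {g : ℝ × ℝ × ℝ → ℝ}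
    (hg : Continuous g) : Integrable (fun p : ℝ × ℝ × ℝ => M p.1 p.2.1 p.2.2 * g p) mu3 := by
  rw [zc_mu3]
  exact (((zcM_cont hM).mul hg).integrable_of_hasCompactSupport
    ((zcM_comp hM).mul_right)).restrict

private theorem zcK_cont : Continuous fun p : ℝ × ℝ × ℝ => zcK p.1 p.2.1 p.2.2 := by
  unfold zcK
  fun_prop

private theorem zcK_anti {x y z : ℝ} (hy : 0 < y) (hxy : y < x) (hz : 0 < z) :
    zcK x y z - zcK y x z = qq x y z := by
  unfold zcK qq
  rcases le_total x (1 / 4) with h1 | h1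
  · rcases le_total (x + y) (1 / 4) with h2 | h2
    · rw [min_eq_left h2, min_eq_left (show y + x ≤ 1 / 4 by linarith), min_eq_right h1]
      rcases le_total z x with h3 | h3
      · rw [max_eq_left h3]
        have h4 : max y z ≤ x := max_le hxy.le h3
        rw [max_eq_right (show (0 : ℝ) ≤ x + y - max y z by linarith),
          max_eq_right (show (0 : ℝ) ≤ y + x - x by linarith),
          max_eq_right (show (0 : ℝ) ≤ x - max y z by linarith)]
        ring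
      · rw [max_eq_right h3, max_eq_right (hxy.le.trans h3)]
        rw [max_eq_left (show x - z ≤ 0 by linarith)]
        ring_nf
    · rw [min_eq_right h2, min_eq_right (show 1 / 4 ≤ y + x by linarith), min_eq_right h1]
      rcases le_total z x with h3 | h3
      · rw [max_eq_left h3]
        have h4 : max y z ≤ x := max_le hxy.le h3
        rw [max_eq_right (show (0 : ℝ) ≤ 1 / 4 - max y z by linarith),
          max_eq_right (show (0 : ℝ) ≤ 1 / 4 - x by linarith),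
          max_eq_right (show (0 : ℝ) ≤ x - max y z by linarith)]
        ring
      · rw [max_eq_right h3, max_eq_right (hxy.le.trans h3)]
        rw [max_eq_left (show x - z ≤ 0 by linarith)]
        ring_nf
  · rw [min_eq_right (show 1 / 4 ≤ x + y by linarith), min_eq_right (show 1 / 4 ≤ y + x by linarith),
      min_eq_left h1]
    have h4 : x ≤ max x z := le_max_left _ _
    rw [max_eq_left (show 1 / 4 - max x z ≤ 0 by linarith)]
    ring

private theorem zc_anti {M : ℝ → ℝ → ℝ → ℝ} (hM : Tst M) (hA : Anti M) :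
    ∫ p, M p.1 p.2.1 p.2.2 * zcK p.1 p.2.1 p.2.2 ∂mu3 =
      ∫ p in {p : ℝ × ℝ × ℝ | p.2.1 < p.1}, M p.1 p.2.1 p.2.2 * qq p.1 p.2.1 p.2.2 ∂mu3 := by
  set S : Set (ℝ × ℝ × ℝ) := {p : ℝ × ℝ × ℝ | p.2.1 < p.1} with hS
  have hSm : MeasurableSet S := measurableSet_lt (by fun_prop) (by fun_prop)
  have hi := zc_integrable hM zcK_cont
  have hi2 := zc_integrable hM (g := fun p => zcK p.2.1 p.1 p.2.2)
    (by unfold zcK; fun_prop)
  rw [← integral_add_compl hSm hi]
  have e1 : ∫ p in Sᶜ, M p.1 p.2.1 p.2.2 * zcK p.1 p.2.1 p.2.2 ∂mu3 =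
      ∫ p in S, -(M p.1 p.2.1 p.2.2 * zcK p.2.1 p.1 p.2.2) ∂mu3 := by
    rw [← integral_indicator hSm.compl, ← integral_indicator hSm,
      ← zcT_mp.integral_comp' (g := Sᶜ.indicator fun p : ℝ × ℝ × ℝ =>
        M p.1 p.2.1 p.2.2 * zcK p.1 p.2.1 p.2.2)]
    congr 1
    funext p
    obtain ⟨x, y, z⟩ := p
    have hT : zcT (x, y, z) = (y, x, z) := rfl
    rw [hT]
    by_cases h1 : y < x
    · rw [Set.indicator_of_mem (show ((y, x, z) : ℝ × ℝ × ℝ) ∈ Sᶜ from fun hh => by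
          have : x < y := hh
          linarith), Set.indicator_of_mem (show ((x, y, z) : ℝ × ℝ × ℝ) ∈ S from h1)]
      simp only
      rw [hA y x z]
      ring
    · rw [Set.indicator_of_notMem (show ((x, y, z) : ℝ × ℝ × ℝ) ∉ S from h1)]
      by_cases h2 : x < y
      · rw [Set.indicator_of_notMem]
        intro hh
        exact hh h2
      · have h3 : x = y := by linarith [not_lt.mp h1, not_lt.mp h2]
        subst h3
        have h4 : M x x z = 0 := by linarith [hA x x z]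
        by_cases h5 : ((x, x, z) : ℝ × ℝ × ℝ) ∈ Sᶜ
        · rw [Set.indicator_of_mem h5]
          simp only
          rw [h4, zero_mul]
        · rw [Set.indicator_of_notMem h5]
  rw [e1, integral_neg, ← sub_eq_add_neg, ← integral_sub hi.integrableOn hi2.integrableOn]
  refine integral_congr_ae ?_
  have hp : ∀ᵐ p ∂(mu3.restrict S), 0 < p.1 ∧ 0 < p.2.1 ∧ 0 < p.2.2 :=
    ae_restrict_of_ae zc_ae3
  filter_upwards [hp, ae_restrict_mem hSm] with p hp1 hp2
  rw [← zcK_anti hp1.2.1 hp2 hp1.2.2]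
  ring

/-- `J(p)` -/
private noncomputable def zcJ (φ : ℝ → ℝ) (p : ℝ × ℝ × ℝ) : ℝ :=
  ∫ q in Set.Ioo 0 p.1, zcA φ (q + p.2.1) p.2.2

private theorem zcJ_meas (h : Thin φ δ c) : StronglyMeasurable (zcJ φ) := by
  have h1 : StronglyMeasurable fun w : (ℝ × ℝ × ℝ) × ℝ =>
      ({w : (ℝ × ℝ × ℝ) × ℝ | 0 < w.2 ∧ w.2 < w.1.1}).indicator
        (fun w => zcA φ (w.2 + w.1.2.1) w.1.2.2) w := by
    refine StronglyMeasurable.indicator ?_ ?_
    · exact (zcA_meas h).comp_measurable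
        (show Measurable fun w : (ℝ × ℝ × ℝ) × ℝ => (w.2 + w.1.2.1, w.1.2.2) by fun_prop)
    · exact (measurableSet_lt measurable_const measurable_snd).inter
        (measurableSet_lt measurable_snd (by fun_prop))
  have h2 := h1.integral_prod_right' (ν := (volume : Measure ℝ))
  have h3 : zcJ φ = fun p : ℝ × ℝ × ℝ => ∫ q : ℝ,
      ({w : (ℝ × ℝ × ℝ) × ℝ | 0 < w.2 ∧ w.2 < w.1.1}).indicator
        (fun w => zcA φ (w.2 + w.1.2.1) w.1.2.2) (p, q) := by
    funext p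
    rw [zcJ, ← integral_indicator measurableSet_Ioo]
    rfl
  rw [h3]
  exact h2

private theorem zcJ_int {M : ℝ → ℝ → ℝ → ℝ} (hM : Tst M) (h : Thin φ δ c) (hδ : 0 < δ) :
    Integrable (fun p : ℝ × ℝ × ℝ => M p.1 p.2.1 p.2.2 * zcJ φ p) mu3 := by
  have h1 := (zc_integrable hM (g := fun _ => (4 * δ * c ^ 2 : ℝ)) continuous_const).norm
  have h2 := (zc_integrable hM (g := fun p => c ^ 2 * zcK p.1 p.2.1 p.2.2)
    (zcK_cont.const_mul _)).norm
  refine (h1.add h2).mono' ?_ (ae_of_all _ fun p => ?_)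
  · exact (zcM_cont hM).aestronglyMeasurable.mul (zcJ_meas h).aestronglyMeasurable
  · have h3 := zc_J h hδ p.1 p.2.1 p.2.2
    rw [Pi.add_apply, norm_mul, norm_mul (M p.1 p.2.1 p.2.2) (4 * δ * c ^ 2),
      norm_mul (M p.1 p.2.1 p.2.2) (c ^ 2 * zcK p.1 p.2.1 p.2.2), ← mul_add]
    refine mul_le_mul_of_nonneg_left ?_ (norm_nonneg _)
    rw [Real.norm_eq_abs, Real.norm_eq_abs, Real.norm_eq_abs]
    have h4 : |zcJ φ p| ≤ |zcJ φ p - c ^ 2 * zcK p.1 p.2.1 p.2.2| +
        |c ^ 2 * zcK p.1 p.2.1 p.2.2| := by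
      have := abs_add_le (zcJ φ p - c ^ 2 * zcK p.1 p.2.1 p.2.2) (c ^ 2 * zcK p.1 p.2.1 p.2.2)
      simpa using this
    exact h4.trans (add_le_add (h3.trans (le_abs_self _)) le_rfl)

private theorem zc_MJ {M : ℝ → ℝ → ℝ → ℝ} (hM : Tst M) (h : Thin φ δ c) (hδ : 0 < δ) :
    |(∫ p, M p.1 p.2.1 p.2.2 * zcJ φ p ∂mu3) -
      c ^ 2 * ∫ p, M p.1 p.2.1 p.2.2 * zcK p.1 p.2.1 p.2.2 ∂mu3| ≤
      4 * δ * c ^ 2 * ∫ p, |M p.1 p.2.1 p.2.2| ∂mu3 := by
  have hM1 : Integrable (fun p : ℝ × ℝ × ℝ => M p.1 p.2.1 p.2.2) mu3 := by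
    simpa using zc_integrable hM (g := fun _ => (1 : ℝ)) continuous_const
  rw [← integral_const_mul, ← integral_const_mul, ← integral_sub (zcJ_int hM h hδ)
    ((zc_integrable hM zcK_cont).const_mul _), ← Real.norm_eq_abs]
  refine norm_integral_le_of_norm_le (hM1.norm.const_mul _) (ae_of_all _ fun p => ?_)
  have h3 := zc_J h hδ p.1 p.2.1 p.2.2
  have h4 : M p.1 p.2.1 p.2.2 * zcJ φ p - c ^ 2 * (M p.1 p.2.1 p.2.2 * zcK p.1 p.2.1 p.2.2) =
      M p.1 p.2.1 p.2.2 * (zcJ φ p - c ^ 2 * zcK p.1 p.2.1 p.2.2) := by ring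
  rw [h4, norm_mul, mul_comm]
  refine mul_le_mul_of_nonneg_right ?_ (norm_nonneg _)
  rw [Real.norm_eq_abs]
  exact h3

private theorem zc_I9 {M : ℝ → ℝ → ℝ → ℝ} (hM : Tst M) (hA : Anti M) (h : Thin φ δ c)
    (hδ : 0 < δ) :
    I9 (fun s₀ s₁ s₂ r₀ r₁ r₂ => φ s₁ * φ r₀ * DD M r₁ r₂ s₂) =
      2 * ∫ p, M p.1 p.2.1 p.2.2 * zcJ φ p ∂mu3 := by
  obtain ⟨a, b, ha, hb⟩ := hM.supp
  obtain ⟨a', b', ha', hb'⟩ := (Tst_DD hM).supp
  obtain ⟨C, hC⟩ := (zc_compact h).exists_bound_of_continuous h.smooth.continuous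
  have hC0 : 0 ≤ C := (norm_nonneg _).trans (hC 0)
  set B : ℝ := C ^ 2 + 1 + 2 * |b'| + |b| with hBdef
  have hb'1 := le_abs_self b'
  have hb1 := le_abs_self b
  have hb'0 := abs_nonneg b'
  have hb0 := abs_nonneg b
  have hC2 := sq_nonneg C
  set H : ℝ → ℝ → ℝ → ℝ := fun s₀ s₁ r₀ => if s₀ < B then φ s₁ * φ r₀ else 0 with hH
  have hφ0 : ∀ s, 1 / 4 ≤ s → φ s = 0 := fun s hs => h.supp s (Or.inr (by linarith))
  have hmeas : Measurable fun p : ℝ × ℝ × ℝ => H p.1 p.2.1 p.2.2 := by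
    have hφm := h.smooth.continuous.measurable
    refine Measurable.ite (measurableSet_lt (by fun_prop) measurable_const) ?_ measurable_const
    fun_prop
  have hmix := I9_mix hM hA (H := H) hmeas (B := B)
    (by
      intro s₀ s₁ r₀ _ _ _
      simp only [hH]
      split_ifs
      · rw [abs_mul]
        have h1 := hC s₁
        have h2 := hC r₀
        rw [Real.norm_eq_abs] at h1 h2
        calc |φ s₁| * |φ r₀| ≤ C * C := mul_le_mul h1 h2 (abs_nonneg _) hC0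
          _ ≤ B := by rw [hBdef]; nlinarith
      · rw [abs_zero]; linarith)
    (by
      intro s₀ s₁ r₀ hr
      simp only [hH]
      split_ifs
      · rw [hφ0 r₀ (by linarith), mul_zero]
      · rfl)
    (by
      intro s₀ s₁ r₀ hs
      simp only [hH]
      rw [if_neg (not_lt.mpr hs)])
    (by
      intro s₀ s₁ r₀ hs
      simp only [hH]
      split_ifs
      · rw [hφ0 s₁ (by linarith), zero_mul]
      · rfl)
  have e1 : I9 (fun s₀ s₁ s₂ r₀ r₁ r₂ => φ s₁ * φ r₀ * DD M r₁ r₂ s₂) =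
      I9 (fun s₀ s₁ s₂ r₀ r₁ r₂ => H s₀ s₁ r₀ * DD M r₁ r₂ s₂) := by
    unfold I9
    refine integral_congr_ae ?_
    filter_upwards [zc_ae9] with y hy
    obtain ⟨⟨h00, h01, h02⟩, ⟨h10, h11, h12⟩, h20, h21, h22⟩ := hy
    by_cases hs : y.1.1 + y.1.2.1 + y.1.2.2 < B
    · simp only [hH]
      rw [if_pos hs]
    · simp only [hH]
      rw [if_neg hs, zero_mul]
      by_contra hne
      have n1 := left_ne_zero_of_mul hne
      have n2 := right_ne_zero_of_mul hne
      have n3 := right_ne_zero_of_mul n1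
      have n4 : y.1.1 + y.2.1.1 + y.2.2.1 < 1 / 4 := by
        by_contra hc
        exact n3 (hφ0 _ (not_lt.mp hc))
      have n5 : y.1.2.1 + y.2.1.2.1 + y.2.2.2.1 ≤ b' := by
        by_contra hc
        exact n2 (hb' _ _ _ (by right; right; right; left; exact not_le.mp hc))
      have n6 : y.1.2.2 + y.2.1.2.2 + y.2.2.2.2 ≤ b' := by
        by_contra hc
        exact n2 (hb' _ _ _ (by right; right; right; right; left; exact not_le.mp hc))
      linarith [not_lt.mp hs]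
  rw [e1, hmix]
  congr 1
  refine integral_congr_ae (ae_of_all _ fun p => ?_)
  simp only
  by_cases hp : M p.1 p.2.1 p.2.2 = 0
  · rw [hp, zero_mul, zero_mul]
  · congr 1
    have hp1 : p.1 ≤ b := by
      by_contra hc
      exact hp (hb _ _ _ (by right; right; right; left; exact not_le.mp hc))
    have hp3 : 0 < p.2.2 := by
      by_contra hc
      exact hp (hb _ _ _ (by right; right; left; linarith [not_lt.mp hc]))
    unfold zcJ zcA
    refine setIntegral_congr_fun measurableSet_Ioo fun q hq => ?_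
    refine setIntegral_congr_fun measurableSet_Ioi fun u hu => ?_
    refine setIntegral_congr_fun measurableSet_Ioi fun v hv => ?_
    have hu' : (0 : ℝ) < u := hu
    have hv' : (0 : ℝ) < v := hv
    simp only [hH]
    split_ifs with hc
    · rw [add_assoc v q]
    · rw [hφ0 (u + v + p.2.2) (by linarith [not_lt.mp hc, hq.1]), mul_zero]

end limZVVC

theorem lim_zVVC {M : ℝ → ℝ → ℝ → ℝ} (hM : Tst M) (hA : Anti M) {c : ℝ} (hc : 0 < c) {ε : ℝ}
    (hε : 0 < ε) : ∃ δ₀ : ℝ, 0 < δ₀ ∧ ∀ δ : ℝ, 0 < δ → δ < δ₀ → ∀ φ : ℝ → ℝ, Thin φ δ c →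
    |I9 (fun s₀ s₁ s₂ r₀ r₁ r₂ => φ s₁ * φ r₀ * DD M r₁ r₂ s₂) -
      2 * c ^ 2 * ∫ p in {p : ℝ × ℝ × ℝ | p.2.1 < p.1},
        M p.1 p.2.1 p.2.2 * qq p.1 p.2.1 p.2.2 ∂mu3| ≤ ε := by
  set I : ℝ := ∫ p, |M p.1 p.2.1 p.2.2| ∂mu3 with hI
  have hI0 : 0 ≤ I := integral_nonneg fun _ => abs_nonneg _
  refine ⟨ε / (8 * c ^ 2 * (I + 1)), by positivity, ?_⟩
  intro δ hδ hδ1 φ h
  rw [zc_I9 hM hA h hδ, ← zc_anti hM hA, mul_assoc 2 (c ^ 2), ← mul_sub, abs_mul,
    abs_of_pos (show (0 : ℝ) < 2 by norm_num)]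
  have h1 := zc_MJ hM h hδ
  rw [← hI] at h1
  rw [lt_div_iff₀ (by positivity)] at hδ1
  have h2 : 0 ≤ 8 * δ * c ^ 2 := by positivity
  nlinarith

end Pool.Agent.SixT
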