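import Mathlib
import Pool.Agent.Lib_MP_112ba8_t.Defs
import Pool.Agent.Lib_MP_112ba8_e.Twisted

/-!
Piece D6: the functional equation factor `XX` and its mean value against short Dirichlet
polynomials.

* `XX_conj`, `XX_norm`.
* `mean_chi`: for `0 < r ≤ T^{1-2ε}` the integral `∫ w(t/T) XX t r^{-it} dt` is bounded
  (Mellin inversion of `e^{-z}`, `z = 2πi r e^{-ip}`, on the line `1/2`, Fourier inversion of
  `w(x) e^{2x}`), and the sum of the coefficients of `CP²` is `≤ C T^{1-ε} L^6`.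
-/

namespace Pool.Agent.SixT

open Filter Topology MeasureTheory
open Pool.Agent.EvenMoment (cl Wgt Sz ker ar)

theorem XX_conj (t : ℝ) : (starRingEnd ℂ) (riemannZeta (cl t)) = XX t * riemannZeta (cl t) := by
  have h1 := riemannZeta_one_sub (Pool.Agent.EvenMoment.cl_ne_neg_nat t)
    (Pool.Agent.EvenMoment.cl_ne_one t)
  rw [Pool.Agent.EvenMoment.one_sub_cl, riemannZeta_conj] at h1
  rw [h1]
  unfold XX
  ring

private lemma mch_cos_ne (t : ℝ) : Complex.cos (Real.pi * cl t / 2) ≠ 0 := by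
  intro h
  have h1 := Pool.Agent.EvenMoment.two_cos t
  rw [h, mul_zero] at h1
  exact mul_ne_zero (Complex.exp_ne_zero _) (Pool.Agent.EvenMoment.ker_den_ne t) h1.symm

theorem XX_norm (t : ℝ) : ‖XX t‖ = 1 := by
  have hs : (starRingEnd ℂ) (cl t) = 1 - cl t := (Pool.Agent.EvenMoment.one_sub_cl t).symm
  have hpi : (Real.pi : ℂ) ≠ 0 := by
    exact_mod_cast Real.pi_ne_zero
  have h2pi : (2 * Real.pi : ℂ) = ((2 * Real.pi : ℝ) : ℂ) := by push_cast; ring
  have harg : (2 * Real.pi : ℂ).arg ≠ Real.pi := by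
    rw [h2pi, Complex.arg_ofReal_of_nonneg (by positivity)]
    exact Real.pi_ne_zero.symm
  have hG : (starRingEnd ℂ) (Complex.Gamma (cl t)) = Complex.Gamma (1 - cl t) := by
    rw [← Complex.Gamma_conj, hs]
  have hC : (starRingEnd ℂ) (Complex.cos (Real.pi * cl t / 2)) =
      Complex.cos (Real.pi * (1 - cl t) / 2) := by
    rw [← Complex.cos_conj]
    congr 1
    rw [map_div₀, map_mul, Complex.conj_ofReal, hs]
    congr 1
    exact Complex.conj_ofNat 2
  have hP : (starRingEnd ℂ) ((2 * Real.pi : ℂ) ^ (-(cl t))) = (2 * Real.pi : ℂ) ^ (-(1 - cl t)) := by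
    rw [← hs]
    have h3 := Complex.cpow_conj (2 * Real.pi : ℂ) (-(cl t)) harg
    rw [map_neg] at h3
    rw [h3]
    congr 2
    rw [h2pi, Complex.conj_ofReal]
  have h3 : (2 * Real.pi : ℂ) ^ (-(cl t)) * (2 * Real.pi : ℂ) ^ (-(1 - cl t)) =
      (2 * Real.pi : ℂ)⁻¹ := by
    rw [← Complex.cpow_add _ _ (by simp), show -(cl t) + -(1 - cl t) = -1 by ring,
      Complex.cpow_neg_one]
  have h4 : Complex.cos (Real.pi * (1 - cl t) / 2) = Complex.sin (Real.pi * cl t / 2) := by
    rw [← Complex.cos_pi_div_two_sub]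
    congr 1
    ring
  have h5 : Complex.sin (Real.pi * cl t) =
      2 * Complex.sin (Real.pi * cl t / 2) * Complex.cos (Real.pi * cl t / 2) := by
    rw [← Complex.sin_two_mul]
    congr 1
    ring
  have h6 : Complex.sin (Real.pi * cl t / 2) ≠ 0 := by
    rw [← h4, ← hC]
    intro h
    rw [map_eq_zero] at h
    exact mch_cos_ne t h
  have h7 := mch_cos_ne t
  have h8 := Complex.Gamma_mul_Gamma_one_sub (cl t)
  rw [h5] at h8
  have h : XX t * (starRingEnd ℂ) (XX t) = 1 := by
    unfold XX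
    rw [map_mul, map_mul, map_mul, hG, hC, hP, h4]
    have h2c : (starRingEnd ℂ) (2 : ℂ) = 2 := Complex.conj_ofNat 2
    rw [h2c]
    calc 2 * (2 * Real.pi : ℂ) ^ (-(cl t)) * Complex.Gamma (cl t) *
          Complex.cos (Real.pi * cl t / 2) * (2 * (2 * Real.pi : ℂ) ^ (-(1 - cl t)) *
          Complex.Gamma (1 - cl t) * Complex.sin (Real.pi * cl t / 2))
        = 4 * ((2 * Real.pi : ℂ) ^ (-(cl t)) * (2 * Real.pi : ℂ) ^ (-(1 - cl t))) *
          (Complex.Gamma (cl t) * Complex.Gamma (1 - cl t)) *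
          (Complex.cos (Real.pi * cl t / 2) * Complex.sin (Real.pi * cl t / 2)) := by ring
      _ = 1 := by
        rw [h3, h8]
        field_simp
        norm_num
  rw [Complex.mul_conj, Complex.normSq_eq_norm_sq] at h
  have h9 : ‖XX t‖ ^ 2 = 1 := by exact_mod_cast h
  nlinarith [norm_nonneg (XX t)]

/-! ### Mellin inversion on the line `1/2` -/

private lemma mch_line {z : ℂ} (hz : 0 < z.re) :
    Integrable fun t : ℝ => Complex.Gamma ((1 / 2 : ℝ) + t * Complex.I) *
      z ^ (-((1 / 2 : ℝ) + t * Complex.I : ℂ)) := by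
  have hz0 : z ≠ 0 := by rintro rfl; simp at hz
  obtain ⟨K, c, _, hc, h⟩ := Pool.Agent.EvenMoment.ct_gp_decay hz
  refine Pool.Agent.EvenMoment.ct_integrable ?_ hc (K := K) fun t _ => ?_
  · rw [continuous_iff_continuousAt]
    intro t
    refine ContinuousAt.mul ?_ ?_
    · have hc : ContinuousAt (fun t : ℝ => ((1 / 2 : ℝ) + t * Complex.I : ℂ)) t := by fun_prop
      refine ContinuousAt.comp (g := Complex.Gamma)
        (Complex.differentiableAt_Gamma _ fun m h => ?_).continuousAt hc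
      have := congrArg Complex.re h
      simp at this
      have h3 : (0 : ℝ) ≤ m := Nat.cast_nonneg m
      linarith
    · refine ContinuousAt.const_cpow (by fun_prop) (Or.inl hz0)
  · have := h ((1 / 2 : ℝ) + t * Complex.I) (by simp) (by simp; norm_num)
    simpa using this

private lemma mch_mellin {z : ℂ} (hz : 0 < z.re) :
    ∫ t : ℝ, Complex.Gamma (cl t) * z ^ (-(cl t)) = 2 * Real.pi * Complex.exp (-z) := by
  set f : ℝ → ℂ := fun t => Complex.exp (-(z * t)) with hf
  have hm : ∀ s : ℂ, 0 < s.re → mellin f s = z ^ (-s) * Complex.Gamma s := by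
    intro s hs
    rw [← Pool.Agent.EvenMoment.ct_eq hs hz, mellin]
    rfl
  have hcl : ∀ t : ℝ, cl t = ((1 / 2 : ℝ) : ℂ) + t * Complex.I := fun t => by
    unfold cl
    push_cast
    ring
  have h1 : MellinConvergent f ((1 / 2 : ℝ) : ℂ) := by
    have := Pool.Agent.EvenMoment.ct_int (a := ((1 / 2 : ℝ) : ℂ)) (by simp) hz
    exact this
  have h2 : Complex.VerticalIntegrable (mellin f) (1 / 2) := by
    refine (mch_line hz).congr (Eventually.of_forall fun t => ?_)
    simp only
    rw [hm _ (by simp), mul_comm]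
  have h3 : ContinuousAt f 1 := by
    rw [hf]; fun_prop
  have h4 := mellinInv_mellin_eq (1 / 2) f one_pos h1 h2 h3
  rw [mellinInv] at h4
  have h5 : f 1 = Complex.exp (-z) := by
    rw [hf]
    simp
  rw [h5, Complex.real_smul] at h4
  have h6 : (∫ y : ℝ, ((1 : ℝ) : ℂ) ^ (-(((1 / 2 : ℝ) : ℂ) + y * Complex.I)) •
      mellin f (((1 / 2 : ℝ) : ℂ) + y * Complex.I)) =
      ∫ t : ℝ, Complex.Gamma (cl t) * z ^ (-(cl t)) := by
    refine integral_congr_ae (ae_of_all _ fun t => ?_)
    simp only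
    rw [hm _ (by simp), smul_eq_mul, Complex.ofReal_one, Complex.one_cpow, one_mul, ← hcl, mul_comm]
  rw [h6] at h4
  rw [← h4]
  have : (Real.pi : ℂ) ≠ 0 := by exact_mod_cast Real.pi_ne_zero
  push_cast
  field_simp

private lemma mch_z_re {r : ℝ} (hr : 0 < r) {p : ℂ} (hp : 0 < p.re) (hp' : p.re < Real.pi) :
    0 < (2 * Real.pi * Complex.I * r * Complex.exp (-(Complex.I * p))).re := by
  have h1 : (2 * Real.pi * Complex.I * r * Complex.exp (-(Complex.I * p))).re =
      2 * Real.pi * r * (Real.exp p.im * Real.sin p.re) := by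
    have h2 : (2 * Real.pi * Complex.I * r * Complex.exp (-(Complex.I * p)) : ℂ) =
        ((2 * Real.pi * r : ℝ) : ℂ) * (Complex.I * Complex.exp (-(Complex.I * p))) := by
      push_cast
      ring
    rw [h2, Complex.re_ofReal_mul, Complex.mul_re, Complex.exp_re, Complex.exp_im]
    simp
  rw [h1]
  have h3 := Real.sin_pos_of_pos_of_lt_pi hp hp'
  positivity

private lemma mch_gamma {r : ℝ} (hr : 0 < r) {p : ℂ} (hp : 0 < p.re) (hp' : p.re < Real.pi)
    (t : ℝ) : XX t * Complex.exp (-(t * Real.log r : ℝ) * Complex.I) * ker p t =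
      Real.sqrt r * Complex.exp (-(Complex.I * p / 2)) * (Complex.Gamma (cl t) *
      (2 * Real.pi * Complex.I * r * Complex.exp (-(Complex.I * p))) ^ (-(cl t))) := by
  have hpi := Real.pi_pos
  have hI2 : Complex.I * Complex.I = -1 := Complex.I_mul_I
  set w : ℂ := (Real.log (2 * Real.pi) : ℝ) + (Real.log r : ℝ) + Complex.I * (Real.pi / 2 - p)
    with hw
  have hwim : w.im = Real.pi / 2 - p.re := by
    rw [hw]
    simp
  have hz : 2 * Real.pi * Complex.I * r * Complex.exp (-(Complex.I * p)) =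
      Complex.exp w := by
    have e1 : Complex.exp ((Real.log (2 * Real.pi) : ℝ) : ℂ) = 2 * Real.pi := by
      rw [← Complex.ofReal_exp, Real.exp_log (by positivity)]
      push_cast
      ring
    have e2 : Complex.exp (((Real.log r : ℝ) : ℂ)) = r := by
      rw [← Complex.ofReal_exp, Real.exp_log hr]
    have e4 : Complex.exp (Real.pi / 2 * Complex.I) = Complex.I := Complex.exp_pi_div_two_mul_I
    have e5 : w = ((Real.log (2 * Real.pi) : ℝ) : ℂ) + (((Real.log r : ℝ) : ℂ)) +
        Real.pi / 2 * Complex.I + (-(Complex.I * p)) := by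
      rw [hw]
      ring
    rw [e5, Complex.exp_add, Complex.exp_add, Complex.exp_add, e1, e2, e4]
    ring
  have hlog : Complex.log (Complex.exp w) = w := by
    apply Complex.log_exp
    · rw [hwim]
      linarith
    · rw [hwim]
      linarith
  have hpow : (2 * Real.pi * Complex.I * r * Complex.exp (-(Complex.I * p))) ^ (-(cl t)) =
      Complex.exp (-(w * cl t)) := by
    rw [hz, Complex.cpow_def_of_ne_zero (Complex.exp_ne_zero _), hlog]
    congr 1
    ring
  have h2pi : (2 * Real.pi : ℂ) ^ (-(cl t)) =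
      Complex.exp (-((Real.log (2 * Real.pi) : ℝ) * cl t)) := by
    rw [Complex.cpow_def_of_ne_zero (by simp), Complex.ofReal_log (by positivity)]
    push_cast
    congr 1
    ring
  have hsqrt : ((Real.sqrt r : ℝ) : ℂ) = Complex.exp ((Real.log r : ℝ) / 2) := by
    have : Real.sqrt r = Real.exp (Real.log r / 2) := by
      rw [Real.exp_half, Real.exp_log hr]
    rw [this]
    push_cast
    rfl
  have hden := Pool.Agent.EvenMoment.ker_den_ne t
  have hXX : XX t = (2 * Real.pi : ℂ) ^ (-(cl t)) * Complex.Gamma (cl t) *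
      (2 * Complex.cos (Real.pi * cl t / 2)) := by
    unfold XX
    ring
  rw [hpow, hXX, h2pi, Pool.Agent.EvenMoment.two_cos, hsqrt]
  unfold Pool.Agent.EvenMoment.ker
  have hexp : Complex.exp (-((Real.log (2 * Real.pi) : ℝ) * cl t)) *
      Complex.exp (-(Complex.I * Real.pi / 4) + Real.pi * t / 2) *
      Complex.exp (-(t * Real.log r : ℝ) * Complex.I) * Complex.exp (-(p * t)) =
      Complex.exp ((Real.log r : ℝ) / 2) * Complex.exp (-(Complex.I * p / 2)) *
        Complex.exp (-(w * cl t)) := by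
    rw [← Complex.exp_add, ← Complex.exp_add, ← Complex.exp_add, ← Complex.exp_add,
      ← Complex.exp_add]
    congr 1
    rw [hw]
    unfold cl
    push_cast
    linear_combination ((Real.pi / 2 - p) * t : ℂ) * hI2
  calc Complex.exp (-((Real.log (2 * Real.pi) : ℝ) * cl t)) * Complex.Gamma (cl t) *
        (Complex.exp (-(Complex.I * Real.pi / 4) + Real.pi * t / 2) *
          (1 + Complex.I * (Real.exp (-(Real.pi * t)) : ℂ))) *
        Complex.exp (-(t * Real.log r : ℝ) * Complex.I) *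
        (Complex.exp (-(p * t)) / (1 + Complex.I * (Real.exp (-(Real.pi * t)) : ℂ)))
      = Complex.Gamma (cl t) * (Complex.exp (-((Real.log (2 * Real.pi) : ℝ) * cl t)) *
          Complex.exp (-(Complex.I * Real.pi / 4) + Real.pi * t / 2) *
          Complex.exp (-(t * Real.log r : ℝ) * Complex.I) * Complex.exp (-(p * t))) := by
        field_simp
    _ = _ := by
        rw [hexp]
        ring

/-- the Mellin integral -/
private lemma mch_J {r : ℝ} (hr : 0 < r) {p : ℂ} (hp : 0 < p.re) (hp' : p.re < Real.pi) :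
    ∫ t : ℝ, XX t * Complex.exp (-(t * Real.log r : ℝ) * Complex.I) * ker p t =
      2 * Real.pi * Real.sqrt r * (Complex.exp (-(Complex.I * p / 2)) *
      Complex.exp (-(2 * Real.pi * Complex.I * r * Complex.exp (-(Complex.I * p))))) := by
  simp_rw [mch_gamma hr hp hp']
  rw [integral_const_mul, mch_mellin (mch_z_re hr hp hp')]
  ring


/-! ### the bounds -/

private lemma mch_exp_sub {a b : ℂ} (ha : 0 ≤ a.re) (hb : 0 ≤ b.re) :
    ‖Complex.exp (-a) - Complex.exp (-b)‖ ≤ ‖a - b‖ := by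
  have hconv : Convex ℝ {z : ℂ | 0 ≤ z.re} := convex_halfSpace_re_ge 0
  have hd : ∀ x ∈ {z : ℂ | 0 ≤ z.re}, HasDerivWithinAt (fun z : ℂ => Complex.exp (-z))
      (-Complex.exp (-x)) {z : ℂ | 0 ≤ z.re} x := by
    intro x _
    have h1 := ((hasDerivAt_id x).neg).cexp
    have h2 : HasDerivAt (fun z : ℂ => Complex.exp (-z)) (-Complex.exp (-x)) x := by
      simpa using h1
    exact h2.hasDerivWithinAt
  have hC : ∀ x ∈ {z : ℂ | 0 ≤ z.re}, ‖-Complex.exp (-x)‖ ≤ 1 := by
    intro x hx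
    rw [norm_neg, Complex.norm_exp, Complex.neg_re]
    exact Real.exp_le_one_iff.mpr (by simpa using hx)
  have h := hconv.norm_image_sub_le_of_norm_hasDerivWithin_le hd hC hb ha
  simpa using h

/-- comparison of the exponentials for small `p` -/
private lemma mch_small {r : ℝ} (hr : 0 < r) {p : ℂ} (hp : 0 < p.re) (hp1 : ‖p‖ ≤ 1) :
    ‖Complex.exp (-(Complex.I * p / 2)) *
      Complex.exp (-(2 * Real.pi * Complex.I * r * Complex.exp (-(Complex.I * p)))) -
      Complex.exp (-(2 * Real.pi * Complex.I * r + 2 * Real.pi * r * p))‖ ≤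
      ‖p‖ + 2 * Real.pi * r * ‖p‖ ^ 2 := by
  have hpre : p.re ≤ 1 := (Complex.re_le_norm p).trans hp1
  have hp' : p.re < Real.pi := by
    have := Real.pi_gt_three
    linarith
  have hz := mch_z_re hr hp hp'
  set z : ℂ := 2 * Real.pi * Complex.I * r * Complex.exp (-(Complex.I * p)) with hzdef
  set y : ℂ := 2 * Real.pi * Complex.I * r + 2 * Real.pi * r * p with hy
  have hyre : 0 ≤ y.re := by
    have : y.re = 2 * Real.pi * r * p.re := by
      rw [hy]
      simp
    rw [this]
    have := Real.pi_pos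
    positivity
  have h1 : ‖Complex.exp (-(Complex.I * p / 2)) - 1‖ ≤ ‖p‖ := by
    have h2 : ‖-(Complex.I * p / 2)‖ = ‖p‖ / 2 := by
      rw [norm_neg, norm_div, norm_mul, Complex.norm_I, one_mul]
      simp
    have h3 := Complex.norm_exp_sub_one_le (x := -(Complex.I * p / 2)) (by rw [h2]; linarith)
    rw [h2] at h3
    linarith
  have h4 : ‖Complex.exp (-z)‖ ≤ 1 := by
    rw [Complex.norm_exp, Complex.neg_re]
    exact Real.exp_le_one_iff.mpr (by linarith)
  have h5 : ‖z - y‖ ≤ 2 * Real.pi * r * ‖p‖ ^ 2 := by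
    have h6 : z - y = ((2 * Real.pi * r : ℝ) : ℂ) * (Complex.I *
        (Complex.exp (-(Complex.I * p)) - 1 - -(Complex.I * p))) := by
      rw [hzdef, hy]
      push_cast
      linear_combination (-(2 * Real.pi * r * p) : ℂ) * Complex.I_mul_I
    have h7 : ‖-(Complex.I * p)‖ = ‖p‖ := by
      rw [norm_neg, norm_mul, Complex.norm_I, one_mul]
    have h8 := Complex.norm_exp_sub_one_sub_id_le (x := -(Complex.I * p)) (by rw [h7]; exact hp1)
    rw [h7] at h8
    have hpi := Real.pi_pos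
    rw [h6, norm_mul, norm_mul, Complex.norm_I, one_mul, Complex.norm_real, Real.norm_eq_abs,
      abs_of_pos (by positivity)]
    gcongr
  calc ‖Complex.exp (-(Complex.I * p / 2)) * Complex.exp (-z) - Complex.exp (-y)‖
      = ‖(Complex.exp (-(Complex.I * p / 2)) - 1) * Complex.exp (-z) +
          (Complex.exp (-z) - Complex.exp (-y))‖ := by
        congr 1
        ring
    _ ≤ ‖Complex.exp (-(Complex.I * p / 2)) - 1‖ * ‖Complex.exp (-z)‖ +
          ‖Complex.exp (-z) - Complex.exp (-y)‖ := by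
        refine (norm_add_le _ _).trans ?_
        rw [norm_mul]
    _ ≤ ‖p‖ * 1 + 2 * Real.pi * r * ‖p‖ ^ 2 := by
        gcongr
        exact (mch_exp_sub hz.le hyre).trans h5
    _ = _ := by ring

private lemma mch_pv_re (T v : ℝ) : (pv T v).re = 2 / T := by
  unfold pv
  rw [Complex.div_ofReal_re]
  simp

private lemma mch_pv_norm {T : ℝ} (hT : 0 < T) (v : ℝ) :
    ‖pv T v‖ ≤ 2 * Real.pi * (1 + |v|) / T := by
  unfold pv
  rw [norm_div, Complex.norm_real, Real.norm_eq_abs, abs_of_pos hT]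
  gcongr
  have hpi := Real.pi_gt_three
  calc ‖(2 - 2 * Real.pi * Complex.I * v : ℂ)‖ ≤ ‖(2 : ℂ)‖ + ‖(2 * Real.pi * Complex.I * v : ℂ)‖ :=
        norm_sub_le _ _
    _ = 2 + 2 * Real.pi * |v| := by
        simp [abs_of_pos Real.pi_pos]
    _ ≤ _ := by nlinarith

private lemma mch_cl_cont : Continuous cl := by
  unfold Pool.Agent.EvenMoment.cl
  fun_prop

private lemma mch_XX_cont : Continuous XX := by
  unfold XX
  have h2pi : (2 * Real.pi : ℂ) ≠ 0 := by
    have : (Real.pi : ℂ) ≠ 0 := by exact_mod_cast Real.pi_ne_zero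
    simp
  have hc := mch_cl_cont
  refine ((continuous_const.mul ?_).mul ?_).mul ?_
  · rw [continuous_iff_continuousAt]
    intro t
    exact ContinuousAt.const_cpow hc.neg.continuousAt (Or.inl h2pi)
  · rw [continuous_iff_continuousAt]
    intro t
    refine ContinuousAt.comp (g := Complex.Gamma)
      (Complex.differentiableAt_Gamma _ fun m h => ?_).continuousAt hc.continuousAt
    exact Pool.Agent.EvenMoment.cl_ne_neg_nat t m h
  · exact Complex.continuous_cos.comp ((continuous_const.mul hc).div_const _)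

/-- `X(t) r^{-it} ker (2/T) t` -/
private noncomputable def mch_H (r T t : ℝ) : ℂ :=
  XX t * Complex.exp (-(t * Real.log r : ℝ) * Complex.I) * ker (2 / T : ℝ) t

private lemma mch_osc_norm (t r : ℝ) :
    ‖Complex.exp (-(t * Real.log r : ℝ) * Complex.I)‖ = 1 := by
  rw [← Complex.ofReal_neg]
  exact Complex.norm_exp_ofReal_mul_I _

private lemma mch_H_cont (r T : ℝ) : Continuous (mch_H r T) := by
  unfold mch_H
  exact (mch_XX_cont.mul (by fun_prop)).mul (Pool.Agent.EvenMoment.Tw.ker_cont _)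

private lemma mch_H_norm (r : ℝ) {T : ℝ} (hT : 2 ≤ T) (t : ℝ) :
    ‖mch_H r T t‖ ≤ Real.exp (-(2 / T * |t|)) := by
  unfold mch_H
  rw [norm_mul, norm_mul, XX_norm, mch_osc_norm, one_mul, one_mul]
  exact Pool.Agent.EvenMoment.Tw.ker_bound hT t

private lemma mch_H_int (r : ℝ) {T : ℝ} (hT : 2 ≤ T) : Integrable (mch_H r T) := by
  refine Integrable.mono' (Pool.Agent.EvenMoment.ct_int_exp (c := 2 / T) (by positivity))
    (mch_H_cont r T).aestronglyMeasurable (ae_of_all _ fun t => mch_H_norm r hT t)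

private lemma mch_int_exp {c : ℝ} (hc : 0 < c) : ∫ t : ℝ, Real.exp (-(c * |t|)) = 2 / c := by
  have h := integral_comp_abs (f := fun t : ℝ => Real.exp (-(c * t)))
  rw [h]
  have h2 : (∫ x in Set.Ioi (0 : ℝ), Real.exp (-(c * x))) = 1 / c := by
    have h3 := integral_exp_mul_Ioi (a := -c) (by linarith) 0
    simp only [neg_mul] at h3
    rw [h3]
    simp
  rw [h2]
  ring

private lemma mch_ker_split {T : ℝ} (v t : ℝ) :
    ker (pv T v) t =
      ker (2 / T : ℝ) t * Complex.exp ((2 * Real.pi * v * (t / T) : ℝ) * Complex.I) := by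
  have h := Pool.Agent.EvenMoment.Tw.ker_split (T := T) v t
  rw [← h]
  congr 1
  unfold pv
  push_cast
  ring

/-- the integral in `t` for fixed `v` -/
private noncomputable def mch_JJ (r T v : ℝ) : ℂ :=
  ∫ t : ℝ, XX t * Complex.exp (-(t * Real.log r : ℝ) * Complex.I) * ker (pv T v) t

private lemma mch_JJ_le (r : ℝ) {T : ℝ} (hT : 2 ≤ T) (v : ℝ) : ‖mch_JJ r T v‖ ≤ T := by
  have h1 : ∫ t : ℝ, Real.exp (-(2 / T * |t|)) = T := by
    rw [mch_int_exp (by positivity)]
    have : T ≠ 0 := by linarith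
    field_simp
  refine le_trans ?_ h1.le
  unfold mch_JJ
  refine norm_integral_le_of_norm_le
    (Pool.Agent.EvenMoment.ct_int_exp (c := 2 / T) (by positivity)) (ae_of_all _ fun t => ?_)
  rw [mch_ker_split, ← mul_assoc, norm_mul, Complex.norm_exp_ofReal_mul_I, mul_one]
  exact mch_H_norm r hT t

/-- the main comparison -/
private lemma mch_cmp : ∃ K : ℝ, 0 < K ∧ ∀ T : ℝ, 2 ≤ T → ∀ r : ℝ, 0 < r → r ≤ T → ∀ v : ℝ,
    ‖mch_JJ r T v - 2 * Real.pi * Real.sqrt r * Complex.exp (-(2 * Real.pi * Complex.I * r)) *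
      Complex.exp (-(2 * Real.pi * r * pv T v))‖ ≤ K * (1 + |v|) ^ 2 := by
  have hpi := Real.pi_gt_three
  refine ⟨2 * Real.pi * (2 * Real.pi + 2 * Real.pi * (2 * Real.pi) ^ 2) +
    (1 + 2 * Real.pi) * (2 * Real.pi), by positivity, fun T hT r hr hrT v => ?_⟩
  have hT0 : 0 < T := by linarith
  have hv1 : 1 ≤ 1 + |v| := by linarith [abs_nonneg v]
  have hv2 : 1 + |v| ≤ (1 + |v|) ^ 2 := by nlinarith
  have hsr : Real.sqrt r ≤ T := by
    rw [Real.sqrt_le_left hT0.le]
    nlinarith
  have hsr0 : 0 ≤ Real.sqrt r := Real.sqrt_nonneg r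
  have hpre : 0 < (pv T v).re := by
    rw [mch_pv_re]
    positivity
  have hpn := mch_pv_norm hT0 v
  rcases le_or_gt ‖pv T v‖ 1 with h1 | h1
  · have hpre' : (pv T v).re < Real.pi := by
      have := (Complex.re_le_norm (pv T v)).trans h1
      linarith
    have h2 := mch_small hr hpre h1
    unfold mch_JJ
    rw [mch_J hr hpre hpre']
    have e1 : (2 * Real.pi * Real.sqrt r * (Complex.exp (-(Complex.I * pv T v / 2)) *
        Complex.exp (-(2 * Real.pi * Complex.I * r * Complex.exp (-(Complex.I * pv T v))))) -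
        2 * Real.pi * Real.sqrt r * Complex.exp (-(2 * Real.pi * Complex.I * r)) *
        Complex.exp (-(2 * Real.pi * r * pv T v)) : ℂ) =
        ((2 * Real.pi * Real.sqrt r : ℝ) : ℂ) * (Complex.exp (-(Complex.I * pv T v / 2)) *
        Complex.exp (-(2 * Real.pi * Complex.I * r * Complex.exp (-(Complex.I * pv T v)))) -
        Complex.exp (-(2 * Real.pi * Complex.I * r + 2 * Real.pi * r * pv T v))) := by
      rw [neg_add, Complex.exp_add]
      push_cast
      ring
    rw [e1, norm_mul, Complex.norm_real, Real.norm_eq_abs, abs_of_nonneg (by positivity)]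
    have h3 : Real.sqrt r * ‖pv T v‖ ≤ 2 * Real.pi * (1 + |v|) := by
      calc Real.sqrt r * ‖pv T v‖ ≤ T * (2 * Real.pi * (1 + |v|) / T) := by gcongr
        _ = _ := by field_simp
    have h4 : Real.sqrt r * (r * ‖pv T v‖ ^ 2) ≤ (2 * Real.pi) ^ 2 * (1 + |v|) ^ 2 := by
      have h5 : Real.sqrt r * r ≤ T ^ 2 := by
        calc Real.sqrt r * r ≤ T * T := by gcongr
          _ = T ^ 2 := by ring
      calc Real.sqrt r * (r * ‖pv T v‖ ^ 2) = (Real.sqrt r * r) * ‖pv T v‖ ^ 2 := by ring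
        _ ≤ T ^ 2 * (2 * Real.pi * (1 + |v|) / T) ^ 2 := by gcongr
        _ = _ := by field_simp
    calc 2 * Real.pi * Real.sqrt r * _ ≤ 2 * Real.pi * Real.sqrt r *
          (‖pv T v‖ + 2 * Real.pi * r * ‖pv T v‖ ^ 2) := by gcongr
      _ = 2 * Real.pi * (Real.sqrt r * ‖pv T v‖ +
          2 * Real.pi * (Real.sqrt r * (r * ‖pv T v‖ ^ 2))) := by ring
      _ ≤ 2 * Real.pi * (2 * Real.pi * (1 + |v|) ^ 2 +
          2 * Real.pi * ((2 * Real.pi) ^ 2 * (1 + |v|) ^ 2)) := by
        have h6 : Real.sqrt r * ‖pv T v‖ ≤ 2 * Real.pi * (1 + |v|) ^ 2 :=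
          h3.trans (by gcongr)
        exact mul_le_mul_of_nonneg_left (add_le_add h6
          (mul_le_mul_of_nonneg_left h4 (by positivity))) (by positivity)
      _ ≤ _ := by
        have : 0 ≤ (1 + 2 * Real.pi) * (2 * Real.pi) * (1 + |v|) ^ 2 := by positivity
        nlinarith
  · have hT1 : T ≤ 2 * Real.pi * (1 + |v|) := by
      have := h1.le.trans hpn
      rwa [one_le_div hT0] at this
    have h2 := mch_JJ_le r hT v
    have h3 : ‖(2 * Real.pi * Real.sqrt r * Complex.exp (-(2 * Real.pi * Complex.I * r)) *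
      Complex.exp (-(2 * Real.pi * r * pv T v)) : ℂ)‖ ≤ 2 * Real.pi * T := by
      have e2 : (2 * Real.pi * Real.sqrt r : ℂ) = ((2 * Real.pi * Real.sqrt r : ℝ) : ℂ) := by
        push_cast
        ring
      have e3 : ‖Complex.exp (-(2 * Real.pi * Complex.I * r))‖ = 1 := by
        have : (-(2 * Real.pi * Complex.I * r) : ℂ) = ((-(2 * Real.pi * r) : ℝ) : ℂ) * Complex.I := by
          push_cast
          ring
        rw [this]
        exact Complex.norm_exp_ofReal_mul_I _
      have e4 : ‖Complex.exp (-(2 * Real.pi * r * pv T v))‖ ≤ 1 := by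
        rw [Complex.norm_exp, Complex.neg_re]
        refine Real.exp_le_one_iff.mpr ?_
        have : (2 * Real.pi * r * pv T v : ℂ) = ((2 * Real.pi * r : ℝ) : ℂ) * pv T v := by
          push_cast
          ring
        rw [this, Complex.re_ofReal_mul]
        have : 0 ≤ 2 * Real.pi * r * (pv T v).re := by positivity
        linarith
      rw [e2, norm_mul, norm_mul, e3, mul_one, Complex.norm_real, Real.norm_eq_abs,
        abs_of_nonneg (by positivity)]
      calc 2 * Real.pi * Real.sqrt r * ‖Complex.exp (-(2 * Real.pi * r * pv T v))‖ ≤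
            2 * Real.pi * T * 1 := by gcongr
        _ = _ := by ring
    refine (norm_sub_le _ _).trans ?_
    calc ‖mch_JJ r T v‖ + _ ≤ T + 2 * Real.pi * T := add_le_add h2 h3
      _ = (1 + 2 * Real.pi) * T := by ring
      _ ≤ (1 + 2 * Real.pi) * (2 * Real.pi * (1 + |v|) ^ 2) := by
        gcongr
        refine hT1.trans ?_
        gcongr
      _ ≤ _ := by
        have : 0 ≤ 2 * Real.pi * (2 * Real.pi + 2 * Real.pi * (2 * Real.pi) ^ 2) *
          (1 + |v|) ^ 2 := by positivity
        nlinarith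


private lemma mch_fubini {w : ℝ → ℝ} {G : ℝ → ℂ} (hGi : Integrable G)
    (hG : ∀ x : ℝ, ∫ v : ℝ, G v * Complex.exp ((2 * Real.pi * v * x : ℝ) * Complex.I) =
      ((w x * Real.exp (2 * x) : ℝ) : ℂ)) (r : ℝ) {T : ℝ} (hT : 2 ≤ T) :
    ∫ v : ℝ, G v * mch_JJ r T v =
      ∫ t : ℝ, mch_H r T t * ((w (t / T) * Real.exp (2 * (t / T)) : ℝ) : ℂ) := by
  have h1 : ∀ v : ℝ, G v * mch_JJ r T v =
      ∫ t : ℝ, G v * (mch_H r T t *
        Complex.exp ((2 * Real.pi * v * (t / T) : ℝ) * Complex.I)) := by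
    intro v
    rw [integral_const_mul]
    congr 1
    unfold mch_JJ
    refine integral_congr_ae (ae_of_all _ fun t => ?_)
    simp only
    rw [mch_ker_split, mch_H]
    ring
  simp_rw [h1]
  rw [integral_integral_swap]
  · refine integral_congr_ae (ae_of_all _ fun t => ?_)
    simp only
    rw [← hG, ← integral_const_mul]
    refine integral_congr_ae (ae_of_all _ fun v => ?_)
    simp only
    ring
  · have h2 := hGi.mul_prod (mch_H_int r hT)
    have h3 : (Function.uncurry fun (v t : ℝ) => G v * (mch_H r T t *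
        Complex.exp ((2 * Real.pi * v * (t / T) : ℝ) * Complex.I))) =
        fun z : ℝ × ℝ => Complex.exp ((2 * Real.pi * z.1 * (z.2 / T) : ℝ) * Complex.I) *
          (G z.1 * mch_H r T z.2) := by
      ext z
      simp only [Function.uncurry]
      ring
    rw [h3]
    refine h2.bdd_mul (c := 1) ?_ (ae_of_all _ fun z => ?_)
    · exact Continuous.aestronglyMeasurable (by fun_prop)
    · exact (Complex.norm_exp_ofReal_mul_I _).le

private lemma mch_JJ_int {G : ℝ → ℂ} (hGi : Integrable G) (r : ℝ) {T : ℝ} (hT : 2 ≤ T) :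
    Integrable fun v : ℝ => G v * mch_JJ r T v := by
  have h3 : (fun v : ℝ => G v * mch_JJ r T v) = fun v : ℝ => ∫ t : ℝ,
      Complex.exp ((2 * Real.pi * v * (t / T) : ℝ) * Complex.I) * (G v * mch_H r T t) := by
    ext v
    unfold mch_JJ
    rw [← integral_const_mul]
    refine integral_congr_ae (ae_of_all _ fun t => ?_)
    simp only
    rw [mch_ker_split, mch_H]
    ring
  rw [h3]
  have h4 := hGi.mul_prod (mch_H_int r hT)
  have h5 : Integrable (fun z : ℝ × ℝ => Complex.exp ((2 * Real.pi * z.1 * (z.2 / T) : ℝ) *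
      Complex.I) * (G z.1 * mch_H r T z.2)) (volume.prod volume) := by
    refine h4.bdd_mul (c := 1) ?_ (ae_of_all _ fun z => ?_)
    · exact Continuous.aestronglyMeasurable (by fun_prop)
    · exact (Complex.norm_exp_ofReal_mul_I _).le
  exact h5.integral_prod_left

/-- removing the factor `1 / (1 + i e^{-πt})` -/
private lemma mch_remove {w : ℝ → ℝ} (hw : Wgt w) : ∃ D : ℝ, 0 < D ∧ ∀ T : ℝ, 2 ≤ T → ∀ r : ℝ,
    ‖(∫ t : ℝ, (w (t / T) : ℂ) * (XX t * Complex.exp (-(t * Real.log r : ℝ) * Complex.I))) -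
      ∫ t : ℝ, mch_H r T t * ((w (t / T) * Real.exp (2 * (t / T)) : ℝ) : ℂ)‖ ≤ D := by
  obtain ⟨M, hM⟩ := (Pool.Agent.EvenMoment.Tw.hcs hw).exists_bound_of_continuous
    hw.smooth.continuous
  have hM0 : 0 ≤ M := (norm_nonneg _).trans (hM 0)
  have hie := Pool.Agent.EvenMoment.ct_int_exp Real.pi_pos
  refine ⟨(∫ t : ℝ, M * Real.exp (-(Real.pi * |t|))) + 1, ?_, fun T hT r => ?_⟩
  · have : 0 ≤ ∫ t : ℝ, M * Real.exp (-(Real.pi * |t|)) :=
      integral_nonneg fun t => by positivity
    linarith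
  have hT0 : 0 < T := by linarith
  have hcs' : HasCompactSupport fun t : ℝ => w (t / T) := by
    obtain ⟨a, ha, ha1, h⟩ := hw.supp
    refine HasCompactSupport.intro (isCompact_Icc (a := 0) (b := T)) fun t ht => ?_
    apply h
    rw [Set.mem_Icc, not_and_or, not_le, not_le] at ht
    rcases ht with ht | ht
    · left
      have : t / T < 0 := div_neg_of_neg_of_pos ht hT0
      linarith
    · right
      rwa [one_lt_div hT0]
  have hwc : Continuous fun t : ℝ => w (t / T) := hw.smooth.continuous.comp (continuous_id.div_const T)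
  have hi1 : Integrable fun t : ℝ => (w (t / T) : ℂ) *
      (XX t * Complex.exp (-(t * Real.log r : ℝ) * Complex.I)) := by
    refine Continuous.integrable_of_hasCompactSupport ?_ ?_
    · exact (Complex.continuous_ofReal.comp hwc).mul (mch_XX_cont.mul (by fun_prop))
    · refine HasCompactSupport.mul_right ?_
      exact hcs'.comp_left (g := fun x : ℝ => (x : ℂ)) (by simp)
  have hi2 : Integrable fun t : ℝ => mch_H r T t *
      ((w (t / T) * Real.exp (2 * (t / T)) : ℝ) : ℂ) := by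
    refine Continuous.integrable_of_hasCompactSupport ?_ ?_
    · refine Continuous.mul (mch_H_cont r T) ?_
      exact Complex.continuous_ofReal.comp (hwc.mul (by fun_prop))
    · refine HasCompactSupport.mul_left ?_
      exact (HasCompactSupport.mul_right hcs').comp_left (g := fun x : ℝ => (x : ℂ)) (by simp)
  rw [← integral_sub hi1 hi2]
  refine le_trans (norm_integral_le_of_norm_le (hie.const_mul M)
    (ae_of_all _ fun t => ?_)) (by linarith)
  have h1 : (w (t / T) : ℂ) * (XX t * Complex.exp (-(t * Real.log r : ℝ) * Complex.I)) -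
      mch_H r T t * ((w (t / T) * Real.exp (2 * (t / T)) : ℝ) : ℂ) =
      (w (t / T) : ℂ) * (XX t * Complex.exp (-(t * Real.log r : ℝ) * Complex.I)) *
        (Complex.I * Real.exp (-(Real.pi * t)) / (1 + Complex.I * Real.exp (-(Real.pi * t)))) := by
    have h2 : ker (2 / T : ℝ) t * (Real.exp (2 * (t / T)) : ℝ) =
        1 / (1 + Complex.I * Real.exp (-(Real.pi * t))) := by
      unfold Pool.Agent.EvenMoment.ker
      rw [div_mul_eq_mul_div, Complex.ofReal_exp (2 * (t / T)), ← Complex.exp_add]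
      congr 1
      rw [← Complex.exp_zero]
      congr 1
      push_cast
      ring
    have h3 : Complex.I * Real.exp (-(Real.pi * t)) / (1 + Complex.I * Real.exp (-(Real.pi * t))) =
        1 - 1 / (1 + Complex.I * Real.exp (-(Real.pi * t))) := by
      have := Pool.Agent.EvenMoment.Tw.den_ne t
      field_simp
      ring
    rw [h3, ← h2, mch_H]
    push_cast
    ring
  rw [h1, norm_mul, norm_mul, norm_mul, XX_norm, mch_osc_norm, one_mul, mul_one, Complex.norm_real]
  rcases lt_or_ge t 0 with ht | ht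
  · obtain ⟨a, ha, _, hs⟩ := hw.supp
    rw [hs (t / T) (Or.inl ((div_neg_of_neg_of_pos ht hT0).trans ha))]
    simp only [norm_zero, zero_mul]
    positivity
  · have h4 : ‖(Complex.I * Real.exp (-(Real.pi * t)) /
        (1 + Complex.I * Real.exp (-(Real.pi * t))) : ℂ)‖ ≤ Real.exp (-(Real.pi * |t|)) := by
      rw [norm_div, norm_mul, Complex.norm_I, one_mul, Complex.norm_real, Real.norm_eq_abs,
        abs_of_pos (Real.exp_pos _), abs_of_nonneg ht]
      refine div_le_self (Real.exp_pos _).le ?_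
      have := Complex.abs_re_le_norm (1 + Complex.I * (Real.exp (-(Real.pi * t)) : ℝ))
      rw [Pool.Agent.EvenMoment.Tw.re_one, abs_one] at this
      exact this
    gcongr
    exact hM _

/-- the twisted mean value of `XX` is bounded -/
private lemma mch_claim {w : ℝ → ℝ} (hw : Wgt w) {ε : ℝ} (hε : 0 < ε) :
    ∃ C T₀ : ℝ, 0 < C ∧ 2 ≤ T₀ ∧ ∀ T : ℝ, T₀ ≤ T → ∀ r : ℝ, 0 < r → r ≤ T ^ (1 - 2 * ε) →
    ‖∫ t : ℝ, (w (t / T) : ℂ) * (XX t * Complex.exp (-(t * Real.log r : ℝ) * Complex.I))‖ ≤ C := by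
  obtain ⟨G, hGc, hGi, hGp, hG⟩ := Pool.Agent.EvenMoment.Tw.exists_G hw
  obtain ⟨D, hD, hrem⟩ := mch_remove hw
  obtain ⟨K, hK, hcmp⟩ := mch_cmp
  obtain ⟨a, ha, ha1, hs⟩ := hw.supp
  have hpi := Real.pi_pos
  have hint : Integrable fun v : ℝ => K * ((1 + |v|) ^ 2 * ‖G v‖) := by
    have h1 : ∀ v : ℝ, K * ((1 + |v|) ^ 2 * ‖G v‖) =
        K * (|v| ^ 0 * ‖G v‖) + 2 * K * (|v| ^ 1 * ‖G v‖) + K * (|v| ^ 2 * ‖G v‖) := by
      intro v
      ring
    simp_rw [h1]
    exact (((hGp 0).const_mul _).add ((hGp 1).const_mul _)).add ((hGp 2).const_mul _)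
  set E : ℝ := ∫ v : ℝ, K * ((1 + |v|) ^ 2 * ‖G v‖) with hE
  have hE0 : 0 ≤ E := integral_nonneg fun v => by positivity
  have htend : Tendsto (fun T : ℝ => 2 * Real.pi * T ^ (-(2 * ε))) atTop (𝓝 (2 * Real.pi * 0)) :=
    (tendsto_rpow_neg_atTop (by positivity)).const_mul _
  rw [mul_zero] at htend
  obtain ⟨T₁, hT₁⟩ := eventually_atTop.mp (htend.eventually (gt_mem_nhds ha))
  refine ⟨D + E, max T₁ 2, by positivity, le_max_right _ _, fun T hT r hr hrT => ?_⟩
  have hT1 : T₁ ≤ T := (le_max_left _ _).trans hT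
  have hT2 : 2 ≤ T := (le_max_right _ _).trans hT
  have hT0 : 0 < T := by linarith
  have hrT' : r ≤ T := by
    refine hrT.trans ?_
    calc T ^ (1 - 2 * ε) ≤ T ^ (1 : ℝ) :=
          Real.rpow_le_rpow_of_exponent_le (by linarith) (by linarith)
      _ = T := Real.rpow_one T
  have hwz : w (2 * Real.pi * r / T) = 0 := by
    refine hs _ (Or.inl ?_)
    have h1 := hT₁ T hT1
    refine lt_of_le_of_lt ?_ h1
    have h2 : T ^ (1 - 2 * ε) = T * T ^ (-(2 * ε)) := by
      rw [show (1 - 2 * ε) = 1 + -(2 * ε) by ring, Real.rpow_add hT0, Real.rpow_one]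
    rw [h2] at hrT
    calc 2 * Real.pi * r / T ≤ 2 * Real.pi * (T * T ^ (-(2 * ε))) / T := by gcongr
      _ = _ := by field_simp
  -- the main term vanishes
  have hmain : ∫ v : ℝ, G v * (2 * Real.pi * Real.sqrt r *
      Complex.exp (-(2 * Real.pi * Complex.I * r)) * Complex.exp (-(2 * Real.pi * r * pv T v))) =
      0 := by
    have h1 : ∀ v : ℝ, G v * (2 * Real.pi * Real.sqrt r *
        Complex.exp (-(2 * Real.pi * Complex.I * r)) *
        Complex.exp (-(2 * Real.pi * r * pv T v))) = (2 * Real.pi * Real.sqrt r *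
        Complex.exp (-(2 * Real.pi * Complex.I * r)) * Complex.exp (-(4 * Real.pi * r / T))) *
        (G v * Complex.exp ((2 * Real.pi * v * (2 * Real.pi * r / T) : ℝ) * Complex.I)) := by
      intro v
      have h2 : Complex.exp (-(2 * Real.pi * r * pv T v)) =
          Complex.exp (-(4 * Real.pi * r / T)) *
          Complex.exp ((2 * Real.pi * v * (2 * Real.pi * r / T) : ℝ) * Complex.I) := by
        rw [← Complex.exp_add]
        congr 1
        unfold pv
        push_cast
        ring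
      rw [h2]
      ring
    simp_rw [h1]
    rw [integral_const_mul, hG, hwz]
    simp
  have hi1 := mch_JJ_int hGi r hT2
  have hi2 : Integrable fun v : ℝ => G v * (2 * Real.pi * Real.sqrt r *
      Complex.exp (-(2 * Real.pi * Complex.I * r)) *
      Complex.exp (-(2 * Real.pi * r * pv T v))) := by
    have h3 : (fun v : ℝ => G v * (2 * Real.pi * Real.sqrt r *
      Complex.exp (-(2 * Real.pi * Complex.I * r)) *
      Complex.exp (-(2 * Real.pi * r * pv T v)))) = fun v : ℝ => (2 * Real.pi * Real.sqrt r *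
      Complex.exp (-(2 * Real.pi * Complex.I * r)) *
      Complex.exp (-(2 * Real.pi * r * pv T v))) * G v := by
      ext v
      ring
    rw [h3]
    refine hGi.bdd_mul (c := ‖(2 * Real.pi * Real.sqrt r *
      Complex.exp (-(2 * Real.pi * Complex.I * r)) : ℂ)‖ * 1) ?_ (ae_of_all _ fun v => ?_)
    · refine Continuous.aestronglyMeasurable ?_
      unfold pv
      fun_prop
    · rw [norm_mul]
      gcongr
      rw [Complex.norm_exp, Complex.neg_re]
      refine Real.exp_le_one_iff.mpr ?_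
      have : (2 * Real.pi * r * pv T v : ℂ) = ((2 * Real.pi * r : ℝ) : ℂ) * pv T v := by
        push_cast
        ring
      rw [this, Complex.re_ofReal_mul, mch_pv_re]
      have : 0 ≤ 2 * Real.pi * r * (2 / T) := by positivity
      linarith
  have h6 : ‖∫ v : ℝ, G v * mch_JJ r T v‖ ≤ E := by
    rw [← sub_zero (∫ v : ℝ, G v * mch_JJ r T v), ← hmain, ← integral_sub hi1 hi2, hE]
    refine norm_integral_le_of_norm_le hint (ae_of_all _ fun v => ?_)
    rw [← mul_sub, norm_mul]
    calc ‖G v‖ * _ ≤ ‖G v‖ * (K * (1 + |v|) ^ 2) := by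
          gcongr
          exact hcmp T hT2 r hr hrT' v
      _ = _ := by ring
  have h7 := hrem T hT2 r
  rw [← mch_fubini hGi hG r hT2] at h7
  calc _ ≤ ‖(∫ t : ℝ, (w (t / T) : ℂ) * (XX t *
        Complex.exp (-(t * Real.log r : ℝ) * Complex.I))) - ∫ v : ℝ, G v * mch_JJ r T v‖ +
        ‖∫ v : ℝ, G v * mch_JJ r T v‖ := by
        have := norm_add_le ((∫ t : ℝ, (w (t / T) : ℂ) * (XX t *
          Complex.exp (-(t * Real.log r : ℝ) * Complex.I))) - ∫ v : ℝ, G v * mch_JJ r T v)
          (∫ v : ℝ, G v * mch_JJ r T v)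
        rwa [sub_add_cancel] at this
    _ ≤ D + E := add_le_add h7 h6


/-! ### the sum over the coefficients -/

private noncomputable def mch_c (Ψ : ℝ → ℝ → ℝ → ℝ) (L : ℝ) (p : ℕ × ℕ × ℕ) : ℝ :=
  Ψ (Real.log p.1 / L) (Real.log p.2.1 / L) (Real.log p.2.2 / L) / Real.sqrt (p.1 * p.2.1 * p.2.2)

private noncomputable def mch_N (L : ℝ) : Finset (ℕ × ℕ × ℕ) := NN L ×ˢ NN L ×ˢ NN L

private noncomputable def mch_r (p : ℕ × ℕ × ℕ) : ℝ := (p.1 : ℝ) * p.2.1 / p.2.2

private lemma mch_mem {L : ℝ} {p : ℕ × ℕ × ℕ} (h : p ∈ mch_N L) :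
    (1 : ℝ) ≤ p.1 ∧ (1 : ℝ) ≤ p.2.1 ∧ (1 : ℝ) ≤ p.2.2 := by
  unfold mch_N NN at h
  simp only [Finset.mem_product, Finset.mem_Icc] at h
  exact ⟨by exact_mod_cast h.1.1, by exact_mod_cast h.2.1.1, by exact_mod_cast h.2.2.1⟩

private lemma mch_r_pos {L : ℝ} {p : ℕ × ℕ × ℕ} (h : p ∈ mch_N L) : 0 < mch_r p := by
  obtain ⟨h1, h2, h3⟩ := mch_mem h
  unfold mch_r
  positivity

private lemma mch_CP (Ψ : ℝ → ℝ → ℝ → ℝ) (L t : ℝ) : CP Ψ L t =
    ∑ p ∈ mch_N L, (mch_c Ψ L p : ℂ) *
      Complex.exp (-(t * Real.log (mch_r p) : ℝ) * Complex.I) := by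
  unfold CP mch_N
  rw [Finset.sum_product]
  refine Finset.sum_congr rfl fun a ha => ?_
  rw [Finset.sum_product]
  refine Finset.sum_congr rfl fun b hb => ?_
  refine Finset.sum_congr rfl fun k hk => ?_
  obtain ⟨h1, h2, h3⟩ := mch_mem (L := L) (p := (a, b, k))
    (by unfold mch_N; exact Finset.mk_mem_product ha (Finset.mk_mem_product hb hk))
  simp only at h1 h2 h3
  unfold mch_c mch_r en
  rw [← Complex.exp_conj, ← Complex.exp_add, ← Complex.exp_add]
  congr 2
  rw [Real.log_div (by positivity) (by positivity), Real.log_mul (by positivity) (by positivity)]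
  simp only [map_mul, map_neg, Complex.conj_ofReal, Complex.conj_I]
  push_cast
  ring

private lemma mch_sq (Ψ : ℝ → ℝ → ℝ → ℝ) (L t : ℝ) : CP Ψ L t ^ 2 =
    ∑ x ∈ mch_N L ×ˢ mch_N L, ((mch_c Ψ L x.1 * mch_c Ψ L x.2 : ℝ) : ℂ) *
      Complex.exp (-(t * Real.log (mch_r x.1 * mch_r x.2) : ℝ) * Complex.I) := by
  rw [sq, mch_CP, Finset.sum_mul_sum, Finset.sum_product]
  refine Finset.sum_congr rfl fun p hp => ?_
  refine Finset.sum_congr rfl fun q hq => ?_
  rw [Real.log_mul (mch_r_pos hp).ne' (mch_r_pos hq).ne']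
  have h : Complex.exp (-(t * (Real.log (mch_r p) + Real.log (mch_r q)) : ℝ) * Complex.I) =
      Complex.exp (-(t * Real.log (mch_r p) : ℝ) * Complex.I) *
      Complex.exp (-(t * Real.log (mch_r q) : ℝ) * Complex.I) := by
    rw [← Complex.exp_add]
    congr 1
    push_cast
    ring
  rw [h]
  push_cast
  ring

private lemma mch_bdd {Ψ : ℝ → ℝ → ℝ → ℝ} (hΨ : Tst Ψ) : ∃ B : ℝ, 0 < B ∧
    ∀ x y z, |Ψ x y z| ≤ B := by
  obtain ⟨a, b, ha, h⟩ := hΨ.supp
  obtain ⟨B, hB⟩ := (isCompact_Icc (a := ((a, a, a) : ℝ × ℝ × ℝ))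
    (b := (b, b, b))).exists_bound_of_continuousOn hΨ.smooth.continuous.continuousOn
  refine ⟨|B| + 1, by positivity, fun x y z => ?_⟩
  by_cases hx : x < a ∨ y < a ∨ z < a ∨ b < x ∨ b < y ∨ b < z
  · rw [h x y z hx, abs_zero]
    positivity
  · push Not at hx
    obtain ⟨h1, h2, h3, h4, h5, h6⟩ := hx
    have h7 := hB (x, y, z) ⟨⟨h1, h2, h3⟩, ⟨h4, h5, h6⟩⟩
    simp only [Real.norm_eq_abs] at h7
    exact h7.trans ((le_abs_self B).trans (by linarith))

private lemma mch_harm {L : ℝ} (hL : 0 ≤ L) : ∑ n ∈ NN L, (1 / (n : ℝ)) ≤ 1 + L := by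
  have h1 := harmonic_floor_le_one_add_log (Real.exp L) (Real.one_le_exp hL)
  rw [Real.log_exp, harmonic_eq_sum_Icc] at h1
  unfold NN
  refine le_trans (le_of_eq ?_) h1
  push_cast
  exact Finset.sum_congr rfl fun n _ => by rw [one_div]

private lemma mch_csum {Ψ : ℝ → ℝ → ℝ → ℝ} {B : ℝ} (hB0 : 0 < B)
    (hB : ∀ x y z, |Ψ x y z| ≤ B) {ε : ℝ}
    (hs : ∀ x y z, Ψ x y z ≠ 0 → x + y + z ≤ 1 - ε) {L : ℝ} (hL : 0 < L) :
    ∑ p ∈ mch_N L, |mch_c Ψ L p| ≤ B * Real.exp ((1 - ε) / 2 * L) * (1 + L) ^ 3 := by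
  have h1 : ∀ p ∈ mch_N L, |mch_c Ψ L p| ≤ B * Real.exp ((1 - ε) / 2 * L) *
      ((1 / (p.1 : ℝ)) * ((1 / (p.2.1 : ℝ)) * (1 / (p.2.2 : ℝ)))) := by
    intro p hp
    obtain ⟨h1, h2, h3⟩ := mch_mem hp
    unfold mch_c
    by_cases h0 : Ψ (Real.log p.1 / L) (Real.log p.2.1 / L) (Real.log p.2.2 / L) = 0
    · rw [h0, zero_div, abs_zero]
      positivity
    · have h4 := hs _ _ _ h0
      have h5 : Real.log (p.1 * p.2.1 * p.2.2) ≤ (1 - ε) * L := by
        rw [Real.log_mul (by positivity) (by positivity),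
          Real.log_mul (by positivity) (by positivity)]
        rw [← add_div, ← add_div, div_le_iff₀ hL] at h4
        exact h4
      set P : ℝ := p.1 * p.2.1 * p.2.2 with hP
      have hP0 : 0 < P := by
        rw [hP]
        positivity
      have h6 : Real.sqrt P ≤ Real.exp ((1 - ε) / 2 * L) := by
        have : Real.sqrt P = Real.exp (Real.log P / 2) := by
          rw [Real.exp_half, Real.exp_log hP0]
        rw [this]
        apply Real.exp_le_exp.mpr
        linarith
      have h7 : (1 / (p.1 : ℝ)) * ((1 / (p.2.1 : ℝ)) * (1 / (p.2.2 : ℝ))) = 1 / P := by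
        rw [hP]
        field_simp
      have h8 : 1 / Real.sqrt P = Real.sqrt P * (1 / P) := by
        have h9 := Real.mul_self_sqrt hP0.le
        have h10 : 0 < Real.sqrt P := Real.sqrt_pos.mpr hP0
        rw [mul_one_div, div_eq_div_iff h10.ne' hP0.ne']
        linarith
      rw [h7, abs_div, abs_of_nonneg (Real.sqrt_nonneg P)]
      calc _ = |Ψ (Real.log p.1 / L) (Real.log p.2.1 / L) (Real.log p.2.2 / L)| *
            (1 / Real.sqrt P) := by rw [mul_one_div]
        _ ≤ B * (Real.exp ((1 - ε) / 2 * L) * (1 / P)) := by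
          rw [h8]
          gcongr
          exact hB _ _ _
        _ = _ := by ring
  refine (Finset.sum_le_sum h1).trans ?_
  rw [← Finset.mul_sum]
  refine mul_le_mul_of_nonneg_left ?_ (by positivity)
  unfold mch_N
  have h2 := mch_harm hL.le
  have h0 : 0 ≤ ∑ n ∈ NN L, (1 / (n : ℝ)) := Finset.sum_nonneg fun n _ => by positivity
  rw [Finset.sum_product]
  simp only
  have h3 : ∀ x ∈ NN L, (∑ y ∈ NN L ×ˢ NN L, 1 / (x : ℝ) * (1 / (y.1 : ℝ) * (1 / (y.2 : ℝ)))) =
      1 / (x : ℝ) * ((∑ n ∈ NN L, (1 / (n : ℝ))) * (∑ n ∈ NN L, (1 / (n : ℝ)))) := by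
    intro x _
    rw [← Finset.mul_sum, Finset.sum_product, Finset.sum_mul_sum]
  rw [Finset.sum_congr rfl h3, ← Finset.sum_mul]
  calc (∑ n ∈ NN L, (1 / (n : ℝ))) * ((∑ n ∈ NN L, (1 / (n : ℝ))) * (∑ n ∈ NN L, (1 / (n : ℝ))))
      = (∑ n ∈ NN L, (1 / (n : ℝ))) ^ 3 := by ring
    _ ≤ _ := by gcongr

theorem mean_chi {w : ℝ → ℝ} (hw : Wgt w) {Ψ : ℝ → ℝ → ℝ → ℝ} (hΨ : Tst Ψ) {ε : ℝ} (hε : 0 < ε)
    (hs : ∀ x y z, Ψ x y z ≠ 0 → x + y ≤ 1 / 2 - ε ∧ x + y + z ≤ 1 - ε) :
    Tendsto (fun T : ℝ => (1 / T) * (∫ t : ℝ, w (t / T) *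
      (XX t * CP Ψ (Real.log T) t ^ 2).re)) atTop (𝓝 0) := by
  obtain ⟨C, T₀, hC, hT₀, hcl⟩ := mch_claim hw hε
  obtain ⟨B, hB0, hB⟩ := mch_bdd hΨ
  -- the bound
  have hbound : ∀ T : ℝ, T₀ ≤ T → |(1 / T) * (∫ t : ℝ, w (t / T) *
      (XX t * CP Ψ (Real.log T) t ^ 2).re)| ≤
      C * B ^ 2 * ((1 + Real.log T) ^ 6 * Real.exp (-(ε * Real.log T))) := by
    intro T hT
    have hT2 : 2 ≤ T := hT₀.trans hT
    have hT0 : 0 < T := by linarith
    have hL : 0 < Real.log T := Real.log_pos (by linarith)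
    set L := Real.log T with hLdef
    have hwc : Continuous fun t : ℝ => w (t / T) :=
      hw.smooth.continuous.comp (continuous_id.div_const T)
    have hcs' : HasCompactSupport fun t : ℝ => w (t / T) := by
      obtain ⟨a, ha, ha1, h⟩ := hw.supp
      refine HasCompactSupport.intro (isCompact_Icc (a := 0) (b := T)) fun t ht => ?_
      apply h
      rw [Set.mem_Icc, not_and_or, not_le, not_le] at ht
      rcases ht with ht | ht
      · left
        have : t / T < 0 := div_neg_of_neg_of_pos ht hT0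
        linarith
      · right
        rwa [one_lt_div hT0]
    have hint : ∀ r : ℝ, Integrable fun t : ℝ => (w (t / T) : ℂ) *
        (XX t * Complex.exp (-(t * Real.log r : ℝ) * Complex.I)) := by
      intro r
      refine Continuous.integrable_of_hasCompactSupport ?_ ?_
      · exact (Complex.continuous_ofReal.comp hwc).mul (mch_XX_cont.mul (by fun_prop))
      · refine HasCompactSupport.mul_right ?_
        exact hcs'.comp_left (g := fun x : ℝ => (x : ℂ)) (by simp)
    have hexp : ∀ t : ℝ, (w (t / T) : ℂ) * (XX t * CP Ψ L t ^ 2) =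
        ∑ x ∈ mch_N L ×ˢ mch_N L, ((mch_c Ψ L x.1 * mch_c Ψ L x.2 : ℝ) : ℂ) *
          ((w (t / T) : ℂ) * (XX t *
          Complex.exp (-(t * Real.log (mch_r x.1 * mch_r x.2) : ℝ) * Complex.I))) := by
      intro t
      rw [mch_sq, Finset.mul_sum, Finset.mul_sum]
      exact Finset.sum_congr rfl fun x _ => by ring
    have hI : Integrable fun t : ℝ => (w (t / T) : ℂ) * (XX t * CP Ψ L t ^ 2) := by
      simp_rw [hexp]
      exact integrable_finsetSum _ fun x _ => (hint _).const_mul _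
    have h1 : (∫ t : ℝ, w (t / T) * (XX t * CP Ψ L t ^ 2).re) =
        (∫ t : ℝ, (w (t / T) : ℂ) * (XX t * CP Ψ L t ^ 2)).re := by
      have h2 := Complex.reCLM.integral_comp_comm hI
      simp only [Complex.reCLM_apply] at h2
      rw [← h2]
      refine integral_congr_ae (ae_of_all _ fun t => ?_)
      simp only
      rw [Complex.re_ofReal_mul]
    have h3 : ‖∫ t : ℝ, (w (t / T) : ℂ) * (XX t * CP Ψ L t ^ 2)‖ ≤
        C * (∑ p ∈ mch_N L, |mch_c Ψ L p|) ^ 2 := by
      simp_rw [hexp]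
      rw [integral_finsetSum _ fun x _ => (hint _).const_mul _]
      refine (norm_sum_le _ _).trans ?_
      have h4 : ∀ x ∈ mch_N L ×ˢ mch_N L, ‖∫ t : ℝ,
          ((mch_c Ψ L x.1 * mch_c Ψ L x.2 : ℝ) : ℂ) * ((w (t / T) : ℂ) * (XX t *
          Complex.exp (-(t * Real.log (mch_r x.1 * mch_r x.2) : ℝ) * Complex.I)))‖ ≤
          C * (|mch_c Ψ L x.1| * |mch_c Ψ L x.2|) := by
        intro x hx
        rw [Finset.mem_product] at hx
        rw [integral_const_mul, norm_mul, Complex.norm_real, Real.norm_eq_abs, abs_mul]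
        by_cases h0 : mch_c Ψ L x.1 = 0 ∨ mch_c Ψ L x.2 = 0
        · rcases h0 with h0 | h0
          · simp [h0]
          · simp [h0]
        · push Not at h0
          have hr : ∀ p ∈ mch_N L, mch_c Ψ L p ≠ 0 → mch_r p ≤ Real.exp ((1 / 2 - ε) * L) := by
            intro p hp hne
            obtain ⟨g1, g2, g3⟩ := mch_mem hp
            have hne' : Ψ (Real.log p.1 / L) (Real.log p.2.1 / L) (Real.log p.2.2 / L) ≠ 0 := by
              intro h
              apply hne
              unfold mch_c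
              rw [h, zero_div]
            have g4 := (hs _ _ _ hne').1
            rw [← add_div, div_le_iff₀ hL] at g4
            have g5 : mch_r p ≤ (p.1 : ℝ) * p.2.1 := by
              unfold mch_r
              exact div_le_self (by positivity) g3
            refine g5.trans ?_
            have g6 : (p.1 : ℝ) * p.2.1 = Real.exp (Real.log p.1 + Real.log p.2.1) := by
              rw [Real.exp_add, Real.exp_log (by positivity), Real.exp_log (by positivity)]
            rw [g6]
            exact Real.exp_le_exp.mpr g4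
          have h5 : mch_r x.1 * mch_r x.2 ≤ T ^ (1 - 2 * ε) := by
            have g1 := hr x.1 hx.1 h0.1
            have g2 := hr x.2 hx.2 h0.2
            have g3 := mch_r_pos hx.1
            have g4 := mch_r_pos hx.2
            calc mch_r x.1 * mch_r x.2 ≤ Real.exp ((1 / 2 - ε) * L) *
                Real.exp ((1 / 2 - ε) * L) := by gcongr
              _ = T ^ (1 - 2 * ε) := by
                rw [← Real.exp_add, Real.rpow_def_of_pos hT0, ← hLdef]
                congr 1
                ring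
          have h6 := hcl T hT _ (mul_pos (mch_r_pos hx.1) (mch_r_pos hx.2)) h5
          calc _ ≤ |mch_c Ψ L x.1| * |mch_c Ψ L x.2| * C := by gcongr
            _ = _ := by ring
      refine (Finset.sum_le_sum h4).trans (le_of_eq ?_)
      rw [← Finset.mul_sum, Finset.sum_product, sq, Finset.sum_mul_sum]
    have h7 := mch_csum hB0 hB (fun x y z h => (hs x y z h).2) hL
    have h8 : 0 ≤ ∑ p ∈ mch_N L, |mch_c Ψ L p| := Finset.sum_nonneg fun p _ => abs_nonneg _
    have hTe : T = Real.exp L := by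
      rw [hLdef, Real.exp_log hT0]
    calc |(1 / T) * (∫ t : ℝ, w (t / T) * (XX t * CP Ψ L t ^ 2).re)|
        = (1 / T) * |(∫ t : ℝ, (w (t / T) : ℂ) * (XX t * CP Ψ L t ^ 2)).re| := by
          rw [abs_mul, abs_of_pos (by positivity : 0 < 1 / T), h1]
      _ ≤ (1 / T) * (C * (∑ p ∈ mch_N L, |mch_c Ψ L p|) ^ 2) := by
          gcongr
          exact (Complex.abs_re_le_norm _).trans h3
      _ ≤ (1 / T) * (C * (B * Real.exp ((1 - ε) / 2 * L) * (1 + L) ^ 3) ^ 2) := by gcongr
      _ = C * B ^ 2 * ((1 + L) ^ 6 * ((1 / T) * Real.exp ((1 - ε) / 2 * L) ^ 2)) := by ring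
      _ = _ := by
        congr 2
        rw [hTe, one_div, ← Real.exp_neg, ← Real.exp_nat_mul, ← Real.exp_add]
        congr 1
        push_cast
        ring
  -- the limit
  have hlim : Tendsto (fun T : ℝ => C * B ^ 2 *
      ((1 + Real.log T) ^ 6 * Real.exp (-(ε * Real.log T)))) atTop (𝓝 0) := by
    have h1 : Tendsto (fun y : ℝ => (1 + y) ^ 6 * Real.exp (-(ε * y))) atTop (𝓝 0) := by
      have h2 : Tendsto (fun y : ℝ => 64 / ε ^ 6 * ((ε * y) ^ 6 * Real.exp (-(ε * y)))) atTop
          (𝓝 (64 / ε ^ 6 * 0)) := by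
        refine Tendsto.const_mul _ ?_
        have h3 := Real.tendsto_pow_mul_exp_neg_atTop_nhds_zero 6
        exact h3.comp (tendsto_id.const_mul_atTop hε)
      rw [mul_zero] at h2
      refine squeeze_zero' (eventually_atTop.mpr ⟨0, fun y hy => by positivity⟩)
        (eventually_atTop.mpr ⟨1, fun y hy => ?_⟩) h2
      have h4 : (1 + y) ^ 6 ≤ (2 * y) ^ 6 := by
        have : 1 + y ≤ 2 * y := by linarith
        gcongr
      calc (1 + y) ^ 6 * Real.exp (-(ε * y)) ≤ (2 * y) ^ 6 * Real.exp (-(ε * y)) := by gcongr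
        _ = _ := by
          field_simp
          ring
    have h5 := (h1.comp Real.tendsto_log_atTop).const_mul (C * B ^ 2)
    rw [mul_zero] at h5
    exact h5
  refine squeeze_zero_norm' (eventually_atTop.mpr ⟨T₀, fun T hT => ?_⟩) hlim
  rw [Real.norm_eq_abs]
  exact hbound T hT

end Pool.Agent.SixT
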