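import Mathlib
import Pool.Agent.Lib_MP_112ba8_t.Defs
import Pool.Agent.Lib_MP_112ba8_e.Lap
import Pool.Agent.Lib_MP_112ba8_s.WeakAbs

/-!
Limit of the sums over `n₀ n₁ n₂ = m₀ m₁ m₂`.
-/

namespace Pool.Agent.SixT

open Filter Topology MeasureTheory
open Pool.Agent.EvenMoment (cl Wgt Sz ker ar lap_tuple lap_pw_tendsto lap_term)
open Pool.Agent.ZetaMoment (pw sg zr FF tm)

namespace S9lim

/-- the correlation sum as a sum over pairs of tuples, two exponent vectors -/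
theorem pairs (k : ℕ) (x y : Fin k → ℝ) :
    ∑' n : ℕ, ENNReal.ofReal (tm x y n) =
      ∑' p : (Fin k → ℕ) × (Fin k → ℕ), (if ∏ i, p.2 i = ∏ i, p.1 i then
        (∏ i, ENNReal.ofReal (pw (x i) (p.1 i))) * (∏ i, ENNReal.ofReal (pw (y i) (p.2 i))) *
          ENNReal.ofReal (1 / ((∏ i, p.1 i : ℕ) : ℝ)) else 0) := by
  have e1 : ∀ n : ℕ, ENNReal.ofReal (tm x y n) =
      ∑' p : (Fin k → ℕ) × (Fin k → ℕ),
        (if ∏ i, p.1 i = n then ∏ i, ENNReal.ofReal (pw (x i) (p.1 i)) else 0) *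
        (if ∏ i, p.2 i = n then ∏ i, ENNReal.ofReal (pw (y i) (p.2 i)) else 0) *
          ENNReal.ofReal (1 / (n : ℝ)) := by
    intro n
    rw [ENNReal.tsum_mul_right, ENNReal.tsum_prod']
    simp only
    simp_rw [ENNReal.tsum_mul_left, lap_tuple k y n]
    rw [ENNReal.tsum_mul_right, lap_tuple k x n]
    unfold tm
    rw [div_eq_mul_one_div, ENNReal.ofReal_mul
      (mul_nonneg (Pool.Agent.ZetaMoment.sg_nonneg _ _) (Pool.Agent.ZetaMoment.sg_nonneg _ _)),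
      ENNReal.ofReal_mul (Pool.Agent.ZetaMoment.sg_nonneg _ _)]
  simp_rw [e1]
  rw [ENNReal.tsum_comm]
  refine tsum_congr fun p => ?_
  rw [tsum_eq_single (∏ i, p.1 i) (fun n hn => by rw [if_neg (Ne.symm hn)]; simp)]
  rw [if_pos rfl]
  split_ifs <;> simp

/-- the observables -/
noncomputable def ob (q : TN) : Fin 6 → ℝ :=
  ![Real.log q.1.1.1, Real.log q.1.1.2.1, Real.log q.1.1.2.2,
    Real.log q.1.2.1, Real.log q.1.2.2.1, Real.log q.1.2.2.2]

/-- the weight -/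
noncomputable def wg (q : TN) : ℝ := 1 / ((q.1.1.1 : ℝ) * q.1.1.2.1 * q.1.1.2.2)

theorem wg_pos (q : TN) : 0 < wg q := by
  unfold wg
  have h1 : (0 : ℝ) < q.1.1.1 := by exact_mod_cast q.1.1.1.pos
  have h2 : (0 : ℝ) < q.1.1.2.1 := by exact_mod_cast q.1.1.2.1.pos
  have h3 : (0 : ℝ) < q.1.1.2.2 := by exact_mod_cast q.1.1.2.2.pos
  positivity

theorem log_nonneg (n : ℕ+) : 0 ≤ Real.log (n : ℝ) :=
  Real.log_nonneg (by exact_mod_cast n.one_le)

theorem ob_nonneg (q : TN) (κ : Fin 6) : 0 ≤ ob q κ := by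
  unfold ob
  fin_cases κ <;> exact log_nonneg _

/-- embedding of `TN` into pairs of tuples -/
def emb (q : TN) : (Fin 3 → ℕ) × (Fin 3 → ℕ) :=
  (![(q.1.1.1 : ℕ), q.1.1.2.1, q.1.1.2.2], ![(q.1.2.1 : ℕ), q.1.2.2.1, q.1.2.2.2])

theorem emb_inj : Function.Injective emb := by
  intro q q' h
  unfold emb at h
  have h1 := congrArg Prod.fst h
  have h2 := congrArg Prod.snd h
  simp only at h1 h2
  have a0 := congrFun h1 0
  have a1 := congrFun h1 1
  have a2 := congrFun h1 2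
  have b0 := congrFun h2 0
  have b1 := congrFun h2 1
  have b2 := congrFun h2 2
  simp only [Matrix.cons_val_zero, Matrix.cons_val_one, Matrix.cons_val] at a0 a1 a2 b0 b1 b2
  apply Subtype.ext
  apply Prod.ext
  · apply Prod.ext
    · exact PNat.coe_injective a0
    · apply Prod.ext
      · exact PNat.coe_injective a1
      · exact PNat.coe_injective a2
  · apply Prod.ext
    · exact PNat.coe_injective b0
    · apply Prod.ext
      · exact PNat.coe_injective b1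
      · exact PNat.coe_injective b2

theorem pw_log (x : ℝ) (n : ℕ+) : pw x (n : ℕ) = Real.exp (-(x * Real.log (n : ℝ))) := by
  have hn : (0 : ℝ) < (n : ℝ) := by exact_mod_cast n.pos
  rw [Pool.Agent.ZetaMoment.pw_apply_of_ne n.pos.ne', Real.rpow_def_of_pos hn]
  congr 1; ring

/-- the Laplace transform, extended nonnegative version -/
theorem lap_enn (x : Fin 6 → ℝ) :
    ∑' n : ℕ, ENNReal.ofReal (tm ![x 0, x 1, x 2] ![x 3, x 4, x 5] n) =
      ∑' q : TN, ENNReal.ofReal (wg q * Real.exp (-∑ κ, x κ * ob q κ)) := by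
  rw [pairs, ← emb_inj.tsum_eq]
  · refine tsum_congr fun q => ?_
    have hq := q.2
    have hc : ∏ i, (emb q).2 i = ∏ i, (emb q).1 i := by
      simp only [emb, Fin.prod_univ_three, Matrix.cons_val_zero, Matrix.cons_val_one,
        Matrix.cons_val]
      exact hq.symm
    rw [if_pos hc, ← ENNReal.ofReal_prod_of_nonneg (fun i _ => Pool.Agent.ZetaMoment.pw_nonneg _ _),
      ← ENNReal.ofReal_prod_of_nonneg (fun i _ => Pool.Agent.ZetaMoment.pw_nonneg _ _),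
      ← ENNReal.ofReal_mul (Finset.prod_nonneg fun i _ => Pool.Agent.ZetaMoment.pw_nonneg _ _),
      ← ENNReal.ofReal_mul (mul_nonneg (Finset.prod_nonneg fun i _ =>
            Pool.Agent.ZetaMoment.pw_nonneg _ _) (Finset.prod_nonneg fun i _ =>
            Pool.Agent.ZetaMoment.pw_nonneg _ _))]
    congr 1
    simp only [emb, Fin.prod_univ_three, Matrix.cons_val_zero, Matrix.cons_val_one,
      Matrix.cons_val, pw_log, ob, wg, Fin.sum_univ_six]
    push_cast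
    rw [mul_comm (1 / _)]
    congr 1
    rw [← Real.exp_add, ← Real.exp_add, ← Real.exp_add, ← Real.exp_add, ← Real.exp_add]
    congr 1
    ring
  · intro p hp
    rw [Function.mem_support] at hp
    have hc : ∏ i, p.2 i = ∏ i, p.1 i := by
      by_contra h
      exact hp (if_neg h)
    rw [if_pos hc] at hp
    have hp1 := left_ne_zero_of_mul hp
    have hp2 := left_ne_zero_of_mul hp1
    have hp3 := right_ne_zero_of_mul hp1
    have h1 : ∀ i, p.1 i ≠ 0 := by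
      intro i hi
      apply hp2
      apply Finset.prod_eq_zero (Finset.mem_univ i)
      rw [hi]; simp
    have h2 : ∀ i, p.2 i ≠ 0 := by
      intro i hi
      apply hp3
      apply Finset.prod_eq_zero (Finset.mem_univ i)
      rw [hi]; simp
    simp only [Fin.prod_univ_three] at hc
    refine ⟨⟨((⟨p.1 0, Nat.pos_of_ne_zero (h1 0)⟩, ⟨p.1 1, Nat.pos_of_ne_zero (h1 1)⟩,
      ⟨p.1 2, Nat.pos_of_ne_zero (h1 2)⟩), (⟨p.2 0, Nat.pos_of_ne_zero (h2 0)⟩,
      ⟨p.2 1, Nat.pos_of_ne_zero (h2 1)⟩, ⟨p.2 2, Nat.pos_of_ne_zero (h2 2)⟩)), ?_⟩, ?_⟩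
    · simp only [PNat.mk_coe]
      exact hc.symm
    · unfold emb
      simp only [PNat.mk_coe]
      apply Prod.ext
      · funext i
        fin_cases i <;> rfl
      · funext i
        fin_cases i <;> rfl

/-- the Laplace transform -/
theorem lap_real {x : Fin 6 → ℝ} (hx : ∀ κ, 0 < x κ) :
    (Summable fun q : TN => wg q * Real.exp (-∑ κ, x κ * ob q κ)) ∧
      FF ![x 0, x 1, x 2] ![x 3, x 4, x 5] =
        ∑' q : TN, wg q * Real.exp (-∑ κ, x κ * ob q κ) := by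
  have hX : ∀ i, 0 ≤ (![x 0, x 1, x 2] : Fin 3 → ℝ) i := by
    intro i; fin_cases i <;> exact (hx _).le
  have hY : ∀ i, 0 ≤ (![x 3, x 4, x 5] : Fin 3 → ℝ) i := by
    intro i; fin_cases i <;> exact (hx _).le
  have hXY : ∀ i j, 0 < (![x 0, x 1, x 2] : Fin 3 → ℝ) i + (![x 3, x 4, x 5] : Fin 3 → ℝ) j := by
    intro i j; fin_cases i <;> fin_cases j <;> exact add_pos (hx _) (hx _)
  have hs := Pool.Agent.ZetaMoment.tm_summable hX hY hXY
  have hnn := Pool.Agent.ZetaMoment.tm_nonneg (![x 0, x 1, x 2] : Fin 3 → ℝ) ![x 3, x 4, x 5]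
  have h1 := lap_enn x
  have hw : ∀ q : TN, 0 ≤ wg q * Real.exp (-∑ κ, x κ * ob q κ) := fun q =>
    mul_nonneg (wg_pos q).le (Real.exp_pos _).le
  rw [← ENNReal.ofReal_tsum_of_nonneg hnn hs] at h1
  have hfin : ∑' q : TN, ENNReal.ofReal (wg q * Real.exp (-∑ κ, x κ * ob q κ)) ≠ ⊤ := by
    rw [← h1]; exact ENNReal.ofReal_ne_top
  have hsum : Summable fun q : TN => wg q * Real.exp (-∑ κ, x κ * ob q κ) := by
    refine (ENNReal.summable_toReal hfin).congr fun q => ?_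
    rw [ENNReal.toReal_ofReal (hw q)]
  refine ⟨hsum, ?_⟩
  rw [← ENNReal.ofReal_tsum_of_nonneg hw hsum] at h1
  exact (ENNReal.ofReal_eq_ofReal_iff (tsum_nonneg hnn) (tsum_nonneg hw)).1 h1

theorem FF_lim {x y : Fin 3 → ℝ} (hx : ∀ i, 0 < x i) (hy : ∀ i, 0 < y i) :
    Tendsto (fun L : ℝ => FF (fun i => x i / L) (fun i => y i / L) / L ^ 9) atTop
      (𝓝 (ar 3 * ∏ q : Fin 3 × Fin 3, (x q.1 + y q.2)⁻¹)) := by
  have hg1 : ∀ᶠ L : ℝ in atTop, ∀ i, Pool.Agent.ZetaMoment.Good (pw (x i / L)) := by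
    filter_upwards [eventually_gt_atTop (0 : ℝ)] with L hL i
    exact Pool.Agent.ZetaMoment.pw_good (div_nonneg (hx i).le hL.le)
  have hg2 : ∀ᶠ L : ℝ in atTop, ∀ i, Pool.Agent.ZetaMoment.Good (pw (y i / L)) := by
    filter_upwards [eventually_gt_atTop (0 : ℝ)] with L hL i
    exact Pool.Agent.ZetaMoment.pw_good (div_nonneg (hy i).le hL.le)
  have h := Pool.Agent.ZetaMoment.FG_tendsto (ι := Fin 3) (f := fun L i => pw (x i / L))
    (g := fun L i => pw (y i / L)) (ℓ := fun i j => -Real.log (x i + y j)) hg1 hg2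
    (fun i n => lap_pw_tendsto (x i) n) (fun i n => lap_pw_tendsto (y i) n) ?_ ?_
  · rw [Fintype.card_fin] at h
    have e : Real.exp (∑ q : Fin 3 × Fin 3, -Real.log (x q.1 + y q.2)) =
        ∏ q : Fin 3 × Fin 3, (x q.1 + y q.2)⁻¹ := by
      rw [Real.exp_sum]
      refine Finset.prod_congr rfl fun q _ => ?_
      rw [Real.exp_neg, Real.exp_log (add_pos (hx _) (hy _))]
    rw [e] at h
    exact h
  · filter_upwards [eventually_gt_atTop (0 : ℝ)] with L hL i j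
    simp only [lap_term]
    exact Pool.Agent.ZetaMoment.Ps_summable
      (add_pos (div_pos (hx i) hL) (div_pos (hy j) hL))
  · intro i j
    simp only [lap_term]
    have := Pool.Agent.ZetaMoment.Ps_tendsto (add_pos (hx i) (hy j))
    rw [sub_eq_add_neg] at this
    refine this.congr fun L => ?_
    unfold Pool.Agent.ZetaMoment.Ps
    simp only [add_div]

/-- value of the Laplace transform of the limit measure -/
noncomputable def PP (x : Fin 6 → ℝ) : ℝ :=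
  ((x 0 + x 3)⁻¹ * ((x 0 + x 4)⁻¹ * (x 0 + x 5)⁻¹)) *
    (((x 1 + x 3)⁻¹ * ((x 1 + x 4)⁻¹ * (x 1 + x 5)⁻¹)) *
      ((x 2 + x 3)⁻¹ * ((x 2 + x 4)⁻¹ * (x 2 + x 5)⁻¹)))

theorem lap_lim {x : Fin 6 → ℝ} (hx : ∀ κ, 0 < x κ) :
    Tendsto (fun L : ℝ => (∑' q : TN, wg q * Real.exp (-∑ κ, x κ / L * ob q κ)) / L ^ (9 : ℝ))
      atTop (𝓝 (ar 3 * PP x)) := by
  have h := FF_lim (x := ![x 0, x 1, x 2]) (y := ![x 3, x 4, x 5])
    (by intro i; fin_cases i <;> exact hx _) (by intro i; fin_cases i <;> exact hx _)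
  have e : ∏ q : Fin 3 × Fin 3, ((![x 0, x 1, x 2] : Fin 3 → ℝ) q.1 +
      (![x 3, x 4, x 5] : Fin 3 → ℝ) q.2)⁻¹ = PP x := by
    rw [Fintype.prod_prod_type]
    simp only [Fin.prod_univ_three, Matrix.cons_val_zero, Matrix.cons_val_one, Matrix.cons_val]
    unfold PP
    ring
  rw [e] at h
  refine h.congr' ?_
  filter_upwards [eventually_gt_atTop (0 : ℝ)] with L hL
  have hr := (lap_real (x := fun κ => x κ / L) (fun κ => div_pos (hx κ) hL)).2
  have h9 : L ^ (9 : ℝ) = L ^ 9 := by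
    rw [← Real.rpow_natCast]; norm_num
  rw [h9, ← hr]
  congr 2
  · funext i; fin_cases i <;> rfl
  · funext i; fin_cases i <;> rfl

theorem one {b : ℝ} (hb : 0 < b) : Integrable (fun t : ℝ => Real.exp (-(b * t))) mu ∧
    ∫ t, Real.exp (-(b * t)) ∂mu = b⁻¹ := by
  have h : (fun t : ℝ => Real.exp (-(b * t))) = fun t : ℝ => Real.exp (-b * t) := by
    funext t; congr 1; ring
  refine ⟨?_, ?_⟩
  · rw [h]
    have := integrableOn_exp_mul_Ioi (a := -b) (by linarith) 0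
    exact this
  · rw [h]
    have := integral_exp_mul_Ioi (a := -b) (by linarith) 0
    unfold mu
    rw [this]
    simp
    
instance : SFinite mu := by unfold mu; infer_instance
instance : SigmaFinite mu := by unfold mu; infer_instance

theorem prod3 {f g h : ℝ → ℝ} (hf : Integrable f mu) (hg : Integrable g mu)
    (hh : Integrable h mu) :
    Integrable (fun p : ℝ × ℝ × ℝ => f p.1 * (g p.2.1 * h p.2.2)) mu3 ∧
      ∫ p, f p.1 * (g p.2.1 * h p.2.2) ∂mu3 =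
        (∫ t, f t ∂mu) * ((∫ t, g t ∂mu) * ∫ t, h t ∂mu) := by
  unfold mu3
  refine ⟨hf.mul_prod (hg.mul_prod hh), ?_⟩
  rw [integral_prod_mul (μ := mu) (ν := mu.prod mu) f (fun p : ℝ × ℝ => g p.1 * h p.2),
    integral_prod_mul (μ := mu) (ν := mu) g h]

instance : SFinite mu3 := by unfold mu3; infer_instance

theorem prod9 {f g h : ℝ × ℝ × ℝ → ℝ} (hf : Integrable f mu3) (hg : Integrable g mu3)
    (hh : Integrable h mu3) :
    Integrable (fun p : (ℝ × ℝ × ℝ) × (ℝ × ℝ × ℝ) × (ℝ × ℝ × ℝ) => f p.1 * (g p.2.1 * h p.2.2))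
        mu9 ∧
      ∫ p, f p.1 * (g p.2.1 * h p.2.2) ∂mu9 =
        (∫ t, f t ∂mu3) * ((∫ t, g t ∂mu3) * ∫ t, h t ∂mu3) := by
  unfold mu9
  refine ⟨hf.mul_prod (hg.mul_prod hh), ?_⟩
  rw [integral_prod_mul (μ := mu3) (ν := mu3.prod mu3) f (fun p => g p.1 * h p.2),
    integral_prod_mul (μ := mu3) (ν := mu3) g h]

/-- row and column sums -/
noncomputable def sg9 (y : (ℝ × ℝ × ℝ) × (ℝ × ℝ × ℝ) × (ℝ × ℝ × ℝ)) : Fin 6 → ℝ :=
  ![y.1.1 + y.1.2.1 + y.1.2.2, y.2.1.1 + y.2.1.2.1 + y.2.1.2.2,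
    y.2.2.1 + y.2.2.2.1 + y.2.2.2.2, y.1.1 + y.2.1.1 + y.2.2.1,
    y.1.2.1 + y.2.1.2.1 + y.2.2.2.1, y.1.2.2 + y.2.1.2.2 + y.2.2.2.2]

theorem lap_mu9 {x : Fin 6 → ℝ} (hx : ∀ κ, 0 < x κ) :
    Integrable (fun y => Real.exp (-∑ κ, x κ * sg9 y κ)) mu9 ∧
      ∫ y, Real.exp (-∑ κ, x κ * sg9 y κ) ∂mu9 = PP x := by
  have hp : ∀ i j, 0 < x i + x j := fun i j => add_pos (hx i) (hx j)
  have r1 := prod3 (one (hp 0 3)).1 (one (hp 0 4)).1 (one (hp 0 5)).1
  have r2 := prod3 (one (hp 1 3)).1 (one (hp 1 4)).1 (one (hp 1 5)).1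
  have r3 := prod3 (one (hp 2 3)).1 (one (hp 2 4)).1 (one (hp 2 5)).1
  have r := prod9 r1.1 r2.1 r3.1
  have e : (fun y : (ℝ × ℝ × ℝ) × (ℝ × ℝ × ℝ) × (ℝ × ℝ × ℝ) =>
      Real.exp (-∑ κ, x κ * sg9 y κ)) = fun y =>
      (Real.exp (-((x 0 + x 3) * y.1.1)) * (Real.exp (-((x 0 + x 4) * y.1.2.1)) *
        Real.exp (-((x 0 + x 5) * y.1.2.2)))) *
      ((Real.exp (-((x 1 + x 3) * y.2.1.1)) * (Real.exp (-((x 1 + x 4) * y.2.1.2.1)) *
        Real.exp (-((x 1 + x 5) * y.2.1.2.2)))) *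
      (Real.exp (-((x 2 + x 3) * y.2.2.1)) * (Real.exp (-((x 2 + x 4) * y.2.2.2.1)) *
        Real.exp (-((x 2 + x 5) * y.2.2.2.2))))) := by
    funext y
    simp only [← Real.exp_add]
    congr 1
    simp only [sg9, Fin.sum_univ_six, Matrix.cons_val_zero, Matrix.cons_val_one, Matrix.cons_val]
    ring
  rw [e]
  refine ⟨r.1, ?_⟩
  rw [r.2, r1.2, r2.2, r3.2, (one (hp 0 3)).2, (one (hp 0 4)).2, (one (hp 0 5)).2,
    (one (hp 1 3)).2, (one (hp 1 4)).2, (one (hp 1 5)).2, (one (hp 2 3)).2, (one (hp 2 4)).2,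
    (one (hp 2 5)).2]
  rfl

theorem mu3_eq : mu3 = (volume : Measure (ℝ × ℝ × ℝ)).restrict
    (Set.Ioi 0 ×ˢ (Set.Ioi 0 ×ˢ Set.Ioi 0)) := by
  unfold mu3 mu
  rw [Measure.prod_restrict, Measure.prod_restrict]
  rfl

theorem mu9_eq : mu9 = (volume : Measure ((ℝ × ℝ × ℝ) × (ℝ × ℝ × ℝ) × (ℝ × ℝ × ℝ))).restrict
    ((Set.Ioi 0 ×ˢ (Set.Ioi 0 ×ˢ Set.Ioi 0)) ×ˢ ((Set.Ioi 0 ×ˢ (Set.Ioi 0 ×ˢ Set.Ioi 0)) ×ˢ
      (Set.Ioi 0 ×ˢ (Set.Ioi 0 ×ˢ Set.Ioi 0)))) := by
  unfold mu9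
  rw [mu3_eq, Measure.prod_restrict, Measure.prod_restrict]
  rfl

theorem meas3 : MeasurableSet ((Set.Ioi 0 ×ˢ (Set.Ioi 0 ×ˢ Set.Ioi 0) : Set (ℝ × ℝ × ℝ))) :=
  measurableSet_Ioi.prod (measurableSet_Ioi.prod measurableSet_Ioi)

theorem ae9 : ∀ᵐ y ∂mu9, ((0 < y.1.1 ∧ 0 < y.1.2.1 ∧ 0 < y.1.2.2) ∧
    (0 < y.2.1.1 ∧ 0 < y.2.1.2.1 ∧ 0 < y.2.1.2.2) ∧
    (0 < y.2.2.1 ∧ 0 < y.2.2.2.1 ∧ 0 < y.2.2.2.2)) := by
  rw [mu9_eq]
  filter_upwards [ae_restrict_mem (meas3.prod (meas3.prod meas3))] with y hy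
  exact hy

theorem sg9_cont : Continuous sg9 := by
  unfold sg9
  refine continuous_pi fun κ => ?_
  fin_cases κ <;> simp only [Matrix.cons_val_zero, Matrix.cons_val_one, Matrix.cons_val,
    Fin.zero_eta, Fin.mk_one, Fin.reduceFinMk] <;> fun_prop

/-- cut off -/
noncomputable def chi (B s : ℝ) : ℝ := max 0 (min 1 (B - s))

theorem chi_cont (B : ℝ) : Continuous (chi B) := by unfold chi; fun_prop

theorem chi_one {B s : ℝ} (h : s ≤ B - 1) : chi B s = 1 := by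
  unfold chi
  rw [min_eq_left (by linarith)]
  norm_num

theorem chi_zero {B s : ℝ} (h : B ≤ s) : chi B s = 0 := by
  unfold chi
  exact max_eq_left ((min_le_right _ _).trans (by linarith))

theorem ob_sum (q : TN) : ob q 0 + ob q 1 + ob q 2 = ob q 3 + ob q 4 + ob q 5 := by
  have hq := q.2
  have hpos : ∀ n : ℕ+, ((n : ℕ) : ℝ) ≠ 0 := fun n => by exact_mod_cast n.pos.ne'
  simp only [ob, Matrix.cons_val_zero, Matrix.cons_val_one, Matrix.cons_val]
  rw [← Real.log_mul (hpos _) (hpos _), ← Real.log_mul (mul_ne_zero (hpos _) (hpos _)) (hpos _),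
    ← Real.log_mul (hpos _) (hpos _), ← Real.log_mul (mul_ne_zero (hpos _) (hpos _)) (hpos _)]
  congr 1
  exact_mod_cast hq

theorem finite_ob (A : ℝ) : {q : TN | ∀ κ, ob q κ ≤ A}.Finite := by
  refine Set.Finite.of_finite_image (f := emb) ?_ emb_inj.injOn
  refine Set.Finite.subset ((Set.Finite.pi (fun _ : Fin 3 => Set.finite_Iic ⌊Real.exp A⌋₊)).prod
    (Set.Finite.pi (fun _ : Fin 3 => Set.finite_Iic ⌊Real.exp A⌋₊))) ?_
  rintro _ ⟨q, hq, rfl⟩
  have key : ∀ n : ℕ+, Real.log (n : ℝ) ≤ A → (n : ℕ) ≤ ⌊Real.exp A⌋₊ := by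
    intro n hn
    apply Nat.le_floor
    have hpos : (0 : ℝ) < ((n : ℕ) : ℝ) := by exact_mod_cast n.pos
    exact (Real.log_le_iff_le_exp hpos).1 hn
  have h0 := hq 0
  have h1 := hq 1
  have h2 := hq 2
  have h3 := hq 3
  have h4 := hq 4
  have h5 := hq 5
  simp only [ob, Matrix.cons_val_zero, Matrix.cons_val_one, Matrix.cons_val] at h0 h1 h2 h3 h4 h5
  constructor
  · intro i _
    fin_cases i
    · exact key _ h0
    · exact key _ h1
    · exact key _ h2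
  · intro i _
    fin_cases i
    · exact key _ h3
    · exact key _ h4
    · exact key _ h5

/-- value of `G` at the observables -/
noncomputable def gv (G : ℝ → ℝ → ℝ → ℝ → ℝ → ℝ → ℝ) (s : Fin 6 → ℝ) : ℝ :=
  G (s 0) (s 1) (s 2) (s 3) (s 4) (s 5)

theorem S9_eq (G : ℝ → ℝ → ℝ → ℝ → ℝ → ℝ → ℝ) (L : ℝ) :
    S9 G L = ∑' q : TN, wg q * gv G (fun κ => ob q κ / L) := rfl

theorem I9_eq (G : ℝ → ℝ → ℝ → ℝ → ℝ → ℝ → ℝ) : I9 G = ∫ y, gv G (sg9 y) ∂mu9 := rfl

theorem small {G : ℝ → ℝ → ℝ → ℝ → ℝ → ℝ → ℝ} {B : ℝ}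
    (hB : ∀ s₀ s₁ s₂ r₀ r₁ r₂, (B ≤ r₀ ∨ B ≤ r₁ ∨ B ≤ r₂) → G s₀ s₁ s₂ r₀ r₁ r₂ = 0)
    {s : Fin 6 → ℝ} (h0 : ∀ κ, 0 ≤ s κ) (hs : s 0 + s 1 + s 2 = s 3 + s 4 + s 5)
    (hG : gv G s ≠ 0) : ∀ κ, s κ ≤ 3 * max B 0 := by
  have h3 : s 3 < B := by
    by_contra h; push Not at h
    exact hG (hB _ _ _ _ _ _ (Or.inl h))
  have h4 : s 4 < B := by
    by_contra h; push Not at h
    exact hG (hB _ _ _ _ _ _ (Or.inr (Or.inl h)))
  have h5 : s 5 < B := by
    by_contra h; push Not at h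
    exact hG (hB _ _ _ _ _ _ (Or.inr (Or.inr h)))
  have hM := le_max_left B 0
  have hM0 := le_max_right B 0
  have := h0 0
  have := h0 1
  have := h0 2
  intro κ
  fin_cases κ
  · show s 0 ≤ _; linarith
  · show s 1 ≤ _; linarith
  · show s 2 ≤ _; linarith
  · show s 3 ≤ _; linarith
  · show s 4 ≤ _; linarith
  · show s 5 ≤ _; linarith

theorem ob_div_sum (q : TN) (L : ℝ) : ob q 0 / L + ob q 1 / L + ob q 2 / L =
    ob q 3 / L + ob q 4 / L + ob q 5 / L := by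
  rw [← add_div, ← add_div, ob_sum q, add_div, add_div]

theorem crude : ∃ C : ℝ, 0 < C ∧ ∀ L : ℝ, 1 ≤ L →
    ∑' q : TN, wg q * Real.exp (-∑ κ, (1 / 2 : ℝ) / L * ob q κ) ≤ C * L ^ 9 := by
  have h := lap_lim (x := fun _ => (1 / 2 : ℝ)) (fun _ => by norm_num)
  obtain ⟨L0, hL0⟩ := (h.eventually_le_const (lt_add_one _)).exists_forall_of_atTop
  set K := ar 3 * PP (fun _ => (1 / 2 : ℝ)) + 1 with hK
  set L1 := max L0 1 with hL1
  set F : ℝ → ℝ := fun L => ∑' q : TN, wg q * Real.exp (-∑ κ, (1 / 2 : ℝ) / L * ob q κ) with hF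
  have hFnn : ∀ L, 0 ≤ F L := fun L => tsum_nonneg fun q => mul_nonneg (wg_pos q).le (Real.exp_pos _).le
  have hsum : ∀ L : ℝ, 0 < L → Summable fun q : TN =>
      wg q * Real.exp (-∑ κ, (1 / 2 : ℝ) / L * ob q κ) := fun L hL =>
    (lap_real (x := fun _ => (1 / 2 : ℝ) / L) (fun _ => by positivity)).1
  refine ⟨|K| + F L1 + 1, by have := hFnn L1; positivity, ?_⟩
  intro L hL
  have hL0' : 0 < L := by linarith
  have hL9 : 1 ≤ L ^ 9 := one_le_pow₀ hL
  change F L ≤ _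
  by_cases hc : L1 ≤ L
  · have h1 := hL0 L ((le_max_left _ _).trans hc)
    rw [div_le_iff₀ (by positivity)] at h1
    have h9 : L ^ (9 : ℝ) = L ^ 9 := by rw [← Real.rpow_natCast]; norm_num
    rw [h9] at h1
    calc F L ≤ K * L ^ 9 := h1
      _ ≤ (|K| + F L1 + 1) * L ^ 9 := by
        apply mul_le_mul_of_nonneg_right _ (by positivity)
        have := le_abs_self K
        have := hFnn L1
        linarith
  · push Not at hc
    have h2 : F L ≤ F L1 := by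
      refine (hsum L hL0').tsum_le_tsum (fun q => ?_) (hsum L1 (by linarith))
      apply mul_le_mul_of_nonneg_left _ (wg_pos q).le
      apply Real.exp_le_exp.mpr
      apply neg_le_neg
      refine Finset.sum_le_sum fun κ _ => ?_
      apply mul_le_mul_of_nonneg_right _ (ob_nonneg q κ)
      apply div_le_div_of_nonneg_left (by norm_num) hL0' hc.le
    calc F L ≤ F L1 := h2
      _ ≤ (|K| + F L1 + 1) * 1 := by
        have := abs_nonneg K
        linarith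
      _ ≤ (|K| + F L1 + 1) * L ^ 9 := by
        apply mul_le_mul_of_nonneg_left hL9
        have := hFnn L1
        positivity

end S9lim

open S9lim

/-- the support in the discrete sum is finite -/
theorem S9_finite (G : ℝ → ℝ → ℝ → ℝ → ℝ → ℝ → ℝ) (B : ℝ)
    (hB : ∀ s₀ s₁ s₂ r₀ r₁ r₂, (B ≤ r₀ ∨ B ≤ r₁ ∨ B ≤ r₂) → G s₀ s₁ s₂ r₀ r₁ r₂ = 0)
    {L : ℝ} (hL : 0 < L) : {q : TN | G (Real.log q.1.1.1 / L) (Real.log q.1.1.2.1 / L)
      (Real.log q.1.1.2.2 / L) (Real.log q.1.2.1 / L) (Real.log q.1.2.2.1 / L)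
      (Real.log q.1.2.2.2 / L) ≠ 0}.Finite := by
  refine (finite_ob (3 * max B 0 * L)).subset ?_
  intro q hq κ
  have h := small hB (s := fun κ => ob q κ / L) (fun κ => div_nonneg (ob_nonneg q κ) hL.le)
    (ob_div_sum q L) hq κ
  exact (div_le_iff₀ hL).1 h

/-- crude bound with the right power -/
theorem S9_bound (B : ℝ) : ∃ C : ℝ, 0 < C ∧ ∀ L : ℝ, 1 ≤ L →
    ∀ G : ℝ → ℝ → ℝ → ℝ → ℝ → ℝ → ℝ, (∀ s₀ s₁ s₂ r₀ r₁ r₂, |G s₀ s₁ s₂ r₀ r₁ r₂| ≤ 1) →
    (∀ s₀ s₁ s₂ r₀ r₁ r₂, (B ≤ r₀ ∨ B ≤ r₁ ∨ B ≤ r₂) → G s₀ s₁ s₂ r₀ r₁ r₂ = 0) →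
    |S9 G L| ≤ C * L ^ 9 := by
  obtain ⟨C, hC, hc⟩ := crude
  refine ⟨Real.exp (9 * max B 0) * C, by positivity, ?_⟩
  intro L hL G hG1 hB
  have hL0 : 0 < L := by linarith
  have hsum : Summable fun q : TN => wg q * Real.exp (-∑ κ, (1 / 2 : ℝ) / L * ob q κ) :=
    (lap_real (x := fun _ => (1 / 2 : ℝ) / L) (fun _ => by positivity)).1
  have hterm : ∀ q : TN, |wg q * gv G (fun κ => ob q κ / L)| ≤
      Real.exp (9 * max B 0) * (wg q * Real.exp (-∑ κ, (1 / 2 : ℝ) / L * ob q κ)) := by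
    intro q
    rw [abs_mul, abs_of_pos (wg_pos q)]
    by_cases h : gv G (fun κ => ob q κ / L) = 0
    · rw [h, abs_zero, mul_zero]
      have := wg_pos q
      positivity
    · have hs := small hB (s := fun κ => ob q κ / L)
        (fun κ => div_nonneg (ob_nonneg q κ) hL0.le) (ob_div_sum q L) h
      have h1 : (1 : ℝ) ≤ Real.exp (9 * max B 0) *
          Real.exp (-∑ κ, (1 / 2 : ℝ) / L * ob q κ) := by
        rw [← Real.exp_add]
        apply Real.one_le_exp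
        have h2 : ∑ κ : Fin 6, (1 / 2 : ℝ) / L * ob q κ ≤ ∑ _κ : Fin 6, (1 / 2) * (3 * max B 0) := by
          refine Finset.sum_le_sum fun κ _ => ?_
          have := hs κ
          calc (1 / 2 : ℝ) / L * ob q κ = 1 / 2 * (ob q κ / L) := by ring
            _ ≤ _ := by apply mul_le_mul_of_nonneg_left this (by norm_num)
        rw [Finset.sum_const, Finset.card_univ, Fintype.card_fin] at h2
        simp only [nsmul_eq_mul] at h2
        push_cast at h2
        linarith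
      calc wg q * |gv G fun κ => ob q κ / L| ≤ wg q * 1 :=
            mul_le_mul_of_nonneg_left (hG1 _ _ _ _ _ _) (wg_pos q).le
        _ ≤ wg q * (Real.exp (9 * max B 0) * Real.exp (-∑ κ, (1 / 2 : ℝ) / L * ob q κ)) :=
            mul_le_mul_of_nonneg_left h1 (wg_pos q).le
        _ = _ := by ring
  have hs2 := hsum.mul_left (Real.exp (9 * max B 0))
  rw [S9_eq]
  calc |∑' q : TN, wg q * gv G (fun κ => ob q κ / L)|
      ≤ ∑' q : TN, |wg q * gv G (fun κ => ob q κ / L)| := by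
        have := norm_tsum_le_tsum_norm (f := fun q : TN => wg q * gv G (fun κ => ob q κ / L))
          (Summable.of_nonneg_of_le (fun q => norm_nonneg _) (fun q => by
            rw [Real.norm_eq_abs]; exact hterm q) hs2)
        simpa [Real.norm_eq_abs] using this
    _ ≤ ∑' q : TN, Real.exp (9 * max B 0) *
          (wg q * Real.exp (-∑ κ, (1 / 2 : ℝ) / L * ob q κ)) :=
        Summable.tsum_le_tsum hterm
          (Summable.of_nonneg_of_le (fun q => abs_nonneg _) hterm hs2) hs2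
    _ = Real.exp (9 * max B 0) * ∑' q : TN,
          (wg q * Real.exp (-∑ κ, (1 / 2 : ℝ) / L * ob q κ)) := tsum_mul_left
    _ ≤ Real.exp (9 * max B 0) * (C * L ^ 9) :=
        mul_le_mul_of_nonneg_left (hc L hL) (Real.exp_pos _).le
    _ = _ := by ring

theorem S9_tendsto {G : ℝ → ℝ → ℝ → ℝ → ℝ → ℝ → ℝ} (hG : Cont6 G) (B : ℝ)
    (hB : ∀ s₀ s₁ s₂ r₀ r₁ r₂, (B ≤ r₀ ∨ B ≤ r₁ ∨ B ≤ r₂) → G s₀ s₁ s₂ r₀ r₁ r₂ = 0) :
    Tendsto (fun L : ℝ => S9 G L / L ^ 9) atTop (𝓝 (ar 3 * I9 G)) := by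
  set B' := 3 * max B 0 + 1 with hB'
  have hBB : B ≤ B' := by
    have := le_max_left B 0
    have := le_max_right B 0
    linarith
  set H : (Fin 6 → ℝ) → ℝ := fun s => gv G s * (chi B' (s 0) * chi B' (s 1) * chi B' (s 2)) with hH
  have hgc : Continuous (gv G) := by
    have hm : Continuous fun s : Fin 6 → ℝ => (((s 0, s 1, s 2), (s 3, s 4, s 5)) :
        (ℝ × ℝ × ℝ) × (ℝ × ℝ × ℝ)) := by fun_prop
    exact (hG.comp hm)
  have hHc : Continuous H := by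
    have := chi_cont B'
    simp only [hH]
    fun_prop
  have hH0 : ∀ s : Fin 6 → ℝ, (∃ κ, B' ≤ s κ) → H s = 0 := by
    rintro s ⟨κ, hκ⟩
    simp only [hH]
    fin_cases κ
    · rw [chi_zero (s := s 0) hκ]; ring
    · rw [chi_zero (s := s 1) hκ]; ring
    · rw [chi_zero (s := s 2) hκ]; ring
    · have : gv G s = 0 := hB _ _ _ _ _ _ (Or.inl (hBB.trans hκ))
      rw [this, zero_mul]
    · have : gv G s = 0 := hB _ _ _ _ _ _ (Or.inr (Or.inl (hBB.trans hκ)))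
      rw [this, zero_mul]
    · have : gv G s = 0 := hB _ _ _ _ _ _ (Or.inr (Or.inr (hBB.trans hκ)))
      rw [this, zero_mul]
  have hHG : ∀ s : Fin 6 → ℝ, (∀ κ, 0 ≤ s κ) → s 0 + s 1 + s 2 = s 3 + s 4 + s 5 →
      H s = gv G s := by
    intro s h0 hs
    simp only [hH]
    by_cases h : gv G s = 0
    · rw [h, zero_mul]
    · have := small hB h0 hs h
      rw [chi_one (by linarith [this 0]), chi_one (by linarith [this 1]),
        chi_one (by linarith [this 2])]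
      ring
  have key := Pool.Agent.SixthMoment.weak_of_laplace (m := 6) (by norm_num) wg
    (fun q => (wg_pos q).le) ob ob_nonneg mu9 (fun _ => 1) measurable_const
    (Eventually.of_forall fun _ => zero_le_one) sg9 sg9_cont.measurable ?_ (ar 3) 9
    (fun x hx => (lap_real hx).1) (fun x hx => by simpa using (lap_mu9 hx).1)
    (fun x hx => by
      have h1 := lap_lim hx
      have h2 := (lap_mu9 hx).2
      simp only [one_mul]
      rw [h2]
      exact h1) hHc B' hH0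
  · have e1 : (fun L : ℝ => (∑' q : TN, wg q * H (fun κ => ob q κ / L)) / L ^ (9 : ℝ)) =ᶠ[atTop]
        fun L : ℝ => S9 G L / L ^ 9 := by
      filter_upwards [eventually_gt_atTop (0 : ℝ)] with L hL
      have h9 : L ^ (9 : ℝ) = L ^ 9 := by rw [← Real.rpow_natCast]; norm_num
      rw [h9, S9_eq]
      congr 1
      refine tsum_congr fun q => ?_
      rw [hHG _ (fun κ => div_nonneg (ob_nonneg q κ) hL.le) (ob_div_sum q L)]
    have e2 : ∫ y, (1 : ℝ) * H (sg9 y) ∂mu9 = I9 G := by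
      rw [I9_eq]
      refine integral_congr_ae ?_
      filter_upwards [ae9] with y hy
      obtain ⟨⟨a0, a1, a2⟩, ⟨b0, b1, b2⟩, c0, c1, c2⟩ := hy
      simp only [one_mul]
      apply hHG
      · intro κ
        fin_cases κ <;> simp only [sg9, Matrix.cons_val_zero, Matrix.cons_val_one,
          Matrix.cons_val, Fin.zero_eta, Fin.mk_one, Fin.reduceFinMk] <;> positivity
      · simp only [sg9, Matrix.cons_val_zero, Matrix.cons_val_one, Matrix.cons_val]
        ring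
    rw [e2] at key
    exact key.congr' e1
  · filter_upwards [ae9] with y hy
    obtain ⟨⟨a0, a1, a2⟩, ⟨b0, b1, b2⟩, c0, c1, c2⟩ := hy
    intro κ
    fin_cases κ <;> simp only [sg9, Matrix.cons_val_zero, Matrix.cons_val_one,
      Matrix.cons_val, Fin.zero_eta, Fin.mk_one, Fin.reduceFinMk] <;> positivity

end Pool.Agent.SixT
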