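import Mathlib
import Pool.Agent.Lib_MP_112ba8_t.Defs
import Pool.Agent.Lib_MP_112ba8_t.S9lim
import Pool.Agent.Lib_MP_112ba8_e.Diag

/-!
Piece D1 (about 300 lines).

Expand: `‖CP Ψ‖² = ∑ Ψ(h₁,h₂,k) Ψ(h₁',h₂',k') (h₁h₂k h₁'h₂'k')^{-1/2} e^{-it log(P/P')}` with `P = h₁h₂k'`,
`P' = h₁'h₂'k` (logarithms divided by `L = log T` inside `Ψ`).
* `P = P'`: `(1/T)∫ w(t/T) dt = ∫ w`; the sum over the diagonal is exactly
  `S9 G L`, `G s₀ s₁ s₂ r₀ r₁ r₂ = Ψ s₀ s₁ r₂ * Ψ r₀ r₁ s₂` with `n = (h₁,h₂,k')`, `m = (h₁',h₂',k)`: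
  `(h₁h₂k h₁'h₂'k')^{1/2} = n₀n₁n₂`. (The condition `≤ e^L` in `NN` is automatic on the support of `Ψ`,
  where all three arguments are in `(0,1)`.) Then `S9_tendsto`.
* `P ≠ P'`: `P P' = (h₁h₂k)(h₁'h₂'k') ≤ T^{2-2ε}`, so `|log(P/P')| ≥ 1/(2 T^{1-ε})` (if `P < P' ≤ 2P` then
  `P' ≤ √2 T^{1-ε}` and `log(P'/P) ≥ 1/P'`; if `P' > 2P` it is `≥ log 2`);
  `Pool.Agent.EvenMoment.osc_decay` (`Lib_MP_112ba8_e/Diag.lean`) gives `C T · T^{-εA}`; the number of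
  terms is `≤ T^6` and the coefficients are bounded: choose `A` with `εA ≥ 10`.
-/

namespace Pool.Agent.SixT

open Filter Topology MeasureTheory
open Pool.Agent.EvenMoment (cl Wgt Sz ker ar)

private noncomputable def rrc (Ψ : ℝ → ℝ → ℝ → ℝ) (L : ℝ) (p : ℕ × ℕ × ℕ) : ℝ :=
  Ψ (Real.log p.1 / L) (Real.log p.2.1 / L) (Real.log p.2.2 / L) / Real.sqrt (p.1 * p.2.1 * p.2.2)

private noncomputable def rrf (p : ℕ × ℕ × ℕ) : ℝ := Real.log p.2.2 - Real.log p.1 - Real.log p.2.1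

private noncomputable def rrN (L : ℝ) : Finset (ℕ × ℕ × ℕ) := NN L ×ˢ NN L ×ˢ NN L

private lemma rr_CP (Ψ : ℝ → ℝ → ℝ → ℝ) (L t : ℝ) : CP Ψ L t =
    ∑ p ∈ rrN L, (rrc Ψ L p : ℂ) * Complex.exp (t * rrf p * Complex.I) := by
  unfold CP rrN
  rw [Finset.sum_product]
  refine Finset.sum_congr rfl fun a _ => ?_
  rw [Finset.sum_product]
  refine Finset.sum_congr rfl fun b _ => ?_
  refine Finset.sum_congr rfl fun k _ => ?_
  unfold rrc rrf en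
  rw [← Complex.exp_conj, ← Complex.exp_add, ← Complex.exp_add]
  congr 2
  simp only [map_mul, map_neg, Complex.conj_ofReal, Complex.conj_I]
  push_cast
  ring

private lemma rr_sq (Ψ : ℝ → ℝ → ℝ → ℝ) (L t : ℝ) : ((‖CP Ψ L t‖ ^ 2 : ℝ) : ℂ) =
    ∑ x ∈ rrN L ×ˢ rrN L, ((rrc Ψ L x.1 * rrc Ψ L x.2 : ℝ) : ℂ) *
      Complex.exp (t * ((rrf x.1 - rrf x.2 : ℝ) : ℂ) * Complex.I) := by
  push_cast
  rw [← Complex.mul_conj', rr_CP, map_sum, Finset.sum_mul_sum, Finset.sum_product]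
  refine Finset.sum_congr rfl fun p _ => ?_
  refine Finset.sum_congr rfl fun q _ => ?_
  rw [map_mul, Complex.conj_ofReal, ← Complex.exp_conj]
  simp only [map_mul, Complex.conj_ofReal, Complex.conj_I]
  have h : Complex.exp (t * ((rrf p : ℂ) - (rrf q : ℂ)) * Complex.I) =
      Complex.exp (t * rrf p * Complex.I) * Complex.exp (t * rrf q * -Complex.I) := by
    rw [← Complex.exp_add]
    congr 1
    ring
  rw [h]
  ring

private lemma rr_expand {w : ℝ → ℝ} (hw : Wgt w) (Ψ : ℝ → ℝ → ℝ → ℝ) {T : ℝ} (hT : 0 < T) (L : ℝ) :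
    ((∫ t : ℝ, w (t / T) * ‖CP Ψ L t‖ ^ 2 : ℝ) : ℂ) =
      ∑ x ∈ rrN L ×ˢ rrN L, ((rrc Ψ L x.1 * rrc Ψ L x.2 : ℝ) : ℂ) *
        ∫ t : ℝ, (w (t / T) : ℂ) *
          Complex.exp (t * ((rrf x.1 - rrf x.2 : ℝ) : ℂ) * Complex.I) := by
  rw [← integral_complex_ofReal]
  have h1 : ∀ t : ℝ, ((w (t / T) * ‖CP Ψ L t‖ ^ 2 : ℝ) : ℂ) =
      ∑ x ∈ rrN L ×ˢ rrN L, ((rrc Ψ L x.1 * rrc Ψ L x.2 : ℝ) : ℂ) *
        ((w (t / T) : ℂ) * Complex.exp (t * ((rrf x.1 - rrf x.2 : ℝ) : ℂ) * Complex.I)) := by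
    intro t
    rw [Complex.ofReal_mul, rr_sq, Finset.mul_sum]
    exact Finset.sum_congr rfl fun p _ => by ring
  simp_rw [h1]
  rw [integral_finsetSum]
  · refine Finset.sum_congr rfl fun p _ => ?_
    rw [integral_const_mul]
  · intro p _
    exact (Pool.Agent.EvenMoment.dg_integrable hw hT (by fun_prop)).const_mul _

private lemma rr_pos {L : ℝ} {n : ℕ} (hn : n ∈ NN L) : 0 < n := by
  unfold NN at hn
  exact (Finset.mem_Icc.1 hn).1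

private lemma rr_memN {L : ℝ} {p : ℕ × ℕ × ℕ} (hp : p ∈ rrN L) : 0 < p.1 ∧ 0 < p.2.1 ∧ 0 < p.2.2 := by
  unfold rrN at hp
  rw [Finset.mem_product, Finset.mem_product] at hp
  exact ⟨rr_pos hp.1, rr_pos hp.2.1, rr_pos hp.2.2⟩

/-- on the support of the coefficient the three numbers are at most `e^L` -/
private lemma rr_supp {Ψ : ℝ → ℝ → ℝ → ℝ} (_hΨ : Tst Ψ) {ε : ℝ} (hε : 0 < ε)
    (hs : ∀ x y z, Ψ x y z ≠ 0 → x + y + z ≤ 1 - ε) {L : ℝ} (hL : 0 < L) {a b k : ℕ} (ha : 0 < a)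
    (hb : 0 < b) (hk : 0 < k) (h : Ψ (Real.log a / L) (Real.log b / L) (Real.log k / L) ≠ 0) :
    a ∈ NN L ∧ b ∈ NN L ∧ k ∈ NN L := by
  have h1 := hs _ _ _ h
  have hx : 0 ≤ Real.log a / L := div_nonneg (Real.log_natCast_nonneg a) hL.le
  have hy : 0 ≤ Real.log b / L := div_nonneg (Real.log_natCast_nonneg b) hL.le
  have hz : 0 ≤ Real.log k / L := div_nonneg (Real.log_natCast_nonneg k) hL.le
  have key : ∀ n : ℕ, 0 < n → Real.log n / L ≤ 1 → n ∈ NN L := by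
    intro n hn hle
    unfold NN
    rw [Finset.mem_Icc]
    refine ⟨hn, Nat.le_floor ?_⟩
    rw [← Real.log_le_iff_le_exp (by exact_mod_cast hn)]
    rwa [div_le_one hL] at hle
  exact ⟨key a ha (by linarith), key b hb (by linarith), key k hk (by linarith)⟩

/-- the diagonal -/
private lemma rr_diag {Ψ : ℝ → ℝ → ℝ → ℝ} (hΨ : Tst Ψ) {ε : ℝ} (hε : 0 < ε)
    (hs : ∀ x y z, Ψ x y z ≠ 0 → x + y + z ≤ 1 - ε) {L : ℝ} (hL : 0 < L) :
    S9 (fun s₀ s₁ s₂ r₀ r₁ r₂ => Ψ s₀ s₁ r₂ * Ψ r₀ r₁ s₂) L =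
      ∑ x ∈ rrN L ×ˢ rrN L, if x.1.1 * x.1.2.1 * x.2.2.2 = x.2.1 * x.2.2.1 * x.1.2.2 then
        rrc Ψ L x.1 * rrc Ψ L x.2 else 0 := by
  classical
  set g : (ℕ × ℕ × ℕ) × (ℕ × ℕ × ℕ) → ℝ := fun x => if x ∈ rrN L ×ˢ rrN L ∧
    x.1.1 * x.1.2.1 * x.2.2.2 = x.2.1 * x.2.2.1 * x.1.2.2 then rrc Ψ L x.1 * rrc Ψ L x.2 else 0
    with hg
  set e : TN → (ℕ × ℕ × ℕ) × (ℕ × ℕ × ℕ) := fun q =>
    (((q.1.1.1 : ℕ), (q.1.1.2.1 : ℕ), (q.1.2.2.2 : ℕ)),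
      ((q.1.2.1 : ℕ), (q.1.2.2.1 : ℕ), (q.1.1.2.2 : ℕ))) with he
  have hinj : Function.Injective e := by
    intro q q' h
    simp only [he, Prod.mk.injEq, PNat.coe_inj] at h
    obtain ⟨⟨h1, h2, h3⟩, h4, h5, h6⟩ := h
    apply Subtype.ext
    apply Prod.ext
    · exact Prod.ext h1 (Prod.ext h2 h6)
    · exact Prod.ext h4 (Prod.ext h5 h3)
  have hsup : Function.support g ⊆ Set.range e := by
    intro x hx
    rw [Function.mem_support] at hx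
    by_cases hc : x ∈ rrN L ×ˢ rrN L ∧ x.1.1 * x.1.2.1 * x.2.2.2 = x.2.1 * x.2.2.1 * x.1.2.2
    · obtain ⟨hm, hd⟩ := hc
      rw [Finset.mem_product] at hm
      obtain ⟨p1, p2, p3⟩ := rr_memN hm.1
      obtain ⟨p4, p5, p6⟩ := rr_memN hm.2
      refine ⟨⟨((⟨x.1.1, p1⟩, ⟨x.1.2.1, p2⟩, ⟨x.2.2.2, p6⟩),
        (⟨x.2.1, p4⟩, ⟨x.2.2.1, p5⟩, ⟨x.1.2.2, p3⟩)), ?_⟩, ?_⟩
      · exact hd
      · simp [he]
    · exact absurd (by simp only [hg]; rw [if_neg hc]) hx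
  have hfin : ∑' x, g x = ∑ x ∈ rrN L ×ˢ rrN L,
      if x.1.1 * x.1.2.1 * x.2.2.2 = x.2.1 * x.2.2.1 * x.1.2.2 then
        rrc Ψ L x.1 * rrc Ψ L x.2 else 0 := by
    rw [tsum_eq_sum (s := rrN L ×ˢ rrN L)]
    · refine Finset.sum_congr rfl fun x hx => ?_
      simp only [hg, hx, true_and]
    · intro x hx
      simp only [hg, hx, false_and, if_false]
  rw [← hfin, ← hinj.tsum_eq hsup]
  unfold S9
  refine tsum_congr fun q => ?_
  obtain ⟨⟨⟨n0, n1, n2⟩, m0, m1, m2⟩, hq⟩ := q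
  simp only at hq
  simp only [hg, he]
  have hn0 : (0:ℝ) < (n0 : ℕ) := by exact_mod_cast n0.pos
  have hn1 : (0:ℝ) < (n1 : ℕ) := by exact_mod_cast n1.pos
  have hn2 : (0:ℝ) < (n2 : ℕ) := by exact_mod_cast n2.pos
  have hm0 : (0:ℝ) < (m0 : ℕ) := by exact_mod_cast m0.pos
  have hm1 : (0:ℝ) < (m1 : ℕ) := by exact_mod_cast m1.pos
  have hm2 : (0:ℝ) < (m2 : ℕ) := by exact_mod_cast m2.pos
  have hqR : ((n0 : ℕ) : ℝ) * (n1 : ℕ) * (n2 : ℕ) = ((m0 : ℕ) : ℝ) * (m1 : ℕ) * (m2 : ℕ) := by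
    exact_mod_cast hq
  by_cases hc : (((n0 : ℕ), (n1 : ℕ), (m2 : ℕ)), ((m0 : ℕ), (m1 : ℕ), (n2 : ℕ))) ∈
      rrN L ×ˢ rrN L
  · rw [if_pos ⟨hc, hq⟩]
    unfold rrc
    simp only
    rw [div_mul_div_comm, ← Real.sqrt_mul (by positivity)]
    have h1 : ((n0 : ℕ) : ℝ) * (n1 : ℕ) * (m2 : ℕ) * (((m0 : ℕ) : ℝ) * (m1 : ℕ) * (n2 : ℕ)) =
        (((n0 : ℕ) : ℝ) * (n1 : ℕ) * (n2 : ℕ)) ^ 2 := by
      rw [sq]
      nth_rewrite 2 [hqR]
      ring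
    rw [h1, Real.sqrt_sq (by positivity)]
    ring
  · rw [if_neg (fun h => hc h.1)]
    rw [mul_eq_zero]
    right
    by_contra hne
    rw [mul_eq_zero, not_or] at hne
    apply hc
    obtain ⟨a1, a2, a3⟩ := rr_supp hΨ hε hs hL n0.pos n1.pos m2.pos hne.1
    obtain ⟨a4, a5, a6⟩ := rr_supp hΨ hε hs hL m0.pos m1.pos n2.pos hne.2
    unfold rrN
    simp only [Finset.mem_product]
    exact ⟨⟨a1, a2, a3⟩, a4, a5, a6⟩

/-- the frequency of an off-diagonal term -/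
private lemma rr_gap {ε : ℝ} {L : ℝ} {p q : ℕ × ℕ × ℕ} (hp : 0 < p.1 ∧ 0 < p.2.1 ∧ 0 < p.2.2)
    (hq : 0 < q.1 ∧ 0 < q.2.1 ∧ 0 < q.2.2)
    (h1 : Real.log p.1 + Real.log p.2.1 + Real.log p.2.2 ≤ (1 - ε) * L)
    (h2 : Real.log q.1 + Real.log q.2.1 + Real.log q.2.2 ≤ (1 - ε) * L)
    (hne : p.1 * p.2.1 * q.2.2 ≠ q.1 * q.2.1 * p.2.2) :
    (1 / 2) * Real.exp (-((1 - ε) * L)) ≤ |rrf p - rrf q| := by
  obtain ⟨p1, p2, p3⟩ := hp
  obtain ⟨q1, q2, q3⟩ := hq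
  set M : ℕ := p.1 * p.2.1 * q.2.2 with hM
  set N : ℕ := q.1 * q.2.1 * p.2.2 with hN
  have hM0 : 0 < M := by positivity
  have hN0 : 0 < N := by positivity
  have hM1 : (1:ℝ) ≤ M := by exact_mod_cast hM0
  have hN1 : (1:ℝ) ≤ N := by exact_mod_cast hN0
  have r1 : (0:ℝ) < p.1 := by exact_mod_cast p1
  have r2 : (0:ℝ) < p.2.1 := by exact_mod_cast p2
  have r3 : (0:ℝ) < p.2.2 := by exact_mod_cast p3
  have r4 : (0:ℝ) < q.1 := by exact_mod_cast q1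
  have r5 : (0:ℝ) < q.2.1 := by exact_mod_cast q2
  have r6 : (0:ℝ) < q.2.2 := by exact_mod_cast q3
  have hlM : Real.log M = Real.log p.1 + Real.log p.2.1 + Real.log q.2.2 := by
    rw [hM]
    push_cast
    rw [Real.log_mul (by positivity) r6.ne', Real.log_mul r1.ne' r2.ne']
  have hlN : Real.log N = Real.log q.1 + Real.log q.2.1 + Real.log p.2.2 := by
    rw [hN]
    push_cast
    rw [Real.log_mul (by positivity) r3.ne', Real.log_mul r4.ne' r5.ne']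
  have hMN : (M:ℝ) * N ≤ Real.exp (2 * ((1 - ε) * L)) := by
    rw [← Real.log_le_iff_le_exp (by positivity), Real.log_mul (by positivity) (by positivity),
      hlM, hlN]
    linarith
  have g1 := Pool.Agent.ZetaMoment.log_gap hM0 hN0 hne
  have g2 := Pool.Agent.ZetaMoment.log_gap hN0 hM0 hne.symm
  rw [abs_sub_comm] at g2
  have hdg : |rrf p - rrf q| = |Real.log M - Real.log N| := by
    rw [hlM, hlN, ← abs_neg]
    unfold rrf
    congr 1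
    ring
  rw [hdg]
  have hexp : Real.exp ((1 - ε) * L) ^ 2 = Real.exp (2 * ((1 - ε) * L)) := by
    rw [← Real.exp_nat_mul]; congr 1
  have hE := Real.exp_pos ((1 - ε) * L)
  have key : ∀ x y : ℝ, 1 ≤ x → x ≤ y → x * y ≤ Real.exp (2 * ((1 - ε) * L)) →
      (1 / 2) * Real.exp (-((1 - ε) * L)) ≤ 1 / (x + 1) := by
    intro x y hx hxy hle
    have h1 : x ≤ Real.exp ((1 - ε) * L) := by
      rw [← hexp] at hle
      nlinarith
    rw [Real.exp_neg, ← one_div, div_mul_div_comm, one_mul, one_div_le_one_div (by positivity)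
      (by positivity)]
    linarith
  rcases le_total (M:ℝ) N with h | h
  · exact (key M N hM1 h hMN).trans g2
  · exact (key N M hN1 h (by rw [mul_comm]; exact hMN)).trans g1

private lemma rr_bdd {Ψ : ℝ → ℝ → ℝ → ℝ} (hΨ : Tst Ψ) : ∃ M : ℝ, 0 ≤ M ∧ ∀ x y z, |Ψ x y z| ≤ M := by
  obtain ⟨a, b, ha, hab⟩ := hΨ.supp
  have hK : IsCompact (Set.Icc a b ×ˢ Set.Icc a b ×ˢ Set.Icc a b) :=
    isCompact_Icc.prod (isCompact_Icc.prod isCompact_Icc)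
  obtain ⟨M, hM⟩ := hK.exists_bound_of_continuousOn hΨ.smooth.continuous.continuousOn
  refine ⟨max M 0, le_max_right _ _, fun x y z => ?_⟩
  by_cases h : x < a ∨ y < a ∨ z < a ∨ b < x ∨ b < y ∨ b < z
  · rw [hab x y z h, abs_zero]
    exact le_max_right _ _
  · push Not at h
    obtain ⟨h1, h2, h3, h4, h5, h6⟩ := h
    have := hM (x, y, z) ⟨⟨h1, h4⟩, ⟨h2, h5⟩, h3, h6⟩
    exact this.trans (le_max_left _ _)

private lemma rr_card (L : ℝ) (_hL : 0 ≤ L) : ((rrN L ×ˢ rrN L).card : ℝ) ≤ Real.exp (6 * L) := by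
  have h1 : ((NN L).card : ℝ) ≤ Real.exp L := by
    unfold NN
    rw [Nat.card_Icc, Nat.add_sub_cancel]
    exact Nat.floor_le (Real.exp_pos L).le
  have h2 : (rrN L ×ˢ rrN L).card = (NN L).card ^ 6 := by
    unfold rrN
    rw [Finset.card_product, Finset.card_product, Finset.card_product]
    ring
  rw [h2]
  push_cast
  calc ((NN L).card : ℝ) ^ 6 ≤ Real.exp L ^ 6 := pow_le_pow_left₀ (by positivity) h1 6
    _ = Real.exp (6 * L) := by rw [← Real.exp_nat_mul]; norm_num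

/-- the exact error term -/
private lemma rr_main {w : ℝ → ℝ} (hw : Wgt w) {Ψ : ℝ → ℝ → ℝ → ℝ} (hΨ : Tst Ψ) {ε : ℝ} (hε : 0 < ε)
    (hs : ∀ x y z, Ψ x y z ≠ 0 → x + y + z ≤ 1 - ε) : ∃ K : ℝ, ∀ T : ℝ, Real.exp 1 ≤ T →
    |(1 / T) * (∫ t : ℝ, w (t / T) * ‖CP Ψ (Real.log T) t‖ ^ 2) -
      (∫ x, w x) * S9 (fun s₀ s₁ s₂ r₀ r₁ r₂ => Ψ s₀ s₁ r₂ * Ψ r₀ r₁ s₂) (Real.log T)| ≤ K / T := by
  classical
  obtain ⟨A, hA⟩ := exists_nat_ge (7 / ε)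
  rw [div_le_iff₀ hε] at hA
  obtain ⟨C₂, hC₂, hosc⟩ := Pool.Agent.EvenMoment.osc_decay hw A
  obtain ⟨B, hB0, hB⟩ := rr_bdd hΨ
  refine ⟨B ^ 2 * (C₂ * 2 ^ A), fun T hTe => ?_⟩
  have hT : 0 < T := (Real.exp_pos 1).trans_le hTe
  set L := Real.log T with hL
  have hL1 : 1 ≤ L := by rw [hL, Real.le_log_iff_exp_le hT]; exact hTe
  have hL0 : 0 < L := by linarith
  have hTL : T = Real.exp L := (Real.exp_log hT).symm
  set S := rrN L ×ˢ rrN L with hS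
  set J : (ℕ × ℕ × ℕ) × (ℕ × ℕ × ℕ) → ℂ := fun x => ∫ t : ℝ, (w (t / T) : ℂ) *
    Complex.exp (t * ((rrf x.1 - rrf x.2 : ℝ) : ℂ) * Complex.I) with hJ
  -- coefficient bounds
  have hc : ∀ p ∈ rrN L, |rrc Ψ L p| ≤ B := by
    intro p hp
    obtain ⟨p1, p2, p3⟩ := rr_memN hp
    unfold rrc
    rw [abs_div, abs_of_nonneg (Real.sqrt_nonneg _)]
    have h1 : (1:ℝ) ≤ Real.sqrt (p.1 * p.2.1 * p.2.2) := by
      rw [Real.one_le_sqrt]
      have : 0 < p.1 * p.2.1 * p.2.2 := by positivity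
      exact_mod_cast this
    exact (div_le_self (abs_nonneg _) h1).trans (hB _ _ _)
  have hcs : ∀ p ∈ rrN L, rrc Ψ L p ≠ 0 →
      Real.log p.1 + Real.log p.2.1 + Real.log p.2.2 ≤ (1 - ε) * L := by
    intro p _ h0
    have h1 : Ψ (Real.log p.1 / L) (Real.log p.2.1 / L) (Real.log p.2.2 / L) ≠ 0 := by
      intro h2
      apply h0
      unfold rrc
      rw [h2, zero_div]
    have h3 := hs _ _ _ h1
    rw [← add_div, ← add_div, div_le_iff₀ hL0] at h3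
    exact h3
  -- diagonal integrals
  have hJd : ∀ x ∈ S, x.1.1 * x.1.2.1 * x.2.2.2 = x.2.1 * x.2.2.1 * x.1.2.2 →
      J x = T * ((∫ x, w x : ℝ) : ℂ) := by
    intro x hx he
    rw [hS, Finset.mem_product] at hx
    obtain ⟨p1, p2, p3⟩ := rr_memN hx.1
    obtain ⟨q1, q2, q3⟩ := rr_memN hx.2
    have hu : rrf x.1 - rrf x.2 = 0 := by
      have heR : ((x.1.1 : ℝ)) * x.1.2.1 * x.2.2.2 = x.2.1 * x.2.2.1 * x.1.2.2 := by
        exact_mod_cast he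
      have r1 : ((x.1.1 : ℝ)) ≠ 0 := by exact_mod_cast p1.ne'
      have r2 : ((x.1.2.1 : ℝ)) ≠ 0 := by exact_mod_cast p2.ne'
      have r3 : ((x.1.2.2 : ℝ)) ≠ 0 := by exact_mod_cast p3.ne'
      have r4 : ((x.2.1 : ℝ)) ≠ 0 := by exact_mod_cast q1.ne'
      have r5 : ((x.2.2.1 : ℝ)) ≠ 0 := by exact_mod_cast q2.ne'
      have r6 : ((x.2.2.2 : ℝ)) ≠ 0 := by exact_mod_cast q3.ne'
      have h1 := congrArg Real.log heR
      rw [Real.log_mul (mul_ne_zero r1 r2) r6, Real.log_mul r1 r2,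
        Real.log_mul (mul_ne_zero r4 r5) r3, Real.log_mul r4 r5] at h1
      unfold rrf
      linarith
    simp only [hJ, hu, Complex.ofReal_zero, mul_zero, zero_mul, Complex.exp_zero, mul_one]
    have h1 := Measure.integral_comp_div (fun x : ℝ => (w x : ℂ)) T
    rw [h1, abs_of_pos hT, Complex.real_smul, integral_complex_ofReal]
  -- off diagonal integrals
  have hJo : ∀ x ∈ S, x.1.1 * x.1.2.1 * x.2.2.2 ≠ x.2.1 * x.2.2.1 * x.1.2.2 →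
      ‖((rrc Ψ L x.1 * rrc Ψ L x.2 : ℝ) : ℂ) * J x‖ ≤
        B ^ 2 * (T * (C₂ * 2 ^ A * Real.exp (-(7 * L)))) := by
    intro x hx hne
    rw [hS, Finset.mem_product] at hx
    by_cases hz : rrc Ψ L x.1 * rrc Ψ L x.2 = 0
    · rw [hz]
      simp only [Complex.ofReal_zero, zero_mul, norm_zero]
      positivity
    rw [mul_eq_zero, not_or] at hz
    have hg := rr_gap (rr_memN hx.1) (rr_memN hx.2) (hcs _ hx.1 hz.1) (hcs _ hx.2 hz.2) hne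
    have hu0 : 0 < |rrf x.1 - rrf x.2| := lt_of_lt_of_le (by positivity) hg
    have hu : rrf x.1 - rrf x.2 ≠ 0 := abs_pos.mp hu0
    have hJ1 := hosc T hT (rrf x.1 - rrf x.2) hu
    have h1 : (1 / 2) * Real.exp (ε * L) ≤ T * |rrf x.1 - rrf x.2| := by
      calc (1 / 2) * Real.exp (ε * L) = T * ((1 / 2) * Real.exp (-((1 - ε) * L))) := by
            rw [hTL, mul_left_comm, ← Real.exp_add]
            congr 2
            ring
        _ ≤ T * |rrf x.1 - rrf x.2| := mul_le_mul_of_nonneg_left hg hT.le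
    have h2 : (T * |rrf x.1 - rrf x.2|)⁻¹ ≤ 2 * Real.exp (-(ε * L)) := by
      calc (T * |rrf x.1 - rrf x.2|)⁻¹ ≤ ((1 / 2) * Real.exp (ε * L))⁻¹ :=
            inv_anti₀ (by positivity) h1
        _ = 2 * Real.exp (-(ε * L)) := by
            rw [mul_inv, Real.exp_neg]; norm_num
    have h3 : (T * |rrf x.1 - rrf x.2|)⁻¹ ^ A ≤ 2 ^ A * Real.exp (-(7 * L)) := by
      calc (T * |rrf x.1 - rrf x.2|)⁻¹ ^ A ≤ (2 * Real.exp (-(ε * L))) ^ A :=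
            pow_le_pow_left₀ (by positivity) h2 A
        _ = 2 ^ A * Real.exp (A * (-(ε * L))) := by rw [mul_pow, ← Real.exp_nat_mul]
        _ ≤ 2 ^ A * Real.exp (-(7 * L)) := by
            apply mul_le_mul_of_nonneg_left _ (by positivity)
            apply Real.exp_le_exp.mpr
            nlinarith
    rw [norm_mul, Complex.norm_real, Real.norm_eq_abs, abs_mul]
    have h4 : |rrc Ψ L x.1| * |rrc Ψ L x.2| ≤ B ^ 2 := by
      rw [sq]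
      exact mul_le_mul (hc _ hx.1) (hc _ hx.2) (abs_nonneg _) hB0
    have h5 : ‖J x‖ ≤ T * (C₂ * 2 ^ A * Real.exp (-(7 * L))) := by
      calc ‖J x‖ ≤ C₂ * T * (T * |rrf x.1 - rrf x.2|)⁻¹ ^ A := hJ1
        _ ≤ C₂ * T * (2 ^ A * Real.exp (-(7 * L))) := by
            apply mul_le_mul_of_nonneg_left h3 (by positivity)
        _ = _ := by ring
    exact mul_le_mul h4 h5 (norm_nonneg _) (by positivity)
  have hT' : (T : ℂ) ≠ 0 := by exact_mod_cast hT.ne'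
  have hid : (((1 / T) * (∫ t : ℝ, w (t / T) * ‖CP Ψ L t‖ ^ 2) -
      (∫ x, w x) * S9 (fun s₀ s₁ s₂ r₀ r₁ r₂ => Ψ s₀ s₁ r₂ * Ψ r₀ r₁ s₂) L : ℝ) : ℂ) =
      (1 / T) * ∑ x ∈ S, (if x.1.1 * x.1.2.1 * x.2.2.2 = x.2.1 * x.2.2.1 * x.1.2.2 then 0 else
        ((rrc Ψ L x.1 * rrc Ψ L x.2 : ℝ) : ℂ) * J x) := by
    rw [Complex.ofReal_sub, Complex.ofReal_mul, rr_expand hw Ψ hT L, rr_diag hΨ hε hs hL0]
    rw [Complex.ofReal_mul, Complex.ofReal_sum, Finset.mul_sum, Finset.mul_sum, Finset.mul_sum,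
      ← Finset.sum_sub_distrib]
    refine Finset.sum_congr rfl fun x hx => ?_
    by_cases he : x.1.1 * x.1.2.1 * x.2.2.2 = x.2.1 * x.2.2.1 * x.1.2.2
    · rw [if_pos he, if_pos he]
      have := hJd x hx he
      simp only [hJ] at this
      rw [this]
      push_cast
      field_simp
      ring
    · rw [if_neg he, if_neg he]
      simp [hJ]
  rw [← Real.norm_eq_abs, ← Complex.norm_real, hid, norm_mul]
  have hTn : ‖(1 / T : ℂ)‖ = 1 / T := by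
    rw [norm_div, norm_one, Complex.norm_real, Real.norm_of_nonneg hT.le]
  rw [hTn]
  have hsum : ‖∑ x ∈ S, (if x.1.1 * x.1.2.1 * x.2.2.2 = x.2.1 * x.2.2.1 * x.1.2.2 then 0 else
      ((rrc Ψ L x.1 * rrc Ψ L x.2 : ℝ) : ℂ) * J x)‖ ≤ (S.card : ℝ) *
        (B ^ 2 * (T * (C₂ * 2 ^ A * Real.exp (-(7 * L))))) := by
    rw [← nsmul_eq_mul, ← Finset.sum_const]
    refine (norm_sum_le _ _).trans (Finset.sum_le_sum fun x hx => ?_)
    by_cases he : x.1.1 * x.1.2.1 * x.2.2.2 = x.2.1 * x.2.2.1 * x.1.2.2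
    · rw [if_pos he, norm_zero]; positivity
    · rw [if_neg he]
      exact hJo x hx he
  calc 1 / T * ‖∑ x ∈ S, (if x.1.1 * x.1.2.1 * x.2.2.2 = x.2.1 * x.2.2.1 * x.1.2.2 then 0 else
      ((rrc Ψ L x.1 * rrc Ψ L x.2 : ℝ) : ℂ) * J x)‖ ≤ 1 / T * ((S.card : ℝ) *
        (B ^ 2 * (T * (C₂ * 2 ^ A * Real.exp (-(7 * L)))))) :=
        mul_le_mul_of_nonneg_left hsum (by positivity)
    _ ≤ 1 / T * (Real.exp (6 * L) *
        (B ^ 2 * (T * (C₂ * 2 ^ A * Real.exp (-(7 * L)))))) := by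
        apply mul_le_mul_of_nonneg_left _ (by positivity)
        exact mul_le_mul_of_nonneg_right (rr_card L hL0.le) (by positivity)
    _ = B ^ 2 * (C₂ * 2 ^ A) * (Real.exp (6 * L) * Real.exp (-(7 * L))) := by
        field_simp
    _ = B ^ 2 * (C₂ * 2 ^ A) / T := by
        rw [← Real.exp_add, div_eq_mul_inv]
        congr 1
        rw [hTL, ← Real.exp_neg]
        congr 1
        ring

theorem mean_RR {w : ℝ → ℝ} (hw : Wgt w) {Ψ : ℝ → ℝ → ℝ → ℝ} (hΨ : Tst Ψ) {ε : ℝ} (hε : 0 < ε)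
    (hs : ∀ x y z, Ψ x y z ≠ 0 → x + y + z ≤ 1 - ε) :
    Tendsto (fun T : ℝ => (1 / T) * (∫ t : ℝ, w (t / T) * ‖CP Ψ (Real.log T) t‖ ^ 2) /
      Real.log T ^ 9) atTop
      (𝓝 ((∫ x, w x) * (ar 3 * I9 (fun s₀ s₁ s₂ r₀ r₁ r₂ => Ψ s₀ s₁ r₂ * Ψ r₀ r₁ s₂)))) := by
  set G : ℝ → ℝ → ℝ → ℝ → ℝ → ℝ → ℝ := fun s₀ s₁ s₂ r₀ r₁ r₂ => Ψ s₀ s₁ r₂ * Ψ r₀ r₁ s₂ with hG
  obtain ⟨K, hK⟩ := rr_main hw hΨ hε hs
  obtain ⟨a, b, ha, hab⟩ := hΨ.supp
  have hcont := hΨ.smooth.continuous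
  have hG6 : Cont6 G := by
    unfold Cont6
    simp only [hG]
    apply Continuous.mul
    · exact hcont.comp (f := fun p : (ℝ × ℝ × ℝ) × (ℝ × ℝ × ℝ) => (p.1.1, p.1.2.1, p.2.2.2))
        (by fun_prop)
    · exact hcont.comp (f := fun p : (ℝ × ℝ × ℝ) × (ℝ × ℝ × ℝ) => (p.2.1, p.2.2.1, p.1.2.2))
        (by fun_prop)
  have hlim := (S9_tendsto hG6 (b + 1) (by
    intro s₀ s₁ s₂ r₀ r₁ r₂ h
    simp only [hG]
    rcases h with h | h | h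
    · rw [hab r₀ r₁ s₂ (by right; right; right; left; linarith), mul_zero]
    · rw [hab r₀ r₁ s₂ (by right; right; right; right; left; linarith), mul_zero]
    · rw [hab s₀ s₁ r₂ (by right; right; right; right; right; linarith), zero_mul])).comp
    Real.tendsto_log_atTop
  have hlim2 := hlim.const_mul (∫ x, w x)
  have herr : Tendsto (fun T : ℝ => ((1 / T) * (∫ t : ℝ, w (t / T) * ‖CP Ψ (Real.log T) t‖ ^ 2) -
      (∫ x, w x) * S9 G (Real.log T)) / Real.log T ^ 9) atTop (𝓝 0) := by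
    refine squeeze_zero_norm' (a := fun T : ℝ => K / T) ?_ (tendsto_id.const_div_atTop K)
    filter_upwards [eventually_ge_atTop (Real.exp 1)] with T hTe
    have hT : 0 < T := (Real.exp_pos 1).trans_le hTe
    have hL1 : 1 ≤ Real.log T := by rw [Real.le_log_iff_exp_le hT]; exact hTe
    rw [norm_div, Real.norm_eq_abs, Real.norm_of_nonneg (by positivity)]
    exact (div_le_self (abs_nonneg _) (one_le_pow₀ hL1)).trans (hK T hTe)
  have hsum := herr.add hlim2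
  rw [zero_add] at hsum
  refine hsum.congr fun T => ?_
  simp only [Function.comp_apply]
  ring

end Pool.Agent.SixT
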