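import Mathlib
import Pool.Agent.Lib_MP_112ba8_t.S9lim

/-!
Limit of the sums over `n₀ n₁ n₂ = m₀ m₁ m₂` with `(n₀, m₀) = 1`.
-/

namespace Pool.Agent.SixT

open Filter Topology MeasureTheory
open Pool.Agent.EvenMoment (cl Wgt Sz ker ar)
open Pool.Agent.ZetaMoment (pw sg zr FF tm)

namespace S8lim

open S9lim

/-- coprimality of `n₀` and `m₀` -/
def cop (q : TN) : Prop := Nat.Coprime q.1.1.1 q.1.2.1

instance (q : TN) : Decidable (cop q) := by unfold cop; infer_instance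

/-- the weight, zero if `n₀, m₀` are not coprime -/
noncomputable def wc (q : TN) : ℝ := (if Nat.Coprime q.1.1.1 q.1.2.1 then (1 : ℝ) else 0) * wg q

theorem wc_nonneg (q : TN) : 0 ≤ wc q := by
  unfold wc
  split_ifs
  · simpa using (wg_pos q).le
  · simp

theorem wc_le (q : TN) : wc q ≤ wg q := by
  unfold wc
  split_ifs
  · simp
  · simpa using (wg_pos q).le

/-- multiplying `n₀` and `m₀` by `g` -/
def up (g : ℕ+) (q : TN) : TN :=
  ⟨((g * q.1.1.1, q.1.1.2.1, q.1.1.2.2), (g * q.1.2.1, q.1.2.2.1, q.1.2.2.2)), by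
    have hq := q.2
    simp only [PNat.mul_coe]
    calc _ = (g : ℕ) * ((q.1.1.1 : ℕ) * q.1.1.2.1 * q.1.1.2.2) := by ring
      _ = (g : ℕ) * (q.1.2.1 * q.1.2.2.1 * q.1.2.2.2) := by rw [hq]
      _ = _ := by ring⟩

/-- decomposition by the greatest common divisor -/
def Phi (c : ℕ+ × {q : TN // cop q}) : TN := up c.1 c.2.1

theorem Phi_bij : Function.Bijective Phi := by
  constructor
  · rintro ⟨g, q, hq⟩ ⟨g', q', hq'⟩ h
    unfold Phi up at h
    simp only [Subtype.mk.injEq, Prod.mk.injEq] at h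
    obtain ⟨⟨h1, h2, h3⟩, h4, h5, h6⟩ := h
    unfold cop at hq hq'
    have hgg : g = g' := by
      apply PNat.coe_injective
      have e1 : Nat.gcd ((g : ℕ) * q.1.1.1) ((g : ℕ) * q.1.2.1) = g := by
        rw [Nat.gcd_mul_left, hq, mul_one]
      have e2 : Nat.gcd ((g' : ℕ) * q'.1.1.1) ((g' : ℕ) * q'.1.2.1) = g' := by
        rw [Nat.gcd_mul_left, hq', mul_one]
      have h1' : (g : ℕ) * q.1.1.1 = (g' : ℕ) * q'.1.1.1 := by
        rw [← PNat.mul_coe, ← PNat.mul_coe, h1]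
      have h4' : (g : ℕ) * q.1.2.1 = (g' : ℕ) * q'.1.2.1 := by
        rw [← PNat.mul_coe, ← PNat.mul_coe, h4]
      rw [← e1, ← e2, h1', h4']
    subst hgg
    have a1 : q.1.1.1 = q'.1.1.1 := mul_left_cancel h1
    have a4 : q.1.2.1 = q'.1.2.1 := mul_left_cancel h4
    have hqq : q = q' := by
      apply Subtype.ext
      apply Prod.ext
      · exact Prod.ext a1 (Prod.ext h2 h3)
      · exact Prod.ext a4 (Prod.ext h5 h6)
    subst hqq
    rfl
  · intro q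
    have hg : 0 < Nat.gcd (q.1.1.1 : ℕ) q.1.2.1 := Nat.gcd_pos_of_pos_left _ q.1.1.1.pos
    have d1 : 0 < (q.1.1.1 : ℕ) / Nat.gcd (q.1.1.1 : ℕ) q.1.2.1 :=
      Nat.div_pos (Nat.le_of_dvd q.1.1.1.pos (Nat.gcd_dvd_left _ _)) hg
    have d2 : 0 < (q.1.2.1 : ℕ) / Nat.gcd (q.1.1.1 : ℕ) q.1.2.1 :=
      Nat.div_pos (Nat.le_of_dvd q.1.2.1.pos (Nat.gcd_dvd_right _ _)) hg
    have m1 : Nat.gcd (q.1.1.1 : ℕ) q.1.2.1 * ((q.1.1.1 : ℕ) / Nat.gcd (q.1.1.1 : ℕ) q.1.2.1) =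
        q.1.1.1 := Nat.mul_div_cancel' (Nat.gcd_dvd_left _ _)
    have m2 : Nat.gcd (q.1.1.1 : ℕ) q.1.2.1 * ((q.1.2.1 : ℕ) / Nat.gcd (q.1.1.1 : ℕ) q.1.2.1) =
        q.1.2.1 := Nat.mul_div_cancel' (Nat.gcd_dvd_right _ _)
    refine ⟨(⟨Nat.gcd (q.1.1.1 : ℕ) q.1.2.1, hg⟩, ⟨⟨((⟨_, d1⟩, q.1.1.2.1, q.1.1.2.2),
      (⟨_, d2⟩, q.1.2.2.1, q.1.2.2.2)), ?_⟩, ?_⟩), ?_⟩
    · simp only [PNat.mk_coe]
      have hq := q.2
      apply Nat.eq_of_mul_eq_mul_left hg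
      calc _ = (Nat.gcd (q.1.1.1 : ℕ) q.1.2.1 * ((q.1.1.1 : ℕ) / Nat.gcd (q.1.1.1 : ℕ) q.1.2.1)) *
            q.1.1.2.1 * q.1.1.2.2 := by ring
        _ = (Nat.gcd (q.1.1.1 : ℕ) q.1.2.1 * ((q.1.2.1 : ℕ) / Nat.gcd (q.1.1.1 : ℕ) q.1.2.1)) *
            q.1.2.2.1 * q.1.2.2.2 := by rw [m1, m2, hq]
        _ = _ := by ring
    · unfold cop
      simp only [PNat.mk_coe]
      exact Nat.coprime_div_gcd_div_gcd hg
    · unfold Phi up
      apply Subtype.ext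
      simp only
      apply Prod.ext
      · apply Prod.ext
        · apply PNat.coe_injective
          simp only [PNat.mul_coe, PNat.mk_coe]
          exact m1
        · rfl
      · apply Prod.ext
        · apply PNat.coe_injective
          simp only [PNat.mul_coe, PNat.mk_coe]
          exact m2
        · rfl

theorem up_term (x : Fin 6 → ℝ) (g : ℕ+) (q : TN) :
    wg (up g q) * Real.exp (-∑ κ, x κ * ob (up g q) κ) =
      ((g : ℕ) : ℝ) ^ (-(1 + x 0 + x 3)) * (wg q * Real.exp (-∑ κ, x κ * ob q κ)) := by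
  have hpos : ∀ n : ℕ+, (0 : ℝ) < ((n : ℕ) : ℝ) := fun n => by exact_mod_cast n.pos
  have hg := hpos g
  have e1 : wg (up g q) = (((g : ℕ) : ℝ))⁻¹ * wg q := by
    unfold wg up
    simp only [PNat.mul_coe]
    push_cast
    have := hpos q.1.1.1
    have := hpos q.1.1.2.1
    have := hpos q.1.1.2.2
    field_simp
  have e2 : ∑ κ, x κ * ob (up g q) κ = (x 0 + x 3) * Real.log ((g : ℕ) : ℝ) +
      ∑ κ, x κ * ob q κ := by
    simp only [ob, up, Fin.sum_univ_six, Matrix.cons_val_zero, Matrix.cons_val_one,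
      Matrix.cons_val, PNat.mul_coe]
    push_cast
    rw [Real.log_mul hg.ne' (hpos _).ne', Real.log_mul hg.ne' (hpos _).ne']
    ring
  rw [e1, e2, Real.rpow_def_of_pos hg, neg_add, Real.exp_add]
  have e3 : (((g : ℕ) : ℝ))⁻¹ = Real.exp (-Real.log ((g : ℕ) : ℝ)) := by
    rw [Real.exp_neg, Real.exp_log hg]
  have e4 : Real.exp (Real.log ((g : ℕ) : ℝ) * -(1 + x 0 + x 3)) =
      Real.exp (-Real.log ((g : ℕ) : ℝ)) * Real.exp (-((x 0 + x 3) * Real.log ((g : ℕ) : ℝ))) := by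
    rw [← Real.exp_add]; congr 1; ring
  rw [e3, e4]
  ring

theorem lap_enn8 (x : Fin 6 → ℝ) :
    ∑' q : TN, ENNReal.ofReal (wg q * Real.exp (-∑ κ, x κ * ob q κ)) =
      (∑' a : ℕ+, ENNReal.ofReal (((a : ℕ) : ℝ) ^ (-(1 + x 0 + x 3)))) *
        ∑' q : TN, ENNReal.ofReal (wc q * Real.exp (-∑ κ, x κ * ob q κ)) := by
  have e0 : ∑' q : TN, ENNReal.ofReal (wc q * Real.exp (-∑ κ, x κ * ob q κ)) =
      ∑' q : {q : TN // cop q}, ENNReal.ofReal (wg q.1 * Real.exp (-∑ κ, x κ * ob q.1 κ)) := by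
    have := tsum_subtype {q : TN | cop q}
      (fun q : TN => ENNReal.ofReal (wg q * Real.exp (-∑ κ, x κ * ob q κ)))
    refine Eq.trans ?_ this.symm
    refine tsum_congr fun q => ?_
    by_cases h : cop q
    · rw [Set.indicator_of_mem (by exact h)]
      have : wc q = wg q := by unfold wc; rw [if_pos (show Nat.Coprime _ _ from h), one_mul]
      rw [this]
    · rw [Set.indicator_of_notMem (by exact h)]
      have : wc q = 0 := by unfold wc; rw [if_neg (show ¬ Nat.Coprime _ _ from h), zero_mul]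
      rw [this, zero_mul, ENNReal.ofReal_zero]
  rw [e0, ← (Equiv.ofBijective Phi Phi_bij).tsum_eq, ENNReal.tsum_prod']
  rw [← ENNReal.tsum_mul_right]
  refine tsum_congr fun a => ?_
  rw [← ENNReal.tsum_mul_left]
  refine tsum_congr fun q => ?_
  rw [← ENNReal.ofReal_mul (by positivity)]
  congr 1
  exact up_term x a q.1

theorem lap_real8 {x : Fin 6 → ℝ} (hx : ∀ κ, 0 < x κ) :
    (Summable fun q : TN => wc q * Real.exp (-∑ κ, x κ * ob q κ)) ∧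
      ∑' q : TN, wg q * Real.exp (-∑ κ, x κ * ob q κ) =
        zr (1 + x 0 + x 3) * ∑' q : TN, wc q * Real.exp (-∑ κ, x κ * ob q κ) := by
  have hs := (lap_real hx).1
  have hnn : ∀ q : TN, 0 ≤ wg q * Real.exp (-∑ κ, x κ * ob q κ) := fun q =>
    mul_nonneg (wg_pos q).le (Real.exp_pos _).le
  have hnc : ∀ q : TN, 0 ≤ wc q * Real.exp (-∑ κ, x κ * ob q κ) := fun q =>
    mul_nonneg (wc_nonneg q) (Real.exp_pos _).le
  have hsc : Summable fun q : TN => wc q * Real.exp (-∑ κ, x κ * ob q κ) :=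
    Summable.of_nonneg_of_le hnc (fun q => mul_le_mul_of_nonneg_right (wc_le q)
      (Real.exp_pos _).le) hs
  refine ⟨hsc, ?_⟩
  have h1 := lap_enn8 x
  have hz : ∑' a : ℕ+, ENNReal.ofReal (((a : ℕ) : ℝ) ^ (-(1 + x 0 + x 3))) =
      ENNReal.ofReal (zr (1 + x 0 + x 3)) :=
    Pool.Agent.EvenMoment.lap_zr (by linarith [hx 0, hx 3])
  have hzp : 0 < zr (1 + x 0 + x 3) := Pool.Agent.ZetaMoment.zr_pos (by linarith [hx 0, hx 3])
  rw [hz, ← ENNReal.ofReal_tsum_of_nonneg hnn hs, ← ENNReal.ofReal_tsum_of_nonneg hnc hsc,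
    ← ENNReal.ofReal_mul hzp.le] at h1
  exact (ENNReal.ofReal_eq_ofReal_iff (tsum_nonneg hnn)
    (mul_nonneg hzp.le (tsum_nonneg hnc))).1 h1

/-- value of the Laplace transform of the limit measure -/
noncomputable def P8 (x : Fin 6 → ℝ) : ℝ :=
  ((x 0 + x 4)⁻¹ * (x 0 + x 5)⁻¹) *
    (((x 1 + x 3)⁻¹ * ((x 1 + x 4)⁻¹ * (x 1 + x 5)⁻¹)) *
      ((x 2 + x 3)⁻¹ * ((x 2 + x 4)⁻¹ * (x 2 + x 5)⁻¹)))

theorem lap_lim8 {x : Fin 6 → ℝ} (hx : ∀ κ, 0 < x κ) :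
    Tendsto (fun L : ℝ => (∑' q : TN, wc q * Real.exp (-∑ κ, x κ / L * ob q κ)) / L ^ (8 : ℝ))
      atTop (𝓝 (ar 3 * P8 x)) := by
  have h := lap_lim hx
  have h03 : 0 < x 0 + x 3 := add_pos (hx 0) (hx 3)
  have hz := Pool.Agent.ZetaMoment.zr_scale_tendsto h03
  have h2 := h.div hz (inv_ne_zero h03.ne')
  have e : ar 3 * PP x / (x 0 + x 3)⁻¹ = ar 3 * P8 x := by
    unfold PP P8
    field_simp
  rw [e] at h2
  refine h2.congr' ?_
  filter_upwards [eventually_gt_atTop (0 : ℝ)] with L hL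
  have hr := (lap_real8 (x := fun κ => x κ / L) (fun κ => div_pos (hx κ) hL)).2
  have hzp : 0 < zr (1 + (x 0 + x 3) / L) := Pool.Agent.ZetaMoment.zr_pos (by
    have := div_pos h03 hL
    linarith)
  have h9 : L ^ (9 : ℝ) = L ^ (8 : ℝ) * L := by
    have : (9 : ℝ) = 8 + 1 := by norm_num
    rw [this, Real.rpow_add_one hL.ne']
  have h8 : 0 < L ^ (8 : ℝ) := by positivity
  simp only [Pi.div_apply]
  rw [hr, h9]
  have e3 : 1 + x 0 / L + x 3 / L = 1 + (x 0 + x 3) / L := by ring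
  rw [e3]
  set z := zr (1 + (x 0 + x 3) / L) with hzdef
  set A := ∑' q : TN, wc q * Real.exp (-∑ κ, x κ / L * ob q κ) with hA
  have hL' : L ≠ 0 := hL.ne'
  have hz' : z ≠ 0 := hzp.ne'
  have h8' : L ^ (8 : ℝ) ≠ 0 := h8.ne'
  field_simp

instance : SFinite (mu.prod mu) := by infer_instance

theorem prod2 {f g : ℝ → ℝ} (hf : Integrable f mu) (hg : Integrable g mu) :
    Integrable (fun p : ℝ × ℝ => f p.1 * g p.2) (mu.prod mu) ∧
      ∫ p, f p.1 * g p.2 ∂(mu.prod mu) = (∫ t, f t ∂mu) * ∫ t, g t ∂mu :=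
  ⟨hf.mul_prod hg, integral_prod_mul f g⟩

theorem prod8 {f : ℝ × ℝ → ℝ} {g h : ℝ × ℝ × ℝ → ℝ} (hf : Integrable f (mu.prod mu))
    (hg : Integrable g mu3) (hh : Integrable h mu3) :
    Integrable (fun p : (ℝ × ℝ) × (ℝ × ℝ × ℝ) × (ℝ × ℝ × ℝ) => f p.1 * (g p.2.1 * h p.2.2))
        mu8 ∧
      ∫ p, f p.1 * (g p.2.1 * h p.2.2) ∂mu8 =
        (∫ t, f t ∂(mu.prod mu)) * ((∫ t, g t ∂mu3) * ∫ t, h t ∂mu3) := by
  unfold mu8
  refine ⟨hf.mul_prod (hg.mul_prod hh), ?_⟩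
  rw [integral_prod_mul (μ := mu.prod mu) (ν := mu3.prod mu3) f (fun p => g p.1 * h p.2),
    integral_prod_mul (μ := mu3) (ν := mu3) g h]

/-- row and column sums -/
noncomputable def sg8 (y : (ℝ × ℝ) × (ℝ × ℝ × ℝ) × (ℝ × ℝ × ℝ)) : Fin 6 → ℝ :=
  ![y.1.1 + y.1.2, y.2.1.1 + y.2.1.2.1 + y.2.1.2.2,
    y.2.2.1 + y.2.2.2.1 + y.2.2.2.2, y.2.1.1 + y.2.2.1,
    y.1.1 + y.2.1.2.1 + y.2.2.2.1, y.1.2 + y.2.1.2.2 + y.2.2.2.2]

theorem sg8_cont : Continuous sg8 := by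
  unfold sg8
  refine continuous_pi fun κ => ?_
  fin_cases κ <;> simp only [Matrix.cons_val_zero, Matrix.cons_val_one, Matrix.cons_val,
    Fin.zero_eta, Fin.mk_one, Fin.reduceFinMk] <;> fun_prop

theorem lap_mu8 {x : Fin 6 → ℝ} (hx : ∀ κ, 0 < x κ) :
    Integrable (fun y => Real.exp (-∑ κ, x κ * sg8 y κ)) mu8 ∧
      ∫ y, Real.exp (-∑ κ, x κ * sg8 y κ) ∂mu8 = P8 x := by
  have hp : ∀ i j, 0 < x i + x j := fun i j => add_pos (hx i) (hx j)
  have r1 := prod2 (one (hp 0 4)).1 (one (hp 0 5)).1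
  have r2 := prod3 (one (hp 1 3)).1 (one (hp 1 4)).1 (one (hp 1 5)).1
  have r3 := prod3 (one (hp 2 3)).1 (one (hp 2 4)).1 (one (hp 2 5)).1
  have r := prod8 r1.1 r2.1 r3.1
  have e : (fun y : (ℝ × ℝ) × (ℝ × ℝ × ℝ) × (ℝ × ℝ × ℝ) =>
      Real.exp (-∑ κ, x κ * sg8 y κ)) = fun y =>
      (Real.exp (-((x 0 + x 4) * y.1.1)) * Real.exp (-((x 0 + x 5) * y.1.2))) *
      ((Real.exp (-((x 1 + x 3) * y.2.1.1)) * (Real.exp (-((x 1 + x 4) * y.2.1.2.1)) *
        Real.exp (-((x 1 + x 5) * y.2.1.2.2)))) *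
      (Real.exp (-((x 2 + x 3) * y.2.2.1)) * (Real.exp (-((x 2 + x 4) * y.2.2.2.1)) *
        Real.exp (-((x 2 + x 5) * y.2.2.2.2))))) := by
    funext y
    simp only [← Real.exp_add]
    congr 1
    simp only [sg8, Fin.sum_univ_six, Matrix.cons_val_zero, Matrix.cons_val_one, Matrix.cons_val]
    ring
  rw [e]
  refine ⟨r.1, ?_⟩
  rw [r.2, r1.2, r2.2, r3.2, (one (hp 0 4)).2, (one (hp 0 5)).2,
    (one (hp 1 3)).2, (one (hp 1 4)).2, (one (hp 1 5)).2, (one (hp 2 3)).2, (one (hp 2 4)).2,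
    (one (hp 2 5)).2]
  rfl

theorem mu2_eq : mu.prod mu = (volume : Measure (ℝ × ℝ)).restrict (Set.Ioi 0 ×ˢ Set.Ioi 0) := by
  unfold mu
  rw [Measure.prod_restrict]
  rfl

theorem mu8_eq : mu8 = (volume : Measure ((ℝ × ℝ) × (ℝ × ℝ × ℝ) × (ℝ × ℝ × ℝ))).restrict
    ((Set.Ioi 0 ×ˢ Set.Ioi 0) ×ˢ ((Set.Ioi 0 ×ˢ (Set.Ioi 0 ×ˢ Set.Ioi 0)) ×ˢ
      (Set.Ioi 0 ×ˢ (Set.Ioi 0 ×ˢ Set.Ioi 0)))) := by
  unfold mu8
  rw [mu3_eq, mu2_eq, Measure.prod_restrict, Measure.prod_restrict]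
  rfl

theorem ae8 : ∀ᵐ y ∂mu8, ((0 < y.1.1 ∧ 0 < y.1.2) ∧
    (0 < y.2.1.1 ∧ 0 < y.2.1.2.1 ∧ 0 < y.2.1.2.2) ∧
    (0 < y.2.2.1 ∧ 0 < y.2.2.2.1 ∧ 0 < y.2.2.2.2)) := by
  rw [mu8_eq]
  filter_upwards [ae_restrict_mem ((measurableSet_Ioi.prod measurableSet_Ioi).prod
    (meas3.prod meas3))] with y hy
  exact hy

theorem S8_eq (G : ℝ → ℝ → ℝ → ℝ → ℝ → ℝ → ℝ) (L : ℝ) :
    S8 G L = ∑' q : TN, wc q * gv G (fun κ => ob q κ / L) := by
  unfold S8 wc
  refine tsum_congr fun q => ?_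
  exact (mul_assoc (if Nat.Coprime (q.1.1.1 : ℕ) q.1.2.1 then (1 : ℝ) else 0) (wg q)
    (gv G fun κ => ob q κ / L)).symm

theorem I8_eq (G : ℝ → ℝ → ℝ → ℝ → ℝ → ℝ → ℝ) : I8 G = ∫ y, gv G (sg8 y) ∂mu8 := rfl

theorem small8 {G : ℝ → ℝ → ℝ → ℝ → ℝ → ℝ → ℝ} {B : ℝ}
    (hB : ∀ s₀ s₁ s₂ r₀ r₁ r₂, (B ≤ s₁ ∨ B ≤ s₂ ∨ B ≤ r₁ ∨ B ≤ r₂) → G s₀ s₁ s₂ r₀ r₁ r₂ = 0)
    {s : Fin 6 → ℝ} (h0 : s 0 ≤ s 4 + s 5) (h3 : s 3 ≤ s 1 + s 2)
    (hG : gv G s ≠ 0) : ∀ κ, s κ ≤ 2 * max B 0 := by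
  have h1 : s 1 < B := by
    by_contra h; push Not at h
    exact hG (hB _ _ _ _ _ _ (Or.inl h))
  have h2 : s 2 < B := by
    by_contra h; push Not at h
    exact hG (hB _ _ _ _ _ _ (Or.inr (Or.inl h)))
  have h4 : s 4 < B := by
    by_contra h; push Not at h
    exact hG (hB _ _ _ _ _ _ (Or.inr (Or.inr (Or.inl h))))
  have h5 : s 5 < B := by
    by_contra h; push Not at h
    exact hG (hB _ _ _ _ _ _ (Or.inr (Or.inr (Or.inr h))))
  have hM := le_max_left B 0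
  have hM0 := le_max_right B 0
  intro κ
  fin_cases κ
  · show s 0 ≤ _; linarith
  · show s 1 ≤ _; linarith
  · show s 2 ≤ _; linarith
  · show s 3 ≤ _; linarith
  · show s 4 ≤ _; linarith
  · show s 5 ≤ _; linarith

theorem cop_ob {q : TN} (hq : Nat.Coprime q.1.1.1 q.1.2.1) :
    ob q 0 ≤ ob q 4 + ob q 5 ∧ ob q 3 ≤ ob q 1 + ob q 2 := by
  have hpos : ∀ n : ℕ+, (0 : ℝ) < ((n : ℕ) : ℝ) := fun n => by exact_mod_cast n.pos
  have he := q.2
  have d1 : (q.1.1.1 : ℕ) ∣ q.1.2.2.1 * q.1.2.2.2 := by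
    apply hq.dvd_of_dvd_mul_left
    rw [← mul_assoc, ← he, mul_assoc]
    exact Dvd.intro _ rfl
  have d2 : (q.1.2.1 : ℕ) ∣ q.1.1.2.1 * q.1.1.2.2 := by
    apply hq.symm.dvd_of_dvd_mul_left
    rw [← mul_assoc, he, mul_assoc]
    exact Dvd.intro _ rfl
  have l1 := Nat.le_of_dvd (Nat.mul_pos q.1.2.2.1.pos q.1.2.2.2.pos) d1
  have l2 := Nat.le_of_dvd (Nat.mul_pos q.1.1.2.1.pos q.1.1.2.2.pos) d2
  simp only [ob, Matrix.cons_val_zero, Matrix.cons_val_one, Matrix.cons_val]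
  rw [← Real.log_mul (hpos _).ne' (hpos _).ne', ← Real.log_mul (hpos _).ne' (hpos _).ne']
  constructor
  · apply Real.log_le_log (hpos _)
    exact_mod_cast l1
  · apply Real.log_le_log (hpos _)
    exact_mod_cast l2

theorem cop_div {q : TN} (hq : Nat.Coprime q.1.1.1 q.1.2.1) {L : ℝ} (hL : 0 < L) :
    ob q 0 / L ≤ ob q 4 / L + ob q 5 / L ∧ ob q 3 / L ≤ ob q 1 / L + ob q 2 / L := by
  obtain ⟨h1, h2⟩ := cop_ob hq
  rw [← add_div, ← add_div]
  exact ⟨div_le_div_of_nonneg_right h1 hL.le, div_le_div_of_nonneg_right h2 hL.le⟩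

theorem crude8 : ∃ C : ℝ, 0 < C ∧ ∀ L : ℝ, 1 ≤ L →
    ∑' q : TN, wc q * Real.exp (-∑ κ, (1 / 2 : ℝ) / L * ob q κ) ≤ C * L ^ 8 := by
  have h := lap_lim8 (x := fun _ => (1 / 2 : ℝ)) (fun _ => by norm_num)
  obtain ⟨L0, hL0⟩ := (h.eventually_le_const (lt_add_one _)).exists_forall_of_atTop
  set K := ar 3 * P8 (fun _ => (1 / 2 : ℝ)) + 1 with hK
  set L1 := max L0 1 with hL1
  set F : ℝ → ℝ := fun L => ∑' q : TN, wc q * Real.exp (-∑ κ, (1 / 2 : ℝ) / L * ob q κ) with hF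
  have hFnn : ∀ L, 0 ≤ F L := fun L => tsum_nonneg fun q =>
    mul_nonneg (wc_nonneg q) (Real.exp_pos _).le
  have hsum : ∀ L : ℝ, 0 < L → Summable fun q : TN =>
      wc q * Real.exp (-∑ κ, (1 / 2 : ℝ) / L * ob q κ) := fun L hL =>
    (lap_real8 (x := fun _ => (1 / 2 : ℝ) / L) (fun _ => by positivity)).1
  refine ⟨|K| + F L1 + 1, by have := hFnn L1; positivity, ?_⟩
  intro L hL
  have hL0' : 0 < L := by linarith
  have hL9 : 1 ≤ L ^ 8 := one_le_pow₀ hL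
  change F L ≤ _
  by_cases hc : L1 ≤ L
  · have h1 := hL0 L ((le_max_left _ _).trans hc)
    rw [div_le_iff₀ (by positivity)] at h1
    have h9 : L ^ (8 : ℝ) = L ^ 8 := by rw [← Real.rpow_natCast]; norm_num
    rw [h9] at h1
    calc F L ≤ K * L ^ 8 := h1
      _ ≤ (|K| + F L1 + 1) * L ^ 8 := by
        apply mul_le_mul_of_nonneg_right _ (by positivity)
        have := le_abs_self K
        have := hFnn L1
        linarith
  · push Not at hc
    have h2 : F L ≤ F L1 := by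
      refine (hsum L hL0').tsum_le_tsum (fun q => ?_) (hsum L1 (by linarith))
      apply mul_le_mul_of_nonneg_left _ (wc_nonneg q)
      apply Real.exp_le_exp.mpr
      apply neg_le_neg
      refine Finset.sum_le_sum fun κ _ => ?_
      apply mul_le_mul_of_nonneg_right _ (ob_nonneg q κ)
      apply div_le_div_of_nonneg_left (by norm_num) hL0' hc.le
    calc F L ≤ F L1 := h2
      _ ≤ (|K| + F L1 + 1) * 1 := by
        have := abs_nonneg K
        linarith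
      _ ≤ (|K| + F L1 + 1) * L ^ 8 := by
        apply mul_le_mul_of_nonneg_left hL9
        have := hFnn L1
        positivity

end S8lim

open S9lim S8lim

/-- the support in the discrete sum is finite -/
theorem S8_finite (G : ℝ → ℝ → ℝ → ℝ → ℝ → ℝ → ℝ) (B : ℝ)
    (hB : ∀ s₀ s₁ s₂ r₀ r₁ r₂, (B ≤ s₁ ∨ B ≤ s₂ ∨ B ≤ r₁ ∨ B ≤ r₂) → G s₀ s₁ s₂ r₀ r₁ r₂ = 0)
    {L : ℝ} (hL : 0 < L) : {q : TN | Nat.Coprime q.1.1.1 q.1.2.1 ∧ G (Real.log q.1.1.1 / L)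
      (Real.log q.1.1.2.1 / L) (Real.log q.1.1.2.2 / L) (Real.log q.1.2.1 / L)
      (Real.log q.1.2.2.1 / L) (Real.log q.1.2.2.2 / L) ≠ 0}.Finite := by
  refine (finite_ob (2 * max B 0 * L)).subset ?_
  rintro q ⟨hc, hq⟩ κ
  obtain ⟨h1, h2⟩ := cop_div hc hL
  have h := small8 hB (s := fun κ => ob q κ / L) h1 h2 hq κ
  exact (div_le_iff₀ hL).1 h

/-- crude bound with the right power -/
theorem S8_bound (B : ℝ) : ∃ C : ℝ, 0 < C ∧ ∀ L : ℝ, 1 ≤ L →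
    ∀ G : ℝ → ℝ → ℝ → ℝ → ℝ → ℝ → ℝ, (∀ s₀ s₁ s₂ r₀ r₁ r₂, |G s₀ s₁ s₂ r₀ r₁ r₂| ≤ 1) →
    (∀ s₀ s₁ s₂ r₀ r₁ r₂, (B ≤ s₁ ∨ B ≤ s₂ ∨ B ≤ r₁ ∨ B ≤ r₂) → G s₀ s₁ s₂ r₀ r₁ r₂ = 0) →
    |S8 G L| ≤ C * L ^ 8 := by
  obtain ⟨C, hC, hc⟩ := crude8
  refine ⟨Real.exp (6 * max B 0) * C, by positivity, ?_⟩
  intro L hL G hG1 hB
  have hL0 : 0 < L := by linarith
  have hsum : Summable fun q : TN => wc q * Real.exp (-∑ κ, (1 / 2 : ℝ) / L * ob q κ) :=
    (lap_real8 (x := fun _ => (1 / 2 : ℝ) / L) (fun _ => by positivity)).1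
  have hterm : ∀ q : TN, |wc q * gv G (fun κ => ob q κ / L)| ≤
      Real.exp (6 * max B 0) * (wc q * Real.exp (-∑ κ, (1 / 2 : ℝ) / L * ob q κ)) := by
    intro q
    rw [abs_mul, abs_of_nonneg (wc_nonneg q)]
    have hw0 := wc_nonneg q
    by_cases h : gv G (fun κ => ob q κ / L) = 0
    · rw [h, abs_zero, mul_zero]
      positivity
    · by_cases hcq : Nat.Coprime q.1.1.1 q.1.2.1
      · obtain ⟨g1, g2⟩ := cop_div hcq hL0
        have hs := small8 hB (s := fun κ => ob q κ / L) g1 g2 h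
        have h1 : (1 : ℝ) ≤ Real.exp (6 * max B 0) *
            Real.exp (-∑ κ, (1 / 2 : ℝ) / L * ob q κ) := by
          rw [← Real.exp_add]
          apply Real.one_le_exp
          have h2 : ∑ κ : Fin 6, (1 / 2 : ℝ) / L * ob q κ ≤
              ∑ _κ : Fin 6, (1 / 2) * (2 * max B 0) := by
            refine Finset.sum_le_sum fun κ _ => ?_
            have := hs κ
            calc (1 / 2 : ℝ) / L * ob q κ = 1 / 2 * (ob q κ / L) := by ring
              _ ≤ _ := by apply mul_le_mul_of_nonneg_left this (by norm_num)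
          rw [Finset.sum_const, Finset.card_univ, Fintype.card_fin] at h2
          simp only [nsmul_eq_mul] at h2
          push_cast at h2
          linarith
        calc wc q * |gv G fun κ => ob q κ / L| ≤ wc q * 1 :=
              mul_le_mul_of_nonneg_left (hG1 _ _ _ _ _ _) hw0
          _ ≤ wc q * (Real.exp (6 * max B 0) * Real.exp (-∑ κ, (1 / 2 : ℝ) / L * ob q κ)) :=
              mul_le_mul_of_nonneg_left h1 hw0
          _ = _ := by ring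
      · have : wc q = 0 := by unfold wc; rw [if_neg hcq, zero_mul]
        rw [this]; simp
  have hs2 := hsum.mul_left (Real.exp (6 * max B 0))
  rw [S8_eq]
  calc |∑' q : TN, wc q * gv G (fun κ => ob q κ / L)|
      ≤ ∑' q : TN, |wc q * gv G (fun κ => ob q κ / L)| := by
        have := norm_tsum_le_tsum_norm (f := fun q : TN => wc q * gv G (fun κ => ob q κ / L))
          (Summable.of_nonneg_of_le (fun q => norm_nonneg _) (fun q => by
            rw [Real.norm_eq_abs]; exact hterm q) hs2)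
        simpa [Real.norm_eq_abs] using this
    _ ≤ ∑' q : TN, Real.exp (6 * max B 0) *
          (wc q * Real.exp (-∑ κ, (1 / 2 : ℝ) / L * ob q κ)) :=
        Summable.tsum_le_tsum hterm
          (Summable.of_nonneg_of_le (fun q => abs_nonneg _) hterm hs2) hs2
    _ = Real.exp (6 * max B 0) * ∑' q : TN,
          (wc q * Real.exp (-∑ κ, (1 / 2 : ℝ) / L * ob q κ)) := tsum_mul_left
    _ ≤ Real.exp (6 * max B 0) * (C * L ^ 8) :=
        mul_le_mul_of_nonneg_left (hc L hL) (Real.exp_pos _).le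
    _ = _ := by ring

theorem S8_tendsto {G : ℝ → ℝ → ℝ → ℝ → ℝ → ℝ → ℝ} (hG : Cont6 G) (B : ℝ)
    (hB : ∀ s₀ s₁ s₂ r₀ r₁ r₂, (B ≤ s₁ ∨ B ≤ s₂ ∨ B ≤ r₁ ∨ B ≤ r₂) → G s₀ s₁ s₂ r₀ r₁ r₂ = 0) :
    Tendsto (fun L : ℝ => S8 G L / L ^ 8) atTop (𝓝 (ar 3 * I8 G)) := by
  set B' := 2 * max B 0 + 1 with hB'
  have hBB : B ≤ B' := by
    have := le_max_left B 0
    have := le_max_right B 0
    linarith
  set H : (Fin 6 → ℝ) → ℝ := fun s => gv G s * (chi B' (s 0) * chi B' (s 3)) with hH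
  have hgc : Continuous (gv G) := by
    have hm : Continuous fun s : Fin 6 → ℝ => (((s 0, s 1, s 2), (s 3, s 4, s 5)) :
        (ℝ × ℝ × ℝ) × (ℝ × ℝ × ℝ)) := by fun_prop
    exact (hG.comp hm)
  have hHc : Continuous H := by
    have := chi_cont B'
    simp only [hH]
    fun_prop
  have hH0 : ∀ s : Fin 6 → ℝ, (∃ κ, B' ≤ s κ) → H s = 0 := by
    rintro s ⟨κ, hκ⟩
    simp only [hH]
    fin_cases κ
    · rw [chi_zero (s := s 0) hκ]; ring
    · have : gv G s = 0 := hB _ _ _ _ _ _ (Or.inl (hBB.trans hκ))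
      rw [this, zero_mul]
    · have : gv G s = 0 := hB _ _ _ _ _ _ (Or.inr (Or.inl (hBB.trans hκ)))
      rw [this, zero_mul]
    · rw [chi_zero (s := s 3) hκ]; ring
    · have : gv G s = 0 := hB _ _ _ _ _ _ (Or.inr (Or.inr (Or.inl (hBB.trans hκ))))
      rw [this, zero_mul]
    · have : gv G s = 0 := hB _ _ _ _ _ _ (Or.inr (Or.inr (Or.inr (hBB.trans hκ))))
      rw [this, zero_mul]
  have hHG : ∀ s : Fin 6 → ℝ, s 0 ≤ s 4 + s 5 → s 3 ≤ s 1 + s 2 → H s = gv G s := by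
    intro s h0 hs
    simp only [hH]
    by_cases h : gv G s = 0
    · rw [h, zero_mul]
    · have := small8 hB h0 hs h
      rw [chi_one (by linarith [this 0]), chi_one (by linarith [this 3])]
      ring
  have key := Pool.Agent.SixthMoment.weak_of_laplace (m := 6) (by norm_num) wc
    wc_nonneg ob ob_nonneg mu8 (fun _ => 1) measurable_const
    (Eventually.of_forall fun _ => zero_le_one) sg8 sg8_cont.measurable ?_ (ar 3) 8
    (fun x hx => (lap_real8 hx).1) (fun x hx => by simpa using (lap_mu8 hx).1)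
    (fun x hx => by
      have h1 := lap_lim8 hx
      have h2 := (lap_mu8 hx).2
      simp only [one_mul]
      rw [h2]
      exact h1) hHc B' hH0
  · have e1 : (fun L : ℝ => (∑' q : TN, wc q * H (fun κ => ob q κ / L)) / L ^ (8 : ℝ)) =ᶠ[atTop]
        fun L : ℝ => S8 G L / L ^ 8 := by
      filter_upwards [eventually_gt_atTop (0 : ℝ)] with L hL
      have h9 : L ^ (8 : ℝ) = L ^ 8 := by rw [← Real.rpow_natCast]; norm_num
      rw [h9, S8_eq]
      congr 1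
      refine tsum_congr fun q => ?_
      by_cases hcq : Nat.Coprime q.1.1.1 q.1.2.1
      · obtain ⟨g1, g2⟩ := cop_div hcq hL
        rw [hHG _ g1 g2]
      · have : wc q = 0 := by unfold wc; rw [if_neg hcq, zero_mul]
        rw [this]; simp
    have e2 : ∫ y, (1 : ℝ) * H (sg8 y) ∂mu8 = I8 G := by
      rw [I8_eq]
      refine integral_congr_ae ?_
      filter_upwards [ae8] with y hy
      obtain ⟨⟨a0, a1⟩, ⟨b0, b1, b2⟩, c0, c1, c2⟩ := hy
      simp only [one_mul]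
      apply hHG
      · simp only [sg8, Matrix.cons_val_zero, Matrix.cons_val_one, Matrix.cons_val]
        linarith
      · simp only [sg8, Matrix.cons_val_zero, Matrix.cons_val_one, Matrix.cons_val]
        linarith
    rw [e2] at key
    exact key.congr' e1
  · filter_upwards [ae8] with y hy
    obtain ⟨⟨a0, a1⟩, ⟨b0, b1, b2⟩, c0, c1, c2⟩ := hy
    intro κ
    fin_cases κ <;> simp only [sg8, Matrix.cons_val_zero, Matrix.cons_val_one,
      Matrix.cons_val, Fin.zero_eta, Fin.mk_one, Fin.reduceFinMk] <;> positivity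

end Pool.Agent.SixT
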