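import Pool.Agent.Lib_MP_112ba8_e.Contour

/-!
The double Dirichlet series `Sz` as an integral over the critical line, without a lower bound
for `‖z‖`.
-/

namespace Pool.Agent.T2

open Filter Topology MeasureTheory Set Complex
open Pool.Agent.EvenMoment

lemma ctg_bdry_all : ∃ B : ℝ, 0 < B ∧ ∀ z : ℂ, 0 < z.re → ∀ s : ℂ, 1 / 2 ≤ s.re →
    s.re ≤ 2 → |s.im| ≤ 1 → (s.re = 1 / 2 ∨ s.re = 2 ∨ |s.im| = 1) →
    ‖ctg z s‖ ≤ B * (‖z‖ ^ (-(1 / 2) : ℝ) + ‖z‖ ^ (-2 : ℝ)) := by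
  set S : Set ℂ := (Icc (1 / 2 : ℝ) 2 ×ℂ Icc (-1 : ℝ) 1) \ (Ioo (1 / 2 : ℝ) 2 ×ℂ Ioo (-1 : ℝ) 1)
    with hS
  have hSc : IsCompact S :=
    (isCompact_Icc.reProdIm isCompact_Icc).diff (isOpen_Ioo.reProdIm isOpen_Ioo)
  have hcont : ContinuousOn (fun s : ℂ => Complex.Gamma s * riemannZeta s ^ 2) S := by
    intro s hs
    have h1 := hs.1
    rw [Complex.mem_reProdIm] at h1
    have hne : s ≠ 1 := by
      rintro rfl
      refine hs.2 ?_
      rw [Complex.mem_reProdIm]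
      simp only [Complex.one_re, Complex.one_im, mem_Ioo]
      norm_num
    refine ContinuousAt.continuousWithinAt (ContinuousAt.mul ?_ ?_)
    · refine (Complex.differentiableAt_Gamma s fun m h => ?_).continuousAt
      have := congrArg Complex.re h
      simp at this
      have h3 : (0 : ℝ) ≤ m := Nat.cast_nonneg m
      have h4 := h1.1.1
      linarith
    · exact (differentiableAt_riemannZeta hne).continuousAt.pow 2
  obtain ⟨B, hB⟩ := hSc.exists_bound_of_continuousOn hcont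
  refine ⟨(|B| + 1) * Real.exp (Real.pi / 2), by positivity, fun z hz s h1 h2 h3 h4 => ?_⟩
  have hz0 : z ≠ 0 := by rintro rfl; simp at hz
  have harg : |Complex.arg z| < Real.pi / 2 := Complex.abs_arg_lt_pi_div_two_iff.mpr (Or.inl hz)
  have hs : s ∈ S := by
    refine ⟨?_, ?_⟩
    · rw [Complex.mem_reProdIm]; exact ⟨⟨h1, h2⟩, abs_le.mp h3⟩
    · rw [Complex.mem_reProdIm]
      rintro ⟨⟨a1, a2⟩, a3⟩
      have a3' : |s.im| < 1 := abs_lt.mpr a3
      rcases h4 with h | h | h <;> linarith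
  have hb := hB s hs
  unfold ctg
  rw [norm_mul, ct_cpow_norm hz0]
  have hzn0 : 0 < ‖z‖ := norm_pos_iff.mpr hz0
  have e1 : ‖z‖ ^ (-s.re) ≤ ‖z‖ ^ (-(1 / 2) : ℝ) + ‖z‖ ^ (-2 : ℝ) := by
    rcases le_total 1 ‖z‖ with hz1 | hz1
    · have := Real.rpow_le_rpow_of_exponent_le hz1 (show -s.re ≤ -(1 / 2) by linarith)
      have h9 : 0 ≤ ‖z‖ ^ (-2 : ℝ) := by positivity
      linarith
    · have := Real.rpow_le_rpow_of_exponent_ge hzn0 hz1 (show (-2 : ℝ) ≤ -s.re by linarith)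
      have h9 : 0 ≤ ‖z‖ ^ (-(1 / 2) : ℝ) := by positivity
      linarith
  have e2 : Real.exp (Complex.arg z * s.im) ≤ Real.exp (Real.pi / 2) := by
    apply Real.exp_le_exp.mpr
    calc Complex.arg z * s.im ≤ |Complex.arg z * s.im| := le_abs_self _
      _ = |Complex.arg z| * |s.im| := abs_mul _ _
      _ ≤ Real.pi / 2 * 1 := by gcongr
      _ = Real.pi / 2 := mul_one _
  have e3 : ‖Complex.Gamma s * riemannZeta s ^ 2‖ ≤ |B| + 1 :=
    hb.trans ((le_abs_self B).trans (by linarith))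
  calc ‖Complex.Gamma s * riemannZeta s ^ 2‖ * (‖z‖ ^ (-s.re) * Real.exp (Complex.arg z * s.im))
      ≤ (|B| + 1) * ((‖z‖ ^ (-(1 / 2) : ℝ) + ‖z‖ ^ (-2 : ℝ)) * Real.exp (Real.pi / 2)) := by gcongr
    _ = _ := by ring

theorem Sz_contour_all : ∃ C : ℝ, 0 < C ∧ ∀ z : ℂ, 0 < z.re →
    ‖Sz z - (1 / (2 * Real.pi) : ℂ) *
      ∫ t : ℝ, Complex.Gamma (cl t) * riemannZeta (cl t) ^ 2 * z ^ (-(cl t))‖ ≤
      C * (‖z‖ ^ (-(1 / 2) : ℝ) + ‖z‖ ^ (-2 : ℝ)) := by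
  obtain ⟨B, hB0, hB⟩ := ctg_bdry_all
  refine ⟨(1 / (2 * Real.pi)) * (7 * B), by positivity, fun z hz => ?_⟩
  have hz0 : z ≠ 0 := by rintro rfl; simp at hz
  set D : ℝ := B * (‖z‖ ^ (-(1 / 2) : ℝ) + ‖z‖ ^ (-2 : ℝ)) with hD
  have e0 : (∫ t : ℝ, Complex.Gamma (cl t) * riemannZeta (cl t) ^ 2 * z ^ (-(cl t))) =
      ∫ t : ℝ, ctg z ((1 / 2 : ℝ) + t * I) := by
    congr 1
    funext t
    simp [ctg, cl]
  rw [e0, Sz_line2 hz, ← mul_sub]
  have i2 := ctg_line_integrable hz (σ := 2) (by norm_num) le_rfl (by norm_num)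
  have i1 := ctg_line_integrable hz (σ := 1 / 2) le_rfl (by norm_num) (by norm_num)
  have hV2 : Tendsto (fun Y : ℝ => ∫ y in (-Y)..Y, ctg z ((2 : ℝ) + y * I)) atTop
      (𝓝 (∫ t : ℝ, ctg z ((2 : ℝ) + t * I))) :=
    intervalIntegral_tendsto_integral i2 tendsto_neg_atTop_atBot tendsto_id
  have hV1 : Tendsto (fun Y : ℝ => ∫ y in (-Y)..Y, ctg z ((1 / 2 : ℝ) + y * I)) atTop
      (𝓝 (∫ t : ℝ, ctg z ((1 / 2 : ℝ) + t * I))) :=
    intervalIntegral_tendsto_integral i1 tendsto_neg_atTop_atBot tendsto_id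
  obtain ⟨hH1, hH2⟩ := ctg_H_tendsto hz
  set R : ℂ := I * ((∫ y in (-1 : ℝ)..1, ctg z ((2 : ℝ) + y * I)) -
    ∫ y in (-1 : ℝ)..1, ctg z ((1 / 2 : ℝ) + y * I)) -
    (∫ x in (1 / 2 : ℝ)..2, ctg z (x + (1 : ℝ) * I)) +
    ∫ x in (1 / 2 : ℝ)..2, ctg z (x + (-1 : ℝ) * I) with hR
  have hid : ∀ Y : ℝ, 1 ≤ Y → I * ((∫ y in (-Y)..Y, ctg z ((2 : ℝ) + y * I)) -
      ∫ y in (-Y)..Y, ctg z ((1 / 2 : ℝ) + y * I)) = R +
      (∫ x in (1 / 2 : ℝ)..2, ctg z (x + Y * I)) -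
      ∫ x in (1 / 2 : ℝ)..2, ctg z (x + (-Y : ℝ) * I) := by
    intro Y hY
    have r1 := ctg_rect hz0 (a := 1) (b := Y) (by
      intro y hy
      rw [uIcc_of_le hY] at hy
      have := hy.1
      intro h
      linarith)
    have r2 := ctg_rect hz0 (a := -Y) (b := -1) (by
      intro y hy
      rw [uIcc_of_le (by linarith)] at hy
      have := hy.2
      intro h
      linarith)
    have s2 : (∫ y in (-Y)..Y, ctg z ((2 : ℝ) + y * I)) =
        (∫ y in (-Y)..(-1), ctg z ((2 : ℝ) + y * I)) +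
        (∫ y in (-1 : ℝ)..1, ctg z ((2 : ℝ) + y * I)) +
        ∫ y in (1 : ℝ)..Y, ctg z ((2 : ℝ) + y * I) := by
      rw [intervalIntegral.integral_add_adjacent_intervals i2.intervalIntegrable
        i2.intervalIntegrable, intervalIntegral.integral_add_adjacent_intervals
        i2.intervalIntegrable i2.intervalIntegrable]
    have s1 : (∫ y in (-Y)..Y, ctg z ((1 / 2 : ℝ) + y * I)) =
        (∫ y in (-Y)..(-1), ctg z ((1 / 2 : ℝ) + y * I)) +
        (∫ y in (-1 : ℝ)..1, ctg z ((1 / 2 : ℝ) + y * I)) +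
        ∫ y in (1 : ℝ)..Y, ctg z ((1 / 2 : ℝ) + y * I) := by
      rw [intervalIntegral.integral_add_adjacent_intervals i1.intervalIntegrable
        i1.intervalIntegrable, intervalIntegral.integral_add_adjacent_intervals
        i1.intervalIntegrable i1.intervalIntegrable]
    rw [s1, s2, hR]
    linear_combination r1 + r2
  have hlim1 : Tendsto (fun Y : ℝ => I * ((∫ y in (-Y)..Y, ctg z ((2 : ℝ) + y * I)) -
      ∫ y in (-Y)..Y, ctg z ((1 / 2 : ℝ) + y * I))) atTop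
      (𝓝 (I * ((∫ t : ℝ, ctg z ((2 : ℝ) + t * I)) - ∫ t : ℝ, ctg z ((1 / 2 : ℝ) + t * I)))) :=
    (hV2.sub hV1).const_mul I
  have hlim2 : Tendsto (fun Y : ℝ => R + (∫ x in (1 / 2 : ℝ)..2, ctg z (x + Y * I)) -
      ∫ x in (1 / 2 : ℝ)..2, ctg z (x + (-Y : ℝ) * I)) atTop (𝓝 (R + 0 - 0)) :=
    (tendsto_const_nhds.add hH1).sub hH2
  have hRR : I * ((∫ t : ℝ, ctg z ((2 : ℝ) + t * I)) - ∫ t : ℝ, ctg z ((1 / 2 : ℝ) + t * I)) =
      R := by
    have := tendsto_nhds_unique (hlim1.congr' (by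
      filter_upwards [eventually_ge_atTop 1] with Y hY
      exact hid Y hY)) hlim2
    simpa using this
  have hnR : ‖(∫ t : ℝ, ctg z ((2 : ℝ) + t * I)) - ∫ t : ℝ, ctg z ((1 / 2 : ℝ) + t * I)‖ = ‖R‖ := by
    rw [← hRR, norm_mul, Complex.norm_I, one_mul]
  have b1 : ‖∫ y in (-1 : ℝ)..1, ctg z ((2 : ℝ) + y * I)‖ ≤ D * |(1 : ℝ) - (-1)| := by
    refine intervalIntegral.norm_integral_le_of_norm_le_const fun y hy => ?_
    rw [uIoc_of_le (by norm_num)] at hy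
    have hy' : |y| ≤ 1 := abs_le.mpr ⟨hy.1.le, hy.2⟩
    exact hB z hz _ (by simp; norm_num) (by simp) (by simpa using hy') (by simp)
  have b2 : ‖∫ y in (-1 : ℝ)..1, ctg z ((1 / 2 : ℝ) + y * I)‖ ≤ D * |(1 : ℝ) - (-1)| := by
    refine intervalIntegral.norm_integral_le_of_norm_le_const fun y hy => ?_
    rw [uIoc_of_le (by norm_num)] at hy
    have hy' : |y| ≤ 1 := abs_le.mpr ⟨hy.1.le, hy.2⟩
    exact hB z hz _ (by simp) (by simp; norm_num) (by simpa using hy') (by simp)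
  have b3 : ‖∫ x in (1 / 2 : ℝ)..2, ctg z (x + (1 : ℝ) * I)‖ ≤ D * |(2 : ℝ) - 1 / 2| := by
    refine intervalIntegral.norm_integral_le_of_norm_le_const fun x hx => ?_
    rw [uIoc_of_le (by norm_num)] at hx
    exact hB z hz _ (by simpa using hx.1.le) (by simpa using hx.2) (by simp) (by simp)
  have b4 : ‖∫ x in (1 / 2 : ℝ)..2, ctg z (x + (-1 : ℝ) * I)‖ ≤ D * |(2 : ℝ) - 1 / 2| := by
    refine intervalIntegral.norm_integral_le_of_norm_le_const fun x hx => ?_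
    rw [uIoc_of_le (by norm_num)] at hx
    exact hB z hz _ (by simpa using hx.1.le) (by simpa using hx.2) (by simp) (by simp)
  have c1 : |(1 : ℝ) - (-1)| = 2 := by norm_num
  have c2 : |(2 : ℝ) - 1 / 2| = 3 / 2 := by norm_num
  rw [c1] at b1 b2
  rw [c2] at b3 b4
  have hRn : ‖R‖ ≤ 7 * D := by
    rw [hR]
    refine (norm_add_le _ _).trans ?_
    refine (add_le_add_left ((norm_sub_le _ _)) _).trans ?_
    rw [norm_mul, Complex.norm_I, one_mul]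
    have := norm_sub_le (∫ y in (-1 : ℝ)..1, ctg z ((2 : ℝ) + y * I))
      (∫ y in (-1 : ℝ)..1, ctg z ((1 / 2 : ℝ) + y * I))
    linarith
  rw [norm_mul, hnR]
  have c3 : ‖(1 / (2 * Real.pi) : ℂ)‖ = 1 / (2 * Real.pi) := by
    rw [norm_div, norm_one, norm_mul, Complex.norm_real, Real.norm_of_nonneg Real.pi_pos.le,
      Complex.norm_ofNat]
  rw [c3]
  calc 1 / (2 * Real.pi) * ‖R‖ ≤ 1 / (2 * Real.pi) * (7 * D) := by gcongr
    _ = _ := by rw [hD]; ring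

end Pool.Agent.T2
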