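import Pool.Agent.Lib_MP_112ba8_e.Twisted
import Pool.Agent.Lib_MP_112ba8_t.Defs
import Pool.Agent.Lib_MP_112ba8_t.T2Contour

/-!
Pieces B8 and B10: exact formula for the twisted second moment with a smooth weight.
-/

namespace Pool.Agent.SixT

open Filter Topology MeasureTheory
open Pool.Agent.EvenMoment (cl Wgt Sz ker ar JJ gamma_line near_summable pp_re pp_im pp_norm_le
  pp_norm_ge rho_facts rho_eq)

lemma e8_term_bound {δ : ℝ} (hδ : 0 < δ) {z : ℂ} (hz : δ ≤ z.re) (a : ℕ) :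
    ‖1 / (Complex.exp (((a : ℂ) + 1) * z) - 1)‖ ≤
      (1 - Real.exp (-δ))⁻¹ * Real.exp (-δ) ^ (a + 1) := by
  obtain ⟨ρ, hρ⟩ : ∃ ρ : ℝ, ρ = z.re := ⟨_, rfl⟩
  rw [← hρ] at hz
  have hq1 : Real.exp (-δ) < 1 := by
    rw [Real.exp_lt_one_iff]
    linarith
  have h2 : ‖Complex.exp (((a : ℂ) + 1) * z)‖ = Real.exp (((a : ℝ) + 1) * ρ) := by
    rw [Complex.norm_exp]
    congr 1
    simp [hρ]
  have h3 : Real.exp (((a : ℝ) + 1) * ρ) - 1 ≤ ‖Complex.exp (((a : ℂ) + 1) * z) - 1‖ := by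
    have := norm_sub_norm_le (Complex.exp (((a : ℂ) + 1) * z)) 1
    rw [h2, norm_one] at this
    exact this
  have h30 : Real.exp (((a : ℝ) + 1) * δ) - 1 ≤ Real.exp (((a : ℝ) + 1) * ρ) - 1 := by
    have : Real.exp (((a : ℝ) + 1) * δ) ≤ Real.exp (((a : ℝ) + 1) * ρ) :=
      Real.exp_le_exp.2 (by gcongr)
    linarith
  have h4 : Real.exp (((a : ℝ) + 1) * δ) * (1 - Real.exp (-δ)) ≤
      Real.exp (((a : ℝ) + 1) * δ) - 1 := by
    have h5 : Real.exp (((a : ℝ) + 1) * δ) * Real.exp (-δ) = Real.exp ((a : ℝ) * δ) := by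
      rw [← Real.exp_add]
      congr 1
      ring
    have h6 : 1 ≤ Real.exp ((a : ℝ) * δ) := by
      rw [← Real.exp_zero]
      exact Real.exp_le_exp.2 (by positivity)
    nlinarith
  have h7 : 0 < 1 - Real.exp (-δ) := by linarith
  have hpos : 0 < Real.exp (((a : ℝ) + 1) * δ) * (1 - Real.exp (-δ)) := by
    have := Real.exp_pos (((a : ℝ) + 1) * δ)
    positivity
  have h1 : Real.exp (-δ) ^ (a + 1) * Real.exp (((a : ℝ) + 1) * δ) = 1 := by
    rw [← Real.exp_nat_mul, ← Real.exp_add]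
    push_cast
    rw [show ((a : ℝ) + 1) * -δ + (a + 1) * δ = 0 by ring, Real.exp_zero]
  rw [norm_div, norm_one]
  calc 1 / ‖Complex.exp (((a : ℂ) + 1) * z) - 1‖
      ≤ 1 / (Real.exp (((a : ℝ) + 1) * δ) * (1 - Real.exp (-δ))) :=
        one_div_le_one_div_of_le hpos (h4.trans (h30.trans h3))
    _ = (1 - Real.exp (-δ))⁻¹ * Real.exp (-δ) ^ (a + 1) := by
        have h10 : Real.exp (-δ) ^ (a + 1) = (Real.exp (((a : ℝ) + 1) * δ))⁻¹ :=
          eq_inv_of_mul_eq_one_left h1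
        rw [h10, one_div, mul_inv, mul_comm]

lemma e8_isOpen : IsOpen {z : ℂ | 0 < z.re} := isOpen_lt continuous_const Complex.continuous_re

/-- `Sz` is holomorphic in the right half plane -/
lemma Sz_differentiableOn : DifferentiableOn ℂ Sz {z : ℂ | 0 < z.re} := by
  intro z₀ hz₀
  have hz₀' : 0 < z₀.re := hz₀
  obtain ⟨δ, hδ⟩ : ∃ δ : ℝ, δ = z₀.re / 2 := ⟨_, rfl⟩
  have hδ0 : 0 < δ := by rw [hδ]; positivity
  have hU : IsOpen {z : ℂ | δ < z.re} := isOpen_lt continuous_const Complex.continuous_re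
  have hq0 : 0 < Real.exp (-δ) := Real.exp_pos _
  have hq1 : Real.exp (-δ) < 1 := by
    rw [Real.exp_lt_one_iff]
    linarith
  have hs : Summable (fun a : ℕ => (1 - Real.exp (-δ))⁻¹ * Real.exp (-δ) ^ (a + 1)) :=
    ((summable_nat_add_iff 1).2 (summable_geometric_of_lt_one hq0.le hq1)).mul_left _
  have h1 : DifferentiableOn ℂ (fun z : ℂ => ∑' a : ℕ, 1 / (Complex.exp (((a : ℂ) + 1) * z) - 1))
      {z : ℂ | δ < z.re} := by
    refine Complex.differentiableOn_tsum_of_summable_norm hs (fun a => ?_) hU fun a z hz =>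
      e8_term_bound hδ0 (le_of_lt hz) a
    intro z hz
    have hz' : δ < z.re := hz
    refine DifferentiableAt.differentiableWithinAt ?_
    refine DifferentiableAt.div (differentiableAt_const _) ?_ ?_
    · fun_prop
    · intro h0
      have h2 : ‖Complex.exp (((a : ℂ) + 1) * z)‖ = 1 := by
        rw [sub_eq_zero.1 h0, norm_one]
      rw [Complex.norm_exp, Real.exp_eq_one_iff] at h2
      have h3 : (((a : ℂ) + 1) * z).re = ((a : ℝ) + 1) * z.re := by simp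
      rw [h3] at h2
      have : 0 < ((a : ℝ) + 1) * z.re := by
        have : 0 < z.re := hδ0.trans hz'
        positivity
      linarith
  have h2 : DifferentiableAt ℂ Sz z₀ :=
    (h1 z₀ (by rw [Set.mem_ofPred_eq, hδ]; linarith)).differentiableAt
      (hU.mem_nhds (by rw [Set.mem_ofPred_eq, hδ]; linarith))
  exact h2.differentiableWithinAt

lemma Sz_differentiableAt {z : ℂ} (hz : 0 < z.re) : DifferentiableAt ℂ Sz z :=
  (Sz_differentiableOn z hz).differentiableAt (e8_isOpen.mem_nhds hz)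

lemma e8_geom {T ξ : ℝ} (hT : 0 < T) (hs : (2 + |ξ|) / T ≤ 1 / 20) {p : ℂ}
    (hp : p = (2 + Complex.I * ξ) / T) {h k : ℕ} (hh : 0 < h) (hk : 0 < k) {z : ℂ}
    (hz : z = 2 * Real.pi * Complex.I * ((k : ℂ) / h) * Complex.exp (-(Complex.I * p))) :
    0 < z.re ∧ (k : ℝ) / h ≤ ‖z‖ := by
  have hh0 : (0 : ℝ) < h := by exact_mod_cast hh
  have hk0 : (0 : ℝ) < k := by exact_mod_cast hk
  have hξ0 := abs_nonneg ξ
  obtain ⟨ρ, hρ⟩ : ∃ ρ : ℂ, ρ = Complex.I * (Complex.exp (-(Complex.I * p)) - 1) := ⟨_, rfl⟩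
  obtain ⟨hρre, hρn⟩ := rho_facts hT hs (by rw [hρ, hp] : ρ = _)
  have hρre0 : 0 < ρ.re := lt_of_lt_of_le (by positivity) hρre
  have hc0 : 0 < 2 * Real.pi * ((k : ℝ) / h) := by positivity
  have hzη : z = 2 * Real.pi * Complex.I * (k / h) + ((2 * Real.pi * (k / h) : ℝ) : ℂ) * ρ := by
    rw [hz, hρ]
    push_cast
    ring
  have hexpn : ‖Complex.exp (-(Complex.I * p))‖ = Real.exp (ξ / T) := by
    rw [Complex.norm_exp]
    congr 1
    have him : p.im = ξ / T := by rw [hp]; exact pp_im T ξ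
    simp [him]
  have hzn : ‖z‖ = 2 * Real.pi * (k / h) * Real.exp (ξ / T) := by
    rw [hz, norm_mul, hexpn, norm_mul, norm_mul, norm_mul, Complex.norm_real,
      Complex.norm_I, Real.norm_of_nonneg Real.pi_pos.le]
    simp
  refine ⟨?_, ?_⟩
  · rw [hzη, Complex.add_re, Complex.re_ofReal_mul]
    have : (2 * Real.pi * Complex.I * (k / h) : ℂ).re = 0 := by
      have : (2 * Real.pi * Complex.I * (k / h) : ℂ) =
        ((2 * Real.pi * (k / h) : ℝ) : ℂ) * Complex.I := by push_cast; ring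
      rw [this]
      simp
    rw [this, zero_add]
    positivity
  · have hξT : |ξ / T| ≤ 1 / 20 := by
      rw [abs_div, abs_of_pos hT]
      refine le_trans ?_ hs
      gcongr
      linarith
    rw [hzn]
    have h2 : 19 / 20 ≤ Real.exp (ξ / T) := by
      have := Real.add_one_le_exp (ξ / T)
      linarith [(abs_le.1 hξT).1]
    have h3 : 1 ≤ 2 * Real.pi * Real.exp (ξ / T) := by
      have h4 : (6 : ℝ) * (19 / 20) ≤ 2 * Real.pi * Real.exp (ξ / T) :=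
        mul_le_mul (by linarith only [Real.pi_gt_three]) h2 (by norm_num)
          (by linarith only [Real.pi_gt_three])
      linarith only [h4]
    calc (k : ℝ) / h = (k / h) * 1 := (mul_one _).symm
      _ ≤ (k / h) * (2 * Real.pi * Real.exp (ξ / T)) := by gcongr
      _ = _ := by ring

lemma e8_JJ {T ξ : ℝ} (hT : 0 < T) (hs : (2 + |ξ|) / T ≤ 1 / 20) {p : ℂ}
    (hp : p = (2 + Complex.I * ξ) / T) {h k : ℕ} (hh : 0 < h) (hk : 0 < k) {z : ℂ}
    (hz : z = 2 * Real.pi * Complex.I * ((k : ℂ) / h) * Complex.exp (-(Complex.I * p))) :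
    JJ h k T ξ = 2 * Real.pi * Real.sqrt ((k : ℝ) / h) * Complex.exp (-(Complex.I * p / 2)) *
      ((1 / (2 * Real.pi) : ℂ) *
        ∫ t : ℝ, Complex.Gamma (cl t) * riemannZeta (cl t) ^ 2 * z ^ (-(cl t))) := by
  have hh0 : (0 : ℝ) < h := by exact_mod_cast hh
  have hk0 : (0 : ℝ) < k := by exact_mod_cast hk
  have hξ0 := abs_nonneg ξ
  have hre : p.re = 2 / T := by rw [hp]; exact pp_re T ξ
  have hT40 : 40 ≤ T := by
    have h20 := (div_le_iff₀ hT).1 hs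
    linarith only [h20, hξ0]
  obtain ⟨r, hr⟩ : ∃ r : ℝ, r = (h : ℝ) / k := ⟨_, rfl⟩
  have hr0 : 0 < r := by rw [hr]; positivity
  have hlogr : Real.log r = Real.log h - Real.log k := by
    rw [hr, Real.log_div hh0.ne' hk0.ne']
  obtain ⟨Q, hQ⟩ : ∃ Q : ℂ, Q = ∫ t : ℝ, Complex.Gamma (cl t) * riemannZeta (cl t) ^ 2 *
    z ^ (-(cl t)) := ⟨_, rfl⟩
  have hz' : z = 2 * Real.pi * Complex.I * (r⁻¹ : ℝ) * Complex.exp (-(Complex.I * p)) := by
    rw [hz, hr]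
    push_cast
    rw [inv_div]
  have hQJ : Q = Real.sqrt r * Complex.exp (Complex.I * p / 2) * JJ h k T ξ := by
    rw [hQ, JJ, ← MeasureTheory.integral_const_mul]
    congr 1
    funext t
    have hpre0 : 0 < p.re := by rw [hre]; positivity
    have hprepi : p.re < Real.pi := by
      rw [hre, div_lt_iff₀ hT]
      have h40 : (3 : ℝ) * 40 ≤ Real.pi * T :=
        mul_le_mul Real.pi_gt_three.le hT40 (by norm_num) Real.pi_pos.le
      linarith only [h40]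
    have := gamma_line hr0 hpre0 hprepi t
    rw [hz', this, hlogr, ← hp]
  have hEinv : Complex.exp (-(Complex.I * p / 2)) * Complex.exp (Complex.I * p / 2) = 1 := by
    rw [← Complex.exp_add]; simp
  have hπ : (Real.pi : ℂ) ≠ 0 := by exact_mod_cast Real.pi_ne_zero
  have hsq : ((Real.sqrt ((k : ℝ) / h) : ℝ) : ℂ) * ((Real.sqrt r : ℝ) : ℂ) = 1 := by
    rw [← Complex.ofReal_mul, ← Real.sqrt_mul (by positivity), hr]
    have : (k : ℝ) / h * (h / k) = 1 := by field_simp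
    rw [this]; simp
  rw [← hQ, hQJ]
  have e1 : (2 * Real.pi : ℂ) * (1 / (2 * Real.pi)) = 1 := by field_simp
  calc JJ h k T ξ = JJ h k T ξ * (2 * Real.pi * (1 / (2 * Real.pi))) *
        (((Real.sqrt ((k : ℝ) / h) : ℝ) : ℂ) * ((Real.sqrt r : ℝ) : ℂ)) *
        (Complex.exp (-(Complex.I * p / 2)) * Complex.exp (Complex.I * p / 2)) := by
        rw [e1, hsq, hEinv]; ring
    _ = _ := by ring

theorem exists_GG {w : ℝ → ℝ} (hw : Wgt w) : ∃ G, GG w G := by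
  obtain ⟨G, h1, h2, h3, h4⟩ := Pool.Agent.EvenMoment.Tw.exists_G hw
  exact ⟨G, h1, h2, h3, h4⟩

theorem Sz_contour' : ∃ C : ℝ, 0 < C ∧ ∀ z : ℂ, 0 < z.re →
    ‖Sz z - (1 / (2 * Real.pi) : ℂ) *
      ∫ t : ℝ, Complex.Gamma (cl t) * riemannZeta (cl t) ^ 2 * z ^ (-(cl t))‖ ≤
      C * (‖z‖ ^ (-(1 / 2) : ℝ) + ‖z‖ ^ (-2 : ℝ)) := Pool.Agent.T2.Sz_contour_all

lemma e8_exp_norm {T ξ : ℝ} (hT : 0 < T) (hs : (2 + |ξ|) / T ≤ 1 / 20) {p : ℂ}
    (hp : p = (2 + Complex.I * ξ) / T) : ‖Complex.exp (-(Complex.I * p / 2))‖ ≤ 2 := by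
  have hξT : |ξ / T| ≤ 1 / 20 := by
    rw [abs_div, abs_of_pos hT]
    refine le_trans ?_ hs
    gcongr
    linarith
  rw [Complex.norm_exp]
  have him : p.im = ξ / T := by rw [hp]; exact pp_im T ξ
  have e : (-(Complex.I * p / 2)).re = ξ / T / 2 := by
    simp [him]
    ring
  rw [e]
  have h1 : ξ / T / 2 ≤ 1 / 2 := by linarith [(abs_le.1 hξT).2]
  calc Real.exp (ξ / T / 2) ≤ Real.exp (1 / 2) := Real.exp_le_exp.2 h1
    _ ≤ 2 := by
        have h2 : Real.exp (1 / 2) * Real.exp (1 / 2) = Real.exp 1 := by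
          rw [← Real.exp_add]; norm_num
        have h3 := Real.exp_one_lt_d9
        by_contra hc
        have hc' : 2 < Real.exp (1 / 2) := not_le.1 hc
        have h4 := mul_lt_mul'' hc' hc' (by norm_num) (by norm_num)
        rw [h2] at h4
        linarith only [h3, h4]

lemma e8_sqrt_bound {x y : ℝ} (hx : 0 < x) (hxy : x ≤ y) :
    Real.sqrt x * (y ^ (-(1 / 2) : ℝ) + y ^ (-2 : ℝ)) ≤ 1 + x⁻¹ ^ (3 / 2 : ℝ) := by
  have h1 : y ^ (-(1 / 2) : ℝ) ≤ x ^ (-(1 / 2) : ℝ) :=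
    Real.rpow_le_rpow_of_nonpos hx hxy (by norm_num)
  have h2 : y ^ (-2 : ℝ) ≤ x ^ (-2 : ℝ) := Real.rpow_le_rpow_of_nonpos hx hxy (by norm_num)
  calc Real.sqrt x * (y ^ (-(1 / 2) : ℝ) + y ^ (-2 : ℝ))
      ≤ Real.sqrt x * (x ^ (-(1 / 2) : ℝ) + x ^ (-2 : ℝ)) := by gcongr
    _ = 1 + x⁻¹ ^ (3 / 2 : ℝ) := by
        rw [Real.sqrt_eq_rpow, mul_add, ← Real.rpow_add hx, ← Real.rpow_add hx,
          Real.inv_rpow hx.le, ← Real.rpow_neg hx.le]
        norm_num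

lemma e8_T0 {ε : ℝ} (hε1 : ε < 1) {T v : ℝ} (hT : max 2 ((180 : ℝ) ^ (1 / (1 - ε))) ≤ T)
    (hε : 0 < ε) (hv : |v| ≤ T ^ ε) : (2 + |-(2 * Real.pi * v)|) / T ≤ 1 / 20 := by
  have hT2 : 2 ≤ T := (le_max_left _ _).trans hT
  have hT0 : 0 < T := by linarith
  have h1 : (180 : ℝ) ≤ T ^ (1 - ε) := by
    have h2 := Real.rpow_le_rpow (by positivity) ((le_max_right _ _).trans hT)
      (show 0 ≤ 1 - ε by linarith)
    rw [← Real.rpow_mul (by norm_num), one_div_mul_cancel (by linarith), Real.rpow_one] at h2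
    exact h2
  have h3 : T ^ ε * T ^ (1 - ε) = T := by
    rw [← Real.rpow_add hT0]; simp
  have h4 : 1 ≤ T ^ ε := Real.one_le_rpow (by linarith) hε.le
  have h5 : 0 < T ^ ε := by positivity
  rw [div_le_iff₀ hT0, abs_neg, abs_mul, abs_of_pos Real.two_pi_pos]
  calc 2 + 2 * Real.pi * |v| ≤ 2 * T ^ ε + 2 * 3.5 * T ^ ε := by
        have : 2 * Real.pi * |v| ≤ 2 * 3.5 * T ^ ε := by
          gcongr
          linarith [Real.pi_lt_d2]
        linarith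
    _ = 9 * T ^ ε := by ring
    _ ≤ 1 / 20 * (T ^ ε * T ^ (1 - ε)) := by nlinarith
    _ = 1 / 20 * T := by rw [h3]

lemma e8_pv (T v : ℝ) : pv T v = (2 + Complex.I * ((-(2 * Real.pi * v) : ℝ) : ℂ)) / T := by
  unfold pv
  push_cast
  ring

lemma e8_G_JJ_integrable {G : ℝ → ℂ} (hGi : Integrable G) (h k : ℕ) {T : ℝ} (hT : 2 ≤ T) :
    Integrable fun v : ℝ => G v * JJ h k T (-(2 * Real.pi * v)) := by
  have h3 : (fun v : ℝ => G v * JJ h k T (-(2 * Real.pi * v))) = fun v : ℝ => ∫ t : ℝ,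
    Complex.exp ((2 * Real.pi * v * (t / T) : ℝ) * Complex.I) *
      (G v * Pool.Agent.EvenMoment.Tw.HH h k T t) := by
    ext v
    unfold JJ
    rw [← integral_const_mul]
    refine integral_congr_ae (ae_of_all _ fun t => ?_)
    simp only
    rw [Pool.Agent.EvenMoment.Tw.ker_split, Pool.Agent.EvenMoment.Tw.HH]
    ring
  rw [h3]
  have h4 := hGi.mul_prod (Pool.Agent.EvenMoment.Tw.HH_integrable h k hT)
  have h5 : Integrable (fun z : ℝ × ℝ => Complex.exp ((2 * Real.pi * z.1 * (z.2 / T) : ℝ) *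
      Complex.I) * (G z.1 * Pool.Agent.EvenMoment.Tw.HH h k T z.2)) (volume.prod volume) := by
    refine h4.bdd_mul (c := 1) ?_ (ae_of_all _ fun z => ?_)
    · exact Continuous.aestronglyMeasurable (by fun_prop)
    · exact (Complex.norm_exp_ofReal_mul_I _).le
  exact h5.integral_prod_left

/-- the tail of `G` -/
lemma e8_tail {w : ℝ → ℝ} {G : ℝ → ℂ} (hG : GG w G) (n : ℕ) {V : ℝ} (hV : 0 < V) :
    ∫ v in (Set.Icc (-V) V)ᶜ, ‖G v‖ ≤ V⁻¹ ^ n * ∫ v : ℝ, |v| ^ n * ‖G v‖ := by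
  have h1 : ∫ v in (Set.Icc (-V) V)ᶜ, ‖G v‖ ≤
      ∫ v in (Set.Icc (-V) V)ᶜ, V⁻¹ ^ n * (|v| ^ n * ‖G v‖) := by
    refine setIntegral_mono_on hG.int.norm.integrableOn ((hG.mom n).const_mul _).integrableOn
      measurableSet_Icc.compl fun v hv => ?_
    have hv' : V ≤ |v| := by
      by_contra hc
      exact hv (abs_le.1 (not_le.1 hc).le)
    have h2 : 1 ≤ V⁻¹ ^ n * |v| ^ n := by
      rw [← mul_pow]
      refine one_le_pow₀ ?_
      rw [inv_mul_eq_div, one_le_div hV]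
      exact hv'
    calc ‖G v‖ = 1 * ‖G v‖ := (one_mul _).symm
      _ ≤ V⁻¹ ^ n * |v| ^ n * ‖G v‖ := by gcongr
      _ = _ := by ring
  refine h1.trans ?_
  rw [← integral_const_mul]
  refine setIntegral_le_integral ((hG.mom n).const_mul _) (ae_of_all _ fun v => ?_)
  simp only [Pi.zero_apply]
  positivity

theorem M2_exact {w : ℝ → ℝ} (hw : Wgt w) {G : ℝ → ℂ} (hG : GG w G) {ε : ℝ} (hε : 0 < ε)
    (hε1 : ε < 1) : ∃ C T₀ : ℝ, 0 < C ∧ 2 ≤ T₀ ∧ ∀ T : ℝ, T₀ ≤ T → ∀ h r : ℕ, 0 < h → 0 < r →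
    ‖M2 w T h r - ∫ v in Set.Icc (-T ^ ε) (T ^ ε), G v * (2 * Real.pi * Real.sqrt ((r : ℝ) / h) *
        Complex.exp (-(Complex.I * pv T v / 2)) * Sz (zv T v h r))‖ ≤
      C * (1 + ((h : ℝ) / r) ^ (3 / 2 : ℝ)) := by
  obtain ⟨C5, hC5, h5⟩ := Sz_contour'
  obtain ⟨CL, hCL, hL⟩ := Pool.Agent.EvenMoment.JJ_large
  obtain ⟨D, hD, hrem⟩ := Pool.Agent.EvenMoment.Tw.remove hw
  obtain ⟨n, hn⟩ := exists_nat_ge (5 / ε)
  have hn' : 5 ≤ ε * n := by
    rw [div_le_iff₀ hε] at hn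
    linarith
  obtain ⟨E1, hE1⟩ : ∃ E : ℝ, E = ∫ v : ℝ, ‖G v‖ := ⟨_, rfl⟩
  obtain ⟨E2, hE2⟩ : ∃ E : ℝ, E = ∫ v : ℝ, |v| ^ n * ‖G v‖ := ⟨_, rfl⟩
  have hE10 : 0 ≤ E1 := by rw [hE1]; positivity
  have hE20 : 0 ≤ E2 := by rw [hE2]; positivity
  refine ⟨D + CL * E2 + 16 * C5 * E1, max 2 ((180 : ℝ) ^ (1 / (1 - ε))), by positivity,
    le_max_left _ _, fun T hT h r hh hr => ?_⟩
  have hT2 : 2 ≤ T := (le_max_left _ _).trans hT
  have hT0 : 0 < T := by linarith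
  have hh0 : (0 : ℝ) < h := by exact_mod_cast hh
  have hr0 : (0 : ℝ) < r := by exact_mod_cast hr
  obtain ⟨V, hV⟩ : ∃ V : ℝ, V = T ^ ε := ⟨_, rfl⟩
  have hV0 : 0 < V := by rw [hV]; positivity
  rw [← hV]
  have hsm : ∀ v : ℝ, v ∈ Set.Icc (-V) V → (2 + |-(2 * Real.pi * v)|) / T ≤ 1 / 20 := by
    intro v hv
    exact e8_T0 hε1 hT hε (by rw [← hV]; exact abs_le.2 hv)
  have hX0 : 0 ≤ ((h : ℝ) / r) ^ (3 / 2 : ℝ) := by positivity
  -- step 1
  have s1 : ‖M2 w T h r - ∫ v : ℝ, G v * JJ h r T (-(2 * Real.pi * v))‖ ≤ D := by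
    have := hrem T hT2 h r
    rw [← Pool.Agent.EvenMoment.Tw.fubini1 hG.int hG.eq h r hT2] at this
    exact this
  have hint := e8_G_JJ_integrable hG.int h r hT2
  -- step 2
  have s2 : ‖∫ v in (Set.Icc (-V) V)ᶜ, G v * JJ h r T (-(2 * Real.pi * v))‖ ≤ CL * E2 := by
    have h1 : ‖∫ v in (Set.Icc (-V) V)ᶜ, G v * JJ h r T (-(2 * Real.pi * v))‖ ≤
        ∫ v in (Set.Icc (-V) V)ᶜ, CL * T ^ 5 * ‖G v‖ := by
      refine norm_integral_le_of_norm_le (hG.int.norm.const_mul _).integrableOn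
        (ae_of_all _ fun v => ?_)
      rw [norm_mul, mul_comm]
      exact mul_le_mul_of_nonneg_right (hL T hT2 h r _) (norm_nonneg _)
    rw [integral_const_mul] at h1
    refine h1.trans ?_
    have h2 := e8_tail hG n hV0
    rw [← hE2] at h2
    have h3 : T ^ 5 * V⁻¹ ^ n ≤ 1 := by
      rw [inv_pow, ← div_eq_mul_inv, div_le_one (by positivity), hV, ← Real.rpow_natCast (T ^ ε),
        ← Real.rpow_mul hT0.le, ← Real.rpow_natCast T 5]
      exact Real.rpow_le_rpow_of_exponent_le (by linarith) (by push_cast; exact hn')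
    calc CL * T ^ 5 * ∫ v in (Set.Icc (-V) V)ᶜ, ‖G v‖ ≤ CL * T ^ 5 * (V⁻¹ ^ n * E2) := by gcongr
      _ = CL * E2 * (T ^ 5 * V⁻¹ ^ n) := by ring
      _ ≤ CL * E2 * 1 := by gcongr
      _ = CL * E2 := mul_one _
  -- step 3
  have hcont : ContinuousOn (fun v : ℝ => G v * (2 * Real.pi * Real.sqrt ((r : ℝ) / h) *
      Complex.exp (-(Complex.I * pv T v / 2)) * Sz (zv T v h r))) (Set.Icc (-V) V) := by
    refine ContinuousOn.mul hG.cont.continuousOn (ContinuousOn.mul ?_ ?_)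
    · refine Continuous.continuousOn ?_
      unfold pv
      fun_prop
    · intro v hv
      have hz := (e8_geom hT0 (hsm v hv) (e8_pv T v) hh hr (z := zv T v h r) rfl).1
      have h1 : ContinuousAt (fun v : ℝ => zv T v h r) v := by
        unfold zv pv
        fun_prop
      exact ((Sz_differentiableAt hz).continuousAt.comp_of_eq h1 rfl).continuousWithinAt
  have s3 : ‖(∫ v in Set.Icc (-V) V, G v * JJ h r T (-(2 * Real.pi * v))) -
      ∫ v in Set.Icc (-V) V, G v * (2 * Real.pi * Real.sqrt ((r : ℝ) / h) *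
        Complex.exp (-(Complex.I * pv T v / 2)) * Sz (zv T v h r))‖ ≤
      16 * C5 * E1 * (1 + ((h : ℝ) / r) ^ (3 / 2 : ℝ)) := by
    rw [← integral_sub hint.integrableOn (hcont.integrableOn_compact isCompact_Icc)]
    have h1 : ‖∫ v in Set.Icc (-V) V, (G v * JJ h r T (-(2 * Real.pi * v)) -
        G v * (2 * Real.pi * Real.sqrt ((r : ℝ) / h) *
        Complex.exp (-(Complex.I * pv T v / 2)) * Sz (zv T v h r)))‖ ≤
        ∫ v in Set.Icc (-V) V, (16 * C5 * (1 + ((h : ℝ) / r) ^ (3 / 2 : ℝ))) * ‖G v‖ := by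
      refine norm_integral_le_of_norm_le (hG.int.norm.const_mul _).integrableOn ?_
      rw [ae_restrict_iff' measurableSet_Icc]
      refine ae_of_all _ fun v hv => ?_
      obtain ⟨z, hz⟩ : ∃ z, z = zv T v h r := ⟨_, rfl⟩
      obtain ⟨hz1, hz2⟩ := e8_geom hT0 (hsm v hv) (e8_pv T v) hh hr (z := z) hz
      have hJ := e8_JJ hT0 (hsm v hv) (e8_pv T v) hh hr (z := z) hz
      have hE := e8_exp_norm hT0 (hsm v hv) (e8_pv T v)
      rw [hJ, ← hz]
      obtain ⟨Q, hQ⟩ : ∃ Q : ℂ, Q = (1 / (2 * Real.pi) : ℂ) * ∫ t : ℝ, Complex.Gamma (cl t) *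
        riemannZeta (cl t) ^ 2 * z ^ (-(cl t)) := ⟨_, rfl⟩
      have h6 := h5 z hz1
      rw [← hQ, norm_sub_rev] at h6
      rw [← hQ]
      obtain ⟨S, hS⟩ : ∃ S : ℝ, S = Real.sqrt ((r : ℝ) / h) := ⟨_, rfl⟩
      have hS0 : 0 ≤ S := by rw [hS]; positivity
      have h7 := e8_sqrt_bound (x := (r : ℝ) / h) (by positivity) hz2
      rw [← hS, inv_div] at h7
      rw [← hS]
      have e1 : G v * (2 * Real.pi * S * Complex.exp (-(Complex.I * pv T v / 2)) * Q) -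
          G v * (2 * Real.pi * S * Complex.exp (-(Complex.I * pv T v / 2)) * Sz z) =
          G v * (2 * Real.pi * S * Complex.exp (-(Complex.I * pv T v / 2)) * (Q - Sz z)) := by
        ring
      rw [e1, norm_mul, norm_mul, norm_mul, norm_mul, norm_mul, Complex.norm_real,
        Complex.norm_real, Real.norm_of_nonneg Real.pi_pos.le, Real.norm_of_nonneg hS0,
        Complex.norm_ofNat]
      calc ‖G v‖ * (2 * Real.pi * S * ‖Complex.exp (-(Complex.I * pv T v / 2))‖ * ‖Q - Sz z‖)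
          ≤ ‖G v‖ * (2 * 4 * S * 2 * (C5 * (‖z‖ ^ (-(1 / 2) : ℝ) + ‖z‖ ^ (-2 : ℝ)))) := by
            gcongr
            exact Real.pi_lt_four.le
        _ = 16 * C5 * (S * (‖z‖ ^ (-(1 / 2) : ℝ) + ‖z‖ ^ (-2 : ℝ))) * ‖G v‖ := by ring
        _ ≤ 16 * C5 * (1 + ((h : ℝ) / r) ^ (3 / 2 : ℝ)) * ‖G v‖ := by gcongr
    refine h1.trans ?_
    rw [integral_const_mul]
    have h2 : ∫ v in Set.Icc (-V) V, ‖G v‖ ≤ E1 := by
      rw [hE1]
      exact setIntegral_le_integral hG.int.norm (ae_of_all _ fun v => norm_nonneg _)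
    calc _ ≤ 16 * C5 * (1 + ((h : ℝ) / r) ^ (3 / 2 : ℝ)) * E1 := by gcongr
      _ = _ := by ring
  have hsplit := integral_add_compl (measurableSet_Icc (a := -V) (b := V)) hint
  obtain ⟨A, hA⟩ : ∃ A : ℂ, A = ∫ v in Set.Icc (-V) V, G v * JJ h r T (-(2 * Real.pi * v)) :=
    ⟨_, rfl⟩
  obtain ⟨B, hB⟩ : ∃ B : ℂ, B = ∫ v in (Set.Icc (-V) V)ᶜ, G v * JJ h r T (-(2 * Real.pi * v)) :=
    ⟨_, rfl⟩
  obtain ⟨J, hJ⟩ : ∃ J : ℂ, J = ∫ v : ℝ, G v * JJ h r T (-(2 * Real.pi * v)) := ⟨_, rfl⟩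
  obtain ⟨K, hK⟩ : ∃ K : ℂ, K = ∫ v in Set.Icc (-V) V, G v * (2 * Real.pi *
    Real.sqrt ((r : ℝ) / h) * Complex.exp (-(Complex.I * pv T v / 2)) * Sz (zv T v h r)) :=
    ⟨_, rfl⟩
  rw [← hA, ← hB, ← hJ] at hsplit
  rw [← hJ] at s1
  rw [← hB] at s2
  rw [← hA, ← hK] at s3
  rw [← hK]
  have e1 : M2 w T h r - K = (M2 w T h r - J) + B + (A - K) := by
    rw [← hsplit]; ring
  rw [e1]
  have h9 : D + CL * E2 ≤ (D + CL * E2) * (1 + ((h : ℝ) / r) ^ (3 / 2 : ℝ)) := by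
    have : 0 ≤ D + CL * E2 := by positivity
    nlinarith
  calc ‖(M2 w T h r - J) + B + (A - K)‖ ≤ ‖(M2 w T h r - J) + B‖ + ‖A - K‖ := norm_add_le _ _
    _ ≤ ‖M2 w T h r - J‖ + ‖B‖ + ‖A - K‖ := by gcongr; exact norm_add_le _ _
    _ ≤ D + CL * E2 + 16 * C5 * E1 * (1 + ((h : ℝ) / r) ^ (3 / 2 : ℝ)) := by gcongr
    _ ≤ (D + CL * E2) * (1 + ((h : ℝ) / r) ^ (3 / 2 : ℝ)) +
        16 * C5 * E1 * (1 + ((h : ℝ) / r) ^ (3 / 2 : ℝ)) := by linarith
    _ = _ := by ring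

/-! ### B10 -/

theorem M2_swap (w : ℝ → ℝ) (T : ℝ) (h r : ℕ) :
    M2 w T r h = (starRingEnd ℂ) (M2 w T h r) := by
  unfold M2
  rw [← integral_conj]
  refine integral_congr_ae (ae_of_all _ fun t => ?_)
  simp only
  rw [map_mul, Complex.conj_ofReal, ← Complex.exp_conj]
  congr 2
  simp only [map_mul, Complex.conj_ofReal, Complex.conj_I]
  push_cast
  ring

lemma red_swap (h r : ℕ) : red r h = red h r := by
  unfold red
  rw [Nat.gcd_comm, mul_comm]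

theorem M2main_swap (w : ℝ → ℝ) (T : ℝ) (h r : ℕ) : M2main w T r h = M2main w T h r := by
  unfold M2main
  rw [red_swap]

theorem M2_bound {w : ℝ → ℝ} (hw : Wgt w) : ∃ C : ℝ, 0 < C ∧ ∀ T : ℝ, 2 ≤ T → ∀ h r : ℕ,
    ‖M2 w T h r‖ ≤ C * T ^ (5 : ℕ) := by
  obtain ⟨G, hG⟩ := exists_GG hw
  obtain ⟨CL, hCL, hL⟩ := Pool.Agent.EvenMoment.JJ_large
  obtain ⟨D, hD, hrem⟩ := Pool.Agent.EvenMoment.Tw.remove hw
  obtain ⟨E1, hE1⟩ : ∃ E : ℝ, E = ∫ v : ℝ, ‖G v‖ := ⟨_, rfl⟩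
  have hE10 : 0 ≤ E1 := by rw [hE1]; positivity
  refine ⟨D + CL * E1, by positivity, fun T hT h r => ?_⟩
  have hT0 : 0 < T := by linarith
  have s1 : ‖M2 w T h r - ∫ v : ℝ, G v * JJ h r T (-(2 * Real.pi * v))‖ ≤ D := by
    have := hrem T hT h r
    rw [← Pool.Agent.EvenMoment.Tw.fubini1 hG.int hG.eq h r hT] at this
    exact this
  have s2 : ‖∫ v : ℝ, G v * JJ h r T (-(2 * Real.pi * v))‖ ≤ CL * T ^ 5 * E1 := by
    rw [hE1, ← integral_const_mul]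
    refine norm_integral_le_of_norm_le (hG.int.norm.const_mul _) (ae_of_all _ fun v => ?_)
    rw [norm_mul, mul_comm]
    exact mul_le_mul_of_nonneg_right (hL T hT h r _) (norm_nonneg _)
  have hT5 : (1 : ℝ) ≤ T ^ 5 := one_le_pow₀ (by linarith)
  calc ‖M2 w T h r‖ = ‖(M2 w T h r - ∫ v : ℝ, G v * JJ h r T (-(2 * Real.pi * v))) +
        ∫ v : ℝ, G v * JJ h r T (-(2 * Real.pi * v))‖ := by congr 1; ring
    _ ≤ D + CL * T ^ 5 * E1 := (norm_add_le _ _).trans (add_le_add s1 s2)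
    _ ≤ D * T ^ 5 + CL * T ^ 5 * E1 := by nlinarith
    _ = _ := by ring

end Pool.Agent.SixT
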