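import Mathlib
import Pool.Agent.Lib_MP_112ba8_t.T2Exact

/-!
Piece B8 is `T2Exact.lean` (helper2): `exists_GG`, `Sz_contour'`, `M2_exact`, `M2_swap`,
`M2main_swap`, `M2_bound`.
-/
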