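import Mathlib
import Pool.Agent.Lib_MP_112ba8_e.Defs

/-!
Definitions for the twisted second moment beyond the diagonal range.
-/

namespace Pool.Agent.T2

open Finset
open Pool.Agent.EvenMoment (Sz)

/-- average of `Sz` over the reduced fractions with denominator `q` -/
noncomputable def AA (q : ℕ) (η : ℂ) : ℂ :=
  (1 / (Nat.totient q : ℂ)) * ∑ u ∈ (range q).filter (Nat.Coprime q),
    Sz (2 * Real.pi * Complex.I * ((u : ℂ) / q) + η)

/-- the off-diagonal part -/
noncomputable def HH (q r : ℕ) (η : ℂ) : ℂ :=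
  Sz (2 * Real.pi * Complex.I * ((r : ℂ) / q) + η) - AA (q / Nat.gcd r q) η

/-- the sum over `n k ≤ m` -/
noncomputable def SS (F : ℕ → ℕ → ℂ) (q m : ℕ) (w : ℂ) : ℂ :=
  ∑ r ∈ Icc 1 m, ∑ p ∈ r.divisorsAntidiagonal, F p.1 p.2 * HH q r w

end Pool.Agent.T2
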