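import Pool.Agent.Lib_MP_112ba8_e.Defs
import Pool.Agent.Lib_MP_112ba8_e.ClassZero

/-!
T2ext, piece (5a): `Sz x = (c₀ - log x) / x + O(κ^4)` in the whole right half plane.
-/

set_option autoImplicit false

namespace Pool.Agent.T2ext

open Filter Topology MeasureTheory
open Pool.Agent.EvenMoment
open Pool.Agent.EvenMoment.P7b (one_sub_exp_le quad_le low exp_sub_one_ne term_le)

/-- the function `1/(e^w-1) - e^{-w}/w` -/
noncomputable def Fg (w : ℂ) : ℂ := 1 / (Complex.exp w - 1) - Complex.exp (-w) / w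

/-- its derivative -/
noncomputable def Fg' (w : ℂ) : ℂ :=
  Complex.exp (-w) * (((1 + w) * (1 - Complex.exp (-w)) ^ 2 - w ^ 2) /
    (w ^ 2 * (1 - Complex.exp (-w)) ^ 2))

lemma ne_zero_of_re {w : ℂ} (hw : 0 < w.re) : w ≠ 0 := by
  rintro rfl
  simp at hw

lemma one_sub_ne {w : ℂ} (hw : 0 < w.re) : 1 - Complex.exp (-w) ≠ 0 := by
  intro h
  have h1 := low hw
  rw [h, norm_zero] at h1
  have h2 : 0 < w.re / (1 + w.re) := by positivity
  linarith

lemma Fg_hasDerivAt {w : ℂ} (hw : 0 < w.re) : HasDerivAt Fg (Fg' w) w := by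
  have h0 := ne_zero_of_re hw
  have h1 := exp_sub_one_ne hw
  have h2 := one_sub_ne hw
  have d1 : HasDerivAt (fun z : ℂ => 1 / (Complex.exp z - 1))
      (-(Complex.exp w) / (Complex.exp w - 1) ^ 2) w := by
    have := ((Complex.hasDerivAt_exp w).sub_const 1).fun_inv h1
    simpa only [one_div] using this
  have d2 : HasDerivAt (fun z : ℂ => Complex.exp (-z)) (Complex.exp (-w) * (-1)) w :=
    (Complex.hasDerivAt_exp (-w)).comp w (hasDerivAt_neg w)
  have d3 := d2.div (hasDerivAt_id w) h0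
  have d4 : HasDerivAt Fg (-(Complex.exp w) / (Complex.exp w - 1) ^ 2 -
      (Complex.exp (-w) * (-1) * w - Complex.exp (-w) * 1) / w ^ 2) w := d1.fun_sub d3
  refine d4.congr_deriv ?_
  unfold Fg'
  have e1 : Complex.exp w - 1 = Complex.exp w * (1 - Complex.exp (-w)) := by
    rw [mul_sub, ← Complex.exp_add]
    simp
  have h3 := Complex.exp_ne_zero w
  rw [e1]
  have h4 : Complex.exp w * Complex.exp (-w) = 1 := by
    rw [← Complex.exp_add]; simp
  have h5 : Complex.exp (-w) = (Complex.exp w)⁻¹ := Complex.exp_neg w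
  have h6 : -(Complex.exp w) / (Complex.exp w * (1 - Complex.exp (-w))) ^ 2 =
      -Complex.exp (-w) / (1 - Complex.exp (-w)) ^ 2 := by
    rw [div_eq_div_iff (by positivity) (by positivity)]
    linear_combination (Complex.exp w * (1 - Complex.exp (-w)) ^ 2) * h4
  rw [h6]
  field_simp
  ring

lemma cubic_le {w : ℂ} (hw : 0 ≤ w.re) :
    ‖w ^ 2 - 2 * (w - 1 + Complex.exp (-w))‖ ≤ 2 * ‖w‖ ^ 3 := by
  have h := Convex.norm_image_sub_le_of_norm_deriv_le (𝕜 := ℂ)
    (f := fun z : ℂ => z ^ 2 - 2 * (z - 1 + Complex.exp (-z)))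
    (C := 2 * ‖w‖ ^ 2) (s := {z : ℂ | 0 ≤ z.re} ∩ Metric.closedBall 0 ‖w‖) (x := 0) (y := w)
    (fun z _ => by fun_prop)
    (fun z hz => by
      have h1 : HasDerivAt (fun z : ℂ => Complex.exp (-z)) (Complex.exp (-z) * (-1)) z :=
        (Complex.hasDerivAt_exp (-z)).comp z (hasDerivAt_neg z)
      have h2 : HasDerivAt (fun z : ℂ => z - 1 + Complex.exp (-z)) (1 + Complex.exp (-z) * (-1)) z :=
        ((hasDerivAt_id z).sub_const 1).add h1
      have h3 : HasDerivAt (fun z : ℂ => z ^ 2) (2 * z) z := by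
        simpa using hasDerivAt_pow 2 z
      have h4 := h3.sub (h2.const_mul 2)
      have h4' : HasDerivAt (fun z : ℂ => z ^ 2 - 2 * (z - 1 + Complex.exp (-z)))
          (2 * z - 2 * (1 + Complex.exp (-z) * (-1))) z := h4
      rw [h4'.deriv]
      have h5 : 2 * z - 2 * (1 + Complex.exp (-z) * (-1)) = 2 * (z - 1 + Complex.exp (-z)) := by ring
      rw [h5, norm_mul, Complex.norm_ofNat]
      have h6 := quad_le hz.1
      have h7 : ‖z‖ ≤ ‖w‖ := by simpa using hz.2
      have h8 : ‖z‖ ^ 2 ≤ ‖w‖ ^ 2 := pow_le_pow_left₀ (norm_nonneg _) h7 2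
      linarith)
    ((convex_halfSpace_re_ge 0).inter (convex_closedBall 0 ‖w‖)) (by simp)
    ⟨hw, by simp⟩
  have h9 : 2 * ‖w‖ ^ 2 * ‖w - 0‖ = 2 * ‖w‖ ^ 3 := by
    rw [sub_zero]; ring
  rw [h9] at h
  simpa using h

lemma quartic_le {w : ℂ} (hw : 0 ≤ w.re) :
    ‖(1 + w) * (1 - Complex.exp (-w)) ^ 2 - w ^ 2‖ ≤ 5 * (1 + ‖w‖) * ‖w‖ ^ 4 := by
  set q := w - 1 + Complex.exp (-w) with hq
  have e1 : (1 + w) * (1 - Complex.exp (-w)) ^ 2 - w ^ 2 =
      w * (w ^ 2 - 2 * q) - 2 * w ^ 2 * q + (1 + w) * q ^ 2 := by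
    have : 1 - Complex.exp (-w) = w - q := by rw [hq]; ring
    rw [this]
    ring
  have h1 := quad_le hw
  rw [← hq] at h1
  have h2 := cubic_le hw
  rw [← hq] at h2
  have h3 : ‖(1 : ℂ) + w‖ ≤ 1 + ‖w‖ := by
    simpa using norm_add_le (1 : ℂ) w
  rw [e1]
  have hn := norm_nonneg w
  calc ‖w * (w ^ 2 - 2 * q) - 2 * w ^ 2 * q + (1 + w) * q ^ 2‖
      ≤ ‖w * (w ^ 2 - 2 * q)‖ + ‖2 * w ^ 2 * q‖ + ‖(1 + w) * q ^ 2‖ := by
        refine (norm_add_le _ _).trans ?_
        gcongr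
        exact norm_sub_le _ _
    _ = ‖w‖ * ‖w ^ 2 - 2 * q‖ + 2 * ‖w‖ ^ 2 * ‖q‖ + ‖1 + w‖ * ‖q‖ ^ 2 := by
        simp [norm_pow]
    _ ≤ ‖w‖ * (2 * ‖w‖ ^ 3) + 2 * ‖w‖ ^ 2 * ‖w‖ ^ 2 + (1 + ‖w‖) * (‖w‖ ^ 2) ^ 2 := by
        gcongr
    _ ≤ 5 * (1 + ‖w‖) * ‖w‖ ^ 4 := by
        nlinarith [pow_nonneg hn 4, pow_nonneg hn 5]

lemma kappa_ge {w : ℂ} (hw : 0 < w.re) : 1 ≤ ‖w‖ / w.re := by
  rw [le_div_iff₀ hw, one_mul]
  exact (le_abs_self _).trans (Complex.abs_re_le_norm w)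

lemma Fg'_le {w : ℂ} (hw : 0 < w.re) :
    ‖Fg' w‖ ≤ 1080 * (‖w‖ / w.re) ^ 3 * Real.exp (-(w.re / 2)) := by
  set r := w.re with hr
  have hn : 0 < ‖w‖ := norm_pos_iff.mpr (ne_zero_of_re hw)
  have hκ := kappa_ge hw
  rw [← hr] at hκ
  have hlow := low hw
  rw [← hr] at hlow
  have hpos : 0 < r / (1 + r) := by positivity
  unfold Fg'
  rw [norm_mul, norm_div, norm_mul, norm_pow, norm_pow, Complex.norm_exp, Complex.neg_re, ← hr]
  have h1 : ‖(1 + w) * (1 - Complex.exp (-w)) ^ 2 - w ^ 2‖ / (‖w‖ ^ 2 * ‖1 - Complex.exp (-w)‖ ^ 2)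
      ≤ 5 * (1 + ‖w‖) * ‖w‖ ^ 4 / (‖w‖ ^ 2 * (r / (1 + r)) ^ 2) := by
    have := quartic_le hw.le
    gcongr
  have h2 : 5 * (1 + ‖w‖) * ‖w‖ ^ 4 / (‖w‖ ^ 2 * (r / (1 + r)) ^ 2) =
      5 * (1 + ‖w‖) * (‖w‖ / r) ^ 2 * (1 + r) ^ 2 := by
    field_simp
  have h3 : 1 + ‖w‖ ≤ (‖w‖ / r) * (1 + r) := by
    have : ‖w‖ / r * (1 + r) = ‖w‖ / r + ‖w‖ := by field_simp
    rw [this]
    linarith
  have h4 : (1 + r) ^ 3 * Real.exp (-r) ≤ 216 * Real.exp (-(r / 2)) := by
    have e1 : 1 + r ≤ 6 * Real.exp (r / 6) := by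
      have := Real.add_one_le_exp (r / 6)
      linarith
    have e2 : (1 + r) ^ 3 ≤ 216 * Real.exp (r / 2) := by
      calc (1 + r) ^ 3 ≤ (6 * Real.exp (r / 6)) ^ 3 := by gcongr
        _ = 216 * Real.exp (r / 2) := by
          rw [mul_pow, ← Real.exp_nat_mul]
          norm_num
          ring_nf
    calc (1 + r) ^ 3 * Real.exp (-r) ≤ 216 * Real.exp (r / 2) * Real.exp (-r) := by gcongr
      _ = 216 * Real.exp (-(r / 2)) := by
        rw [mul_assoc, ← Real.exp_add]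
        ring_nf
  calc Real.exp (-r) * (‖(1 + w) * (1 - Complex.exp (-w)) ^ 2 - w ^ 2‖ /
        (‖w‖ ^ 2 * ‖1 - Complex.exp (-w)‖ ^ 2))
      ≤ Real.exp (-r) * (5 * (1 + ‖w‖) * (‖w‖ / r) ^ 2 * (1 + r) ^ 2) := by
        rw [← h2]
        gcongr
    _ ≤ Real.exp (-r) * (5 * ((‖w‖ / r) * (1 + r)) * (‖w‖ / r) ^ 2 * (1 + r) ^ 2) := by
        gcongr
    _ = 5 * (‖w‖ / r) ^ 3 * ((1 + r) ^ 3 * Real.exp (-r)) := by ring
    _ ≤ 5 * (‖w‖ / r) ^ 3 * (216 * Real.exp (-(r / 2))) := by gcongr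
    _ = 1080 * (‖w‖ / r) ^ 3 * Real.exp (-(r / 2)) := by ring

lemma Fg_le {w : ℂ} (hw : 0 < w.re) : ‖Fg w‖ ≤ 2 * (‖w‖ / w.re) * Real.exp (-(w.re / 2)) :=
  term_le hw

/-- the function along a ray -/
lemma ray_hasDerivAt {x : ℂ} (hx : 0 < x.re) {t : ℝ} (ht : 0 < t) :
    HasDerivAt (fun t : ℝ => Fg (t * x)) (x * Fg' (t * x)) t := by
  have h1 : HasDerivAt (fun t : ℝ => (t : ℂ) * x) (1 * x) t :=
    (Complex.ofRealCLM.hasDerivAt (x := t)).mul_const x
  have hre : 0 < ((t : ℂ) * x).re := by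
    simp only [Complex.mul_re, Complex.ofReal_re, Complex.ofReal_im, zero_mul, sub_zero]
    positivity
  have h2 := (Fg_hasDerivAt hre).comp_of_eq t h1 rfl
  refine HasDerivAt.congr_deriv h2 ?_
  ring

lemma ray_re (x : ℂ) (t : ℝ) : ((t : ℂ) * x).re = t * x.re := by
  simp [Complex.mul_re]

lemma ray_norm (x : ℂ) {t : ℝ} (ht : 0 ≤ t) : ‖(t : ℂ) * x‖ = t * ‖x‖ := by
  rw [norm_mul, Complex.norm_real, Real.norm_of_nonneg ht]

lemma ray_le {x : ℂ} (hx : 0 < x.re) {t : ℝ} (ht : 0 < t) :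
    ‖Fg (t * x)‖ ≤ 2 * (‖x‖ / x.re) * Real.exp (-(x.re / 2 * t)) := by
  have h := Fg_le (w := (t : ℂ) * x) (by rw [ray_re]; positivity)
  rw [ray_re, ray_norm x ht.le, mul_div_mul_left _ _ ht.ne'] at h
  refine h.trans (le_of_eq ?_)
  congr 2
  ring

lemma ray'_le {x : ℂ} (hx : 0 < x.re) {t : ℝ} (ht : 0 < t) :
    ‖Fg' (t * x)‖ ≤ 1080 * (‖x‖ / x.re) ^ 3 * Real.exp (-(x.re / 2 * t)) := by
  have h := Fg'_le (w := (t : ℂ) * x) (by rw [ray_re]; positivity)
  rw [ray_re, ray_norm x ht.le, mul_div_mul_left _ _ ht.ne'] at h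
  refine h.trans (le_of_eq ?_)
  congr 2
  ring

lemma ray_cont {x : ℂ} (hx : 0 < x.re) : ContinuousOn (fun t : ℝ => Fg (t * x)) (Set.Ioi 0) :=
  fun _ ht => (ray_hasDerivAt hx ht).continuousAt.continuousWithinAt

lemma exp_int {c : ℝ} (hc : 0 < c) : IntegrableOn (fun t : ℝ => Real.exp (-(c * t))) (Set.Ioi 0) := by
  have := integrableOn_exp_mul_Ioi (a := -c) (by linarith) 0
  refine this.congr_fun (fun t _ => ?_) measurableSet_Ioi
  simp only [neg_mul]

lemma ray_int {x : ℂ} (hx : 0 < x.re) : IntegrableOn (fun t : ℝ => Fg (t * x)) (Set.Ioi 0) := by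
  refine Integrable.mono' ((exp_int (c := x.re / 2) (by linarith)).const_mul (2 * (‖x‖ / x.re))) ?_ ?_
  · exact (ray_cont hx).aestronglyMeasurable measurableSet_Ioi
  · filter_upwards [ae_restrict_mem measurableSet_Ioi] with t ht
    exact ray_le hx ht

/-- the integral along the ray -/
noncomputable def Ig (x : ℂ) : ℂ := ∫ t in Set.Ioi (0 : ℝ), Fg (t * x)

lemma Fg'_meas : Measurable Fg' := by
  unfold Fg'
  fun_prop

lemma Fg_meas : Measurable Fg := by
  unfold Fg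
  fun_prop

lemma exp_int_t {c : ℝ} (hc : 0 < c) :
    IntegrableOn (fun t : ℝ => t * Real.exp (-(c * t))) (Set.Ioi 0) := by
  refine Integrable.mono' ((exp_int (c := c / 2) (by linarith)).const_mul (2 / c)) ?_ ?_
  · exact (by fun_prop : Measurable fun t : ℝ => t * Real.exp (-(c * t))).aestronglyMeasurable
  · filter_upwards [ae_restrict_mem measurableSet_Ioi] with t ht
    have ht' : 0 < t := ht
    rw [norm_mul, Real.norm_of_nonneg ht'.le, Real.norm_of_nonneg (Real.exp_pos _).le]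
    have h1 : t ≤ 2 / c * Real.exp (c / 2 * t) := by
      have := Real.add_one_le_exp (c / 2 * t)
      have h2 : c / 2 * t ≤ Real.exp (c / 2 * t) := by linarith
      calc t = 2 / c * (c / 2 * t) := by field_simp
        _ ≤ 2 / c * Real.exp (c / 2 * t) := by gcongr
    calc t * Real.exp (-(c * t)) ≤ 2 / c * Real.exp (c / 2 * t) * Real.exp (-(c * t)) := by gcongr
      _ = 2 / c * Real.exp (-(c / 2 * t)) := by
        rw [mul_assoc, ← Real.exp_add]
        ring_nf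

lemma Ig_hasDerivAt {x : ℂ} (hx : 0 < x.re) :
    IntegrableOn (fun t : ℝ => (t : ℂ) * Fg' (t * x)) (Set.Ioi 0) ∧
    HasDerivAt Ig (∫ t in Set.Ioi (0 : ℝ), (t : ℂ) * Fg' (t * x)) x := by
  have hball : ∀ y ∈ Metric.ball x (x.re / 2), x.re / 2 < y.re ∧ ‖y‖ / y.re ≤ 3 * (‖x‖ / x.re) := by
    intro y hy
    rw [Metric.mem_ball, dist_eq_norm] at hy
    have h1 : |(y - x).re| ≤ ‖y - x‖ := Complex.abs_re_le_norm _
    rw [Complex.sub_re] at h1
    have h2 := (abs_le.mp h1).1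
    have h3 : x.re / 2 < y.re := by linarith
    refine ⟨h3, ?_⟩
    have h4 : ‖y‖ ≤ ‖x‖ + x.re / 2 := by
      have := norm_add_le x (y - x)
      rw [add_sub_cancel] at this
      linarith
    have h5 : x.re ≤ ‖x‖ := (le_abs_self _).trans (Complex.abs_re_le_norm x)
    have hy0 : 0 < y.re := by linarith
    rw [div_le_iff₀ hy0]
    have h6 : ‖x‖ / x.re * x.re = ‖x‖ := by field_simp
    have h7 : 0 ≤ ‖x‖ / x.re := by positivity
    nlinarith
  refine hasDerivAt_integral_of_dominated_loc_of_deriv_le (𝕜 := ℂ) (μ := volume.restrict (Set.Ioi 0))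
    (F := fun (y : ℂ) (t : ℝ) => Fg (t * y)) (F' := fun (y : ℂ) (t : ℝ) => (t : ℂ) * Fg' (t * y))
    (s := Metric.ball x (x.re / 2)) (x₀ := x)
    (bound := fun t => 1080 * (3 * (‖x‖ / x.re)) ^ 3 * (t * Real.exp (-(x.re / 4 * t))))
    (Metric.ball_mem_nhds x (by linarith)) ?_ (ray_int hx) ?_ ?_ ?_ ?_
  · exact Eventually.of_forall fun y =>
      (Fg_meas.comp (by fun_prop : Measurable fun t : ℝ => (t : ℂ) * y)).aestronglyMeasurable
  · exact (Measurable.mul (by fun_prop) (Fg'_meas.comp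
      (by fun_prop : Measurable fun t : ℝ => (t : ℂ) * x))).aestronglyMeasurable
  · filter_upwards [ae_restrict_mem measurableSet_Ioi] with t ht y hy
    have ht' : 0 < t := ht
    obtain ⟨h1, h2⟩ := hball y hy
    have hy0 : 0 < y.re := by linarith
    have h3 := ray'_le hy0 ht'
    rw [norm_mul, Complex.norm_real, Real.norm_of_nonneg ht'.le]
    have h4 : Real.exp (-(y.re / 2 * t)) ≤ Real.exp (-(x.re / 4 * t)) := by
      apply Real.exp_le_exp.mpr
      nlinarith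
    calc t * ‖Fg' (t * y)‖ ≤ t * (1080 * (‖y‖ / y.re) ^ 3 * Real.exp (-(y.re / 2 * t))) := by gcongr
      _ ≤ t * (1080 * (3 * (‖x‖ / x.re)) ^ 3 * Real.exp (-(x.re / 4 * t))) := by gcongr
      _ = _ := by ring
  · exact (exp_int_t (c := x.re / 4) (by linarith)).const_mul _
  · filter_upwards [ae_restrict_mem measurableSet_Ioi] with t ht y hy
    have ht' : 0 < t := ht
    obtain ⟨h1, h2⟩ := hball y hy
    have hy0 : 0 < y.re := by linarith
    have h3 : HasDerivAt (fun y : ℂ => (t : ℂ) * y) ((t : ℂ) * 1) y :=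
      (hasDerivAt_id y).const_mul (t : ℂ)
    have hre : 0 < ((t : ℂ) * y).re := by
      rw [ray_re]; positivity
    have h4 := (Fg_hasDerivAt hre).comp_of_eq y h3 rfl
    refine HasDerivAt.congr_deriv h4 ?_
    ring

lemma Ig_zero {x : ℂ} (hx : 0 < x.re) :
    Ig x + x * ∫ t in Set.Ioi (0 : ℝ), (t : ℂ) * Fg' (t * x) = 0 := by
  have hI := (Ig_hasDerivAt hx).1
  have h1 : ∫ t in Set.Ioi (0 : ℝ), (Fg (t * x) + x * ((t : ℂ) * Fg' (t * x))) = 0 - (0 : ℂ) := by
    have h0 : ((0 : ℝ) : ℂ) * Fg ((0 : ℝ) * x) = 0 := by simp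
    have hbd : ∀ t : ℝ, 0 < t → ‖(t : ℂ) * Fg (t * x)‖ ≤
        2 * (‖x‖ / x.re) * (t * Real.exp (-(x.re / 2 * t))) := by
      intro t ht
      rw [norm_mul, Complex.norm_real, Real.norm_of_nonneg ht.le]
      calc t * ‖Fg (t * x)‖ ≤ t * (2 * (‖x‖ / x.re) * Real.exp (-(x.re / 2 * t))) := by
            gcongr
            exact ray_le hx ht
        _ = _ := by ring
    refine (integral_Ioi_of_hasDerivAt_of_tendsto (f := fun t : ℝ => (t : ℂ) * Fg (t * x)) (m := 0)
      ?_ ?_ ?_ ?_).trans (by rw [h0])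
    · rw [ContinuousWithinAt, h0]
      refine squeeze_zero_norm' (a := fun t : ℝ => 2 * (‖x‖ / x.re) * t) ?_ ?_
      · filter_upwards [self_mem_nhdsWithin] with t ht
        rcases (show (0 : ℝ) ≤ t from ht).eq_or_lt with h | h
        · rw [← h]; simp
        · refine (hbd t h).trans ?_
          have : Real.exp (-(x.re / 2 * t)) ≤ 1 := Real.exp_le_one_iff.mpr (by nlinarith)
          have h7 : 0 ≤ ‖x‖ / x.re := by positivity
          calc 2 * (‖x‖ / x.re) * (t * Real.exp (-(x.re / 2 * t))) ≤ 2 * (‖x‖ / x.re) * (t * 1) := by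
                gcongr
            _ = _ := by ring
      · have : Tendsto (fun t : ℝ => 2 * (‖x‖ / x.re) * t) (𝓝 0) (𝓝 (2 * (‖x‖ / x.re) * 0)) :=
          tendsto_id.const_mul _
        rw [mul_zero] at this
        exact this.mono_left nhdsWithin_le_nhds
    · intro t ht
      have h3 := ((Complex.ofRealCLM.hasDerivAt (x := t))).mul (ray_hasDerivAt hx ht)
      refine HasDerivAt.congr_deriv h3 ?_
      simp only [Complex.ofRealCLM_apply, Complex.ofReal_one]
      ring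
    · exact (ray_int hx).add (hI.const_mul x)
    · refine squeeze_zero_norm' (a := fun t : ℝ => 2 * (‖x‖ / x.re) * (t * Real.exp (-(x.re / 2 * t)))) ?_ ?_
      · filter_upwards [eventually_gt_atTop 0] with t ht
        exact hbd t ht
      · have h4 : Tendsto (fun t : ℝ => t * Real.exp (-(x.re / 2 * t))) atTop (𝓝 0) := by
          have h5 := Real.tendsto_pow_mul_exp_neg_atTop_nhds_zero 1
          have h6 : Tendsto (fun t : ℝ => x.re / 2 * t) atTop atTop :=
            tendsto_id.const_mul_atTop (by linarith)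
          have h7 := (h5.comp h6).const_mul (2 / x.re)
          rw [mul_zero] at h7
          refine h7.congr fun t => ?_
          simp only [Function.comp, pow_one]
          field_simp
        have := h4.const_mul (2 * (‖x‖ / x.re))
        rwa [mul_zero] at this
  rw [integral_add (ray_int hx) (hI.const_mul x), integral_const_mul, sub_zero] at h1
  exact h1

lemma Ig_const : ∃ c : ℂ, ∀ x : ℂ, 0 < x.re → x * Ig x = c := by
  refine ⟨1 * Ig 1, fun x hx => ?_⟩
  have h := Convex.norm_image_sub_le_of_norm_hasDerivWithin_le (𝕜 := ℂ) (f := fun x : ℂ => x * Ig x)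
    (f' := fun _ => 0) (C := 0) (s := {z : ℂ | 0 < z.re}) (x := 1) (y := x)
    (fun z hz => by
      have h1 := (hasDerivAt_id z).mul (Ig_hasDerivAt hz).2
      have h2 := Ig_zero hz
      refine (HasDerivAt.congr_deriv h1 ?_).hasDerivWithinAt
      simpa using h2)
    (fun z _ => by simp) (convex_halfSpace_re_gt 0) (by simp) hx
  rw [zero_mul] at h
  have h3 := norm_le_zero_iff.mp h
  exact sub_eq_zero.mp h3

lemma term_geo {x : ℂ} (hx : 0 < x.re) (b : ℕ) :
    ‖Fg (((b : ℝ) + 1 : ℝ) * x)‖ ≤ 2 * (‖x‖ / x.re) * Real.exp (-(x.re / 2)) ^ (b + 1) := by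
  have hb : (0 : ℝ) < b + 1 := by positivity
  refine (ray_le hx hb).trans (le_of_eq ?_)
  rw [← Real.exp_nat_mul]
  congr 2
  push_cast
  ring

lemma geo_hasSum {r : ℝ} (hr : 0 < r) (K : ℝ) :
    HasSum (fun b : ℕ => K * Real.exp (-(r / 2)) ^ (b + 1))
      (K * (Real.exp (-(r / 2)) * (1 - Real.exp (-(r / 2)))⁻¹)) := by
  have hr0 : 0 < Real.exp (-(r / 2)) := Real.exp_pos _
  have hr1 : Real.exp (-(r / 2)) < 1 := Real.exp_lt_one_iff.mpr (by linarith)
  have h1 := (hasSum_geometric_of_lt_one hr0.le hr1).mul_left (Real.exp (-(r / 2)))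
  have h2 := h1.mul_left K
  have heq : (fun b : ℕ => K * Real.exp (-(r / 2)) ^ (b + 1)) =
      fun b : ℕ => K * (Real.exp (-(r / 2)) * Real.exp (-(r / 2)) ^ b) := by
    funext b
    rw [pow_succ]
    ring
  rw [heq]
  exact h2

lemma geo_le {r : ℝ} (hr : 0 < r) :
    Real.exp (-(r / 2)) * (1 - Real.exp (-(r / 2)))⁻¹ ≤ 2 / r := by
  have hr1 : Real.exp (-(r / 2)) < 1 := Real.exp_lt_one_iff.mpr (by linarith)
  rw [← div_eq_mul_inv, div_le_div_iff₀ (by linarith) hr]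
  have h2 : Real.exp (-(r / 2)) * Real.exp (r / 2) = 1 := by
    rw [← Real.exp_add]; simp
  nlinarith [Real.add_one_le_exp (r / 2)]

/-- the sum `∑ Fg ((b+1) x)` -/
noncomputable def Sg (x : ℂ) : ℂ := ∑' b : ℕ, Fg (((b : ℝ) + 1 : ℝ) * x)

lemma Sg_summable {x : ℂ} (hx : 0 < x.re) :
    Summable (fun b : ℕ => Fg (((b : ℝ) + 1 : ℝ) * x)) :=
  Summable.of_norm_bounded (geo_hasSum hx _).summable (term_geo hx)

lemma Sg_le {x : ℂ} (hx : 0 < x.re) : ‖Sg x‖ ≤ 4 * (‖x‖ / x.re) / x.re := by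
  refine (tsum_of_norm_bounded (geo_hasSum hx _) (term_geo hx)).trans ?_
  have h7 : 0 ≤ ‖x‖ / x.re := by positivity
  calc 2 * (‖x‖ / x.re) * (Real.exp (-(x.re / 2)) * (1 - Real.exp (-(x.re / 2)))⁻¹)
      ≤ 2 * (‖x‖ / x.re) * (2 / x.re) := by
        gcongr
        exact geo_le hx
    _ = _ := by ring

lemma exp_integral {c : ℝ} (hc : 0 < c) : ∫ t in Set.Ioi (0 : ℝ), Real.exp (-(c * t)) = 1 / c := by
  have h := integral_exp_mul_Ioi (a := -c) (by linarith) 0
  have h2 : ∫ t in Set.Ioi (0 : ℝ), Real.exp (-(c * t)) = ∫ t in Set.Ioi (0 : ℝ), Real.exp (-c * t) := by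
    refine setIntegral_congr_fun measurableSet_Ioi fun t _ => ?_
    simp only [neg_mul]
  rw [h2, h]
  simp

lemma Ig_le {x : ℂ} (hx : 0 < x.re) : ‖Ig x‖ ≤ 4 * (‖x‖ / x.re) / x.re := by
  unfold Ig
  refine (norm_integral_le_of_norm_le (g := fun t => 2 * (‖x‖ / x.re) * Real.exp (-(x.re / 2 * t)))
    ((exp_int (c := x.re / 2) (by linarith)).const_mul (2 * (‖x‖ / x.re))) ?_).trans ?_
  · filter_upwards [ae_restrict_mem measurableSet_Ioi] with t ht
    exact ray_le hx ht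
  · rw [integral_const_mul, exp_integral (by linarith)]
    apply le_of_eq
    field_simp
    ring

lemma step_le {x : ℂ} (hx : 0 < x.re) (b : ℕ) :
    ‖Fg (((b : ℝ) + 1 : ℝ) * x) - ∫ t in (b : ℝ)..((b : ℝ) + 1), Fg (t * x)‖ ≤
      ‖x‖ * (1080 * (‖x‖ / x.re) ^ 3) * Real.exp (-(x.re / 2)) ^ b := by
  have hb : (0 : ℝ) ≤ b := by positivity
  have hint : IntervalIntegrable (fun t : ℝ => Fg (t * x)) volume (b : ℝ) ((b : ℝ) + 1) := by
    rw [intervalIntegrable_iff_integrableOn_Ioc_of_le (by linarith)]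
    exact (ray_int hx).mono_set (fun t ht => lt_of_le_of_lt hb ht.1)
  have h1 : Fg (((b : ℝ) + 1 : ℝ) * x) - ∫ t in (b : ℝ)..((b : ℝ) + 1), Fg (t * x) =
      ∫ t in (b : ℝ)..((b : ℝ) + 1), (Fg (((b : ℝ) + 1 : ℝ) * x) - Fg (t * x)) := by
    rw [intervalIntegral.integral_sub (by simp) hint]
    simp
  rw [h1]
  have h2 : ∀ t ∈ Set.uIoc (b : ℝ) ((b : ℝ) + 1), ‖Fg (((b : ℝ) + 1 : ℝ) * x) - Fg (t * x)‖ ≤
      ‖x‖ * (1080 * (‖x‖ / x.re) ^ 3) * Real.exp (-(x.re / 2)) ^ b := by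
    intro t ht
    rw [Set.uIoc_of_le (by linarith)] at ht
    have ht0 : 0 < t := lt_of_le_of_lt hb ht.1
    have h3 := Convex.norm_image_sub_le_of_norm_hasDerivWithin_le (𝕜 := ℝ)
      (f := fun t : ℝ => Fg (t * x)) (f' := fun t : ℝ => x * Fg' (t * x))
      (C := ‖x‖ * (1080 * (‖x‖ / x.re) ^ 3) * Real.exp (-(x.re / 2)) ^ b)
      (s := Set.Icc t ((b : ℝ) + 1)) (x := t) (y := (b : ℝ) + 1)
      (fun s hs => (ray_hasDerivAt hx (lt_of_lt_of_le ht0 hs.1)).hasDerivWithinAt)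
      (fun s hs => by
        have hs0 : 0 < s := lt_of_lt_of_le ht0 hs.1
        rw [norm_mul]
        have h4 := ray'_le hx hs0
        have h5 : Real.exp (-(x.re / 2 * s)) ≤ Real.exp (-(x.re / 2)) ^ b := by
          rw [← Real.exp_nat_mul]
          apply Real.exp_le_exp.mpr
          have : (b : ℝ) ≤ s := ht.1.le.trans hs.1
          nlinarith
        calc ‖x‖ * ‖Fg' (s * x)‖ ≤ ‖x‖ * (1080 * (‖x‖ / x.re) ^ 3 * Real.exp (-(x.re / 2 * s))) := by
              gcongr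
          _ ≤ ‖x‖ * (1080 * (‖x‖ / x.re) ^ 3 * Real.exp (-(x.re / 2)) ^ b) := by gcongr
          _ = _ := by ring)
      (convex_Icc _ _) ⟨le_refl _, ht.2⟩ ⟨ht.2, le_refl _⟩
    refine h3.trans ?_
    have h6 : ‖(b : ℝ) + 1 - t‖ ≤ 1 := by
      rw [Real.norm_eq_abs, abs_le]
      constructor <;> linarith [ht.1, ht.2]
    have h7 : 0 ≤ ‖x‖ * (1080 * (‖x‖ / x.re) ^ 3) * Real.exp (-(x.re / 2)) ^ b := by positivity
    exact mul_le_of_le_one_right h7 h6
  have h8 := intervalIntegral.norm_integral_le_of_norm_le_const h2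
  simpa using h8

lemma Sg_sub_Ig {x : ℂ} (hx : 0 < x.re) : ‖Sg x - Ig x‖ ≤ 3240 * (‖x‖ / x.re) ^ 4 := by
  have hκ := kappa_ge hx
  rcases le_or_gt 1 x.re with h1 | h1
  · have h2 := Sg_le hx
    have h3 := Ig_le hx
    have h4 : ‖x‖ / x.re / x.re ≤ ‖x‖ / x.re := div_le_self (by positivity) h1
    have h5 : ‖x‖ / x.re ≤ (‖x‖ / x.re) ^ 4 := le_self_pow₀ hκ (by norm_num)
    calc ‖Sg x - Ig x‖ ≤ ‖Sg x‖ + ‖Ig x‖ := norm_sub_le _ _
      _ ≤ 4 * (‖x‖ / x.re) / x.re + 4 * (‖x‖ / x.re) / x.re := add_le_add h2 h3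
      _ = 8 * (‖x‖ / x.re / x.re) := by ring
      _ ≤ 3240 * (‖x‖ / x.re) ^ 4 := by nlinarith
  · set M := ‖x‖ * (1080 * (‖x‖ / x.re) ^ 3) with hM
    have hM0 : 0 ≤ M := by positivity
    have hr0 : 0 < Real.exp (-(x.re / 2)) := Real.exp_pos _
    have hr1 : Real.exp (-(x.re / 2)) < 1 := Real.exp_lt_one_iff.mpr (by linarith)
    have t1 : Tendsto (fun n : ℕ => ∑ b ∈ Finset.range n, Fg (((b : ℝ) + 1 : ℝ) * x)) atTop
        (𝓝 (Sg x)) := (Sg_summable hx).hasSum.tendsto_sum_nat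
    have t2 : Tendsto (fun n : ℕ => ∫ t in (0 : ℝ)..(n : ℝ), Fg (t * x)) atTop (𝓝 (Ig x)) :=
      intervalIntegral_tendsto_integral_Ioi 0 (ray_int hx) tendsto_natCast_atTop_atTop
    refine le_of_tendsto (t1.sub t2).norm (Eventually.of_forall fun n => ?_)
    have h2 : ∫ t in (0 : ℝ)..(n : ℝ), Fg (t * x) =
        ∑ b ∈ Finset.range n, ∫ t in (b : ℝ)..((b : ℝ) + 1), Fg (t * x) := by
      have h3 := intervalIntegral.sum_integral_adjacent_intervals (f := fun t : ℝ => Fg (t * x))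
        (μ := volume) (a := fun k : ℕ => (k : ℝ)) (n := n) (fun k _ => by
          rw [intervalIntegrable_iff_integrableOn_Ioc_of_le (by push_cast; linarith)]
          exact (ray_int hx).mono_set (fun t ht => lt_of_le_of_lt (by positivity) ht.1))
      simp only [Nat.cast_zero] at h3
      rw [← h3]
      refine Finset.sum_congr rfl fun b _ => ?_
      push_cast
      rfl
    rw [h2, ← Finset.sum_sub_distrib]
    refine (norm_sum_le_of_le _ fun b _ => step_le hx b).trans ?_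
    rw [← hM, ← Finset.mul_sum]
    have h4 : ∑ b ∈ Finset.range n, Real.exp (-(x.re / 2)) ^ b ≤ (1 - Real.exp (-(x.re / 2)))⁻¹ := by
      have h5 := hasSum_geometric_of_lt_one hr0.le hr1
      exact sum_le_hasSum _ (fun i _ => by positivity) h5
    have h6 : (1 - Real.exp (-(x.re / 2)))⁻¹ ≤ 3 / x.re := by
      rw [inv_le_comm₀ (by linarith) (by positivity), inv_div]
      have h7 : Real.exp (-(x.re / 2)) ≤ (1 + x.re / 2)⁻¹ := by
        rw [Real.exp_neg]
        exact inv_anti₀ (by linarith) (by linarith [Real.add_one_le_exp (x.re / 2)])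
      have h8 : (1 + x.re / 2)⁻¹ ≤ 1 - x.re / 3 := by
        rw [inv_le_iff_one_le_mul₀ (by linarith)]
        nlinarith
      linarith
    calc M * ∑ b ∈ Finset.range n, Real.exp (-(x.re / 2)) ^ b ≤ M * (3 / x.re) := by
          gcongr
          exact h4.trans h6
      _ = 3240 * (‖x‖ / x.re) ^ 4 := by
          rw [hM]
          field_simp
          ring

lemma Sz_eq {x : ℂ} (hx : 0 < x.re) :
    Summable (fun b : ℕ => 1 / (Complex.exp (((b : ℂ) + 1) * x) - 1)) ∧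
    Sz x = Sg x - Complex.log (1 - Complex.exp (-x)) / x := by
  have hz : ‖Complex.exp (-x)‖ < 1 := by
    rw [Complex.norm_exp, Complex.neg_re]
    exact Real.exp_lt_one_iff.mpr (by linarith)
  have hS0 := Complex.hasSum_taylorSeries_neg_log hz
  have hS1 : HasSum (fun b : ℕ => Complex.exp (-x) ^ (b + 1) / ((b + 1 : ℕ) : ℂ))
      (-Complex.log (1 - Complex.exp (-x))) := by
    have := (hasSum_nat_add_iff' (f := fun n : ℕ => Complex.exp (-x) ^ n / (n : ℂ)) 1).mpr hS0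
    simpa using this
  have hS2 : HasSum (fun b : ℕ => Complex.exp (-((b + 1) * x)) / ((b + 1) * x))
      (-Complex.log (1 - Complex.exp (-x)) / x) := by
    have := hS1.div_const x
    have heq : (fun b : ℕ => Complex.exp (-((b + 1) * x)) / ((b + 1) * x)) =
        fun b : ℕ => Complex.exp (-x) ^ (b + 1) / ((b + 1 : ℕ) : ℂ) / x := by
      funext b
      have h1 : Complex.exp (-((b + 1 : ℂ) * x)) = Complex.exp (-x) ^ (b + 1) := by
        rw [← Complex.exp_nat_mul]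
        congr 1
        push_cast
        ring
      rw [h1, div_div]
      push_cast
      rfl
    rw [heq]
    exact this
  have hg : HasSum (fun b : ℕ => 1 / (Complex.exp (((b : ℂ) + 1) * x) - 1) -
      Complex.exp (-((b + 1) * x)) / ((b + 1) * x)) (Sg x) := by
    have h1 : HasSum (fun b : ℕ => Fg (((b : ℝ) + 1 : ℝ) * x)) (Sg x) := (Sg_summable hx).hasSum
    have heq : (fun b : ℕ => Fg (((b : ℝ) + 1 : ℝ) * x)) =
        fun b : ℕ => 1 / (Complex.exp (((b : ℂ) + 1) * x) - 1) -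
          Complex.exp (-((b + 1) * x)) / ((b + 1) * x) := by
      funext b
      unfold Fg
      push_cast
      rfl
    rw [heq] at h1
    exact h1
  have hs := hg.add hS2
  have heq : (fun b : ℕ => 1 / (Complex.exp (((b : ℂ) + 1) * x) - 1) -
      Complex.exp (-((b + 1) * x)) / ((b + 1) * x) + Complex.exp (-((b + 1) * x)) / ((b + 1) * x)) =
      fun b : ℕ => 1 / (Complex.exp (((b : ℂ) + 1) * x) - 1) := by
    funext b
    ring
  rw [heq] at hs
  refine ⟨hs.summable, ?_⟩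
  unfold Sz
  rw [hs.tsum_eq]
  ring

lemma log_part {x : ℂ} (hx : 0 < x.re) :
    ‖(Complex.log x - Complex.log (1 - Complex.exp (-x))) / x‖ ≤ 22 * (‖x‖ / x.re) := by
  have hκ := kappa_ge hx
  have hx0 := ne_zero_of_re hx
  have hn : 0 < ‖x‖ := norm_pos_iff.mpr hx0
  have hone := one_sub_ne hx
  rcases le_or_gt ‖x‖ (1 / 2) with h1 | h1
  · set u := (1 - Complex.exp (-x)) / x with hu
    have hu1 : ‖u - 1‖ ≤ ‖x‖ := by
      have e1 : u - 1 = -(x - 1 + Complex.exp (-x)) / x := by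
        rw [hu]
        field_simp
        ring
      rw [e1, norm_div, norm_neg, div_le_iff₀ hn]
      have := quad_le hx.le
      nlinarith
    have hure : 0 < u.re := by
      have h2 : |(u - 1).re| ≤ 1 / 2 := (Complex.abs_re_le_norm _).trans (hu1.trans h1)
      rw [Complex.sub_re, Complex.one_re] at h2
      linarith [(abs_le.mp h2).1]
    have hu0 := ne_zero_of_re hure
    have e2 : 1 - Complex.exp (-x) = x * u := by
      rw [hu]
      field_simp
    have a1 : |Complex.arg x| < Real.pi / 2 := Complex.abs_arg_lt_pi_div_two_iff.mpr (Or.inl hx)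
    have a2 : |Complex.arg u| < Real.pi / 2 := Complex.abs_arg_lt_pi_div_two_iff.mpr (Or.inl hure)
    have e3 : Complex.log (1 - Complex.exp (-x)) = Complex.log x + Complex.log u := by
      rw [e2]
      apply Complex.log_mul hx0 hu0
      rw [abs_lt] at a1 a2
      constructor <;> linarith
    have e4 : Complex.log x - Complex.log (1 - Complex.exp (-x)) = -Complex.log u := by
      rw [e3]
      ring
    rw [e4, norm_div, norm_neg, div_le_iff₀ hn]
    have h3 := Complex.norm_log_one_add_half_le_self (z := u - 1) (hu1.trans h1)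
    rw [add_sub_cancel] at h3
    have h4 : ‖Complex.log u‖ ≤ 3 / 2 * ‖x‖ := h3.trans (by linarith)
    nlinarith
  · have hpos : 0 < ‖1 - Complex.exp (-x)‖ := norm_pos_iff.mpr hone
    have hup : ‖1 - Complex.exp (-x)‖ ≤ 2 := by
      have h2 := norm_sub_le (1 : ℂ) (Complex.exp (-x))
      have h3 : ‖Complex.exp (-x)‖ ≤ 1 := by
        rw [Complex.norm_exp, Complex.neg_re]
        exact Real.exp_le_one_iff.mpr (by linarith)
      rw [norm_one] at h2
      linarith
    have hlow := low hx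
    have b1 : |Real.log ‖x‖| ≤ ‖x‖ + 1 := by
      rw [abs_le]
      constructor
      · have h2 : Real.log (1 / 2) ≤ Real.log ‖x‖ := Real.log_le_log (by norm_num) h1.le
        have h3 : Real.log (1 / 2) = -Real.log 2 := by rw [one_div, Real.log_inv]
        have h4 : Real.log 2 ≤ 1 := by linarith [Real.log_le_sub_one_of_pos (show (0:ℝ) < 2 by norm_num)]
        linarith
      · linarith [Real.log_le_sub_one_of_pos hn]
    have b2 : |Real.log ‖1 - Complex.exp (-x)‖| ≤ 1 + 1 / x.re := by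
      have hr : 0 < 1 / x.re := by positivity
      rw [abs_le]
      constructor
      · have h2 : Real.log (x.re / (1 + x.re)) ≤ Real.log ‖1 - Complex.exp (-x)‖ :=
          Real.log_le_log (by positivity) hlow
        have h3 : Real.log (x.re / (1 + x.re)) = -Real.log (1 + 1 / x.re) := by
          rw [← Real.log_inv]
          congr 1
          field_simp
          ring
        have h4 : Real.log (1 + 1 / x.re) ≤ 1 / x.re := by
          linarith [Real.log_le_sub_one_of_pos (show (0 : ℝ) < 1 + 1 / x.re by linarith)]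
        linarith
      · have h2 : Real.log ‖1 - Complex.exp (-x)‖ ≤ Real.log 2 := Real.log_le_log hpos hup
        have h4 : Real.log 2 ≤ 1 := by linarith [Real.log_le_sub_one_of_pos (show (0:ℝ) < 2 by norm_num)]
        linarith
    have b3 : ‖Complex.log x - Complex.log (1 - Complex.exp (-x))‖ ≤
        (‖x‖ + 1) + (1 + 1 / x.re) + 2 * Real.pi := by
      refine (Complex.norm_le_abs_re_add_abs_im _).trans ?_
      rw [Complex.sub_re, Complex.sub_im, Complex.log_re, Complex.log_re, Complex.log_im,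
        Complex.log_im]
      have c1 := abs_sub (Real.log ‖x‖) (Real.log ‖1 - Complex.exp (-x)‖)
      have c2 := abs_sub (Complex.arg x) (Complex.arg (1 - Complex.exp (-x)))
      linarith [Complex.abs_arg_le_pi x, Complex.abs_arg_le_pi (1 - Complex.exp (-x))]
    rw [norm_div, div_le_iff₀ hn]
    have hpi : Real.pi ≤ 3.15 := Real.pi_lt_d2.le
    have h5 : 1 / x.re ≤ 2 * (‖x‖ / x.re) := by
      rw [mul_div_assoc']
      gcongr
      linarith
    have h6 : 1 / x.re ≤ 4 * (‖x‖ / x.re) * ‖x‖ := by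
      have : 0 ≤ ‖x‖ / x.re := by positivity
      nlinarith
    nlinarith
  
/-- the asymptotic formula for `Sz` in the whole right half plane -/
theorem Sz_asymp : ∃ c₀ : ℂ, ∀ x : ℂ, 0 < x.re →
    ‖Sz x - (c₀ - Complex.log x) / x‖ ≤ 3262 * (‖x‖ / x.re) ^ 4 := by
  obtain ⟨c, hc⟩ := Ig_const
  refine ⟨c, fun x hx => ?_⟩
  have hx0 := ne_zero_of_re hx
  have hκ := kappa_ge hx
  have e1 : Sz x - (c - Complex.log x) / x =
      (Sg x - Ig x) + (Complex.log x - Complex.log (1 - Complex.exp (-x))) / x := by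
    rw [(Sz_eq hx).2, ← hc x hx]
    field_simp
    ring
  rw [e1]
  refine (norm_add_le _ _).trans ?_
  have h1 := Sg_sub_Ig hx
  have h2 := log_part hx
  have h5 : ‖x‖ / x.re ≤ (‖x‖ / x.re) ^ 4 := le_self_pow₀ hκ (by norm_num)
  linarith

end Pool.Agent.T2ext
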