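import Pool.Agent.Lib_MP_112ba8_e.Near
import Pool.Agent.Lib_MP_112ba8_t.T2Sz
import Pool.Agent.Lib_MP_112ba8_t.T2Defs

/-!
T2ext, piece (5): the average of `Sz (2πiu/q + η)` over the units `u mod q`.
-/

set_option autoImplicit false

namespace Pool.Agent.T2ext

open Filter Topology MeasureTheory
open Pool.Agent.EvenMoment
open ArithmeticFunction (moebius)

/-- reindexing a sum over multiples -/
lemma tsum_mult {c : ℕ} (hc : 0 < c) (H : ℕ → ℂ) :
    ∑' n : ℕ, (if c ∣ n + 1 then H (n + 1) else 0) = ∑' l : ℕ, H (c * (l + 1)) := by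
  have hinj : Function.Injective (fun l : ℕ => c * (l + 1) - 1) := by
    intro a b hab
    have h1 : 1 ≤ c * (a + 1) := Nat.mul_pos hc (Nat.succ_pos a)
    have h2 : 1 ≤ c * (b + 1) := Nat.mul_pos hc (Nat.succ_pos b)
    have h3 : c * (a + 1) = c * (b + 1) := by
      simp only at hab
      omega
    have h4 := Nat.eq_of_mul_eq_mul_left hc h3
    omega
  have h := hinj.tsum_eq (f := fun n : ℕ => if c ∣ n + 1 then H (n + 1) else 0) (by
    intro n hn
    rw [Function.mem_support] at hn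
    by_cases hd : c ∣ n + 1
    · obtain ⟨k, hk⟩ := hd
      have hk0 : k ≠ 0 := by
        rintro rfl
        simp at hk
      obtain ⟨l, rfl⟩ := Nat.exists_eq_succ_of_ne_zero hk0
      refine ⟨l, ?_⟩
      simp only
      have : c * (l + 1) = n + 1 := hk.symm
      omega
    · simp [hd] at hn)
  rw [← h]
  refine tsum_congr fun l => ?_
  have h1 : c * (l + 1) - 1 + 1 = c * (l + 1) := by
    have : 1 ≤ c * (l + 1) := Nat.mul_pos hc (Nat.succ_pos l)
    omega
  rw [h1, if_pos (Dvd.intro _ rfl)]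

/-- geometric series for `1 / (e^w - 1)` -/
lemma geo_series {w : ℂ} (hw : 0 < w.re) :
    HasSum (fun b : ℕ => Complex.exp (-(((b + 1 : ℕ) : ℂ) * w))) (1 / (Complex.exp w - 1)) := by
  have hz : ‖Complex.exp (-w)‖ < 1 := by
    rw [Complex.norm_exp, Complex.neg_re]
    exact Real.exp_lt_one_iff.mpr (by linarith)
  have h1 := (hasSum_geometric_of_norm_lt_one hz).mul_left (Complex.exp (-w))
  have h2 : Complex.exp (-w) * (1 - Complex.exp (-w))⁻¹ = 1 / (Complex.exp w - 1) := by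
    have e1 : Complex.exp w - 1 = Complex.exp w * (1 - Complex.exp (-w)) := by
      rw [mul_sub, ← Complex.exp_add]
      simp
    rw [e1, Complex.exp_neg, one_div, mul_inv]
  rw [h2] at h1
  have heq : (fun b : ℕ => Complex.exp (-(((b + 1 : ℕ) : ℂ) * w))) =
      fun b : ℕ => Complex.exp (-w) * Complex.exp (-w) ^ b := by
    funext b
    rw [← Complex.exp_nat_mul, ← Complex.exp_add]
    congr 1
    push_cast
    ring
  rw [heq]
  exact h1

/-- orthogonality -/
lemma orth {q : ℕ} (hq : 0 < q) (N : ℕ) :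
    ∑ d ∈ Finset.range q, Complex.exp (-(2 * Real.pi * Complex.I * ((d : ℂ) / q) * N)) =
      if q ∣ N then (q : ℂ) else 0 := by
  have hq0 : (q : ℂ) ≠ 0 := by exact_mod_cast hq.ne'
  set ζ := Complex.exp (-(2 * Real.pi * Complex.I * ((N : ℂ) / q))) with hζ
  have h1 : ∀ d ∈ Finset.range q, Complex.exp (-(2 * Real.pi * Complex.I * ((d : ℂ) / q) * N)) = ζ ^ d := by
    intro d _
    rw [hζ, ← Complex.exp_nat_mul]
    congr 1
    ring
  rw [Finset.sum_congr rfl h1]
  have h2 : ζ ^ q = 1 := by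
    rw [hζ, ← Complex.exp_nat_mul]
    have : (q : ℂ) * -(2 * Real.pi * Complex.I * ((N : ℂ) / q)) = ((-N : ℤ) : ℂ) * (2 * Real.pi * Complex.I) := by
      push_cast
      field_simp
    rw [this, Complex.exp_int_mul_two_pi_mul_I]
  by_cases hd : q ∣ N
  · rw [if_pos hd]
    obtain ⟨m, rfl⟩ := hd
    have h3 : ζ = 1 := by
      rw [hζ]
      have : -(2 * Real.pi * Complex.I * (((q * m : ℕ) : ℂ) / q)) = ((-m : ℤ) : ℂ) * (2 * Real.pi * Complex.I) := by
        push_cast
        field_simp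
      rw [this, Complex.exp_int_mul_two_pi_mul_I]
    rw [h3]
    simp
  · rw [if_neg hd]
    have h3 : ζ ≠ 1 := by
      intro h
      rw [hζ, Complex.exp_eq_one_iff] at h
      obtain ⟨n, hn⟩ := h
      have h4 : (2 * Real.pi * Complex.I : ℂ) ≠ 0 := Complex.two_pi_I_ne_zero
      have h5 : (2 * Real.pi * Complex.I : ℂ) * (-((N : ℂ) / q)) = (2 * Real.pi * Complex.I) * n := by
        rw [mul_comm _ (n : ℂ), ← hn]
        ring
      have h6 := mul_left_cancel₀ h4 h5
      have h7 : (N : ℂ) = ((q : ℤ) * (-n) : ℤ) := by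
        push_cast
        rw [← h6]
        field_simp
      have h8 : (N : ℤ) = (q : ℤ) * (-n) := by exact_mod_cast h7
      exact hd (by exact_mod_cast (Dvd.intro _ h8.symm : (q : ℤ) ∣ (N : ℤ)))
    have h4 := mul_geom_sum ζ q
    rw [h2, sub_self] at h4
    exact (mul_eq_zero.mp h4).resolve_left (sub_ne_zero.mpr h3)

/-- the summand `1 / (e^{N η} - 1)` -/
noncomputable def G1 (η : ℂ) (N : ℕ) : ℂ := 1 / (Complex.exp ((N : ℂ) * η) - 1)

lemma nat_re (η : ℂ) (N : ℕ) : ((N : ℂ) * η).re = N * η.re := by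
  simp [Complex.mul_re]

/-- complete sum for one `a` -/
lemma complete_one {q a : ℕ} (hq : 0 < q) (ha : 0 < a) {η : ℂ} (hη : 0 < η.re) :
    ∑ d ∈ Finset.range q, 1 / (Complex.exp ((a : ℂ) * (2 * Real.pi * Complex.I * ((d : ℂ) / q) + η)) - 1) =
      q * G1 η (Nat.lcm a q) := by
  have hre : ∀ d : ℕ, ((a : ℂ) * (2 * Real.pi * Complex.I * ((d : ℂ) / q) + η)).re = a * η.re := by
    intro d
    have h0 : (2 * Real.pi * Complex.I * ((d : ℂ) / q)) = ((2 * Real.pi * (d / q) : ℝ) : ℂ) * Complex.I := by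
      push_cast
      ring
    rw [nat_re, h0, Complex.add_re, Complex.re_ofReal_mul, Complex.I_re]
    ring
  have ha' : (0 : ℝ) < a := by exact_mod_cast ha
  have h1 : ∀ d ∈ Finset.range q, HasSum (fun b : ℕ => Complex.exp (-(((b + 1 : ℕ) : ℂ) *
      ((a : ℂ) * (2 * Real.pi * Complex.I * ((d : ℂ) / q) + η)))))
      (1 / (Complex.exp ((a : ℂ) * (2 * Real.pi * Complex.I * ((d : ℂ) / q) + η)) - 1)) :=
    fun d _ => geo_series (by rw [hre]; positivity)
  have h2 := hasSum_sum h1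
  have h3 : (fun b : ℕ => ∑ d ∈ Finset.range q, Complex.exp (-(((b + 1 : ℕ) : ℂ) *
      ((a : ℂ) * (2 * Real.pi * Complex.I * ((d : ℂ) / q) + η))))) =
      fun b : ℕ => if q / Nat.gcd a q ∣ b + 1 then
        (q : ℂ) * Complex.exp (-(((b + 1 : ℕ) : ℂ) * ((a : ℂ) * η))) else 0 := by
    funext b
    have h4 : ∀ d ∈ Finset.range q, Complex.exp (-(((b + 1 : ℕ) : ℂ) *
      ((a : ℂ) * (2 * Real.pi * Complex.I * ((d : ℂ) / q) + η)))) =
        Complex.exp (-(2 * Real.pi * Complex.I * ((d : ℂ) / q) * ((a * (b + 1) : ℕ) : ℂ))) *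
          Complex.exp (-(((b + 1 : ℕ) : ℂ) * ((a : ℂ) * η))) := by
      intro d _
      rw [← Complex.exp_add]
      congr 1
      push_cast
      ring
    rw [Finset.sum_congr rfl h4, ← Finset.sum_mul, orth hq]
    have h5 : q ∣ a * (b + 1) ↔ q / Nat.gcd a q ∣ b + 1 := by
      have hg : 0 < Nat.gcd a q := Nat.gcd_pos_of_pos_right a hq
      have h6 : a = Nat.gcd a q * (a / Nat.gcd a q) := (Nat.mul_div_cancel' (Nat.gcd_dvd_left a q)).symm
      have h7 : q = Nat.gcd a q * (q / Nat.gcd a q) := (Nat.mul_div_cancel' (Nat.gcd_dvd_right a q)).symm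
      have hcop : Nat.Coprime (q / Nat.gcd a q) (a / Nat.gcd a q) :=
        (Nat.coprime_div_gcd_div_gcd hg).symm
      constructor
      · intro h
        rw [h6, mul_assoc] at h
        have h8 : Nat.gcd a q * (q / Nat.gcd a q) ∣ Nat.gcd a q * (a / Nat.gcd a q * (b + 1)) := by
          rw [← h7]
          convert h using 2
        have h9 := Nat.dvd_of_mul_dvd_mul_left hg h8
        exact hcop.dvd_of_dvd_mul_left h9
      · intro h
        obtain ⟨k, hk⟩ := h
        rw [hk]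
        refine ⟨a / Nat.gcd a q * k, ?_⟩
        calc a * (q / Nat.gcd a q * k) = (a * (q / Nat.gcd a q)) * k := by ring
          _ = (Nat.gcd a q * (a / Nat.gcd a q) * (q / Nat.gcd a q)) * k := by rw [← h6]
          _ = (Nat.gcd a q * (q / Nat.gcd a q)) * (a / Nat.gcd a q * k) := by ring
          _ = q * (a / Nat.gcd a q * k) := by rw [← h7]
    by_cases h6 : q ∣ a * (b + 1)
    · rw [if_pos h6, if_pos (h5.mp h6)]
    · rw [if_neg h6, if_neg (fun h => h6 (h5.mpr h)), zero_mul]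
  rw [h3] at h2
  rw [← h2.tsum_eq]
  have hm : 0 < q / Nat.gcd a q := Nat.div_pos (Nat.gcd_le_right _ hq) (Nat.gcd_pos_of_pos_right a hq)
  rw [tsum_mult hm (fun N => (q : ℂ) * Complex.exp (-((N : ℂ) * ((a : ℂ) * η))))]
  rw [tsum_mul_left]
  congr 1
  unfold G1
  have hl : 0 < Nat.lcm a q := Nat.lcm_pos ha hq
  have hl' : (0 : ℝ) < Nat.lcm a q := by exact_mod_cast hl
  rw [← (geo_series (w := (Nat.lcm a q : ℂ) * η) (by rw [nat_re]; positivity)).tsum_eq]
  refine tsum_congr fun l => ?_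
  congr 2
  have h8 : Nat.lcm a q = a * (q / Nat.gcd a q) := by
    rw [Nat.lcm, Nat.mul_div_assoc _ (Nat.gcd_dvd_right a q)]
  rw [h8]
  push_cast
  ring

lemma G1_le {η : ℂ} (hη : 0 < η.re) {N n : ℕ} (hn : 0 < n) (hN : n ≤ N) :
    ‖G1 η N‖ ≤ (1 - Real.exp (-η.re))⁻¹ * Real.exp (-η.re) ^ n := by
  have hN0 : (0 : ℝ) < N := by exact_mod_cast lt_of_lt_of_le hn hN
  have hr : Real.exp (-η.re) < 1 := Real.exp_lt_one_iff.mpr (by linarith)
  have h1 := (geo_series (w := (N : ℂ) * η) (by rw [nat_re]; positivity))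
  have h2 : ∀ b : ℕ, ‖Complex.exp (-(((b + 1 : ℕ) : ℂ) * ((N : ℂ) * η)))‖ ≤
      Real.exp (-η.re) ^ n * Real.exp (-η.re) ^ b := by
    intro b
    rw [Complex.norm_exp, Complex.neg_re, nat_re, nat_re, ← pow_add, ← Real.exp_nat_mul]
    apply Real.exp_le_exp.mpr
    have h3 : ((n + b : ℕ) : ℝ) ≤ ((b + 1 : ℕ) : ℝ) * (N : ℝ) := by
      have h4 : n + b ≤ (b + 1) * N := by nlinarith
      exact_mod_cast h4
    nlinarith
  have h5 := (hasSum_geometric_of_lt_one (Real.exp_pos (-η.re)).le hr).mul_left (Real.exp (-η.re) ^ n)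
  have h6 := tsum_of_norm_bounded h5 h2
  rw [h1.tsum_eq] at h6
  unfold G1
  linarith [mul_comm (Real.exp (-η.re) ^ n) (1 - Real.exp (-η.re))⁻¹]

lemma geo_summable {r : ℝ} (hr : 0 < r) :
    Summable (fun n : ℕ => (1 - Real.exp (-r))⁻¹ * Real.exp (-r) ^ (n + 1)) := by
  have h1 : Real.exp (-r) < 1 := Real.exp_lt_one_iff.mpr (by linarith)
  have h2 := summable_geometric_of_lt_one (Real.exp_pos (-r)).le h1
  exact ((summable_nat_add_iff 1).mpr h2).mul_left _

/-- the complete sum -/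
lemma complete_sum {q : ℕ} (hq : 0 < q) {η : ℂ} (hη : 0 < η.re) :
    ∑ d ∈ Finset.range q, Sz (2 * Real.pi * Complex.I * ((d : ℂ) / q) + η) =
      q * ∑' a : ℕ, G1 η (Nat.lcm (a + 1) q) := by
  unfold Sz
  have hre : ∀ d : ℕ, (2 * Real.pi * Complex.I * ((d : ℂ) / q) + η).re = η.re := by
    intro d
    have h0 : (2 * Real.pi * Complex.I * ((d : ℂ) / q)) = ((2 * Real.pi * (d / q) : ℝ) : ℂ) * Complex.I := by
      push_cast
      ring
    rw [h0, Complex.add_re, Complex.re_ofReal_mul, Complex.I_re]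
    ring
  have hs : ∀ d ∈ Finset.range q, Summable (fun a : ℕ => 1 / (Complex.exp (((a : ℂ) + 1) *
      (2 * Real.pi * Complex.I * ((d : ℂ) / q) + η)) - 1)) :=
    fun d _ => (Sz_eq (x := 2 * Real.pi * Complex.I * ((d : ℂ) / q) + η) (by rw [hre]; exact hη)).1
  rw [← Summable.tsum_finsetSum hs, ← tsum_mul_left]
  refine tsum_congr fun a => ?_
  have h := complete_one hq (Nat.succ_pos a) hη
  rw [← h]
  refine Finset.sum_congr rfl fun d _ => ?_
  push_cast
  rfl

lemma G1_lcm_summable {q : ℕ} (hq : 0 < q) {η : ℂ} (hη : 0 < η.re) :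
    Summable (fun a : ℕ => G1 η (Nat.lcm (a + 1) q)) := by
  refine Summable.of_norm_bounded (geo_summable hη) fun a => ?_
  exact G1_le hη (Nat.succ_pos a) (Nat.le_of_dvd (Nat.lcm_pos (Nat.succ_pos a) hq)
    (Nat.dvd_lcm_left _ _))

lemma moebius_sum (n : ℕ) :
    ∑ ν ∈ n.divisors, (moebius ν : ℂ) = if n = 1 then 1 else 0 := by
  have h := congrArg (fun f : ArithmeticFunction ℤ => f n) ArithmeticFunction.coe_zeta_mul_moebius
  simp only [ArithmeticFunction.coe_zeta_mul_apply, ArithmeticFunction.one_apply] at h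
  have h2 : ((∑ ν ∈ n.divisors, moebius ν : ℤ) : ℂ) = ((if n = 1 then 1 else 0 : ℤ) : ℂ) := by
    rw [h]
  push_cast at h2
  exact h2

lemma coprime_ind {m : ℕ} (hm : 0 < m) (n : ℕ) :
    (if Nat.Coprime n m then (1 : ℂ) else 0) =
      ∑ ν ∈ m.divisors, (if ν ∣ n then (moebius ν : ℂ) else 0) := by
  rw [← Finset.sum_filter]
  have h1 : m.divisors.filter (fun ν => ν ∣ n) = (Nat.gcd n m).divisors := by
    ext ν
    simp only [Finset.mem_filter, Nat.mem_divisors]
    constructor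
    · rintro ⟨⟨h1, h2⟩, h3⟩
      exact ⟨Nat.dvd_gcd h3 h1, (Nat.gcd_pos_of_pos_right _ hm).ne'⟩
    · rintro ⟨h1, _⟩
      exact ⟨⟨h1.trans (Nat.gcd_dvd_right _ _), hm.ne'⟩, h1.trans (Nat.gcd_dvd_left _ _)⟩
  rw [h1, moebius_sum]

/-- splitting the sum over `lcm` -/
lemma lcm_sum {q : ℕ} (hq : 0 < q) {η : ℂ} (hη : 0 < η.re) :
    ∑' a : ℕ, G1 η (Nat.lcm (a + 1) q) =
      ∑ m ∈ q.divisors, ∑ ν ∈ m.divisors, (moebius ν : ℂ) * Sz ((q * ν : ℕ) * η) := by
  have hsum := G1_lcm_summable hq hη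
  -- first decomposition
  have h1 : ∀ a : ℕ, G1 η (Nat.lcm (a + 1) q) = ∑ m ∈ q.divisors,
      (if Nat.gcd (a + 1) q = q / m then G1 η (Nat.lcm (a + 1) q) else 0) := by
    intro a
    have hg : 0 < Nat.gcd (a + 1) q := Nat.gcd_pos_of_pos_right _ hq
    rw [Finset.sum_eq_single (q / Nat.gcd (a + 1) q)]
    · rw [if_pos]
      exact (Nat.div_div_self (Nat.gcd_dvd_right _ _) hq.ne').symm
    · intro m hm hne
      rw [if_neg]
      intro h
      apply hne
      rw [h]
      exact (Nat.div_div_self (Nat.dvd_of_mem_divisors hm) hq.ne').symm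
    · intro h
      exact absurd (Nat.mem_divisors.mpr ⟨Nat.div_dvd_of_dvd (Nat.gcd_dvd_right _ _), hq.ne'⟩) h
  have h2 : ∀ m ∈ q.divisors, Summable (fun a : ℕ =>
      (if Nat.gcd (a + 1) q = q / m then G1 η (Nat.lcm (a + 1) q) else 0)) := by
    intro m _
    refine Summable.of_norm_bounded hsum.norm fun a => ?_
    split_ifs
    · exact le_rfl
    · simp
  rw [tsum_congr h1, Summable.tsum_finsetSum h2]
  refine Finset.sum_congr rfl fun m hm => ?_
  have hmq : m ∣ q := Nat.dvd_of_mem_divisors hm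
  have hm0 : 0 < m := Nat.pos_of_dvd_of_pos hmq hq
  set c := q / m with hc
  have hc0 : 0 < c := Nat.div_pos (Nat.le_of_dvd hq hmq) hm0
  have hcm : c * m = q := Nat.div_mul_cancel hmq
  -- pass to multiples of c
  have h3 : ∀ a : ℕ, (if Nat.gcd (a + 1) q = c then G1 η (Nat.lcm (a + 1) q) else 0) =
      (if c ∣ a + 1 then (fun N : ℕ => if Nat.gcd N q = c then G1 η (Nat.lcm N q) else 0) (a + 1)
        else 0) := by
    intro a
    by_cases h : c ∣ a + 1
    · rw [if_pos h]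
    · rw [if_neg h, if_neg]
      intro h4
      exact h (h4 ▸ Nat.gcd_dvd_left _ _)
  rw [tsum_congr h3, tsum_mult hc0 (fun N : ℕ => if Nat.gcd N q = c then G1 η (Nat.lcm N q) else 0)]
  have h4 : ∀ l : ℕ, (if Nat.gcd (c * (l + 1)) q = c then G1 η (Nat.lcm (c * (l + 1)) q) else 0) =
      ∑ ν ∈ m.divisors, (if ν ∣ l + 1 then (fun N : ℕ => (moebius ν : ℂ) * G1 η (q * N)) (l + 1) else 0) := by
    intro l
    have e1 : Nat.gcd (c * (l + 1)) q = c * Nat.gcd (l + 1) m := by
      rw [← hcm, Nat.gcd_mul_left]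
    have e2 : (Nat.gcd (c * (l + 1)) q = c) ↔ Nat.Coprime (l + 1) m := by
      rw [e1]
      constructor
      · intro h
        have : c * Nat.gcd (l + 1) m = c * 1 := by rw [h, mul_one]
        exact Nat.eq_of_mul_eq_mul_left hc0 this
      · intro h
        rw [Nat.Coprime] at h
        rw [h, mul_one]
    have e3 : Nat.Coprime (l + 1) m → Nat.lcm (c * (l + 1)) q = q * (l + 1) := by
      intro h
      rw [← hcm, Nat.lcm_mul_left, Nat.Coprime.lcm_eq_mul h]
      ring
    have e4 : ∀ ν ∈ m.divisors, (if ν ∣ l + 1 then (fun N : ℕ => (moebius ν : ℂ) * G1 η (q * N)) (l + 1)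
        else 0) = (if ν ∣ l + 1 then (moebius ν : ℂ) else 0) * G1 η (q * (l + 1)) := by
      intro ν _
      split_ifs
      · rfl
      · rw [zero_mul]
    rw [Finset.sum_congr rfl e4, ← Finset.sum_mul, ← coprime_ind hm0 (l + 1)]
    by_cases h : Nat.Coprime (l + 1) m
    · rw [if_pos (e2.mpr h), if_pos h, one_mul, e3 h]
    · rw [if_neg (fun h' => h (e2.mp h')), if_neg h, zero_mul]
  rw [tsum_congr h4]
  have h5 : ∀ ν ∈ m.divisors, Summable (fun l : ℕ =>
      (if ν ∣ l + 1 then (fun N : ℕ => (moebius ν : ℂ) * G1 η (q * N)) (l + 1) else 0)) := by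
    intro ν _
    refine Summable.of_norm_bounded (geo_summable hη) fun l => ?_
    have h7 : ‖G1 η (q * (l + 1))‖ ≤ (1 - Real.exp (-η.re))⁻¹ * Real.exp (-η.re) ^ (l + 1) :=
      G1_le hη (Nat.succ_pos l) (Nat.le_mul_of_pos_left _ hq)
    split_ifs
    · simp only [norm_mul]
      have h6 : ‖(moebius ν : ℂ)‖ ≤ 1 := by
        rw [Complex.norm_intCast]
        exact_mod_cast ArithmeticFunction.abs_moebius_le_one
      calc ‖(moebius ν : ℂ)‖ * ‖G1 η (q * (l + 1))‖ ≤ 1 * ‖G1 η (q * (l + 1))‖ := by gcongr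
        _ ≤ _ := by rw [one_mul]; exact h7
    · rw [norm_zero]
      exact (norm_nonneg _).trans h7
  rw [Summable.tsum_finsetSum h5]
  refine Finset.sum_congr rfl fun ν hν => ?_
  have hν0 : 0 < ν := Nat.pos_of_mem_divisors hν
  rw [tsum_mult hν0 (fun N : ℕ => (moebius ν : ℂ) * G1 η (q * N)), tsum_mul_left]
  congr 1
  unfold Sz G1
  refine tsum_congr fun l => ?_
  congr 3
  push_cast
  ring

/-- grouping `d mod n` by the reduced denominator -/
lemma group_gcd {n : ℕ} (hn : 0 < n) (F : ℂ → ℂ) :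
    ∑ δ ∈ n.divisors, ∑ u ∈ (Finset.range δ).filter (Nat.Coprime δ), F ((u : ℂ) / δ) =
      ∑ d ∈ Finset.range n, F ((d : ℂ) / n) := by
  rw [Finset.sum_sigma']
  refine Finset.sum_bij' (i := fun (x : (_ : ℕ) × ℕ) _ => x.2 * (n / x.1))
    (j := fun d _ => (⟨n / Nat.gcd d n, d / Nat.gcd d n⟩ : (_ : ℕ) × ℕ)) ?_ ?_ ?_ ?_ ?_
  · rintro ⟨δ, u⟩ hx
    simp only [Finset.mem_sigma, Nat.mem_divisors, Finset.mem_filter, Finset.mem_range] at hx ⊢
    obtain ⟨⟨hd, _⟩, hu, _⟩ := hx
    have h1 : 0 < n / δ := Nat.div_pos (Nat.le_of_dvd hn hd) (Nat.pos_of_dvd_of_pos hd hn)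
    calc u * (n / δ) < δ * (n / δ) := Nat.mul_lt_mul_of_pos_right hu h1
      _ = n := Nat.mul_div_cancel' hd
  · intro d hd
    simp only [Finset.mem_sigma, Nat.mem_divisors, Finset.mem_filter, Finset.mem_range] at hd ⊢
    have hg : 0 < Nat.gcd d n := Nat.gcd_pos_of_pos_right _ hn
    refine ⟨⟨Nat.div_dvd_of_dvd (Nat.gcd_dvd_right _ _), hn.ne'⟩, ?_, ?_⟩
    · exact Nat.div_lt_div_of_lt_of_dvd (Nat.gcd_dvd_right _ _) hd
    · exact (Nat.coprime_div_gcd_div_gcd hg).symm
  · rintro ⟨δ, u⟩ hx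
    simp only [Finset.mem_sigma, Nat.mem_divisors, Finset.mem_filter, Finset.mem_range] at hx ⊢
    obtain ⟨⟨hd, _⟩, hu, hc⟩ := hx
    have hδ : 0 < δ := Nat.pos_of_dvd_of_pos hd hn
    have h1 : 0 < n / δ := Nat.div_pos (Nat.le_of_dvd hn hd) hδ
    have h2 : Nat.gcd (u * (n / δ)) n = n / δ := by
      have h5 : Nat.gcd (u * (n / δ)) (δ * (n / δ)) = n / δ := by
        rw [Nat.gcd_mul_right, hc.symm, one_mul]
      rwa [Nat.mul_div_cancel' hd] at h5
    rw [h2]
    have h3 : n / (n / δ) = δ := Nat.div_div_self hd hn.ne'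
    have h4 : u * (n / δ) / (n / δ) = u := Nat.mul_div_cancel _ h1
    rw [h3, h4]
  · intro d hd
    simp only
    have hg : 0 < Nat.gcd d n := Nat.gcd_pos_of_pos_right _ hn
    rw [Nat.div_div_self (Nat.gcd_dvd_right _ _) hn.ne']
    exact Nat.div_mul_cancel (Nat.gcd_dvd_left _ _)
  · rintro ⟨δ, u⟩ hx
    simp only [Finset.mem_sigma, Nat.mem_divisors, Finset.mem_filter, Finset.mem_range] at hx ⊢
    obtain ⟨⟨hd, _⟩, hu, _⟩ := hx
    have hδ : 0 < δ := Nat.pos_of_dvd_of_pos hd hn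
    obtain ⟨k, rfl⟩ := hd
    have hk : 0 < k := by
      rcases Nat.eq_zero_or_pos k with h | h
      · rw [h] at hn; simp at hn
      · exact h
    have h1 : δ * k / δ = k := Nat.mul_div_cancel_left _ hδ
    rw [h1]
    congr 1
    have hδ' : (δ : ℂ) ≠ 0 := by exact_mod_cast hδ.ne'
    have hk' : (k : ℂ) ≠ 0 := by exact_mod_cast hk.ne'
    push_cast
    field_simp

/-- sum over the units -/
noncomputable def US (η : ℂ) (q : ℕ) : ℂ :=
  ∑ u ∈ (Finset.range q).filter (Nat.Coprime q), Sz (2 * Real.pi * Complex.I * ((u : ℂ) / q) + η)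

/-- the linear combination -/
noncomputable def PsiL (g : ℕ → ℂ) (q : ℕ) : ℂ :=
  ∑ x ∈ q.divisorsAntidiagonal, (moebius x.1 : ℂ) *
    (x.2 * ∑ m ∈ x.2.divisors, ∑ ν ∈ m.divisors, (moebius ν : ℂ) * g (x.2 * ν))

/-- total weight -/
noncomputable def WL (q : ℕ) : ℝ := q * (q.divisors.card : ℝ) ^ 3

lemma US_eq {η : ℂ} (hη : 0 < η.re) {q : ℕ} (hq : 0 < q) :
    US η q = PsiL (fun N => Sz ((N : ℂ) * η)) q := by
  have h := (ArithmeticFunction.sum_eq_iff_sum_smul_moebius_eq (R := ℂ) (f := US η)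
    (g := fun n => ∑ d ∈ Finset.range n, Sz (2 * Real.pi * Complex.I * ((d : ℂ) / n) + η))).mp
    (fun n hn => group_gcd hn (fun z => Sz (2 * Real.pi * Complex.I * z + η))) q hq
  rw [← h]
  unfold PsiL
  refine Finset.sum_congr rfl fun x hx => ?_
  have hx2 : 0 < x.2 := by
    have := (Nat.mem_divisorsAntidiagonal.mp hx)
    rcases Nat.eq_zero_or_pos x.2 with h | h
    · rw [h, mul_zero] at this
      exact absurd this.1.symm this.2
    · exact h
  rw [complete_sum hx2 hη, lcm_sum hx2 hη, zsmul_eq_mul]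

lemma PsiL_sub (f g : ℕ → ℂ) (q : ℕ) :
    PsiL (fun N => f N - g N) q = PsiL f q - PsiL g q := by
  unfold PsiL
  simp only [mul_sub, Finset.sum_sub_distrib]

lemma PsiL_smul (c : ℂ) (f : ℕ → ℂ) (q : ℕ) : PsiL (fun N => c * f N) q = c * PsiL f q := by
  unfold PsiL
  rw [Finset.mul_sum]
  refine Finset.sum_congr rfl fun x _ => ?_
  have : ∑ m ∈ x.2.divisors, ∑ ν ∈ m.divisors, (moebius ν : ℂ) * (c * f (x.2 * ν)) =
      c * ∑ m ∈ x.2.divisors, ∑ ν ∈ m.divisors, (moebius ν : ℂ) * f (x.2 * ν) := by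
    rw [Finset.mul_sum]
    refine Finset.sum_congr rfl fun m _ => ?_
    rw [Finset.mul_sum]
    refine Finset.sum_congr rfl fun ν _ => ?_
    ring
  rw [this]
  ring

lemma mu_le (n : ℕ) : ‖(moebius n : ℂ)‖ ≤ 1 := by
  rw [Complex.norm_intCast]
  exact_mod_cast ArithmeticFunction.abs_moebius_le_one

lemma PsiL_le {f : ℕ → ℂ} {q : ℕ} (hq : 0 < q) {K : ℝ} (hK : 0 ≤ K)
    (hf : ∀ N, 0 < N → ‖f N‖ ≤ K) : ‖PsiL f q‖ ≤ K * WL q := by
  unfold PsiL WL
  have h1 : ∀ x ∈ q.divisorsAntidiagonal, ‖(moebius x.1 : ℂ) *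
    (x.2 * ∑ m ∈ x.2.divisors, ∑ ν ∈ m.divisors, (moebius ν : ℂ) * f (x.2 * ν))‖ ≤
      K * (q * (q.divisors.card : ℝ) ^ 2) := by
    intro x hx
    have hx' := Nat.mem_divisorsAntidiagonal.mp hx
    have hd : x.2 ∣ q := Dvd.intro_left _ hx'.1
    have hx2 : 0 < x.2 := Nat.pos_of_dvd_of_pos hd hq
    have hx2' : (x.2 : ℝ) ≤ q := by exact_mod_cast Nat.le_of_dvd hq hd
    have hcard : ∀ m, m ∣ q → (m.divisors.card : ℝ) ≤ q.divisors.card := by
      intro m hm
      exact_mod_cast Finset.card_le_card (Nat.divisors_subset_of_dvd hq.ne' hm)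
    have h2 : ‖∑ m ∈ x.2.divisors, ∑ ν ∈ m.divisors, (moebius ν : ℂ) * f (x.2 * ν)‖ ≤
        (q.divisors.card : ℝ) * ((q.divisors.card : ℝ) * K) := by
      refine (norm_sum_le_of_le (f := fun m : ℕ => ∑ ν ∈ m.divisors, (moebius ν : ℂ) * f (x.2 * ν))
        (n := fun _ => (q.divisors.card : ℝ) * K) _ fun m hm => ?_).trans ?_
      · have hmq : m ∣ q := (Nat.dvd_of_mem_divisors hm).trans hd
        refine (norm_sum_le_of_le (f := fun ν => (moebius ν : ℂ) * f (x.2 * ν))
          (n := fun _ => K) _ fun ν hν => ?_).trans ?_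
        · have hν0 : 0 < ν := Nat.pos_of_mem_divisors hν
          rw [norm_mul]
          calc ‖(moebius ν : ℂ)‖ * ‖f (x.2 * ν)‖ ≤ 1 * K := by
                gcongr
                · exact mu_le ν
                · exact hf _ (Nat.mul_pos hx2 hν0)
            _ = K := one_mul K
        · rw [Finset.sum_const, nsmul_eq_mul]
          have := hcard m hmq
          gcongr
      · rw [Finset.sum_const, nsmul_eq_mul]
        have := hcard x.2 hd
        gcongr
    rw [norm_mul, norm_mul, Complex.norm_natCast]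
    calc ‖(moebius x.1 : ℂ)‖ * ((x.2 : ℝ) * ‖∑ m ∈ x.2.divisors, ∑ ν ∈ m.divisors,
          (moebius ν : ℂ) * f (x.2 * ν)‖)
        ≤ 1 * ((q : ℝ) * ((q.divisors.card : ℝ) * ((q.divisors.card : ℝ) * K))) := by
          gcongr
          exact mu_le _
      _ = _ := by ring
  refine (norm_sum_le_of_le _ h1).trans ?_
  rw [Finset.sum_const, nsmul_eq_mul]
  have h3 : q.divisorsAntidiagonal.card = q.divisors.card := by
    rw [← Nat.map_div_right_divisors, Finset.card_map]
  rw [h3]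
  apply le_of_eq
  ring

/-! ### the divisor bound -/

lemma pow_bound {ε : ℝ} (hε : 0 < ε) (hε1 : ε ≤ 1) (k : ℕ) :
    ((k : ℝ) + 1) ≤ 2 / ε * (2 : ℝ) ^ (ε * k) := by
  have h1 : (2 : ℝ) ^ (ε * k) = Real.exp (Real.log 2 * (ε * k)) :=
    Real.rpow_def_of_pos (by norm_num) _
  have h2 := Real.add_one_le_exp (Real.log 2 * (ε * k))
  have h3 : (1 / 2 : ℝ) < Real.log 2 := by
    have := Real.log_two_gt_d9
    linarith
  rw [h1]
  have hk : (0 : ℝ) ≤ k := by positivity
  have h4 : ε / 2 * (k + 1) ≤ Real.exp (Real.log 2 * (ε * k)) := by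
    have h5 : 1 / 2 * (ε * k) ≤ Real.log 2 * (ε * k) := by gcongr
    nlinarith
  calc (k : ℝ) + 1 = 2 / ε * (ε / 2 * (k + 1)) := by field_simp
    _ ≤ 2 / ε * Real.exp (Real.log 2 * (ε * k)) := by gcongr

lemma div_bound_aux {ε : ℝ} (hε : 0 < ε) (hε1 : ε ≤ 1) {B : ℕ} (hB : (2 : ℝ) ^ (1 / ε) ≤ B) (n : ℕ) :
    0 < n → (n.divisors.card : ℝ) ≤ (2 / ε) ^ ((n.primeFactors.filter (· < B)).card) * (n : ℝ) ^ ε := by
  have h2ε : 1 ≤ 2 / ε := by
    rw [le_div_iff₀ hε]; linarith
  induction n using Nat.recOnPosPrimePosCoprime with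
  | zero => intro h; exact absurd h (lt_irrefl 0)
  | one => intro _; simp
  | prime_pow p k hp hk =>
    intro _
    have hp2 : (2 : ℝ) ≤ p := by exact_mod_cast hp.two_le
    have h1 : (p ^ k).divisors.card = k + 1 := by
      rw [Nat.divisors_prime_pow hp]
      simp
    have h2 : (p ^ k).primeFactors = {p} := Nat.primeFactors_prime_pow hk.ne' hp
    rw [h1, h2]
    have h3 : (((p ^ k : ℕ) : ℝ)) ^ ε = (p : ℝ) ^ (ε * k) := by
      push_cast
      rw [← Real.rpow_natCast, ← Real.rpow_mul (by positivity)]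
      ring_nf
    rw [h3]
    by_cases hpB : p < B
    · have h4 : (({p} : Finset ℕ).filter (· < B)).card = 1 := by
        rw [Finset.filter_true_of_mem (by simpa using hpB)]
        simp
      rw [h4, pow_one]
      have h5 := pow_bound hε hε1 k
      push_cast
      refine h5.trans ?_
      gcongr
    · have h4 : (({p} : Finset ℕ).filter (· < B)).card = 0 := by
        rw [Finset.filter_false_of_mem (by simpa using hpB)]
        simp
      rw [h4, pow_zero, one_mul]
      have h5 : (2 : ℝ) ≤ (p : ℝ) ^ ε := by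
        have h6 : (2 : ℝ) ^ (1 / ε) ≤ p := hB.trans (by exact_mod_cast not_lt.mp hpB)
        calc (2 : ℝ) = ((2 : ℝ) ^ (1 / ε)) ^ ε := by
              rw [← Real.rpow_mul (by norm_num), one_div, inv_mul_cancel₀ hε.ne', Real.rpow_one]
          _ ≤ (p : ℝ) ^ ε := by gcongr
      rw [Real.rpow_mul (by positivity), Real.rpow_natCast]
      have h7 : ((k + 1 : ℕ) : ℝ) ≤ 2 ^ k := by
        exact_mod_cast Nat.lt_two_pow_self (n := k)
      refine h7.trans ?_
      gcongr
  | coprime a b ha hb hab iha ihb =>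
    intro _
    have ha0 : 0 < a := by omega
    have hb0 : 0 < b := by omega
    have h1 := iha ha0
    have h2 := ihb hb0
    rw [Nat.Coprime.card_divisors_mul hab, Nat.Coprime.primeFactors_mul hab, Finset.filter_union,
      Finset.card_union_of_disjoint (Finset.disjoint_filter_filter
        (Nat.Coprime.disjoint_primeFactors hab)), pow_add]
    push_cast
    rw [Real.mul_rpow (by positivity) (by positivity)]
    calc (a.divisors.card : ℝ) * b.divisors.card
        ≤ ((2 / ε) ^ ((a.primeFactors.filter (· < B)).card) * (a : ℝ) ^ ε) *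
          ((2 / ε) ^ ((b.primeFactors.filter (· < B)).card) * (b : ℝ) ^ ε) := by gcongr
      _ = _ := by ring

theorem div_bound {ε : ℝ} (hε : 0 < ε) : ∃ C : ℝ, 0 < C ∧ ∀ n : ℕ, 0 < n →
    (n.divisors.card : ℝ) ≤ C * (n : ℝ) ^ ε := by
  set ε' := min ε 1 with hε'
  have h0 : 0 < ε' := lt_min hε one_pos
  have h1 : ε' ≤ 1 := min_le_right _ _
  obtain ⟨B, hB⟩ := exists_nat_ge ((2 : ℝ) ^ (1 / ε'))
  have h2 : 1 ≤ 2 / ε' := by
    rw [le_div_iff₀ h0]; linarith
  refine ⟨(2 / ε') ^ B, by positivity, fun n hn => ?_⟩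
  refine (div_bound_aux h0 h1 hB n hn).trans ?_
  have hn1 : (1 : ℝ) ≤ n := by exact_mod_cast hn
  have h3 : ((n.primeFactors.filter (· < B)).card) ≤ B := by
    calc ((n.primeFactors.filter (· < B)).card) ≤ (Finset.range B).card := by
          apply Finset.card_le_card
          intro x hx
          exact Finset.mem_range.mpr (Finset.mem_filter.mp hx).2
      _ = B := Finset.card_range B
  have h4 : (n : ℝ) ^ ε' ≤ (n : ℝ) ^ ε := Real.rpow_le_rpow_of_exponent_le hn1 (min_le_left _ _)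
  have h5 : (2 / ε') ^ ((n.primeFactors.filter (· < B)).card) ≤ (2 / ε') ^ B := pow_le_pow_right₀ h2 h3
  gcongr

/-! ### the average -/

lemma PsiL_congr {f g : ℕ → ℂ} {q : ℕ} (hq : 0 < q) (h : ∀ N, 0 < N → f N = g N) :
    PsiL f q = PsiL g q := by
  unfold PsiL
  refine Finset.sum_congr rfl fun x hx => ?_
  have hx' := Nat.mem_divisorsAntidiagonal.mp hx
  have hd : x.2 ∣ q := Dvd.intro_left _ hx'.1
  have hx2 : 0 < x.2 := Nat.pos_of_dvd_of_pos hd hq
  congr 2
  refine Finset.sum_congr rfl fun m _ => ?_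
  refine Finset.sum_congr rfl fun ν hν => ?_
  rw [h _ (Nat.mul_pos hx2 (Nat.pos_of_mem_divisors hν))]

lemma totient_div (q : ℕ) : q ≤ q.totient * q.divisors.card := by
  rcases Nat.eq_zero_or_pos q with h | hq
  · rw [h]; simp
  · calc q = ∑ m ∈ q.divisors, m.totient := (Nat.sum_totient q).symm
      _ ≤ ∑ m ∈ q.divisors, q.totient := by
        refine Finset.sum_le_sum fun m hm => ?_
        exact Nat.le_of_dvd (Nat.totient_pos.mpr hq)
          (Nat.totient_dvd_of_dvd (Nat.dvd_of_mem_divisors hm))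
      _ = q.totient * q.divisors.card := by
        rw [Finset.sum_const, smul_eq_mul, mul_comm]

lemma avg_linear : ∃ c₀ : ℂ, ∀ q : ℕ, 0 < q → ∀ η : ℂ, 0 < η.re →
    ‖US η q - (PsiL (fun N => 1 / (N : ℂ)) q * (-Complex.log η) +
      PsiL (fun N => (c₀ - Real.log N) / (N : ℂ)) q) / η‖ ≤ 3262 * (‖η‖ / η.re) ^ 4 * WL q := by
  obtain ⟨c₀, hc⟩ := Sz_asymp
  refine ⟨c₀, fun q hq η hη => ?_⟩
  have hη0 := ne_zero_of_re hη
  have h1 : PsiL (fun N => Sz ((N : ℂ) * η) - (c₀ - Complex.log ((N : ℂ) * η)) / ((N : ℂ) * η)) q =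
      US η q - (PsiL (fun N => 1 / (N : ℂ)) q * (-Complex.log η) +
      PsiL (fun N => (c₀ - Real.log N) / (N : ℂ)) q) / η := by
    rw [PsiL_sub, US_eq hη hq]
    congr 1
    have h2 : PsiL (fun N => (c₀ - Complex.log ((N : ℂ) * η)) / ((N : ℂ) * η)) q =
        PsiL (fun N => (1 / η) * ((c₀ - Real.log N) / (N : ℂ)) -
          (Complex.log η / η) * (1 / (N : ℂ))) q := by
      refine PsiL_congr hq fun N hN => ?_
      have hN0 : (N : ℂ) ≠ 0 := by exact_mod_cast hN.ne'
      have hl : Complex.log ((N : ℂ) * η) = Real.log N + Complex.log η := by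
        have := Complex.log_ofReal_mul (r := (N : ℝ)) (by exact_mod_cast hN) hη0
        rw [← this]
        push_cast
        rfl
      rw [hl]
      field_simp
      ring
    rw [h2, PsiL_sub, PsiL_smul, PsiL_smul]
    field_simp
    ring
  rw [← h1]
  have hκ0 : 0 ≤ 3262 * (‖η‖ / η.re) ^ 4 := by positivity
  refine PsiL_le hq hκ0 fun N hN => ?_
  have hN' : (0 : ℝ) < N := by exact_mod_cast hN
  have h3 := hc ((N : ℂ) * η) (by rw [nat_re]; positivity)
  rw [nat_re, norm_mul, Complex.norm_natCast, mul_div_mul_left _ _ hN'.ne'] at h3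
  exact h3

lemma card_units (q : ℕ) : ((Finset.range q).filter (Nat.Coprime q)).card = q.totient := rfl

/-- the average over the units -/
theorem avg_units {ε : ℝ} (hε : 0 < ε) : ∃ C : ℝ, 0 < C ∧ ∀ q : ℕ, 0 < q → ∀ η : ℂ, 0 < η.re →
    ‖(1 / (Nat.totient q : ℂ)) * ∑ u ∈ (Finset.range q).filter (Nat.Coprime q),
        Sz (2 * Real.pi * Complex.I * ((u : ℂ) / q) + η) -
      (1 / (q * η)) * (-Complex.log η - 2 * Real.log q)‖ ≤
      C * (‖η‖ / η.re) ^ 4 * (1 / (q * ‖η‖) + (q : ℝ) ^ ε) := by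
  obtain ⟨c₀, hlin⟩ := avg_linear
  obtain ⟨C1, hC1, hnear⟩ := Sz_near
  obtain ⟨C2, hC2, hdiv⟩ := div_bound (ε := ε / 4) (by positivity)
  refine ⟨C1 + 3262 * C2 ^ 4, by positivity, ?_⟩
  intro q hq η hη
  have hqr : (0 : ℝ) < q := by exact_mod_cast hq
  have hq0 : (q : ℂ) ≠ 0 := by exact_mod_cast hq.ne'
  have hφ : 0 < q.totient := Nat.totient_pos.mpr hq
  have hφr : (0 : ℝ) < q.totient := by exact_mod_cast hφ
  have hφ0 : (q.totient : ℂ) ≠ 0 := by exact_mod_cast hφ.ne'
  set α : ℂ := PsiL (fun N => 1 / (N : ℂ)) q / q.totient with hα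
  set β : ℂ := PsiL (fun N => (c₀ - Real.log N) / (N : ℂ)) q / q.totient with hβ
  set K : ℝ := 3262 * WL q / q.totient with hK
  have hWL : 0 ≤ WL q := by unfold WL; positivity
  have hK0 : 0 ≤ K := by positivity
  have H1 : ∀ z : ℂ, 0 < z.re → ‖(1 / (q.totient : ℂ)) * US z q - (α * (-Complex.log z) + β) / z‖ ≤
      (‖z‖ / z.re) ^ 4 * K := by
    intro z hz
    have h1 := hlin q hq z hz
    have hz0 := ne_zero_of_re hz
    have h2 : (1 / (q.totient : ℂ)) * US z q - (α * (-Complex.log z) + β) / z =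
        (1 / (q.totient : ℂ)) * (US z q - (PsiL (fun N => 1 / (N : ℂ)) q * (-Complex.log z) +
      PsiL (fun N => (c₀ - Real.log N) / (N : ℂ)) q) / z) := by
      rw [hα, hβ]
      field_simp
    rw [h2, norm_mul, norm_div, norm_one, Complex.norm_natCast]
    calc 1 / (q.totient : ℝ) * ‖US z q - (PsiL (fun N => 1 / (N : ℂ)) q * (-Complex.log z) +
      PsiL (fun N => (c₀ - Real.log N) / (N : ℂ)) q) / z‖
        ≤ 1 / (q.totient : ℝ) * (3262 * (‖z‖ / z.re) ^ 4 * WL q) := by gcongr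
      _ = (‖z‖ / z.re) ^ 4 * K := by rw [hK]; ring
  -- the landed estimate near zero
  have H2 : ∀ t : ℝ, 0 < t → q * t ≤ 1 →
      ‖(1 / (q.totient : ℂ)) * US t q - (1 / (q * t)) * (-Real.log t - 2 * Real.log q)‖ ≤
        C1 * (q * (1 + Real.log q) + 1 / (q * t)) := by
    intro t ht htq
    have h1 : (1 / (q.totient : ℂ)) * US t q - (1 / (q * t)) * (-Real.log t - 2 * Real.log q) =
        (1 / (q.totient : ℂ)) * ∑ u ∈ (Finset.range q).filter (Nat.Coprime q),
          (Sz (2 * Real.pi * Complex.I * ((u : ℂ) / q) + t) -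
            (1 / (q * t)) * (-Complex.log t - 2 * Real.log q)) := by
      rw [Finset.sum_sub_distrib, Finset.sum_const, card_units, nsmul_eq_mul, mul_sub]
      unfold US
      rw [Complex.ofReal_log ht.le]
      field_simp
    rw [h1, norm_mul, norm_div, norm_one, Complex.norm_natCast]
    have h2 : ‖∑ u ∈ (Finset.range q).filter (Nat.Coprime q),
          (Sz (2 * Real.pi * Complex.I * ((u : ℂ) / q) + t) -
            (1 / (q * t)) * (-Complex.log t - 2 * Real.log q))‖ ≤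
        q.totient * (C1 * (q * (1 + Real.log q) + 1 / (q * t))) := by
      refine (norm_sum_le_of_le (n := fun _ => C1 * (q * (1 + Real.log q) + 1 / (q * t))) _ fun u hu => ?_).trans ?_
      · have hu' := (Finset.mem_filter.mp hu).2
        have h3 := hnear q u hq hu' (t : ℂ) (by simpa using ht)
          (by rw [Complex.norm_real, Real.norm_of_nonneg ht.le]; exact htq)
        rw [Complex.norm_real, Real.norm_of_nonneg ht.le, Complex.ofReal_re, div_self ht.ne', one_pow,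
          mul_one] at h3
        exact h3
      · rw [Finset.sum_const, card_units, nsmul_eq_mul]
    calc 1 / (q.totient : ℝ) * ‖∑ u ∈ (Finset.range q).filter (Nat.Coprime q),
          (Sz (2 * Real.pi * Complex.I * ((u : ℂ) / q) + t) -
            (1 / (q * t)) * (-Complex.log t - 2 * Real.log q))‖
        ≤ 1 / (q.totient : ℝ) * (q.totient * (C1 * (q * (1 + Real.log q) + 1 / (q * t)))) := by gcongr
      _ = _ := by field_simp
  -- comparison
  have H3 : ∀ t : ℝ, 0 < t → q * t ≤ 1 →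
      ‖(α - 1 / q) * (-Real.log t : ℝ) + (β + 2 * Real.log q / q)‖ ≤
        t * (K + C1 * (q * (1 + Real.log q))) + C1 / q := by
    intro t ht htq
    have ht0 : (t : ℂ) ≠ 0 := by exact_mod_cast ht.ne'
    have h1 := H1 t (by simpa using ht)
    have h2 := H2 t ht htq
    rw [Complex.norm_real, Real.norm_of_nonneg ht.le, Complex.ofReal_re, div_self ht.ne', one_pow,
      one_mul] at h1
    have h3 : (α - 1 / q) * (-Real.log t : ℝ) + (β + 2 * Real.log q / q) =
        (t : ℂ) * (((1 / (q.totient : ℂ)) * US t q - (1 / (q * t)) * (-Real.log t - 2 * Real.log q)) -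
          ((1 / (q.totient : ℂ)) * US t q - (α * (-Complex.log t) + β) / t)) := by
      rw [← Complex.ofReal_log ht.le]
      push_cast
      field_simp
      ring
    rw [h3, norm_mul, Complex.norm_real, Real.norm_of_nonneg ht.le]
    have h4 := norm_sub_le ((1 / (q.totient : ℂ)) * US t q - (1 / (q * t)) * (-Real.log t - 2 * Real.log q))
          ((1 / (q.totient : ℂ)) * US t q - (α * (-Complex.log t) + β) / t)
    calc _ ≤ t * (C1 * (q * (1 + Real.log q) + 1 / (q * t)) + K) := by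
          gcongr
          exact h4.trans (add_le_add h2 h1)
      _ = t * (K + C1 * (q * (1 + Real.log q))) + C1 / q := by
          field_simp
          ring
  set K2 := K + C1 * (q * (1 + Real.log q)) with hK2
  have hlogq : 0 ≤ Real.log q := Real.log_natCast_nonneg q
  have hK20 : 0 ≤ K2 := by positivity
  have hA : α - 1 / q = 0 := by
    by_contra hne
    have hpos : 0 < ‖α - 1 / q‖ := norm_pos_iff.mpr hne
    set R := (K2 + C1 / q + ‖β + 2 * Real.log q / q‖ + 1) / ‖α - 1 / q‖ with hR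
    have hR0 : 0 < R := by positivity
    set t := min (Real.exp (-R)) (1 / q) with ht
    have ht0 : 0 < t := lt_min (Real.exp_pos _) (by positivity)
    have ht1 : q * t ≤ 1 := by
      calc (q : ℝ) * t ≤ q * (1 / q) := by
            gcongr
            exact min_le_right _ _
        _ = 1 := by field_simp
    have ht2 : t ≤ 1 := by
      have : t ≤ Real.exp (-R) := min_le_left _ _
      exact this.trans (Real.exp_le_one_iff.mpr (by linarith))
    have ht3 : R ≤ -Real.log t := by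
      have h1 : Real.log t ≤ -R := by
        rw [Real.log_le_iff_le_exp ht0]
        exact min_le_left _ _
      linarith
    have h1 := H3 t ht0 ht1
    have h2 : ‖(α - 1 / q) * (-Real.log t : ℝ)‖ - ‖β + 2 * Real.log q / q‖ ≤
        ‖(α - 1 / q) * (-Real.log t : ℝ) + (β + 2 * Real.log q / q)‖ := by
      have := norm_sub_norm_le ((α - 1 / q) * (-Real.log t : ℝ)) (-(β + 2 * Real.log q / q))
      rwa [sub_neg_eq_add, norm_neg] at this
    have h3 : ‖(α - 1 / q) * (-Real.log t : ℝ)‖ = ‖α - 1 / q‖ * (-Real.log t) := by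
      rw [norm_mul, Complex.norm_real, Real.norm_of_nonneg (by linarith)]
    have h4 : ‖α - 1 / q‖ * R ≤ ‖α - 1 / q‖ * (-Real.log t) := by gcongr
    have h5 : ‖α - 1 / q‖ * R = K2 + C1 / q + ‖β + 2 * Real.log q / q‖ + 1 := by
      rw [hR, mul_div_assoc', mul_div_cancel_left₀ _ hpos.ne']
    have h6 : t * K2 ≤ K2 := mul_le_of_le_one_left hK20 ht2
    linarith
  have hB : ‖β + 2 * Real.log q / q‖ ≤ C1 / q := by
    refine le_of_forall_pos_le_add fun e he => ?_
    set t := min (e / (K2 + 1)) (1 / q) with ht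
    have ht0 : 0 < t := lt_min (by positivity) (by positivity)
    have ht1 : q * t ≤ 1 := by
      calc (q : ℝ) * t ≤ q * (1 / q) := by
            gcongr
            exact min_le_right _ _
        _ = 1 := by field_simp
    have h1 := H3 t ht0 ht1
    rw [hA, zero_mul, zero_add] at h1
    have h2 : t * K2 ≤ e := by
      calc t * K2 ≤ e / (K2 + 1) * (K2 + 1) := by
            gcongr
            · exact min_le_left _ _
            · linarith
        _ = e := by field_simp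
    linarith
  have hα1 : α = 1 / q := sub_eq_zero.mp hA
  have hη0 := ne_zero_of_re hη
  have hnη : 0 < ‖η‖ := norm_pos_iff.mpr hη0
  have hκ := kappa_ge hη
  have hfin := H1 η hη
  have e1 : (1 / (Nat.totient q : ℂ)) * ∑ u ∈ (Finset.range q).filter (Nat.Coprime q),
        Sz (2 * Real.pi * Complex.I * ((u : ℂ) / q) + η) -
      (1 / (q * η)) * (-Complex.log η - 2 * Real.log q) =
      ((1 / (q.totient : ℂ)) * US η q - (α * (-Complex.log η) + β) / η) +
        (β + 2 * Real.log q / q) / η := by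
    rw [hα1]
    unfold US
    field_simp
    ring
  rw [e1]
  refine (norm_add_le _ _).trans ?_
  rw [norm_div]
  have h1 : ‖β + 2 * Real.log q / q‖ / ‖η‖ ≤ C1 * (‖η‖ / η.re) ^ 4 * (1 / (q * ‖η‖)) := by
    have h2 : (1 : ℝ) ≤ (‖η‖ / η.re) ^ 4 := one_le_pow₀ hκ
    calc ‖β + 2 * Real.log q / q‖ / ‖η‖ ≤ (C1 / q) / ‖η‖ := by gcongr
      _ = C1 * 1 * (1 / (q * ‖η‖)) := by field_simp
      _ ≤ C1 * (‖η‖ / η.re) ^ 4 * (1 / (q * ‖η‖)) := by gcongr
  have h2 : K ≤ 3262 * C2 ^ 4 * (q : ℝ) ^ ε := by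
    have h3 : WL q / q.totient ≤ (q.divisors.card : ℝ) ^ 4 := by
      rw [div_le_iff₀ hφr]
      unfold WL
      have h4 : (q : ℝ) ≤ q.totient * q.divisors.card := by exact_mod_cast totient_div q
      calc (q : ℝ) * (q.divisors.card : ℝ) ^ 3 ≤ (q.totient * q.divisors.card) * (q.divisors.card : ℝ) ^ 3 := by
            gcongr
        _ = _ := by ring
    have h4 : (q.divisors.card : ℝ) ^ 4 ≤ C2 ^ 4 * (q : ℝ) ^ ε := by
      calc (q.divisors.card : ℝ) ^ 4 ≤ (C2 * (q : ℝ) ^ (ε / 4)) ^ 4 := by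
            gcongr
            exact hdiv q hq
        _ = C2 ^ 4 * (q : ℝ) ^ ε := by
            rw [mul_pow, ← Real.rpow_natCast ((q : ℝ) ^ (ε / 4)), ← Real.rpow_mul hqr.le]
            congr 2
            push_cast
            ring
    calc K = 3262 * (WL q / q.totient) := by rw [hK]; ring
      _ ≤ 3262 * (C2 ^ 4 * (q : ℝ) ^ ε) := by
          gcongr
          exact h3.trans h4
      _ = _ := by ring
  calc _ ≤ (‖η‖ / η.re) ^ 4 * (3262 * C2 ^ 4 * (q : ℝ) ^ ε) + C1 * (‖η‖ / η.re) ^ 4 * (1 / (q * ‖η‖)) := by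
        refine add_le_add (hfin.trans ?_) h1
        gcongr
    _ ≤ (C1 + 3262 * C2 ^ 4) * (‖η‖ / η.re) ^ 4 * (1 / (q * ‖η‖) + (q : ℝ) ^ ε) := by
        have a1 : 0 ≤ (‖η‖ / η.re) ^ 4 * (C1 * (q : ℝ) ^ ε) := by positivity
        have a2 : 0 ≤ (‖η‖ / η.re) ^ 4 * (3262 * C2 ^ 4 * (1 / (q * ‖η‖))) := by positivity
        nlinarith

/-- the same with `T2.AA` -/
theorem AA_asymp {ε : ℝ} (hε : 0 < ε) : ∃ C : ℝ, 0 < C ∧ ∀ q : ℕ, 0 < q → ∀ η : ℂ, 0 < η.re →
    ‖Pool.Agent.T2.AA q η - (1 / (q * η)) * (-Complex.log η - 2 * Real.log q)‖ ≤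
      C * (‖η‖ / η.re) ^ 4 * (1 / (q * ‖η‖) + (q : ℝ) ^ ε) :=
  avg_units hε

end Pool.Agent.T2ext
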