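import Mathlib

/-!
Counting lemma for the twisted second moment beyond the diagonal range:
the second moment over `d mod q` of the number of `a` with `a d / q` close to an integer.
-/

namespace Pool.Agent.T2

open Finset

/-- distance to the nearest integer -/
noncomputable def nd (x : ℝ) : ℝ := |x - round x|

lemma nd_nonneg (x : ℝ) : 0 ≤ nd x := abs_nonneg _

lemma nd_le_half (x : ℝ) : nd x ≤ 1 / 2 := abs_sub_round x

lemma nd_int_add (n : ℤ) (u : ℝ) : nd (n + u) = nd u := by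
  unfold nd
  rw [round_intCast_add]
  push_cast
  congr 1
  ring

lemma nd_of_lt {u : ℝ} (h : |u| < 1 / 2) : nd u = |u| := by
  unfold nd
  have : round u = 0 := by
    rw [round_eq_zero_iff]
    rw [abs_lt] at h
    constructor <;> linarith
  rw [this]
  simp

/-- the fractional part as a residue -/
lemma nd_div (a d q : ℕ) (hq : 0 < q) :
    nd ((a : ℝ) * d / q) = min ((a * d % q : ℕ) : ℝ) ((q : ℝ) - ((a * d % q : ℕ) : ℝ)) / q := by
  have hq' : (0 : ℝ) < q := by exact_mod_cast hq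
  unfold nd
  rw [abs_sub_round_eq_min]
  have h1 : Int.fract ((a : ℝ) * d / q) = ((a * d % q : ℕ) : ℝ) / q := by
    have := Int.fract_div_natCast_eq_div_natCast_mod (k := ℝ) (m := a * d) (n := q)
    push_cast at this
    exact this
  rw [h1, ← min_div_div_right hq'.le]
  congr 1
  field_simp

lemma fiber_card (a q : ℕ) (hq : 0 < q) (r : ℕ) :
    ((range q).filter fun d => a * d % q = r).card ≤ Nat.gcd a q := by
  have hg : 0 < Nat.gcd a q := Nat.gcd_pos_of_pos_right a hq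
  obtain ⟨q', hq'⟩ := Nat.gcd_dvd_right a q
  obtain ⟨a', ha'⟩ := Nat.gcd_dvd_left a q
  have hq'0 : 0 < q' := by
    rcases Nat.eq_zero_or_pos q' with h | h
    · rw [h] at hq'; omega
    · exact h
  have hcop : Nat.Coprime q' a' := by
    have h1 : a / Nat.gcd a q = a' := Nat.div_eq_of_eq_mul_right hg ha'
    have h2 : q / Nat.gcd a q = q' := Nat.div_eq_of_eq_mul_right hg hq'
    have := Nat.coprime_div_gcd_div_gcd hg
    rw [h1, h2] at this
    exact this.symm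
  rw [← card_range (Nat.gcd a q)]
  refine card_le_card_of_injOn (fun d => d / q') ?_ ?_
  · intro d hd
    rw [mem_coe, mem_filter, mem_range] at hd
    rw [mem_coe, mem_range, Nat.div_lt_iff_lt_mul hq'0]
    rw [hq'] at hd
    exact hd.1
  · intro d hd e he hde
    rw [mem_coe, mem_filter, mem_range] at hd he
    simp only at hde
    have h1 : a * d ≡ a * e [MOD q] := hd.2.trans he.2.symm
    have h2 : d ≡ e [MOD q'] := by
      have h3 : Nat.gcd a q * (a' * d) ≡ Nat.gcd a q * (a' * e) [MOD Nat.gcd a q * q'] := by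
        rw [← hq', ← mul_assoc, ← mul_assoc, ← ha']
        exact h1
      have h4 : a' * d ≡ a' * e [MOD q'] := Nat.ModEq.mul_left_cancel' hg.ne' h3
      exact Nat.ModEq.cancel_left_of_coprime hcop h4
    have h5 := Nat.div_add_mod d q'
    have h6 := Nat.div_add_mod e q'
    rw [← h5, ← h6, hde]
    congr 1

lemma half_count (a q : ℕ) (hq : 0 < q) (X : ℝ) (hX : 0 ≤ X) (f : ℕ → ℕ)
    (hf : ∀ d, Nat.gcd a q ∣ f d)
    (hfib : ∀ r, ((range q).filter fun d => f d = r).card ≤ Nat.gcd a q) :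
    (((range q).filter fun d => 0 < f d ∧ (f d : ℝ) ≤ X).card : ℝ) ≤ X := by
  have hg : 0 < Nat.gcd a q := Nat.gcd_pos_of_pos_right a hq
  set g := Nat.gcd a q with hgdef
  have hmaps : ∀ d ∈ (range q).filter (fun d => 0 < f d ∧ (f d : ℝ) ≤ X),
      f d / g ∈ Icc 1 ⌊X / g⌋₊ := by
    intro d hd
    rw [mem_filter] at hd
    rw [mem_Icc]
    constructor
    · exact (Nat.one_le_div_iff hg).mpr (Nat.le_of_dvd hd.2.1 (hf d))
    · apply Nat.le_floor
      rw [Nat.cast_div (hf d) (by exact_mod_cast hg.ne')]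
      gcongr
      exact hd.2.2
  have hfibs : ∀ m ∈ Icc 1 ⌊X / g⌋₊,
      (((range q).filter (fun d => 0 < f d ∧ (f d : ℝ) ≤ X)).filter fun d => f d / g = m).card ≤ g := by
    intro m hm
    refine le_trans (card_le_card ?_) (hfib (g * m))
    intro d hd
    rw [mem_filter, mem_filter] at hd
    rw [mem_filter]
    refine ⟨hd.1.1, ?_⟩
    rw [← hd.2]
    exact (Nat.mul_div_cancel' (hf d)).symm
  have h1 := card_le_mul_card_image_of_maps_to hmaps g hfibs
  rw [Nat.card_Icc, Nat.add_sub_cancel] at h1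
  calc (((range q).filter fun d => 0 < f d ∧ (f d : ℝ) ≤ X).card : ℝ) ≤ g * ⌊X / g⌋₊ := by
        exact_mod_cast h1
    _ ≤ g * (X / g) := by
        gcongr
        exact Nat.floor_le (by positivity)
    _ = X := by
        have : (g : ℝ) ≠ 0 := by exact_mod_cast hg.ne'
        field_simp

/-- first moment -/
lemma first_moment (a q : ℕ) (hq : 0 < q) (Θ : ℝ) (hΘ : 0 ≤ Θ) :
    (((range q).filter fun d : ℕ => 0 < nd ((a : ℝ) * d / q) ∧ nd ((a : ℝ) * d / q) ≤ Θ).card : ℝ) ≤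
      2 * Θ * q := by
  classical
  have hq' : (0 : ℝ) < q := by exact_mod_cast hq
  have hsub : ((range q).filter fun d : ℕ => 0 < nd ((a : ℝ) * d / q) ∧ nd ((a : ℝ) * d / q) ≤ Θ) ⊆
      ((range q).filter fun d : ℕ => 0 < a * d % q ∧ ((a * d % q : ℕ) : ℝ) ≤ Θ * q) ∪
      ((range q).filter fun d : ℕ => 0 < q - a * d % q ∧ ((q - a * d % q : ℕ) : ℝ) ≤ Θ * q) := by
    intro d hd
    rw [mem_filter] at hd
    obtain ⟨hdq, h0, hle⟩ := hd
    rw [nd_div a d q hq] at h0 hle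
    have hlt := Nat.mod_lt (a * d) hq
    have hcast : ((q - a * d % q : ℕ) : ℝ) = (q : ℝ) - ((a * d % q : ℕ) : ℝ) := by
      rw [Nat.cast_sub hlt.le]
    have h1 : 0 < min ((a * d % q : ℕ) : ℝ) ((q : ℝ) - ((a * d % q : ℕ) : ℝ)) := by
      by_contra hcon
      rw [not_lt] at hcon
      have := div_nonpos_of_nonpos_of_nonneg hcon hq'.le
      linarith
    rw [lt_min_iff] at h1
    rw [div_le_iff₀ hq', min_le_iff] at hle
    rw [mem_union, mem_filter, mem_filter, hcast]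
    rcases hle with h2 | h2
    · left
      exact ⟨hdq, by exact_mod_cast h1.1, h2⟩
    · right
      refine ⟨hdq, by omega, h2⟩
  have hA := half_count a q hq (Θ * q) (by positivity) (fun d => a * d % q) (fun d => by
    rw [Nat.dvd_mod_iff (Nat.gcd_dvd_right a q)]
    exact dvd_mul_of_dvd_left (Nat.gcd_dvd_left a q) d) (fiber_card a q hq)
  have hB := half_count a q hq (Θ * q) (by positivity) (fun d => q - a * d % q) (fun d => by
    refine Nat.dvd_sub (Nat.gcd_dvd_right a q) ?_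
    rw [Nat.dvd_mod_iff (Nat.gcd_dvd_right a q)]
    exact dvd_mul_of_dvd_left (Nat.gcd_dvd_left a q) d) (fun r => by
      by_cases hr : r ≤ q
      · refine le_trans (card_le_card ?_) (fiber_card a q hq (q - r))
        intro d hd
        rw [mem_filter] at hd ⊢
        refine ⟨hd.1, ?_⟩
        have := Nat.mod_lt (a * d) hq
        have h2 := hd.2
        omega
      · have : ((range q).filter fun d => q - a * d % q = r) = ∅ := by
          rw [filter_eq_empty_iff]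
          intro d _ h
          omega
        rw [this]
        simp)
  have h3 := card_le_card hsub
  have h4 := (Nat.cast_le (α := ℝ)).mpr (h3.trans (card_union_le _ _))
  push_cast at h4
  linarith

/-- signed distance -/
noncomputable def sd (x : ℝ) : ℝ := x - round x

lemma abs_sd (x : ℝ) : |sd x| = nd x := rfl

/-- the set of solutions in a box -/
noncomputable def box (α : ℝ) (A : ℕ) (Θ : ℝ) : Finset ℕ :=
  (Icc 1 A).filter fun a => 0 < nd ((a : ℝ) * α) ∧ nd ((a : ℝ) * α) ≤ Θ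

lemma mem_box {α : ℝ} {A : ℕ} {Θ : ℝ} {a : ℕ} :
    a ∈ box α A Θ ↔ (1 ≤ a ∧ a ≤ A) ∧ 0 < nd ((a : ℝ) * α) ∧ nd ((a : ℝ) * α) ≤ Θ := by
  unfold box
  rw [mem_filter, mem_Icc]

lemma prop_box {α : ℝ} {A : ℕ} {Θ : ℝ} (hb : 2 * (A : ℝ) * Θ < 1) {a b : ℕ}
    (ha : a ∈ box α A Θ) (hb' : b ∈ box α A Θ) :
    (a : ℝ) * sd (b * α) = b * sd (a * α) := by
  rw [mem_box] at ha hb'
  have e : (a : ℝ) * sd (b * α) - b * sd (a * α) =
      (((b : ℤ) * round ((a : ℝ) * α) - (a : ℤ) * round ((b : ℝ) * α) : ℤ) : ℝ) := by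
    unfold sd
    push_cast
    ring
  have h1 : |(a : ℝ) * sd (b * α) - b * sd (a * α)| < 1 := by
    have ha1 : (a : ℝ) ≤ A := by exact_mod_cast ha.1.2
    have hb1 : (b : ℝ) ≤ A := by exact_mod_cast hb'.1.2
    have hΘ : 0 ≤ Θ := (nd_nonneg _).trans ha.2.2
    calc |(a : ℝ) * sd (b * α) - b * sd (a * α)| ≤ |(a : ℝ) * sd (b * α)| + |b * sd (a * α)| :=
          abs_sub _ _
      _ = a * nd (b * α) + b * nd (a * α) := by
          rw [abs_mul, abs_mul, abs_sd, abs_sd, Nat.abs_cast, Nat.abs_cast]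
      _ ≤ A * Θ + A * Θ := by
          have := ha.2.2
          have := hb'.2.2
          have := nd_nonneg (b * α)
          have := nd_nonneg (a * α)
          gcongr
      _ < 1 := by linarith
  rw [e] at h1
  have h2 : ((b : ℤ) * round ((a : ℝ) * α) - (a : ℤ) * round ((b : ℝ) * α) : ℤ) = 0 := by
    rw [← Int.abs_lt_one_iff]
    exact_mod_cast h1
  rw [h2] at e
  simp only [Int.cast_zero] at e
  linarith

lemma fin_telescope (k : ℕ) (f : Fin (k + 1) → ℝ) :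
    ∑ i : Fin k, (f i.succ - f i.castSucc) = f (Fin.last k) - f 0 := by
  have h1 := Fin.sum_univ_succ f
  have h2 := Fin.sum_univ_castSucc f
  rw [sum_sub_distrib]
  linarith

/-- many solutions in a small box force a much smaller solution -/
lemma small_sol {α : ℝ} {A : ℕ} {Θ : ℝ} (hA : 1 ≤ A) (hb : 2 * (A : ℝ) * Θ < 1) {t : ℕ}
    (ht : 1 ≤ t) (hcard : t ≤ (box α A Θ).card) :
    ∃ δ : ℕ, 1 ≤ δ ∧ t * δ ≤ A ∧ 0 < nd ((δ : ℝ) * α) ∧ t * nd ((δ : ℝ) * α) ≤ Θ := by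
  classical
  have hne : (box α A Θ).Nonempty := by
    rw [← card_pos]; omega
  set S := box α A Θ with hS
  set M := S.max' hne with hM
  have hMS : M ∈ S := S.max'_mem hne
  have hM1 := mem_box.mp hMS
  have h0S : 0 ∉ S := by
    intro h
    have := (mem_box.mp h).1.1
    omega
  have hcardI : (insert 0 S).card = S.card + 1 := card_insert_of_notMem h0S
  set k := S.card with hk
  set e := (insert 0 S).orderEmbOfFin hcardI with he
  have hlin : ∀ a ∈ insert 0 S, (M : ℝ) * sd (a * α) = a * sd (M * α) := by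
    intro a ha
    rcases mem_insert.mp ha with h | h
    · rw [h]; simp [sd]
    · exact prop_box hb hMS h
  have heS : ∀ i, e i ∈ insert 0 S := fun i => orderEmbOfFin_mem _ _ _
  have heM : ∀ i, e i ≤ M := by
    intro i
    rcases mem_insert.mp (heS i) with h | h
    · rw [h]; exact Nat.zero_le _
    · exact S.le_max' _ h
  have hk1 : 1 ≤ k := by omega
  -- a small gap
  obtain ⟨i, _, hi⟩ : ∃ i ∈ (univ : Finset (Fin k)),
      ((e i.succ : ℝ) - (e i.castSucc : ℝ)) ≤ M / k := by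
    have : NeZero k := ⟨by omega⟩
    apply exists_le_of_sum_le (univ_nonempty)
    rw [fin_telescope k (fun i => (e i : ℝ)), sum_const, card_univ, Fintype.card_fin, nsmul_eq_mul]
    have h1 : ((e (Fin.last k) : ℕ) : ℝ) ≤ M := by exact_mod_cast heM _
    have h2 : (0 : ℝ) ≤ (e 0 : ℕ) := by positivity
    have h3 : (k : ℝ) * (M / k) = M := by
      have : (k : ℝ) ≠ 0 := by
        have : k ≠ 0 := by omega
        exact_mod_cast this
      field_simp
    rw [h3]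
    linarith
  have hlt : e i.castSucc < e i.succ := e.strictMono (Fin.castSucc_lt_succ)
  set x := e i.castSucc with hx
  set y := e i.succ with hy
  have hxy : (x : ℝ) < y := by exact_mod_cast hlt
  have hcast : ((y - x : ℕ) : ℝ) = (y : ℝ) - x := by rw [Nat.cast_sub hlt.le]
  have hkpos : (0 : ℝ) < k := by exact_mod_cast hk1
  have htk : (t : ℝ) ≤ k := by exact_mod_cast hcard
  have hgap : (t : ℝ) * ((y : ℝ) - x) ≤ M := by
    rw [le_div_iff₀ hkpos] at hi
    calc (t : ℝ) * ((y : ℝ) - x) ≤ k * ((y : ℝ) - x) := by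
          apply mul_le_mul_of_nonneg_right htk
          linarith
      _ ≤ M := by linarith
  have hMpos : (0 : ℝ) < M := by
    have : 1 ≤ M := hM1.1.1
    exact_mod_cast this
  have hs : (M : ℝ) * (sd (y * α) - sd (x * α)) = ((y : ℝ) - x) * sd (M * α) := by
    have h1 := hlin y (heS _)
    have h2 := hlin x (heS _)
    linear_combination h1 - h2
  have habs : (M : ℝ) * |sd (y * α) - sd (x * α)| = ((y : ℝ) - x) * nd (M * α) := by
    have := congrArg abs hs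
    rw [abs_mul, abs_mul, abs_sd, abs_of_pos hMpos, abs_of_pos (by linarith : (0 : ℝ) < y - x)] at this
    exact this
  have hnd : nd (((y - x : ℕ) : ℝ) * α) = |sd (y * α) - sd (x * α)| := by
    have h1 : ((y - x : ℕ) : ℝ) * α = ((round ((y : ℝ) * α) - round ((x : ℝ) * α) : ℤ) : ℝ) +
        (sd (y * α) - sd (x * α)) := by
      rw [hcast]
      unfold sd
      push_cast
      ring
    rw [h1, nd_int_add, nd_of_lt]
    have h2 : (t : ℝ) * |sd (y * α) - sd (x * α)| ≤ Θ := by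
      have h3 : (M : ℝ) * (t * |sd (y * α) - sd (x * α)|) ≤ M * Θ := by
        calc (M : ℝ) * (t * |sd (y * α) - sd (x * α)|) = t * (M * |sd (y * α) - sd (x * α)|) := by
              ring
          _ = (t * ((y : ℝ) - x)) * nd (M * α) := by rw [habs]; ring
          _ ≤ M * Θ := by
              apply mul_le_mul hgap hM1.2.2 (nd_nonneg _) hMpos.le
      exact le_of_mul_le_mul_left h3 hMpos
    have ht1 : (1 : ℝ) ≤ t := by exact_mod_cast ht
    have hA1 : (1 : ℝ) ≤ A := by exact_mod_cast hA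
    have h5 : |sd (y * α) - sd (x * α)| ≤ Θ := by
      have := abs_nonneg (sd (y * α) - sd (x * α))
      nlinarith
    have hΘ : 0 ≤ Θ := (abs_nonneg _).trans h5
    nlinarith
  refine ⟨y - x, ?_, ?_, ?_, ?_⟩
  · have : x < y := hlt
    omega
  · have h1 : (t : ℝ) * ((y - x : ℕ) : ℝ) ≤ (A : ℝ) := by
      rw [hcast]
      refine hgap.trans ?_
      exact_mod_cast hM1.1.2
    exact_mod_cast h1
  · rw [hnd]
    have h1 : 0 < (M : ℝ) * |sd (y * α) - sd (x * α)| := by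
      rw [habs]
      exact mul_pos (by linarith) hM1.2.1
    exact (mul_pos_iff_of_pos_left hMpos).mp h1
  · rw [hnd]
    have h3 : (M : ℝ) * (t * |sd (y * α) - sd (x * α)|) ≤ M * Θ := by
      calc (M : ℝ) * (t * |sd (y * α) - sd (x * α)|) = t * (M * |sd (y * α) - sd (x * α)|) := by
            ring
        _ = (t * ((y : ℝ) - x)) * nd (M * α) := by rw [habs]; ring
        _ ≤ M * Θ := by
            apply mul_le_mul hgap hM1.2.2 (nd_nonneg _) hMpos.le
    exact le_of_mul_le_mul_left h3 hMpos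

lemma sq_eq_sum (n : ℕ) : ((n : ℝ)) ^ 2 = ∑ s ∈ Icc 1 n, (2 * (s : ℝ) - 1) := by
  induction n with
  | zero => simp
  | succ n ih =>
    rw [sum_Icc_succ_top (by omega), ← ih]
    push_cast
    ring

lemma harm_le (A : ℕ) : ∑ s ∈ Icc 1 A, 1 / (s : ℝ) ≤ 1 + Real.log A := by
  have h1 := harmonic_le_one_add_log A
  refine le_trans (le_of_eq ?_) h1
  rw [harmonic_eq_sum_Icc]
  push_cast
  exact sum_congr rfl fun s _ => one_div _

/-- second moment, small boxes -/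
lemma second_small (q : ℕ) (hq : 0 < q) (A : ℕ) (hA : 1 ≤ A) (Θ : ℝ) (hΘ : 0 ≤ Θ)
    (hb : 2 * (A : ℝ) * Θ < 1) :
    ∑ d ∈ range q, ((box ((d : ℝ) / q) A Θ).card : ℝ) ^ 2 ≤
      4 * A * Θ * q * (1 + Real.log A) := by
  classical
  have hcardA : ∀ d : ℕ, (box ((d : ℝ) / q) A Θ).card ≤ A := by
    intro d
    refine (card_filter_le _ _).trans ?_
    simp
  have h1 : ∀ d ∈ range q, ((box ((d : ℝ) / q) A Θ).card : ℝ) ^ 2 ≤
      ∑ s ∈ Icc 1 A, 2 * (s : ℝ) * (((Icc 1 (A / s)).filter fun δ : ℕ =>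
        0 < nd ((δ : ℝ) * d / q) ∧ nd ((δ : ℝ) * d / q) ≤ Θ / s).card : ℝ) := by
    intro d _
    rw [sq_eq_sum]
    refine le_trans (b := ∑ s ∈ Icc 1 (box ((d : ℝ) / q) A Θ).card,
      2 * (s : ℝ) * (((Icc 1 (A / s)).filter fun δ : ℕ =>
        0 < nd ((δ : ℝ) * d / q) ∧ nd ((δ : ℝ) * d / q) ≤ Θ / s).card : ℝ)) ?_ ?_
    · refine sum_le_sum fun s hs => ?_
      rw [mem_Icc] at hs
      obtain ⟨δ, hδ1, hδA, hδ0, hδle⟩ := small_sol hA hb hs.1 hs.2
      have hs0 : (0 : ℝ) < s := by exact_mod_cast hs.1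
      have hmem : δ ∈ (Icc 1 (A / s)).filter fun δ : ℕ =>
          0 < nd ((δ : ℝ) * d / q) ∧ nd ((δ : ℝ) * d / q) ≤ Θ / s := by
        rw [mem_filter, mem_Icc, mul_div_assoc]
        refine ⟨⟨hδ1, ?_⟩, hδ0, ?_⟩
        · rw [Nat.le_div_iff_mul_le hs.1]
          rw [mul_comm]; exact hδA
        · rw [le_div_iff₀ hs0]
          linarith
      have hc : (1 : ℝ) ≤ (((Icc 1 (A / s)).filter fun δ : ℕ =>
          0 < nd ((δ : ℝ) * d / q) ∧ nd ((δ : ℝ) * d / q) ≤ Θ / s).card : ℝ) := by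
        exact_mod_cast card_pos.mpr ⟨δ, hmem⟩
      nlinarith
    · refine sum_le_sum_of_subset_of_nonneg (Icc_subset_Icc_right (hcardA d)) fun i _ _ => ?_
      positivity
  refine (sum_le_sum h1).trans ?_
  rw [sum_comm]
  have h2 : ∀ s ∈ Icc 1 A, ∑ d ∈ range q, 2 * (s : ℝ) * (((Icc 1 (A / s)).filter fun δ : ℕ =>
        0 < nd ((δ : ℝ) * d / q) ∧ nd ((δ : ℝ) * d / q) ≤ Θ / s).card : ℝ) ≤
      4 * A * Θ * q * (1 / s) := by
    intro s hs
    rw [mem_Icc] at hs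
    have hs0 : (0 : ℝ) < s := by exact_mod_cast hs.1
    rw [← mul_sum]
    have h3 : ∑ d ∈ range q, (((Icc 1 (A / s)).filter fun δ : ℕ =>
        0 < nd ((δ : ℝ) * d / q) ∧ nd ((δ : ℝ) * d / q) ≤ Θ / s).card : ℝ) =
        ∑ δ ∈ Icc 1 (A / s), (((range q).filter fun d : ℕ =>
        0 < nd ((δ : ℝ) * d / q) ∧ nd ((δ : ℝ) * d / q) ≤ Θ / s).card : ℝ) := by
      simp_rw [card_filter]
      push_cast
      rw [sum_comm]
    rw [h3]
    have h4 : ∑ δ ∈ Icc 1 (A / s), (((range q).filter fun d : ℕ =>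
        0 < nd ((δ : ℝ) * d / q) ∧ nd ((δ : ℝ) * d / q) ≤ Θ / s).card : ℝ) ≤
        ∑ δ ∈ Icc 1 (A / s), 2 * (Θ / s) * q :=
      sum_le_sum fun δ _ => first_moment δ q hq (Θ / s) (by positivity)
    rw [sum_const, Nat.card_Icc, Nat.add_sub_cancel, nsmul_eq_mul] at h4
    have h5 : ((A / s : ℕ) : ℝ) ≤ A / s := Nat.cast_div_le
    calc 2 * (s : ℝ) * _ ≤ 2 * (s : ℝ) * (((A / s : ℕ) : ℝ) * (2 * (Θ / s) * q)) := by gcongr
      _ ≤ 2 * (s : ℝ) * ((A / s : ℝ) * (2 * (Θ / s) * q)) := by gcongr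
      _ = 4 * A * Θ * q * (1 / s) := by field_simp; ring
  refine (sum_le_sum h2).trans ?_
  rw [← mul_sum]
  exact mul_le_mul_of_nonneg_left (harm_le A) (by positivity)

/-- the blocks of a long box are translates of short boxes -/
lemma block_le (q : ℕ) (hq : 0 < q) (d : ℕ) (A : ℕ) (Θ : ℝ) (A₁ : ℕ) (hA1 : 1 ≤ A₁)
    (h8 : 8 * (A₁ : ℝ) * Θ ≤ 1) (m : ℕ) :
    (((box ((d : ℝ) / q) A Θ).filter fun a => (a - 1) / A₁ = m).card : ℝ) ≤
      1 + ((box ((d : ℝ) / q) A₁ (2 * Θ)).card : ℝ) := by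
  classical
  have hq' : (0 : ℝ) < q := by exact_mod_cast hq
  set B := (box ((d : ℝ) / q) A Θ).filter fun a => (a - 1) / A₁ = m with hB
  rcases B.eq_empty_or_nonempty with h | hne
  · rw [h]
    simp only [card_empty, Nat.cast_zero]
    positivity
  · set a0 := B.min' hne with ha0
    have ha0B : a0 ∈ B := B.min'_mem hne
    rw [hB, mem_filter, mem_box] at ha0B
    obtain ⟨⟨⟨ha01, ha0A⟩, ha0p, ha0l⟩, ha0m⟩ := ha0B
    have key : ∀ a ∈ B.erase a0, a - a0 ∈ box ((d : ℝ) / q) A₁ (2 * Θ) := by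
      intro a ha
      rw [mem_erase] at ha
      have hale : a0 ≤ a := B.min'_le _ ha.2
      have halt : a0 < a := lt_of_le_of_ne hale (Ne.symm ha.1)
      obtain ⟨hane, haB⟩ := ha
      rw [hB, mem_filter, mem_box] at haB
      obtain ⟨⟨⟨ha1, haA⟩, hap, hal⟩, ham⟩ := haB
      have hdiff : a - a0 ≤ A₁ := by
        have e1 := Nat.div_add_mod (a - 1) A₁
        have e2 := Nat.div_add_mod (a0 - 1) A₁
        have e3 := Nat.mod_lt (a - 1) (show A₁ > 0 by omega)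
        rw [ham] at e1
        rw [ha0m] at e2
        omega
      have hcast : ((a - a0 : ℕ) : ℝ) = (a : ℝ) - a0 := by rw [Nat.cast_sub halt.le]
      have hΘ8 : Θ ≤ 1 / 8 := by
        have : (1 : ℝ) ≤ A₁ := by exact_mod_cast hA1
        have hΘ : 0 ≤ Θ := (nd_nonneg _).trans hal
        nlinarith
      set α := (d : ℝ) / q with hα
      have hnd : nd (((a - a0 : ℕ) : ℝ) * α) = |sd (a * α) - sd (a0 * α)| := by
        have h1 : ((a - a0 : ℕ) : ℝ) * α = ((round ((a : ℝ) * α) - round ((a0 : ℝ) * α) : ℤ) : ℝ) +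
            (sd (a * α) - sd (a0 * α)) := by
          rw [hcast]
          unfold sd
          push_cast
          ring
        rw [h1, nd_int_add, nd_of_lt]
        have h2 := abs_sub (sd (a * α)) (sd (a0 * α))
        rw [abs_sd, abs_sd] at h2
        linarith
      have hle : nd (((a - a0 : ℕ) : ℝ) * α) ≤ 2 * Θ := by
        rw [hnd]
        have h2 := abs_sub (sd (a * α)) (sd (a0 * α))
        rw [abs_sd, abs_sd] at h2
        linarith
      rw [mem_box]
      refine ⟨⟨by omega, hdiff⟩, ?_, hle⟩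
      -- not an integer
      by_contra hcon
      have h0 : nd (((a - a0 : ℕ) : ℝ) * α) = 0 := le_antisymm (not_lt.mp hcon) (nd_nonneg _)
      rw [hα, ← mul_div_assoc, nd_div _ _ _ hq] at h0
      have hr : (a - a0) * d % q = 0 := by
        by_contra hr
        have hlt := Nat.mod_lt ((a - a0) * d) hq
        have h1 : (0 : ℝ) < (((a - a0) * d % q : ℕ) : ℝ) := by
          exact_mod_cast Nat.pos_of_ne_zero hr
        have h2 : (0 : ℝ) < (q : ℝ) - (((a - a0) * d % q : ℕ) : ℝ) := by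
          have : (((a - a0) * d % q : ℕ) : ℝ) < q := by exact_mod_cast hlt
          linarith
        have := div_pos (lt_min h1 h2) hq'
        linarith
      -- then `δ (a d / q)` is an integer for `δ = a - a0`, so `nd (a d / q) ≥ 1 / δ`
      have hδ : (0 : ℝ) < ((a - a0 : ℕ) : ℝ) := by
        have : 0 < a - a0 := by omega
        exact_mod_cast this
      have hdvd : q ∣ (a - a0) * d := Nat.dvd_of_mod_eq_zero hr
      obtain ⟨w, hw⟩ := hdvd
      have hint : ((a - a0 : ℕ) : ℝ) * sd (a * α) =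
          (((a : ℤ) * w - ((a - a0 : ℕ) : ℤ) * round ((a : ℝ) * α) : ℤ) : ℝ) := by
        have hw' : ((a - a0 : ℕ) : ℝ) * d = q * w := by exact_mod_cast hw
        unfold sd
        push_cast
        rw [hα]
        have : ((a - a0 : ℕ) : ℝ) * ((a : ℝ) * (d / q)) = a * w := by
          field_simp
          linear_combination hw'
        linear_combination this
      have hne0 : ((a : ℤ) * w - ((a - a0 : ℕ) : ℤ) * round ((a : ℝ) * α) : ℤ) ≠ 0 := by
        intro h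
        rw [h, Int.cast_zero] at hint
        rcases mul_eq_zero.mp hint with h5 | h5
        · linarith
        · rw [← abs_sd, h5, abs_zero] at hap
          exact lt_irrefl _ hap
      have hge : (1 : ℝ) ≤ |((a - a0 : ℕ) : ℝ) * sd (a * α)| := by
        rw [hint]
        exact_mod_cast Int.one_le_abs hne0
      rw [abs_mul, abs_of_pos hδ, abs_sd] at hge
      have h6 : ((a - a0 : ℕ) : ℝ) ≤ A₁ := by exact_mod_cast hdiff
      have h7 : ((a - a0 : ℕ) : ℝ) * nd (a * α) ≤ A₁ * Θ := by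
        apply mul_le_mul h6 hal (nd_nonneg _) (by positivity)
      linarith
    have hinj : (B.erase a0).card ≤ (box ((d : ℝ) / q) A₁ (2 * Θ)).card := by
      refine card_le_card_of_injOn (fun a => a - a0) key ?_
      intro a ha b hb hab
      rw [mem_coe, mem_erase] at ha hb
      have h1 : a0 ≤ a := B.min'_le _ ha.2
      have h2 : a0 ≤ b := B.min'_le _ hb.2
      simp only at hab
      omega
    rw [card_erase_of_mem (B.min'_mem hne)] at hinj
    have : B.card ≤ 1 + (box ((d : ℝ) / q) A₁ (2 * Θ)).card := by omega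
    exact_mod_cast this

/-- second moment, large boxes -/
lemma second_large (q : ℕ) (hq : 0 < q) (A : ℕ) (hA : 1 ≤ A) (Θ : ℝ) (hΘ : 0 < Θ)
    (hb : 1 ≤ 2 * (A : ℝ) * Θ) :
    ∑ d ∈ range q, ((box ((d : ℝ) / q) A Θ).card : ℝ) ^ 2 ≤
      2 ^ 13 * (A * Θ) ^ 2 * q * (1 + Real.log A) := by
  classical
  have hAR : (1 : ℝ) ≤ A := by exact_mod_cast hA
  have hlog : 0 ≤ Real.log A := Real.log_nonneg hAR
  have hqR : (0 : ℝ) < q := by exact_mod_cast hq
  rcases le_or_gt (1 / 8) Θ with h8 | h8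
  · have h1 : ∀ d ∈ range q, ((box ((d : ℝ) / q) A Θ).card : ℝ) ^ 2 ≤ (8 * (A * Θ)) ^ 2 := by
      intro d _
      have h2 : ((box ((d : ℝ) / q) A Θ).card : ℝ) ≤ A := by
        have : (box ((d : ℝ) / q) A Θ).card ≤ A := by
          refine (card_filter_le _ _).trans ?_
          simp
        exact_mod_cast this
      have h3 : (A : ℝ) ≤ 8 * (A * Θ) := by nlinarith
      gcongr
      linarith
    refine (sum_le_sum h1).trans ?_
    rw [sum_const, card_range, nsmul_eq_mul]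
    have h4 : 0 ≤ (A * Θ : ℝ) ^ 2 * q := by positivity
    have h5 : 0 ≤ (A * Θ : ℝ) ^ 2 * q * Real.log A := by positivity
    nlinarith
  · set A₁ := ⌊1 / (8 * Θ)⌋₊ with hA₁
    have hA1 : 1 ≤ A₁ := by
      apply Nat.le_floor
      rw [Nat.cast_one, le_div_iff₀ (by positivity)]
      linarith
    have hA1R : (1 : ℝ) ≤ A₁ := by exact_mod_cast hA1
    have hA1le : (A₁ : ℝ) ≤ 1 / (8 * Θ) := Nat.floor_le (by positivity)
    have hA1lt : 1 / (8 * Θ) < A₁ + 1 := Nat.lt_floor_add_one _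
    have h8' : 8 * (A₁ : ℝ) * Θ ≤ 1 := by
      rw [le_div_iff₀ (by positivity)] at hA1le
      linarith
    have hA1ge : 1 ≤ 16 * Θ * A₁ := by
      rw [div_lt_iff₀ (by positivity)] at hA1lt
      nlinarith
    -- number of blocks
    have hblocks : ∀ d : ℕ, ((box ((d : ℝ) / q) A Θ).card : ℝ) ≤
        (32 * (A * Θ)) * (1 + ((box ((d : ℝ) / q) A₁ (2 * Θ)).card : ℝ)) := by
      intro d
      have hmaps : ∀ a ∈ box ((d : ℝ) / q) A Θ, (a - 1) / A₁ ∈ range ((A - 1) / A₁ + 1) := by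
        intro a ha
        rw [mem_box] at ha
        rw [mem_range, Nat.lt_succ_iff]
        exact Nat.div_le_div_right (by omega)
      rw [card_eq_sum_card_fiberwise hmaps]
      push_cast
      refine (sum_le_sum fun m _ => block_le q hq d A Θ A₁ hA1 h8' m).trans ?_
      rw [sum_const, card_range, nsmul_eq_mul]
      have hnb : (((A - 1) / A₁ + 1 : ℕ) : ℝ) ≤ 32 * (A * Θ) := by
        have h1 : (((A - 1) / A₁ : ℕ) : ℝ) ≤ A / A₁ := by
          refine Nat.cast_div_le.trans ?_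
          gcongr
          omega
        push_cast
        have h2 : (A : ℝ) / A₁ ≤ 16 * (A * Θ) := by
          rw [div_le_iff₀ (by linarith)]
          nlinarith
        have h3 : 1 ≤ 16 * (A * Θ) := by nlinarith
        linarith
      exact mul_le_mul_of_nonneg_right hnb (by positivity)
    have hsm := second_small q hq A₁ hA1 (2 * Θ) (by positivity) (by linarith)
    have hlogA1 : Real.log A₁ ≤ Real.log A := by
      apply Real.log_le_log (by linarith)
      have h1 : (A₁ : ℝ) ≤ A := by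
        refine hA1le.trans ?_
        rw [div_le_iff₀ (by positivity)]
        linarith
      exact h1
    have hsm' : ∑ d ∈ range q, ((box ((d : ℝ) / q) A₁ (2 * Θ)).card : ℝ) ^ 2 ≤
        q * (1 + Real.log A) := by
      refine hsm.trans ?_
      have h1 : 4 * (A₁ : ℝ) * (2 * Θ) * q ≤ 1 * q := by
        apply mul_le_mul_of_nonneg_right _ hqR.le
        linarith
      calc 4 * (A₁ : ℝ) * (2 * Θ) * q * (1 + Real.log A₁) ≤ (1 * q) * (1 + Real.log A) := by
            apply mul_le_mul h1 (by linarith) _ (by positivity)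
            have := Real.log_nonneg hA1R
            linarith
        _ = _ := by ring
    calc ∑ d ∈ range q, ((box ((d : ℝ) / q) A Θ).card : ℝ) ^ 2
        ≤ ∑ d ∈ range q, (32 * (A * Θ)) ^ 2 *
            (2 * (1 + ((box ((d : ℝ) / q) A₁ (2 * Θ)).card : ℝ) ^ 2)) := by
          refine sum_le_sum fun d _ => ?_
          have h1 := hblocks d
          have h2 : ((box ((d : ℝ) / q) A Θ).card : ℝ) ^ 2 ≤
              ((32 * (A * Θ)) * (1 + ((box ((d : ℝ) / q) A₁ (2 * Θ)).card : ℝ))) ^ 2 := by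
            gcongr
          refine h2.trans ?_
          rw [mul_pow]
          apply mul_le_mul_of_nonneg_left _ (by positivity)
          nlinarith [sq_nonneg (1 - ((box ((d : ℝ) / q) A₁ (2 * Θ)).card : ℝ))]
      _ = (32 * (A * Θ)) ^ 2 * (2 * (q + ∑ d ∈ range q,
            ((box ((d : ℝ) / q) A₁ (2 * Θ)).card : ℝ) ^ 2)) := by
          rw [← mul_sum, ← mul_sum, sum_add_distrib, sum_const, card_range, nsmul_eq_mul, mul_one]
      _ ≤ (32 * (A * Θ)) ^ 2 * (2 * (q + q * (1 + Real.log A))) := by gcongr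
      _ ≤ 2 ^ 13 * (A * Θ) ^ 2 * q * (1 + Real.log A) := by
          have h4 : 0 ≤ (A * Θ : ℝ) ^ 2 * q := by positivity
          have h5 : 0 ≤ (A * Θ : ℝ) ^ 2 * q * Real.log A := by positivity
          nlinarith

/-- second moment, all boxes -/
lemma second_all (q : ℕ) (hq : 0 < q) (A : ℕ) (hA : 1 ≤ A) (Θ : ℝ) (hΘ : 0 < Θ) :
    ∑ d ∈ range q, ((box ((d : ℝ) / q) A Θ).card : ℝ) ^ 2 ≤
      2 ^ 13 * (A * Θ + (A * Θ) ^ 2) * q * (1 + Real.log A) := by
  have hAR : (1 : ℝ) ≤ A := by exact_mod_cast hA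
  have hlog : 0 ≤ Real.log A := Real.log_nonneg hAR
  have hqR : (0 : ℝ) < q := by exact_mod_cast hq
  have h1 : 0 ≤ (A * Θ) * q * (1 + Real.log A) := by positivity
  have h2 : 0 ≤ (A * Θ) ^ 2 * q * (1 + Real.log A) := by positivity
  rcases lt_or_ge (2 * (A : ℝ) * Θ) 1 with h | h
  · refine (second_small q hq A hA Θ hΘ.le h).trans ?_
    nlinarith
  · refine (second_large q hq A hA Θ hΘ h).trans ?_
    nlinarith

/-- dyadic exponent of the distance -/
noncomputable def lv (θ : ℝ) : ℕ := Nat.log 2 ⌊1 / θ⌋₊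

lemma lv_spec {θ : ℝ} (h0 : 0 < θ) (h1 : θ ≤ 1 / 2) :
    θ ≤ (2 : ℝ) ^ (-(lv θ : ℝ)) ∧ 1 / θ ≤ (2 : ℝ) ^ ((lv θ : ℝ) + 1) := by
  have h2 : (2 : ℝ) ≤ 1 / θ := by
    rw [le_div_iff₀ h0]; linarith
  have h3 : 2 ≤ ⌊1 / θ⌋₊ := Nat.le_floor (by exact_mod_cast h2)
  have h4 : 2 ^ lv θ ≤ ⌊1 / θ⌋₊ := Nat.pow_log_le_self 2 (by omega)
  have h5 : ⌊1 / θ⌋₊ < 2 ^ (lv θ + 1) := Nat.lt_pow_succ_log_self (by norm_num) _
  have h6 : ((2 : ℝ)) ^ lv θ ≤ 1 / θ := by
    calc ((2 : ℝ)) ^ lv θ = ((2 ^ lv θ : ℕ) : ℝ) := by push_cast; rfl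
      _ ≤ (⌊1 / θ⌋₊ : ℝ) := by exact_mod_cast h4
      _ ≤ 1 / θ := Nat.floor_le (by positivity)
  constructor
  · rw [Real.rpow_neg (by norm_num), Real.rpow_natCast]
    rw [le_div_iff₀ h0] at h6
    rw [← one_div, le_div_iff₀ (by positivity)]
    linarith
  · have h7 : 1 / θ < (⌊1 / θ⌋₊ : ℝ) + 1 := Nat.lt_floor_add_one _
    have h8 : ((⌊1 / θ⌋₊ : ℝ)) + 1 ≤ 2 ^ (lv θ + 1) := by
      exact_mod_cast h5
    have h9 : (2 : ℝ) ^ ((lv θ : ℝ) + 1) = 2 ^ (lv θ + 1) := by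
      exact_mod_cast Real.rpow_natCast 2 (lv θ + 1)
    rw [h9]
    linarith

/-- lower bound for a non zero distance -/
lemma nd_ge (a d q : ℕ) (hq : 0 < q) (h : 0 < nd ((a : ℝ) * d / q)) :
    1 / (q : ℝ) ≤ nd ((a : ℝ) * d / q) := by
  have hq' : (0 : ℝ) < q := by exact_mod_cast hq
  rw [nd_div a d q hq] at h ⊢
  have hlt := Nat.mod_lt (a * d) hq
  have h1 : 0 < min ((a * d % q : ℕ) : ℝ) ((q : ℝ) - ((a * d % q : ℕ) : ℝ)) := by
    by_contra hcon
    rw [not_lt] at hcon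
    have := div_nonpos_of_nonpos_of_nonneg hcon hq'.le
    linarith
  rw [lt_min_iff] at h1
  gcongr
  rw [le_min_iff]
  constructor
  · have : 0 < a * d % q := by exact_mod_cast h1.1
    exact_mod_cast this
  · have h2 : a * d % q + 1 ≤ q := hlt
    have : ((a * d % q : ℕ) : ℝ) + 1 ≤ q := by exact_mod_cast h2
    linarith

lemma lv_le {q : ℕ} (hq : 0 < q) {θ : ℝ} (h0 : 1 / (q : ℝ) ≤ θ) : lv θ ≤ Nat.log 2 q := by
  have hq' : (0 : ℝ) < q := by exact_mod_cast hq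
  unfold lv
  apply Nat.log_mono_right
  have hθ : 0 < θ := lt_of_lt_of_le (by positivity) h0
  have h1 : 1 / θ ≤ q := by
    rw [div_le_iff₀ hθ]
    rw [div_le_iff₀ hq'] at h0
    linarith
  have := Nat.floor_le_floor h1
  rwa [Nat.floor_natCast] at this

/-- weights -/
noncomputable def wg (x : ℝ) (a : ℕ) (θ : ℝ) : ℝ :=
  Real.exp (-((a : ℝ) ^ 2 * x)) * min (1 / (a * x)) (1 / θ)

/-- the weighted sum -/
noncomputable def WS (q : ℕ) (x : ℝ) (N d : ℕ) : ℝ :=
  ∑ a ∈ (Icc 1 N).filter (fun a : ℕ => 0 < nd ((a : ℝ) * d / q)), wg x a (nd ((a : ℝ) * d / q))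

/-- the weight of a dyadic box -/
noncomputable def wb (x : ℝ) (j l : ℕ) : ℝ :=
  Real.exp (-((4 : ℝ) ^ j * x)) * min (1 / ((2 : ℝ) ^ j * x)) ((2 : ℝ) ^ (l + 1))

lemma WS_le (q : ℕ) (hq : 0 < q) (x : ℝ) (hx : 0 < x) (N d : ℕ) :
    WS q x N d ≤ ∑ p ∈ range (Nat.log 2 N + 1) ×ˢ range (Nat.log 2 q + 1),
      wb x p.1 p.2 * ((box ((d : ℝ) / q) (2 ^ (p.1 + 1)) ((2 : ℝ) ^ (-(p.2 : ℝ)))).card : ℝ) := by
  classical
  unfold WS
  set S := (Icc 1 N).filter (fun a : ℕ => 0 < nd ((a : ℝ) * d / q)) with hS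
  have hmaps : ∀ a ∈ S, (Nat.log 2 a, lv (nd ((a : ℝ) * d / q))) ∈
      range (Nat.log 2 N + 1) ×ˢ range (Nat.log 2 q + 1) := by
    intro a ha
    rw [hS, mem_filter, mem_Icc] at ha
    simp only [mem_product, mem_range, Nat.lt_succ_iff]
    exact ⟨Nat.log_mono_right ha.1.2, lv_le hq (nd_ge a d q hq ha.2)⟩
  rw [← sum_fiberwise_of_maps_to hmaps]
  refine sum_le_sum fun p hp => ?_
  have hterm : ∀ a ∈ S.filter (fun a : ℕ => (Nat.log 2 a, lv (nd ((a : ℝ) * d / q))) = p),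
      wg x a (nd ((a : ℝ) * d / q)) ≤ wb x p.1 p.2 := by
    intro a ha
    rw [mem_filter, hS, mem_filter, mem_Icc] at ha
    obtain ⟨⟨⟨ha1, haN⟩, ha0⟩, hap⟩ := ha
    have hp1 : Nat.log 2 a = p.1 := by rw [← hap]
    have hp2 : lv (nd ((a : ℝ) * d / q)) = p.2 := by rw [← hap]
    have hpow : 2 ^ p.1 ≤ a := by
      rw [← hp1]; exact Nat.pow_log_le_self 2 (by omega)
    have hpowR : (2 : ℝ) ^ p.1 ≤ a := by exact_mod_cast hpow
    have hsp := (lv_spec ha0 (nd_le_half _)).2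
    have h9 : (2 : ℝ) ^ ((lv (nd ((a : ℝ) * d / q)) : ℝ) + 1) = 2 ^ (p.2 + 1) := by
      rw [hp2]
      exact_mod_cast Real.rpow_natCast 2 (p.2 + 1)
    rw [h9] at hsp
    have ha0' : (0 : ℝ) < a := by exact_mod_cast ha1
    unfold wg wb
    apply mul_le_mul
    · apply Real.exp_le_exp.mpr
      have h4 : (4 : ℝ) ^ p.1 ≤ (a : ℝ) ^ 2 := by
        calc (4 : ℝ) ^ p.1 = ((2 : ℝ) ^ p.1) ^ 2 := by
              rw [← pow_mul, mul_comm, pow_mul]; norm_num
          _ ≤ (a : ℝ) ^ 2 := by gcongr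
      have := mul_le_mul_of_nonneg_right h4 hx.le
      linarith
    · apply min_le_min _ hsp
      gcongr
    · exact le_min (by positivity) (by positivity)
    · exact (Real.exp_pos _).le
  have hsub : S.filter (fun a : ℕ => (Nat.log 2 a, lv (nd ((a : ℝ) * d / q))) = p) ⊆
      box ((d : ℝ) / q) (2 ^ (p.1 + 1)) ((2 : ℝ) ^ (-(p.2 : ℝ))) := by
    intro a ha
    rw [mem_filter, hS, mem_filter, mem_Icc] at ha
    obtain ⟨⟨⟨ha1, haN⟩, ha0⟩, hap⟩ := ha
    have hp1 : Nat.log 2 a = p.1 := by rw [← hap]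
    have hp2 : lv (nd ((a : ℝ) * d / q)) = p.2 := by rw [← hap]
    rw [mem_box, ← mul_div_assoc]
    refine ⟨⟨ha1, ?_⟩, ha0, ?_⟩
    · rw [← hp1]
      exact (Nat.lt_pow_succ_log_self (by norm_num) a).le
    · rw [← hp2]
      exact (lv_spec ha0 (nd_le_half _)).1
  refine (sum_le_sum hterm).trans ?_
  rw [sum_const, nsmul_eq_mul, mul_comm]
  apply mul_le_mul_of_nonneg_left
  · exact_mod_cast card_le_card hsub
  · unfold wb
    apply mul_nonneg (Real.exp_pos _).le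
    exact le_min (by positivity) (by positivity)

/-- one dyadic box -/
lemma one_box (q : ℕ) (hq : 0 < q) (x : ℝ) (hx : 0 < x) (j l : ℕ) :
    (wb x j l) ^ 2 * ∑ d ∈ range q,
      ((box ((d : ℝ) / q) (2 ^ (j + 1)) ((2 : ℝ) ^ (-(l : ℝ)))).card : ℝ) ^ 2 ≤
      2 ^ 18 * (q / x) * (Real.exp (-((4 : ℝ) ^ j * x)) * (j + 2)) := by
  have hq' : (0 : ℝ) < q := by exact_mod_cast hq
  have h1 := second_all q hq (2 ^ (j + 1)) Nat.one_le_two_pow ((2 : ℝ) ^ (-(l : ℝ))) (by positivity)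
  push_cast at h1
  rw [Real.log_pow] at h1
  set Θ := (2 : ℝ) ^ (-(l : ℝ)) with hΘ
  have hΘ0 : 0 < Θ := by positivity
  have hΘl : (2 : ℝ) ^ (l + 1) * Θ = 2 := by
    rw [hΘ, Real.rpow_neg (by norm_num), Real.rpow_natCast, pow_succ]
    field_simp
  set m := Real.exp (-((4 : ℝ) ^ j * x)) with hm
  have hm0 : 0 < m := Real.exp_pos _
  have hm1 : m ≤ 1 := by
    rw [hm]; apply Real.exp_le_one_iff.mpr
    have : 0 < (4 : ℝ) ^ j * x := by positivity
    linarith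
  have hmu : (4 : ℝ) ^ j * x * m ≤ 1 := by
    have h2 := Real.add_one_le_exp ((4 : ℝ) ^ j * x)
    have h3 : Real.exp ((4 : ℝ) ^ j * x) * m = 1 := by
      rw [hm, ← Real.exp_add]; simp
    have h4 : (4 : ℝ) ^ j * x * m ≤ Real.exp ((4 : ℝ) ^ j * x) * m := by
      apply mul_le_mul_of_nonneg_right _ hm0.le
      linarith
    linarith
  have hlog : 1 + ((j + 1 : ℕ) : ℝ) * Real.log 2 ≤ j + 2 := by
    have h2 := Real.log_two_lt_d9
    push_cast
    nlinarith [Nat.cast_nonneg (α := ℝ) j]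
  set u := (2 : ℝ) ^ (j + 1) with hu
  have hu2 : u = 2 * 2 ^ j := by rw [hu, pow_succ]; ring
  have hju : (0 : ℝ) < 2 ^ j := by positivity
  have hw1 : wb x j l ≤ m * (1 / ((2 : ℝ) ^ j * x)) := by
    unfold wb
    exact mul_le_mul_of_nonneg_left (min_le_left _ _) hm0.le
  have hw2 : wb x j l ≤ m * (2 : ℝ) ^ (l + 1) := by
    unfold wb
    exact mul_le_mul_of_nonneg_left (min_le_right _ _) hm0.le
  have hw0 : 0 ≤ wb x j l := by
    unfold wb
    exact mul_nonneg hm0.le (le_min (by positivity) (by positivity))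
  -- first part
  have hA : (wb x j l) ^ 2 * (u * Θ) ≤ 4 * m / x := by
    calc (wb x j l) ^ 2 * (u * Θ) = wb x j l * wb x j l * (u * Θ) := by ring
      _ ≤ (m * (1 / ((2 : ℝ) ^ j * x))) * (m * (2 : ℝ) ^ (l + 1)) * (u * Θ) := by gcongr
      _ = m * m * (u / (2 ^ j)) * ((2 : ℝ) ^ (l + 1) * Θ) / x := by field_simp
      _ = (4 * m / x) * m := by rw [hΘl, hu2]; field_simp; norm_num
      _ ≤ (4 * m / x) * 1 := by gcongr
      _ = _ := by ring
  have hB : (wb x j l) ^ 2 * (u * Θ) ^ 2 ≤ 16 * m / x := by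
    calc (wb x j l) ^ 2 * (u * Θ) ^ 2 ≤ (m * (2 : ℝ) ^ (l + 1)) ^ 2 * (u * Θ) ^ 2 := by gcongr
      _ = m ^ 2 * u ^ 2 * ((2 : ℝ) ^ (l + 1) * Θ) ^ 2 := by ring
      _ = 16 * m * ((4 : ℝ) ^ j * m) := by
          rw [hΘl, hu2]
          have : (4 : ℝ) ^ j = (2 ^ j) ^ 2 := by
            rw [← pow_mul, mul_comm, pow_mul]; norm_num
          rw [this]; ring
      _ ≤ 16 * m * (1 / x) := by
          apply mul_le_mul_of_nonneg_left _ (by positivity)
          rw [le_div_iff₀ hx]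
          linarith
      _ = _ := by ring
  calc (wb x j l) ^ 2 * ∑ d ∈ range q, ((box ((d : ℝ) / q) (2 ^ (j + 1)) Θ).card : ℝ) ^ 2
      ≤ (wb x j l) ^ 2 * (2 ^ 13 * (u * Θ + (u * Θ) ^ 2) * q * (1 + ((j + 1 : ℕ) : ℝ) * Real.log 2)) :=
        mul_le_mul_of_nonneg_left h1 (by positivity)
    _ = 2 ^ 13 * ((wb x j l) ^ 2 * (u * Θ) + (wb x j l) ^ 2 * (u * Θ) ^ 2) * q *
          (1 + ((j + 1 : ℕ) : ℝ) * Real.log 2) := by ring
    _ ≤ 2 ^ 13 * (4 * m / x + 16 * m / x) * q * (j + 2) := by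
        have hl0 : 0 ≤ 1 + ((j + 1 : ℕ) : ℝ) * Real.log 2 := by
          have := Real.log_nonneg (by norm_num : (1 : ℝ) ≤ 2)
          positivity
        gcongr
    _ ≤ 2 ^ 18 * (q / x) * (m * (j + 2)) := by
        have e : 2 ^ 13 * (4 * m / x + 16 * m / x) * q * (j + 2) =
          (20 * 2 ^ 13) * ((q / x) * (m * (j + 2))) := by ring
        have h5 : 0 ≤ (q / x) * (m * (j + 2)) := by positivity
        rw [e]
        nlinarith

lemma WS_nonneg (q : ℕ) {x : ℝ} (hx : 0 < x) (N d : ℕ) : 0 ≤ WS q x N d := by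
  unfold WS
  refine sum_nonneg fun a ha => ?_
  rw [mem_filter] at ha
  unfold wg
  exact mul_nonneg (Real.exp_pos _).le (le_min (by positivity) (by have := ha.2; positivity))

/-- the sum over the dyadic boxes -/
lemma WS_sq (q : ℕ) (hq : 0 < q) (x : ℝ) (hx : 0 < x) (N : ℕ) :
    ∑ d ∈ range q, (WS q x N d) ^ 2 ≤ 2 ^ 18 * (q / x) *
      (((Nat.log 2 q + 1 : ℕ) : ℝ) * ∑ j ∈ range (Nat.log 2 N + 1),
        Real.exp (-((4 : ℝ) ^ j * x / 2)) * (j + 2)) ^ 2 := by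
  classical
  have hq' : (0 : ℝ) < q := by exact_mod_cast hq
  set P := range (Nat.log 2 N + 1) ×ˢ range (Nat.log 2 q + 1) with hP
  set s : ℕ → ℝ := fun j => Real.exp (-((4 : ℝ) ^ j * x / 2)) with hs
  have hs0 : ∀ j, 0 < s j := fun j => Real.exp_pos _
  have hss : ∀ j, s j ^ 2 = Real.exp (-((4 : ℝ) ^ j * x)) := by
    intro j
    rw [hs, pow_two, ← Real.exp_add]
    congr 1
    ring
  set Nb : ℕ × ℕ → ℕ → ℝ := fun p d =>
    ((box ((d : ℝ) / q) (2 ^ (p.1 + 1)) ((2 : ℝ) ^ (-(p.2 : ℝ)))).card : ℝ) with hNb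
  have h1 : ∀ d ∈ range q, (WS q x N d) ^ 2 ≤
      (∑ p ∈ P, s p.1) * ∑ p ∈ P, (wb x p.1 p.2 * Nb p d) ^ 2 / s p.1 := by
    intro d _
    have h2 := WS_le q hq x hx N d
    have h3 := WS_nonneg q hx N d
    have h4 : (∑ p ∈ P, wb x p.1 p.2 * Nb p d) ^ 2 / (∑ p ∈ P, s p.1) ≤
        ∑ p ∈ P, (wb x p.1 p.2 * Nb p d) ^ 2 / s p.1 :=
      sq_sum_div_le_sum_sq_div P (fun p => wb x p.1 p.2 * Nb p d) (fun p _ => hs0 p.1)
    have hpos : 0 < ∑ p ∈ P, s p.1 := by
      apply sum_pos (fun p _ => hs0 p.1)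
      exact ⟨(0, 0), by rw [hP, mem_product, mem_range, mem_range]; constructor <;> simp⟩
    rw [div_le_iff₀ hpos] at h4
    calc (WS q x N d) ^ 2 ≤ (∑ p ∈ P, wb x p.1 p.2 * Nb p d) ^ 2 := by gcongr
      _ ≤ _ := by linarith
  refine (sum_le_sum h1).trans ?_
  rw [← mul_sum, sum_comm]
  have h2 : ∀ p ∈ P, ∑ d ∈ range q, (wb x p.1 p.2 * Nb p d) ^ 2 / s p.1 ≤
      2 ^ 18 * (q / x) * (s p.1 * (p.1 + 2)) := by
    intro p _
    rw [← sum_div, div_le_iff₀ (hs0 _)]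
    have h3 := one_box q hq x hx p.1 p.2
    rw [← hss, mul_sum] at h3
    calc ∑ d ∈ range q, (wb x p.1 p.2 * Nb p d) ^ 2 =
        ∑ d ∈ range q, wb x p.1 p.2 ^ 2 * (Nb p d) ^ 2 := by
          refine sum_congr rfl fun d _ => ?_
          ring
      _ ≤ _ := h3
      _ = _ := by ring
  have h3 : ∑ p ∈ P, s p.1 ≤ ((Nat.log 2 q + 1 : ℕ) : ℝ) * ∑ j ∈ range (Nat.log 2 N + 1),
      s j * (j + 2) := by
    rw [hP, sum_product]
    simp only [sum_const, card_range, nsmul_eq_mul]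
    rw [← mul_sum]
    apply mul_le_mul_of_nonneg_left _ (by positivity)
    refine sum_le_sum fun j _ => ?_
    have := hs0 j
    have h5 : (0 : ℝ) ≤ j := Nat.cast_nonneg j
    nlinarith
  have h4 : ∑ p ∈ P, 2 ^ 18 * (q / x) * (s p.1 * (p.1 + 2)) = 2 ^ 18 * (q / x) *
      (((Nat.log 2 q + 1 : ℕ) : ℝ) * ∑ j ∈ range (Nat.log 2 N + 1), s j * (j + 2)) := by
    rw [← mul_sum, hP, sum_product]
    simp only [sum_const, card_range, nsmul_eq_mul]
    rw [← mul_sum]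
  have h5 : 0 ≤ ((Nat.log 2 q + 1 : ℕ) : ℝ) * ∑ j ∈ range (Nat.log 2 N + 1), s j * (j + 2) := by
    apply mul_nonneg (by positivity)
    refine sum_nonneg fun j _ => ?_
    have := hs0 j
    positivity
  calc (∑ p ∈ P, s p.1) * ∑ p ∈ P, ∑ d ∈ range q, (wb x p.1 p.2 * Nb p d) ^ 2 / s p.1
      ≤ (∑ p ∈ P, s p.1) * ∑ p ∈ P, 2 ^ 18 * (q / x) * (s p.1 * (p.1 + 2)) := by
        apply mul_le_mul_of_nonneg_left (sum_le_sum h2)
        exact sum_nonneg fun p _ => (hs0 _).le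
    _ ≤ _ := by
        rw [h4]
        have h6 : 0 ≤ 2 ^ 18 * (q / x) *
          (((Nat.log 2 q + 1 : ℕ) : ℝ) * ∑ j ∈ range (Nat.log 2 N + 1), s j * (j + 2)) := by
          positivity
        calc _ ≤ _ := mul_le_mul_of_nonneg_right h3 h6
          _ = _ := by ring

lemma exp_neg_le_rpow {u ε : ℝ} (hu : 0 < u) (hε : 0 < ε) (hε1 : ε ≤ 1) :
    Real.exp (-u) ≤ u ^ (-ε) := by
  rw [Real.exp_neg, Real.rpow_neg hu.le]
  apply inv_anti₀ (by positivity)
  rcases le_total u 1 with h | h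
  · calc u ^ ε ≤ 1 := Real.rpow_le_one hu.le h hε.le
      _ ≤ Real.exp u := Real.one_le_exp hu.le
  · calc u ^ ε ≤ u ^ (1 : ℝ) := Real.rpow_le_rpow_of_exponent_le h hε1
      _ = u := Real.rpow_one u
      _ ≤ Real.exp u := by
        have := Real.add_one_le_exp u
        linarith

lemma dyadic_sum {ε : ℝ} (hε : 0 < ε) (hε1 : ε ≤ 1) : ∃ K : ℝ, 0 < K ∧ ∀ x : ℝ, 0 < x → ∀ J : ℕ,
    ∑ j ∈ range J, Real.exp (-((4 : ℝ) ^ j * x / 2)) * (j + 2) ≤ K * x ^ (-ε) := by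
  have hr0 : 0 < (4 : ℝ) ^ (-ε) := by positivity
  have hr1 : (4 : ℝ) ^ (-ε) < 1 := Real.rpow_lt_one_of_one_lt_of_neg (by norm_num) (by linarith)
  have hsum1 : Summable fun j : ℕ => (j : ℝ) * ((4 : ℝ) ^ (-ε)) ^ j := by
    have := summable_pow_mul_geometric_of_norm_lt_one (R := ℝ) 1
      (r := (4 : ℝ) ^ (-ε)) (by rw [Real.norm_of_nonneg hr0.le]; exact hr1)
    simpa using this
  have hsum2 : Summable fun j : ℕ => 2 * ((4 : ℝ) ^ (-ε)) ^ j :=
    (summable_geometric_of_lt_one hr0.le hr1).mul_left 2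
  have hsum : Summable fun j : ℕ => ((4 : ℝ) ^ (-ε)) ^ j * ((j : ℝ) + 2) := by
    refine (hsum1.add hsum2).congr fun j => ?_
    ring
  refine ⟨2 * (∑' j : ℕ, ((4 : ℝ) ^ (-ε)) ^ j * ((j : ℝ) + 2)), ?_, fun x hx J => ?_⟩
  · have : 0 < ∑' j : ℕ, ((4 : ℝ) ^ (-ε)) ^ j * ((j : ℝ) + 2) := by
      apply hsum.tsum_pos (fun j => by positivity) 0
      positivity
    linarith
  · have h1 : ∀ j ∈ range J, Real.exp (-((4 : ℝ) ^ j * x / 2)) * ((j : ℝ) + 2) ≤
        (2 * x ^ (-ε)) * (((4 : ℝ) ^ (-ε)) ^ j * ((j : ℝ) + 2)) := by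
      intro j _
      have h2 := exp_neg_le_rpow (u := (4 : ℝ) ^ j * x / 2) (by positivity) hε hε1
      have h3 : ((4 : ℝ) ^ j * x / 2) ^ (-ε) ≤ 2 * x ^ (-ε) * ((4 : ℝ) ^ (-ε)) ^ j := by
        have e1 : ((4 : ℝ) ^ j * x / 2) ^ (-ε) =
            (((4 : ℝ) ^ (-ε)) ^ j * x ^ (-ε)) * (2 : ℝ) ^ ε := by
          rw [Real.div_rpow (by positivity) (by norm_num), Real.mul_rpow (by positivity) hx.le,
            Real.rpow_neg (by norm_num : (0 : ℝ) ≤ 2), div_inv_eq_mul]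
          congr 2
          rw [← Real.rpow_natCast, ← Real.rpow_natCast, ← Real.rpow_mul (by norm_num),
            ← Real.rpow_mul (by norm_num), mul_comm]
        have e2 : (2 : ℝ) ^ ε ≤ 2 := by
          calc (2 : ℝ) ^ ε ≤ (2 : ℝ) ^ (1 : ℝ) :=
                Real.rpow_le_rpow_of_exponent_le (by norm_num) hε1
            _ = 2 := Real.rpow_one 2
        rw [e1]
        have e3 : 0 ≤ ((4 : ℝ) ^ (-ε)) ^ j * x ^ (-ε) := by positivity
        nlinarith
      have h4 : (0 : ℝ) ≤ (j : ℝ) + 2 := by positivity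
      calc _ ≤ ((4 : ℝ) ^ j * x / 2) ^ (-ε) * ((j : ℝ) + 2) :=
            mul_le_mul_of_nonneg_right h2 h4
        _ ≤ (2 * x ^ (-ε) * ((4 : ℝ) ^ (-ε)) ^ j) * ((j : ℝ) + 2) :=
            mul_le_mul_of_nonneg_right h3 h4
        _ = _ := by ring
    refine (sum_le_sum h1).trans ?_
    rw [← mul_sum]
    have h5 := hsum.sum_le_tsum (range J) (fun j _ => by positivity)
    have h6 : 0 ≤ 2 * x ^ (-ε) := by positivity
    calc _ ≤ (2 * x ^ (-ε)) * ∑' j : ℕ, ((4 : ℝ) ^ (-ε)) ^ j * ((j : ℝ) + 2) :=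
          mul_le_mul_of_nonneg_left h5 h6
      _ = _ := by ring

lemma natlog_le {ε : ℝ} (hε : 0 < ε) : ∃ K : ℝ, 0 < K ∧ ∀ q : ℕ, 0 < q →
    ((Nat.log 2 q + 1 : ℕ) : ℝ) ≤ K * (q : ℝ) ^ ε := by
  refine ⟨1 / (ε * Real.log 2) + 1, ?_, fun q hq => ?_⟩
  · have := Real.log_pos (by norm_num : (1 : ℝ) < 2)
    positivity
  · have hq' : (1 : ℝ) ≤ q := by exact_mod_cast hq
    have hl2 := Real.log_pos (by norm_num : (1 : ℝ) < 2)
    have h1 : ((Nat.log 2 q : ℕ) : ℝ) * Real.log 2 ≤ Real.log q := by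
      have h2 : 2 ^ Nat.log 2 q ≤ q := Nat.pow_log_le_self 2 (by omega)
      have h3 : Real.log ((2 : ℝ) ^ Nat.log 2 q) ≤ Real.log q := by
        apply Real.log_le_log (by positivity)
        exact_mod_cast h2
      rwa [Real.log_pow] at h3
    have h2 : Real.log q ≤ (q : ℝ) ^ ε / ε := Real.log_le_rpow_div (by linarith) hε
    have h3 : (1 : ℝ) ≤ (q : ℝ) ^ ε := Real.one_le_rpow hq' hε.le
    push_cast
    have h4 : ((Nat.log 2 q : ℕ) : ℝ) ≤ 1 / (ε * Real.log 2) * (q : ℝ) ^ ε := by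
      have h5 : ((Nat.log 2 q : ℕ) : ℝ) ≤ ((q : ℝ) ^ ε / ε) / Real.log 2 := by
        rw [le_div_iff₀ hl2]
        linarith
      refine h5.trans (le_of_eq ?_)
      field_simp
    linarith

/-- **the counting lemma** -/
theorem WS_bound {ε : ℝ} (hε : 0 < ε) : ∃ K : ℝ, 0 < K ∧ ∀ q : ℕ, 0 < q → ∀ x : ℝ, 0 < x → x ≤ 1 →
    ∀ N : ℕ, ∑ d ∈ range q, (WS q x N d) ^ 2 ≤ K * (q / x) ^ (1 + ε) := by
  set ε' := min (ε / 2) 1 with hε'
  have h0 : 0 < ε' := lt_min (by linarith) one_pos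
  have h1 : ε' ≤ 1 := min_le_right _ _
  have h2 : 2 * ε' ≤ ε := by
    have := min_le_left (ε / 2) 1
    linarith
  obtain ⟨K1, hK1, hd⟩ := dyadic_sum h0 h1
  obtain ⟨K2, hK2, hl⟩ := natlog_le h0
  refine ⟨2 ^ 18 * (K2 * K1) ^ 2, by positivity, fun q hq x hx hx1 N => ?_⟩
  have hq' : (1 : ℝ) ≤ q := by exact_mod_cast hq
  have hqx : 1 ≤ q / x := by
    rw [le_div_iff₀ hx]; linarith
  refine (WS_sq q hq x hx N).trans ?_
  have h3 := hd x hx (Nat.log 2 N + 1)
  have h4 := hl q hq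
  have h5 : 0 ≤ ∑ j ∈ range (Nat.log 2 N + 1), Real.exp (-((4 : ℝ) ^ j * x / 2)) * ((j : ℝ) + 2) :=
    sum_nonneg fun j _ => by positivity
  have h6 : ((Nat.log 2 q + 1 : ℕ) : ℝ) * ∑ j ∈ range (Nat.log 2 N + 1),
        Real.exp (-((4 : ℝ) ^ j * x / 2)) * ((j : ℝ) + 2) ≤ (K2 * K1) * (q / x) ^ ε' := by
    calc _ ≤ (K2 * (q : ℝ) ^ ε') * (K1 * x ^ (-ε')) := mul_le_mul h4 h3 h5 (by positivity)
      _ = (K2 * K1) * (q / x) ^ ε' := by
          rw [Real.div_rpow (by linarith) hx.le, Real.rpow_neg hx.le]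
          ring
  have h7 : (0 : ℝ) ≤ ((Nat.log 2 q + 1 : ℕ) : ℝ) * ∑ j ∈ range (Nat.log 2 N + 1),
        Real.exp (-((4 : ℝ) ^ j * x / 2)) * ((j : ℝ) + 2) := mul_nonneg (by positivity) h5
  calc 2 ^ 18 * (q / x) * (((Nat.log 2 q + 1 : ℕ) : ℝ) * ∑ j ∈ range (Nat.log 2 N + 1),
        Real.exp (-((4 : ℝ) ^ j * x / 2)) * ((j : ℝ) + 2)) ^ 2
      ≤ 2 ^ 18 * (q / x) * ((K2 * K1) * (q / x) ^ ε') ^ 2 := by gcongr
    _ = 2 ^ 18 * (K2 * K1) ^ 2 * ((q / x) * ((q / x) ^ ε') ^ 2) := by ring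
    _ ≤ 2 ^ 18 * (K2 * K1) ^ 2 * (q / x) ^ (1 + ε) := by
        apply mul_le_mul_of_nonneg_left _ (by positivity)
        have h8 : (q / x) * ((q / x) ^ ε') ^ 2 = (q / x) ^ (1 + 2 * ε') := by
          rw [Real.rpow_add (by positivity), Real.rpow_one, ← Real.rpow_natCast,
            ← Real.rpow_mul (by positivity)]
          congr 2
          push_cast
          ring
        rw [h8]
        exact Real.rpow_le_rpow_of_exponent_le hqx (by linarith)

end Pool.Agent.T2
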