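import Mathlib
import Pool.Agent.Lib_MP_112ba8_t.T2Defs
import Pool.Agent.Lib_MP_112ba8_t.T2Count

/-!
The Clausen form of the Lambert series `Sz` and the bound of its terms.
-/

namespace Pool.Agent.T2

open Finset Filter Topology
open Pool.Agent.EvenMoment (Sz)

/-- terms of the Clausen form -/
noncomputable def tm (z : ℂ) (a : ℕ) : ℂ :=
  Complex.exp (-((a : ℂ) ^ 2 * z)) * ((1 + Complex.exp (-(a * z))) / (1 - Complex.exp (-(a * z))))

/-- the terms of the double series -/
noncomputable def dd (z : ℂ) (p : ℕ × ℕ) : ℂ :=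
  Complex.exp (-(((p.1 : ℂ) + 1) * ((p.2 : ℂ) + 1) * z))

lemma dd_norm (z : ℂ) (p : ℕ × ℕ) :
    ‖dd z p‖ = Real.exp (-(((p.1 : ℝ) + 1) * ((p.2 : ℝ) + 1) * z.re)) := by
  unfold dd
  rw [Complex.norm_exp]
  congr 1
  have : (-(((p.1 : ℂ) + 1) * ((p.2 : ℂ) + 1) * z)) =
      ((-(((p.1 : ℝ) + 1) * ((p.2 : ℝ) + 1)) : ℝ) : ℂ) * z := by
    push_cast
    ring
  rw [this, Complex.re_ofReal_mul]
  ring

lemma dd_summable {z : ℂ} (hz : 0 < z.re) : Summable (dd z) := by
  have hr0 : 0 < Real.exp (-(z.re / 2)) := Real.exp_pos _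
  have hr1 : Real.exp (-(z.re / 2)) < 1 := by
    rw [Real.exp_lt_one_iff]; linarith
  have h1 := summable_geometric_of_lt_one hr0.le hr1
  have h2 := h1.mul_of_nonneg h1 (fun n => by positivity) (fun n => by positivity)
  refine Summable.of_norm_bounded h2 fun p => ?_
  rw [dd_norm, ← Real.exp_nat_mul, ← Real.exp_nat_mul, ← Real.exp_add, Real.exp_le_exp]
  have hp1 : (0 : ℝ) ≤ p.1 := Nat.cast_nonneg _
  have hp2 : (0 : ℝ) ≤ p.2 := Nat.cast_nonneg _
  have h3 : ((p.1 : ℝ) + p.2) / 2 ≤ ((p.1 : ℝ) + 1) * ((p.2 : ℝ) + 1) := by nlinarith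
  have := mul_le_mul_of_nonneg_right h3 hz.le
  linarith

lemma norm_exp_neg_lt {z : ℂ} (hz : 0 < z.re) (a : ℕ) : ‖Complex.exp (-(((a : ℂ) + 1) * z))‖ < 1 := by
  rw [Complex.norm_exp]
  have : (-(((a : ℂ) + 1) * z)).re = -(((a : ℝ) + 1) * z.re) := by
    have : (-(((a : ℂ) + 1) * z)) = ((-((a : ℝ) + 1) : ℝ) : ℂ) * z := by
      push_cast
      ring
    rw [this, Complex.re_ofReal_mul]
    ring
  rw [this, Real.exp_lt_one_iff]
  have : (0 : ℝ) ≤ a := Nat.cast_nonneg _
  have : 0 < ((a : ℝ) + 1) * z.re := by positivity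
  linarith

lemma Sz_eq_double {z : ℂ} (hz : 0 < z.re) : Sz z = ∑' p : ℕ × ℕ, dd z p := by
  rw [(dd_summable hz).tsum_prod]
  unfold Sz
  refine tsum_congr fun a => ?_
  set r := Complex.exp (-(((a : ℂ) + 1) * z)) with hr
  have hr1 : ‖r‖ < 1 := norm_exp_neg_lt hz a
  have h1 : ∀ b : ℕ, dd z (a, b) = r * r ^ b := by
    intro b
    unfold dd
    rw [hr, ← Complex.exp_nat_mul, ← Complex.exp_add]
    congr 1
    push_cast
    ring
  simp_rw [h1]
  rw [tsum_mul_left, tsum_geometric_of_norm_lt_one hr1]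
  have h2 : Complex.exp (((a : ℂ) + 1) * z) = r⁻¹ := by
    rw [hr, Complex.exp_neg, inv_inv]
  rw [h2]
  have hr0 : r ≠ 0 := Complex.exp_ne_zero _
  have h3 : 1 - r ≠ 0 := by
    intro h
    have : r = 1 := by linear_combination -h
    rw [this] at hr1
    simp at hr1
  have h4 : r⁻¹ - 1 ≠ 0 := by
    have : r⁻¹ - 1 = (1 - r) * r⁻¹ := by field_simp
    rw [this]
    exact mul_ne_zero h3 (inv_ne_zero hr0)
  field_simp

/-- Clausen's identity -/
theorem clausen {z : ℂ} (hz : 0 < z.re) : HasSum (fun a : ℕ => tm z (a + 1)) (Sz z) := by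
  have hs := dd_summable hz
  have hcongr : ∀ p : ℕ × ℕ, dd z p.swap = dd z p := by
    intro p
    unfold dd
    simp only [Prod.fst_swap, Prod.snd_swap]
    congr 1
    ring
  -- decomposition
  set f1 : ℕ × ℕ → ℂ := fun p => if p.1 = p.2 then dd z p else 0 with hf1
  set f2 : ℕ × ℕ → ℂ := fun p => if p.1 < p.2 then dd z p else 0 with hf2
  set f3 : ℕ × ℕ → ℂ := fun p => if p.2 < p.1 then dd z p else 0 with hf3
  have hb : ∀ f : ℕ × ℕ → ℂ, (∀ p, f p = dd z p ∨ f p = 0) → Summable f := by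
    intro f hf
    refine Summable.of_norm_bounded hs.norm fun p => ?_
    rcases hf p with h | h
    · rw [h]
    · rw [h]; simp
  have hs1 : Summable f1 := hb f1 fun p => by
    simp only [hf1]; split_ifs <;> simp
  have hs2 : Summable f2 := hb f2 fun p => by
    simp only [hf2]; split_ifs <;> simp
  have hs3 : Summable f3 := hb f3 fun p => by
    simp only [hf3]; split_ifs <;> simp
  have hdec : ∀ p, dd z p = f1 p + f2 p + f3 p := by
    intro p
    simp only [hf1, hf2, hf3]
    rcases lt_trichotomy p.1 p.2 with h | h | h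
    · rw [if_neg h.ne, if_pos h, if_neg (by omega)]; ring
    · rw [if_pos h, if_neg (by omega), if_neg (by omega)]; ring
    · rw [if_neg h.ne', if_neg (by omega), if_pos h]; ring
  have h23 : ∑' p, f3 p = ∑' p, f2 p := by
    rw [← (Equiv.prodComm ℕ ℕ).tsum_eq f3]
    refine tsum_congr fun p => ?_
    simp only [hf2, hf3, Equiv.prodComm_apply, Prod.fst_swap, Prod.snd_swap, hcongr]
  have hSz : Sz z = ∑' a : ℕ, ((∑' b, f1 (a, b)) + 2 * ∑' b, f2 (a, b)) := by
    rw [Sz_eq_double hz]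
    simp_rw [hdec]
    rw [(hs1.add hs2).tsum_add hs3, hs1.tsum_add hs2, h23, hs1.tsum_prod, hs2.tsum_prod,
      (hs1.prod).tsum_add ((hs2.prod).mul_left 2), tsum_mul_left]
    ring
  have hterm : ∀ a : ℕ, (∑' b, f1 (a, b)) + 2 * ∑' b, f2 (a, b) = tm z (a + 1) := by
    intro a
    have e1 : ∑' b, f1 (a, b) = dd z (a, a) := by
      rw [tsum_eq_single a]
      · simp [hf1]
      · intro b hb
        simp only [hf1]
        rw [if_neg (Ne.symm hb)]
    set r := Complex.exp (-(((a : ℂ) + 1) * z)) with hr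
    have hr1 : ‖r‖ < 1 := norm_exp_neg_lt hz a
    have e2 : ∑' b, f2 (a, b) = dd z (a, a) * r / (1 - r) := by
      have h1 : Summable fun b => f2 (a, b) := hs2.prod_factor a
      rw [← h1.sum_add_tsum_nat_add (a + 1)]
      have h2 : ∑ b ∈ range (a + 1), f2 (a, b) = 0 := by
        apply sum_eq_zero
        intro b hb
        rw [mem_range] at hb
        simp only [hf2]
        rw [if_neg (by omega)]
      rw [h2, zero_add]
      have h3 : ∀ c : ℕ, f2 (a, c + (a + 1)) = dd z (a, a) * r * r ^ c := by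
        intro c
        simp only [hf2]
        rw [if_pos (by omega)]
        unfold dd
        rw [hr, ← Complex.exp_nat_mul, ← Complex.exp_add, ← Complex.exp_add]
        congr 1
        push_cast
        ring
      simp_rw [h3]
      rw [tsum_mul_left, tsum_geometric_of_norm_lt_one hr1]
      rw [div_eq_mul_inv]
    have h3 : 1 - r ≠ 0 := by
      intro h
      have : r = 1 := by linear_combination -h
      rw [this] at hr1
      simp at hr1
    rw [e1, e2]
    unfold tm
    have h4 : Complex.exp (-(((a + 1 : ℕ) : ℂ) * z)) = r := by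
      rw [hr]; push_cast; rfl
    have h5 : Complex.exp (-(((a + 1 : ℕ) : ℂ) ^ 2 * z)) = dd z (a, a) := by
      unfold dd
      congr 1
      push_cast
      ring
    rw [h4, h5]
    field_simp
    ring
  have hsum : Summable fun a : ℕ => tm z (a + 1) := by
    refine ((hs1.prod).add ((hs2.prod).mul_left 2)).congr fun a => ?_
    exact hterm a
  rw [hSz]
  simp_rw [hterm]
  exact hsum.hasSum

/-! ### the bound of a term -/

lemma one_sub_exp_sq (w : ℂ) : ‖1 - Complex.exp (-w)‖ ^ 2 =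
    (1 - Real.exp (-w.re)) ^ 2 + 2 * Real.exp (-w.re) * (1 - Real.cos w.im) := by
  rw [Complex.sq_norm, Complex.normSq_apply]
  have h1 : (1 - Complex.exp (-w)).re = 1 - Real.exp (-w.re) * Real.cos w.im := by
    rw [Complex.sub_re, Complex.one_re, Complex.exp_re, Complex.neg_re, Complex.neg_im, Real.cos_neg]
  have h2 : (1 - Complex.exp (-w)).im = Real.exp (-w.re) * Real.sin w.im := by
    rw [Complex.sub_im, Complex.one_im, Complex.exp_im, Complex.neg_re, Complex.neg_im, Real.sin_neg]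
    ring
  rw [h1, h2]
  have h3 := Real.sin_sq_add_cos_sq w.im
  linear_combination (Real.exp (-w.re)) ^ 2 * h3

lemma low_re (w : ℂ) (hw : 0 < w.re) : w.re * Real.exp (-(w.re / 2)) / 2 ≤
    ‖1 - Complex.exp (-w)‖ := by
  have h1 : 1 - Real.exp (-w.re) ≤ ‖1 - Complex.exp (-w)‖ := by
    have h2 := norm_sub_norm_le (1 : ℂ) (Complex.exp (-w))
    rw [norm_one, Complex.norm_exp, Complex.neg_re] at h2
    exact h2
  refine le_trans ?_ h1
  set u := w.re with hu
  have h2 := Real.add_one_le_exp (u / 2)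
  have h3 : Real.exp (-u) = Real.exp (-(u / 2)) * Real.exp (-(u / 2)) := by
    rw [← Real.exp_add]; congr 1; ring
  have h4 : Real.exp (u / 2) * Real.exp (-(u / 2)) = 1 := by
    rw [← Real.exp_add]; simp
  have h5 : 0 < Real.exp (-(u / 2)) := Real.exp_pos _
  have h6 : Real.exp (-(u / 2)) ≤ 1 := Real.exp_le_one_iff.mpr (by linarith)
  -- 1 - e^{-u} = e^{-u/2} (e^{u/2} - e^{-u/2}) ≥ e^{-u/2} (u/2)
  have h7 : 1 - Real.exp (-u) = Real.exp (-(u / 2)) * (Real.exp (u / 2) - Real.exp (-(u / 2))) := by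
    rw [h3]
    linear_combination -h4
  rw [h7]
  have h8 : u / 2 ≤ Real.exp (u / 2) - Real.exp (-(u / 2)) := by linarith
  calc u * Real.exp (-(u / 2)) / 2 = Real.exp (-(u / 2)) * (u / 2) := by ring
    _ ≤ _ := mul_le_mul_of_nonneg_left h8 h5.le

lemma low_im (w : ℂ) (s : ℝ) (hs : |s| ≤ 1 / 2) (h1 : Real.pi * |s| ≤ |w.im|)
    (h2 : |w.im| ≤ 3 * Real.pi / 2) :
    2 * Real.exp (-(w.re / 2)) * |s| ≤ ‖1 - Complex.exp (-w)‖ := by
  have hpi := Real.pi_pos
  have hcos : 2 * s ^ 2 ≤ 1 - Real.cos w.im := by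
    rcases le_total |w.im| Real.pi with h | h
    · have h3 := Real.cos_le_one_sub_mul_cos_sq h
      have h4 : (Real.pi * |s|) ^ 2 ≤ w.im ^ 2 := by
        rw [← sq_abs w.im]
        gcongr
      rw [mul_pow, sq_abs] at h4
      have h5 : 2 / Real.pi ^ 2 * (Real.pi ^ 2 * s ^ 2) ≤ 2 / Real.pi ^ 2 * w.im ^ 2 := by gcongr
      have h6 : 2 / Real.pi ^ 2 * (Real.pi ^ 2 * s ^ 2) = 2 * s ^ 2 := by field_simp
      linarith
    · have h3 : Real.cos w.im ≤ 0 := by
        rw [← Real.cos_abs]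
        exact Real.cos_nonpos_of_pi_div_two_le_of_le (by linarith) (by linarith)
      have h4 : s ^ 2 ≤ 1 / 4 := by
        rw [← sq_abs]
        nlinarith [abs_nonneg s]
      linarith
  have h3 := one_sub_exp_sq w
  have h4 : (2 * Real.exp (-(w.re / 2)) * |s|) ^ 2 ≤ ‖1 - Complex.exp (-w)‖ ^ 2 := by
    rw [h3]
    have h5 : (2 * Real.exp (-(w.re / 2)) * |s|) ^ 2 = 2 * Real.exp (-w.re) * (2 * s ^ 2) := by
      have : Real.exp (-w.re) = Real.exp (-(w.re / 2)) * Real.exp (-(w.re / 2)) := by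
        rw [← Real.exp_add]; congr 1; ring
      rw [this, mul_pow, sq_abs]
      ring
    rw [h5]
    have h6 : 2 * Real.exp (-w.re) * (2 * s ^ 2) ≤ 2 * Real.exp (-w.re) * (1 - Real.cos w.im) := by
      gcongr
    have := sq_nonneg (1 - Real.exp (-w.re))
    linarith
  exact le_of_sq_le_sq h4 (norm_nonneg _)

/-- the basic lower bound -/
lemma low_both {η : ℂ} (hη : 0 < η.re) (a : ℕ) (ha : 1 ≤ a) (s : ℝ) (hs : |s| ≤ 1 / 2)
    (hs0 : 0 < |s|) :
    1 / ‖1 - Complex.exp (-(2 * Real.pi * Complex.I * s + a * η))‖ ≤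
      (‖η‖ / η.re) * (Real.exp (a * η.re / 2) * min (1 / (a * (η.re / 2))) (1 / |s|)) := by
  have hpi := Real.pi_pos
  have haR : (1 : ℝ) ≤ a := by exact_mod_cast ha
  set w : ℂ := 2 * Real.pi * Complex.I * s + a * η with hw
  have hwre : w.re = a * η.re := by
    rw [hw]
    have : (2 * Real.pi * Complex.I * s + a * η : ℂ) =
      ((2 * Real.pi * s : ℝ) : ℂ) * Complex.I + ((a : ℝ) : ℂ) * η := by push_cast; ring
    rw [this, Complex.add_re, Complex.re_ofReal_mul, Complex.re_ofReal_mul, Complex.I_re]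
    ring
  have hwim : w.im = 2 * Real.pi * s + a * η.im := by
    rw [hw]
    have : (2 * Real.pi * Complex.I * s + a * η : ℂ) =
      ((2 * Real.pi * s : ℝ) : ℂ) * Complex.I + ((a : ℝ) : ℂ) * η := by push_cast; ring
    rw [this, Complex.add_im, Complex.im_ofReal_mul, Complex.im_ofReal_mul, Complex.I_im]
    ring
  have hwre0 : 0 < w.re := by rw [hwre]; positivity
  have hκ : 1 ≤ ‖η‖ / η.re := by
    rw [one_le_div hη]
    exact (le_abs_self _).trans (Complex.abs_re_le_norm _)
  have hκ0 : 0 < ‖η‖ / η.re := by linarith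
  set κ := ‖η‖ / η.re with hκdef
  have hlow1 := low_re w hwre0
  set n := ‖1 - Complex.exp (-w)‖ with hn
  set E := Real.exp (-(w.re / 2)) with hE
  have hE0 : 0 < E := Real.exp_pos _
  have hn0 : 0 < n := lt_of_lt_of_le (by positivity) hlow1
  have hEi : Real.exp (a * η.re / 2) * E = 1 := by
    rw [hE, ← Real.exp_add, hwre]
    simp only [Real.exp_eq_one_iff]
    ring
  -- second lower bound
  have hlow2 : E * |s| / κ ≤ n := by
    rcases le_or_gt (a * |η.im|) (Real.pi * |s|) with h | h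
    · have h1 : Real.pi * |s| ≤ |w.im| := by
        rw [hwim]
        have h2 : |2 * Real.pi * s| ≤ |2 * Real.pi * s + a * η.im| + |a * η.im| := by
          have := abs_sub (2 * Real.pi * s + a * η.im) (a * η.im)
          rwa [add_sub_cancel_right] at this
        rw [abs_mul, abs_mul (a : ℝ), abs_of_pos (by positivity : 0 < 2 * Real.pi),
          Nat.abs_cast] at h2
        linarith
      have h2 : |w.im| ≤ 3 * Real.pi / 2 := by
        rw [hwim]
        have h3 := abs_add_le (2 * Real.pi * s) (a * η.im)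
        rw [abs_mul, abs_mul (a : ℝ), abs_of_pos (by positivity : 0 < 2 * Real.pi),
          Nat.abs_cast] at h3
        nlinarith
      have h3 := low_im w s hs h1 h2
      refine le_trans ?_ h3
      rw [div_le_iff₀ hκ0]
      have h4 : 0 ≤ E * |s| := by positivity
      nlinarith
    · refine le_trans ?_ hlow1
      rw [div_le_iff₀ hκ0, hwre]
      have h1 : |η.im| ≤ ‖η‖ := Complex.abs_im_le_norm _
      have h2 : η.re * κ = ‖η‖ := by
        rw [hκdef]; field_simp
      have h3 : Real.pi * |s| < a * ‖η‖ := lt_of_lt_of_le h (by gcongr)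
      have h4 : |s| ≤ a * ‖η‖ / 2 := by
        have := Real.pi_gt_three
        nlinarith
      calc E * |s| ≤ E * (a * ‖η‖ / 2) := by gcongr
        _ = a * η.re * E / 2 * κ := by rw [← h2]; ring
  rw [mul_min_of_nonneg _ _ (Real.exp_pos _).le, mul_min_of_nonneg _ _ hκ0.le, le_min_iff]
  constructor
  · have h1 : 1 / n ≤ 1 / (w.re * E / 2) := one_div_le_one_div_of_le (by positivity) hlow1
    refine h1.trans ?_
    have h2 : 1 / (w.re * E / 2) = Real.exp (a * η.re / 2) * (1 / (a * (η.re / 2))) := by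
      rw [hwre]
      field_simp
      linarith
    rw [h2]
    have h3 : 0 ≤ Real.exp (a * η.re / 2) * (1 / (a * (η.re / 2))) := by positivity
    nlinarith
  · have h1 : 1 / n ≤ 1 / (E * |s| / κ) := one_div_le_one_div_of_le (by positivity) hlow2
    refine h1.trans (le_of_eq ?_)
    field_simp
    linarith

lemma tm_int_add (n : ℤ) (z : ℂ) (a : ℕ) (y : ℝ) (hy : (a : ℝ) * y = n) :
    tm (2 * Real.pi * Complex.I * y + z) a = tm z a := by
  have h1 : Complex.exp (-(a * (2 * Real.pi * Complex.I * y + z))) = Complex.exp (-(a * z)) := by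
    have : -(a * (2 * Real.pi * Complex.I * y + z) : ℂ) =
        -(a * z) + ((-n : ℤ) : ℂ) * (2 * Real.pi * Complex.I) := by
      have hy' : (a : ℂ) * (y : ℂ) = (n : ℂ) := by exact_mod_cast hy
      push_cast
      linear_combination (-(2 * Real.pi * Complex.I)) * hy'
    rw [this, Complex.exp_add, Complex.exp_int_mul_two_pi_mul_I, mul_one]
  have h2 : Complex.exp (-((a : ℂ) ^ 2 * (2 * Real.pi * Complex.I * y + z))) =
      Complex.exp (-((a : ℂ) ^ 2 * z)) := by
    have : -((a : ℂ) ^ 2 * (2 * Real.pi * Complex.I * y + z) : ℂ) =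
        -((a : ℂ) ^ 2 * z) + ((-(a * n) : ℤ) : ℂ) * (2 * Real.pi * Complex.I) := by
      have hy' : (a : ℂ) * (y : ℂ) = (n : ℂ) := by exact_mod_cast hy
      push_cast
      linear_combination (-(a : ℂ) * (2 * Real.pi * Complex.I)) * hy'
    rw [this, Complex.exp_add, Complex.exp_int_mul_two_pi_mul_I, mul_one]
  unfold tm
  rw [h1, h2]

lemma tm_bound {η : ℂ} (hη : 0 < η.re) (a : ℕ) (ha : 1 ≤ a) (y : ℝ)
    (h0 : 0 < nd ((a : ℝ) * y)) :
    ‖tm (2 * Real.pi * Complex.I * y + η) a‖ ≤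
      2 * (‖η‖ / η.re) * wg (η.re / 2) a (nd ((a : ℝ) * y)) := by
  have haR : (1 : ℝ) ≤ a := by exact_mod_cast ha
  set s := sd ((a : ℝ) * y) with hs
  have hexp : Complex.exp (-(a * (2 * Real.pi * Complex.I * y + η))) =
      Complex.exp (-(2 * Real.pi * Complex.I * s + a * η)) := by
    have e1 : (a : ℝ) * y = round ((a : ℝ) * y) + s := by
      rw [hs]; unfold sd; ring
    have e2 : (a : ℂ) * (y : ℂ) = (round ((a : ℝ) * y) : ℂ) + (s : ℂ) := by exact_mod_cast e1
    have : -(a * (2 * Real.pi * Complex.I * y + η) : ℂ) =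
        -(2 * Real.pi * Complex.I * s + a * η) +
          ((-(round ((a : ℝ) * y)) : ℤ) : ℂ) * (2 * Real.pi * Complex.I) := by
      push_cast
      linear_combination (-(2 * Real.pi * Complex.I)) * e2
    rw [this, Complex.exp_add, Complex.exp_int_mul_two_pi_mul_I, mul_one]
  have hlow := low_both hη a ha s (by rw [hs, abs_sd]; exact nd_le_half _) (by rw [hs, abs_sd]; exact h0)
  rw [hs, abs_sd, ← hs] at hlow
  unfold tm
  rw [hexp, norm_mul, norm_div]
  have hn1 : ‖Complex.exp (-((a : ℂ) ^ 2 * (2 * Real.pi * Complex.I * y + η)))‖ =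
      Real.exp (-((a : ℝ) ^ 2 * η.re)) := by
    rw [Complex.norm_exp]
    congr 1
    have : (-((a : ℂ) ^ 2 * (2 * Real.pi * Complex.I * y + η))) =
        ((-((a : ℝ) ^ 2 * (2 * Real.pi * y)) : ℝ) : ℂ) * Complex.I +
        ((-((a : ℝ) ^ 2) : ℝ) : ℂ) * η := by push_cast; ring
    rw [this, Complex.add_re, Complex.re_ofReal_mul, Complex.re_ofReal_mul, Complex.I_re]
    ring
  have hn2 : ‖1 + Complex.exp (-(2 * Real.pi * Complex.I * s + a * η))‖ ≤ 2 := by
    refine (norm_add_le _ _).trans ?_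
    rw [norm_one, Complex.norm_exp]
    have : (-(2 * Real.pi * Complex.I * s + a * η) : ℂ).re = -(a * η.re) := by
      have : (-(2 * Real.pi * Complex.I * s + a * η) : ℂ) =
        ((-(2 * Real.pi * s) : ℝ) : ℂ) * Complex.I + ((-(a : ℝ) : ℝ) : ℂ) * η := by push_cast; ring
      rw [this, Complex.add_re, Complex.re_ofReal_mul, Complex.re_ofReal_mul, Complex.I_re]
      ring
    rw [this]
    have : Real.exp (-(a * η.re)) ≤ 1 := Real.exp_le_one_iff.mpr (by
      have : 0 < a * η.re := by positivity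
      linarith)
    linarith
  rw [hn1]
  set n := ‖1 - Complex.exp (-(2 * Real.pi * Complex.I * s + a * η))‖ with hn
  set κ := ‖η‖ / η.re with hκ
  have hκ0 : 0 ≤ κ := by rw [hκ]; positivity
  set mm := min (1 / (a * (η.re / 2))) (1 / nd ((a : ℝ) * y)) with hmm
  have hmm0 : 0 ≤ mm := le_min (by positivity) (by positivity)
  unfold wg
  calc Real.exp (-((a : ℝ) ^ 2 * η.re)) *
        (‖1 + Complex.exp (-(2 * Real.pi * Complex.I * s + a * η))‖ / n)
      ≤ Real.exp (-((a : ℝ) ^ 2 * η.re)) * (2 * (1 / n)) := by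
        apply mul_le_mul_of_nonneg_left _ (Real.exp_pos _).le
        rw [mul_one_div]
        exact div_le_div_of_nonneg_right hn2 (norm_nonneg _)
    _ ≤ Real.exp (-((a : ℝ) ^ 2 * η.re)) * (2 * (κ * (Real.exp (a * η.re / 2) * mm))) := by
        gcongr
    _ = (2 * κ) * ((Real.exp (-((a : ℝ) ^ 2 * η.re)) * Real.exp (a * η.re / 2)) * mm) := by ring
    _ ≤ (2 * κ) * (Real.exp (-((a : ℝ) ^ 2 * (η.re / 2))) * mm) := by
        apply mul_le_mul_of_nonneg_left _ (by positivity)
        apply mul_le_mul_of_nonneg_right _ hmm0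
        rw [← Real.exp_add, Real.exp_le_exp]
        have : (a : ℝ) * η.re ≤ (a : ℝ) ^ 2 * η.re := by
          apply mul_le_mul_of_nonneg_right _ hη.le
          nlinarith
        linarith

end Pool.Agent.T2
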