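import Mathlib
import Pool.Agent.Lib_MP_112ba8_t.T2Claus

/-!
The variance of `Sz (2πi d/q + η)` over the residues `d` with given gcd.
-/

namespace Pool.Agent.T2

open Finset Filter Topology
open Pool.Agent.EvenMoment (Sz)

/-! ### gcd classes -/

lemma sum_by_gcd (q : ℕ) (hq : 0 < q) {M : Type*} [AddCommMonoid M] (Φ : ℕ → ℕ → M) :
    ∑ d ∈ range q, Φ d (Nat.gcd d q) =
      ∑ g ∈ q.divisors, ∑ u ∈ (range (q / g)).filter (Nat.Coprime (q / g)), Φ (g * u) g := by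
  classical
  have hmaps : ∀ d ∈ range q, Nat.gcd d q ∈ q.divisors := fun d _ =>
    Nat.mem_divisors.mpr ⟨Nat.gcd_dvd_right d q, hq.ne'⟩
  rw [← sum_fiberwise_of_maps_to hmaps]
  refine sum_congr rfl fun g hg => ?_
  have hgq : g ∣ q := (Nat.mem_divisors.mp hg).1
  have hg0 : 0 < g := Nat.pos_of_dvd_of_pos hgq hq
  obtain ⟨k, rfl⟩ := hgq
  have hk : 0 < k := Nat.pos_of_mul_pos_left hq
  rw [Nat.mul_div_cancel_left _ hg0]
  symm
  refine sum_bij' (fun u _ => g * u) (fun d _ => d / g) ?_ ?_ ?_ ?_ ?_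
  · intro u hu
    rw [mem_filter, mem_range] at hu ⊢
    refine ⟨Nat.mul_lt_mul_of_pos_left hu.1 hg0, ?_⟩
    rw [Nat.gcd_mul_left, hu.2.symm.gcd_eq_one, mul_one]
  · intro d hd
    rw [mem_filter, mem_range] at hd ⊢
    obtain ⟨hd1, hd2⟩ := hd
    have hgd : g ∣ d := by rw [← hd2]; exact Nat.gcd_dvd_left _ _
    obtain ⟨u, rfl⟩ := hgd
    rw [Nat.mul_div_cancel_left _ hg0]
    refine ⟨Nat.lt_of_mul_lt_mul_left hd1, ?_⟩
    rw [Nat.gcd_mul_left] at hd2
    have : Nat.gcd u k = 1 := by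
      have := Nat.eq_of_mul_eq_mul_left hg0 (hd2.trans (mul_one g).symm)
      exact this
    exact (Nat.coprime_iff_gcd_eq_one.mpr this).symm
  · intro u hu
    exact Nat.mul_div_cancel_left _ hg0
  · intro d hd
    rw [mem_filter] at hd
    have hgd : g ∣ d := by rw [← hd.2]; exact Nat.gcd_dvd_left _ _
    exact Nat.mul_div_cancel' hgd
  · intro u hu
    rw [mem_filter] at hu
    rw [Nat.gcd_mul_left, hu.2.symm.gcd_eq_one, mul_one]

/-- average over a gcd class -/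
noncomputable def ave (f : ℕ → ℂ) (q g : ℕ) : ℂ :=
  (1 / (Nat.totient (q / g) : ℂ)) * ∑ u ∈ (range (q / g)).filter (Nat.Coprime (q / g)), f (g * u)

lemma ave_AA (q g : ℕ) (hq : 0 < q) (hg : g ∣ q) (η : ℂ) :
    ave (fun r => Sz (2 * Real.pi * Complex.I * ((r : ℂ) / q) + η)) q g = AA (q / g) η := by
  unfold ave AA
  congr 1
  refine sum_congr rfl fun u _ => ?_
  have hg0 : 0 < g := Nat.pos_of_dvd_of_pos hg hq
  obtain ⟨k, rfl⟩ := hg
  have hk : 0 < k := Nat.pos_of_mul_pos_left hq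
  rw [Nat.mul_div_cancel_left _ hg0]
  have hgC : (g : ℂ) ≠ 0 := by exact_mod_cast hg0.ne'
  have hkC : (k : ℂ) ≠ 0 := by exact_mod_cast hk.ne'
  have : (((g * u : ℕ) : ℂ)) / ((g * k : ℕ) : ℂ) = (u : ℂ) / k := by
    push_cast
    field_simp
  simp only [this]

lemma var_min {ι : Type*} (s : Finset ι) (n : ℂ) (hn : n = s.card) (f : ι → ℂ) (c : ℂ) :
    ∑ i ∈ s, ‖f i - (1 / n) * ∑ j ∈ s, f j‖ ^ 2 ≤ ∑ i ∈ s, ‖f i - c‖ ^ 2 := by
  rcases s.eq_empty_or_nonempty with h | hne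
  · rw [h]; simp
  set m : ℂ := (1 / n) * ∑ j ∈ s, f j with hm
  have hn0 : n ≠ 0 := by
    rw [hn]
    exact_mod_cast (card_pos.mpr hne).ne'
  have hsum : ∑ i ∈ s, (f i - m) = 0 := by
    rw [sum_sub_distrib, sum_const, nsmul_eq_mul, ← hn, hm]
    field_simp
    ring
  have h1 : ∀ i ∈ s, ‖f i - c‖ ^ 2 = ‖f i - m‖ ^ 2 + 2 * (inner ℝ (f i - m) (m - c)) +
      ‖m - c‖ ^ 2 := by
    intro i _
    rw [← norm_add_sq_real]
    congr 2
    ring
  rw [sum_congr rfl h1, sum_add_distrib, sum_add_distrib, ← mul_sum, ← sum_inner, hsum,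
    inner_zero_left]
  have : 0 ≤ ∑ i ∈ s, ‖m - c‖ ^ 2 := sum_nonneg fun i _ => by positivity
  linarith

/-- the class averages minimise the square sum -/
lemma ave_min (f c : ℕ → ℂ) (q : ℕ) (hq : 0 < q) :
    ∑ d ∈ range q, ‖f d - ave f q (Nat.gcd d q)‖ ^ 2 ≤
      ∑ d ∈ range q, ‖f d - c (Nat.gcd d q)‖ ^ 2 := by
  rw [sum_by_gcd q hq (fun d g => ‖f d - ave f q g‖ ^ 2),
    sum_by_gcd q hq (fun d g => ‖f d - c g‖ ^ 2)]
  refine sum_le_sum fun g _ => ?_
  exact var_min _ _ (by rw [Nat.totient_eq_card_coprime]) (fun u => f (g * u)) (c g)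

/-- sum over the multiples of `g` -/
lemma ave_sum_zero (f : ℕ → ℂ) (q : ℕ) (hq : 0 < q) (g : ℕ) (hg : g ∣ q) :
    ∑ d ∈ (range q).filter (fun d => g ∣ d), (f d - ave f q (Nat.gcd d q)) = 0 := by
  rw [sum_filter]
  have h1 : ∀ d ∈ range q, (if g ∣ d then (f d - ave f q (Nat.gcd d q)) else 0) =
      (if g ∣ Nat.gcd d q then (f d - ave f q (Nat.gcd d q)) else 0) := by
    intro d _
    congr 1
    rw [eq_iff_iff, Nat.dvd_gcd_iff]
    exact ⟨fun h => ⟨h, hg⟩, fun h => h.1⟩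
  refine (sum_congr rfl h1).trans ?_
  refine (sum_by_gcd q hq (fun d g' => if g ∣ g' then (f d - ave f q g') else 0)).trans ?_
  refine sum_eq_zero fun g' hg' => ?_
  by_cases h : g ∣ g'
  · simp only [h, if_true]
    rw [sum_sub_distrib, sum_const, nsmul_eq_mul, ← Nat.totient_eq_card_coprime]
    have hq' : 0 < q / g' := Nat.div_pos (Nat.divisor_le hg') (Nat.pos_of_mem_divisors hg')
    have : ((Nat.totient (q / g') : ℕ) : ℂ) ≠ 0 := by
      exact_mod_cast (Nat.totient_pos.mpr hq').ne'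
    unfold ave
    field_simp
    ring
  · simp only [h, if_false, sum_const_zero]

/-! ### the variance -/

/-- the point `2πi d/q + η` -/
noncomputable def zz (q d : ℕ) (η : ℂ) : ℂ := 2 * Real.pi * Complex.I * ((d : ℂ) / q) + η

lemma zz_eq (q d : ℕ) (η : ℂ) : zz q d η = 2 * Real.pi * Complex.I * (((d : ℝ) / q : ℝ) : ℂ) + η := by
  unfold zz
  push_cast
  rfl

lemma zz_re (q d : ℕ) (η : ℂ) : (zz q d η).re = η.re := by
  rw [zz_eq]
  have : (2 * Real.pi * Complex.I * (((d : ℝ) / q : ℝ) : ℂ) + η) =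
      ((2 * Real.pi * ((d : ℝ) / q) : ℝ) : ℂ) * Complex.I + η := by push_cast; ring
  rw [this, Complex.add_re, Complex.re_ofReal_mul, Complex.I_re]
  ring

lemma HH_eq (q r : ℕ) (η : ℂ) : HH q r η = Sz (zz q r η) - AA (q / Nat.gcd r q) η := rfl

/-- partial sums -/
noncomputable def TN (N : ℕ) (z : ℂ) : ℂ := ∑ a ∈ Icc 1 N, tm z a

lemma TN_tendsto {z : ℂ} (hz : 0 < z.re) : Tendsto (fun N => TN N z) atTop (𝓝 (Sz z)) := by
  have h1 := (clausen hz).tendsto_sum_nat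
  refine h1.congr fun N => ?_
  unfold TN
  have : Icc 1 N = Ico 1 (N + 1) := by
    ext x; simp only [mem_Icc, mem_Ico]; omega
  rw [this, sum_Ico_eq_sum_range]
  simp only [Nat.add_sub_cancel]
  refine sum_congr rfl fun a _ => ?_
  rw [add_comm]

lemma dvd_iff_class (q : ℕ) (hq : 0 < q) (a d : ℕ) : q ∣ a * d ↔ q / Nat.gcd d q ∣ a := by
  have hg0 : 0 < Nat.gcd d q := Nat.gcd_pos_of_pos_right d hq
  obtain ⟨k, hk⟩ := Nat.gcd_dvd_right d q
  obtain ⟨u, hu⟩ := Nat.gcd_dvd_left d q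
  have hkq : q / Nat.gcd d q = k := Nat.div_eq_of_eq_mul_right hg0 hk
  have huq : d / Nat.gcd d q = u := Nat.div_eq_of_eq_mul_right hg0 hu
  have hcop : Nat.Coprime u k := by
    have := Nat.coprime_div_gcd_div_gcd hg0
    rwa [hkq, huq] at this
  have key : ∀ g k u : ℕ, 0 < g → Nat.Coprime u k → (g * k ∣ a * (g * u) ↔ k ∣ a) := by
    intro g k u hg hc
    rw [show a * (g * u) = g * (a * u) by ring, Nat.mul_dvd_mul_iff_left hg]
    exact ⟨fun h => hc.symm.dvd_of_dvd_mul_right h, fun h => Dvd.dvd.mul_right h u⟩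
  rw [hkq]
  have h := key (Nat.gcd d q) k u hg0 hcop
  rwa [← hk, ← hu] at h

lemma nd_eq_zero_iff (q : ℕ) (hq : 0 < q) (a d : ℕ) : nd ((a : ℝ) * d / q) = 0 ↔ q ∣ a * d := by
  have hq' : (0 : ℝ) < q := by exact_mod_cast hq
  rw [nd_div a d q hq, div_eq_zero_iff, or_iff_left hq'.ne']
  have hlt := Nat.mod_lt (a * d) hq
  have hlt' : ((a * d % q : ℕ) : ℝ) < q := by exact_mod_cast hlt
  rw [Nat.dvd_iff_mod_eq_zero]
  constructor
  · intro h
    by_contra hne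
    have h1 : (0 : ℝ) < ((a * d % q : ℕ) : ℝ) := by exact_mod_cast Nat.pos_of_ne_zero hne
    have : 0 < min ((a * d % q : ℕ) : ℝ) ((q : ℝ) - ((a * d % q : ℕ) : ℝ)) :=
      lt_min h1 (by linarith)
    linarith
  · intro h
    rw [h]
    simp only [Nat.cast_zero, sub_zero]
    exact min_eq_left hq'.le

/-- main part of the partial sums, a function of the gcd class -/
noncomputable def MN (N q : ℕ) (η : ℂ) (g : ℕ) : ℂ :=
  ∑ a ∈ (Icc 1 N).filter (fun a => q / g ∣ a), tm η a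

lemma TN_sub_MN (q : ℕ) (hq : 0 < q) (η : ℂ) (hη : 0 < η.re) (N d : ℕ) :
    ‖TN N (zz q d η) - MN N q η (Nat.gcd d q)‖ ≤ 2 * (‖η‖ / η.re) * WS q (η.re / 2) N d := by
  classical
  have hqR : (0 : ℝ) < q := by exact_mod_cast hq
  unfold TN MN
  rw [← sum_filter_add_sum_filter_not (Icc 1 N) (fun a => q / Nat.gcd d q ∣ a)]
  have h1 : ∑ a ∈ (Icc 1 N).filter (fun a => q / Nat.gcd d q ∣ a), tm (zz q d η) a =
      ∑ a ∈ (Icc 1 N).filter (fun a => q / Nat.gcd d q ∣ a), tm η a := by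
    refine sum_congr rfl fun a ha => ?_
    rw [mem_filter, ← dvd_iff_class q hq] at ha
    obtain ⟨w, hw⟩ := ha.2
    rw [zz_eq]
    apply tm_int_add (w : ℤ)
    have hw' : (a : ℝ) * d = q * w := by exact_mod_cast hw
    push_cast
    field_simp
    linear_combination hw'
  rw [h1, add_sub_cancel_left]
  refine (norm_sum_le _ _).trans ?_
  unfold WS
  rw [mul_sum]
  have h2 : (Icc 1 N).filter (fun a => ¬ q / Nat.gcd d q ∣ a) =
      (Icc 1 N).filter (fun a : ℕ => 0 < nd ((a : ℝ) * d / q)) := by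
    apply filter_congr
    intro a _
    rw [← dvd_iff_class q hq, ← nd_eq_zero_iff q hq]
    constructor
    · intro h
      exact lt_of_le_of_ne (nd_nonneg _) (Ne.symm h)
    · intro h
      exact h.ne'
  rw [h2]
  refine sum_le_sum fun a ha => ?_
  rw [mem_filter, mem_Icc] at ha
  rw [zz_eq, mul_div_assoc]
  rw [mul_div_assoc] at ha
  exact tm_bound hη a ha.1.1 _ ha.2

/-- **variance bound** -/
theorem HH_sq {ε : ℝ} (hε : 0 < ε) : ∃ K : ℝ, 0 < K ∧ ∀ q : ℕ, 0 < q → ∀ η : ℂ, 0 < η.re →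
    η.re ≤ 1 → ∑ d ∈ range q, ‖HH q d η‖ ^ 2 ≤ K * (‖η‖ / η.re) ^ 2 * (q / η.re) ^ (1 + ε) := by
  obtain ⟨K, hK, hW⟩ := WS_bound hε
  refine ⟨4 * K * 2 ^ (1 + ε), by positivity, fun q hq η hη hη1 => ?_⟩
  have hqR : (0 : ℝ) < q := by exact_mod_cast hq
  set κ := ‖η‖ / η.re with hκ
  have hκ0 : 0 ≤ κ := by rw [hκ]; positivity
  -- finite version
  have hfin : ∀ N : ℕ, ∑ d ∈ range q, ‖TN N (zz q d η) -
      ave (fun r => TN N (zz q r η)) q (Nat.gcd d q)‖ ^ 2 ≤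
      4 * K * 2 ^ (1 + ε) * κ ^ 2 * (q / η.re) ^ (1 + ε) := by
    intro N
    refine (ave_min (fun r => TN N (zz q r η)) (MN N q η) q hq).trans ?_
    have h1 : ∀ d ∈ range q, ‖TN N (zz q d η) - MN N q η (Nat.gcd d q)‖ ^ 2 ≤
        (2 * κ) ^ 2 * (WS q (η.re / 2) N d) ^ 2 := by
      intro d _
      rw [← mul_pow]
      have := TN_sub_MN q hq η hη N d
      gcongr
    refine (sum_le_sum h1).trans ?_
    rw [← mul_sum]
    have h2 := hW q hq (η.re / 2) (by linarith) (by linarith) N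
    have h3 : (q / (η.re / 2)) ^ (1 + ε) = 2 ^ (1 + ε) * (q / η.re) ^ (1 + ε) := by
      rw [← Real.mul_rpow (by norm_num) (by positivity)]
      congr 1
      field_simp
    rw [h3] at h2
    calc (2 * κ) ^ 2 * ∑ d ∈ range q, (WS q (η.re / 2) N d) ^ 2
        ≤ (2 * κ) ^ 2 * (K * (2 ^ (1 + ε) * (q / η.re) ^ (1 + ε))) := by gcongr
      _ = _ := by ring
  -- the limit
  have hlim : Tendsto (fun N : ℕ => ∑ d ∈ range q, ‖TN N (zz q d η) -
      ave (fun r => TN N (zz q r η)) q (Nat.gcd d q)‖ ^ 2) atTop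
      (𝓝 (∑ d ∈ range q, ‖HH q d η‖ ^ 2)) := by
    apply tendsto_finset_sum
    intro d _
    have hT : ∀ r : ℕ, Tendsto (fun N => TN N (zz q r η)) atTop (𝓝 (Sz (zz q r η))) := fun r =>
      TN_tendsto (by rw [zz_re]; exact hη)
    have hA : Tendsto (fun N : ℕ => ave (fun r => TN N (zz q r η)) q (Nat.gcd d q)) atTop
        (𝓝 (AA (q / Nat.gcd d q) η)) := by
      rw [← ave_AA q (Nat.gcd d q) hq (Nat.gcd_dvd_right d q) η]
      unfold ave
      apply Tendsto.const_mul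
      apply tendsto_finset_sum
      intro u _
      exact hT _
    rw [HH_eq]
    exact (((hT d).sub hA).norm).pow 2
  exact le_of_tendsto' hlim hfin

/-- sums over multiples vanish -/
theorem HH_sum_zero (q : ℕ) (hq : 0 < q) (g : ℕ) (hg : g ∣ q) (η : ℂ) :
    ∑ d ∈ (range q).filter (fun d => g ∣ d), HH q d η = 0 := by
  have h := ave_sum_zero (fun r => Sz (2 * Real.pi * Complex.I * ((r : ℂ) / q) + η)) q hq g hg
  rw [← h]
  refine sum_congr rfl fun d _ => ?_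
  rw [ave_AA q (Nat.gcd d q) hq (Nat.gcd_dvd_right d q) η]
  rfl

/-- periodicity -/
theorem HH_mod (q : ℕ) (hq : 0 < q) (r : ℕ) (η : ℂ) (hη : 0 < η.re) :
    HH q (r % q) η = HH q r η := by
  rw [HH_eq, HH_eq]
  have h1 : Nat.gcd (r % q) q = Nat.gcd r q := by
    rw [Nat.gcd_comm r q, Nat.gcd_rec q r]
  rw [h1]
  congr 1
  have hz1 : 0 < (zz q (r % q) η).re := by rw [zz_re]; exact hη
  have hz2 : 0 < (zz q r η).re := by rw [zz_re]; exact hη
  rw [← (clausen hz1).tsum_eq, ← (clausen hz2).tsum_eq]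
  refine tsum_congr fun a => ?_
  have hqC : (q : ℂ) ≠ 0 := by exact_mod_cast hq.ne'
  have h2 : zz q r η = 2 * Real.pi * Complex.I * (((r / q : ℕ) : ℝ) : ℂ) + zz q (r % q) η := by
    unfold zz
    have h3 : (r : ℂ) = q * ((r / q : ℕ) : ℂ) + ((r % q : ℕ) : ℂ) := by
      exact_mod_cast (Nat.div_add_mod r q).symm
    push_cast
    rw [h3]
    field_simp
    ring
  rw [h2, tm_int_add (((a + 1) * (r / q) : ℕ) : ℤ)]
  rw [Int.cast_natCast, Nat.cast_mul]

end Pool.Agent.T2
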