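import Mathlib
import Pool.Agent.Lib_MP_112ba8_t.T2Var

/-!
Duality: bilinear sums against functions of `n k mod q` with vanishing sums over gcd classes.
-/

namespace Pool.Agent.T2

open Finset Filter Topology

/-- additive character -/
noncomputable def ec (θ : ℝ) : ℂ := Complex.exp ((2 * Real.pi * θ : ℝ) * Complex.I)

lemma ec_add (a b : ℝ) : ec (a + b) = ec a * ec b := by
  unfold ec
  rw [← Complex.exp_add]
  congr 1
  push_cast
  ring

lemma ec_int (n : ℤ) : ec n = 1 := by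
  unfold ec
  have : ((2 * Real.pi * (n : ℝ) : ℝ) * Complex.I) = (n : ℂ) * (2 * Real.pi * Complex.I) := by
    push_cast; ring
  rw [this, Complex.exp_int_mul_two_pi_mul_I]

lemma ec_nat_mul (n : ℕ) (θ : ℝ) : ec (n * θ) = ec θ ^ n := by
  unfold ec
  rw [← Complex.exp_nat_mul]
  congr 1
  push_cast
  ring

lemma ec_norm (θ : ℝ) : ‖ec θ‖ = 1 := by
  unfold ec
  exact Complex.norm_exp_ofReal_mul_I _

lemma ec_conj (θ : ℝ) : (starRingEnd ℂ) (ec θ) = ec (-θ) := by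
  unfold ec
  rw [← Complex.exp_conj]
  congr 1
  rw [map_mul, Complex.conj_ofReal, Complex.conj_I]
  push_cast
  ring

lemma ec_sub_one (θ : ℝ) : 4 * nd θ ≤ ‖ec θ - 1‖ := by
  have h1 : ec θ = ec (sd θ) := by
    have : θ = ((round θ : ℤ) : ℝ) + sd θ := by unfold sd; ring
    conv_lhs => rw [this]
    rw [ec_add, ec_int, one_mul]
  rw [h1]
  unfold ec
  rw [mul_comm ((2 * Real.pi * sd θ : ℝ) : ℂ) Complex.I, Complex.norm_exp_I_mul_ofReal_sub_one,
    norm_mul, Real.norm_eq_abs, Real.norm_eq_abs]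
  have h2 : 2 * Real.pi * sd θ / 2 = Real.pi * sd θ := by ring
  rw [h2]
  have hs : |sd θ| ≤ 1 / 2 := by rw [abs_sd]; exact nd_le_half _
  have hpi := Real.pi_pos
  have h3 : |Real.pi * sd θ| ≤ Real.pi / 2 := by
    rw [abs_mul, abs_of_pos hpi]
    nlinarith
  have h4 := Real.mul_abs_le_abs_sin h3
  rw [abs_mul, abs_of_pos hpi] at h4
  have h5 : 2 / Real.pi * (Real.pi * |sd θ|) = 2 * |sd θ| := by field_simp
  rw [h5] at h4
  rw [← abs_sd]
  simp only [Nat.abs_ofNat]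
  linarith

lemma ec_eq_one_iff (θ : ℝ) : ec θ = 1 ↔ nd θ = 0 := by
  constructor
  · intro h
    have h1 := ec_sub_one θ
    rw [h, sub_self, norm_zero] at h1
    have := nd_nonneg θ
    linarith
  · intro h
    unfold nd at h
    rw [abs_eq_zero, sub_eq_zero] at h
    rw [h, ec_int]

lemma ec_geom (θ : ℝ) (h0 : 0 < nd θ) (a n : ℕ) :
    ‖∑ i ∈ range n, ec ((a + i : ℕ) * θ)‖ ≤ 1 / (2 * nd θ) := by
  have hne : ec θ ≠ 1 := by
    intro h
    rw [ec_eq_one_iff] at h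
    linarith
  have h1 : ∑ i ∈ range n, ec ((a + i : ℕ) * θ) = ec θ ^ a * ((ec θ ^ n - 1) / (ec θ - 1)) := by
    rw [← geom_sum_eq hne, mul_sum]
    refine sum_congr rfl fun i _ => ?_
    rw [ec_nat_mul, pow_add]
  rw [h1, norm_mul, norm_pow, ec_norm, one_pow, one_mul, norm_div]
  have h2 := ec_sub_one θ
  have h3 : ‖ec θ ^ n - 1‖ ≤ 2 := by
    refine (norm_sub_le _ _).trans ?_
    rw [norm_pow, ec_norm, one_pow, norm_one]
    norm_num
  calc ‖ec θ ^ n - 1‖ / ‖ec θ - 1‖ ≤ 2 / (4 * nd θ) :=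
        div_le_div₀ (by norm_num) h3 (by positivity) h2
    _ = 1 / (2 * nd θ) := by field_simp; norm_num

/-- sums of bounded variation -/
lemma bv_sum (F : ℕ → ℂ) (hF : ∀ k, ‖F k‖ ≤ 1) (hV : ∀ K, ∑ k ∈ range K, ‖F (k + 1) - F k‖ ≤ 1)
    (θ : ℝ) (h0 : 0 < nd θ) (a b : ℕ) :
    ‖∑ k ∈ Icc a b, F k * ec (k * θ)‖ ≤ 1 / nd θ := by
  have e1 : ∑ k ∈ Icc a b, F k * ec (k * θ) =
      ∑ i ∈ range (b + 1 - a), F (a + i) * ec ((a + i : ℕ) * θ) := by
    have : Icc a b = Ico a (b + 1) := by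
      ext x; simp only [mem_Icc, mem_Ico]; omega
    rw [this, sum_Ico_eq_sum_range]
  rw [e1]
  have e2 := sum_range_by_parts (fun i => F (a + i)) (fun i => ec ((a + i : ℕ) * θ)) (b + 1 - a)
  simp only [smul_eq_mul] at e2
  rw [e2]
  refine (norm_sub_le _ _).trans ?_
  have hG := ec_geom θ h0 a
  have h1 : ‖F (a + (b + 1 - a - 1)) * ∑ i ∈ range (b + 1 - a), ec ((a + i : ℕ) * θ)‖ ≤
      1 / (2 * nd θ) := by
    rw [norm_mul]
    calc _ ≤ 1 * (1 / (2 * nd θ)) := mul_le_mul (hF _) (hG _) (norm_nonneg _) zero_le_one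
      _ = _ := one_mul _
  have h2 : ‖∑ i ∈ range (b + 1 - a - 1), (F (a + (i + 1)) - F (a + i)) *
      ∑ j ∈ range (i + 1), ec ((a + j : ℕ) * θ)‖ ≤ 1 / (2 * nd θ) := by
    refine (norm_sum_le _ _).trans ?_
    have h3 : ∀ i ∈ range (b + 1 - a - 1), ‖(F (a + (i + 1)) - F (a + i)) *
        ∑ j ∈ range (i + 1), ec ((a + j : ℕ) * θ)‖ ≤
        ‖F (a + i + 1) - F (a + i)‖ * (1 / (2 * nd θ)) := by
      intro i _
      rw [norm_mul, ← add_assoc]
      exact mul_le_mul_of_nonneg_left (hG _) (norm_nonneg _)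
    refine (sum_le_sum h3).trans ?_
    rw [← sum_mul]
    have h4 : ∑ i ∈ range (b + 1 - a - 1), ‖F (a + i + 1) - F (a + i)‖ ≤ 1 := by
      have h5 := hV (a + (b + 1 - a - 1))
      rw [sum_range_add] at h5
      have h6 : 0 ≤ ∑ x ∈ range a, ‖F (x + 1) - F x‖ := sum_nonneg fun _ _ => norm_nonneg _
      linarith
    have h7 : 0 ≤ 1 / (2 * nd θ) := by positivity
    calc _ ≤ 1 * (1 / (2 * nd θ)) := mul_le_mul_of_nonneg_right h4 h7
      _ = _ := one_mul _
  have h8 : 1 / nd θ = 1 / (2 * nd θ) + 1 / (2 * nd θ) := by field_simp; norm_num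
  rw [h8]
  exact add_le_add h1 h2

/-- orthogonality -/
lemma orth (q : ℕ) (hq : 0 < q) (j : ℤ) :
    ∑ e ∈ range q, ec ((j : ℝ) * e / q) = if (q : ℤ) ∣ j then (q : ℂ) else 0 := by
  have hqR : (q : ℝ) ≠ 0 := by exact_mod_cast hq.ne'
  have h1 : ∀ e : ℕ, ec ((j : ℝ) * e / q) = ec ((j : ℝ) / q) ^ e := by
    intro e
    rw [← ec_nat_mul]
    congr 1
    ring
  simp_rw [h1]
  split_ifs with h
  · obtain ⟨w, rfl⟩ := h
    have : ((((q : ℤ) * w : ℤ) : ℝ) / q) = (w : ℤ) := by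
      push_cast
      field_simp
    rw [this, ec_int]
    simp
  · have hne : ec ((j : ℝ) / q) ≠ 1 := by
      intro h2
      rw [ec_eq_one_iff] at h2
      apply h
      unfold nd at h2
      rw [abs_eq_zero, sub_eq_zero, div_eq_iff hqR] at h2
      refine ⟨round ((j : ℝ) / q), ?_⟩
      have h3 : (j : ℝ) = (((q : ℤ) * round ((j : ℝ) / q) : ℤ) : ℝ) := by
        push_cast
        rw [mul_comm]
        exact h2
      exact_mod_cast h3
    rw [geom_sum_eq hne]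
    have : ec ((j : ℝ) / q) ^ q = 1 := by
      rw [← ec_nat_mul]
      have : (q : ℝ) * ((j : ℝ) / q) = (j : ℤ) := by field_simp
      rw [this, ec_int]
    rw [this, sub_self, zero_div]

/-- finite Fourier transform -/
noncomputable def hat (q : ℕ) (H : ℕ → ℂ) (e : ℕ) : ℂ :=
  ∑ d ∈ range q, H d * ec (-((d : ℝ) * e / q))

lemma hat_inv (q : ℕ) (hq : 0 < q) (H : ℕ → ℂ) (hH : ∀ r, H (r % q) = H r) (m : ℕ) :
    (q : ℂ) * H m = ∑ e ∈ range q, hat q H e * ec ((m : ℝ) * e / q) := by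
  unfold hat
  simp_rw [sum_mul]
  rw [sum_comm]
  have h1 : ∀ d ∈ range q, ∑ e ∈ range q, H d * ec (-((d : ℝ) * e / q)) * ec ((m : ℝ) * e / q) =
      if d = m % q then H d * q else 0 := by
    intro d hd
    have h2 : ∀ e ∈ range q, H d * ec (-((d : ℝ) * e / q)) * ec ((m : ℝ) * e / q) =
        H d * ec ((((m : ℤ) - d : ℤ) : ℝ) * e / q) := by
      intro e _
      rw [mul_assoc, ← ec_add]
      congr 2
      push_cast
      ring
    rw [sum_congr rfl h2, ← mul_sum, orth q hq]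
    rw [mem_range] at hd
    by_cases hdm : d = m % q
    · rw [if_pos hdm, if_pos]
      rw [hdm]
      have := Nat.div_add_mod m q
      refine ⟨((m / q : ℕ) : ℤ), ?_⟩
      have h3 : (m : ℤ) = (q : ℤ) * ((m / q : ℕ) : ℤ) + ((m % q : ℕ) : ℤ) := by exact_mod_cast this.symm
      linarith
    · rw [if_neg hdm, if_neg, mul_zero]
      intro hdvd
      apply hdm
      have h3 : (d : ℤ) ≡ m [ZMOD q] := (Int.modEq_iff_dvd).mpr hdvd
      have h4 : d ≡ m [MOD q] := (Int.natCast_modEq_iff).mp h3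
      have h5 : d % q = m % q := h4
      rwa [Nat.mod_eq_of_lt hd] at h5
  rw [sum_congr rfl h1, sum_ite_eq' (range q) (m % q), if_pos (mem_range.mpr (Nat.mod_lt m hq)), hH,
    mul_comm]

lemma hat_parseval (q : ℕ) (hq : 0 < q) (H : ℕ → ℂ) :
    ∑ e ∈ range q, ‖hat q H e‖ ^ 2 = q * ∑ d ∈ range q, ‖H d‖ ^ 2 := by
  have key : ((∑ e ∈ range q, ‖hat q H e‖ ^ 2 : ℝ) : ℂ) =
      ((q * ∑ d ∈ range q, ‖H d‖ ^ 2 : ℝ) : ℂ) := by
    push_cast
    have h1 : ∀ e ∈ range q, ((‖hat q H e‖ : ℂ)) ^ 2 =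
        ∑ d ∈ range q, ∑ d' ∈ range q, H d * (starRingEnd ℂ) (H d') *
          ec ((((d' : ℤ) - d : ℤ) : ℝ) * e / q) := by
      intro e _
      rw [← Complex.mul_conj']
      unfold hat
      rw [map_sum, sum_mul_sum]
      refine sum_congr rfl fun d _ => sum_congr rfl fun d' _ => ?_
      rw [map_mul, ec_conj]
      have : H d * ec (-((d : ℝ) * e / q)) * ((starRingEnd ℂ) (H d') * ec (-(-((d' : ℝ) * e / q)))) =
          H d * (starRingEnd ℂ) (H d') * (ec (-((d : ℝ) * e / q)) * ec (-(-((d' : ℝ) * e / q)))) := by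
        ring
      rw [this, ← ec_add]
      congr 2
      push_cast
      ring
    rw [sum_congr rfl h1, sum_comm, mul_sum]
    refine sum_congr rfl fun d hd => ?_
    rw [sum_comm]
    have h2 : ∀ d' ∈ range q, ∑ e ∈ range q, H d * (starRingEnd ℂ) (H d') *
          ec ((((d' : ℤ) - d : ℤ) : ℝ) * e / q) = if d = d' then H d * (starRingEnd ℂ) (H d') * q else 0 := by
      intro d' hd'
      rw [← mul_sum, orth q hq]
      rw [mem_range] at hd hd'
      by_cases h : d = d'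
      · rw [if_pos h, if_pos]
        rw [h, sub_self]
        exact dvd_zero _
      · rw [if_neg h, if_neg, mul_zero]
        intro hdvd
        apply h
        have h3 : (d : ℤ) ≡ d' [ZMOD q] := (Int.modEq_iff_dvd).mpr hdvd
        have h4 : d ≡ d' [MOD q] := (Int.natCast_modEq_iff).mp h3
        exact Nat.ModEq.eq_of_lt_of_lt h4 hd hd'
    rw [sum_congr rfl h2, sum_ite_eq (range q) d, if_pos hd, Complex.mul_conj', mul_comm]
  exact_mod_cast key

lemma hat_zero (q : ℕ) (hq : 0 < q) (H : ℕ → ℂ)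
    (hz : ∀ g, g ∣ q → ∑ d ∈ (range q).filter (fun d => g ∣ d), H d = 0) (n : ℕ) :
    ∑ e ∈ (range q).filter (fun e => q ∣ n * e), hat q H e = 0 := by
  classical
  set g := Nat.gcd n q with hg
  have hg0 : 0 < g := Nat.gcd_pos_of_pos_right n hq
  have hgq : g ∣ q := Nat.gcd_dvd_right n q
  set k := q / g with hk
  have hkq : g * k = q := Nat.mul_div_cancel' hgq
  have hk0 : 0 < k := Nat.div_pos (Nat.le_of_dvd hq hgq) hg0
  have hset : ∑ e ∈ (range q).filter (fun e => q ∣ n * e), hat q H e =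
      ∑ j ∈ range g, hat q H (k * j) := by
    symm
    refine sum_bij (fun j _ => k * j) ?_ ?_ ?_ ?_
    · intro j hj
      rw [mem_filter, mem_range]
      rw [mem_range] at hj
      constructor
      · calc k * j < k * g := Nat.mul_lt_mul_of_pos_left hj hk0
          _ = q := by rw [mul_comm, hkq]
      · rw [mul_comm n, dvd_iff_class q hq, ← hg, ← hk]
        exact dvd_mul_right _ _
    · intro a _ b _ hab
      exact Nat.eq_of_mul_eq_mul_left hk0 hab
    · intro e he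
      rw [mem_filter, mem_range, mul_comm n, dvd_iff_class q hq, ← hg, ← hk] at he
      obtain ⟨he1, j, hj⟩ := he
      refine ⟨j, ?_, hj.symm⟩
      rw [mem_range]
      rw [hj, ← hkq, mul_comm g k] at he1
      exact Nat.lt_of_mul_lt_mul_left he1
    · intro j _
      rfl
  rw [hset]
  unfold hat
  rw [sum_comm]
  have hgR : (g : ℝ) ≠ 0 := by exact_mod_cast hg0.ne'
  have hkR : (k : ℝ) ≠ 0 := by exact_mod_cast hk0.ne'
  have h1 : ∀ d ∈ range q, ∑ j ∈ range g, H d * ec (-((d : ℝ) * ((k * j : ℕ) : ℝ) / q)) =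
      if g ∣ d then g * H d else 0 := by
    intro d _
    have h2 : ∀ j ∈ range g, H d * ec (-((d : ℝ) * ((k * j : ℕ) : ℝ) / q)) =
        H d * ec (((-(d : ℤ) : ℤ) : ℝ) * j / g) := by
      intro j _
      congr 2
      rw [← hkq]
      push_cast
      field_simp
    rw [sum_congr rfl h2, ← mul_sum, orth g hg0]
    by_cases hgd : g ∣ d
    · rw [if_pos hgd, if_pos, mul_comm]
      rw [Int.dvd_neg]
      exact_mod_cast hgd
    · rw [if_neg hgd, if_neg, mul_zero]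
      rw [Int.dvd_neg]
      intro h
      exact hgd (by exact_mod_cast h)
  rw [sum_congr rfl h1, ← sum_filter, ← mul_sum, hz g hgq, mul_zero]

/-- **bilinear duality** -/
lemma bilin (q : ℕ) (hq : 0 < q) (H : ℕ → ℂ) (hH : ∀ r, H (r % q) = H r)
    (hz : ∀ g, g ∣ q → ∑ d ∈ (range q).filter (fun d => g ∣ d), H d = 0)
    (F : ℕ → ℕ → ℂ) (hF : ∀ n k, ‖F n k‖ ≤ 1)
    (hV : ∀ n K, ∑ k ∈ range K, ‖F n (k + 1) - F n k‖ ≤ 1)
    (m N : ℕ) (hm : 0 < m) (hN : N * N ≤ m) (a b : ℕ → ℕ) (ha : ∀ n, 1 ≤ a n)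
    (hb : ∀ n, b n ≤ m / n) :
    ‖∑ n ∈ Icc 1 N, ∑ k ∈ Icc (a n) (b n), F n k * H (n * k)‖ ≤
      (1 / Real.sqrt q) * Real.sqrt (∑ d ∈ range q, ‖H d‖ ^ 2) *
        (3 * Real.sqrt (∑ e ∈ range q, (WS q (1 / m) N e) ^ 2)) := by
  classical
  have hqR : (0 : ℝ) < q := by exact_mod_cast hq
  have hqC : (q : ℂ) ≠ 0 := by exact_mod_cast hq.ne'
  have hmR : (0 : ℝ) < m := by exact_mod_cast hm
  set φ : ℕ → ℕ → ℂ := fun n e => ∑ k ∈ Icc (a n) (b n), F n k * ec ((k : ℝ) * ((n : ℝ) * e / q))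
    with hφ
  set Q : ℕ → ℂ := fun e => ∑ n ∈ (Icc 1 N).filter (fun n : ℕ => 0 < nd ((n : ℝ) * e / q)), φ n e
    with hQ
  -- the Fourier identity
  have hid : (q : ℂ) * ∑ n ∈ Icc 1 N, ∑ k ∈ Icc (a n) (b n), F n k * H (n * k) =
      ∑ e ∈ range q, hat q H e * Q e := by
    have h1 : (q : ℂ) * ∑ n ∈ Icc 1 N, ∑ k ∈ Icc (a n) (b n), F n k * H (n * k) =
        ∑ n ∈ Icc 1 N, ∑ e ∈ range q, hat q H e * φ n e := by
      rw [mul_sum]
      refine sum_congr rfl fun n _ => ?_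
      rw [mul_sum]
      have h2 : ∀ k ∈ Icc (a n) (b n), (q : ℂ) * (F n k * H (n * k)) =
          ∑ e ∈ range q, hat q H e * (F n k * ec ((k : ℝ) * ((n : ℝ) * e / q))) := by
        intro k _
        rw [mul_left_comm, hat_inv q hq H hH, mul_sum]
        refine sum_congr rfl fun e _ => ?_
        have : (((n * k : ℕ) : ℝ) * e / q) = (k : ℝ) * ((n : ℝ) * e / q) := by
          push_cast; ring
        rw [this]
        ring
      rw [sum_congr rfl h2, sum_comm]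
      refine sum_congr rfl fun e _ => ?_
      rw [hφ, mul_sum]
    rw [h1]
    have h3 : ∀ n ∈ Icc 1 N, ∑ e ∈ range q, hat q H e * φ n e =
        ∑ e ∈ range q, if 0 < nd ((n : ℝ) * e / q) then hat q H e * φ n e else 0 := by
      intro n _
      have h4 : ∑ e ∈ range q, hat q H e * φ n e =
          ∑ e ∈ (range q).filter (fun e : ℕ => 0 < nd ((n : ℝ) * e / q)), hat q H e * φ n e +
          ∑ e ∈ (range q).filter (fun e : ℕ => ¬ 0 < nd ((n : ℝ) * e / q)), hat q H e * φ n e :=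
        (sum_filter_add_sum_filter_not _ _ _).symm
      rw [h4, sum_filter]
      have h5 : (range q).filter (fun e : ℕ => ¬ 0 < nd ((n : ℝ) * e / q)) =
          (range q).filter (fun e => q ∣ n * e) := by
        apply filter_congr
        intro e _
        rw [← nd_eq_zero_iff q hq]
        constructor
        · intro h
          exact le_antisymm (not_lt.mp h) (nd_nonneg _)
        · intro h
          rw [h]
          exact lt_irrefl _
      rw [h5]
      have h6 : ∑ e ∈ (range q).filter (fun e => q ∣ n * e), hat q H e * φ n e =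
          ∑ e ∈ (range q).filter (fun e => q ∣ n * e), hat q H e * (∑ k ∈ Icc (a n) (b n), F n k) := by
        refine sum_congr rfl fun e he => ?_
        rw [mem_filter] at he
        congr 1
        refine sum_congr rfl fun k _ => ?_
        have h7 : ec ((k : ℝ) * ((n : ℝ) * e / q)) = 1 := by
          rw [ec_nat_mul, (ec_eq_one_iff _).mpr ((nd_eq_zero_iff q hq n e).mpr he.2), one_pow]
        rw [h7, mul_one]
      rw [h6, ← sum_mul, hat_zero q hq H hz n, zero_mul, add_zero]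
    rw [sum_congr rfl h3, sum_comm]
    refine sum_congr rfl fun e _ => ?_
    rw [← sum_filter, hQ, mul_sum]
  -- the bound of `Q`
  have hQb : ∀ e, ‖Q e‖ ≤ 3 * WS q (1 / m) N e := by
    intro e
    refine (norm_sum_le _ _).trans ?_
    unfold WS
    rw [mul_sum]
    refine sum_le_sum fun n hn => ?_
    rw [mem_filter, mem_Icc] at hn
    obtain ⟨⟨hn1, hnN⟩, hn0⟩ := hn
    have hnR : (0 : ℝ) < n := by exact_mod_cast hn1
    have h1 : ‖φ n e‖ ≤ 1 / nd ((n : ℝ) * e / q) := bv_sum (F n) (hF n) (hV n) _ hn0 _ _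
    have h2 : ‖φ n e‖ ≤ (m : ℝ) / n := by
      refine (norm_sum_le _ _).trans ?_
      have h3 : ∀ k ∈ Icc (a n) (b n), ‖F n k * ec ((k : ℝ) * ((n : ℝ) * e / q))‖ ≤ 1 := by
        intro k _
        rw [norm_mul, ec_norm, mul_one]
        exact hF n k
      refine (sum_le_sum h3).trans ?_
      rw [sum_const, Nat.card_Icc, nsmul_eq_mul, mul_one]
      have h4 : b n + 1 - a n ≤ m / n := by
        have := ha n
        have := hb n
        omega
      calc ((b n + 1 - a n : ℕ) : ℝ) ≤ ((m / n : ℕ) : ℝ) := by exact_mod_cast h4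
        _ ≤ (m : ℝ) / n := Nat.cast_div_le
    unfold wg
    have h5 : 1 / ((n : ℝ) * (1 / m)) = (m : ℝ) / n := by field_simp
    rw [h5]
    have h6 : ‖φ n e‖ ≤ min ((m : ℝ) / n) (1 / nd ((n : ℝ) * e / q)) := le_min h2 h1
    have h7 : (1 : ℝ) ≤ 3 * Real.exp (-((n : ℝ) ^ 2 * (1 / m))) := by
      have h8 : (n : ℝ) ^ 2 * (1 / m) ≤ 1 := by
        rw [mul_one_div, div_le_one hmR]
        have : n * n ≤ m := le_trans (Nat.mul_le_mul hnN hnN) hN
        calc (n : ℝ) ^ 2 = ((n * n : ℕ) : ℝ) := by push_cast; ring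
          _ ≤ m := by exact_mod_cast this
      have h9 : Real.exp (-1) ≤ Real.exp (-((n : ℝ) ^ 2 * (1 / m))) :=
        Real.exp_le_exp.mpr (by linarith)
      have h10 : (1 : ℝ) ≤ 3 * Real.exp (-1) := by
        have h11 := Real.exp_one_lt_three
        rw [Real.exp_neg]
        rw [← div_eq_mul_inv, le_div_iff₀ (Real.exp_pos 1)]
        linarith
      linarith
    have h12 : 0 ≤ min ((m : ℝ) / n) (1 / nd ((n : ℝ) * e / q)) := (norm_nonneg _).trans h6
    calc ‖φ n e‖ ≤ 1 * min ((m : ℝ) / n) (1 / nd ((n : ℝ) * e / q)) := by rw [one_mul]; exact h6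
      _ ≤ (3 * Real.exp (-((n : ℝ) ^ 2 * (1 / m)))) * min ((m : ℝ) / n) (1 / nd ((n : ℝ) * e / q)) :=
          mul_le_mul_of_nonneg_right h7 h12
      _ = _ := by ring
  -- Cauchy-Schwarz
  have hCS : ‖∑ e ∈ range q, hat q H e * Q e‖ ≤
      Real.sqrt (∑ e ∈ range q, ‖hat q H e‖ ^ 2) * Real.sqrt (∑ e ∈ range q, ‖Q e‖ ^ 2) := by
    refine (norm_sum_le _ _).trans ?_
    simp_rw [norm_mul]
    exact Real.sum_mul_le_sqrt_mul_sqrt _ _ _
  have hQ2 : Real.sqrt (∑ e ∈ range q, ‖Q e‖ ^ 2) ≤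
      3 * Real.sqrt (∑ e ∈ range q, (WS q (1 / m) N e) ^ 2) := by
    have h1 : ∑ e ∈ range q, ‖Q e‖ ^ 2 ≤ 3 ^ 2 * ∑ e ∈ range q, (WS q (1 / m) N e) ^ 2 := by
      rw [mul_sum]
      refine sum_le_sum fun e _ => ?_
      rw [← mul_pow]
      have := hQb e
      gcongr
    refine (Real.sqrt_le_sqrt h1).trans ?_
    rw [Real.sqrt_mul (by norm_num), Real.sqrt_sq (by norm_num)]
  rw [hat_parseval q hq, Real.sqrt_mul hqR.le] at hCS
  have hfin : (q : ℝ) * ‖∑ n ∈ Icc 1 N, ∑ k ∈ Icc (a n) (b n), F n k * H (n * k)‖ ≤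
      Real.sqrt q * Real.sqrt (∑ d ∈ range q, ‖H d‖ ^ 2) *
        (3 * Real.sqrt (∑ e ∈ range q, (WS q (1 / m) N e) ^ 2)) := by
    have h1 : (q : ℝ) * ‖∑ n ∈ Icc 1 N, ∑ k ∈ Icc (a n) (b n), F n k * H (n * k)‖ =
        ‖(q : ℂ) * ∑ n ∈ Icc 1 N, ∑ k ∈ Icc (a n) (b n), F n k * H (n * k)‖ := by
      rw [norm_mul, Complex.norm_natCast]
    rw [h1, hid]
    refine hCS.trans ?_
    exact mul_le_mul_of_nonneg_left hQ2 (by positivity)
  have hsq : Real.sqrt q * Real.sqrt q = q := Real.mul_self_sqrt hqR.le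
  have hsq0 : 0 < Real.sqrt q := Real.sqrt_pos.mpr hqR
  have h2 : (q : ℝ) * ((1 / Real.sqrt q) * Real.sqrt (∑ d ∈ range q, ‖H d‖ ^ 2) *
        (3 * Real.sqrt (∑ e ∈ range q, (WS q (1 / m) N e) ^ 2))) =
      Real.sqrt q * Real.sqrt (∑ d ∈ range q, ‖H d‖ ^ 2) *
        (3 * Real.sqrt (∑ e ∈ range q, (WS q (1 / m) N e) ^ 2)) := by
    have h3 : (q : ℝ) * (1 / Real.sqrt q) = Real.sqrt q := by
      rw [mul_one_div, Real.div_sqrt]
    calc (q : ℝ) * ((1 / Real.sqrt q) * Real.sqrt (∑ d ∈ range q, ‖H d‖ ^ 2) *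
        (3 * Real.sqrt (∑ e ∈ range q, (WS q (1 / m) N e) ^ 2))) =
        ((q : ℝ) * (1 / Real.sqrt q)) * Real.sqrt (∑ d ∈ range q, ‖H d‖ ^ 2) *
        (3 * Real.sqrt (∑ e ∈ range q, (WS q (1 / m) N e) ^ 2)) := by ring
      _ = _ := by rw [h3]
  rw [← h2] at hfin
  exact le_of_mul_le_mul_left hfin hqR

/-- the pairs with product at most `m` -/
lemma pairs_split (m : ℕ) (hm : 0 < m) (f : ℕ → ℕ → ℂ) :
    ∑ r ∈ Icc 1 m, ∑ p ∈ r.divisorsAntidiagonal, f p.1 p.2 =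
      ∑ n ∈ Icc 1 (Nat.sqrt m), ∑ k ∈ Icc (max n 1) (m / n), f n k +
      ∑ n ∈ Icc 1 (Nat.sqrt m), ∑ k ∈ Icc (n + 1) (m / n), f k n := by
  classical
  have h1 : ∑ r ∈ Icc 1 m, ∑ p ∈ r.divisorsAntidiagonal, f p.1 p.2 =
      ∑ p ∈ (Icc 1 m ×ˢ Icc 1 m).filter (fun p => p.1 * p.2 ≤ m), f p.1 p.2 := by
    rw [sum_sigma']
    refine sum_bij' (fun x _ => x.2) (fun p _ => ⟨p.1 * p.2, p⟩) ?_ ?_ ?_ ?_ ?_
    · rintro ⟨r, p⟩ h
      rw [mem_sigma, mem_Icc, Nat.mem_divisorsAntidiagonal] at h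
      obtain ⟨⟨h1, h2⟩, h3, h4⟩ := h
      simp only at h1 h2 h3 h4 ⊢
      have hp1 : 0 < p.1 := by
        rcases Nat.eq_zero_or_pos p.1 with h | h
        · rw [h] at h3; omega
        · exact h
      have hp2 : 0 < p.2 := by
        rcases Nat.eq_zero_or_pos p.2 with h | h
        · rw [h] at h3; omega
        · exact h
      rw [mem_filter, mem_product, mem_Icc, mem_Icc]
      have h5 : p.1 ≤ r := by rw [← h3]; exact Nat.le_mul_of_pos_right _ hp2
      have h6 : p.2 ≤ r := by rw [← h3]; exact Nat.le_mul_of_pos_left _ hp1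
      exact ⟨⟨⟨hp1, by omega⟩, ⟨hp2, by omega⟩⟩, by rw [h3]; exact h2⟩
    · intro p h
      rw [mem_filter, mem_product, mem_Icc, mem_Icc] at h
      rw [mem_sigma, mem_Icc, Nat.mem_divisorsAntidiagonal]
      have h7 : 0 < p.1 * p.2 := Nat.mul_pos h.1.1.1 h.1.2.1
      exact ⟨⟨h7, h.2⟩, rfl, h7.ne'⟩
    · rintro ⟨r, p⟩ h
      rw [mem_sigma, mem_Icc, Nat.mem_divisorsAntidiagonal] at h
      simp only at h ⊢
      rw [h.2.1]
    · intro p _
      rfl
    · intro x _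
      rfl
  rw [h1, ← sum_filter_add_sum_filter_not _ (fun p : ℕ × ℕ => p.1 ≤ p.2)]
  congr 1
  · rw [sum_sigma']
    refine sum_bij' (fun p _ => ⟨p.1, p.2⟩) (fun x _ => (x.1, x.2)) ?_ ?_ ?_ ?_ ?_
    · rintro ⟨n, k⟩ h
      rw [mem_filter, mem_filter, mem_product, mem_Icc, mem_Icc] at h
      obtain ⟨⟨⟨⟨h1, h2⟩, h3, h4⟩, h5⟩, h6⟩ := h
      simp only at h1 h2 h3 h4 h5 h6
      rw [mem_sigma, mem_Icc, mem_Icc]
      refine ⟨⟨h1, ?_⟩, ?_, ?_⟩
      · rw [Nat.le_sqrt]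
        exact le_trans (Nat.mul_le_mul_left n h6) h5
      · exact max_le h6 h3
      · rw [Nat.le_div_iff_mul_le h1, mul_comm]
        exact h5
    · rintro ⟨n, k⟩ h
      rw [mem_sigma, mem_Icc, mem_Icc] at h
      obtain ⟨⟨h1, h2⟩, h3, h4⟩ := h
      simp only at h1 h2 h3 h4
      rw [max_le_iff] at h3
      rw [Nat.le_div_iff_mul_le h1, mul_comm] at h4
      rw [mem_filter, mem_filter, mem_product, mem_Icc, mem_Icc]
      have h5 : n ≤ n * k := Nat.le_mul_of_pos_right _ h3.2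
      have h6 : k ≤ n * k := Nat.le_mul_of_pos_left _ h1
      exact ⟨⟨⟨⟨h1, by simp only; omega⟩, h3.2, by simp only; omega⟩, h4⟩, h3.1⟩
    · intro p _
      rfl
    · intro x _
      rfl
    · intro p _
      rfl
  · rw [sum_sigma']
    refine sum_bij' (fun p _ => ⟨p.2, p.1⟩) (fun x _ => (x.2, x.1)) ?_ ?_ ?_ ?_ ?_
    · rintro ⟨n, k⟩ h
      rw [mem_filter, mem_filter, mem_product, mem_Icc, mem_Icc] at h
      obtain ⟨⟨⟨⟨h1, h2⟩, h3, h4⟩, h5⟩, h6⟩ := h
      simp only [not_le] at h1 h2 h3 h4 h5 h6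
      rw [mem_sigma, mem_Icc, mem_Icc]
      refine ⟨⟨h3, ?_⟩, ?_, ?_⟩
      · simp only
        rw [Nat.le_sqrt]
        exact le_trans (Nat.mul_le_mul_right k h6.le) h5
      · exact h6
      · simp only
        rw [Nat.le_div_iff_mul_le h3]
        exact h5
    · rintro ⟨n, k⟩ h
      rw [mem_sigma, mem_Icc, mem_Icc] at h
      obtain ⟨⟨h1, h2⟩, h3, h4⟩ := h
      simp only at h1 h2 h3 h4
      rw [Nat.le_div_iff_mul_le h1] at h4
      rw [mem_filter, mem_filter, mem_product, mem_Icc, mem_Icc]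
      have h5 : n ≤ k * n := Nat.le_mul_of_pos_left _ (by omega)
      have h6 : k ≤ k * n := Nat.le_mul_of_pos_right _ h1
      exact ⟨⟨⟨⟨by simp only; omega, by simp only; omega⟩, h1, by simp only; omega⟩, h4⟩,
        by simp only; omega⟩
    · intro p _
      rfl
    · intro x _
      rfl
    · intro p _
      rfl

/-- **the off-diagonal bound** -/
theorem off_bound {ε : ℝ} (hε : 0 < ε) : ∃ C : ℝ, 0 < C ∧ ∀ q : ℕ, 0 < q → ∀ F : ℕ → ℕ → ℂ,
    (∀ n k, ‖F n k‖ ≤ 1) →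
    (∀ n K, ∑ k ∈ range K, ‖F n (k + 1) - F n k‖ ≤ 1) →
    (∀ k K, ∑ n ∈ range K, ‖F (n + 1) k - F n k‖ ≤ 1) →
    ∀ m : ℕ, 0 < m → ∀ w : ℂ, 0 < w.re → w.re ≤ 1 →
    ‖SS F q m w‖ ≤ C * (‖w‖ / w.re) * (q * m / w.re) ^ (1 / 2 : ℝ) *
      ((q : ℝ) ^ 2 * m / w.re) ^ ε := by
  have hε2 : 0 < 2 * ε := by linarith
  obtain ⟨K1, hK1, hH⟩ := HH_sq hε2
  obtain ⟨K2, hK2, hW⟩ := WS_bound hε2
  refine ⟨6 * (Real.sqrt K1 * Real.sqrt K2), by positivity,
    fun q hq F hF hV1 hV2 m hm w hw hw1 => ?_⟩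
  have hqR : (0 : ℝ) < q := by exact_mod_cast hq
  have hmR : (1 : ℝ) ≤ m := by exact_mod_cast hm
  have hm0 : (0 : ℝ) < m := by linarith
  set κ := ‖w‖ / w.re with hκ
  have hκ0 : 0 ≤ κ := by rw [hκ]; positivity
  set H : ℕ → ℂ := fun r => HH q r w with hHdef
  have hper : ∀ r, H (r % q) = H r := fun r => HH_mod q hq r w hw
  have hzero : ∀ g, g ∣ q → ∑ d ∈ (range q).filter (fun d => g ∣ d), H d = 0 := fun g hg =>
    HH_sum_zero q hq g hg w
  set N := Nat.sqrt m with hN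
  have hNm : N * N ≤ m := Nat.sqrt_le m
  -- split
  have hSS : SS F q m w = ∑ n ∈ Icc 1 N, ∑ k ∈ Icc (max n 1) (m / n), F n k * H (n * k) +
      ∑ n ∈ Icc 1 N, ∑ k ∈ Icc (n + 1) (m / n), (fun n k => F k n) n k * H (n * k) := by
    have h1 := pairs_split m hm (fun n k => F n k * H (n * k))
    have h2 : SS F q m w = ∑ r ∈ Icc 1 m, ∑ p ∈ r.divisorsAntidiagonal, F p.1 p.2 * H (p.1 * p.2) := by
      unfold SS
      refine sum_congr rfl fun r _ => sum_congr rfl fun p hp => ?_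
      rw [(Nat.mem_divisorsAntidiagonal.mp hp).1]
    rw [h2, h1]
    congr 1
    refine sum_congr rfl fun n _ => sum_congr rfl fun k _ => ?_
    rw [mul_comm k n]
  have hb1 := bilin q hq H hper hzero F hF hV1 m N hm hNm (fun n => max n 1) (fun n => m / n)
    (fun n => le_max_right _ _) (fun n => le_rfl)
  have hb2 := bilin q hq H hper hzero (fun n k => F k n) (fun n k => hF k n) (fun n K => hV2 n K)
    m N hm hNm (fun n => n + 1) (fun n => m / n) (fun n => by omega) (fun n => le_rfl)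
  set A := Real.sqrt (∑ d ∈ range q, ‖H d‖ ^ 2) with hA
  set B := Real.sqrt (∑ e ∈ range q, (WS q (1 / m) N e) ^ 2) with hB
  have hAle : A ≤ Real.sqrt K1 * κ * (q / w.re) ^ (1 / 2 + ε) := by
    have h1 := hH q hq w hw hw1
    rw [hA]
    refine (Real.sqrt_le_sqrt h1).trans (le_of_eq ?_)
    rw [Real.sqrt_mul (by positivity), Real.sqrt_mul hK1.le, Real.sqrt_sq hκ0]
    congr 1
    rw [Real.sqrt_eq_rpow, ← Real.rpow_mul (by positivity)]
    congr 1
    ring
  have hBle : B ≤ Real.sqrt K2 * (q * m) ^ (1 / 2 + ε) := by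
    have h1 := hW q hq (1 / m) (by positivity) (by rw [div_le_one hm0]; exact hmR) N
    rw [hB]
    refine (Real.sqrt_le_sqrt h1).trans (le_of_eq ?_)
    rw [Real.sqrt_mul hK2.le]
    congr 1
    have h2 : (q : ℝ) / (1 / m) = q * m := by field_simp
    rw [h2, Real.sqrt_eq_rpow, ← Real.rpow_mul (by positivity)]
    congr 1
    ring
  have hA0 : 0 ≤ A := Real.sqrt_nonneg _
  have hB0 : 0 ≤ B := Real.sqrt_nonneg _
  have hsum : ‖SS F q m w‖ ≤ 6 * ((1 / Real.sqrt q) * (A * B)) := by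
    rw [hSS]
    refine (norm_add_le _ _).trans ?_
    linarith
  refine hsum.trans ?_
  have hAB : A * B ≤ (Real.sqrt K1 * κ * (q / w.re) ^ (1 / 2 + ε)) *
      (Real.sqrt K2 * (q * m) ^ (1 / 2 + ε)) := mul_le_mul hAle hBle hB0 (by positivity)
  calc 6 * ((1 / Real.sqrt q) * (A * B)) ≤ 6 * ((1 / Real.sqrt q) *
        ((Real.sqrt K1 * κ * (q / w.re) ^ (1 / 2 + ε)) * (Real.sqrt K2 * (q * m) ^ (1 / 2 + ε)))) := by
        gcongr
    _ = 6 * (Real.sqrt K1 * Real.sqrt K2) * κ * ((1 / Real.sqrt q) *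
        ((q / w.re) ^ (1 / 2 + ε) * (q * m) ^ (1 / 2 + ε))) := by ring
    _ = _ := by
        rw [mul_assoc (6 * (Real.sqrt K1 * Real.sqrt K2) * κ)]
        congr 1
        rw [← Real.mul_rpow (by positivity) (by positivity)]
        have h1 : (q / w.re) * (q * m) = (q : ℝ) ^ 2 * m / w.re := by ring
        rw [h1, Real.rpow_add (by positivity)]
        have h2 : (1 / Real.sqrt q) * ((q : ℝ) ^ 2 * m / w.re) ^ (1 / 2 : ℝ) =
            (q * m / w.re) ^ (1 / 2 : ℝ) := by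
          have h3 : ((q : ℝ) ^ 2 * m / w.re) = q * (q * m / w.re) := by ring
          rw [h3, Real.mul_rpow hqR.le (by positivity), Real.sqrt_eq_rpow]
          field_simp
        rw [← mul_assoc, h2]

end Pool.Agent.T2
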