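import Pool.Agent.Lib_MP_112ba8_t.T2Abel
import Pool.Agent.Lib_MP_112ba8_t.T2Avg
import Pool.Agent.Lib_MP_112ba8_t.T2Off

/-!
Piece B0: the twisted second moment on average, beyond the diagonal range.
-/

namespace Pool.Agent.SixT

open Filter Topology MeasureTheory
open Pool.Agent.EvenMoment (cl Wgt Sz ker ar JJ pp_re pp_im pp_norm_le
  pp_norm_ge rho_facts rho_eq sin_half_bound)
open Pool.Agent.T2 (HH AA SS off_bound abel_bound)

/-! ### sums over pairs -/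

/-- pairs with product at most `Y` -/
def b0P (Y : ℕ) : Finset (ℕ × ℕ) :=
  ((Finset.Icc 1 Y) ×ˢ (Finset.Icc 1 Y)).filter (fun p => p.1 * p.2 ≤ Y)

lemma b0_mem {Y : ℕ} {p : ℕ × ℕ} : p ∈ b0P Y ↔ 0 < p.1 ∧ 0 < p.2 ∧ p.1 * p.2 ≤ Y := by
  unfold b0P
  rw [Finset.mem_filter, Finset.mem_product, Finset.mem_Icc, Finset.mem_Icc]
  constructor
  · rintro ⟨⟨⟨h1, _⟩, h2, _⟩, h3⟩
    exact ⟨h1, h2, h3⟩
  · rintro ⟨h1, h2, h3⟩
    refine ⟨⟨⟨h1, ?_⟩, h2, ?_⟩, h3⟩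
    · exact (Nat.le_mul_of_pos_right _ h2).trans h3
    · exact (Nat.le_mul_of_pos_left _ h1).trans h3

lemma b0_sum_NN {M : Type*} [AddCommMonoid M] {Y N : ℕ} (hYN : Y ≤ N) (g : ℕ → ℕ → M)
    (hg : ∀ n k, Y < n * k → g n k = 0) :
    ∑ n ∈ Finset.Icc 1 N, ∑ k ∈ Finset.Icc 1 N, g n k = ∑ p ∈ b0P Y, g p.1 p.2 := by
  rw [← Finset.sum_product']
  symm
  refine Finset.sum_subset ?_ ?_
  · intro p hp
    rw [b0_mem] at hp
    obtain ⟨h1, h2, h3⟩ := hp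
    rw [Finset.mem_product, Finset.mem_Icc, Finset.mem_Icc]
    refine ⟨⟨h1, ?_⟩, h2, ?_⟩
    · exact (Nat.le_mul_of_pos_right _ h2).trans (h3.trans hYN)
    · exact (Nat.le_mul_of_pos_left _ h1).trans (h3.trans hYN)
  · intro p hp hp2
    rw [Finset.mem_product, Finset.mem_Icc, Finset.mem_Icc] at hp
    rw [b0_mem] at hp2
    apply hg
    by_contra hc
    exact hp2 ⟨hp.1.1, hp.2.1, not_lt.1 hc⟩

lemma b0_sum_r {M : Type*} [AddCommMonoid M] (Y : ℕ) (g : ℕ × ℕ → M) :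
    ∑ p ∈ b0P Y, g p = ∑ r ∈ Finset.Icc 1 Y, ∑ p ∈ r.divisorsAntidiagonal, g p := by
  rw [← Finset.sum_fiberwise_of_maps_to (s := b0P Y) (t := Finset.Icc 1 Y)
    (g := fun p : ℕ × ℕ => p.1 * p.2)]
  · refine Finset.sum_congr rfl fun r hr => ?_
    refine Finset.sum_congr ?_ fun _ _ => rfl
    ext p
    rw [Finset.mem_filter, b0_mem, Nat.mem_divisorsAntidiagonal]
    rw [Finset.mem_Icc] at hr
    constructor
    · rintro ⟨⟨h1, h2, h3⟩, h4⟩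
      exact ⟨h4, by omega⟩
    · rintro ⟨h1, h2⟩
      have h3 : p.1 * p.2 ≠ 0 := by omega
      refine ⟨⟨Nat.pos_of_ne_zero (left_ne_zero_of_mul h3), Nat.pos_of_ne_zero
        (right_ne_zero_of_mul h3), by omega⟩, h1⟩
  · intro p hp
    rw [b0_mem] at hp
    rw [Finset.mem_Icc]
    exact ⟨Nat.mul_pos hp.1 hp.2.1, hp.2.2⟩

lemma b0_harm {Y : ℕ} : ∑ p ∈ b0P Y, 1 / ((p.1 : ℝ) * p.2) ≤ (1 + Real.log Y) ^ 2 := by
  have h1 : ∑ m ∈ Finset.Icc 1 Y, (1 / (m : ℝ)) ≤ 1 + Real.log Y := by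
    have h2 := harmonic_le_one_add_log Y
    rw [harmonic_eq_sum_Icc] at h2
    push_cast at h2
    simpa [one_div] using h2
  have h0 : 0 ≤ ∑ m ∈ Finset.Icc 1 Y, (1 / (m : ℝ)) := Finset.sum_nonneg fun _ _ => by positivity
  calc ∑ p ∈ b0P Y, 1 / ((p.1 : ℝ) * p.2)
      ≤ ∑ p ∈ (Finset.Icc 1 Y) ×ˢ (Finset.Icc 1 Y), 1 / ((p.1 : ℝ) * p.2) :=
        Finset.sum_le_sum_of_subset_of_nonneg (Finset.filter_subset _ _)
          fun _ _ _ => by positivity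
    _ = (∑ m ∈ Finset.Icc 1 Y, (1 / (m : ℝ))) * ∑ m ∈ Finset.Icc 1 Y, (1 / (m : ℝ)) := by
        rw [Finset.sum_mul_sum, Finset.sum_product]
        refine Finset.sum_congr rfl fun n _ => Finset.sum_congr rfl fun k _ => ?_
        rw [one_div_mul_one_div]
    _ ≤ (1 + Real.log Y) ^ 2 := by
        rw [sq]
        exact mul_le_mul h1 h1 h0 (h0.trans h1)

/-! ### the main term -/

lemma b0_red {h r : ℕ} (hh : 0 < h) (hr : 0 < r) :
    1 ≤ red h r ∧ red h r = ((h / Nat.gcd r h : ℕ) : ℝ) * ((r / Nat.gcd r h : ℕ) : ℝ) := by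
  have hg : 0 < Nat.gcd r h := Nat.gcd_pos_of_pos_left _ hr
  have hg0 : (0 : ℝ) < Nat.gcd r h := by exact_mod_cast hg
  have h1 : ((h / Nat.gcd r h : ℕ) : ℝ) = h / Nat.gcd r h :=
    Nat.cast_div (Nat.gcd_dvd_right _ _) hg0.ne'
  have h2 : ((r / Nat.gcd r h : ℕ) : ℝ) = r / Nat.gcd r h :=
    Nat.cast_div (Nat.gcd_dvd_left _ _) hg0.ne'
  have e : red h r = ((h / Nat.gcd r h : ℕ) : ℝ) * ((r / Nat.gcd r h : ℕ) : ℝ) := by
    rw [h1, h2, red, Nat.gcd_comm h r]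
    field_simp
  refine ⟨?_, e⟩
  rw [e]
  have a1 : 0 < h / Nat.gcd r h := Nat.div_pos (Nat.le_of_dvd hh (Nat.gcd_dvd_right _ _)) hg
  have a2 : 0 < r / Nat.gcd r h := Nat.div_pos (Nat.le_of_dvd hr (Nat.gcd_dvd_left _ _)) hg
  have a1' : (1 : ℝ) ≤ ((h / Nat.gcd r h : ℕ) : ℝ) := by exact_mod_cast a1
  have a2' : (1 : ℝ) ≤ ((r / Nat.gcd r h : ℕ) : ℝ) := by exact_mod_cast a2
  nlinarith

lemma b0_red_le {h r : ℕ} (hh : 0 < h) (hr : 0 < r) : red h r ≤ h * r := by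
  have hg : 0 < Nat.gcd h r := Nat.gcd_pos_of_pos_left _ hh
  have hg1 : (1 : ℝ) ≤ Nat.gcd h r := by exact_mod_cast hg
  unfold red
  refine div_le_self (by positivity) ?_
  exact one_le_pow₀ hg1

/-- `W = g / (r √h) = 1 / (√r √red)` -/
lemma b0_W {h r : ℕ} (hh : 0 < h) (hr : 0 < r) :
    1 / (Real.sqrt r * Real.sqrt (red h r)) =
      1 / (Real.sqrt h * ((r / Nat.gcd r h : ℕ) : ℝ)) := by
  have hg : 0 < Nat.gcd r h := Nat.gcd_pos_of_pos_left _ hr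
  have hg0 : (0 : ℝ) < Nat.gcd r h := by exact_mod_cast hg
  have hh0 : (0 : ℝ) < h := by exact_mod_cast hh
  have hr0 : (0 : ℝ) < r := by exact_mod_cast hr
  have h2 : ((r / Nat.gcd r h : ℕ) : ℝ) = r / Nat.gcd r h :=
    Nat.cast_div (Nat.gcd_dvd_left _ _) hg0.ne'
  rw [h2]
  congr 1
  rw [← Real.sqrt_mul hr0.le, red, Nat.gcd_comm h r]
  have e1 : (r : ℝ) * (h * r / (Nat.gcd r h : ℝ) ^ 2) = h * (r / Nat.gcd r h) ^ 2 := by
    field_simp
  rw [e1, Real.sqrt_mul hh0.le, Real.sqrt_sq (by positivity)]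

lemma b0_log {T ξ : ℝ} (hT : 0 < T) {ρ : ℂ} (h1 : 1 / T ≤ ‖ρ‖) (h2 : ‖ρ‖ ≤ 2 * (2 + |ξ|) / T) :
    ‖(Real.log (2 * Real.pi) : ℂ) + Complex.log (T * ρ)‖ ≤ 14 * (1 + |ξ|) := by
  have hξ0 := abs_nonneg ξ
  have hTρn : ‖(T : ℂ) * ρ‖ = T * ‖ρ‖ := by
    rw [norm_mul, Complex.norm_real, Real.norm_of_nonneg hT.le]
  have hTρ1 : 1 ≤ T * ‖ρ‖ := by
    rw [div_le_iff₀ hT] at h1; linarith
  have hTρ2 : T * ‖ρ‖ ≤ 2 * (2 + |ξ|) := by
    rw [le_div_iff₀ hT] at h2; linarith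
  have e1 : ‖Complex.log (T * ρ)‖ ≤ 2 * (2 + |ξ|) - 1 + Real.pi := by
    have e2 : Complex.log (T * ρ) = ((Real.log (T * ‖ρ‖) : ℝ) : ℂ) +
        (Complex.arg (T * ρ) : ℝ) * Complex.I := by
      rw [Complex.log, hTρn]
    rw [e2]
    refine (norm_add_le _ _).trans ?_
    rw [norm_mul, Complex.norm_I, mul_one, Complex.norm_real, Complex.norm_real]
    apply add_le_add
    · rw [Real.norm_of_nonneg (Real.log_nonneg hTρ1)]
      have := Real.log_le_sub_one_of_pos (show 0 < T * ‖ρ‖ by linarith)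
      linarith
    · exact Complex.abs_arg_le_pi _
  have e3 : ‖(Real.log (2 * Real.pi) : ℂ)‖ ≤ 2 * Real.pi - 1 := by
    rw [Complex.norm_real, Real.norm_of_nonneg
      (Real.log_nonneg (by linarith only [Real.pi_gt_three]))]
    exact Real.log_le_sub_one_of_pos (by positivity)
  refine (norm_add_le _ _).trans ?_
  linarith only [Real.pi_lt_d2, e1, e3, hξ0]

lemma b0_AA {ε : ℝ} (hε : 0 < ε) : ∃ C : ℝ, 0 < C ∧ ∀ T : ℝ, 1 ≤ T → ∀ ξ : ℝ,
    (2 + |ξ|) / T ≤ 1 / 20 → ∀ p ρ : ℂ, p = (2 + Complex.I * ξ) / T →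
    ρ = Complex.I * (Complex.exp (-(Complex.I * p)) - 1) →
    ∀ h r : ℕ, 0 < h → 0 < r → (h : ℝ) ≤ T → (r : ℝ) ≤ T ^ (1 - ε) →
    ‖(2 * Real.pi / Real.sqrt h : ℂ) * Complex.exp (-(Complex.I * p / 2)) *
        AA (h / Nat.gcd r h) (2 * Real.pi * ρ / h * r) -
      (((Real.log T - Real.log (red h r)) / Real.sqrt (red h r) : ℝ) : ℂ) / Real.sqrt r *
        (1 / p)‖ ≤
      C * (1 + |ξ|) ^ 5 * (T / (Real.sqrt r * Real.sqrt (red h r))) := by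
  obtain ⟨C1, hC1, hAA⟩ := Pool.Agent.T2ext.AA_asymp hε
  refine ⟨20 + 8192 * C1, by positivity, ?_⟩
  intro T hT1 ξ hs p ρ hp hρ h r hh hr hhT hrT
  have hT : 0 < T := by linarith
  have hh0 : (0 : ℝ) < h := by exact_mod_cast hh
  have hr0 : (0 : ℝ) < r := by exact_mod_cast hr
  have hξ0 := abs_nonneg ξ
  have hpn : ‖p‖ ≤ (2 + |ξ|) / T := by rw [hp]; exact pp_norm_le hT ξ
  have hpg : 2 / T ≤ ‖p‖ := by rw [hp]; exact pp_norm_ge hT ξ
  have hp1 : ‖p‖ ≤ 1 := by linarith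
  have hp0 : p ≠ 0 := by
    rw [← norm_pos_iff]
    exact lt_of_lt_of_le (by positivity) hpg
  obtain ⟨hsin0, hsinb⟩ := sin_half_bound hp0 hp1
  obtain ⟨hρre, hρn⟩ := rho_facts hT hs (by rw [hρ, hp] : ρ = _)
  have hρ2 := rho_eq p
  rw [← hρ] at hρ2
  have hρre0 : 0 < ρ.re := lt_of_lt_of_le (by positivity) hρre
  have hρnge : 1 / T ≤ ‖ρ‖ := hρre.trans ((le_abs_self _).trans (Complex.abs_re_le_norm _))
  have hρn0 : 0 < ‖ρ‖ := lt_of_lt_of_le (by positivity) hρnge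
  have hρ0 : ρ ≠ 0 := norm_pos_iff.1 hρn0
  obtain ⟨g, hg⟩ : ∃ g : ℕ, g = Nat.gcd r h := ⟨_, rfl⟩
  have hg1 : 0 < g := by rw [hg]; exact Nat.gcd_pos_of_pos_left _ hr
  have hg0 : (0 : ℝ) < g := by exact_mod_cast hg1
  obtain ⟨q, hq⟩ : ∃ q : ℕ, q = h / Nat.gcd r h := ⟨_, rfl⟩
  obtain ⟨r', hr'⟩ : ∃ r' : ℕ, r' = r / Nat.gcd r h := ⟨_, rfl⟩
  have hqR : (q : ℝ) = h / g := by
    rw [hq, hg]
    exact Nat.cast_div (Nat.gcd_dvd_right _ _) (by rw [← hg]; exact hg0.ne')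
  have hrR : (r' : ℝ) = r / g := by
    rw [hr', hg]
    exact Nat.cast_div (Nat.gcd_dvd_left _ _) (by rw [← hg]; exact hg0.ne')
  have hq1 : 0 < q := by
    rw [hq]
    exact Nat.div_pos (Nat.le_of_dvd hh (Nat.gcd_dvd_right _ _)) (by rw [← hg]; exact hg1)
  have hr1 : 0 < r' := by
    rw [hr']
    exact Nat.div_pos (Nat.le_of_dvd hr (Nat.gcd_dvd_left _ _)) (by rw [← hg]; exact hg1)
  have hq0 : (0 : ℝ) < q := by exact_mod_cast hq1
  have hr'0 : (0 : ℝ) < r' := by exact_mod_cast hr1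
  have hhq : (h : ℝ) = q * g := by rw [hqR]; field_simp
  have hrr : (r : ℝ) = r' * g := by rw [hrR]; field_simp
  obtain ⟨hred1, hred2⟩ := b0_red hh hr
  rw [← hq, ← hr'] at hred2
  have hW := b0_W hh hr
  rw [← hr'] at hW
  rw [← hq]
  obtain ⟨s, hs_def⟩ : ∃ s : ℝ, s = Real.sqrt (red h r) := ⟨_, rfl⟩
  have hs0 : 0 < s := by rw [hs_def]; exact Real.sqrt_pos.2 (by linarith)
  have hsqr : 0 < Real.sqrt r := Real.sqrt_pos.2 hr0
  have hsqh : 0 < Real.sqrt h := Real.sqrt_pos.2 hh0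
  obtain ⟨W, hW_def⟩ : ∃ W : ℝ, W = 1 / (Real.sqrt r * s) := ⟨_, rfl⟩
  have hW0 : 0 < W := by rw [hW_def]; positivity
  rw [← hs_def, ← hW_def] at hW
  rw [← hs_def]
  obtain ⟨Λ, hΛ⟩ : ∃ Λ : ℝ, Λ = Real.log T - Real.log (red h r) := ⟨_, rfl⟩
  rw [← hΛ]
  obtain ⟨η, hη⟩ : ∃ η : ℂ, η = 2 * Real.pi * ρ / h * r := ⟨_, rfl⟩
  rw [← hη]
  have hc0 : 0 < 2 * Real.pi * ((r' : ℝ) / q) := by positivity
  have hη2 : η = ((2 * Real.pi * (r' / q) : ℝ) : ℂ) * ρ := by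
    have e1 : (h : ℂ) = (q : ℂ) * g := by exact_mod_cast hhq
    have e2 : (r : ℂ) = (r' : ℂ) * g := by exact_mod_cast hrr
    have hgC : (g : ℂ) ≠ 0 := by exact_mod_cast hg0.ne'
    have hqC : (q : ℂ) ≠ 0 := by exact_mod_cast hq0.ne'
    rw [hη, e1, e2]
    push_cast
    field_simp
  have hηre : η.re = 2 * Real.pi * (r' / q) * ρ.re := by
    rw [hη2, Complex.re_ofReal_mul]
  have hηn : ‖η‖ = 2 * Real.pi * (r' / q) * ‖ρ‖ := by
    rw [hη2, norm_mul, Complex.norm_real, Real.norm_of_nonneg hc0.le]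
  have hηre0 : 0 < η.re := by rw [hηre]; positivity
  have hκ : ‖η‖ / η.re ≤ 4 * (1 + |ξ|) := by
    rw [hηn, hηre, mul_div_mul_left _ _ hc0.ne', div_le_iff₀ hρre0]
    calc ‖ρ‖ ≤ 2 * (2 + |ξ|) / T := hρn
      _ ≤ 4 * (1 + |ξ|) * (1 / T) := by
          rw [mul_one_div]
          exact div_le_div_of_nonneg_right (by linarith) hT.le
      _ ≤ 4 * (1 + |ξ|) * ρ.re := by gcongr
  have hκ0 : 0 ≤ ‖η‖ / η.re := by positivity
  have hA := hAA q hq1 η hηre0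
  obtain ⟨M, hM⟩ : ∃ M : ℂ, M = (1 / (q * η)) * (-Complex.log η - 2 * Real.log q) := ⟨_, rfl⟩
  rw [← hM] at hA
  obtain ⟨S, hS⟩ : ∃ S : ℂ, S = 1 / (2 * Complex.sin (p / 2)) := ⟨_, rfl⟩
  rw [← hS] at hsinb
  obtain ⟨e, he⟩ : ∃ e : ℂ, e = Complex.exp (-(Complex.I * p / 2)) := ⟨_, rfl⟩
  have he0 : e ≠ 0 := by rw [he]; exact Complex.exp_ne_zero _
  have hen : ‖e‖ ≤ 2 := by rw [he]; exact e8_exp_norm hT hs hp
  rw [← he] at hρ2 ⊢
  have hlogη : -Complex.log η - 2 * Real.log q =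
      Λ - Real.log (2 * Real.pi) - Complex.log (T * ρ) := by
    have e1 : Complex.log η = Real.log (2 * Real.pi * (r' / q)) + Complex.log ρ := by
      rw [hη2, Complex.log_ofReal_mul hc0 hρ0]
    have e2 : Complex.log (T * ρ) = Real.log T + Complex.log ρ := by
      rw [Complex.log_ofReal_mul hT hρ0]
    have e3 : Real.log (2 * Real.pi * (r' / q)) =
        Real.log (2 * Real.pi) + (Real.log r' - Real.log q) := by
      rw [Real.log_mul (by positivity) (by positivity), Real.log_div hr'0.ne' hq0.ne']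
    have e4 : Real.log (red h r) = Real.log q + Real.log r' := by
      rw [hred2, Real.log_mul hq0.ne' hr'0.ne']
    rw [e1, e2, e3, hΛ, e4]
    push_cast
    ring
  have hWC : (W : ℂ) = 1 / (Real.sqrt h * r') := by
    rw [hW]; push_cast; rfl
  have hhC : ((Real.sqrt h : ℝ) : ℂ) ≠ 0 := by exact_mod_cast hsqh.ne'
  have hqC : (q : ℂ) ≠ 0 := by exact_mod_cast hq0.ne'
  have hr'C : (r' : ℂ) ≠ 0 := by exact_mod_cast hr'0.ne'
  have hπ : (Real.pi : ℂ) ≠ 0 := by exact_mod_cast Real.pi_ne_zero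
  have haM : (2 * Real.pi / Real.sqrt h : ℂ) * e * M =
      W * S * (Λ - Real.log (2 * Real.pi) - Complex.log (T * ρ)) := by
    rw [hM, ← hlogη, ← mul_assoc]
    congr 1
    rw [hWC, hS, hη2, hρ2]
    push_cast
    field_simp
  have hmain : (2 * Real.pi / Real.sqrt h : ℂ) * e * AA q η -
      ((Λ / s : ℝ) : ℂ) / Real.sqrt r * (1 / p) =
      (2 * Real.pi / Real.sqrt h : ℂ) * e * (AA q η - M) +
        W * ((S - 1 / p) * Λ - S * (Real.log (2 * Real.pi) + Complex.log (T * ρ))) := by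
    have e2 : ((Λ / s : ℝ) : ℂ) / Real.sqrt r = W * Λ := by
      have hsC : (s : ℂ) ≠ 0 := by exact_mod_cast hs0.ne'
      have hrC : ((Real.sqrt r : ℝ) : ℂ) ≠ 0 := by exact_mod_cast hsqr.ne'
      rw [hW_def]
      push_cast
      field_simp
    rw [e2]
    linear_combination haM
  rw [hmain]
  have hSn : ‖S‖ ≤ T := by
    have h1 : ‖1 / p‖ ≤ T / 2 := by
      rw [norm_div, norm_one, div_le_iff₀ (norm_pos_iff.2 hp0)]
      calc (1 : ℝ) = T / 2 * (2 / T) := by field_simp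
        _ ≤ T / 2 * ‖p‖ := by gcongr
    have hT40 : 40 ≤ T := by
      have h20 := (div_le_iff₀ hT).1 hs
      linarith only [h20, hξ0]
    calc ‖S‖ = ‖(S - 1 / p) + 1 / p‖ := by congr 1; ring
      _ ≤ ‖S - 1 / p‖ + ‖1 / p‖ := norm_add_le _ _
      _ ≤ T := by linarith
  have hlogn := b0_log (ξ := ξ) hT hρnge hρn
  have hΛ3 : |Λ| ≤ 3 * T := by
    have h1 : 0 ≤ Real.log (red h r) := Real.log_nonneg hred1
    have h2 : Real.log (red h r) ≤ 2 * Real.log T := by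
      have h3 : red h r ≤ T ^ 2 := by
        refine (b0_red_le hh hr).trans ?_
        have h4 : (r : ℝ) ≤ T := hrT.trans (by
          calc T ^ (1 - ε) ≤ T ^ (1 : ℝ) :=
                Real.rpow_le_rpow_of_exponent_le hT1 (by linarith)
            _ = T := Real.rpow_one _)
        rw [sq]
        exact mul_le_mul hhT h4 hr0.le hT.le
      have h5 := Real.log_le_log (by linarith) h3
      rw [Real.log_pow] at h5
      exact_mod_cast h5
    have h6 : 0 ≤ Real.log T := Real.log_nonneg hT1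
    have h7 : Real.log T ≤ T := (Real.log_le_sub_one_of_pos hT).trans (by linarith)
    rw [hΛ, abs_le]
    constructor <;> linarith
  have hB : ‖(W : ℂ) * ((S - 1 / p) * Λ - S * (Real.log (2 * Real.pi) +
      Complex.log (T * ρ)))‖ ≤ 17 * (1 + |ξ|) * (T * W) := by
    rw [norm_mul, Complex.norm_real, Real.norm_of_nonneg hW0.le]
    calc W * ‖(S - 1 / p) * Λ - S * (Real.log (2 * Real.pi) + Complex.log (T * ρ))‖
        ≤ W * (1 * (3 * T) + T * (14 * (1 + |ξ|))) := by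
          gcongr
          refine (norm_sub_le _ _).trans ?_
          rw [norm_mul, norm_mul, Complex.norm_real, Real.norm_eq_abs]
          apply add_le_add
          · exact mul_le_mul hsinb hΛ3 (abs_nonneg _) (by norm_num)
          · exact mul_le_mul hSn hlogn (norm_nonneg _) hT.le
      _ ≤ 17 * (1 + |ξ|) * (T * W) := by
          have : 0 ≤ |ξ| * (T * W) := by positivity
          nlinarith
  have hE : ‖(2 * Real.pi / Real.sqrt h : ℂ) * e * (AA q η - M)‖ ≤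
      8192 * C1 * (1 + |ξ|) ^ 4 * (T * W) := by
    have hqη : q * ‖η‖ = 2 * Real.pi * r' * ‖ρ‖ := by rw [hηn]; field_simp
    have e1 : 1 / (q * ‖η‖) ≤ T / r' := by
      rw [hqη, div_le_div_iff₀ (by positivity) hr'0]
      have : 1 ≤ T * ‖ρ‖ := by
        rw [div_le_iff₀ hT] at hρnge; linarith
      calc 1 * (r' : ℝ) ≤ (2 * Real.pi) * r' * 1 := by
            have h20 := mul_le_mul_of_nonneg_right
              (by linarith only [Real.pi_gt_three] : 1 ≤ 2 * Real.pi) hr'0.le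
            linarith only [h20]
        _ ≤ (2 * Real.pi) * r' * (T * ‖ρ‖) := by gcongr
        _ = _ := by ring
    have e2 : (q : ℝ) ^ ε ≤ T / r' := by
      have h1 : (q : ℝ) ≤ T := by
        refine le_trans ?_ hhT
        rw [hqR]
        exact div_le_self hh0.le (by exact_mod_cast hg1)
      have h2 : (q : ℝ) ^ ε ≤ T ^ ε := Real.rpow_le_rpow hq0.le h1 hε.le
      have h3 : (r' : ℝ) ≤ T ^ (1 - ε) := by
        refine le_trans ?_ hrT
        rw [hrR]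
        exact div_le_self hr0.le (by exact_mod_cast hg1)
      rw [le_div_iff₀ hr'0]
      calc (q : ℝ) ^ ε * r' ≤ T ^ ε * T ^ (1 - ε) := by gcongr
        _ = T := by rw [← Real.rpow_add hT]; simp
    have e3 : (‖η‖ / η.re) ^ 4 ≤ 256 * (1 + |ξ|) ^ 4 := by
      calc (‖η‖ / η.re) ^ 4 ≤ (4 * (1 + |ξ|)) ^ 4 := pow_le_pow_left₀ hκ0 hκ 4
        _ = _ := by ring
    have e4 : ‖(2 * Real.pi / Real.sqrt h : ℂ)‖ = 2 * Real.pi / Real.sqrt h := by
      rw [norm_div, norm_mul, Complex.norm_real, Complex.norm_real,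
        Real.norm_of_nonneg Real.pi_pos.le, Real.norm_of_nonneg hsqh.le, Complex.norm_ofNat]
    rw [norm_mul, norm_mul, e4]
    calc 2 * Real.pi / Real.sqrt h * ‖e‖ * ‖AA q η - M‖
        ≤ 2 * 4 / Real.sqrt h * 2 * (C1 * (256 * (1 + |ξ|) ^ 4) * (T / r' + T / r')) := by
          gcongr
          · exact Real.pi_lt_four.le
          · exact hA.trans (by gcongr)
      _ = 8192 * C1 * (1 + |ξ|) ^ 4 * (T * (1 / (Real.sqrt h * r'))) := by field_simp; ring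
      _ = _ := by rw [← hW]
  have hTW : T / (Real.sqrt r * s) = T * W := by rw [hW_def]; ring
  rw [hTW]
  have hx1 : 1 ≤ 1 + |ξ| := by linarith
  have g1 : 1 + |ξ| ≤ (1 + |ξ|) ^ 5 := le_self_pow₀ hx1 (by norm_num)
  have g2 : (1 + |ξ|) ^ 4 ≤ (1 + |ξ|) ^ 5 := pow_le_pow_right₀ hx1 (by norm_num)
  calc _ ≤ 8192 * C1 * (1 + |ξ|) ^ 4 * (T * W) + 17 * (1 + |ξ|) * (T * W) :=
        (norm_add_le _ _).trans (add_le_add hE hB)
    _ ≤ 8192 * C1 * (1 + |ξ|) ^ 5 * (T * W) + 20 * (1 + |ξ|) ^ 5 * (T * W) := by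
        gcongr
        norm_num
    _ = _ := by ring

/-! ### the off-diagonal part -/

lemma b0_HH_diff (q r : ℕ) {z : ℂ} (hz : 0 < z.re) : DifferentiableAt ℂ (HH q r) z := by
  have hre : ∀ x : ℝ, 0 < (2 * Real.pi * Complex.I * (x : ℂ) + z).re := by
    intro x
    have : (2 * Real.pi * Complex.I * (x : ℂ)) = ((2 * Real.pi * x : ℝ) : ℂ) * Complex.I := by
      push_cast; ring
    rw [this, Complex.add_re]
    simpa using hz
  have hS : ∀ x : ℝ, DifferentiableAt ℂ (fun η : ℂ => Sz (2 * Real.pi * Complex.I * (x : ℂ) + η)) z := by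
    intro x
    have h1 := Sz_differentiableAt (hre x)
    exact h1.comp z (by fun_prop)
  have hS' : ∀ u v : ℕ, DifferentiableAt ℂ
      (fun η : ℂ => Sz (2 * Real.pi * Complex.I * ((u : ℂ) / v) + η)) z := by
    intro u v
    have := hS ((u : ℝ) / v)
    push_cast at this
    exact this
  unfold HH AA
  refine DifferentiableAt.fun_sub (hS' r q) ?_
  refine DifferentiableAt.const_mul ?_ _
  exact DifferentiableAt.fun_sum fun u _ => hS' u _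

lemma b0_HH {ε' : ℝ} (hε' : 0 < ε') : ∃ C : ℝ, 0 < C ∧ ∀ T : ℝ, 1 ≤ T → ∀ ξ : ℝ,
    (2 + |ξ|) / T ≤ 1 / 20 → ∀ p ρ : ℂ, p = (2 + Complex.I * ξ) / T →
    ρ = Complex.I * (Complex.exp (-(Complex.I * p)) - 1) →
    ∀ h : ℕ, 0 < h → (h : ℝ) ^ 2 ≤ T → ∀ Y : ℕ, 1 ≤ Y →
    (Y : ℝ) * (4 * Real.pi * (2 + |ξ|) / T) ≤ 1 / 2 →
    ∀ F : ℕ → ℕ → ℂ, (∀ n k, ‖F n k‖ ≤ 1) →
    (∀ n K, ∑ k ∈ Finset.range K, ‖F n (k + 1) - F n k‖ ≤ 1) →
    (∀ k K, ∑ n ∈ Finset.range K, ‖F (n + 1) k - F n k‖ ≤ 1) →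
    ‖∑ x ∈ b0P Y, F x.1 x.2 * HH h (x.1 * x.2) (2 * Real.pi * ρ / h * (x.1 * x.2 : ℕ))‖ ≤
      C * (1 + |ξ|) ^ 2 * (h * T ^ (1 / 2 + ε')) := by
  obtain ⟨ε₃, hε₃⟩ : ∃ x : ℝ, x = ε' / 4 := ⟨_, rfl⟩
  have hε₃0 : 0 < ε₃ := by rw [hε₃]; positivity
  obtain ⟨C1, hC1, hoff⟩ := off_bound hε₃0
  refine ⟨9 * C1 * 16 * (1 + 1 / ε₃), by positivity, ?_⟩
  intro T hT1 ξ hs p ρ hp hρ h hh hhT Y hY hYs F hF1 hF2 hF3
  have hT : 0 < T := by linarith
  have hh0 : (0 : ℝ) < h := by exact_mod_cast hh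
  have hh1 : (1 : ℝ) ≤ h := by exact_mod_cast hh
  have hY1 : (1 : ℝ) ≤ Y := by exact_mod_cast hY
  have hξ0 := abs_nonneg ξ
  obtain ⟨hρre, hρn⟩ := rho_facts hT hs (by rw [hρ, hp] : ρ = _)
  have hρre0 : 0 < ρ.re := lt_of_lt_of_le (by positivity) hρre
  obtain ⟨c, hc⟩ : ∃ c : ℂ, c = 2 * Real.pi * ρ / h := ⟨_, rfl⟩
  have hc2 : c = ((2 * Real.pi / h : ℝ) : ℂ) * ρ := by rw [hc]; push_cast; ring
  have hd0 : 0 < 2 * Real.pi / (h : ℝ) := by positivity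
  have hcre : c.re = 2 * Real.pi / h * ρ.re := by rw [hc2, Complex.re_ofReal_mul]
  have hcn : ‖c‖ = 2 * Real.pi / h * ‖ρ‖ := by
    rw [hc2, norm_mul, Complex.norm_real, Real.norm_of_nonneg hd0.le]
  have hcre0 : 0 < c.re := by rw [hcre]; positivity
  have hκ : ‖c‖ / c.re ≤ 4 * (1 + |ξ|) := by
    rw [hcn, hcre, mul_div_mul_left _ _ hd0.ne', div_le_iff₀ hρre0]
    calc ‖ρ‖ ≤ 2 * (2 + |ξ|) / T := hρn
      _ ≤ 4 * (1 + |ξ|) * (1 / T) := by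
          rw [mul_one_div]
          exact div_le_div_of_nonneg_right (by linarith) hT.le
      _ ≤ 4 * (1 + |ξ|) * ρ.re := by gcongr
  have hκ0 : 0 ≤ ‖c‖ / c.re := by positivity
  have hcY : Y * c.re ≤ 1 / 2 := by
    refine le_trans ?_ hYs
    gcongr
    rw [hcre]
    calc 2 * Real.pi / h * ρ.re ≤ 2 * Real.pi / 1 * (2 * (2 + |ξ|) / T) := by
          gcongr
          exact ((le_abs_self _).trans (Complex.abs_re_le_norm _)).trans hρn
      _ = _ := by ring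
  have key := abel_bound (b := fun r z => ∑ x ∈ r.divisorsAntidiagonal, F x.1 x.2 * HH h r z)
    (C := C1) (ε := ε₃) (q := h) (c := c) (Y := Y)
    (fun r z hz => DifferentiableAt.fun_sum fun x _ =>
      DifferentiableAt.const_mul (b0_HH_diff h r hz) _) hC1.le hε₃0.le hh0
    (fun m hm w hw hw1 => hoff h hh F hF1 hF2 hF3 m hm w hw hw1) hcre0 hY hcY
  have e1 : ∑ x ∈ b0P Y, F x.1 x.2 * HH h (x.1 * x.2) (2 * Real.pi * ρ / h * (x.1 * x.2 : ℕ)) =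
      ∑ r ∈ Finset.Icc 1 Y, ∑ x ∈ r.divisorsAntidiagonal, F x.1 x.2 * HH h r (c * r) := by
    rw [b0_sum_r]
    refine Finset.sum_congr rfl fun r _ => Finset.sum_congr rfl fun x hx => ?_
    rw [Nat.mem_divisorsAntidiagonal] at hx
    rw [hx.1, hc]
  rw [e1]
  refine key.trans ?_
  have hcge : 2 / (h * T) ≤ c.re := by
    rw [hcre]
    calc 2 / (h * T) = 2 * 1 / h * (1 / T) := by field_simp
      _ ≤ 2 * Real.pi / h * ρ.re := by
          gcongr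
          linarith [Real.pi_gt_three]
  have g1 : 2 * h / c.re ≤ (h * T ^ (1 / 2 : ℝ)) ^ 2 := by
    have e2 : (h * T ^ (1 / 2 : ℝ)) ^ 2 = h ^ 2 * T := by
      rw [mul_pow, ← Real.sqrt_eq_rpow, Real.sq_sqrt hT.le]
    rw [e2, div_le_iff₀ hcre0]
    calc 2 * (h : ℝ) = h ^ 2 * T * (2 / (h * T)) := by field_simp
      _ ≤ h ^ 2 * T * c.re := by gcongr
  have g2 : (2 * h / c.re) ^ (1 / 2 : ℝ) ≤ h * T ^ (1 / 2 : ℝ) := by
    rw [← Real.sqrt_eq_rpow]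
    exact Real.sqrt_le_left (by positivity) |>.2 g1
  have g3 : 2 * (h : ℝ) ^ 2 / c.re ≤ T ^ 3 := by
    rw [div_le_iff₀ hcre0]
    have h3 : (h : ℝ) ≤ T := by nlinarith
    calc 2 * (h : ℝ) ^ 2 = h ^ 2 * h * T * (2 / (h * T)) := by field_simp
      _ ≤ T * T * T * c.re := by gcongr
      _ = _ := by ring
  have g4 : (2 * (h : ℝ) ^ 2 / c.re) ^ ε₃ ≤ T ^ (3 * ε₃) := by
    rw [Real.rpow_mul hT.le]
    refine Real.rpow_le_rpow (by positivity) ?_ hε₃0.le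
    exact_mod_cast g3
  have hYT : (Y : ℝ) ≤ T := by
    have h1 : (Y : ℝ) * (4 * 1 * (1 + 0) / T) ≤ 1 / 2 := by
      refine le_trans ?_ hYs
      gcongr
      · linarith [Real.pi_gt_three]
      · norm_num
    have h2 : (Y : ℝ) * (4 * 1 * (1 + 0) / T) = 4 * Y / T := by ring
    rw [h2, div_le_iff₀ hT] at h1
    linarith
  have g5 : 1 + Real.log Y ≤ (1 + 1 / ε₃) * T ^ ε₃ := by
    have h1 : Real.log Y ≤ Real.log T := Real.log_le_log (by linarith) hYT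
    have h2 := Real.log_le_rpow_div hT.le hε₃0
    have h3 : 1 ≤ T ^ ε₃ := Real.one_le_rpow hT1 hε₃0.le
    calc 1 + Real.log Y ≤ T ^ ε₃ + T ^ ε₃ / ε₃ := by linarith
      _ = _ := by ring
  have hlog0 : 0 ≤ 1 + Real.log Y := by
    have := Real.log_nonneg hY1
    linarith
  calc 9 * C1 * (‖c‖ / c.re) ^ 2 * (2 * h / c.re) ^ (1 / 2 : ℝ) *
        (2 * (h : ℝ) ^ 2 / c.re) ^ ε₃ * (1 + Real.log Y)
      ≤ 9 * C1 * (4 * (1 + |ξ|)) ^ 2 * (h * T ^ (1 / 2 : ℝ)) * T ^ (3 * ε₃) *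
        ((1 + 1 / ε₃) * T ^ ε₃) := by gcongr
    _ = 9 * C1 * 16 * (1 + 1 / ε₃) * (1 + |ξ|) ^ 2 *
        (h * (T ^ (1 / 2 : ℝ) * T ^ (3 * ε₃) * T ^ ε₃)) := by ring
    _ = _ := by
        have e9 : 1 / 2 + 3 * ε₃ + ε₃ = 1 / 2 + ε' := by rw [hε₃]; ring
        rw [← Real.rpow_add hT, ← Real.rpow_add hT, e9]

/-! ### assembly -/

lemma b0_inv_pv {T : ℝ} (hT : 0 < T) (v : ℝ) : ‖1 / pv T v‖ ≤ T / 2 := by
  have hpg : 2 / T ≤ ‖pv T v‖ := by rw [e8_pv]; exact pp_norm_ge hT _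
  have h0 : 0 < ‖pv T v‖ := lt_of_lt_of_le (by positivity) hpg
  rw [norm_div, norm_one, div_le_iff₀ h0]
  calc (1 : ℝ) = T / 2 * (2 / T) := by field_simp
    _ ≤ T / 2 * ‖pv T v‖ := by gcongr

lemma b0_pv_ne {T : ℝ} (hT : 0 < T) (v : ℝ) : pv T v ≠ 0 := by
  have hpg : 2 / T ≤ ‖pv T v‖ := by rw [e8_pv]; exact pp_norm_ge hT _
  exact norm_pos_iff.1 (lt_of_lt_of_le (by positivity) hpg)

lemma b0_main_integrable {G : ℝ → ℂ} (hGi : Integrable G) (c : ℂ) {T : ℝ} (hT : 0 < T) :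
    Integrable fun v : ℝ => G v * (c * (1 / pv T v)) := by
  have h3 : (fun v : ℝ => G v * (c * (1 / pv T v))) = fun v : ℝ => (c * (1 / pv T v)) * G v := by
    ext v; ring
  rw [h3]
  refine hGi.bdd_mul (c := ‖c‖ * (T / 2)) ?_ (ae_of_all _ fun v => ?_)
  · refine Continuous.aestronglyMeasurable ?_
    refine continuous_const.mul (Continuous.div continuous_const ?_ fun v => b0_pv_ne hT v)
    unfold pv
    fun_prop
  · rw [norm_mul]
    exact mul_le_mul_of_nonneg_left (b0_inv_pv hT v) (norm_nonneg _)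

lemma b0_main_eq {w : ℝ → ℝ} (hw : Wgt w) {G : ℝ → ℂ} (hG : GG w G) {T : ℝ}
    (h r : ℕ) : ((M2main w T h r : ℝ) : ℂ) = ∫ v : ℝ, G v *
      ((((Real.log T - Real.log (red h r)) / Real.sqrt (red h r) : ℝ) : ℂ) * (1 / pv T v)) := by
  have h3 : ∀ v : ℝ, G v * ((((Real.log T - Real.log (red h r)) / Real.sqrt (red h r) : ℝ) : ℂ) *
      (1 / pv T v)) = ((((Real.log T - Real.log (red h r)) / Real.sqrt (red h r) : ℝ) : ℂ) * T) *
      (G v * (1 / (2 + Complex.I * (-(2 * Real.pi * v) : ℝ)))) := fun v => by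
    rw [e8_pv, one_div_div]
    ring
  simp_rw [h3]
  rw [integral_const_mul, Pool.Agent.EvenMoment.Tw.fubini2 hw hG.int hG.eq, M2main]
  push_cast
  ring

lemma b0_Mc {T : ℝ} (hT : 1 ≤ T) {h r : ℕ} (hh : 0 < h) (hr : 0 < r) (hhT : (h : ℝ) ≤ T)
    (hrT : (r : ℝ) ≤ T) :
    |(Real.log T - Real.log (red h r)) / Real.sqrt (red h r)| ≤ 3 * T := by
  obtain ⟨hred1, _⟩ := b0_red hh hr
  have hT0 : 0 < T := by linarith
  have h1 : 0 ≤ Real.log (red h r) := Real.log_nonneg hred1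
  have h2 : Real.log (red h r) ≤ 2 * Real.log T := by
    have h3 : red h r ≤ T ^ 2 := by
      refine (b0_red_le hh hr).trans ?_
      rw [sq]
      exact mul_le_mul hhT hrT (by positivity) hT0.le
    have h5 := Real.log_le_log (by linarith) h3
    rw [Real.log_pow] at h5
    exact_mod_cast h5
  have h6 : 0 ≤ Real.log T := Real.log_nonneg hT
  have h7 : Real.log T ≤ T := (Real.log_le_sub_one_of_pos hT0).trans (by linarith)
  have h8 : 1 ≤ Real.sqrt (red h r) := by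
    rw [Real.one_le_sqrt]; exact hred1
  rw [abs_div, abs_of_nonneg (Real.sqrt_nonneg _)]
  refine (div_le_self (abs_nonneg _) h8).trans ?_
  rw [abs_le]
  constructor <;> linarith

lemma b0_mom {w : ℝ → ℝ} {G : ℝ → ℂ} (hG : GG w G) (B : ℕ) :
    Integrable fun v : ℝ => (1 + |-(2 * Real.pi * v)|) ^ B * ‖G v‖ := by
  have h1 : ∀ v : ℝ, (1 + |-(2 * Real.pi * v)|) ^ B * ‖G v‖ =
      ∑ m ∈ Finset.range (B + 1), (2 * Real.pi) ^ m * (B.choose m : ℝ) * (|v| ^ m * ‖G v‖) := by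
    intro v
    rw [add_comm, add_pow, Finset.sum_mul]
    refine Finset.sum_congr rfl fun m _ => ?_
    rw [abs_neg, abs_mul, abs_of_pos Real.two_pi_pos, mul_pow, one_pow]
    ring
  simp_rw [h1]
  exact integrable_finsetSum _ fun m _ => (hG.mom m).const_mul _

/-- the pointwise bound for the sum -/
lemma b0_point {ε ε' : ℝ} (hε : 0 < ε) (hε' : 0 < ε') : ∃ C : ℝ, 0 < C ∧ ∀ T : ℝ, 1 ≤ T →
    ∀ v : ℝ, (2 + |-(2 * Real.pi * v)|) / T ≤ 1 / 20 →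
    ∀ h : ℕ, 0 < h → (h : ℝ) ^ 2 ≤ T → ∀ Y : ℕ, 1 ≤ Y → (Y : ℝ) ≤ T ^ (1 - ε) →
    (Y : ℝ) * (4 * Real.pi * (2 + |-(2 * Real.pi * v)|) / T) ≤ 1 / 2 →
    ∀ (f : ℕ → ℕ → ℂ) (A : ℝ), 0 < A → BV f A →
    ‖∑ x ∈ b0P Y, f x.1 x.2 / (Real.sqrt (x.1 * x.2 : ℕ) : ℂ) * (2 * Real.pi *
        Real.sqrt (((x.1 * x.2 : ℕ) : ℝ) / h) * Complex.exp (-(Complex.I * pv T v / 2)) *
        Sz (zv T v h (x.1 * x.2)) -
        (((Real.log T - Real.log (red h (x.1 * x.2))) / Real.sqrt (red h (x.1 * x.2)) : ℝ) : ℂ) *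
        (1 / pv T v))‖ ≤
      C * (1 + |-(2 * Real.pi * v)|) ^ 5 * (T * (∑ x ∈ b0P Y, ‖f x.1 x.2‖ /
        (Real.sqrt (x.1 * x.2 : ℕ) * Real.sqrt (red h (x.1 * x.2)))) +
        A * Real.sqrt h * T ^ (1 / 2 + ε')) := by
  obtain ⟨C2, hC2, hAA⟩ := b0_AA hε
  obtain ⟨C3, hC3, hHH⟩ := b0_HH hε'
  refine ⟨C2 + 16 * C3, by positivity, ?_⟩
  intro T hT1 v hs h hh hhT Y hY hYT hYs f A hA hf
  have hT0 : 0 < T := by linarith
  have hh0 : (0 : ℝ) < h := by exact_mod_cast hh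
  have hh1 : (1 : ℝ) ≤ h := by exact_mod_cast hh
  have hhT1 : (h : ℝ) ≤ T := by nlinarith
  have hsqh : 0 < Real.sqrt h := Real.sqrt_pos.2 hh0
  obtain ⟨ξ, hξ⟩ : ∃ ξ : ℝ, ξ = -(2 * Real.pi * v) := ⟨_, rfl⟩
  obtain ⟨p, hp⟩ : ∃ p : ℂ, p = pv T v := ⟨_, rfl⟩
  have hp' : p = (2 + Complex.I * ξ) / T := by rw [hp, e8_pv, hξ]
  obtain ⟨ρ, hρ⟩ : ∃ ρ : ℂ, ρ = Complex.I * (Complex.exp (-(Complex.I * p)) - 1) := ⟨_, rfl⟩
  rw [← hξ] at hs hYs
  rw [← hξ]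
  have hξ0 := abs_nonneg ξ
  have hzv : ∀ r : ℕ, zv T v h r = 2 * Real.pi * Complex.I * ((r : ℂ) / h) +
      2 * Real.pi * ρ / h * r := by
    intro r
    rw [zv, ← hp, hρ]
    ring
  obtain ⟨e, he⟩ : ∃ e : ℂ, e = Complex.exp (-(Complex.I * p / 2)) := ⟨_, rfl⟩
  have hen : ‖e‖ ≤ 2 := by rw [he]; exact e8_exp_norm hT0 hs hp'
  have hsum : ∑ x ∈ b0P Y, f x.1 x.2 / (Real.sqrt (x.1 * x.2 : ℕ) : ℂ) * (2 * Real.pi *
        Real.sqrt (((x.1 * x.2 : ℕ) : ℝ) / h) * Complex.exp (-(Complex.I * pv T v / 2)) *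
        Sz (zv T v h (x.1 * x.2)) -
        (((Real.log T - Real.log (red h (x.1 * x.2))) / Real.sqrt (red h (x.1 * x.2)) : ℝ) : ℂ) *
        (1 / pv T v)) =
      (2 * Real.pi / Real.sqrt h : ℂ) * e * A * (∑ x ∈ b0P Y, (f x.1 x.2 / A) *
        HH h (x.1 * x.2) (2 * Real.pi * ρ / h * (x.1 * x.2 : ℕ))) +
      ∑ x ∈ b0P Y, f x.1 x.2 * ((2 * Real.pi / Real.sqrt h : ℂ) * e *
        AA (h / Nat.gcd (x.1 * x.2) h) (2 * Real.pi * ρ / h * (x.1 * x.2 : ℕ)) -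
        (((Real.log T - Real.log (red h (x.1 * x.2))) / Real.sqrt (red h (x.1 * x.2)) : ℝ) : ℂ) /
          Real.sqrt (x.1 * x.2 : ℕ) * (1 / p)) := by
    rw [Finset.mul_sum, ← Finset.sum_add_distrib]
    refine Finset.sum_congr rfl fun x hx => ?_
    rw [b0_mem] at hx
    obtain ⟨r, hr⟩ : ∃ r : ℕ, r = x.1 * x.2 := ⟨_, rfl⟩
    rw [← hr] at hx ⊢
    have hr1 : 0 < r := by rw [hr]; exact Nat.mul_pos hx.1 hx.2.1
    have hr0 : (0 : ℝ) < r := by exact_mod_cast hr1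
    have hsq : ((Real.sqrt ((r : ℝ) / h) : ℝ) : ℂ) = Real.sqrt r / Real.sqrt h := by
      rw [Real.sqrt_div hr0.le]; push_cast; rfl
    have hrC : ((Real.sqrt r : ℝ) : ℂ) ≠ 0 := by
      exact_mod_cast (Real.sqrt_pos.2 hr0).ne'
    have hhC : ((Real.sqrt h : ℝ) : ℂ) ≠ 0 := by exact_mod_cast hsqh.ne'
    have hAC : (A : ℂ) ≠ 0 := by exact_mod_cast hA.ne'
    obtain ⟨a, ha⟩ : ∃ a : ℂ, a = AA (h / Nat.gcd r h) (2 * Real.pi * ρ / h * r) := ⟨_, rfl⟩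
    have hHHr : HH h r (2 * Real.pi * ρ / h * r) = Sz (zv T v h r) - a := by
      rw [HH, ← hzv r, ha]
    rw [hHHr, ← ha, hsq, ← hp, ← he]
    field_simp
    ring
  rw [hsum]
  have hb := hHH T hT1 ξ hs p ρ hp' hρ h hh hhT Y hY hYs (fun n k => f n k / A)
    (fun n k => ?_) (fun n K => ?_) (fun k K => ?_)
  rotate_left
  · rw [norm_div, Complex.norm_real, Real.norm_of_nonneg hA.le, div_le_one hA]
    exact hf.b0 n k
  · have h1 : ∀ k ∈ Finset.range K, ‖f n (k + 1) / A - f n k / A‖ =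
        ‖f n (k + 1) - f n k‖ / A := by
      intro k _
      rw [← sub_div, norm_div, Complex.norm_real, Real.norm_of_nonneg hA.le]
    rw [Finset.sum_congr rfl h1, ← Finset.sum_div, div_le_one hA]
    exact hf.bk n K
  · have h1 : ∀ n ∈ Finset.range K, ‖f (n + 1) k / A - f n k / A‖ =
        ‖f (n + 1) k - f n k‖ / A := by
      intro n _
      rw [← sub_div, norm_div, Complex.norm_real, Real.norm_of_nonneg hA.le]
    rw [Finset.sum_congr rfl h1, ← Finset.sum_div, div_le_one hA]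
    exact hf.bn k K
  have e4 : ‖(2 * Real.pi / Real.sqrt h : ℂ)‖ = 2 * Real.pi / Real.sqrt h := by
    rw [norm_div, norm_mul, Complex.norm_real, Complex.norm_real,
      Real.norm_of_nonneg Real.pi_pos.le, Real.norm_of_nonneg hsqh.le, Complex.norm_ofNat]
  have hx1 : 1 ≤ 1 + |ξ| := by linarith
  have part1 : ‖(2 * Real.pi / Real.sqrt h : ℂ) * e * A * (∑ x ∈ b0P Y, (f x.1 x.2 / A) *
        HH h (x.1 * x.2) (2 * Real.pi * ρ / h * (x.1 * x.2 : ℕ)))‖ ≤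
      16 * C3 * (1 + |ξ|) ^ 5 * (A * Real.sqrt h * T ^ (1 / 2 + ε')) := by
    rw [norm_mul, norm_mul, norm_mul, e4, Complex.norm_real, Real.norm_of_nonneg hA.le]
    have hsqq : Real.sqrt h * Real.sqrt h = h := Real.mul_self_sqrt hh0.le
    calc 2 * Real.pi / Real.sqrt h * ‖e‖ * A * ‖∑ x ∈ b0P Y, (f x.1 x.2 / A) *
        HH h (x.1 * x.2) (2 * Real.pi * ρ / h * (x.1 * x.2 : ℕ))‖
        ≤ 2 * 4 / Real.sqrt h * 2 * A * (C3 * (1 + |ξ|) ^ 5 * (h * T ^ (1 / 2 + ε'))) := by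
          gcongr
          · exact Real.pi_lt_four.le
          · refine hb.trans ?_
            have h25 : (1 + |ξ|) ^ 2 ≤ (1 + |ξ|) ^ 5 := pow_le_pow_right₀ hx1 (by norm_num)
            gcongr
      _ = 16 * C3 * (1 + |ξ|) ^ 5 * (A * (h / Real.sqrt h) * T ^ (1 / 2 + ε')) := by ring
      _ = _ := by
          congr 3
          rw [div_eq_iff hsqh.ne', hsqq]
  have part2 : ‖∑ x ∈ b0P Y, f x.1 x.2 * ((2 * Real.pi / Real.sqrt h : ℂ) * e *
        AA (h / Nat.gcd (x.1 * x.2) h) (2 * Real.pi * ρ / h * (x.1 * x.2 : ℕ)) -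
        (((Real.log T - Real.log (red h (x.1 * x.2))) / Real.sqrt (red h (x.1 * x.2)) : ℝ) : ℂ) /
          Real.sqrt (x.1 * x.2 : ℕ) * (1 / p))‖ ≤
      C2 * (1 + |ξ|) ^ 5 * (T * ∑ x ∈ b0P Y, ‖f x.1 x.2‖ /
        (Real.sqrt (x.1 * x.2 : ℕ) * Real.sqrt (red h (x.1 * x.2)))) := by
    refine (norm_sum_le _ _).trans ?_
    rw [Finset.mul_sum, Finset.mul_sum]
    refine Finset.sum_le_sum fun x hx => ?_
    rw [b0_mem] at hx
    obtain ⟨r, hr⟩ : ∃ r : ℕ, r = x.1 * x.2 := ⟨_, rfl⟩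
    rw [← hr] at hx ⊢
    have hr1 : 0 < r := by rw [hr]; exact Nat.mul_pos hx.1 hx.2.1
    have hrT : (r : ℝ) ≤ T ^ (1 - ε) := le_trans (by exact_mod_cast hx.2.2) hYT
    have h1 := hAA T hT1 ξ hs p ρ hp' hρ h r hh hr1 hhT1 hrT
    rw [← he] at h1
    rw [norm_mul]
    calc _ ≤ ‖f x.1 x.2‖ * (C2 * (1 + |ξ|) ^ 5 * (T / (Real.sqrt r * Real.sqrt (red h r)))) :=
          mul_le_mul_of_nonneg_left h1 (norm_nonneg _)
      _ = _ := by ring
  refine (norm_add_le _ _).trans ((add_le_add part1 part2).trans ?_)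
  have hS0 : 0 ≤ ∑ x ∈ b0P Y, ‖f x.1 x.2‖ /
        (Real.sqrt (x.1 * x.2 : ℕ) * Real.sqrt (red h (x.1 * x.2))) :=
    Finset.sum_nonneg fun _ _ => by positivity
  have g1 : 0 ≤ 16 * C3 * (1 + |ξ|) ^ 5 * (T * ∑ x ∈ b0P Y, ‖f x.1 x.2‖ /
        (Real.sqrt (x.1 * x.2 : ℕ) * Real.sqrt (red h (x.1 * x.2)))) := by positivity
  have g2 : 0 ≤ C2 * (1 + |ξ|) ^ 5 * (A * Real.sqrt h * T ^ (1 / 2 + ε')) := by positivity
  linarith

lemma b0_logsq {ε' : ℝ} (hε' : 0 < ε') {T : ℝ} (hT : 1 ≤ T) {Y : ℕ} (hY : 1 ≤ Y)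
    (hYT : (Y : ℝ) ≤ T) : (1 + Real.log Y) ^ 2 ≤ (1 + 2 / ε') ^ 2 * T ^ ε' := by
  have hT0 : 0 < T := by linarith
  have hY1 : (1 : ℝ) ≤ Y := by exact_mod_cast hY
  have g5 : 1 + Real.log Y ≤ (1 + 2 / ε') * T ^ (ε' / 2) := by
    have h1 : Real.log Y ≤ Real.log T := Real.log_le_log (by linarith) hYT
    have h2 := Real.log_le_rpow_div hT0.le (half_pos hε')
    have h3 : 1 ≤ T ^ (ε' / 2) := Real.one_le_rpow hT (by positivity)
    calc 1 + Real.log Y ≤ T ^ (ε' / 2) + T ^ (ε' / 2) / (ε' / 2) := by linarith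
      _ = _ := by field_simp
  have h0 : 0 ≤ 1 + Real.log Y := by
    have := Real.log_nonneg hY1
    linarith
  calc (1 + Real.log Y) ^ 2 ≤ ((1 + 2 / ε') * T ^ (ε' / 2)) ^ 2 := pow_le_pow_left₀ h0 g5 2
    _ = (1 + 2 / ε') ^ 2 * T ^ ε' := by
        rw [mul_pow, ← Real.rpow_natCast (T ^ (ε' / 2)), ← Real.rpow_mul hT0.le]
        congr 2
        push_cast
        ring

/-- sums of error terms -/
lemma b0_err {ε' : ℝ} (hε' : 0 < ε') {T : ℝ} (hT : 1 ≤ T) {Y : ℕ} (hY : 1 ≤ Y)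
    (hYT : (Y : ℝ) ≤ T) {A : ℝ} (hA : 0 ≤ A) (f : ℕ → ℕ → ℂ) (hf : ∀ n k, ‖f n k‖ ≤ A)
    (X : ℕ → ℂ) {D : ℝ} (hD : 0 ≤ D) (hX : ∀ r : ℕ, 0 < r → r ≤ Y → ‖X r‖ ≤ D / Real.sqrt r) :
    ‖∑ x ∈ b0P Y, f x.1 x.2 / (Real.sqrt (x.1 * x.2 : ℕ) : ℂ) * X (x.1 * x.2)‖ ≤
      A * D * ((1 + 2 / ε') ^ 2 * T ^ ε') := by
  refine (norm_sum_le _ _).trans ?_
  calc ∑ x ∈ b0P Y, ‖f x.1 x.2 / (Real.sqrt (x.1 * x.2 : ℕ) : ℂ) * X (x.1 * x.2)‖
      ≤ ∑ x ∈ b0P Y, A * D * (1 / ((x.1 : ℝ) * x.2)) := by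
        refine Finset.sum_le_sum fun x hx => ?_
        rw [b0_mem] at hx
        have h1 : 0 < x.1 * x.2 := Nat.mul_pos hx.1 hx.2.1
        have h0 : (0 : ℝ) < (x.1 * x.2 : ℕ) := by exact_mod_cast h1
        have h2 := hX _ h1 hx.2.2
        have h3 : 0 < Real.sqrt (x.1 * x.2 : ℕ) := Real.sqrt_pos.2 h0
        rw [norm_mul, norm_div, Complex.norm_real, Real.norm_of_nonneg h3.le]
        calc ‖f x.1 x.2‖ / Real.sqrt (x.1 * x.2 : ℕ) * ‖X (x.1 * x.2)‖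
            ≤ A / Real.sqrt (x.1 * x.2 : ℕ) * (D / Real.sqrt (x.1 * x.2 : ℕ)) := by
              gcongr
              exact hf _ _
          _ = A * D * (1 / (Real.sqrt (x.1 * x.2 : ℕ) * Real.sqrt (x.1 * x.2 : ℕ))) := by
              field_simp
          _ = A * D * (1 / ((x.1 : ℝ) * x.2)) := by
              rw [Real.mul_self_sqrt h0.le]; push_cast; rfl
    _ = A * D * ∑ x ∈ b0P Y, 1 / ((x.1 : ℝ) * x.2) := by rw [Finset.mul_sum]
    _ ≤ A * D * ((1 + 2 / ε') ^ 2 * T ^ ε') := by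
        gcongr
        exact b0_harm.trans (b0_logsq hε' hT hY hYT)

/-- B0: main result of this part -/
theorem T2ext {w : ℝ → ℝ} (hw : Wgt w) {ε ε' : ℝ} (hε : 0 < ε) (hε1 : ε < 1) (hε' : 0 < ε') :
    ∃ C T₀ : ℝ, 0 < C ∧ 2 ≤ T₀ ∧ ∀ T : ℝ, T₀ ≤ T → ∀ h : ℕ, 0 < h → (h : ℝ) ^ 2 ≤ T →
    ∀ (f : ℕ → ℕ → ℂ) (A : ℝ), 0 ≤ A → BV f A →
    (∀ n k : ℕ, T ^ (1 - ε) < (n : ℝ) * k → f n k = 0) →
    ‖∑ n ∈ NN (Real.log T), ∑ k ∈ NN (Real.log T), f n k / (Real.sqrt (n * k) : ℂ) *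
        (M2 w T h (n * k) - (M2main w T h (n * k) : ℂ))‖ ≤
      C * (T * (∑ n ∈ NN (Real.log T), ∑ k ∈ NN (Real.log T),
        ‖f n k‖ / Real.sqrt (n * k) / Real.sqrt (red h (n * k))) +
        A * Real.sqrt h * T ^ (1 / 2 + ε')) := by
  obtain ⟨G, hG⟩ := exists_GG hw
  obtain ⟨C1, T1, hC1, hT1, hM2⟩ := M2_exact hw hG (ε := ε / 2) (by positivity) (by linarith)
  obtain ⟨C2, hC2, hP⟩ := b0_point hε hε'
  obtain ⟨n, hn⟩ := exists_nat_ge (4 / ε)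
  have hn' : 2 ≤ ε / 2 * n := by
    rw [div_le_iff₀ hε] at hn
    linarith
  obtain ⟨E5, hE5⟩ : ∃ E : ℝ, E = ∫ v : ℝ, (1 + |-(2 * Real.pi * v)|) ^ 5 * ‖G v‖ := ⟨_, rfl⟩
  obtain ⟨E2, hE2⟩ : ∃ E : ℝ, E = ∫ v : ℝ, |v| ^ n * ‖G v‖ := ⟨_, rfl⟩
  have hE50 : 0 ≤ E5 := by rw [hE5]; positivity
  have hE20 : 0 ≤ E2 := by rw [hE2]; positivity
  obtain ⟨K, hK⟩ : ∃ K : ℝ, K = (1 + 2 / ε') ^ 2 := ⟨_, rfl⟩
  have hK0 : 0 < K := by rw [hK]; positivity
  refine ⟨C2 * E5 + 2 * C1 * K + 2 * E2 * K, max T1 ((240 : ℝ) ^ (2 / ε)), by positivity,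
    le_max_of_le_left hT1, ?_⟩
  intro T hT h hh hhT f A hA0 hf hfs
  have hTT1 : T1 ≤ T := (le_max_left _ _).trans hT
  have hT2 : 2 ≤ T := hT1.trans hTT1
  have hT0 : 0 < T := by linarith
  have hT1' : 1 ≤ T := by linarith
  have hh0 : (0 : ℝ) < h := by exact_mod_cast hh
  have hh1 : (1 : ℝ) ≤ h := by exact_mod_cast hh
  have hhT1 : (h : ℝ) ≤ T := by nlinarith
  have hsqh : 0 < Real.sqrt h := Real.sqrt_pos.2 hh0
  have hsqh1 : 1 ≤ Real.sqrt h := by rw [Real.one_le_sqrt]; exact hh1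
  -- the range of the sum
  obtain ⟨Y, hYdef⟩ : ∃ Y : ℕ, Y = ⌊T ^ (1 - ε)⌋₊ := ⟨_, rfl⟩
  have hYT' : (Y : ℝ) ≤ T ^ (1 - ε) := by rw [hYdef]; exact Nat.floor_le (by positivity)
  have hTe : T ^ (1 - ε) ≤ T := by
    calc T ^ (1 - ε) ≤ T ^ (1 : ℝ) := Real.rpow_le_rpow_of_exponent_le hT1' (by linarith)
      _ = T := Real.rpow_one _
  have hYT : (Y : ℝ) ≤ T := hYT'.trans hTe
  have hY : 1 ≤ Y := by
    rw [hYdef]
    exact Nat.one_le_floor_iff _ |>.2 (Real.one_le_rpow hT1' (by linarith))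
  have hNN : NN (Real.log T) = Finset.Icc 1 ⌊T⌋₊ := by
    unfold NN
    rw [Real.exp_log hT0]
  have hYN : Y ≤ ⌊T⌋₊ := by rw [hYdef]; exact Nat.floor_le_floor hTe
  have hvan : ∀ n k : ℕ, Y < n * k → f n k = 0 := by
    intro n k hnk
    apply hfs
    rw [hYdef] at hnk
    have := Nat.lt_of_floor_lt hnk
    push_cast at this
    exact this
  obtain ⟨S, hS⟩ : ∃ S : ℝ, S = ∑ x ∈ b0P Y, ‖f x.1 x.2‖ /
    (Real.sqrt (x.1 * x.2 : ℕ) * Real.sqrt (red h (x.1 * x.2))) := ⟨_, rfl⟩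
  have hS0 : 0 ≤ S := by rw [hS]; exact Finset.sum_nonneg fun _ _ => by positivity
  have hSR : (∑ n ∈ NN (Real.log T), ∑ k ∈ NN (Real.log T),
        ‖f n k‖ / Real.sqrt (n * k) / Real.sqrt (red h (n * k))) = S := by
    rw [hNN, b0_sum_NN hYN _ (fun n k hnk => by rw [hvan n k hnk]; simp), hS]
    refine Finset.sum_congr rfl fun x _ => ?_
    rw [div_div]
    push_cast
    rfl
  have hSL : (∑ n ∈ NN (Real.log T), ∑ k ∈ NN (Real.log T), f n k / (Real.sqrt (n * k) : ℂ) *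
        (M2 w T h (n * k) - (M2main w T h (n * k) : ℂ))) = ∑ x ∈ b0P Y,
        f x.1 x.2 / (Real.sqrt (x.1 * x.2 : ℕ) : ℂ) *
          (M2 w T h (x.1 * x.2) - (M2main w T h (x.1 * x.2) : ℂ)) := by
    rw [hNN, b0_sum_NN hYN _ (fun n k hnk => by rw [hvan n k hnk]; simp)]
    refine Finset.sum_congr rfl fun x _ => ?_
    push_cast
    rfl
  rw [hSR, hSL]
  rcases hA0.eq_or_lt with hAz | hA
  · have hz : ∀ n k, f n k = 0 := fun n k => by
      have := hf.b0 n k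
      rw [← hAz] at this
      exact norm_le_zero_iff.1 this
    simp only [hz]
    simp
    positivity
  -- the cut of the frequency
  obtain ⟨V, hV⟩ : ∃ V : ℝ, V = T ^ (ε / 2) := ⟨_, rfl⟩
  have hV0 : 0 < V := by rw [hV]; positivity
  have hV1 : 1 ≤ V := by rw [hV]; exact Real.one_le_rpow hT1' (by positivity)
  have hV240 : 240 ≤ V := by
    have h2 := Real.rpow_le_rpow (by positivity) ((le_max_right _ _).trans hT)
      (show 0 ≤ ε / 2 by positivity)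
    rw [← Real.rpow_mul (by norm_num)] at h2
    have h3 : 2 / ε * (ε / 2) = 1 := by field_simp
    rw [h3, Real.rpow_one] at h2
    rw [hV]
    exact h2
  have hvs : ∀ v : ℝ, v ∈ Set.Icc (-V) V → 2 + |-(2 * Real.pi * v)| ≤ 9 * V := by
    intro v hv
    have hv' : |v| ≤ V := abs_le.2 hv
    rw [abs_neg, abs_mul, abs_of_pos Real.two_pi_pos]
    have : 2 * Real.pi * |v| ≤ 2 * 3.5 * V := by
      gcongr
      linarith [Real.pi_lt_d2]
    linarith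
  have hTV : T ^ (1 - ε) * V * V = T := by
    rw [hV, mul_assoc, ← Real.rpow_add hT0, ← Real.rpow_add hT0]
    have : 1 - ε + (ε / 2 + ε / 2) = 1 := by ring
    rw [this, Real.rpow_one]
  have hVT : 9 * V / T ≤ 1 / 20 := by
    have hge : 1 ≤ T ^ (1 - ε) := Real.one_le_rpow hT1' (by linarith)
    have h9 : 1 * V * 240 ≤ T ^ (1 - ε) * V * V := by gcongr
    rw [div_le_iff₀ hT0, ← hTV]
    linarith
  have hsm : ∀ v : ℝ, v ∈ Set.Icc (-V) V → (2 + |-(2 * Real.pi * v)|) / T ≤ 1 / 20 := by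
    intro v hv
    refine le_trans ?_ hVT
    gcongr
    exact hvs v hv
  have hsm2 : ∀ v : ℝ, v ∈ Set.Icc (-V) V →
      (Y : ℝ) * (4 * Real.pi * (2 + |-(2 * Real.pi * v)|) / T) ≤ 1 / 2 := by
    intro v hv
    calc (Y : ℝ) * (4 * Real.pi * (2 + |-(2 * Real.pi * v)|) / T)
        ≤ T ^ (1 - ε) * (4 * 3.15 * (9 * V) / T) := by
          gcongr
          · exact Real.pi_lt_d2.le
          · exact hvs v hv
      _ = 113.4 * (T ^ (1 - ε) * V) / T := by ring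
      _ ≤ 1 / 2 := by
          have h9 : T ^ (1 - ε) * V * 240 ≤ T ^ (1 - ε) * V * V := by gcongr
          have h10 : 0 < T ^ (1 - ε) * V := by positivity
          have h11 : T ^ (1 - ε) * V * 240 ≤ T := h9.trans hTV.le
          rw [div_le_iff₀ hT0]
          linarith
  -- notation
  obtain ⟨Mc, hMc⟩ : ∃ Mc : ℕ → ℂ, Mc = fun (r : ℕ) => (((Real.log T - Real.log (red h r)) /
    Real.sqrt (red h r) : ℝ) : ℂ) := ⟨_, rfl⟩
  obtain ⟨Jr, hJr⟩ : ∃ Jr : ℕ → ℝ → ℂ, Jr = fun (r : ℕ) (v : ℝ) => 2 * Real.pi *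
    Real.sqrt ((r : ℝ) / h) * Complex.exp (-(Complex.I * pv T v / 2)) * Sz (zv T v h r) :=
    ⟨_, rfl⟩
  obtain ⟨I1, hI1⟩ : ∃ I1 : ℕ → ℂ, I1 = fun (r : ℕ) => ∫ v in Set.Icc (-V) V, G v * Jr r v := ⟨_, rfl⟩
  obtain ⟨I2, hI2⟩ : ∃ I2 : ℕ → ℂ, I2 = fun (r : ℕ) => ∫ v in Set.Icc (-V) V,
    G v * (Mc r * (1 / pv T v)) := ⟨_, rfl⟩
  obtain ⟨I3, hI3⟩ : ∃ I3 : ℕ → ℂ, I3 = fun (r : ℕ) => ∫ v in (Set.Icc (-V) V)ᶜ,
    G v * (Mc r * (1 / pv T v)) := ⟨_, rfl⟩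
  have hmain : ∀ r : ℕ, ((M2main w T h r : ℝ) : ℂ) = I2 r + I3 r := by
    intro r
    rw [b0_main_eq hw hG h r, hI2, hI3, hMc]
    exact (integral_add_compl measurableSet_Icc (b0_main_integrable hG.int _ hT0)).symm
  have hsplit : ∑ x ∈ b0P Y, f x.1 x.2 / (Real.sqrt (x.1 * x.2 : ℕ) : ℂ) *
          (M2 w T h (x.1 * x.2) - (M2main w T h (x.1 * x.2) : ℂ)) =
      (∑ x ∈ b0P Y, f x.1 x.2 / (Real.sqrt (x.1 * x.2 : ℕ) : ℂ) *
        (fun r => M2 w T h r - I1 r) (x.1 * x.2)) +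
      (∑ x ∈ b0P Y, f x.1 x.2 / (Real.sqrt (x.1 * x.2 : ℕ) : ℂ) *
        (fun r => -I3 r) (x.1 * x.2)) +
      ∑ x ∈ b0P Y, f x.1 x.2 / (Real.sqrt (x.1 * x.2 : ℕ) : ℂ) *
        (I1 (x.1 * x.2) - I2 (x.1 * x.2)) := by
    rw [← Finset.sum_add_distrib, ← Finset.sum_add_distrib]
    refine Finset.sum_congr rfl fun x _ => ?_
    rw [hmain]
    ring
  obtain ⟨R, hR⟩ : ∃ R : ℝ, R = A * Real.sqrt h * T ^ (1 / 2 + ε') := ⟨_, rfl⟩
  have hR0 : 0 ≤ R := by rw [hR]; positivity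
  have hRe : A * (Real.sqrt h * Real.sqrt T) * T ^ ε' = R := by
    rw [hR, Real.sqrt_eq_rpow T, Real.rpow_add hT0]
    ring
  have hsqT : 1 ≤ Real.sqrt T := by rw [Real.one_le_sqrt]; exact hT1'
  -- first error
  have p1 : ‖∑ x ∈ b0P Y, f x.1 x.2 / (Real.sqrt (x.1 * x.2 : ℕ) : ℂ) *
        (fun r => M2 w T h r - I1 r) (x.1 * x.2)‖ ≤ 2 * C1 * K * R := by
    refine (b0_err hε' hT1' hY hYT hA.le f hf.b0 (fun r => M2 w T h r - I1 r)
      (D := C1 * (2 * (Real.sqrt h * Real.sqrt T))) (by positivity) fun r hr hrY => ?_).trans ?_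
    · have hr0 : (0 : ℝ) < r := by exact_mod_cast hr
      have hr1 : (1 : ℝ) ≤ r := by exact_mod_cast hr
      have hsr : 0 < Real.sqrt r := Real.sqrt_pos.2 hr0
      have h1 := hM2 T hTT1 h r hh hr
      rw [← hV] at h1
      have h2 : I1 r = ∫ v in Set.Icc (-V) V, G v * (2 * Real.pi * Real.sqrt ((r : ℝ) / h) *
        Complex.exp (-(Complex.I * pv T v / 2)) * Sz (zv T v h r)) := by rw [hI1, hJr]
      change ‖M2 w T h r - I1 r‖ ≤ _
      rw [h2]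
      refine h1.trans ?_
      rw [mul_div_assoc]
      refine mul_le_mul_of_nonneg_left ?_ hC1.le
      rw [le_div_iff₀ hsr, add_mul, one_mul]
      have h3 : Real.sqrt r ≤ Real.sqrt h * Real.sqrt T := by
        have : Real.sqrt r ≤ Real.sqrt T :=
          Real.sqrt_le_sqrt ((by exact_mod_cast hrY : (r : ℝ) ≤ Y).trans hYT)
        nlinarith [Real.sqrt_nonneg T]
      have h4 : ((h : ℝ) / r) ^ (3 / 2 : ℝ) * Real.sqrt r ≤ Real.sqrt h * Real.sqrt T := by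
        have e1 : ((h : ℝ) / r) ^ (3 / 2 : ℝ) = (h / r) * Real.sqrt (h / r) := by
          rw [Real.sqrt_eq_rpow]
          nth_rewrite 2 [← Real.rpow_one ((h : ℝ) / r)]
          rw [← Real.rpow_add (by positivity)]
          norm_num
        have e2 : Real.sqrt ((h : ℝ) / r) * Real.sqrt r = Real.sqrt h := by
          rw [← Real.sqrt_mul (by positivity)]
          congr 1
          field_simp
        have e3 : (h : ℝ) ≤ Real.sqrt T := Real.le_sqrt_of_sq_le hhT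
        rw [e1, mul_assoc, e2]
        calc (h : ℝ) / r * Real.sqrt h ≤ Real.sqrt T * Real.sqrt h := by
              gcongr
              exact (div_le_self hh0.le hr1).trans e3
          _ = _ := mul_comm _ _
      linarith
    · rw [← hRe, ← hK]
      apply le_of_eq
      ring
  -- second error
  have p2 : ‖∑ x ∈ b0P Y, f x.1 x.2 / (Real.sqrt (x.1 * x.2 : ℕ) : ℂ) *
        (fun r => -I3 r) (x.1 * x.2)‖ ≤ 2 * E2 * K * R := by
    have hG3 : ∫ v in (Set.Icc (-V) V)ᶜ, ‖G v‖ ≤ E2 / T ^ 2 := by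
      refine (e8_tail hG n hV0).trans ?_
      rw [← hE2, div_eq_inv_mul]
      refine mul_le_mul_of_nonneg_right ?_ hE20
      rw [inv_pow]
      refine inv_anti₀ (by positivity) ?_
      rw [hV, ← Real.rpow_natCast (T ^ (ε / 2)), ← Real.rpow_mul hT0.le,
        ← Real.rpow_natCast T 2]
      exact Real.rpow_le_rpow_of_exponent_le hT1' (by push_cast; exact hn')
    refine (b0_err hε' hT1' hY hYT hA.le f hf.b0 (fun r => -I3 r)
      (D := 2 * E2 * Real.sqrt T) (by positivity) fun r hr hrY => ?_).trans ?_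
    · have hr0 : (0 : ℝ) < r := by exact_mod_cast hr
      have hrT : (r : ℝ) ≤ T := (by exact_mod_cast hrY : (r : ℝ) ≤ Y).trans hYT
      have hsr : 0 < Real.sqrt r := Real.sqrt_pos.2 hr0
      have hMcr : ‖Mc r‖ ≤ 3 * T := by
        rw [hMc]
        simp only
        rw [Complex.norm_real, Real.norm_eq_abs]
        exact b0_Mc hT1' hh hr hhT1 hrT
      change ‖-I3 r‖ ≤ _
      rw [norm_neg, hI3]
      have h1 : ‖∫ v in (Set.Icc (-V) V)ᶜ, G v * (Mc r * (1 / pv T v))‖ ≤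
          ∫ v in (Set.Icc (-V) V)ᶜ, (3 * T * (T / 2)) * ‖G v‖ := by
        refine norm_integral_le_of_norm_le (hG.int.norm.const_mul _).integrableOn
          (ae_of_all _ fun v => ?_)
        rw [norm_mul, norm_mul, mul_comm]
        gcongr
        exact b0_inv_pv hT0 v
      refine h1.trans ?_
      rw [integral_const_mul]
      calc 3 * T * (T / 2) * ∫ v in (Set.Icc (-V) V)ᶜ, ‖G v‖
          ≤ 3 * T * (T / 2) * (E2 / T ^ 2) := by gcongr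
        _ = 3 / 2 * E2 := by field_simp
        _ ≤ 2 * E2 * 1 := by linarith
        _ ≤ 2 * E2 * (Real.sqrt T / Real.sqrt r) := by
            gcongr
            rw [one_le_div hsr]
            exact Real.sqrt_le_sqrt hrT
        _ = _ := by ring
    · rw [← hRe, ← hK]
      calc A * (2 * E2 * Real.sqrt T) * (K * T ^ ε') =
            2 * E2 * K * (A * (1 * Real.sqrt T) * T ^ ε') := by ring
        _ ≤ 2 * E2 * K * (A * (Real.sqrt h * Real.sqrt T) * T ^ ε') := by gcongr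
  -- main part
  have hint1 : ∀ r : ℕ, 0 < r → IntegrableOn (fun v => G v * Jr r v) (Set.Icc (-V) V) := by
    intro r hr
    refine ContinuousOn.integrableOn_compact isCompact_Icc ?_
    refine ContinuousOn.mul hG.cont.continuousOn ?_
    rw [hJr]
    refine ContinuousOn.mul ?_ ?_
    · refine Continuous.continuousOn ?_
      unfold pv
      fun_prop
    · intro v hv
      have hz := (e8_geom hT0 (hsm v hv) (e8_pv T v) hh hr (z := zv T v h r) rfl).1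
      have h1 : ContinuousAt (fun v : ℝ => zv T v h r) v := by
        unfold zv pv
        fun_prop
      exact ((Sz_differentiableAt hz).continuousAt.comp_of_eq h1 rfl).continuousWithinAt
  have hint2 : ∀ r : ℕ, IntegrableOn (fun v => G v * (Mc r * (1 / pv T v))) (Set.Icc (-V) V) :=
    fun r => (b0_main_integrable hG.int _ hT0).integrableOn
  have p3 : ‖∑ x ∈ b0P Y, f x.1 x.2 / (Real.sqrt (x.1 * x.2 : ℕ) : ℂ) *
        (I1 (x.1 * x.2) - I2 (x.1 * x.2))‖ ≤ C2 * E5 * (T * S + R) := by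
    have e1 : ∑ x ∈ b0P Y, f x.1 x.2 / (Real.sqrt (x.1 * x.2 : ℕ) : ℂ) *
        (I1 (x.1 * x.2) - I2 (x.1 * x.2)) = ∫ v in Set.Icc (-V) V, ∑ x ∈ b0P Y,
        f x.1 x.2 / (Real.sqrt (x.1 * x.2 : ℕ) : ℂ) *
        (G v * Jr (x.1 * x.2) v - G v * (Mc (x.1 * x.2) * (1 / pv T v))) := by
      rw [integral_finsetSum]
      · refine Finset.sum_congr rfl fun x hx => ?_
        rw [b0_mem] at hx
        have hr1 : 0 < x.1 * x.2 := Nat.mul_pos hx.1 hx.2.1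
        rw [integral_const_mul, integral_sub (hint1 _ hr1) (hint2 _), hI1, hI2]
      · intro x hx
        rw [b0_mem] at hx
        have hr1 : 0 < x.1 * x.2 := Nat.mul_pos hx.1 hx.2.1
        exact ((hint1 _ hr1).sub (hint2 _)).const_mul _
    rw [e1]
    have h1 : ‖∫ v in Set.Icc (-V) V, ∑ x ∈ b0P Y,
        f x.1 x.2 / (Real.sqrt (x.1 * x.2 : ℕ) : ℂ) *
        (G v * Jr (x.1 * x.2) v - G v * (Mc (x.1 * x.2) * (1 / pv T v)))‖ ≤
        ∫ v in Set.Icc (-V) V, (C2 * (T * S + R)) * ((1 + |-(2 * Real.pi * v)|) ^ 5 * ‖G v‖) := by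
      refine norm_integral_le_of_norm_le ((b0_mom hG 5).const_mul _).integrableOn ?_
      rw [ae_restrict_iff' measurableSet_Icc]
      refine ae_of_all _ fun v hv => ?_
      have h2 := hP T hT1' v (hsm v hv) h hh hhT Y hY hYT' (hsm2 v hv) f A hA hf
      rw [← hS, ← hR] at h2
      have e2 : ∑ x ∈ b0P Y, f x.1 x.2 / (Real.sqrt (x.1 * x.2 : ℕ) : ℂ) *
        (G v * Jr (x.1 * x.2) v - G v * (Mc (x.1 * x.2) * (1 / pv T v))) =
        G v * ∑ x ∈ b0P Y, f x.1 x.2 / (Real.sqrt (x.1 * x.2 : ℕ) : ℂ) * (2 * Real.pi *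
        Real.sqrt (((x.1 * x.2 : ℕ) : ℝ) / h) * Complex.exp (-(Complex.I * pv T v / 2)) *
        Sz (zv T v h (x.1 * x.2)) -
        (((Real.log T - Real.log (red h (x.1 * x.2))) / Real.sqrt (red h (x.1 * x.2)) : ℝ) : ℂ) *
        (1 / pv T v)) := by
        rw [Finset.mul_sum]
        refine Finset.sum_congr rfl fun x _ => ?_
        rw [hJr, hMc]
        ring
      rw [e2, norm_mul]
      calc _ ≤ ‖G v‖ * (C2 * (1 + |-(2 * Real.pi * v)|) ^ 5 * (T * S + R)) :=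
            mul_le_mul_of_nonneg_left h2 (norm_nonneg _)
        _ = _ := by ring
    refine h1.trans ?_
    rw [integral_const_mul]
    have h2 : ∫ v in Set.Icc (-V) V, (1 + |-(2 * Real.pi * v)|) ^ 5 * ‖G v‖ ≤ E5 := by
      rw [hE5]
      exact setIntegral_le_integral (b0_mom hG 5) (ae_of_all _ fun v => by
        simp only [Pi.zero_apply]; positivity)
    calc _ ≤ C2 * (T * S + R) * E5 := by gcongr
      _ = _ := by ring
  rw [hsplit, ← hR]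
  have hfin : ‖(∑ x ∈ b0P Y, f x.1 x.2 / (Real.sqrt (x.1 * x.2 : ℕ) : ℂ) *
        (fun r => M2 w T h r - I1 r) (x.1 * x.2)) +
      (∑ x ∈ b0P Y, f x.1 x.2 / (Real.sqrt (x.1 * x.2 : ℕ) : ℂ) *
        (fun r => -I3 r) (x.1 * x.2)) +
      ∑ x ∈ b0P Y, f x.1 x.2 / (Real.sqrt (x.1 * x.2 : ℕ) : ℂ) *
        (I1 (x.1 * x.2) - I2 (x.1 * x.2))‖ ≤ 2 * C1 * K * R + 2 * E2 * K * R +
        C2 * E5 * (T * S + R) :=
    (norm_add_le _ _).trans (add_le_add ((norm_add_le _ _).trans (add_le_add p1 p2)) p3)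
  refine hfin.trans ?_
  have g1 : 0 ≤ (2 * C1 * K + 2 * E2 * K) * (T * S) := by positivity
  nlinarith

end Pool.Agent.SixT
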