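import Mathlib
import Pool.Agent.Lib_MP_112ba8_t.T2Ext

/-!
Piece B0 is `T2Ext.lean` (helper2; on top of `T2Off` of helper7 and `T2Avg` of helper79):
`Pool.Agent.SixT.T2ext`.
-/
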