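import Mathlib
import Pool.Agent.Lib_MP_112ba8_t.TwoExt
import Pool.Agent.Lib_MP_112ba8_t.TwoExact
import Pool.Agent.Lib_MP_112ba8_t.S8lim
import Pool.Agent.Lib_MP_112ba8_e.Diag
import Pool.Agent.Lib_MP_112ba8_e.Even

/-!
Piece D2 (about 350 lines).

`V conj(R) = ∑ φ(n) Ψ(h₁,h₂,k) (n h₁h₂k)^{-1/2} (h₁h₂/(nk))^{it}` (arguments `log / L`), so the integral is
`Re ∑ φ Ψ (n h₁h₂k)^{-1/2} M2 w T (h₁h₂) (nk)`.
First alternative (`x + y ≤ 1/2 - ε`, `v + z ≤ 1 - ε` on the support): for fixed `h₁, h₂` apply `T2ext` with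
`h = h₁h₂ ≤ T^{1/2-ε}`, `f n k = φ(log n/L) Ψ(log h₁/L, log h₂/L, log k/L)`: bounded variation in `n` and in
`k` with a constant `A` independent of `T, h₁, h₂` (`φ`, `Ψ` are smooth with compact support and
`log n / L` is monotone: `∑ |f(n+1) - f(n)| ≤ ∫ |φ'|·sup`), support `nk ≤ T^{v+z} ≤ T^{1-ε}`.
Result: `= ∑_{h₁,h₂} (h₁h₂)^{-1/2} ∑_{n,k} f (nk)^{-1/2} M2main + E`,
`|E| ≤ C T ∑ |f| (h₁h₂nk)^{-1/2} red^{-1/2} + C ∑_{h₁,h₂} T^{1/2+ε'}`; the second is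
`≤ T^{1/2-ε} L T^{1/2+ε'} = o(T)` with `ε' = ε/2`; the first is `T · S8(|φ s₁ Ψ r₁ r₂ s₂|) ≤ C T L^8`.
Main term: as in D3, `n₀ = h/g`, `m₀ = nk/g`, `n₁ = n`, `n₂ = k`, `m₁ = h₁`, `m₂ = h₂`:
`(∫w) T L · S8 G L`, `G = (1-s₀-r₀) φ s₁ Ψ r₁ r₂ s₂`; `S8_tendsto`.
Second alternative: `M2 w T (h₁h₂) (nk) = conj (M2 w T (nk) (h₁h₂))` (`M2_swap`, `M2main_swap`), apply
`T2ext` with `h = nk ≤ T^{1/2-ε}` and `f h₁ h₂ = Ψ(..)φ(..)`.
-/

namespace Pool.Agent.SixT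

open Filter Topology MeasureTheory
open Pool.Agent.EvenMoment (cl Wgt Sz ker ar)

namespace MeanXVR

lemma mem_NN {L : ℝ} {n : ℕ} : n ∈ NN L ↔ 1 ≤ n ∧ (n : ℝ) ≤ Real.exp L := by
  unfold NN
  rw [Finset.mem_Icc, Nat.le_floor_iff (Real.exp_pos L).le]

lemma comm4 {α : Type*} [AddCommMonoid α] (s : Finset ℕ) (F : ℕ → ℕ → ℕ → ℕ → α) :
    ∑ a ∈ s, ∑ b ∈ s, ∑ n ∈ s, ∑ k ∈ s, F a b n k =
      ∑ n ∈ s, ∑ k ∈ s, ∑ a ∈ s, ∑ b ∈ s, F a b n k := by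
  calc ∑ a ∈ s, ∑ b ∈ s, ∑ n ∈ s, ∑ k ∈ s, F a b n k
      = ∑ a ∈ s, ∑ n ∈ s, ∑ b ∈ s, ∑ k ∈ s, F a b n k :=
        Finset.sum_congr rfl fun a _ => Finset.sum_comm
    _ = ∑ n ∈ s, ∑ a ∈ s, ∑ b ∈ s, ∑ k ∈ s, F a b n k := Finset.sum_comm
    _ = ∑ n ∈ s, ∑ a ∈ s, ∑ k ∈ s, ∑ b ∈ s, F a b n k :=
        Finset.sum_congr rfl fun n _ => Finset.sum_congr rfl fun a _ => Finset.sum_comm
    _ = ∑ n ∈ s, ∑ k ∈ s, ∑ a ∈ s, ∑ b ∈ s, F a b n k :=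
        Finset.sum_congr rfl fun n _ => Finset.sum_comm

/-- total variation of a Lipschitz function with support in `[0, B]` along a monotone sequence -/
lemma var_le {g : ℝ → ℝ} {K B : ℝ} (hK0 : 0 ≤ K) (hB : 0 ≤ B)
    (hK : ∀ x y, |g x - g y| ≤ K * |x - y|) (h0 : ∀ x, x ≤ 0 → g x = 0)
    (h1 : ∀ x, B ≤ x → g x = 0) {u : ℕ → ℝ} (hu : Monotone u) (N : ℕ) :
    ∑ k ∈ Finset.range N, |g (u (k + 1)) - g (u k)| ≤ K * B := by
  obtain ⟨c, hc⟩ : ∃ c : ℝ → ℝ, c = fun x => max 0 (min x B) := ⟨_, rfl⟩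
  have hcg : ∀ x, g x = g (c x) := by
    intro x
    rw [hc]
    simp only
    rcases le_total x 0 with h | h
    · rw [min_eq_left (h.trans hB), max_eq_left h, h0 x h, h0 0 le_rfl]
    · rcases le_total x B with h' | h'
      · rw [min_eq_left h', max_eq_right h]
      · rw [min_eq_right h', max_eq_right hB, h1 x h', h1 B le_rfl]
  have hcm : Monotone c := by
    rw [hc]
    intro x y hxy
    exact max_le_max le_rfl (min_le_min hxy le_rfl)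
  have hc0 : ∀ x, 0 ≤ c x := fun x => by rw [hc]; exact le_max_left _ _
  have hcB : ∀ x, c x ≤ B := fun x => by rw [hc]; exact max_le hB (min_le_right _ _)
  calc ∑ k ∈ Finset.range N, |g (u (k + 1)) - g (u k)|
      ≤ ∑ k ∈ Finset.range N, K * (c (u (k + 1)) - c (u k)) := by
        refine Finset.sum_le_sum fun k _ => ?_
        rw [hcg (u (k + 1)), hcg (u k)]
        refine (hK _ _).trans (le_of_eq ?_)
        rw [abs_of_nonneg (sub_nonneg.2 (hcm (hu (Nat.le_succ k))))]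
    _ = K * (c (u N) - c (u 0)) := by
        rw [← Finset.mul_sum, Finset.sum_range_sub (fun k => c (u k))]
    _ ≤ K * B := by
        have := hc0 (u 0)
        have := hcB (u N)
        exact mul_le_mul_of_nonneg_left (by linarith) hK0

lemma log_mono {L : ℝ} (hL : 0 < L) : Monotone fun n : ℕ => Real.log n / L := by
  intro m n hmn
  rcases Nat.eq_zero_or_pos m with h | h
  · subst h
    simp only [Nat.cast_zero, Real.log_zero, zero_div]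
    exact div_nonneg (Real.log_natCast_nonneg n) hL.le
  · exact div_le_div_of_nonneg_right (Real.log_le_log (by exact_mod_cast h) (by exact_mod_cast hmn))
      hL.le

/-- what is used about `Ψ` -/
def LipT (Ψ : ℝ → ℝ → ℝ → ℝ) : Prop := ∃ K M B : ℝ, 0 ≤ K ∧ 0 ≤ M ∧ 0 ≤ B ∧
      (∀ x x' y z, |Ψ x y z - Ψ x' y z| ≤ K * |x - x'|) ∧
      (∀ x y y' z, |Ψ x y z - Ψ x y' z| ≤ K * |y - y'|) ∧
      (∀ x y z z', |Ψ x y z - Ψ x y z'| ≤ K * |z - z'|) ∧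
      (∀ x y z, |Ψ x y z| ≤ M) ∧
      (∀ x y z, (x ≤ 0 ∨ y ≤ 0 ∨ z ≤ 0 ∨ B ≤ x ∨ B ≤ y ∨ B ≤ z) → Ψ x y z = 0)

lemma lip_phi {φ : ℝ → ℝ} (hφ : ContDiff ℝ (⊤ : ℕ∞) φ) {v : ℝ}
    (hv : ∀ s, (s ≤ 0 ∨ v ≤ s) → φ s = 0) : ∃ K M : ℝ, 0 ≤ K ∧ 0 ≤ M ∧
      (∀ x y, |φ x - φ y| ≤ K * |x - y|) ∧ ∀ x, |φ x| ≤ M := by
  have hcs : HasCompactSupport φ := by
    refine HasCompactSupport.intro (isCompact_Icc (a := 0) (b := v)) fun x hx => ?_
    refine hv x ?_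
    by_contra h
    push Not at h
    exact hx ⟨h.1.le, h.2.le⟩
  obtain ⟨C, hC⟩ := ContDiff.lipschitzWith_of_hasCompactSupport hcs hφ (by simp)
  obtain ⟨M, hM⟩ := hcs.exists_bound_of_continuous hφ.continuous
  refine ⟨C, max M 0, C.2, le_max_right _ _, fun x y => ?_, fun x => ?_⟩
  · have := hC.dist_le_mul x y
    rwa [Real.dist_eq, Real.dist_eq] at this
  · exact (hM x).trans (le_max_left _ _)

lemma lip_Psi {Ψ : ℝ → ℝ → ℝ → ℝ} (hΨ : Tst Ψ) : ∃ K M B : ℝ, 0 ≤ K ∧ 0 ≤ M ∧ 0 ≤ B ∧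
      (∀ x x' y z, |Ψ x y z - Ψ x' y z| ≤ K * |x - x'|) ∧
      (∀ x y y' z, |Ψ x y z - Ψ x y' z| ≤ K * |y - y'|) ∧
      (∀ x y z z', |Ψ x y z - Ψ x y z'| ≤ K * |z - z'|) ∧
      (∀ x y z, |Ψ x y z| ≤ M) ∧
      (∀ x y z, (x ≤ 0 ∨ y ≤ 0 ∨ z ≤ 0 ∨ B ≤ x ∨ B ≤ y ∨ B ≤ z) → Ψ x y z = 0) := by
  obtain ⟨a, b, ha, hab⟩ := hΨ.supp
  have hcs : HasCompactSupport fun p : ℝ × ℝ × ℝ => Ψ p.1 p.2.1 p.2.2 := by
    refine HasCompactSupport.intro (K := Set.Icc a b ×ˢ Set.Icc a b ×ˢ Set.Icc a b)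
      (isCompact_Icc.prod (isCompact_Icc.prod isCompact_Icc)) fun x hx => ?_
    refine hab _ _ _ ?_
    by_contra h
    push Not at h
    exact hx ⟨⟨h.1, h.2.2.2.1⟩, ⟨h.2.1, h.2.2.2.2.1⟩, ⟨h.2.2.1, h.2.2.2.2.2⟩⟩
  obtain ⟨C, hC⟩ := ContDiff.lipschitzWith_of_hasCompactSupport hcs hΨ.smooth (by simp)
  obtain ⟨M, hM⟩ := hcs.exists_bound_of_continuous hΨ.smooth.continuous
  refine ⟨C, max M 0, |b| + 1, C.2, le_max_right _ _, by positivity, fun x x' y z => ?_,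
    fun x y y' z => ?_, fun x y z z' => ?_, fun x y z => ?_, fun x y z h => ?_⟩
  · have := hC.dist_le_mul (x, y, z) (x', y, z)
    simp only [Real.dist_eq, Prod.dist_eq, sub_self, abs_zero] at this
    rwa [max_self, max_eq_left (abs_nonneg _)] at this
  · have := hC.dist_le_mul (x, y, z) (x, y', z)
    simp only [Real.dist_eq, Prod.dist_eq, sub_self, abs_zero] at this
    rwa [max_eq_left (abs_nonneg (y - y')), max_eq_right (abs_nonneg (y - y'))] at this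
  · have := hC.dist_le_mul (x, y, z) (x, y, z')
    simp only [Real.dist_eq, Prod.dist_eq, sub_self, abs_zero] at this
    rwa [max_eq_right (abs_nonneg (z - z')), max_eq_right (abs_nonneg (z - z'))] at this
  · exact (hM (x, y, z)).trans (le_max_left _ _)
  · have hb := le_abs_self b
    refine hab _ _ _ ?_
    rcases h with h | h | h | h | h | h
    · left; linarith
    · right; left; linarith
    · right; right; left; linarith
    · right; right; right; left; linarith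
    · right; right; right; right; left; linarith
    · right; right; right; right; right; linarith

end MeanXVR
namespace MeanXVR

/-- sum of `1/n` over `NN L` -/
lemma sum_inv {L : ℝ} (hL : 0 ≤ L) : ∑ n ∈ NN L, (1 : ℝ) / n ≤ 1 + L := by
  unfold NN
  have h1 : (1 : ℝ) ≤ Real.exp L := Real.one_le_exp hL
  have h2 : (∑ n ∈ Finset.Icc 1 ⌊Real.exp L⌋₊, (1 : ℝ) / n) =
      ((harmonic ⌊Real.exp L⌋₊ : ℚ) : ℝ) := by
    rw [harmonic_eq_sum_Icc]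
    push_cast
    exact Finset.sum_congr rfl fun n _ => one_div _
  rw [h2]
  refine (harmonic_floor_le_one_add_log _ h1).trans ?_
  rw [Real.log_exp]

lemma err_sum {w : ℝ → ℝ} (hw : Wgt w) {ε : ℝ} (hε : 0 < ε) (hε1 : ε < 1) :
    ∃ C T₀ : ℝ, 0 < C ∧ 2 ≤ T₀ ∧ ∀ T : ℝ, T₀ ≤ T → ∀ (c : ℕ → ℕ → ℕ → ℕ → ℝ) (A : ℝ), 0 ≤ A →
    (∀ a b, BV (fun n k => ((c a b n k : ℝ) : ℂ)) A) →
    (∀ a b n k, c a b n k ≠ 0 → (a : ℝ) * b ≤ T ^ (1 / 2 - ε) ∧ (n : ℝ) * k ≤ T ^ (1 - ε)) →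
    ‖∑ a ∈ NN (Real.log T), ∑ b ∈ NN (Real.log T), ∑ n ∈ NN (Real.log T), ∑ k ∈ NN (Real.log T),
      ((c a b n k / (Real.sqrt (a * b) * Real.sqrt (n * k)) : ℝ) : ℂ) *
        (M2 w T (a * b) (n * k) - (M2main w T (a * b) (n * k) : ℂ))‖ ≤
      C * (T * (∑ a ∈ NN (Real.log T), ∑ b ∈ NN (Real.log T), ∑ n ∈ NN (Real.log T),
        ∑ k ∈ NN (Real.log T), |c a b n k| /
          (Real.sqrt (a * b) * Real.sqrt (n * k) * Real.sqrt (red (a * b) (n * k)))) +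
        A * T ^ (1 - ε / 2) * (1 + Real.log T) ^ 2) := by
  obtain ⟨C, T₀, hC, hT₀, H⟩ := T2ext hw hε hε1 (half_pos hε)
  refine ⟨C, T₀, hC, hT₀, fun T hT c A hA hBV hc => ?_⟩
  have hT1 : 1 ≤ T := by linarith
  have hTp : 0 < T := by linarith
  have hL : 0 ≤ Real.log T := Real.log_nonneg hT1
  have key : ∀ a ∈ NN (Real.log T), ∀ b ∈ NN (Real.log T),
      ‖∑ n ∈ NN (Real.log T), ∑ k ∈ NN (Real.log T),
        ((c a b n k / (Real.sqrt (a * b) * Real.sqrt (n * k)) : ℝ) : ℂ) *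
        (M2 w T (a * b) (n * k) - (M2main w T (a * b) (n * k) : ℂ))‖ ≤
      C * T * (∑ n ∈ NN (Real.log T),
        ∑ k ∈ NN (Real.log T), |c a b n k| /
          (Real.sqrt (a * b) * Real.sqrt (n * k) * Real.sqrt (red (a * b) (n * k)))) +
        C * A * T ^ (1 - ε / 2) * ((1 / a) * (1 / b)) := by
    intro a ha b hb
    rw [mem_NN] at ha hb
    have ha0 : (0 : ℝ) < a := by exact_mod_cast ha.1
    have hb0 : (0 : ℝ) < b := by exact_mod_cast hb.1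
    have hR0 : 0 ≤ C * T * (∑ n ∈ NN (Real.log T),
        ∑ k ∈ NN (Real.log T), |c a b n k| /
          (Real.sqrt (a * b) * Real.sqrt (n * k) * Real.sqrt (red (a * b) (n * k)))) := by
      refine mul_nonneg (by positivity) (Finset.sum_nonneg fun n _ => Finset.sum_nonneg fun k _ => ?_)
      positivity
    by_cases hab : (a : ℝ) * b ≤ T ^ (1 / 2 - ε)
    · have hs : 0 < Real.sqrt ((a : ℝ) * b) := Real.sqrt_pos.2 (by positivity)
      have e1 : ∑ n ∈ NN (Real.log T), ∑ k ∈ NN (Real.log T),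
          ((c a b n k / (Real.sqrt (a * b) * Real.sqrt (n * k)) : ℝ) : ℂ) *
          (M2 w T (a * b) (n * k) - (M2main w T (a * b) (n * k) : ℂ)) =
          ((1 / Real.sqrt (a * b) : ℝ) : ℂ) * ∑ n ∈ NN (Real.log T), ∑ k ∈ NN (Real.log T),
          ((c a b n k : ℝ) : ℂ) / (Real.sqrt (n * k) : ℂ) *
          (M2 w T (a * b) (n * k) - (M2main w T (a * b) (n * k) : ℂ)) := by
        rw [Finset.mul_sum]
        refine Finset.sum_congr rfl fun n _ => ?_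
        rw [Finset.mul_sum]
        refine Finset.sum_congr rfl fun k _ => ?_
        push_cast
        ring
      have hsq : (((a * b : ℕ) : ℝ)) ^ 2 ≤ T := by
        push_cast
        calc ((a : ℝ) * b) ^ 2 ≤ (T ^ (1 / 2 - ε)) ^ 2 := by gcongr
          _ = T ^ ((1 / 2 - ε) * 2) := by
            rw [← Real.rpow_natCast, ← Real.rpow_mul hTp.le]; norm_num
          _ ≤ T ^ (1 : ℝ) := Real.rpow_le_rpow_of_exponent_le hT1 (by linarith)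
          _ = T := Real.rpow_one T
      have h1 := H T hT (a * b) (Nat.mul_pos ha.1 hb.1) hsq (fun n k => ((c a b n k : ℝ) : ℂ)) A hA
        (hBV a b) (by
          intro n k hnk
          by_contra hne
          have hne' : c a b n k ≠ 0 := fun h => hne (by simp [h])
          exact absurd (hc a b n k hne').2 (not_le.2 hnk))
      rw [e1, norm_mul, Complex.norm_real, Real.norm_of_nonneg (by positivity)]
      have e5 : 1 / Real.sqrt ((a : ℝ) * b) * (C * (T * (∑ n ∈ NN (Real.log T),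
          ∑ k ∈ NN (Real.log T), ‖((c a b n k : ℝ) : ℂ)‖ / Real.sqrt (n * k) /
            Real.sqrt (red (a * b) (n * k))) +
          A * Real.sqrt ((a * b : ℕ) : ℝ) * T ^ (1 / 2 + ε / 2))) =
          C * T * (∑ n ∈ NN (Real.log T),
        ∑ k ∈ NN (Real.log T), |c a b n k| /
          (Real.sqrt (a * b) * Real.sqrt (n * k) * Real.sqrt (red (a * b) (n * k)))) +
          1 / Real.sqrt (a * b) * (C * (A * Real.sqrt ((a * b : ℕ) : ℝ) * T ^ (1 / 2 + ε / 2))) := by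
        rw [mul_add, mul_add]
        congr 1
        rw [Finset.mul_sum, Finset.mul_sum, Finset.mul_sum, Finset.mul_sum]
        refine Finset.sum_congr rfl fun n _ => ?_
        rw [Finset.mul_sum, Finset.mul_sum, Finset.mul_sum, Finset.mul_sum]
        refine Finset.sum_congr rfl fun k _ => ?_
        rw [Complex.norm_real, Real.norm_eq_abs]
        ring
      refine (mul_le_mul_of_nonneg_left h1 (by positivity)).trans ?_
      rw [e5]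
      refine add_le_add le_rfl ?_
      push_cast
      have e2 : 1 / Real.sqrt (a * b) * (C * (A * Real.sqrt ((a : ℝ) * b) * T ^ (1 / 2 + ε / 2))) =
          C * A * T ^ (1 / 2 + ε / 2) := by
        field_simp
      rw [e2]
      have e3 : T ^ (1 - ε / 2) = T ^ (1 / 2 + ε / 2) * T ^ (1 / 2 - ε) := by
        rw [← Real.rpow_add hTp]; congr 1; ring
      have e4 : (1 : ℝ) ≤ T ^ (1 / 2 - ε) * ((1 / a) * (1 / b)) := by
        rw [one_div_mul_one_div, mul_one_div, le_div_iff₀ (by positivity), one_mul]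
        exact hab
      rw [e3]
      have h5 : 0 ≤ C * A * T ^ (1 / 2 + ε / 2) := by positivity
      calc C * A * T ^ (1 / 2 + ε / 2) = C * A * T ^ (1 / 2 + ε / 2) * 1 := (mul_one _).symm
        _ ≤ C * A * T ^ (1 / 2 + ε / 2) * (T ^ (1 / 2 - ε) * ((1 / a) * (1 / b))) :=
          mul_le_mul_of_nonneg_left e4 h5
        _ = _ := by ring
    · have hz : ∀ n k, c a b n k = 0 := by
        intro n k
        by_contra hne
        exact hab (hc a b n k hne).1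
      have e1 : ∑ n ∈ NN (Real.log T), ∑ k ∈ NN (Real.log T),
          ((c a b n k / (Real.sqrt (a * b) * Real.sqrt (n * k)) : ℝ) : ℂ) *
          (M2 w T (a * b) (n * k) - (M2main w T (a * b) (n * k) : ℂ)) = 0 := by
        refine Finset.sum_eq_zero fun n _ => Finset.sum_eq_zero fun k _ => ?_
        rw [hz, zero_div, Complex.ofReal_zero, zero_mul]
      rw [e1, norm_zero]
      exact add_nonneg hR0 (by positivity)
  calc ‖∑ a ∈ NN (Real.log T), ∑ b ∈ NN (Real.log T), ∑ n ∈ NN (Real.log T), ∑ k ∈ NN (Real.log T),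
      ((c a b n k / (Real.sqrt (a * b) * Real.sqrt (n * k)) : ℝ) : ℂ) *
        (M2 w T (a * b) (n * k) - (M2main w T (a * b) (n * k) : ℂ))‖
      ≤ ∑ a ∈ NN (Real.log T), ∑ b ∈ NN (Real.log T),
        (C * T * (∑ n ∈ NN (Real.log T),
        ∑ k ∈ NN (Real.log T), |c a b n k| /
          (Real.sqrt (a * b) * Real.sqrt (n * k) * Real.sqrt (red (a * b) (n * k)))) +
        C * A * T ^ (1 - ε / 2) * ((1 / a) * (1 / b))) := by
        refine (norm_sum_le _ _).trans (Finset.sum_le_sum fun a ha => ?_)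
        refine (norm_sum_le _ _).trans (Finset.sum_le_sum fun b hb => ?_)
        exact key a ha b hb
    _ = C * T * (∑ a ∈ NN (Real.log T), ∑ b ∈ NN (Real.log T), ∑ n ∈ NN (Real.log T),
        ∑ k ∈ NN (Real.log T), |c a b n k| /
          (Real.sqrt (a * b) * Real.sqrt (n * k) * Real.sqrt (red (a * b) (n * k)))) +
        C * A * T ^ (1 - ε / 2) * ((∑ a ∈ NN (Real.log T), (1 : ℝ) / a) *
          (∑ b ∈ NN (Real.log T), (1 : ℝ) / b)) := by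
        rw [Finset.sum_mul_sum]
        simp_rw [Finset.sum_add_distrib, ← Finset.mul_sum]
    _ ≤ C * T * (∑ a ∈ NN (Real.log T), ∑ b ∈ NN (Real.log T), ∑ n ∈ NN (Real.log T),
        ∑ k ∈ NN (Real.log T), |c a b n k| /
          (Real.sqrt (a * b) * Real.sqrt (n * k) * Real.sqrt (red (a * b) (n * k)))) +
        C * A * T ^ (1 - ε / 2) * ((1 + Real.log T) * (1 + Real.log T)) := by
        have h1 := sum_inv hL
        have h0 : 0 ≤ ∑ a ∈ NN (Real.log T), (1 : ℝ) / a :=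
          Finset.sum_nonneg fun a _ => by positivity
        gcongr
    _ = _ := by ring

end MeanXVR
namespace MeanXVR

lemma quot_mul {h r : ℕ} : h / Nat.gcd h r * r = r / Nat.gcd h r * h := by
  rw [Nat.div_mul_right_comm (Nat.gcd_dvd_left h r), Nat.div_mul_right_comm (Nat.gcd_dvd_right h r),
    mul_comm]

/-- the coprime element of `TN` attached to a quadruple -/
noncomputable def JJ4 (x : ℕ+ × ℕ+ × ℕ+ × ℕ+) : TN :=
  ⟨((⟨(x.1 * x.2.1 : ℕ) / Nat.gcd (x.1 * x.2.1) (x.2.2.1 * x.2.2.2),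
      Nat.div_pos (Nat.le_of_dvd (Nat.mul_pos x.1.2 x.2.1.2) (Nat.gcd_dvd_left _ _))
        (Nat.gcd_pos_of_pos_left _ (Nat.mul_pos x.1.2 x.2.1.2))⟩, x.2.2.1, x.2.2.2),
    (⟨(x.2.2.1 * x.2.2.2 : ℕ) / Nat.gcd (x.1 * x.2.1) (x.2.2.1 * x.2.2.2),
      Nat.div_pos (Nat.le_of_dvd (Nat.mul_pos x.2.2.1.2 x.2.2.2.2) (Nat.gcd_dvd_right _ _))
        (Nat.gcd_pos_of_pos_left _ (Nat.mul_pos x.1.2 x.2.1.2))⟩, x.1, x.2.1)), by
    simp only [PNat.mk_coe]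
    rw [mul_assoc, mul_assoc]
    exact quot_mul⟩

lemma JJ4_inj : Function.Injective JJ4 := by
  rintro ⟨a, b, n, k⟩ ⟨a', b', n', k'⟩ h
  have h1 := congrArg (fun q : TN => (q.1.2.2.1, q.1.2.2.2, q.1.1.2.1, q.1.1.2.2)) h
  simpa only [JJ4] using h1

lemma quot_eq {n₀ m₀ h r : ℕ} (hn₀ : 0 < n₀) (hh : 0 < h) (he : n₀ * r = m₀ * h)
    (hc : Nat.Coprime n₀ m₀) : h / Nat.gcd h r = n₀ ∧ r / Nat.gcd h r = m₀ := by
  have h1 : n₀ ∣ h := by
    have : n₀ ∣ m₀ * h := ⟨r, he.symm⟩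
    exact hc.dvd_of_dvd_mul_left this
  obtain ⟨t, rfl⟩ := h1
  have ht : 0 < t := Nat.pos_of_mul_pos_left hh
  have h2 : r = m₀ * t := by
    have : n₀ * r = n₀ * (m₀ * t) := by rw [he]; ring
    exact Nat.eq_of_mul_eq_mul_left hn₀ this
  subst h2
  have hg : Nat.gcd (n₀ * t) (m₀ * t) = t := by
    rw [Nat.gcd_mul_right, hc.gcd_eq_one, one_mul]
  rw [hg]
  exact ⟨Nat.mul_div_cancel _ ht, Nat.mul_div_cancel _ ht⟩

lemma weight_eq {h r : ℕ} (hh : 0 < h) (hr : 0 < r) :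
    ((h / Nat.gcd h r : ℕ) : ℝ) * r = Real.sqrt h * Real.sqrt r * Real.sqrt (red h r) := by
  have hg : 0 < Nat.gcd h r := Nat.gcd_pos_of_pos_left _ hh
  have hg0 : (0 : ℝ) < Nat.gcd h r := by exact_mod_cast hg
  have hh0 : (0 : ℝ) < h := by exact_mod_cast hh
  have hr0 : (0 : ℝ) < r := by exact_mod_cast hr
  rw [Nat.cast_div (Nat.gcd_dvd_left h r) hg0.ne']
  unfold red
  rw [Real.sqrt_div' _ (by positivity), Real.sqrt_sq hg0.le, Real.sqrt_mul hh0.le]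
  have e1 := Real.mul_self_sqrt hh0.le
  have e2 := Real.mul_self_sqrt hr0.le
  have e3 : Real.sqrt h * Real.sqrt r * (Real.sqrt h * Real.sqrt r / (Nat.gcd h r : ℝ)) =
      (Real.sqrt h * Real.sqrt h) * (Real.sqrt r * Real.sqrt r) / (Nat.gcd h r : ℝ) := by ring
  rw [e3, e1, e2]
  ring

lemma log_red {h r : ℕ} (hh : 0 < h) (hr : 0 < r) :
    Real.log (red h r) = Real.log ((h / Nat.gcd h r : ℕ) : ℝ) + Real.log ((r / Nat.gcd h r : ℕ) : ℝ) := by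
  have hg : 0 < Nat.gcd h r := Nat.gcd_pos_of_pos_left _ hh
  have hg0 : (0 : ℝ) < Nat.gcd h r := by exact_mod_cast hg
  have hh0 : (0 : ℝ) < h := by exact_mod_cast hh
  have hr0 : (0 : ℝ) < r := by exact_mod_cast hr
  rw [Nat.cast_div (Nat.gcd_dvd_left h r) hg0.ne', Nat.cast_div (Nat.gcd_dvd_right h r) hg0.ne']
  unfold red
  rw [← Real.log_mul (by positivity) (by positivity)]
  congr 1
  field_simp

/-- `S8` as a sum over quadruples; `a b = m₁ m₂`, `n k = n₁ n₂` -/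
theorem S8_eq (G : ℝ → ℝ → ℝ → ℝ → ℝ → ℝ → ℝ) {L : ℝ} (hL : 0 < L)
    (hG : ∀ s₀ s₁ s₂ r₀ r₁ r₂, (1 < s₁ ∨ 1 < s₂ ∨ 1 < r₁ ∨ 1 < r₂) → G s₀ s₁ s₂ r₀ r₁ r₂ = 0) :
    S8 G L = ∑ a ∈ NN L, ∑ b ∈ NN L, ∑ n ∈ NN L, ∑ k ∈ NN L,
      1 / (Real.sqrt (a * b) * Real.sqrt (n * k) * Real.sqrt (red (a * b) (n * k))) *
        G (Real.log ((a * b / Nat.gcd (a * b) (n * k) : ℕ) : ℝ) / L) (Real.log n / L)
          (Real.log k / L) (Real.log ((n * k / Nat.gcd (a * b) (n * k) : ℕ) : ℝ) / L)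
          (Real.log a / L) (Real.log b / L) := by
  obtain ⟨F, hF⟩ : ∃ F : ℕ × ℕ × ℕ × ℕ → ℝ, F = fun y =>
      1 / (Real.sqrt (y.1 * y.2.1) * Real.sqrt (y.2.2.1 * y.2.2.2) *
        Real.sqrt (red (y.1 * y.2.1) (y.2.2.1 * y.2.2.2))) *
        G (Real.log ((y.1 * y.2.1 / Nat.gcd (y.1 * y.2.1) (y.2.2.1 * y.2.2.2) : ℕ) : ℝ) / L)
          (Real.log y.2.2.1 / L) (Real.log y.2.2.2 / L)
          (Real.log ((y.2.2.1 * y.2.2.2 / Nat.gcd (y.1 * y.2.1) (y.2.2.1 * y.2.2.2) : ℕ) : ℝ) / L)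
          (Real.log y.1 / L) (Real.log y.2.1 / L) := ⟨_, rfl⟩
  have hzero : ∀ y : ℕ × ℕ × ℕ × ℕ, (y.1 = 0 ∨ y.2.1 = 0 ∨ y.2.2.1 = 0 ∨ y.2.2.2 = 0) → F y = 0 := by
    intro y hy
    rw [hF]
    simp only
    rcases hy with h | h | h | h <;> simp [h]
  have hout : ∀ y : ℕ × ℕ × ℕ × ℕ, y ∉ NN L ×ˢ NN L ×ˢ NN L ×ˢ NN L → F y = 0 := by
    intro y hy
    by_cases h0 : y.1 = 0 ∨ y.2.1 = 0 ∨ y.2.2.1 = 0 ∨ y.2.2.2 = 0
    · exact hzero y h0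
    push Not at h0
    have hbig : ∀ m : ℕ, m ≠ 0 → m ∉ NN L → 1 < Real.log m / L := by
      intro m hm hmN
      rw [mem_NN] at hmN
      have h1 : Real.exp L < m := by
        by_contra h
        exact hmN ⟨Nat.one_le_iff_ne_zero.2 hm, not_lt.1 h⟩
      rw [lt_div_iff₀ hL, one_mul]
      exact (Real.lt_log_iff_exp_lt ((Real.exp_pos L).trans h1)).2 h1
    have h2 : y.1 ∉ NN L ∨ y.2.1 ∉ NN L ∨ y.2.2.1 ∉ NN L ∨ y.2.2.2 ∉ NN L := by
      by_contra h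
      push Not at h
      exact hy (by simp [h])
    rw [hF]
    simp only
    rw [hG, mul_zero]
    rcases h2 with h | h | h | h
    · exact Or.inr (Or.inr (Or.inl (hbig _ h0.1 h)))
    · exact Or.inr (Or.inr (Or.inr (hbig _ h0.2.1 h)))
    · exact Or.inl (hbig _ h0.2.2.1 h)
    · exact Or.inr (Or.inl (hbig _ h0.2.2.2 h))
  obtain ⟨co, hco⟩ : ∃ co : ℕ+ × ℕ+ × ℕ+ × ℕ+ → ℕ × ℕ × ℕ × ℕ, co = fun x =>
    ((x.1 : ℕ), (x.2.1 : ℕ), (x.2.2.1 : ℕ), (x.2.2.2 : ℕ)) := ⟨_, rfl⟩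
  have hcoi : Function.Injective co := by
    rintro ⟨a, b, n, k⟩ ⟨a', b', n', k'⟩ h
    rw [hco] at h
    simpa using h
  have hsc : Function.support F ⊆ Set.range co := by
    intro y hy
    have h0 : ¬ (y.1 = 0 ∨ y.2.1 = 0 ∨ y.2.2.1 = 0 ∨ y.2.2.2 = 0) := fun h => hy (hzero y h)
    push Not at h0
    refine ⟨(⟨y.1, Nat.pos_of_ne_zero h0.1⟩, ⟨y.2.1, Nat.pos_of_ne_zero h0.2.1⟩,
      ⟨y.2.2.1, Nat.pos_of_ne_zero h0.2.2.1⟩, ⟨y.2.2.2, Nat.pos_of_ne_zero h0.2.2.2⟩), ?_⟩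
    rw [hco]
    rfl
  have h1 : S8 G L = ∑' x : ℕ+ × ℕ+ × ℕ+ × ℕ+, F (co x) := by
    unfold S8
    rw [← JJ4_inj.tsum_eq]
    · refine tsum_congr fun x => ?_
      obtain ⟨a, b, n, k⟩ := x
      have ha : 0 < (a * b : ℕ) := Nat.mul_pos a.2 b.2
      have hn : 0 < (n * k : ℕ) := Nat.mul_pos n.2 k.2
      have hcp : Nat.Coprime ((a * b : ℕ) / Nat.gcd (a * b) (n * k))
          ((n * k : ℕ) / Nat.gcd (a * b) (n * k)) :=
        Nat.coprime_div_gcd_div_gcd (Nat.gcd_pos_of_pos_left _ ha)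
      rw [hF, hco]
      simp only [JJ4, PNat.mk_coe]
      rw [if_pos hcp, one_mul]
      congr 1
      have hw := weight_eq ha hn
      push_cast at hw
      rw [← hw]
      ring
    · intro q hq
      obtain ⟨⟨⟨n₀, n₁, n₂⟩, ⟨m₀, m₁, m₂⟩⟩, hq0⟩ := q
      have hcp : Nat.Coprime (n₀ : ℕ) (m₀ : ℕ) := by
        by_contra h
        apply hq
        simp only
        rw [if_neg h, zero_mul]
      simp only at hq0
      have h3 := quot_eq (n₀ := n₀) (m₀ := m₀) (h := m₁ * m₂) (r := n₁ * n₂) n₀.2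
        (Nat.mul_pos m₁.2 m₂.2) (by rw [← mul_assoc, ← mul_assoc]; exact hq0) hcp
      refine ⟨(m₁, m₂, n₁, n₂), ?_⟩
      refine Subtype.ext ?_
      simp only [JJ4]
      refine Prod.ext (Prod.ext (PNat.eq ?_) rfl) (Prod.ext (PNat.eq ?_) rfl)
      · exact h3.1
      · exact h3.2
  rw [h1, hcoi.tsum_eq hsc, tsum_eq_sum (s := NN L ×ˢ NN L ×ˢ NN L ×ˢ NN L) (fun y hy => hout y hy),
    Finset.sum_product]
  refine Finset.sum_congr rfl fun a _ => ?_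
  rw [Finset.sum_product]
  refine Finset.sum_congr rfl fun b _ => ?_
  rw [Finset.sum_product]
  refine Finset.sum_congr rfl fun n _ => Finset.sum_congr rfl fun k _ => ?_
  rw [hF]

end MeanXVR
namespace MeanXVR

lemma osc4 {a b n k : ℕ} (ha : 0 < a) (hb : 0 < b) (hn : 0 < n) (hk : 0 < k) (t : ℝ) :
    en n t * (starRingEnd ℂ) (en a t * en b t * (starRingEnd ℂ) (en k t)) =
      Complex.exp (t * (Real.log ((a * b : ℕ) : ℝ) - Real.log ((n * k : ℕ) : ℝ) : ℝ) * Complex.I) := by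
  have ha0 : (a : ℝ) ≠ 0 := by positivity
  have hb0 : (b : ℝ) ≠ 0 := by positivity
  have hn0 : (n : ℝ) ≠ 0 := by positivity
  have hk0 : (k : ℝ) ≠ 0 := by positivity
  rw [Nat.cast_mul, Nat.cast_mul, Real.log_mul ha0 hb0, Real.log_mul hn0 hk0]
  unfold en
  rw [map_mul, map_mul, Complex.conj_conj, ← Complex.exp_conj, ← Complex.exp_conj,
    ← Complex.exp_add, ← Complex.exp_add, ← Complex.exp_add]
  congr 1
  simp only [map_mul, map_neg, Complex.conj_ofReal, Complex.conj_I]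
  push_cast
  ring

/-- pointwise expansion -/
lemma expand_pt (φ : ℝ → ℝ) (Ψ : ℝ → ℝ → ℝ → ℝ) (L t : ℝ) :
    VP φ L t * (starRingEnd ℂ) (CP Ψ L t) =
      ∑ a ∈ NN L, ∑ b ∈ NN L, ∑ n ∈ NN L, ∑ k ∈ NN L,
        ((φ (Real.log n / L) * Ψ (Real.log a / L) (Real.log b / L) (Real.log k / L) /
          (Real.sqrt (a * b) * Real.sqrt (n * k)) : ℝ) : ℂ) *
        Complex.exp (t * (Real.log ((a * b : ℕ) : ℝ) - Real.log ((n * k : ℕ) : ℝ) : ℝ) *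
          Complex.I) := by
  unfold VP CP
  rw [map_sum, Finset.mul_sum]
  refine Finset.sum_congr rfl fun a ha => ?_
  rw [map_sum, Finset.mul_sum]
  refine Finset.sum_congr rfl fun b hb => ?_
  rw [map_sum, Finset.sum_mul_sum]
  refine Finset.sum_congr rfl fun n hn => ?_
  refine Finset.sum_congr rfl fun k hk => ?_
  rw [mem_NN] at ha hb hn hk
  rw [← osc4 ha.1 hb.1 hn.1 hk.1 t, map_mul (starRingEnd ℂ), Complex.conj_ofReal]
  have e : φ (Real.log n / L) * Ψ (Real.log a / L) (Real.log b / L) (Real.log k / L) /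
      (Real.sqrt (a * b) * Real.sqrt (n * k)) = φ (Real.log n / L) / Real.sqrt n *
      (Ψ (Real.log a / L) (Real.log b / L) (Real.log k / L) / Real.sqrt (a * b * k)) := by
    rw [Real.sqrt_mul (by positivity) (k : ℝ), Real.sqrt_mul (by positivity) (k : ℝ)]
    ring
  rw [e]
  push_cast
  ring

lemma M2_integrable {w : ℝ → ℝ} (hw : Wgt w) {T : ℝ} (hT : 0 < T) (h r : ℕ) :
    Integrable fun t : ℝ => ((w (t / T) * ‖riemannZeta (cl t)‖ ^ 2 : ℝ) : ℂ) *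
      Complex.exp (t * (Real.log h - Real.log r : ℝ) * Complex.I) := by
  have h1 : Continuous fun t : ℝ => ((‖riemannZeta (cl t)‖ ^ 2 : ℝ) : ℂ) *
      Complex.exp (t * (Real.log h - Real.log r : ℝ) * Complex.I) := by
    refine Continuous.mul ?_ (by fun_prop)
    exact Complex.continuous_ofReal.comp (Pool.Agent.EvenMoment.zeta_cl_cont.norm.pow 2)
  have h2 := Pool.Agent.EvenMoment.dg_integrable hw hT h1
  refine h2.congr (ae_of_all _ fun t => ?_)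
  simp only
  push_cast
  ring

/-- the mean value as a sum of twisted second moments -/
lemma expand {w : ℝ → ℝ} (hw : Wgt w) (φ : ℝ → ℝ) (Ψ : ℝ → ℝ → ℝ → ℝ) {T : ℝ} (hT : 0 < T) (L : ℝ) :
    ∫ t : ℝ, w (t / T) * (‖riemannZeta (cl t)‖ ^ 2 *
      (VP φ L t * (starRingEnd ℂ) (CP Ψ L t)).re) =
    (∑ a ∈ NN L, ∑ b ∈ NN L, ∑ n ∈ NN L, ∑ k ∈ NN L,
        ((φ (Real.log n / L) * Ψ (Real.log a / L) (Real.log b / L) (Real.log k / L) /
          (Real.sqrt (a * b) * Real.sqrt (n * k)) : ℝ) : ℂ) * M2 w T (a * b) (n * k)).re := by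
  obtain ⟨co, hco⟩ : ∃ co : ℕ → ℕ → ℕ → ℕ → ℂ, co = fun (a b n k : ℕ) =>
    ((φ (Real.log n / L) * Ψ (Real.log a / L) (Real.log b / L) (Real.log k / L) /
          (Real.sqrt (a * b) * Real.sqrt (n * k)) : ℝ) : ℂ) := ⟨_, rfl⟩
  obtain ⟨ff, hff⟩ : ∃ ff : ℕ → ℕ → ℝ → ℂ, ff = fun (h r : ℕ) (t : ℝ) =>
    ((w (t / T) * ‖riemannZeta (cl t)‖ ^ 2 : ℝ) : ℂ) *
      Complex.exp (t * (Real.log h - Real.log r : ℝ) * Complex.I) := ⟨_, rfl⟩
  have hint : ∀ h r, Integrable (ff h r) := fun h r => by rw [hff]; exact M2_integrable hw hT h r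
  have h1 : ∀ t : ℝ, w (t / T) * (‖riemannZeta (cl t)‖ ^ 2 *
      (VP φ L t * (starRingEnd ℂ) (CP Ψ L t)).re) =
      (∑ a ∈ NN L, ∑ b ∈ NN L, ∑ n ∈ NN L, ∑ k ∈ NN L, co a b n k * ff (a * b) (n * k) t).re := by
    intro t
    rw [expand_pt, ← mul_assoc]
    have e1 : (w (t / T) * ‖riemannZeta (cl t)‖ ^ 2) *
      (∑ a ∈ NN L, ∑ b ∈ NN L, ∑ n ∈ NN L, ∑ k ∈ NN L,
        ((φ (Real.log n / L) * Ψ (Real.log a / L) (Real.log b / L) (Real.log k / L) /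
          (Real.sqrt (a * b) * Real.sqrt (n * k)) : ℝ) : ℂ) *
        Complex.exp (t * (Real.log ((a * b : ℕ) : ℝ) - Real.log ((n * k : ℕ) : ℝ) : ℝ) *
          Complex.I)).re = (((w (t / T) * ‖riemannZeta (cl t)‖ ^ 2 : ℝ) : ℂ) *
      (∑ a ∈ NN L, ∑ b ∈ NN L, ∑ n ∈ NN L, ∑ k ∈ NN L,
        ((φ (Real.log n / L) * Ψ (Real.log a / L) (Real.log b / L) (Real.log k / L) /
          (Real.sqrt (a * b) * Real.sqrt (n * k)) : ℝ) : ℂ) *
        Complex.exp (t * (Real.log ((a * b : ℕ) : ℝ) - Real.log ((n * k : ℕ) : ℝ) : ℝ) *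
          Complex.I))).re := by
      rw [Complex.re_ofReal_mul]
    rw [e1]
    congr 1
    rw [Finset.mul_sum]
    refine Finset.sum_congr rfl fun a _ => ?_
    rw [Finset.mul_sum]
    refine Finset.sum_congr rfl fun b _ => ?_
    rw [Finset.mul_sum]
    refine Finset.sum_congr rfl fun n _ => ?_
    rw [Finset.mul_sum]
    refine Finset.sum_congr rfl fun k _ => ?_
    rw [hco, hff]
    ring
  simp_rw [h1]
  have hi4 : ∀ a b n, Integrable fun t => ∑ k ∈ NN L, co a b n k * ff (a * b) (n * k) t :=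
    fun a b n => integrable_finsetSum _ fun k _ => (hint _ _).const_mul _
  have hi3 : ∀ a b, Integrable fun t => ∑ n ∈ NN L, ∑ k ∈ NN L, co a b n k * ff (a * b) (n * k) t :=
    fun a b => integrable_finsetSum _ fun n _ => hi4 a b n
  have hi2 : ∀ a, Integrable fun t => ∑ b ∈ NN L, ∑ n ∈ NN L, ∑ k ∈ NN L,
      co a b n k * ff (a * b) (n * k) t :=
    fun a => integrable_finsetSum _ fun b _ => hi3 a b
  have hi1 : Integrable fun t => ∑ a ∈ NN L, ∑ b ∈ NN L, ∑ n ∈ NN L, ∑ k ∈ NN L,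
      co a b n k * ff (a * b) (n * k) t :=
    integrable_finsetSum _ fun a _ => hi2 a
  have h2 := integral_re (𝕜 := ℂ) hi1
  simp only [RCLike.re_to_complex] at h2
  rw [h2]
  congr 1
  rw [integral_finsetSum _ fun a _ => hi2 a]
  refine Finset.sum_congr rfl fun a _ => ?_
  rw [integral_finsetSum _ fun b _ => hi3 a b]
  refine Finset.sum_congr rfl fun b _ => ?_
  rw [integral_finsetSum _ fun n _ => hi4 a b n]
  refine Finset.sum_congr rfl fun n _ => ?_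
  rw [integral_finsetSum _ fun k _ => (hint _ _).const_mul _]
  refine Finset.sum_congr rfl fun k _ => ?_
  rw [integral_const_mul, hco, hff]
  rfl

end MeanXVR
namespace MeanXVR

lemma bv_mix {g h : ℝ → ℝ} {K₁ M₁ B₁ K₂ M₂ B₂ : ℝ} (hK₁ : 0 ≤ K₁) (hM₁ : 0 ≤ M₁) (hB₁ : 0 ≤ B₁)
    (hK₂ : 0 ≤ K₂) (hM₂ : 0 ≤ M₂) (hB₂ : 0 ≤ B₂)
    (h1 : ∀ x y, |g x - g y| ≤ K₁ * |x - y|) (h2 : ∀ x, |g x| ≤ M₁)
    (h3 : ∀ x, (x ≤ 0 ∨ B₁ ≤ x) → g x = 0)
    (h4 : ∀ x y, |h x - h y| ≤ K₂ * |x - y|) (h5 : ∀ x, |h x| ≤ M₂)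
    (h6 : ∀ x, (x ≤ 0 ∨ B₂ ≤ x) → h x = 0) {u : ℕ → ℝ} (hu : Monotone u) :
    BV (fun n k => ((g (u n) * h (u k) : ℝ) : ℂ)) (M₁ * M₂ + M₁ * (K₂ * B₂) + K₁ * B₁ * M₂) := by
  have p1 : 0 ≤ M₁ * M₂ := by positivity
  have p2 : 0 ≤ M₁ * (K₂ * B₂) := by positivity
  have p3 : 0 ≤ K₁ * B₁ * M₂ := by positivity
  refine ⟨fun n k => ?_, fun n N => ?_, fun k N => ?_⟩
  · rw [Complex.norm_real, Real.norm_eq_abs, abs_mul]
    have := mul_le_mul (h2 (u n)) (h5 (u k)) (abs_nonneg _) hM₁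
    linarith
  · have e : ∀ k, ‖((g (u n) * h (u (k + 1)) : ℝ) : ℂ) - ((g (u n) * h (u k) : ℝ) : ℂ)‖ =
        |g (u n)| * |h (u (k + 1)) - h (u k)| := by
      intro k
      rw [← Complex.ofReal_sub, Complex.norm_real, Real.norm_eq_abs, ← mul_sub, abs_mul]
    simp_rw [e]
    rw [← Finset.mul_sum]
    have h7 := var_le hK₂ hB₂ h4 (fun x hx => h6 x (Or.inl hx)) (fun x hx => h6 x (Or.inr hx)) hu N
    have h8 := mul_le_mul (h2 (u n)) h7 (Finset.sum_nonneg fun _ _ => abs_nonneg _) hM₁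
    linarith
  · have e : ∀ n, ‖((g (u (n + 1)) * h (u k) : ℝ) : ℂ) - ((g (u n) * h (u k) : ℝ) : ℂ)‖ =
        |g (u (n + 1)) - g (u n)| * |h (u k)| := by
      intro n
      rw [← Complex.ofReal_sub, Complex.norm_real, Real.norm_eq_abs, ← sub_mul, abs_mul]
    simp_rw [e]
    rw [← Finset.sum_mul]
    have h7 := var_le hK₁ hB₁ h1 (fun x hx => h3 x (Or.inl hx)) (fun x hx => h3 x (Or.inr hx)) hu N
    have h8 := mul_le_mul h7 (h5 (u k)) (abs_nonneg _) (by positivity)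
    linarith

/-- the second variable `b` of `Ψ` -/
lemma bv_Psi {Ψ : ℝ → ℝ → ℝ → ℝ} {K M B : ℝ} (hK : 0 ≤ K) (hM : 0 ≤ M) (hB : 0 ≤ B)
    (h1 : ∀ x x' y z, |Ψ x y z - Ψ x' y z| ≤ K * |x - x'|)
    (h2 : ∀ x y y' z, |Ψ x y z - Ψ x y' z| ≤ K * |y - y'|)
    (h4 : ∀ x y z, |Ψ x y z| ≤ M)
    (h5 : ∀ x y z, (x ≤ 0 ∨ y ≤ 0 ∨ z ≤ 0 ∨ B ≤ x ∨ B ≤ y ∨ B ≤ z) → Ψ x y z = 0)
    {c Mc : ℝ} (hc : |c| ≤ Mc) (z : ℝ) {u : ℕ → ℝ} (hu : Monotone u) :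
    BV (fun a b => ((c * Ψ (u a) (u b) z : ℝ) : ℂ)) (Mc * M + Mc * (K * B)) := by
  have hMc : 0 ≤ Mc := (abs_nonneg c).trans hc
  have p1 : 0 ≤ Mc * M := by positivity
  have p2 : 0 ≤ Mc * (K * B) := by positivity
  refine ⟨fun n k => ?_, fun n N => ?_, fun k N => ?_⟩
  · rw [Complex.norm_real, Real.norm_eq_abs, abs_mul]
    have := mul_le_mul hc (h4 (u n) (u k) z) (abs_nonneg _) hMc
    linarith
  · have e : ∀ k, ‖((c * Ψ (u n) (u (k + 1)) z : ℝ) : ℂ) - ((c * Ψ (u n) (u k) z : ℝ) : ℂ)‖ =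
        |c| * |Ψ (u n) (u (k + 1)) z - Ψ (u n) (u k) z| := by
      intro k
      rw [← Complex.ofReal_sub, Complex.norm_real, Real.norm_eq_abs, ← mul_sub, abs_mul]
    simp_rw [e]
    rw [← Finset.mul_sum]
    have h7 := var_le (g := fun y => Ψ (u n) y z) hK hB (fun y y' => h2 _ y y' z)
      (fun y hy => h5 _ _ _ (Or.inr (Or.inl hy)))
      (fun y hy => h5 _ _ _ (Or.inr (Or.inr (Or.inr (Or.inr (Or.inl hy)))))) hu N
    have h8 := mul_le_mul hc h7 (Finset.sum_nonneg fun _ _ => abs_nonneg _) hMc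
    linarith
  · have e : ∀ n, ‖((c * Ψ (u (n + 1)) (u k) z : ℝ) : ℂ) - ((c * Ψ (u n) (u k) z : ℝ) : ℂ)‖ =
        |c| * |Ψ (u (n + 1)) (u k) z - Ψ (u n) (u k) z| := by
      intro n
      rw [← Complex.ofReal_sub, Complex.norm_real, Real.norm_eq_abs, ← mul_sub, abs_mul]
    simp_rw [e]
    rw [← Finset.mul_sum]
    have h7 := var_le (g := fun x => Ψ x (u k) z) hK hB (fun x x' => h1 x x' _ z)
      (fun x hx => h5 _ _ _ (Or.inl hx))
      (fun x hx => h5 _ _ _ (Or.inr (Or.inr (Or.inr (Or.inl hx))))) hu N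
    have h8 := mul_le_mul hc h7 (Finset.sum_nonneg fun _ _ => abs_nonneg _) hMc
    linarith

lemma le_rpow_of_log {x y T s : ℝ} (hT : 1 < T) (hx : 0 ≤ x) (hy : 0 ≤ y)
    (h : Real.log x / Real.log T + Real.log y / Real.log T ≤ s) : x * y ≤ T ^ s := by
  have hL : 0 < Real.log T := Real.log_pos hT
  rcases hx.eq_or_lt with h0 | hx
  · rw [← h0, zero_mul]; positivity
  rcases hy.eq_or_lt with h0 | hy
  · rw [← h0, mul_zero]; positivity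
  rw [← add_div, ← Real.log_mul hx.ne' hy.ne', div_le_iff₀ hL] at h
  rw [Real.rpow_def_of_pos (by linarith), mul_comm]
  rw [mul_comm (Real.log T) s, mul_comm y x]
  exact (Real.log_le_iff_le_exp (by positivity)).1 h

/-- main estimate -/
lemma main_est {w : ℝ → ℝ} (hw : Wgt w) {Ψ : ℝ → ℝ → ℝ → ℝ} (hΨ : LipT Ψ) {φ : ℝ → ℝ}
    (hφ : ContDiff ℝ (⊤ : ℕ∞) φ) {v ε : ℝ} (hε : 0 < ε) (hε1 : ε < 1) (hv0 : 0 < v)
    (hv : ∀ s, (s ≤ 0 ∨ v ≤ s) → φ s = 0)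
    (hs : (∀ x y z, Ψ x y z ≠ 0 → x + y ≤ 1 / 2 - ε ∧ v + z ≤ 1 - ε) ∨
      (∀ x y z, Ψ x y z ≠ 0 → v + z ≤ 1 / 2 - ε ∧ x + y ≤ 1 - ε)) :
    ∃ C A T₀ : ℝ, 0 < C ∧ 0 ≤ A ∧ 2 ≤ T₀ ∧ ∀ T : ℝ, T₀ ≤ T →
      |(∫ t : ℝ, w (t / T) * (‖riemannZeta (cl t)‖ ^ 2 *
      (VP φ (Real.log T) t * (starRingEnd ℂ) (CP Ψ (Real.log T) t)).re)) -
      (∫ x, w x) * T * Real.log T * S8 (fun s₀ s₁ s₂ r₀ r₁ r₂ =>
        (1 - s₀ - r₀) * φ s₁ * Ψ r₁ r₂ s₂) (Real.log T)| ≤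
      C * (T * S8 (fun _ s₁ s₂ _ r₁ r₂ => |φ s₁ * Ψ r₁ r₂ s₂|) (Real.log T) +
        A * T ^ (1 - ε / 2) * (1 + Real.log T) ^ 2) := by
  obtain ⟨Kp, Mp, hKp, hMp, hp1, hp2⟩ := lip_phi hφ hv
  obtain ⟨K, M, B, hK, hM, hB, q1, q2, q3, q4, q5⟩ := hΨ
  obtain ⟨C, T₀, hC, hT₀, H⟩ := err_sum hw hε hε1
  obtain ⟨A, hA⟩ : ∃ A : ℝ, A = Mp * M + Mp * (K * B) + Kp * v * M := ⟨_, rfl⟩
  have hA0 : 0 ≤ A := by rw [hA]; positivity
  refine ⟨C, A, T₀, hC, hA0, hT₀, fun T hT => ?_⟩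
  have hT1 : 1 < T := by linarith
  have hTp : 0 < T := by linarith
  have hL : 0 < Real.log T := Real.log_pos hT1
  obtain ⟨L, hLdef⟩ : ∃ L, L = Real.log T := ⟨_, rfl⟩
  obtain ⟨c, hc⟩ : ∃ c : ℕ → ℕ → ℕ → ℕ → ℝ, c = fun (a b n k : ℕ) =>
    φ (Real.log n / L) * Ψ (Real.log a / L) (Real.log b / L) (Real.log k / L) := ⟨_, rfl⟩
  have hpos : ∀ x y z, Ψ x y z ≠ 0 → 0 < x ∧ 0 < y ∧ 0 < z := by
    intro x y z h
    refine ⟨?_, ?_, ?_⟩ <;> by_contra h' <;> apply h <;> apply q5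
    · exact Or.inl (not_lt.1 h')
    · exact Or.inr (Or.inl (not_lt.1 h'))
    · exact Or.inr (Or.inr (Or.inl (not_lt.1 h')))
  have hle1 : ∀ x y z, Ψ x y z ≠ 0 → x ≤ 1 ∧ y ≤ 1 ∧ z ≤ 1 ∧ v ≤ 1 := by
    intro x y z h
    obtain ⟨h1, h2, h3⟩ := hpos x y z h
    rcases hs with h' | h'
    · have := h' x y z h
      refine ⟨?_, ?_, ?_, ?_⟩ <;> linarith [this.1, this.2]
    · have := h' x y z h
      refine ⟨?_, ?_, ?_, ?_⟩ <;> linarith [this.1, this.2]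
  have hvan : ∀ s₁ s₂ r₁ r₂, (1 < s₁ ∨ 1 < s₂ ∨ 1 < r₁ ∨ 1 < r₂) → φ s₁ * Ψ r₁ r₂ s₂ = 0 := by
    intro s₁ s₂ r₁ r₂ h
    by_cases hz : Ψ r₁ r₂ s₂ = 0
    · rw [hz, mul_zero]
    · obtain ⟨h1, h2, h3, h4⟩ := hle1 _ _ _ hz
      rcases h with h | h | h | h
      · rw [hv s₁ (Or.inr (by linarith)), zero_mul]
      · linarith
      · linarith
      · linarith
  -- the two sums
  have hS := S8_eq (fun s₀ s₁ s₂ r₀ r₁ r₂ => (1 - s₀ - r₀) * φ s₁ * Ψ r₁ r₂ s₂) (L := L)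
    (by rw [hLdef]; exact hL) (fun s₀ s₁ s₂ r₀ r₁ r₂ h => by
      rw [mul_assoc, hvan _ _ _ _ h, mul_zero])
  have hS1 := S8_eq (fun _ s₁ s₂ _ r₁ r₂ => |φ s₁ * Ψ r₁ r₂ s₂|) (L := L)
    (by rw [hLdef]; exact hL) (fun s₀ s₁ s₂ r₀ r₁ r₂ h => by
      rw [hvan _ _ _ _ h, abs_zero])
  -- main term
  have hmain : (∑ a ∈ NN L, ∑ b ∈ NN L, ∑ n ∈ NN L, ∑ k ∈ NN L,
      ((c a b n k / (Real.sqrt (a * b) * Real.sqrt (n * k)) : ℝ) : ℂ) *
        (M2main w T (a * b) (n * k) : ℂ)) =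
      (((∫ x, w x) * T * L * S8 (fun s₀ s₁ s₂ r₀ r₁ r₂ =>
        (1 - s₀ - r₀) * φ s₁ * Ψ r₁ r₂ s₂) L : ℝ) : ℂ) := by
    rw [hS]
    simp_rw [← Complex.ofReal_mul, ← Complex.ofReal_sum]
    congr 1
    rw [Finset.mul_sum]
    refine Finset.sum_congr rfl fun a ha => ?_
    rw [Finset.mul_sum]
    refine Finset.sum_congr rfl fun b hb => ?_
    rw [Finset.mul_sum]
    refine Finset.sum_congr rfl fun n hn => ?_
    rw [Finset.mul_sum]
    refine Finset.sum_congr rfl fun k hk => ?_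
    rw [mem_NN] at ha hb hn hk
    unfold M2main
    rw [log_red (Nat.mul_pos ha.1 hb.1) (Nat.mul_pos hn.1 hk.1), ← hLdef, hc]
    simp only
    have hL0 : L ≠ 0 := by rw [hLdef]; exact hL.ne'
    field_simp
    ring
  -- error
  have herr : ‖∑ a ∈ NN L, ∑ b ∈ NN L, ∑ n ∈ NN L, ∑ k ∈ NN L,
      ((c a b n k / (Real.sqrt (a * b) * Real.sqrt (n * k)) : ℝ) : ℂ) *
        (M2 w T (a * b) (n * k) - (M2main w T (a * b) (n * k) : ℂ))‖ ≤
      C * (T * (∑ a ∈ NN L, ∑ b ∈ NN L, ∑ n ∈ NN L, ∑ k ∈ NN L, |c a b n k| /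
          (Real.sqrt (a * b) * Real.sqrt (n * k) * Real.sqrt (red (a * b) (n * k)))) +
        A * T ^ (1 - ε / 2) * (1 + L) ^ 2) := by
    have hu : Monotone fun n : ℕ => Real.log n / L := log_mono (by rw [hLdef]; exact hL)
    have hne : ∀ a b n k, c a b n k ≠ 0 → 0 < Real.log n / L ∧ Real.log n / L < v ∧
        Ψ (Real.log a / L) (Real.log b / L) (Real.log k / L) ≠ 0 := by
      intro a b n k h
      rw [hc] at h
      simp only at h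
      have h1 : φ (Real.log n / L) ≠ 0 := left_ne_zero_of_mul h
      have h2 := right_ne_zero_of_mul h
      refine ⟨?_, ?_, h2⟩
      · by_contra h'
        exact h1 (hv _ (Or.inl (not_lt.1 h')))
      · by_contra h'
        exact h1 (hv _ (Or.inr (not_lt.1 h')))
    rcases hs with hs | hs
    · have h1 := H T hT c A hA0 (fun a b => by
        rw [hc, hA]
        exact bv_mix hKp hMp hv0.le hK hM hB hp1 hp2 hv (q3 _ _) (q4 _ _)
          (fun z hz => q5 _ _ _ (by tauto)) hu) (fun a b n k h => by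
        obtain ⟨h2, h3, h4⟩ := hne a b n k h
        obtain ⟨h5, h6⟩ := hs _ _ _ h4
        rw [hLdef] at h2 h3 h5 h6
        exact ⟨le_rpow_of_log hT1 (Nat.cast_nonneg a) (Nat.cast_nonneg b) h5,
          le_rpow_of_log hT1 (Nat.cast_nonneg n) (Nat.cast_nonneg k) (by linarith)⟩)
      rw [← hLdef] at h1
      exact h1
    · have h1 := H T hT (fun n k a b => c a b n k) A hA0 (fun n k => by
        rw [hc]
        have h2 := bv_Psi hK hM hB q1 q2 q4 q5 (hp2 (Real.log n / L)) (Real.log k / L) hu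
        have h3 : Mp * M + Mp * (K * B) ≤ A := by
          rw [hA]
          have : 0 ≤ Kp * v * M := by positivity
          linarith
        exact ⟨fun a b => (h2.b0 a b).trans h3, fun a N => (h2.bk a N).trans h3,
          fun b N => (h2.bn b N).trans h3⟩) (fun n k a b h => by
        obtain ⟨h2, h3, h4⟩ := hne a b n k h
        obtain ⟨h5, h6⟩ := hs _ _ _ h4
        rw [hLdef] at h2 h3 h5 h6
        exact ⟨le_rpow_of_log hT1 (Nat.cast_nonneg n) (Nat.cast_nonneg k) (by linarith),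
          le_rpow_of_log hT1 (Nat.cast_nonneg a) (Nat.cast_nonneg b) h6⟩)
      rw [← hLdef] at h1
      have e1 : ∑ a ∈ NN L, ∑ b ∈ NN L, ∑ n ∈ NN L, ∑ k ∈ NN L,
          ((c a b n k / (Real.sqrt (a * b) * Real.sqrt (n * k)) : ℝ) : ℂ) *
          (M2 w T (a * b) (n * k) - (M2main w T (a * b) (n * k) : ℂ)) =
          (starRingEnd ℂ) (∑ n ∈ NN L, ∑ k ∈ NN L, ∑ a ∈ NN L, ∑ b ∈ NN L,
          ((c a b n k / (Real.sqrt (n * k) * Real.sqrt (a * b)) : ℝ) : ℂ) *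
          (M2 w T (n * k) (a * b) - (M2main w T (n * k) (a * b) : ℂ))) := by
        rw [comm4 (NN L)]
        simp only [map_sum, map_mul, map_sub, Complex.conj_ofReal]
        refine Finset.sum_congr rfl fun n _ => Finset.sum_congr rfl fun k _ =>
          Finset.sum_congr rfl fun a _ => Finset.sum_congr rfl fun b _ => ?_
        rw [← M2_swap w T (n * k) (a * b), M2main_swap w T (n * k) (a * b), mul_comm (Real.sqrt _)]
      have e2 : ∑ a ∈ NN L, ∑ b ∈ NN L, ∑ n ∈ NN L, ∑ k ∈ NN L, |c a b n k| /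
          (Real.sqrt (a * b) * Real.sqrt (n * k) * Real.sqrt (red (a * b) (n * k))) =
          ∑ n ∈ NN L, ∑ k ∈ NN L, ∑ a ∈ NN L, ∑ b ∈ NN L, |c a b n k| /
          (Real.sqrt (n * k) * Real.sqrt (a * b) * Real.sqrt (red (n * k) (a * b))) := by
        rw [comm4 (NN L)]
        refine Finset.sum_congr rfl fun n _ => Finset.sum_congr rfl fun k _ =>
          Finset.sum_congr rfl fun a _ => Finset.sum_congr rfl fun b _ => ?_
        rw [red_swap (n * k) (a * b), mul_comm (Real.sqrt ((a : ℝ) * b))]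
      rw [e1, e2, RCLike.norm_conj]
      exact h1
  rw [expand hw φ Ψ hTp (Real.log T), ← hLdef]
  have e3 : (∫ x, w x) * T * L * S8 (fun s₀ s₁ s₂ r₀ r₁ r₂ =>
        (1 - s₀ - r₀) * φ s₁ * Ψ r₁ r₂ s₂) L =
      (∑ a ∈ NN L, ∑ b ∈ NN L, ∑ n ∈ NN L, ∑ k ∈ NN L,
      ((c a b n k / (Real.sqrt (a * b) * Real.sqrt (n * k)) : ℝ) : ℂ) *
        (M2main w T (a * b) (n * k) : ℂ)).re := by
    rw [hmain, Complex.ofReal_re]
  rw [e3, ← Complex.sub_re]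
  refine (Complex.abs_re_le_norm _).trans ?_
  have e4 : (∑ a ∈ NN L, ∑ b ∈ NN L, ∑ n ∈ NN L, ∑ k ∈ NN L,
        ((φ (Real.log n / L) * Ψ (Real.log a / L) (Real.log b / L) (Real.log k / L) /
          (Real.sqrt (a * b) * Real.sqrt (n * k)) : ℝ) : ℂ) * M2 w T (a * b) (n * k)) -
      (∑ a ∈ NN L, ∑ b ∈ NN L, ∑ n ∈ NN L, ∑ k ∈ NN L,
      ((c a b n k / (Real.sqrt (a * b) * Real.sqrt (n * k)) : ℝ) : ℂ) *
        (M2main w T (a * b) (n * k) : ℂ)) =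
      ∑ a ∈ NN L, ∑ b ∈ NN L, ∑ n ∈ NN L, ∑ k ∈ NN L,
      ((c a b n k / (Real.sqrt (a * b) * Real.sqrt (n * k)) : ℝ) : ℂ) *
        (M2 w T (a * b) (n * k) - (M2main w T (a * b) (n * k) : ℂ)) := by
    simp only [← Finset.sum_sub_distrib, mul_sub]
    rw [hc]
  rw [e4]
  refine herr.trans (le_of_eq ?_)
  rw [hS1, hc]
  congr 3
  refine Finset.sum_congr rfl fun a _ => Finset.sum_congr rfl fun b _ =>
    Finset.sum_congr rfl fun n _ => Finset.sum_congr rfl fun k _ => ?_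
  rw [one_div_mul_eq_div]

end MeanXVR
namespace MeanXVR

lemma tends_err {ε : ℝ} (hε : 0 < ε) (A : ℝ) :
    Tendsto (fun T : ℝ => A * T ^ (-(ε / 2)) * (1 + Real.log T) ^ 2 / Real.log T ^ 9) atTop (𝓝 0) := by
  have h1 : Tendsto (fun T : ℝ => T ^ (-(ε / 2))) atTop (𝓝 0) :=
    tendsto_rpow_neg_atTop (half_pos hε)
  have h2 : Tendsto (fun T : ℝ => (1 + Real.log T) ^ 2 / Real.log T ^ 9) atTop (𝓝 0) := by
    have h3 : Tendsto (fun L : ℝ => (1 + L) ^ 2 / L ^ 9) atTop (𝓝 0) := by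
      have h4 : Tendsto (fun L : ℝ => 4 * L⁻¹) atTop (𝓝 (4 * 0)) := tendsto_inv_atTop_zero.const_mul 4
      rw [mul_zero] at h4
      refine squeeze_zero' ?_ ?_ h4
      · filter_upwards [eventually_ge_atTop 1] with L hL
        positivity
      · filter_upwards [eventually_ge_atTop 1] with L hL
        have hL0 : 0 < L := by linarith
        rw [div_le_iff₀ (by positivity)]
        have e : 4 * L⁻¹ * L ^ 9 = 4 * L ^ 8 := by field_simp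
        rw [e]
        have h5 : L ^ 2 ≤ L ^ 8 := pow_le_pow_right₀ hL (by norm_num)
        nlinarith
    exact h3.comp Real.tendsto_log_atTop
  have h5 := (h1.mul h2).const_mul A
  rw [mul_zero, mul_zero] at h5
  refine h5.congr fun T => ?_
  ring

end MeanXVR

theorem mean_xVR_lip {w : ℝ → ℝ} (hw : Wgt w) {Ψ : ℝ → ℝ → ℝ → ℝ} (hΨ : MeanXVR.LipT Ψ)
    (hΨ0 : Continuous fun p : ℝ × ℝ × ℝ => Ψ p.1 p.2.1 p.2.2) {φ : ℝ → ℝ}
    (hφ : ContDiff ℝ (⊤ : ℕ∞) φ) {v ε : ℝ} (hε : 0 < ε) (hv0 : 0 < v)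
    (hv : ∀ s, (s ≤ 0 ∨ v ≤ s) → φ s = 0)
    (hs : (∀ x y z, Ψ x y z ≠ 0 → x + y ≤ 1 / 2 - ε ∧ v + z ≤ 1 - ε) ∨
      (∀ x y z, Ψ x y z ≠ 0 → v + z ≤ 1 / 2 - ε ∧ x + y ≤ 1 - ε)) :
    Tendsto (fun T : ℝ => (1 / T) * (∫ t : ℝ, w (t / T) * (‖riemannZeta (cl t)‖ ^ 2 *
      (VP φ (Real.log T) t * (starRingEnd ℂ) (CP Ψ (Real.log T) t)).re)) / Real.log T ^ 9) atTop
      (𝓝 ((∫ x, w x) * (ar 3 * I8 (fun s₀ s₁ s₂ r₀ r₁ r₂ =>
        (1 - s₀ - r₀) * φ s₁ * Ψ r₁ r₂ s₂)))) := by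
  obtain ⟨ε₁, hε₁⟩ : ∃ ε₁ : ℝ, ε₁ = min ε (1 / 4) := ⟨_, rfl⟩
  have h0 : 0 < ε₁ := by rw [hε₁]; exact lt_min hε (by norm_num)
  have h1 : ε₁ ≤ ε := by rw [hε₁]; exact min_le_left _ _
  have h2 : ε₁ ≤ 1 / 4 := by rw [hε₁]; exact min_le_right _ _
  have hs' : (∀ x y z, Ψ x y z ≠ 0 → x + y ≤ 1 / 2 - ε₁ ∧ v + z ≤ 1 - ε₁) ∨
      (∀ x y z, Ψ x y z ≠ 0 → v + z ≤ 1 / 2 - ε₁ ∧ x + y ≤ 1 - ε₁) := by
    rcases hs with hs | hs
    · left
      intro x y z h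
      have := hs x y z h
      exact ⟨by linarith [this.1], by linarith [this.2]⟩
    · right
      intro x y z h
      have := hs x y z h
      exact ⟨by linarith [this.1], by linarith [this.2]⟩
  obtain ⟨C, A, T₀, hC, hA, hT₀, H⟩ := MeanXVR.main_est hw hΨ hφ h0 (by linarith) hv0 hv hs'
  obtain ⟨K, M, B, -, -, -, -, -, -, -, q5⟩ := hΨ
  have hΨc : Continuous fun p : (ℝ × ℝ × ℝ) × (ℝ × ℝ × ℝ) => Ψ p.2.2.1 p.2.2.2 p.1.2.2 :=
    hΨ0.comp (f := fun p : (ℝ × ℝ × ℝ) × (ℝ × ℝ × ℝ) =>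
      ((p.2.2.1, p.2.2.2, p.1.2.2) : ℝ × ℝ × ℝ)) (by fun_prop)
  have hφc : Continuous fun p : (ℝ × ℝ × ℝ) × (ℝ × ℝ × ℝ) => φ p.1.2.1 :=
    hφ.continuous.comp (by fun_prop)
  have hvan : ∀ s₁ s₂ r₁ r₂, (max v B ≤ s₁ ∨ max v B ≤ s₂ ∨ max v B ≤ r₁ ∨ max v B ≤ r₂) →
      φ s₁ * Ψ r₁ r₂ s₂ = 0 := by
    intro s₁ s₂ r₁ r₂ h
    rcases h with h | h | h | h
    · rw [hv s₁ (Or.inr ((le_max_left _ _).trans h)), zero_mul]
    · rw [q5 _ _ _ (Or.inr (Or.inr (Or.inr (Or.inr (Or.inr ((le_max_right _ _).trans h)))))), mul_zero]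
    · rw [q5 _ _ _ (Or.inr (Or.inr (Or.inr (Or.inl ((le_max_right _ _).trans h))))), mul_zero]
    · rw [q5 _ _ _ (Or.inr (Or.inr (Or.inr (Or.inr (Or.inl ((le_max_right _ _).trans h)))))), mul_zero]
  have t1 := (S8_tendsto (G := fun s₀ s₁ s₂ r₀ r₁ r₂ => (1 - s₀ - r₀) * φ s₁ * Ψ r₁ r₂ s₂)
    (by
      unfold Cont6
      exact (Continuous.mul (by fun_prop) hφc).mul hΨc) (max v B)
    (fun s₀ s₁ s₂ r₀ r₁ r₂ h => by rw [mul_assoc, hvan _ _ _ _ h, mul_zero])).comp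
      Real.tendsto_log_atTop
  have t2 := (S8_tendsto (G := fun _ s₁ s₂ _ r₁ r₂ => |φ s₁ * Ψ r₁ r₂ s₂|)
    (by
      unfold Cont6
      exact (hφc.mul hΨc).abs) (max v B)
    (fun s₀ s₁ s₂ r₀ r₁ r₂ h => by rw [hvan _ _ _ _ h, abs_zero])).comp
      Real.tendsto_log_atTop
  have t3 : Tendsto (fun T : ℝ => (Real.log T)⁻¹) atTop (𝓝 0) :=
    tendsto_inv_atTop_zero.comp Real.tendsto_log_atTop
  have t4 := (((t2.mul t3).add (MeanXVR.tends_err h0 A)).const_mul C)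
  rw [mul_zero, add_zero, mul_zero] at t4
  have t5 : Tendsto (fun T : ℝ => (1 / T) * (∫ t : ℝ, w (t / T) * (‖riemannZeta (cl t)‖ ^ 2 *
      (VP φ (Real.log T) t * (starRingEnd ℂ) (CP Ψ (Real.log T) t)).re)) / Real.log T ^ 9 -
      (∫ x, w x) * (S8 (fun s₀ s₁ s₂ r₀ r₁ r₂ =>
        (1 - s₀ - r₀) * φ s₁ * Ψ r₁ r₂ s₂) (Real.log T) / Real.log T ^ 8)) atTop (𝓝 0) := by
    refine squeeze_zero_norm' ?_ t4
    filter_upwards [eventually_ge_atTop T₀] with T hT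
    have hT1 : 1 < T := by linarith
    have hTp : 0 < T := by linarith
    have hL : 0 < Real.log T := Real.log_pos hT1
    have h3 := H T hT
    obtain ⟨I, hI⟩ : ∃ I : ℝ, I = ∫ t : ℝ, w (t / T) * (‖riemannZeta (cl t)‖ ^ 2 *
      (VP φ (Real.log T) t * (starRingEnd ℂ) (CP Ψ (Real.log T) t)).re) := ⟨_, rfl⟩
    rw [← hI] at h3 ⊢
    obtain ⟨S, hS⟩ : ∃ S : ℝ, S = S8 (fun s₀ s₁ s₂ r₀ r₁ r₂ =>
        (1 - s₀ - r₀) * φ s₁ * Ψ r₁ r₂ s₂) (Real.log T) := ⟨_, rfl⟩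
    rw [← hS] at h3 ⊢
    simp only [Function.comp_apply]
    obtain ⟨S', hS'⟩ : ∃ S : ℝ, S = S8 (fun _ s₁ s₂ _ r₁ r₂ => |φ s₁ * Ψ r₁ r₂ s₂|)
      (Real.log T) := ⟨_, rfl⟩
    rw [← hS'] at h3 ⊢
    obtain ⟨L, hLd⟩ : ∃ L : ℝ, L = Real.log T := ⟨_, rfl⟩
    rw [← hLd] at h3 hL ⊢
    have e1 : 1 / T * I / L ^ 9 - (∫ x, w x) * (S / L ^ 8) =
        (I - (∫ x, w x) * T * L * S) / (T * L ^ 9) := by
      field_simp
    have e2 : C * (S' / L ^ 8 * L⁻¹ + A * T ^ (-(ε₁ / 2)) * (1 + L) ^ 2 / L ^ 9) =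
        C * (T * S' + A * T ^ (1 - ε₁ / 2) * (1 + L) ^ 2) / (T * L ^ 9) := by
      have e3 : T ^ (1 - ε₁ / 2) = T * T ^ (-(ε₁ / 2)) := by
        rw [sub_eq_add_neg, Real.rpow_add hTp, Real.rpow_one]
      rw [e3]
      field_simp
    rw [e1, e2, Real.norm_eq_abs, abs_div, abs_of_pos (show 0 < T * L ^ 9 by positivity)]
    gcongr
  have t6 := t5.add (t1.const_mul (∫ x, w x))
  rw [zero_add] at t6
  refine t6.congr fun T => ?_
  simp only [Function.comp_apply]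
  ring

theorem mean_xVR {w : ℝ → ℝ} (hw : Wgt w) {Ψ : ℝ → ℝ → ℝ → ℝ} (hΨ : Tst Ψ) {φ : ℝ → ℝ}
    (hφ : ContDiff ℝ (⊤ : ℕ∞) φ) {v ε : ℝ} (hε : 0 < ε) (hv0 : 0 < v)
    (hv : ∀ s, (s ≤ 0 ∨ v ≤ s) → φ s = 0)
    (hs : (∀ x y z, Ψ x y z ≠ 0 → x + y ≤ 1 / 2 - ε ∧ v + z ≤ 1 - ε) ∨
      (∀ x y z, Ψ x y z ≠ 0 → v + z ≤ 1 / 2 - ε ∧ x + y ≤ 1 - ε)) :
    Tendsto (fun T : ℝ => (1 / T) * (∫ t : ℝ, w (t / T) * (‖riemannZeta (cl t)‖ ^ 2 *
      (VP φ (Real.log T) t * (starRingEnd ℂ) (CP Ψ (Real.log T) t)).re)) / Real.log T ^ 9) atTop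
      (𝓝 ((∫ x, w x) * (ar 3 * I8 (fun s₀ s₁ s₂ r₀ r₁ r₂ =>
        (1 - s₀ - r₀) * φ s₁ * Ψ r₁ r₂ s₂)))) :=
  mean_xVR_lip hw (MeanXVR.lip_Psi hΨ) hΨ.smooth.continuous hφ hε hv0 hv hs

end Pool.Agent.SixT
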