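import Mathlib
import Pool.Agent.Lib_MP_112ba8_t.Defs
import Pool.Agent.Lib_MP_112ba8_t.S8lim
import Pool.Agent.Lib_MP_112ba8_t.MeanXVR

/-!
Piece D3. `‖V‖⁴ = V conj(C)` with `C = V V conj(V)`, which is the sum `CP Ψ` for
`Ψ x y z = φ x φ y φ z`, so the mean value is a case of the one of `MeanXVR.lean`.
-/

namespace Pool.Agent.SixT

open Filter Topology MeasureTheory
open Pool.Agent.EvenMoment (cl Wgt Sz ker ar)

namespace MeanXV4

lemma CP_eq (φ : ℝ → ℝ) (L t : ℝ) :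
    CP (fun x y z => φ x * φ y * φ z) L t =
      VP φ L t * VP φ L t * (starRingEnd ℂ) (VP φ L t) := by
  unfold VP CP
  rw [map_sum, Finset.sum_mul_sum, Finset.sum_mul]
  refine Finset.sum_congr rfl fun a _ => ?_
  rw [Finset.sum_mul]
  refine Finset.sum_congr rfl fun b _ => ?_
  rw [Finset.mul_sum]
  refine Finset.sum_congr rfl fun k _ => ?_
  have e : φ (Real.log a / L) * φ (Real.log b / L) * φ (Real.log k / L) / Real.sqrt (a * b * k) =
      φ (Real.log a / L) / Real.sqrt a * (φ (Real.log b / L) / Real.sqrt b) *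
      (φ (Real.log k / L) / Real.sqrt k) := by
    rw [Real.sqrt_mul (by positivity) (k : ℝ), Real.sqrt_mul (by positivity) (b : ℝ)]
    ring
  rw [e, map_mul, Complex.conj_ofReal]
  push_cast
  ring

lemma norm4 (φ : ℝ → ℝ) (L t : ℝ) :
    (VP φ L t * (starRingEnd ℂ) (CP (fun x y z => φ x * φ y * φ z) L t)).re = ‖VP φ L t‖ ^ 4 := by
  rw [CP_eq]
  have e : VP φ L t * (starRingEnd ℂ) (VP φ L t * VP φ L t * (starRingEnd ℂ) (VP φ L t)) =
      (VP φ L t * (starRingEnd ℂ) (VP φ L t)) * (VP φ L t * (starRingEnd ℂ) (VP φ L t)) := by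
    simp only [map_mul, Complex.conj_conj]
    ring
  rw [e, Complex.mul_conj, ← Complex.ofReal_mul, Complex.ofReal_re, Complex.normSq_eq_norm_sq]
  ring

lemma abs_mul3 {a b c A B C : ℝ} (ha : |a| ≤ A) (hb : |b| ≤ B) (hc : |c| ≤ C) :
    |a * b * c| ≤ A * B * C := by
  rw [abs_mul, abs_mul]
  have hA : 0 ≤ A := (abs_nonneg a).trans ha
  have hB : 0 ≤ B := (abs_nonneg b).trans hb
  exact mul_le_mul (mul_le_mul ha hb (abs_nonneg _) hA) hc (abs_nonneg _) (mul_nonneg hA hB)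

lemma lip_triple {φ : ℝ → ℝ} (hφ : ContDiff ℝ (⊤ : ℕ∞) φ) {v : ℝ} (hv0 : 0 < v)
    (hv : ∀ s, (s ≤ 0 ∨ v ≤ s) → φ s = 0) : MeanXVR.LipT fun x y z => φ x * φ y * φ z := by
  obtain ⟨K, M, hK, hM, h1, h2⟩ := MeanXVR.lip_phi hφ hv
  refine ⟨K * M * M, M * M * M, v, by positivity, by positivity, hv0.le, fun x x' y z => ?_,
    fun x y y' z => ?_, fun x y z z' => ?_, fun x y z => abs_mul3 (h2 x) (h2 y) (h2 z),
    fun x y z h => ?_⟩
  · have e : φ x * φ y * φ z - φ x' * φ y * φ z = (φ x - φ x') * φ y * φ z := by ring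
    simp only
    rw [e]
    refine (abs_mul3 (h1 x x') (h2 y) (h2 z)).trans (le_of_eq ?_)
    ring
  · have e : φ x * φ y * φ z - φ x * φ y' * φ z = (φ y - φ y') * φ x * φ z := by ring
    simp only
    rw [e]
    refine (abs_mul3 (h1 y y') (h2 x) (h2 z)).trans (le_of_eq ?_)
    ring
  · have e : φ x * φ y * φ z - φ x * φ y * φ z' = (φ z - φ z') * φ x * φ y := by ring
    simp only
    rw [e]
    refine (abs_mul3 (h1 z z') (h2 x) (h2 y)).trans (le_of_eq ?_)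
    ring
  · simp only
    rcases h with h | h | h | h | h | h
    · rw [hv x (Or.inl h)]; ring
    · rw [hv y (Or.inl h)]; ring
    · rw [hv z (Or.inl h)]; ring
    · rw [hv x (Or.inr h)]; ring
    · rw [hv y (Or.inr h)]; ring
    · rw [hv z (Or.inr h)]; ring

end MeanXV4

theorem mean_xV4 {w : ℝ → ℝ} (hw : Wgt w) {φ : ℝ → ℝ}
    (hφ : ContDiff ℝ (⊤ : ℕ∞) φ) {v : ℝ} (hv0 : 0 < v) (hv1 : v < 1 / 4)
    (hv : ∀ s, (s ≤ 0 ∨ v ≤ s) → φ s = 0) :
    Tendsto (fun T : ℝ => (1 / T) * (∫ t : ℝ, w (t / T) * (‖riemannZeta (cl t)‖ ^ 2 *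
      ‖VP φ (Real.log T) t‖ ^ 4)) / Real.log T ^ 9) atTop
      (𝓝 ((∫ x, w x) * (ar 3 * I8 (fun s₀ s₁ s₂ r₀ r₁ r₂ =>
        (1 - s₀ - r₀) * φ s₁ * φ s₂ * φ r₁ * φ r₂)))) := by
  have hne : ∀ x, φ x ≠ 0 → x < v := by
    intro x h
    by_contra h'
    exact h (hv x (Or.inr (not_lt.1 h')))
  have h1 := mean_xVR_lip hw (MeanXV4.lip_triple hφ hv0 hv)
    (by
      have := hφ.continuous
      fun_prop) hφ (v := v) (ε := 1 / 2 - 2 * v) (by linarith) hv0 hv (Or.inl fun x y z h => by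
      have hx := hne x (left_ne_zero_of_mul (left_ne_zero_of_mul h))
      have hy := hne y (right_ne_zero_of_mul (left_ne_zero_of_mul h))
      have hz := hne z (right_ne_zero_of_mul h)
      exact ⟨by linarith, by linarith⟩)
  have e : (fun s₀ s₁ s₂ r₀ r₁ r₂ : ℝ => (1 - s₀ - r₀) * φ s₁ * φ s₂ * φ r₁ * φ r₂) =
      fun s₀ s₁ s₂ r₀ r₁ r₂ => (1 - s₀ - r₀) * φ s₁ * (φ r₁ * φ r₂ * φ s₂) := by
    funext s₀ s₁ s₂ r₀ r₁ r₂
    ring
  rw [e]
  simp_rw [MeanXV4.norm4] at h1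
  exact h1

end Pool.Agent.SixT
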