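import Mathlib
import Pool.Agent.Lib_MP_112ba8_t.Defs
import Pool.Agent.Lib_MP_112ba8_t.S9lim
import Pool.Agent.Lib_MP_112ba8_e.Diag
import Pool.Agent.Lib_MP_112ba8_e.Twisted

/-!
Piece D4: `|V|² ζ conj(C)`.

`ζ(1/2+it)` is replaced by `∑_{n₀ ≤ M} n₀^{-1/2-it} + M^{1/2-it}/(-1/2+it)` with `M = ⌈T⌉^12`
(`zeta_split`, Euler-Maclaurin; error `≤ C T^{-6}`), and `1/(-1/2+it)` is expanded in powers of `1/(it)`
(`geom_inv`), `w(x)/x^{j+1}` being again a weight: so no mean value bound of `|V|²|C|` is needed.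
* diagonal `n₀n₁n₂ = m₀m₁m₂`: exactly `S9 G L`, `G = φ s₁ * φ r₀ * Ψ r₁ r₂ s₂` (`diag_S9`).
* off-diagonal (`Q_lemma`): `m₀m₁m₂ ≤ T^{1-ε}` and `osc_decay`.
-/

namespace Pool.Agent.SixT

open Filter Topology MeasureTheory
open Pool.Agent.EvenMoment (cl Wgt Sz ker ar)

/-- Euler-Maclaurin with the main term kept -/
private lemma zeta_split {M : ℕ} (hM : 0 < M) {t : ℝ} (ht : 0 < t) :
    ‖riemannZeta (cl t) - Pool.Agent.ZetaMoment.DP (fun _ => 1) M t -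
      (M : ℂ) ^ (1 - cl t) / (cl t - 1)‖ ≤
      (M : ℝ) ^ (-(1 / 2) : ℝ) + (t + 1) * (t + 2) * (2 * (M : ℝ) ^ (-(3 / 2) : ℝ)) := by
  set s : ℂ := 1 / 2 + t * Complex.I with hs_def
  have hcl : cl t = s := rfl
  have hre : s.re = 1 / 2 := by simp [hs_def]
  have him : s.im = t := by simp [hs_def]
  have hs : s ∈ Pool.Agent.ZetaMoment.Ud := ⟨by rw [hre]; norm_num, by rw [him]; exact ht⟩
  have hM' : (0 : ℝ) < M := by exact_mod_cast hM
  have hM1 : (1 : ℝ) ≤ M := by exact_mod_cast hM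
  have hDP : Pool.Agent.ZetaMoment.DP (fun _ => 1) M t = ∑ n ∈ Finset.Icc 1 M, (n : ℂ) ^ (-s) := by
    unfold Pool.Agent.ZetaMoment.DP
    refine Finset.sum_congr rfl fun n _ => ?_
    simp [hs_def]
  rw [hcl, ← Pool.Agent.ZetaMoment.EM_eq_zeta hM hs, hDP, Pool.Agent.ZetaMoment.EM,
    Pool.Agent.ZetaMoment.EM_tail hs]
  have e1 : ∑ n ∈ Finset.Icc 1 M, (n : ℂ) ^ (-s) - (M : ℂ) ^ (-s) / 2 +
      (M : ℂ) ^ (1 - s) / (s - 1) +
      ∑' j : ℕ, Pool.Agent.ZetaMoment.Gt (M + j) s - ∑ n ∈ Finset.Icc 1 M, (n : ℂ) ^ (-s) -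
        (M : ℂ) ^ (1 - s) / (s - 1) =
      - ((M : ℂ) ^ (-s) / 2) + ∑' j : ℕ, Pool.Agent.ZetaMoment.Gt (M + j) s := by ring
  rw [e1]
  refine (norm_add_le _ _).trans (add_le_add ?_ ?_)
  · rw [norm_neg, norm_div, Complex.norm_natCast_cpow_of_pos hM, Complex.neg_re, hre,
      Complex.norm_ofNat]
    have : (0 : ℝ) ≤ (M : ℝ) ^ (-(1 / 2) : ℝ) := by positivity
    linarith
  · have hns : ‖s‖ ≤ t + 1 := by
      calc ‖s‖ ≤ ‖(1 / 2 : ℂ)‖ + ‖(t * Complex.I : ℂ)‖ := norm_add_le _ _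
        _ = 1 / 2 + t := by
            rw [norm_mul, Complex.norm_I, Complex.norm_real, Real.norm_of_nonneg ht.le]; norm_num
        _ ≤ t + 1 := by linarith
    have hns1 : ‖s + 1‖ ≤ t + 2 := by
      calc ‖s + 1‖ ≤ ‖s‖ + ‖(1 : ℂ)‖ := norm_add_le _ _
        _ ≤ t + 2 := by rw [norm_one]; linarith
    have hb : ∀ j : ℕ, ‖Pool.Agent.ZetaMoment.Gt (M + j) s‖ ≤
        (t + 1) * (t + 2) * (M : ℝ) ^ (-(1 / 2) : ℝ) * (1 / ((M + j : ℕ) : ℝ) ^ 2) := by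
      intro j
      have h1 := Pool.Agent.ZetaMoment.Gt_bound (m := M + j) (by omega) hs.1
        (Pool.Agent.ZetaMoment.Ud_ne_one hs)
      rw [hre] at h1
      have hMj : (M : ℝ) ≤ ((M + j : ℕ) : ℝ) := by push_cast; linarith [Nat.cast_nonneg (α := ℝ) j]
      have hMj0 : (0 : ℝ) < ((M + j : ℕ) : ℝ) := by linarith
      have h2 : ((M + j : ℕ) : ℝ) ^ (-(1 / 2 + 2) : ℝ) ≤
          (M : ℝ) ^ (-(1 / 2) : ℝ) * (1 / ((M + j : ℕ) : ℝ) ^ 2) := by
        have h3 : (-(1 / 2 + 2) : ℝ) = -(1 / 2) + (-2) := by norm_num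
        rw [h3, Real.rpow_add hMj0]
        have h4 : ((M + j : ℕ) : ℝ) ^ (-2 : ℝ) = 1 / ((M + j : ℕ) : ℝ) ^ 2 := by
          rw [Real.rpow_neg hMj0.le, one_div]; norm_cast
        rw [h4]
        gcongr ?_ * _
        exact Real.rpow_le_rpow_of_nonpos hM' hMj (by norm_num)
      calc ‖Pool.Agent.ZetaMoment.Gt (M + j) s‖ ≤
            ‖s‖ * ‖s + 1‖ * ((M + j : ℕ) : ℝ) ^ (-(1 / 2 + 2) : ℝ) := h1
        _ ≤ (t + 1) * (t + 2) * ((M : ℝ) ^ (-(1 / 2) : ℝ) * (1 / ((M + j : ℕ) : ℝ) ^ 2)) := by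
            gcongr
        _ = _ := by ring
    have hsum := (Pool.Agent.ZetaMoment.inv_sq_summable M).mul_left
      ((t + 1) * (t + 2) * (M : ℝ) ^ (-(1 / 2) : ℝ))
    refine (tsum_of_norm_bounded hsum.hasSum hb).trans ?_
    rw [tsum_mul_left]
    have h5 := Pool.Agent.ZetaMoment.tail_sum_le hM
    have h6 : (M : ℝ) ^ (-(3 / 2) : ℝ) = (M : ℝ) ^ (-(1 / 2) : ℝ) * (1 / M) := by
      have : (-(3 / 2) : ℝ) = -(1 / 2) + (-1) := by norm_num
      rw [this, Real.rpow_add hM', Real.rpow_neg_one, ← one_div]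
    rw [h6]
    calc (t + 1) * (t + 2) * (M : ℝ) ^ (-(1 / 2) : ℝ) * ∑' j : ℕ, 1 / ((M + j : ℕ) : ℝ) ^ 2
        ≤ (t + 1) * (t + 2) * (M : ℝ) ^ (-(1 / 2) : ℝ) * (2 / M) := by gcongr
      _ = _ := by ring

private lemma geom_inv (t : ℝ) (ht : 0 < t) (J : ℕ) :
    ‖1 / (cl t - 1) - ∑ j ∈ Finset.range J,
      ((1 / 2 : ℂ) ^ j / Complex.I ^ (j + 1)) / (t : ℂ) ^ (j + 1)‖ ≤ 1 / t ^ (J + 1) := by
  have ht0 : (t : ℂ) ≠ 0 := by exact_mod_cast ht.ne'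
  have hI := Complex.I_ne_zero
  have hne : cl t - 1 ≠ 0 := by
    intro h
    have := congrArg Complex.im h
    simp [cl] at this
    exact ht.ne' this
  have hu : (t * Complex.I : ℂ) ≠ 0 := mul_ne_zero ht0 hI
  have key : ∀ J : ℕ, 1 / (cl t - 1) - ∑ j ∈ Finset.range J,
      ((1 / 2 : ℂ) ^ j / Complex.I ^ (j + 1)) / (t : ℂ) ^ (j + 1) =
      (1 / 2 : ℂ) ^ J / (t * Complex.I) ^ J * (1 / (cl t - 1)) := by
    intro J
    induction J with
    | zero => simp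
    | succ J ih =>
      rw [Finset.sum_range_succ, ← sub_sub, ih]
      have e1 : ((1 / 2 : ℂ) ^ J / Complex.I ^ (J + 1)) / (t : ℂ) ^ (J + 1) =
          (1 / 2 : ℂ) ^ J / (t * Complex.I) ^ J * (1 / (t * Complex.I)) := by
        rw [mul_pow]
        field_simp
        ring
      rw [e1, ← mul_sub]
      have e2 : 1 / (cl t - 1) - 1 / (t * Complex.I) =
          (1 / 2) / (t * Complex.I) * (1 / (cl t - 1)) := by
        field_simp
        unfold cl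
        ring
      rw [e2, pow_succ, pow_succ]
      field_simp
  have h0 : ‖(1 / 2 : ℂ) ^ J / (t * Complex.I) ^ J * (1 / (cl t - 1))‖ =
      ‖(1 / 2 : ℂ)‖ ^ J / t ^ J * (1 / ‖cl t - 1‖) := by
    rw [norm_mul, norm_div, norm_pow, norm_pow, norm_mul, Complex.norm_I, mul_one,
      Complex.norm_real, Real.norm_of_nonneg ht.le, norm_div 1 (cl t - 1), norm_one]
  rw [key J, h0]
  have h1 : t ≤ ‖cl t - 1‖ := by
    have := Complex.abs_im_le_norm (cl t - 1)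
    simp [cl] at this
    exact (le_abs_self t).trans (by simpa [cl] using this)
  have h2 : ‖(1 / 2 : ℂ)‖ ^ J ≤ 1 := by
    apply pow_le_one₀ (norm_nonneg _)
    norm_num
  calc ‖(1 / 2 : ℂ)‖ ^ J / t ^ J * (1 / ‖cl t - 1‖) ≤ 1 / t ^ J * (1 / t) := by gcongr
    _ = 1 / t ^ (J + 1) := by rw [pow_succ]; field_simp

/-- coefficients of the expansion -/
private noncomputable def gj (j : ℕ) : ℂ := (1 / 2 : ℂ) ^ j / Complex.I ^ (j + 1)

/-- the approximation to zeta -/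
private noncomputable def ZA (N : ℕ) (t : ℝ) : ℂ :=
  Pool.Agent.ZetaMoment.DP (fun _ => 1) (N ^ 12) t + ∑ j ∈ Finset.range 11,
    gj j * (N : ℂ) ^ 6 * (Complex.exp (-(t * Real.log ((N ^ 12 : ℕ) : ℝ) * Complex.I)) /
      (t : ℂ) ^ (j + 1))

private lemma zeta_ZA {a : ℝ} (ha : 0 < a) (ha1 : a < 1) : ∃ C : ℝ, 0 < C ∧ ∀ T : ℝ, 1 ≤ T →
    ∀ t : ℝ, a * T ≤ t → t ≤ T → ‖riemannZeta (cl t) - ZA ⌈T⌉₊ t‖ ≤ C / T ^ 6 := by
  refine ⟨1 + 12 + 64 / a ^ 12, by positivity, fun T hT t hat htT => ?_⟩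
  have hT0 : 0 < T := by linarith
  have ht : 0 < t := lt_of_lt_of_le (by positivity) hat
  set N := ⌈T⌉₊ with hN
  have hNT : T ≤ N := Nat.le_ceil T
  have hN2 : (N : ℝ) ≤ 2 * T := by
    have := (Nat.ceil_lt_add_one hT0.le).le
    linarith
  have hN0 : (0 : ℝ) < N := by linarith
  have hNn : 0 < N := by exact_mod_cast hN0
  have hM : 0 < N ^ 12 := by positivity
  have h1 := zeta_split hM ht
  have hpw : ∀ k : ℕ, ∀ r : ℝ, r * 12 = k → ((N ^ 12 : ℕ) : ℝ) ^ r = (N : ℝ) ^ k := by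
    intro k r hr
    push_cast
    rw [← Real.rpow_natCast, ← Real.rpow_mul hN0.le, ← Real.rpow_natCast]
    congr 1
    rw [← hr]; push_cast; ring
  have e1 : ((N ^ 12 : ℕ) : ℝ) ^ (-(1 / 2) : ℝ) = 1 / (N : ℝ) ^ 6 := by
    rw [Real.rpow_neg (by positivity), hpw 6 (1 / 2) (by norm_num), one_div]
  have e2 : ((N ^ 12 : ℕ) : ℝ) ^ (-(3 / 2) : ℝ) = 1 / (N : ℝ) ^ 18 := by
    rw [Real.rpow_neg (by positivity), hpw 18 (3 / 2) (by norm_num), one_div]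
  rw [e1, e2] at h1
  have e3 : ((N ^ 12 : ℕ) : ℂ) ^ (1 - cl t) = (N : ℂ) ^ 6 *
      Complex.exp (-(t * Real.log ((N ^ 12 : ℕ) : ℝ) * Complex.I)) := by
    have hne : ((N ^ 12 : ℕ) : ℂ) ≠ 0 := by exact_mod_cast hM.ne'
    have h2 : (1 - cl t : ℂ) = ((1 / 2 : ℝ) : ℂ) + (-(t * Complex.I)) := by
      unfold cl; push_cast; ring
    rw [h2, Complex.cpow_add _ _ hne]
    congr 1
    · have h3 := hpw 6 (1 / 2) (by norm_num)
      rw [← Complex.ofReal_natCast, ← Complex.ofReal_cpow (by positivity), h3]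
      push_cast
      rfl
    · rw [Complex.cpow_def_of_ne_zero hne, ← Complex.natCast_log]
      congr 1; ring
  have h4 := geom_inv t ht 11
  have e4 : riemannZeta (cl t) - ZA N t =
      (riemannZeta (cl t) - Pool.Agent.ZetaMoment.DP (fun _ => 1) (N ^ 12) t -
        ((N ^ 12 : ℕ) : ℂ) ^ (1 - cl t) / (cl t - 1)) +
      (N : ℂ) ^ 6 * Complex.exp (-(t * Real.log ((N ^ 12 : ℕ) : ℝ) * Complex.I)) *
        (1 / (cl t - 1) - ∑ j ∈ Finset.range 11,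
          ((1 / 2 : ℂ) ^ j / Complex.I ^ (j + 1)) / (t : ℂ) ^ (j + 1)) := by
    rw [mul_sub, Finset.mul_sum, e3]
    unfold ZA gj
    have : ∀ j ∈ Finset.range 11, (1 / 2 : ℂ) ^ j / Complex.I ^ (j + 1) * (N : ℂ) ^ 6 *
        (Complex.exp (-(t * Real.log ((N ^ 12 : ℕ) : ℝ) * Complex.I)) / (t : ℂ) ^ (j + 1)) =
        (N : ℂ) ^ 6 * Complex.exp (-(t * Real.log ((N ^ 12 : ℕ) : ℝ) * Complex.I)) *
          ((1 / 2 : ℂ) ^ j / Complex.I ^ (j + 1) / (t : ℂ) ^ (j + 1)) := by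
      intro j _; ring
    rw [Finset.sum_congr rfl this]
    ring
  rw [e4]
  refine (norm_add_le _ _).trans ?_
  have h5 : ‖Complex.exp (-(t * Real.log ((N ^ 12 : ℕ) : ℝ) * Complex.I))‖ = 1 := by
    have : (-(t * Real.log ((N ^ 12 : ℕ) : ℝ) * Complex.I) : ℂ) =
        ((-(t * Real.log ((N ^ 12 : ℕ) : ℝ)) : ℝ) : ℂ) * Complex.I := by push_cast; ring
    rw [this, Complex.norm_exp_ofReal_mul_I]
  have h6 : ‖(N : ℂ) ^ 6 * Complex.exp (-(t * Real.log ((N ^ 12 : ℕ) : ℝ) * Complex.I)) *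
        (1 / (cl t - 1) - ∑ j ∈ Finset.range 11,
          ((1 / 2 : ℂ) ^ j / Complex.I ^ (j + 1)) / (t : ℂ) ^ (j + 1))‖ ≤
      (N : ℝ) ^ 6 * (1 / t ^ 12) := by
    rw [norm_mul, norm_mul, h5, mul_one, norm_pow, Complex.norm_natCast]
    gcongr
  have hT6 : (0:ℝ) < T ^ 6 := by positivity
  have h7 : (N : ℝ) ^ 6 * (1 / t ^ 12) ≤ 64 / a ^ 12 / T ^ 6 := by
    calc (N : ℝ) ^ 6 * (1 / t ^ 12) ≤ (2 * T) ^ 6 * (1 / (a * T) ^ 12) := by gcongr
      _ = 64 / a ^ 12 / T ^ 6 := by field_simp; ring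
  have h8 : 1 / (N : ℝ) ^ 6 ≤ 1 / T ^ 6 := by gcongr
  have h9 : (t + 1) * (t + 2) * (2 * (1 / (N : ℝ) ^ 18)) ≤ 12 / T ^ 6 := by
    calc (t + 1) * (t + 2) * (2 * (1 / (N : ℝ) ^ 18)) ≤
          (2 * T) * (3 * T) * (2 * (1 / T ^ 18)) := by
          gcongr
          · linarith
          · linarith
      _ = 12 / T ^ 6 * (1 / T ^ 10) := by field_simp; ring
      _ ≤ 12 / T ^ 6 * 1 := by
          gcongr
          rw [div_le_one (by positivity)]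
          exact one_le_pow₀ hT
      _ = 12 / T ^ 6 := by ring
  have h10 : (1 + 12 + 64 / a ^ 12) / T ^ 6 = 1 / T ^ 6 + 12 / T ^ 6 + 64 / a ^ 12 / T ^ 6 := by
    ring
  rw [h10]
  linarith

private lemma off_small {w : ℝ → ℝ} (hw : Wgt w) {ε : ℝ} (hε : 0 < ε) (A : ℕ) :
    ∃ C : ℝ, 0 < C ∧ ∀ T : ℝ, 1 ≤ T → ∀ m n : ℕ, 0 < m → 0 < n → m ≠ n →
      (n : ℝ) ≤ T ^ (1 - ε) →
      ‖∫ t : ℝ, (w (t / T) : ℂ) * Complex.exp (t * (Real.log n - Real.log m : ℝ) * Complex.I)‖ ≤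
        C / T ^ A := by
  obtain ⟨B, hB⟩ := exists_nat_ge (((A : ℝ) + 1) / ε)
  obtain ⟨C, hC, hdec⟩ := Pool.Agent.EvenMoment.osc_decay hw B
  refine ⟨C * 2 ^ B, by positivity, fun T hT m n hm hn hmn hle => ?_⟩
  have hT0 : 0 < T := by linarith
  have hgap := Pool.Agent.ZetaMoment.log_gap hm hn hmn
  have hn1 : (1 : ℝ) ≤ n := by exact_mod_cast hn
  rw [abs_sub_comm] at hgap
  set u : ℝ := Real.log n - Real.log m with hu
  have hpos : 0 < |u| := lt_of_lt_of_le (by positivity) hgap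
  have h1 := hdec T hT0 u (abs_pos.mp hpos)
  have hTe : (0 : ℝ) < T ^ ε := by positivity
  have h2 : T ^ ε / 2 ≤ T * |u| := by
    have h3 : 1 / (2 * T ^ (1 - ε)) ≤ |u| := by
      refine le_trans ?_ hgap
      apply one_div_le_one_div_of_le (by positivity)
      linarith
    calc T ^ ε / 2 = T * (1 / (2 * T ^ (1 - ε))) := by
          rw [Real.rpow_sub hT0, Real.rpow_one]
          field_simp
      _ ≤ T * |u| := by gcongr
  have h4 : (T * |u|)⁻¹ ^ B ≤ 2 ^ B * ((T ^ ε) ^ B)⁻¹ := by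
    rw [← inv_pow, ← mul_pow]
    apply pow_le_pow_left₀ (by positivity)
    rw [inv_le_comm₀ (by positivity) (by positivity)]
    refine le_trans (le_of_eq ?_) h2
    rw [mul_inv, inv_inv]
    ring
  have h5 : T ^ (A + 1) ≤ (T ^ ε) ^ B := by
    rw [← Real.rpow_natCast, ← Real.rpow_natCast, ← Real.rpow_mul hT0.le]
    apply Real.rpow_le_rpow_of_exponent_le hT
    rw [div_le_iff₀ hε] at hB
    push_cast
    linarith
  calc ‖∫ t : ℝ, (w (t / T) : ℂ) * Complex.exp (t * u * Complex.I)‖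
      ≤ C * T * (T * |u|)⁻¹ ^ B := h1
    _ ≤ C * T * (2 ^ B * ((T ^ ε) ^ B)⁻¹) := by gcongr
    _ ≤ C * T * (2 ^ B * (T ^ (A + 1))⁻¹) := by gcongr
    _ = C * 2 ^ B / T ^ A := by rw [pow_succ]; field_simp

private lemma wgt_div {w : ℝ → ℝ} (hw : Wgt w) (j : ℕ) : Wgt fun x => w x / x ^ (j + 1) := by
  obtain ⟨a, ha, ha1, hs⟩ := hw.supp
  refine ⟨?_, fun x => ?_, a, ha, ha1, fun x hx => by rw [hs x hx, zero_div]⟩
  · rw [contDiff_iff_contDiffAt]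
    intro x
    rcases lt_or_ge x a with hx | hx
    · have h1 : (fun y : ℝ => w y / y ^ (j + 1)) =ᶠ[𝓝 x] fun _ => 0 := by
        filter_upwards [Iio_mem_nhds hx] with y hy
        rw [hs y (Or.inl hy), zero_div]
      exact contDiffAt_const.congr_of_eventuallyEq h1
    · have hx0 : x ^ (j + 1) ≠ 0 := pow_ne_zero _ (by linarith)
      exact hw.smooth.contDiffAt.div (contDiffAt_id.pow _) hx0
  · rcases lt_or_ge x a with hx | hx
    · simp [hs x (Or.inl hx)]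
    · have := hw.nonneg x
      have hx0 : 0 < x := by linarith
      positivity

/-- the tuples `(n₁, m₀, m₁, m₂, n₂)` -/
private noncomputable def PP (L : ℝ) : Finset (ℕ × ℕ × ℕ × ℕ × ℕ) :=
  NN L ×ˢ NN L ×ˢ NN L ×ˢ NN L ×ˢ NN L

private noncomputable def cf (φ : ℝ → ℝ) (Ψ : ℝ → ℝ → ℝ → ℝ) (L : ℝ)
    (p : ℕ × ℕ × ℕ × ℕ × ℕ) : ℝ :=
  φ (Real.log p.1 / L) / Real.sqrt p.1 * (φ (Real.log p.2.1 / L) / Real.sqrt p.2.1) *
    (Ψ (Real.log p.2.2.1 / L) (Real.log p.2.2.2.1 / L) (Real.log p.2.2.2.2 / L) /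
      Real.sqrt (p.2.2.1 * p.2.2.2.1 * p.2.2.2.2))

/-- `V conj(V) conj(C)` -/
private noncomputable def VVC (φ : ℝ → ℝ) (Ψ : ℝ → ℝ → ℝ → ℝ) (L t : ℝ) : ℂ :=
  VP φ L t * (starRingEnd ℂ) (VP φ L t) * (starRingEnd ℂ) (CP Ψ L t)

private lemma en_conj (n : ℕ) (t : ℝ) :
    (starRingEnd ℂ) (en n t) = Complex.exp ((t * Real.log n : ℝ) * Complex.I) := by
  unfold en
  rw [← Complex.exp_conj]
  congr 1
  simp only [map_mul, map_neg, Complex.conj_ofReal, Complex.conj_I]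
  push_cast
  ring

private lemma mem_NN_pos {L : ℝ} {n : ℕ} (h : n ∈ NN L) : 0 < n := by
  unfold NN at h
  exact (Finset.mem_Icc.mp h).1

private lemma VVC_eq (φ : ℝ → ℝ) (Ψ : ℝ → ℝ → ℝ → ℝ) (L t : ℝ) (m : ℕ) (hm : 0 < m) :
    VVC φ Ψ L t * Complex.exp (-(t * Real.log m * Complex.I)) =
    ∑ p ∈ PP L, (cf φ Ψ L p : ℂ) *
      Complex.exp (t * (Real.log ((p.2.1 * p.2.2.1 * p.2.2.2.1 : ℕ) : ℝ) -
        Real.log ((m * (p.1 * p.2.2.2.2) : ℕ) : ℝ) : ℝ) * Complex.I) := by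
  unfold PP
  rw [Finset.sum_product]
  simp_rw [Finset.sum_product]
  unfold VVC VP CP
  simp only [map_sum]
  rw [Finset.sum_mul_sum, Finset.sum_mul, Finset.sum_mul]
  refine Finset.sum_congr rfl fun n₁ hn₁ => ?_
  rw [Finset.sum_mul, Finset.sum_mul]
  refine Finset.sum_congr rfl fun m₀ hm₀ => ?_
  rw [Finset.mul_sum, Finset.sum_mul]
  refine Finset.sum_congr rfl fun m₁ hm₁ => ?_
  rw [Finset.mul_sum, Finset.sum_mul]
  refine Finset.sum_congr rfl fun m₂ hm₂ => ?_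
  rw [Finset.mul_sum, Finset.sum_mul]
  refine Finset.sum_congr rfl fun n₂ hn₂ => ?_
  have p1 : (n₁ : ℝ) ≠ 0 := by exact_mod_cast (mem_NN_pos hn₁).ne'
  have p2 : (m₀ : ℝ) ≠ 0 := by exact_mod_cast (mem_NN_pos hm₀).ne'
  have p3 : (m₁ : ℝ) ≠ 0 := by exact_mod_cast (mem_NN_pos hm₁).ne'
  have p4 : (m₂ : ℝ) ≠ 0 := by exact_mod_cast (mem_NN_pos hm₂).ne'
  have p5 : (n₂ : ℝ) ≠ 0 := by exact_mod_cast (mem_NN_pos hn₂).ne'
  have p6 : (m : ℝ) ≠ 0 := by exact_mod_cast hm.ne'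
  simp only [map_mul, Complex.conj_ofReal, Complex.conj_conj]
  simp only [en_conj]
  have hlog : Real.log ((m₀ * m₁ * m₂ : ℕ) : ℝ) - Real.log ((m * (n₁ * n₂) : ℕ) : ℝ) =
      Real.log m₀ + Real.log m₁ + Real.log m₂ - (Real.log m + (Real.log n₁ + Real.log n₂)) := by
    push_cast
    rw [Real.log_mul (mul_ne_zero p2 p3) p4, Real.log_mul p2 p3,
      Real.log_mul p6 (mul_ne_zero p1 p5), Real.log_mul p1 p5]
  have hexp : Complex.exp (t * (Real.log ((m₀ * m₁ * m₂ : ℕ) : ℝ) -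
        Real.log ((m * (n₁ * n₂) : ℕ) : ℝ) : ℝ) * Complex.I) =
      en n₁ t * Complex.exp ((t * Real.log m₀ : ℝ) * Complex.I) *
      (Complex.exp ((t * Real.log m₁ : ℝ) * Complex.I) *
        Complex.exp ((t * Real.log m₂ : ℝ) * Complex.I) * en n₂ t) *
      Complex.exp (-(t * Real.log m * Complex.I)) := by
    rw [hlog]
    unfold en
    simp only [← Complex.exp_add]
    congr 1
    push_cast
    ring
  simp only [hexp, cf]
  push_cast
  ring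

private lemma int_one {w : ℝ → ℝ} {T : ℝ} (hT : 0 < T) :
    ∫ t : ℝ, (w (t / T) : ℂ) = ((T * ∫ x, w x : ℝ) : ℂ) := by
  rw [integral_complex_ofReal, Measure.integral_comp_div, abs_of_pos hT, smul_eq_mul]

private lemma Q_lemma {w : ℝ → ℝ} (hw : Wgt w) {Ψ : ℝ → ℝ → ℝ → ℝ} {φ : ℝ → ℝ}
    {v ε : ℝ} (hε : 0 < ε) {K : ℝ} (hK : ∀ L p, |cf φ Ψ L p| ≤ K)
    (hv : ∀ s, (s ≤ 0 ∨ v ≤ s) → φ s = 0)
    (hs : ∀ x y z, Ψ x y z ≠ 0 → x + y + v ≤ 1 - ε ∧ z ≤ 1) (A : ℕ) :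
    ∃ C : ℝ, 0 < C ∧ ∀ T : ℝ, 2 ≤ T → ∀ m : ℕ, 0 < m →
      ‖(∫ t : ℝ, (w (t / T) : ℂ) * (VVC φ Ψ (Real.log T) t *
        Complex.exp (-(t * Real.log m * Complex.I)))) -
        ((T * (∫ x, w x) * ∑ p ∈ PP (Real.log T),
          (if p.2.1 * p.2.2.1 * p.2.2.2.1 = m * (p.1 * p.2.2.2.2) then cf φ Ψ (Real.log T) p
            else 0) : ℝ) : ℂ)‖ ≤ C / T ^ A := by
  obtain ⟨C, hC, hoff⟩ := off_small hw hε (A + 5)
  have hK0 : 0 ≤ K := le_trans (abs_nonneg _) (hK 0 (0, 0, 0, 0, 0))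
  refine ⟨K * C + 1, by positivity, fun T hT m hm => ?_⟩
  have hT0 : 0 < T := by linarith
  set L := Real.log T with hL
  have hL0 : 0 < L := Real.log_pos (by linarith)
  have h1 : ∫ t : ℝ, (w (t / T) : ℂ) * (VVC φ Ψ L t *
        Complex.exp (-(t * Real.log m * Complex.I))) =
      ∑ p ∈ PP L, (cf φ Ψ L p : ℂ) * ∫ t : ℝ, (w (t / T) : ℂ) *
      Complex.exp (t * (Real.log ((p.2.1 * p.2.2.1 * p.2.2.2.1 : ℕ) : ℝ) -
        Real.log ((m * (p.1 * p.2.2.2.2) : ℕ) : ℝ) : ℝ) * Complex.I) := by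
    simp_rw [VVC_eq φ Ψ L _ m hm, Finset.mul_sum]
    rw [integral_finsetSum]
    · refine Finset.sum_congr rfl fun p _ => ?_
      rw [← integral_const_mul]
      refine integral_congr_ae (ae_of_all _ fun t => ?_)
      simp only
      ring
    · intro p _
      exact Pool.Agent.EvenMoment.dg_integrable hw hT0 (by fun_prop)
  have hmem : ∀ p ∈ PP L, 0 < p.1 ∧ 0 < p.2.1 ∧ 0 < p.2.2.1 ∧ 0 < p.2.2.2.1 ∧ 0 < p.2.2.2.2 := by
    intro p hp
    unfold PP at hp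
    simp only [Finset.mem_product] at hp
    exact ⟨mem_NN_pos hp.1, mem_NN_pos hp.2.1, mem_NN_pos hp.2.2.1, mem_NN_pos hp.2.2.2.1,
      mem_NN_pos hp.2.2.2.2⟩
  have hcard : ((PP L).card : ℝ) ≤ T ^ 5 := by
    have hNN : ((NN L).card : ℝ) ≤ T := by
      unfold NN
      rw [Nat.card_Icc, Nat.add_sub_cancel, hL, Real.exp_log hT0]
      exact Nat.floor_le hT0.le
    unfold PP
    simp only [Finset.card_product]
    push_cast
    have h0 : (0 : ℝ) ≤ (NN L).card := Nat.cast_nonneg _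
    calc ((NN L).card : ℝ) * (((NN L).card : ℝ) * (((NN L).card : ℝ) * (((NN L).card : ℝ) *
          ((NN L).card : ℝ)))) = ((NN L).card : ℝ) ^ 5 := by ring
      _ ≤ T ^ 5 := pow_le_pow_left₀ h0 hNN 5
  rw [h1, Complex.ofReal_mul, Complex.ofReal_mul, Complex.ofReal_sum, Finset.mul_sum,
    ← Finset.sum_sub_distrib]
  have hterm : ∀ p ∈ PP L, ‖(cf φ Ψ L p : ℂ) * (∫ t : ℝ, (w (t / T) : ℂ) *
      Complex.exp (t * (Real.log ((p.2.1 * p.2.2.1 * p.2.2.2.1 : ℕ) : ℝ) -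
        Real.log ((m * (p.1 * p.2.2.2.2) : ℕ) : ℝ) : ℝ) * Complex.I)) -
      (T : ℂ) * ((∫ x, w x : ℝ) : ℂ) * (((if p.2.1 * p.2.2.1 * p.2.2.2.1 =
        m * (p.1 * p.2.2.2.2) then cf φ Ψ L p else 0 : ℝ)) : ℂ)‖ ≤ K * C / T ^ (A + 5) := by
    intro p hp
    obtain ⟨q1, q2, q3, q4, q5⟩ := hmem p hp
    by_cases heq : p.2.1 * p.2.2.1 * p.2.2.2.1 = m * (p.1 * p.2.2.2.2)
    · rw [if_pos heq, heq]
      simp only [sub_self, Complex.ofReal_zero, mul_zero, zero_mul, Complex.exp_zero, mul_one]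
      rw [int_one hT0]
      push_cast
      rw [show (cf φ Ψ L p : ℂ) * ((T : ℂ) * ((∫ x, w x : ℝ) : ℂ)) -
        (T : ℂ) * ((∫ x, w x : ℝ) : ℂ) * (cf φ Ψ L p : ℂ) = 0 by ring, norm_zero]
      positivity
    · rw [if_neg heq, Complex.ofReal_zero, mul_zero, sub_zero, norm_mul, Complex.norm_real,
        Real.norm_eq_abs]
      by_cases hc : cf φ Ψ L p = 0
      · rw [hc, abs_zero, zero_mul]
        positivity
      · have hφ0 : φ (Real.log p.2.1 / L) ≠ 0 := by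
          intro h; apply hc; unfold cf; rw [h]; simp
        have hΨ0 : Ψ (Real.log p.2.2.1 / L) (Real.log p.2.2.2.1 / L)
            (Real.log p.2.2.2.2 / L) ≠ 0 := by
          intro h; apply hc; unfold cf; rw [h]; simp
        have h2 := (hs _ _ _ hΨ0).1
        have h3 : Real.log p.2.1 / L < v := by
          by_contra h
          exact hφ0 (hv _ (Or.inr (not_lt.mp h)))
        have r2 : (0 : ℝ) < p.2.1 := by exact_mod_cast q2
        have r3 : (0 : ℝ) < p.2.2.1 := by exact_mod_cast q3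
        have r4 : (0 : ℝ) < p.2.2.2.1 := by exact_mod_cast q4
        have h4 : ((p.2.1 * p.2.2.1 * p.2.2.2.1 : ℕ) : ℝ) ≤ T ^ (1 - ε) := by
          push_cast
          rw [← Real.log_le_log_iff (by positivity) (by positivity), Real.log_rpow hT0,
            Real.log_mul (by positivity) (by positivity),
            Real.log_mul (by positivity) (by positivity), ← hL]
          have h5 : Real.log p.2.1 / L + Real.log p.2.2.1 / L + Real.log p.2.2.2.1 / L ≤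
              1 - ε := by linarith
          rw [← add_div, ← add_div, div_le_iff₀ hL0] at h5
          exact h5
        have h6 := hoff T (by linarith) (m * (p.1 * p.2.2.2.2)) (p.2.1 * p.2.2.1 * p.2.2.2.1)
          (by positivity) (by positivity) (fun h => heq h.symm) h4
        calc |cf φ Ψ L p| * _ ≤ K * (C / T ^ (A + 5)) :=
              mul_le_mul (hK L p) h6 (norm_nonneg _) hK0
          _ = K * C / T ^ (A + 5) := by ring
  calc _ ≤ ∑ p ∈ PP L, K * C / T ^ (A + 5) := by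
        refine (norm_sum_le _ _).trans (Finset.sum_le_sum fun p hp => ?_)
        exact hterm p hp
    _ = (PP L).card * (K * C / T ^ (A + 5)) := by rw [Finset.sum_const, nsmul_eq_mul]
    _ ≤ T ^ 5 * (K * C / T ^ (A + 5)) := by gcongr
    _ = K * C / T ^ A := by rw [pow_add]; field_simp
    _ ≤ (K * C + 1) / T ^ A := by gcongr; linarith

private lemma cf_supp {Ψ : ℝ → ℝ → ℝ → ℝ} {φ : ℝ → ℝ} {v ε : ℝ}
    (hv : ∀ s, (s ≤ 0 ∨ v ≤ s) → φ s = 0)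
    (hs : ∀ x y z, Ψ x y z ≠ 0 → x + y + v ≤ 1 - ε ∧ z ≤ 1) {T : ℝ} (hT : 2 ≤ T)
    {p : ℕ × ℕ × ℕ × ℕ × ℕ} (h0 : p.2.1 ≠ 0) (h1 : p.2.2.1 ≠ 0) (h2 : p.2.2.2.1 ≠ 0)
    (hc : cf φ Ψ (Real.log T) p ≠ 0) :
    ((p.2.1 * p.2.2.1 * p.2.2.2.1 : ℕ) : ℝ) ≤ T ^ (1 - ε) := by
  have hT0 : 0 < T := by linarith
  set L := Real.log T with hL
  have hL0 : 0 < L := Real.log_pos (by linarith)
  have hφ0 : φ (Real.log p.2.1 / L) ≠ 0 := by
    intro h; apply hc; unfold cf; rw [h]; simp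
  have hΨ0 : Ψ (Real.log p.2.2.1 / L) (Real.log p.2.2.2.1 / L)
      (Real.log p.2.2.2.2 / L) ≠ 0 := by
    intro h; apply hc; unfold cf; rw [h]; simp
  have h2' := (hs _ _ _ hΨ0).1
  have h3 : Real.log p.2.1 / L < v := by
    by_contra h
    exact hφ0 (hv _ (Or.inr (not_lt.mp h)))
  have r2 : (0 : ℝ) < p.2.1 := by exact_mod_cast Nat.pos_of_ne_zero h0
  have r3 : (0 : ℝ) < p.2.2.1 := by exact_mod_cast Nat.pos_of_ne_zero h1
  have r4 : (0 : ℝ) < p.2.2.2.1 := by exact_mod_cast Nat.pos_of_ne_zero h2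
  push_cast
  rw [← Real.log_le_log_iff (by positivity) (by positivity), Real.log_rpow hT0,
    Real.log_mul (by positivity) (by positivity),
    Real.log_mul (by positivity) (by positivity), ← hL]
  have h5 : Real.log p.2.1 / L + Real.log p.2.2.1 / L + Real.log p.2.2.2.1 / L ≤
      1 - ε := by linarith
  rw [← add_div, ← add_div, div_le_iff₀ hL0] at h5
  exact h5

private lemma log_div_le_one {T : ℝ} (hT : 2 ≤ T) {n : ℕ} (hn : 0 < n)
    (h : Real.log n / Real.log T ≤ 1) : n ∈ NN (Real.log T) := by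
  have hT0 : 0 < T := by linarith
  have hL0 : 0 < Real.log T := Real.log_pos (by linarith)
  rw [div_le_one hL0, Real.log_le_log_iff (by exact_mod_cast hn) hT0] at h
  unfold NN
  rw [Finset.mem_Icc, Real.exp_log hT0]
  exact ⟨hn, Nat.le_floor h⟩

private lemma diag_S9 {Ψ : ℝ → ℝ → ℝ → ℝ} (hΨ : Tst Ψ) {φ : ℝ → ℝ} {v ε : ℝ} (hε : 0 < ε)
    (hv0 : 0 < v) (hv : ∀ s, (s ≤ 0 ∨ v ≤ s) → φ s = 0)
    (hs : ∀ x y z, Ψ x y z ≠ 0 → x + y + v ≤ 1 - ε ∧ z ≤ 1) {T : ℝ} (hT : 2 ≤ T)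
    {M : ℕ} (hM : T ≤ M) :
    ∑ m ∈ Finset.Icc 1 M, (m : ℝ) ^ (-(1 / 2) : ℝ) * ∑ p ∈ PP (Real.log T),
      (if p.2.1 * p.2.2.1 * p.2.2.2.1 = m * (p.1 * p.2.2.2.2) then cf φ Ψ (Real.log T) p
        else 0) =
      S9 (fun s₀ s₁ s₂ r₀ r₁ r₂ => φ s₁ * φ r₀ * Ψ r₁ r₂ s₂) (Real.log T) := by
  classical
  have hT0 : 0 < T := by linarith
  set L := Real.log T with hL
  have hL0 : 0 < L := Real.log_pos (by linarith)
  set g : ℕ × (ℕ × ℕ × ℕ × ℕ × ℕ) → ℝ := fun x =>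
    if x ∈ Finset.Icc 1 M ×ˢ PP L then (x.1 : ℝ) ^ (-(1 / 2) : ℝ) *
      (if x.2.2.1 * x.2.2.2.1 * x.2.2.2.2.1 = x.1 * (x.2.1 * x.2.2.2.2.2) then cf φ Ψ L x.2
        else 0) else 0 with hg
  set i : TN → ℕ × (ℕ × ℕ × ℕ × ℕ × ℕ) := fun q =>
    ((q.1.1.1 : ℕ), ((q.1.1.2.1 : ℕ), (q.1.2.1 : ℕ), (q.1.2.2.1 : ℕ), (q.1.2.2.2 : ℕ),
      (q.1.1.2.2 : ℕ))) with hi
  have hinj : Function.Injective i := by
    rintro ⟨⟨⟨a1, a2, a3⟩, ⟨b1, b2, b3⟩⟩, ha⟩ ⟨⟨⟨c1, c2, c3⟩, ⟨d1, d2, d3⟩⟩, hc⟩ h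
    simp only [hi, Prod.mk.injEq, PNat.coe_inj] at h
    obtain ⟨h1, h2, h3, h4, h5, h6⟩ := h
    subst h1 h2 h3 h4 h5 h6
    rfl
  have hsupp : Function.support g ⊆ Set.range i := by
    rintro ⟨n₀, n₁, m₀, m₁, m₂, n₂⟩ hx
    rw [Function.mem_support] at hx
    simp only [hg] at hx
    by_cases hmem : (n₀, n₁, m₀, m₁, m₂, n₂) ∈ Finset.Icc 1 M ×ˢ PP L
    · rw [if_pos hmem] at hx
      have hmem' := hmem
      unfold PP at hmem'
      simp only [Finset.mem_product] at hmem'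
      obtain ⟨k0, k1, k2, k3, k4, k5⟩ := hmem'
      have k0' := (Finset.mem_Icc.mp k0).1
      by_cases he : m₀ * m₁ * m₂ = n₀ * (n₁ * n₂)
      · refine ⟨⟨((⟨n₀, k0'⟩, ⟨n₁, mem_NN_pos k1⟩, ⟨n₂, mem_NN_pos k5⟩),
          (⟨m₀, mem_NN_pos k2⟩, ⟨m₁, mem_NN_pos k3⟩, ⟨m₂, mem_NN_pos k4⟩)), ?_⟩, rfl⟩
        change n₀ * n₁ * n₂ = m₀ * m₁ * m₂
        rw [he]; ring
      · rw [if_neg he, mul_zero] at hx
        exact absurd rfl hx
    · rw [if_neg hmem] at hx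
      exact absurd rfl hx
  have hval : ∀ q : TN, (1 / ((q.1.1.1 : ℝ) * q.1.1.2.1 * q.1.1.2.2)) *
      ((fun s₀ s₁ s₂ r₀ r₁ r₂ => φ s₁ * φ r₀ * Ψ r₁ r₂ s₂)
        (Real.log q.1.1.1 / L) (Real.log q.1.1.2.1 / L) (Real.log q.1.1.2.2 / L)
      (Real.log q.1.2.1 / L) (Real.log q.1.2.2.1 / L) (Real.log q.1.2.2.2 / L)) = g (i q) := by
    rintro ⟨⟨⟨n₀, n₁, n₂⟩, ⟨m₀, m₁, m₂⟩⟩, he⟩
    simp only [hg, hi]
    have he2 : (m₀ : ℕ) * m₁ * m₂ = (n₀ : ℕ) * (n₁ * n₂) := by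
      have h' : (n₀ : ℕ) * n₁ * n₂ = m₀ * m₁ * m₂ := he
      rw [← h', mul_assoc]
    have heR : (m₀ : ℝ) * m₁ * m₂ = (n₀ : ℝ) * (n₁ * n₂) := by exact_mod_cast he2
    have p0 : (0 : ℝ) < n₀ := by exact_mod_cast n₀.pos
    have p1 : (0 : ℝ) < n₁ := by exact_mod_cast n₁.pos
    have p2 : (0 : ℝ) < n₂ := by exact_mod_cast n₂.pos
    have r0 : (0 : ℝ) < m₀ := by exact_mod_cast m₀.pos
    have r1 : (0 : ℝ) < m₁ := by exact_mod_cast m₁.pos
    have r2 : (0 : ℝ) < m₂ := by exact_mod_cast m₂.pos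
    by_cases hz : φ (Real.log n₁ / L) * φ (Real.log m₀ / L) *
        Ψ (Real.log m₁ / L) (Real.log m₂ / L) (Real.log n₂ / L) = 0
    · rw [hz, mul_zero]
      have hcf : cf φ Ψ L ((n₁ : ℕ), (m₀ : ℕ), (m₁ : ℕ), (m₂ : ℕ), (n₂ : ℕ)) = 0 := by
        have : cf φ Ψ L ((n₁ : ℕ), (m₀ : ℕ), (m₁ : ℕ), (m₂ : ℕ), (n₂ : ℕ)) =
            (φ (Real.log n₁ / L) * φ (Real.log m₀ / L) *
              Ψ (Real.log m₁ / L) (Real.log m₂ / L) (Real.log n₂ / L)) *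
            ((Real.sqrt n₁)⁻¹ * (Real.sqrt m₀)⁻¹ * (Real.sqrt (m₁ * m₂ * n₂))⁻¹) := by
          unfold cf
          simp only [div_eq_mul_inv]
          ring
        rw [this, hz, zero_mul]
      rw [hcf]
      simp
    · have z1 : φ (Real.log n₁ / L) ≠ 0 := fun h => hz (by rw [h]; ring)
      have z2 : φ (Real.log m₀ / L) ≠ 0 := fun h => hz (by rw [h]; ring)
      have z3 : Ψ (Real.log m₁ / L) (Real.log m₂ / L) (Real.log n₂ / L) ≠ 0 :=
        fun h => hz (by rw [h]; ring)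
      obtain ⟨a, b, ha, hab⟩ := hΨ.supp
      have y1 : a ≤ Real.log m₁ / L := by
        by_contra h
        exact z3 (hab _ _ _ (Or.inl (not_le.mp h)))
      have y2 : a ≤ Real.log m₂ / L := by
        by_contra h
        exact z3 (hab _ _ _ (Or.inr (Or.inl (not_le.mp h))))
      obtain ⟨s1, s2⟩ := hs _ _ _ z3
      have x1 : Real.log n₁ / L < v := by
        by_contra h
        exact z1 (hv _ (Or.inr (not_lt.mp h)))
      have x2 : Real.log m₀ / L < v := by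
        by_contra h
        exact z2 (hv _ (Or.inr (not_lt.mp h)))
      have hn0 : (n₀ : ℕ) ≤ M := by
        have h1 : Real.log ((m₀ : ℝ) * m₁ * m₂) ≤ L := by
          rw [Real.log_mul (by positivity) (by positivity),
            Real.log_mul (by positivity) (by positivity)]
          have h5 : Real.log m₀ / L + Real.log m₁ / L + Real.log m₂ / L ≤ 1 := by linarith
          rw [← add_div, ← add_div, div_le_one hL0] at h5
          exact h5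
        rw [hL, Real.log_le_log_iff (by positivity) hT0, heR] at h1
        have h2 : (n₀ : ℝ) ≤ n₀ * (n₁ * n₂) := by
          have q1 : (1 : ℝ) ≤ n₁ := by exact_mod_cast n₁.pos
          have q2 : (1 : ℝ) ≤ n₂ := by exact_mod_cast n₂.pos
          have q3 : (1 : ℝ) ≤ n₁ * n₂ := by nlinarith
          nlinarith
        have h3 : (n₀ : ℝ) ≤ M := by linarith
        exact_mod_cast h3
      have hmem : ((n₀ : ℕ), ((n₁ : ℕ), (m₀ : ℕ), (m₁ : ℕ), (m₂ : ℕ), (n₂ : ℕ))) ∈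
          Finset.Icc 1 M ×ˢ PP L := by
        unfold PP
        simp only [Finset.mem_product, Finset.mem_Icc]
        refine ⟨⟨n₀.pos, hn0⟩, ?_, ?_, ?_, ?_, ?_⟩
        · exact log_div_le_one hT n₁.pos (by linarith)
        · exact log_div_le_one hT m₀.pos (by linarith)
        · exact log_div_le_one hT m₁.pos (by linarith)
        · exact log_div_le_one hT m₂.pos (by linarith)
        · exact log_div_le_one hT n₂.pos s2
      rw [if_pos hmem, if_pos he2]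
      have hsq : (n₀ : ℝ) ^ (-(1 / 2) : ℝ) * ((Real.sqrt n₁)⁻¹ * (Real.sqrt m₀)⁻¹ *
          (Real.sqrt (m₁ * m₂ * n₂))⁻¹) = 1 / ((n₀ : ℝ) * n₁ * n₂) := by
        rw [Real.rpow_neg p0.le, ← Real.sqrt_eq_rpow]
        rw [← mul_inv, ← mul_inv, ← mul_inv, ← Real.sqrt_mul p1.le, ← Real.sqrt_mul (by positivity),
          ← Real.sqrt_mul p0.le, one_div]
        congr 1
        rw [show (n₀ : ℝ) * (n₁ * m₀ * (m₁ * m₂ * n₂)) = (n₀ * (n₁ * n₂)) * (m₀ * m₁ * m₂) by ring,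
          heR, Real.sqrt_mul_self (by positivity)]
        ring
      have hcf : cf φ Ψ L ((n₁ : ℕ), (m₀ : ℕ), (m₁ : ℕ), (m₂ : ℕ), (n₂ : ℕ)) =
            (φ (Real.log n₁ / L) * φ (Real.log m₀ / L) *
              Ψ (Real.log m₁ / L) (Real.log m₂ / L) (Real.log n₂ / L)) *
            ((Real.sqrt n₁)⁻¹ * (Real.sqrt m₀)⁻¹ * (Real.sqrt (m₁ * m₂ * n₂))⁻¹) := by
          unfold cf
          simp only [div_eq_mul_inv]
          ring
      rw [hcf, ← hsq]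
      ring
  have h1 : S9 (fun s₀ s₁ s₂ r₀ r₁ r₂ => φ s₁ * φ r₀ * Ψ r₁ r₂ s₂) L = ∑' q : TN, g (i q) := by
    unfold S9
    exact tsum_congr hval
  rw [h1, hinj.tsum_eq hsupp, tsum_eq_sum (s := Finset.Icc 1 M ×ˢ PP L)
    (fun x hx => by simp only [hg]; rw [if_neg hx]), Finset.sum_product]
  refine Finset.sum_congr rfl fun m hm => ?_
  rw [Finset.mul_sum]
  refine Finset.sum_congr rfl fun p hp => ?_
  simp only [hg]
  rw [if_pos (Finset.mem_product.mpr ⟨hm, hp⟩)]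

private lemma abs_div_sqrt_le (x : ℝ) (n : ℕ) : |x / Real.sqrt n| ≤ |x| := by
  rcases Nat.eq_zero_or_pos n with h | h
  · subst h; simp
  · have h1 : (1 : ℝ) ≤ n := by exact_mod_cast h
    have h2 : 1 ≤ Real.sqrt n := Real.one_le_sqrt.mpr h1
    rw [abs_div, abs_of_pos (by linarith : 0 < Real.sqrt n)]
    exact div_le_self (abs_nonneg _) h2

private lemma cf_bound {Ψ : ℝ → ℝ → ℝ → ℝ} (hΨ : Tst Ψ) {φ : ℝ → ℝ}
    (hφ : ContDiff ℝ (⊤ : ℕ∞) φ) {v : ℝ} (hv : ∀ s, (s ≤ 0 ∨ v ≤ s) → φ s = 0) :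
    ∃ K : ℝ, 0 ≤ K ∧ ∀ L p, |cf φ Ψ L p| ≤ K := by
  have h1 : HasCompactSupport φ := HasCompactSupport.intro (isCompact_Icc (a := (0:ℝ)) (b := v))
    fun x hx => hv x (by
      rw [Set.mem_Icc, not_and_or, not_le, not_le] at hx
      rcases hx with h | h
      · exact Or.inl h.le
      · exact Or.inr h.le)
  obtain ⟨B, hB⟩ := hφ.continuous.bounded_above_of_compact_support h1
  obtain ⟨a, b, ha, hab⟩ := hΨ.supp
  have h2 : HasCompactSupport fun p : ℝ × ℝ × ℝ => Ψ p.1 p.2.1 p.2.2 := by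
    refine HasCompactSupport.intro
      ((isCompact_Icc (a := a) (b := b)).prod ((isCompact_Icc (a := a) (b := b)).prod
        (isCompact_Icc (a := a) (b := b)))) fun x hx => ?_
    apply hab
    simp only [Set.mem_prod, Set.mem_Icc, not_and_or, not_le] at hx
    tauto
  obtain ⟨B', hB'⟩ := hΨ.smooth.continuous.bounded_above_of_compact_support h2
  have hB0 : 0 ≤ B := (norm_nonneg _).trans (hB 0)
  have hB0' : 0 ≤ B' := (norm_nonneg _).trans (hB' (0, 0, 0))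
  refine ⟨B * B * B', by positivity, fun L p => ?_⟩
  unfold cf
  rw [abs_mul, abs_mul]
  have e1 : ((p.2.2.1 : ℝ) * p.2.2.2.1 * p.2.2.2.2) = ((p.2.2.1 * p.2.2.2.1 * p.2.2.2.2 : ℕ) : ℝ) := by
    push_cast; ring
  rw [e1]
  have b1 := (abs_div_sqrt_le (φ (Real.log p.1 / L)) p.1).trans (hB _)
  have b2 := (abs_div_sqrt_le (φ (Real.log p.2.1 / L)) p.2.1).trans (hB _)
  have b3 := (abs_div_sqrt_le (Ψ (Real.log p.2.2.1 / L) (Real.log p.2.2.2.1 / L)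
    (Real.log p.2.2.2.2 / L)) (p.2.2.1 * p.2.2.2.1 * p.2.2.2.2)).trans
      (hB' (Real.log p.2.2.1 / L, Real.log p.2.2.2.1 / L, Real.log p.2.2.2.2 / L))
  exact mul_le_mul (mul_le_mul b1 b2 (abs_nonneg _) hB0) b3 (abs_nonneg _) (by positivity)

private lemma VVC_one (φ : ℝ → ℝ) (Ψ : ℝ → ℝ → ℝ → ℝ) (L t : ℝ) :
    VVC φ Ψ L t =
    ∑ p ∈ PP L, (cf φ Ψ L p : ℂ) *
      Complex.exp (t * (Real.log ((p.2.1 * p.2.2.1 * p.2.2.2.1 : ℕ) : ℝ) -
        Real.log ((1 * (p.1 * p.2.2.2.2) : ℕ) : ℝ) : ℝ) * Complex.I) := by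
  rw [← VVC_eq φ Ψ L t 1 one_pos]
  simp

private lemma VVC_cont (φ : ℝ → ℝ) (Ψ : ℝ → ℝ → ℝ → ℝ) (L : ℝ) : Continuous (VVC φ Ψ L) := by
  have h : VVC φ Ψ L = fun t : ℝ => ∑ p ∈ PP L, (cf φ Ψ L p : ℂ) *
      Complex.exp (t * (Real.log ((p.2.1 * p.2.2.1 * p.2.2.2.1 : ℕ) : ℝ) -
        Real.log ((1 * (p.1 * p.2.2.2.2) : ℕ) : ℝ) : ℝ) * Complex.I) :=
    funext fun t => VVC_one φ Ψ L t
  rw [h]
  fun_prop

private lemma card_PP {T : ℝ} (hT : 0 < T) : ((PP (Real.log T)).card : ℝ) ≤ T ^ 5 := by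
  have hNN : ((NN (Real.log T)).card : ℝ) ≤ T := by
    unfold NN
    rw [Nat.card_Icc, Nat.add_sub_cancel, Real.exp_log hT]
    exact Nat.floor_le hT.le
  unfold PP
  simp only [Finset.card_product]
  push_cast
  have h0 : (0 : ℝ) ≤ (NN (Real.log T)).card := Nat.cast_nonneg _
  calc ((NN (Real.log T)).card : ℝ) * (((NN (Real.log T)).card : ℝ) *
        (((NN (Real.log T)).card : ℝ) * (((NN (Real.log T)).card : ℝ) *
        ((NN (Real.log T)).card : ℝ)))) = ((NN (Real.log T)).card : ℝ) ^ 5 := by ring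
    _ ≤ T ^ 5 := pow_le_pow_left₀ h0 hNN 5

private lemma VVC_norm {φ : ℝ → ℝ} {Ψ : ℝ → ℝ → ℝ → ℝ} {K : ℝ} (hK0 : 0 ≤ K)
    (hK : ∀ L p, |cf φ Ψ L p| ≤ K) {T : ℝ} (hT : 0 < T) (t : ℝ) :
    ‖VVC φ Ψ (Real.log T) t‖ ≤ K * T ^ 5 := by
  rw [VVC_one]
  calc _ ≤ ∑ p ∈ PP (Real.log T), K := by
        refine (norm_sum_le _ _).trans (Finset.sum_le_sum fun p _ => ?_)
        rw [norm_mul, Complex.norm_real, Real.norm_eq_abs]
        have : (t * (Real.log ((p.2.1 * p.2.2.1 * p.2.2.2.1 : ℕ) : ℝ) -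
          Real.log ((1 * (p.1 * p.2.2.2.2) : ℕ) : ℝ) : ℝ) * Complex.I : ℂ) =
          ((t * (Real.log ((p.2.1 * p.2.2.1 * p.2.2.2.1 : ℕ) : ℝ) -
          Real.log ((1 * (p.1 * p.2.2.2.2) : ℕ) : ℝ)) : ℝ) : ℂ) * Complex.I := by
          push_cast; ring
        rw [this, Complex.norm_exp_ofReal_mul_I, mul_one]
        exact hK _ _
    _ = (PP (Real.log T)).card * K := by rw [Finset.sum_const, nsmul_eq_mul]
    _ ≤ T ^ 5 * K := by gcongr; exact card_PP hT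
    _ = K * T ^ 5 := by ring

private lemma gj_norm (j : ℕ) : ‖gj j‖ ≤ 1 := by
  unfold gj
  rw [norm_div, norm_pow, norm_pow, Complex.norm_I, one_pow, div_one]
  apply pow_le_one₀ (norm_nonneg _)
  norm_num

private lemma main_bound {w : ℝ → ℝ} (hw : Wgt w) {Ψ : ℝ → ℝ → ℝ → ℝ} (hΨ : Tst Ψ) {φ : ℝ → ℝ}
    (hφ : ContDiff ℝ (⊤ : ℕ∞) φ) {v ε : ℝ} (hε : 0 < ε) (hv0 : 0 < v)
    (hv : ∀ s, (s ≤ 0 ∨ v ≤ s) → φ s = 0)
    (hs : ∀ x y z, Ψ x y z ≠ 0 → x + y + v ≤ 1 - ε ∧ z ≤ 1) :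
    ∃ C : ℝ, ∀ T : ℝ, 2 ≤ T →
      |(1 / T) * (∫ t : ℝ, w (t / T) * (‖VP φ (Real.log T) t‖ ^ 2 *
        (riemannZeta (cl t) * (starRingEnd ℂ) (CP Ψ (Real.log T) t)).re)) -
        (∫ x, w x) * S9 (fun s₀ s₁ s₂ r₀ r₁ r₂ => φ s₁ * φ r₀ * Ψ r₁ r₂ s₂) (Real.log T)| ≤
        C / T := by
  obtain ⟨K, hK0, hK⟩ := cf_bound hΨ hφ hv
  obtain ⟨a, ha, ha1, hsupp⟩ := hw.supp
  obtain ⟨C₁, hC₁, h1⟩ := Q_lemma hw hε hK hv hs 12
  choose C₂ hC₂ h2 using fun j : ℕ => Q_lemma (wgt_div hw j) hε hK hv hs 6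
  obtain ⟨C₃, hC₃, h3⟩ := zeta_ZA ha ha1
  have hW0 : 0 ≤ ∫ x, w x := integral_nonneg hw.nonneg
  refine ⟨2 ^ 12 * C₁ + ∑ j ∈ Finset.range 11, 64 * C₂ j + (∫ x, w x) * (K * C₃),
    fun T hT => ?_⟩
  have hT0 : 0 < T := by linarith
  have hT1 : 1 ≤ T := by linarith
  set L := Real.log T with hL
  set N := ⌈T⌉₊ with hN
  have hNT : T ≤ N := Nat.le_ceil T
  have hN2 : (N : ℝ) ≤ 2 * T := by
    have := (Nat.ceil_lt_add_one hT0.le).le
    linarith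
  have hN0 : (0 : ℝ) < N := by linarith
  have hNn : 0 < N := by exact_mod_cast hN0
  set M := N ^ 12 with hM
  have hM0 : 0 < M := by positivity
  have hMT : T ^ 12 ≤ M := by
    rw [hM]; push_cast
    gcongr
  have hM2 : (M : ℝ) ≤ 2 ^ 12 * T ^ 12 := by
    rw [hM]; push_cast
    calc (N : ℝ) ^ 12 ≤ (2 * T) ^ 12 := by gcongr
      _ = 2 ^ 12 * T ^ 12 := by ring
  have hTM : T < M := by
    refine lt_of_lt_of_le ?_ hMT
    calc T = T ^ 1 := (pow_one T).symm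
      _ < T ^ 12 := pow_lt_pow_right₀ (by linarith) (by norm_num)
  set G : ℝ → ℝ → ℝ → ℝ → ℝ → ℝ → ℝ := fun s₀ s₁ s₂ r₀ r₁ r₂ => φ s₁ * φ r₀ * Ψ r₁ r₂ s₂ with hG
  set F : ℝ → ℂ := fun t => (w (t / T) : ℂ) * (VVC φ Ψ L t * riemannZeta (cl t)) with hF
  set E : ℕ → ℝ → ℂ := fun m t => Complex.exp (-(t * Real.log m * Complex.I)) with hE
  have hEc : ∀ m, Continuous (E m) := fun m => by simp only [hE]; fun_prop
  set Am : ℕ → ℝ → ℂ := fun m t => (w (t / T) : ℂ) * (VVC φ Ψ L t * E m t) with hAm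
  set Bj : ℕ → ℝ → ℂ := fun j t => ((w (t / T) / (t / T) ^ (j + 1) : ℝ) : ℂ) *
    (VVC φ Ψ L t * E M t) with hBj
  have hFi : Integrable F := Pool.Agent.EvenMoment.dg_integrable hw hT0
    ((VVC_cont φ Ψ L).mul Pool.Agent.EvenMoment.Tw.zcont)
  have hAi : ∀ m, Integrable (Am m) := fun m => Pool.Agent.EvenMoment.dg_integrable hw hT0
    ((VVC_cont φ Ψ L).mul (hEc m))
  have hBi : ∀ j, Integrable (Bj j) := fun j =>
    Pool.Agent.EvenMoment.dg_integrable (wgt_div hw j) hT0 ((VVC_cont φ Ψ L).mul (hEc M))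
  set A : ℝ → ℂ := fun t => ∑ m ∈ Finset.Icc 1 M, (((m : ℝ) ^ (-(1 / 2) : ℝ) : ℝ) : ℂ) * Am m t
    with hA
  set B : ℝ → ℂ := fun t => ∑ j ∈ Finset.range 11, (gj j * (N : ℂ) ^ 6 / (T : ℂ) ^ (j + 1)) * Bj j t
    with hB
  have hAint : Integrable A := integrable_finsetSum _ fun m _ => (hAi m).const_mul _
  have hBint : Integrable B := integrable_finsetSum _ fun m _ => (hBi m).const_mul _
  have hTc : (T : ℂ) ≠ 0 := by exact_mod_cast hT0.ne'
  -- pointwise identity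
  have hpt : ∀ t, F t - A t - B t = (w (t / T) : ℂ) * (VVC φ Ψ L t *
      (riemannZeta (cl t) - ZA N t)) := by
    intro t
    have hAt : A t = (w (t / T) : ℂ) * (VVC φ Ψ L t *
        Pool.Agent.ZetaMoment.DP (fun _ => 1) M t) := by
      simp only [hA, hAm]
      unfold Pool.Agent.ZetaMoment.DP
      rw [Finset.mul_sum, Finset.mul_sum]
      refine Finset.sum_congr rfl fun m hm => ?_
      rw [Pool.Agent.ZetaMoment.pow_term (Finset.mem_Icc.mp hm).1]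
      simp only [hE]
      push_cast
      ring
    have hBt : B t = (w (t / T) : ℂ) * (VVC φ Ψ L t * ∑ j ∈ Finset.range 11,
        gj j * (N : ℂ) ^ 6 * (E M t / (t : ℂ) ^ (j + 1))) := by
      simp only [hB, hBj]
      rw [Finset.mul_sum, Finset.mul_sum]
      refine Finset.sum_congr rfl fun j _ => ?_
      have e1 : (w (t / T) / (t / T) ^ (j + 1) : ℝ) = T ^ (j + 1) * (w (t / T) / t ^ (j + 1)) := by
        rw [div_pow, div_div_eq_mul_div]; ring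
      rw [e1]
      push_cast
      have e2 : (T : ℂ) ^ (j + 1) ≠ 0 := pow_ne_zero _ hTc
      rw [div_mul_eq_mul_div, div_eq_iff e2]
      ring
    rw [hAt, hBt]
    simp only [hF]
    have hZA : ZA N t = Pool.Agent.ZetaMoment.DP (fun _ => 1) M t + ∑ j ∈ Finset.range 11,
        gj j * (N : ℂ) ^ 6 * (E M t / (t : ℂ) ^ (j + 1)) := rfl
    rw [hZA]
    ring
  -- the three estimates
  have hI3 : ‖∫ t, (F t - A t - B t)‖ ≤ (∫ x, w x) * (K * C₃) := by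
    have hwint : Integrable fun t : ℝ => w (t / T) * (K * T ^ 5 * (C₃ / T ^ 6)) := by
      have := (Pool.Agent.EvenMoment.dg_integrable hw hT0
        (continuous_const (y := (1 : ℂ)))).re
      refine Integrable.mul_const ?_ _
      refine this.congr (ae_of_all _ fun t => ?_)
      simp
    have hle : ∀ t, ‖F t - A t - B t‖ ≤ w (t / T) * (K * T ^ 5 * (C₃ / T ^ 6)) := by
      intro t
      rw [hpt t, norm_mul, Complex.norm_real, Real.norm_of_nonneg (hw.nonneg _)]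
      by_cases hwz : w (t / T) = 0
      · rw [hwz]; simp
      · have hat : a ≤ t / T := by
          by_contra h
          exact hwz (hsupp _ (Or.inl (not_le.mp h)))
        have ht1 : t / T ≤ 1 := by
          by_contra h
          exact hwz (hsupp _ (Or.inr (not_le.mp h)))
        have hat' : a * T ≤ t := by rwa [le_div_iff₀ hT0] at hat
        have ht1' : t ≤ T := by rwa [div_le_one hT0] at ht1
        have h4 := h3 T hT1 t hat' ht1'
        have h5 := VVC_norm hK0 hK hT0 t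
        rw [norm_mul]
        exact mul_le_mul_of_nonneg_left
          (mul_le_mul h5 h4 (norm_nonneg _) (by positivity)) (hw.nonneg _)
    refine (norm_integral_le_of_norm_le hwint (ae_of_all _ hle)).trans (le_of_eq ?_)
    rw [integral_mul_const, Measure.integral_comp_div, abs_of_pos hT0, smul_eq_mul]
    field_simp
  have hI2 : ‖∫ t, B t‖ ≤ ∑ j ∈ Finset.range 11, 64 * C₂ j := by
    simp only [hB]
    rw [integral_finsetSum _ fun m _ => (hBi m).const_mul _]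
    refine (norm_sum_le _ _).trans (Finset.sum_le_sum fun j _ => ?_)
    rw [integral_const_mul, norm_mul]
    have h4 := h2 j T hT M hM0
    have hz : ∑ p ∈ PP L, (if p.2.1 * p.2.2.1 * p.2.2.2.1 = M * (p.1 * p.2.2.2.2) then
        cf φ Ψ L p else 0) = 0 := by
      refine Finset.sum_eq_zero fun p hp => ?_
      by_cases he : p.2.1 * p.2.2.1 * p.2.2.2.1 = M * (p.1 * p.2.2.2.2)
      · rw [if_pos he]
        by_contra hc
        unfold PP at hp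
        simp only [Finset.mem_product] at hp
        have h5 := cf_supp hv hs hT (mem_NN_pos hp.2.1).ne' (mem_NN_pos hp.2.2.1).ne'
          (mem_NN_pos hp.2.2.2.1).ne' hc
        rw [he] at h5
        have h6 : (M : ℝ) ≤ ((M * (p.1 * p.2.2.2.2) : ℕ) : ℝ) := by
          have h7 : 1 ≤ p.1 * p.2.2.2.2 :=
            Nat.mul_pos (mem_NN_pos hp.1) (mem_NN_pos hp.2.2.2.2)
          exact_mod_cast Nat.le_mul_of_pos_right M h7
        have h8 : T ^ (1 - ε) ≤ T := by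
          calc T ^ (1 - ε) ≤ T ^ (1 : ℝ) := Real.rpow_le_rpow_of_exponent_le hT1 (by linarith)
            _ = T := Real.rpow_one T
        linarith
      · rw [if_neg he]
    rw [← hL] at h4
    rw [hz, mul_zero, Complex.ofReal_zero, sub_zero] at h4
    have h5 : ‖gj j * (N : ℂ) ^ 6 / (T : ℂ) ^ (j + 1)‖ ≤ 64 * T ^ 6 := by
      rw [norm_div, norm_mul, norm_pow, norm_pow, Complex.norm_natCast, Complex.norm_real,
        Real.norm_of_nonneg hT0.le]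
      have h6 : (1 : ℝ) ≤ T ^ (j + 1) := one_le_pow₀ hT1
      calc ‖gj j‖ * (N : ℝ) ^ 6 / T ^ (j + 1) ≤ 1 * (2 * T) ^ 6 / 1 := by
            gcongr
            exact gj_norm j
        _ = 64 * T ^ 6 := by ring
    calc _ ≤ (64 * T ^ 6) * (C₂ j / T ^ 6) :=
          mul_le_mul h5 h4 (norm_nonneg _) (by positivity)
      _ = 64 * C₂ j := by field_simp
  have hI1 : ‖(∫ t, A t) - ((T * ((∫ x, w x) * S9 G L) : ℝ) : ℂ)‖ ≤ 2 ^ 12 * C₁ := by
    have hd := diag_S9 hΨ hε hv0 hv hs hT hTM.le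
    rw [← hL, ← hG] at hd
    have e1 : ((T * ((∫ x, w x) * S9 G L) : ℝ) : ℂ) = ∑ m ∈ Finset.Icc 1 M,
        (((m : ℝ) ^ (-(1 / 2) : ℝ) : ℝ) : ℂ) * ((T * (∫ x, w x) * ∑ p ∈ PP L,
          (if p.2.1 * p.2.2.1 * p.2.2.2.1 = m * (p.1 * p.2.2.2.2) then cf φ Ψ L p
            else 0) : ℝ) : ℂ) := by
      rw [← hd]
      simp_rw [← Complex.ofReal_mul]
      rw [← Complex.ofReal_sum, Finset.mul_sum, Finset.mul_sum]
      congr 1
      refine Finset.sum_congr rfl fun m _ => ?_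
      ring
    have e2 : ∫ t, A t = ∑ m ∈ Finset.Icc 1 M,
        (((m : ℝ) ^ (-(1 / 2) : ℝ) : ℝ) : ℂ) * ∫ t, Am m t := by
      simp only [hA]
      rw [integral_finsetSum _ fun m _ => (hAi m).const_mul _]
      refine Finset.sum_congr rfl fun m _ => ?_
      rw [integral_const_mul]
    rw [e1, e2, ← Finset.sum_sub_distrib]
    calc _ ≤ ∑ m ∈ Finset.Icc 1 M, C₁ / T ^ 12 := by
          refine (norm_sum_le _ _).trans (Finset.sum_le_sum fun m hm => ?_)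
          rw [← mul_sub, norm_mul, Complex.norm_real]
          have hm1 := (Finset.mem_Icc.mp hm).1
          have hm1' : (1 : ℝ) ≤ m := by exact_mod_cast hm1
          have h5 : ‖(m : ℝ) ^ (-(1 / 2) : ℝ)‖ ≤ 1 := by
            rw [Real.norm_of_nonneg (by positivity)]
            exact Real.rpow_le_one_of_one_le_of_nonpos hm1' (by norm_num)
          have h6 := h1 T hT m hm1
          calc _ ≤ 1 * (C₁ / T ^ 12) := mul_le_mul h5 h6 (norm_nonneg _) zero_le_one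
            _ = C₁ / T ^ 12 := one_mul _
      _ = M * (C₁ / T ^ 12) := by
          rw [Finset.sum_const, nsmul_eq_mul, Nat.card_Icc, Nat.add_sub_cancel]
      _ ≤ (2 ^ 12 * T ^ 12) * (C₁ / T ^ 12) := by gcongr
      _ = 2 ^ 12 * C₁ := by field_simp
  -- the real part
  have hre : ∫ t : ℝ, w (t / T) * (‖VP φ L t‖ ^ 2 *
        (riemannZeta (cl t) * (starRingEnd ℂ) (CP Ψ L t)).re) = (∫ t, F t).re := by
    have h4 : ∀ t : ℝ, w (t / T) * (‖VP φ L t‖ ^ 2 *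
        (riemannZeta (cl t) * (starRingEnd ℂ) (CP Ψ L t)).re) = (F t).re := by
      intro t
      simp only [hF]
      unfold VVC
      rw [Complex.mul_conj, Complex.normSq_eq_norm_sq]
      rw [show (w (t / T) : ℂ) * (((‖VP φ L t‖ ^ 2 : ℝ) : ℂ) * (starRingEnd ℂ) (CP Ψ L t) *
        riemannZeta (cl t)) = ((w (t / T) * ‖VP φ L t‖ ^ 2 : ℝ) : ℂ) *
          (riemannZeta (cl t) * (starRingEnd ℂ) (CP Ψ L t)) by push_cast; ring]
      rw [Complex.re_ofReal_mul]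
      ring
    simp_rw [h4]
    exact integral_re hFi
  rw [hre]
  have hsplit : ∫ t, F t = (∫ t, A t) + (∫ t, B t) + ∫ t, (F t - A t - B t) := by
    rw [integral_sub (f := fun t => F t - A t) (hFi.sub hAint) hBint, integral_sub hFi hAint]
    ring
  have hfin : ‖(∫ t, F t) - ((T * ((∫ x, w x) * S9 G L) : ℝ) : ℂ)‖ ≤
      2 ^ 12 * C₁ + ∑ j ∈ Finset.range 11, 64 * C₂ j + (∫ x, w x) * (K * C₃) := by
    rw [hsplit]
    calc _ = ‖((∫ t, A t) - ((T * ((∫ x, w x) * S9 G L) : ℝ) : ℂ)) + (∫ t, B t) +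
          ∫ t, (F t - A t - B t)‖ := by congr 1; ring
      _ ≤ _ := (norm_add_le _ _).trans (add_le_add ((norm_add_le _ _).trans
          (add_le_add hI1 hI2)) hI3)
  have h9 : (1 / T) * (∫ t, F t).re - (∫ x, w x) * S9 G L =
      (1 / T) * (((∫ t, F t) - ((T * ((∫ x, w x) * S9 G L) : ℝ) : ℂ)).re) := by
    rw [Complex.sub_re, Complex.ofReal_re]
    field_simp
  rw [h9, abs_mul, abs_of_pos (by positivity : 0 < 1 / T)]
  calc _ ≤ (1 / T) * (2 ^ 12 * C₁ + ∑ j ∈ Finset.range 11, 64 * C₂ j + (∫ x, w x) * (K * C₃)) := by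
        gcongr
        exact (Complex.abs_re_le_norm _).trans hfin
    _ = _ := by ring

theorem mean_zVVC {w : ℝ → ℝ} (hw : Wgt w) {Ψ : ℝ → ℝ → ℝ → ℝ} (hΨ : Tst Ψ) {φ : ℝ → ℝ}
    (hφ : ContDiff ℝ (⊤ : ℕ∞) φ) {v ε : ℝ} (hε : 0 < ε) (hv0 : 0 < v)
    (hv : ∀ s, (s ≤ 0 ∨ v ≤ s) → φ s = 0)
    (hs : ∀ x y z, Ψ x y z ≠ 0 → x + y + v ≤ 1 - ε ∧ z ≤ 1) :
    Tendsto (fun T : ℝ => (1 / T) * (∫ t : ℝ, w (t / T) * (‖VP φ (Real.log T) t‖ ^ 2 *
      (riemannZeta (cl t) * (starRingEnd ℂ) (CP Ψ (Real.log T) t)).re)) / Real.log T ^ 9) atTop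
      (𝓝 ((∫ x, w x) * (ar 3 * I9 (fun s₀ s₁ s₂ r₀ r₁ r₂ => φ s₁ * φ r₀ * Ψ r₁ r₂ s₂)))) := by
  obtain ⟨C, hC⟩ := main_bound hw hΨ hφ hε hv0 hv hs
  obtain ⟨a, b, ha, hab⟩ := hΨ.supp
  set G : ℝ → ℝ → ℝ → ℝ → ℝ → ℝ → ℝ := fun s₀ s₁ s₂ r₀ r₁ r₂ => φ s₁ * φ r₀ * Ψ r₁ r₂ s₂ with hG
  have hGc : Cont6 G := by
    unfold Cont6
    simp only [hG]
    have h1 : Continuous φ := hφ.continuous
    have h2 : Continuous fun p : ℝ × ℝ × ℝ => Ψ p.1 p.2.1 p.2.2 := hΨ.smooth.continuous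
    have h3 : Continuous fun p : (ℝ × ℝ × ℝ) × (ℝ × ℝ × ℝ) =>
        Ψ p.2.2.1 p.2.2.2 p.1.2.2 :=
      h2.comp (f := fun p : (ℝ × ℝ × ℝ) × (ℝ × ℝ × ℝ) => (p.2.2.1, p.2.2.2, p.1.2.2))
        (by fun_prop)
    exact ((h1.comp (by fun_prop)).mul (h1.comp (by fun_prop))).mul h3
  have hlim := S9_tendsto hGc (max v (b + 1)) (fun s₀ s₁ s₂ r₀ r₁ r₂ h => by
    simp only [hG]
    rcases h with h | h | h
    · rw [hv r₀ (Or.inr (le_trans (le_max_left _ _) h))]; ring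
    · rw [hab r₁ r₂ s₂ (by
        have := le_trans (le_max_right v (b + 1)) h
        right; right; right; left; linarith)]; ring
    · rw [hab r₁ r₂ s₂ (by
        have := le_trans (le_max_right v (b + 1)) h
        right; right; right; right; left; linarith)]; ring)
  have hlim2 : Tendsto (fun T : ℝ => (∫ x, w x) * (S9 G (Real.log T) / Real.log T ^ 9)) atTop
      (𝓝 ((∫ x, w x) * (ar 3 * I9 G))) :=
    (hlim.comp Real.tendsto_log_atTop).const_mul _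
  have hdiff : Tendsto (fun T : ℝ => (1 / T) * (∫ t : ℝ, w (t / T) * (‖VP φ (Real.log T) t‖ ^ 2 *
      (riemannZeta (cl t) * (starRingEnd ℂ) (CP Ψ (Real.log T) t)).re)) / Real.log T ^ 9 -
      (∫ x, w x) * (S9 G (Real.log T) / Real.log T ^ 9)) atTop (𝓝 0) := by
    have hC0 : Tendsto (fun T : ℝ => |C| / T) atTop (𝓝 0) :=
      tendsto_const_nhds.div_atTop tendsto_id
    refine squeeze_zero_norm' ?_ hC0
    filter_upwards [eventually_ge_atTop (Real.exp 1)] with T hT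
    have hT2 : 2 ≤ T := by
      have := Real.add_one_le_exp (1 : ℝ)
      linarith
    have hT0 : 0 < T := by linarith
    have hL1 : 1 ≤ Real.log T := by
      rw [Real.le_log_iff_exp_le hT0]; exact hT
    have h1 := hC T hT2
    have h2 : (1 : ℝ) ≤ Real.log T ^ 9 := one_le_pow₀ hL1
    rw [Real.norm_eq_abs]
    rw [← mul_div_assoc, ← sub_div, abs_div, abs_of_pos (by linarith : 0 < Real.log T ^ 9)]
    calc _ ≤ |(1 / T) * (∫ t : ℝ, w (t / T) * (‖VP φ (Real.log T) t‖ ^ 2 *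
      (riemannZeta (cl t) * (starRingEnd ℂ) (CP Ψ (Real.log T) t)).re)) -
      (∫ x, w x) * S9 G (Real.log T)| := div_le_self (abs_nonneg _) h2
      _ ≤ C / T := h1
      _ ≤ |C| / T := by gcongr; exact le_abs_self C
  have := hdiff.add hlim2
  rw [zero_add] at this
  refine this.congr fun T => ?_
  ring

end Pool.Agent.SixT
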