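import Mathlib
import Pool.Agent.Lib_MP_112ba8_t.Mix9

/-!
Piece E1.

Permute the columns `(0,1,2) → (1,2,0)` in `I9` (measure preserving): the function becomes
`DD M s₀ s₁ r₀ * DD M r₁ r₂ s₂`, so `I9_mix` applies with `H = DD M`. In the right side
`∫_{u>0}∫_{u'>0} DD M (u+x-q, u'+q+y, u+u'+z) = D12 M (x-q, q+y, z)` (Step 1 of E2) and
`∫_{q∈(0,x)} D12 M (x-q,q+y,z) dq = M(x,y,z)` (`d/dq M(x-q,q+y,z) = -D12 M`, `M(0,·,·) = 0`).
-/

namespace Pool.Agent.SixT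

open Filter Topology MeasureTheory
open Pool.Agent.EvenMoment (cl Wgt Sz ker ar)

theorem I9_RR {M : ℝ → ℝ → ℝ → ℝ} (hM : Tst M) (hA : Anti M) :
    I9 (fun s₀ s₁ s₂ r₀ r₁ r₂ => DD M s₀ s₁ r₂ * DD M r₀ r₁ s₂) =
      2 * ∫ p, M p.1 p.2.1 p.2.2 ^ 2 ∂mu3 := by
  have tD : Tst (DD M) := by rw [mx_DD hM]; exact mx_Tst _ (mx_Tst _ (mx_Tst _ hM))
  obtain ⟨C, hC0, hC⟩ := mx_bdd tD
  obtain ⟨a, b, ha, hab⟩ := tD.supp
  have hC1 : C ≤ max C (b + 1) := le_max_left _ _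
  have hb1 : b + 1 ≤ max C (b + 1) := le_max_right _ _
  have hmix := I9_mix hM hA (H := DD M) (mx_cont tD).measurable (B := max C (b + 1))
    (fun s₀ s₁ r₀ _ _ _ => (hC _ _ _).trans hC1)
    (fun s₀ s₁ r₀ h => hab _ _ _ (by right; right; right; right; right; linarith))
    (fun s₀ s₁ r₀ h => hab _ _ _ (by right; right; right; left; linarith))
    (fun s₀ s₁ r₀ h => hab _ _ _ (by right; right; right; right; left; linarith))
  -- columns
  have hc : MeasurePreserving (fun x : ℝ × (ℝ × ℝ) => (x.2.2, (x.1, x.2.1)))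
      (mu.prod (mu.prod mu)) (mu.prod (mu.prod mu)) :=
    (mx_swap (mu.prod mu) mu).comp (mx_assoc' mu mu mu)
  have hc3 := hc.prod (hc.prod hc)
  have e1 : I9 (fun s₀ s₁ s₂ r₀ r₁ r₂ => DD M s₀ s₁ r₂ * DD M r₀ r₁ s₂) =
      I9 (fun s₀ s₁ s₂ r₀ r₁ r₂ => DD M s₀ s₁ r₀ * DD M r₁ r₂ s₂) := by
    have h2 : I9 (fun s₀ s₁ s₂ r₀ r₁ r₂ => DD M s₀ s₁ r₀ * DD M r₁ r₂ s₂) =
        ∫ x, mxF (DD M) (DD M) x ∂((mu.prod (mu.prod mu)).prod
          ((mu.prod (mu.prod mu)).prod (mu.prod (mu.prod mu)))) := rfl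
    rw [h2, mx_integral hc3 (mx_F_meas tD (mx_cont tD).measurable)]
    unfold I9 mu9 mu3 mxF
    congr 1
    funext y
    simp only [Prod.map_apply']
    congr 1
    · congr 1 <;> ring
    · congr 1 <;> ring
  rw [e1, hmix]
  congr 1
  unfold mu3
  apply integral_congr_ae
  filter_upwards [MxM.pos (μ := mu.prod (mu.prod mu))] with p hp
  have hx : 0 ≤ p.1 := hp.1
  rw [pow_two]
  congr 1
  have e2 : ∀ q : ℝ, ∫ u in Set.Ioi (0 : ℝ), ∫ u' in Set.Ioi (0 : ℝ),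
      DD M (u + p.1 - q) (u' + q + p.2.1) (u + u' + p.2.2) = D12 M (p.1 - q) (q + p.2.1) p.2.2 := by
    intro q
    rw [← mx_step1' hM (p.1 - q) (q + p.2.1) p.2.2]
    congr 1
    funext u
    congr 1
    funext u'
    congr 1 <;> ring
  simp only [e2]
  rw [← integral_Ioc_eq_integral_Ioo, ← intervalIntegral.integral_of_le hx]
  have hD : D12 M = mxd (1, -1, 0) M := mx_D12 hM.smooth
  have tN : Tst (mxd (1, -1, 0) M) := mx_Tst _ hM
  have hcurve : ∀ t : ℝ, HasDerivAt (fun t : ℝ => - M (p.1 - t) (t + p.2.1) p.2.2)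
      (D12 M (p.1 - t) (t + p.2.1) p.2.2) t := by
    intro t
    have h3 := mx_curve (1, -1, 0) hM.smooth p.1 p.2.1 p.2.2 (-t)
    have h4 := (h3.scomp t (hasDerivAt_neg t)).neg
    simp only [mul_one, mul_neg, mul_zero, add_zero, neg_neg, Function.comp_def, smul_eq_mul,
      neg_mul, one_mul] at h4
    rw [hD]
    have e3 : ∀ s : ℝ, p.1 + -s = p.1 - s := fun s => by ring
    have e4 : ∀ s : ℝ, p.2.1 + s = s + p.2.1 := fun s => by ring
    simp only [e3, e4] at h4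
    exact h4
  have hcont : Continuous fun t : ℝ => D12 M (p.1 - t) (t + p.2.1) p.2.2 := by
    rw [hD]
    have h2 : Continuous fun t : ℝ =>
      ((p.1 - t, t + p.2.1, p.2.2) : ℝ × ℝ × ℝ) := by fun_prop
    exact (mx_cont tN).comp h2
  rw [intervalIntegral.integral_eq_sub_of_hasDerivAt (fun t _ => hcurve t)
    (hcont.intervalIntegrable _ _)]
  obtain ⟨a', b', ha', hab'⟩ := hM.supp
  rw [sub_self, hab' 0 _ _ (Or.inl ha')]
  simp

end Pool.Agent.SixT
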