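import Mathlib
import Pool.Agent.Lib_MP_112ba8_t.Defs

/-!
Piece E8 (about 60 lines). `ContDiffBump` centred at `1/4 - 3δ/2` with outer radius `δ/2`, normalised.
-/

namespace Pool.Agent.SixT

open Filter Topology MeasureTheory
open Pool.Agent.EvenMoment (cl Wgt Sz ker ar)

theorem exists_Thin {δ c : ℝ} (hδ : 0 < δ) (hδ1 : δ < 1 / 8) (hc : 0 < c) : ∃ φ, Thin φ δ c := by
  let f : ContDiffBump (1 / 4 - 3 * δ / 2 : ℝ) :=
    { rIn := δ / 4
      rOut := δ / 2
      rIn_pos := by positivity
      rIn_lt_rOut := by linarith }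
  have hne : 0 < ∫ x, f x := f.integral_pos
  refine ⟨fun s => c * f.normed volume s, ?_, ?_, ?_, ?_⟩
  · exact contDiff_const.mul f.contDiff_normed
  · intro s
    exact mul_nonneg hc.le (f.nonneg_normed s)
  · intro s hs
    have h0 : f.normed volume s = 0 := by
      by_contra hcon
      have hmem : s ∈ Function.support (f.normed volume) := hcon
      rw [f.support_normed_eq, Metric.mem_ball, Real.dist_eq] at hmem
      have hmem2 : |s - (1 / 4 - 3 * δ / 2)| < δ / 2 := hmem
      rw [abs_lt] at hmem2
      rcases hs with hs | hs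
      · linarith [hmem2.1]
      · linarith [hmem2.2]
    show c * f.normed volume s = 0
    rw [h0, mul_zero]
  · show ∫ s, c * f.normed volume s = c
    rw [MeasureTheory.integral_const_mul, f.integral_normed, mul_one]

end Pool.Agent.SixT
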