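import Mathlib
import Pool.Agent.Lib_MP_112ba8_t.Defs
import Pool.Agent.Lib_MP_112ba8_e.Contour

/-!
Piece C1 (about 350 lines). Same as `Lib_MP_112ba8_e/Contour.lean` with `ζ²` replaced by `ζ³`:
`Tz z = ∑_{a,b,c} e^{-abcz} = (1/2πi) ∫_{Re s = 2} Γ(s) ζ(s)³ z^{-s} ds` (Mellin transform `ct_mellin`
and `ζ³ = ∑ d₃(n) n^{-s}`; or: `Tz z = ∑_c Sz (c z)` and `Sz_line2` for each `cz`, then sum over `c`
inside the integral, `∑_c c^{-s} = ζ(s)` on `Re s = 2`). Move the line to `Re s = 1/2` with the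
rectangle lemma (the only pole is `s = 1`; as in `ctg_rect`, `ctg_bdry` bound the integrand on the
boundary of a fixed rectangle around `s = 1` by `B (‖z‖^{-1/2} + ‖z‖^{-2})`, valid for all `Re z > 0`
since `|z^{-s}| = ‖z‖^{-σ} e^{t arg z}`, `|arg z| < π/2`).
Decay on the lines: `ct_Gamma_decay`, `ct_zeta_strip`.
-/

namespace Pool.Agent.SixT

open Filter Topology MeasureTheory Set Complex
open Pool.Agent.EvenMoment (cl Wgt Sz ker ar)

namespace TzC

open Pool.Agent.EvenMoment (ctg ct_gp_decay ct_zeta_strip ct_integrable ct_cpow_norm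
  ctg_line_integrable Sz_line2 ctg_diff)

/-- the integrand -/
noncomputable def ctg3 (z s : ℂ) : ℂ := Complex.Gamma s * riemannZeta s ^ 3 * z ^ (-s)

lemma ctg3_diff {z : ℂ} (hz : z ≠ 0) {s : ℂ} (hs : 0 < s.re) (h1 : s ≠ 1) :
    DifferentiableAt ℂ (ctg3 z) s := by
  unfold ctg3
  refine DifferentiableAt.mul (DifferentiableAt.mul ?_ ?_) ?_
  · refine Complex.differentiableAt_Gamma s fun m h => ?_
    have := congrArg Complex.re h
    simp at this
    have h3 : (0 : ℝ) ≤ m := Nat.cast_nonneg m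
    linarith
  · exact (differentiableAt_riemannZeta h1).pow 3
  · exact (differentiableAt_id.neg).const_cpow (Or.inl hz)

lemma pow_exp6 {c : ℝ} (hc : 0 < c) : ∃ K : ℝ, 0 < K ∧ ∀ t : ℝ, 0 ≤ t →
    (1 + t) ^ 6 * Real.exp (-(c * t)) ≤ K * Real.exp (-(c / 2 * t)) := by
  refine ⟨(12 / c + 1) ^ 6, by positivity, fun t ht => ?_⟩
  have h1 : 1 + t ≤ (12 / c + 1) * Real.exp (c * t / 12) := by
    have h2 := Real.add_one_le_exp (c * t / 12)
    have h3 : (12 / c + 1) * (c * t / 12 + 1) = t + 1 + (12 / c + c * t / 12) := by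
      field_simp; ring
    have h4 : 0 ≤ 12 / c + c * t / 12 := by positivity
    calc 1 + t ≤ (12 / c + 1) * (c * t / 12 + 1) := by rw [h3]; linarith
      _ ≤ _ := by gcongr
  calc (1 + t) ^ 6 * Real.exp (-(c * t)) ≤
        ((12 / c + 1) * Real.exp (c * t / 12)) ^ 6 * Real.exp (-(c * t)) := by gcongr
    _ = (12 / c + 1) ^ 6 * (Real.exp (c * t / 12) ^ 6 * Real.exp (-(c * t))) := by ring
    _ = (12 / c + 1) ^ 6 * Real.exp (-(c / 2 * t)) := by
        rw [← Real.exp_nat_mul, ← Real.exp_add]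
        congr 2
        push_cast; ring

/-- bound for the integrand -/
lemma ctg3_decay {z : ℂ} (hz : 0 < z.re) : ∃ K c : ℝ, 0 < K ∧ 0 < c ∧ ∀ s : ℂ, 1 / 2 ≤ s.re →
    s.re ≤ 2 → 1 ≤ |s.im| → ‖ctg3 z s‖ ≤ K * Real.exp (-(c * |s.im|)) := by
  obtain ⟨K, c, hK, hc, h⟩ := ct_gp_decay hz
  obtain ⟨K', hK', h'⟩ := pow_exp6 hc
  refine ⟨K * 2744 * K', c / 2, by positivity, by positivity, fun s h1 h2 h3 => ?_⟩
  have e : ctg3 z s = (Complex.Gamma s * z ^ (-s)) * riemannZeta s ^ 3 := by unfold ctg3; ring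
  have hζ := ct_zeta_strip (s := s) (by linarith) h2 h3
  rw [e, norm_mul, norm_pow]
  calc ‖Complex.Gamma s * z ^ (-s)‖ * ‖riemannZeta s‖ ^ 3
      ≤ (K * Real.exp (-(c * |s.im|))) * (14 * (1 + |s.im|) ^ 2) ^ 3 := by
        gcongr
        exact h s h1 h2
    _ = K * 2744 * ((1 + |s.im|) ^ 6 * Real.exp (-(c * |s.im|))) := by ring
    _ ≤ K * 2744 * (K' * Real.exp (-(c / 2 * |s.im|))) :=
        mul_le_mul_of_nonneg_left (h' _ (abs_nonneg _)) (by positivity)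
    _ = _ := by ring

lemma ctg3_line_cont {z : ℂ} (hz : z ≠ 0) {σ : ℝ} (h0 : 0 < σ) (h1 : σ ≠ 1) :
    Continuous fun t : ℝ => ctg3 z (σ + t * I) := by
  rw [continuous_iff_continuousAt]
  intro t
  have hc : ContinuousAt (fun t : ℝ => (σ + t * I : ℂ)) t := by fun_prop
  refine ContinuousAt.comp (g := ctg3 z) (ctg3_diff hz (by simpa using h0) ?_).continuousAt hc
  intro h
  have := congrArg Complex.re h
  simp at this
  exact h1 this

lemma ctg3_line_integrable {z : ℂ} (hz : 0 < z.re) {σ : ℝ} (h0 : 1 / 2 ≤ σ) (h2 : σ ≤ 2)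
    (h1 : σ ≠ 1) : Integrable fun t : ℝ => ctg3 z (σ + t * I) := by
  have hz0 : z ≠ 0 := by rintro rfl; simp at hz
  obtain ⟨K, c, _, hc, h⟩ := ctg3_decay hz
  refine ct_integrable (ctg3_line_cont hz0 (by linarith) h1) hc (K := K) fun t ht => ?_
  have := h (σ + t * I) (by simpa using h0) (by simpa using h2) (by simpa using ht)
  simpa using this

lemma real_mul_cpow {r : ℝ} (hr : 0 < r) {z : ℂ} (hz : z ≠ 0) (s : ℂ) :
    ((r : ℂ) * z) ^ s = (r : ℂ) ^ s * z ^ s := by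
  have hr' : (r : ℂ) ≠ 0 := by exact_mod_cast hr.ne'
  rw [Complex.cpow_def_of_ne_zero (mul_ne_zero hr' hz), Complex.cpow_def_of_ne_zero hr',
    Complex.cpow_def_of_ne_zero hz, ← Complex.exp_add, Complex.log_ofReal_mul hr hz,
    ← Complex.ofReal_log hr.le]
  congr 1
  ring

lemma zeta_hasSum {s : ℂ} (hs : 1 < s.re) :
    HasSum (fun n : ℕ => (((n + 1 : ℕ) : ℝ) : ℂ) ^ (-s)) (riemannZeta s) := by
  have hsum : Summable fun n : ℕ => ‖((n + 1 : ℕ) : ℂ) ^ (-s)‖ := by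
    have h1 : Summable fun n : ℕ => (((n + 1 : ℕ) : ℝ)) ^ (-s.re) := by
      have := (Real.summable_nat_rpow (p := -s.re)).mpr (by linarith)
      exact (summable_nat_add_iff 1).mpr this
    have e : (fun n : ℕ => ‖((n + 1 : ℕ) : ℂ) ^ (-s)‖) =
        fun n : ℕ => (((n + 1 : ℕ) : ℝ)) ^ (-s.re) := by
      funext n
      rw [Complex.norm_natCast_cpow_of_pos (Nat.succ_pos n), Complex.neg_re]
    rw [e]
    exact h1
  rw [zeta_eq_tsum_one_div_nat_add_one_cpow hs]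
  have h2 : (fun n : ℕ => 1 / ((n : ℂ) + 1) ^ s) = fun n : ℕ => ((n + 1 : ℕ) : ℂ) ^ (-s) := by
    funext n
    rw [Complex.cpow_neg, one_div]
    push_cast; rfl
  rw [h2]
  have h3 : (fun n : ℕ => (((n + 1 : ℕ) : ℝ) : ℂ) ^ (-s)) =
      fun n : ℕ => ((n + 1 : ℕ) : ℂ) ^ (-s) := by
    funext n
    norm_cast
  rw [h3]
  exact hsum.of_norm.hasSum

/-- `Tz` as an integral over the line `Re s = 2` -/
lemma Tz_line2 {z : ℂ} (hz : 0 < z.re) :
    Tz z = (1 / (2 * Real.pi) : ℂ) * ∫ t : ℝ, ctg3 z ((2 : ℝ) + t * I) := by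
  have hz0 : z ≠ 0 := by rintro rfl; simp at hz
  have hint := ctg_line_integrable hz (σ := 2) (by norm_num) le_rfl (by norm_num)
  set h : ℝ → ℂ := fun t => ctg z ((2 : ℝ) + t * I) with hh
  set F : ℕ → ℝ → ℂ := fun n t =>
    (((n + 1 : ℕ) : ℝ) : ℂ) ^ (-((2 : ℝ) + t * I : ℂ)) * h t with hF
  have hpos : ∀ n : ℕ, (0 : ℝ) < ((n + 1 : ℕ) : ℝ) := fun n => by positivity
  have hnorm : ∀ n t, ‖F n t‖ = ((n + 1 : ℕ) : ℝ) ^ (-2 : ℝ) * ‖h t‖ := by
    intro n t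
    rw [hF]
    simp only
    rw [norm_mul, Complex.norm_cpow_eq_rpow_re_of_pos (hpos n)]
    simp
  have hFc : ∀ n : ℕ, Continuous fun t : ℝ =>
      (((n + 1 : ℕ) : ℝ) : ℂ) ^ (-((2 : ℝ) + t * I : ℂ)) := by
    intro n
    refine Continuous.const_cpow (by fun_prop) (Or.inl ?_)
    have := (hpos n).ne'
    exact_mod_cast this
  have hFint : ∀ n, Integrable (F n) := by
    intro n
    refine Integrable.mono' (g := fun t =>
      ((n + 1 : ℕ) : ℝ) ^ (-2 : ℝ) * ‖h t‖) (hint.norm.const_mul _)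
      ((hFc n).aestronglyMeasurable.mul hint.aestronglyMeasurable)
      (Eventually.of_forall fun t => (hnorm n t).le)
  have hsummable : Summable fun n : ℕ => ((n + 1 : ℕ) : ℝ) ^ (-2 : ℝ) := by
    have := (Real.summable_nat_rpow (p := (-2 : ℝ))).mpr (by norm_num)
    exact (summable_nat_add_iff 1).mpr this
  have hFsum : Summable fun n => ∫ t, ‖F n t‖ := by
    simp_rw [hnorm, integral_const_mul]
    exact hsummable.mul_right _
  have key := hasSum_integral_of_summable_integral_norm hFint hFsum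
  have h5 : (∫ t, ∑' n, F n t) = ∫ t : ℝ, ctg3 z ((2 : ℝ) + t * I) := by
    congr 1
    funext t
    have h6 := (zeta_hasSum (s := (2 : ℝ) + t * I) (by simp)).mul_right (h t)
    rw [h6.tsum_eq, hh]
    simp only [ctg, ctg3]
    ring
  rw [h5] at key
  have key2 := key.mul_left (1 / (2 * Real.pi) : ℂ)
  have h8 : (fun n => (1 / (2 * Real.pi) : ℂ) * ∫ t, F n t) =
      fun n : ℕ => Sz (((n : ℂ) + 1) * z) := by
    funext n
    have hre : 0 < (((n : ℂ) + 1) * z).re := by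
      have : (((n : ℂ) + 1) * z).re = ((n : ℝ) + 1) * z.re := by simp
      rw [this]; positivity
    rw [Sz_line2 hre]
    congr 2
    funext t
    have hc : ((n : ℂ) + 1) * z = (((n + 1 : ℕ) : ℝ) : ℂ) * z := by push_cast; ring
    simp only [hF, hh, ctg]
    rw [hc, real_mul_cpow (hpos n) hz0]
    ring
  rw [h8] at key2
  rw [← key2.tsum_eq, Tz]

lemma ctg3_H_tendsto {z : ℂ} (hz : 0 < z.re) :
    Tendsto (fun Y : ℝ => ∫ x in (1 / 2 : ℝ)..2, ctg3 z (x + Y * I)) atTop (𝓝 0) ∧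
    Tendsto (fun Y : ℝ => ∫ x in (1 / 2 : ℝ)..2, ctg3 z (x + (-Y : ℝ) * I)) atTop (𝓝 0) := by
  obtain ⟨K, c, hK, hc, h⟩ := ctg3_decay hz
  have hlim : Tendsto (fun Y : ℝ => K * Real.exp (-(c * Y)) * |(2 : ℝ) - 1 / 2|) atTop (𝓝 0) := by
    have h1 : Tendsto (fun Y : ℝ => Real.exp (-(c * Y))) atTop (𝓝 0) := by
      refine Real.tendsto_exp_neg_atTop_nhds_zero.comp ?_
      exact tendsto_id.const_mul_atTop hc
    have h2 := (h1.const_mul K).mul_const |(2 : ℝ) - 1 / 2|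
    simpa using h2
  constructor
  · refine squeeze_zero_norm' ?_ hlim
    filter_upwards [eventually_ge_atTop 1] with Y hY
    refine intervalIntegral.norm_integral_le_of_norm_le_const fun x hx => ?_
    rw [uIoc_of_le (by norm_num)] at hx
    have := h (x + Y * I) (by simpa using hx.1.le) (by simpa using hx.2)
      (by simpa using hY.trans (le_abs_self Y))
    have e : |((x : ℂ) + Y * I).im| = Y := by
      simp only [Complex.add_im, Complex.ofReal_im, Complex.mul_im, Complex.ofReal_re,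
        Complex.I_im, Complex.I_re]
      rw [abs_of_nonneg]
      · simp
      · simp; linarith
    rw [e] at this
    exact this
  · refine squeeze_zero_norm' ?_ hlim
    filter_upwards [eventually_ge_atTop 1] with Y hY
    refine intervalIntegral.norm_integral_le_of_norm_le_const fun x hx => ?_
    rw [uIoc_of_le (by norm_num)] at hx
    have := h (x + (-Y : ℝ) * I) (by simpa using hx.1.le) (by simpa using hx.2)
      (by simpa using hY.trans (le_abs_self Y))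
    have e : |((x : ℂ) + (-Y : ℝ) * I).im| = Y := by
      simp only [Complex.add_im, Complex.ofReal_im, Complex.mul_im, Complex.ofReal_re,
        Complex.I_im, Complex.I_re]
      rw [abs_of_nonpos]
      · simp
      · simp; linarith
    rw [e] at this
    exact this

lemma ctg3_rect {z : ℂ} (hz : z ≠ 0) {a b : ℝ} (hab : ∀ y ∈ uIcc a b, y ≠ 0) :
    (∫ x in (1 / 2 : ℝ)..2, ctg3 z (x + a * I)) - (∫ x in (1 / 2 : ℝ)..2, ctg3 z (x + b * I)) +
      I * (∫ y in a..b, ctg3 z ((2 : ℝ) + y * I)) -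
      I * (∫ y in a..b, ctg3 z ((1 / 2 : ℝ) + y * I)) = 0 := by
  have h := Complex.integral_boundary_rect_eq_zero_of_differentiableOn (ctg3 z)
    (((1 / 2 : ℝ) : ℂ) + a * I) (((2 : ℝ) : ℂ) + b * I) ?_
  · have e1 : (((1 / 2 : ℝ) : ℂ) + a * I).re = 1 / 2 := by simp
    have e2 : (((2 : ℝ) : ℂ) + b * I).re = 2 := by simp
    have e3 : (((1 / 2 : ℝ) : ℂ) + a * I).im = a := by simp
    have e4 : (((2 : ℝ) : ℂ) + b * I).im = b := by simp
    rw [e1, e2, e3, e4] at h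
    simpa only [smul_eq_mul] using h
  · intro s hs
    rw [Complex.mem_reProdIm] at hs
    have h1 : s.re ∈ uIcc (1 / 2 : ℝ) 2 := by simpa using hs.1
    have h2 : s.im ∈ uIcc a b := by simpa using hs.2
    rw [uIcc_of_le (by norm_num)] at h1
    refine (ctg3_diff hz (by linarith [h1.1]) ?_).differentiableWithinAt
    rintro rfl
    exact hab _ h2 (by simp)

lemma ctg3_bdry_all : ∃ B : ℝ, 0 < B ∧ ∀ z : ℂ, 0 < z.re → ∀ s : ℂ, 1 / 2 ≤ s.re →
    s.re ≤ 2 → |s.im| ≤ 1 → (s.re = 1 / 2 ∨ s.re = 2 ∨ |s.im| = 1) →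
    ‖ctg3 z s‖ ≤ B * (‖z‖ ^ (-(1 / 2) : ℝ) + ‖z‖ ^ (-2 : ℝ)) := by
  set S : Set ℂ := (Icc (1 / 2 : ℝ) 2 ×ℂ Icc (-1 : ℝ) 1) \ (Ioo (1 / 2 : ℝ) 2 ×ℂ Ioo (-1 : ℝ) 1)
    with hS
  have hSc : IsCompact S :=
    (isCompact_Icc.reProdIm isCompact_Icc).diff (isOpen_Ioo.reProdIm isOpen_Ioo)
  have hcont : ContinuousOn (fun s : ℂ => Complex.Gamma s * riemannZeta s ^ 3) S := by
    intro s hs
    have h1 := hs.1
    rw [Complex.mem_reProdIm] at h1
    have hne : s ≠ 1 := by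
      rintro rfl
      refine hs.2 ?_
      rw [Complex.mem_reProdIm]
      simp only [Complex.one_re, Complex.one_im, mem_Ioo]
      norm_num
    refine ContinuousAt.continuousWithinAt (ContinuousAt.mul ?_ ?_)
    · refine (Complex.differentiableAt_Gamma s fun m h => ?_).continuousAt
      have := congrArg Complex.re h
      simp at this
      have h3 : (0 : ℝ) ≤ m := Nat.cast_nonneg m
      have h4 := h1.1.1
      linarith
    · exact (differentiableAt_riemannZeta hne).continuousAt.pow 3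
  obtain ⟨B, hB⟩ := hSc.exists_bound_of_continuousOn hcont
  refine ⟨(|B| + 1) * Real.exp (Real.pi / 2), by positivity, fun z hz s h1 h2 h3 h4 => ?_⟩
  have hz0 : z ≠ 0 := by rintro rfl; simp at hz
  have harg : |Complex.arg z| < Real.pi / 2 := Complex.abs_arg_lt_pi_div_two_iff.mpr (Or.inl hz)
  have hs : s ∈ S := by
    refine ⟨?_, ?_⟩
    · rw [Complex.mem_reProdIm]; exact ⟨⟨h1, h2⟩, abs_le.mp h3⟩
    · rw [Complex.mem_reProdIm]
      rintro ⟨⟨a1, a2⟩, a3⟩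
      have a3' : |s.im| < 1 := abs_lt.mpr a3
      rcases h4 with h | h | h <;> linarith
  have hb := hB s hs
  unfold ctg3
  rw [norm_mul, ct_cpow_norm hz0]
  have hzn0 : 0 < ‖z‖ := norm_pos_iff.mpr hz0
  have e1 : ‖z‖ ^ (-s.re) ≤ ‖z‖ ^ (-(1 / 2) : ℝ) + ‖z‖ ^ (-2 : ℝ) := by
    rcases le_total 1 ‖z‖ with hz1 | hz1
    · have := Real.rpow_le_rpow_of_exponent_le hz1 (show -s.re ≤ -(1 / 2) by linarith)
      have h9 : 0 ≤ ‖z‖ ^ (-2 : ℝ) := by positivity
      linarith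
    · have := Real.rpow_le_rpow_of_exponent_ge hzn0 hz1 (show (-2 : ℝ) ≤ -s.re by linarith)
      have h9 : 0 ≤ ‖z‖ ^ (-(1 / 2) : ℝ) := by positivity
      linarith
  have e2 : Real.exp (Complex.arg z * s.im) ≤ Real.exp (Real.pi / 2) := by
    apply Real.exp_le_exp.mpr
    calc Complex.arg z * s.im ≤ |Complex.arg z * s.im| := le_abs_self _
      _ = |Complex.arg z| * |s.im| := abs_mul _ _
      _ ≤ Real.pi / 2 * 1 := by gcongr
      _ = Real.pi / 2 := mul_one _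
  have e3 : ‖Complex.Gamma s * riemannZeta s ^ 3‖ ≤ |B| + 1 :=
    hb.trans ((le_abs_self B).trans (by linarith))
  calc ‖Complex.Gamma s * riemannZeta s ^ 3‖ * (‖z‖ ^ (-s.re) * Real.exp (Complex.arg z * s.im))
      ≤ (|B| + 1) * ((‖z‖ ^ (-(1 / 2) : ℝ) + ‖z‖ ^ (-2 : ℝ)) * Real.exp (Real.pi / 2)) := by gcongr
    _ = _ := by ring

theorem Tz_contour_aux : ∃ C : ℝ, 0 < C ∧ ∀ z : ℂ, 0 < z.re →
    ‖Tz z - (1 / (2 * Real.pi) : ℂ) *
      ∫ t : ℝ, Complex.Gamma (cl t) * riemannZeta (cl t) ^ 3 * z ^ (-(cl t))‖ ≤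
      C * (‖z‖ ^ (-(1 / 2) : ℝ) + ‖z‖ ^ (-2 : ℝ)) := by
  obtain ⟨B, hB0, hB⟩ := ctg3_bdry_all
  refine ⟨(1 / (2 * Real.pi)) * (7 * B), by positivity, fun z hz => ?_⟩
  have hz0 : z ≠ 0 := by rintro rfl; simp at hz
  set D : ℝ := B * (‖z‖ ^ (-(1 / 2) : ℝ) + ‖z‖ ^ (-2 : ℝ)) with hD
  have e0 : (∫ t : ℝ, Complex.Gamma (cl t) * riemannZeta (cl t) ^ 3 * z ^ (-(cl t))) =
      ∫ t : ℝ, ctg3 z ((1 / 2 : ℝ) + t * I) := by
    congr 1
    funext t
    simp [ctg3, cl]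
  rw [e0, Tz_line2 hz, ← mul_sub]
  have i2 := ctg3_line_integrable hz (σ := 2) (by norm_num) le_rfl (by norm_num)
  have i1 := ctg3_line_integrable hz (σ := 1 / 2) le_rfl (by norm_num) (by norm_num)
  have hV2 : Tendsto (fun Y : ℝ => ∫ y in (-Y)..Y, ctg3 z ((2 : ℝ) + y * I)) atTop
      (𝓝 (∫ t : ℝ, ctg3 z ((2 : ℝ) + t * I))) :=
    intervalIntegral_tendsto_integral i2 tendsto_neg_atTop_atBot tendsto_id
  have hV1 : Tendsto (fun Y : ℝ => ∫ y in (-Y)..Y, ctg3 z ((1 / 2 : ℝ) + y * I)) atTop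
      (𝓝 (∫ t : ℝ, ctg3 z ((1 / 2 : ℝ) + t * I))) :=
    intervalIntegral_tendsto_integral i1 tendsto_neg_atTop_atBot tendsto_id
  obtain ⟨hH1, hH2⟩ := ctg3_H_tendsto hz
  set R : ℂ := I * ((∫ y in (-1 : ℝ)..1, ctg3 z ((2 : ℝ) + y * I)) -
    ∫ y in (-1 : ℝ)..1, ctg3 z ((1 / 2 : ℝ) + y * I)) -
    (∫ x in (1 / 2 : ℝ)..2, ctg3 z (x + (1 : ℝ) * I)) +
    ∫ x in (1 / 2 : ℝ)..2, ctg3 z (x + (-1 : ℝ) * I) with hR
  have hid : ∀ Y : ℝ, 1 ≤ Y → I * ((∫ y in (-Y)..Y, ctg3 z ((2 : ℝ) + y * I)) -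
      ∫ y in (-Y)..Y, ctg3 z ((1 / 2 : ℝ) + y * I)) = R +
      (∫ x in (1 / 2 : ℝ)..2, ctg3 z (x + Y * I)) -
      ∫ x in (1 / 2 : ℝ)..2, ctg3 z (x + (-Y : ℝ) * I) := by
    intro Y hY
    have r1 := ctg3_rect hz0 (a := 1) (b := Y) (by
      intro y hy
      rw [uIcc_of_le hY] at hy
      have := hy.1
      intro h
      linarith)
    have r2 := ctg3_rect hz0 (a := -Y) (b := -1) (by
      intro y hy
      rw [uIcc_of_le (by linarith)] at hy
      have := hy.2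
      intro h
      linarith)
    have s2 : (∫ y in (-Y)..Y, ctg3 z ((2 : ℝ) + y * I)) =
        (∫ y in (-Y)..(-1), ctg3 z ((2 : ℝ) + y * I)) +
        (∫ y in (-1 : ℝ)..1, ctg3 z ((2 : ℝ) + y * I)) +
        ∫ y in (1 : ℝ)..Y, ctg3 z ((2 : ℝ) + y * I) := by
      rw [intervalIntegral.integral_add_adjacent_intervals i2.intervalIntegrable
        i2.intervalIntegrable, intervalIntegral.integral_add_adjacent_intervals
        i2.intervalIntegrable i2.intervalIntegrable]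
    have s1 : (∫ y in (-Y)..Y, ctg3 z ((1 / 2 : ℝ) + y * I)) =
        (∫ y in (-Y)..(-1), ctg3 z ((1 / 2 : ℝ) + y * I)) +
        (∫ y in (-1 : ℝ)..1, ctg3 z ((1 / 2 : ℝ) + y * I)) +
        ∫ y in (1 : ℝ)..Y, ctg3 z ((1 / 2 : ℝ) + y * I) := by
      rw [intervalIntegral.integral_add_adjacent_intervals i1.intervalIntegrable
        i1.intervalIntegrable, intervalIntegral.integral_add_adjacent_intervals
        i1.intervalIntegrable i1.intervalIntegrable]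
    rw [s1, s2, hR]
    linear_combination r1 + r2
  have hlim1 : Tendsto (fun Y : ℝ => I * ((∫ y in (-Y)..Y, ctg3 z ((2 : ℝ) + y * I)) -
      ∫ y in (-Y)..Y, ctg3 z ((1 / 2 : ℝ) + y * I))) atTop
      (𝓝 (I * ((∫ t : ℝ, ctg3 z ((2 : ℝ) + t * I)) - ∫ t : ℝ, ctg3 z ((1 / 2 : ℝ) + t * I)))) :=
    (hV2.sub hV1).const_mul I
  have hlim2 : Tendsto (fun Y : ℝ => R + (∫ x in (1 / 2 : ℝ)..2, ctg3 z (x + Y * I)) -
      ∫ x in (1 / 2 : ℝ)..2, ctg3 z (x + (-Y : ℝ) * I)) atTop (𝓝 (R + 0 - 0)) :=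
    (tendsto_const_nhds.add hH1).sub hH2
  have hRR : I * ((∫ t : ℝ, ctg3 z ((2 : ℝ) + t * I)) - ∫ t : ℝ, ctg3 z ((1 / 2 : ℝ) + t * I)) =
      R := by
    have := tendsto_nhds_unique (hlim1.congr' (by
      filter_upwards [eventually_ge_atTop 1] with Y hY
      exact hid Y hY)) hlim2
    simpa using this
  have hnR : ‖(∫ t : ℝ, ctg3 z ((2 : ℝ) + t * I)) - ∫ t : ℝ, ctg3 z ((1 / 2 : ℝ) + t * I)‖ = ‖R‖ := by
    rw [← hRR, norm_mul, Complex.norm_I, one_mul]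
  have b1 : ‖∫ y in (-1 : ℝ)..1, ctg3 z ((2 : ℝ) + y * I)‖ ≤ D * |(1 : ℝ) - (-1)| := by
    refine intervalIntegral.norm_integral_le_of_norm_le_const fun y hy => ?_
    rw [uIoc_of_le (by norm_num)] at hy
    have hy' : |y| ≤ 1 := abs_le.mpr ⟨hy.1.le, hy.2⟩
    exact hB z hz _ (by simp; norm_num) (by simp) (by simpa using hy') (by simp)
  have b2 : ‖∫ y in (-1 : ℝ)..1, ctg3 z ((1 / 2 : ℝ) + y * I)‖ ≤ D * |(1 : ℝ) - (-1)| := by
    refine intervalIntegral.norm_integral_le_of_norm_le_const fun y hy => ?_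
    rw [uIoc_of_le (by norm_num)] at hy
    have hy' : |y| ≤ 1 := abs_le.mpr ⟨hy.1.le, hy.2⟩
    exact hB z hz _ (by simp) (by simp; norm_num) (by simpa using hy') (by simp)
  have b3 : ‖∫ x in (1 / 2 : ℝ)..2, ctg3 z (x + (1 : ℝ) * I)‖ ≤ D * |(2 : ℝ) - 1 / 2| := by
    refine intervalIntegral.norm_integral_le_of_norm_le_const fun x hx => ?_
    rw [uIoc_of_le (by norm_num)] at hx
    exact hB z hz _ (by simpa using hx.1.le) (by simpa using hx.2) (by simp) (by simp)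
  have b4 : ‖∫ x in (1 / 2 : ℝ)..2, ctg3 z (x + (-1 : ℝ) * I)‖ ≤ D * |(2 : ℝ) - 1 / 2| := by
    refine intervalIntegral.norm_integral_le_of_norm_le_const fun x hx => ?_
    rw [uIoc_of_le (by norm_num)] at hx
    exact hB z hz _ (by simpa using hx.1.le) (by simpa using hx.2) (by simp) (by simp)
  have c1 : |(1 : ℝ) - (-1)| = 2 := by norm_num
  have c2 : |(2 : ℝ) - 1 / 2| = 3 / 2 := by norm_num
  rw [c1] at b1 b2
  rw [c2] at b3 b4
  have hRn : ‖R‖ ≤ 7 * D := by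
    rw [hR]
    refine (norm_add_le _ _).trans ?_
    refine (add_le_add_left ((norm_sub_le _ _)) _).trans ?_
    rw [norm_mul, Complex.norm_I, one_mul]
    have := norm_sub_le (∫ y in (-1 : ℝ)..1, ctg3 z ((2 : ℝ) + y * I))
      (∫ y in (-1 : ℝ)..1, ctg3 z ((1 / 2 : ℝ) + y * I))
    linarith
  rw [norm_mul, hnR]
  have c3 : ‖(1 / (2 * Real.pi) : ℂ)‖ = 1 / (2 * Real.pi) := by
    rw [norm_div, norm_one, norm_mul, Complex.norm_real, Real.norm_of_nonneg Real.pi_pos.le,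
      Complex.norm_ofNat]
  rw [c3]
  calc 1 / (2 * Real.pi) * ‖R‖ ≤ 1 / (2 * Real.pi) * (7 * D) := by gcongr
    _ = _ := by rw [hD]; ring

end TzC

theorem Tz_line_integrable {z : ℂ} (hz : 0 < z.re) :
    Integrable fun t : ℝ => Complex.Gamma (cl t) * riemannZeta (cl t) ^ 3 * z ^ (-(cl t)) := by
  have h := TzC.ctg3_line_integrable hz (σ := 1 / 2) le_rfl (by norm_num) (by norm_num)
  refine h.congr (Eventually.of_forall fun t => ?_)
  simp [TzC.ctg3, cl]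

theorem Tz_contour : ∃ C : ℝ, 0 < C ∧ ∀ z : ℂ, 0 < z.re →
    ‖Tz z - (1 / (2 * Real.pi) : ℂ) *
      ∫ t : ℝ, Complex.Gamma (cl t) * riemannZeta (cl t) ^ 3 * z ^ (-(cl t))‖ ≤
      C * (‖z‖ ^ (-(1 / 2) : ℝ) + ‖z‖ ^ (-2 : ℝ)) := TzC.Tz_contour_aux

end Pool.Agent.SixT
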