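import Mathlib
import Pool.Agent.Lib_MP_112ba8_t.TzContour
import Pool.Agent.Lib_MP_112ba8_t.TwoExact

/-!
Piece C2: the same as `M2_exact` (`T2Exact.lean`) with `|ζ|² ζ` instead of `|ζ|²`, i.e.
`gamma_line` multiplied by `ζ(cl t)`: `∫ |ζ|² ζ (h/k)^{it} ker p t dt = 2π √(k/h) e^{-ip/2} · (1/2π)
∫ Γ ζ³ z^{-s} dt` and `Tz_contour` instead of `Sz_contour'`.
-/

namespace Pool.Agent.SixT

open Filter Topology MeasureTheory
open Pool.Agent.EvenMoment (cl Wgt Sz ker ar gamma_line zeta_growth ker_decay pp_re pp_im)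

namespace M3E

/-- `∫ |ζ|² ζ (h/k)^{it} e^{-pt}/(1+ie^{-πt}) dt` with `p = (2 + iξ)/T` -/
noncomputable def J3 (h k : ℕ) (T ξ : ℝ) : ℂ :=
  ∫ t : ℝ, riemannZeta (cl t) * ((‖riemannZeta (cl t)‖ ^ 2 : ℝ) *
    Complex.exp (t * (Real.log h - Real.log k : ℝ) * Complex.I) *
    ker ((2 + Complex.I * ξ) / T) t)

/-- the main integrable function -/
noncomputable def H3 (h k : ℕ) (T t : ℝ) : ℂ :=
  riemannZeta (cl t) * Pool.Agent.EvenMoment.Tw.HH h k T t

lemma poly6 {c : ℝ} (hc : 0 < c) : ∃ K : ℝ, 0 < K ∧ ∀ t : ℝ,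
    (1 + |t|) ^ 6 * Real.exp (-(c * |t|)) ≤ K * (1 + t ^ 2)⁻¹ := by
  obtain ⟨K, hK, h1⟩ := TzC.pow_exp6 hc
  obtain ⟨K', hK', h2⟩ := Pool.Agent.EvenMoment.Tw.poly_exp (c := c / 2) (by positivity)
  refine ⟨K * K', by positivity, fun t => ?_⟩
  have h3 : Real.exp (-(c / 2 * |t|)) ≤ (1 + |t|) ^ 4 * Real.exp (-(c / 2 * |t|)) := by
    have : (1 : ℝ) ≤ (1 + |t|) ^ 4 := one_le_pow₀ (by linarith [abs_nonneg t])
    nlinarith [Real.exp_pos (-(c / 2 * |t|))]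
  calc (1 + |t|) ^ 6 * Real.exp (-(c * |t|)) ≤ K * Real.exp (-(c / 2 * |t|)) :=
        h1 _ (abs_nonneg t)
    _ ≤ K * ((1 + |t|) ^ 4 * Real.exp (-(c / 2 * |t|))) := by gcongr
    _ ≤ K * (K' * (1 + t ^ 2)⁻¹) := mul_le_mul_of_nonneg_left (h2 t) hK.le
    _ = _ := by ring

/-- `|ζ|³` times something exponentially small is integrable -/
lemma zint3 {c : ℝ} (hc : 0 < c) : ∃ K : ℝ, 0 < K ∧ ∀ t : ℝ,
    ‖riemannZeta (cl t)‖ ^ 3 * Real.exp (-(c * |t|)) ≤ K * (1 + t ^ 2)⁻¹ := by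
  obtain ⟨C, hC, h⟩ := zeta_growth
  obtain ⟨K, hK, h'⟩ := poly6 hc
  refine ⟨C ^ 3 * K, by positivity, fun t => ?_⟩
  calc ‖riemannZeta (cl t)‖ ^ 3 * Real.exp (-(c * |t|))
      ≤ (C * (1 + |t|) ^ 2) ^ 3 * Real.exp (-(c * |t|)) := by
        gcongr
        exact h t
    _ = C ^ 3 * ((1 + |t|) ^ 6 * Real.exp (-(c * |t|))) := by ring
    _ ≤ C ^ 3 * (K * (1 + t ^ 2)⁻¹) := by
        exact mul_le_mul_of_nonneg_left (h' t) (by positivity)
    _ = _ := by ring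

lemma H3_cont (h k : ℕ) (T : ℝ) : Continuous (H3 h k T) :=
  Pool.Agent.EvenMoment.Tw.zcont.mul (Pool.Agent.EvenMoment.Tw.HH_cont h k T)

lemma H3_integrable (h k : ℕ) {T : ℝ} (hT : 2 ≤ T) : Integrable (H3 h k T) := by
  obtain ⟨K, hK, hz⟩ := zint3 (c := 2 / T) (by positivity)
  refine Integrable.mono' ((integrable_inv_one_add_sq).const_mul K)
    (H3_cont h k T).aestronglyMeasurable (ae_of_all _ fun t => ?_)
  unfold H3 Pool.Agent.EvenMoment.Tw.HH
  rw [norm_mul, norm_mul, norm_mul, Pool.Agent.EvenMoment.Tw.osc_norm, mul_one, Complex.norm_real,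
    Real.norm_eq_abs, abs_of_nonneg (by positivity), ← mul_assoc, ← pow_succ']
  refine le_trans ?_ (hz t)
  gcongr
  exact Pool.Agent.EvenMoment.Tw.ker_bound hT t

lemma J3_eq (h k : ℕ) (T v : ℝ) : J3 h k T (-(2 * Real.pi * v)) =
    ∫ t : ℝ, H3 h k T t * Complex.exp ((2 * Real.pi * v * (t / T) : ℝ) * Complex.I) := by
  unfold J3
  refine integral_congr_ae (ae_of_all _ fun t => ?_)
  simp only
  rw [Pool.Agent.EvenMoment.Tw.ker_split, H3, Pool.Agent.EvenMoment.Tw.HH]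
  ring

lemma prod_int {G : ℝ → ℂ} (hGi : Integrable G) (h k : ℕ) {T : ℝ} (hT : 2 ≤ T) :
    Integrable (fun z : ℝ × ℝ => Complex.exp ((2 * Real.pi * z.1 * (z.2 / T) : ℝ) *
      Complex.I) * (G z.1 * H3 h k T z.2)) (volume.prod volume) := by
  refine (hGi.mul_prod (H3_integrable h k hT)).bdd_mul (c := 1) ?_ (ae_of_all _ fun z => ?_)
  · exact Continuous.aestronglyMeasurable (by fun_prop)
  · exact (Complex.norm_exp_ofReal_mul_I _).le

lemma fubini {w : ℝ → ℝ} {G : ℝ → ℂ} (hG : GG w G) (h k : ℕ) {T : ℝ} (hT : 2 ≤ T) :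
    ∫ v : ℝ, G v * J3 h k T (-(2 * Real.pi * v)) =
      ∫ t : ℝ, H3 h k T t * ((w (t / T) * Real.exp (2 * (t / T)) : ℝ) : ℂ) := by
  have h1 : ∀ v : ℝ, G v * J3 h k T (-(2 * Real.pi * v)) =
      ∫ t : ℝ, G v * (H3 h k T t * Complex.exp ((2 * Real.pi * v * (t / T) : ℝ) * Complex.I)) := by
    intro v
    rw [integral_const_mul, J3_eq]
  simp_rw [h1]
  rw [integral_integral_swap]
  · refine integral_congr_ae (ae_of_all _ fun t => ?_)
    simp only
    rw [← hG.eq, ← integral_const_mul]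
    refine integral_congr_ae (ae_of_all _ fun v => ?_)
    simp only
    ring
  · have h3 : (Function.uncurry fun (v t : ℝ) => G v * (H3 h k T t *
        Complex.exp ((2 * Real.pi * v * (t / T) : ℝ) * Complex.I))) =
        fun z : ℝ × ℝ => Complex.exp ((2 * Real.pi * z.1 * (z.2 / T) : ℝ) * Complex.I) *
          (G z.1 * H3 h k T z.2) := by
      ext z
      simp only [Function.uncurry]
      ring
    rw [h3]
    exact prod_int hG.int h k hT

lemma G_J3_integrable {G : ℝ → ℂ} (hGi : Integrable G) (h k : ℕ) {T : ℝ} (hT : 2 ≤ T) :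
    Integrable fun v : ℝ => G v * J3 h k T (-(2 * Real.pi * v)) := by
  have h3 : (fun v : ℝ => G v * J3 h k T (-(2 * Real.pi * v))) = fun v : ℝ => ∫ t : ℝ,
    Complex.exp ((2 * Real.pi * v * (t / T) : ℝ) * Complex.I) * (G v * H3 h k T t) := by
    ext v
    rw [J3_eq, ← integral_const_mul]
    refine integral_congr_ae (ae_of_all _ fun t => ?_)
    simp only
    ring
  rw [h3]
  exact (prod_int hGi h k hT).integral_prod_left

/-- removing the factor `1 / (1 + i e^{-πt})` -/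
lemma remove {w : ℝ → ℝ} (hw : Wgt w) : ∃ D : ℝ, 0 < D ∧ ∀ T : ℝ, 2 ≤ T → ∀ h k : ℕ,
    ‖M3 w T h k -
      ∫ t : ℝ, H3 h k T t * ((w (t / T) * Real.exp (2 * (t / T)) : ℝ) : ℂ)‖ ≤ D := by
  obtain ⟨M, hM⟩ := (Pool.Agent.EvenMoment.Tw.hcs hw).exists_bound_of_continuous
    hw.smooth.continuous
  obtain ⟨K, hK, hz⟩ := zint3 (c := Real.pi) Real.pi_pos
  have hM0 : 0 ≤ M := (norm_nonneg _).trans (hM 0)
  refine ⟨∫ t : ℝ, (M * K + 1) * (1 + t ^ 2)⁻¹, ?_, fun T hT h k => ?_⟩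
  · rw [integral_const_mul, integral_univ_inv_one_add_sq]
    positivity
  have hT0 : 0 < T := by linarith
  have hcs' : HasCompactSupport fun t : ℝ => w (t / T) := by
    obtain ⟨a, ha, ha1, h⟩ := hw.supp
    refine HasCompactSupport.intro (isCompact_Icc (a := 0) (b := T)) fun t ht => ?_
    apply h
    rw [Set.mem_Icc, not_and_or, not_le, not_le] at ht
    rcases ht with ht | ht
    · left
      have : t / T < 0 := div_neg_of_neg_of_pos ht hT0
      linarith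
    · right
      rwa [one_lt_div hT0]
  have hwc : Continuous fun t : ℝ => w (t / T) := hw.smooth.continuous.comp (continuous_id.div_const T)
  have hi1 : Integrable fun t : ℝ => ((w (t / T) * ‖riemannZeta (cl t)‖ ^ 2 : ℝ) : ℂ) *
        riemannZeta (cl t) * Complex.exp (t * (Real.log h - Real.log k : ℝ) * Complex.I) := by
    refine Continuous.integrable_of_hasCompactSupport ?_ ?_
    · refine Continuous.mul (Continuous.mul ?_ Pool.Agent.EvenMoment.Tw.zcont) (by fun_prop)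
      exact Complex.continuous_ofReal.comp (hwc.mul (Pool.Agent.EvenMoment.Tw.zcont.norm.pow 2))
    · refine HasCompactSupport.mul_right (HasCompactSupport.mul_right ?_)
      exact (HasCompactSupport.mul_right hcs').comp_left (g := fun x : ℝ => (x : ℂ)) (by simp)
  have hi2 : Integrable fun t : ℝ => H3 h k T t *
      ((w (t / T) * Real.exp (2 * (t / T)) : ℝ) : ℂ) := by
    refine Continuous.integrable_of_hasCompactSupport ?_ ?_
    · refine Continuous.mul (H3_cont h k T) ?_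
      exact Complex.continuous_ofReal.comp (hwc.mul (by fun_prop))
    · refine HasCompactSupport.mul_left ?_
      exact (HasCompactSupport.mul_right hcs').comp_left (g := fun x : ℝ => (x : ℂ)) (by simp)
  unfold M3
  rw [← integral_sub hi1 hi2]
  refine norm_integral_le_of_norm_le ((integrable_inv_one_add_sq).const_mul _)
    (ae_of_all _ fun t => ?_)
  have h1 : ((w (t / T) * ‖riemannZeta (cl t)‖ ^ 2 : ℝ) : ℂ) * riemannZeta (cl t) *
        Complex.exp (t * (Real.log h - Real.log k : ℝ) * Complex.I) -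
      H3 h k T t * ((w (t / T) * Real.exp (2 * (t / T)) : ℝ) : ℂ) =
      ((w (t / T) * ‖riemannZeta (cl t)‖ ^ 2 : ℝ) : ℂ) * riemannZeta (cl t) *
        Complex.exp (t * (Real.log h - Real.log k : ℝ) * Complex.I) *
        (Complex.I * Real.exp (-(Real.pi * t)) / (1 + Complex.I * Real.exp (-(Real.pi * t)))) := by
    have h2 : Pool.Agent.EvenMoment.ker (2 / T : ℝ) t * (Real.exp (2 * (t / T)) : ℝ) =
        1 / (1 + Complex.I * Real.exp (-(Real.pi * t))) := by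
      unfold Pool.Agent.EvenMoment.ker
      rw [div_mul_eq_mul_div, Complex.ofReal_exp (2 * (t / T)), ← Complex.exp_add]
      congr 1
      rw [← Complex.exp_zero]
      congr 1
      push_cast
      ring
    have h3 : Complex.I * Real.exp (-(Real.pi * t)) / (1 + Complex.I * Real.exp (-(Real.pi * t))) =
        1 - 1 / (1 + Complex.I * Real.exp (-(Real.pi * t))) := by
      have := Pool.Agent.EvenMoment.Tw.den_ne t
      field_simp
      ring
    rw [h3, ← h2, H3, Pool.Agent.EvenMoment.Tw.HH]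
    push_cast
    ring
  rw [h1, norm_mul, norm_mul, norm_mul, Pool.Agent.EvenMoment.Tw.osc_norm, mul_one,
    Complex.norm_real]
  rcases lt_or_ge t 0 with ht | ht
  · obtain ⟨a, ha, _, hs⟩ := hw.supp
    rw [hs (t / T) (Or.inl ((div_neg_of_neg_of_pos ht hT0).trans ha))]
    simp
    positivity
  · have h4 : ‖(Complex.I * Real.exp (-(Real.pi * t)) /
        (1 + Complex.I * Real.exp (-(Real.pi * t))) : ℂ)‖ ≤ Real.exp (-(Real.pi * |t|)) := by
      rw [norm_div, norm_mul, Complex.norm_I, one_mul, Complex.norm_real, Real.norm_eq_abs,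
        abs_of_pos (Real.exp_pos _), abs_of_nonneg ht]
      refine div_le_self (Real.exp_pos _).le ?_
      have := Complex.abs_re_le_norm (1 + Complex.I * (Real.exp (-(Real.pi * t)) : ℝ))
      rw [Pool.Agent.EvenMoment.Tw.re_one, abs_one] at this
      exact this
    calc ‖w (t / T) * ‖riemannZeta (cl t)‖ ^ 2‖ * ‖riemannZeta (cl t)‖ *
          ‖(Complex.I * Real.exp (-(Real.pi * t)) /
        (1 + Complex.I * Real.exp (-(Real.pi * t))) : ℂ)‖
        ≤ (M * ‖riemannZeta (cl t)‖ ^ 2) * ‖riemannZeta (cl t)‖ * Real.exp (-(Real.pi * |t|)) := by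
          rw [norm_mul, norm_pow, norm_norm]
          gcongr
          exact hM _
      _ = M * (‖riemannZeta (cl t)‖ ^ 3 * Real.exp (-(Real.pi * |t|))) := by ring
      _ ≤ M * (K * (1 + t ^ 2)⁻¹) := by
          exact mul_le_mul_of_nonneg_left (hz t) hM0
      _ ≤ (M * K + 1) * (1 + t ^ 2)⁻¹ := by
          have : 0 < (1 + t ^ 2)⁻¹ := by positivity
          nlinarith

lemma J3_large : ∃ C : ℝ, 0 < C ∧ ∀ T : ℝ, 2 ≤ T → ∀ h k : ℕ, ∀ ξ : ℝ,
    ‖J3 h k T ξ‖ ≤ C * T ^ 7 := by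
  obtain ⟨C, hC, hz⟩ := zeta_growth
  obtain ⟨K, hK, hpoly⟩ := poly6 (c := 2) (by norm_num)
  refine ⟨C ^ 3 * K * Real.pi, by positivity, fun T hT h k ξ => ?_⟩
  have hT0 : 0 < T := by linarith
  have hint : Integrable fun t : ℝ => C ^ 3 * T ^ 6 * K * (1 + (t / T) ^ 2)⁻¹ := by
    apply Integrable.const_mul
    exact integrable_inv_one_add_sq.comp_div hT0.ne'
  have hval : ∫ t : ℝ, C ^ 3 * T ^ 6 * K * (1 + (t / T) ^ 2)⁻¹ =
      C ^ 3 * K * Real.pi * T ^ 7 := by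
    rw [MeasureTheory.integral_const_mul,
      MeasureTheory.Measure.integral_comp_div (fun x : ℝ => (1 + x ^ 2)⁻¹) T,
      integral_univ_inv_one_add_sq, abs_of_pos hT0, smul_eq_mul]
    ring
  rw [← hval, J3]
  apply norm_integral_le_of_norm_le hint
  refine Eventually.of_forall fun t => ?_
  rw [norm_mul, norm_mul, norm_mul]
  have e1 : ‖Complex.exp (t * (Real.log h - Real.log k : ℝ) * Complex.I)‖ = 1 := by
    rw [← Complex.ofReal_mul, Complex.norm_exp_ofReal_mul_I]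
  rw [e1, mul_one, Complex.norm_real, Real.norm_of_nonneg (by positivity)]
  have h1 : ‖riemannZeta (cl t)‖ ^ 3 ≤ (C * (1 + |t|) ^ 2) ^ 3 :=
    pow_le_pow_left₀ (norm_nonneg _) (hz t) 3
  have hu : 0 ≤ |t| / T := by positivity
  have h2 : 1 + |t| ≤ T * (1 + |t| / T) := by
    have : T * (1 + |t| / T) = T + |t| := by field_simp
    rw [this]; linarith
  have h3 := hpoly (|t| / T)
  rw [abs_of_nonneg hu] at h3
  have h4 : (1 + (|t| / T) ^ 2)⁻¹ = (1 + (t / T) ^ 2)⁻¹ := by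
    rw [div_pow, sq_abs, div_pow]
  rw [h4] at h3
  calc ‖riemannZeta (cl t)‖ * (‖riemannZeta (cl t)‖ ^ 2 * ‖ker ((2 + Complex.I * ξ) / T) t‖)
      = ‖riemannZeta (cl t)‖ ^ 3 * ‖ker ((2 + Complex.I * ξ) / T) t‖ := by ring
    _ ≤ (C * (1 + |t|) ^ 2) ^ 3 * Real.exp (-(2 * (|t| / T))) :=
        mul_le_mul h1 (ker_decay hT ξ t) (norm_nonneg _) (by positivity)
    _ = C ^ 3 * ((1 + |t|) ^ 6 * Real.exp (-(2 * (|t| / T)))) := by ring
    _ ≤ C ^ 3 * ((T * (1 + |t| / T)) ^ 6 * Real.exp (-(2 * (|t| / T)))) := by gcongr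
    _ = C ^ 3 * T ^ 6 * ((1 + |t| / T) ^ 6 * Real.exp (-(2 * (|t| / T)))) := by ring
    _ ≤ C ^ 3 * T ^ 6 * (K * (1 + (t / T) ^ 2)⁻¹) := by gcongr
    _ = _ := by ring

lemma J3_contour {T ξ : ℝ} (hT : 0 < T) (hs : (2 + |ξ|) / T ≤ 1 / 20) {p : ℂ}
    (hp : p = (2 + Complex.I * ξ) / T) {h k : ℕ} (hh : 0 < h) (hk : 0 < k) {z : ℂ}
    (hz : z = 2 * Real.pi * Complex.I * ((k : ℂ) / h) * Complex.exp (-(Complex.I * p))) :
    J3 h k T ξ = 2 * Real.pi * Real.sqrt ((k : ℝ) / h) * Complex.exp (-(Complex.I * p / 2)) *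
      ((1 / (2 * Real.pi) : ℂ) *
        ∫ t : ℝ, Complex.Gamma (cl t) * riemannZeta (cl t) ^ 3 * z ^ (-(cl t))) := by
  have hh0 : (0 : ℝ) < h := by exact_mod_cast hh
  have hk0 : (0 : ℝ) < k := by exact_mod_cast hk
  have hξ0 := abs_nonneg ξ
  have hre : p.re = 2 / T := by rw [hp]; exact pp_re T ξ
  have hT40 : 40 ≤ T := by
    have h20 := (div_le_iff₀ hT).1 hs
    linarith only [h20, hξ0]
  obtain ⟨r, hr⟩ : ∃ r : ℝ, r = (h : ℝ) / k := ⟨_, rfl⟩
  have hr0 : 0 < r := by rw [hr]; positivity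
  have hlogr : Real.log r = Real.log h - Real.log k := by
    rw [hr, Real.log_div hh0.ne' hk0.ne']
  obtain ⟨Q, hQ⟩ : ∃ Q : ℂ, Q = ∫ t : ℝ, Complex.Gamma (cl t) * riemannZeta (cl t) ^ 3 *
    z ^ (-(cl t)) := ⟨_, rfl⟩
  have hz' : z = 2 * Real.pi * Complex.I * (r⁻¹ : ℝ) * Complex.exp (-(Complex.I * p)) := by
    rw [hz, hr]
    push_cast
    rw [inv_div]
  have hQJ : Q = Real.sqrt r * Complex.exp (Complex.I * p / 2) * J3 h k T ξ := by
    rw [hQ, J3, ← MeasureTheory.integral_const_mul]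
    congr 1
    funext t
    have hpre0 : 0 < p.re := by rw [hre]; positivity
    have hprepi : p.re < Real.pi := by
      rw [hre, div_lt_iff₀ hT]
      have h40 : (3 : ℝ) * 40 ≤ Real.pi * T :=
        mul_le_mul Real.pi_gt_three.le hT40 (by norm_num) Real.pi_pos.le
      linarith only [h40]
    have := gamma_line hr0 hpre0 hprepi t
    rw [← hz', hlogr] at this
    rw [← hp]
    linear_combination riemannZeta (cl t) * this
  have hEinv : Complex.exp (-(Complex.I * p / 2)) * Complex.exp (Complex.I * p / 2) = 1 := by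
    rw [← Complex.exp_add]; simp
  have hπ : (Real.pi : ℂ) ≠ 0 := by exact_mod_cast Real.pi_ne_zero
  have hsq : ((Real.sqrt ((k : ℝ) / h) : ℝ) : ℂ) * ((Real.sqrt r : ℝ) : ℂ) = 1 := by
    rw [← Complex.ofReal_mul, ← Real.sqrt_mul (by positivity), hr]
    have : (k : ℝ) / h * (h / k) = 1 := by field_simp
    rw [this]; simp
  rw [← hQ, hQJ]
  have e1 : (2 * Real.pi : ℂ) * (1 / (2 * Real.pi)) = 1 := by field_simp
  calc J3 h k T ξ = J3 h k T ξ * (2 * Real.pi * (1 / (2 * Real.pi))) *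
        (((Real.sqrt ((k : ℝ) / h) : ℝ) : ℂ) * ((Real.sqrt r : ℝ) : ℂ)) *
        (Complex.exp (-(Complex.I * p / 2)) * Complex.exp (Complex.I * p / 2)) := by
        rw [e1, hsq, hEinv]; ring
    _ = _ := by ring

lemma Sz_le_pow {δ : ℝ} (hδ : 0 < δ) {z : ℂ} (hz : δ ≤ z.re) (a : ℕ) :
    ‖Sz (((a : ℂ) + 1) * z)‖ ≤ (1 - Real.exp (-δ))⁻¹ ^ 2 * Real.exp (-δ) ^ (a + 1) := by
  obtain ⟨q, hq⟩ : ∃ q : ℝ, q = Real.exp (-δ) := ⟨_, rfl⟩
  have hq0 : 0 < q := by rw [hq]; exact Real.exp_pos _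
  have hq1 : q < 1 := by
    rw [hq, Real.exp_lt_one_iff]
    linarith
  have hδ' : 0 < ((a : ℝ) + 1) * δ := by positivity
  have hz' : ((a : ℝ) + 1) * δ ≤ (((a : ℂ) + 1) * z).re := by
    have h3 : (((a : ℂ) + 1) * z).re = ((a : ℝ) + 1) * z.re := by simp
    rw [h3]
    gcongr
  have he : Real.exp (-(((a : ℝ) + 1) * δ)) = q ^ (a + 1) := by
    rw [hq, ← Real.exp_nat_mul]
    congr 1
    push_cast
    ring
  have hb := fun b : ℕ => e8_term_bound hδ' hz' b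
  rw [he] at hb
  have hqa1 : q ^ (a + 1) ≤ q := by
    calc q ^ (a + 1) = q ^ a * q := pow_succ _ _
      _ ≤ 1 * q := by gcongr; exact pow_le_one₀ hq0.le hq1.le
      _ = q := one_mul _
  have hqa : q ^ (a + 1) < 1 := hqa1.trans_lt hq1
  have hqa0 : 0 < q ^ (a + 1) := by positivity
  have hs : HasSum (fun b : ℕ => (1 - q ^ (a + 1))⁻¹ * (q ^ (a + 1)) ^ (b + 1))
      ((1 - q ^ (a + 1))⁻¹ * ((1 - q ^ (a + 1))⁻¹ * q ^ (a + 1))) := by
    have h1 := ((hasSum_geometric_of_lt_one hqa0.le hqa).mul_right (q ^ (a + 1))).mul_left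
      (1 - q ^ (a + 1))⁻¹
    simpa only [pow_succ _] using h1
  have h1 := tsum_of_norm_bounded hs hb
  rw [← hq]
  refine (show ‖Sz (((a : ℂ) + 1) * z)‖ ≤ _ from h1).trans ?_
  have h2 : (1 - q ^ (a + 1))⁻¹ ≤ (1 - q)⁻¹ := by
    apply inv_anti₀ (by linarith)
    linarith
  have h3 : 0 < (1 - q ^ (a + 1))⁻¹ := inv_pos.2 (by linarith)
  calc (1 - q ^ (a + 1))⁻¹ * ((1 - q ^ (a + 1))⁻¹ * q ^ (a + 1))
      ≤ (1 - q)⁻¹ * ((1 - q)⁻¹ * q ^ (a + 1)) := by gcongr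
    _ = _ := by ring

end M3E

/-- `Tz` is holomorphic in the right half plane -/
lemma Tz_differentiableAt {z₀ : ℂ} (hz₀ : 0 < z₀.re) : DifferentiableAt ℂ Tz z₀ := by
  obtain ⟨δ, hδ⟩ : ∃ δ : ℝ, δ = z₀.re / 2 := ⟨_, rfl⟩
  have hδ0 : 0 < δ := by rw [hδ]; positivity
  have hU : IsOpen {z : ℂ | δ < z.re} := isOpen_lt continuous_const Complex.continuous_re
  have hq0 : 0 < Real.exp (-δ) := Real.exp_pos _
  have hq1 : Real.exp (-δ) < 1 := by
    rw [Real.exp_lt_one_iff]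
    linarith
  have hs : Summable (fun a : ℕ => (1 - Real.exp (-δ))⁻¹ ^ 2 * Real.exp (-δ) ^ (a + 1)) :=
    ((summable_nat_add_iff 1).2 (summable_geometric_of_lt_one hq0.le hq1)).mul_left _
  have h1 : DifferentiableOn ℂ (fun z : ℂ => ∑' a : ℕ, Sz (((a : ℂ) + 1) * z))
      {z : ℂ | δ < z.re} := by
    refine Complex.differentiableOn_tsum_of_summable_norm hs (fun a => ?_) hU fun a z hz =>
      M3E.Sz_le_pow hδ0 (le_of_lt hz) a
    intro z hz
    have hz' : δ < z.re := hz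
    have h3 : 0 < (((a : ℂ) + 1) * z).re := by
      have h3 : (((a : ℂ) + 1) * z).re = ((a : ℝ) + 1) * z.re := by simp
      rw [h3]
      have : 0 < z.re := hδ0.trans hz'
      positivity
    have h4 : DifferentiableAt ℂ (fun z : ℂ => ((a : ℂ) + 1) * z) z := by fun_prop
    exact (DifferentiableAt.comp z (Sz_differentiableAt h3) h4).differentiableWithinAt
  have h2 : DifferentiableAt ℂ (fun z : ℂ => ∑' a : ℕ, Sz (((a : ℂ) + 1) * z)) z₀ :=
    (h1 z₀ (by rw [Set.mem_ofPred_eq, hδ]; linarith)).differentiableAt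
      (hU.mem_nhds (by rw [Set.mem_ofPred_eq, hδ]; linarith))
  exact h2

theorem M3_exact {w : ℝ → ℝ} (hw : Wgt w) {G : ℝ → ℂ} (hG : GG w G) {ε : ℝ} (hε : 0 < ε)
    (hε1 : ε < 1) : ∃ C T₀ : ℝ, 0 < C ∧ 2 ≤ T₀ ∧ ∀ T : ℝ, T₀ ≤ T → ∀ h k : ℕ, 0 < h → 0 < k →
    ‖M3 w T h k - ∫ v in Set.Icc (-T ^ ε) (T ^ ε), G v * (2 * Real.pi * Real.sqrt ((k : ℝ) / h) *
        Complex.exp (-(Complex.I * pv T v / 2)) * Tz (zv T v h k))‖ ≤
      C * (1 + ((h : ℝ) / k) ^ (3 / 2 : ℝ)) := by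
  obtain ⟨C5, hC5, h5⟩ := Tz_contour
  obtain ⟨CL, hCL, hL⟩ := M3E.J3_large
  obtain ⟨D, hD, hrem⟩ := M3E.remove hw
  obtain ⟨n, hn⟩ := exists_nat_ge (7 / ε)
  have hn' : 7 ≤ ε * n := by
    rw [div_le_iff₀ hε] at hn
    linarith
  obtain ⟨E1, hE1⟩ : ∃ E : ℝ, E = ∫ v : ℝ, ‖G v‖ := ⟨_, rfl⟩
  obtain ⟨E2, hE2⟩ : ∃ E : ℝ, E = ∫ v : ℝ, |v| ^ n * ‖G v‖ := ⟨_, rfl⟩
  have hE10 : 0 ≤ E1 := by rw [hE1]; positivity
  have hE20 : 0 ≤ E2 := by rw [hE2]; positivity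
  refine ⟨D + CL * E2 + 16 * C5 * E1, max 2 ((180 : ℝ) ^ (1 / (1 - ε))), by positivity,
    le_max_left _ _, fun T hT h r hh hr => ?_⟩
  have hT2 : 2 ≤ T := (le_max_left _ _).trans hT
  have hT0 : 0 < T := by linarith
  have hh0 : (0 : ℝ) < h := by exact_mod_cast hh
  have hr0 : (0 : ℝ) < r := by exact_mod_cast hr
  obtain ⟨V, hV⟩ : ∃ V : ℝ, V = T ^ ε := ⟨_, rfl⟩
  have hV0 : 0 < V := by rw [hV]; positivity
  rw [← hV]
  have hsm : ∀ v : ℝ, v ∈ Set.Icc (-V) V → (2 + |-(2 * Real.pi * v)|) / T ≤ 1 / 20 := by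
    intro v hv
    exact e8_T0 hε1 hT hε (by rw [← hV]; exact abs_le.2 hv)
  have hX0 : 0 ≤ ((h : ℝ) / r) ^ (3 / 2 : ℝ) := by positivity
  -- step 1
  have s1 : ‖M3 w T h r - ∫ v : ℝ, G v * M3E.J3 h r T (-(2 * Real.pi * v))‖ ≤ D := by
    have := hrem T hT2 h r
    rw [← M3E.fubini hG h r hT2] at this
    exact this
  have hint := M3E.G_J3_integrable hG.int h r hT2
  -- step 2
  have s2 : ‖∫ v in (Set.Icc (-V) V)ᶜ, G v * M3E.J3 h r T (-(2 * Real.pi * v))‖ ≤ CL * E2 := by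
    have h1 : ‖∫ v in (Set.Icc (-V) V)ᶜ, G v * M3E.J3 h r T (-(2 * Real.pi * v))‖ ≤
        ∫ v in (Set.Icc (-V) V)ᶜ, CL * T ^ 7 * ‖G v‖ := by
      refine norm_integral_le_of_norm_le (hG.int.norm.const_mul _).integrableOn
        (ae_of_all _ fun v => ?_)
      rw [norm_mul, mul_comm]
      exact mul_le_mul_of_nonneg_right (hL T hT2 h r _) (norm_nonneg _)
    rw [integral_const_mul] at h1
    refine h1.trans ?_
    have h2 := e8_tail hG n hV0
    rw [← hE2] at h2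
    have h3 : T ^ 7 * V⁻¹ ^ n ≤ 1 := by
      rw [inv_pow, ← div_eq_mul_inv, div_le_one (by positivity), hV, ← Real.rpow_natCast (T ^ ε),
        ← Real.rpow_mul hT0.le, ← Real.rpow_natCast T 7]
      exact Real.rpow_le_rpow_of_exponent_le (by linarith) (by push_cast; exact hn')
    calc CL * T ^ 7 * ∫ v in (Set.Icc (-V) V)ᶜ, ‖G v‖ ≤ CL * T ^ 7 * (V⁻¹ ^ n * E2) := by gcongr
      _ = CL * E2 * (T ^ 7 * V⁻¹ ^ n) := by ring
      _ ≤ CL * E2 * 1 := by gcongr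
      _ = CL * E2 := mul_one _
  -- step 3
  have hcont : ContinuousOn (fun v : ℝ => G v * (2 * Real.pi * Real.sqrt ((r : ℝ) / h) *
      Complex.exp (-(Complex.I * pv T v / 2)) * Tz (zv T v h r))) (Set.Icc (-V) V) := by
    refine ContinuousOn.mul hG.cont.continuousOn (ContinuousOn.mul ?_ ?_)
    · refine Continuous.continuousOn ?_
      unfold pv
      fun_prop
    · intro v hv
      have hz := (e8_geom hT0 (hsm v hv) (e8_pv T v) hh hr (z := zv T v h r) rfl).1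
      have h1 : ContinuousAt (fun v : ℝ => zv T v h r) v := by
        unfold zv pv
        fun_prop
      exact ((Tz_differentiableAt hz).continuousAt.comp_of_eq h1 rfl).continuousWithinAt
  have s3 : ‖(∫ v in Set.Icc (-V) V, G v * M3E.J3 h r T (-(2 * Real.pi * v))) -
      ∫ v in Set.Icc (-V) V, G v * (2 * Real.pi * Real.sqrt ((r : ℝ) / h) *
        Complex.exp (-(Complex.I * pv T v / 2)) * Tz (zv T v h r))‖ ≤
      16 * C5 * E1 * (1 + ((h : ℝ) / r) ^ (3 / 2 : ℝ)) := by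
    rw [← integral_sub hint.integrableOn (hcont.integrableOn_compact isCompact_Icc)]
    have h1 : ‖∫ v in Set.Icc (-V) V, (G v * M3E.J3 h r T (-(2 * Real.pi * v)) -
        G v * (2 * Real.pi * Real.sqrt ((r : ℝ) / h) *
        Complex.exp (-(Complex.I * pv T v / 2)) * Tz (zv T v h r)))‖ ≤
        ∫ v in Set.Icc (-V) V, (16 * C5 * (1 + ((h : ℝ) / r) ^ (3 / 2 : ℝ))) * ‖G v‖ := by
      refine norm_integral_le_of_norm_le (hG.int.norm.const_mul _).integrableOn ?_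
      rw [ae_restrict_iff' measurableSet_Icc]
      refine ae_of_all _ fun v hv => ?_
      obtain ⟨z, hz⟩ : ∃ z, z = zv T v h r := ⟨_, rfl⟩
      obtain ⟨hz1, hz2⟩ := e8_geom hT0 (hsm v hv) (e8_pv T v) hh hr (z := z) hz
      have hJ := M3E.J3_contour hT0 (hsm v hv) (e8_pv T v) hh hr (z := z) hz
      have hE := e8_exp_norm hT0 (hsm v hv) (e8_pv T v)
      rw [hJ, ← hz]
      obtain ⟨Q, hQ⟩ : ∃ Q : ℂ, Q = (1 / (2 * Real.pi) : ℂ) * ∫ t : ℝ, Complex.Gamma (cl t) *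
        riemannZeta (cl t) ^ 3 * z ^ (-(cl t)) := ⟨_, rfl⟩
      have h6 := h5 z hz1
      rw [← hQ, norm_sub_rev] at h6
      rw [← hQ]
      obtain ⟨S, hS⟩ : ∃ S : ℝ, S = Real.sqrt ((r : ℝ) / h) := ⟨_, rfl⟩
      have hS0 : 0 ≤ S := by rw [hS]; positivity
      have h7 := e8_sqrt_bound (x := (r : ℝ) / h) (by positivity) hz2
      rw [← hS, inv_div] at h7
      rw [← hS]
      have e1 : G v * (2 * Real.pi * S * Complex.exp (-(Complex.I * pv T v / 2)) * Q) -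
          G v * (2 * Real.pi * S * Complex.exp (-(Complex.I * pv T v / 2)) * Tz z) =
          G v * (2 * Real.pi * S * Complex.exp (-(Complex.I * pv T v / 2)) * (Q - Tz z)) := by
        ring
      rw [e1, norm_mul, norm_mul, norm_mul, norm_mul, norm_mul, Complex.norm_real,
        Complex.norm_real, Real.norm_of_nonneg Real.pi_pos.le, Real.norm_of_nonneg hS0,
        Complex.norm_ofNat]
      calc ‖G v‖ * (2 * Real.pi * S * ‖Complex.exp (-(Complex.I * pv T v / 2))‖ * ‖Q - Tz z‖)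
          ≤ ‖G v‖ * (2 * 4 * S * 2 * (C5 * (‖z‖ ^ (-(1 / 2) : ℝ) + ‖z‖ ^ (-2 : ℝ)))) := by
            gcongr
            exact Real.pi_lt_four.le
        _ = 16 * C5 * (S * (‖z‖ ^ (-(1 / 2) : ℝ) + ‖z‖ ^ (-2 : ℝ))) * ‖G v‖ := by ring
        _ ≤ 16 * C5 * (1 + ((h : ℝ) / r) ^ (3 / 2 : ℝ)) * ‖G v‖ := by gcongr
    refine h1.trans ?_
    rw [integral_const_mul]
    have h2 : ∫ v in Set.Icc (-V) V, ‖G v‖ ≤ E1 := by
      rw [hE1]
      exact setIntegral_le_integral hG.int.norm (ae_of_all _ fun v => norm_nonneg _)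
    calc _ ≤ 16 * C5 * (1 + ((h : ℝ) / r) ^ (3 / 2 : ℝ)) * E1 := by gcongr
      _ = _ := by ring
  have hsplit := integral_add_compl (measurableSet_Icc (a := -V) (b := V)) hint
  obtain ⟨A, hA⟩ : ∃ A : ℂ, A = ∫ v in Set.Icc (-V) V, G v * M3E.J3 h r T (-(2 * Real.pi * v)) :=
    ⟨_, rfl⟩
  obtain ⟨B, hB⟩ : ∃ B : ℂ, B = ∫ v in (Set.Icc (-V) V)ᶜ, G v *
    M3E.J3 h r T (-(2 * Real.pi * v)) := ⟨_, rfl⟩
  obtain ⟨J, hJ⟩ : ∃ J : ℂ, J = ∫ v : ℝ, G v * M3E.J3 h r T (-(2 * Real.pi * v)) := ⟨_, rfl⟩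
  obtain ⟨K, hK⟩ : ∃ K : ℂ, K = ∫ v in Set.Icc (-V) V, G v * (2 * Real.pi *
    Real.sqrt ((r : ℝ) / h) * Complex.exp (-(Complex.I * pv T v / 2)) * Tz (zv T v h r)) :=
    ⟨_, rfl⟩
  rw [← hA, ← hB, ← hJ] at hsplit
  rw [← hJ] at s1
  rw [← hB] at s2
  rw [← hA, ← hK] at s3
  rw [← hK]
  have e1 : M3 w T h r - K = (M3 w T h r - J) + B + (A - K) := by
    rw [← hsplit]; ring
  rw [e1]
  have h9 : D + CL * E2 ≤ (D + CL * E2) * (1 + ((h : ℝ) / r) ^ (3 / 2 : ℝ)) := by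
    have : 0 ≤ D + CL * E2 := by positivity
    nlinarith
  calc ‖(M3 w T h r - J) + B + (A - K)‖ ≤ ‖(M3 w T h r - J) + B‖ + ‖A - K‖ := norm_add_le _ _
    _ ≤ ‖M3 w T h r - J‖ + ‖B‖ + ‖A - K‖ := by gcongr; exact norm_add_le _ _
    _ ≤ D + CL * E2 + 16 * C5 * E1 * (1 + ((h : ℝ) / r) ^ (3 / 2 : ℝ)) := by gcongr
    _ ≤ (D + CL * E2) * (1 + ((h : ℝ) / r) ^ (3 / 2 : ℝ)) +
        16 * C5 * E1 * (1 + ((h : ℝ) / r) ^ (3 / 2 : ℝ)) := by linarith
    _ = _ := by ring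

end Pool.Agent.SixT
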