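import Mathlib
import Pool.Agent.Lib_MP_112ba8_t.T2Exact

/-!
Preliminaries for the splitting of the twisted third moment: the geometry of the points `zv`.
-/

namespace Pool.Agent.SixT

open Filter Topology MeasureTheory
open Pool.Agent.EvenMoment (cl Wgt Sz pp_re pp_im pp_norm_le rho_facts)

/-- `i (e^{-ip} - 1)` -/
noncomputable def rv (T v : ℝ) : ℂ := Complex.I * (Complex.exp (-(Complex.I * pv T v)) - 1)

lemma zv_eq (T v : ℝ) (h r : ℕ) : zv T v h r =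
    2 * Real.pi * Complex.I * (((r : ℝ) / h : ℝ) : ℂ) + ((2 * Real.pi * ((r : ℝ) / h) : ℝ) : ℂ) * rv T v := by
  unfold zv rv
  push_cast
  ring

lemma mul_zv (T v : ℝ) (h k c : ℕ) : (c : ℂ) * zv T v h k = zv T v h (c * k) := by
  unfold zv
  push_cast
  ring

lemma pv_re (T v : ℝ) : (pv T v).re = 2 / T := by
  rw [e8_pv]; exact pp_re T _

lemma pv_norm {T : ℝ} (hT : 0 < T) (v : ℝ) : ‖pv T v‖ ≤ (2 + |-(2 * Real.pi * v)|) / T := by
  rw [e8_pv]; exact pp_norm_le hT _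

lemma rv_facts {T v : ℝ} (hT : 0 < T) (hs : (2 + |-(2 * Real.pi * v)|) / T ≤ 1 / 20) :
    1 / T ≤ (rv T v).re ∧ ‖rv T v‖ ≤ 2 * (2 + |-(2 * Real.pi * v)|) / T := by
  have := rho_facts hT hs (ρ := rv T v) (by unfold rv; rw [e8_pv])
  exact this

lemma rv_sub_pv {T v : ℝ} (hT : 0 < T) (hs : (2 + |-(2 * Real.pi * v)|) / T ≤ 1 / 20) :
    ‖rv T v - pv T v‖ ≤ ‖pv T v‖ ^ 2 := by
  have h1 : ‖-(Complex.I * pv T v)‖ ≤ 1 := by
    rw [norm_neg, norm_mul, Complex.norm_I, one_mul]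
    have := pv_norm hT v
    linarith
  have h2 := Complex.norm_exp_sub_one_sub_id_le h1
  have h3 : rv T v - pv T v = Complex.I *
      (Complex.exp (-(Complex.I * pv T v)) - 1 - (-(Complex.I * pv T v))) := by
    unfold rv
    linear_combination (-(pv T v)) * Complex.I_mul_I
  rw [h3, norm_mul, Complex.norm_I, one_mul]
  refine h2.trans ?_
  rw [norm_neg, norm_mul, Complex.norm_I, one_mul]

lemma exp_half_sub {T v : ℝ} (hT : 0 < T) (hs : (2 + |-(2 * Real.pi * v)|) / T ≤ 1 / 20) :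
    ‖Complex.exp (-(Complex.I * pv T v / 2)) - 1‖ ≤ ‖pv T v‖ := by
  have h0 := pv_norm hT v
  have h1 : ‖-(Complex.I * pv T v / 2)‖ ≤ 1 := by
    rw [norm_neg, norm_div, norm_mul, Complex.norm_I, one_mul]
    simp only [Complex.norm_ofNat]
    linarith
  have h2 := Complex.norm_exp_sub_one_le h1
  refine h2.trans ?_
  rw [norm_neg, norm_div, norm_mul, Complex.norm_I, one_mul]
  simp only [Complex.norm_ofNat]
  linarith

lemma exp_half_norm {T v : ℝ} (hT : 0 < T) (hs : (2 + |-(2 * Real.pi * v)|) / T ≤ 1 / 20) :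
    ‖Complex.exp (-(Complex.I * pv T v / 2))‖ ≤ 2 :=
  e8_exp_norm hT hs (e8_pv T v)

/-- real and imaginary part of `zv` -/
lemma zv_re (T v : ℝ) (h r : ℕ) : (zv T v h r).re = 2 * Real.pi * ((r : ℝ) / h) * (rv T v).re := by
  rw [zv_eq]
  have : (2 * Real.pi * Complex.I * (((r : ℝ) / h : ℝ) : ℂ)) =
      ((2 * Real.pi * ((r : ℝ) / h) : ℝ) : ℂ) * Complex.I := by push_cast; ring
  rw [this, Complex.add_re, Complex.re_ofReal_mul, Complex.re_ofReal_mul, Complex.I_re]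
  ring

lemma zv_im (T v : ℝ) (h r : ℕ) : (zv T v h r).im = 2 * Real.pi * ((r : ℝ) / h) +
    2 * Real.pi * ((r : ℝ) / h) * (rv T v).im := by
  rw [zv_eq]
  have : (2 * Real.pi * Complex.I * (((r : ℝ) / h : ℝ) : ℂ)) =
      ((2 * Real.pi * ((r : ℝ) / h) : ℝ) : ℂ) * Complex.I := by push_cast; ring
  rw [this, Complex.add_im, Complex.im_ofReal_mul, Complex.im_ofReal_mul, Complex.I_im]
  ring

/-- lower bound for the real part -/
lemma zv_re_ge {T v : ℝ} (hT : 0 < T) (hs : (2 + |-(2 * Real.pi * v)|) / T ≤ 1 / 20) {h r : ℕ} :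
    6 * (((r : ℝ) / h) / T) ≤ (zv T v h r).re := by
  rw [zv_re]
  have h1 := (rv_facts hT hs).1
  have h2 : 0 ≤ (r : ℝ) / h := by positivity
  have h3 : 6 ≤ 2 * Real.pi := by linarith [Real.pi_gt_three]
  calc 6 * (((r : ℝ) / h) / T) = (6 * ((r : ℝ) / h)) * (1 / T) := by ring
    _ ≤ (2 * Real.pi * ((r : ℝ) / h)) * (rv T v).re := by
        apply mul_le_mul _ h1 (by positivity) (by positivity)
        exact mul_le_mul_of_nonneg_right h3 h2

lemma zv_re_pos {T v : ℝ} (hT : 0 < T) (hs : (2 + |-(2 * Real.pi * v)|) / T ≤ 1 / 20) {h r : ℕ}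
    (hh : 0 < h) (hr : 0 < r) : 0 < (zv T v h r).re := by
  have h1 : (0 : ℝ) < h := by exact_mod_cast hh
  have h2 : (0 : ℝ) < r := by exact_mod_cast hr
  refine lt_of_lt_of_le ?_ (zv_re_ge hT hs)
  positivity

/-- `2 + 2π|v| ≤ 9 T^δ` -/
lemma small_v {T v δ : ℝ} (hT : 1 ≤ T) (hδ : 0 ≤ δ) (hv : |v| ≤ T ^ δ) :
    (2 + |-(2 * Real.pi * v)|) / T ≤ 9 * T ^ (δ - 1) := by
  have hT0 : 0 < T := by linarith
  have h4 : 1 ≤ T ^ δ := Real.one_le_rpow hT hδ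
  rw [abs_neg, abs_mul, abs_of_pos Real.two_pi_pos, Real.rpow_sub hT0, Real.rpow_one,
    div_le_iff₀ hT0]
  have h5 : 9 * (T ^ δ / T) * T = 9 * T ^ δ := by field_simp
  rw [h5]
  have : 2 * Real.pi * |v| ≤ 2 * 3.5 * T ^ δ := by
    gcongr
    linarith [Real.pi_lt_d2]
  linarith

/-- uniform bound of `Sz` on half planes -/
lemma Sz_le {r : ℝ} (hr : 0 < r) : ∃ B : ℝ, 0 < B ∧ ∀ z : ℂ, r ≤ z.re → ‖Sz z‖ ≤ B := by
  have hq0 : 0 < Real.exp (-r) := Real.exp_pos _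
  have hq1 : Real.exp (-r) < 1 := by
    rw [Real.exp_lt_one_iff]; linarith
  have hs : Summable (fun a : ℕ => (1 - Real.exp (-r))⁻¹ * Real.exp (-r) ^ (a + 1)) :=
    ((summable_nat_add_iff 1).2 (summable_geometric_of_lt_one hq0.le hq1)).mul_left _
  have hpos : ∀ a : ℕ, 0 ≤ (1 - Real.exp (-r))⁻¹ * Real.exp (-r) ^ (a + 1) := fun a => by
    have : 0 < 1 - Real.exp (-r) := by linarith
    positivity
  refine ⟨∑' a : ℕ, (1 - Real.exp (-r))⁻¹ * Real.exp (-r) ^ (a + 1) + 1, ?_, fun z hz => ?_⟩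
  · have : 0 ≤ ∑' a : ℕ, (1 - Real.exp (-r))⁻¹ * Real.exp (-r) ^ (a + 1) := tsum_nonneg hpos
    linarith
  · unfold Sz
    have h1 := tsum_of_norm_bounded hs.hasSum (fun a => e8_term_bound hr hz a)
    linarith

lemma VA_nonneg (A : ℕ) {u : ℝ} (hu : 0 ≤ u) : 0 ≤ VA A u := by
  unfold VA
  have h1 : Real.exp (-u) ≤ 1 := Real.exp_le_one_iff.mpr (by linarith)
  have h2 := Real.exp_pos (-u)
  have h3 : (1 - Real.exp (-u)) ^ A ≤ 1 := pow_le_one₀ (by linarith) (by linarith)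
  linarith

lemma VA_le_one (A : ℕ) {u : ℝ} (hu : 0 ≤ u) : VA A u ≤ 1 := by
  unfold VA
  have h1 : Real.exp (-u) ≤ 1 := Real.exp_le_one_iff.mpr (by linarith)
  have h3 : 0 ≤ (1 - Real.exp (-u)) ^ A := pow_nonneg (by linarith) _
  linarith

lemma VA_le_exp (A : ℕ) {u : ℝ} (hu : 0 ≤ u) : VA A u ≤ A * Real.exp (-u) := by
  unfold VA
  have h1 : Real.exp (-u) ≤ 1 := Real.exp_le_one_iff.mpr (by linarith)
  have h2 := Real.exp_pos (-u)
  have h3 := one_add_mul_le_pow (a := -Real.exp (-u)) (by linarith) A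
  have h4 : (1 + -Real.exp (-u)) ^ A = (1 - Real.exp (-u)) ^ A := by ring
  rw [h4] at h3
  linarith

end Pool.Agent.SixT
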