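import Mathlib
import Pool.Agent.Lib_MP_112ba8_t.M3SplitA
import Pool.Agent.Lib_MP_112ba8_t.T2Count

/-!
The first sum of the splitting of the twisted third moment.
-/

namespace Pool.Agent.SixT

open Filter Topology MeasureTheory
open Pool.Agent.EvenMoment (cl Wgt Sz)

/-- interchange of a sum and an integral -/
lemma interchange {S : Set ℝ} (hS : MeasurableSet S) {P : ℝ → ℂ} (hP : IntegrableOn P S)
    (F : ℕ → ℝ → ℂ) (hF : ∀ c, ContinuousOn (F c) S) (b : ℕ → ℝ) (hb : Summable b)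
    (hbd : ∀ c, ∀ v ∈ S, ‖F c v‖ ≤ b c) :
    IntegrableOn (fun v => P v * ∑' c, F c v) S ∧
    HasSum (fun c => ∫ v in S, P v * F c v) (∫ v in S, P v * ∑' c, F c v) := by
  have hmul : ∀ {g : ℝ → ℂ} {B : ℝ}, ContinuousOn g S → (∀ v ∈ S, ‖g v‖ ≤ B) →
      IntegrableOn (fun v => P v * g v) S := by
    intro g B hg hB
    have h1 : AEStronglyMeasurable g (volume.restrict S) := hg.aestronglyMeasurable hS
    have h2 : ∀ᵐ v ∂(volume.restrict S), ‖g v‖ ≤ B := by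
      filter_upwards [ae_restrict_mem hS] with v hv using hB v hv
    exact Integrable.mul_bdd (c := B) hP h1 h2
  constructor
  · refine hmul (B := ∑' c, b c) (continuousOn_tsum hF hb hbd) fun v hv => ?_
    exact tsum_of_norm_bounded hb.hasSum fun c => hbd c v hv
  · have h1 : ∀ c, Integrable (fun v => P v * F c v) (volume.restrict S) := fun c =>
      hmul (hF c) (hbd c)
    have h2 : Summable fun c => ∫ v in S, ‖P v * F c v‖ := by
      refine Summable.of_nonneg_of_le (fun c => integral_nonneg fun v => norm_nonneg _) (fun c => ?_)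
        (hb.mul_left (∫ v in S, ‖P v‖))
      rw [← integral_mul_const]
      refine setIntegral_mono_on (h1 c).norm (hP.norm.mul_const _) hS fun v hv => ?_
      rw [norm_mul]
      exact mul_le_mul_of_nonneg_left (hbd c v hv) (norm_nonneg _)
    have h3 := hasSum_integral_of_summable_integral_norm h1 h2
    have h4 : (∫ v in S, ∑' c, P v * F c v) = ∫ v in S, P v * ∑' c, F c v := by
      refine integral_congr_ae (ae_of_all _ fun v => ?_)
      simp only
      rw [tsum_mul_left]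
    rwa [h4] at h3

lemma zv_cont (T : ℝ) (h r : ℕ) : Continuous fun v : ℝ => zv T v h r := by
  unfold zv pv
  fun_prop

lemma pre_cont (T : ℝ) : Continuous fun v : ℝ => Complex.exp (-(Complex.I * pv T v / 2)) := by
  unfold pv
  fun_prop

/-- the prefactor -/
noncomputable def pf (G : ℝ → ℂ) (T : ℝ) (h k : ℕ) (v : ℝ) : ℂ :=
  G v * (2 * Real.pi * Real.sqrt ((k : ℝ) / h) * Complex.exp (-(Complex.I * pv T v / 2)))

lemma pf_int {w : ℝ → ℝ} {G : ℝ → ℂ} (hG : GG w G) (T V : ℝ) (h k : ℕ) :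
    IntegrableOn (pf G T h k) (Set.Icc (-V) V) := by
  have h1 : ContinuousOn (pf G T h k) (Set.Icc (-V) V) := by
    apply Continuous.continuousOn
    unfold pf
    exact hG.cont.mul (continuous_const.mul (pre_cont T))
  exact h1.integrableOn_compact isCompact_Icc

/-- `T₀` for the geometry -/
noncomputable def TG (δ : ℝ) : ℝ := max 2 ((180 : ℝ) ^ (1 / (1 - δ)))

lemma geo {δ : ℝ} (hδ : 0 < δ) (hδ1 : δ < 1) {T v : ℝ} (hT : TG δ ≤ T)
    (hv : v ∈ Set.Icc (-T ^ δ) (T ^ δ)) : (2 + |-(2 * Real.pi * v)|) / T ≤ 1 / 20 :=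
  e8_T0 hδ1 hT hδ (abs_le.mpr hv)

lemma pow14 {u : ℝ} (hu : 0 < u) : Real.exp (-u) ≤ (Nat.factorial 14 : ℝ) * (1 / u) ^ 14 := by
  have h1 := Real.pow_div_factorial_le_exp (x := u) hu.le 14
  rw [Real.exp_neg, one_div, inv_pow]
  have h2 : 0 < u ^ 14 := by positivity
  have h3 : 0 < u ^ 14 / (Nat.factorial 14 : ℝ) := by positivity
  calc (Real.exp u)⁻¹ ≤ (u ^ 14 / (Nat.factorial 14 : ℝ))⁻¹ := inv_anti₀ h3 h1
    _ = _ := by rw [inv_div, div_eq_mul_inv]

theorem first_sum {w : ℝ → ℝ} (hw : Wgt w) {G : ℝ → ℂ} (hG : GG w G) {γ δ δ' : ℝ} (hδ : 0 < δ)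
    (hδ1 : δ < 1) (hδ' : 0 < δ') (hδ'1 : δ' ≤ 1 / 2) (hγ0 : 0 < γ) (hγ1 : γ ≤ 1 / 2) (A : ℕ) :
    ∃ C T₀ : ℝ, 0 < C ∧ TG δ ≤ T₀ ∧ ∀ T : ℝ, T₀ ≤ T → ∀ h k : ℕ, 0 < h → 0 < k →
    IntegrableOn (fun v => pf G T h k v *
      ∑' c : ℕ, ((VA A (((c : ℝ) + 1) / T ^ γ) : ℝ) : ℂ) * Sz (((c : ℂ) + 1) * zv T v h k))
      (Set.Icc (-T ^ δ) (T ^ δ)) ∧
    ‖(∫ v in Set.Icc (-T ^ δ) (T ^ δ), pf G T h k v *
      ∑' c : ℕ, ((VA A (((c : ℝ) + 1) / T ^ γ) : ℝ) : ℂ) * Sz (((c : ℂ) + 1) * zv T v h k)) -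
      ∑ c ∈ NN (Real.log T), ((VA A (c / T ^ γ) / Real.sqrt c : ℝ) : ℂ) * M2 w T h (c * k)‖ ≤
      C * (T ^ (γ / 2 + δ') + ((h : ℝ) / k) ^ (3 / 2 : ℝ)) := by
  obtain ⟨C1, T1, hC1, hT1, hM2⟩ := M2_exact hw hG hδ hδ1
  obtain ⟨C2, hC2, hM2b⟩ := M2_bound hw
  -- the two constants
  have hsum1 : Summable fun c : ℕ => (((c + 1 : ℕ) : ℝ)) ^ (-1 - δ') := by
    refine (summable_nat_add_iff 1).mpr (Real.summable_nat_rpow.mpr (by linarith))
  have hsum2 : Summable fun c : ℕ => (((c + 1 : ℕ) : ℝ)) ^ (-2 : ℝ) := by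
    refine (summable_nat_add_iff 1).mpr (Real.summable_nat_rpow.mpr (by norm_num))
  set Z1 := ∑' c : ℕ, (((c + 1 : ℕ) : ℝ)) ^ (-1 - δ') with hZ1
  set Z2 := ∑' c : ℕ, (((c + 1 : ℕ) : ℝ)) ^ (-2 : ℝ) with hZ2
  have hZ1p : 0 ≤ Z1 := tsum_nonneg fun c => by positivity
  have hZ2p : 0 ≤ Z2 := tsum_nonneg fun c => by positivity
  set FF : ℝ := (Nat.factorial 14 : ℝ) with hFF
  have hFF0 : 0 < FF := by rw [hFF]; positivity
  refine ⟨C1 * (A * Z1) + C1 * Z2 + A * FF * C2 * Z2 + 1, max T1 (TG δ), by positivity,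
    le_max_right _ _, fun T hT h k hh hk => ?_⟩
  have hTG : TG δ ≤ T := (le_max_right _ _).trans hT
  have hT2 : 2 ≤ T := (le_max_left _ _).trans hTG
  have hT0 : 0 < T := by linarith
  have hhR : (0 : ℝ) < h := by exact_mod_cast hh
  have hkR : (0 : ℝ) < k := by exact_mod_cast hk
  set X := T ^ γ with hX
  have hX0 : 0 < X := by rw [hX]; positivity
  have hX1 : 1 ≤ X := Real.one_le_rpow (by linarith) hγ0.le
  set S := Set.Icc (-T ^ δ) (T ^ δ) with hSdef
  have hS : MeasurableSet S := measurableSet_Icc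
  have hPI : IntegrableOn (pf G T h k) S := pf_int hG T (T ^ δ) h k
  -- lower bound of the real parts
  obtain ⟨B, hB, hSz⟩ := Sz_le (r := 6 * (((k : ℝ) / h) / T)) (by positivity)
  have hre : ∀ c : ℕ, ∀ v ∈ S, 6 * (((k : ℝ) / h) / T) ≤ ((((c : ℂ) + 1) * zv T v h k)).re := by
    intro c v hv
    have h1 := zv_re_ge hT0 (geo hδ hδ1 hTG hv) (h := h) (r := k)
    have h2 : (((c : ℂ) + 1) * zv T v h k).re = ((c : ℝ) + 1) * (zv T v h k).re := by
      have : ((c : ℂ) + 1) = (((c : ℝ) + 1 : ℝ) : ℂ) := by push_cast; rfl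
      rw [this, Complex.re_ofReal_mul]
    rw [h2]
    have h3 : 0 ≤ 6 * (((k : ℝ) / h) / T) := by positivity
    have h4 : (0 : ℝ) ≤ c := Nat.cast_nonneg c
    nlinarith
  set F : ℕ → ℝ → ℂ := fun c v =>
    ((VA A (((c : ℝ) + 1) / X) : ℝ) : ℂ) * Sz (((c : ℂ) + 1) * zv T v h k) with hF
  have hFc : ∀ c, ContinuousOn (F c) S := by
    intro c
    refine ContinuousOn.mul continuousOn_const ?_
    intro v hv
    have h1 : 0 < ((((c : ℂ) + 1) * zv T v h k)).re := lt_of_lt_of_le (by positivity) (hre c v hv)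
    have h2 : ContinuousAt Sz (((c : ℂ) + 1) * zv T v h k) := (Sz_differentiableAt h1).continuousAt
    have h3 : ContinuousAt (fun v : ℝ => ((c : ℂ) + 1) * zv T v h k) v :=
      (continuous_const.mul (zv_cont T h k)).continuousAt
    exact (ContinuousAt.comp (f := fun v : ℝ => ((c : ℂ) + 1) * zv T v h k) h2 h3).continuousWithinAt
  have hexp : ∀ c : ℕ, Real.exp (-(((c : ℝ) + 1) / X)) = Real.exp (-(1 / X)) * Real.exp (-(1 / X)) ^ c := by
    intro c
    rw [← Real.exp_nat_mul, ← Real.exp_add]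
    congr 1
    ring
  have hFb : ∀ c, ∀ v ∈ S, ‖F c v‖ ≤ A * Real.exp (-(((c : ℝ) + 1) / X)) * B := by
    intro c v hv
    rw [hF]
    simp only
    rw [norm_mul, Complex.norm_real, Real.norm_of_nonneg (VA_nonneg A (by positivity))]
    exact mul_le_mul (VA_le_exp A (by positivity)) (hSz _ (hre c v hv)) (norm_nonneg _) (by positivity)
  have hbs : Summable fun c : ℕ => A * Real.exp (-(((c : ℝ) + 1) / X)) * B := by
    simp_rw [hexp]
    have hlt : Real.exp (-(1 / X)) < 1 := by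
      rw [Real.exp_lt_one_iff]
      have : 0 < 1 / X := by positivity
      linarith
    have := (summable_geometric_of_lt_one (Real.exp_pos (-(1 / X))).le hlt).mul_left
      (A * Real.exp (-(1 / X)) * B)
    refine this.congr fun c => ?_
    ring
  obtain ⟨hI1, hI2⟩ := interchange hS hPI F hFc _ hbs hFb
  refine ⟨hI1, ?_⟩
  -- the terms
  set N : ℕ := ⌊T⌋₊ with hN
  have hNN : NN (Real.log T) = Finset.Icc 1 N := by
    unfold NN
    rw [Real.exp_log hT0]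
  set M : ℕ → ℂ := fun c => ((VA A (((c + 1 : ℕ) : ℝ) / X) / Real.sqrt ((c + 1 : ℕ) : ℝ) : ℝ) : ℂ) *
    M2 w T h ((c + 1) * k) with hM
  have hfin : ∑ c ∈ NN (Real.log T), ((VA A (c / X) / Real.sqrt c : ℝ) : ℂ) * M2 w T h (c * k) =
      ∑ c ∈ Finset.range N, M c := by
    rw [hNN]
    have : Finset.Icc 1 N = Finset.Ico 1 (N + 1) := by
      ext x; simp only [Finset.mem_Icc, Finset.mem_Ico]; omega
    rw [this, Finset.sum_Ico_eq_sum_range]
    simp only [Nat.add_sub_cancel]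
    refine Finset.sum_congr rfl fun c _ => ?_
    rw [hM, add_comm 1 c]
  -- comparison of one term
  have hone : ∀ c : ℕ, ‖(∫ v in S, pf G T h k v * F c v) - M c‖ ≤
      C1 * (A * X ^ (1 / 2 + δ') * (((c + 1 : ℕ) : ℝ)) ^ (-1 - δ') +
        ((h : ℝ) / k) ^ (3 / 2 : ℝ) * (((c + 1 : ℕ) : ℝ)) ^ (-2 : ℝ)) := by
    intro c
    set n : ℕ := c + 1 with hn
    have hn0 : 0 < n := Nat.succ_pos c
    have hnR : (0 : ℝ) < n := by exact_mod_cast hn0
    have hncast : ((c : ℝ) + 1) = (n : ℝ) := by rw [hn]; push_cast; rfl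
    have hncastC : ((c : ℂ) + 1) = (n : ℂ) := by rw [hn]; push_cast; rfl
    have hVA0 : 0 ≤ VA A ((n : ℝ) / X) := VA_nonneg A (by positivity)
    have hsq : 0 < Real.sqrt n := Real.sqrt_pos.mpr hnR
    have e1 : (∫ v in S, pf G T h k v * F c v) = ((VA A ((n : ℝ) / X) / Real.sqrt n : ℝ) : ℂ) *
        ∫ v in S, G v * (2 * Real.pi * Real.sqrt (((n * k : ℕ) : ℝ) / h) *
          Complex.exp (-(Complex.I * pv T v / 2)) * Sz (zv T v h (n * k))) := by
      rw [← integral_const_mul]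
      refine integral_congr_ae (ae_of_all _ fun v => ?_)
      simp only [hF, pf]
      rw [hncast, hncastC, mul_zv]
      have h5 : Real.sqrt (((n * k : ℕ) : ℝ) / h) = Real.sqrt n * Real.sqrt ((k : ℝ) / h) := by
        rw [← Real.sqrt_mul hnR.le]
        congr 1
        push_cast
        ring
      rw [h5]
      have h6 : ((Real.sqrt n : ℝ) : ℂ) ≠ 0 := by exact_mod_cast hsq.ne'
      push_cast
      field_simp
    rw [e1, hM]
    simp only
    rw [← hn, ← mul_sub, norm_mul, Complex.norm_real, Real.norm_of_nonneg (by positivity)]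
    have h2 := hM2 T ((le_max_left _ _).trans hT) h (n * k) hh (Nat.mul_pos hn0 hk)
    rw [norm_sub_rev] at h2
    -- bounds
    have h3 : ((h : ℝ) / ((n * k : ℕ) : ℝ)) ^ (3 / 2 : ℝ) =
        ((h : ℝ) / k) ^ (3 / 2 : ℝ) * (n : ℝ) ^ (-(3 / 2) : ℝ) := by
      have : (h : ℝ) / ((n * k : ℕ) : ℝ) = ((h : ℝ) / k) * (n : ℝ)⁻¹ := by
        push_cast
        field_simp
      rw [this, Real.mul_rpow (by positivity) (by positivity), Real.inv_rpow hnR.le,
        ← Real.rpow_neg hnR.le]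
    rw [h3] at h2
    have h4 : VA A ((n : ℝ) / X) / Real.sqrt n ≤ A * X ^ (1 / 2 + δ') * (n : ℝ) ^ (-1 - δ') := by
      have h5 : VA A ((n : ℝ) / X) ≤ A * ((n : ℝ) / X) ^ (-(1 / 2 + δ')) := by
        refine (VA_le_exp A (by positivity)).trans ?_
        apply mul_le_mul_of_nonneg_left _ (by positivity)
        exact Pool.Agent.T2.exp_neg_le_rpow (by positivity) (by positivity) (by linarith)
      rw [div_le_iff₀ hsq]
      refine h5.trans (le_of_eq ?_)
      rw [Real.div_rpow hnR.le hX0.le, Real.rpow_neg hX0.le, div_inv_eq_mul, Real.sqrt_eq_rpow]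
      have h6 : (n : ℝ) ^ (-(1 / 2 + δ')) = (n : ℝ) ^ (-1 - δ') * (n : ℝ) ^ (1 / 2 : ℝ) := by
        rw [← Real.rpow_add hnR]
        congr 1
        ring
      rw [h6]
      ring
    have h7 : VA A ((n : ℝ) / X) / Real.sqrt n * (n : ℝ) ^ (-(3 / 2) : ℝ) ≤ (n : ℝ) ^ (-2 : ℝ) := by
      have h8 : VA A ((n : ℝ) / X) / Real.sqrt n ≤ (n : ℝ) ^ (-(1 / 2) : ℝ) := by
        rw [Real.rpow_neg hnR.le, ← Real.sqrt_eq_rpow, ← one_div]
        gcongr
        exact VA_le_one A (by positivity)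
      calc _ ≤ (n : ℝ) ^ (-(1 / 2) : ℝ) * (n : ℝ) ^ (-(3 / 2) : ℝ) := by gcongr
        _ = (n : ℝ) ^ (-2 : ℝ) := by
            rw [← Real.rpow_add hnR]
            norm_num
    calc VA A ((n : ℝ) / X) / Real.sqrt n * ‖(∫ v in S, G v * (2 * Real.pi *
            Real.sqrt (((n * k : ℕ) : ℝ) / h) * Complex.exp (-(Complex.I * pv T v / 2)) *
            Sz (zv T v h (n * k)))) - M2 w T h (n * k)‖
        ≤ VA A ((n : ℝ) / X) / Real.sqrt n *
            (C1 * (1 + ((h : ℝ) / k) ^ (3 / 2 : ℝ) * (n : ℝ) ^ (-(3 / 2) : ℝ))) := by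
          gcongr
      _ = C1 * (VA A ((n : ℝ) / X) / Real.sqrt n + ((h : ℝ) / k) ^ (3 / 2 : ℝ) *
            (VA A ((n : ℝ) / X) / Real.sqrt n * (n : ℝ) ^ (-(3 / 2) : ℝ))) := by ring
      _ ≤ _ := by gcongr
  -- terms beyond `T`
  have htail : ∀ c : ℕ, N ≤ c → ‖M c‖ ≤ A * FF * C2 * (((c + 1 : ℕ) : ℝ)) ^ (-2 : ℝ) := by
    intro c hc
    set n : ℕ := c + 1 with hn
    have hn0 : 0 < n := Nat.succ_pos c
    have hnR : (0 : ℝ) < n := by exact_mod_cast hn0
    have hn1 : (1 : ℝ) ≤ n := by exact_mod_cast hn0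
    have hTn : T ≤ n := by
      have h1 : T < (N : ℝ) + 1 := Nat.lt_floor_add_one T
      have h2 : ((N + 1 : ℕ) : ℝ) ≤ n := by exact_mod_cast Nat.succ_le_succ hc
      push_cast at h2
      linarith
    rw [hM]
    simp only
    rw [← hn, norm_mul, Complex.norm_real, Real.norm_of_nonneg (div_nonneg (VA_nonneg A (by positivity)) (Real.sqrt_nonneg _))]
    have h1 : VA A ((n : ℝ) / X) / Real.sqrt n ≤ A * (FF * (X / n) ^ 14) := by
      have h2 : VA A ((n : ℝ) / X) ≤ A * (FF * (X / n) ^ 14) := by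
        refine (VA_le_exp A (by positivity)).trans ?_
        apply mul_le_mul_of_nonneg_left _ (by positivity)
        have := pow14 (u := (n : ℝ) / X) (by positivity)
        rwa [one_div_div] at this
      refine le_trans (div_le_self (VA_nonneg A (by positivity)) ?_) h2
      rw [Real.one_le_sqrt]
      exact hn1
    have h3 : ‖M2 w T h (n * k)‖ ≤ C2 * T ^ (5 : ℕ) := hM2b T hT2 h (n * k)
    have h4 : (X / n) ^ 14 * T ^ 5 ≤ (n : ℝ) ^ (-2 : ℝ) := by
      have hX14 : X ^ 14 ≤ T ^ 7 := by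
        have : X ^ 2 ≤ T := by
          rw [hX, ← Real.rpow_natCast, ← Real.rpow_mul hT0.le]
          calc T ^ (γ * ((2 : ℕ) : ℝ)) ≤ T ^ (1 : ℝ) := by
                apply Real.rpow_le_rpow_of_exponent_le (by linarith)
                push_cast
                linarith
            _ = T := Real.rpow_one T
        calc X ^ 14 = (X ^ 2) ^ 7 := by ring
          _ ≤ T ^ 7 := by gcongr
      have e2 : (n : ℝ) ^ (-2 : ℝ) = 1 / (n : ℝ) ^ 2 := by
        rw [Real.rpow_neg hnR.le, one_div]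
        norm_num
      rw [e2, div_pow, div_mul_eq_mul_div, div_le_div_iff₀ (by positivity) (by positivity), one_mul]
      calc X ^ 14 * T ^ 5 * (n : ℝ) ^ 2 ≤ T ^ 7 * T ^ 5 * (n : ℝ) ^ 2 := by gcongr
        _ = T ^ 12 * (n : ℝ) ^ 2 := by ring
        _ ≤ (n : ℝ) ^ 12 * (n : ℝ) ^ 2 := by gcongr
        _ = (n : ℝ) ^ 14 := by ring
    calc VA A ((n : ℝ) / X) / Real.sqrt n * ‖M2 w T h (n * k)‖
        ≤ (A * (FF * (X / n) ^ 14)) * (C2 * T ^ (5 : ℕ)) := by
          apply mul_le_mul h1 h3 (norm_nonneg _) (by positivity)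
      _ = A * FF * C2 * ((X / n) ^ 14 * T ^ 5) := by ring
      _ ≤ _ := by gcongr
  -- summation
  set D : ℕ → ℂ := fun c => (∫ v in S, pf G T h k v * F c v) -
    (if c < N then M c else 0) with hD
  have hMs : HasSum (fun c => if c < N then M c else 0) (∑ c ∈ Finset.range N, M c) := by
    have h1 : ∑ c ∈ Finset.range N, M c = ∑ c ∈ Finset.range N, (if c < N then M c else 0) := by
      refine Finset.sum_congr rfl fun c hc => ?_
      rw [if_pos (Finset.mem_range.mp hc)]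
    rw [h1]
    apply hasSum_sum_of_ne_finset_zero
    intro c hc
    rw [Finset.mem_range] at hc
    rw [if_neg hc]
  have hDs : HasSum D ((∫ v in S, pf G T h k v * ∑' c, F c v) - ∑ c ∈ Finset.range N, M c) :=
    hI2.sub hMs
  have hDb : ∀ c, ‖D c‖ ≤ C1 * A * X ^ (1 / 2 + δ') * (((c + 1 : ℕ) : ℝ)) ^ (-1 - δ') +
      (C1 * ((h : ℝ) / k) ^ (3 / 2 : ℝ) + A * FF * C2) * (((c + 1 : ℕ) : ℝ)) ^ (-2 : ℝ) := by
    intro c
    have h1 := hone c
    have h0 : (0 : ℝ) ≤ A * FF * C2 * (((c + 1 : ℕ) : ℝ)) ^ (-2 : ℝ) := by positivity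
    have h2 := htail c
    rw [hD]
    simp only
    generalize (((c + 1 : ℕ) : ℝ)) ^ (-2 : ℝ) = y2 at h0 h1 h2 ⊢
    generalize (((c + 1 : ℕ) : ℝ)) ^ (-1 - δ') = y1 at h1 ⊢
    generalize X ^ (1 / 2 + δ') = y3 at h1 ⊢
    generalize ((h : ℝ) / k) ^ (3 / 2 : ℝ) = y4 at h1 ⊢
    have e1 : C1 * (A * y3 * y1 + y4 * y2) = C1 * A * y3 * y1 + C1 * y4 * y2 := by ring
    have e2 : C1 * A * y3 * y1 + (C1 * y4 + A * FF * C2) * y2 =
      (C1 * A * y3 * y1 + C1 * y4 * y2) + A * FF * C2 * y2 := by ring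
    rw [e1] at h1
    rw [e2]
    split_ifs with hc
    · linarith
    · rw [sub_zero]
      have h2' := h2 (not_lt.mp hc)
      have h3 : ‖∫ v in S, pf G T h k v * F c v‖ ≤
          ‖(∫ v in S, pf G T h k v * F c v) - M c‖ + ‖M c‖ := by
        have := norm_add_le ((∫ v in S, pf G T h k v * F c v) - M c) (M c)
        rwa [sub_add_cancel] at this
      linarith
  have hbsum : HasSum (fun c : ℕ => C1 * A * X ^ (1 / 2 + δ') * (((c + 1 : ℕ) : ℝ)) ^ (-1 - δ') +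
      (C1 * ((h : ℝ) / k) ^ (3 / 2 : ℝ) + A * FF * C2) * (((c + 1 : ℕ) : ℝ)) ^ (-2 : ℝ))
      (C1 * A * X ^ (1 / 2 + δ') * Z1 +
        (C1 * ((h : ℝ) / k) ^ (3 / 2 : ℝ) + A * FF * C2) * Z2) :=
    (hsum1.hasSum.mul_left _).add (hsum2.hasSum.mul_left _)
  have hfinal : ‖(∫ v in S, pf G T h k v * ∑' c, F c v) - ∑ c ∈ Finset.range N, M c‖ ≤
      C1 * A * X ^ (1 / 2 + δ') * Z1 +
        (C1 * ((h : ℝ) / k) ^ (3 / 2 : ℝ) + A * FF * C2) * Z2 := by
    rw [← hDs.tsum_eq]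
    exact tsum_of_norm_bounded hbsum hDb
  rw [hfin]
  refine hfinal.trans ?_
  have hXle : X ^ (1 / 2 + δ') ≤ T ^ (γ / 2 + δ') := by
    rw [hX, ← Real.rpow_mul hT0.le]
    apply Real.rpow_le_rpow_of_exponent_le (by linarith)
    nlinarith
  have hT1' : 1 ≤ T ^ (γ / 2 + δ') := Real.one_le_rpow (by linarith) (by positivity)
  set Y := T ^ (γ / 2 + δ') with hY
  set R := ((h : ℝ) / k) ^ (3 / 2 : ℝ) with hR
  have hR0 : 0 ≤ R := by rw [hR]; positivity
  have g1 : C1 * A * X ^ (1 / 2 + δ') * Z1 ≤ C1 * A * Y * Z1 := by gcongr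
  have g2 : A * FF * C2 * Z2 ≤ A * FF * C2 * Z2 * Y := le_mul_of_one_le_right (by positivity) hT1'
  have g3 : 0 ≤ C1 * (A * Z1) * R := by positivity
  have g4 : 0 ≤ C1 * Z2 * Y := by positivity
  have g5 : 0 ≤ A * FF * C2 * Z2 * R := by positivity
  have g6 : 0 ≤ Y + R := by positivity
  nlinarith

end Pool.Agent.SixT
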