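import Mathlib
import Pool.Agent.Lib_MP_112ba8_t.M3SplitB
import Pool.Agent.Lib_MP_112ba8_t.DAfar
import Pool.Agent.Lib_MP_112ba8_t.DAnear
import Pool.Agent.Lib_MP_112ba8_t.T2Avg

/-!
The second sum of the splitting of the twisted third moment: estimates of the single terms.
-/

namespace Pool.Agent.SixT

open Filter Topology MeasureTheory
open Pool.Agent.EvenMoment (cl Wgt Sz)

lemma DA_contAt (A : ℕ) {C₀ : ℝ} (hC : 0 < C₀) {y : ℂ} (hy : 0 < y.re) :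
    ContinuousAt (DA A C₀) y := by
  unfold DA
  apply tendsto_finset_sum
  intro j _
  refine ContinuousAt.mul continuousAt_const ?_
  refine ContinuousAt.div continuousAt_const (by fun_prop) ?_
  intro h
  have h1 : Complex.exp (-(y + j / C₀)) = 1 := by linear_combination -h
  have h2 : ‖Complex.exp (-(y + j / C₀))‖ = 1 := by rw [h1, norm_one]
  rw [Complex.norm_exp, Real.exp_eq_one_iff] at h2
  have h3 : (-(y + j / C₀) : ℂ).re = -(y.re + j / C₀) := by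
    have : ((j : ℂ) / C₀) = (((j : ℝ) / C₀ : ℝ) : ℂ) := by push_cast; rfl
    rw [this, Complex.neg_re, Complex.add_re, Complex.ofReal_re]
  rw [h3] at h2
  have : 0 ≤ (j : ℝ) / C₀ := by positivity
  linarith

/-- the large parameters -/
structure Lg (γ ε δ T : ℝ) : Prop where
  tg : TG δ ≤ T
  t36 : 36 ≤ T
  t6 : 6 ≤ T ^ (ε / 2 - δ)
  t38 : 38 ≤ T ^ δ

lemma exists_Lg {γ ε δ : ℝ} (hδ : 0 < δ) (hδε : δ < ε / 2) : ∃ T₀ : ℝ, TG δ ≤ T₀ ∧
    ∀ T : ℝ, T₀ ≤ T → Lg γ ε δ T := by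
  have h1 := (tendsto_rpow_atTop (show 0 < ε / 2 - δ by linarith)).eventually_ge_atTop 6
  have h2 := (tendsto_rpow_atTop hδ).eventually_ge_atTop 38
  obtain ⟨T₁, hT₁⟩ := Filter.eventually_atTop.mp (h1.and h2)
  refine ⟨max T₁ (max (TG δ) 36), (le_max_left _ _).trans (le_max_right _ _), fun T hT => ?_⟩
  obtain ⟨h3, h4⟩ := hT₁ T ((le_max_left _ _).trans hT)
  exact ⟨((le_max_left _ _).trans (le_max_right _ _)).trans hT,
    ((le_max_right _ _).trans (le_max_right _ _)).trans hT, h3, h4⟩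

/-- the general bound far from the poles -/
lemma far_bound {A : ℕ} {C : ℝ} (hC : 0 < C) (hfar : ∀ C₀ ρ : ℝ, 1 ≤ C₀ → 0 < ρ → ρ ≤ 1 → ∀ y : ℂ,
    0 < y.re → (∀ j : ℤ, ρ ≤ ‖y - 2 * Real.pi * Complex.I * j‖) →
    ‖DA A C₀ y‖ ≤ C * (C₀ * ρ)⁻¹ ^ A * ρ⁻¹ * Real.exp (-y.re))
    {γ ε T : ℝ} (hε : 0 < ε) (hA : 28 ≤ A * ε) (hT : 1 ≤ T) (hγ0 : 0 < γ) {ρ : ℝ} (hρ0 : 0 < ρ)
    (hρ1 : ρ ≤ 1) (hρT : T⁻¹ ≤ ρ) (hXρ : T ^ (ε / 2) ≤ T ^ γ * ρ) {y : ℂ} {J n : ℝ} (hJ : 0 < J)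
    (hn : 0 < n) (hJn : n / T ≤ J) (hy : J / T ≤ y.re)
    (hd : ∀ j : ℤ, ρ ≤ ‖y - 2 * Real.pi * Complex.I * j‖) :
    ‖DA A (T ^ γ) y‖ ≤ 24 * C * (T ^ (5 : ℕ))⁻¹ * (n ^ 4)⁻¹ := by
  have hT0 : 0 < T := by linarith
  have hy0 : 0 < y.re := lt_of_lt_of_le (by positivity) hy
  have h1 := hfar (T ^ γ) ρ (Real.one_le_rpow hT hγ0.le) hρ0 hρ1 y hy0 hd
  have h2 : (T ^ γ * ρ)⁻¹ ^ A ≤ (T ^ (14 : ℕ))⁻¹ := by
    rw [inv_pow]
    apply inv_anti₀ (by positivity)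
    calc T ^ (14 : ℕ) = T ^ (14 : ℝ) := by norm_cast
      _ ≤ T ^ (ε / 2 * A) := Real.rpow_le_rpow_of_exponent_le hT (by linarith)
      _ = (T ^ (ε / 2)) ^ A := by rw [Real.rpow_mul hT0.le, Real.rpow_natCast]
      _ ≤ (T ^ γ * ρ) ^ A := by gcongr
  have h3 : ρ⁻¹ ≤ T := by
    rw [inv_le_comm₀ hρ0 hT0]
    exact hρT
  have h4 : Real.exp (-y.re) ≤ 24 * (T ^ 8 * (n ^ 4)⁻¹) := by
    have h5 : Real.exp (-y.re) ≤ Real.exp (-(J / T)) := Real.exp_le_exp.mpr (by linarith)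
    have h6 := Real.pow_div_factorial_le_exp (x := J / T) (by positivity) 4
    have h7 : ((Nat.factorial 4 : ℕ) : ℝ) = 24 := by norm_num [Nat.factorial]
    rw [h7] at h6
    have h8 : (n / T / T) ^ 4 ≤ (J / T) ^ 4 := by gcongr
    have h9 : (n / T / T) ^ 4 / 24 ≤ Real.exp (J / T) := by
      refine le_trans ?_ h6
      gcongr
    have h10 : Real.exp (-(J / T)) ≤ ((n / T / T) ^ 4 / 24)⁻¹ := by
      rw [Real.exp_neg]
      exact inv_anti₀ (by positivity) h9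
    refine h5.trans (h10.trans (le_of_eq ?_))
    field_simp
  calc ‖DA A (T ^ γ) y‖ ≤ C * (T ^ γ * ρ)⁻¹ ^ A * ρ⁻¹ * Real.exp (-y.re) := h1
    _ ≤ C * (T ^ (14 : ℕ))⁻¹ * T * (24 * (T ^ 8 * (n ^ 4)⁻¹)) := by gcongr
    _ = 24 * C * (T ^ (5 : ℕ))⁻¹ * (n ^ 4)⁻¹ := by
        field_simp

lemma norm_ge_im (y : ℂ) (j : ℤ) : |y.im - 2 * Real.pi * j| ≤ ‖y - 2 * Real.pi * Complex.I * j‖ := by
  have h := Complex.abs_im_le_norm (y - 2 * Real.pi * Complex.I * j)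
  have : (y - 2 * Real.pi * Complex.I * j).im = y.im - 2 * Real.pi * j := by
    have : (2 * Real.pi * Complex.I * j : ℂ) = ((2 * Real.pi * j : ℝ) : ℂ) * Complex.I := by
      push_cast; ring
    rw [this, Complex.sub_im, Complex.im_ofReal_mul, Complex.I_im, mul_one]
  rwa [this] at h

lemma norm_ge_re (y : ℂ) (j : ℤ) (hy : 0 < y.re) : y.re ≤ ‖y - 2 * Real.pi * Complex.I * j‖ := by
  have h := Complex.abs_re_le_norm (y - 2 * Real.pi * Complex.I * j)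
  have : (y - 2 * Real.pi * Complex.I * j).re = y.re := by
    have : (2 * Real.pi * Complex.I * j : ℂ) = ((2 * Real.pi * j : ℝ) : ℂ) * Complex.I := by
      push_cast; ring
    rw [this, Complex.sub_re, Complex.re_ofReal_mul, Complex.I_re, mul_zero, sub_zero]
  rw [this] at h
  exact (le_abs_self _).trans h

/-- (a): `h ∤ n k` -/
lemma case_a {A : ℕ} {C : ℝ} (hC : 0 < C) (hfar : ∀ C₀ ρ : ℝ, 1 ≤ C₀ → 0 < ρ → ρ ≤ 1 → ∀ y : ℂ,
    0 < y.re → (∀ j : ℤ, ρ ≤ ‖y - 2 * Real.pi * Complex.I * j‖) →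
    ‖DA A C₀ y‖ ≤ C * (C₀ * ρ)⁻¹ ^ A * ρ⁻¹ * Real.exp (-y.re))
    {γ ε δ T : ℝ} (hε : 0 < ε) (hA : 28 ≤ A * ε) (hγ : ε < γ) (hγ1 : γ ≤ 1 / 2) (hδ : 0 < δ)
    (hδε : δ ≤ ε / 64) (hL : Lg γ ε δ T) {h k n : ℕ} (hh : 0 < h) (hk : 0 < k) (hn : 0 < n)
    (hhT : (h : ℝ) ≤ T ^ (γ - ε)) (hnd : ¬ h ∣ n * k) {v : ℝ}
    (hv : v ∈ Set.Icc (-T ^ δ) (T ^ δ)) :
    ‖DA A (T ^ γ) (zv T v h (n * k))‖ ≤ 24 * C * (T ^ (5 : ℕ))⁻¹ * ((n : ℝ) ^ 4)⁻¹ := by
  have hδ1 : δ < 1 := by linarith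
  have hT36 := hL.t36
  have hT1 : 1 ≤ T := by linarith
  have hT0 : 0 < T := by linarith
  have hhR : (0 : ℝ) < h := by exact_mod_cast hh
  have hkR : (1 : ℝ) ≤ k := by exact_mod_cast hk
  have hnR : (0 : ℝ) < n := by exact_mod_cast hn
  have hs := geo hδ hδ1 hL.tg hv
  have hpi3 := Real.pi_gt_three
  have hpi4 := Real.pi_lt_four
  set J : ℝ := ((n * k : ℕ) : ℝ) / h with hJdef
  have hJ0 : 0 < J := by
    rw [hJdef]
    have : 0 < n * k := Nat.mul_pos hn hk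
    positivity
  have hre : 6 * (J / T) ≤ (zv T v h (n * k)).re := zv_re_ge hT0 hs
  have hre0 : 0 < (zv T v h (n * k)).re := zv_re_pos hT0 hs hh (Nat.mul_pos hn hk)
  have him := zv_im T v h (n * k)
  rw [← hJdef] at him
  have hrn := (rv_facts hT0 hs).2
  have hsv := small_v hT1 hδ.le (abs_le.mpr hv)
  have hrn' : |(rv T v).im| ≤ 18 * T ^ (δ - 1) := by
    refine (Complex.abs_im_le_norm _).trans (hrn.trans ?_)
    have : 2 * (2 + |-(2 * Real.pi * v)|) / T = 2 * ((2 + |-(2 * Real.pi * v)|) / T) := by ring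
    rw [this]
    linarith
  set ρ : ℝ := T ^ (-δ - γ + ε) / 6 with hρ
  have hρ0 : 0 < ρ := by rw [hρ]; positivity
  have hexp1 : T ^ (-δ - γ + ε) ≤ 1 := Real.rpow_le_one_of_one_le_of_nonpos hT1 (by linarith)
  have hρ1 : ρ ≤ 1 := by rw [hρ]; linarith
  -- `1 / h` is large
  have hh1 : T ^ (-γ + ε) ≤ 1 / h := by
    rw [le_div_iff₀ hhR]
    calc T ^ (-γ + ε) * h ≤ T ^ (-γ + ε) * T ^ (γ - ε) := by gcongr
      _ = 1 := by
        rw [← Real.rpow_add hT0]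
        have : -γ + ε + (γ - ε) = 0 := by ring
        rw [this, Real.rpow_zero]
  have hdist : ∀ j : ℤ, ρ ≤ ‖zv T v h (n * k) - 2 * Real.pi * Complex.I * j‖ := by
    intro j
    rcases le_or_gt (J * (36 * T ^ (δ - 1))) (1 / h) with hc | hc
    · refine le_trans ?_ (norm_ge_im _ j)
      rw [him]
      have h1 : 1 / (h : ℝ) ≤ |J - j| := by
        have e1 : J - j = (((n * k : ℕ) : ℤ) - h * j : ℤ) / (h : ℝ) := by
          rw [hJdef]
          push_cast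
          field_simp
        rw [e1, abs_div, abs_of_pos hhR]
        apply div_le_div_of_nonneg_right _ hhR.le
        have h2 : (((n * k : ℕ) : ℤ) - h * j : ℤ) ≠ 0 := by
          intro h3
          apply hnd
          have h4 : (h : ℤ) ∣ ((n * k : ℕ) : ℤ) := ⟨j, by linarith⟩
          exact_mod_cast h4
        exact_mod_cast Int.one_le_abs h2
      have h2 : |2 * Real.pi * J * (rv T v).im| ≤ Real.pi * (1 / h) := by
        rw [abs_mul, abs_of_pos (by positivity : 0 < 2 * Real.pi * J)]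
        calc 2 * Real.pi * J * |(rv T v).im| ≤ 2 * Real.pi * J * (18 * T ^ (δ - 1)) := by gcongr
          _ = Real.pi * (J * (36 * T ^ (δ - 1))) := by ring
          _ ≤ _ := by gcongr
      have h3 : 2 * Real.pi * J + 2 * Real.pi * J * (rv T v).im - 2 * Real.pi * j =
          2 * Real.pi * (J - j) + 2 * Real.pi * J * (rv T v).im := by ring
      rw [h3]
      have h4 : 2 * Real.pi * (1 / h) ≤ |2 * Real.pi * (J - j)| := by
        rw [abs_mul, abs_of_pos Real.two_pi_pos]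
        gcongr
      have h5 : |2 * Real.pi * (J - j)| ≤ |2 * Real.pi * (J - j) + 2 * Real.pi * J * (rv T v).im| +
          |2 * Real.pi * J * (rv T v).im| := by
        have := abs_sub (2 * Real.pi * (J - j) + 2 * Real.pi * J * (rv T v).im)
          (2 * Real.pi * J * (rv T v).im)
        rwa [add_sub_cancel_right] at this
      have h6 : ρ ≤ 1 / h := by
        have : T ^ (-δ - γ + ε) ≤ T ^ (-γ + ε) :=
          Real.rpow_le_rpow_of_exponent_le hT1 (by linarith)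
        rw [hρ]
        have h7 : 0 < T ^ (-δ - γ + ε) := by positivity
        linarith
      have h8 : (0 : ℝ) < 1 / h := by positivity
      nlinarith
    · refine le_trans ?_ (norm_ge_re _ j hre0)
      refine le_trans ?_ hre
      have h1 : T ^ (-δ - γ + ε) / 36 < J / T := by
        have h2 : T ^ (-γ + ε) < J * (36 * T ^ (δ - 1)) := lt_of_le_of_lt hh1 hc
        have h3 : T ^ (-δ - γ + ε) = T ^ (-γ + ε) * T ^ (-δ) := by
          rw [← Real.rpow_add hT0]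
          congr 1
          ring
        have h4 : T ^ (δ - 1) * T ^ (-δ) = 1 / T := by
          rw [← Real.rpow_add hT0]
          have : δ - 1 + -δ = -1 := by ring
          rw [this, Real.rpow_neg_one, one_div]
        have h5 : 0 < T ^ (-δ) := by positivity
        rw [h3]
        calc T ^ (-γ + ε) * T ^ (-δ) / 36 < (J * (36 * T ^ (δ - 1))) * T ^ (-δ) / 36 := by gcongr
          _ = J * (T ^ (δ - 1) * T ^ (-δ)) := by ring
          _ = J / T := by rw [h4]; ring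
      rw [hρ]
      linarith
  have hρT : T⁻¹ ≤ ρ := by
    rw [hρ, le_div_iff₀ (by norm_num : (0 : ℝ) < 6)]
    have h1 : T ^ (-(1 / 2) : ℝ) ≤ T ^ (-δ - γ + ε) :=
      Real.rpow_le_rpow_of_exponent_le hT1 (by linarith)
    refine le_trans ?_ h1
    have h2 : T⁻¹ = T ^ (-(1 / 2) : ℝ) * T ^ (-(1 / 2) : ℝ) := by
      have e : -(1 / 2 : ℝ) + -(1 / 2) = -1 := by norm_num
      rw [← Real.rpow_add hT0, e, Real.rpow_neg_one]
    have h3 : T ^ (-(1 / 2) : ℝ) ≤ 1 / 6 := by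
      rw [Real.rpow_neg hT0.le, ← Real.sqrt_eq_rpow, ← one_div]
      apply one_div_le_one_div_of_le (by norm_num)
      apply Real.le_sqrt_of_sq_le
      linarith
    have h4 : 0 < T ^ (-(1 / 2) : ℝ) := by positivity
    rw [h2]
    nlinarith
  have hXρ : T ^ (ε / 2) ≤ T ^ γ * ρ := by
    rw [hρ]
    have h1 : T ^ γ * (T ^ (-δ - γ + ε) / 6) = T ^ (ε / 2) * (T ^ (ε / 2 - δ) / 6) := by
      have h2 : T ^ γ * T ^ (-δ - γ + ε) = T ^ (ε / 2) * T ^ (ε / 2 - δ) := by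
        rw [← Real.rpow_add hT0, ← Real.rpow_add hT0]
        congr 1
        ring
      calc _ = (T ^ γ * T ^ (-δ - γ + ε)) / 6 := by ring
        _ = _ := by rw [h2]; ring
    rw [h1]
    have h3 : 1 ≤ T ^ (ε / 2 - δ) / 6 := by
      rw [le_div_iff₀ (by norm_num)]
      linarith [hL.t6]
    exact le_mul_of_one_le_right (by positivity) h3
  have hJn : (n : ℝ) / T ≤ J := by
    rw [hJdef]
    push_cast
    have h1 : (h : ℝ) ≤ T := by
      refine hhT.trans ?_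
      calc T ^ (γ - ε) ≤ T ^ (1 : ℝ) := Real.rpow_le_rpow_of_exponent_le hT1 (by linarith)
        _ = T := Real.rpow_one T
    rw [div_le_div_iff₀ hT0 hhR]
    calc (n : ℝ) * h ≤ n * T := by gcongr
      _ ≤ n * k * T := by
        have : (n : ℝ) * 1 ≤ n * k := by gcongr
        nlinarith
  refine far_bound hC hfar hε hA hT1 (by linarith) hρ0 hρ1 hρT hXρ hJ0 hnR hJn ?_ hdist
  have : 0 ≤ J / T := by positivity
  linarith

/-- (b): `h ∣ n k`, large quotient; the exact term -/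
lemma case_b {A : ℕ} {C : ℝ} (hC : 0 < C) (hfar : ∀ C₀ ρ : ℝ, 1 ≤ C₀ → 0 < ρ → ρ ≤ 1 → ∀ y : ℂ,
    0 < y.re → (∀ j : ℤ, ρ ≤ ‖y - 2 * Real.pi * Complex.I * j‖) →
    ‖DA A C₀ y‖ ≤ C * (C₀ * ρ)⁻¹ ^ A * ρ⁻¹ * Real.exp (-y.re))
    {γ ε δ T : ℝ} (hε : 0 < ε) (hA : 28 ≤ A * ε) (hγ : ε < γ) (hγ1 : γ ≤ 1 / 2) (hδ : 0 < δ)
    (hδε : δ ≤ ε / 64) (hL : Lg γ ε δ T) {h k n : ℕ} (hh : 0 < h) (hk : 0 < k) (hn : 0 < n)
    (hhT : (h : ℝ) ≤ T ^ (γ - ε)) (hbig : T ^ (1 - 2 * δ) < ((n * k : ℕ) : ℝ) / h) {v : ℝ}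
    (hv : v ∈ Set.Icc (-T ^ δ) (T ^ δ)) :
    ‖DA A (T ^ γ) (zv T v h (n * k))‖ ≤ 24 * C * (T ^ (5 : ℕ))⁻¹ * ((n : ℝ) ^ 4)⁻¹ := by
  have hδ1 : δ < 1 := by linarith
  have hT36 := hL.t36
  have hT1 : 1 ≤ T := by linarith
  have hT0 : 0 < T := by linarith
  have hhR : (0 : ℝ) < h := by exact_mod_cast hh
  have hkR : (1 : ℝ) ≤ k := by exact_mod_cast hk
  have hnR : (0 : ℝ) < n := by exact_mod_cast hn
  have hs := geo hδ hδ1 hL.tg hv
  set J : ℝ := ((n * k : ℕ) : ℝ) / h with hJdef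
  have hJ0 : 0 < J := lt_trans (by positivity) hbig
  have hre : 6 * (J / T) ≤ (zv T v h (n * k)).re := zv_re_ge hT0 hs
  have hre0 : 0 < (zv T v h (n * k)).re := zv_re_pos hT0 hs hh (Nat.mul_pos hn hk)
  have hJT : T ^ (-(2 * δ)) ≤ J / T := by
    rw [le_div_iff₀ hT0]
    refine le_trans (le_of_eq ?_) hbig.le
    have : T ^ (-(2 * δ)) * T = T ^ (-(2 * δ)) * T ^ (1 : ℝ) := by rw [Real.rpow_one]
    rw [this, ← Real.rpow_add hT0]
    congr 1
    ring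
  set ρ : ℝ := T ^ (-(2 * δ)) with hρ
  have hρ0 : 0 < ρ := by rw [hρ]; positivity
  have hρ1 : ρ ≤ 1 := Real.rpow_le_one_of_one_le_of_nonpos hT1 (by linarith)
  have hdist : ∀ j : ℤ, ρ ≤ ‖zv T v h (n * k) - 2 * Real.pi * Complex.I * j‖ := by
    intro j
    refine le_trans ?_ (norm_ge_re _ j hre0)
    linarith
  have hρT : T⁻¹ ≤ ρ := by
    rw [hρ, ← Real.rpow_neg_one]
    exact Real.rpow_le_rpow_of_exponent_le hT1 (by linarith)
  have hXρ : T ^ (ε / 2) ≤ T ^ γ * ρ := by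
    rw [hρ, ← Real.rpow_add hT0]
    exact Real.rpow_le_rpow_of_exponent_le hT1 (by linarith)
  have hJn : (n : ℝ) / T ≤ J := by
    rw [hJdef]
    push_cast
    have h1 : (h : ℝ) ≤ T := by
      refine hhT.trans ?_
      calc T ^ (γ - ε) ≤ T ^ (1 : ℝ) := Real.rpow_le_rpow_of_exponent_le hT1 (by linarith)
        _ = T := Real.rpow_one T
    rw [div_le_div_iff₀ hT0 hhR]
    calc (n : ℝ) * h ≤ n * T := by gcongr
      _ ≤ n * k * T := by
        have : (n : ℝ) * 1 ≤ n * k := by gcongr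
        nlinarith
  refine far_bound hC hfar hε hA hT1 (by linarith) hρ0 hρ1 hρT hXρ hJ0 hnR hJn ?_ hdist
  have : 0 ≤ J / T := by positivity
  linarith

/-- (b): the main term for a large quotient -/
lemma case_b' {A : ℕ} {γ ε δ T : ℝ} (hε : 0 < ε) (hε1 : ε < 1) (hA : 28 ≤ A * ε) (hγ : ε < γ)
    (hγ1 : γ ≤ 1 / 2) (hδ : 0 < δ)
    (hδε : δ ≤ ε / 64) (hL : Lg γ ε δ T) {h k n : ℕ} (hh : 0 < h) (hk : 0 < k) (hn : 0 < n)
    (hhT : (h : ℝ) ≤ T ^ (γ - ε)) (hbig : T ^ (1 - 2 * δ) < ((n * k : ℕ) : ℝ) / h) (v : ℝ) :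
    ‖IA A (T ^ γ) (2 * Real.pi * (((n * k : ℕ) : ℝ) / h : ℝ) * pv T v)‖ ≤
      (A.factorial : ℝ) * (T ^ (5 : ℕ))⁻¹ * ((n : ℝ) ^ 4)⁻¹ := by
  have hT36 := hL.t36
  have hT1 : 1 ≤ T := by linarith
  have hT0 : 0 < T := by linarith
  have hhR : (0 : ℝ) < h := by exact_mod_cast hh
  have hkR : (1 : ℝ) ≤ k := by exact_mod_cast hk
  have hnR : (0 : ℝ) < n := by exact_mod_cast hn
  set J : ℝ := ((n * k : ℕ) : ℝ) / h with hJdef
  have hJ0 : 0 < J := lt_trans (by positivity) hbig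
  have hJT : T ^ (-(2 * δ)) ≤ J / T := by
    rw [le_div_iff₀ hT0]
    refine le_trans (le_of_eq ?_) hbig.le
    have : T ^ (-(2 * δ)) * T = T ^ (-(2 * δ)) * T ^ (1 : ℝ) := by rw [Real.rpow_one]
    rw [this, ← Real.rpow_add hT0]
    congr 1
    ring
  have hX : 0 < T ^ γ := by positivity
  have hre : (2 * Real.pi * (J : ℝ) * pv T v : ℂ).re = 4 * Real.pi * (J / T) := by
    have : (2 * Real.pi * (J : ℝ) * pv T v : ℂ) = ((2 * Real.pi * J : ℝ) : ℂ) * pv T v := by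
      push_cast; ring
    rw [this, Complex.re_ofReal_mul, pv_re]
    ring
  have hre0 : 0 < (2 * Real.pi * (J : ℝ) * pv T v : ℂ).re := by rw [hre]; positivity
  have h1 := (IA_bound A hX hre0).2
  refine h1.trans ?_
  rw [hre]
  have hA3 : 28 < (A : ℝ) := by nlinarith
  have hA3' : 28 < A := by exact_mod_cast hA3
  obtain ⟨m, hm⟩ : ∃ m, A = m + 3 := ⟨A - 3, by omega⟩
  have hJT0 : 0 < J / T := by positivity
  have hJT4 : J / T ≤ 4 * Real.pi * (J / T) := by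
    have := Real.pi_gt_three
    nlinarith
  have hn1 : (n : ℝ) / T ^ 2 ≤ J / T := by
    rw [div_le_div_iff₀ (by positivity) hT0, hJdef]
    push_cast
    have h1 : (h : ℝ) ≤ T := by
      refine hhT.trans ?_
      calc T ^ (γ - ε) ≤ T ^ (1 : ℝ) := Real.rpow_le_rpow_of_exponent_le hT1 (by linarith)
        _ = T := Real.rpow_one T
    have h2 : (n : ℝ) * h ≤ n * k * T := by
      calc (n : ℝ) * h ≤ n * T := by gcongr
        _ ≤ n * k * T := by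
          have : (n : ℝ) * 1 ≤ n * k := by gcongr
          nlinarith
    rw [div_mul_eq_mul_div, le_div_iff₀ hhR]
    nlinarith
  -- `X^A (J/T)^(A+1) ≥ T^14 (n/T²)^4`
  have key : T ^ (14 : ℕ) * ((n : ℝ) / T ^ 2) ^ 4 ≤ (T ^ γ) ^ A * (4 * Real.pi * (J / T)) ^ (A + 1) := by
    have e1 : (4 * Real.pi * (J / T)) ^ (A + 1) ≥ (J / T) ^ (A + 1) := by gcongr
    have e2 : (J / T) ^ (A + 1) = (J / T) ^ m * (J / T) ^ 4 := by
      rw [hm, ← pow_add]
    have e3 : (T ^ (-(2 * δ))) ^ m ≤ (J / T) ^ m := by gcongr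
    have e4 : (T ^ (-(2 * δ))) ^ A ≤ (T ^ (-(2 * δ))) ^ m := by
      apply pow_le_pow_of_le_one (by positivity)
      · exact Real.rpow_le_one_of_one_le_of_nonpos hT1 (by linarith)
      · omega
    have e5 : T ^ (14 : ℕ) ≤ (T ^ γ) ^ A * (T ^ (-(2 * δ))) ^ A := by
      rw [← mul_pow, ← Real.rpow_add hT0]
      calc T ^ (14 : ℕ) = T ^ (14 : ℝ) := by norm_cast
        _ ≤ T ^ ((γ + -(2 * δ)) * A) := by
            apply Real.rpow_le_rpow_of_exponent_le hT1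
            have : ε / 2 ≤ γ + -(2 * δ) := by linarith
            nlinarith
        _ = (T ^ (γ + -(2 * δ))) ^ A := by rw [Real.rpow_mul hT0.le, Real.rpow_natCast]
    calc T ^ (14 : ℕ) * ((n : ℝ) / T ^ 2) ^ 4
        ≤ ((T ^ γ) ^ A * (T ^ (-(2 * δ))) ^ A) * (J / T) ^ 4 := by gcongr
      _ ≤ ((T ^ γ) ^ A * (J / T) ^ m) * (J / T) ^ 4 := by
          gcongr
          exact e4.trans e3
      _ = (T ^ γ) ^ A * (J / T) ^ (A + 1) := by rw [e2]; ring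
      _ ≤ _ := by gcongr
  have hfac : (0 : ℝ) < (A.factorial : ℝ) := by exact_mod_cast Nat.factorial_pos A
  calc (A.factorial : ℝ) / ((T ^ γ) ^ A * (4 * Real.pi * (J / T)) ^ (A + 1))
      ≤ (A.factorial : ℝ) / (T ^ (14 : ℕ) * ((n : ℝ) / T ^ 2) ^ 4) := by gcongr
    _ = (A.factorial : ℝ) * (T ^ (6 : ℕ))⁻¹ * ((n : ℝ) ^ 4)⁻¹ := by
        field_simp
    _ ≤ _ := by
        gcongr
        norm_num

/-- (c): `n k = h J`, `J ≤ T^(1-2δ)` -/
lemma case_c {A : ℕ} (hA0 : 0 < A) {C : ℝ} (hC : 0 < C) (hnear : ∀ C₀ : ℝ, 1 ≤ C₀ → ∀ y : ℂ,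
    0 < y.re → ∀ j : ℤ, |y.im - 2 * Real.pi * j| ≤ 3 →
    ‖DA A C₀ y - IA A C₀ (y - 2 * Real.pi * Complex.I * j)‖ ≤ C * C₀⁻¹ ^ A)
    {γ ε δ T : ℝ} (hε : 0 < ε) (hA : 28 ≤ A * ε) (hγ : ε < γ) (hγ1 : γ ≤ 1 / 2) (hδ : 0 < δ)
    (hδε : δ ≤ ε / 64) (hL : Lg γ ε δ T) {h k n J' : ℕ} (hh : 0 < h) (hJ' : 0 < J')
    (hnk : n * k = h * J') (hsm : (J' : ℝ) ≤ T ^ (1 - 2 * δ)) {v : ℝ}
    (hv : v ∈ Set.Icc (-T ^ δ) (T ^ δ)) :
    ‖Complex.exp (-(Complex.I * pv T v / 2)) * DA A (T ^ γ) (zv T v h (n * k)) -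
      IA A (T ^ γ) (2 * Real.pi * ((J' : ℝ) : ℂ) * pv T v)‖ ≤ (2 * C + 40) * (T ^ (2 * δ) / J') := by
  have hδ1 : δ < 1 := by linarith
  have hT36 := hL.t36
  have hT1 : 1 ≤ T := by linarith
  have hT0 : 0 < T := by linarith
  have hhR : (0 : ℝ) < h := by exact_mod_cast hh
  have hJR : (1 : ℝ) ≤ J' := by exact_mod_cast hJ'
  have hJ0 : (0 : ℝ) < J' := by linarith
  have hs := geo hδ hδ1 hL.tg hv
  have hpi3 := Real.pi_gt_three
  have hpi4 := Real.pi_lt_d2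
  have hJdef : (((n * k : ℕ) : ℝ) / h) = (J' : ℝ) := by
    rw [hnk]; push_cast; field_simp
  have hsv := small_v hT1 hδ.le (abs_le.mpr hv)
  obtain ⟨hrre, hrn⟩ := rv_facts hT0 hs
  have hrn' : ‖rv T v‖ ≤ 18 * T ^ (δ - 1) := by
    refine hrn.trans ?_
    have : 2 * (2 + |-(2 * Real.pi * v)|) / T = 2 * ((2 + |-(2 * Real.pi * v)|) / T) := by ring
    rw [this]
    linarith
  have hpn : ‖pv T v‖ ≤ 9 * T ^ (δ - 1) := (pv_norm hT0 v).trans hsv
  set y := zv T v h (n * k) with hy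
  set y' : ℂ := ((2 * Real.pi * J' : ℝ) : ℂ) * rv T v with hy'
  set y'' : ℂ := 2 * Real.pi * ((J' : ℝ) : ℂ) * pv T v with hy''
  have hyy : y - 2 * Real.pi * Complex.I * ((J' : ℤ) : ℂ) = y' := by
    rw [hy, zv_eq, hJdef, hy']
    push_cast
    ring
  have hre0 : 0 < y.re := by
    rw [hy, zv_re, hJdef]
    have : 0 < (rv T v).re := lt_of_lt_of_le (by positivity) hrre
    positivity
  have hyre' : 6 * (J' / T) ≤ y'.re := by
    rw [hy', Complex.re_ofReal_mul]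
    calc 6 * ((J' : ℝ) / T) = (6 * J') * (1 / T) := by ring
      _ ≤ (2 * Real.pi * J') * (rv T v).re := by
          apply mul_le_mul _ hrre (by positivity) (by positivity)
          nlinarith
  have hyre'' : y''.re = 4 * Real.pi * (J' / T) := by
    have : y'' = ((2 * Real.pi * J' : ℝ) : ℂ) * pv T v := by
      rw [hy'']; push_cast; ring
    rw [this, Complex.re_ofReal_mul, pv_re]
    ring
  have ha : 0 < 6 * ((J' : ℝ) / T) := by positivity
  have hyre''' : 6 * ((J' : ℝ) / T) ≤ y''.re := by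
    rw [hyre'']
    have : 0 ≤ (J' : ℝ) / T := by positivity
    nlinarith
  have hy''0 : 0 < y''.re := lt_of_lt_of_le ha hyre'''
  have hX : 0 < T ^ γ := by positivity
  have hX1 : 1 ≤ T ^ γ := Real.one_le_rpow hT1 (by linarith)
  -- near
  have him : |y.im - 2 * Real.pi * ((J' : ℤ) : ℝ)| ≤ 3 := by
    rw [hy, zv_im, hJdef]
    have e : 2 * Real.pi * (J' : ℝ) + 2 * Real.pi * (J' : ℝ) * (rv T v).im -
        2 * Real.pi * ((J' : ℤ) : ℝ) = 2 * Real.pi * (J' : ℝ) * (rv T v).im := by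
      push_cast; ring
    rw [e, abs_mul, abs_of_pos (by positivity : 0 < 2 * Real.pi * (J' : ℝ))]
    have h1 : |(rv T v).im| ≤ 18 * T ^ (δ - 1) := (Complex.abs_im_le_norm _).trans hrn'
    have h2 : T ^ (1 - 2 * δ) * T ^ (δ - 1) = (T ^ δ)⁻¹ := by
      rw [← Real.rpow_add hT0, ← Real.rpow_neg hT0.le]
      congr 1
      ring
    have h3 : (T ^ δ)⁻¹ ≤ 1 / 38 := by
      rw [← one_div]
      exact one_div_le_one_div_of_le (by norm_num) hL.t38
    calc 2 * Real.pi * (J' : ℝ) * |(rv T v).im| ≤ 2 * Real.pi * T ^ (1 - 2 * δ) * (18 * T ^ (δ - 1)) := by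
          gcongr
      _ = 36 * Real.pi * (T ^ (1 - 2 * δ) * T ^ (δ - 1)) := by ring
      _ ≤ 36 * Real.pi * (1 / 38) := by rw [h2]; gcongr
      _ ≤ 3 := by linarith
  have h1 := hnear (T ^ γ) hX1 y hre0 (J' : ℤ) him
  rw [hyy] at h1
  -- difference of the integrals
  have hdiff : ‖y' - y''‖ ≤ 2 * Real.pi * J' * (81 * T ^ (2 * δ - 2)) := by
    have e : y' - y'' = ((2 * Real.pi * J' : ℝ) : ℂ) * (rv T v - pv T v) := by
      rw [hy', hy'']; push_cast; ring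
    rw [e, norm_mul, Complex.norm_real, Real.norm_of_nonneg (by positivity)]
    gcongr
    refine (rv_sub_pv hT0 hs).trans ?_
    calc ‖pv T v‖ ^ 2 ≤ (9 * T ^ (δ - 1)) ^ 2 := by gcongr
      _ = 81 * T ^ (2 * δ - 2) := by
          rw [mul_pow, ← Real.rpow_natCast (T ^ (δ - 1)), ← Real.rpow_mul hT0.le]
          norm_num
          congr 1
          ring
  have h2 := IA_diff A hX ha hyre' hyre'''
  have h3 : ‖IA A (T ^ γ) y' - IA A (T ^ γ) y''‖ ≤ 15 * (T ^ (2 * δ) / J') := by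
    refine h2.trans ?_
    rw [div_le_iff₀ (by positivity)]
    refine hdiff.trans ?_
    have e1 : T ^ (2 * δ - 2) = T ^ (2 * δ) / T ^ 2 := by
      rw [Real.rpow_sub hT0]
      norm_num
    rw [e1]
    have e2 : 15 * (T ^ (2 * δ) / (J' : ℝ)) * (6 * ((J' : ℝ) / T)) ^ 2 =
        540 * (J' * (T ^ (2 * δ) / T ^ 2)) := by
      field_simp
      ring
    rw [e2]
    have e3 : 0 ≤ (J' : ℝ) * (T ^ (2 * δ) / T ^ 2) := by positivity
    nlinarith
  have h4 := (IA_bound A hX hy''0).1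
  have h5 : ‖Complex.exp (-(Complex.I * pv T v / 2)) - 1‖ * ‖IA A (T ^ γ) y''‖ ≤
      T ^ (2 * δ) / J' := by
    have h6 : ‖Complex.exp (-(Complex.I * pv T v / 2)) - 1‖ ≤ 9 * T ^ (δ - 1) :=
      (exp_half_sub hT0 hs).trans hpn
    have h7 : ‖IA A (T ^ γ) y''‖ ≤ T / (12 * J') := by
      refine h4.trans ?_
      rw [hyre'', div_le_div_iff₀ (by positivity) (by positivity)]
      have : T * (4 * Real.pi * ((J' : ℝ) / T)) = 4 * Real.pi * J' := by field_simp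
      rw [this]
      nlinarith
    calc _ ≤ (9 * T ^ (δ - 1)) * (T / (12 * J')) := mul_le_mul h6 h7 (norm_nonneg _) (by positivity)
      _ = (9 / 12) * (T ^ (δ - 1) * T / J') := by ring
      _ = (9 / 12) * (T ^ δ / J') := by
          congr 2
          have : T ^ (δ - 1) * T = T ^ (δ - 1) * T ^ (1 : ℝ) := by rw [Real.rpow_one]
          rw [this, ← Real.rpow_add hT0]
          congr 1
          ring
      _ ≤ 1 * (T ^ (2 * δ) / J') := by
          gcongr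
          · norm_num
          · linarith
      _ = _ := one_mul _
  have hXA : (T ^ γ)⁻¹ ^ A ≤ T ^ (2 * δ) / J' := by
    have h6 : (T ^ γ)⁻¹ ^ A ≤ T⁻¹ := by
      rw [inv_pow]
      apply inv_anti₀ hT0
      calc T = T ^ (1 : ℝ) := (Real.rpow_one T).symm
        _ ≤ T ^ (γ * A) := by
            apply Real.rpow_le_rpow_of_exponent_le hT1
            have : (A : ℝ) * ε ≤ A * γ := by gcongr
            linarith
        _ = (T ^ γ) ^ A := by rw [Real.rpow_mul hT0.le, Real.rpow_natCast]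
    refine h6.trans ?_
    rw [inv_eq_one_div, div_le_div_iff₀ hT0 hJ0, one_mul]
    calc (J' : ℝ) ≤ T ^ (1 - 2 * δ) := hsm
      _ ≤ T ^ (1 : ℝ) := Real.rpow_le_rpow_of_exponent_le hT1 (by linarith)
      _ = 1 * T := by rw [Real.rpow_one, one_mul]
      _ ≤ T ^ (2 * δ) * T := by
          gcongr
          exact Real.one_le_rpow hT1 (by linarith)
  have hE := exp_half_norm hT0 hs
  set E := Complex.exp (-(Complex.I * pv T v / 2)) with hEdef
  have hdec : E * DA A (T ^ γ) y - IA A (T ^ γ) y'' =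
      E * (DA A (T ^ γ) y - IA A (T ^ γ) y') + E * (IA A (T ^ γ) y' - IA A (T ^ γ) y'') +
      (E - 1) * IA A (T ^ γ) y'' := by ring
  rw [hdec]
  refine (norm_add₃_le).trans ?_
  rw [norm_mul, norm_mul, norm_mul]
  have g1 : ‖E‖ * ‖DA A (T ^ γ) y - IA A (T ^ γ) y'‖ ≤ 2 * (C * (T ^ (2 * δ) / J')) := by
    apply mul_le_mul hE _ (norm_nonneg _) (by norm_num)
    exact h1.trans (mul_le_mul_of_nonneg_left hXA hC.le)
  have g2 : ‖E‖ * ‖IA A (T ^ γ) y' - IA A (T ^ γ) y''‖ ≤ 2 * (15 * (T ^ (2 * δ) / J')) :=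
    mul_le_mul hE h3 (norm_nonneg _) (by norm_num)
  have g3 : 0 ≤ T ^ (2 * δ) / (J' : ℝ) := by positivity
  linarith

end Pool.Agent.SixT
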