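import Mathlib
import Pool.Agent.Lib_MP_112ba8_t.M3SplitC

/-!
The second sum of the splitting of the twisted third moment.
-/

namespace Pool.Agent.SixT

open Filter Topology MeasureTheory
open Pool.Agent.EvenMoment (cl Wgt Sz)

lemma int_le {S : Set ℝ} {G F : ℝ → ℂ} (hS : MeasurableSet S) (hG : Integrable G) {B : ℝ}
    (hB : 0 ≤ B) (hF : ∀ v ∈ S, ‖F v‖ ≤ B) : ‖∫ v in S, G v * F v‖ ≤ B * ∫ v, ‖G v‖ := by
  have h1 : ‖∫ v in S, G v * F v‖ ≤ ∫ v in S, B * ‖G v‖ := by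
    refine norm_integral_le_of_norm_le (hG.norm.integrableOn.const_mul B) ?_
    filter_upwards [ae_restrict_mem hS] with v hv
    rw [norm_mul, mul_comm]
    exact mul_le_mul_of_nonneg_right (hF v hv) (norm_nonneg _)
  refine h1.trans ?_
  rw [integral_const_mul]
  apply mul_le_mul_of_nonneg_left _ hB
  exact setIntegral_le_integral hG.norm (ae_of_all _ fun v => norm_nonneg _)

lemma IAp_re {T J : ℝ} (v : ℝ) : (2 * Real.pi * (J : ℂ) * pv T v : ℂ).re = 4 * Real.pi * (J / T) := by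
  have : (2 * Real.pi * (J : ℂ) * pv T v : ℂ) = ((2 * Real.pi * J : ℝ) : ℂ) * pv T v := by
    push_cast; ring
  rw [this, Complex.re_ofReal_mul, pv_re]
  ring

lemma IA_norm_le (A : ℕ) {X T J : ℝ} (hX : 0 < X) (hT : 0 < T) (hJ : 0 < J) (v : ℝ) :
    ‖IA A X (2 * Real.pi * (J : ℂ) * pv T v)‖ ≤ T / J := by
  have hpi := Real.pi_gt_three
  have h0 : 0 < (2 * Real.pi * (J : ℂ) * pv T v : ℂ).re := by rw [IAp_re]; positivity
  refine (IA_bound A hX h0).1.trans ?_
  rw [IAp_re, div_le_div_iff₀ (by positivity) hJ]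
  have : T * (4 * Real.pi * (J / T)) = 4 * Real.pi * J := by field_simp
  rw [this]
  nlinarith

lemma IA_cont (A : ℕ) {X T J : ℝ} (hX : 0 < X) (hT : 0 < T) (hJ : 0 < J) :
    Continuous fun v : ℝ => IA A X (2 * Real.pi * (J : ℂ) * pv T v) := by
  rw [continuous_iff_continuousAt]
  intro u
  have ha : 0 < 4 * Real.pi * (J / T) := by positivity
  unfold ContinuousAt
  rw [tendsto_iff_norm_sub_tendsto_zero]
  have hc : Continuous fun v : ℝ => (2 * Real.pi * (J : ℂ) * pv T v) := by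
    unfold pv
    fun_prop
  have hlim : Tendsto (fun v : ℝ => ‖(2 * Real.pi * (J : ℂ) * pv T v) -
      (2 * Real.pi * (J : ℂ) * pv T u)‖ / (4 * Real.pi * (J / T)) ^ 2) (𝓝 u) (𝓝 0) := by
    have h1 : Continuous fun v : ℝ => ‖(2 * Real.pi * (J : ℂ) * pv T v) -
      (2 * Real.pi * (J : ℂ) * pv T u)‖ / (4 * Real.pi * (J / T)) ^ 2 := by fun_prop
    have h2 := h1.tendsto u
    simpa using h2
  refine squeeze_zero (fun v => norm_nonneg _) (fun v => ?_) hlim
  exact IA_diff A hX ha (IAp_re v).ge (IAp_re u).ge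

lemma IA_int {w : ℝ → ℝ} {G : ℝ → ℂ} (hG : GG w G) (A : ℕ) {X T J : ℝ} (hX : 0 < X) (hT : 0 < T)
    (hJ : 0 < J) : Integrable fun v : ℝ => G v * IA A X (2 * Real.pi * (J : ℂ) * pv T v) :=
  Integrable.mul_bdd (c := T / J) hG.int (IA_cont A hX hT hJ).aestronglyMeasurable
    (ae_of_all _ fun v => IA_norm_le A hX hT hJ v)

/-- one term -/
theorem term_bound {w : ℝ → ℝ} {G : ℝ → ℂ} (hG : GG w G) {γ ε δ : ℝ} (hε : 0 < ε)
    (hγ : ε < γ) (hγ1 : γ ≤ 1 / 2) (hδ : 0 < δ) (hδε : δ ≤ ε / 64) {A : ℕ} (hA : 28 ≤ A * ε) :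
    ∃ K T₀ : ℝ, 0 < K ∧ TG δ ≤ T₀ ∧ (∀ T : ℝ, T₀ ≤ T → Lg γ ε δ T) ∧
    ∀ T : ℝ, T₀ ≤ T → ∀ h k : ℕ, 0 < h → 0 < k →
    (h : ℝ) ≤ T ^ (γ - ε) → ∀ n : ℕ, 0 < n →
    ‖(∫ v in Set.Icc (-T ^ δ) (T ^ δ), G v * (Complex.exp (-(Complex.I * pv T v / 2)) *
        DA A (T ^ γ) (zv T v h (n * k)))) -
      (if h ∣ n * k then ∫ v, G v * IA A (T ^ γ) (2 * Real.pi *
        ((((n * k : ℕ) : ℝ) / h : ℝ) : ℂ) * pv T v) else 0)‖ ≤
      K * (T ^ (4 * δ) * ((h : ℝ) / k) * (n : ℝ) ^ (-1 - δ) + (T ^ (5 : ℕ))⁻¹ * ((n : ℝ) ^ 4)⁻¹) := by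
  have hε1 : ε < 1 := by linarith
  have hδ1 : δ < 1 := by linarith
  have hA0 : 0 < A := by
    rcases Nat.eq_zero_or_pos A with h | h
    · subst h; norm_num at hA
    · exact h
  obtain ⟨C, hC, hfar⟩ := DA_far hA0
  obtain ⟨C', hC', hnear⟩ := DA_near hA0
  obtain ⟨T₀, hT₀, hLg⟩ := exists_Lg (γ := γ) (ε := ε) hδ (by linarith)
  set D := ∫ v, ‖G v‖ with hD
  have hD0 : 0 ≤ D := integral_nonneg fun v => norm_nonneg _
  obtain ⟨N, hN⟩ := exists_nat_ge (1 / δ)
  set E := ∫ v : ℝ, |v| ^ N * ‖G v‖ with hE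
  have hE0 : 0 ≤ E := integral_nonneg fun v => by positivity
  have hf0 : (0 : ℝ) < (A.factorial : ℝ) := by exact_mod_cast Nat.factorial_pos A
  refine ⟨(2 * C' + 40) * D + E + (48 * C * D + A.factorial * D) + 1, T₀, by positivity, hT₀, hLg,
    fun T hT h k hh hk hhT n hn => ?_⟩
  have hL := hLg T hT
  have hT36 := hL.t36
  have hT1 : 1 ≤ T := by linarith
  have hT0 : 0 < T := by linarith
  have hhR : (0 : ℝ) < h := by exact_mod_cast hh
  have hkR : (1 : ℝ) ≤ k := by exact_mod_cast hk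
  have hkR0 : (0 : ℝ) < k := by linarith
  have hnR : (0 : ℝ) < n := by exact_mod_cast hn
  have hX : 0 < T ^ γ := by positivity
  set S := Set.Icc (-T ^ δ) (T ^ δ) with hS
  have hSm : MeasurableSet S := measurableSet_Icc
  set J : ℝ := ((n * k : ℕ) : ℝ) / h with hJdef
  have hJ0 : 0 < J := by
    rw [hJdef]
    have : 0 < n * k := Nat.mul_pos hn hk
    positivity
  set b1 : ℝ := T ^ (4 * δ) * ((h : ℝ) / k) * (n : ℝ) ^ (-1 - δ) with hb1
  set b2 : ℝ := (T ^ (5 : ℕ))⁻¹ * ((n : ℝ) ^ 4)⁻¹ with hb2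
  have hb10 : 0 ≤ b1 := by rw [hb1]; positivity
  have hb20 : 0 ≤ b2 := by rw [hb2]; positivity
  have hEn : ∀ v ∈ S, ‖Complex.exp (-(Complex.I * pv T v / 2))‖ ≤ 2 := fun v hv =>
    exp_half_norm hT0 (geo hδ hδ1 hL.tg hv)
  have hsmall : (∀ v ∈ S, ‖DA A (T ^ γ) (zv T v h (n * k))‖ ≤ 24 * C * (T ^ (5 : ℕ))⁻¹ * ((n : ℝ) ^ 4)⁻¹) →
      ‖∫ v in S, G v * (Complex.exp (-(Complex.I * pv T v / 2)) * DA A (T ^ γ) (zv T v h (n * k)))‖ ≤
        48 * C * D * b2 := by
    intro hb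
    have h1 := int_le (S := S) (G := G) (F := fun v => Complex.exp (-(Complex.I * pv T v / 2)) *
      DA A (T ^ γ) (zv T v h (n * k))) hSm hG.int
      (B := 2 * (24 * C * (T ^ (5 : ℕ))⁻¹ * ((n : ℝ) ^ 4)⁻¹)) (by positivity) (fun v hv => by
        rw [norm_mul]
        exact mul_le_mul (hEn v hv) (hb v hv) (norm_nonneg _) (by norm_num))
    refine h1.trans (le_of_eq ?_)
    rw [hb2]
    ring
  by_cases hdvd : h ∣ n * k
  · rw [if_pos hdvd]
    rcases le_or_gt J (T ^ (1 - 2 * δ)) with hc | hc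
    · -- case (c)
      obtain ⟨J', hJ'⟩ := hdvd
      have hJJ : J = (J' : ℝ) := by
        rw [hJdef, hJ']; push_cast; field_simp
      have hJ'0 : 0 < J' := by
        rw [hJJ] at hJ0
        exact_mod_cast hJ0
      have hdecomp : (∫ v in S, G v * (Complex.exp (-(Complex.I * pv T v / 2)) *
          DA A (T ^ γ) (zv T v h (n * k)))) -
          ∫ v, G v * IA A (T ^ γ) (2 * Real.pi * (J : ℂ) * pv T v) =
          (∫ v in S, G v * (Complex.exp (-(Complex.I * pv T v / 2)) * DA A (T ^ γ) (zv T v h (n * k)) -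
            IA A (T ^ γ) (2 * Real.pi * (J : ℂ) * pv T v))) -
          ∫ v in Sᶜ, G v * IA A (T ^ γ) (2 * Real.pi * (J : ℂ) * pv T v) := by
        have hI := IA_int hG A hX hT0 hJ0
        rw [← integral_add_compl hSm hI]
        have hI2 : IntegrableOn (fun v => G v * (Complex.exp (-(Complex.I * pv T v / 2)) *
            DA A (T ^ γ) (zv T v h (n * k)))) S := by
          refine ContinuousOn.integrableOn_compact isCompact_Icc ?_
          refine ContinuousOn.mul hG.cont.continuousOn (ContinuousOn.mul (pre_cont T).continuousOn ?_)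
          intro v hv
          have h1 : 0 < (zv T v h (n * k)).re :=
            zv_re_pos hT0 (geo hδ hδ1 hL.tg hv) hh (Nat.mul_pos hn hk)
          exact (ContinuousAt.comp (f := fun v : ℝ => zv T v h (n * k)) (DA_contAt A hX h1)
            (zv_cont T h (n * k)).continuousAt).continuousWithinAt
        have e : (∫ v in S, G v * (Complex.exp (-(Complex.I * pv T v / 2)) *
            DA A (T ^ γ) (zv T v h (n * k)) - IA A (T ^ γ) (2 * Real.pi * (J : ℂ) * pv T v))) =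
            (∫ v in S, G v * (Complex.exp (-(Complex.I * pv T v / 2)) *
              DA A (T ^ γ) (zv T v h (n * k)))) -
            ∫ v in S, G v * IA A (T ^ γ) (2 * Real.pi * (J : ℂ) * pv T v) := by
          rw [← integral_sub hI2 hI.integrableOn]
          refine integral_congr_ae (ae_of_all _ fun v => ?_)
          simp only
          ring
        rw [e]
        ring
      rw [hdecomp]
      have hTJ : T ^ (2 * δ) / J ≤ b1 := by
        have h1 : (n : ℝ) ≤ T ^ (2 : ℝ) := by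
          have h2 : (n : ℝ) * k ≤ h * T ^ (1 - 2 * δ) := by
            have h3 : ((n * k : ℕ) : ℝ) ≤ T ^ (1 - 2 * δ) * h := by
              rwa [hJdef, div_le_iff₀ hhR] at hc
            push_cast at h3
            linarith
          calc (n : ℝ) = n * 1 := (mul_one _).symm
            _ ≤ n * k := by gcongr
            _ ≤ h * T ^ (1 - 2 * δ) := h2
            _ ≤ T ^ (γ - ε) * T ^ (1 - 2 * δ) := by gcongr
            _ = T ^ (γ - ε + (1 - 2 * δ)) := by rw [← Real.rpow_add hT0]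
            _ ≤ T ^ (2 : ℝ) := Real.rpow_le_rpow_of_exponent_le hT1 (by linarith)
        have h4 : (n : ℝ) ^ δ ≤ T ^ (2 * δ) := by
          calc (n : ℝ) ^ δ ≤ (T ^ (2 : ℝ)) ^ δ := Real.rpow_le_rpow hnR.le h1 hδ.le
            _ = T ^ (2 * δ) := by rw [← Real.rpow_mul hT0.le]
        have h5 : (n : ℝ) ^ (-1 - δ) = (n : ℝ)⁻¹ * ((n : ℝ) ^ δ)⁻¹ := by
          rw [← Real.rpow_neg hnR.le, ← Real.rpow_neg_one, ← Real.rpow_add hnR]
          congr 1
        have h6 : T ^ (4 * δ) = T ^ (2 * δ) * T ^ (2 * δ) := by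
          rw [← Real.rpow_add hT0]
          congr 1
          ring
        have h7 : J = n * k / h := by rw [hJdef]; push_cast; rfl
        have hnd : 0 < (n : ℝ) ^ δ := by positivity
        rw [hb1, h5, h6, h7]
        calc T ^ (2 * δ) / (n * k / h) = T ^ (2 * δ) * (h / k) * (n : ℝ)⁻¹ * 1 := by
              field_simp
          _ ≤ T ^ (2 * δ) * (h / k) * (n : ℝ)⁻¹ * (T ^ (2 * δ) * ((n : ℝ) ^ δ)⁻¹) := by
              gcongr
              rw [← div_eq_mul_inv, one_le_div hnd]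
              exact h4
          _ = _ := by ring
      have g1 : ‖∫ v in S, G v * (Complex.exp (-(Complex.I * pv T v / 2)) *
          DA A (T ^ γ) (zv T v h (n * k)) - IA A (T ^ γ) (2 * Real.pi * (J : ℂ) * pv T v))‖ ≤
          (2 * C' + 40) * D * b1 := by
        have h1 := int_le (S := S) (G := G) (F := fun v => Complex.exp (-(Complex.I * pv T v / 2)) *
          DA A (T ^ γ) (zv T v h (n * k)) - IA A (T ^ γ) (2 * Real.pi * (J : ℂ) * pv T v)) hSm hG.int
          (B := (2 * C' + 40) * (T ^ (2 * δ) / J)) (by positivity) (fun v hv => by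
            have := case_c hA0 hC' hnear hε hA hγ hγ1 hδ hδε hL hh hJ'0 hJ' (by rwa [← hJJ]) hv
            rw [hJJ]
            exact this)
        refine h1.trans ?_
        calc (2 * C' + 40) * (T ^ (2 * δ) / J) * D ≤ (2 * C' + 40) * b1 * D := by gcongr
          _ = _ := by ring
      have g2 : ‖∫ v in Sᶜ, G v * IA A (T ^ γ) (2 * Real.pi * (J : ℂ) * pv T v)‖ ≤ E * b1 := by
        have hV0 : 0 < T ^ δ := by positivity
        have h1 := e8_tail hG N hV0
        rw [← hE] at h1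
        have h2 : ‖∫ v in Sᶜ, G v * IA A (T ^ γ) (2 * Real.pi * (J : ℂ) * pv T v)‖ ≤
            ∫ v in Sᶜ, T / J * ‖G v‖ := by
          refine norm_integral_le_of_norm_le (hG.int.norm.integrableOn.const_mul _) ?_
          refine ae_of_all _ fun v => ?_
          rw [norm_mul, mul_comm]
          exact mul_le_mul_of_nonneg_right (IA_norm_le A hX hT0 hJ0 v) (norm_nonneg _)
        rw [integral_const_mul] at h2
        refine h2.trans ?_
        have h3 : (T ^ δ)⁻¹ ^ N ≤ T⁻¹ := by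
          rw [inv_pow]
          apply inv_anti₀ hT0
          calc T = T ^ (1 : ℝ) := (Real.rpow_one T).symm
            _ ≤ T ^ (δ * N) := by
                apply Real.rpow_le_rpow_of_exponent_le hT1
                rw [div_le_iff₀ hδ] at hN
                linarith
            _ = (T ^ δ) ^ N := by rw [Real.rpow_mul hT0.le, Real.rpow_natCast]
        have h4 : 1 ≤ T ^ (2 * δ) := Real.one_le_rpow hT1 (by linarith)
        calc T / J * ∫ v in Sᶜ, ‖G v‖ ≤ T / J * (T⁻¹ * E) := by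
              gcongr
              exact h1.trans (mul_le_mul_of_nonneg_right h3 hE0)
          _ = E * (1 / J) := by field_simp
          _ ≤ E * (T ^ (2 * δ) / J) := by gcongr
          _ ≤ E * b1 := by gcongr
      refine (norm_sub_le _ _).trans ?_
      have g3 : 0 ≤ (48 * C * D + A.factorial * D) * b1 := by positivity
      have g4 : 0 ≤ ((2 * C' + 40) * D + E + (48 * C * D + A.factorial * D) + 1) * b2 := by positivity
      linarith
    · -- case (b)
      have g1 := hsmall fun v hv => case_b hC hfar hε hA hγ hγ1 hδ hδε hL hh hk hn hhT hc hv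
      have g2 : ‖∫ v, G v * IA A (T ^ γ) (2 * Real.pi * (J : ℂ) * pv T v)‖ ≤
          A.factorial * D * b2 := by
        have h1 := int_le (S := Set.univ) (G := G)
          (F := fun v => IA A (T ^ γ) (2 * Real.pi * (J : ℂ) * pv T v)) MeasurableSet.univ hG.int
          (B := (A.factorial : ℝ) * (T ^ (5 : ℕ))⁻¹ * ((n : ℝ) ^ 4)⁻¹) (by positivity) (fun v _ =>
            case_b' hε hε1 hA hγ hγ1 hδ hδε hL hh hk hn hhT hc v)
        rw [setIntegral_univ] at h1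
        refine h1.trans (le_of_eq ?_)
        rw [hb2]
        ring
      refine (norm_sub_le _ _).trans ?_
      have g3 : 0 ≤ ((2 * C' + 40) * D + E + 1) * b2 := by positivity
      have g4 : 0 ≤ ((2 * C' + 40) * D + E + (48 * C * D + A.factorial * D) + 1) * b1 := by positivity
      linarith
  · rw [if_neg hdvd, sub_zero]
    have g1 := hsmall fun v hv => case_a hC hfar hε hA hγ hγ1 hδ hδε hL hh hk hn hhT hdvd hv
    have g3 : 0 ≤ ((2 * C' + 40) * D + E + A.factorial * D + 1) * b2 := by positivity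
    have g4 : 0 ≤ ((2 * C' + 40) * D + E + (48 * C * D + A.factorial * D) + 1) * b1 := by positivity
    linarith

/-- the main term of one summand -/
lemma main_term {w : ℝ → ℝ} (hw : Wgt w) {G : ℝ → ℂ} (hG : GG w G) (A : ℕ) {X T : ℝ} (hX : 0 < X)
    (hT : 0 < T) {h k n : ℕ} (hh : 0 < h) (hk : 0 < k) (hn : 0 < n) :
    (2 * Real.pi * Real.sqrt ((k : ℝ) / h) : ℂ) * ((n.divisors.card : ℂ) *
      ∫ v, G v * IA A X (2 * Real.pi * ((((n * k : ℕ) : ℝ) / h : ℝ) : ℂ) * pv T v)) =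
    ((T * Real.sqrt ((h : ℝ) / k) * ((n.divisors.card : ℝ) / n *
      ∫ u, w u * (1 - Real.exp (-(u * T * h / (2 * Real.pi * n * k * X)))) ^ A) : ℝ) : ℂ) := by
  have hhR : (0 : ℝ) < h := by exact_mod_cast hh
  have hkR : (0 : ℝ) < k := by exact_mod_cast hk
  have hnR : (0 : ℝ) < n := by exact_mod_cast hn
  have hnk : 0 < n * k := Nat.mul_pos hn hk
  have hJ : 0 < ((n * k : ℕ) : ℝ) / h := by positivity
  have h1 := IA_wgt hw hG A hX hT hJ
  rw [h1]
  have h2 : ∀ u : ℝ, u * T / (2 * Real.pi * (((n * k : ℕ) : ℝ) / h) * X) =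
      u * T * h / (2 * Real.pi * n * k * X) := by
    intro u
    push_cast
    field_simp
  simp only [h2]
  have h3 : Real.sqrt ((k : ℝ) / h) * (h / k) = Real.sqrt ((h : ℝ) / k) := by
    have e1 : (h : ℝ) / k = Real.sqrt ((h : ℝ) / k) * Real.sqrt ((h : ℝ) / k) :=
      (Real.mul_self_sqrt (by positivity)).symm
    have e2 : Real.sqrt ((k : ℝ) / h) * Real.sqrt ((h : ℝ) / k) = 1 := by
      rw [← Real.sqrt_mul (by positivity)]
      have : (k : ℝ) / h * (h / k) = 1 := by field_simp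
      rw [this, Real.sqrt_one]
    calc Real.sqrt ((k : ℝ) / h) * (h / k) =
        (Real.sqrt ((k : ℝ) / h) * Real.sqrt ((h : ℝ) / k)) * Real.sqrt ((h : ℝ) / k) := by
          rw [mul_assoc, ← e1]
      _ = _ := by rw [e2, one_mul]
  rw [← h3]
  generalize (∫ u, w u * (1 - Real.exp (-(u * T * h / (2 * Real.pi * n * k * X)))) ^ A) = I
  push_cast
  field_simp

theorem second_sum {w : ℝ → ℝ} (hw : Wgt w) {G : ℝ → ℂ} (hG : GG w G) {γ ε δ : ℝ} (hε : 0 < ε)
    (hγ : ε < γ) (hγ1 : γ ≤ 1 / 2) (hδ : 0 < δ) (hδε : δ ≤ ε / 64) {A : ℕ} (hA : 28 ≤ A * ε) :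
    ∃ C T₀ : ℝ, 0 < C ∧ TG δ ≤ T₀ ∧ ∀ T : ℝ, T₀ ≤ T → ∀ h k : ℕ, 0 < h → 0 < k →
    (h : ℝ) ≤ T ^ (γ - ε) → (k : ℝ) ≤ T →
    IntegrableOn (fun v => pf G T h k v *
      ∑' m : ℕ, ((Nat.divisors (m + 1)).card : ℂ) * DA A (T ^ γ) (((m : ℂ) + 1) * zv T v h k))
      (Set.Icc (-T ^ δ) (T ^ δ)) ∧
    ‖(∫ v in Set.Icc (-T ^ δ) (T ^ δ), pf G T h k v *
      ∑' m : ℕ, ((Nat.divisors (m + 1)).card : ℂ) * DA A (T ^ γ) (((m : ℂ) + 1) * zv T v h k)) -
      ((T * Real.sqrt ((h : ℝ) / k) * ∑' m : ℕ, (if 0 < m ∧ h ∣ m * k then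
        ((Nat.divisors m).card : ℝ) / m *
          ∫ u, w u * (1 - Real.exp (-(u * T * h / (2 * Real.pi * m * k * T ^ γ)))) ^ A
        else 0) : ℝ) : ℂ)‖ ≤ C * (T ^ (4 * δ) * Real.sqrt ((h : ℝ) / k) + 1) := by
  have hε1 : ε < 1 := by linarith
  have hδ1 : δ < 1 := by linarith
  have hA0 : 0 < A := by
    rcases Nat.eq_zero_or_pos A with h | h
    · subst h; norm_num at hA
    · exact h
  obtain ⟨C, hC, hfar⟩ := DA_far hA0
  obtain ⟨K, T₀, hK, hT₀, hLg, hterm⟩ := term_bound hG hε hγ hγ1 hδ hδε hA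
  obtain ⟨Cd, hCd, hdiv⟩ := T2ext.div_bound (ε := δ / 2) (by linarith)
  have hsum1 : Summable fun m : ℕ => (((m + 1 : ℕ) : ℝ)) ^ (-1 - δ / 2) := by
    refine (summable_nat_add_iff 1).mpr (Real.summable_nat_rpow.mpr (by linarith))
  have hsum2 : Summable fun m : ℕ => (((m + 1 : ℕ) : ℝ)) ^ (-3 : ℝ) := by
    refine (summable_nat_add_iff 1).mpr (Real.summable_nat_rpow.mpr (by norm_num))
  set Z1 := ∑' m : ℕ, (((m + 1 : ℕ) : ℝ)) ^ (-1 - δ / 2) with hZ1
  set Z2 := ∑' m : ℕ, (((m + 1 : ℕ) : ℝ)) ^ (-3 : ℝ) with hZ2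
  have hZ1p : 0 ≤ Z1 := tsum_nonneg fun c => by positivity
  have hZ2p : 0 ≤ Z2 := tsum_nonneg fun c => by positivity
  refine ⟨8 * K * Cd * Z1 + 8 * K * Z2 + 1, T₀, by positivity, hT₀, fun T hT h k hh hk hhT hkT => ?_⟩
  have hL := hLg T hT
  have hT36 := hL.t36
  have hT1 : 1 ≤ T := by linarith
  have hT0 : 0 < T := by linarith
  have hhR : (0 : ℝ) < h := by exact_mod_cast hh
  have hh1 : (1 : ℝ) ≤ h := by exact_mod_cast hh
  have hkR : (0 : ℝ) < k := by exact_mod_cast hk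
  have hX0 : 0 < T ^ γ := by positivity
  have hX1 : 1 ≤ T ^ γ := Real.one_le_rpow hT1 (by linarith)
  set X := T ^ γ with hX
  set S := Set.Icc (-T ^ δ) (T ^ δ) with hSdef
  have hS : MeasurableSet S := measurableSet_Icc
  have hPI : IntegrableOn (pf G T h k) S := pf_int hG T (T ^ δ) h k
  set r : ℝ := 6 * (((k : ℝ) / h) / T) with hr
  have hr0 : 0 < r := by rw [hr]; positivity
  have hre : ∀ m : ℕ, ∀ v ∈ S, ((m : ℝ) + 1) * r ≤ ((((m : ℂ) + 1) * zv T v h k)).re := by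
    intro m v hv
    have h1 := zv_re_ge hT0 (geo hδ hδ1 hL.tg hv) (h := h) (r := k)
    have h2 : (((m : ℂ) + 1) * zv T v h k).re = ((m : ℝ) + 1) * (zv T v h k).re := by
      have : ((m : ℂ) + 1) = (((m : ℝ) + 1 : ℝ) : ℂ) := by push_cast; rfl
      rw [this, Complex.re_ofReal_mul]
    rw [h2]
    gcongr
  set F : ℕ → ℝ → ℂ := fun m v =>
    ((Nat.divisors (m + 1)).card : ℂ) * DA A X (((m : ℂ) + 1) * zv T v h k) with hF
  have hFc : ∀ m, ContinuousOn (F m) S := by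
    intro m
    refine ContinuousOn.mul continuousOn_const ?_
    intro v hv
    have h1 : 0 < ((((m : ℂ) + 1) * zv T v h k)).re := lt_of_lt_of_le (by positivity) (hre m v hv)
    have h3 : ContinuousAt (fun v : ℝ => ((m : ℂ) + 1) * zv T v h k) v :=
      (continuous_const.mul (zv_cont T h k)).continuousAt
    exact (ContinuousAt.comp (f := fun v : ℝ => ((m : ℂ) + 1) * zv T v h k)
      (DA_contAt A hX0 h1) h3).continuousWithinAt
  set ρ : ℝ := min 1 r with hρ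
  have hρ0 : 0 < ρ := lt_min one_pos hr0
  have hρ1 : ρ ≤ 1 := min_le_left _ _
  have hFb : ∀ m, ∀ v ∈ S, ‖F m v‖ ≤ ((m + 1 : ℕ) : ℝ) * (C * (X * ρ)⁻¹ ^ A * ρ⁻¹ *
      Real.exp (-(((m + 1 : ℕ) : ℝ) * r))) := by
    intro m v hv
    rw [hF]
    simp only
    rw [norm_mul, Complex.norm_natCast]
    have h1 := hre m v hv
    have h0 : 0 < ((((m : ℂ) + 1) * zv T v h k)).re := lt_of_lt_of_le (by positivity) h1
    have h2 := hfar X ρ hX1 hρ0 hρ1 (((m : ℂ) + 1) * zv T v h k) h0 (fun j => by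
      refine le_trans ?_ (norm_ge_re _ j h0)
      refine (min_le_right _ _).trans (le_trans ?_ h1)
      have : (0 : ℝ) ≤ m := Nat.cast_nonneg m
      nlinarith)
    apply mul_le_mul _ _ (norm_nonneg _) (by positivity)
    · exact_mod_cast Nat.card_divisors_le_self (m + 1)
    · refine h2.trans ?_
      gcongr
      push_cast
      exact h1
  have hbs : Summable fun m : ℕ => ((m + 1 : ℕ) : ℝ) * (C * (X * ρ)⁻¹ ^ A * ρ⁻¹ *
      Real.exp (-(((m + 1 : ℕ) : ℝ) * r))) := by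
    have h1 := Real.summable_pow_mul_exp_neg_nat_mul 1 hr0
    have h2 := ((summable_nat_add_iff 1).mpr h1).mul_left (C * (X * ρ)⁻¹ ^ A * ρ⁻¹)
    refine h2.congr fun m => ?_
    have : Real.exp (-(((m + 1 : ℕ) : ℝ) * r)) = Real.exp (-r * ((m + 1 : ℕ) : ℝ)) := by
      congr 1; ring
    rw [this]
    ring
  obtain ⟨hI1, hI2⟩ := interchange hS hPI F hFc _ hbs hFb
  refine ⟨hI1, ?_⟩
  -- the main terms
  set M : ℕ → ℝ := fun m => if 0 < m ∧ h ∣ m * k then
        ((Nat.divisors m).card : ℝ) / m *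
          ∫ u, w u * (1 - Real.exp (-(u * T * h / (2 * Real.pi * m * k * X)))) ^ A
        else 0 with hM
  have hone : ∀ m : ℕ, ‖(∫ v in S, pf G T h k v * F m v) -
      ((T * Real.sqrt ((h : ℝ) / k) * M (m + 1) : ℝ) : ℂ)‖ ≤
      (8 * K * Cd * (T ^ (4 * δ) * Real.sqrt ((h : ℝ) / k))) * (((m + 1 : ℕ) : ℝ)) ^ (-1 - δ / 2) +
      (8 * K) * (((m + 1 : ℕ) : ℝ)) ^ (-3 : ℝ) := by
    intro m
    set n : ℕ := m + 1 with hn
    have hn0 : 0 < n := Nat.succ_pos m
    have hnR : (0 : ℝ) < n := by exact_mod_cast hn0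
    have hncast : ((m : ℝ) + 1) = (n : ℝ) := by rw [hn]; push_cast; rfl
    have hncastC : ((m : ℂ) + 1) = (n : ℂ) := by rw [hn]; push_cast; rfl
    have e1 : (∫ v in S, pf G T h k v * F m v) =
        (2 * Real.pi * Real.sqrt ((k : ℝ) / h) : ℂ) * ((n.divisors.card : ℂ) *
        ∫ v in S, G v * (Complex.exp (-(Complex.I * pv T v / 2)) * DA A X (zv T v h (n * k)))) := by
      rw [← integral_const_mul, ← integral_const_mul]
      refine integral_congr_ae (ae_of_all _ fun v => ?_)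
      simp only [hF, pf]
      rw [hncastC, mul_zv]
      ring
    have e2 : ((T * Real.sqrt ((h : ℝ) / k) * M n : ℝ) : ℂ) =
        (2 * Real.pi * Real.sqrt ((k : ℝ) / h) : ℂ) * ((n.divisors.card : ℂ) *
        (if h ∣ n * k then ∫ v, G v * IA A X (2 * Real.pi *
          ((((n * k : ℕ) : ℝ) / h : ℝ) : ℂ) * pv T v) else 0)) := by
      rw [hM]
      simp only
      by_cases hd : h ∣ n * k
      · rw [if_pos ⟨hn0, hd⟩, if_pos hd, main_term hw hG A hX0 hT0 hh hk hn0]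
      · rw [if_neg (fun hc => hd hc.2), if_neg hd]
        simp
    rw [e1, e2, ← mul_sub, ← mul_sub, norm_mul (2 * Real.pi * Real.sqrt ((k : ℝ) / h) : ℂ),
      norm_mul (n.divisors.card : ℂ), Complex.norm_natCast]
    have e3 : ‖(2 * Real.pi * Real.sqrt ((k : ℝ) / h) : ℂ)‖ = 2 * Real.pi * Real.sqrt ((k : ℝ) / h) := by
      have : (2 * Real.pi * Real.sqrt ((k : ℝ) / h) : ℂ) =
        ((2 * Real.pi * Real.sqrt ((k : ℝ) / h) : ℝ) : ℂ) := by push_cast; rfl
      rw [this, Complex.norm_real, Real.norm_of_nonneg (by positivity)]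
    rw [e3]
    have h1 := hterm T hT h k hh hk hhT n hn0
    have h2 : (n.divisors.card : ℝ) ≤ n := by exact_mod_cast Nat.card_divisors_le_self n
    have h3 := hdiv n hn0
    have hpi := Real.pi_lt_four
    have hsq0 : 0 ≤ Real.sqrt ((k : ℝ) / h) := Real.sqrt_nonneg _
    have hsq1 : Real.sqrt ((k : ℝ) / h) * (h / k) = Real.sqrt ((h : ℝ) / k) := by
      have e1 : (h : ℝ) / k = Real.sqrt ((h : ℝ) / k) * Real.sqrt ((h : ℝ) / k) :=
        (Real.mul_self_sqrt (by positivity)).symm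
      have e2 : Real.sqrt ((k : ℝ) / h) * Real.sqrt ((h : ℝ) / k) = 1 := by
        rw [← Real.sqrt_mul (by positivity)]
        have : (k : ℝ) / h * (h / k) = 1 := by field_simp
        rw [this, Real.sqrt_one]
      calc Real.sqrt ((k : ℝ) / h) * (h / k) =
          (Real.sqrt ((k : ℝ) / h) * Real.sqrt ((h : ℝ) / k)) * Real.sqrt ((h : ℝ) / k) := by
            rw [mul_assoc, ← e1]
        _ = _ := by rw [e2, one_mul]
    have hsq2 : Real.sqrt ((k : ℝ) / h) ≤ T := by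
      apply Real.sqrt_le_iff.mpr
      refine ⟨hT0.le, ?_⟩
      rw [div_le_iff₀ hhR]
      nlinarith
    have hsq3 : Real.sqrt ((k : ℝ) / h) * (T ^ (5 : ℕ))⁻¹ ≤ 1 := by
      have h5 : T ≤ T ^ (5 : ℕ) := le_self_pow₀ hT1 (by norm_num)
      calc Real.sqrt ((k : ℝ) / h) * (T ^ (5 : ℕ))⁻¹ ≤ T * T⁻¹ := by gcongr
        _ = 1 := mul_inv_cancel₀ hT0.ne'
    have hp1 : (n : ℝ) ^ (δ / 2) * (n : ℝ) ^ (-1 - δ) = (n : ℝ) ^ (-1 - δ / 2) := by
      rw [← Real.rpow_add hnR]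
      congr 1
      ring
    have hp2 : (n : ℝ) * ((n : ℝ) ^ 4)⁻¹ = (n : ℝ) ^ (-3 : ℝ) := by
      have : (n : ℝ) ^ (-3 : ℝ) = ((n : ℝ) ^ 3)⁻¹ := by
        rw [Real.rpow_neg hnR.le]
        norm_cast
      rw [this]
      field_simp
    set a1 : ℝ := T ^ (4 * δ) * ((h : ℝ) / k) * (n : ℝ) ^ (-1 - δ) with ha1
    set a2 : ℝ := (T ^ (5 : ℕ))⁻¹ * ((n : ℝ) ^ 4)⁻¹ with ha2
    have ha10 : 0 ≤ a1 := by positivity
    have ha20 : 0 ≤ a2 := by positivity
    calc 2 * Real.pi * Real.sqrt ((k : ℝ) / h) * ((n.divisors.card : ℝ) * _)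
        ≤ 2 * 4 * Real.sqrt ((k : ℝ) / h) * ((n.divisors.card : ℝ) * (K * (a1 + a2))) := by gcongr
      _ = 8 * K * (Real.sqrt ((k : ℝ) / h) * ((n.divisors.card : ℝ) * a1)) +
          8 * K * (Real.sqrt ((k : ℝ) / h) * ((n.divisors.card : ℝ) * a2)) := by ring
      _ ≤ 8 * K * (Real.sqrt ((k : ℝ) / h) * ((Cd * (n : ℝ) ^ (δ / 2)) * a1)) +
          8 * K * (Real.sqrt ((k : ℝ) / h) * ((n : ℝ) * a2)) := by gcongr
      _ = 8 * K * Cd * (T ^ (4 * δ) * (Real.sqrt ((k : ℝ) / h) * (h / k))) *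
            ((n : ℝ) ^ (δ / 2) * (n : ℝ) ^ (-1 - δ)) +
          8 * K * ((Real.sqrt ((k : ℝ) / h) * (T ^ (5 : ℕ))⁻¹) * ((n : ℝ) * ((n : ℝ) ^ 4)⁻¹)) := by
            rw [ha1, ha2]; ring
      _ ≤ _ := by
          rw [hsq1, hp1, hp2]
          have : (0 : ℝ) ≤ (n : ℝ) ^ (-3 : ℝ) := by positivity
          have h6 : (Real.sqrt ((k : ℝ) / h) * (T ^ (5 : ℕ))⁻¹) * (n : ℝ) ^ (-3 : ℝ) ≤
              (n : ℝ) ^ (-3 : ℝ) := mul_le_of_le_one_left this hsq3
          have h7 : 8 * K * ((Real.sqrt ((k : ℝ) / h) * (T ^ (5 : ℕ))⁻¹) * (n : ℝ) ^ (-3 : ℝ)) ≤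
              8 * K * (n : ℝ) ^ (-3 : ℝ) := by gcongr
          linarith
  have hbsum : HasSum (fun m : ℕ => (8 * K * Cd * (T ^ (4 * δ) * Real.sqrt ((h : ℝ) / k))) *
      (((m + 1 : ℕ) : ℝ)) ^ (-1 - δ / 2) + (8 * K) * (((m + 1 : ℕ) : ℝ)) ^ (-3 : ℝ))
      ((8 * K * Cd * (T ^ (4 * δ) * Real.sqrt ((h : ℝ) / k))) * Z1 + (8 * K) * Z2) :=
    (hsum1.hasSum.mul_left _).add (hsum2.hasSum.mul_left _)
  have hdiffs : Summable fun m : ℕ => (∫ v in S, pf G T h k v * F m v) -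
      ((T * Real.sqrt ((h : ℝ) / k) * M (m + 1) : ℝ) : ℂ) :=
    Summable.of_norm_bounded hbsum.summable hone
  have hMs : Summable fun m : ℕ => ((T * Real.sqrt ((h : ℝ) / k) * M (m + 1) : ℝ) : ℂ) := by
    refine (hI2.summable.sub hdiffs).congr fun m => ?_
    ring
  have hMs' : Summable fun m : ℕ => T * Real.sqrt ((h : ℝ) / k) * M (m + 1) :=
    Complex.summable_ofReal.mp hMs
  have hsq : 0 < Real.sqrt ((h : ℝ) / k) := Real.sqrt_pos.mpr (by positivity)
  have hMs'' : Summable fun m : ℕ => M (m + 1) := by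
    have := hMs'.mul_left (T * Real.sqrt ((h : ℝ) / k))⁻¹
    refine this.congr fun m => ?_
    field_simp
  have hM0 : M 0 = 0 := by
    rw [hM]
    simp
  have hMall : ∑' m : ℕ, M m = ∑' m : ℕ, M (m + 1) := by
    have h1 : Summable M := (summable_nat_add_iff 1).mp hMs''
    rw [h1.tsum_eq_zero_add, hM0, zero_add]
  have hcast : ((T * Real.sqrt ((h : ℝ) / k) * ∑' m : ℕ, M m : ℝ) : ℂ) =
      ∑' m : ℕ, ((T * Real.sqrt ((h : ℝ) / k) * M (m + 1) : ℝ) : ℂ) := by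
    rw [hMall, ← tsum_mul_left, Complex.ofReal_tsum]
  rw [hcast, ← hI2.tsum_eq, ← hI2.summable.tsum_sub hMs]
  refine (tsum_of_norm_bounded hbsum hone).trans ?_
  have h1 : 0 ≤ T ^ (4 * δ) * Real.sqrt ((h : ℝ) / k) := by positivity
  have h2 : 0 ≤ 8 * K * Cd * Z1 := by positivity
  have h3 : 0 ≤ 8 * K * Z2 := by positivity
  nlinarith [mul_nonneg h1 h3]

end Pool.Agent.SixT
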