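import Mathlib
import Pool.Agent.Lib_MP_112ba8_t.Defs

/-!
Piece C3: hyperbola splitting of `Tz`.

`Tz z = ∑_{c ≥ 1} Sz (c z)`, `Sz x = ∑_{a ≥ 1} 1/(e^{ax}-1) = ∑_{m ≥ 1} d(m) e^{-mx}` (absolutely
convergent for `Re x > 0`). `1 = VA A (c/C₀) + (1 - e^{-c/C₀})^A`. The second part is
`∑_{c ≥ 1} (1-e^{-c/C₀})^A ∑_m d(m) e^{-cmz} = ∑_m d(m) ∑_{c ≥ 0} (1-e^{-c/C₀})^A e^{-cmz}` (the term
`c = 0` vanishes as `A > 0`) and, by the binomial theorem and the geometric series,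
`∑_{c ≥ 0} (1-e^{-c/C₀})^A e^{-cy} = DA A C₀ y`. Summability: `∑_{c,m} d(m) e^{-cm Re z} < ∞`.
-/

namespace Pool.Agent.SixT

open Filter Topology MeasureTheory
open Pool.Agent.EvenMoment (cl Wgt Sz ker ar)

/-- the common double series -/
noncomputable def c3F (z : ℂ) (p : ℕ × ℕ) : ℂ :=
  ((Nat.divisors (p.2 + 1)).card : ℂ) * Complex.exp (-(((p.1 : ℂ) + 1) * (((p.2 : ℂ) + 1) * z)))

lemma c3_exp_lt {x : ℂ} (hx : 0 < x.re) : ‖Complex.exp (-x)‖ < 1 := by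
  rw [Complex.norm_exp]
  simp only [Complex.neg_re, Real.exp_lt_one_iff]
  linarith

/-- `Sz x = ∑ d(m) e^{-mx}` -/
lemma c3_Sz {x : ℂ} (hx : 0 < x.re) :
    Sz x = ∑' m : ℕ, ((Nat.divisors (m + 1)).card : ℂ) * Complex.exp (-(((m : ℂ) + 1) * x)) := by
  have h := tsum_pow_div_one_sub_eq_tsum_sigma (c3_exp_lt hx) 0
  rw [tsum_pnat_eq_tsum_succ (f := fun n : ℕ => (n : ℂ) ^ 0 * Complex.exp (-x) ^ n /
      (1 - Complex.exp (-x) ^ n)),
    tsum_pnat_eq_tsum_succ (f := fun n : ℕ => ((ArithmeticFunction.sigma 0 n : ℕ) : ℂ) *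
      Complex.exp (-x) ^ n)] at h
  have h1 : Sz x = ∑' n : ℕ, ((n + 1 : ℕ) : ℂ) ^ 0 * Complex.exp (-x) ^ (n + 1) /
      (1 - Complex.exp (-x) ^ (n + 1)) := by
    unfold Sz
    refine tsum_congr fun a => ?_
    have e1 : Complex.exp (-x) ^ (a + 1) = (Complex.exp (((a : ℂ) + 1) * x))⁻¹ := by
      rw [← Complex.exp_nat_mul, ← Complex.exp_neg]
      congr 1
      push_cast
      ring
    have e2 := Complex.exp_ne_zero (((a : ℂ) + 1) * x)
    rw [e1, pow_zero, one_mul]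
    field_simp
  rw [h1, h]
  refine tsum_congr fun m => ?_
  rw [ArithmeticFunction.sigma_zero_apply, ← Complex.exp_nat_mul]
  congr 2
  push_cast
  ring

lemma c3F_norm_le {z : ℂ} (hz : 0 < z.re) (p : ℕ × ℕ) :
    ‖c3F z p‖ ≤ Real.exp (-(z.re / 2)) ^ (p.1 + 1) *
      (((p.2 + 1 : ℕ) : ℝ) ^ 1 * Real.exp (-(z.re / 2)) ^ (p.2 + 1)) := by
  unfold c3F
  rw [norm_mul, Complex.norm_exp, Complex.norm_natCast]
  have h1 : ((Nat.divisors (p.2 + 1)).card : ℝ) ≤ ((p.2 + 1 : ℕ) : ℝ) := by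
    exact_mod_cast Nat.card_divisors_le_self (p.2 + 1)
  have h2 : (-(((p.1 : ℂ) + 1) * (((p.2 : ℂ) + 1) * z))).re =
      -(((p.1 : ℝ) + 1) * ((p.2 : ℝ) + 1) * z.re) := by
    have : -(((p.1 : ℂ) + 1) * (((p.2 : ℂ) + 1) * z)) =
        ((-(((p.1 : ℝ) + 1) * ((p.2 : ℝ) + 1)) : ℝ) : ℂ) * z := by
      push_cast
      ring
    rw [this, Complex.re_ofReal_mul]
    ring
  rw [h2]
  have h3 : Real.exp (-(((p.1 : ℝ) + 1) * ((p.2 : ℝ) + 1) * z.re)) ≤
      Real.exp (-(z.re / 2)) ^ (p.1 + 1) * Real.exp (-(z.re / 2)) ^ (p.2 + 1) := by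
    rw [← Real.exp_nat_mul, ← Real.exp_nat_mul, ← Real.exp_add]
    apply Real.exp_le_exp.mpr
    push_cast
    have h4 : (0 : ℝ) ≤ p.1 := by positivity
    have h5 : (0 : ℝ) ≤ p.2 := by positivity
    have h6 : ((p.1 : ℝ) + 1 + (p.2 + 1)) / 2 ≤ ((p.1 : ℝ) + 1) * ((p.2 : ℝ) + 1) := by
      nlinarith [mul_nonneg h4 h5]
    nlinarith [mul_le_mul_of_nonneg_right h6 hz.le]
  calc ((Nat.divisors (p.2 + 1)).card : ℝ) * Real.exp (-(((p.1 : ℝ) + 1) * ((p.2 : ℝ) + 1) * z.re))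
      ≤ ((p.2 + 1 : ℕ) : ℝ) * (Real.exp (-(z.re / 2)) ^ (p.1 + 1) *
          Real.exp (-(z.re / 2)) ^ (p.2 + 1)) := by
        gcongr
    _ = _ := by ring

lemma c3F_summable {z : ℂ} (hz : 0 < z.re) : Summable fun p : ℕ × ℕ => ‖c3F z p‖ := by
  have hr : ‖Real.exp (-(z.re / 2))‖ < 1 := by
    rw [Real.norm_eq_abs, abs_of_pos (Real.exp_pos _), Real.exp_lt_one_iff]
    linarith
  have h1 : Summable fun n : ℕ => Real.exp (-(z.re / 2)) ^ (n + 1) :=
    (summable_nat_add_iff (f := fun n : ℕ => Real.exp (-(z.re / 2)) ^ n) 1).mpr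
      (summable_geometric_of_norm_lt_one hr)
  have h2 : Summable fun n : ℕ => ((n + 1 : ℕ) : ℝ) ^ 1 * Real.exp (-(z.re / 2)) ^ (n + 1) :=
    (summable_nat_add_iff (f := fun n : ℕ => ((n : ℕ) : ℝ) ^ 1 * Real.exp (-(z.re / 2)) ^ n) 1).mpr
      (summable_pow_mul_geometric_of_norm_lt_one 1 hr)
  have h3 : Summable fun p : ℕ × ℕ => Real.exp (-(z.re / 2)) ^ (p.1 + 1) *
      (((p.2 + 1 : ℕ) : ℝ) ^ 1 * Real.exp (-(z.re / 2)) ^ (p.2 + 1)) :=
    Summable.mul_of_nonneg (f := fun n : ℕ => Real.exp (-(z.re / 2)) ^ (n + 1))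
      (g := fun n : ℕ => ((n + 1 : ℕ) : ℝ) ^ 1 * Real.exp (-(z.re / 2)) ^ (n + 1)) h1 h2
      (fun n => by positivity) (fun n => by positivity)
  exact Summable.of_nonneg_of_le (fun p => norm_nonneg _) (fun p => c3F_norm_le hz p) h3

/-- interchange of summation with a bounded weight -/
lemma c3_swap {z : ℂ} (hz : 0 < z.re) {g : ℕ → ℂ} (hg : ∀ c, ‖g c‖ ≤ 1) :
    Summable (fun c : ℕ => g c * Sz (((c : ℂ) + 1) * z)) ∧
    Summable (fun m : ℕ => ((Nat.divisors (m + 1)).card : ℂ) *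
      ∑' c : ℕ, g c * Complex.exp (-(((c : ℂ) + 1) * (((m : ℂ) + 1) * z)))) ∧
    ∑' c : ℕ, g c * Sz (((c : ℂ) + 1) * z) = ∑' m : ℕ, ((Nat.divisors (m + 1)).card : ℂ) *
      ∑' c : ℕ, g c * Complex.exp (-(((c : ℂ) + 1) * (((m : ℂ) + 1) * z))) := by
  have hs : Summable fun p : ℕ × ℕ => g p.1 * c3F z p := by
    refine Summable.of_norm_bounded (c3F_summable hz) fun p => ?_
    rw [norm_mul]
    exact mul_le_of_le_one_left (norm_nonneg _) (hg _)
  have hs' : Summable fun p : ℕ × ℕ => g p.2 * c3F z (p.2, p.1) := by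
    have := hs.prod_symm
    exact this
  have e1 : ∀ c : ℕ, ∑' m : ℕ, g c * c3F z (c, m) = g c * Sz (((c : ℂ) + 1) * z) := by
    intro c
    have hc : 0 < (((c : ℂ) + 1) * z).re := by
      have : ((c : ℂ) + 1) * z = (((c : ℝ) + 1 : ℝ) : ℂ) * z := by push_cast; ring
      rw [this, Complex.re_ofReal_mul]
      positivity
    rw [tsum_mul_left, c3_Sz hc]
    congr 1
    refine tsum_congr fun m => ?_
    unfold c3F
    simp only
    congr 2
    ring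
  have e2 : ∀ m : ℕ, ∑' c : ℕ, g c * c3F z (c, m) = ((Nat.divisors (m + 1)).card : ℂ) *
      ∑' c : ℕ, g c * Complex.exp (-(((c : ℂ) + 1) * (((m : ℂ) + 1) * z))) := by
    intro m
    rw [← tsum_mul_left]
    refine tsum_congr fun c => ?_
    unfold c3F
    simp only
    ring
  refine ⟨?_, ?_, ?_⟩
  · have := hs.prod
    simp only [e1] at this
    exact this
  · have := hs'.prod
    simp only [e2] at this
    exact this
  · simp only [← e1, ← e2]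
    exact hs'.tsum_comm

/-- the binomial theorem and the geometric series -/
lemma c3_DA {A : ℕ} {C₀ : ℝ} (hC : 0 < C₀) {y : ℂ} (hy : 0 < y.re) :
    DA A C₀ y = ∑' c : ℕ, (((1 - Real.exp (-((c : ℝ) / C₀))) ^ A : ℝ) : ℂ) *
      Complex.exp (-((c : ℂ) * y)) := by
  have h1 : ∀ j : ℕ, ‖Complex.exp (-(y + j / C₀))‖ < 1 := by
    intro j
    apply c3_exp_lt
    have : (y + (j : ℂ) / C₀).re = y.re + (j : ℝ) / C₀ := by
      rw [Complex.add_re]
      congr 1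
      have : (j : ℂ) / C₀ = (((j : ℝ) / C₀ : ℝ) : ℂ) := by push_cast; rfl
      rw [this, Complex.ofReal_re]
    rw [this]
    positivity
  have h2 : ∀ j : ℕ, HasSum (fun c : ℕ => Complex.exp (-(y + j / C₀)) ^ c)
      (1 - Complex.exp (-(y + j / C₀)))⁻¹ := fun j => hasSum_geometric_of_norm_lt_one (h1 j)
  have h3 : HasSum (fun c : ℕ => ∑ j ∈ Finset.range (A + 1), (-1 : ℂ) ^ j * (A.choose j) *
      Complex.exp (-(y + j / C₀)) ^ c) (DA A C₀ y) := by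
    unfold DA
    refine hasSum_sum fun j _ => ?_
    rw [one_div]
    exact (h2 j).mul_left _
  rw [← h3.tsum_eq]
  refine tsum_congr fun c => ?_
  have h4 : (((1 - Real.exp (-((c : ℝ) / C₀))) ^ A : ℝ) : ℂ) =
      (-Complex.exp (-((c : ℂ) / C₀)) + 1) ^ A := by
    push_cast
    ring
  rw [h4, add_pow, Finset.sum_mul]
  refine Finset.sum_congr rfl fun j _ => ?_
  have h5 : Complex.exp (-(y + j / C₀)) ^ c =
      Complex.exp (-((c : ℂ) / C₀)) ^ j * Complex.exp (-((c : ℂ) * y)) := by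
    rw [← Complex.exp_nat_mul, ← Complex.exp_nat_mul, ← Complex.exp_add]
    congr 1
    ring
  rw [h5, one_pow, neg_pow (Complex.exp (-((c : ℂ) / C₀))) j]
  ring

theorem Tz_split {A : ℕ} (hA : 0 < A) {C₀ : ℝ} (hC : 0 < C₀) {z : ℂ} (hz : 0 < z.re) :
    Summable (fun c : ℕ => ((VA A (((c : ℝ) + 1) / C₀) : ℝ) : ℂ) * Sz (((c : ℂ) + 1) * z)) ∧
    Summable (fun m : ℕ => ((Nat.divisors (m + 1)).card : ℂ) * DA A C₀ (((m : ℂ) + 1) * z)) ∧
    Tz z = (∑' c : ℕ, ((VA A (((c : ℝ) + 1) / C₀) : ℝ) : ℂ) * Sz (((c : ℂ) + 1) * z)) +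
      ∑' m : ℕ, ((Nat.divisors (m + 1)).card : ℂ) * DA A C₀ (((m : ℂ) + 1) * z) := by
  have hb : ∀ c : ℕ, 0 ≤ (1 - Real.exp (-(((c : ℝ) + 1) / C₀))) ^ A ∧
      (1 - Real.exp (-(((c : ℝ) + 1) / C₀))) ^ A ≤ 1 := by
    intro c
    have h1 : Real.exp (-(((c : ℝ) + 1) / C₀)) ≤ 1 := by
      rw [Real.exp_le_one_iff]
      have : 0 ≤ ((c : ℝ) + 1) / C₀ := by positivity
      linarith
    have h2 := Real.exp_pos (-(((c : ℝ) + 1) / C₀))
    exact ⟨pow_nonneg (by linarith) _, pow_le_one₀ (by linarith) (by linarith)⟩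
  have hV : ∀ c : ℕ, ‖((VA A (((c : ℝ) + 1) / C₀) : ℝ) : ℂ)‖ ≤ 1 := by
    intro c
    rw [Complex.norm_real, Real.norm_eq_abs, abs_le]
    unfold VA
    have := hb c
    constructor <;> linarith
  have hW : ∀ c : ℕ, ‖(((1 - Real.exp (-(((c : ℝ) + 1) / C₀))) ^ A : ℝ) : ℂ)‖ ≤ 1 := by
    intro c
    rw [Complex.norm_real, Real.norm_eq_abs, abs_le]
    have := hb c
    constructor <;> linarith
  obtain ⟨s1, -, -⟩ := c3_swap hz hV
  obtain ⟨t1, t2, t3⟩ := c3_swap hz hW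
  have e1 : ∀ m : ℕ, ∑' c : ℕ, (((1 - Real.exp (-(((c : ℝ) + 1) / C₀))) ^ A : ℝ) : ℂ) *
      Complex.exp (-(((c : ℂ) + 1) * (((m : ℂ) + 1) * z))) = DA A C₀ (((m : ℂ) + 1) * z) := by
    intro m
    have hm : 0 < (((m : ℂ) + 1) * z).re := by
      have : ((m : ℂ) + 1) * z = (((m : ℝ) + 1 : ℝ) : ℂ) * z := by push_cast; ring
      rw [this, Complex.re_ofReal_mul]
      positivity
    rw [c3_DA hC hm]
    have hsum : Summable fun c : ℕ => (((1 - Real.exp (-((c : ℝ) / C₀))) ^ A : ℝ) : ℂ) *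
        Complex.exp (-((c : ℂ) * (((m : ℂ) + 1) * z))) := by
      refine Summable.of_norm_bounded (g := fun c : ℕ =>
        ‖Complex.exp (-(((m : ℂ) + 1) * z))‖ ^ c)
        (summable_geometric_of_lt_one (norm_nonneg _) (c3_exp_lt hm)) fun c => ?_
      rw [norm_mul]
      have h1 : Real.exp (-((c : ℝ) / C₀)) ≤ 1 := by
        rw [Real.exp_le_one_iff]
        have : 0 ≤ (c : ℝ) / C₀ := by positivity
        linarith
      have h2 := Real.exp_pos (-((c : ℝ) / C₀))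
      have h3 : ‖(((1 - Real.exp (-((c : ℝ) / C₀))) ^ A : ℝ) : ℂ)‖ ≤ 1 := by
        rw [Complex.norm_real, Real.norm_eq_abs, abs_of_nonneg (pow_nonneg (by linarith) _)]
        exact pow_le_one₀ (by linarith) (by linarith)
      have h4 : Complex.exp (-((c : ℂ) * (((m : ℂ) + 1) * z))) =
          Complex.exp (-(((m : ℂ) + 1) * z)) ^ c := by
        rw [← Complex.exp_nat_mul]
        congr 1
        ring
      rw [h4, norm_pow]
      exact mul_le_of_le_one_left (by positivity) h3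
    rw [hsum.tsum_eq_zero_add]
    simp only [Nat.cast_zero, zero_div, neg_zero, Real.exp_zero, sub_self, zero_mul, Nat.cast_add,
      Nat.cast_one]
    rw [zero_pow hA.ne']
    simp
  simp only [e1] at t2 t3
  refine ⟨s1, t2, ?_⟩
  rw [← t3, ← s1.tsum_add t1]
  unfold Tz
  refine tsum_congr fun c => ?_
  rw [← add_mul, ← Complex.ofReal_add]
  unfold VA
  simp

end Pool.Agent.SixT
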