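import Mathlib
import Pool.Agent.Lib_MP_112ba8_t.M3Exact
import Pool.Agent.Lib_MP_112ba8_t.TwoExact
import Pool.Agent.Lib_MP_112ba8_t.TzSplit
import Pool.Agent.Lib_MP_112ba8_t.DAfar
import Pool.Agent.Lib_MP_112ba8_t.DAnear
import Pool.Agent.Lib_MP_112ba8_t.M3SplitD

/-!
Piece C6 (about 450 lines). `C₀ = T^γ`, `δ = ε/64`, `A` large (`A (ε - 2δ) ≥ 20`).

By `M3_exact` (with `δ` for `ε`) `M3 = ∫_{|v| ≤ T^δ} G(v) 2π√(k/h) e^{-ip/2} Tz(z_v) dv + O(1+(h/k)^{3/2})`,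
`z_v = zv T v h k`. Insert `Tz_split` at `z = z_v`.

(1) First sum. `c z_v = zv T v h (ck)` and `√(k/h) = √(ck/h)/√c`, so by `M2_exact` the `c`-th term is
`VA(c/C₀)/√c · (M2 w T h (ck) + O(1 + (h/(ck))^{3/2}))`. `∑_c VA(c/C₀)/√c ≤ C √C₀`
(`VA A u ≤ A e^{-u}`, `VA ≤ 1`), `∑_c c^{-2} < ∞`: error `O(T^{γ/2} + (h/k)^{3/2})`. The terms `c > T`:
`‖M2‖ ≤ C T^5`, `∑_{c>T} A e^{-c/C₀} ≤ C T^{-10}`.
(Interchange of `∑_c` and `∫_v`: `‖Sz(cz)‖` is bounded by `Sz(c Re z)`-type bounds; `Re z_v ≥ c/T²`.)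

(2) Second sum, `∑_m d(m) ∫_{|v| ≤ T^δ} G(v) 2π√(k/h) e^{-ip/2} DA(m z_v) dv`. Facts: `e^{-ip_v} =
e^{-2πv/T} (cos(2/T) - i sin(2/T))`, so with `J = mk/h`: `Re(m z_v) = 2πJ e^{-2πv/T} sin(2/T) ≥ 2J/T`,
`Im(m z_v) = 2πJ e^{-2πv/T} cos(2/T)`, `|Im(m z_v) - 2πJ| ≤ C J T^{δ-1}`.
 (a) `h ∤ mk`: then `m z_v` has distance `≥ ρ = c T^{-γ+ε-2δ}` from `2πiℤ`: if `C J T^{δ-1} ≤ 1/h` then
  the imaginary part has distance `≥ 2π/h - 1/h ≥ 1/h ≥ T^{-γ+ε}`; otherwise `Re(m z_v) ≥ 2J/T ≥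
  c T^{-δ}/h ≥ ρ`. `DA_far`: `‖DA‖ ≤ C (C₀ρ)^{-A} ρ^{-1} e^{-2J/T} ≤ C T^{-15} e^{-2J/T}`, sum over `m`:
  `∑_m d(m) e^{-2mk/(hT)} ≤ C (hT/k)² `: total `O(T^{-10})`.
 (b) `h ∣ mk`, `J` integer, `J > T^{1-2δ}`: distance `≥ Re ≥ 2 T^{-2δ}` (use `min 1`): same bound; and
  `‖IA(2πJ p_v)‖ ≤ A!/(C₀^A (2J/T)^{A+1})`: negligible, summable over `m`. So in this range both the exact
  and the main term are `O(T^{-10} J^{-2})`.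
 (c) `h ∣ mk`, `J ≤ T^{1-2δ}`: `|Im(m z_v) - 2πJ| ≤ 3`, `DA_near` with `j = J`: `DA = IA(y') + O(C₀^{-A})`,
  `y' = 2πiJ (e^{-ip}-1)`, `Re y' ≥ 2J/T`; `y'' = 2πJ p`, `‖y'-y''‖ ≤ 2πJ ‖p‖² `; `IA_diff` (`a = 2J/T`):
  `‖IA(y') - IA(y'')‖ ≤ C J T^{2δ-2} T²/J² = C T^{2δ}/J`; `‖e^{-ip/2} - 1‖ ‖IA(y'')‖ ≤ C T^{δ-1} T/J`.
  Sum: `√(k/h) ∑_{m ≤ hT/k} d(m) (h/(mk)) T^{2δ} ≤ C √(h/k) T^{3δ}`.
 (d) main term: `∫_{|v| ≤ T^δ} → ∫` (`∫_{|v|>T^δ} ‖G‖ ≤ C T^{-N}`, `‖IA‖ ≤ T/J` and the second bound of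
  `IA_bound` for convergence), then `IA_wgt` with `j = J = mk/h`:
  `2π√(k/h) d(m) · T h/(2πmk) ∫ w(u)(1-e^{-uTh/(2πmkC₀)})^A du`. This is the term of the claim.
  Terms with `J > T^{1-2δ}` of the claim are `O(T^{-10}J^{-2})` as `(1-e^{-y})^A ≤ y^A`,
  `y ≤ T/(2πJC₀) ≤ T^{2δ-γ}`... (`γ > ε = 64δ`).
-/

namespace Pool.Agent.SixT

open Filter Topology MeasureTheory
open Pool.Agent.EvenMoment (cl Wgt Sz ker ar)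

theorem M3_split {w : ℝ → ℝ} (hw : Wgt w) {γ ε : ℝ} (hε : 0 < ε) (hγ : ε < γ) (hγ1 : γ ≤ 1 / 2) :
    ∃ A : ℕ, ∃ C T₀ : ℝ, 0 < A ∧ 0 < C ∧ 2 ≤ T₀ ∧ ∀ T : ℝ, T₀ ≤ T → ∀ h k : ℕ, 0 < h → 0 < k →
    (h : ℝ) ≤ T ^ (γ - ε) → (k : ℝ) ≤ T →
    ‖M3 w T h k - (∑ c ∈ NN (Real.log T),
        ((VA A (c / T ^ γ) / Real.sqrt c : ℝ) : ℂ) * M2 w T h (c * k)) -
      ((T * Real.sqrt ((h : ℝ) / k) * ∑' m : ℕ, (if 0 < m ∧ h ∣ m * k then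
        ((Nat.divisors m).card : ℝ) / m *
          ∫ u, w u * (1 - Real.exp (-(u * T * h / (2 * Real.pi * m * k * T ^ γ)))) ^ A
        else 0) : ℝ) : ℂ)‖ ≤
      C * T ^ (ε / 8) * (T ^ (γ / 2) + ((h : ℝ) / k) ^ (3 / 2 : ℝ) +
        T ^ (1 - γ) * Real.sqrt ((h : ℝ) / k)) := by
  obtain ⟨G, hG⟩ := exists_GG hw
  have hδ : 0 < ε / 64 := by linarith
  have hδ1 : ε / 64 < 1 := by linarith
  obtain ⟨A, hA0, hA⟩ : ∃ A : ℕ, 0 < A ∧ 28 ≤ A * ε := by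
    refine ⟨⌈28 / ε⌉₊ + 1, Nat.succ_pos _, ?_⟩
    have h1 := Nat.le_ceil (28 / ε)
    rw [div_le_iff₀ hε] at h1
    push_cast
    linarith
  obtain ⟨C3, T3, hC3, hT3, hex⟩ := M3_exact hw hG hδ hδ1
  obtain ⟨C1, T1, hC1, hT1, hfirst⟩ := first_sum hw hG hδ hδ1 (δ' := ε / 16) (by linarith)
    (by linarith) (show 0 < γ by linarith) hγ1 A
  obtain ⟨C2, T2, hC2, hT2, hsecond⟩ := second_sum hw hG hε hγ hγ1 hδ le_rfl hA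
  refine ⟨A, 2 * C3 + 2 * C1 + 2 * C2, max T1 (max T2 T3), hA0, by positivity,
    hT3.trans ((le_max_right _ _).trans (le_max_right _ _)), fun T hT h k hh hk hhT hkT => ?_⟩
  have hTT1 : T1 ≤ T := (le_max_left _ _).trans hT
  have hTT2 : T2 ≤ T := ((le_max_left _ _).trans (le_max_right _ _)).trans hT
  have hTT3 : T3 ≤ T := ((le_max_right _ _).trans (le_max_right _ _)).trans hT
  have hTG : TG (ε / 64) ≤ T := hT1.trans hTT1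
  have hT2' : 2 ≤ T := hT3.trans hTT3
  have hT1' : 1 ≤ T := by linarith
  have hT0 : 0 < T := by linarith
  have hhR : (0 : ℝ) < h := by exact_mod_cast hh
  have hkR : (0 : ℝ) < k := by exact_mod_cast hk
  have e0 := hex T hTT3 h k hh hk
  obtain ⟨hi1, e1⟩ := hfirst T hTT1 h k hh hk
  obtain ⟨hi2, e2⟩ := hsecond T hTT2 h k hh hk hhT hkT
  have hX : 0 < T ^ γ := by positivity
  have hsplit : (∫ v in Set.Icc (-T ^ (ε / 64)) (T ^ (ε / 64)),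
      G v * (2 * Real.pi * Real.sqrt ((k : ℝ) / h) *
        Complex.exp (-(Complex.I * pv T v / 2)) * Tz (zv T v h k))) =
      (∫ v in Set.Icc (-T ^ (ε / 64)) (T ^ (ε / 64)), pf G T h k v *
        ∑' c : ℕ, ((VA A (((c : ℝ) + 1) / T ^ γ) : ℝ) : ℂ) * Sz (((c : ℂ) + 1) * zv T v h k)) +
      ∫ v in Set.Icc (-T ^ (ε / 64)) (T ^ (ε / 64)), pf G T h k v *
        ∑' m : ℕ, ((Nat.divisors (m + 1)).card : ℂ) * DA A (T ^ γ) (((m : ℂ) + 1) * zv T v h k) := by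
    rw [← integral_add hi1 hi2]
    refine setIntegral_congr_fun measurableSet_Icc fun v hv => ?_
    have hz : 0 < (zv T v h k).re := zv_re_pos hT0 (geo hδ hδ1 hTG hv) hh hk
    rw [(Tz_split hA0 hX hz).2.2, pf]
    ring
  rw [hsplit] at e0
  set Q := ∑ c ∈ NN (Real.log T), ((VA A (c / T ^ γ) / Real.sqrt c : ℝ) : ℂ) * M2 w T h (c * k)
  set R := ((T * Real.sqrt ((h : ℝ) / k) * ∑' m : ℕ, (if 0 < m ∧ h ∣ m * k then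
        ((Nat.divisors m).card : ℝ) / m *
          ∫ u, w u * (1 - Real.exp (-(u * T * h / (2 * Real.pi * m * k * T ^ γ)))) ^ A
        else 0) : ℝ) : ℂ)
  set I1 := ∫ v in Set.Icc (-T ^ (ε / 64)) (T ^ (ε / 64)), pf G T h k v *
        ∑' c : ℕ, ((VA A (((c : ℝ) + 1) / T ^ γ) : ℝ) : ℂ) * Sz (((c : ℂ) + 1) * zv T v h k)
  set I2 := ∫ v in Set.Icc (-T ^ (ε / 64)) (T ^ (ε / 64)), pf G T h k v *
        ∑' m : ℕ, ((Nat.divisors (m + 1)).card : ℂ) * DA A (T ^ γ) (((m : ℂ) + 1) * zv T v h k)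
  have e3 : M3 w T h k - Q - R = (M3 w T h k - (I1 + I2)) + (I1 - Q) + (I2 - R) := by ring
  rw [e3]
  refine norm_add₃_le.trans ?_
  set H := ((h : ℝ) / k) ^ (3 / 2 : ℝ) with hH
  set Sq := Real.sqrt ((h : ℝ) / k) with hSq
  have hH0 : 0 ≤ H := by positivity
  have hSq0 : 0 ≤ Sq := Real.sqrt_nonneg _
  have f1 : 1 ≤ T ^ (ε / 8) := Real.one_le_rpow hT1' (by linarith)
  have f2 : 1 ≤ T ^ (γ / 2) := Real.one_le_rpow hT1' (by linarith)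
  have f3 : 1 ≤ T ^ (1 - γ) := Real.one_le_rpow hT1' (by linarith)
  have f4 : T ^ (γ / 2 + ε / 16) ≤ T ^ (ε / 8) * T ^ (γ / 2) := by
    rw [← Real.rpow_add hT0]
    exact Real.rpow_le_rpow_of_exponent_le hT1' (by linarith)
  have f5 : T ^ (4 * (ε / 64)) ≤ T ^ (ε / 8) :=
    Real.rpow_le_rpow_of_exponent_le hT1' (by linarith)
  have f6 : 1 ≤ T ^ (ε / 8) * T ^ (γ / 2) := one_le_mul_of_one_le_of_one_le f1 f2
  have f7 : H ≤ T ^ (ε / 8) * H := le_mul_of_one_le_left hH0 f1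
  have f8 : T ^ (4 * (ε / 64)) * Sq ≤ T ^ (ε / 8) * (T ^ (1 - γ) * Sq) := by
    calc T ^ (4 * (ε / 64)) * Sq ≤ T ^ (ε / 8) * Sq := by gcongr
      _ ≤ T ^ (ε / 8) * (T ^ (1 - γ) * Sq) := by
          gcongr
          exact le_mul_of_one_le_left hSq0 f3
  have g0 : C3 * (1 + H) ≤ C3 * (T ^ (ε / 8) * T ^ (γ / 2) + T ^ (ε / 8) * H) := by gcongr
  have g1 : C1 * (T ^ (γ / 2 + ε / 16) + H) ≤
      C1 * (T ^ (ε / 8) * T ^ (γ / 2) + T ^ (ε / 8) * H) := by gcongr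
  have g2 : C2 * (T ^ (4 * (ε / 64)) * Sq + 1) ≤
      C2 * (T ^ (ε / 8) * (T ^ (1 - γ) * Sq) + T ^ (ε / 8) * T ^ (γ / 2)) := by gcongr
  have p1 : 0 ≤ T ^ (ε / 8) * T ^ (γ / 2) := by positivity
  have p2 : 0 ≤ T ^ (ε / 8) * H := by positivity
  have p3 : 0 ≤ T ^ (ε / 8) * (T ^ (1 - γ) * Sq) := by positivity
  have hfin : C3 * (T ^ (ε / 8) * T ^ (γ / 2) + T ^ (ε / 8) * H) +
      C1 * (T ^ (ε / 8) * T ^ (γ / 2) + T ^ (ε / 8) * H) +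
      C2 * (T ^ (ε / 8) * (T ^ (1 - γ) * Sq) + T ^ (ε / 8) * T ^ (γ / 2)) ≤
      (2 * C3 + 2 * C1 + 2 * C2) * T ^ (ε / 8) * (T ^ (γ / 2) + H + T ^ (1 - γ) * Sq) := by
    have q1 : 0 ≤ C3 * (T ^ (ε / 8) * T ^ (γ / 2)) := by positivity
    have q2 : 0 ≤ C3 * (T ^ (ε / 8) * H) := by positivity
    have q3 : 0 ≤ C3 * (T ^ (ε / 8) * (T ^ (1 - γ) * Sq)) := by positivity
    have q4 : 0 ≤ C1 * (T ^ (ε / 8) * T ^ (γ / 2)) := by positivity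
    have q5 : 0 ≤ C1 * (T ^ (ε / 8) * H) := by positivity
    have q6 : 0 ≤ C1 * (T ^ (ε / 8) * (T ^ (1 - γ) * Sq)) := by positivity
    have q7 : 0 ≤ C2 * (T ^ (ε / 8) * T ^ (γ / 2)) := by positivity
    have q8 : 0 ≤ C2 * (T ^ (ε / 8) * H) := by positivity
    have q9 : 0 ≤ C2 * (T ^ (ε / 8) * (T ^ (1 - γ) * Sq)) := by positivity
    linarith
  linarith [e0, e1, e2, g0, g1, g2, hfin]

end Pool.Agent.SixT
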