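import Mathlib
import Pool.Agent.Lib_MP_112ba8_t.S9lim

/-!
Weak limits tested with functions that converge to a function with a jump.
-/

namespace Pool.Agent.SixT

open Filter Topology MeasureTheory
open Pool.Agent.EvenMoment (ar)

/-- support bounded above in every coordinate -/
def CSupp (G : (Fin 6 → ℝ) → ℝ) : Prop := ∃ B : ℝ, ∀ s, (∃ κ, B ≤ s κ) → G s = 0

namespace WCut

/-- ramp: `1` for `s ≤ c - η`, `0` for `s ≥ c` -/
noncomputable def ramp (c η s : ℝ) : ℝ := max 0 (min 1 ((c - s) / η))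

/-- bump: `1` for `|s - c| ≤ η`, `0` for `|s - c| ≥ 2 η` -/
noncomputable def bump (c η s : ℝ) : ℝ := max 0 (min 1 (2 - |s - c| / η))

lemma ramp_cont (c η : ℝ) : Continuous (ramp c η) := by unfold ramp; fun_prop
lemma bump_cont (c η : ℝ) : Continuous (bump c η) := by unfold bump; fun_prop

lemma ramp_nonneg (c η s : ℝ) : 0 ≤ ramp c η s := le_max_left _ _
lemma ramp_le (c η s : ℝ) : ramp c η s ≤ 1 := max_le zero_le_one (min_le_left _ _)
lemma bump_nonneg (c η s : ℝ) : 0 ≤ bump c η s := le_max_left _ _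
lemma bump_le (c η s : ℝ) : bump c η s ≤ 1 := max_le zero_le_one (min_le_left _ _)

lemma ramp_one {c η s : ℝ} (hη : 0 < η) (h : s ≤ c - η) : ramp c η s = 1 := by
  unfold ramp
  have : 1 ≤ (c - s) / η := by rw [le_div_iff₀ hη]; linarith
  rw [min_eq_left this]
  norm_num

lemma ramp_zero {c η s : ℝ} (hη : 0 < η) (h : c ≤ s) : ramp c η s = 0 := by
  unfold ramp
  have : (c - s) / η ≤ 0 := div_nonpos_of_nonpos_of_nonneg (by linarith) hη.le
  exact max_eq_left ((min_le_right _ _).trans this)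

lemma bump_one {c η s : ℝ} (hη : 0 < η) (h : |s - c| ≤ η) : bump c η s = 1 := by
  unfold bump
  have : |s - c| / η ≤ 1 := by rw [div_le_iff₀ hη]; linarith
  rw [min_eq_left (by linarith)]
  norm_num

lemma bump_zero {c η s : ℝ} (hη : 0 < η) (h : 2 * η ≤ |s - c|) : bump c η s = 0 := by
  unfold bump
  have : 2 ≤ |s - c| / η := by rw [le_div_iff₀ hη]; linarith
  exact max_eq_left ((min_le_right _ _).trans (by linarith))

/-- the key pointwise inequality -/
lemma point {M c η δ s f : ℝ} (hη : 0 < η) (hδ : 0 ≤ δ) (hM : 0 ≤ M) (hf : |f| ≤ M)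
    (h1 : s ≤ c - η → |f - M| ≤ δ) (h0 : c + η ≤ s → |f| ≤ δ) :
    |f - M * ramp c η s| ≤ δ + 2 * M * bump c η s := by
  have hb := bump_nonneg c η s
  by_cases hs1 : s ≤ c - η
  · rw [ramp_one hη hs1, mul_one]
    have := h1 hs1
    have : 0 ≤ 2 * M * bump c η s := by positivity
    linarith
  · by_cases hs0 : c + η ≤ s
    · rw [ramp_zero hη (by linarith), mul_zero, sub_zero]
      have := h0 hs0
      have : 0 ≤ 2 * M * bump c η s := by positivity
      linarith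
    · push Not at hs1 hs0
      rw [bump_one hη (abs_le.2 ⟨by linarith, by linarith⟩)]
      have hr := ramp_nonneg c η s
      have hr1 := ramp_le c η s
      have : |f - M * ramp c η s| ≤ |f| + |M * ramp c η s| := abs_sub _ _
      rw [abs_of_nonneg (mul_nonneg hM hr)] at this
      nlinarith

lemma csupp_mul {G : (Fin 6 → ℝ) → ℝ} (hG : CSupp G) (g : (Fin 6 → ℝ) → ℝ) :
    CSupp (fun s => g s * G s) := by
  obtain ⟨B, hB⟩ := hG
  exact ⟨B, fun s hs => by simp only [hB s hs, mul_zero]⟩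

lemma csupp_abs {G : (Fin 6 → ℝ) → ℝ} (hG : CSupp G) : CSupp (fun s => |G s|) := by
  obtain ⟨B, hB⟩ := hG
  exact ⟨B, fun s hs => by simp only [hB s hs, abs_zero]⟩

/-- bounded on the nonnegative orthant -/
lemma bdd {G : (Fin 6 → ℝ) → ℝ} (hG : Continuous G) (hs : CSupp G) :
    ∃ C : ℝ, 0 ≤ C ∧ ∀ s, (∀ κ, 0 ≤ s κ) → |G s| ≤ C * Real.exp (-∑ κ, s κ) := by
  obtain ⟨B, hB⟩ := hs
  have hK : IsCompact (Set.univ.pi fun _ : Fin 6 => Set.Icc (0 : ℝ) B) :=
    isCompact_univ_pi fun _ => isCompact_Icc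
  obtain ⟨C, hC⟩ := hK.exists_bound_of_continuousOn hG.continuousOn
  refine ⟨|C| * Real.exp (6 * |B|), by positivity, fun s hs => ?_⟩
  by_cases h : ∃ κ, B ≤ s κ
  · rw [hB s h, abs_zero]
    positivity
  · push Not at h
    have h1 := hC s (fun κ _ => ⟨hs κ, (h κ).le⟩)
    rw [Real.norm_eq_abs] at h1
    have h2 : ∑ κ, s κ ≤ 6 * |B| := by
      have : ∑ κ, s κ ≤ ∑ _κ : Fin 6, |B| :=
        Finset.sum_le_sum fun κ _ => (h κ).le.trans (le_abs_self B)
      simpa using this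
    have h3 : 1 ≤ Real.exp (6 * |B|) * Real.exp (-∑ κ, s κ) := by
      rw [← Real.exp_add]
      exact Real.one_le_exp (by linarith)
    calc |G s| ≤ |C| * 1 := by rw [mul_one]; exact h1.trans (le_abs_self C)
      _ ≤ |C| * (Real.exp (6 * |B|) * Real.exp (-∑ κ, s κ)) :=
        mul_le_mul_of_nonneg_left h3 (abs_nonneg _)
      _ = _ := by ring

end WCut

open WCut

/-- abstract form: weak convergence tested with `F_L(s_κ) G(s)`, `F_L → M 1_{s < c}` locally
uniformly off `c` -/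
theorem weak_cut {ι X : Type*} [MeasurableSpace X] {wt : ι → ℝ} (hwt : ∀ q, 0 ≤ wt q)
    {ob : ι → Fin 6 → ℝ} (hfin : ∀ A : ℝ, {q | ∀ κ, ob q κ ≤ A}.Finite)
    {μ : Measure X} {sg : X → Fin 6 → ℝ} (hsg : Measurable sg) (hpos : ∀ᵐ y ∂μ, ∀ κ, 0 ≤ sg y κ)
    (hexp : Integrable (fun y => Real.exp (-∑ κ, sg y κ)) μ) {a : ℝ} (ha : 0 ≤ a) {K : ℕ}
    (hlim : ∀ G : (Fin 6 → ℝ) → ℝ, Continuous G → CSupp G →
      Tendsto (fun L : ℝ => (∑' q, wt q * G (fun κ => ob q κ / L)) / L ^ K) atTop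
        (𝓝 (a * ∫ y, G (sg y) ∂μ)))
    {κ₀ : Fin 6} {c : ℝ} (hnull : ∀ᵐ y ∂μ, sg y κ₀ ≠ c)
    {F : ℝ → ℝ → ℝ} {M : ℝ} (hM : 0 ≤ M) (hF : ∀ L s, |F L s| ≤ M)
    (hF1 : ∀ η : ℝ, 0 < η → ∀ δ : ℝ, 0 < δ → ∀ᶠ L in atTop, ∀ s, s ≤ c - η → |F L s - M| ≤ δ)
    (hF0 : ∀ η : ℝ, 0 < η → ∀ δ : ℝ, 0 < δ → ∀ᶠ L in atTop, ∀ s, c + η ≤ s → |F L s| ≤ δ)
    {G : (Fin 6 → ℝ) → ℝ} (hG : Continuous G) (hGs : CSupp G) :
    Tendsto (fun L : ℝ => (∑' q, wt q * (F L (ob q κ₀ / L) * G (fun κ => ob q κ / L))) / L ^ K)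
      atTop (𝓝 (a * ∫ y, (if sg y κ₀ < c then M else 0) * G (sg y) ∂μ)) := by
  -- integrability
  have hint : ∀ H : (Fin 6 → ℝ) → ℝ, Continuous H → CSupp H → Integrable (fun y => H (sg y)) μ := by
    intro H hH hHs
    obtain ⟨C, hC0, hC⟩ := bdd hH hHs
    refine (hexp.const_mul C).mono' (hH.measurable.comp hsg).aestronglyMeasurable ?_
    filter_upwards [hpos] with y hy
    rw [Real.norm_eq_abs]
    exact hC _ hy
  have hGa : Continuous fun s => |G s| := hG.abs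
  have hGas : CSupp fun s => |G s| := csupp_abs hGs
  have hPint := hint _ hGa hGas
  -- the two limits as `η → 0`
  have hr : Tendsto (fun η : ℝ => ∫ y, (M * ramp c η (sg y κ₀)) * G (sg y) ∂μ) (𝓝[>] 0)
      (𝓝 (∫ y, (if sg y κ₀ < c then M else 0) * G (sg y) ∂μ)) := by
    refine tendsto_integral_filter_of_dominated_convergence (fun y => M * |G (sg y)|) ?_ ?_
      (hPint.const_mul M) ?_
    · refine Eventually.of_forall fun η => ?_
      have h1 : Measurable fun y => ramp c η (sg y κ₀) :=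
        (ramp_cont c η).measurable.comp ((measurable_pi_apply κ₀).comp hsg)
      exact ((h1.const_mul M).mul (hG.measurable.comp hsg)).aestronglyMeasurable
    · refine Eventually.of_forall fun η => ae_of_all _ fun y => ?_
      rw [norm_mul, Real.norm_eq_abs, Real.norm_eq_abs,
        abs_of_nonneg (mul_nonneg hM (ramp_nonneg _ _ _))]
      exact mul_le_mul_of_nonneg_right (mul_le_of_le_one_right hM (ramp_le _ _ _)) (abs_nonneg _)
    · filter_upwards [hnull] with y hy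
      refine Tendsto.mul_const _ ?_
      rcases lt_or_gt_of_ne hy with h | h
      · rw [if_pos h]
        refine tendsto_const_nhds.congr' ?_
        filter_upwards [Ioo_mem_nhdsGT (sub_pos.2 h)] with η hη
        rw [ramp_one hη.1 (by linarith [hη.2]), mul_one]
      · rw [if_neg (not_lt.2 h.le)]
        refine tendsto_const_nhds.congr' ?_
        filter_upwards [self_mem_nhdsWithin] with η hη
        rw [ramp_zero hη h.le, mul_zero]
  have hb : Tendsto (fun η : ℝ => ∫ y, bump c η (sg y κ₀) * |G (sg y)| ∂μ) (𝓝[>] 0) (𝓝 0) := by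
    have h0 : (𝓝 (0 : ℝ)) = 𝓝 (∫ y, (0 : ℝ) ∂μ) := by simp
    rw [show Tendsto (fun η : ℝ => ∫ y, bump c η (sg y κ₀) * |G (sg y)| ∂μ) (𝓝[>] 0) (𝓝 0) ↔
      Tendsto (fun η : ℝ => ∫ y, bump c η (sg y κ₀) * |G (sg y)| ∂μ) (𝓝[>] 0)
        (𝓝 (∫ y, (0 : ℝ) ∂μ)) from by rw [← h0]]
    refine tendsto_integral_filter_of_dominated_convergence (fun y => |G (sg y)|) ?_ ?_ hPint ?_
    · refine Eventually.of_forall fun η => ?_
      have h1 : Measurable fun y => bump c η (sg y κ₀) :=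
        (bump_cont c η).measurable.comp ((measurable_pi_apply κ₀).comp hsg)
      exact (h1.mul (hGa.measurable.comp hsg)).aestronglyMeasurable
    · refine Eventually.of_forall fun η => ae_of_all _ fun y => ?_
      rw [norm_mul, Real.norm_eq_abs, Real.norm_eq_abs, abs_of_nonneg (bump_nonneg _ _ _), abs_abs]
      exact mul_le_of_le_one_left (abs_nonneg _) (bump_le _ _ _)
    · filter_upwards [hnull] with y hy
      have hy' : 0 < |sg y κ₀ - c| / 2 := by
        have := abs_pos.2 (sub_ne_zero.2 hy)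
        linarith
      refine tendsto_const_nhds.congr' ?_
      filter_upwards [Ioo_mem_nhdsGT hy'] with η hη
      rw [bump_zero hη.1 (by linarith [hη.2]), zero_mul]
  rw [Metric.tendsto_atTop']
  intro ε hε
  -- choose η
  obtain ⟨η, hη, hη1, hη2⟩ : ∃ η : ℝ, 0 < η ∧
      a * |(∫ y, (M * ramp c η (sg y κ₀)) * G (sg y) ∂μ) -
        ∫ y, (if sg y κ₀ < c then M else 0) * G (sg y) ∂μ| < ε / 8 ∧
      a * (2 * M * ∫ y, bump c η (sg y κ₀) * |G (sg y)| ∂μ) < ε / 8 := by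
    have h1 : Tendsto (fun η : ℝ => a * |(∫ y, (M * ramp c η (sg y κ₀)) * G (sg y) ∂μ) -
        ∫ y, (if sg y κ₀ < c then M else 0) * G (sg y) ∂μ|) (𝓝[>] 0) (𝓝 0) := by
      have := ((hr.sub_const (∫ y, (if sg y κ₀ < c then M else 0) * G (sg y) ∂μ)).abs).const_mul a
      simpa using this
    have h2 : Tendsto (fun η : ℝ => a * (2 * M * ∫ y, bump c η (sg y κ₀) * |G (sg y)| ∂μ))
        (𝓝[>] 0) (𝓝 0) := by
      have := (hb.const_mul (2 * M)).const_mul a
      simpa using this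
    have h3 := (h1.eventually_lt_const (by positivity : (0 : ℝ) < ε / 8)).and
      ((h2.eventually_lt_const (by positivity : (0 : ℝ) < ε / 8)).and self_mem_nhdsWithin)
    obtain ⟨η, hη⟩ := h3.exists
    exact ⟨η, hη.2.2, hη.1, hη.2.1⟩
  -- choose δ
  obtain ⟨δ, hδ, hδ1⟩ : ∃ δ : ℝ, 0 < δ ∧ δ * (a * ∫ y, |G (sg y)| ∂μ) < ε / 8 := by
    have hnn : 0 ≤ a * ∫ y, |G (sg y)| ∂μ := mul_nonneg ha (integral_nonneg fun y => abs_nonneg _)
    refine ⟨ε / 8 / (2 * (a * (∫ y, |G (sg y)| ∂μ) + 1)), by positivity, ?_⟩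
    rw [div_mul_eq_mul_div, div_lt_iff₀ (by positivity)]
    nlinarith
  -- the three limits
  have hR : Continuous fun s : Fin 6 → ℝ => (M * ramp c η (s κ₀)) * G s := by
    have := ramp_cont c η
    fun_prop
  have hRs : CSupp fun s : Fin 6 → ℝ => (M * ramp c η (s κ₀)) * G s := csupp_mul hGs _
  have hBc : Continuous fun s : Fin 6 → ℝ => bump c η (s κ₀) * |G s| := by
    have := bump_cont c η
    fun_prop
  have hBs : CSupp fun s : Fin 6 → ℝ => bump c η (s κ₀) * |G s| := csupp_mul hGas _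
  have l1 := hlim _ hR hRs
  have l2 := hlim _ hBc hBs
  have l3 := hlim _ hGa hGas
  have e1 := (Metric.tendsto_atTop'.1 l1) (ε / 8) (by positivity)
  have e2 := (l2.const_mul (2 * M)).eventually_lt_const
    (show 2 * M * (a * ∫ y, bump c η (sg y κ₀) * |G (sg y)| ∂μ) < ε / 4 by
      calc 2 * M * (a * ∫ y, bump c η (sg y κ₀) * |G (sg y)| ∂μ) =
          a * (2 * M * ∫ y, bump c η (sg y κ₀) * |G (sg y)| ∂μ) := by ring
        _ < ε / 4 := by linarith)
  have e3 := (l3.const_mul δ).eventually_lt_const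
    (show δ * (a * ∫ y, |G (sg y)| ∂μ) < ε / 4 by linarith)
  obtain ⟨N1, e1⟩ := e1
  obtain ⟨N2, hN2⟩ := ((eventually_gt_atTop (0 : ℝ)).and (e2.and (e3.and ((hF1 η hη δ hδ).and
    (hF0 η hη δ hδ))))).exists_forall_of_atTop
  refine ⟨max N1 N2, fun L hL => ?_⟩
  have e1' := e1 L (lt_of_le_of_lt (le_max_left _ _) hL)
  obtain ⟨hL0, e2', e3', f1, f0⟩ := hN2 L ((le_max_right _ _).trans hL.le)
  rw [Real.dist_eq] at e1' ⊢
  -- the sums are finite
  have hsupp : ∀ H : (Fin 6 → ℝ) → ℝ, CSupp H → ∀ g : ι → ℝ,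
      Summable fun q => g q * H (fun κ => ob q κ / L) := by
    rintro H ⟨B, hB⟩ g
    refine summable_of_hasFiniteSupport ((hfin (B * L)).subset ?_)
    intro q hq κ
    by_contra hc
    push Not at hc
    apply hq
    have : H (fun κ => ob q κ / L) = 0 := hB _ ⟨κ, by rw [le_div_iff₀ hL0]; exact hc.le⟩
    simp only [this, mul_zero]
  have hLK : 0 < L ^ K := by positivity
  have s1 : Summable fun q => wt q * (F L (ob q κ₀ / L) * G (fun κ => ob q κ / L)) := by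
    have := hsupp G hGs (fun q => wt q * F L (ob q κ₀ / L))
    refine this.congr fun q => by ring
  have s2 : Summable fun q => wt q * ((M * ramp c η (ob q κ₀ / L)) * G (fun κ => ob q κ / L)) := by
    have := hsupp G hGs (fun q => wt q * (M * ramp c η (ob q κ₀ / L)))
    refine this.congr fun q => by ring
  have s3 : Summable fun q => wt q * |G (fun κ => ob q κ / L)| := hsupp _ hGas wt
  have s4 : Summable fun q => wt q * (bump c η (ob q κ₀ / L) * |G (fun κ => ob q κ / L)|) := by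
    have := hsupp _ hGas (fun q => wt q * bump c η (ob q κ₀ / L))
    refine this.congr fun q => by ring
  have key : |(∑' q, wt q * (F L (ob q κ₀ / L) * G (fun κ => ob q κ / L))) -
      ∑' q, wt q * ((M * ramp c η (ob q κ₀ / L)) * G (fun κ => ob q κ / L))| ≤
      δ * (∑' q, wt q * |G (fun κ => ob q κ / L)|) +
        2 * M * ∑' q, wt q * (bump c η (ob q κ₀ / L) * |G (fun κ => ob q κ / L)|) := by
    rw [← s1.tsum_sub s2, ← tsum_mul_left, ← tsum_mul_left,
      ← (s3.mul_left δ).tsum_add (s4.mul_left (2 * M))]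
    have hterm : ∀ q, ‖wt q * (F L (ob q κ₀ / L) * G (fun κ => ob q κ / L)) -
        wt q * ((M * ramp c η (ob q κ₀ / L)) * G (fun κ => ob q κ / L))‖ ≤
        δ * (wt q * |G (fun κ => ob q κ / L)|) +
          2 * M * (wt q * (bump c η (ob q κ₀ / L) * |G (fun κ => ob q κ / L)|)) := by
      intro q
      have h1 : wt q * (F L (ob q κ₀ / L) * G (fun κ => ob q κ / L)) -
        wt q * ((M * ramp c η (ob q κ₀ / L)) * G (fun κ => ob q κ / L)) =
        wt q * ((F L (ob q κ₀ / L) - M * ramp c η (ob q κ₀ / L)) * G (fun κ => ob q κ / L)) := by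
        ring
      rw [h1, norm_mul, norm_mul, Real.norm_eq_abs, Real.norm_eq_abs, Real.norm_eq_abs,
        abs_of_nonneg (hwt q)]
      have h2 := point (M := M) (c := c) (η := η) (δ := δ) (s := ob q κ₀ / L)
        (f := F L (ob q κ₀ / L)) hη hδ.le hM (hF _ _) (fun h => f1 _ h) (fun h => f0 _ h)
      calc wt q * (|F L (ob q κ₀ / L) - M * ramp c η (ob q κ₀ / L)| * |G (fun κ => ob q κ / L)|)
          ≤ wt q * ((δ + 2 * M * bump c η (ob q κ₀ / L)) * |G (fun κ => ob q κ / L)|) := by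
            apply mul_le_mul_of_nonneg_left _ (hwt q)
            exact mul_le_mul_of_nonneg_right h2 (abs_nonneg _)
        _ = _ := by ring
    have hsR := (s3.mul_left δ).add (s4.mul_left (2 * M))
    have := tsum_of_norm_bounded hsR.hasSum hterm
    rw [Real.norm_eq_abs] at this
    exact this
  have key2 : |(∑' q, wt q * (F L (ob q κ₀ / L) * G (fun κ => ob q κ / L))) / L ^ K -
      (∑' q, wt q * ((M * ramp c η (ob q κ₀ / L)) * G (fun κ => ob q κ / L))) / L ^ K| ≤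
      δ * ((∑' q, wt q * |G (fun κ => ob q κ / L)|) / L ^ K) +
        2 * M * ((∑' q, wt q * (bump c η (ob q κ₀ / L) * |G (fun κ => ob q κ / L)|)) / L ^ K) := by
    rw [← sub_div, abs_div, abs_of_pos hLK]
    calc _ ≤ (δ * (∑' q, wt q * |G (fun κ => ob q κ / L)|) +
        2 * M * ∑' q, wt q * (bump c η (ob q κ₀ / L) * |G (fun κ => ob q κ / L)|)) / L ^ K :=
          div_le_div_of_nonneg_right key hLK.le
      _ = _ := by ring
  have t1 : |a * (∫ y, (M * ramp c η (sg y κ₀)) * G (sg y) ∂μ) -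
      a * ∫ y, (if sg y κ₀ < c then M else 0) * G (sg y) ∂μ| < ε / 8 := by
    rw [← mul_sub, abs_mul, abs_of_nonneg ha]
    exact hη1
  have tri : ∀ x y z t : ℝ, |x - t| ≤ |x - y| + |y - z| + |z - t| := by
    intro x y z t
    have h1 := abs_sub_le x y t
    have h2 := abs_sub_le y z t
    linarith
  refine lt_of_le_of_lt (tri _
    ((∑' q, wt q * ((M * ramp c η (ob q κ₀ / L)) * G (fun κ => ob q κ / L))) / L ^ K)
    (a * ∫ y, (M * ramp c η (sg y κ₀)) * G (sg y) ∂μ) _) ?_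
  linarith

/-! ### the case of `S9` -/

namespace WCut

open S9lim

lemma ae_mu_ne (t : ℝ) : ∀ᵐ x ∂mu, x ≠ t := by
  unfold mu
  exact ae_restrict_of_ae (Measure.ae_ne volume t)

lemma ae_mu3_ne (t : ℝ) : ∀ᵐ p ∂mu3, p.1 ≠ t := by
  unfold mu3
  exact Measure.quasiMeasurePreserving_fst.ae (ae_mu_ne t)

lemma ae9_ne (c : ℝ) : ∀ᵐ y ∂mu9, sg9 y 3 ≠ c := by
  have hm : MeasurableSet {y : (ℝ × ℝ × ℝ) × (ℝ × ℝ × ℝ) × (ℝ × ℝ × ℝ) |
      y.1.1 + y.2.1.1 + y.2.2.1 ≠ c} := by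
    have : Measurable fun y : (ℝ × ℝ × ℝ) × (ℝ × ℝ × ℝ) × (ℝ × ℝ × ℝ) =>
      y.1.1 + y.2.1.1 + y.2.2.1 := by fun_prop
    exact (this (measurableSet_singleton c)).compl
  have key : ∀ᵐ y ∂mu9, y ∈ {y : (ℝ × ℝ × ℝ) × (ℝ × ℝ × ℝ) × (ℝ × ℝ × ℝ) |
      y.1.1 + y.2.1.1 + y.2.2.1 ≠ c} := by
    unfold mu9
    rw [Measure.ae_prod_mem_iff_ae_ae_mem hm]
    refine ae_of_all _ fun x => ?_
    have hm2 : MeasurableSet {z : (ℝ × ℝ × ℝ) × (ℝ × ℝ × ℝ) | x.1 + z.1.1 + z.2.1 ≠ c} := by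
      have : Measurable fun z : (ℝ × ℝ × ℝ) × (ℝ × ℝ × ℝ) => x.1 + z.1.1 + z.2.1 := by fun_prop
      exact (this (measurableSet_singleton c)).compl
    have h2 : ∀ᵐ z ∂(mu3.prod mu3), z ∈ {z : (ℝ × ℝ × ℝ) × (ℝ × ℝ × ℝ) |
        x.1 + z.1.1 + z.2.1 ≠ c} := by
      rw [Measure.ae_prod_mem_iff_ae_ae_mem hm2]
      refine ae_of_all _ fun z => ?_
      filter_upwards [ae_mu3_ne (c - x.1 - z.1)] with t ht
      intro h
      apply ht
      linarith
    exact h2
  exact key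

end WCut

open S9lim

/-- `S9` tested with `F_L(r₀) G`, `F_L → M 1_{r₀ < c}` -/
theorem S9_cut {c : ℝ} {F : ℝ → ℝ → ℝ} {M : ℝ} (hM : 0 ≤ M) (hF : ∀ L s, |F L s| ≤ M)
    (hF1 : ∀ η : ℝ, 0 < η → ∀ δ : ℝ, 0 < δ → ∀ᶠ L in atTop, ∀ s, s ≤ c - η → |F L s - M| ≤ δ)
    (hF0 : ∀ η : ℝ, 0 < η → ∀ δ : ℝ, 0 < δ → ∀ᶠ L in atTop, ∀ s, c + η ≤ s → |F L s| ≤ δ)
    {G : (Fin 6 → ℝ) → ℝ} (hG : Continuous G) (hGs : CSupp G) :
    Tendsto (fun L : ℝ => (∑' q : TN, wg q * (F L (ob q 3 / L) * G (fun κ => ob q κ / L))) / L ^ 9)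
      atTop (𝓝 (ar 3 * ∫ y, (if sg9 y 3 < c then M else 0) * G (sg9 y) ∂mu9)) := by
  refine weak_cut (fun q => (wg_pos q).le) finite_ob sg9_cont.measurable ?_ ?_
    (a := ar 3) (Real.exp_pos _).le ?_ (ae9_ne c) hM hF hF1 hF0 hG hGs
  · filter_upwards [ae9] with y hy
    obtain ⟨⟨a0, a1, a2⟩, ⟨b0, b1, b2⟩, c0, c1, c2⟩ := hy
    intro κ
    fin_cases κ <;> simp only [sg9, Matrix.cons_val_zero, Matrix.cons_val_one,
      Matrix.cons_val, Fin.zero_eta, Fin.mk_one, Fin.reduceFinMk] <;> positivity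
  · have := (lap_mu9 (x := fun _ => 1) (fun _ => one_pos)).1
    simpa using this
  · intro G hG hGs
    obtain ⟨B, hB⟩ := hGs
    have e : ∀ s : Fin 6 → ℝ, gv (fun s₀ s₁ s₂ r₀ r₁ r₂ => G ![s₀, s₁, s₂, r₀, r₁, r₂]) s = G s := by
      intro s
      have h : (![s 0, s 1, s 2, s 3, s 4, s 5] : Fin 6 → ℝ) = s := by
        funext κ
        fin_cases κ <;> rfl
      show G ![s 0, s 1, s 2, s 3, s 4, s 5] = G s
      rw [h]
    have hc : Cont6 (fun s₀ s₁ s₂ r₀ r₁ r₂ => G ![s₀, s₁, s₂, r₀, r₁, r₂]) := by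
      refine hG.comp (continuous_pi fun κ => ?_)
      fin_cases κ <;> simp only [Matrix.cons_val_zero, Matrix.cons_val_one, Matrix.cons_val,
        Fin.zero_eta, Fin.mk_one, Fin.reduceFinMk] <;> fun_prop
    have h := S9_tendsto hc B (fun s₀ s₁ s₂ r₀ r₁ r₂ h => by
      rcases h with h | h | h
      · exact hB _ ⟨3, h⟩
      · exact hB _ ⟨4, h⟩
      · exact hB _ ⟨5, h⟩)
    rw [I9_eq] at h
    simp_rw [S9_eq, e] at h
    exact h

end Pool.Agent.SixT
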