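import Mathlib
import Pool.Agent.Lib_MP_112ba8_t.WeakCut
import Pool.Agent.Lib_MP_112ba8_e.Diag

/-!
The second sum of D5.
-/

namespace Pool.Agent.SixT

open Filter Topology MeasureTheory
open Pool.Agent.EvenMoment (cl Wgt Sz ker ar dg_hcs)

namespace XZCb

/-- `∫ w(u) (1 - exp(-u e^{L (c - s)} / (2 π)))^A du` -/
noncomputable def WL (w : ℝ → ℝ) (A : ℕ) (c L s : ℝ) : ℝ :=
  ∫ u, w u * (1 - Real.exp (-(u * Real.exp (L * (c - s)) / (2 * Real.pi)))) ^ A

variable {w : ℝ → ℝ} {A : ℕ} {c L s : ℝ}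

lemma w_int (hw : Wgt w) : Integrable w :=
  hw.smooth.continuous.integrable_of_hasCompactSupport (dg_hcs hw)

lemma WL_int (hw : Wgt w) : Integrable fun u =>
    w u * (1 - Real.exp (-(u * Real.exp (L * (c - s)) / (2 * Real.pi)))) ^ A := by
  have hc : Continuous fun u : ℝ =>
      (1 - Real.exp (-(u * Real.exp (L * (c - s)) / (2 * Real.pi)))) ^ A := by fun_prop
  refine (hw.smooth.continuous.mul hc).integrable_of_hasCompactSupport ?_
  exact (dg_hcs hw).mul_right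

/-- pointwise facts about the damping factor -/
lemma dmp {x : ℝ} (hx : 0 ≤ x) : 0 ≤ 1 - Real.exp (-x) ∧ 1 - Real.exp (-x) ≤ 1 ∧
    1 - Real.exp (-x) ≤ x := by
  have h1 : Real.exp (-x) ≤ 1 := Real.exp_le_one_iff.2 (by linarith)
  have h2 := Real.exp_pos (-x)
  have h3 := Real.add_one_le_exp (-x)
  exact ⟨by linarith, by linarith, by linarith⟩

lemma w_cases (hw : Wgt w) (u : ℝ) : w u = 0 ∨ (0 < u ∧ u ≤ 1) := by
  obtain ⟨a, ha, _, hs⟩ := hw.supp
  by_cases h : u < a ∨ 1 < u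
  · exact Or.inl (hs u h)
  · push Not at h
    exact Or.inr ⟨by linarith [h.1], h.2⟩

lemma WL_nonneg (hw : Wgt w) : 0 ≤ WL w A c L s := by
  refine integral_nonneg fun u => ?_
  rcases w_cases hw u with h | ⟨h1, h2⟩
  · simp [h]
  · have hx : 0 ≤ u * Real.exp (L * (c - s)) / (2 * Real.pi) := by
      have := Real.pi_pos
      positivity
    exact mul_nonneg (hw.nonneg u) (pow_nonneg (dmp hx).1 A)

lemma WL_le (hw : Wgt w) : WL w A c L s ≤ ∫ u, w u := by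
  refine integral_mono (WL_int hw) (w_int hw) fun u => ?_
  rcases w_cases hw u with h | ⟨h1, h2⟩
  · simp [h]
  · have hx : 0 ≤ u * Real.exp (L * (c - s)) / (2 * Real.pi) := by
      have := Real.pi_pos
      positivity
    exact mul_le_of_le_one_right (hw.nonneg u) (pow_le_one₀ (dmp hx).1 (dmp hx).2.1)

lemma WL_abs (hw : Wgt w) : |WL w A c L s| ≤ ∫ u, w u := by
  rw [abs_of_nonneg (WL_nonneg hw)]
  exact WL_le hw

/-- decay for large `s` -/
lemma WL_decay (hw : Wgt w) (hA : 0 < A) : WL w A c L s ≤ (∫ u, w u) * Real.exp (L * (c - s)) := by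
  rw [← integral_mul_const]
  refine integral_mono (WL_int hw) ((w_int hw).mul_const _) fun u => ?_
  rcases w_cases hw u with h | ⟨h1, h2⟩
  · simp [h]
  · have hpi := Real.pi_gt_three
    have hE := Real.exp_pos (L * (c - s))
    have hx : 0 ≤ u * Real.exp (L * (c - s)) / (2 * Real.pi) := by positivity
    obtain ⟨d1, d2, d3⟩ := dmp hx
    have h3 : (1 - Real.exp (-(u * Real.exp (L * (c - s)) / (2 * Real.pi)))) ^ A ≤
        1 - Real.exp (-(u * Real.exp (L * (c - s)) / (2 * Real.pi))) :=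
      pow_le_of_le_one d1 d2 hA.ne'
    have h4 : u * Real.exp (L * (c - s)) / (2 * Real.pi) ≤ Real.exp (L * (c - s)) := by
      rw [div_le_iff₀ (by positivity)]
      nlinarith
    exact mul_le_mul_of_nonneg_left (h3.trans (d3.trans h4)) (hw.nonneg u)

/-- close to the mass for small `s` -/
lemma WL_close (hw : Wgt w) {a η : ℝ} (ha : 0 < a) (hs : ∀ x, (x < a ∨ 1 < x) → w x = 0)
    (hL : 0 ≤ L) (h : s ≤ c - η) :
    |WL w A c L s - ∫ u, w u| ≤
      (∫ u, w u) * (A * Real.exp (-(a * Real.exp (L * η) / (2 * Real.pi)))) := by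
  rw [abs_sub_comm, abs_of_nonneg (sub_nonneg.2 (WL_le hw)), WL, ← integral_sub (w_int hw) (WL_int hw),
    ← integral_mul_const]
  refine integral_mono ((w_int hw).sub (WL_int hw)) ((w_int hw).mul_const _) fun u => ?_
  simp only
  by_cases h1 : u < a ∨ 1 < u
  · simp [hs u h1]
  · push Not at h1
    have hpi := Real.pi_pos
    have hE := Real.exp_pos (L * (c - s))
    have hu : 0 < u := by linarith [h1.1]
    set x := u * Real.exp (L * (c - s)) / (2 * Real.pi) with hxd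
    have hx : 0 ≤ x := by positivity
    obtain ⟨d1, d2, d3⟩ := dmp hx
    have h2 : 1 - A * Real.exp (-x) ≤ (1 - Real.exp (-x)) ^ A := by
      have := one_add_mul_le_pow (a := -Real.exp (-x)) (by linarith) A
      have e : (1 + -Real.exp (-x)) = 1 - Real.exp (-x) := by ring
      rw [e] at this
      linarith
    have h3 : a * Real.exp (L * η) / (2 * Real.pi) ≤ x := by
      rw [hxd]
      apply div_le_div_of_nonneg_right _ (by positivity)
      have : Real.exp (L * η) ≤ Real.exp (L * (c - s)) := Real.exp_le_exp.2 (by nlinarith)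
      calc a * Real.exp (L * η) ≤ u * Real.exp (L * η) :=
            mul_le_mul_of_nonneg_right h1.1 (Real.exp_pos _).le
        _ ≤ _ := mul_le_mul_of_nonneg_left this hu.le
    have h4 : Real.exp (-x) ≤ Real.exp (-(a * Real.exp (L * η) / (2 * Real.pi))) :=
      Real.exp_le_exp.2 (by linarith)
    have h5 : (A : ℝ) * Real.exp (-x) ≤ A * Real.exp (-(a * Real.exp (L * η) / (2 * Real.pi))) :=
      mul_le_mul_of_nonneg_left h4 (Nat.cast_nonneg A)
    calc w u - w u * (1 - Real.exp (-x)) ^ A = w u * (1 - (1 - Real.exp (-x)) ^ A) := by ring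
      _ ≤ _ := mul_le_mul_of_nonneg_left (by linarith) (hw.nonneg u)

lemma WL_lim1 (hw : Wgt w) : ∀ η : ℝ, 0 < η → ∀ δ : ℝ, 0 < δ → ∀ᶠ L in atTop, ∀ s, s ≤ c - η →
    |WL w A c L s - ∫ u, w u| ≤ δ := by
  intro η hη δ hδ
  obtain ⟨a, ha, _, hs⟩ := hw.supp
  have hpi := Real.pi_pos
  have h1 : Tendsto (fun L : ℝ => a * Real.exp (L * η) / (2 * Real.pi)) atTop atTop := by
    have h2 : Tendsto (fun L : ℝ => Real.exp (L * η)) atTop atTop :=
      Real.tendsto_exp_atTop.comp (tendsto_id.atTop_mul_const hη)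
    exact (h2.const_mul_atTop ha).atTop_div_const (by positivity)
  have h2 : Tendsto (fun L : ℝ => (∫ u, w u) *
      (A * Real.exp (-(a * Real.exp (L * η) / (2 * Real.pi))))) atTop (𝓝 0) := by
    have h3 : Tendsto (fun L : ℝ => Real.exp (-(a * Real.exp (L * η) / (2 * Real.pi)))) atTop (𝓝 0) :=
      Real.tendsto_exp_neg_atTop_nhds_zero.comp h1
    have := (h3.const_mul (A : ℝ)).const_mul (∫ u, w u)
    simpa using this
  filter_upwards [h2.eventually_le_const hδ, eventually_ge_atTop 0] with L hL hL0 s hsc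
  exact (WL_close hw ha hs hL0 hsc).trans hL

lemma WL_lim0 (hw : Wgt w) (hA : 0 < A) : ∀ η : ℝ, 0 < η → ∀ δ : ℝ, 0 < δ → ∀ᶠ L in atTop, ∀ s,
    c + η ≤ s → |WL w A c L s| ≤ δ := by
  intro η hη δ hδ
  have hM : 0 ≤ ∫ u, w u := integral_nonneg hw.nonneg
  have h2 : Tendsto (fun L : ℝ => (∫ u, w u) * Real.exp (-(L * η))) atTop (𝓝 0) := by
    have h3 : Tendsto (fun L : ℝ => Real.exp (-(L * η))) atTop (𝓝 0) :=
      Real.tendsto_exp_neg_atTop_nhds_zero.comp (tendsto_id.atTop_mul_const hη)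
    have := h3.const_mul (∫ u, w u)
    simpa using this
  filter_upwards [h2.eventually_le_const hδ, eventually_ge_atTop 0] with L hL hL0 s hsc
  rw [abs_of_nonneg (WL_nonneg hw)]
  refine (WL_decay hw hA).trans (le_trans ?_ hL)
  exact mul_le_mul_of_nonneg_left (Real.exp_le_exp.2 (by nlinarith)) hM

end XZCb

namespace XZCb

open S9lim WCut

/-! ### the limit of the full sum -/

/-- the tuple sum with `WL` -/
noncomputable def SL (w : ℝ → ℝ) (A : ℕ) (c : ℝ) (Ψ : ℝ → ℝ → ℝ → ℝ) (L : ℝ) : ℝ :=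
  ∑' q : TN, wg q * (WL w A c L (ob q 3 / L) * Ψ (ob q 4 / L) (ob q 5 / L) (ob q 2 / L))

/-- `Ψ` is bounded -/
lemma Psi_bdd {Ψ : ℝ → ℝ → ℝ → ℝ} (hΨ : Tst Ψ) : ∃ C : ℝ, 0 < C ∧ ∀ x y z, |Ψ x y z| ≤ C := by
  obtain ⟨a, b, ha, hs⟩ := hΨ.supp
  have hK : IsCompact (Set.Icc a b ×ˢ (Set.Icc a b ×ˢ Set.Icc a b)) :=
    isCompact_Icc.prod (isCompact_Icc.prod isCompact_Icc)
  obtain ⟨C, hC⟩ := hK.exists_bound_of_continuousOn hΨ.smooth.continuous.continuousOn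
  refine ⟨max C 1, by positivity, fun x y z => ?_⟩
  by_cases h : x < a ∨ y < a ∨ z < a ∨ b < x ∨ b < y ∨ b < z
  · rw [hs x y z h, abs_zero]
    positivity
  · push Not at h
    have := hC (x, y, z) ⟨⟨h.1, h.2.2.2.1⟩, ⟨h.2.1, h.2.2.2.2.1⟩, ⟨h.2.2.1, h.2.2.2.2.2⟩⟩
    exact this.trans (le_max_left _ _)

/-- on the support of `Ψ` the three small observables are at most `1`; the others are controlled
by `ob 3` -/
lemma ob_bound {Ψ : ℝ → ℝ → ℝ → ℝ} (h1 : ∀ x y z, Ψ x y z ≠ 0 → x ≤ 1 ∧ y ≤ 1 ∧ z ≤ 1)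
    {L : ℝ} (hL : 0 < L) {q : TN} (hq : Ψ (ob q 4 / L) (ob q 5 / L) (ob q 2 / L) ≠ 0) :
    ob q 0 + ob q 1 ≤ ob q 3 + 2 * L ∧ ∑ κ, ob q κ ≤ 2 * ob q 3 + 5 * L := by
  obtain ⟨a1, a2, a3⟩ := h1 _ _ _ hq
  rw [div_le_one hL] at a1 a2 a3
  have hs := ob_sum q
  have h2 := ob_nonneg q 2
  rw [Fin.sum_univ_six]
  constructor <;> linarith

variable {w : ℝ → ℝ} {A : ℕ} {c : ℝ} {Ψ : ℝ → ℝ → ℝ → ℝ}

/-- bound of the terms -/
lemma term_bound (hw : Wgt w) (hA : 0 < A) {C : ℝ} (hC : ∀ x y z, |Ψ x y z| ≤ C)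
    (h1 : ∀ x y z, Ψ x y z ≠ 0 → x ≤ 1 ∧ y ≤ 1 ∧ z ≤ 1) {L : ℝ} (hL : 0 < L) (q : TN) :
    |wg q * (WL w A c L (ob q 3 / L) * Ψ (ob q 4 / L) (ob q 5 / L) (ob q 2 / L))| ≤
      (C * (∫ u, w u) * Real.exp (L * c + 5 * L / 2)) *
        (wg q * Real.exp (-∑ κ, (1 / 2 : ℝ) * ob q κ)) := by
  have hM : 0 ≤ ∫ u, w u := integral_nonneg hw.nonneg
  have hC0 : 0 ≤ C := (abs_nonneg _).trans (hC 0 0 0)
  have hwg := (wg_pos q).le
  rw [abs_mul, abs_of_nonneg hwg]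
  by_cases h : Ψ (ob q 4 / L) (ob q 5 / L) (ob q 2 / L) = 0
  · rw [h, mul_zero, abs_zero, mul_zero]
    positivity
  · obtain ⟨_, h2⟩ := ob_bound h1 hL h
    rw [abs_mul, abs_of_nonneg (WL_nonneg hw)]
    have h3 := WL_decay (c := c) (L := L) (s := ob q 3 / L) hw hA
    have h4 : L * (c - ob q 3 / L) = L * c - ob q 3 := by field_simp
    rw [h4] at h3
    have h5 : Real.exp (L * c - ob q 3) ≤
        Real.exp (L * c + 5 * L / 2) * Real.exp (-∑ κ, (1 / 2 : ℝ) * ob q κ) := by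
      rw [← Real.exp_add, ← Finset.mul_sum]
      exact Real.exp_le_exp.2 (by linarith)
    calc wg q * (WL w A c L (ob q 3 / L) * |Ψ (ob q 4 / L) (ob q 5 / L) (ob q 2 / L)|)
        ≤ wg q * (((∫ u, w u) * (Real.exp (L * c + 5 * L / 2) *
            Real.exp (-∑ κ, (1 / 2 : ℝ) * ob q κ))) * C) := by
          apply mul_le_mul_of_nonneg_left _ hwg
          apply mul_le_mul (h3.trans (mul_le_mul_of_nonneg_left h5 hM)) (hC _ _ _) (abs_nonneg _)
          positivity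
      _ = _ := by ring

lemma SL_summable (hw : Wgt w) (hA : 0 < A) {C : ℝ} (hC : ∀ x y z, |Ψ x y z| ≤ C)
    (h1 : ∀ x y z, Ψ x y z ≠ 0 → x ≤ 1 ∧ y ≤ 1 ∧ z ≤ 1) {L : ℝ} (hL : 0 < L) :
    Summable fun q : TN =>
      wg q * (WL w A c L (ob q 3 / L) * Ψ (ob q 4 / L) (ob q 5 / L) (ob q 2 / L)) := by
  have hs := (lap_real (x := fun _ => (1 / 2 : ℝ)) (fun _ => by norm_num)).1
  exact Summable.of_norm_bounded (hs.mul_left _) fun q => term_bound hw hA hC h1 hL q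

/-- the truncated test function -/
noncomputable def GT (Ψ : ℝ → ℝ → ℝ → ℝ) (s : Fin 6 → ℝ) : ℝ :=
  Ψ (s 4) (s 5) (s 2) * (chi 8 (s 3) * (chi 12 (s 0) * chi 12 (s 1)))

lemma GT_cont (hΨ : Tst Ψ) : Continuous (GT Ψ) := by
  have h1 : Continuous fun s : Fin 6 → ℝ => Ψ (s 4) (s 5) (s 2) := by
    have h2 : Continuous fun s : Fin 6 → ℝ => ((s 4, s 5, s 2) : ℝ × ℝ × ℝ) := by fun_prop
    exact hΨ.smooth.continuous.comp h2
  have h3 : Continuous fun s : Fin 6 → ℝ => chi 8 (s 3) := (chi_cont 8).comp (continuous_apply 3)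
  have h4 : Continuous fun s : Fin 6 → ℝ => chi 12 (s 0) := (chi_cont 12).comp (continuous_apply 0)
  have h5 : Continuous fun s : Fin 6 → ℝ => chi 12 (s 1) := (chi_cont 12).comp (continuous_apply 1)
  exact h1.mul (h3.mul (h4.mul h5))

lemma GT_supp (h1 : ∀ x y z, Ψ x y z ≠ 0 → x ≤ 1 ∧ y ≤ 1 ∧ z ≤ 1) : CSupp (GT Ψ) := by
  refine ⟨12, ?_⟩
  rintro s ⟨κ, hκ⟩
  unfold GT
  have key : ∀ x y z, (12 ≤ x ∨ 12 ≤ y ∨ 12 ≤ z) → Ψ x y z = 0 := by
    intro x y z h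
    by_contra hc
    obtain ⟨a1, a2, a3⟩ := h1 x y z hc
    rcases h with h | h | h <;> linarith
  fin_cases κ
  · rw [chi_zero (s := s 0) hκ]; ring
  · rw [chi_zero (s := s 1) hκ]; ring
  · have h : (12 : ℝ) ≤ s 2 := hκ
    rw [key _ _ _ (Or.inr (Or.inr h))]; ring
  · rw [chi_zero (B := 8) (s := s 3) (by
      have : (12 : ℝ) ≤ s 3 := hκ
      linarith)]; ring
  · have h : (12 : ℝ) ≤ s 4 := hκ
    rw [key _ _ _ (Or.inl h)]; ring
  · have h : (12 : ℝ) ≤ s 5 := hκ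
    rw [key _ _ _ (Or.inr (Or.inl h))]; ring

/-- on admissible points the cut off in `s₀`, `s₁` is not active -/
lemma GT_eq (h1 : ∀ x y z, Ψ x y z ≠ 0 → x ≤ 1 ∧ y ≤ 1 ∧ z ≤ 1) {s : Fin 6 → ℝ}
    (h0 : ∀ κ, 0 ≤ s κ) (hs : s 0 + s 1 + s 2 = s 3 + s 4 + s 5) :
    GT Ψ s = Ψ (s 4) (s 5) (s 2) * chi 8 (s 3) := by
  unfold GT
  by_cases h : Ψ (s 4) (s 5) (s 2) = 0
  · rw [h]; ring
  · obtain ⟨a1, a2, a3⟩ := h1 _ _ _ h
    by_cases h8 : 8 ≤ s 3
    · rw [chi_zero h8]; ring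
    · push Not at h8
      have := h0 0
      have := h0 1
      have := h0 2
      rw [chi_one (B := 12) (s := s 0) (by linarith), chi_one (B := 12) (s := s 1) (by linarith)]
      ring

/-- the tail is negligible -/
lemma tail_bound (hw : Wgt w) (hA : 0 < A) (hc : c ≤ 1) {C : ℝ} (hC : ∀ x y z, |Ψ x y z| ≤ C)
    (h1 : ∀ x y z, Ψ x y z ≠ 0 → x ≤ 1 ∧ y ≤ 1 ∧ z ≤ 1) {L : ℝ} (hL : 0 < L) (q : TN) :
    |wg q * (WL w A c L (ob q 3 / L) * Ψ (ob q 4 / L) (ob q 5 / L) (ob q 2 / L)) -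
      wg q * (WL w A c L (ob q 3 / L) * GT Ψ (fun κ => ob q κ / L))| ≤
      (C * (∫ u, w u) * Real.exp (-(5 / 4 * L))) *
        (wg q * Real.exp (-∑ κ, (1 / 4 : ℝ) * ob q κ)) := by
  have hM : 0 ≤ ∫ u, w u := integral_nonneg hw.nonneg
  have hC0 : 0 ≤ C := (abs_nonneg _).trans (hC 0 0 0)
  have hwg := (wg_pos q).le
  have e := GT_eq (Ψ := Ψ) h1 (s := fun κ => ob q κ / L)
    (fun κ => div_nonneg (ob_nonneg q κ) hL.le) (ob_div_sum q L)
  rw [e]
  have e2 : wg q * (WL w A c L (ob q 3 / L) * Ψ (ob q 4 / L) (ob q 5 / L) (ob q 2 / L)) -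
      wg q * (WL w A c L (ob q 3 / L) * (Ψ (ob q 4 / L) (ob q 5 / L) (ob q 2 / L) *
        chi 8 (ob q 3 / L))) =
      wg q * (WL w A c L (ob q 3 / L) * (Ψ (ob q 4 / L) (ob q 5 / L) (ob q 2 / L) *
        (1 - chi 8 (ob q 3 / L)))) := by ring
  rw [e2, abs_mul, abs_of_nonneg hwg, abs_mul, abs_of_nonneg (WL_nonneg hw), abs_mul]
  by_cases h : Ψ (ob q 4 / L) (ob q 5 / L) (ob q 2 / L) = 0
  · rw [h, abs_zero, zero_mul, mul_zero, mul_zero]
    positivity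
  · by_cases h7 : ob q 3 / L ≤ 8 - 1
    · rw [chi_one h7, sub_self, abs_zero, mul_zero, mul_zero, mul_zero]
      positivity
    · push Not at h7
      rw [lt_div_iff₀ hL] at h7
      obtain ⟨_, h2⟩ := ob_bound h1 hL h
      have h3 := WL_decay (c := c) (L := L) (s := ob q 3 / L) hw hA
      have h4 : L * (c - ob q 3 / L) = L * c - ob q 3 := by field_simp
      rw [h4] at h3
      have h5 : Real.exp (L * c - ob q 3) ≤
          Real.exp (-(5 / 4 * L)) * Real.exp (-∑ κ, (1 / 4 : ℝ) * ob q κ) := by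
        rw [← Real.exp_add, ← Finset.mul_sum]
        apply Real.exp_le_exp.2
        nlinarith
      have h6 : |1 - chi 8 (ob q 3 / L)| ≤ 1 := by
        have a1 : 0 ≤ chi 8 (ob q 3 / L) := le_max_left _ _
        have a2 : chi 8 (ob q 3 / L) ≤ 1 := max_le zero_le_one (min_le_left _ _)
        rw [abs_of_nonneg (by linarith)]
        linarith
      calc wg q * (WL w A c L (ob q 3 / L) * (|Ψ (ob q 4 / L) (ob q 5 / L) (ob q 2 / L)| *
            |1 - chi 8 (ob q 3 / L)|))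
          ≤ wg q * (((∫ u, w u) * (Real.exp (-(5 / 4 * L)) *
            Real.exp (-∑ κ, (1 / 4 : ℝ) * ob q κ))) * (C * 1)) := by
            apply mul_le_mul_of_nonneg_left _ hwg
            apply mul_le_mul (h3.trans (mul_le_mul_of_nonneg_left h5 hM))
              (mul_le_mul (hC _ _ _) h6 (abs_nonneg _) hC0) (by positivity) (by positivity)
        _ = _ := by ring

theorem SL_tendsto (hw : Wgt w) (hΨ : Tst Ψ) (hA : 0 < A) (hc : c ≤ 1)
    (h1 : ∀ x y z, Ψ x y z ≠ 0 → x ≤ 1 ∧ y ≤ 1 ∧ z ≤ 1) :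
    Tendsto (fun L : ℝ => SL w A c Ψ L / L ^ 9) atTop
      (𝓝 ((∫ x, w x) * (ar 3 * I9 (fun s₀ s₁ s₂ r₀ r₁ r₂ =>
        (if r₀ < c then 1 else 0) * Ψ r₁ r₂ s₂)))) := by
  obtain ⟨C, hC0, hC⟩ := Psi_bdd hΨ
  have hM : 0 ≤ ∫ u, w u := integral_nonneg hw.nonneg
  have main := S9_cut (c := c) (F := fun L s => WL w A c L s) (M := ∫ u, w u) hM
    (fun L s => WL_abs hw) (WL_lim1 hw) (WL_lim0 hw hA) (GT_cont hΨ) (GT_supp h1)
  -- identify the limit
  have hlim : ar 3 * ∫ y, (if sg9 y 3 < c then ∫ u, w u else 0) * GT Ψ (sg9 y) ∂mu9 =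
      (∫ x, w x) * (ar 3 * I9 (fun s₀ s₁ s₂ r₀ r₁ r₂ =>
        (if r₀ < c then 1 else 0) * Ψ r₁ r₂ s₂)) := by
    have e : ∫ y, (if sg9 y 3 < c then ∫ u, w u else 0) * GT Ψ (sg9 y) ∂mu9 =
        (∫ x, w x) * I9 (fun s₀ s₁ s₂ r₀ r₁ r₂ => (if r₀ < c then 1 else 0) * Ψ r₁ r₂ s₂) := by
      rw [I9_eq, ← integral_const_mul]
      refine integral_congr_ae ?_
      filter_upwards [ae9] with y hy
      obtain ⟨⟨a0, a1, a2⟩, ⟨b0, b1, b2⟩, c0, c1, c2⟩ := hy
      have hpos : ∀ κ, 0 ≤ sg9 y κ := by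
        intro κ
        fin_cases κ <;> simp only [sg9, Matrix.cons_val_zero, Matrix.cons_val_one,
          Matrix.cons_val, Fin.zero_eta, Fin.mk_one, Fin.reduceFinMk] <;> positivity
      have hsum : sg9 y 0 + sg9 y 1 + sg9 y 2 = sg9 y 3 + sg9 y 4 + sg9 y 5 := by
        simp only [sg9, Matrix.cons_val_zero, Matrix.cons_val_one, Matrix.cons_val]
        ring
      rw [GT_eq h1 hpos hsum]
      show (if sg9 y 3 < c then ∫ u, w u else 0) * (Ψ (sg9 y 4) (sg9 y 5) (sg9 y 2) *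
        chi 8 (sg9 y 3)) = (∫ x, w x) * ((if sg9 y 3 < c then 1 else 0) *
          Ψ (sg9 y 4) (sg9 y 5) (sg9 y 2))
      by_cases h : sg9 y 3 < c
      · rw [if_pos h, if_pos h, chi_one (by linarith)]
        ring
      · rw [if_neg h, if_neg h]
        ring
    rw [e]
    ring
  rw [hlim] at main
  -- the difference
  set E := ∑' q : TN, wg q * Real.exp (-∑ κ, (1 / 4 : ℝ) * ob q κ) with hE
  have hs4 := (lap_real (x := fun _ => (1 / 4 : ℝ)) (fun _ => by norm_num)).1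
  have hdiff : Tendsto (fun L : ℝ => SL w A c Ψ L / L ^ 9 -
      (∑' q : TN, wg q * (WL w A c L (ob q 3 / L) * GT Ψ (fun κ => ob q κ / L))) / L ^ 9) atTop
      (𝓝 0) := by
    have h2 : Tendsto (fun L : ℝ => (C * (∫ u, w u) * Real.exp (-(5 / 4 * L))) * E) atTop (𝓝 0) := by
      have h3 : Tendsto (fun L : ℝ => Real.exp (-(5 / 4 * L))) atTop (𝓝 0) :=
        Real.tendsto_exp_neg_atTop_nhds_zero.comp
          (tendsto_id.const_mul_atTop (by norm_num : (0 : ℝ) < 5 / 4))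
      have := (h3.const_mul (C * (∫ u, w u))).mul_const E
      simpa using this
    refine squeeze_zero_norm' ?_ h2
    filter_upwards [eventually_ge_atTop (1 : ℝ)] with L hL
    have hL0 : 0 < L := by linarith
    have hL9 : 1 ≤ L ^ 9 := one_le_pow₀ hL
    have sA := SL_summable (c := c) hw hA hC h1 hL0
    have sD : Summable fun q : TN => (C * (∫ u, w u) * Real.exp (-(5 / 4 * L))) *
        (wg q * Real.exp (-∑ κ, (1 / 4 : ℝ) * ob q κ)) := hs4.mul_left _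
    have sdiff : Summable fun q : TN =>
        wg q * (WL w A c L (ob q 3 / L) * Ψ (ob q 4 / L) (ob q 5 / L) (ob q 2 / L)) -
        wg q * (WL w A c L (ob q 3 / L) * GT Ψ (fun κ => ob q κ / L)) :=
      Summable.of_norm_bounded sD fun q => tail_bound hw hA hc hC h1 hL0 q
    have sB : Summable fun q : TN =>
        wg q * (WL w A c L (ob q 3 / L) * GT Ψ (fun κ => ob q κ / L)) := by
      refine (sA.sub sdiff).congr fun q => ?_
      ring
    rw [← sub_div, SL, ← sA.tsum_sub sB, norm_div, Real.norm_of_nonneg (by positivity : 0 ≤ L ^ 9)]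
    have h4 : ‖∑' q : TN,
        (wg q * (WL w A c L (ob q 3 / L) * Ψ (ob q 4 / L) (ob q 5 / L) (ob q 2 / L)) -
        wg q * (WL w A c L (ob q 3 / L) * GT Ψ (fun κ => ob q κ / L)))‖ ≤ _ :=
      tsum_of_norm_bounded sD.hasSum fun q => tail_bound hw hA hc hC h1 hL0 q
    rw [tsum_mul_left] at h4
    refine (div_le_self (norm_nonneg _) hL9).trans h4
  have := hdiff.add main
  rw [zero_add] at this
  refine this.congr fun L => ?_
  ring

end XZCb

namespace XZCb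

open S9lim WCut

/-! ### reindexing -/

lemma card_anti (n : ℕ) : (Nat.divisorsAntidiagonal n).card = (Nat.divisors n).card := by
  rw [← Nat.map_div_right_divisors, Finset.card_map]

lemma tsum_mul_pnat {φ : ℕ → ℝ} (h : Summable fun x : ℕ+ × ℕ+ => φ (x.1 * x.2)) :
    ∑' x : ℕ+ × ℕ+, φ (x.1 * x.2) =
      ∑' m : ℕ, if 0 < m then ((Nat.divisors m).card : ℝ) * φ m else 0 := by
  have e1 : ∑' x : ℕ+ × ℕ+, φ (x.1 * x.2) =
      ∑' y : (Σ n : ℕ+, Nat.divisorsAntidiagonal n), φ y.1 :=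
    sigmaAntidiagonalEquivProd.symm.tsum_eq
      (fun y : (Σ n : ℕ+, Nat.divisorsAntidiagonal n) => φ y.1)
  have hs : Summable fun y : (Σ n : ℕ+, Nat.divisorsAntidiagonal n) => φ y.1 :=
    (sigmaAntidiagonalEquivProd.symm.summable_iff).1 h
  rw [e1, hs.tsum_sigma]
  have e2 : ∀ n : ℕ+, ∑' _y : Nat.divisorsAntidiagonal (n : ℕ), φ n =
      ((Nat.divisors (n : ℕ)).card : ℝ) * φ n := by
    intro n
    rw [tsum_fintype, Finset.sum_const, Finset.card_univ, Fintype.card_coe, card_anti, nsmul_eq_mul]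
  simp_rw [e2]
  have e3 := PNat.coe_injective.tsum_eq
    (f := fun m : ℕ => if 0 < m then ((Nat.divisors m).card : ℝ) * φ m else 0) (by
      intro m hm
      have hm0 : 0 < m := by
        by_contra hc
        apply hm
        simp only
        rw [if_neg hc]
      exact ⟨⟨m, hm0⟩, rfl⟩)
  rw [← e3]
  refine tsum_congr fun n => ?_
  rw [if_pos n.pos]

/-- index map -/
def EE (q : TN) : (ℕ+ × ℕ+ × ℕ+) × (ℕ+ × ℕ+) :=
  ((q.1.2.2.1, q.1.2.2.2, q.1.1.2.2), (q.1.1.1, q.1.1.2.1))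

lemma EE_inj : Function.Injective EE := by
  intro q q' h
  unfold EE at h
  simp only [Prod.mk.injEq] at h
  obtain ⟨⟨h1, h2, h3⟩, h4, h5⟩ := h
  have hq := q.2
  have hq' := q'.2
  have h0 : q.1.2.1 = q'.1.2.1 := by
    apply PNat.coe_injective
    rw [h4, h5, h3, hq', h1, h2] at hq
    have p1 : 0 < (q'.1.2.2.1 : ℕ) := q'.1.2.2.1.pos
    have p2 : 0 < (q'.1.2.2.2 : ℕ) := q'.1.2.2.2.pos
    have h6 := Nat.eq_of_mul_eq_mul_right p2 hq
    exact (Nat.eq_of_mul_eq_mul_right p1 h6).symm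
  apply Subtype.ext
  apply Prod.ext
  · exact Prod.ext h4 (Prod.ext h5 h3)
  · exact Prod.ext h0 (Prod.ext h1 h2)

/-- the terms in the new indices -/
noncomputable def gg (w : ℝ → ℝ) (A : ℕ) (c : ℝ) (Ψ : ℝ → ℝ → ℝ → ℝ) (L : ℝ) (a b k m : ℕ) : ℝ :=
  if a * b ∣ m * k then 1 / ((m : ℝ) * k) *
    (WL w A c L (Real.log (((m * k : ℕ) : ℝ) / ((a * b : ℕ) : ℝ)) / L) *
      Ψ (Real.log a / L) (Real.log b / L) (Real.log k / L)) else 0

lemma gg_EE (w : ℝ → ℝ) (A : ℕ) (c : ℝ) (Ψ : ℝ → ℝ → ℝ → ℝ) (L : ℝ) (q : TN) :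
    gg w A c Ψ L (EE q).1.1 (EE q).1.2.1 (EE q).1.2.2 ((EE q).2.1 * (EE q).2.2) =
      wg q * (WL w A c L (ob q 3 / L) * Ψ (ob q 4 / L) (ob q 5 / L) (ob q 2 / L)) := by
  have hq := q.2
  unfold gg EE
  simp only
  have hdiv : (q.1.2.2.1 : ℕ) * q.1.2.2.2 ∣ (q.1.1.1 : ℕ) * q.1.1.2.1 * q.1.1.2.2 := by
    rw [hq]
    exact ⟨q.1.2.1, by ring⟩
  rw [if_pos hdiv]
  have h1 : (((q.1.1.1 : ℕ) * q.1.1.2.1 * q.1.1.2.2 : ℕ) : ℝ) / (((q.1.2.2.1 : ℕ) * q.1.2.2.2 : ℕ) : ℝ) =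
      ((q.1.2.1 : ℕ) : ℝ) := by
    rw [hq]
    have p1 : ((q.1.2.2.1 : ℕ) : ℝ) ≠ 0 := by exact_mod_cast q.1.2.2.1.pos.ne'
    have p2 : ((q.1.2.2.2 : ℕ) : ℝ) ≠ 0 := by exact_mod_cast q.1.2.2.2.pos.ne'
    push_cast
    field_simp
  rw [h1]
  unfold wg ob
  simp only [Matrix.cons_val_zero, Matrix.cons_val_one, Matrix.cons_val]
  push_cast
  rfl

lemma gg_supp (w : ℝ → ℝ) (A : ℕ) (c : ℝ) (Ψ : ℝ → ℝ → ℝ → ℝ) (L : ℝ) :
    Function.support (fun p : (ℕ+ × ℕ+ × ℕ+) × (ℕ+ × ℕ+) =>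
      gg w A c Ψ L p.1.1 p.1.2.1 p.1.2.2 (p.2.1 * p.2.2)) ⊆ Set.range EE := by
  rintro ⟨⟨a, b, k⟩, n₀, n₁⟩ hp
  have hdiv : (a : ℕ) * b ∣ (n₀ : ℕ) * n₁ * k := by
    by_contra hc
    apply hp
    simp only [gg]
    rw [if_neg hc]
  obtain ⟨m, hm⟩ := hdiv
  have hpos : 0 < m := by
    rcases Nat.eq_zero_or_pos m with h | h
    · exfalso
      rw [h, mul_zero] at hm
      have : 0 < (n₀ : ℕ) * n₁ * k := by
        have := n₀.pos
        have := n₁.pos
        have := k.pos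
        positivity
      omega
    · exact h
  refine ⟨⟨((n₀, n₁, k), (⟨m, hpos⟩, a, b)), ?_⟩, rfl⟩
  show (n₀ : ℕ) * n₁ * k = m * a * b
  rw [hm]
  ring

theorem SL_eq {w : ℝ → ℝ} {A : ℕ} {c : ℝ} {Ψ : ℝ → ℝ → ℝ → ℝ} (hw : Wgt w) (hΨ : Tst Ψ)
    (hA : 0 < A) (h1 : ∀ x y z, Ψ x y z ≠ 0 → x ≤ 1 ∧ y ≤ 1 ∧ z ≤ 1) {L : ℝ} (hL : 0 < L) :
    SL w A c Ψ L = ∑ a ∈ NN L, ∑ b ∈ NN L, ∑ k ∈ NN L,
      ∑' m : ℕ, if 0 < m then ((Nat.divisors m).card : ℝ) * gg w A c Ψ L a b k m else 0 := by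
  obtain ⟨C, hC0, hC⟩ := Psi_bdd hΨ
  have hsum := SL_summable (c := c) hw hA hC h1 hL
  have e1 : SL w A c Ψ L = ∑' p : (ℕ+ × ℕ+ × ℕ+) × (ℕ+ × ℕ+),
      gg w A c Ψ L p.1.1 p.1.2.1 p.1.2.2 (p.2.1 * p.2.2) := by
    rw [← EE_inj.tsum_eq (gg_supp w A c Ψ L), SL]
    refine tsum_congr fun q => ?_
    exact (gg_EE w A c Ψ L q).symm
  have hs2 : Summable fun p : (ℕ+ × ℕ+ × ℕ+) × (ℕ+ × ℕ+) =>
      gg w A c Ψ L p.1.1 p.1.2.1 p.1.2.2 (p.2.1 * p.2.2) := by
    rw [← EE_inj.summable_iff (fun p hp => by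
      by_contra hc
      exact hp (gg_supp w A c Ψ L hc))]
    refine hsum.congr fun q => ?_
    exact (gg_EE w A c Ψ L q).symm
  rw [e1, hs2.tsum_prod]
  have e2 : ∀ p : ℕ+ × ℕ+ × ℕ+, ∑' x : ℕ+ × ℕ+, gg w A c Ψ L p.1 p.2.1 p.2.2 (x.1 * x.2) =
      ∑' m : ℕ, if 0 < m then ((Nat.divisors m).card : ℝ) * gg w A c Ψ L p.1 p.2.1 p.2.2 m else 0 := by
    intro p
    exact tsum_mul_pnat (φ := fun m => gg w A c Ψ L p.1 p.2.1 p.2.2 m) (hs2.prod_factor p)
  simp only [e2]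
  -- outer sum
  set H : ℕ → ℕ → ℕ → ℝ := fun a b k =>
    ∑' m : ℕ, if 0 < m then ((Nat.divisors m).card : ℝ) * gg w A c Ψ L a b k m else 0 with hH
  have hH0 : ∀ a b k : ℕ, 0 < a → 0 < b → 0 < k → ¬(a ∈ NN L ∧ b ∈ NN L ∧ k ∈ NN L) →
      H a b k = 0 := by
    intro a b k ha hb hk hn
    have hΨ0 : Ψ (Real.log a / L) (Real.log b / L) (Real.log k / L) = 0 := by
      by_contra hc
      obtain ⟨a1, a2, a3⟩ := h1 _ _ _ hc
      rw [div_le_one hL] at a1 a2 a3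
      apply hn
      have key : ∀ n : ℕ, 0 < n → Real.log n ≤ L → n ∈ NN L := by
        intro n hn hl
        unfold NN
        rw [Finset.mem_Icc]
        refine ⟨hn, Nat.le_floor ?_⟩
        have : (0 : ℝ) < n := by exact_mod_cast hn
        exact (Real.log_le_iff_le_exp this).1 hl
      exact ⟨key a ha a1, key b hb a2, key k hk a3⟩
    simp only [hH]
    have : ∀ m : ℕ, (if 0 < m then ((Nat.divisors m).card : ℝ) * gg w A c Ψ L a b k m else 0) = 0 := by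
      intro m
      split_ifs
      · unfold gg
        rw [hΨ0]
        simp
      · rfl
    simp only [this, tsum_zero]
  have e3 : ∑' p : ℕ+ × ℕ+ × ℕ+, H p.1 p.2.1 p.2.2 =
      ∑' p : ℕ × ℕ × ℕ, if p.1 ∈ NN L ∧ p.2.1 ∈ NN L ∧ p.2.2 ∈ NN L then H p.1 p.2.1 p.2.2 else 0 := by
    have hinj : Function.Injective (fun p : ℕ+ × ℕ+ × ℕ+ => ((p.1 : ℕ), (p.2.1 : ℕ), (p.2.2 : ℕ))) := by
      intro p p' h
      simp only [Prod.mk.injEq] at h
      exact Prod.ext (PNat.coe_injective h.1) (Prod.ext (PNat.coe_injective h.2.1)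
        (PNat.coe_injective h.2.2))
    rw [← hinj.tsum_eq]
    · refine tsum_congr fun p => ?_
      simp only
      split_ifs with h
      · rfl
      · exact hH0 _ _ _ p.1.pos p.2.1.pos p.2.2.pos h
    · rintro ⟨a, b, k⟩ hp
      have hp' : a ∈ NN L ∧ b ∈ NN L ∧ k ∈ NN L := by
        by_contra hc
        apply hp
        simp only
        rw [if_neg hc]
      obtain ⟨ha, hb, hk⟩ := hp'
      unfold NN at ha hb hk
      rw [Finset.mem_Icc] at ha hb hk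
      exact ⟨(⟨a, ha.1⟩, ⟨b, hb.1⟩, ⟨k, hk.1⟩), rfl⟩
  have e4 : ∑' p : ℕ × ℕ × ℕ, (if p.1 ∈ NN L ∧ p.2.1 ∈ NN L ∧ p.2.2 ∈ NN L then
      H p.1 p.2.1 p.2.2 else 0) = ∑ a ∈ NN L, ∑ b ∈ NN L, ∑ k ∈ NN L, H a b k := by
    rw [tsum_eq_sum (s := NN L ×ˢ (NN L ×ˢ NN L))]
    · rw [Finset.sum_product]
      refine Finset.sum_congr rfl fun a ha => ?_
      rw [Finset.sum_product]
      refine Finset.sum_congr rfl fun b hb => Finset.sum_congr rfl fun k hk => ?_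
      rw [if_pos ⟨ha, hb, hk⟩]
    · intro p hp
      rw [if_neg]
      intro h
      apply hp
      exact Finset.mem_product.2 ⟨h.1, Finset.mem_product.2 h.2⟩
  rw [e3, e4]

end XZCb

open XZCb

/-- the second sum of `mean_xzC` -/
theorem xzc_second_sum {w : ℝ → ℝ} (hw : Wgt w) {Ψ : ℝ → ℝ → ℝ → ℝ} (hΨ : Tst Ψ) {γ ε : ℝ}
    (hε : 0 < ε) (hγ : ε < γ) (hγ1 : γ ≤ 1 / 2)
    (hs : ∀ x y z, Ψ x y z ≠ 0 → x + y ≤ γ - ε ∧ z ≤ 1 - γ - ε) {A : ℕ} (hA : 0 < A) :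
    Tendsto (fun T : ℝ => (∑ a ∈ NN (Real.log T), ∑ b ∈ NN (Real.log T), ∑ k ∈ NN (Real.log T),
      Ψ (Real.log a / Real.log T) (Real.log b / Real.log T) (Real.log k / Real.log T) /
          Real.sqrt (a * b * k) *
        (Real.sqrt (((a * b : ℕ) : ℝ) / k) * ∑' m : ℕ, (if 0 < m ∧ a * b ∣ m * k then
          ((Nat.divisors m).card : ℝ) / m *
            ∫ u, w u * (1 - Real.exp (-(u * T * ((a * b : ℕ) : ℝ) /
              (2 * Real.pi * m * k * T ^ γ)))) ^ A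
          else 0))) / Real.log T ^ 9) atTop
      (𝓝 ((∫ x, w x) * (ar 3 * I9 (fun s₀ s₁ s₂ r₀ r₁ r₂ =>
        (if r₀ < 1 - γ then 1 else 0) * Ψ r₁ r₂ s₂)))) := by
  have h1 : ∀ x y z, Ψ x y z ≠ 0 → x ≤ 1 ∧ y ≤ 1 ∧ z ≤ 1 := by
    intro x y z h
    obtain ⟨a, b, ha, hab⟩ := hΨ.supp
    have hx : 0 < x ∧ 0 < y := by
      constructor
      · by_contra hc
        exact h (hab x y z (Or.inl (by linarith)))
      · by_contra hc
        exact h (hab x y z (Or.inr (Or.inl (by linarith))))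
    obtain ⟨h2, h3⟩ := hs x y z h
    exact ⟨by linarith, by linarith, by linarith⟩
  have main := (SL_tendsto (c := 1 - γ) hw hΨ hA (by linarith) h1).comp Real.tendsto_log_atTop
  refine main.congr' ?_
  filter_upwards [eventually_gt_atTop (1 : ℝ)] with T hT
  have hT0 : 0 < T := by linarith
  have hL : 0 < Real.log T := Real.log_pos hT
  set L := Real.log T with hLdef
  simp only [Function.comp_apply]
  rw [← hLdef, SL_eq (c := 1 - γ) hw hΨ hA h1 hL]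
  congr 1
  refine Finset.sum_congr rfl fun a ha => Finset.sum_congr rfl fun b hb =>
    Finset.sum_congr rfl fun k hk => ?_
  unfold NN at ha hb hk
  rw [Finset.mem_Icc] at ha hb hk
  have a0 : (0 : ℝ) < a := by exact_mod_cast ha.1
  have b0 : (0 : ℝ) < b := by exact_mod_cast hb.1
  have k0 : (0 : ℝ) < k := by exact_mod_cast hk.1
  have hsq : Ψ (Real.log a / L) (Real.log b / L) (Real.log k / L) / Real.sqrt (a * b * k) *
      Real.sqrt (((a * b : ℕ) : ℝ) / k) =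
      Ψ (Real.log a / L) (Real.log b / L) (Real.log k / L) / k := by
    have : Real.sqrt (((a * b : ℕ) : ℝ) / k) = Real.sqrt (a * b * k) / k := by
      have e : (((a * b : ℕ) : ℝ) / k) = (a * b * k) / k ^ 2 := by
        push_cast
        field_simp
      rw [e, Real.sqrt_div (by positivity), Real.sqrt_sq k0.le]
    rw [this]
    have hne : Real.sqrt ((a : ℝ) * b * k) ≠ 0 := by positivity
    field_simp
  rw [← mul_assoc, hsq, ← tsum_mul_left]
  refine tsum_congr fun m => ?_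
  by_cases hm : 0 < m
  · have m0 : (0 : ℝ) < m := by exact_mod_cast hm
    by_cases hd : a * b ∣ m * k
    · rw [if_pos hm, if_pos ⟨hm, hd⟩, gg, if_pos hd]
      have hW : WL w A (1 - γ) L (Real.log (((m * k : ℕ) : ℝ) / ((a * b : ℕ) : ℝ)) / L) =
          ∫ u, w u * (1 - Real.exp (-(u * T * ((a * b : ℕ) : ℝ) /
              (2 * Real.pi * m * k * T ^ γ)))) ^ A := by
        unfold WL
        refine integral_congr_ae (ae_of_all _ fun u => ?_)
        have e1 : Real.exp (L * (1 - γ - Real.log (((m * k : ℕ) : ℝ) / ((a * b : ℕ) : ℝ)) / L)) =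
            T / T ^ γ * (((a * b : ℕ) : ℝ) / ((m * k : ℕ) : ℝ)) := by
          have e2 : L * (1 - γ - Real.log (((m * k : ℕ) : ℝ) / ((a * b : ℕ) : ℝ)) / L) =
              (L - γ * L) - Real.log (((m * k : ℕ) : ℝ) / ((a * b : ℕ) : ℝ)) := by
            field_simp
          rw [e2, Real.exp_sub, Real.exp_sub, hLdef, Real.exp_log hT0, Real.exp_log (by
            push_cast
            positivity), Real.rpow_def_of_pos hT0, mul_comm (Real.log T) γ]
          push_cast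
          field_simp
        simp only
        rw [e1]
        have e3 : u * (T / T ^ γ * (((a * b : ℕ) : ℝ) / ((m * k : ℕ) : ℝ))) / (2 * Real.pi) =
            u * T * ((a * b : ℕ) : ℝ) / (2 * Real.pi * m * k * T ^ γ) := by
          push_cast
          field_simp
        rw [e3]
      rw [hW]
      have e4 : ∀ I P D : ℝ, D * (1 / ((m : ℝ) * k) * (I * P)) = P / k * (D / m * I) := by
        intro I P D
        field_simp
      exact e4 _ _ _
    · rw [if_pos hm, if_neg (fun h => hd h.2), gg, if_neg hd]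
      simp
  · rw [if_neg hm, if_neg (fun h => hm h.1)]
    simp

end Pool.Agent.SixT
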