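import Mathlib
import Pool.Agent.Lib_MP_112ba8_t.WeakCut
import Pool.Agent.Lib_MP_112ba8_t.S8lim

/-!
The functional `S8` tested with `F_L(s₁) G`, where `F_L → M 1_{s₁ < c}`.
-/

namespace Pool.Agent.SixT

open Filter Topology MeasureTheory
open Pool.Agent.EvenMoment (ar)

namespace WCut

open S9lim S8lim

lemma ae8_ne (c : ℝ) : ∀ᵐ y ∂mu8, sg8 y 1 ≠ c := by
  have hm : MeasurableSet {y : (ℝ × ℝ) × (ℝ × ℝ × ℝ) × (ℝ × ℝ × ℝ) |
      y.2.1.1 + y.2.1.2.1 + y.2.1.2.2 ≠ c} := by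
    have : Measurable fun y : (ℝ × ℝ) × (ℝ × ℝ × ℝ) × (ℝ × ℝ × ℝ) =>
      y.2.1.1 + y.2.1.2.1 + y.2.1.2.2 := by fun_prop
    exact (this (measurableSet_singleton c)).compl
  -- the middle factor
  have h3 : ∀ᵐ z ∂mu3, z.1 + z.2.1 + z.2.2 ≠ c := by
    have hm3 : MeasurableSet {z : ℝ × ℝ × ℝ | z.1 + z.2.1 + z.2.2 ≠ c} := by
      have : Measurable fun z : ℝ × ℝ × ℝ => z.1 + z.2.1 + z.2.2 := by fun_prop
      exact (this (measurableSet_singleton c)).compl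
    have h : ∀ᵐ z ∂mu3, z ∈ {z : ℝ × ℝ × ℝ | z.1 + z.2.1 + z.2.2 ≠ c} := by
      unfold mu3
      rw [Measure.ae_prod_mem_iff_ae_ae_mem hm3]
      refine ae_of_all _ fun x => ?_
      have hm2 : MeasurableSet {p : ℝ × ℝ | x + p.1 + p.2 ≠ c} := by
        have : Measurable fun p : ℝ × ℝ => x + p.1 + p.2 := by fun_prop
        exact (this (measurableSet_singleton c)).compl
      have h2 : ∀ᵐ p ∂(mu.prod mu), p ∈ {p : ℝ × ℝ | x + p.1 + p.2 ≠ c} := by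
        rw [Measure.ae_prod_mem_iff_ae_ae_mem hm2]
        refine ae_of_all _ fun u => ?_
        filter_upwards [ae_mu_ne (c - x - u)] with t ht
        intro h
        apply ht
        linarith
      exact h2
    exact h
  have key : ∀ᵐ y ∂mu8, y.2.1.1 + y.2.1.2.1 + y.2.1.2.2 ≠ c := by
    unfold mu8
    have h4 : ∀ᵐ z ∂(mu3.prod mu3), z.1.1 + z.1.2.1 + z.1.2.2 ≠ c :=
      Measure.quasiMeasurePreserving_fst.ae h3
    exact Measure.quasiMeasurePreserving_snd.ae h4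
  filter_upwards [key] with y hy
  exact hy

end WCut

open S9lim S8lim WCut

/-- `S8` tested with `F_L(s₁) G`, `F_L → M 1_{s₁ < c}` -/
theorem S8_cut {c : ℝ} {F : ℝ → ℝ → ℝ} {M : ℝ} (hM : 0 ≤ M) (hF : ∀ L s, |F L s| ≤ M)
    (hF1 : ∀ η : ℝ, 0 < η → ∀ δ : ℝ, 0 < δ → ∀ᶠ L in atTop, ∀ s, s ≤ c - η → |F L s - M| ≤ δ)
    (hF0 : ∀ η : ℝ, 0 < η → ∀ δ : ℝ, 0 < δ → ∀ᶠ L in atTop, ∀ s, c + η ≤ s → |F L s| ≤ δ)
    {G : ℝ → ℝ → ℝ → ℝ → ℝ → ℝ → ℝ} (hG : Cont6 G) (B : ℝ)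
    (hB : ∀ s₀ s₁ s₂ r₀ r₁ r₂, (B ≤ s₁ ∨ B ≤ s₂ ∨ B ≤ r₁ ∨ B ≤ r₂) → G s₀ s₁ s₂ r₀ r₁ r₂ = 0) :
    Tendsto (fun L : ℝ => S8 (fun s₀ s₁ s₂ r₀ r₁ r₂ => F L s₁ * G s₀ s₁ s₂ r₀ r₁ r₂) L / L ^ 8)
      atTop (𝓝 (ar 3 * I8 (fun s₀ s₁ s₂ r₀ r₁ r₂ =>
        (if s₁ < c then M else 0) * G s₀ s₁ s₂ r₀ r₁ r₂))) := by
  set B' := 2 * max B 0 + 1 with hB'
  have hBB : B ≤ B' := by
    have := le_max_left B 0
    have := le_max_right B 0
    linarith
  set H : (Fin 6 → ℝ) → ℝ := fun s => gv G s * (chi B' (s 0) * chi B' (s 3)) with hH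
  have hgc : Continuous (gv G) := by
    have hm : Continuous fun s : Fin 6 → ℝ => (((s 0, s 1, s 2), (s 3, s 4, s 5)) :
        (ℝ × ℝ × ℝ) × (ℝ × ℝ × ℝ)) := by fun_prop
    exact (hG.comp hm)
  have hHc : Continuous H := by
    have := chi_cont B'
    simp only [hH]
    fun_prop
  have hH0 : ∀ s : Fin 6 → ℝ, (∃ κ, B' ≤ s κ) → H s = 0 := by
    rintro s ⟨κ, hκ⟩
    simp only [hH]
    fin_cases κ
    · rw [chi_zero (s := s 0) hκ]; ring
    · have : gv G s = 0 := hB _ _ _ _ _ _ (Or.inl (hBB.trans hκ))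
      rw [this, zero_mul]
    · have : gv G s = 0 := hB _ _ _ _ _ _ (Or.inr (Or.inl (hBB.trans hκ)))
      rw [this, zero_mul]
    · rw [chi_zero (s := s 3) hκ]; ring
    · have : gv G s = 0 := hB _ _ _ _ _ _ (Or.inr (Or.inr (Or.inl (hBB.trans hκ))))
      rw [this, zero_mul]
    · have : gv G s = 0 := hB _ _ _ _ _ _ (Or.inr (Or.inr (Or.inr (hBB.trans hκ))))
      rw [this, zero_mul]
  have hHG : ∀ s : Fin 6 → ℝ, s 0 ≤ s 4 + s 5 → s 3 ≤ s 1 + s 2 → H s = gv G s := by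
    intro s h0 hs
    simp only [hH]
    by_cases h : gv G s = 0
    · rw [h, zero_mul]
    · have := small8 hB h0 hs h
      rw [chi_one (by linarith [this 0]), chi_one (by linarith [this 3])]
      ring
  have main := weak_cut wc_nonneg finite_ob sg8_cont.measurable (μ := mu8)
    (by
      filter_upwards [ae8] with y hy
      obtain ⟨⟨a0, a1⟩, ⟨b0, b1, b2⟩, c0, c1, c2⟩ := hy
      intro κ
      fin_cases κ <;> simp only [sg8, Matrix.cons_val_zero, Matrix.cons_val_one,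
        Matrix.cons_val, Fin.zero_eta, Fin.mk_one, Fin.reduceFinMk] <;> positivity)
    (by
      have := (lap_mu8 (x := fun _ => 1) (fun _ => one_pos)).1
      simpa using this)
    (a := ar 3) (Real.exp_pos _).le (K := 8) ?_ (κ₀ := 1) (ae8_ne c) hM hF hF1 hF0 hHc
    ⟨B', hH0⟩
  · -- transfer
    have e1 : (fun L : ℝ => (∑' q : TN, wc q * (F L (ob q 1 / L) * H (fun κ => ob q κ / L))) /
        L ^ 8) =ᶠ[atTop] fun L : ℝ =>
        S8 (fun s₀ s₁ s₂ r₀ r₁ r₂ => F L s₁ * G s₀ s₁ s₂ r₀ r₁ r₂) L / L ^ 8 := by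
      filter_upwards [eventually_gt_atTop (0 : ℝ)] with L hL
      rw [S8_eq]
      congr 1
      refine tsum_congr fun q => ?_
      by_cases hcq : Nat.Coprime q.1.1.1 q.1.2.1
      · obtain ⟨g1, g2⟩ := cop_div hcq hL
        rw [hHG _ g1 g2]
        rfl
      · have : wc q = 0 := by unfold wc; rw [if_neg hcq, zero_mul]
        rw [this]; simp
    have e2 : ∫ y, (if sg8 y 1 < c then M else 0) * H (sg8 y) ∂mu8 =
        I8 (fun s₀ s₁ s₂ r₀ r₁ r₂ => (if s₁ < c then M else 0) * G s₀ s₁ s₂ r₀ r₁ r₂) := by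
      rw [I8_eq]
      refine integral_congr_ae ?_
      filter_upwards [ae8] with y hy
      obtain ⟨⟨a0, a1⟩, ⟨b0, b1, b2⟩, c0, c1, c2⟩ := hy
      have g := hHG (sg8 y) (by
        simp only [sg8, Matrix.cons_val_zero, Matrix.cons_val_one, Matrix.cons_val]
        linarith) (by
        simp only [sg8, Matrix.cons_val_zero, Matrix.cons_val_one, Matrix.cons_val]
        linarith)
      rw [g]
      rfl
    rw [e2] at main
    exact main.congr' e1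
  · intro G' hG' hGs'
    obtain ⟨b, hb⟩ := hGs'
    have e : ∀ s : Fin 6 → ℝ, gv (fun s₀ s₁ s₂ r₀ r₁ r₂ => G' ![s₀, s₁, s₂, r₀, r₁, r₂]) s = G' s := by
      intro s
      have h : (![s 0, s 1, s 2, s 3, s 4, s 5] : Fin 6 → ℝ) = s := by
        funext κ
        fin_cases κ <;> rfl
      show G' ![s 0, s 1, s 2, s 3, s 4, s 5] = G' s
      rw [h]
    have hc : Cont6 (fun s₀ s₁ s₂ r₀ r₁ r₂ => G' ![s₀, s₁, s₂, r₀, r₁, r₂]) := by
      refine hG'.comp (continuous_pi fun κ => ?_)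
      fin_cases κ <;> simp only [Matrix.cons_val_zero, Matrix.cons_val_one, Matrix.cons_val,
        Fin.zero_eta, Fin.mk_one, Fin.reduceFinMk] <;> fun_prop
    have h := S8_tendsto hc b (fun s₀ s₁ s₂ r₀ r₁ r₂ h => by
      rcases h with h | h | h | h
      · exact hb _ ⟨1, h⟩
      · exact hb _ ⟨2, h⟩
      · exact hb _ ⟨4, h⟩
      · exact hb _ ⟨5, h⟩)
    rw [I8_eq] at h
    simp_rw [S8_eq, e] at h
    exact h

end Pool.Agent.SixT
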