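import Mathlib
import Pool.Agent.Lib_MP_112ba8_t.TwoExt
import Pool.Agent.Lib_MP_112ba8_t.M3Split
import Pool.Agent.Lib_MP_112ba8_t.S8lim
import Pool.Agent.Lib_MP_112ba8_t.S9lim
import Pool.Agent.Lib_MP_112ba8_t.MeanXV4
import Pool.Agent.Lib_MP_112ba8_t.MeanXVR
import Pool.Agent.Lib_MP_112ba8_t.MeanXZCb
import Pool.Agent.Lib_MP_112ba8_t.WeakCut8
import Pool.Agent.Lib_MP_112ba8_e.Diag

/-!
Piece D5. `L = log T`, `h = h₁h₂`.

The integral is `Re ∑ Ψ(h₁,h₂,k) (h₁h₂k)^{-1/2} M3 w T h k` (`xz_expand3`). `M3_split` (`h ≤ T^{γ-ε}`):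
* error terms: `xz_err`, each is `≤ C T^{1-7ε/8}/(h₁h₂k)`;
* first sum: `xz_first`: the terms `c > T^{γ+ε/4}` are negligible (`xz_tail`), `T2ext` for the rest
  (`MeanXVR.err_sum`), limit by `S8_cut`;
* second sum: `xzc_second_sum` (`MeanXZCb.lean`).
-/

namespace Pool.Agent.SixT

open Filter Topology MeasureTheory
open Pool.Agent.EvenMoment (cl Wgt Sz ker ar)

/-! ### expansion -/

private noncomputable def xzc (Ψ : ℝ → ℝ → ℝ → ℝ) (L : ℝ) (p : ℕ × ℕ × ℕ) : ℝ :=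
  Ψ (Real.log p.1 / L) (Real.log p.2.1 / L) (Real.log p.2.2 / L) / Real.sqrt (p.1 * p.2.1 * p.2.2)

private noncomputable def xzN (L : ℝ) : Finset (ℕ × ℕ × ℕ) := NN L ×ˢ NN L ×ˢ NN L

private lemma xz_pos {L : ℝ} {n : ℕ} (hn : n ∈ NN L) : 0 < n := by
  unfold NN at hn
  exact (Finset.mem_Icc.1 hn).1

private lemma xz_memN {L : ℝ} {p : ℕ × ℕ × ℕ} (hp : p ∈ xzN L) : 0 < p.1 ∧ 0 < p.2.1 ∧ 0 < p.2.2 := by
  unfold xzN at hp
  rw [Finset.mem_product, Finset.mem_product] at hp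
  exact ⟨xz_pos hp.1, xz_pos hp.2.1, xz_pos hp.2.2⟩

private lemma xz_CP (Ψ : ℝ → ℝ → ℝ → ℝ) (L t : ℝ) : (starRingEnd ℂ) (CP Ψ L t) =
    ∑ p ∈ xzN L, (xzc Ψ L p : ℂ) *
      Complex.exp (t * (Real.log ((p.1 * p.2.1 : ℕ) : ℝ) - Real.log (p.2.2 : ℝ) : ℝ) * Complex.I) := by
  have h0 : CP Ψ L t = ∑ p ∈ xzN L, (xzc Ψ L p : ℂ) *
      Complex.exp (t * (Real.log (p.2.2 : ℝ) - Real.log ((p.1 * p.2.1 : ℕ) : ℝ) : ℝ) *
        Complex.I) := by
    unfold CP xzN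
    rw [Finset.sum_product]
    refine Finset.sum_congr rfl fun a ha => ?_
    rw [Finset.sum_product]
    refine Finset.sum_congr rfl fun b hb => ?_
    refine Finset.sum_congr rfl fun k _ => ?_
    have ha' : (a : ℝ) ≠ 0 := by exact_mod_cast (xz_pos ha).ne'
    have hb' : (b : ℝ) ≠ 0 := by exact_mod_cast (xz_pos hb).ne'
    unfold xzc en
    rw [← Complex.exp_conj, ← Complex.exp_add, ← Complex.exp_add]
    simp only []
    rw [Nat.cast_mul, Real.log_mul ha' hb']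
    congr 2
    simp only [map_mul, map_neg, Complex.conj_ofReal, Complex.conj_I]
    push_cast
    ring
  rw [h0, map_sum]
  refine Finset.sum_congr rfl fun p _ => ?_
  rw [map_mul, Complex.conj_ofReal, ← Complex.exp_conj]
  congr 2
  simp only [map_mul, Complex.conj_ofReal, Complex.conj_I]
  push_cast
  ring

private lemma xz_expand {w : ℝ → ℝ} (hw : Wgt w) (Ψ : ℝ → ℝ → ℝ → ℝ) {T : ℝ} (hT : 0 < T) (L : ℝ) :
    (∫ t : ℝ, w (t / T) * (‖riemannZeta (cl t)‖ ^ 2 *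
      (riemannZeta (cl t) * (starRingEnd ℂ) (CP Ψ L t)).re)) =
      (∑ p ∈ xzN L, (xzc Ψ L p : ℂ) * M3 w T (p.1 * p.2.1) p.2.2).re := by
  have hz : Continuous fun t : ℝ => riemannZeta (cl t) := by
    have := Pool.Agent.ZetaMoment.zeta_cont
    exact this
  set F : (ℕ × ℕ × ℕ) → ℝ → ℂ := fun p t =>
    ((w (t / T) * ‖riemannZeta (cl t)‖ ^ 2 : ℝ) : ℂ) * riemannZeta (cl t) *
    Complex.exp (t * (Real.log ((p.1 * p.2.1 : ℕ) : ℝ) - Real.log (p.2.2 : ℝ) : ℝ) *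
      Complex.I) with hF
  have hFi : ∀ p, Integrable (F p) := by
    intro p
    have h1 := Pool.Agent.EvenMoment.dg_integrable hw hT (h := fun t =>
      ((‖riemannZeta (cl t)‖ ^ 2 : ℝ) : ℂ) * riemannZeta (cl t) *
        Complex.exp (t * (Real.log ((p.1 * p.2.1 : ℕ) : ℝ) - Real.log (p.2.2 : ℝ) : ℝ) *
      Complex.I)) (by fun_prop)
    refine h1.congr (Eventually.of_forall fun t => ?_)
    simp only [hF]
    push_cast
    ring
  have h1 : ∀ t : ℝ, w (t / T) * (‖riemannZeta (cl t)‖ ^ 2 *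
      (riemannZeta (cl t) * (starRingEnd ℂ) (CP Ψ L t)).re) =
      (∑ p ∈ xzN L, (xzc Ψ L p : ℂ) * F p t).re := by
    intro t
    have h2 : (∑ p ∈ xzN L, (xzc Ψ L p : ℂ) * F p t) =
        ((w (t / T) * ‖riemannZeta (cl t)‖ ^ 2 : ℝ) : ℂ) *
          (riemannZeta (cl t) * (starRingEnd ℂ) (CP Ψ L t)) := by
      rw [xz_CP, Finset.mul_sum, Finset.mul_sum]
      refine Finset.sum_congr rfl fun p _ => ?_
      simp only [hF]
      ring
    rw [h2, Complex.re_ofReal_mul]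
    ring
  simp_rw [h1]
  have hs : Integrable fun t => ∑ p ∈ xzN L, (xzc Ψ L p : ℂ) * F p t :=
    integrable_finsetSum _ fun p _ => (hFi p).const_mul _
  have h3 := integral_re (𝕜 := ℂ) hs
  simp only [RCLike.re_to_complex] at h3
  rw [h3, integral_finsetSum _ fun p _ => (hFi p).const_mul _]
  congr 1
  refine Finset.sum_congr rfl fun p _ => ?_
  rw [integral_const_mul]
  rfl

/-! ### the cut off of the first sum -/

private noncomputable def xzF (A : ℕ) (γ θ L s : ℝ) : ℝ :=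
  if s ≤ θ then VA A (Real.exp (L * (s - γ))) else 0

private lemma xzF_nonneg (A : ℕ) (γ θ L s : ℝ) : 0 ≤ xzF A γ θ L s := by
  unfold xzF
  split_ifs
  · exact VA_nonneg A (Real.exp_pos _).le
  · exact le_rfl

private lemma xzF_le (A : ℕ) (γ θ L s : ℝ) : xzF A γ θ L s ≤ 1 := by
  unfold xzF
  split_ifs
  · exact VA_le_one A (Real.exp_pos _).le
  · exact zero_le_one

private lemma xz_VA_anti (A : ℕ) {u v : ℝ} (hu : 0 ≤ u) (h : u ≤ v) : VA A v ≤ VA A u := by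
  unfold VA
  have h1 : Real.exp (-v) ≤ Real.exp (-u) := Real.exp_le_exp.2 (by linarith)
  have h2 : Real.exp (-u) ≤ 1 := Real.exp_le_one_iff.2 (by linarith)
  have h3 := pow_le_pow_left₀ (by linarith : 0 ≤ 1 - Real.exp (-u))
    (by linarith : 1 - Real.exp (-u) ≤ 1 - Real.exp (-v)) A
  linarith

private lemma xzF_anti (A : ℕ) (γ θ : ℝ) {L : ℝ} (hL : 0 ≤ L) : Antitone (xzF A γ θ L) := by
  intro s t hst
  by_cases ht : t ≤ θ
  · unfold xzF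
    rw [if_pos ht, if_pos (hst.trans ht)]
    apply xz_VA_anti A (Real.exp_pos _).le
    apply Real.exp_le_exp.2
    exact mul_le_mul_of_nonneg_left (by linarith) hL
  · have : xzF A γ θ L t = 0 := by unfold xzF; rw [if_neg ht]
    rw [this]
    exact xzF_nonneg _ _ _ _ _

private lemma xzF_lim1 {A : ℕ} (hA : 0 < A) {γ θ : ℝ} (hθ : γ ≤ θ) : ∀ η : ℝ, 0 < η → ∀ δ : ℝ,
    0 < δ → ∀ᶠ L in atTop, ∀ s, s ≤ γ - η → |xzF A γ θ L s - 1| ≤ δ := by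
  intro η hη δ hδ
  have h1 : Tendsto (fun L : ℝ => Real.exp (-(η * L))) atTop (𝓝 0) :=
    Real.tendsto_exp_neg_atTop_nhds_zero.comp (tendsto_id.const_mul_atTop hη)
  filter_upwards [h1.eventually_le_const hδ, eventually_ge_atTop 0] with L hL hL0 s hs
  unfold xzF
  rw [if_pos (by linarith)]
  have h2 : Real.exp (L * (s - γ)) ≤ Real.exp (-(η * L)) := by
    apply Real.exp_le_exp.2
    nlinarith
  have h3 := VA_le_one A (u := Real.exp (L * (s - γ))) (Real.exp_pos _).le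
  have h4 : 1 - VA A (Real.exp (L * (s - γ))) ≤ Real.exp (L * (s - γ)) := by
    unfold VA
    set u := Real.exp (L * (s - γ)) with hu
    have hu0 : 0 < u := Real.exp_pos _
    have h5 : Real.exp (-u) ≤ 1 := Real.exp_le_one_iff.2 (by linarith)
    have h6 := Real.exp_pos (-u)
    have h7 : (1 - Real.exp (-u)) ^ A ≤ (1 - Real.exp (-u)) ^ 1 :=
      pow_le_pow_of_le_one (by linarith) (by linarith) hA
    have h8 := Real.add_one_le_exp (-u)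
    linarith
  rw [abs_le]
  constructor <;> linarith

private lemma xzF_lim0 (A : ℕ) {γ θ : ℝ} : ∀ η : ℝ, 0 < η → ∀ δ : ℝ, 0 < δ →
    ∀ᶠ L in atTop, ∀ s, γ + η ≤ s → |xzF A γ θ L s| ≤ δ := by
  intro η hη δ hδ
  have h1 : Tendsto (fun L : ℝ => (A : ℝ) * Real.exp (-(η * L))) atTop (𝓝 (A * 0)) :=
    (Real.tendsto_exp_neg_atTop_nhds_zero.comp (tendsto_id.const_mul_atTop hη)).const_mul _
  rw [mul_zero] at h1
  filter_upwards [h1.eventually_le_const hδ, eventually_ge_atTop 0] with L hL hL0 s hs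
  rw [abs_of_nonneg (xzF_nonneg _ _ _ _ _)]
  unfold xzF
  split_ifs
  · refine (VA_le_exp A (Real.exp_pos _).le).trans (le_trans ?_ hL)
    apply mul_le_mul_of_nonneg_left _ (Nat.cast_nonneg A)
    apply Real.exp_le_exp.2
    apply neg_le_neg
    have := Real.add_one_le_exp (L * (s - γ))
    nlinarith
  · exact hδ.le

private lemma xz_lim {A : ℕ} (hA : 0 < A) {γ θ : ℝ} (hθ : γ ≤ θ) (hθ0 : 0 ≤ θ)
    {Ψ : ℝ → ℝ → ℝ → ℝ} (hΨ : Tst Ψ) {P : ℝ → ℝ → ℝ} (hP : Continuous fun p : ℝ × ℝ => P p.1 p.2)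
    {Q : ℝ → ℝ} (hQ : Continuous Q) (hQ0 : Q 0 = 0) :
    Tendsto (fun L : ℝ => S8 (fun s₀ s₁ s₂ r₀ r₁ r₂ =>
      P s₀ r₀ * xzF A γ θ L s₁ * Q (Ψ r₁ r₂ s₂)) L / L ^ 8) atTop
      (𝓝 (ar 3 * I8 (fun s₀ s₁ s₂ r₀ r₁ r₂ =>
        P s₀ r₀ * (if s₁ < γ then 1 else 0) * Q (Ψ r₁ r₂ s₂)))) := by
  obtain ⟨K, M, B, -, -, hB, -, -, -, -, q5⟩ := MeanXVR.lip_Psi hΨ
  have hΨc : Continuous fun p : (ℝ × ℝ × ℝ) × (ℝ × ℝ × ℝ) => Q (Ψ p.2.2.1 p.2.2.2 p.1.2.2) :=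
    hQ.comp (hΨ.smooth.continuous.comp (f := fun p : (ℝ × ℝ × ℝ) × (ℝ × ℝ × ℝ) =>
      ((p.2.2.1, p.2.2.2, p.1.2.2) : ℝ × ℝ × ℝ)) (by fun_prop))
  have hPc : Continuous fun p : (ℝ × ℝ × ℝ) × (ℝ × ℝ × ℝ) => P p.1.1 p.2.1 :=
    hP.comp (f := fun p : (ℝ × ℝ × ℝ) × (ℝ × ℝ × ℝ) => ((p.1.1, p.2.1) : ℝ × ℝ)) (by fun_prop)
  have hcc : Continuous fun p : (ℝ × ℝ × ℝ) × (ℝ × ℝ × ℝ) =>
      S9lim.chi (θ + B + 1) p.1.2.1 := (S9lim.chi_cont _).comp (by fun_prop)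
  have h := S8_cut (c := γ) (F := xzF A γ θ) (M := 1) zero_le_one
    (fun L s => by rw [abs_of_nonneg (xzF_nonneg _ _ _ _ _)]; exact xzF_le _ _ _ _ _)
    (xzF_lim1 hA hθ) (xzF_lim0 A)
    (G := fun s₀ s₁ s₂ r₀ r₁ r₂ => P s₀ r₀ * S9lim.chi (θ + B + 1) s₁ * Q (Ψ r₁ r₂ s₂))
    ((hPc.mul hcc).mul hΨc) (θ + B + 1) (fun s₀ s₁ s₂ r₀ r₁ r₂ h => by
      rcases h with h | h | h | h
      · rw [S9lim.chi_zero h]; ring
      · rw [q5 _ _ _ (Or.inr (Or.inr (Or.inr (Or.inr (Or.inr (by linarith)))))), hQ0, mul_zero]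
      · rw [q5 _ _ _ (Or.inr (Or.inr (Or.inr (Or.inl (by linarith))))), hQ0, mul_zero]
      · rw [q5 _ _ _ (Or.inr (Or.inr (Or.inr (Or.inr (Or.inl (by linarith)))))), hQ0, mul_zero])
  have e1 : ∀ L, (fun s₀ s₁ s₂ r₀ r₁ r₂ => xzF A γ θ L s₁ *
      (P s₀ r₀ * S9lim.chi (θ + B + 1) s₁ * Q (Ψ r₁ r₂ s₂))) =
      fun s₀ s₁ s₂ r₀ r₁ r₂ => P s₀ r₀ * xzF A γ θ L s₁ * Q (Ψ r₁ r₂ s₂) := by
    intro L
    funext s₀ s₁ s₂ r₀ r₁ r₂
    by_cases hs : s₁ ≤ θ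
    · rw [S9lim.chi_one (by linarith)]; ring
    · have : xzF A γ θ L s₁ = 0 := by unfold xzF; rw [if_neg hs]
      rw [this]; ring
  have e2 : (fun s₀ s₁ s₂ r₀ r₁ r₂ => (if s₁ < γ then (1 : ℝ) else 0) *
      (P s₀ r₀ * S9lim.chi (θ + B + 1) s₁ * Q (Ψ r₁ r₂ s₂))) =
      fun s₀ s₁ s₂ r₀ r₁ r₂ => P s₀ r₀ * (if s₁ < γ then 1 else 0) * Q (Ψ r₁ r₂ s₂) := by
    funext s₀ s₁ s₂ r₀ r₁ r₂
    by_cases hs : s₁ < γ
    · rw [if_pos hs, S9lim.chi_one (by linarith)]; ring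
    · rw [if_neg hs]; ring
  simp_rw [e1, e2] at h
  exact h

private lemma xz_bv {g : ℕ → ℝ} (hg : Antitone g) (hg0 : ∀ n, 0 ≤ g n) (hg1 : ∀ n, g n ≤ 1)
    {h : ℝ → ℝ} {K M B : ℝ} (hK : 0 ≤ K) (hM : 0 ≤ M) (hB : 0 ≤ B)
    (h4 : ∀ x y, |h x - h y| ≤ K * |x - y|) (h5 : ∀ x, |h x| ≤ M)
    (h6 : ∀ x, (x ≤ 0 ∨ B ≤ x) → h x = 0) {u : ℕ → ℝ} (hu : Monotone u) :
    BV (fun n k => ((g n * h (u k) : ℝ) : ℂ)) (M + K * B) := by
  have p2 : 0 ≤ K * B := by positivity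
  have hga : ∀ n, |g n| ≤ 1 := fun n => by rw [abs_of_nonneg (hg0 n)]; exact hg1 n
  refine ⟨fun n k => ?_, fun n N => ?_, fun k N => ?_⟩
  · rw [Complex.norm_real, Real.norm_eq_abs, abs_mul]
    have := mul_le_mul (hga n) (h5 (u k)) (abs_nonneg _) zero_le_one
    linarith
  · have e : ∀ k, ‖((g n * h (u (k + 1)) : ℝ) : ℂ) - ((g n * h (u k) : ℝ) : ℂ)‖ =
        |g n| * |h (u (k + 1)) - h (u k)| := by
      intro k
      rw [← Complex.ofReal_sub, Complex.norm_real, Real.norm_eq_abs, ← mul_sub, abs_mul]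
    simp_rw [e]
    rw [← Finset.mul_sum]
    have h7 := MeanXVR.var_le hK hB h4 (fun x hx => h6 x (Or.inl hx)) (fun x hx => h6 x (Or.inr hx))
      hu N
    have h8 := mul_le_mul (hga n) h7 (Finset.sum_nonneg fun _ _ => abs_nonneg _) zero_le_one
    linarith
  · have e : ∀ n, ‖((g (n + 1) * h (u k) : ℝ) : ℂ) - ((g n * h (u k) : ℝ) : ℂ)‖ =
        (g n - g (n + 1)) * |h (u k)| := by
      intro n
      rw [← Complex.ofReal_sub, Complex.norm_real, Real.norm_eq_abs, ← sub_mul, abs_mul,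
        abs_sub_comm, abs_of_nonneg (sub_nonneg.2 (hg (Nat.le_succ n)))]
    simp_rw [e]
    rw [← Finset.sum_mul, Finset.sum_range_sub']
    have h7 : g 0 - g N ≤ 1 := by linarith [hg0 N, hg1 0]
    have h8 := mul_le_mul h7 (h5 (u k)) (abs_nonneg _) zero_le_one
    linarith

/-! ### the first sum -/

private lemma xz_est {w : ℝ → ℝ} (hw : Wgt w) {Ψ : ℝ → ℝ → ℝ → ℝ} (hΨ : Tst Ψ) {γ ε : ℝ}
    (hε : 0 < ε) (hγ : ε < γ) (hγ1 : γ ≤ 1 / 2)
    (hs : ∀ x y z, Ψ x y z ≠ 0 → x + y ≤ γ - ε ∧ z ≤ 1 - γ - ε) (A : ℕ) :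
    ∃ C A₁ T₀ : ℝ, 0 < C ∧ 0 ≤ A₁ ∧ 2 ≤ T₀ ∧ ∀ T : ℝ, T₀ ≤ T →
      ‖(∑ a ∈ NN (Real.log T), ∑ b ∈ NN (Real.log T), ∑ n ∈ NN (Real.log T),
        ∑ k ∈ NN (Real.log T),
        ((xzF A γ (γ + ε / 4) (Real.log T) (Real.log n / Real.log T) *
          Ψ (Real.log a / Real.log T) (Real.log b / Real.log T) (Real.log k / Real.log T) /
          (Real.sqrt (a * b) * Real.sqrt (n * k)) : ℝ) : ℂ) * M2 w T (a * b) (n * k)) -
      (((∫ x, w x) * T * Real.log T * S8 (fun s₀ s₁ s₂ r₀ r₁ r₂ =>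
        (1 - s₀ - r₀) * xzF A γ (γ + ε / 4) (Real.log T) s₁ * Ψ r₁ r₂ s₂) (Real.log T) : ℝ) : ℂ)‖ ≤
      C * (T * S8 (fun _ s₁ s₂ _ r₁ r₂ =>
        |xzF A γ (γ + ε / 4) (Real.log T) s₁ * Ψ r₁ r₂ s₂|) (Real.log T) +
        A₁ * T ^ (1 - 3 * ε / 8) * (1 + Real.log T) ^ 2) := by
  obtain ⟨K, M, B, hK, hM, hB, q1, q2, q3, q4, q5⟩ := MeanXVR.lip_Psi hΨ
  have hε4 : 0 < 3 * ε / 4 := by positivity
  obtain ⟨C, T₀, hC, hT₀, H⟩ := MeanXVR.err_sum hw hε4 (by linarith)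
  refine ⟨C, M + K * B, T₀, hC, by positivity, hT₀, fun T hT => ?_⟩
  have hT1 : 1 < T := by linarith
  have hTp : 0 < T := by linarith
  have hL : 0 < Real.log T := Real.log_pos hT1
  obtain ⟨L, hLdef⟩ : ∃ L, L = Real.log T := ⟨_, rfl⟩
  obtain ⟨θ, hθ⟩ : ∃ θ, θ = γ + ε / 4 := ⟨_, rfl⟩
  rw [← hLdef, ← hθ]
  have hL' : 0 < L := by rw [hLdef]; exact hL
  obtain ⟨c, hc⟩ : ∃ c : ℕ → ℕ → ℕ → ℕ → ℝ, c = fun (a b n k : ℕ) =>
    xzF A γ θ L (Real.log n / L) * Ψ (Real.log a / L) (Real.log b / L) (Real.log k / L) := ⟨_, rfl⟩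
  have hpos : ∀ x y z, Ψ x y z ≠ 0 → 0 < x ∧ 0 < y ∧ 0 < z := by
    intro x y z h
    refine ⟨?_, ?_, ?_⟩ <;> by_contra h' <;> apply h <;> apply q5
    · exact Or.inl (not_lt.1 h')
    · exact Or.inr (Or.inl (not_lt.1 h'))
    · exact Or.inr (Or.inr (Or.inl (not_lt.1 h')))
  have hF0 : ∀ s, θ < s → xzF A γ θ L s = 0 := by
    intro s h
    unfold xzF
    rw [if_neg (not_le.2 h)]
  have hvan : ∀ s₁ s₂ r₁ r₂, (1 < s₁ ∨ 1 < s₂ ∨ 1 < r₁ ∨ 1 < r₂) →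
      xzF A γ θ L s₁ * Ψ r₁ r₂ s₂ = 0 := by
    intro s₁ s₂ r₁ r₂ h
    by_cases hz : Ψ r₁ r₂ s₂ = 0
    · rw [hz, mul_zero]
    · obtain ⟨h1, h2⟩ := hs _ _ _ hz
      obtain ⟨h3, h4, h5⟩ := hpos _ _ _ hz
      rcases h with h | h | h | h
      · rw [hF0 s₁ (by linarith), zero_mul]
      · linarith
      · linarith
      · linarith
  -- the two sums
  have hS := MeanXVR.S8_eq (fun s₀ s₁ s₂ r₀ r₁ r₂ =>
    (1 - s₀ - r₀) * xzF A γ θ L s₁ * Ψ r₁ r₂ s₂) (L := L) hL' (fun s₀ s₁ s₂ r₀ r₁ r₂ h => by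
      rw [mul_assoc, hvan _ _ _ _ h, mul_zero])
  have hS1 := MeanXVR.S8_eq (fun _ s₁ s₂ _ r₁ r₂ => |xzF A γ θ L s₁ * Ψ r₁ r₂ s₂|) (L := L)
    hL' (fun s₀ s₁ s₂ r₀ r₁ r₂ h => by
      rw [hvan _ _ _ _ h, abs_zero])
  -- main term
  have hmain : (∑ a ∈ NN L, ∑ b ∈ NN L, ∑ n ∈ NN L, ∑ k ∈ NN L,
      ((c a b n k / (Real.sqrt (a * b) * Real.sqrt (n * k)) : ℝ) : ℂ) *
        (M2main w T (a * b) (n * k) : ℂ)) =
      (((∫ x, w x) * T * L * S8 (fun s₀ s₁ s₂ r₀ r₁ r₂ =>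
        (1 - s₀ - r₀) * xzF A γ θ L s₁ * Ψ r₁ r₂ s₂) L : ℝ) : ℂ) := by
    rw [hS]
    simp_rw [← Complex.ofReal_mul, ← Complex.ofReal_sum]
    congr 1
    rw [Finset.mul_sum]
    refine Finset.sum_congr rfl fun a ha => ?_
    rw [Finset.mul_sum]
    refine Finset.sum_congr rfl fun b hb => ?_
    rw [Finset.mul_sum]
    refine Finset.sum_congr rfl fun n hn => ?_
    rw [Finset.mul_sum]
    refine Finset.sum_congr rfl fun k hk => ?_
    rw [MeanXVR.mem_NN] at ha hb hn hk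
    unfold M2main
    rw [MeanXVR.log_red (Nat.mul_pos ha.1 hb.1) (Nat.mul_pos hn.1 hk.1), ← hLdef, hc]
    simp only
    have hL0 : L ≠ 0 := hL'.ne'
    field_simp
    ring
  -- error
  have herr : ‖∑ a ∈ NN L, ∑ b ∈ NN L, ∑ n ∈ NN L, ∑ k ∈ NN L,
      ((c a b n k / (Real.sqrt (a * b) * Real.sqrt (n * k)) : ℝ) : ℂ) *
        (M2 w T (a * b) (n * k) - (M2main w T (a * b) (n * k) : ℂ))‖ ≤
      C * (T * (∑ a ∈ NN L, ∑ b ∈ NN L, ∑ n ∈ NN L, ∑ k ∈ NN L, |c a b n k| /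
          (Real.sqrt (a * b) * Real.sqrt (n * k) * Real.sqrt (red (a * b) (n * k)))) +
        (M + K * B) * T ^ (1 - 3 * ε / 8) * (1 + L) ^ 2) := by
    have hu : Monotone fun n : ℕ => Real.log n / L := MeanXVR.log_mono hL'
    have hne : ∀ a b n k, c a b n k ≠ 0 → Real.log n / L ≤ θ ∧
        Ψ (Real.log a / L) (Real.log b / L) (Real.log k / L) ≠ 0 := by
      intro a b n k h
      rw [hc] at h
      simp only at h
      have h1 : xzF A γ θ L (Real.log n / L) ≠ 0 := left_ne_zero_of_mul h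
      have h2 := right_ne_zero_of_mul h
      refine ⟨?_, h2⟩
      by_contra h'
      exact h1 (hF0 _ (not_le.1 h'))
    have h1 := H T hT c (M + K * B) (by positivity) (fun a b => by
        rw [hc]
        exact xz_bv ((xzF_anti A γ θ hL'.le).comp_monotone hu) (fun n => xzF_nonneg _ _ _ _ _)
          (fun n => xzF_le _ _ _ _ _) hK hM hB (q3 _ _) (q4 _ _)
          (fun z hz => q5 _ _ _ (by tauto)) hu) (fun a b n k h => by
        obtain ⟨h2, h3⟩ := hne a b n k h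
        obtain ⟨h5, h6⟩ := hs _ _ _ h3
        rw [hLdef] at h2 h5 h6
        exact ⟨MeanXVR.le_rpow_of_log hT1 (Nat.cast_nonneg a) (Nat.cast_nonneg b) (by linarith),
          MeanXVR.le_rpow_of_log hT1 (Nat.cast_nonneg n) (Nat.cast_nonneg k) (by linarith)⟩)
    rw [← hLdef] at h1
    have e : 1 - 3 * ε / 4 / 2 = 1 - 3 * ε / 8 := by ring
    rw [e] at h1
    exact h1
  have e4 : (∑ a ∈ NN L, ∑ b ∈ NN L, ∑ n ∈ NN L, ∑ k ∈ NN L,
        ((xzF A γ θ L (Real.log n / L) * Ψ (Real.log a / L) (Real.log b / L) (Real.log k / L) /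
          (Real.sqrt (a * b) * Real.sqrt (n * k)) : ℝ) : ℂ) * M2 w T (a * b) (n * k)) -
      (∑ a ∈ NN L, ∑ b ∈ NN L, ∑ n ∈ NN L, ∑ k ∈ NN L,
      ((c a b n k / (Real.sqrt (a * b) * Real.sqrt (n * k)) : ℝ) : ℂ) *
        (M2main w T (a * b) (n * k) : ℂ)) =
      ∑ a ∈ NN L, ∑ b ∈ NN L, ∑ n ∈ NN L, ∑ k ∈ NN L,
      ((c a b n k / (Real.sqrt (a * b) * Real.sqrt (n * k)) : ℝ) : ℂ) *
        (M2 w T (a * b) (n * k) - (M2main w T (a * b) (n * k) : ℂ)) := by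
    simp only [← Finset.sum_sub_distrib, mul_sub]
    rw [hc]
  rw [← hmain, e4]
  refine herr.trans (le_of_eq ?_)
  rw [hS1, hc]
  congr 3
  refine Finset.sum_congr rfl fun a _ => Finset.sum_congr rfl fun b _ =>
    Finset.sum_congr rfl fun n _ => Finset.sum_congr rfl fun k _ => ?_
  rw [one_div_mul_eq_div]

private lemma xz_tail_pt (A : ℕ) (γ : ℝ) {ε T : ℝ} (hT : 1 < T) {n : ℕ} (hn : 1 ≤ n) :
    |VA A (n / T ^ γ) - xzF A γ (γ + ε / 4) (Real.log T) (Real.log n / Real.log T)| ≤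
      A * Real.exp (-T ^ (ε / 4)) := by
  have hTp : 0 < T := by linarith
  have hL : 0 < Real.log T := Real.log_pos hT
  have hn0 : (0 : ℝ) < n := by exact_mod_cast hn
  have e : (n : ℝ) / T ^ γ = Real.exp (Real.log T * (Real.log n / Real.log T - γ)) := by
    rw [mul_sub, mul_div_cancel₀ _ hL.ne', Real.exp_sub, Real.exp_log hn0, Real.rpow_def_of_pos hTp]
  rw [e]
  unfold xzF
  split_ifs with h
  · rw [sub_self, abs_zero]
    positivity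
  · push Not at h
    rw [sub_zero, abs_of_nonneg (VA_nonneg A (Real.exp_pos _).le)]
    refine (VA_le_exp A (Real.exp_pos _).le).trans ?_
    apply mul_le_mul_of_nonneg_left _ (Nat.cast_nonneg A)
    apply Real.exp_le_exp.2
    apply neg_le_neg
    rw [Real.rpow_def_of_pos hTp]
    apply Real.exp_le_exp.2
    exact mul_le_mul_of_nonneg_left (by linarith) hL.le

private lemma xz_sum4 {s : Finset ℕ} {f : ℕ → ℕ → ℕ → ℕ → ℂ} {X : ℝ}
    (h : ∀ a ∈ s, ∀ b ∈ s, ∀ k ∈ s, ∀ n ∈ s, ‖f a b k n‖ ≤ X) :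
    ‖∑ a ∈ s, ∑ b ∈ s, ∑ k ∈ s, ∑ n ∈ s, f a b k n‖ ≤ (s.card : ℝ) ^ 4 * X := by
  have h1 : ‖∑ a ∈ s, ∑ b ∈ s, ∑ k ∈ s, ∑ n ∈ s, f a b k n‖ ≤
      ∑ _a ∈ s, ∑ _b ∈ s, ∑ _k ∈ s, ∑ _n ∈ s, X :=
    norm_sum_le_of_le _ fun a ha => norm_sum_le_of_le _ fun b hb =>
      norm_sum_le_of_le _ fun k hk => norm_sum_le_of_le _ fun n hn => h a ha b hb k hk n hn
  refine h1.trans (le_of_eq ?_)
  simp only [Finset.sum_const, nsmul_eq_mul]
  ring

private lemma xz_tail {w : ℝ → ℝ} (hw : Wgt w) {Ψ : ℝ → ℝ → ℝ → ℝ} (hΨ : Tst Ψ) (γ ε : ℝ)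
    (A : ℕ) : ∃ C : ℝ, 0 ≤ C ∧ ∀ T : ℝ, 2 ≤ T →
      ‖(∑ a ∈ NN (Real.log T), ∑ b ∈ NN (Real.log T), ∑ k ∈ NN (Real.log T),
        ((Ψ (Real.log a / Real.log T) (Real.log b / Real.log T) (Real.log k / Real.log T) /
          Real.sqrt (a * b * k) : ℝ) : ℂ) * ∑ n ∈ NN (Real.log T),
            ((VA A (n / T ^ γ) / Real.sqrt n : ℝ) : ℂ) * M2 w T (a * b) (n * k)) -
      (∑ a ∈ NN (Real.log T), ∑ b ∈ NN (Real.log T), ∑ n ∈ NN (Real.log T),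
        ∑ k ∈ NN (Real.log T),
        ((xzF A γ (γ + ε / 4) (Real.log T) (Real.log n / Real.log T) *
          Ψ (Real.log a / Real.log T) (Real.log b / Real.log T) (Real.log k / Real.log T) /
          (Real.sqrt (a * b) * Real.sqrt (n * k)) : ℝ) : ℂ) * M2 w T (a * b) (n * k))‖ ≤
      C * (T ^ 9 * Real.exp (-T ^ (ε / 4))) := by
  obtain ⟨K, M, B, hK, hM, hB, q1, q2, q3, q4, q5⟩ := MeanXVR.lip_Psi hΨ
  obtain ⟨C₂, hC₂, H⟩ := M2_bound hw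
  refine ⟨M * A * C₂, by positivity, fun T hT => ?_⟩
  have hT1 : 1 < T := by linarith
  have hTp : 0 < T := by linarith
  have hL : 0 < Real.log T := Real.log_pos hT1
  obtain ⟨L, hLdef⟩ : ∃ L, L = Real.log T := ⟨_, rfl⟩
  have h1 := fun n (hn : 1 ≤ n) => xz_tail_pt A γ (ε := ε) hT1 hn
  rw [← hLdef] at h1 hL ⊢
  have e1 : (∑ a ∈ NN L, ∑ b ∈ NN L, ∑ k ∈ NN L,
        ((Ψ (Real.log a / L) (Real.log b / L) (Real.log k / L) /
          Real.sqrt (a * b * k) : ℝ) : ℂ) * ∑ n ∈ NN L,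
            ((VA A (n / T ^ γ) / Real.sqrt n : ℝ) : ℂ) * M2 w T (a * b) (n * k)) -
      (∑ a ∈ NN L, ∑ b ∈ NN L, ∑ n ∈ NN L, ∑ k ∈ NN L,
        ((xzF A γ (γ + ε / 4) L (Real.log n / L) *
          Ψ (Real.log a / L) (Real.log b / L) (Real.log k / L) /
          (Real.sqrt (a * b) * Real.sqrt (n * k)) : ℝ) : ℂ) * M2 w T (a * b) (n * k)) =
      ∑ a ∈ NN L, ∑ b ∈ NN L, ∑ k ∈ NN L, ∑ n ∈ NN L,
        (((VA A (n / T ^ γ) - xzF A γ (γ + ε / 4) L (Real.log n / L)) *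
          Ψ (Real.log a / L) (Real.log b / L) (Real.log k / L) /
          (Real.sqrt (a * b) * Real.sqrt (n * k)) : ℝ) : ℂ) * M2 w T (a * b) (n * k) := by
    rw [← Finset.sum_sub_distrib]
    refine Finset.sum_congr rfl fun a _ => ?_
    rw [← Finset.sum_sub_distrib]
    refine Finset.sum_congr rfl fun b _ => ?_
    rw [Finset.sum_comm (s := NN L) (t := NN L), ← Finset.sum_sub_distrib]
    refine Finset.sum_congr rfl fun k _ => ?_
    rw [Finset.mul_sum, ← Finset.sum_sub_distrib]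
    refine Finset.sum_congr rfl fun n _ => ?_
    have e2 : Real.sqrt ((a : ℝ) * b) * Real.sqrt ((n : ℝ) * k) =
        Real.sqrt ((a : ℝ) * b * k) * Real.sqrt n := by
      rw [← Real.sqrt_mul (by positivity), ← Real.sqrt_mul (by positivity)]
      congr 1
      ring
    rw [e2]
    push_cast
    ring
  rw [e1]
  have hcard : ((NN L).card : ℝ) ≤ T := by
    unfold NN
    rw [Nat.card_Icc, Nat.add_sub_cancel]
    refine (Nat.floor_le (Real.exp_pos _).le).trans (le_of_eq ?_)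
    rw [hLdef, Real.exp_log hTp]
  have h2 := xz_sum4 (s := NN L) (f := fun a b k n =>
    (((VA A (n / T ^ γ) - xzF A γ (γ + ε / 4) L (Real.log n / L)) *
          Ψ (Real.log a / L) (Real.log b / L) (Real.log k / L) /
          (Real.sqrt (a * b) * Real.sqrt (n * k)) : ℝ) : ℂ) * M2 w T (a * b) (n * k))
    (X := A * Real.exp (-T ^ (ε / 4)) * M * (C₂ * T ^ 5)) (by
      intro a ha b hb k hk n hn
      rw [MeanXVR.mem_NN] at ha hb hk hn
      rw [norm_mul, Complex.norm_real, Real.norm_eq_abs, abs_div, abs_mul]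
      have d1 : (1 : ℝ) ≤ Real.sqrt ((a : ℝ) * b) * Real.sqrt ((n : ℝ) * k) := by
        have e3 : (1 : ℝ) ≤ a * b := by exact_mod_cast Nat.mul_pos ha.1 hb.1
        have e4 : (1 : ℝ) ≤ n * k := by exact_mod_cast Nat.mul_pos hn.1 hk.1
        have e5 := Real.one_le_sqrt.2 e3
        have e6 := Real.one_le_sqrt.2 e4
        nlinarith
      rw [abs_of_nonneg (le_trans zero_le_one d1)]
      apply mul_le_mul _ (H T hT _ _) (norm_nonneg _) (by positivity)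
      refine (div_le_self (by positivity) d1).trans ?_
      exact mul_le_mul (h1 n hn.1) (q4 _ _ _) (abs_nonneg _) (by positivity))
  refine h2.trans ?_
  calc ((NN L).card : ℝ) ^ 4 * (A * Real.exp (-T ^ (ε / 4)) * M * (C₂ * T ^ 5))
      ≤ T ^ 4 * (A * Real.exp (-T ^ (ε / 4)) * M * (C₂ * T ^ 5)) := by
        apply mul_le_mul_of_nonneg_right _ (by positivity)
        exact pow_le_pow_left₀ (Nat.cast_nonneg _) hcard 4
    _ = _ := by ring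

private lemma xz_exp_small {ε : ℝ} (hε : 0 < ε) :
    Tendsto (fun T : ℝ => T ^ 9 * Real.exp (-T ^ (ε / 4)) / (T * Real.log T ^ 9)) atTop (𝓝 0) := by
  have h1 := (tendsto_rpow_mul_exp_neg_mul_atTop_nhds_zero (36 / ε) 1 one_pos).comp
    (tendsto_rpow_atTop (show 0 < ε / 4 by positivity))
  refine squeeze_zero' ?_ ?_ h1
  · filter_upwards [eventually_ge_atTop 1] with T hT
    have := Real.log_nonneg hT
    positivity
  · filter_upwards [eventually_ge_atTop (Real.exp 1)] with T hT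
    have hTp : 0 < T := (Real.exp_pos 1).trans_le hT
    have h2 : 1 ≤ Real.log T := by
      rw [← Real.log_exp 1]
      exact Real.log_le_log (Real.exp_pos 1) hT
    have h3 : 1 ≤ T := (Real.one_le_exp zero_le_one).trans hT
    have h4 : 1 ≤ T * Real.log T ^ 9 := by
      have := one_le_pow₀ h2 (n := 9)
      nlinarith
    have h5 : (T ^ (ε / 4)) ^ (36 / ε) = T ^ 9 := by
      rw [← Real.rpow_mul hTp.le]
      have : ε / 4 * (36 / ε) = (9 : ℕ) := by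
        field_simp
        norm_num
      rw [this, Real.rpow_natCast]
    simp only [Function.comp_apply]
    rw [h5, neg_one_mul]
    exact div_le_self (by positivity) h4

private lemma xz_pow_small {δ : ℝ} (hδ : 0 < δ) (j : ℕ) (hj : j ≤ 9) :
    Tendsto (fun T : ℝ => T ^ (1 - δ) * (1 + Real.log T) ^ j / (T * Real.log T ^ 9)) atTop
      (𝓝 0) := by
  have h1 : Tendsto (fun T : ℝ => 2 ^ j * T ^ (-δ)) atTop (𝓝 (2 ^ j * 0)) :=
    (tendsto_rpow_neg_atTop hδ).const_mul _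
  rw [mul_zero] at h1
  refine squeeze_zero' ?_ ?_ h1
  · filter_upwards [eventually_ge_atTop 1] with T hT
    have := Real.log_nonneg hT
    positivity
  · filter_upwards [eventually_ge_atTop (Real.exp 1)] with T hT
    have hTp : 0 < T := (Real.exp_pos 1).trans_le hT
    have h2 : 1 ≤ Real.log T := by
      rw [← Real.log_exp 1]
      exact Real.log_le_log (Real.exp_pos 1) hT
    have h3 : (1 + Real.log T) ^ j ≤ 2 ^ j * Real.log T ^ 9 := by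
      calc (1 + Real.log T) ^ j ≤ (2 * Real.log T) ^ j :=
            pow_le_pow_left₀ (by linarith) (by linarith) j
        _ = 2 ^ j * Real.log T ^ j := mul_pow _ _ _
        _ ≤ 2 ^ j * Real.log T ^ 9 := by
            apply mul_le_mul_of_nonneg_left (pow_le_pow_right₀ h2 hj) (by positivity)
    have h4 : T ^ (1 - δ) = T * T ^ (-δ) := by
      rw [sub_eq_add_neg, Real.rpow_add hTp, Real.rpow_one]
    rw [h4, div_le_iff₀ (by positivity)]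
    have h5 : 0 ≤ T * T ^ (-δ) := by positivity
    calc T * T ^ (-δ) * (1 + Real.log T) ^ j ≤ T * T ^ (-δ) * (2 ^ j * Real.log T ^ 9) :=
          mul_le_mul_of_nonneg_left h3 h5
      _ = _ := by ring

private lemma xz_first {w : ℝ → ℝ} (hw : Wgt w) {Ψ : ℝ → ℝ → ℝ → ℝ} (hΨ : Tst Ψ) {γ ε : ℝ}
    (hε : 0 < ε) (hγ : ε < γ) (hγ1 : γ ≤ 1 / 2)
    (hs : ∀ x y z, Ψ x y z ≠ 0 → x + y ≤ γ - ε ∧ z ≤ 1 - γ - ε) {A : ℕ} (hA : 0 < A) :
    Tendsto (fun T : ℝ => (∑ a ∈ NN (Real.log T), ∑ b ∈ NN (Real.log T), ∑ k ∈ NN (Real.log T),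
      ((Ψ (Real.log a / Real.log T) (Real.log b / Real.log T) (Real.log k / Real.log T) /
          Real.sqrt (a * b * k) : ℝ) : ℂ) * ∑ n ∈ NN (Real.log T),
            ((VA A (n / T ^ γ) / Real.sqrt n : ℝ) : ℂ) * M2 w T (a * b) (n * k)).re /
        (T * Real.log T ^ 9)) atTop
      (𝓝 ((∫ x, w x) * (ar 3 * I8 (fun s₀ s₁ s₂ r₀ r₁ r₂ =>
        (1 - s₀ - r₀) * (if s₁ < γ then 1 else 0) * Ψ r₁ r₂ s₂)))) := by
  obtain ⟨C, A₁, T₀, hC, hA₁, hT₀, H⟩ := xz_est hw hΨ hε hγ hγ1 hs A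
  obtain ⟨C', hC', H'⟩ := xz_tail hw hΨ γ ε A
  have hθ : γ ≤ γ + ε / 4 := by linarith
  have hθ0 : 0 ≤ γ + ε / 4 := by linarith
  have t1 := (xz_lim hA hθ hθ0 hΨ (P := fun s₀ r₀ => 1 - s₀ - r₀) (by fun_prop) (Q := id)
    continuous_id rfl).comp Real.tendsto_log_atTop
  have t2 := (xz_lim hA hθ hθ0 hΨ (P := fun _ _ => 1) (by fun_prop) (Q := fun x => |x|)
    continuous_abs abs_zero).comp Real.tendsto_log_atTop
  have t3 : Tendsto (fun T : ℝ => (Real.log T)⁻¹) atTop (𝓝 0) :=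
    tendsto_inv_atTop_zero.comp Real.tendsto_log_atTop
  have hε8 : 0 < 3 * ε / 8 := by positivity
  have t4 := (((t2.mul t3).add ((xz_pow_small hε8 2 (by norm_num)).const_mul A₁)).const_mul C).add
    ((xz_exp_small hε).const_mul C')
  simp only [mul_zero, add_zero] at t4
  have t5 : Tendsto (fun T : ℝ => (∑ a ∈ NN (Real.log T), ∑ b ∈ NN (Real.log T),
      ∑ k ∈ NN (Real.log T),
      ((Ψ (Real.log a / Real.log T) (Real.log b / Real.log T) (Real.log k / Real.log T) /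
          Real.sqrt (a * b * k) : ℝ) : ℂ) * ∑ n ∈ NN (Real.log T),
            ((VA A (n / T ^ γ) / Real.sqrt n : ℝ) : ℂ) * M2 w T (a * b) (n * k)).re /
        (T * Real.log T ^ 9) -
      (∫ x, w x) * (S8 (fun s₀ s₁ s₂ r₀ r₁ r₂ => (1 - s₀ - r₀) *
        xzF A γ (γ + ε / 4) (Real.log T) s₁ * Ψ r₁ r₂ s₂) (Real.log T) / Real.log T ^ 8))
      atTop (𝓝 0) := by
    refine squeeze_zero_norm' ?_ t4
    filter_upwards [eventually_ge_atTop T₀] with T hT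
    have hT1 : 1 < T := by linarith
    have hTp : 0 < T := by linarith
    have hL : 0 < Real.log T := Real.log_pos hT1
    have h3 := H T hT
    have h4 := H' T (by linarith)
    obtain ⟨Z₁, hZ₁⟩ : ∃ Z : ℂ, Z = ∑ a ∈ NN (Real.log T), ∑ b ∈ NN (Real.log T),
      ∑ k ∈ NN (Real.log T),
      ((Ψ (Real.log a / Real.log T) (Real.log b / Real.log T) (Real.log k / Real.log T) /
          Real.sqrt (a * b * k) : ℝ) : ℂ) * ∑ n ∈ NN (Real.log T),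
            ((VA A (n / T ^ γ) / Real.sqrt n : ℝ) : ℂ) * M2 w T (a * b) (n * k) := ⟨_, rfl⟩
    rw [← hZ₁] at h4 ⊢
    obtain ⟨Z₂, hZ₂⟩ : ∃ Z : ℂ, Z = ∑ a ∈ NN (Real.log T), ∑ b ∈ NN (Real.log T),
        ∑ n ∈ NN (Real.log T), ∑ k ∈ NN (Real.log T),
        ((xzF A γ (γ + ε / 4) (Real.log T) (Real.log n / Real.log T) *
          Ψ (Real.log a / Real.log T) (Real.log b / Real.log T) (Real.log k / Real.log T) /
          (Real.sqrt (a * b) * Real.sqrt (n * k)) : ℝ) : ℂ) * M2 w T (a * b) (n * k) := ⟨_, rfl⟩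
    rw [← hZ₂] at h3 h4
    obtain ⟨S, hS⟩ : ∃ S : ℝ, S = S8 (fun s₀ s₁ s₂ r₀ r₁ r₂ => (1 - s₀ - r₀) *
        xzF A γ (γ + ε / 4) (Real.log T) s₁ * Ψ r₁ r₂ s₂) (Real.log T) := ⟨_, rfl⟩
    rw [← hS] at h3 ⊢
    have hS' : S8 (fun s₀ s₁ s₂ r₀ r₁ r₂ => (fun _ _ => (1 : ℝ)) s₀ r₀ *
        xzF A γ (γ + ε / 4) (Real.log T) s₁ * (fun x => |x|) (Ψ r₁ r₂ s₂)) (Real.log T) =
        S8 (fun _ s₁ s₂ _ r₁ r₂ =>
          |xzF A γ (γ + ε / 4) (Real.log T) s₁ * Ψ r₁ r₂ s₂|) (Real.log T) := by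
      congr 1
      funext s₀ s₁ s₂ r₀ r₁ r₂
      simp only [one_mul]
      rw [abs_mul, abs_of_nonneg (xzF_nonneg _ _ _ _ _)]
    simp only [Function.comp_apply]
    rw [hS']
    obtain ⟨S', hS''⟩ : ∃ S : ℝ, S = S8 (fun _ s₁ s₂ _ r₁ r₂ =>
          |xzF A γ (γ + ε / 4) (Real.log T) s₁ * Ψ r₁ r₂ s₂|) (Real.log T) := ⟨_, rfl⟩
    rw [← hS''] at h3 ⊢
    obtain ⟨L, hLd⟩ : ∃ L : ℝ, L = Real.log T := ⟨_, rfl⟩
    rw [← hLd] at h3 hL ⊢
    have e1 : Z₁.re / (T * L ^ 9) - (∫ x, w x) * (S / L ^ 8) =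
        (Z₁ - (((∫ x, w x) * T * L * S : ℝ) : ℂ)).re / (T * L ^ 9) := by
      rw [Complex.sub_re, Complex.ofReal_re]
      field_simp
    have e2 : C * (S' / L ^ 8 * L⁻¹ + A₁ * (T ^ (1 - 3 * ε / 8) * (1 + L) ^ 2 / (T * L ^ 9))) +
        C' * (T ^ 9 * Real.exp (-T ^ (ε / 4)) / (T * L ^ 9)) =
        (C * (T * S' + A₁ * T ^ (1 - 3 * ε / 8) * (1 + L) ^ 2) +
          C' * (T ^ 9 * Real.exp (-T ^ (ε / 4)))) / (T * L ^ 9) := by
      field_simp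
    rw [e1, e2, Real.norm_eq_abs, abs_div, abs_of_pos (show 0 < T * L ^ 9 by positivity)]
    apply div_le_div_of_nonneg_right _ (by positivity)
    refine (Complex.abs_re_le_norm _).trans ?_
    have e3 : Z₁ - (((∫ x, w x) * T * L * S : ℝ) : ℂ) =
        (Z₂ - (((∫ x, w x) * T * L * S : ℝ) : ℂ)) + (Z₁ - Z₂) := by ring
    rw [e3]
    exact (norm_add_le _ _).trans (add_le_add h3 h4)
  have t6 := t5.add (t1.const_mul (∫ x, w x))
  rw [zero_add] at t6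
  refine t6.congr fun T => ?_
  simp only [Function.comp_apply, id]
  ring

/-! ### the error of `M3_split` and the assembly -/

private lemma xz_alg {H k T γ ε : ℝ} (hT : 1 ≤ T) (hε : 0 < ε) (hγ : ε < γ) (hγ1 : γ ≤ 1 / 2)
    (hH : 1 ≤ H) (hk : 1 ≤ k) (hH' : H ≤ T ^ (γ - ε)) (hk' : k ≤ T ^ (1 - γ - ε)) :
    Real.sqrt (H * k) * (T ^ (γ / 2) + (H / k) ^ (3 / 2 : ℝ) + T ^ (1 - γ) * Real.sqrt (H / k)) ≤
      3 * T ^ (1 - ε) := by
  have hTp : 0 < T := by linarith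
  have hH0 : 0 < H := by linarith
  have hk0 : 0 < k := by linarith
  have e0 : Real.sqrt (H * k) * Real.sqrt (H / k) = H := by
    rw [← Real.sqrt_mul (by positivity)]
    have : H * k * (H / k) = H ^ 2 := by field_simp
    rw [this, Real.sqrt_sq hH0.le]
  have h1 : Real.sqrt (H * k) * T ^ (γ / 2) ≤ T ^ (1 - ε) := by
    have a1 : H * k ≤ T ^ (1 - 2 * ε) := by
      calc H * k ≤ T ^ (γ - ε) * T ^ (1 - γ - ε) := mul_le_mul hH' hk' hk0.le (by positivity)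
        _ = T ^ (1 - 2 * ε) := by rw [← Real.rpow_add hTp]; congr 1; ring
    have a2 : Real.sqrt (H * k) ≤ T ^ (1 / 2 - ε) := by
      rw [Real.sqrt_le_left (by positivity), ← Real.rpow_natCast, ← Real.rpow_mul hTp.le]
      refine a1.trans (le_of_eq ?_)
      congr 1
      push_cast
      ring
    calc Real.sqrt (H * k) * T ^ (γ / 2) ≤ T ^ (1 / 2 - ε) * T ^ (γ / 2) :=
          mul_le_mul_of_nonneg_right a2 (by positivity)
      _ = T ^ (1 / 2 - ε + γ / 2) := by rw [← Real.rpow_add hTp]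
      _ ≤ T ^ (1 - ε) := Real.rpow_le_rpow_of_exponent_le hT (by linarith)
  have h2 : Real.sqrt (H * k) * (H / k) ^ (3 / 2 : ℝ) ≤ T ^ (1 - ε) := by
    have a1 : (H / k) ^ (3 / 2 : ℝ) = Real.sqrt (H / k) * (H / k) := by
      have : (3 / 2 : ℝ) = 1 / 2 + 1 := by norm_num
      rw [this, Real.rpow_add (by positivity), Real.rpow_one, Real.sqrt_eq_rpow]
    rw [a1, ← mul_assoc, e0]
    have a2 : H / k ≤ H := div_le_self hH0.le hk
    calc H * (H / k) ≤ H * H := mul_le_mul_of_nonneg_left a2 hH0.le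
      _ ≤ T ^ (γ - ε) * T ^ (γ - ε) := mul_le_mul hH' hH' hH0.le (by positivity)
      _ = T ^ (γ - ε + (γ - ε)) := by rw [← Real.rpow_add hTp]
      _ ≤ T ^ (1 - ε) := Real.rpow_le_rpow_of_exponent_le hT (by linarith)
  have h3 : Real.sqrt (H * k) * (T ^ (1 - γ) * Real.sqrt (H / k)) ≤ T ^ (1 - ε) := by
    calc Real.sqrt (H * k) * (T ^ (1 - γ) * Real.sqrt (H / k)) =
          T ^ (1 - γ) * (Real.sqrt (H * k) * Real.sqrt (H / k)) := by ring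
      _ = T ^ (1 - γ) * H := by rw [e0]
      _ ≤ T ^ (1 - γ) * T ^ (γ - ε) := mul_le_mul_of_nonneg_left hH' (by positivity)
      _ = T ^ (1 - ε) := by rw [← Real.rpow_add hTp]; congr 1; ring
  rw [mul_add, mul_add]
  linarith

private lemma xz_expand3 {w : ℝ → ℝ} (hw : Wgt w) (Ψ : ℝ → ℝ → ℝ → ℝ) {T : ℝ} (hT : 0 < T)
    (L : ℝ) :
    (∫ t : ℝ, w (t / T) * (‖riemannZeta (cl t)‖ ^ 2 *
      (riemannZeta (cl t) * (starRingEnd ℂ) (CP Ψ L t)).re)) =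
      (∑ a ∈ NN L, ∑ b ∈ NN L, ∑ k ∈ NN L,
        ((Ψ (Real.log a / L) (Real.log b / L) (Real.log k / L) /
          Real.sqrt (a * b * k) : ℝ) : ℂ) * M3 w T (a * b) k).re := by
  rw [xz_expand hw Ψ hT L]
  unfold xzN xzc
  rw [Finset.sum_product]
  simp_rw [Finset.sum_product]

private lemma xz_err {w : ℝ → ℝ} (hw : Wgt w) {Ψ : ℝ → ℝ → ℝ → ℝ} (hΨ : Tst Ψ) {γ ε : ℝ}
    (hε : 0 < ε) (hγ : ε < γ) (hγ1 : γ ≤ 1 / 2)
    (hs : ∀ x y z, Ψ x y z ≠ 0 → x + y ≤ γ - ε ∧ z ≤ 1 - γ - ε) :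
    ∃ A : ℕ, 0 < A ∧ ∃ C T₀ : ℝ, 0 ≤ C ∧ 2 ≤ T₀ ∧ ∀ T : ℝ, T₀ ≤ T →
      ‖(∑ a ∈ NN (Real.log T), ∑ b ∈ NN (Real.log T), ∑ k ∈ NN (Real.log T),
        ((Ψ (Real.log a / Real.log T) (Real.log b / Real.log T) (Real.log k / Real.log T) /
          Real.sqrt (a * b * k) : ℝ) : ℂ) * M3 w T (a * b) k) -
      (∑ a ∈ NN (Real.log T), ∑ b ∈ NN (Real.log T), ∑ k ∈ NN (Real.log T),
        ((Ψ (Real.log a / Real.log T) (Real.log b / Real.log T) (Real.log k / Real.log T) /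
          Real.sqrt (a * b * k) : ℝ) : ℂ) * ∑ n ∈ NN (Real.log T),
            ((VA A (n / T ^ γ) / Real.sqrt n : ℝ) : ℂ) * M2 w T (a * b) (n * k)) -
      ((T * ∑ a ∈ NN (Real.log T), ∑ b ∈ NN (Real.log T), ∑ k ∈ NN (Real.log T),
        Ψ (Real.log a / Real.log T) (Real.log b / Real.log T) (Real.log k / Real.log T) /
          Real.sqrt (a * b * k) *
        (Real.sqrt (((a * b : ℕ) : ℝ) / k) * ∑' m : ℕ, (if 0 < m ∧ a * b ∣ m * k then
          ((Nat.divisors m).card : ℝ) / m *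
            ∫ u, w u * (1 - Real.exp (-(u * T * ((a * b : ℕ) : ℝ) /
              (2 * Real.pi * m * k * T ^ γ)))) ^ A
          else 0)) : ℝ) : ℂ)‖ ≤ C * (T ^ (1 - 7 * ε / 8) * (1 + Real.log T) ^ 3) := by
  obtain ⟨A, C, T₀, hA, hC, hT₀, H⟩ := M3_split hw hε hγ hγ1
  obtain ⟨K, M, B, hK, hM, hB, q1, q2, q3, q4, q5⟩ := MeanXVR.lip_Psi hΨ
  refine ⟨A, hA, 3 * (M * C), T₀, by positivity, hT₀, fun T hT => ?_⟩
  have hT1 : 1 < T := by linarith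
  have hTp : 0 < T := by linarith
  obtain ⟨L, hLdef⟩ : ∃ L, L = Real.log T := ⟨_, rfl⟩
  have hL : 0 < L := by rw [hLdef]; exact Real.log_pos hT1
  have hH := H T hT
  rw [← hLdef] at hH ⊢
  obtain ⟨c, hc⟩ : ∃ c : ℕ → ℕ → ℕ → ℝ, c = fun (a b k : ℕ) =>
    Ψ (Real.log a / L) (Real.log b / L) (Real.log k / L) / Real.sqrt (a * b * k) := ⟨_, rfl⟩
  obtain ⟨F₁, hF₁⟩ : ∃ F : ℕ → ℕ → ℕ → ℂ, F = fun (a b k : ℕ) => ∑ n ∈ NN L,
    ((VA A (n / T ^ γ) / Real.sqrt n : ℝ) : ℂ) * M2 w T (a * b) (n * k) := ⟨_, rfl⟩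
  obtain ⟨F₂, hF₂⟩ : ∃ F : ℕ → ℕ → ℕ → ℝ, F = fun (a b k : ℕ) =>
    (Real.sqrt (((a * b : ℕ) : ℝ) / k) * ∑' m : ℕ, (if 0 < m ∧ a * b ∣ m * k then
          ((Nat.divisors m).card : ℝ) / m *
            ∫ u, w u * (1 - Real.exp (-(u * T * ((a * b : ℕ) : ℝ) /
              (2 * Real.pi * m * k * T ^ γ)))) ^ A
          else 0)) := ⟨_, rfl⟩
  have e1 : (∑ a ∈ NN L, ∑ b ∈ NN L, ∑ k ∈ NN L,
        ((Ψ (Real.log a / L) (Real.log b / L) (Real.log k / L) /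
          Real.sqrt (a * b * k) : ℝ) : ℂ) * M3 w T (a * b) k) -
      (∑ a ∈ NN L, ∑ b ∈ NN L, ∑ k ∈ NN L,
        ((Ψ (Real.log a / L) (Real.log b / L) (Real.log k / L) /
          Real.sqrt (a * b * k) : ℝ) : ℂ) * ∑ n ∈ NN L,
            ((VA A (n / T ^ γ) / Real.sqrt n : ℝ) : ℂ) * M2 w T (a * b) (n * k)) -
      ((T * ∑ a ∈ NN L, ∑ b ∈ NN L, ∑ k ∈ NN L,
        Ψ (Real.log a / L) (Real.log b / L) (Real.log k / L) /
          Real.sqrt (a * b * k) *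
        (Real.sqrt (((a * b : ℕ) : ℝ) / k) * ∑' m : ℕ, (if 0 < m ∧ a * b ∣ m * k then
          ((Nat.divisors m).card : ℝ) / m *
            ∫ u, w u * (1 - Real.exp (-(u * T * ((a * b : ℕ) : ℝ) /
              (2 * Real.pi * m * k * T ^ γ)))) ^ A
          else 0)) : ℝ) : ℂ) =
      ∑ a ∈ NN L, ∑ b ∈ NN L, ∑ k ∈ NN L, ((c a b k : ℝ) : ℂ) *
        (M3 w T (a * b) k - F₁ a b k - ((T * F₂ a b k : ℝ) : ℂ)) := by
    rw [hc, hF₁, hF₂]
    simp only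
    rw [Complex.ofReal_mul, Complex.ofReal_sum, Finset.mul_sum, ← Finset.sum_sub_distrib,
      ← Finset.sum_sub_distrib]
    refine Finset.sum_congr rfl fun a _ => ?_
    rw [Complex.ofReal_sum, Finset.mul_sum, ← Finset.sum_sub_distrib, ← Finset.sum_sub_distrib]
    refine Finset.sum_congr rfl fun b _ => ?_
    rw [Complex.ofReal_sum, Finset.mul_sum, ← Finset.sum_sub_distrib, ← Finset.sum_sub_distrib]
    refine Finset.sum_congr rfl fun k _ => ?_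
    rw [Complex.ofReal_mul, Complex.ofReal_mul T]
    ring
  rw [e1]
  have key : ∀ a ∈ NN L, ∀ b ∈ NN L, ∀ k ∈ NN L,
      ‖((c a b k : ℝ) : ℂ) * (M3 w T (a * b) k - F₁ a b k - ((T * F₂ a b k : ℝ) : ℂ))‖ ≤
        3 * (M * C) * T ^ (1 - 7 * ε / 8) * ((1 / a) * ((1 / b) * (1 / k))) := by
    intro a ha b hb k hk
    rw [MeanXVR.mem_NN] at ha hb hk
    have ha1 : (1 : ℝ) ≤ a := by exact_mod_cast ha.1
    have hb1 : (1 : ℝ) ≤ b := by exact_mod_cast hb.1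
    have hk1 : (1 : ℝ) ≤ k := by exact_mod_cast hk.1
    by_cases hΨ0 : Ψ (Real.log a / L) (Real.log b / L) (Real.log k / L) = 0
    · have : c a b k = 0 := by rw [hc]; simp only; rw [hΨ0, zero_div]
      rw [this, Complex.ofReal_zero, zero_mul, norm_zero]
      positivity
    · obtain ⟨s1, s2⟩ := hs _ _ _ hΨ0
      rw [hLdef] at s1 s2
      have b1 : (a : ℝ) * b ≤ T ^ (γ - ε) :=
        MeanXVR.le_rpow_of_log hT1 (Nat.cast_nonneg a) (Nat.cast_nonneg b) s1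
      have b2 : (k : ℝ) ≤ T ^ (1 - γ - ε) := by
        have := MeanXVR.le_rpow_of_log (x := (k : ℝ)) (y := 1) (s := 1 - γ - ε) hT1
          (Nat.cast_nonneg k) zero_le_one (by rw [Real.log_one, zero_div, add_zero]; exact s2)
        rwa [mul_one] at this
      have b3 : (k : ℝ) ≤ T := by
        refine b2.trans ?_
        calc T ^ (1 - γ - ε) ≤ T ^ (1 : ℝ) :=
              Real.rpow_le_rpow_of_exponent_le hT1.le (by linarith)
          _ = T := Real.rpow_one T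
      have hcast : ((a * b : ℕ) : ℝ) = (a : ℝ) * b := by push_cast; ring
      have h1 := hH (a * b) k (Nat.mul_pos ha.1 hb.1) hk.1 (by rw [hcast]; exact b1) b3
      have h2 : ‖M3 w T (a * b) k - F₁ a b k - ((T * F₂ a b k : ℝ) : ℂ)‖ ≤
          C * T ^ (ε / 8) * (T ^ (γ / 2) + ((a : ℝ) * b / k) ^ (3 / 2 : ℝ) +
            T ^ (1 - γ) * Real.sqrt ((a : ℝ) * b / k)) := by
        rw [hcast] at h1
        refine le_trans (le_of_eq ?_) h1
        rw [hF₁, hF₂]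
        simp only
        rw [hcast, mul_assoc T]
      have hH1 : (1 : ℝ) ≤ a * b := by nlinarith
      have h3 := xz_alg hT1.le hε hγ hγ1 hH1 hk1 b1 b2
      rw [norm_mul, Complex.norm_real, Real.norm_eq_abs]
      have hsq : 0 < Real.sqrt ((a : ℝ) * b * k) := Real.sqrt_pos.2 (by positivity)
      have h4 : |c a b k| ≤ M / Real.sqrt (a * b * k) := by
        rw [hc]
        simp only
        rw [abs_div, abs_of_pos hsq]
        exact div_le_div_of_nonneg_right (q4 _ _ _) hsq.le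
      obtain ⟨R, hR⟩ : ∃ R : ℝ, R = T ^ (γ / 2) + ((a : ℝ) * b / k) ^ (3 / 2 : ℝ) +
            T ^ (1 - γ) * Real.sqrt ((a : ℝ) * b / k) := ⟨_, rfl⟩
      rw [← hR] at h2 h3
      have h5 : R / Real.sqrt (a * b * k) ≤ 3 * T ^ (1 - ε) * ((1 / a) * ((1 / b) * (1 / k))) := by
        have e6 : (1 / (a : ℝ)) * ((1 / b) * (1 / k)) = 1 / (Real.sqrt (a * b * k) * Real.sqrt (a * b * k)) := by
          rw [Real.mul_self_sqrt (by positivity)]
          field_simp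
        rw [e6, div_le_iff₀ hsq]
        have e7 : 3 * T ^ (1 - ε) * (1 / (Real.sqrt (a * b * k) * Real.sqrt (a * b * k))) *
            Real.sqrt (a * b * k) = 3 * T ^ (1 - ε) / Real.sqrt (a * b * k) := by
          field_simp
        rw [e7, le_div_iff₀ hsq, mul_comm]
        exact h3
      calc |c a b k| * ‖M3 w T (a * b) k - F₁ a b k - ((T * F₂ a b k : ℝ) : ℂ)‖
          ≤ (M / Real.sqrt (a * b * k)) * (C * T ^ (ε / 8) * R) :=
            mul_le_mul h4 h2 (norm_nonneg _) (by positivity)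
        _ = M * C * T ^ (ε / 8) * (R / Real.sqrt (a * b * k)) := by ring
        _ ≤ M * C * T ^ (ε / 8) * (3 * T ^ (1 - ε) * ((1 / a) * ((1 / b) * (1 / k)))) :=
            mul_le_mul_of_nonneg_left h5 (by positivity)
        _ = 3 * (M * C) * (T ^ (ε / 8) * T ^ (1 - ε)) * ((1 / a) * ((1 / b) * (1 / k))) := by ring
        _ = _ := by
          rw [← Real.rpow_add hTp]
          congr 3
          ring
  have hsum : ‖∑ a ∈ NN L, ∑ b ∈ NN L, ∑ k ∈ NN L, ((c a b k : ℝ) : ℂ) *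
        (M3 w T (a * b) k - F₁ a b k - ((T * F₂ a b k : ℝ) : ℂ))‖ ≤
      ∑ a ∈ NN L, ∑ b ∈ NN L, ∑ k ∈ NN L,
        3 * (M * C) * T ^ (1 - 7 * ε / 8) * ((1 / (a : ℝ)) * ((1 / b) * (1 / k))) :=
    norm_sum_le_of_le _ fun a ha => norm_sum_le_of_le _ fun b hb =>
      norm_sum_le_of_le _ fun k hk => key a ha b hb k hk
  refine hsum.trans ?_
  have h6 := MeanXVR.sum_inv hL.le
  have h7 : 0 ≤ ∑ n ∈ NN L, (1 : ℝ) / n := Finset.sum_nonneg fun n _ => by positivity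
  have e8 : ∑ a ∈ NN L, ∑ b ∈ NN L, ∑ k ∈ NN L,
        3 * (M * C) * T ^ (1 - 7 * ε / 8) * ((1 / (a : ℝ)) * ((1 / b) * (1 / k))) =
      3 * (M * C) * T ^ (1 - 7 * ε / 8) * (∑ n ∈ NN L, (1 : ℝ) / n) ^ 3 := by
    simp_rw [← Finset.mul_sum, ← Finset.sum_mul]
    ring
  rw [e8]
  have h8 : (∑ n ∈ NN L, (1 : ℝ) / n) ^ 3 ≤ (1 + L) ^ 3 := pow_le_pow_left₀ h7 h6 3
  calc 3 * (M * C) * T ^ (1 - 7 * ε / 8) * (∑ n ∈ NN L, (1 : ℝ) / n) ^ 3 ≤
        3 * (M * C) * T ^ (1 - 7 * ε / 8) * (1 + L) ^ 3 :=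
        mul_le_mul_of_nonneg_left h8 (by positivity)
    _ = _ := by ring

theorem mean_xzC {w : ℝ → ℝ} (hw : Wgt w) {Ψ : ℝ → ℝ → ℝ → ℝ} (hΨ : Tst Ψ) {γ ε : ℝ}
    (hε : 0 < ε) (hγ : ε < γ) (hγ1 : γ ≤ 1 / 2)
    (hs : ∀ x y z, Ψ x y z ≠ 0 → x + y ≤ γ - ε ∧ z ≤ 1 - γ - ε) :
    Tendsto (fun T : ℝ => (1 / T) * (∫ t : ℝ, w (t / T) * (‖riemannZeta (cl t)‖ ^ 2 *
      (riemannZeta (cl t) * (starRingEnd ℂ) (CP Ψ (Real.log T) t)).re)) / Real.log T ^ 9) atTop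
      (𝓝 ((∫ x, w x) * (ar 3 * (I8 (fun s₀ s₁ s₂ r₀ r₁ r₂ =>
        (1 - s₀ - r₀) * (if s₁ < γ then 1 else 0) * Ψ r₁ r₂ s₂) +
        I9 (fun s₀ s₁ s₂ r₀ r₁ r₂ => (if r₀ < 1 - γ then 1 else 0) * Ψ r₁ r₂ s₂))))) := by
  obtain ⟨A, hA, C, T₀, hC, hT₀, H⟩ := xz_err hw hΨ hε hγ hγ1 hs
  have t1 := xz_first hw hΨ hε hγ hγ1 hs hA
  have t2 := xzc_second_sum hw hΨ hε hγ hγ1 hs hA
  have hε8 : 0 < 7 * ε / 8 := by positivity
  have t3 := (xz_pow_small hε8 3 (by norm_num)).const_mul C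
  rw [mul_zero] at t3
  have t12 := t1.add t2
  have t4 : Tendsto (fun T : ℝ => (1 / T) * (∫ t : ℝ, w (t / T) * (‖riemannZeta (cl t)‖ ^ 2 *
      (riemannZeta (cl t) * (starRingEnd ℂ) (CP Ψ (Real.log T) t)).re)) / Real.log T ^ 9 -
      ((∑ a ∈ NN (Real.log T), ∑ b ∈ NN (Real.log T), ∑ k ∈ NN (Real.log T),
      ((Ψ (Real.log a / Real.log T) (Real.log b / Real.log T) (Real.log k / Real.log T) /
          Real.sqrt (a * b * k) : ℝ) : ℂ) * ∑ n ∈ NN (Real.log T),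
            ((VA A (n / T ^ γ) / Real.sqrt n : ℝ) : ℂ) * M2 w T (a * b) (n * k)).re /
        (T * Real.log T ^ 9) +
      (∑ a ∈ NN (Real.log T), ∑ b ∈ NN (Real.log T), ∑ k ∈ NN (Real.log T),
      Ψ (Real.log a / Real.log T) (Real.log b / Real.log T) (Real.log k / Real.log T) /
          Real.sqrt (a * b * k) *
        (Real.sqrt (((a * b : ℕ) : ℝ) / k) * ∑' m : ℕ, (if 0 < m ∧ a * b ∣ m * k then
          ((Nat.divisors m).card : ℝ) / m *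
            ∫ u, w u * (1 - Real.exp (-(u * T * ((a * b : ℕ) : ℝ) /
              (2 * Real.pi * m * k * T ^ γ)))) ^ A
          else 0))) / Real.log T ^ 9)) atTop (𝓝 0) := by
    refine squeeze_zero_norm' ?_ t3
    filter_upwards [eventually_ge_atTop T₀] with T hT
    have hT1 : 1 < T := by linarith
    have hTp : 0 < T := by linarith
    have hL : 0 < Real.log T := Real.log_pos hT1
    have h1 := H T hT
    rw [xz_expand3 hw Ψ hTp (Real.log T)]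
    generalize (∑ a ∈ NN (Real.log T), ∑ b ∈ NN (Real.log T), ∑ k ∈ NN (Real.log T),
        ((Ψ (Real.log a / Real.log T) (Real.log b / Real.log T) (Real.log k / Real.log T) /
          Real.sqrt (a * b * k) : ℝ) : ℂ) * M3 w T (a * b) k) = Z at h1 ⊢
    generalize (∑ a ∈ NN (Real.log T), ∑ b ∈ NN (Real.log T), ∑ k ∈ NN (Real.log T),
      ((Ψ (Real.log a / Real.log T) (Real.log b / Real.log T) (Real.log k / Real.log T) /
          Real.sqrt (a * b * k) : ℝ) : ℂ) * ∑ n ∈ NN (Real.log T),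
            ((VA A (n / T ^ γ) / Real.sqrt n : ℝ) : ℂ) * M2 w T (a * b) (n * k)) = Z₁ at h1 ⊢
    generalize (∑ a ∈ NN (Real.log T), ∑ b ∈ NN (Real.log T), ∑ k ∈ NN (Real.log T),
      Ψ (Real.log a / Real.log T) (Real.log b / Real.log T) (Real.log k / Real.log T) /
          Real.sqrt (a * b * k) *
        (Real.sqrt (((a * b : ℕ) : ℝ) / k) * ∑' m : ℕ, (if 0 < m ∧ a * b ∣ m * k then
          ((Nat.divisors m).card : ℝ) / m *
            ∫ u, w u * (1 - Real.exp (-(u * T * ((a * b : ℕ) : ℝ) /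
              (2 * Real.pi * m * k * T ^ γ)))) ^ A
          else 0))) = y at h1 ⊢
    generalize Real.log T = L at h1 hL ⊢
    have e1 : 1 / T * Z.re / L ^ 9 - (Z₁.re / (T * L ^ 9) + y / L ^ 9) =
        (Z - Z₁ - ((T * y : ℝ) : ℂ)).re / (T * L ^ 9) := by
      rw [Complex.sub_re, Complex.sub_re, Complex.ofReal_re]
      field_simp
      ring
    have e2 : C * (T ^ (1 - 7 * ε / 8) * (1 + L) ^ 3 / (T * L ^ 9)) =
        C * (T ^ (1 - 7 * ε / 8) * (1 + L) ^ 3) / (T * L ^ 9) := by ring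
    rw [e1, e2, Real.norm_eq_abs, abs_div, abs_of_pos (show 0 < T * L ^ 9 by positivity)]
    exact div_le_div_of_nonneg_right ((Complex.abs_re_le_norm _).trans h1) (by positivity)
  have t5 := t4.add t12
  rw [zero_add] at t5
  have e : (∫ x, w x) * (ar 3 * I8 (fun s₀ s₁ s₂ r₀ r₁ r₂ =>
        (1 - s₀ - r₀) * (if s₁ < γ then 1 else 0) * Ψ r₁ r₂ s₂)) +
      (∫ x, w x) * (ar 3 * I9 (fun s₀ s₁ s₂ r₀ r₁ r₂ =>
        (if r₀ < 1 - γ then 1 else 0) * Ψ r₁ r₂ s₂)) =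
      (∫ x, w x) * (ar 3 * (I8 (fun s₀ s₁ s₂ r₀ r₁ r₂ =>
        (1 - s₀ - r₀) * (if s₁ < γ then 1 else 0) * Ψ r₁ r₂ s₂) +
        I9 (fun s₀ s₁ s₂ r₀ r₁ r₂ => (if r₀ < 1 - γ then 1 else 0) * Ψ r₁ r₂ s₂))) := by ring
  rw [← e]
  refine t5.congr fun T => ?_
  ring

end Pool.Agent.SixT
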