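import Mathlib
import Pool.Agent.Lib_MP_112ba8_t.MeanXZC
import Pool.Agent.Lib_MP_112ba8_t.EqXZC
import Pool.Agent.Lib_MP_112ba8_t.TstDD

/-!
Piece G2 (about 200 lines).

Smooth partition of unity in `z`: `1 = ∑_i χ_i(z)` on `[0,1]`, `χ_i` supported in an interval of length
`≤ ε/2` with right end `β_i`. `M = ∑ M_i`, `M_i = χ_i(z) M` is `Tst`, `Anti`. On the support of `M_i`:
`z ≤ β_i`, `x+y ≤ 1-ε-z ≤ 1-β_i-ε/2`, `x+y ≤ 1/2-ε`. `γ_i = min(1/2, 1-β_i-ε/4)`:
`x+y ≤ γ_i-ε/4`, `z ≤ 1-γ_i-ε/4`. If `γ_i ≤ ε/4` then `M_i = 0`. Apply `mean_xzC` (with `Ψ = DD M_i`,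
`DD_support`) and `eq_xzC` to each `M_i`, add (`CP_sum`, `DD_sum`; all integrands are continuous with
compact support).
-/

namespace Pool.Agent.SixT

open Filter Topology MeasureTheory
open Pool.Agent.EvenMoment (cl Wgt Sz ker ar)

/-- smooth cut-off: `1` for `z/δ ≥ i`, `0` for `z/δ ≤ i - 1` -/
private noncomputable def xzcallTh (δ : ℝ) (i : ℕ) (z : ℝ) : ℝ :=
  Real.smoothTransition (z / δ - (i : ℝ) + 1)

/-- partition of unity -/
private noncomputable def xzcallChi (δ : ℝ) (i : ℕ) (z : ℝ) : ℝ :=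
  xzcallTh δ i z - xzcallTh δ (i + 1) z

private lemma xzcall_chi_sum {δ : ℝ} (hδ : 0 < δ) {N : ℕ} {z : ℝ} (hz0 : 0 ≤ z)
    (hzN : z ≤ ((N : ℝ) - 1) * δ) : ∑ i ∈ Finset.range N, xzcallChi δ i z = 1 := by
  unfold xzcallChi
  rw [Finset.sum_range_sub' (fun i => xzcallTh δ i z) N]
  have h1 : xzcallTh δ 0 z = 1 := by
    unfold xzcallTh
    apply Real.smoothTransition.one_of_one_le
    have : 0 ≤ z / δ := div_nonneg hz0 hδ.le
    simp only [Nat.cast_zero]
    linarith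
  have h2 : xzcallTh δ N z = 0 := by
    unfold xzcallTh
    apply Real.smoothTransition.zero_of_nonpos
    have : z / δ ≤ (N : ℝ) - 1 := by rw [div_le_iff₀ hδ]; exact hzN
    linarith
  rw [h1, h2, sub_zero]

private lemma xzcall_chi_supp {δ : ℝ} (hδ : 0 < δ) {i : ℕ} {z : ℝ} (h : xzcallChi δ i z ≠ 0) :
    ((i : ℝ) - 1) * δ ≤ z ∧ z ≤ ((i : ℝ) + 1) * δ := by
  constructor
  · by_contra hc
    rw [not_le] at hc
    apply h
    have h0 : z / δ < (i : ℝ) - 1 := by rw [div_lt_iff₀ hδ]; exact hc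
    have h1 : xzcallTh δ i z = 0 := by
      unfold xzcallTh
      apply Real.smoothTransition.zero_of_nonpos
      linarith
    have h2 : xzcallTh δ (i + 1) z = 0 := by
      unfold xzcallTh
      apply Real.smoothTransition.zero_of_nonpos
      push_cast
      linarith
    unfold xzcallChi
    rw [h1, h2, sub_zero]
  · by_contra hc
    rw [not_le] at hc
    apply h
    have h0 : (i : ℝ) + 1 < z / δ := by rw [lt_div_iff₀ hδ]; exact hc
    have h1 : xzcallTh δ i z = 1 := by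
      unfold xzcallTh
      apply Real.smoothTransition.one_of_one_le
      linarith
    have h2 : xzcallTh δ (i + 1) z = 1 := by
      unfold xzcallTh
      apply Real.smoothTransition.one_of_one_le
      push_cast
      linarith
    unfold xzcallChi
    rw [h1, h2, sub_self]

private lemma xzcall_chi_smooth (δ : ℝ) (i : ℕ) :
    ContDiff ℝ (⊤ : ℕ∞) (xzcallChi δ i) := by
  have h : ∀ j : ℕ, ContDiff ℝ (⊤ : ℕ∞) (xzcallTh δ j) := by
    intro j
    unfold xzcallTh
    refine Real.smoothTransition.contDiff.comp ?_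
    fun_prop
  unfold xzcallChi
  exact (h i).sub (h (i + 1))

private lemma xzcall_Tst {M : ℝ → ℝ → ℝ → ℝ} (hM : Tst M) (δ : ℝ) (i : ℕ) :
    Tst (fun x y z => xzcallChi δ i z * M x y z) := by
  constructor
  · have h1 : ContDiff ℝ (⊤ : ℕ∞) (fun p : ℝ × ℝ × ℝ => xzcallChi δ i p.2.2) :=
      (xzcall_chi_smooth δ i).comp (by fun_prop)
    exact h1.mul hM.smooth
  · obtain ⟨a, b, ha, hab⟩ := hM.supp
    refine ⟨a, b, ha, fun x y z h => ?_⟩
    show xzcallChi δ i z * M x y z = 0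
    rw [hab x y z h, mul_zero]

private lemma xzcall_Anti {M : ℝ → ℝ → ℝ → ℝ} (hA : Anti M) (δ : ℝ) (i : ℕ) :
    Anti (fun x y z => xzcallChi δ i z * M x y z) := by
  intro x y z
  show xzcallChi δ i z * M x y z = -(xzcallChi δ i z * M y x z)
  rw [hA x y z, mul_neg]

private lemma xzcall_zero {M : ℝ → ℝ → ℝ → ℝ} (h : ∀ x y z, M x y z = 0) (x y z : ℝ) :
    DD M x y z = 0 :=
  DD_support (S := ∅) isClosed_empty (fun p _ => h p.1 p.2.1 p.2.2) (x, y, z)
    (Set.notMem_empty _)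

private lemma xzcall_piece {w : ℝ → ℝ} (hw : Wgt w) {M : ℝ → ℝ → ℝ → ℝ} (hM : Tst M) (hA : Anti M)
    {γ ε : ℝ} (hε : 0 < ε) (hγ1 : γ ≤ 1 / 2)
    (hs : ∀ x y z, M x y z ≠ 0 → x + y ≤ γ - ε ∧ z ≤ 1 - γ - ε) :
    Tendsto (fun T : ℝ => (1 / T) * (∫ t : ℝ, w (t / T) * (‖riemannZeta (cl t)‖ ^ 2 *
      (riemannZeta (cl t) * (starRingEnd ℂ) (CP (DD M) (Real.log T) t)).re)) / Real.log T ^ 9) atTop
      (𝓝 ((∫ x, w x) * (ar 3 * (2 * ∫ p in {p : ℝ × ℝ × ℝ | p.2.1 < p.1},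
        M p.1 p.2.1 p.2.2 * dl p.1 p.2.1 p.2.2 ∂mu3)))) := by
  by_cases hγ : ε < γ
  · have hclosed : IsClosed {p : ℝ × ℝ × ℝ | p.1 + p.2.1 ≤ γ - ε ∧ p.2.2 ≤ 1 - γ - ε} := by
      have c1 : IsClosed {p : ℝ × ℝ × ℝ | p.1 + p.2.1 ≤ γ - ε} :=
        isClosed_le (by fun_prop) (by fun_prop)
      have c2 : IsClosed {p : ℝ × ℝ × ℝ | p.2.2 ≤ 1 - γ - ε} :=
        isClosed_le (by fun_prop) (by fun_prop)
      exact c1.inter c2
    have hDs : ∀ x y z, DD M x y z ≠ 0 → x + y ≤ γ - ε ∧ z ≤ 1 - γ - ε := by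
      intro x y z h
      by_contra hc
      apply h
      refine DD_support hclosed ?_ (x, y, z) hc
      intro p hp
      by_contra hp'
      exact hp (hs _ _ _ hp')
    have h1 := mean_xzC hw (Tst_DD hM) hε hγ hγ1 hDs
    have h2 := eq_xzC hM hA (hε.trans hγ) hγ1 (fun x y z h => by
      obtain ⟨h1, h2⟩ := hs x y z h
      constructor <;> linarith)
    rw [h2] at h1
    exact h1
  · have h0 : ∀ x y z, M x y z = 0 := by
      intro x y z
      by_contra h
      obtain ⟨a, b, ha, hab⟩ := hM.supp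
      have hx : a ≤ x := by
        by_contra hc
        exact h (hab x y z (Or.inl (not_le.mp hc)))
      have hy : a ≤ y := by
        by_contra hc
        exact h (hab x y z (Or.inr (Or.inl (not_le.mp hc))))
      have := (hs x y z h).1
      rw [not_lt] at hγ
      linarith
    have h1 : ∀ L t, CP (DD M) L t = 0 := by
      intro L t
      unfold CP
      refine Finset.sum_eq_zero fun a _ => Finset.sum_eq_zero fun b _ =>
        Finset.sum_eq_zero fun k _ => ?_
      rw [xzcall_zero h0]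
      simp
    simp only [h1, h0, map_zero, mul_zero, zero_mul, Complex.zero_re, integral_zero, zero_div]
    exact tendsto_const_nhds

private lemma xzcall_integrable {M : ℝ → ℝ → ℝ → ℝ} (hM : Tst M) :
    Integrable (fun p : ℝ × ℝ × ℝ => M p.1 p.2.1 p.2.2 * dl p.1 p.2.1 p.2.2) mu3 := by
  have i1 : IsLocallyFiniteMeasure mu := by unfold mu; infer_instance
  have i2 : SFinite mu := by unfold mu; infer_instance
  have i3 : IsFiniteMeasureOnCompacts mu3 := by unfold mu3; infer_instance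
  refine Continuous.integrable_of_hasCompactSupport ?_ ?_
  · refine hM.smooth.continuous.mul ?_
    unfold dl
    fun_prop
  · obtain ⟨a, b, ha, hab⟩ := hM.supp
    refine HasCompactSupport.intro
      (isCompact_Icc.prod (isCompact_Icc.prod isCompact_Icc) :
        IsCompact (Set.Icc a b ×ˢ (Set.Icc a b ×ˢ Set.Icc a b))) ?_
    rintro ⟨x, y, z⟩ hp
    have : M x y z = 0 := by
      apply hab
      by_contra hc
      push Not at hc
      obtain ⟨h1, h2, h3, h4, h5, h6⟩ := hc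
      exact hp ⟨⟨h1, h4⟩, ⟨h2, h5⟩, ⟨h3, h6⟩⟩
    show M x y z * dl x y z = 0
    rw [this, zero_mul]

private lemma xzcall_zeta_cont : Continuous fun t : ℝ => riemannZeta (cl t) := by
  have h : Continuous cl := by unfold cl; fun_prop
  rw [continuous_iff_continuousAt]
  intro t
  have h1 : cl t ≠ 1 := by
    intro h
    have := congrArg Complex.re h
    simp [cl] at this
  exact (differentiableAt_riemannZeta h1).continuousAt.comp h.continuousAt

private lemma xzcall_int_t {w : ℝ → ℝ} (hw : Wgt w) {T : ℝ} (hT : 0 < T) {f : ℝ → ℝ}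
    (hf : Continuous f) : Integrable fun t => w (t / T) * f t := by
  obtain ⟨a, ha, ha1, hs⟩ := hw.supp
  refine Continuous.integrable_of_hasCompactSupport ?_ ?_
  · exact (hw.smooth.continuous.comp (continuous_id.div_const T)).mul hf
  · refine HasCompactSupport.intro (isCompact_Icc (a := 0) (b := T)) fun t ht => ?_
    have : w (t / T) = 0 := by
      apply hs
      rw [Set.mem_Icc, not_and_or] at ht
      rcases ht with h | h
      · left
        have : t / T < 0 := div_neg_of_neg_of_pos (not_le.mp h) hT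
        linarith
      · right
        rw [lt_div_iff₀ hT]
        linarith
    rw [this, zero_mul]

theorem mean_xzC_all {w : ℝ → ℝ} (hw : Wgt w) {M : ℝ → ℝ → ℝ → ℝ} (hM : Tst M) (hA : Anti M)
    {ε : ℝ} (hε : 0 < ε) (hs : ∀ x y z, M x y z ≠ 0 → x + y ≤ 1 / 2 - ε ∧ x + y + z ≤ 1 - ε) :
    Tendsto (fun T : ℝ => (1 / T) * (∫ t : ℝ, w (t / T) * (‖riemannZeta (cl t)‖ ^ 2 *
      (riemannZeta (cl t) * (starRingEnd ℂ) (CP (DD M) (Real.log T) t)).re)) / Real.log T ^ 9) atTop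
      (𝓝 ((∫ x, w x) * (ar 3 * (2 * ∫ p in {p : ℝ × ℝ × ℝ | p.2.1 < p.1},
        M p.1 p.2.1 p.2.2 * dl p.1 p.2.1 p.2.2 ∂mu3)))) := by
  obtain ⟨δ, hδdef⟩ : ∃ δ : ℝ, δ = ε / 4 := ⟨_, rfl⟩
  have hδ : 0 < δ := by rw [hδdef]; positivity
  obtain ⟨N, hN⟩ : ∃ N : ℕ, 1 / δ + 1 ≤ N := exists_nat_ge _
  have hN1 : (1 : ℝ) ≤ ((N : ℝ) - 1) * δ := by
    have : 1 / δ ≤ (N : ℝ) - 1 := by linarith
    rwa [div_le_iff₀ hδ] at this
  have hbd : ∀ x y z, M x y z ≠ 0 → 0 ≤ x ∧ 0 ≤ y ∧ 0 ≤ z := by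
    obtain ⟨a, b, ha, hab⟩ := hM.supp
    intro x y z h
    refine ⟨?_, ?_, ?_⟩
    · by_contra hc
      exact h (hab x y z (Or.inl (by linarith [not_le.mp hc])))
    · by_contra hc
      exact h (hab x y z (Or.inr (Or.inl (by linarith [not_le.mp hc]))))
    · by_contra hc
      exact h (hab x y z (Or.inr (Or.inr (Or.inl (by linarith [not_le.mp hc])))))
  obtain ⟨Mi, hMi⟩ : ∃ Mi : ℕ → ℝ → ℝ → ℝ → ℝ,
      Mi = fun i x y z => xzcallChi δ i z * M x y z := ⟨_, rfl⟩
  have hTst : ∀ i, Tst (Mi i) := by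
    intro i
    rw [hMi]
    exact xzcall_Tst hM δ i
  have hAnti : ∀ i, Anti (Mi i) := by
    intro i
    rw [hMi]
    exact xzcall_Anti hA δ i
  have hsum : ∀ x y z, M x y z = ∑ i ∈ Finset.range N, Mi i x y z := by
    intro x y z
    rw [hMi]
    show M x y z = ∑ i ∈ Finset.range N, xzcallChi δ i z * M x y z
    rw [← Finset.sum_mul]
    by_cases h : M x y z = 0
    · rw [h, mul_zero]
    · obtain ⟨hx, hy, hz⟩ := hbd x y z h
      have h2 := (hs x y z h).2
      rw [xzcall_chi_sum hδ hz (by linarith), one_mul]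
  have hM' : M = fun x y z => ∑ i ∈ Finset.range N, Mi i x y z := by
    funext x y z
    exact hsum x y z
  have hDD : DD M = fun x y z => ∑ i ∈ Finset.range N, DD (Mi i) x y z := by
    funext x y z
    conv_lhs => rw [hM']
    exact DD_sum (Finset.range N) (fun i _ => hTst i) x y z
  have hCP : ∀ L t, CP (DD M) L t = ∑ i ∈ Finset.range N, CP (DD (Mi i)) L t := by
    intro L t
    rw [hDD]
    exact CP_sum (Finset.range N) (fun i => DD (Mi i)) L t
  -- the pieces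
  have hp : ∀ i ∈ Finset.range N, Tendsto (fun T : ℝ => (1 / T) * (∫ t : ℝ, w (t / T) *
      (‖riemannZeta (cl t)‖ ^ 2 * (riemannZeta (cl t) *
      (starRingEnd ℂ) (CP (DD (Mi i)) (Real.log T) t)).re)) / Real.log T ^ 9) atTop
      (𝓝 ((∫ x, w x) * (ar 3 * (2 * ∫ p in {p : ℝ × ℝ × ℝ | p.2.1 < p.1},
        Mi i p.1 p.2.1 p.2.2 * dl p.1 p.2.1 p.2.2 ∂mu3)))) := by
    intro i _
    refine xzcall_piece hw (hTst i) (hAnti i) hδ
      (γ := min (1 / 2) (1 - ((i : ℝ) + 1) * δ - δ)) (min_le_left _ _) ?_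
    intro x y z h
    rw [hMi] at h
    have h' : xzcallChi δ i z * M x y z ≠ 0 := h
    have hc := left_ne_zero_of_mul h'
    have hm := right_ne_zero_of_mul h'
    obtain ⟨h1, h2⟩ := hs x y z hm
    obtain ⟨h3, h4⟩ := xzcall_chi_supp hδ hc
    have e1 : ((i : ℝ) - 1) * δ = ((i : ℝ) + 1) * δ - 2 * δ := by ring
    rw [e1] at h3
    have h5 : ε = 4 * δ := by rw [hδdef]; ring
    constructor
    · rw [le_sub_iff_add_le, le_min_iff]
      constructor <;> linarith
    · have := min_le_right (1 / 2 : ℝ) (1 - ((i : ℝ) + 1) * δ - δ)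
      linarith
  have hT := tendsto_finsetSum (Finset.range N) hp
  have hR : ∑ i ∈ Finset.range N, ((∫ x, w x) * (ar 3 * (2 *
      ∫ p in {p : ℝ × ℝ × ℝ | p.2.1 < p.1}, Mi i p.1 p.2.1 p.2.2 * dl p.1 p.2.1 p.2.2 ∂mu3))) =
      (∫ x, w x) * (ar 3 * (2 * ∫ p in {p : ℝ × ℝ × ℝ | p.2.1 < p.1},
        M p.1 p.2.1 p.2.2 * dl p.1 p.2.1 p.2.2 ∂mu3)) := by
    rw [← Finset.mul_sum, ← Finset.mul_sum, ← Finset.mul_sum,
      ← integral_finsetSum _ (fun i _ => (xzcall_integrable (hTst i)).integrableOn)]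
    congr 3
    refine integral_congr_ae (Eventually.of_forall fun p => ?_)
    show ∑ i ∈ Finset.range N, Mi i p.1 p.2.1 p.2.2 * dl p.1 p.2.1 p.2.2 =
      M p.1 p.2.1 p.2.2 * dl p.1 p.2.1 p.2.2
    rw [← Finset.sum_mul, ← hsum]
  rw [hR] at hT
  refine hT.congr' ?_
  filter_upwards [eventually_gt_atTop (0 : ℝ)] with T hT0
  rw [← Finset.sum_div, ← Finset.mul_sum, ← integral_finsetSum]
  · congr 2
    refine integral_congr_ae (Eventually.of_forall fun t => ?_)
    show ∑ i ∈ Finset.range N, w (t / T) * (‖riemannZeta (cl t)‖ ^ 2 * (riemannZeta (cl t) *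
      (starRingEnd ℂ) (CP (DD (Mi i)) (Real.log T) t)).re) = w (t / T) *
      (‖riemannZeta (cl t)‖ ^ 2 * (riemannZeta (cl t) *
      (starRingEnd ℂ) (CP (DD M) (Real.log T) t)).re)
    rw [← Finset.mul_sum, ← Finset.mul_sum, hCP, map_sum]
    congr 2
    rw [Finset.mul_sum, Complex.re_sum]
  · intro i _
    refine xzcall_int_t hw hT0 ?_
    have hz := xzcall_zeta_cont
    have hc := CP_cont (DD (Mi i)) (Real.log T)
    refine (hz.norm.pow 2).mul ?_
    exact Complex.continuous_re.comp (hz.mul (Complex.continuous_conj.comp hc))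

end Pool.Agent.SixT
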