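import Mathlib
import Pool.Agent.Lib_MP_112ba8_e.Even
import Pool.Agent.Lib_MP_112ba8_t.FinGeo
import Pool.Agent.Lib_MP_112ba8_t.MeanRR
import Pool.Agent.Lib_MP_112ba8_t.MeanXVR
import Pool.Agent.Lib_MP_112ba8_t.MeanXV4
import Pool.Agent.Lib_MP_112ba8_t.MeanZVVC
import Pool.Agent.Lib_MP_112ba8_t.MeanChi
import Pool.Agent.Lib_MP_112ba8_t.RRint
import Pool.Agent.Lib_MP_112ba8_t.LimXVR
import Pool.Agent.Lib_MP_112ba8_t.LimZVVC
import Pool.Agent.Lib_MP_112ba8_t.LimXV4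
import Pool.Agent.Lib_MP_112ba8_t.Thin
import Pool.Agent.Lib_MP_112ba8_t.Approx
import Pool.Agent.Lib_MP_112ba8_t.VolM
import Pool.Agent.Lib_MP_112ba8_t.VolD
import Pool.Agent.Lib_MP_112ba8_t.VolDQ
import Pool.Agent.Lib_MP_112ba8_t.VolQ
import Pool.Agent.Lib_MP_112ba8_t.Cert
import Pool.Agent.Lib_MP_112ba8_t.XZCall

/-!
Piece G3 (helper87): the assembly.
-/

namespace Pool.Agent.SixT

open Filter Topology MeasureTheory
open Pool.Agent.EvenMoment (cl Wgt Sz ker ar wK wK_wgt wK_mass zeta_cl_cont integrable_wt weight_le)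

lemma Supp.mono {M : ℝ → ℝ → ℝ → ℝ} {K O : Set (ℝ × ℝ × ℝ)} (h : Supp M K) (hKO : K ⊆ O) :
    Supp M O := ⟨h.anti, fun p hp hpO => h.zero p hp fun hpK => hpO (hKO hpK)⟩

lemma Supp.mem {M : ℝ → ℝ → ℝ → ℝ} {K : Set (ℝ × ℝ × ℝ)} (h : Supp M K) {p : ℝ × ℝ × ℝ}
    (hp : M p.1 p.2.1 p.2.2 ≠ 0) : p ∈ K ∨ fgs p ∈ K := by
  by_contra hc
  push Not at hc
  obtain ⟨h1, h2⟩ := hc
  apply hp
  rcases le_total p.2.1 p.1 with h3 | h3
  · exact h.zero p h3 h1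
  · have := h.zero (fgs p) h3 h2
    simp only [fgs] at this
    rw [h.anti, this, neg_zero]

lemma Supp.mem_DD {M : ℝ → ℝ → ℝ → ℝ} {K : Set (ℝ × ℝ × ℝ)} (h : Supp M K) (hK : IsCompact K)
    {p : ℝ × ℝ × ℝ} (hp : DD M p.1 p.2.1 p.2.2 ≠ 0) : p ∈ K ∨ fgs p ∈ K := by
  by_contra hc
  apply hp
  have hS : IsClosed (K ∪ fgs ⁻¹' K) := hK.isClosed.union (hK.isClosed.preimage fgs_cont)
  refine DD_support hS (fun q hq => ?_) p hc
  by_contra h2
  exact hq (h.mem h2)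

lemma get_M {O : Set (ℝ × ℝ × ℝ)} (h : Reg O) {g : ℝ × ℝ × ℝ → ℝ} (hg : Measurable g) {C : ℝ}
    (hC : ∀ p ∈ O, |g p| ≤ C) {η : ℝ} (hη : 0 < η) :
    ∃ (M : ℝ → ℝ → ℝ → ℝ) (K : Set (ℝ × ℝ × ℝ)), Tst M ∧ IsCompact K ∧ K ⊆ O ∧ Supp M K ∧
      ∫ p in O, (M p.1 p.2.1 p.2.2 - g p / 2) ^ 2 ≤ η := by
  obtain ⟨M, hM, hA, ⟨K, hK, hKO, hz⟩, hi⟩ := approx h.opn h.sub (F := fun p => g p / 2)
    (hg.div_const 2) (B := C / 2) (fun p hp => by
      rw [abs_div, abs_of_pos (by norm_num : (0 : ℝ) < 2)]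
      have := hC p hp
      linarith) hη
  exact ⟨M, K, hM, hK, hKO, ⟨hA, hz⟩, hi⟩

lemma Reg.union {O O' : Set (ℝ × ℝ × ℝ)} (h : Reg O) (h' : Reg O') : Reg (O ∪ O') :=
  ⟨h.opn.union h'.opn, fun p hp => hp.elim (h.sub p) (h'.sub p)⟩

lemma Tst.add {M N : ℝ → ℝ → ℝ → ℝ} (hM : Tst M) (hN : Tst N) :
    Tst (fun x y z => M x y z + N x y z) := by
  refine ⟨hM.smooth.add hN.smooth, ?_⟩
  obtain ⟨a, b, ha, h1⟩ := hM.supp
  obtain ⟨a', b', ha', h2⟩ := hN.supp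
  refine ⟨min a a', max b b', lt_min ha ha', fun x y z h => ?_⟩
  have e1 : M x y z = 0 := by
    apply h1
    rcases h with h | h | h | h | h | h
    · exact Or.inl (h.trans_le (min_le_left _ _))
    · exact Or.inr (Or.inl (h.trans_le (min_le_left _ _)))
    · exact Or.inr (Or.inr (Or.inl (h.trans_le (min_le_left _ _))))
    · exact Or.inr (Or.inr (Or.inr (Or.inl ((le_max_left _ _).trans_lt h))))
    · exact Or.inr (Or.inr (Or.inr (Or.inr (Or.inl ((le_max_left _ _).trans_lt h)))))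
    · exact Or.inr (Or.inr (Or.inr (Or.inr (Or.inr ((le_max_left _ _).trans_lt h)))))
  have e2 : N x y z = 0 := by
    apply h2
    rcases h with h | h | h | h | h | h
    · exact Or.inl (h.trans_le (min_le_right _ _))
    · exact Or.inr (Or.inl (h.trans_le (min_le_right _ _)))
    · exact Or.inr (Or.inr (Or.inl (h.trans_le (min_le_right _ _))))
    · exact Or.inr (Or.inr (Or.inr (Or.inl ((le_max_right _ _).trans_lt h))))
    · exact Or.inr (Or.inr (Or.inr (Or.inr (Or.inl ((le_max_right _ _).trans_lt h)))))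
    · exact Or.inr (Or.inr (Or.inr (Or.inr (Or.inr ((le_max_right _ _).trans_lt h)))))
  rw [e1, e2, add_zero]

lemma Supp.add {M N : ℝ → ℝ → ℝ → ℝ} {O O' : Set (ℝ × ℝ × ℝ)} (hM : Supp M O) (hN : Supp N O') :
    Supp (fun x y z => M x y z + N x y z) (O ∪ O') := by
  constructor
  · intro x y z
    have h1 := hM.anti x y z
    have h2 := hN.anti x y z
    linarith
  · intro p hp hpO
    rw [Set.mem_union, not_or] at hpO
    rw [hM.zero p hp hpO.1, hN.zero p hp hpO.2, add_zero]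

lemma ft_lin {w : ℝ → ℝ} (hw : Wgt w) {T : ℝ} (hT : 0 < T) {n : ℕ} (a : Fin n → ℝ)
    (f : Fin n → ℝ → ℝ) (hf : ∀ i, Continuous (f i)) :
    (1 / T) * ∫ t, w (t / T) * (∑ i, a i * f i t) =
      ∑ i, a i * ((1 / T) * ∫ t, w (t / T) * f i t) := by
  have h1 : ∫ t, w (t / T) * (∑ i, a i * f i t) = ∑ i, a i * ∫ t, w (t / T) * f i t := by
    have e : ∀ t, w (t / T) * (∑ i, a i * f i t) = ∑ i, a i * (w (t / T) * f i t) := by
      intro t
      rw [Finset.mul_sum]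
      exact Finset.sum_congr rfl fun i _ => by ring
    simp_rw [e]
    rw [integral_finsetSum _ fun i _ => (integrable_wt hw hT (hf i)).const_mul _]
    exact Finset.sum_congr rfl fun i _ => integral_const_mul _ _
  rw [h1, Finset.mul_sum]
  exact Finset.sum_congr rfl fun i _ => by ring

/-- the value of the certificate -/
noncomputable def SV (s : ℝ) : ℝ :=
  2 * (∫ p in OA, (s * mm p.1 p.2.1 p.2.2) ^ 2) + 2 * (∫ p in OB, (s * mm p.1 p.2.1 p.2.2) ^ 2) +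
    2 * (∫ p in OW, (dl p.1 p.2.1 p.2.2 - s ^ 2 * qq p.1 p.2.1 p.2.2) ^ 2) - s ^ 4 / 2560

theorem ft_weight {w : ℝ → ℝ} (hw : Wgt w) {s : ℝ} (hs0 : 0 < s) (hs1 : s ≤ 1) {η : ℝ}
    (hη : 0 < η) {B : ℝ} (hB : B < (∫ x, w x) * (ar 3 * (SV s - 37 * η))) :
    ∀ᶠ T : ℝ in atTop, B * Real.log T ^ 9 ≤
      (1 / T) * ∫ t : ℝ, w (t / T) * ‖riemannZeta (cl t)‖ ^ 6 := by
  have har : 0 < ar 3 := Real.exp_pos _
  have hI0 : 0 ≤ ∫ x, w x := integral_nonneg fun x => hw.nonneg x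
  -- the three test functions
  obtain ⟨MA, KA, hMA, hKA, hKAO, hSA, hiA⟩ := get_M reg_OA
    (g := fun p => s * mm p.1 p.2.1 p.2.2) (mm_meas.const_mul s) (C := 1) (fun p hp => by
      obtain ⟨h1, h2, h3, h4, h5⟩ := reg_OA.sub p hp
      rw [abs_mul, abs_of_pos hs0]
      exact mul_le_one₀ hs1 (abs_nonneg _) (mm_le h1 h2 h3 h4 h5)) hη
  obtain ⟨MB, KB, hMB, hKB, hKBO, hSB, hiB⟩ := get_M reg_OB
    (g := fun p => s * mm p.1 p.2.1 p.2.2) (mm_meas.const_mul s) (C := 1) (fun p hp => by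
      obtain ⟨h1, h2, h3, h4, h5⟩ := reg_OB.sub p hp
      rw [abs_mul, abs_of_pos hs0]
      exact mul_le_one₀ hs1 (abs_nonneg _) (mm_le h1 h2 h3 h4 h5)) hη
  have hgC : ∀ p ∈ OW, |dl p.1 p.2.1 p.2.2 - s ^ 2 * qq p.1 p.2.1 p.2.2| ≤ 2 := by
    intro p hp
    obtain ⟨h1, h2, h3, h4, h5⟩ := reg_OW.sub p hp
    have e1 := dl_le h1 h2 h3 h4 h5
    have e2 : |s ^ 2 * qq p.1 p.2.1 p.2.2| ≤ 1 := by
      rw [abs_mul, abs_of_nonneg (sq_nonneg s)]
      exact mul_le_one₀ (pow_le_one₀ hs0.le hs1) (abs_nonneg _) (qq_le h1)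
    refine (abs_sub _ _).trans ?_
    linarith
  have hgm : Measurable fun p : ℝ × ℝ × ℝ => dl p.1 p.2.1 p.2.2 - s ^ 2 * qq p.1 p.2.1 p.2.2 :=
    dl_meas.sub (qq_meas.const_mul _)
  obtain ⟨MC, KC, hMC, hKC, hKCO, hSC, hiC⟩ := get_M reg_OW
    (g := fun p => dl p.1 p.2.1 p.2.2 - s ^ 2 * qq p.1 p.2.1 p.2.2) hgm (C := 2) hgC hη
  -- margins
  have c12 : Continuous fun p : ℝ × ℝ × ℝ => p.1 + p.2.1 := by fun_prop
  have c123 : Continuous fun p : ℝ × ℝ × ℝ => p.1 + p.2.1 + p.2.2 := by fun_prop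
  have c3 : Continuous fun p : ℝ × ℝ × ℝ => p.2.2 := by fun_prop
  obtain ⟨e1, he1, m1⟩ := compact_margin hKA c12 (b := 1 / 2) fun p hp => (hKAO hp).2.2.2.1
  obtain ⟨e2, he2, m2⟩ := compact_margin hKA c123 (b := 1) fun p hp => (hKAO hp).2.2.2.2.1
  obtain ⟨e3, he3, m3⟩ := compact_margin hKA c3 (b := 3 / 4) fun p hp => (hKAO hp).2.2.2.2.2
  obtain ⟨e4, he4, m4⟩ := compact_margin hKB c3 (b := 1 / 4) fun p hp => (hKBO hp).2.2.2.1
  obtain ⟨e5, he5, m5⟩ := compact_margin hKB c123 (b := 1) fun p hp => (hKBO hp).2.2.2.2.2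
  obtain ⟨e6, he6, m6⟩ := compact_margin hKC c12 (b := 1 / 2) fun p hp => (hKCO hp).2.2.2.1
  obtain ⟨e7, he7, m7⟩ := compact_margin hKC c123 (b := 1) fun p hp => (hKCO hp).2.2.2.2
  obtain ⟨ε, hε, l1, l2, l3, l4, l5, l6, l7, l8⟩ : ∃ ε : ℝ, 0 < ε ∧ ε ≤ e1 ∧ ε ≤ e2 ∧ ε ≤ e3 ∧
      ε ≤ e4 ∧ ε ≤ e5 ∧ ε ≤ e6 ∧ ε ≤ e7 ∧ ε ≤ 1 / 8 := by
    refine ⟨min e1 (min e2 (min e3 (min e4 (min e5 (min e6 (min e7 (1 / 8))))))), ?_⟩
    refine ⟨by positivity, ?_⟩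
    simp only [min_le_iff, le_refl, true_or, or_true, and_self]
  -- supports
  have sA : ∀ x y z, DD MA x y z ≠ 0 → x + y ≤ 1 / 2 - ε ∧ x + y + z ≤ 1 - ε ∧ z ≤ 3 / 4 - ε ∧
      0 < z := by
    intro x y z h
    rcases hSA.mem_DD hKA (p := (x, y, z)) h with h1 | h1
    · have := m1 ε l1 _ h1
      have h2 := m2 ε l2 _ h1
      have h3 := m3 ε l3 _ h1
      exact ⟨this, h2, h3, (hKAO h1).2.2.1⟩
    · have := m1 ε l1 _ h1
      have h2 := m2 ε l2 _ h1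
      have h3 := m3 ε l3 _ h1
      simp only [fgs] at this h2 h3
      exact ⟨by linarith, by linarith, h3, (hKAO h1).2.2.1⟩
  have sB : ∀ x y z, DD MB x y z ≠ 0 → x + y + z ≤ 1 - ε ∧ z ≤ 1 / 4 - ε ∧ 0 < z := by
    intro x y z h
    rcases hSB.mem_DD hKB (p := (x, y, z)) h with h1 | h1
    · have h2 := m5 ε l5 _ h1
      have h3 := m4 ε l4 _ h1
      exact ⟨h2, h3, (hKBO h1).2.2.1⟩
    · have h2 := m5 ε l5 _ h1
      have h3 := m4 ε l4 _ h1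
      simp only [fgs] at h2 h3
      exact ⟨by linarith, h3, (hKBO h1).2.2.1⟩
  have sC : ∀ x y z, DD MC x y z ≠ 0 → x + y ≤ 1 / 2 - ε ∧ x + y + z ≤ 1 - ε ∧ 0 < x + y := by
    intro x y z h
    rcases hSC.mem_DD hKC (p := (x, y, z)) h with h1 | h1
    · have h2 := m6 ε l6 _ h1
      have h3 := m7 ε l7 _ h1
      have h4 := (hKCO h1).1
      have h5 := (hKCO h1).2.1
      simp only at h2 h3 h4 h5
      exact ⟨h2, h3, by linarith⟩
    · have h2 := m6 ε l6 _ h1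
      have h3 := m7 ε l7 _ h1
      have h4 := (hKCO h1).1
      have h5 := (hKCO h1).2.1
      simp only [fgs] at h2 h3 h4 h5
      exact ⟨by linarith, by linarith, by linarith⟩
  have sC' : ∀ x y z, MC x y z ≠ 0 → x + y ≤ 1 / 2 - ε ∧ x + y + z ≤ 1 - ε := by
    intro x y z h
    rcases hSC.mem (p := (x, y, z)) h with h1 | h1
    · exact ⟨m6 ε l6 _ h1, m7 ε l7 _ h1⟩
    · have h2 := m6 ε l6 _ h1
      have h3 := m7 ε l7 _ h1
      simp only [fgs] at h2 h3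
      exact ⟨by linarith, by linarith⟩
  -- the sum for R
  set MR : ℝ → ℝ → ℝ → ℝ := fun x y z => MA x y z + MB x y z with hMR
  have hMRt : Tst MR := hMA.add hMB
  have hSR : Supp MR (OA ∪ OB) := (hSA.mono hKAO).add (hSB.mono hKBO)
  have hDDR : ∀ x y z, DD MR x y z = DD MA x y z + DD MB x y z := fun x y z => DD_add hMA hMB x y z
  have sR : ∀ x y z, DD MR x y z ≠ 0 → x + y + z ≤ 1 - ε := by
    intro x y z h
    rw [hDDR] at h
    by_cases h1 : DD MA x y z = 0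
    · rw [h1, zero_add] at h
      exact (sB x y z h).1
    · exact (sA x y z h1).2.1
  -- the thin window
  obtain ⟨d1, hd1, q1⟩ := lim_xVR hMA hSA.anti hs0 hη
  obtain ⟨d2, hd2, q2⟩ := lim_xVR hMB hSB.anti hs0 hη
  obtain ⟨d3, hd3, q3⟩ := lim_zVVC hMC hSC.anti hs0 hη
  obtain ⟨d4, hd4, q4⟩ := lim_xV4 hs0 hη
  obtain ⟨δ, hδ, k1, k2, k3, k4, k5⟩ : ∃ δ : ℝ, 0 < δ ∧ δ < d1 ∧ δ < d2 ∧ δ < d3 ∧ δ < d4 ∧
      δ < 1 / 8 := by
    have hm : 0 < min d1 (min d2 (min d3 (min d4 (1 / 8)))) := by positivity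
    refine ⟨min d1 (min d2 (min d3 (min d4 (1 / 8)))) / 2, by positivity, ?_⟩
    have h0 : min d1 (min d2 (min d3 (min d4 (1 / 8)))) / 2 <
        min d1 (min d2 (min d3 (min d4 (1 / 8)))) := by linarith
    refine ⟨h0.trans_le ?_, h0.trans_le ?_, h0.trans_le ?_, h0.trans_le ?_, h0.trans_le ?_⟩ <;>
      simp only [min_le_iff, le_refl, true_or, or_true]
  obtain ⟨φ, hφ⟩ := exists_Thin (c := s) hδ k5 hs0
  have hv : ∀ r, (r ≤ 0 ∨ 1 / 4 ≤ r) → φ r = 0 := by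
    rintro r (hr | hr)
    · exact hφ.supp r (Or.inl (by linarith))
    · exact hφ.supp r (Or.inr (by linarith))
  have hv' : ∀ r, (r ≤ 0 ∨ 1 / 4 - δ ≤ r) → φ r = 0 := by
    rintro r (hr | hr)
    · exact hφ.supp r (Or.inl (by linarith))
    · exact hφ.supp r (Or.inr (by linarith))
  -- the limits
  have t1 := mean_xVR hw (Tst_DD hMA) hφ.smooth hε (v := 1 / 4) (by norm_num) hv
    (Or.inl fun x y z h => ⟨(sA x y z h).1, by linarith [(sA x y z h).2.2.1]⟩)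
  have t2 := mean_xVR hw (Tst_DD hMB) hφ.smooth hε (v := 1 / 4) (by norm_num) hv
    (Or.inr fun x y z h => ⟨by linarith [(sB x y z h).2.1], by
      linarith [(sB x y z h).1, (sB x y z h).2.2]⟩)
  have t3 := mean_RR hw (Tst_DD hMRt) hε sR
  have t4 := mean_xzC_all hw hMC hSC.anti hε sC'
  have t5 := mean_xV4 hw hφ.smooth (v := 1 / 4 - δ) (by linarith) (by linarith) hv'
  have t6 := mean_zVVC hw (Tst_DD hMC) hφ.smooth hε (v := 1 / 4) (by norm_num) hv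
    (fun x y z h => ⟨by linarith [(sC x y z h).1], by
      linarith [(sC x y z h).2.1, (sC x y z h).2.2]⟩)
  have t7 := mean_RR hw (Tst_DD hMC) hε fun x y z h => (sC x y z h).2.1
  have t8 := mean_chi hw (Tst_DD hMC) hε fun x y z h => ⟨(sC x y z h).1, (sC x y z h).2.1⟩
  have t8' : Tendsto (fun T : ℝ => (1 / T) * (∫ t : ℝ, w (t / T) *
      (XX t * CP (DD MC) (Real.log T) t ^ 2).re) / Real.log T ^ 9) atTop (𝓝 0) :=
    t8.div_atTop ((tendsto_pow_atTop (by norm_num)).comp Real.tendsto_log_atTop)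
  rw [I9_RR hMRt hSR.anti] at t3
  rw [I9_RR hMC hSC.anti] at t7
  have hlog : Tendsto Real.log atTop atTop := Real.tendsto_log_atTop
  -- names of the eight mean values
  set I := ∫ x, w x with hI
  set E1 : ℝ → ℝ := fun T => (1 / T) * (∫ t : ℝ, w (t / T) * (‖riemannZeta (cl t)‖ ^ 2 *
      (VP φ (Real.log T) t * (starRingEnd ℂ) (CP (DD MA) (Real.log T) t)).re)) with hE1
  set E2 : ℝ → ℝ := fun T => (1 / T) * (∫ t : ℝ, w (t / T) * (‖riemannZeta (cl t)‖ ^ 2 *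
      (VP φ (Real.log T) t * (starRingEnd ℂ) (CP (DD MB) (Real.log T) t)).re)) with hE2
  set E3 : ℝ → ℝ := fun T => (1 / T) * (∫ t : ℝ, w (t / T) * ‖CP (DD MR) (Real.log T) t‖ ^ 2)
    with hE3
  set E4 : ℝ → ℝ := fun T => (1 / T) * (∫ t : ℝ, w (t / T) * (‖riemannZeta (cl t)‖ ^ 2 *
      (riemannZeta (cl t) * (starRingEnd ℂ) (CP (DD MC) (Real.log T) t)).re)) with hE4
  set E5 : ℝ → ℝ := fun T => (1 / T) * (∫ t : ℝ, w (t / T) * (‖riemannZeta (cl t)‖ ^ 2 *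
      ‖VP φ (Real.log T) t‖ ^ 4)) with hE5
  set E6 : ℝ → ℝ := fun T => (1 / T) * (∫ t : ℝ, w (t / T) * (‖VP φ (Real.log T) t‖ ^ 2 *
      (riemannZeta (cl t) * (starRingEnd ℂ) (CP (DD MC) (Real.log T) t)).re)) with hE6
  set E7 : ℝ → ℝ := fun T => (1 / T) * (∫ t : ℝ, w (t / T) * ‖CP (DD MC) (Real.log T) t‖ ^ 2)
    with hE7
  set E8 : ℝ → ℝ := fun T => (1 / T) * (∫ t : ℝ, w (t / T) *
      (XX t * CP (DD MC) (Real.log T) t ^ 2).re) with hE8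
  have r1 := q1 δ hδ k1 φ hφ
  have r2 := q2 δ hδ k2 φ hφ
  have r3 := q3 δ hδ k3 φ hφ
  have r4 := q4 δ hδ k4 φ hφ
  rw [int_chamber reg_OA (hSA.mono hKAO) (fun p => mm p.1 p.2.1 p.2.2)] at r1
  rw [int_chamber reg_OB (hSB.mono hKBO) (fun p => mm p.1 p.2.1 p.2.2)] at r2
  rw [int_chamber reg_OW (hSC.mono hKCO) (fun p => qq p.1 p.2.1 p.2.2)] at r3
  rw [int_chamber reg_OW (hSC.mono hKCO) (fun p => dl p.1 p.2.1 p.2.2)] at t4
  rw [int_sq (reg_OA.union reg_OB) hSR hMRt] at t3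
  rw [int_sq reg_OW (hSC.mono hKCO) hMC] at t7
  obtain ⟨j1, hj1⟩ : ∃ j : ℝ, j = I8 (fun s₀ s₁ s₂ r₀ r₁ r₂ => (1 - s₀ - r₀) * φ s₁ *
    DD MA r₁ r₂ s₂) := ⟨_, rfl⟩
  obtain ⟨j2, hj2⟩ : ∃ j : ℝ, j = I8 (fun s₀ s₁ s₂ r₀ r₁ r₂ => (1 - s₀ - r₀) * φ s₁ *
    DD MB r₁ r₂ s₂) := ⟨_, rfl⟩
  obtain ⟨j5, hj5⟩ : ∃ j : ℝ, j = I8 (fun s₀ s₁ s₂ r₀ r₁ r₂ => (1 - s₀ - r₀) * φ s₁ * φ s₂ *
    φ r₁ * φ r₂) := ⟨_, rfl⟩
  obtain ⟨j6, hj6⟩ : ∃ j : ℝ, j = I9 (fun s₀ s₁ s₂ r₀ r₁ r₂ => φ s₁ * φ r₀ * DD MC r₁ r₂ s₂) :=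
    ⟨_, rfl⟩
  rw [← hj1] at t1 r1
  rw [← hj2] at t2 r2
  rw [← hj5] at t5 r4
  rw [← hj6] at t6 r3
  -- squares for R
  have hRsq : ∫ p in OA ∪ OB, MR p.1 p.2.1 p.2.2 ^ 2 =
      (∫ p in OA, MA p.1 p.2.1 p.2.2 ^ 2) + ∫ p in OB, MB p.1 p.2.1 p.2.2 ^ 2 := by
    have hcont : Continuous fun p : ℝ × ℝ × ℝ => MR p.1 p.2.1 p.2.2 := hMRt.smooth.continuous
    have hcI : IntegrableOn (fun p : ℝ × ℝ × ℝ => MR p.1 p.2.1 p.2.2 ^ 2)
        (Set.Icc ((0, 0, 0) : ℝ × ℝ × ℝ) (1, 1, 1)) :=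
      (hcont.pow 2).continuousOn.integrableOn_compact isCompact_Icc
    have hsub : ∀ {O : Set (ℝ × ℝ × ℝ)}, Reg O → O ⊆ Set.Icc ((0, 0, 0) : ℝ × ℝ × ℝ) (1, 1, 1) := by
      intro O hO p hp
      obtain ⟨h1, h2, h3, h4, h5⟩ := hO.sub p hp
      refine ⟨⟨?_, ?_, ?_⟩, ⟨?_, ?_, ?_⟩⟩ <;> simp only <;> linarith
    rw [setIntegral_union disj_AB reg_OB.opn.measurableSet (hcI.mono_set (hsub reg_OA))
      (hcI.mono_set (hsub reg_OB))]
    congr 1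
    · refine setIntegral_congr_fun reg_OA.opn.measurableSet fun p hp => ?_
      have h0 : MB p.1 p.2.1 p.2.2 = 0 := hSB.zero p (reg_OA.sub p hp).2.1.le fun h =>
        Set.disjoint_left.1 disj_AB hp (hKBO h)
      simp only [hMR, h0, add_zero]
    · refine setIntegral_congr_fun reg_OB.opn.measurableSet fun p hp => ?_
      have h0 : MA p.1 p.2.1 p.2.2 = 0 := hSA.zero p (reg_OB.sub p hp).2.1.le fun h =>
        Set.disjoint_left.1 disj_AB (hKAO h) hp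
      simp only [hMR, h0, zero_add]
  -- completing squares
  have sqA := square_bound reg_OA hMA (mm_meas.const_mul s) (C := 1) (fun p hp => by
      obtain ⟨h1, h2, h3, h4, h5⟩ := reg_OA.sub p hp
      rw [abs_mul, abs_of_pos hs0]
      exact mul_le_one₀ hs1 (abs_nonneg _) (mm_le h1 h2 h3 h4 h5)) hiA
  have sqB := square_bound reg_OB hMB (mm_meas.const_mul s) (C := 1) (fun p hp => by
      obtain ⟨h1, h2, h3, h4, h5⟩ := reg_OB.sub p hp
      rw [abs_mul, abs_of_pos hs0]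
      exact mul_le_one₀ hs1 (abs_nonneg _) (mm_le h1 h2 h3 h4 h5)) hiB
  have sqC := square_bound reg_OW hMC hgm (C := 2) hgC hiC
  have lA : ∫ p in OA, MA p.1 p.2.1 p.2.2 * (s * mm p.1 p.2.1 p.2.2) =
      s * ∫ p in OA, MA p.1 p.2.1 p.2.2 * mm p.1 p.2.1 p.2.2 := by
    rw [← integral_const_mul]
    exact integral_congr_ae (ae_of_all _ fun p => by simp only; ring)
  have lB : ∫ p in OB, MB p.1 p.2.1 p.2.2 * (s * mm p.1 p.2.1 p.2.2) =
      s * ∫ p in OB, MB p.1 p.2.1 p.2.2 * mm p.1 p.2.1 p.2.2 := by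
    rw [← integral_const_mul]
    exact integral_congr_ae (ae_of_all _ fun p => by simp only; ring)
  have hMCb : ∃ b : ℝ, ∀ p ∈ OW, |MC p.1 p.2.1 p.2.2| ≤ b := by
    have hK : IsCompact (Set.Icc ((0, 0, 0) : ℝ × ℝ × ℝ) (1, 1, 1)) := isCompact_Icc
    obtain ⟨b, hb⟩ := hK.exists_bound_of_continuousOn hMC.smooth.continuous.continuousOn
    refine ⟨b, fun p hp => ?_⟩
    obtain ⟨h1, h2, h3, h4, h5⟩ := reg_OW.sub p hp
    apply hb
    refine ⟨⟨?_, ?_, ?_⟩, ⟨?_, ?_, ?_⟩⟩ <;> simp only <;> linarith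
  obtain ⟨b, hb⟩ := hMCb
  have lC : ∫ p in OW, MC p.1 p.2.1 p.2.2 *
      (dl p.1 p.2.1 p.2.2 - s ^ 2 * qq p.1 p.2.1 p.2.2) =
      (∫ p in OW, MC p.1 p.2.1 p.2.2 * dl p.1 p.2.1 p.2.2) -
        s ^ 2 * ∫ p in OW, MC p.1 p.2.1 p.2.2 * qq p.1 p.2.1 p.2.2 := by
    have i1 : IntegrableOn (fun p : ℝ × ℝ × ℝ => MC p.1 p.2.1 p.2.2 * dl p.1 p.2.1 p.2.2) OW := by
      refine reg_OW.integrable (hMC.smooth.continuous.measurable.mul dl_meas) (C := b * 1)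
        fun p hp => ?_
      obtain ⟨h1, h2, h3, h4, h5⟩ := reg_OW.sub p hp
      rw [abs_mul]
      exact mul_le_mul (hb p hp) (dl_le h1 h2 h3 h4 h5) (abs_nonneg _)
        ((abs_nonneg _).trans (hb p hp))
    have i2 : IntegrableOn (fun p : ℝ × ℝ × ℝ => MC p.1 p.2.1 p.2.2 * qq p.1 p.2.1 p.2.2) OW := by
      refine reg_OW.integrable (hMC.smooth.continuous.measurable.mul qq_meas) (C := b * 1)
        fun p hp => ?_
      obtain ⟨h1, h2, h3, h4, h5⟩ := reg_OW.sub p hp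
      rw [abs_mul]
      exact mul_le_mul (hb p hp) (qq_le h1) (abs_nonneg _)
        ((abs_nonneg _).trans (hb p hp))
    rw [← integral_const_mul, ← integral_sub i1 (i2.const_mul _)]
    exact integral_congr_ae (ae_of_all _ fun p => by simp only; ring)
  rw [lA] at sqA
  rw [lB] at sqB
  rw [lC] at sqC
  rw [hRsq] at t3
  -- abbreviations for the integrals
  obtain ⟨xA, hxA⟩ : ∃ x : ℝ, x = ∫ p in OA, MA p.1 p.2.1 p.2.2 * mm p.1 p.2.1 p.2.2 := ⟨_, rfl⟩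
  obtain ⟨xB, hxB⟩ : ∃ x : ℝ, x = ∫ p in OB, MB p.1 p.2.1 p.2.2 * mm p.1 p.2.1 p.2.2 := ⟨_, rfl⟩
  obtain ⟨xD, hxD⟩ : ∃ x : ℝ, x = ∫ p in OW, MC p.1 p.2.1 p.2.2 * dl p.1 p.2.1 p.2.2 := ⟨_, rfl⟩
  obtain ⟨xQ, hxQ⟩ : ∃ x : ℝ, x = ∫ p in OW, MC p.1 p.2.1 p.2.2 * qq p.1 p.2.1 p.2.2 := ⟨_, rfl⟩
  obtain ⟨yA, hyA⟩ : ∃ x : ℝ, x = ∫ p in OA, MA p.1 p.2.1 p.2.2 ^ 2 := ⟨_, rfl⟩
  obtain ⟨yB, hyB⟩ : ∃ x : ℝ, x = ∫ p in OB, MB p.1 p.2.1 p.2.2 ^ 2 := ⟨_, rfl⟩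
  obtain ⟨yC, hyC⟩ : ∃ x : ℝ, x = ∫ p in OW, MC p.1 p.2.1 p.2.2 ^ 2 := ⟨_, rfl⟩
  rw [← hxA] at sqA r1
  rw [← hxB] at sqB r2
  rw [← hxD] at sqC t4
  rw [← hxQ] at sqC r3
  rw [← hyA] at sqA t3
  rw [← hyB] at sqB t3
  rw [← hyC] at sqC t7
  -- the limit
  have tt := ((((((((t1.const_mul 4).add (t2.const_mul 4)).sub (t3.const_mul 2)).add
    (t4.const_mul 4)).sub t5).sub (t6.const_mul 4)).sub (t7.const_mul 2)).sub
    (t8'.const_mul 2))
  have hval : B < 4 * (I * (ar 3 * j1)) + 4 * (I * (ar 3 * j2)) -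
      2 * (I * (ar 3 * (2 * (2 * (yA + yB))))) + 4 * (I * (ar 3 * (2 * xD))) - I * (ar 3 * j5) -
      4 * (I * (ar 3 * j6)) - 2 * (I * (ar 3 * (2 * (2 * yC)))) - 2 * 0 := by
    refine hB.trans_le ?_
    have e : 4 * (I * (ar 3 * j1)) + 4 * (I * (ar 3 * j2)) -
      2 * (I * (ar 3 * (2 * (2 * (yA + yB))))) + 4 * (I * (ar 3 * (2 * xD))) - I * (ar 3 * j5) -
      4 * (I * (ar 3 * j6)) - 2 * (I * (ar 3 * (2 * (2 * yC)))) - 2 * 0 =
      I * (ar 3 * (4 * j1 + 4 * j2 - 8 * (yA + yB) + 8 * xD - j5 - 4 * j6 - 8 * yC)) := by ring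
    rw [e]
    refine mul_le_mul_of_nonneg_left (mul_le_mul_of_nonneg_left ?_ har.le) hI0
    have b1 := (abs_le.1 r1).1
    have b2 := (abs_le.1 r2).1
    have b3 := (abs_le.1 r3).2
    unfold SV
    linarith
  filter_upwards [tt.eventually_const_lt hval, eventually_gt_atTop (0 : ℝ),
    hlog.eventually_gt_atTop 0] with T h1 hT hL
  have hL9 : 0 < Real.log T ^ 9 := by positivity
  have hsum : 4 * (E1 T / Real.log T ^ 9) + 4 * (E2 T / Real.log T ^ 9) -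
      2 * (E3 T / Real.log T ^ 9) + 4 * (E4 T / Real.log T ^ 9) - E5 T / Real.log T ^ 9 -
      4 * (E6 T / Real.log T ^ 9) - 2 * (E7 T / Real.log T ^ 9) - 2 * (E8 T / Real.log T ^ 9) =
      (4 * E1 T + 4 * E2 T - 2 * E3 T + 4 * E4 T - E5 T - 4 * E6 T - 2 * E7 T - 2 * E8 T) /
        Real.log T ^ 9 := by ring
  have h2 : B < (4 * E1 T + 4 * E2 T - 2 * E3 T + 4 * E4 T - E5 T - 4 * E6 T - 2 * E7 T -
      2 * E8 T) / Real.log T ^ 9 := by
    rw [← hsum]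
    exact h1
  rw [lt_div_iff₀ hL9] at h2
  refine h2.le.trans ?_
  -- the pointwise certificate
  have hzc : Continuous fun t : ℝ => riemannZeta (cl t) := zeta_cl_cont
  have hzn : Continuous fun t : ℝ => ‖riemannZeta (cl t)‖ := hzc.norm
  have hV := VP_cont φ (Real.log T)
  have hCA := CP_cont (DD MA) (Real.log T)
  have hCB := CP_cont (DD MB) (Real.log T)
  have hCR := CP_cont (DD MR) (Real.log T)
  have hCC := CP_cont (DD MC) (Real.log T)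
  have cont : ∀ i, Continuous ((![fun t => ‖riemannZeta (cl t)‖ ^ 2 *
        (VP φ (Real.log T) t * (starRingEnd ℂ) (CP (DD MA) (Real.log T) t)).re,
      fun t => ‖riemannZeta (cl t)‖ ^ 2 *
        (VP φ (Real.log T) t * (starRingEnd ℂ) (CP (DD MB) (Real.log T) t)).re,
      fun t => ‖CP (DD MR) (Real.log T) t‖ ^ 2,
      fun t => ‖riemannZeta (cl t)‖ ^ 2 *
        (riemannZeta (cl t) * (starRingEnd ℂ) (CP (DD MC) (Real.log T) t)).re,
      fun t => ‖riemannZeta (cl t)‖ ^ 2 * ‖VP φ (Real.log T) t‖ ^ 4,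
      fun t => ‖VP φ (Real.log T) t‖ ^ 2 *
        (riemannZeta (cl t) * (starRingEnd ℂ) (CP (DD MC) (Real.log T) t)).re,
      fun t => ‖CP (DD MC) (Real.log T) t‖ ^ 2,
      fun t => (XX t * CP (DD MC) (Real.log T) t ^ 2).re] : Fin 8 → ℝ → ℝ) i) := by
    intro i
    fin_cases i
    · exact (hzn.pow 2).mul (Complex.continuous_re.comp (hV.mul (Complex.continuous_conj.comp hCA)))
    · exact (hzn.pow 2).mul (Complex.continuous_re.comp (hV.mul (Complex.continuous_conj.comp hCB)))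
    · exact hCR.norm.pow 2
    · exact (hzn.pow 2).mul (Complex.continuous_re.comp (hzc.mul (Complex.continuous_conj.comp hCC)))
    · exact (hzn.pow 2).mul (hV.norm.pow 4)
    · exact (hV.norm.pow 2).mul (Complex.continuous_re.comp
        (hzc.mul (Complex.continuous_conj.comp hCC)))
    · exact hCC.norm.pow 2
    · exact Complex.continuous_re.comp (XX_cont.mul (hCC.pow 2))
  have hlin := ft_lin hw hT ![4, 4, -2, 4, -1, -4, -2, -2] _ cont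
  simp only [Fin.sum_univ_eight, Matrix.cons_val_zero, Matrix.cons_val_one, Matrix.cons_val] at hlin
  have hE : 4 * E1 T + 4 * E2 T - 2 * E3 T + 4 * E4 T - E5 T - 4 * E6 T - 2 * E7 T - 2 * E8 T =
      4 * E1 T + 4 * E2 T + -2 * E3 T + 4 * E4 T + -1 * E5 T + -4 * E6 T + -2 * E7 T +
        -2 * E8 T := by ring
  rw [hE]
  simp only [hE1, hE2, hE3, hE4, hE5, hE6, hE7, hE8]
  rw [← hlin]
  refine mul_le_mul_of_nonneg_left ?_ (by positivity)
  refine integral_mono ?_ (integrable_wt hw hT (hzn.pow _)) fun t => ?_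
  · have hc : Continuous fun t : ℝ => 4 * (‖riemannZeta (cl t)‖ ^ 2 *
        (VP φ (Real.log T) t * (starRingEnd ℂ) (CP (DD MA) (Real.log T) t)).re) +
      4 * (‖riemannZeta (cl t)‖ ^ 2 *
        (VP φ (Real.log T) t * (starRingEnd ℂ) (CP (DD MB) (Real.log T) t)).re) +
      -2 * ‖CP (DD MR) (Real.log T) t‖ ^ 2 +
      4 * (‖riemannZeta (cl t)‖ ^ 2 *
        (riemannZeta (cl t) * (starRingEnd ℂ) (CP (DD MC) (Real.log T) t)).re) +
      -1 * (‖riemannZeta (cl t)‖ ^ 2 * ‖VP φ (Real.log T) t‖ ^ 4) +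
      -4 * (‖VP φ (Real.log T) t‖ ^ 2 *
        (riemannZeta (cl t) * (starRingEnd ℂ) (CP (DD MC) (Real.log T) t)).re) +
      -2 * ‖CP (DD MC) (Real.log T) t‖ ^ 2 +
      -2 * (XX t * CP (DD MC) (Real.log T) t ^ 2).re := by
      have c0 := cont 0
      have c1 := cont 1
      have c2 := cont 2
      have c3 := cont 3
      have c4 := cont 4
      have c5 := cont 5
      have c6 := cont 6
      have c7 := cont 7
      exact (((((((c0.const_smul (4 : ℝ)).add (c1.const_smul (4 : ℝ))).add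
        (c2.const_smul (-2 : ℝ))).add (c3.const_smul (4 : ℝ))).add (c4.const_smul (-1 : ℝ))).add
        (c5.const_smul (-4 : ℝ))).add (c6.const_smul (-2 : ℝ))).add (c7.const_smul (-2 : ℝ))
    exact integrable_wt hw hT hc
  · refine mul_le_mul_of_nonneg_left ?_ (hw.nonneg _)
    have hR : CP (DD MR) (Real.log T) t = CP (DD MA) (Real.log T) t + CP (DD MB) (Real.log T) t := by
      rw [← CP_add]
      congr 1
      funext x y z
      exact hDDR x y z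
    have := cert (riemannZeta (cl t)) (XX t) (VP φ (Real.log T) t) (CP (DD MC) (Real.log T) t)
      (CP (DD MR) (Real.log T) t) (XX_norm t) (XX_conj t)
    have e1 : (VP φ (Real.log T) t * (starRingEnd ℂ) (CP (DD MR) (Real.log T) t)).re =
        (VP φ (Real.log T) t * (starRingEnd ℂ) (CP (DD MA) (Real.log T) t)).re +
        (VP φ (Real.log T) t * (starRingEnd ℂ) (CP (DD MB) (Real.log T) t)).re := by
      rw [hR, map_add, mul_add, Complex.add_re]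
    rw [e1] at this
    refine le_trans (le_of_eq ?_) this
    ring

lemma choose_ke {a V : ℝ} (hAV : a < V) (hV0 : 0 < V) : ∃ κ η : ℝ, 0 < κ ∧ κ < 1 / 2 ∧ 0 < η ∧
    a < (1 - 2 * κ) * (V - 37 * η) ∧ 0 ≤ V - 37 * η := by
  obtain ⟨b, h1, h2, h3⟩ : ∃ b : ℝ, a ≤ b ∧ 0 ≤ b ∧ b < V :=
    ⟨max a 0, le_max_left _ _, le_max_right _ _, max_lt hAV hV0⟩
  obtain ⟨d, hd⟩ : ∃ d : ℝ, d = V - b := ⟨_, rfl⟩
  have hd0 : 0 < d := by linarith
  refine ⟨min (1 / 4) (d / (8 * (V + 1))), d / 148, by positivity,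
    (min_le_left _ _).trans_lt (by norm_num), by positivity, ?_, by linarith⟩
  have h4 : min (1 / 4) (d / (8 * (V + 1))) ≤ d / (8 * (V + 1)) := min_le_right _ _
  have h5 : 0 ≤ min (1 / 4) (d / (8 * (V + 1))) := by positivity
  have h6 : d / (8 * (V + 1)) * (V + 1) = d / 8 := by field_simp
  have h7 : min (1 / 4) (d / (8 * (V + 1))) * (V - 37 * (d / 148)) ≤ d / 8 := by
    calc min (1 / 4) (d / (8 * (V + 1))) * (V - 37 * (d / 148)) ≤
          d / (8 * (V + 1)) * (V + 1) := by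
            refine mul_le_mul h4 (by linarith) (by linarith) (by positivity)
      _ = d / 8 := h6
  nlinarith

/-- the value of the certificate at `s² = 1963/4032` -/
theorem SV_value {s : ℝ} (hs : s ^ 2 = 1963 / 4032) :
    SV s = 16809529 / 458752 / (Nat.factorial 9 : ℝ) := by
  have hm : ∀ {O : Set (ℝ × ℝ × ℝ)}, Reg O →
      IntegrableOn (fun p : ℝ × ℝ × ℝ => mm p.1 p.2.1 p.2.2 ^ 2) O := by
    intro O hO
    refine hO.integrable (mm_meas.pow_const 2) (C := 1) fun p hp => ?_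
    obtain ⟨h1, h2, h3, h4, h5⟩ := hO.sub p hp
    rw [abs_pow]
    exact pow_le_one₀ (abs_nonneg _) (mm_le h1 h2 h3 h4 h5)
  have e1 : (∫ p in OA, (s * mm p.1 p.2.1 p.2.2) ^ 2) + (∫ p in OB, (s * mm p.1 p.2.1 p.2.2) ^ 2) =
      s ^ 2 * (2447 / 13762560) := by
    rw [← vol_m, setIntegral_union disj_AB reg_OB.opn.measurableSet (hm reg_OA) (hm reg_OB),
      mul_add, ← integral_const_mul, ← integral_const_mul]
    congr 1 <;> exact integral_congr_ae (ae_of_all _ fun p => by simp only; ring)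
  have e2 : ∫ p in OW, (dl p.1 p.2.1 p.2.2 - s ^ 2 * qq p.1 p.2.1 p.2.2) ^ 2 =
      241 / 6193152 - 2 * s ^ 2 * (2689 / 41287680) + s ^ 4 * (3 / 20480) := by
    have i1 : IntegrableOn (fun p : ℝ × ℝ × ℝ => dl p.1 p.2.1 p.2.2 ^ 2) OW := by
      refine reg_OW.integrable (dl_meas.pow_const 2) (C := 1) fun p hp => ?_
      obtain ⟨h1, h2, h3, h4, h5⟩ := reg_OW.sub p hp
      rw [abs_pow]
      exact pow_le_one₀ (abs_nonneg _) (dl_le h1 h2 h3 h4 h5)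
    have i2 : IntegrableOn (fun p : ℝ × ℝ × ℝ => dl p.1 p.2.1 p.2.2 * qq p.1 p.2.1 p.2.2) OW := by
      refine reg_OW.integrable (dl_meas.mul qq_meas) (C := 1) fun p hp => ?_
      obtain ⟨h1, h2, h3, h4, h5⟩ := reg_OW.sub p hp
      rw [abs_mul]
      exact mul_le_one₀ (dl_le h1 h2 h3 h4 h5) (abs_nonneg _) (qq_le h1)
    have i3 : IntegrableOn (fun p : ℝ × ℝ × ℝ => qq p.1 p.2.1 p.2.2 ^ 2) OW := by
      refine reg_OW.integrable (qq_meas.pow_const 2) (C := 1) fun p hp => ?_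
      obtain ⟨h1, h2, h3, h4, h5⟩ := reg_OW.sub p hp
      rw [abs_pow]
      exact pow_le_one₀ (abs_nonneg _) (qq_le h1)
    rw [← vol_d, ← vol_dq, ← vol_q, ← integral_const_mul, ← integral_const_mul,
      ← integral_sub i1 (i2.const_mul _)]
    have i12 : IntegrableOn (fun p : ℝ × ℝ × ℝ => dl p.1 p.2.1 p.2.2 ^ 2 -
        2 * s ^ 2 * (dl p.1 p.2.1 p.2.2 * qq p.1 p.2.1 p.2.2)) OW := i1.sub (i2.const_mul _)
    rw [← integral_add i12 (i3.const_mul _)]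
    exact integral_congr_ae (ae_of_all _ fun p => by simp only; ring)
  have hs4 : s ^ 4 = (1963 / 4032) ^ 2 := by rw [← hs]; ring
  unfold SV
  rw [← mul_add, e1, e2, hs, hs4]
  have hf : (Nat.factorial 9 : ℝ) = 362880 := by norm_num [Nat.factorial]
  rw [hf]
  norm_num

theorem const_t {A : ℝ} (hA : A < 16809529 / 458752) : ∀ᶠ T : ℝ in atTop,
    A * (ar 3 / (Nat.factorial 9)) * Real.log T ^ 9 ≤
      (1 / T) * ∫ t in (0 : ℝ)..T, ‖riemannZeta (cl t)‖ ^ 6 := by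
  have har : 0 < ar 3 := Real.exp_pos _
  have hf0 : (0 : ℝ) < (Nat.factorial 9 : ℝ) := by positivity
  set s := Real.sqrt (1963 / 4032) with hs
  have hs2 : s ^ 2 = 1963 / 4032 := Real.sq_sqrt (by norm_num)
  have hs0 : 0 < s := Real.sqrt_pos.2 (by norm_num)
  have hs1 : s ≤ 1 := by
    by_contra hc
    have hc' := not_le.mp hc
    nlinarith
  set V : ℝ := 16809529 / 458752 / (Nat.factorial 9 : ℝ) with hV
  have hV0 : 0 < V := by positivity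
  have hAV : A / (Nat.factorial 9 : ℝ) < V := by
    rw [hV]
    exact div_lt_div_of_pos_right hA hf0
  -- choose κ and η
  obtain ⟨κ, η, hκ0, hκ1, hη, hκη, hpos⟩ := choose_ke hAV hV0
  have hw := wK_wgt κ ⟨hκ0, hκ1⟩
  have hmass := wK_mass κ ⟨hκ0, hκ1⟩
  have hB : A * (ar 3 / (Nat.factorial 9)) <
      (∫ x, wK κ ⟨hκ0, hκ1⟩ x) * (ar 3 * (SV s - 37 * η)) := by
    rw [SV_value hs2, ← hV]
    calc A * (ar 3 / (Nat.factorial 9)) = ar 3 * (A / (Nat.factorial 9 : ℝ)) := by ring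
      _ < ar 3 * ((1 - 2 * κ) * (V - 37 * η)) := mul_lt_mul_of_pos_left hκη har
      _ = (1 - 2 * κ) * (ar 3 * (V - 37 * η)) := by ring
      _ ≤ _ := mul_le_mul_of_nonneg_right hmass (mul_nonneg har.le hpos)
  have h1 := ft_weight hw hs0 hs1 hη hB
  filter_upwards [h1, eventually_gt_atTop (0 : ℝ)] with T h2 hT
  refine h2.trans ?_
  refine mul_le_mul_of_nonneg_left ?_ (by positivity)
  exact weight_le hw (fun x => (wK κ ⟨hκ0, hκ1⟩).le_one) hT (zeta_cl_cont.norm.pow _)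
    (fun t => by positivity)

end Pool.Agent.SixT
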