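import Mathlib
import Pool.Agent.Lib_MP_112ba8_t.Defs

/-!
Piece E7 (about 250 lines).

For fixed block `(y₁₁,y₁₂,y₂₁,y₂₂)` the four functions are `φ(y₁₀+y₁₁+y₁₂)`, `φ(y₂₀+y₂₁+y₂₂)`,
`φ(y₀₁+y₁₁+y₂₁)`, `φ(y₀₂+y₁₂+y₂₂)`, `s₀ = y₀₁+y₀₂`, `r₀ = y₁₀+y₂₀`. On the support of the product all four
arguments are in `[1/4-2δ, 1/4-δ]`, so with `Σ = y₁₁+y₁₂+y₂₁+y₂₂`
`1-s₀-r₀ ≤ 1 - (4(1/4-2δ) - 2Σ) = 2Σ + 8δ`, and the row and column sums of the block are `≤ 1/4`.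
As `φ ≥ 0` and `∫ φ = c`: `I8 ≤ c⁴ ∫_{P} (2Σ+8δ)`, `P = {block > 0, row and column sums ≤ 1/4}`.
`vol P = (1/4)^4/6`, `∫_P 2Σ = 1/2560`: by scaling `2 (1/4)^5 ∫_{P₁} Σ`, `∫_{P₁} Σ = 2 ∫_{P₁} (a+b)` where for
`a = y₁₁, b = y₁₂`, `a+b ≤ 1` the area of `{(y₂₁,y₂₂) : y₂₁ ≤ 1-a, y₂₂ ≤ 1-b, y₂₁+y₂₂ ≤ 1}` is
`(1-a)(1-b) - (1-a-b)²/2 = (1 - a² - b²)/2`; `∫_{P₁} Σ = 1/5`. (Only `≤` is needed.)
-/

namespace Pool.Agent.SixT

open Filter Topology MeasureTheory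
open Pool.Agent.EvenMoment (cl Wgt Sz ker ar)

section limXV4

variable {φ : ℝ → ℝ} {δ c : ℝ}

private theorem xq_compact (h : Thin φ δ c) : HasCompactSupport φ := by
  refine HasCompactSupport.intro (isCompact_Icc (a := 1 / 4 - 2 * δ) (b := 1 / 4 - δ))
    (fun x hx => h.supp x ?_)
  by_contra hc
  push Not at hc
  exact hx ⟨hc.1.le, hc.2.le⟩

private theorem xq_int (h : Thin φ δ c) : Integrable φ :=
  h.smooth.continuous.integrable_of_hasCompactSupport (xq_compact h)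

/-- the tails of `φ` as lower integrals -/
private theorem xq_tail (h : Thin φ δ c) (t : ℝ) :
    ∫⁻ u, ENNReal.ofReal (φ (u + t)) ∂mu ≤ ENNReal.ofReal c := by
  calc ∫⁻ u, ENNReal.ofReal (φ (u + t)) ∂mu ≤ ∫⁻ u, ENNReal.ofReal (φ (u + t)) := by
        unfold mu
        exact setLIntegral_le_lintegral _ _
    _ = ENNReal.ofReal (∫ u, φ (u + t)) :=
        (ofReal_integral_eq_lintegral_ofReal ((xq_int h).comp_add_right t)
          (ae_of_all _ fun _ => h.nonneg _)).symm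
    _ = ENNReal.ofReal c := by rw [integral_add_right_eq_self (fun u => φ u) t, h.int]

private theorem xq_sf : SFinite mu := by unfold mu; infer_instance

private theorem xq_pos : ∀ᵐ u ∂mu, 0 < u := by
  unfold mu
  exact ae_restrict_mem measurableSet_Ioi

private theorem xq_pos2 : ∀ᵐ p ∂(mu.prod mu), 0 < p.1 ∧ 0 < p.2 := by
  have := xq_sf
  have h1 : ∀ᵐ p ∂(mu.prod mu), 0 < p.1 := Measure.quasiMeasurePreserving_fst.ae xq_pos
  have h2 : ∀ᵐ p ∂(mu.prod mu), 0 < p.2 := Measure.quasiMeasurePreserving_snd.ae xq_pos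
  filter_upwards [h1, h2] with p a b using ⟨a, b⟩

private theorem xq_pos3 : ∀ᵐ p ∂mu3, 0 < p.1 ∧ 0 < p.2.1 ∧ 0 < p.2.2 := by
  have := xq_sf
  unfold mu3
  have h1 : ∀ᵐ p ∂(mu.prod (mu.prod mu)), 0 < p.1 := Measure.quasiMeasurePreserving_fst.ae xq_pos
  have h2 : ∀ᵐ p ∂(mu.prod (mu.prod mu)), 0 < p.2.1 ∧ 0 < p.2.2 :=
    Measure.quasiMeasurePreserving_snd.ae xq_pos2
  filter_upwards [h1, h2] with p a b using ⟨a, b⟩

private theorem xq_sf3 : SFinite mu3 := by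
  have := xq_sf
  unfold mu3
  infer_instance

private theorem xq_pos8 : ∀ᵐ y ∂mu8, (0 < y.1.1 ∧ 0 < y.1.2) ∧
    (0 < y.2.1.1 ∧ 0 < y.2.1.2.1 ∧ 0 < y.2.1.2.2) ∧
    (0 < y.2.2.1 ∧ 0 < y.2.2.2.1 ∧ 0 < y.2.2.2.2) := by
  have := xq_sf
  have := xq_sf3
  unfold mu8
  have h1 : ∀ᵐ y ∂((mu.prod mu).prod (mu3.prod mu3)), 0 < y.1.1 ∧ 0 < y.1.2 :=
    Measure.quasiMeasurePreserving_fst.ae xq_pos2
  have h2 : ∀ᵐ y ∂(mu3.prod mu3), 0 < y.1.1 ∧ 0 < y.1.2.1 ∧ 0 < y.1.2.2 :=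
    Measure.quasiMeasurePreserving_fst.ae xq_pos3
  have h3 : ∀ᵐ y ∂(mu3.prod mu3), 0 < y.2.1 ∧ 0 < y.2.2.1 ∧ 0 < y.2.2.2 :=
    Measure.quasiMeasurePreserving_snd.ae xq_pos3
  have h4 : ∀ᵐ y ∂((mu.prod mu).prod (mu3.prod mu3)),
      0 < y.2.1.1 ∧ 0 < y.2.1.2.1 ∧ 0 < y.2.1.2.2 :=
    Measure.quasiMeasurePreserving_snd.ae h2
  have h5 : ∀ᵐ y ∂((mu.prod mu).prod (mu3.prod mu3)),
      0 < y.2.2.1 ∧ 0 < y.2.2.2.1 ∧ 0 < y.2.2.2.2 :=
    Measure.quasiMeasurePreserving_snd.ae h3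
  filter_upwards [h1, h4, h5] with y a b c using ⟨a, b, c⟩

/-- truncated lower integrals of continuous functions -/
private theorem xq_trunc {f : ℝ → ℝ} (hf : Continuous f) {t : ℝ} (ht : 0 ≤ t)
    (hn : ∀ u, 0 < u → u ≤ t → 0 ≤ f u) :
    ∫⁻ u, (if u ≤ t then ENNReal.ofReal (f u) else 0) ∂mu =
      ENNReal.ofReal (∫ u in (0 : ℝ)..t, f u) := by
  rw [intervalIntegral.integral_of_le ht, ofReal_integral_eq_lintegral_ofReal
    (hf.integrableOn_Ioc) ((ae_restrict_iff' measurableSet_Ioc).mpr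
      (ae_of_all _ fun u hu => hn u hu.1 hu.2))]
  unfold mu
  rw [← lintegral_indicator measurableSet_Ioi, ← lintegral_indicator measurableSet_Ioc]
  refine lintegral_congr fun u => ?_
  by_cases h0 : 0 < u
  · by_cases h1 : u ≤ t
    · rw [Set.indicator_of_mem (show u ∈ Set.Ioi (0 : ℝ) from h0),
        Set.indicator_of_mem (show u ∈ Set.Ioc 0 t from ⟨h0, h1⟩), if_pos h1]
    · rw [Set.indicator_of_mem (show u ∈ Set.Ioi (0 : ℝ) from h0),
        Set.indicator_of_notMem (fun hh => h1 hh.2), if_neg h1]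
  · rw [Set.indicator_of_notMem (show u ∉ Set.Ioi (0 : ℝ) from h0),
        Set.indicator_of_notMem (fun hh => h0 hh.1)]

/-- the block polytope -/
private def xqP (p r : ℝ × ℝ) : Prop :=
  p.1 + p.2 ≤ 1 / 4 ∧ r.1 + r.2 ≤ 1 / 4 ∧ p.1 + r.1 ≤ 1 / 4 ∧ p.2 + r.2 ≤ 1 / 4

open Classical in
private noncomputable def xqA (δ : ℝ) (p r : ℝ × ℝ) : ENNReal :=
  if xqP p r then ENNReal.ofReal (2 * (p.1 + p.2 + r.1 + r.2) + 8 * δ) else 0

open Classical in
private noncomputable def xqB (δ : ℝ) (p r : ℝ × ℝ) : ENNReal :=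
  if xqP p r then ENNReal.ofReal (4 * (p.1 + p.2) + 8 * δ) else 0

private theorem xqP_meas : MeasurableSet {w : (ℝ × ℝ) × (ℝ × ℝ) | xqP w.1 w.2} := by
  have h1 : Measurable fun w : (ℝ × ℝ) × (ℝ × ℝ) => w.1.1 + w.1.2 := by fun_prop
  have h2 : Measurable fun w : (ℝ × ℝ) × (ℝ × ℝ) => w.2.1 + w.2.2 := by fun_prop
  have h3 : Measurable fun w : (ℝ × ℝ) × (ℝ × ℝ) => w.1.1 + w.2.1 := by fun_prop
  have h4 : Measurable fun w : (ℝ × ℝ) × (ℝ × ℝ) => w.1.2 + w.2.2 := by fun_prop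
  exact (measurableSet_le h1 measurable_const).inter ((measurableSet_le h2 measurable_const).inter
    ((measurableSet_le h3 measurable_const).inter (measurableSet_le h4 measurable_const)))

private theorem xqA_meas (δ : ℝ) : Measurable fun w : (ℝ × ℝ) × (ℝ × ℝ) => xqA δ w.1 w.2 := by
  unfold xqA
  refine Measurable.ite xqP_meas ?_ measurable_const
  fun_prop

private theorem xqB_meas (δ : ℝ) : Measurable fun w : (ℝ × ℝ) × (ℝ × ℝ) => xqB δ w.1 w.2 := by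
  unfold xqB
  refine Measurable.ite xqP_meas ?_ measurable_const
  fun_prop

/-- the area of the section -/
private theorem xq_area {a b : ℝ} (hb : 0 < b) (hab : a + b ≤ 1 / 4) :
    ∫ x in (0 : ℝ)..(1 / 4 - a), min (1 / 4 - b) (1 / 4 - x) = ((1 / 4) ^ 2 - a ^ 2 - b ^ 2) / 2 := by
  have hc : Continuous fun x : ℝ => min (1 / 4 - b) (1 / 4 - x) := by fun_prop
  rw [← intervalIntegral.integral_add_adjacent_intervals (b := b)
    (hc.intervalIntegrable _ _) (hc.intervalIntegrable _ _)]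
  have e1 : ∫ x in (0 : ℝ)..b, min (1 / 4 - b) (1 / 4 - x) = ∫ x in (0 : ℝ)..b, (1 / 4 - b) := by
    refine intervalIntegral.integral_congr fun x hx => ?_
    rw [Set.uIcc_of_le hb.le] at hx
    exact min_eq_left (by linarith [hx.2])
  have e2 : ∫ x in b..(1 / 4 - a), min (1 / 4 - b) (1 / 4 - x) =
      ∫ x in b..(1 / 4 - a), (1 / 4 - x) := by
    refine intervalIntegral.integral_congr fun x hx => ?_
    rw [Set.uIcc_of_le (by linarith)] at hx
    exact min_eq_right (by linarith [hx.1])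
  rw [e1, e2, intervalIntegral.integral_const, intervalIntegral.integral_sub (by simp) (by simp),
    intervalIntegral.integral_const, integral_id, smul_eq_mul, smul_eq_mul]
  ring

open Classical in
private theorem xq_section {a b : ℝ} (ha : 0 < a) (hb : 0 < b) :
    ∫⁻ r, (if xqP (a, b) r then 1 else 0) ∂(mu.prod mu) =
      if a + b ≤ 1 / 4 then ENNReal.ofReal (((1 / 4) ^ 2 - a ^ 2 - b ^ 2) / 2) else 0 := by
  have := xq_sf
  by_cases hab : a + b ≤ 1 / 4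
  swap
  · rw [if_neg hab]
    have : ∀ r : ℝ × ℝ, (if xqP (a, b) r then (1 : ENNReal) else 0) = 0 := fun r =>
      if_neg fun hh => hab hh.1
    simp only [this, lintegral_zero]
  rw [if_pos hab]
  have hm : Measurable fun r : ℝ × ℝ => (if xqP (a, b) r then (1 : ENNReal) else 0) := by
    refine Measurable.ite ?_ measurable_const measurable_const
    exact (show Measurable fun r : ℝ × ℝ => ((a, b), r) by fun_prop) xqP_meas
  rw [lintegral_prod _ hm.aemeasurable, ← xq_area hb hab]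
  have hc : Continuous fun x : ℝ => min (1 / 4 - b) (1 / 4 - x) := by fun_prop
  rw [← xq_trunc hc (by linarith) (fun u _ hu2 => le_min (by linarith) (by linarith))]
  refine lintegral_congr_ae ?_
  filter_upwards [xq_pos] with x hx
  by_cases hxa : x ≤ 1 / 4 - a
  · rw [if_pos hxa]
    have e : ∀ y : ℝ, (if xqP (a, b) (x, y) then (1 : ENNReal) else 0) =
        if y ≤ min (1 / 4 - b) (1 / 4 - x) then ENNReal.ofReal 1 else 0 := by
      intro y
      rw [ENNReal.ofReal_one]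
      refine if_congr ?_ rfl rfl
      unfold xqP
      rw [le_min_iff]
      constructor
      · rintro ⟨_, h2, _, h4⟩
        simp only at h2 h4
        constructor <;> linarith
      · rintro ⟨h1, h2⟩
        refine ⟨hab, ?_, ?_, ?_⟩ <;> simp only <;> linarith
    simp only [e]
    rw [xq_trunc continuous_const (le_min (by linarith) (by linarith)) (fun _ _ _ => zero_le_one)]
    simp
  · rw [if_neg hxa]
    have e : ∀ y : ℝ, (if xqP (a, b) (x, y) then (1 : ENNReal) else 0) = 0 := by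
      intro y
      refine if_neg fun hh => hxa ?_
      have h3 := hh.2.2.1
      simp only at h3
      linarith
    simp only [e, lintegral_zero]

private theorem xq_poly (δ a : ℝ) :
    ∫ b in (0 : ℝ)..(1 / 4 - a), (4 * (a + b) + 8 * δ) * (((1 / 4) ^ 2 - a ^ 2 - b ^ 2) / 2) =
      (4 * a + 8 * δ) * ((1 / 4) ^ 2 - a ^ 2) / 2 * (1 / 4 - a) + ((1 / 4) ^ 2 - a ^ 2) * (1 / 4 - a) ^ 2
        - (4 * a + 8 * δ) * (1 / 4 - a) ^ 3 / 6 - (1 / 4 - a) ^ 4 / 2 := by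
  have e : ∀ b : ℝ, (4 * (a + b) + 8 * δ) * (((1 / 4) ^ 2 - a ^ 2 - b ^ 2) / 2) =
      ((4 * a + 8 * δ) * ((1 / 4) ^ 2 - a ^ 2) / 2 + (2 * ((1 / 4) ^ 2 - a ^ 2)) * b)
        - (((4 * a + 8 * δ) / 2) * b ^ 2 + 2 * b ^ 3) := by intro b; ring
  simp only [e]
  rw [intervalIntegral.integral_sub (Continuous.intervalIntegrable (by fun_prop) _ _)
      (Continuous.intervalIntegrable (by fun_prop) _ _),
    intervalIntegral.integral_add (Continuous.intervalIntegrable (by fun_prop) _ _)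
      (Continuous.intervalIntegrable (by fun_prop) _ _),
    intervalIntegral.integral_add (Continuous.intervalIntegrable (by fun_prop) _ _)
      (Continuous.intervalIntegrable (by fun_prop) _ _),
    intervalIntegral.integral_const, intervalIntegral.integral_const_mul,
    intervalIntegral.integral_const_mul, intervalIntegral.integral_const_mul, integral_id,
    integral_pow, integral_pow, smul_eq_mul]
  norm_num
  ring

private theorem xq_poly2 (δ : ℝ) :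
    ∫ a in (0 : ℝ)..(1 / 4), ((4 * a + 8 * δ) * ((1 / 4) ^ 2 - a ^ 2) / 2 * (1 / 4 - a) +
        ((1 / 4) ^ 2 - a ^ 2) * (1 / 4 - a) ^ 2
        - (4 * a + 8 * δ) * (1 / 4 - a) ^ 3 / 6 - (1 / 4 - a) ^ 4 / 2) =
      1 / 2560 + δ / 192 := by
  have e : ∀ a : ℝ, (4 * a + 8 * δ) * ((1 / 4) ^ 2 - a ^ 2) / 2 * (1 / 4 - a) +
        ((1 / 4) ^ 2 - a ^ 2) * (1 / 4 - a) ^ 2
        - (4 * a + 8 * δ) * (1 / 4 - a) ^ 3 / 6 - (1 / 4 - a) ^ 4 / 2 =
      (((1 / 512 + δ / 24) + (1 / 48) * a ^ 1) + (-(3 / 16) - 2 * δ) * a ^ 2) +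
        ((16 / 3 * δ) * a ^ 3 + (7 / 6) * a ^ 4) := by intro a; ring
  simp only [e]
  rw [intervalIntegral.integral_add (Continuous.intervalIntegrable (by fun_prop) _ _)
      (Continuous.intervalIntegrable (by fun_prop) _ _),
    intervalIntegral.integral_add (Continuous.intervalIntegrable (by fun_prop) _ _)
      (Continuous.intervalIntegrable (by fun_prop) _ _),
    intervalIntegral.integral_add (Continuous.intervalIntegrable (by fun_prop) _ _)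
      (Continuous.intervalIntegrable (by fun_prop) _ _),
    intervalIntegral.integral_add (Continuous.intervalIntegrable (by fun_prop) _ _)
      (Continuous.intervalIntegrable (by fun_prop) _ _),
    intervalIntegral.integral_add (Continuous.intervalIntegrable (by fun_prop) _ _)
      (Continuous.intervalIntegrable (by fun_prop) _ _)]
  simp only [intervalIntegral.integral_const, intervalIntegral.integral_const_mul,
    integral_pow, smul_eq_mul]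
  norm_num
  ring

/-- the integral of the block weight -/
private theorem xq_blockB {δ : ℝ} (hδ : 0 < δ) :
    ∫⁻ p, ∫⁻ r, xqB δ p r ∂(mu.prod mu) ∂(mu.prod mu) = ENNReal.ofReal (1 / 2560 + δ / 192) := by
  classical
  have := xq_sf
  have e1 : ∀ᵐ p ∂(mu.prod mu), ∫⁻ r, xqB δ p r ∂(mu.prod mu) =
      if p.2 ≤ 1 / 4 - p.1 then ENNReal.ofReal
        ((4 * (p.1 + p.2) + 8 * δ) * (((1 / 4) ^ 2 - p.1 ^ 2 - p.2 ^ 2) / 2)) else 0 := by
    filter_upwards [xq_pos2] with p hp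
    have e2 : ∀ r : ℝ × ℝ, xqB δ p r =
        ENNReal.ofReal (4 * (p.1 + p.2) + 8 * δ) * (if xqP (p.1, p.2) r then 1 else 0) := by
      intro r
      unfold xqB
      by_cases h : xqP p r
      · rw [if_pos h, if_pos (show xqP (p.1, p.2) r from h), mul_one]
      · rw [if_neg h, if_neg (show ¬ xqP (p.1, p.2) r from h), mul_zero]
    simp only [e2]
    rw [lintegral_const_mul', xq_section hp.1 hp.2]
    · by_cases hab : p.1 + p.2 ≤ 1 / 4
      · rw [if_pos hab, if_pos (by linarith), ← ENNReal.ofReal_mul (by linarith [hp.1, hp.2])]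
      · rw [if_neg hab, if_neg (fun hh => hab (by linarith)), mul_zero]
    · exact ENNReal.ofReal_ne_top
  rw [lintegral_congr_ae e1, lintegral_prod]
  · have e3 : ∀ᵐ a ∂mu, ∫⁻ b, (if b ≤ 1 / 4 - a then ENNReal.ofReal
        ((4 * (a + b) + 8 * δ) * (((1 / 4) ^ 2 - a ^ 2 - b ^ 2) / 2)) else 0) ∂mu =
        if a ≤ 1 / 4 then ENNReal.ofReal ((4 * a + 8 * δ) * ((1 / 4) ^ 2 - a ^ 2) / 2 * (1 / 4 - a) +
        ((1 / 4) ^ 2 - a ^ 2) * (1 / 4 - a) ^ 2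
        - (4 * a + 8 * δ) * (1 / 4 - a) ^ 3 / 6 - (1 / 4 - a) ^ 4 / 2) else 0 := by
      filter_upwards [xq_pos] with a ha
      by_cases h1 : a ≤ 1 / 4
      · rw [if_pos h1, ← xq_poly, ← xq_trunc (by fun_prop) (by linarith)]
        intro u hu0 hu1
        refine mul_nonneg (by linarith) (div_nonneg ?_ (by norm_num))
        nlinarith
      · rw [if_neg h1]
        refine (lintegral_congr_ae (g := fun _ => 0) ?_).trans lintegral_zero
        filter_upwards [xq_pos] with b hb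
        exact if_neg (by linarith)
    rw [lintegral_congr_ae e3, xq_trunc (by fun_prop) (by norm_num), xq_poly2]
    intro a ha0 ha1
    rw [← xq_poly]
    refine intervalIntegral.integral_nonneg (by linarith) fun b hb => ?_
    refine mul_nonneg (by linarith [hb.1]) (div_nonneg ?_ (by norm_num))
    nlinarith [hb.1, hb.2]
  · refine Measurable.aemeasurable ?_
    refine Measurable.ite ?_ (by fun_prop) measurable_const
    exact measurableSet_le measurable_snd (by fun_prop)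

private theorem xq_blockA {δ : ℝ} (hδ : 0 < δ) :
    ∫⁻ p, ∫⁻ r, xqA δ p r ∂(mu.prod mu) ∂(mu.prod mu) = ENNReal.ofReal (1 / 2560 + δ / 192) := by
  classical
  have := xq_sf
  have h2 : ∀ᵐ p ∂(mu.prod mu), ∫⁻ r, 2 * xqA δ p r ∂(mu.prod mu) =
      ∫⁻ r, xqB δ p r ∂(mu.prod mu) + ∫⁻ r, xqB δ r p ∂(mu.prod mu) := by
    filter_upwards [xq_pos2] with p hp
    have hm : Measurable fun r : ℝ × ℝ => xqB δ p r :=
      (xqB_meas δ).comp (show Measurable fun r : ℝ × ℝ => (p, r) by fun_prop)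
    rw [← lintegral_add_left hm]
    refine lintegral_congr_ae ?_
    filter_upwards [xq_pos2] with r hr
    unfold xqA xqB
    have hP : xqP r p ↔ xqP p r := by
      unfold xqP
      constructor
      · rintro ⟨h1, h2, h3, h4⟩
        exact ⟨h2, h1, by linarith, by linarith⟩
      · rintro ⟨h1, h2, h3, h4⟩
        exact ⟨h2, h1, by linarith, by linarith⟩
    by_cases h : xqP p r
    · rw [if_pos h, if_pos h, if_pos (hP.mpr h), ← ENNReal.ofReal_add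
        (by linarith [hp.1, hp.2]) (by linarith [hr.1, hr.2]), ← ENNReal.ofReal_ofNat,
        ← ENNReal.ofReal_mul (by norm_num)]
      congr 1
      ring
    · rw [if_neg h, if_neg h, if_neg (fun hh => h (hP.mp hh))]
      simp
  have h3 : 2 * ∫⁻ p, ∫⁻ r, xqA δ p r ∂(mu.prod mu) ∂(mu.prod mu) =
      ENNReal.ofReal (1 / 2560 + δ / 192) + ENNReal.ofReal (1 / 2560 + δ / 192) := by
    rw [← lintegral_const_mul' _ _ (by norm_num)]
    have h4 : ∀ p : ℝ × ℝ, 2 * ∫⁻ r, xqA δ p r ∂(mu.prod mu) =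
        ∫⁻ r, 2 * xqA δ p r ∂(mu.prod mu) := fun p =>
      (lintegral_const_mul' _ _ (by norm_num)).symm
    simp only [h4]
    rw [lintegral_congr_ae h2, lintegral_add_left]
    · rw [xq_blockB hδ]
      congr 1
      rw [lintegral_lintegral_swap]
      · exact xq_blockB hδ
      · exact ((xqB_meas δ).comp measurable_swap).aemeasurable
    · exact (xqB_meas δ).lintegral_prod_right'
  rw [← two_mul] at h3
  exact (ENNReal.mul_right_inj (by norm_num) (by norm_num)).mp h3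

/-- the dominating function -/
private noncomputable def xqG (φ : ℝ → ℝ) (δ : ℝ) (y : (ℝ × ℝ) × (ℝ × ℝ × ℝ) × (ℝ × ℝ × ℝ)) : ENNReal :=
  xqA δ y.2.1.2 y.2.2.2 *
    (ENNReal.ofReal (φ (y.2.1.1 + (y.2.1.2.1 + y.2.1.2.2))) *
      ENNReal.ofReal (φ (y.2.2.1 + (y.2.2.2.1 + y.2.2.2.2)))) *
    (ENNReal.ofReal (φ (y.1.1 + (y.2.1.2.1 + y.2.2.2.1))) *
      ENNReal.ofReal (φ (y.1.2 + (y.2.1.2.2 + y.2.2.2.2))))

private theorem xqG_meas (h : Thin φ δ c) : Measurable (xqG φ δ) := by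
  have hφ : Measurable φ := h.smooth.continuous.measurable
  unfold xqG
  have hA : Measurable fun y : (ℝ × ℝ) × (ℝ × ℝ × ℝ) × (ℝ × ℝ × ℝ) => xqA δ y.2.1.2 y.2.2.2 :=
    (xqA_meas δ).comp (show Measurable fun y : (ℝ × ℝ) × (ℝ × ℝ × ℝ) × (ℝ × ℝ × ℝ) =>
      (y.2.1.2, y.2.2.2) by fun_prop)
  have h1 : Measurable fun y : (ℝ × ℝ) × (ℝ × ℝ × ℝ) × (ℝ × ℝ × ℝ) =>
      ENNReal.ofReal (φ (y.2.1.1 + (y.2.1.2.1 + y.2.1.2.2))) :=
    ENNReal.measurable_ofReal.comp (hφ.comp (by fun_prop))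
  have h2 : Measurable fun y : (ℝ × ℝ) × (ℝ × ℝ × ℝ) × (ℝ × ℝ × ℝ) =>
      ENNReal.ofReal (φ (y.2.2.1 + (y.2.2.2.1 + y.2.2.2.2))) :=
    ENNReal.measurable_ofReal.comp (hφ.comp (by fun_prop))
  have h3 : Measurable fun y : (ℝ × ℝ) × (ℝ × ℝ × ℝ) × (ℝ × ℝ × ℝ) =>
      ENNReal.ofReal (φ (y.1.1 + (y.2.1.2.1 + y.2.2.2.1))) :=
    ENNReal.measurable_ofReal.comp (hφ.comp (by fun_prop))
  have h4 : Measurable fun y : (ℝ × ℝ) × (ℝ × ℝ × ℝ) × (ℝ × ℝ × ℝ) =>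
      ENNReal.ofReal (φ (y.1.2 + (y.2.1.2.2 + y.2.2.2.2))) :=
    ENNReal.measurable_ofReal.comp (hφ.comp (by fun_prop))
  exact (hA.mul (h1.mul h2)).mul (h3.mul h4)

private theorem xqG_int (h : Thin φ δ c) (hδ : 0 < δ) :
    ∫⁻ y, xqG φ δ y ∂mu8 ≤ ENNReal.ofReal c ^ 4 * ENNReal.ofReal (1 / 2560 + δ / 192) := by
  have := xq_sf
  have := xq_sf3
  set C := ENNReal.ofReal c with hC
  have hφ : Measurable φ := h.smooth.continuous.measurable
  have hΦ : ∀ t : ℝ, Measurable fun u : ℝ => ENNReal.ofReal (φ (u + t)) := fun t =>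
    ENNReal.measurable_ofReal.comp (hφ.comp (by fun_prop))
  unfold mu8
  rw [lintegral_prod_symm _ (xqG_meas h).aemeasurable]
  -- integrate over `y₀₁, y₀₂`
  have s1 : ∀ z : (ℝ × ℝ × ℝ) × (ℝ × ℝ × ℝ), ∫⁻ w, xqG φ δ (w, z) ∂(mu.prod mu) ≤
      xqA δ z.1.2 z.2.2 * (ENNReal.ofReal (φ (z.1.1 + (z.1.2.1 + z.1.2.2))) *
      ENNReal.ofReal (φ (z.2.1 + (z.2.2.1 + z.2.2.2)))) * (C * C) := by
    intro z
    have m1 : Measurable fun w : ℝ × ℝ => ENNReal.ofReal (φ (w.1 + (z.1.2.1 + z.2.2.1))) *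
        ENNReal.ofReal (φ (w.2 + (z.1.2.2 + z.2.2.2))) :=
      ((hΦ (z.1.2.1 + z.2.2.1)).comp measurable_fst).mul
        ((hΦ (z.1.2.2 + z.2.2.2)).comp measurable_snd)
    unfold xqG
    simp only
    rw [lintegral_const_mul _ m1]
    gcongr
    rw [lintegral_prod_mul (hΦ _).aemeasurable (hΦ _).aemeasurable]
    exact mul_le_mul' (xq_tail h _) (xq_tail h _)
  refine (lintegral_mono s1).trans ?_
  have hA : Measurable fun z : (ℝ × ℝ × ℝ) × (ℝ × ℝ × ℝ) => xqA δ z.1.2 z.2.2 :=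
    (xqA_meas δ).comp (show Measurable fun z : (ℝ × ℝ × ℝ) × (ℝ × ℝ × ℝ) =>
      (z.1.2, z.2.2) by fun_prop)
  have m2 : Measurable fun z : (ℝ × ℝ × ℝ) × (ℝ × ℝ × ℝ) =>
      xqA δ z.1.2 z.2.2 * (ENNReal.ofReal (φ (z.1.1 + (z.1.2.1 + z.1.2.2))) *
      ENNReal.ofReal (φ (z.2.1 + (z.2.2.1 + z.2.2.2)))) * (C * C) := by
    have h1 : Measurable fun z : (ℝ × ℝ × ℝ) × (ℝ × ℝ × ℝ) =>
        ENNReal.ofReal (φ (z.1.1 + (z.1.2.1 + z.1.2.2))) :=
      ENNReal.measurable_ofReal.comp (hφ.comp (by fun_prop))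
    have h2 : Measurable fun z : (ℝ × ℝ × ℝ) × (ℝ × ℝ × ℝ) =>
        ENNReal.ofReal (φ (z.2.1 + (z.2.2.1 + z.2.2.2))) :=
      ENNReal.measurable_ofReal.comp (hφ.comp (by fun_prop))
    exact (hA.mul (h1.mul h2)).mul_const _
  rw [lintegral_prod _ m2.aemeasurable]
  -- integrate over `y₂₀`
  have s2 : ∀ p : ℝ × ℝ × ℝ, ∫⁻ r, xqA δ p.2 r.2 *
      (ENNReal.ofReal (φ (p.1 + (p.2.1 + p.2.2))) *
      ENNReal.ofReal (φ (r.1 + (r.2.1 + r.2.2)))) * (C * C) ∂mu3 ≤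
      (ENNReal.ofReal (φ (p.1 + (p.2.1 + p.2.2))) * ∫⁻ r, xqA δ p.2 r ∂(mu.prod mu)) * (C * C * C) := by
    intro p
    have m3 : Measurable fun r : ℝ × ℝ × ℝ => xqA δ p.2 r.2 *
      (ENNReal.ofReal (φ (p.1 + (p.2.1 + p.2.2))) *
      ENNReal.ofReal (φ (r.1 + (r.2.1 + r.2.2)))) * (C * C) :=
      m2.comp (show Measurable fun r : ℝ × ℝ × ℝ => (p, r) by fun_prop)
    unfold mu3
    rw [lintegral_prod_symm _ m3.aemeasurable]
    have s3 : ∀ r : ℝ × ℝ, ∫⁻ u, xqA δ p.2 r *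
        (ENNReal.ofReal (φ (p.1 + (p.2.1 + p.2.2))) *
        ENNReal.ofReal (φ (u + (r.1 + r.2)))) * (C * C) ∂mu ≤
        xqA δ p.2 r * (ENNReal.ofReal (φ (p.1 + (p.2.1 + p.2.2))) * (C * C * C)) := by
      intro r
      have e : ∀ u : ℝ, xqA δ p.2 r * (ENNReal.ofReal (φ (p.1 + (p.2.1 + p.2.2))) *
          ENNReal.ofReal (φ (u + (r.1 + r.2)))) * (C * C) =
          (xqA δ p.2 r * (ENNReal.ofReal (φ (p.1 + (p.2.1 + p.2.2))) * (C * C))) *
          ENNReal.ofReal (φ (u + (r.1 + r.2))) := by intro u; ring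
      simp only [e]
      rw [lintegral_const_mul _ (hΦ _)]
      calc xqA δ p.2 r * (ENNReal.ofReal (φ (p.1 + (p.2.1 + p.2.2))) * (C * C)) *
            ∫⁻ u, ENNReal.ofReal (φ (u + (r.1 + r.2))) ∂mu
          ≤ xqA δ p.2 r * (ENNReal.ofReal (φ (p.1 + (p.2.1 + p.2.2))) * (C * C)) * C :=
            mul_le_mul' le_rfl (xq_tail h _)
        _ = _ := by ring
    refine (lintegral_mono s3).trans ?_
    have m4 : Measurable fun r : ℝ × ℝ => xqA δ p.2 r :=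
      (xqA_meas δ).comp (show Measurable fun r : ℝ × ℝ => (p.2, r) by fun_prop)
    rw [lintegral_mul_const _ m4]
    apply le_of_eq
    ring
  refine (lintegral_mono s2).trans ?_
  have m5 : Measurable fun p : ℝ × ℝ => ∫⁻ r, xqA δ p r ∂(mu.prod mu) :=
    (xqA_meas δ).lintegral_prod_right'
  have m6 : Measurable fun p : ℝ × ℝ × ℝ => (ENNReal.ofReal (φ (p.1 + (p.2.1 + p.2.2))) *
      ∫⁻ r, xqA δ p.2 r ∂(mu.prod mu)) * (C * C * C) := by
    have h1 : Measurable fun p : ℝ × ℝ × ℝ => ENNReal.ofReal (φ (p.1 + (p.2.1 + p.2.2))) :=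
      ENNReal.measurable_ofReal.comp (hφ.comp (by fun_prop))
    exact (h1.mul (m5.comp measurable_snd)).mul_const _
  unfold mu3
  rw [lintegral_prod_symm _ m6.aemeasurable]
  have s4 : ∀ p : ℝ × ℝ, ∫⁻ u, (ENNReal.ofReal (φ (u + (p.1 + p.2))) *
      ∫⁻ r, xqA δ p r ∂(mu.prod mu)) * (C * C * C) ∂mu ≤
      (∫⁻ r, xqA δ p r ∂(mu.prod mu)) * C ^ 4 := by
    intro p
    have e : ∀ u : ℝ, (ENNReal.ofReal (φ (u + (p.1 + p.2))) *
      ∫⁻ r, xqA δ p r ∂(mu.prod mu)) * (C * C * C) =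
      ((∫⁻ r, xqA δ p r ∂(mu.prod mu)) * (C * C * C)) * ENNReal.ofReal (φ (u + (p.1 + p.2))) := by
      intro u; ring
    simp only [e]
    rw [lintegral_const_mul _ (hΦ _)]
    calc (∫⁻ r, xqA δ p r ∂(mu.prod mu)) * (C * C * C) *
          ∫⁻ u, ENNReal.ofReal (φ (u + (p.1 + p.2))) ∂mu
        ≤ (∫⁻ r, xqA δ p r ∂(mu.prod mu)) * (C * C * C) * C := mul_le_mul' le_rfl (xq_tail h _)
      _ = _ := by ring
  refine (lintegral_mono s4).trans ?_
  rw [lintegral_mul_const _ m5, xq_blockA hδ, mul_comm]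

end limXV4

theorem lim_xV4 {c : ℝ} (hc : 0 < c) {ε : ℝ} (hε : 0 < ε) : ∃ δ₀ : ℝ, 0 < δ₀ ∧
    ∀ δ : ℝ, 0 < δ → δ < δ₀ → ∀ φ : ℝ → ℝ, Thin φ δ c →
    I8 (fun s₀ s₁ s₂ r₀ r₁ r₂ => (1 - s₀ - r₀) * φ s₁ * φ s₂ * φ r₁ * φ r₂) ≤
      c ^ 4 / 2560 + ε := by
  refine ⟨192 * ε / c ^ 4, by positivity, ?_⟩
  intro δ hδ hδ1 φ h
  have := xq_sf
  have := xq_sf3
  have hφc : Continuous φ := h.smooth.continuous
  have hpt : ∀ᵐ y ∂mu8, 0 ≤ (1 - (y.1.1 + y.1.2) - (y.2.1.1 + y.2.2.1)) *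
      φ (y.2.1.1 + y.2.1.2.1 + y.2.1.2.2) * φ (y.2.2.1 + y.2.2.2.1 + y.2.2.2.2) *
      φ (y.1.1 + y.2.1.2.1 + y.2.2.2.1) * φ (y.1.2 + y.2.1.2.2 + y.2.2.2.2) ∧
      ENNReal.ofReal ((1 - (y.1.1 + y.1.2) - (y.2.1.1 + y.2.2.1)) *
      φ (y.2.1.1 + y.2.1.2.1 + y.2.1.2.2) * φ (y.2.2.1 + y.2.2.2.1 + y.2.2.2.2) *
      φ (y.1.1 + y.2.1.2.1 + y.2.2.2.1) * φ (y.1.2 + y.2.1.2.2 + y.2.2.2.2)) ≤ xqG φ δ y := by
    filter_upwards [xq_pos8] with y hy
    obtain ⟨⟨h01, h02⟩, ⟨h10, h11, h12⟩, h20, h21, h22⟩ := hy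
    by_cases hz : φ (y.2.1.1 + y.2.1.2.1 + y.2.1.2.2) * φ (y.2.2.1 + y.2.2.2.1 + y.2.2.2.2) *
      φ (y.1.1 + y.2.1.2.1 + y.2.2.2.1) * φ (y.1.2 + y.2.1.2.2 + y.2.2.2.2) = 0
    · have e0 : (1 - (y.1.1 + y.1.2) - (y.2.1.1 + y.2.2.1)) *
        φ (y.2.1.1 + y.2.1.2.1 + y.2.1.2.2) * φ (y.2.2.1 + y.2.2.2.1 + y.2.2.2.2) *
        φ (y.1.1 + y.2.1.2.1 + y.2.2.2.1) * φ (y.1.2 + y.2.1.2.2 + y.2.2.2.2) = 0 := by
        calc _ = (1 - (y.1.1 + y.1.2) - (y.2.1.1 + y.2.2.1)) *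
            (φ (y.2.1.1 + y.2.1.2.1 + y.2.1.2.2) * φ (y.2.2.1 + y.2.2.2.1 + y.2.2.2.2) *
      φ (y.1.1 + y.2.1.2.1 + y.2.2.2.1) * φ (y.1.2 + y.2.1.2.2 + y.2.2.2.2)) := by ring
          _ = 0 := by rw [hz, mul_zero]
      rw [e0, ENNReal.ofReal_zero]
      exact ⟨le_rfl, bot_le⟩
    · have n4 := right_ne_zero_of_mul hz
      have n3 := right_ne_zero_of_mul (left_ne_zero_of_mul hz)
      have n2 := right_ne_zero_of_mul (left_ne_zero_of_mul (left_ne_zero_of_mul hz))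
      have n1 := left_ne_zero_of_mul (left_ne_zero_of_mul (left_ne_zero_of_mul hz))
      have key : ∀ s, φ s ≠ 0 → 1 / 4 - 2 * δ < s ∧ s < 1 / 4 - δ := by
        intro s hs
        constructor
        · by_contra hcon
          exact hs (h.supp s (Or.inl (not_lt.mp hcon)))
        · by_contra hcon
          exact hs (h.supp s (Or.inr (not_lt.mp hcon)))
      have k1 := key _ n1
      have k2 := key _ n2
      have k3 := key _ n3
      have k4 := key _ n4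
      have p1 := h.nonneg (y.2.1.1 + y.2.1.2.1 + y.2.1.2.2)
      have p2 := h.nonneg (y.2.2.1 + y.2.2.2.1 + y.2.2.2.2)
      have p3 := h.nonneg (y.1.1 + y.2.1.2.1 + y.2.2.2.1)
      have p4 := h.nonneg (y.1.2 + y.2.1.2.2 + y.2.2.2.2)
      have hw0 : 0 ≤ 1 - (y.1.1 + y.1.2) - (y.2.1.1 + y.2.2.1) := by
        linarith [k1.2, k2.2, k3.2, k4.2]
      have hw1 : 1 - (y.1.1 + y.1.2) - (y.2.1.1 + y.2.2.1) ≤
          2 * (y.2.1.2.1 + y.2.1.2.2 + y.2.2.2.1 + y.2.2.2.2) + 8 * δ := by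
        linarith [k1.1, k2.1, k3.1, k4.1]
      refine ⟨by positivity, ?_⟩
      unfold xqG xqA
      rw [if_pos (show xqP y.2.1.2 y.2.2.2 from ⟨by linarith [k1.2], by linarith [k2.2],
        by linarith [k3.2], by linarith [k4.2]⟩)]
      simp only [← add_assoc]
      rw [ENNReal.ofReal_mul (by positivity), ENNReal.ofReal_mul (by positivity),
        ENNReal.ofReal_mul (by positivity), ENNReal.ofReal_mul (by positivity)]
      simp only [← mul_assoc]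
      gcongr
  unfold I8
  have hcont : Continuous fun y : (ℝ × ℝ) × (ℝ × ℝ × ℝ) × (ℝ × ℝ × ℝ) =>
      (1 - (y.1.1 + y.1.2) - (y.2.1.1 + y.2.2.1)) *
      φ (y.2.1.1 + y.2.1.2.1 + y.2.1.2.2) * φ (y.2.2.1 + y.2.2.2.1 + y.2.2.2.2) *
      φ (y.1.1 + y.2.1.2.1 + y.2.2.2.1) * φ (y.1.2 + y.2.1.2.2 + y.2.2.2.2) := by
    fun_prop
  rw [integral_eq_lintegral_of_nonneg_ae (hpt.mono fun _ hy => hy.1)
    hcont.aestronglyMeasurable]
  have hle : ∫⁻ y, ENNReal.ofReal ((1 - (y.1.1 + y.1.2) - (y.2.1.1 + y.2.2.1)) *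
      φ (y.2.1.1 + y.2.1.2.1 + y.2.1.2.2) * φ (y.2.2.1 + y.2.2.2.1 + y.2.2.2.2) *
      φ (y.1.1 + y.2.1.2.1 + y.2.2.2.1) * φ (y.1.2 + y.2.1.2.2 + y.2.2.2.2)) ∂mu8 ≤
      ENNReal.ofReal (c ^ 4 / 2560 + ε) := by
    refine (lintegral_mono_ae (hpt.mono fun _ hy => hy.2)).trans ((xqG_int h hδ).trans ?_)
    rw [← ENNReal.ofReal_pow hc.le, ← ENNReal.ofReal_mul (by positivity)]
    refine ENNReal.ofReal_le_ofReal ?_
    rw [lt_div_iff₀ (by positivity)] at hδ1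
    linarith
  exact ENNReal.toReal_le_of_le_ofReal (by positivity) hle

end Pool.Agent.SixT
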