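import Mathlib

/-!
Iterated integrals over cells `a < x < b, l x < y < u x, L x y < z < U x y` of `ℝ × ℝ × ℝ`.
-/

open MeasureTheory Set Filter Topology

namespace Pool.Agent.SixPoly

/-- the cell `a < x < b, l x < y < u x, L x y < z < U x y` -/
def cell (a b : ℝ) (l u : ℝ → ℝ) (L U : ℝ → ℝ → ℝ) : Set (ℝ × ℝ × ℝ) :=
  {p | (a < p.1 ∧ p.1 < b) ∧ (l p.1 < p.2.1 ∧ p.2.1 < u p.1) ∧
    (L p.1 p.2.1 < p.2.2 ∧ p.2.2 < U p.1 p.2.1)}

theorem cell_isOpen {a b : ℝ} {l u : ℝ → ℝ} {L U : ℝ → ℝ → ℝ} (hl : Continuous l)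
    (hu : Continuous u) (hL : Continuous fun p : ℝ × ℝ => L p.1 p.2)
    (hU : Continuous fun p : ℝ × ℝ => U p.1 p.2) : IsOpen (cell a b l u L U) := by
  have h1 : Continuous fun p : ℝ × ℝ × ℝ => L p.1 p.2.1 :=
    hL.comp (by fun_prop : Continuous fun p : ℝ × ℝ × ℝ => (p.1, p.2.1))
  have h2 : Continuous fun p : ℝ × ℝ × ℝ => U p.1 p.2.1 :=
    hU.comp (by fun_prop : Continuous fun p : ℝ × ℝ × ℝ => (p.1, p.2.1))
  have h3 : cell a b l u L U = ({p | a < p.1} ∩ {p | p.1 < b}) ∩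
      (({p | l p.1 < p.2.1} ∩ {p | p.2.1 < u p.1}) ∩
      ({p | L p.1 p.2.1 < p.2.2} ∩ {p | p.2.2 < U p.1 p.2.1})) := rfl
  rw [h3]
  refine ((isOpen_lt ?_ ?_).inter (isOpen_lt ?_ ?_)).inter
    (((isOpen_lt ?_ ?_).inter (isOpen_lt ?_ ?_)).inter ((isOpen_lt h1 ?_).inter (isOpen_lt ?_ h2)))
  all_goals fun_prop

theorem cell_integral {a b : ℝ} {l u : ℝ → ℝ} {L U : ℝ → ℝ → ℝ} (hab : a ≤ b)
    (hlu : ∀ x ∈ Ioo a b, l x ≤ u x)
    (hLU : ∀ x ∈ Ioo a b, ∀ y ∈ Ioo (l x) (u x), L x y ≤ U x y)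
    (hm : MeasurableSet (cell a b l u L U)) {f : ℝ × ℝ × ℝ → ℝ}
    (hf : IntegrableOn f (cell a b l u L U)) :
    ∫ p in cell a b l u L U, f p =
      ∫ x in a..b, ∫ y in l x..u x, ∫ z in L x y..U x y, f (x, y, z) := by
  have hi : Integrable ((cell a b l u L U).indicator f) (volume : Measure (ℝ × ℝ × ℝ)) :=
    (integrable_indicator_iff hm).2 hf
  have hi' : Integrable ((cell a b l u L U).indicator f)
      ((volume : Measure ℝ).prod (volume : Measure (ℝ × ℝ))) := by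
    rwa [← Measure.volume_eq_prod]
  rw [← integral_indicator hm, Measure.volume_eq_prod, integral_prod _ hi',
    intervalIntegral.integral_of_le hab, integral_Ioc_eq_integral_Ioo,
    ← integral_indicator measurableSet_Ioo]
  refine integral_congr_ae ?_
  filter_upwards [hi'.prod_right_ae] with x hx
  have hx' : Integrable (fun q : ℝ × ℝ => (cell a b l u L U).indicator f (x, q))
      ((volume : Measure ℝ).prod (volume : Measure ℝ)) := by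
    rwa [← Measure.volume_eq_prod]
  rw [Measure.volume_eq_prod, integral_prod _ hx']
  by_cases hxI : x ∈ Ioo a b
  · rw [indicator_of_mem hxI, intervalIntegral.integral_of_le (hlu x hxI),
      integral_Ioc_eq_integral_Ioo, ← integral_indicator measurableSet_Ioo]
    congr 1
    ext y
    by_cases hyI : y ∈ Ioo (l x) (u x)
    · rw [indicator_of_mem hyI, intervalIntegral.integral_of_le (hLU x hxI y hyI),
        integral_Ioc_eq_integral_Ioo, ← integral_indicator measurableSet_Ioo]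
      congr 1
      ext z
      by_cases hz : z ∈ Ioo (L x y) (U x y)
      · rw [indicator_of_mem hz, indicator_of_mem]
        exact ⟨hxI, hyI, hz⟩
      · rw [indicator_of_notMem hz, indicator_of_notMem]
        exact fun h => hz h.2.2
    · rw [indicator_of_notMem hyI]
      have : ∀ z, (cell a b l u L U).indicator f (x, y, z) = 0 := fun z =>
        indicator_of_notMem (fun h => hyI h.2.1) _
      simp [this]
  · rw [indicator_of_notMem hxI]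
    have : ∀ y z, (cell a b l u L U).indicator f (x, y, z) = 0 := fun y z =>
      indicator_of_notMem (fun h => hxI h.1) _
    simp [this]

/-- integral of a polynomial -/
theorem ip (c0 c1 c2 c3 c4 c5 c6 c7 c8 L U : ℝ) :
    ∫ z in L..U, (c0 + c1 * z + c2 * z ^ 2 + c3 * z ^ 3 + c4 * z ^ 4 + c5 * z ^ 5 + c6 * z ^ 6 +
      c7 * z ^ 7 + c8 * z ^ 8) =
    c0 * (U - L) + c1 * ((U ^ 2 - L ^ 2) / 2) + c2 * ((U ^ 3 - L ^ 3) / 3) +
      c3 * ((U ^ 4 - L ^ 4) / 4) + c4 * ((U ^ 5 - L ^ 5) / 5) + c5 * ((U ^ 6 - L ^ 6) / 6) +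
      c6 * ((U ^ 7 - L ^ 7) / 7) + c7 * ((U ^ 8 - L ^ 8) / 8) + c8 * ((U ^ 9 - L ^ 9) / 9) := by
  have h : ∀ z ∈ uIcc L U, HasDerivAt (fun z : ℝ => c0 * z + c1 * (z ^ 2 / 2) + c2 * (z ^ 3 / 3) +
      c3 * (z ^ 4 / 4) + c4 * (z ^ 5 / 5) + c5 * (z ^ 6 / 6) + c6 * (z ^ 7 / 7) +
      c7 * (z ^ 8 / 8) + c8 * (z ^ 9 / 9)) (c0 + c1 * z + c2 * z ^ 2 + c3 * z ^ 3 + c4 * z ^ 4 +
      c5 * z ^ 5 + c6 * z ^ 6 + c7 * z ^ 7 + c8 * z ^ 8) z := by
    intro z _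
    have hp : ∀ n : ℕ, HasDerivAt (fun z : ℝ => z ^ (n + 1) / ((n : ℝ) + 1)) (z ^ n) z := by
      intro n
      have := (hasDerivAt_pow (n + 1) z).div_const ((n : ℝ) + 1)
      have e : ((n + 1 : ℕ) : ℝ) * z ^ (n + 1 - 1) / ((n : ℝ) + 1) = z ^ n := by
        have : (n : ℝ) + 1 ≠ 0 := by positivity
        rw [Nat.add_sub_cancel]
        push_cast
        field_simp
      rw [e] at this
      exact this
    have q1 := hp 1
    have q2 := hp 2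
    have q3 := hp 3
    have q4 := hp 4
    have q5 := hp 5
    have q6 := hp 6
    have q7 := hp 7
    have q8 := hp 8
    norm_num at q1 q2 q3 q4 q5 q6 q7 q8
    have hid := hasDerivAt_id' z
    have := ((((((((hid.const_mul c0).add (q1.const_mul c1)).add (q2.const_mul c2)).add
      (q3.const_mul c3)).add (q4.const_mul c4)).add (q5.const_mul c5)).add
      (q6.const_mul c6)).add (q7.const_mul c7)).add (q8.const_mul c8)
    rw [mul_one] at this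
    exact this
  rw [intervalIntegral.integral_eq_sub_of_hasDerivAt h
    (Continuous.intervalIntegrable (by fun_prop) _ _)]
  ring

/-- integral of a function which is a polynomial on the interval -/
theorem ip' {f : ℝ → ℝ} (c0 c1 c2 c3 c4 c5 c6 c7 c8 : ℝ) {L U V : ℝ}
    (hf : ∀ z, f z = c0 + c1 * z + c2 * z ^ 2 + c3 * z ^ 3 + c4 * z ^ 4 + c5 * z ^ 5 +
      c6 * z ^ 6 + c7 * z ^ 7 + c8 * z ^ 8)
    (hV : c0 * (U - L) + c1 * ((U ^ 2 - L ^ 2) / 2) + c2 * ((U ^ 3 - L ^ 3) / 3) +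
      c3 * ((U ^ 4 - L ^ 4) / 4) + c4 * ((U ^ 5 - L ^ 5) / 5) + c5 * ((U ^ 6 - L ^ 6) / 6) +
      c6 * ((U ^ 7 - L ^ 7) / 7) + c7 * ((U ^ 8 - L ^ 8) / 8) + c8 * ((U ^ 9 - L ^ 9) / 9) = V) :
    ∫ z in L..U, f z = V := by
  rw [← hV, ← ip]
  congr 1
  ext z
  exact hf z

theorem cell_int3 {F : ℝ → ℝ → ℝ → ℝ} {P1 : ℝ → ℝ → ℝ} {P2 : ℝ → ℝ} {a b V : ℝ} {l u : ℝ → ℝ}
    {L U : ℝ → ℝ → ℝ} (hF : Continuous fun p : ℝ × ℝ × ℝ => F p.1 p.2.1 p.2.2) (hab : a ≤ b)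
    (hlu : ∀ x ∈ Ioo a b, l x ≤ u x)
    (hLU : ∀ x ∈ Ioo a b, ∀ y ∈ Ioo (l x) (u x), L x y ≤ U x y)
    (hl : Continuous l) (hu : Continuous u) (hL : Continuous fun p : ℝ × ℝ => L p.1 p.2)
    (hU : Continuous fun p : ℝ × ℝ => U p.1 p.2)
    (hbox : ∀ p ∈ cell a b l u L U, (0 ≤ p.1 ∧ p.1 ≤ 1) ∧ (0 ≤ p.2.1 ∧ p.2.1 ≤ 1) ∧
      (0 ≤ p.2.2 ∧ p.2.2 ≤ 1))
    (h1 : ∀ x y, ∫ z in L x y..U x y, F x y z = P1 x y)
    (h2 : ∀ x, ∫ y in l x..u x, P1 x y = P2 x)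
    (h3 : ∫ x in a..b, P2 x = V) :
    ∫ p in cell a b l u L U, F p.1 p.2.1 p.2.2 = V := by
  have hi : IntegrableOn (fun p : ℝ × ℝ × ℝ => F p.1 p.2.1 p.2.2) (cell a b l u L U) := by
    have hc : IsCompact (Icc ((0, 0, 0) : ℝ × ℝ × ℝ) (1, 1, 1)) := isCompact_Icc
    refine (hF.continuousOn.integrableOn_compact hc).mono_set ?_
    intro p hp
    obtain ⟨⟨h1, h2⟩, ⟨h3, h4⟩, ⟨h5, h6⟩⟩ := hbox p hp
    exact ⟨⟨h1, h3, h5⟩, ⟨h2, h4, h6⟩⟩
  rw [cell_integral hab hlu hLU (cell_isOpen hl hu hL hU).measurableSet hi, ← h3]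
  congr 1
  ext x
  rw [← h2]
  congr 1
  ext y
  rw [← h1]

end Pool.Agent.SixPoly
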