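import Mathlib
import Pool.Agent.Lib_MP_112ba8_t.PolyCell

/-!
Integrals of explicit polynomials over explicit cells (generated).
-/

set_option maxRecDepth 4000

open MeasureTheory Set

namespace Pool.Agent.SixPoly

/-- cell -/
def W1 : Set (ℝ × ℝ × ℝ) := cell 0 (1 / 4) (fun x => 0) (fun x => 1 * x)
    (fun x y => 0) (fun x y => 1 * y)

theorem W1_meas : MeasurableSet W1 :=
  (cell_isOpen (by fun_prop) (by fun_prop) (by fun_prop) (by fun_prop)).measurableSet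

theorem dd_W1 : ∫ p in W1, (((1 - p.2.2 - p.1) * (1 - p.2.2 - p.2.1) * (p.1 - p.2.1) / 2) ^ 2 : ℝ) = (28597 / 15854469120) := by
  refine cell_int3 (F := fun x y z : ℝ => ((1 - z - x) * (1 - z - y) * (x - y) / 2) ^ 2)
    (P1 := fun x y => (1 / 4) * y ^ 3 + (-1 / 2) * x * y ^ 2 + (1 / 4) * x ^ 2 * y + (-1) * y ^ 4 + (3 / 2) * x * y ^ 3 + (-1 / 2) * x ^ 3 * y + (3 / 2) * y ^ 5 + (-5 / 4) * x * y ^ 4 + (-7 / 4) * x ^ 2 * y ^ 3 + (5 / 4) * x ^ 3 * y ^ 2 + (1 / 4) * x ^ 4 * y + (-1) * y ^ 6 + (9 / 4) * x ^ 2 * y ^ 4 + (-1 / 2) * x ^ 3 * y ^ 3 + (-3 / 4) * x ^ 4 * y ^ 2 + (31 / 120) * y ^ 7 + (23 / 120) * x * y ^ 6 + (-23 / 40) * x ^ 2 * y ^ 5 + (-11 / 24) * x ^ 3 * y ^ 4 + (7 / 12) * x ^ 4 * y ^ 3)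
    (P2 := fun x => (1 / 48) * x ^ 4 + (-3 / 40) * x ^ 5 + (5 / 48) * x ^ 6 + (-19 / 280) * x ^ 7 + (121 / 6720) * x ^ 8) (by fun_prop) (by norm_num) ?_ ?_ (by fun_prop) (by fun_prop)
    (by fun_prop) (by fun_prop) ?_ ?_ ?_ ?_
  · intro x hx
    simp only [Set.mem_Ioo] at hx ⊢
    linarith
  · intro x hx y hy
    simp only [Set.mem_Ioo] at hx hy ⊢
    linarith
  · intro p hp
    simp only [cell, Set.mem_setOf_eq] at hp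
    refine ⟨⟨?_, ?_⟩, ⟨?_, ?_⟩, ⟨?_, ?_⟩⟩ <;> linarith
  · intro x y
    exact ip' ((1 / 4) * y ^ 2 + (-1 / 2) * x * y + (1 / 4) * x ^ 2 + (-1 / 2) * y ^ 3 + (1 / 2) * x * y ^ 2 + (1 / 2) * x ^ 2 * y + (-1 / 2) * x ^ 3 + (1 / 4) * y ^ 4 + (1 / 2) * x * y ^ 3 + (-3 / 2) * x ^ 2 * y ^ 2 + (1 / 2) * x ^ 3 * y + (1 / 4) * x ^ 4 + (-1 / 2) * x * y ^ 4 + (1 / 2) * x ^ 2 * y ^ 3 + (1 / 2) * x ^ 3 * y ^ 2 + (-1 / 2) * x ^ 4 * y + (1 / 4) * x ^ 2 * y ^ 4 + (-1 / 2) * x ^ 3 * y ^ 3 + (1 / 4) * x ^ 4 * y ^ 2) ((-1) * y ^ 2 + 2 * x * y + (-1) * x ^ 2 + (3 / 2) * y ^ 3 + (-3 / 2) * x * y ^ 2 + (-3 / 2) * x ^ 2 * y + (3 / 2) * x ^ 3 + (-1 / 2) * y ^ 4 + (-1) * x * y ^ 3 + 3 * x ^ 2 * y ^ 2 + (-1) * x ^ 3 * y + (-1 / 2) * x ^ 4 + (1 / 2) * x * y ^ 4 + (-1 / 2) * x ^ 2 * y ^ 3 + (-1 / 2) * x ^ 3 * y ^ 2 + (1 / 2) * x ^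 4 * y) ((3 / 2) * y ^ 2 + (-3) * x * y + (3 / 2) * x ^ 2 + (-3 / 2) * y ^ 3 + (3 / 2) * x * y ^ 2 + (3 / 2) * x ^ 2 * y + (-3 / 2) * x ^ 3 + (1 / 4) * y ^ 4 + (1 / 2) * x * y ^ 3 + (-3 / 2) * x ^ 2 * y ^ 2 + (1 / 2) * x ^ 3 * y + (1 / 4) * x ^ 4) ((-1) * y ^ 2 + 2 * x * y + (-1) * x ^ 2 + (1 / 2) * y ^ 3 + (-1 / 2) * x * y ^ 2 + (-1 / 2) * x ^ 2 * y + (1 / 2) * x ^ 3) ((1 / 4) * y ^ 2 + (-1 / 2) * x * y + (1 / 4) * x ^ 2) (0) (0) (0) (0) (by intro z; ring) (by ring)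
  · intro x
    exact ip' (0) ((1 / 4) * x ^ 2 + (-1 / 2) * x ^ 3 + (1 / 4) * x ^ 4) ((-1 / 2) * x + (5 / 4) * x ^ 3 + (-3 / 4) * x ^ 4) ((1 / 4) + (3 / 2) * x + (-7 / 4) * x ^ 2 + (-1 / 2) * x ^ 3 + (7 / 12) * x ^ 4) ((-1) + (-5 / 4) * x + (9 / 4) * x ^ 2 + (-11 / 24) * x ^ 3) ((3 / 2) + (-23 / 40) * x ^ 2) ((-1) + (23 / 120) * x) ((31 / 120)) (0) (by intro y; ring) (by ring)
  · exact ip' (0) (0) (0) (0) ((1 / 48)) ((-3 / 40)) ((5 / 48)) ((-19 / 280)) ((121 / 6720)) (by intro x; ring) (by norm_num)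

theorem dq_W1 : ∫ p in W1, (((1 - p.2.2 - p.1) * (1 - p.2.2 - p.2.1) * (p.1 - p.2.1) / 2) * (p.1 - p.2.1) : ℝ) = (443 / 82575360) := by
  refine cell_int3 (F := fun x y z : ℝ => ((1 - z - x) * (1 - z - y) * (x - y) / 2) * (x - y))
    (P1 := fun x y => (1 / 2) * y ^ 3 + (-1) * x * y ^ 2 + (1 / 2) * x ^ 2 * y + (-1) * y ^ 4 + (3 / 2) * x * y ^ 3 + (-1 / 2) * x ^ 3 * y + (5 / 12) * y ^ 5 + (-1 / 12) * x * y ^ 4 + (-13 / 12) * x ^ 2 * y ^ 3 + (3 / 4) * x ^ 3 * y ^ 2)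
    (P2 := fun x => (1 / 24) * x ^ 4 + (-3 / 40) * x ^ 5 + (23 / 720) * x ^ 6) (by fun_prop) (by norm_num) ?_ ?_ (by fun_prop) (by fun_prop)
    (by fun_prop) (by fun_prop) ?_ ?_ ?_ ?_
  · intro x hx
    simp only [Set.mem_Ioo] at hx ⊢
    linarith
  · intro x hx y hy
    simp only [Set.mem_Ioo] at hx hy ⊢
    linarith
  · intro p hp
    simp only [cell, Set.mem_setOf_eq] at hp
    refine ⟨⟨?_, ?_⟩, ⟨?_, ?_⟩, ⟨?_, ?_⟩⟩ <;> linarith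
  · intro x y
    exact ip' ((1 / 2) * y ^ 2 + (-1) * x * y + (1 / 2) * x ^ 2 + (-1 / 2) * y ^ 3 + (1 / 2) * x * y ^ 2 + (1 / 2) * x ^ 2 * y + (-1 / 2) * x ^ 3 + (1 / 2) * x * y ^ 3 + (-1) * x ^ 2 * y ^ 2 + (1 / 2) * x ^ 3 * y) ((-1) * y ^ 2 + 2 * x * y + (-1) * x ^ 2 + (1 / 2) * y ^ 3 + (-1 / 2) * x * y ^ 2 + (-1 / 2) * x ^ 2 * y + (1 / 2) * x ^ 3) ((1 / 2) * y ^ 2 + (-1) * x * y + (1 / 2) * x ^ 2) (0) (0) (0) (0) (0) (0) (by intro z; ring) (by ring)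
  · intro x
    exact ip' (0) ((1 / 2) * x ^ 2 + (-1 / 2) * x ^ 3) ((-1) * x + (3 / 4) * x ^ 3) ((1 / 2) + (3 / 2) * x + (-13 / 12) * x ^ 2) ((-1) + (-1 / 12) * x) ((5 / 12)) (0) (0) (0) (by intro y; ring) (by ring)
  · exact ip' (0) (0) (0) (0) ((1 / 24)) ((-3 / 40)) ((23 / 720)) (0) (0) (by intro x; ring) (by norm_num)

theorem qq_W1 : ∫ p in W1, ((p.1 - p.2.1) ^ 2 : ℝ) = (1 / 61440) := by
  refine cell_int3 (F := fun x y z : ℝ => (x - y) ^ 2)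
    (P1 := fun x y => 1 * y ^ 3 + (-2) * x * y ^ 2 + 1 * x ^ 2 * y)
    (P2 := fun x => (1 / 12) * x ^ 4) (by fun_prop) (by norm_num) ?_ ?_ (by fun_prop) (by fun_prop)
    (by fun_prop) (by fun_prop) ?_ ?_ ?_ ?_
  · intro x hx
    simp only [Set.mem_Ioo] at hx ⊢
    linarith
  · intro x hx y hy
    simp only [Set.mem_Ioo] at hx hy ⊢
    linarith
  · intro p hp
    simp only [cell, Set.mem_setOf_eq] at hp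
    refine ⟨⟨?_, ?_⟩, ⟨?_, ?_⟩, ⟨?_, ?_⟩⟩ <;> linarith
  · intro x y
    exact ip' (1 * y ^ 2 + (-2) * x * y + 1 * x ^ 2) (0) (0) (0) (0) (0) (0) (0) (0) (by intro z; ring) (by ring)
  · intro x
    exact ip' (0) (1 * x ^ 2) ((-2) * x) (1) (0) (0) (0) (0) (0) (by intro y; ring) (by ring)
  · exact ip' (0) (0) (0) (0) ((1 / 12)) (0) (0) (0) (0) (by intro x; ring) (by norm_num)

/-- cell -/
def W2 : Set (ℝ × ℝ × ℝ) := cell 0 (1 / 4) (fun x => 0) (fun x => 1 * x)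
    (fun x y => 1 * y) (fun x y => 1 * x)

theorem W2_meas : MeasurableSet W2 :=
  (cell_isOpen (by fun_prop) (by fun_prop) (by fun_prop) (by fun_prop)).measurableSet

theorem dd_W2 : ∫ p in W2, (((1 - p.2.2 - p.1) * (1 - p.2.2 - p.2.1) * (p.1 - p.2.1) / 2) ^ 2 : ℝ) = (63193 / 15854469120) := by
  refine cell_int3 (F := fun x y z : ℝ => ((1 - z - x) * (1 - z - y) * (x - y) / 2) ^ 2)
    (P1 := fun x y => (-1 / 4) * y ^ 3 + (3 / 4) * x * y ^ 2 + (-3 / 4) * x ^ 2 * y + (1 / 4) * x ^ 3 + 1 * y ^ 4 + (-2) * x * y ^ 3 + 2 * x ^ 3 * y + (-1) * x ^ 4 + (-3 / 2) * y ^ 5 + (3 / 2) * x * y ^ 4 + 3 * x ^ 2 * y ^ 3 + (-3) * x ^ 3 * y ^ 2 + (-3 / 2) * x ^ 4 * y + (3 / 2) * x ^ 5 + 1 * y ^ 6 + (-3) * x ^ 2 * y ^ 4 + 3 * x ^ 4 * y ^ 2 + (-1) * x ^ 6 + (-31 / 120) * y ^ 7 + (-23 / 120) * x * y ^ 6 + (23 / 40) * x ^ 2 *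 y ^ 5 + (25 / 24) * x ^ 3 * y ^ 4 + (-25 / 24) * x ^ 4 * y ^ 3 + (-23 / 40) * x ^ 5 * y ^ 2 + (23 / 120) * x ^ 6 * y + (31 / 120) * x ^ 7)
    (P2 := fun x => (1 / 16) * x ^ 4 + (-3 / 10) * x ^ 5 + (11 / 20) * x ^ 6 + (-16 / 35) * x ^ 7 + (197 / 1344) * x ^ 8) (by fun_prop) (by norm_num) ?_ ?_ (by fun_prop) (by fun_prop)
    (by fun_prop) (by fun_prop) ?_ ?_ ?_ ?_
  · intro x hx
    simp only [Set.mem_Ioo] at hx ⊢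
    linarith
  · intro x hx y hy
    simp only [Set.mem_Ioo] at hx hy ⊢
    linarith
  · intro p hp
    simp only [cell, Set.mem_setOf_eq] at hp
    refine ⟨⟨?_, ?_⟩, ⟨?_, ?_⟩, ⟨?_, ?_⟩⟩ <;> linarith
  · intro x y
    exact ip' ((1 / 4) * y ^ 2 + (-1 / 2) * x * y + (1 / 4) * x ^ 2 + (-1 / 2) * y ^ 3 + (1 / 2) * x * y ^ 2 + (1 / 2) * x ^ 2 * y + (-1 / 2) * x ^ 3 + (1 / 4) * y ^ 4 + (1 / 2) * x * y ^ 3 + (-3 / 2) * x ^ 2 * y ^ 2 + (1 / 2) * x ^ 3 * y + (1 / 4) * x ^ 4 + (-1 / 2) * x * y ^ 4 + (1 / 2) * x ^ 2 * y ^ 3 + (1 / 2) * x ^ 3 * y ^ 2 + (-1 / 2) * x ^ 4 * y + (1 / 4) * x ^ 2 * y ^ 4 + (-1 / 2) * x ^ 3 * y ^ 3 + (1 / 4) * x ^ 4 * y ^ 2) ((-1) * y ^ 2 + 2 * x * y + (-1) * x ^ 2 + (3 / 2) * y ^ 3 + (-3 / 2) * x * y ^ 2 + (-3 / 2) * x ^ 2 * y + (3 / 2) * x ^ 3 + (-1 / 2) * y ^ 4 + (-1) * x * y ^ 3 + 3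 * x ^ 2 * y ^ 2 + (-1) * x ^ 3 * y + (-1 / 2) * x ^ 4 + (1 / 2) * x * y ^ 4 + (-1 / 2) * x ^ 2 * y ^ 3 + (-1 / 2) * x ^ 3 * y ^ 2 + (1 / 2) * x ^ 4 * y) ((3 / 2) * y ^ 2 + (-3) * x * y + (3 / 2) * x ^ 2 + (-3 / 2) * y ^ 3 + (3 / 2) * x * y ^ 2 + (3 / 2) * x ^ 2 * y + (-3 / 2) * x ^ 3 + (1 / 4) * y ^ 4 + (1 / 2) * x * y ^ 3 + (-3 / 2) * x ^ 2 * y ^ 2 + (1 / 2) * x ^ 3 * y + (1 / 4) * x ^ 4) ((-1) * y ^ 2 + 2 * x * y + (-1) * x ^ 2 + (1 / 2) * y ^ 3 + (-1 / 2) * x * y ^ 2 + (-1 / 2) * x ^ 2 * y + (1 / 2) * x ^ 3) ((1 / 4) * y ^ 2 + (-1 / 2) * x * y + (1 / 4) * x ^ 2) (0) (0) (0) (0) (by intro z; ring) (by ring)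
  · intro x
    exact ip' ((1 / 4) * x ^ 3 + (-1) * x ^ 4 + (3 / 2) * x ^ 5 + (-1) * x ^ 6 + (31 / 120) * x ^ 7) ((-3 / 4) * x ^ 2 + 2 * x ^ 3 + (-3 / 2) * x ^ 4 + (23 / 120) * x ^ 6) ((3 / 4) * x + (-3) * x ^ 3 + 3 * x ^ 4 + (-23 / 40) * x ^ 5) ((-1 / 4) + (-2) * x + 3 * x ^ 2 + (-25 / 24) * x ^ 4) (1 + (3 / 2) * x + (-3) * x ^ 2 + (25 / 24) * x ^ 3) ((-3 / 2) + (23 / 40) * x ^ 2) (1 + (-23 / 120) * x) ((-31 / 120)) (0) (by intro y; ring) (by ring)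
  · exact ip' (0) (0) (0) (0) ((1 / 16)) ((-3 / 10)) ((11 / 20)) ((-16 / 35)) ((197 / 1344)) (by intro x; ring) (by norm_num)

theorem dq_W2 : ∫ p in W2, (((1 - p.2.2 - p.1) * (1 - p.2.2 - p.2.1) * (p.1 - p.2.1) / 2) * (p.1 - p.2.2) : ℝ) = (607 / 82575360) := by
  refine cell_int3 (F := fun x y z : ℝ => ((1 - z - x) * (1 - z - y) * (x - y) / 2) * (x - z))
    (P1 := fun x y => (-1 / 4) * y ^ 3 + (3 / 4) * x * y ^ 2 + (-3 / 4) * x ^ 2 * y + (1 / 4) * x ^ 3 + (7 / 12) * y ^ 4 + (-4 / 3) * x * y ^ 3 + (1 / 2) * x ^ 2 * y ^ 2 + (2 / 3) * x ^ 3 * y + (-5 / 12) * x ^ 4 + (-7 / 24) * y ^ 5 + (7 / 24) * x * y ^ 4 + (3 / 4) * x ^ 2 * y ^ 3 + (-13 / 12) * x ^ 3 * y ^ 2 + (5 / 24) * x ^ 4 * y + (1 / 8) * x ^ 5)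
    (P2 := fun x => (1 / 16) * x ^ 4 + (-2 / 15) * x ^ 5 + (47 / 720) * x ^ 6) (by fun_prop) (by norm_num) ?_ ?_ (by fun_prop) (by fun_prop)
    (by fun_prop) (by fun_prop) ?_ ?_ ?_ ?_
  · intro x hx
    simp only [Set.mem_Ioo] at hx ⊢
    linarith
  · intro x hx y hy
    simp only [Set.mem_Ioo] at hx hy ⊢
    linarith
  · intro p hp
    simp only [cell, Set.mem_setOf_eq] at hp
    refine ⟨⟨?_, ?_⟩, ⟨?_, ?_⟩, ⟨?_, ?_⟩⟩ <;> linarith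
  · intro x y
    exact ip' ((-1 / 2) * x * y + (1 / 2) * x ^ 2 + (1 / 2) * x * y ^ 2 + (-1 / 2) * x ^ 3 + (-1 / 2) * x ^ 2 * y ^ 2 + (1 / 2) * x ^ 3 * y) ((1 / 2) * y + (-1 / 2) * x + (-1 / 2) * y ^ 2 + 1 * x * y + (-1 / 2) * x ^ 2 + (-1 / 2) * x ^ 2 * y + (1 / 2) * x ^ 3) ((-1) * y + 1 * x + (1 / 2) * y ^ 2 + (-1 / 2) * x * y) ((1 / 2) * y + (-1 / 2) * x) (0) (0) (0) (0) (0) (by intro z; ring) (by ring)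
  · intro x
    exact ip' ((1 / 4) * x ^ 3 + (-5 / 12) * x ^ 4 + (1 / 8) * x ^ 5) ((-3 / 4) * x ^ 2 + (2 / 3) * x ^ 3 + (5 / 24) * x ^ 4) ((3 / 4) * x + (1 / 2) * x ^ 2 + (-13 / 12) * x ^ 3) ((-1 / 4) + (-4 / 3) * x + (3 / 4) * x ^ 2) ((7 / 12) + (7 / 24) * x) ((-7 / 24)) (0) (0) (0) (by intro y; ring) (by ring)
  · exact ip' (0) (0) (0) (0) ((1 / 16)) ((-2 / 15)) ((47 / 720)) (0) (0) (by intro x; ring) (by norm_num)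

theorem qq_W2 : ∫ p in W2, ((p.1 - p.2.2) ^ 2 : ℝ) = (1 / 61440) := by
  refine cell_int3 (F := fun x y z : ℝ => (x - z) ^ 2)
    (P1 := fun x y => (-1 / 3) * y ^ 3 + 1 * x * y ^ 2 + (-1) * x ^ 2 * y + (1 / 3) * x ^ 3)
    (P2 := fun x => (1 / 12) * x ^ 4) (by fun_prop) (by norm_num) ?_ ?_ (by fun_prop) (by fun_prop)
    (by fun_prop) (by fun_prop) ?_ ?_ ?_ ?_
  · intro x hx
    simp only [Set.mem_Ioo] at hx ⊢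
    linarith
  · intro x hx y hy
    simp only [Set.mem_Ioo] at hx hy ⊢
    linarith
  · intro p hp
    simp only [cell, Set.mem_setOf_eq] at hp
    refine ⟨⟨?_, ?_⟩, ⟨?_, ?_⟩, ⟨?_, ?_⟩⟩ <;> linarith
  · intro x y
    exact ip' (1 * x ^ 2) ((-2) * x) (1) (0) (0) (0) (0) (0) (0) (by intro z; ring) (by ring)
  · intro x
    exact ip' ((1 / 3) * x ^ 3) ((-1) * x ^ 2) (1 * x) ((-1 / 3)) (0) (0) (0) (0) (0) (by intro y; ring) (by ring)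
  · exact ip' (0) (0) (0) (0) ((1 / 12)) (0) (0) (0) (0) (by intro x; ring) (by norm_num)

/-- cell -/
def W3 : Set (ℝ × ℝ × ℝ) := cell 0 (1 / 4) (fun x => 0) (fun x => 1 * x)
    (fun x y => 1 * x) (fun x y => 1 + (-1) * y + (-1) * x)

theorem W3_meas : MeasurableSet W3 :=
  (cell_isOpen (by fun_prop) (by fun_prop) (by fun_prop) (by fun_prop)).measurableSet

theorem dd_W3 : ∫ p in W3, (((1 - p.2.2 - p.1) * (1 - p.2.2 - p.2.1) * (p.1 - p.2.1) / 2) ^ 2 : ℝ) = (38809 / 15854469120) := by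
  refine cell_int3 (F := fun x y z : ℝ => ((1 - z - x) * (1 - z - y) * (x - y) / 2) ^ 2)
    (P1 := fun x y => (1 / 20) * y ^ 2 + (-1 / 10) * x * y + (1 / 20) * x ^ 2 + (-1 / 8) * y ^ 3 + (-1 / 8) * x * y ^ 2 + (5 / 8) * x ^ 2 * y + (-3 / 8) * x ^ 3 + (1 / 12) * y ^ 4 + (2 / 3) * x * y ^ 3 + (-1 / 2) * x ^ 2 * y ^ 2 + (-4 / 3) * x ^ 3 * y + (13 / 12) * x ^ 4 + (-1 / 2) * x * y ^ 4 + (-1) * x ^ 2 * y ^ 3 + 2 * x ^ 3 * y ^ 2 + 1 * x ^ 4 * y + (-3 / 2) * x ^ 5 + 1 * x ^ 2 * y ^ 4 + (-2) * x ^ 4 * y ^ 2 + 1 * x ^ 6 + (-1 / 120) * y ^ 7 + (7 / 120) * x * y ^ 6 + (-7 / 40) * x ^ 2 * y ^ 5 + (-11 / 24) * x ^ 3 * y ^ 4 + (7 / 12) * x ^ 4 * y ^ 3 + (2 / 5) * x ^ 5 * y ^ 2 + (-2 / 15) * x ^ 6 * y + (-4 / 15) * x ^ 7)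
    (P2 := fun x => (1 / 60) * x ^ 3 + (-13 / 96) * x ^ 4 + (13 / 30) * x ^ 5 + (-41 / 60) * x ^ 6 + (8 / 15) * x ^ 7 + (-161 / 960) * x ^ 8) (by fun_prop) (by norm_num) ?_ ?_ (by fun_prop) (by fun_prop)
    (by fun_prop) (by fun_prop) ?_ ?_ ?_ ?_
  · intro x hx
    simp only [Set.mem_Ioo] at hx ⊢
    linarith
  · intro x hx y hy
    simp only [Set.mem_Ioo] at hx hy ⊢
    linarith
  · intro p hp
    simp only [cell, Set.mem_setOf_eq] at hp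
    refine ⟨⟨?_, ?_⟩, ⟨?_, ?_⟩, ⟨?_, ?_⟩⟩ <;> linarith
  · intro x y
    exact ip' ((1 / 4) * y ^ 2 + (-1 / 2) * x * y + (1 / 4) * x ^ 2 + (-1 / 2) * y ^ 3 + (1 / 2) * x * y ^ 2 + (1 / 2) * x ^ 2 * y + (-1 / 2) * x ^ 3 + (1 / 4) * y ^ 4 + (1 / 2) * x * y ^ 3 + (-3 / 2) * x ^ 2 * y ^ 2 + (1 / 2) * x ^ 3 * y + (1 / 4) * x ^ 4 + (-1 / 2) * x * y ^ 4 + (1 / 2) * x ^ 2 * y ^ 3 + (1 / 2) * x ^ 3 * y ^ 2 + (-1 / 2) * x ^ 4 * y + (1 / 4) * x ^ 2 * y ^ 4 + (-1 / 2) * x ^ 3 * y ^ 3 + (1 / 4) * x ^ 4 * y ^ 2) ((-1) * y ^ 2 + 2 * x * y + (-1) * x ^ 2 + (3 / 2) * y ^ 3 + (-3 / 2) * x * y ^ 2 + (-3 / 2) * x ^ 2 * y + (3 / 2) * x ^ 3 + (-1 / 2) * y ^ 4 + (-1) * x * y ^ 3 + 3 * x ^ 2 * y ^ 2 + (-1) * x ^ 3 * y + (-1 / 2) * x ^ 4 + (1 / 2) * x * y ^ 4 + (-1 / 2) * x ^ 2 * y ^ 3 + (-1 / 2) * x ^ 3 * y ^ 2 + (1 / 2) * x ^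 4 * y) ((3 / 2) * y ^ 2 + (-3) * x * y + (3 / 2) * x ^ 2 + (-3 / 2) * y ^ 3 + (3 / 2) * x * y ^ 2 + (3 / 2) * x ^ 2 * y + (-3 / 2) * x ^ 3 + (1 / 4) * y ^ 4 + (1 / 2) * x * y ^ 3 + (-3 / 2) * x ^ 2 * y ^ 2 + (1 / 2) * x ^ 3 * y + (1 / 4) * x ^ 4) ((-1) * y ^ 2 + 2 * x * y + (-1) * x ^ 2 + (1 / 2) * y ^ 3 + (-1 / 2) * x * y ^ 2 + (-1 / 2) * x ^ 2 * y + (1 / 2) * x ^ 3) ((1 / 4) * y ^ 2 + (-1 / 2) * x * y + (1 / 4) * x ^ 2) (0) (0) (0) (0) (by intro z; ring) (by ring)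
  · intro x
    exact ip' ((1 / 20) * x ^ 2 + (-3 / 8) * x ^ 3 + (13 / 12) * x ^ 4 + (-3 / 2) * x ^ 5 + 1 * x ^ 6 + (-4 / 15) * x ^ 7) ((-1 / 10) * x + (5 / 8) * x ^ 2 + (-4 / 3) * x ^ 3 + 1 * x ^ 4 + (-2 / 15) * x ^ 6) ((1 / 20) + (-1 / 8) * x + (-1 / 2) * x ^ 2 + 2 * x ^ 3 + (-2) * x ^ 4 + (2 / 5) * x ^ 5) ((-1 / 8) + (2 / 3) * x + (-1) * x ^ 2 + (7 / 12) * x ^ 4) ((1 / 12) + (-1 / 2) * x + 1 * x ^ 2 + (-11 / 24) * x ^ 3) ((-7 / 40) * x ^ 2) ((7 / 120) * x) ((-1 / 120)) (0) (by intro y; ring) (by ring)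
  · exact ip' (0) (0) (0) ((1 / 60)) ((-13 / 96)) ((13 / 30)) ((-41 / 60)) ((8 / 15)) ((-161 / 960)) (by intro x; ring) (by norm_num)

/-- cell -/
def W4 : Set (ℝ × ℝ × ℝ) := cell (1 / 4) (1 / 2) (fun x => 0) (fun x => (1 / 2) + (-1) * x)
    (fun x y => 0) (fun x y => 1 * y)

theorem W4_meas : MeasurableSet W4 :=
  (cell_isOpen (by fun_prop) (by fun_prop) (by fun_prop) (by fun_prop)).measurableSet

theorem dd_W4 : ∫ p in W4, (((1 - p.2.2 - p.1) * (1 - p.2.2 - p.2.1) * (p.1 - p.2.1) / 2) ^ 2 : ℝ) = (129739 / 15854469120) := by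
  refine cell_int3 (F := fun x y z : ℝ => ((1 - z - x) * (1 - z - y) * (x - y) / 2) ^ 2)
    (P1 := fun x y => (1 / 4) * y ^ 3 + (-1 / 2) * x * y ^ 2 + (1 / 4) * x ^ 2 * y + (-1) * y ^ 4 + (3 / 2) * x * y ^ 3 + (-1 / 2) * x ^ 3 * y + (3 / 2) * y ^ 5 + (-5 / 4) * x * y ^ 4 + (-7 / 4) * x ^ 2 * y ^ 3 + (5 / 4) * x ^ 3 * y ^ 2 + (1 / 4) * x ^ 4 * y + (-1) * y ^ 6 + (9 / 4) * x ^ 2 * y ^ 4 + (-1 / 2) * x ^ 3 * y ^ 3 + (-3 / 4) * x ^ 4 * y ^ 2 + (31 / 120) * y ^ 7 + (23 / 120) * x * y ^ 6 + (-23 / 40) * x ^ 2 * y ^ 5 + (-11 / 24) * x ^ 3 * y ^ 4 + (7 / 12) * x ^ 4 * y ^ 3)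
    (P2 := fun x => (197 / 344064) + (-377 / 53760) * x + (53 / 1920) * x ^ 2 + (-5 / 192) * x ^ 3 + (-35 / 1536) * x ^ 4 + (-5 / 48) * x ^ 5 + (53 / 120) * x ^ 6 + (-377 / 840) * x ^ 7 + (197 / 1344) * x ^ 8) (by fun_prop) (by norm_num) ?_ ?_ (by fun_prop) (by fun_prop)
    (by fun_prop) (by fun_prop) ?_ ?_ ?_ ?_
  · intro x hx
    simp only [Set.mem_Ioo] at hx ⊢
    linarith
  · intro x hx y hy
    simp only [Set.mem_Ioo] at hx hy ⊢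
    linarith
  · intro p hp
    simp only [cell, Set.mem_setOf_eq] at hp
    refine ⟨⟨?_, ?_⟩, ⟨?_, ?_⟩, ⟨?_, ?_⟩⟩ <;> linarith
  · intro x y
    exact ip' ((1 / 4) * y ^ 2 + (-1 / 2) * x * y + (1 / 4) * x ^ 2 + (-1 / 2) * y ^ 3 + (1 / 2) * x * y ^ 2 + (1 / 2) * x ^ 2 * y + (-1 / 2) * x ^ 3 + (1 / 4) * y ^ 4 + (1 / 2) * x * y ^ 3 + (-3 / 2) * x ^ 2 * y ^ 2 + (1 / 2) * x ^ 3 * y + (1 / 4) * x ^ 4 + (-1 / 2) * x * y ^ 4 + (1 / 2) * x ^ 2 * y ^ 3 + (1 / 2) * x ^ 3 * y ^ 2 + (-1 / 2) * x ^ 4 * y + (1 / 4) * x ^ 2 * y ^ 4 + (-1 / 2) * x ^ 3 * y ^ 3 + (1 / 4) * x ^ 4 * y ^ 2) ((-1) * y ^ 2 + 2 * x * y + (-1) * x ^ 2 + (3 / 2) * y ^ 3 + (-3 / 2) * x * y ^ 2 + (-3 / 2) * x ^ 2 * y + (3 / 2) * x ^ 3 + (-1 / 2) * y ^ 4 + (-1) * x * y ^ 3 + 3 * x ^ 2 * y ^ 2 + (-1) * x ^ 3 * y + (-1 / 2) * x ^ 4 + (1 / 2) * x * y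 ^ 4 + (-1 / 2) * x ^ 2 * y ^ 3 + (-1 / 2) * x ^ 3 * y ^ 2 + (1 / 2) * x ^ 4 * y) ((3 / 2) * y ^ 2 + (-3) * x * y + (3 / 2) * x ^ 2 + (-3 / 2) * y ^ 3 + (3 / 2) * x * y ^ 2 + (3 / 2) * x ^ 2 * y + (-3 / 2) * x ^ 3 + (1 / 4) * y ^ 4 + (1 / 2) * x * y ^ 3 + (-3 / 2) * x ^ 2 * y ^ 2 + (1 / 2) * x ^ 3 * y + (1 / 4) * x ^ 4) ((-1) * y ^ 2 + 2 * x * y + (-1) * x ^ 2 + (1 / 2) * y ^ 3 + (-1 / 2) * x * y ^ 2 + (-1 / 2) * x ^ 2 * y + (1 / 2) * x ^ 3) ((1 / 4) * y ^ 2 + (-1 / 2) * x * y + (1 / 4) * x ^ 2) (0) (0) (0) (0) (by intro z; ring) (by ring)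
  · intro x
    exact ip' (0) ((1 / 4) * x ^ 2 + (-1 / 2) * x ^ 3 + (1 / 4) * x ^ 4) ((-1 / 2) * x + (5 / 4) * x ^ 3 + (-3 / 4) * x ^ 4) ((1 / 4) + (3 / 2) * x + (-7 / 4) * x ^ 2 + (-1 / 2) * x ^ 3 + (7 / 12) * x ^ 4) ((-1) + (-5 / 4) * x + (9 / 4) * x ^ 2 + (-11 / 24) * x ^ 3) ((3 / 2) + (-23 / 40) * x ^ 2) ((-1) + (23 / 120) * x) ((31 / 120)) (0) (by intro y; ring) (by ring)
  · exact ip' ((197 / 344064)) ((-377 / 53760)) ((53 / 1920)) ((-5 / 192)) ((-35 / 1536)) ((-5 / 48)) ((53 / 120)) ((-377 / 840)) ((197 / 1344)) (by intro x; ring) (by norm_num)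

theorem dq_W4 : ∫ p in W4, (((1 - p.2.2 - p.1) * (1 - p.2.2 - p.2.1) * (p.1 - p.2.1) / 2) * (1 / 4 - p.2.1) : ℝ) = (233 / 11796480) := by
  refine cell_int3 (F := fun x y z : ℝ => ((1 - z - x) * (1 - z - y) * (x - y) / 2) * (1 / 4 - y))
    (P1 := fun x y => (-1 / 8) * y ^ 2 + (1 / 8) * x * y + (3 / 4) * y ^ 3 + (-5 / 8) * x * y ^ 2 + (-1 / 8) * x ^ 2 * y + (-53 / 48) * y ^ 4 + (5 / 12) * x * y ^ 3 + (11 / 16) * x ^ 2 * y ^ 2 + (5 / 12) * y ^ 5 + (1 / 3) * x * y ^ 4 + (-3 / 4) * x ^ 2 * y ^ 3)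
    (P2 := fun x => (1 / 1440) + (-1 / 120) * x + (23 / 768) * x ^ 2 + (11 / 576) * x ^ 3 + (-13 / 48) * x ^ 4 + (103 / 240) * x ^ 5 + (-133 / 720) * x ^ 6) (by fun_prop) (by norm_num) ?_ ?_ (by fun_prop) (by fun_prop)
    (by fun_prop) (by fun_prop) ?_ ?_ ?_ ?_
  · intro x hx
    simp only [Set.mem_Ioo] at hx ⊢
    linarith
  · intro x hx y hy
    simp only [Set.mem_Ioo] at hx hy ⊢
    linarith
  · intro p hp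
    simp only [cell, Set.mem_setOf_eq] at hp
    refine ⟨⟨?_, ?_⟩, ⟨?_, ?_⟩, ⟨?_, ?_⟩⟩ <;> linarith
  · intro x y
    exact ip' ((-1 / 8) * y + (1 / 8) * x + (5 / 8) * y ^ 2 + (-1 / 2) * x * y + (-1 / 8) * x ^ 2 + (-1 / 2) * y ^ 3 + (-1 / 8) * x * y ^ 2 + (5 / 8) * x ^ 2 * y + (1 / 2) * x * y ^ 3 + (-1 / 2) * x ^ 2 * y ^ 2) ((1 / 4) * y + (-1 / 4) * x + (-9 / 8) * y ^ 2 + 1 * x * y + (1 / 8) * x ^ 2 + (1 / 2) * y ^ 3 + (-1 / 2) * x ^ 2 * y) ((-1 / 8) * y + (1 / 8) * x + (1 / 2) * y ^ 2 + (-1 / 2) * x * y) (0) (0) (0) (0) (0) (0) (by intro z; ring) (by ring)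
  · intro x
    exact ip' (0) ((1 / 8) * x + (-1 / 8) * x ^ 2) ((-1 / 8) + (-5 / 8) * x + (11 / 16) * x ^ 2) ((3 / 4) + (5 / 12) * x + (-3 / 4) * x ^ 2) ((-53 / 48) + (1 / 3) * x) ((5 / 12)) (0) (0) (0) (by intro y; ring) (by ring)
  · exact ip' ((1 / 1440)) ((-1 / 120)) ((23 / 768)) ((11 / 576)) ((-13 / 48)) ((103 / 240)) ((-133 / 720)) (0) (0) (by intro x; ring) (by norm_num)

theorem qq_W4 : ∫ p in W4, ((1 / 4 - p.2.1) ^ 2 : ℝ) = (1 / 20480) := by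
  refine cell_int3 (F := fun x y z : ℝ => (1 / 4 - y) ^ 2)
    (P1 := fun x y => (1 / 16) * y + (-1 / 2) * y ^ 2 + 1 * y ^ 3)
    (P2 := fun x => (1 / 384) + (-1 / 32) * x + (5 / 32) * x ^ 2 + (-1 / 3) * x ^ 3 + (1 / 4) * x ^ 4) (by fun_prop) (by norm_num) ?_ ?_ (by fun_prop) (by fun_prop)
    (by fun_prop) (by fun_prop) ?_ ?_ ?_ ?_
  · intro x hx
    simp only [Set.mem_Ioo] at hx ⊢
    linarith
  · intro x hx y hy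
    simp only [Set.mem_Ioo] at hx hy ⊢
    linarith
  · intro p hp
    simp only [cell, Set.mem_setOf_eq] at hp
    refine ⟨⟨?_, ?_⟩, ⟨?_, ?_⟩, ⟨?_, ?_⟩⟩ <;> linarith
  · intro x y
    exact ip' ((1 / 16) + (-1 / 2) * y + 1 * y ^ 2) (0) (0) (0) (0) (0) (0) (0) (0) (by intro z; ring) (by ring)
  · intro x
    exact ip' (0) ((1 / 16)) ((-1 / 2)) (1) (0) (0) (0) (0) (0) (by intro y; ring) (by ring)
  · exact ip' ((1 / 384)) ((-1 / 32)) ((5 / 32)) ((-1 / 3)) ((1 / 4)) (0) (0) (0) (0) (by intro x; ring) (by norm_num)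

/-- cell -/
def W5 : Set (ℝ × ℝ × ℝ) := cell (1 / 4) (1 / 2) (fun x => 0) (fun x => (1 / 2) + (-1) * x)
    (fun x y => 1 * y) (fun x y => (1 / 4))

theorem W5_meas : MeasurableSet W5 :=
  (cell_isOpen (by fun_prop) (by fun_prop) (by fun_prop) (by fun_prop)).measurableSet

theorem dd_W5 : ∫ p in W5, (((1 - p.2.2 - p.1) * (1 - p.2.2 - p.2.1) * (p.1 - p.2.1) / 2) ^ 2 : ℝ) = (14683 / 792723456) := by
  refine cell_int3 (F := fun x y z : ℝ => ((1 - z - x) * (1 - z - y) * (x - y) / 2) ^ 2)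
    (P1 := fun x y => (781 / 20480) * y ^ 2 + (-781 / 10240) * x * y + (781 / 20480) * x ^ 2 + (-687 / 2048) * y ^ 3 + (1199 / 2048) * x * y ^ 2 + (-337 / 2048) * x ^ 2 * y + (-175 / 2048) * x ^ 3 + (805 / 768) * y ^ 4 + (-539 / 384) * x * y ^ 3 + (-37 / 128) * x ^ 2 * y ^ 2 + (229 / 384) * x ^ 3 * y + (37 / 768) * x ^ 4 + (-3 / 2) * y ^ 5 + (73 / 64) * x * y ^ 4 + (119 / 64) * x ^ 2 * y ^ 3 + (-73 / 64) * x ^ 3 * y ^ 2 + (-23 / 64) * x ^ 4 * y + 1 * y ^ 6 + (-35 / 16) * x ^ 2 * y ^ 4 + (3 / 8) * x ^ 3 * y ^ 3 + (13 / 16) * x ^ 4 * y ^ 2 + (-31 / 120) * y ^ 7 + (-23 / 120) * x * y ^ 6 + (23 / 40) * x ^ 2 * y ^ 5 + (11 / 24) * x ^ 3 * y ^ 4 + (-7 / 12) * x ^ 4 * y ^ 3)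
    (P2 := fun x => (-81 / 4587520) + (-1 / 430080) * x + (29 / 10240) * x ^ 2 + (-547 / 61440) * x ^ 3 + (-25 / 8192) * x ^ 4 + (931 / 7680) * x ^ 5 + (-459 / 1280) * x ^ 6 + (1291 / 3360) * x ^ 7 + (-197 / 1344) * x ^ 8) (by fun_prop) (by norm_num) ?_ ?_ (by fun_prop) (by fun_prop)
    (by fun_prop) (by fun_prop) ?_ ?_ ?_ ?_
  · intro x hx
    simp only [Set.mem_Ioo] at hx ⊢
    linarith
  · intro x hx y hy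
    simp only [Set.mem_Ioo] at hx hy ⊢
    linarith
  · intro p hp
    simp only [cell, Set.mem_setOf_eq] at hp
    refine ⟨⟨?_, ?_⟩, ⟨?_, ?_⟩, ⟨?_, ?_⟩⟩ <;> linarith
  · intro x y
    exact ip' ((1 / 4) * y ^ 2 + (-1 / 2) * x * y + (1 / 4) * x ^ 2 + (-1 / 2) * y ^ 3 + (1 / 2) * x * y ^ 2 + (1 / 2) * x ^ 2 * y + (-1 / 2) * x ^ 3 + (1 / 4) * y ^ 4 + (1 / 2) * x * y ^ 3 + (-3 / 2) * x ^ 2 * y ^ 2 + (1 / 2) * x ^ 3 * y + (1 / 4) * x ^ 4 + (-1 / 2) * x * y ^ 4 + (1 / 2) * x ^ 2 * y ^ 3 + (1 / 2) * x ^ 3 * y ^ 2 + (-1 / 2) * x ^ 4 * y + (1 / 4) * x ^ 2 * y ^ 4 + (-1 / 2) * x ^ 3 * y ^ 3 + (1 / 4) * x ^ 4 * y ^ 2) ((-1) * y ^ 2 + 2 * x * y + (-1) * x ^ 2 + (3 / 2) * y ^ 3 + (-3 / 2) * x * y ^ 2 + (-3 / 2) * x ^ 2 * y + (3 / 2) * x ^ 3 + (-1 / 2) * y ^ 4 + (-1) * x * y ^ 3 + 3 * x ^ 2 * y ^ 2 + (-1) * x ^ 3 *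 y + (-1 / 2) * x ^ 4 + (1 / 2) * x * y ^ 4 + (-1 / 2) * x ^ 2 * y ^ 3 + (-1 / 2) * x ^ 3 * y ^ 2 + (1 / 2) * x ^ 4 * y) ((3 / 2) * y ^ 2 + (-3) * x * y + (3 / 2) * x ^ 2 + (-3 / 2) * y ^ 3 + (3 / 2) * x * y ^ 2 + (3 / 2) * x ^ 2 * y + (-3 / 2) * x ^ 3 + (1 / 4) * y ^ 4 + (1 / 2) * x * y ^ 3 + (-3 / 2) * x ^ 2 * y ^ 2 + (1 / 2) * x ^ 3 * y + (1 / 4) * x ^ 4) ((-1) * y ^ 2 + 2 * x * y + (-1) * x ^ 2 + (1 / 2) * y ^ 3 + (-1 / 2) * x * y ^ 2 + (-1 / 2) * x ^ 2 * y + (1 / 2) * x ^ 3) ((1 / 4) * y ^ 2 + (-1 / 2) * x * y + (1 / 4) * x ^ 2) (0) (0) (0) (0) (by intro z; ring) (by ring)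
  · intro x
    exact ip' ((781 / 20480) * x ^ 2 + (-175 / 2048) * x ^ 3 + (37 / 768) * x ^ 4) ((-781 / 10240) * x + (-337 / 2048) * x ^ 2 + (229 / 384) * x ^ 3 + (-23 / 64) * x ^ 4) ((781 / 20480) + (1199 / 2048) * x + (-37 / 128) * x ^ 2 + (-73 / 64) * x ^ 3 + (13 / 16) * x ^ 4) ((-687 / 2048) + (-539 / 384) * x + (119 / 64) * x ^ 2 + (3 / 8) * x ^ 3 + (-7 / 12) * x ^ 4) ((805 / 768) + (73 / 64) * x + (-35 / 16) * x ^ 2 + (11 / 24) * x ^ 3) ((-3 / 2) + (23 / 40) * x ^ 2) (1 + (-23 / 120) * x) ((-31 / 120)) (0) (by intro y; ring) (by ring)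
  · exact ip' ((-81 / 4587520)) ((-1 / 430080)) ((29 / 10240)) ((-547 / 61440)) ((-25 / 8192)) ((931 / 7680)) ((-459 / 1280)) ((1291 / 3360)) ((-197 / 1344)) (by intro x; ring) (by norm_num)

theorem dq_W5 : ∫ p in W5, (((1 - p.2.2 - p.1) * (1 - p.2.2 - p.2.1) * (p.1 - p.2.1) / 2) * (1 / 4 - p.2.2) : ℝ) = (899 / 27525120) := by
  refine cell_int3 (F := fun x y z : ℝ => ((1 - z - x) * (1 - z - y) * (x - y) / 2) * (1 / 4 - z))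
    (P1 := fun x y => (-27 / 2048) * y + (27 / 2048) * x + (107 / 768) * y ^ 2 + (-1 / 8) * x * y + (-11 / 768) * x ^ 2 + (-1 / 2) * y ^ 3 + (23 / 64) * x * y ^ 2 + (9 / 64) * x ^ 2 * y + (11 / 16) * y ^ 4 + (-1 / 4) * x * y ^ 3 + (-7 / 16) * x ^ 2 * y ^ 2 + (-7 / 24) * y ^ 5 + (-1 / 8) * x * y ^ 4 + (5 / 12) * x ^ 2 * y ^ 3)
    (P2 := fun x => (-29 / 245760) + (17 / 10240) * x + (-11 / 12288) * x ^ 2 + (-29 / 1152) * x ^ 3 + (43 / 384) * x ^ 4 + (-43 / 240) * x ^ 5 + (29 / 360) * x ^ 6) (by fun_prop) (by norm_num) ?_ ?_ (by fun_prop) (by fun_prop)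
    (by fun_prop) (by fun_prop) ?_ ?_ ?_ ?_
  · intro x hx
    simp only [Set.mem_Ioo] at hx ⊢
    linarith
  · intro x hx y hy
    simp only [Set.mem_Ioo] at hx hy ⊢
    linarith
  · intro p hp
    simp only [cell, Set.mem_setOf_eq] at hp
    refine ⟨⟨?_, ?_⟩, ⟨?_, ?_⟩, ⟨?_, ?_⟩⟩ <;> linarith
  · intro x y
    exact ip' ((-1 / 8) * y + (1 / 8) * x + (1 / 8) * y ^ 2 + (-1 / 8) * x ^ 2 + (-1 / 8) * x * y ^ 2 + (1 / 8) * x ^ 2 * y) ((3 / 4) * y + (-3 / 4) * x + (-5 / 8) * y ^ 2 + (5 / 8) * x ^ 2 + (1 / 2) * x * y ^ 2 + (-1 / 2) * x ^ 2 * y) ((-9 / 8) * y + (9 / 8) * x + (1 / 2) * y ^ 2 + (-1 / 2) * x ^ 2) ((1 / 2) * y + (-1 / 2) * x) (0) (0) (0) (0) (0) (by intro z; ring) (by ring)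
  · intro x
    exact ip' ((27 / 2048) * x + (-11 / 768) * x ^ 2) ((-27 / 2048) + (-1 / 8) * x + (9 / 64) * x ^ 2) ((107 / 768) + (23 / 64) * x + (-7 / 16) * x ^ 2) ((-1 / 2) + (-1 / 4) * x + (5 / 12) * x ^ 2) ((11 / 16) + (-1 / 8) * x) ((-7 / 24)) (0) (0) (0) (by intro y; ring) (by ring)
  · exact ip' ((-29 / 245760)) ((17 / 10240)) ((-11 / 12288)) ((-29 / 1152)) ((43 / 384)) ((-43 / 240)) ((29 / 360)) (0) (0) (by intro x; ring) (by norm_num)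

theorem qq_W5 : ∫ p in W5, ((1 / 4 - p.2.2) ^ 2 : ℝ) = (1 / 15360) := by
  refine cell_int3 (F := fun x y z : ℝ => (1 / 4 - z) ^ 2)
    (P1 := fun x y => (1 / 192) + (-1 / 16) * y + (1 / 4) * y ^ 2 + (-1 / 3) * y ^ 3)
    (P2 := fun x => (1 / 192) * x + (-1 / 32) * x ^ 2 + (1 / 12) * x ^ 3 + (-1 / 12) * x ^ 4) (by fun_prop) (by norm_num) ?_ ?_ (by fun_prop) (by fun_prop)
    (by fun_prop) (by fun_prop) ?_ ?_ ?_ ?_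
  · intro x hx
    simp only [Set.mem_Ioo] at hx ⊢
    linarith
  · intro x hx y hy
    simp only [Set.mem_Ioo] at hx hy ⊢
    linarith
  · intro p hp
    simp only [cell, Set.mem_setOf_eq] at hp
    refine ⟨⟨?_, ?_⟩, ⟨?_, ?_⟩, ⟨?_, ?_⟩⟩ <;> linarith
  · intro x y
    exact ip' ((1 / 16)) ((-1 / 2)) (1) (0) (0) (0) (0) (0) (0) (by intro z; ring) (by ring)
  · intro x
    exact ip' ((1 / 192)) ((-1 / 16)) ((1 / 4)) ((-1 / 3)) (0) (0) (0) (0) (0) (by intro y; ring) (by ring)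
  · exact ip' (0) ((1 / 192)) ((-1 / 32)) ((1 / 12)) ((-1 / 12)) (0) (0) (0) (0) (by intro x; ring) (by norm_num)

/-- cell -/
def W6 : Set (ℝ × ℝ × ℝ) := cell (1 / 4) (1 / 2) (fun x => 0) (fun x => (1 / 2) + (-1) * x)
    (fun x y => (1 / 4)) (fun x y => 1 + (-1) * y + (-1) * x)

theorem W6_meas : MeasurableSet W6 :=
  (cell_isOpen (by fun_prop) (by fun_prop) (by fun_prop) (by fun_prop)).measurableSet

theorem dd_W6 : ∫ p in W6, (((1 - p.2.2 - p.1) * (1 - p.2.2 - p.2.1) * (p.1 - p.2.1) / 2) ^ 2 : ℝ) = (31481 / 7927234560) := by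
  refine cell_int3 (F := fun x y z : ℝ => ((1 - z - x) * (1 - z - y) * (x - y) / 2) ^ 2)
    (P1 := fun x y => (243 / 20480) * y ^ 2 + (-243 / 10240) * x * y + (243 / 20480) * x ^ 2 + (-81 / 2048) * y ^ 3 + (81 / 2048) * x * y ^ 2 + (81 / 2048) * x ^ 2 * y + (-81 / 2048) * x ^ 3 + (9 / 256) * y ^ 4 + (9 / 128) * x * y ^ 3 + (-27 / 128) * x ^ 2 * y ^ 2 + (9 / 128) * x ^ 3 * y + (9 / 256) * x ^ 4 + (-9 / 64) * x * y ^ 4 + (9 / 64) * x ^ 2 * y ^ 3 + (9 / 64) * x ^ 3 * y ^ 2 + (-9 / 64) * x ^ 4 * y + (3 / 16) * x ^ 2 * y ^ 4 + (-3 / 8) * x ^ 3 * y ^ 3 + (3 / 16) * x ^ 4 * y ^ 2 + (-1 / 120) * y ^ 7 + (7 / 120) * x * y ^ 6 + (-7 / 40) * x ^ 2 * y ^ 5 + (1 / 8) * x ^ 3 * y ^ 4 + (1 / 8) * x ^ 4 * y ^ 3 + (-7 / 40) * x ^ 5 * y ^ 2 + (7 / 120) * x ^ 6 * y + (-1 / 120) * x ^ 7)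
    (P2 := fun x => (181 / 1966080) + (-73 / 61440) * x + (169 / 30720) * x ^ 2 + (-509 / 61440) * x ^ 3 + (283 / 24576) * x ^ 4 + (-193 / 2560) * x ^ 5 + (251 / 1280) * x ^ 6 + (-31 / 160) * x ^ 7 + (61 / 960) * x ^ 8) (by fun_prop) (by norm_num) ?_ ?_ (by fun_prop) (by fun_prop)
    (by fun_prop) (by fun_prop) ?_ ?_ ?_ ?_
  · intro x hx
    simp only [Set.mem_Ioo] at hx ⊢
    linarith
  · intro x hx y hy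
    simp only [Set.mem_Ioo] at hx hy ⊢
    linarith
  · intro p hp
    simp only [cell, Set.mem_setOf_eq] at hp
    refine ⟨⟨?_, ?_⟩, ⟨?_, ?_⟩, ⟨?_, ?_⟩⟩ <;> linarith
  · intro x y
    exact ip' ((1 / 4) * y ^ 2 + (-1 / 2) * x * y + (1 / 4) * x ^ 2 + (-1 / 2) * y ^ 3 + (1 / 2) * x * y ^ 2 + (1 / 2) * x ^ 2 * y + (-1 / 2) * x ^ 3 + (1 / 4) * y ^ 4 + (1 / 2) * x * y ^ 3 + (-3 / 2) * x ^ 2 * y ^ 2 + (1 / 2) * x ^ 3 * y + (1 / 4) * x ^ 4 + (-1 / 2) * x * y ^ 4 + (1 / 2) * x ^ 2 * y ^ 3 + (1 / 2) * x ^ 3 * y ^ 2 + (-1 / 2) * x ^ 4 * y + (1 / 4) * x ^ 2 * y ^ 4 + (-1 / 2) * x ^ 3 * y ^ 3 + (1 / 4) * x ^ 4 * y ^ 2) ((-1) * y ^ 2 + 2 * x * y + (-1) * x ^ 2 + (3 / 2) * y ^ 3 + (-3 / 2) * x * y ^ 2 + (-3 / 2) * x ^ 2 * y + (3 / 2) * x ^ 3 + (-1 / 2) * y ^ 4 + (-1) * x * y ^ 3 + 3 * x ^ 2 * y ^ 2 + (-1) * x ^ 3 *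 y + (-1 / 2) * x ^ 4 + (1 / 2) * x * y ^ 4 + (-1 / 2) * x ^ 2 * y ^ 3 + (-1 / 2) * x ^ 3 * y ^ 2 + (1 / 2) * x ^ 4 * y) ((3 / 2) * y ^ 2 + (-3) * x * y + (3 / 2) * x ^ 2 + (-3 / 2) * y ^ 3 + (3 / 2) * x * y ^ 2 + (3 / 2) * x ^ 2 * y + (-3 / 2) * x ^ 3 + (1 / 4) * y ^ 4 + (1 / 2) * x * y ^ 3 + (-3 / 2) * x ^ 2 * y ^ 2 + (1 / 2) * x ^ 3 * y + (1 / 4) * x ^ 4) ((-1) * y ^ 2 + 2 * x * y + (-1) * x ^ 2 + (1 / 2) * y ^ 3 + (-1 / 2) * x * y ^ 2 + (-1 / 2) * x ^ 2 * y + (1 / 2) * x ^ 3) ((1 / 4) * y ^ 2 + (-1 / 2) * x * y + (1 / 4) * x ^ 2) (0) (0) (0) (0) (by intro z; ring) (by ring)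
  · intro x
    exact ip' ((243 / 20480) * x ^ 2 + (-81 / 2048) * x ^ 3 + (9 / 256) * x ^ 4 + (-1 / 120) * x ^ 7) ((-243 / 10240) * x + (81 / 2048) * x ^ 2 + (9 / 128) * x ^ 3 + (-9 / 64) * x ^ 4 + (7 / 120) * x ^ 6) ((243 / 20480) + (81 / 2048) * x + (-27 / 128) * x ^ 2 + (9 / 64) * x ^ 3 + (3 / 16) * x ^ 4 + (-7 / 40) * x ^ 5) ((-81 / 2048) + (9 / 128) * x + (9 / 64) * x ^ 2 + (-3 / 8) * x ^ 3 + (1 / 8) * x ^ 4) ((9 / 256) + (-9 / 64) * x + (3 / 16) * x ^ 2 + (1 / 8) * x ^ 3) ((-7 / 40) * x ^ 2) ((7 / 120) * x) ((-1 / 120)) (0) (by intro y; ring) (by ring)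
  · exact ip' ((181 / 1966080)) ((-73 / 61440)) ((169 / 30720)) ((-509 / 61440)) ((283 / 24576)) ((-193 / 2560)) ((251 / 1280)) ((-31 / 160)) ((61 / 960)) (by intro x; ring) (by norm_num)

/-- cell -/
def K1 : Set (ℝ × ℝ × ℝ) := cell 0 (1 / 8) (fun x => 0) (fun x => 1 * x)
    (fun x y => 0) (fun x y => (3 / 4))

theorem K1_meas : MeasurableSet K1 :=
  (cell_isOpen (by fun_prop) (by fun_prop) (by fun_prop) (by fun_prop)).measurableSet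

theorem mm_K1 : ∫ p in K1, (((p.1 - p.2.1) * (1 - p.2.2 - 1 / 4)) ^ 2 : ℝ) = (3 / 1048576) := by
  refine cell_int3 (F := fun x y z : ℝ => ((x - y) * (1 - z - 1 / 4)) ^ 2)
    (P1 := fun x y => (9 / 64) * y ^ 2 + (-9 / 32) * x * y + (9 / 64) * x ^ 2)
    (P2 := fun x => (3 / 64) * x ^ 3) (by fun_prop) (by norm_num) ?_ ?_ (by fun_prop) (by fun_prop)
    (by fun_prop) (by fun_prop) ?_ ?_ ?_ ?_
  · intro x hx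
    simp only [Set.mem_Ioo] at hx ⊢
    linarith
  · intro x hx y hy
    simp only [Set.mem_Ioo] at hx hy ⊢
    linarith
  · intro p hp
    simp only [cell, Set.mem_setOf_eq] at hp
    refine ⟨⟨?_, ?_⟩, ⟨?_, ?_⟩, ⟨?_, ?_⟩⟩ <;> linarith
  · intro x y
    exact ip' ((9 / 16) * y ^ 2 + (-9 / 8) * x * y + (9 / 16) * x ^ 2) ((-3 / 2) * y ^ 2 + 3 * x * y + (-3 / 2) * x ^ 2) (1 * y ^ 2 + (-2) * x * y + 1 * x ^ 2) (0) (0) (0) (0) (0) (0) (by intro z; ring) (by ring)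
  · intro x
    exact ip' ((9 / 64) * x ^ 2) ((-9 / 32) * x) ((9 / 64)) (0) (0) (0) (0) (0) (0) (by intro y; ring) (by ring)
  · exact ip' (0) (0) (0) ((3 / 64)) (0) (0) (0) (0) (0) (by intro x; ring) (by norm_num)

/-- cell -/
def K2 : Set (ℝ × ℝ × ℝ) := cell (1 / 8) (1 / 4) (fun x => 0) (fun x => (1 / 4) + (-1) * x)
    (fun x y => 0) (fun x y => (3 / 4))

theorem K2_meas : MeasurableSet K2 :=
  (cell_isOpen (by fun_prop) (by fun_prop) (by fun_prop) (by fun_prop)).measurableSet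

theorem mm_K2 : ∫ p in K2, (((p.1 - p.2.1) * (1 - p.2.2 - 1 / 4)) ^ 2 : ℝ) = (21 / 1048576) := by
  refine cell_int3 (F := fun x y z : ℝ => ((x - y) * (1 - z - 1 / 4)) ^ 2)
    (P1 := fun x y => (9 / 64) * y ^ 2 + (-9 / 32) * x * y + (9 / 64) * x ^ 2)
    (P2 := fun x => (3 / 4096) + (-9 / 512) * x + (9 / 64) * x ^ 2 + (-21 / 64) * x ^ 3) (by fun_prop) (by norm_num) ?_ ?_ (by fun_prop) (by fun_prop)
    (by fun_prop) (by fun_prop) ?_ ?_ ?_ ?_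
  · intro x hx
    simp only [Set.mem_Ioo] at hx ⊢
    linarith
  · intro x hx y hy
    simp only [Set.mem_Ioo] at hx hy ⊢
    linarith
  · intro p hp
    simp only [cell, Set.mem_setOf_eq] at hp
    refine ⟨⟨?_, ?_⟩, ⟨?_, ?_⟩, ⟨?_, ?_⟩⟩ <;> linarith
  · intro x y
    exact ip' ((9 / 16) * y ^ 2 + (-9 / 8) * x * y + (9 / 16) * x ^ 2) ((-3 / 2) * y ^ 2 + 3 * x * y + (-3 / 2) * x ^ 2) (1 * y ^ 2 + (-2) * x * y + 1 * x ^ 2) (0) (0) (0) (0) (0) (0) (by intro z; ring) (by ring)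
  · intro x
    exact ip' ((9 / 64) * x ^ 2) ((-9 / 32) * x) ((9 / 64)) (0) (0) (0) (0) (0) (0) (by intro y; ring) (by ring)
  · exact ip' ((3 / 4096)) ((-9 / 512)) ((9 / 64)) ((-21 / 64)) (0) (0) (0) (0) (0) (by intro x; ring) (by norm_num)

/-- cell -/
def K3 : Set (ℝ × ℝ × ℝ) := cell (1 / 8) (1 / 4) (fun x => (1 / 4) + (-1) * x) (fun x => 1 * x)
    (fun x y => 0) (fun x y => 1 + (-1) * y + (-1) * x)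

theorem K3_meas : MeasurableSet K3 :=
  (cell_isOpen (by fun_prop) (by fun_prop) (by fun_prop) (by fun_prop)).measurableSet

theorem mm_K3 : ∫ p in K3, (((p.1 - p.2.1) * (1 - p.2.2 - 1 / 4)) ^ 2 : ℝ) = (59 / 2580480) := by
  refine cell_int3 (F := fun x y z : ℝ => ((x - y) * (1 - z - 1 / 4)) ^ 2)
    (P1 := fun x y => (7 / 48) * y ^ 2 + (-7 / 24) * x * y + (7 / 48) * x ^ 2 + (-1 / 16) * y ^ 3 + (1 / 16) * x * y ^ 2 + (1 / 16) * x ^ 2 * y + (-1 / 16) * x ^ 3 + (1 / 4) * y ^ 4 + (-1 / 2) * x ^ 2 * y ^ 2 + (1 / 4) * x ^ 4 + (-1 / 3) * y ^ 5 + (-1 / 3) * x * y ^ 4 + (2 / 3) * x ^ 2 * y ^ 3 + (2 / 3) * x ^ 3 * y ^ 2 + (-1 / 3) * x ^ 4 * y + (-1 / 3) * x ^ 5)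
    (P2 := fun x => (-541 / 737280) + (271 / 15360) * x + (-109 / 768) * x ^ 2 + (7 / 18) * x ^ 3 + (-1 / 12) * x ^ 4 + (4 / 15) * x ^ 5 + (-16 / 45) * x ^ 6) (by fun_prop) (by norm_num) ?_ ?_ (by fun_prop) (by fun_prop)
    (by fun_prop) (by fun_prop) ?_ ?_ ?_ ?_
  · intro x hx
    simp only [Set.mem_Ioo] at hx ⊢
    linarith
  · intro x hx y hy
    simp only [Set.mem_Ioo] at hx hy ⊢
    linarith
  · intro p hp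
    simp only [cell, Set.mem_setOf_eq] at hp
    refine ⟨⟨?_, ?_⟩, ⟨?_, ?_⟩, ⟨?_, ?_⟩⟩ <;> linarith
  · intro x y
    exact ip' ((9 / 16) * y ^ 2 + (-9 / 8) * x * y + (9 / 16) * x ^ 2) ((-3 / 2) * y ^ 2 + 3 * x * y + (-3 / 2) * x ^ 2) (1 * y ^ 2 + (-2) * x * y + 1 * x ^ 2) (0) (0) (0) (0) (0) (0) (by intro z; ring) (by ring)
  · intro x
    exact ip' ((7 / 48) * x ^ 2 + (-1 / 16) * x ^ 3 + (1 / 4) * x ^ 4 + (-1 / 3) * x ^ 5) ((-7 / 24) * x + (1 / 16) * x ^ 2 + (-1 / 3) * x ^ 4) ((7 / 48) + (1 / 16) * x + (-1 / 2) * x ^ 2 + (2 / 3) * x ^ 3) ((-1 / 16) + (2 / 3) * x ^ 2) ((1 / 4) + (-1 / 3) * x) ((-1 / 3)) (0) (0) (0) (by intro y; ring) (by ring)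
  · exact ip' ((-541 / 737280)) ((271 / 15360)) ((-109 / 768)) ((7 / 18)) ((-1 / 12)) ((4 / 15)) ((-16 / 45)) (0) (0) (by intro x; ring) (by norm_num)

/-- cell -/
def K4 : Set (ℝ × ℝ × ℝ) := cell (1 / 4) (1 / 2) (fun x => 0) (fun x => (1 / 2) + (-1) * x)
    (fun x y => 0) (fun x y => 1 + (-1) * y + (-1) * x)

theorem K4_meas : MeasurableSet K4 :=
  (cell_isOpen (by fun_prop) (by fun_prop) (by fun_prop) (by fun_prop)).measurableSet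

theorem mm_K4 : ∫ p in K4, (((1 - p.2.2 - p.1) * (1 / 4 - p.2.1)) ^ 2 : ℝ) = (631 / 6881280) := by
  refine cell_int3 (F := fun x y z : ℝ => ((1 - z - x) * (1 / 4 - y)) ^ 2)
    (P1 := fun x y => (1 / 48) + (-1 / 6) * y + (-1 / 16) * x + (1 / 3) * y ^ 2 + (1 / 2) * x * y + (1 / 16) * x ^ 2 + (-1 / 48) * y ^ 3 + (-1) * x * y ^ 2 + (-1 / 2) * x ^ 2 * y + (-1 / 48) * x ^ 3 + (1 / 6) * y ^ 4 + 1 * x ^ 2 * y ^ 2 + (1 / 6) * x ^ 3 * y + (-1 / 3) * y ^ 5 + (-1 / 3) * x ^ 3 * y ^ 2)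
    (P2 := fun x => (17 / 5120) + (-11 / 384) * x + (53 / 384) * x ^ 2 + (-13 / 36) * x ^ 3 + (91 / 192) * x ^ 4 + (-17 / 60) * x ^ 5 + (1 / 18) * x ^ 6) (by fun_prop) (by norm_num) ?_ ?_ (by fun_prop) (by fun_prop)
    (by fun_prop) (by fun_prop) ?_ ?_ ?_ ?_
  · intro x hx
    simp only [Set.mem_Ioo] at hx ⊢
    linarith
  · intro x hx y hy
    simp only [Set.mem_Ioo] at hx hy ⊢
    linarith
  · intro p hp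
    simp only [cell, Set.mem_setOf_eq] at hp
    refine ⟨⟨?_, ?_⟩, ⟨?_, ?_⟩, ⟨?_, ?_⟩⟩ <;> linarith
  · intro x y
    exact ip' ((1 / 16) + (-1 / 2) * y + (-1 / 8) * x + 1 * y ^ 2 + 1 * x * y + (1 / 16) * x ^ 2 + (-2) * x * y ^ 2 + (-1 / 2) * x ^ 2 * y + 1 * x ^ 2 * y ^ 2) ((-1 / 8) + 1 * y + (1 / 8) * x + (-2) * y ^ 2 + (-1) * x * y + 2 * x * y ^ 2) ((1 / 16) + (-1 / 2) * y + 1 * y ^ 2) (0) (0) (0) (0) (0) (0) (by intro z; ring) (by ring)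
  · intro x
    exact ip' ((1 / 48) + (-1 / 16) * x + (1 / 16) * x ^ 2 + (-1 / 48) * x ^ 3) ((-1 / 6) + (1 / 2) * x + (-1 / 2) * x ^ 2 + (1 / 6) * x ^ 3) ((1 / 3) + (-1) * x + 1 * x ^ 2 + (-1 / 3) * x ^ 3) ((-1 / 48)) ((1 / 6)) ((-1 / 3)) (0) (0) (0) (by intro y; ring) (by ring)
  · exact ip' ((17 / 5120)) ((-11 / 384)) ((53 / 384)) ((-13 / 36)) ((91 / 192)) ((-17 / 60)) ((1 / 18)) (0) (0) (by intro x; ring) (by norm_num)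

/-- cell -/
def K5 : Set (ℝ × ℝ × ℝ) := cell (1 / 4) (1 / 2) (fun x => (1 / 2) + (-1) * x) (fun x => (1 / 4))
    (fun x y => 0) (fun x y => (1 / 4))

theorem K5_meas : MeasurableSet K5 :=
  (cell_isOpen (by fun_prop) (by fun_prop) (by fun_prop) (by fun_prop)).measurableSet

theorem mm_K5 : ∫ p in K5, (((1 - p.2.2 - p.1) * (1 / 4 - p.2.1)) ^ 2 : ℝ) = (1 / 65536) := by
  refine cell_int3 (F := fun x y z : ℝ => ((1 - z - x) * (1 / 4 - y)) ^ 2)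
    (P1 := fun x y => (37 / 3072) + (-37 / 384) * y + (-7 / 256) * x + (37 / 192) * y ^ 2 + (7 / 32) * x * y + (1 / 64) * x ^ 2 + (-7 / 16) * x * y ^ 2 + (-1 / 8) * x ^ 2 * y + (1 / 4) * x ^ 2 * y ^ 2)
    (P2 := fun x => (-37 / 36864) + (11 / 768) * x + (-59 / 768) * x ^ 2 + (109 / 576) * x ^ 3 + (-5 / 24) * x ^ 4 + (1 / 12) * x ^ 5) (by fun_prop) (by norm_num) ?_ ?_ (by fun_prop) (by fun_prop)
    (by fun_prop) (by fun_prop) ?_ ?_ ?_ ?_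
  · intro x hx
    simp only [Set.mem_Ioo] at hx ⊢
    linarith
  · intro x hx y hy
    simp only [Set.mem_Ioo] at hx hy ⊢
    linarith
  · intro p hp
    simp only [cell, Set.mem_setOf_eq] at hp
    refine ⟨⟨?_, ?_⟩, ⟨?_, ?_⟩, ⟨?_, ?_⟩⟩ <;> linarith
  · intro x y
    exact ip' ((1 / 16) + (-1 / 2) * y + (-1 / 8) * x + 1 * y ^ 2 + 1 * x * y + (1 / 16) * x ^ 2 + (-2) * x * y ^ 2 + (-1 / 2) * x ^ 2 * y + 1 * x ^ 2 * y ^ 2) ((-1 / 8) + 1 * y + (1 / 8) * x + (-2) * y ^ 2 + (-1) * x * y + 2 * x * y ^ 2) ((1 / 16) + (-1 / 2) * y + 1 * y ^ 2) (0) (0) (0) (0) (0) (0) (by intro z; ring) (by ring)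
  · intro x
    exact ip' ((37 / 3072) + (-7 / 256) * x + (1 / 64) * x ^ 2) ((-37 / 384) + (7 / 32) * x + (-1 / 8) * x ^ 2) ((37 / 192) + (-7 / 16) * x + (1 / 4) * x ^ 2) (0) (0) (0) (0) (0) (0) (by intro y; ring) (by ring)
  · exact ip' ((-37 / 36864)) ((11 / 768)) ((-59 / 768)) ((109 / 576)) ((-5 / 24)) ((1 / 12)) (0) (0) (0) (by intro x; ring) (by norm_num)

/-- cell -/
def K6 : Set (ℝ × ℝ × ℝ) := cell (1 / 2) (3 / 4) (fun x => 0) (fun x => (3 / 4) + (-1) * x)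
    (fun x y => 0) (fun x y => (1 / 4))

theorem K6_meas : MeasurableSet K6 :=
  (cell_isOpen (by fun_prop) (by fun_prop) (by fun_prop) (by fun_prop)).measurableSet

theorem mm_K6 : ∫ p in K6, (((1 - p.2.2 - p.1) * (1 / 4 - p.2.1)) ^ 2 : ℝ) = (61 / 2949120) := by
  refine cell_int3 (F := fun x y z : ℝ => ((1 - z - x) * (1 / 4 - y)) ^ 2)
    (P1 := fun x y => (37 / 3072) + (-37 / 384) * y + (-7 / 256) * x + (37 / 192) * y ^ 2 + (7 / 32) * x * y + (1 / 64) * x ^ 2 + (-7 / 16) * x * y ^ 2 + (-1 / 8) * x ^ 2 * y + (1 / 4) * x ^ 2 * y ^ 2)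
    (P2 := fun x => (37 / 4096) + (-211 / 3072) * x + (167 / 768) * x ^ 2 + (-199 / 576) * x ^ 3 + (13 / 48) * x ^ 4 + (-1 / 12) * x ^ 5) (by fun_prop) (by norm_num) ?_ ?_ (by fun_prop) (by fun_prop)
    (by fun_prop) (by fun_prop) ?_ ?_ ?_ ?_
  · intro x hx
    simp only [Set.mem_Ioo] at hx ⊢
    linarith
  · intro x hx y hy
    simp only [Set.mem_Ioo] at hx hy ⊢
    linarith
  · intro p hp
    simp only [cell, Set.mem_setOf_eq] at hp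
    refine ⟨⟨?_, ?_⟩, ⟨?_, ?_⟩, ⟨?_, ?_⟩⟩ <;> linarith
  · intro x y
    exact ip' ((1 / 16) + (-1 / 2) * y + (-1 / 8) * x + 1 * y ^ 2 + 1 * x * y + (1 / 16) * x ^ 2 + (-2) * x * y ^ 2 + (-1 / 2) * x ^ 2 * y + 1 * x ^ 2 * y ^ 2) ((-1 / 8) + 1 * y + (1 / 8) * x + (-2) * y ^ 2 + (-1) * x * y + 2 * x * y ^ 2) ((1 / 16) + (-1 / 2) * y + 1 * y ^ 2) (0) (0) (0) (0) (0) (0) (by intro z; ring) (by ring)
  · intro x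
    exact ip' ((37 / 3072) + (-7 / 256) * x + (1 / 64) * x ^ 2) ((-37 / 384) + (7 / 32) * x + (-1 / 8) * x ^ 2) ((37 / 192) + (-7 / 16) * x + (1 / 4) * x ^ 2) (0) (0) (0) (0) (0) (0) (by intro y; ring) (by ring)
  · exact ip' ((37 / 4096)) ((-211 / 3072)) ((167 / 768)) ((-199 / 576)) ((13 / 48)) ((-1 / 12)) (0) (0) (0) (by intro x; ring) (by norm_num)

/-- cell -/
def K7 : Set (ℝ × ℝ × ℝ) := cell (1 / 2) (3 / 4) (fun x => (3 / 4) + (-1) * x) (fun x => (1 / 4))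
    (fun x y => 0) (fun x y => 1 + (-1) * y + (-1) * x)

theorem K7_meas : MeasurableSet K7 :=
  (cell_isOpen (by fun_prop) (by fun_prop) (by fun_prop) (by fun_prop)).measurableSet

theorem mm_K7 : ∫ p in K7, (((1 - p.2.2 - p.1) * (1 / 4 - p.2.1)) ^ 2 : ℝ) = (1 / 344064) := by
  refine cell_int3 (F := fun x y z : ℝ => ((1 - z - x) * (1 / 4 - y)) ^ 2)
    (P1 := fun x y => (1 / 48) + (-1 / 6) * y + (-1 / 16) * x + (1 / 3) * y ^ 2 + (1 / 2) * x * y + (1 / 16) * x ^ 2 + (-1 / 48) * y ^ 3 + (-1) * x * y ^ 2 + (-1 / 2) * x ^ 2 * y + (-1 / 48) * x ^ 3 + (1 / 6) * y ^ 4 + 1 * x ^ 2 * y ^ 2 + (1 / 6) * x ^ 3 * y + (-1 / 3) * y ^ 5 + (-1 / 3) * x ^ 3 * y ^ 2)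
    (P2 := fun x => (-473 / 46080) + (23 / 256) * x + (-61 / 192) * x ^ 2 + (37 / 64) * x ^ 3 + (-109 / 192) * x ^ 4 + (17 / 60) * x ^ 5 + (-1 / 18) * x ^ 6) (by fun_prop) (by norm_num) ?_ ?_ (by fun_prop) (by fun_prop)
    (by fun_prop) (by fun_prop) ?_ ?_ ?_ ?_
  · intro x hx
    simp only [Set.mem_Ioo] at hx ⊢
    linarith
  · intro x hx y hy
    simp only [Set.mem_Ioo] at hx hy ⊢
    linarith
  · intro p hp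
    simp only [cell, Set.mem_setOf_eq] at hp
    refine ⟨⟨?_, ?_⟩, ⟨?_, ?_⟩, ⟨?_, ?_⟩⟩ <;> linarith
  · intro x y
    exact ip' ((1 / 16) + (-1 / 2) * y + (-1 / 8) * x + 1 * y ^ 2 + 1 * x * y + (1 / 16) * x ^ 2 + (-2) * x * y ^ 2 + (-1 / 2) * x ^ 2 * y + 1 * x ^ 2 * y ^ 2) ((-1 / 8) + 1 * y + (1 / 8) * x + (-2) * y ^ 2 + (-1) * x * y + 2 * x * y ^ 2) ((1 / 16) + (-1 / 2) * y + 1 * y ^ 2) (0) (0) (0) (0) (0) (0) (by intro z; ring) (by ring)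
  · intro x
    exact ip' ((1 / 48) + (-1 / 16) * x + (1 / 16) * x ^ 2 + (-1 / 48) * x ^ 3) ((-1 / 6) + (1 / 2) * x + (-1 / 2) * x ^ 2 + (1 / 6) * x ^ 3) ((1 / 3) + (-1) * x + 1 * x ^ 2 + (-1 / 3) * x ^ 3) ((-1 / 48)) ((1 / 6)) ((-1 / 3)) (0) (0) (0) (by intro y; ring) (by ring)
  · exact ip' ((-473 / 46080)) ((23 / 256)) ((-61 / 192)) ((37 / 64)) ((-109 / 192)) ((17 / 60)) ((-1 / 18)) (0) (0) (by intro x; ring) (by norm_num)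

/-- cell -/
def K8 : Set (ℝ × ℝ × ℝ) := cell (3 / 4) 1 (fun x => 0) (fun x => 1 + (-1) * x)
    (fun x y => 0) (fun x y => 1 + (-1) * y + (-1) * x)

theorem K8_meas : MeasurableSet K8 :=
  (cell_isOpen (by fun_prop) (by fun_prop) (by fun_prop) (by fun_prop)).measurableSet

theorem mm_K8 : ∫ p in K8, (((1 - p.2.2 - p.1) * (1 / 4 - p.2.1)) ^ 2 : ℝ) = (31 / 20643840) := by
  refine cell_int3 (F := fun x y z : ℝ => ((1 - z - x) * (1 / 4 - y)) ^ 2)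
    (P1 := fun x y => (1 / 48) + (-1 / 6) * y + (-1 / 16) * x + (1 / 3) * y ^ 2 + (1 / 2) * x * y + (1 / 16) * x ^ 2 + (-1 / 48) * y ^ 3 + (-1) * x * y ^ 2 + (-1 / 2) * x ^ 2 * y + (-1 / 48) * x ^ 3 + (1 / 6) * y ^ 4 + 1 * x ^ 2 * y ^ 2 + (1 / 6) * x ^ 3 * y + (-1 / 3) * y ^ 5 + (-1 / 3) * x ^ 3 * y ^ 2)
    (P2 := fun x => (61 / 2880) + (-7 / 48) * x + (41 / 96) * x ^ 2 + (-97 / 144) * x ^ 3 + (115 / 192) * x ^ 4 + (-17 / 60) * x ^ 5 + (1 / 18) * x ^ 6) (by fun_prop) (by norm_num) ?_ ?_ (by fun_prop) (by fun_prop)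
    (by fun_prop) (by fun_prop) ?_ ?_ ?_ ?_
  · intro x hx
    simp only [Set.mem_Ioo] at hx ⊢
    linarith
  · intro x hx y hy
    simp only [Set.mem_Ioo] at hx hy ⊢
    linarith
  · intro p hp
    simp only [cell, Set.mem_setOf_eq] at hp
    refine ⟨⟨?_, ?_⟩, ⟨?_, ?_⟩, ⟨?_, ?_⟩⟩ <;> linarith
  · intro x y
    exact ip' ((1 / 16) + (-1 / 2) * y + (-1 / 8) * x + 1 * y ^ 2 + 1 * x * y + (1 / 16) * x ^ 2 + (-2) * x * y ^ 2 + (-1 / 2) * x ^ 2 * y + 1 * x ^ 2 * y ^ 2) ((-1 / 8) + 1 * y + (1 / 8) * x + (-2) * y ^ 2 + (-1) * x * y + 2 * x * y ^ 2) ((1 / 16) + (-1 / 2) * y + 1 * y ^ 2) (0) (0) (0) (0) (0) (0) (by intro z; ring) (by ring)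
  · intro x
    exact ip' ((1 / 48) + (-1 / 16) * x + (1 / 16) * x ^ 2 + (-1 / 48) * x ^ 3) ((-1 / 6) + (1 / 2) * x + (-1 / 2) * x ^ 2 + (1 / 6) * x ^ 3) ((1 / 3) + (-1) * x + 1 * x ^ 2 + (-1 / 3) * x ^ 3) ((-1 / 48)) ((1 / 6)) ((-1 / 3)) (0) (0) (0) (by intro y; ring) (by ring)
  · exact ip' ((61 / 2880)) ((-7 / 48)) ((41 / 96)) ((-97 / 144)) ((115 / 192)) ((-17 / 60)) ((1 / 18)) (0) (0) (by intro x; ring) (by norm_num)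

end Pool.Agent.SixPoly
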