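import Pool.Agent.Lib_MP_112ba8_t.T2Defs
import Pool.Agent.Lib_MP_112ba8_t.T2Exact

/-!
The dependence of `η` on `r`: discrete Abel summation and the Cauchy estimate (step (4)).
-/

namespace Pool.Agent.T2

open Finset
open Pool.Agent.EvenMoment (Sz)

lemma abel_identity (b : ℕ → ℂ → ℂ) (c : ℂ) (Y : ℕ) :
    ∑ r ∈ Icc 1 Y, b r (c * r) = (∑ r ∈ Icc 1 Y, b r (c * Y)) -
      ∑ m ∈ Icc 1 (Y - 1), ((∑ r ∈ Icc 1 m, b r (c * ((m : ℂ) + 1))) -
        ∑ r ∈ Icc 1 m, b r (c * m)) := by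
  induction Y with
  | zero => simp
  | succ n ih =>
    rw [Finset.sum_Icc_succ_top (by omega), ih]
    rcases Nat.eq_zero_or_pos n with rfl | hn
    · simp
    · obtain ⟨k, rfl⟩ : ∃ k, n = k + 1 := ⟨n - 1, by omega⟩
      simp only [Nat.add_sub_cancel]
      rw [Finset.sum_Icc_succ_top (a := 1) (b := k) (by omega)
        (f := fun m : ℕ => ((∑ r ∈ Icc 1 m, b r (c * ((m : ℂ) + 1))) - ∑ r ∈ Icc 1 m, b r (c * m)))]
      rw [Finset.sum_Icc_succ_top (a := 1) (b := k + 1) (by omega)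
        (f := fun r : ℕ => b r (c * ((k + 1 + 1 : ℕ) : ℂ)))]
      push_cast
      ring

lemma abel_bound {b : ℕ → ℂ → ℂ} (hb : ∀ r : ℕ, ∀ z : ℂ, 0 < z.re → DifferentiableAt ℂ (b r) z)
    {C ε q : ℝ} (hC : 0 ≤ C) (hε : 0 ≤ ε) (hq : 0 < q)
    (hS : ∀ m : ℕ, 1 ≤ m → ∀ w : ℂ, 0 < w.re → w.re ≤ 1 →
      ‖∑ r ∈ Icc 1 m, b r w‖ ≤ C * (‖w‖ / w.re) * (q * m / w.re) ^ (1 / 2 : ℝ) *
        (q ^ 2 * m / w.re) ^ ε)
    {c : ℂ} (hc : 0 < c.re) {Y : ℕ} (hY : 1 ≤ Y) (hcY : Y * c.re ≤ 1 / 2) :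
    ‖∑ r ∈ Icc 1 Y, b r (c * r)‖ ≤ 9 * C * (‖c‖ / c.re) ^ 2 * (2 * q / c.re) ^ (1 / 2 : ℝ) *
      (2 * q ^ 2 / c.re) ^ ε * (1 + Real.log Y) := by
  obtain ⟨κ, hκ⟩ : ∃ κ : ℝ, κ = ‖c‖ / c.re := ⟨_, rfl⟩
  have hcn : c.re ≤ ‖c‖ := (le_abs_self _).trans (Complex.abs_re_le_norm _)
  have hκ1 : 1 ≤ κ := by rw [hκ, one_le_div hc]; exact hcn
  obtain ⟨P, hP⟩ : ∃ P : ℝ, P = (2 * q / c.re) ^ (1 / 2 : ℝ) * (2 * q ^ 2 / c.re) ^ ε :=
    ⟨_, rfl⟩
  have hP0 : 0 ≤ P := by rw [hP]; positivity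
  obtain ⟨K, hK⟩ : ∃ K : ℝ, K = C * (3 * κ) * P := ⟨_, rfl⟩
  have hK0 : 0 ≤ K := by rw [hK]; positivity
  have hY0 : (1 : ℝ) ≤ Y := by exact_mod_cast hY
  -- pointwise bound
  have hpt : ∀ m : ℕ, 1 ≤ m → ∀ v : ℂ, m * c.re / 2 ≤ v.re → v.re ≤ 1 → ‖v‖ ≤ 3 * κ * v.re →
      ‖∑ r ∈ Icc 1 m, b r v‖ ≤ K := by
    intro m hm v h1 h2 h3
    have hm0 : (0 : ℝ) < m := by exact_mod_cast hm
    have hv0 : 0 < v.re := lt_of_lt_of_le (by positivity) h1
    have g1 : ‖v‖ / v.re ≤ 3 * κ := by rw [div_le_iff₀ hv0]; exact h3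
    have g2 : q * m / v.re ≤ 2 * q / c.re := by
      rw [div_le_div_iff₀ hv0 hc]
      nlinarith
    have g3 : q ^ 2 * m / v.re ≤ 2 * q ^ 2 / c.re := by
      rw [div_le_div_iff₀ hv0 hc]
      have : 0 < q ^ 2 := by positivity
      nlinarith
    calc ‖∑ r ∈ Icc 1 m, b r v‖ ≤ C * (‖v‖ / v.re) * (q * m / v.re) ^ (1 / 2 : ℝ) *
          (q ^ 2 * m / v.re) ^ ε := hS m hm v hv0 h2
      _ ≤ C * (3 * κ) * (2 * q / c.re) ^ (1 / 2 : ℝ) * (2 * q ^ 2 / c.re) ^ ε := by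
          gcongr
      _ = K := by rw [hK, hP]; ring
  have hdiffm : ∀ m : ℕ, ∀ z : ℂ, 0 < z.re →
      DifferentiableAt ℂ (fun z => ∑ r ∈ Icc 1 m, b r z) z := fun m z hz =>
    DifferentiableAt.fun_sum fun r _ => hb r z hz
  -- the derivative
  have hder : ∀ m : ℕ, 1 ≤ m → m + 1 ≤ Y → ∀ u : ℝ, (m : ℝ) ≤ u → u ≤ m + 1 →
      ‖deriv (fun z => ∑ r ∈ Icc 1 m, b r z) (c * u)‖ ≤ 2 * K / (m * c.re) := by
    intro m hm hmY u hu1 hu2
    have hm0 : (0 : ℝ) < m := by exact_mod_cast hm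
    have hu0 : 0 < u := lt_of_lt_of_le hm0 hu1
    have hmY' : (m : ℝ) + 1 ≤ Y := by exact_mod_cast hmY
    have hwre : (c * u).re = c.re * u := by simp
    have hwn : ‖c * u‖ = ‖c‖ * u := by
      rw [norm_mul, Complex.norm_real, Real.norm_of_nonneg hu0.le]
    have hR : 0 < c.re * u / 2 := by positivity
    have huY : c.re * u ≤ 1 / 2 := by nlinarith
    have hball : ∀ v ∈ Metric.closedBall (c * u) (c.re * u / 2), c.re * u / 2 ≤ v.re ∧
        v.re ≤ 3 / 2 * (c.re * u) ∧ ‖v‖ ≤ 3 / 2 * (‖c‖ * u) := by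
      intro v hv
      rw [Metric.mem_closedBall, dist_eq_norm] at hv
      have h1 : |(v - c * u).re| ≤ c.re * u / 2 := (Complex.abs_re_le_norm _).trans hv
      rw [Complex.sub_re, hwre, abs_le] at h1
      have h2 : ‖v‖ ≤ ‖v - c * u‖ + ‖c * u‖ := by
        calc ‖v‖ = ‖(v - c * u) + c * u‖ := by congr 1; ring
          _ ≤ _ := norm_add_le _ _
      rw [hwn] at h2
      have h3 : c.re * u ≤ ‖c‖ * u := by gcongr
      refine ⟨by linarith, by linarith, by linarith⟩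
    have h1 := Complex.norm_deriv_le_of_forall_mem_sphere_norm_le (c := c * u)
      (R := c.re * u / 2) (C := K) (f := fun z => ∑ r ∈ Icc 1 m, b r z) hR ?_ ?_
    · refine h1.trans ?_
      have : K / (c.re * u / 2) = 2 * K / (u * c.re) := by field_simp
      rw [this]
      gcongr
    · refine DifferentiableOn.diffContOnCl ?_
      intro v hv
      have hv' := Metric.closure_ball_subset_closedBall hv
      obtain ⟨a1, _, _⟩ := hball v hv'
      exact (hdiffm m v (lt_of_lt_of_le hR a1)).differentiableWithinAt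
    · intro v hv
      obtain ⟨a1, a2, a3⟩ := hball v (Metric.sphere_subset_closedBall hv)
      refine hpt m hm v ?_ (by linarith) ?_
      · have : (m : ℝ) * c.re ≤ u * c.re := by gcongr
        linarith
      · have h5 : ‖c‖ = κ * c.re := by rw [hκ]; field_simp
        rw [h5] at a3
        calc ‖v‖ ≤ 3 / 2 * (κ * c.re * u) := a3
          _ = 3 * κ * (c.re * u / 2) := by ring
          _ ≤ 3 * κ * v.re := by gcongr
  -- the differences
  have hdif : ∀ m : ℕ, m ∈ Icc 1 (Y - 1) → ‖(∑ r ∈ Icc 1 m, b r (c * ((m : ℂ) + 1))) -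
        ∑ r ∈ Icc 1 m, b r (c * m)‖ ≤ 2 * K * κ * (1 / m) := by
    intro m hm
    rw [Finset.mem_Icc] at hm
    have hm0 : (0 : ℝ) < m := by exact_mod_cast hm.1
    have hmY : m + 1 ≤ Y := by omega
    have h1 := (convex_segment (𝕜 := ℝ) (c * m) (c * ((m : ℂ) + 1))).norm_image_sub_le_of_norm_deriv_le
      (f := fun z => ∑ r ∈ Icc 1 m, b r z) (C := 2 * K / (m * c.re)) (𝕜 := ℂ) (x := c * m)
      (y := c * ((m : ℂ) + 1)) ?_ ?_ (left_mem_segment _ _ _) (right_mem_segment _ _ _)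
    · refine h1.trans ?_
      have e1 : c * ((m : ℂ) + 1) - c * m = c := by ring
      rw [e1]
      have e2 : 2 * K / (m * c.re) * ‖c‖ = 2 * K * κ * (1 / m) := by
        rw [hκ]; field_simp
      rw [e2]
    · intro z hz
      obtain ⟨u, hu, rfl⟩ := (segment_eq_image ℝ (c * (m : ℂ)) (c * ((m : ℂ) + 1))) ▸ hz
      refine hdiffm m _ ?_
      have e1 : ((1 - u) • (c * (m : ℂ)) + u • (c * ((m : ℂ) + 1))) = c * ((m + u : ℝ) : ℂ) := by
        simp only [Complex.real_smul]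
        push_cast
        ring
      simp only [e1]
      rw [Complex.re_mul_ofReal]
      have := hu.1
      positivity
    · intro z hz
      obtain ⟨u, hu, rfl⟩ := (segment_eq_image ℝ (c * (m : ℂ)) (c * ((m : ℂ) + 1))) ▸ hz
      have e1 : ((1 - u) • (c * (m : ℂ)) + u • (c * ((m : ℂ) + 1))) = c * ((m + u : ℝ) : ℂ) := by
        simp only [Complex.real_smul]
        push_cast
        ring
      simp only [e1]
      exact hder m hm.1 hmY (m + u) (by linarith [hu.1]) (by linarith [hu.2])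
  have hlast : ‖∑ r ∈ Icc 1 Y, b r (c * Y)‖ ≤ K := by
    have e1 : (c * (Y : ℂ)).re = Y * c.re := by
      have : (c * (Y : ℂ)) = c * ((Y : ℝ) : ℂ) := by push_cast; rfl
      rw [this, Complex.re_mul_ofReal, mul_comm]
    have e2 : ‖c * (Y : ℂ)‖ = Y * ‖c‖ := by
      rw [norm_mul, Complex.norm_natCast, mul_comm]
    refine hpt Y hY _ ?_ ?_ ?_
    · rw [e1]
      have : 0 < Y * c.re := by positivity
      linarith
    · rw [e1]; linarith
    · rw [e1, e2]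
      have h5 : ‖c‖ = κ * c.re := by rw [hκ]; field_simp
      rw [h5]
      have : 0 ≤ Y * (κ * c.re) := by positivity
      nlinarith
  rw [abel_identity]
  have hsum : ‖∑ m ∈ Icc 1 (Y - 1), ((∑ r ∈ Icc 1 m, b r (c * ((m : ℂ) + 1))) -
        ∑ r ∈ Icc 1 m, b r (c * m))‖ ≤ 2 * K * κ * (1 + Real.log Y) := by
    refine (norm_sum_le _ _).trans ?_
    refine (Finset.sum_le_sum hdif).trans ?_
    rw [← Finset.mul_sum]
    refine mul_le_mul_of_nonneg_left ?_ (by positivity)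
    have h1 : ∑ m ∈ Icc 1 (Y - 1), (1 / (m : ℝ)) ≤ ∑ m ∈ Icc 1 Y, (1 / (m : ℝ)) := by
      refine Finset.sum_le_sum_of_subset_of_nonneg ?_ fun _ _ _ => by positivity
      exact Finset.Icc_subset_Icc le_rfl (by omega)
    refine h1.trans ?_
    have h2 := harmonic_le_one_add_log Y
    rw [harmonic_eq_sum_Icc] at h2
    push_cast at h2
    simpa [one_div] using h2
  have hlog : 0 ≤ Real.log Y := Real.log_nonneg hY0
  calc _ ≤ ‖∑ r ∈ Icc 1 Y, b r (c * Y)‖ + ‖∑ m ∈ Icc 1 (Y - 1),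
        ((∑ r ∈ Icc 1 m, b r (c * ((m : ℂ) + 1))) - ∑ r ∈ Icc 1 m, b r (c * m))‖ :=
        norm_sub_le _ _
    _ ≤ K + 2 * K * κ * (1 + Real.log Y) := add_le_add hlast hsum
    _ ≤ 3 * K * κ * (1 + Real.log Y) := by
        have : K ≤ K * κ * (1 + Real.log Y) := by
          have h1 : 1 ≤ κ * (1 + Real.log Y) := by nlinarith
          nlinarith
        linarith
    _ = _ := by rw [hK, hP, ← hκ]; ring

end Pool.Agent.T2
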