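import Mathlib
import Pool.Agent.Lib_MP_112ba8_t.Defs
import Pool.Agent.Lib_MP_112ba8_t.PolyLeaf

/-!
Pieces F2 - F5: the volumes of the certificate.
-/

open MeasureTheory Set Filter Topology

namespace Pool.Agent.SixPoly

theorem ae_ne_x (c : ℝ) : ∀ᵐ p : ℝ × ℝ × ℝ, p.1 ≠ c := by
  rw [ae_iff]
  have hm : MeasurableSet {p : ℝ × ℝ × ℝ | ¬ p.1 ≠ c} := by
    simp only [not_not]
    exact measurableSet_eq_fun (by fun_prop) (by fun_prop)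
  rw [Measure.volume_eq_prod, Measure.measure_prod_null hm]
  filter_upwards [Measure.ae_ne volume c] with x hx
  have : Prod.mk x ⁻¹' {p : ℝ × ℝ × ℝ | ¬ p.1 ≠ c} = ∅ := by
    ext q
    simp [hx]
  rw [this]
  simp

theorem null_slice {s : Set (ℝ × ℝ × ℝ)} (hs : MeasurableSet s)
    (h : ∀ x, ∃ c, ∀ q : ℝ × ℝ, (x, q) ∈ s → q.1 = c) : volume s = 0 := by
  rw [Measure.volume_eq_prod, Measure.measure_prod_null hs]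
  refine Eventually.of_forall fun x => ?_
  obtain ⟨c, hc⟩ := h x
  have h1 : Prod.mk x ⁻¹' s ⊆ ({c} : Set ℝ) ×ˢ (univ : Set ℝ) := by
    intro q hq
    exact ⟨hc q hq, mem_univ _⟩
  refine measure_mono_null h1 ?_
  rw [Measure.volume_eq_prod, Measure.prod_prod]
  simp

theorem null_slice_z {s : Set (ℝ × ℝ × ℝ)} (hs : MeasurableSet s)
    (h : ∀ x y, ∃ c, ∀ z : ℝ, (x, y, z) ∈ s → z = c) : volume s = 0 := by
  rw [Measure.volume_eq_prod, Measure.measure_prod_null hs]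
  refine Eventually.of_forall fun x => ?_
  have hs' : MeasurableSet (Prod.mk x ⁻¹' s) := measurable_prodMk_left hs
  show volume (Prod.mk x ⁻¹' s) = 0
  rw [Measure.volume_eq_prod, Measure.measure_prod_null hs']
  refine Eventually.of_forall fun y => ?_
  obtain ⟨c, hc⟩ := h x y
  have h1 : Prod.mk y ⁻¹' (Prod.mk x ⁻¹' s) ⊆ {c} := by
    intro z hz
    exact hc z hz
  refine measure_mono_null h1 (by simp)

theorem ae_ne_xy (c : ℝ) : ∀ᵐ p : ℝ × ℝ × ℝ, p.1 + p.2.1 ≠ c := by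
  rw [ae_iff]
  refine null_slice ?_ fun x => ⟨c - x, ?_⟩
  · simp only [not_not]
    exact measurableSet_eq_fun (by fun_prop) (by fun_prop)
  · intro q hq
    simp only [ne_eq, not_not, mem_ofPred_eq] at hq
    linarith

theorem ae_ne_y (c : ℝ) : ∀ᵐ p : ℝ × ℝ × ℝ, p.2.1 ≠ c := by
  rw [ae_iff]
  refine null_slice ?_ fun x => ⟨c, ?_⟩
  · simp only [not_not]
    exact measurableSet_eq_fun (by fun_prop) (by fun_prop)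
  · intro q hq
    simpa using hq

theorem ae_ne_z (h : ℝ → ℝ → ℝ) (hh : Measurable fun p : ℝ × ℝ => h p.1 p.2) :
    ∀ᵐ p : ℝ × ℝ × ℝ, p.2.2 ≠ h p.1 p.2.1 := by
  rw [ae_iff]
  refine null_slice_z ?_ fun x y => ⟨h x y, ?_⟩
  · simp only [not_not, ne_eq]
    exact measurableSet_eq_fun (by fun_prop)
      (hh.comp (by fun_prop : Measurable fun p : ℝ × ℝ × ℝ => (p.1, p.2.1)))
  · intro q hq
    simpa using hq

/-- split an integral along a null set -/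
theorem split {O O₁ O₂ : Set (ℝ × ℝ × ℝ)} {f : ℝ × ℝ × ℝ → ℝ} (hf : IntegrableOn f O)
    {g h : ℝ × ℝ × ℝ → ℝ} (h0 : ∀ᵐ p, g p ≠ h p) (h2 : MeasurableSet O₂)
    (e1 : ∀ p, p ∈ O₁ ↔ p ∈ O ∧ g p < h p) (e2 : ∀ p, p ∈ O₂ ↔ p ∈ O ∧ h p < g p) :
    (IntegrableOn f O₁ ∧ IntegrableOn f O₂) ∧
      ∫ p in O, f p = (∫ p in O₁, f p) + ∫ p in O₂, f p := by
  have i1 : IntegrableOn f O₁ := hf.mono_set fun p hp => ((e1 p).1 hp).1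
  have i2 : IntegrableOn f O₂ := hf.mono_set fun p hp => ((e2 p).1 hp).1
  refine ⟨⟨i1, i2⟩, ?_⟩
  have hd : Disjoint O₁ O₂ := Set.disjoint_left.2 fun p h1 h2 =>
    absurd ((e1 p).1 h1).2 (not_lt.2 ((e2 p).1 h2).2.le)
  rw [← setIntegral_union hd h2 i1 i2]
  refine setIntegral_congr_set ?_
  filter_upwards [h0] with p hp
  have : (p ∈ O) = (p ∈ O₁ ∪ O₂) := by
    refine propext ⟨fun h => ?_, fun h => ?_⟩
    · rcases lt_or_gt_of_ne hp with h' | h'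
      · exact Or.inl ((e1 p).2 ⟨h, h'⟩)
      · exact Or.inr ((e2 p).2 ⟨h, h'⟩)
    · rcases h with h | h
      · exact ((e1 p).1 h).1
      · exact ((e2 p).1 h).1
  exact this

theorem integrableOn_box {O : Set (ℝ × ℝ × ℝ)} {f : ℝ × ℝ × ℝ → ℝ} (hf : Continuous f)
    (hbox : ∀ p ∈ O, (0 ≤ p.1 ∧ p.1 ≤ 1) ∧ (0 ≤ p.2.1 ∧ p.2.1 ≤ 1) ∧
      (0 ≤ p.2.2 ∧ p.2.2 ≤ 1)) : IntegrableOn f O := by
  have hc : IsCompact (Icc ((0, 0, 0) : ℝ × ℝ × ℝ) (1, 1, 1)) := isCompact_Icc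
  refine (hf.continuousOn.integrableOn_compact hc).mono_set ?_
  intro p hp
  obtain ⟨⟨h1, h2⟩, ⟨h3, h4⟩, ⟨h5, h6⟩⟩ := hbox p hp
  exact ⟨⟨h1, h3, h5⟩, ⟨h2, h4, h6⟩⟩

end Pool.Agent.SixPoly

namespace Pool.Agent.SixT

open Pool.Agent.SixPoly

theorem OW_isOpen : IsOpen OW := by
  have h : OW = {p | 0 < p.2.1} ∩ ({p | p.2.1 < p.1} ∩ ({p | 0 < p.2.2} ∩
      ({p | p.1 + p.2.1 < 1 / 2} ∩ {p | p.1 + p.2.1 + p.2.2 < 1}))) := rfl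
  rw [h]
  refine (isOpen_lt ?_ ?_).inter ((isOpen_lt ?_ ?_).inter ((isOpen_lt ?_ ?_).inter
    ((isOpen_lt ?_ ?_).inter (isOpen_lt ?_ ?_))))
  all_goals fun_prop

theorem OW_meas : MeasurableSet OW := OW_isOpen.measurableSet

theorem OA_isOpen : IsOpen OA := by
  have h : OA = {p | 0 < p.2.1} ∩ ({p | p.2.1 < p.1} ∩ ({p | 0 < p.2.2} ∩
      ({p | p.1 + p.2.1 < 1 / 2} ∩ ({p | p.1 + p.2.1 + p.2.2 < 1} ∩ {p | p.2.2 < 3 / 4})))) := rfl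
  rw [h]
  refine (isOpen_lt ?_ ?_).inter ((isOpen_lt ?_ ?_).inter ((isOpen_lt ?_ ?_).inter
    ((isOpen_lt ?_ ?_).inter ((isOpen_lt ?_ ?_).inter (isOpen_lt ?_ ?_)))))
  all_goals fun_prop

theorem OB_isOpen : IsOpen OB := by
  have h : OB = {p | 0 < p.2.1} ∩ ({p | p.2.1 < p.1} ∩ ({p | 0 < p.2.2} ∩
      ({p | p.2.2 < 1 / 4} ∩ ({p | 1 / 2 < p.1 + p.2.1} ∩ {p | p.1 + p.2.1 + p.2.2 < 1})))) := rfl
  rw [h]
  refine (isOpen_lt ?_ ?_).inter ((isOpen_lt ?_ ?_).inter ((isOpen_lt ?_ ?_).inter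
    ((isOpen_lt ?_ ?_).inter ((isOpen_lt ?_ ?_).inter (isOpen_lt ?_ ?_)))))
  all_goals fun_prop

/-- the six cells of `OW` -/
theorem OW_split {f : ℝ × ℝ × ℝ → ℝ} (hf : IntegrableOn f OW) :
    ∫ p in OW, f p = ((∫ p in W1, f p) + ((∫ p in W2, f p) + ∫ p in W3, f p)) +
      ((∫ p in W4, f p) + ((∫ p in W5, f p) + ∫ p in W6, f p)) := by
  have hmx : Measurable fun p : ℝ × ℝ × ℝ => p.1 := by fun_prop
  have hmy : Measurable fun p : ℝ × ℝ × ℝ => p.2.1 := by fun_prop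
  have hmz : Measurable fun p : ℝ × ℝ × ℝ => p.2.2 := by fun_prop
  obtain ⟨⟨iA, iB⟩, e0⟩ := split (O₁ := OW ∩ {p | p.1 < 1 / 4}) (O₂ := OW ∩ {p | 1 / 4 < p.1}) hf
    (g := fun p => p.1) (h := fun _ => 1 / 4) (ae_ne_x _)
    (OW_meas.inter (measurableSet_lt measurable_const hmx)) (fun p => Iff.rfl) (fun p => Iff.rfl)
  obtain ⟨⟨i1, iA2⟩, e1⟩ := split (O₁ := W1) (O₂ := OW ∩ {p | p.1 < 1 / 4} ∩ {p | p.2.1 < p.2.2})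
    iA (g := fun p => p.2.2) (h := fun p => p.2.1) (ae_ne_z (fun _ y => y) (by fun_prop))
    ((OW_meas.inter (measurableSet_lt hmx measurable_const)).inter (measurableSet_lt hmy hmz))
    (fun p => by
      simp only [W1, cell, OW, mem_inter_iff, mem_ofPred_eq]
      constructor
      · rintro ⟨⟨h1, h2⟩, ⟨h3, h4⟩, h5, h6⟩
        refine ⟨⟨⟨?_, ?_, ?_, ?_, ?_⟩, ?_⟩, ?_⟩ <;> linarith
      · rintro ⟨⟨⟨h1, h2, h3, h4, h5⟩, h6⟩, h7⟩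
        refine ⟨⟨?_, ?_⟩, ⟨?_, ?_⟩, ?_, ?_⟩ <;> linarith) (fun p => Iff.rfl)
  obtain ⟨⟨i2, i3⟩, e2⟩ := split (O₁ := W2) (O₂ := W3)
    iA2 (g := fun p => p.2.2) (h := fun p => p.1) (ae_ne_z (fun x _ => x) (by fun_prop))
    W3_meas
    (fun p => by
      simp only [W2, cell, OW, mem_inter_iff, mem_ofPred_eq]
      constructor
      · rintro ⟨⟨h1, h2⟩, ⟨h3, h4⟩, h5, h6⟩
        refine ⟨⟨⟨⟨?_, ?_, ?_, ?_, ?_⟩, ?_⟩, ?_⟩, ?_⟩ <;> linarith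
      · rintro ⟨⟨⟨⟨h1, h2, h3, h4, h5⟩, h6⟩, h7⟩, h8⟩
        refine ⟨⟨?_, ?_⟩, ⟨?_, ?_⟩, ?_, ?_⟩ <;> linarith)
    (fun p => by
      simp only [W3, cell, OW, mem_inter_iff, mem_ofPred_eq]
      constructor
      · rintro ⟨⟨h1, h2⟩, ⟨h3, h4⟩, h5, h6⟩
        refine ⟨⟨⟨⟨?_, ?_, ?_, ?_, ?_⟩, ?_⟩, ?_⟩, ?_⟩ <;> linarith
      · rintro ⟨⟨⟨⟨h1, h2, h3, h4, h5⟩, h6⟩, h7⟩, h8⟩
        refine ⟨⟨?_, ?_⟩, ⟨?_, ?_⟩, ?_, ?_⟩ <;> linarith)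
  obtain ⟨⟨i4, iB2⟩, e3⟩ := split (O₁ := W4) (O₂ := OW ∩ {p | 1 / 4 < p.1} ∩ {p | p.2.1 < p.2.2})
    iB (g := fun p => p.2.2) (h := fun p => p.2.1) (ae_ne_z (fun _ y => y) (by fun_prop))
    ((OW_meas.inter (measurableSet_lt measurable_const hmx)).inter (measurableSet_lt hmy hmz))
    (fun p => by
      simp only [W4, cell, OW, mem_inter_iff, mem_ofPred_eq]
      constructor
      · rintro ⟨⟨h1, h2⟩, ⟨h3, h4⟩, h5, h6⟩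
        refine ⟨⟨⟨?_, ?_, ?_, ?_, ?_⟩, ?_⟩, ?_⟩ <;> linarith
      · rintro ⟨⟨⟨h1, h2, h3, h4, h5⟩, h6⟩, h7⟩
        refine ⟨⟨?_, ?_⟩, ⟨?_, ?_⟩, ?_, ?_⟩ <;> linarith) (fun p => Iff.rfl)
  obtain ⟨⟨i5, i6⟩, e4⟩ := split (O₁ := W5) (O₂ := W6)
    iB2 (g := fun p => p.2.2) (h := fun _ => 1 / 4) (ae_ne_z (fun _ _ => 1 / 4) (by fun_prop))
    W6_meas
    (fun p => by
      simp only [W5, cell, OW, mem_inter_iff, mem_ofPred_eq]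
      constructor
      · rintro ⟨⟨h1, h2⟩, ⟨h3, h4⟩, h5, h6⟩
        refine ⟨⟨⟨⟨?_, ?_, ?_, ?_, ?_⟩, ?_⟩, ?_⟩, ?_⟩ <;> linarith
      · rintro ⟨⟨⟨⟨h1, h2, h3, h4, h5⟩, h6⟩, h7⟩, h8⟩
        refine ⟨⟨?_, ?_⟩, ⟨?_, ?_⟩, ?_, ?_⟩ <;> linarith)
    (fun p => by
      simp only [W6, cell, OW, mem_inter_iff, mem_ofPred_eq]
      constructor
      · rintro ⟨⟨h1, h2⟩, ⟨h3, h4⟩, h5, h6⟩
        refine ⟨⟨⟨⟨?_, ?_, ?_, ?_, ?_⟩, ?_⟩, ?_⟩, ?_⟩ <;> linarith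
      · rintro ⟨⟨⟨⟨h1, h2, h3, h4, h5⟩, h6⟩, h7⟩, h8⟩
        refine ⟨⟨?_, ?_⟩, ⟨?_, ?_⟩, ?_, ?_⟩ <;> linarith)
  rw [e0, e1, e2, e3, e4]

theorem OW_int {f : ℝ × ℝ × ℝ → ℝ} (hf : Continuous f) : IntegrableOn f OW :=
  integrableOn_box hf fun p hp => by
    obtain ⟨h1, h2, h3, h4, h5⟩ := hp
    refine ⟨⟨?_, ?_⟩, ⟨?_, ?_⟩, ?_, ?_⟩ <;> linarith

/-- F3 -/
theorem vol_d : ∫ p in OW, dl p.1 p.2.1 p.2.2 ^ 2 = 241 / 6193152 := by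
  simp only [dl]
  rw [OW_split (OW_int (by fun_prop)), dd_W1, dd_W2, dd_W3, dd_W4, dd_W5, dd_W6]
  norm_num

theorem qq_cont : Continuous fun p : ℝ × ℝ × ℝ => qq p.1 p.2.1 p.2.2 := by
  unfold qq
  fun_prop

theorem qq_W1 {p : ℝ × ℝ × ℝ} (hp : p ∈ W1) : qq p.1 p.2.1 p.2.2 = p.1 - p.2.1 := by
  obtain ⟨⟨h1, h2⟩, ⟨h3, h4⟩, h5, h6⟩ := hp
  rw [qq, min_eq_right (by linarith), max_eq_left (a := p.2.1) (b := p.2.2) (by linarith),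
    max_eq_right (by linarith)]

theorem qq_W2 {p : ℝ × ℝ × ℝ} (hp : p ∈ W2) : qq p.1 p.2.1 p.2.2 = p.1 - p.2.2 := by
  obtain ⟨⟨h1, h2⟩, ⟨h3, h4⟩, h5, h6⟩ := hp
  rw [qq, min_eq_right (by linarith), max_eq_right (a := p.2.1) (by linarith),
    max_eq_right (by linarith)]

theorem qq_W3 {p : ℝ × ℝ × ℝ} (hp : p ∈ W3) : qq p.1 p.2.1 p.2.2 = 0 := by
  obtain ⟨⟨h1, h2⟩, ⟨h3, h4⟩, h5, h6⟩ := hp
  rw [qq, min_eq_right (by linarith), max_eq_right (a := p.2.1) (by linarith),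
    max_eq_left (by linarith)]

theorem qq_W4 {p : ℝ × ℝ × ℝ} (hp : p ∈ W4) : qq p.1 p.2.1 p.2.2 = 1 / 4 - p.2.1 := by
  obtain ⟨⟨h1, h2⟩, ⟨h3, h4⟩, h5, h6⟩ := hp
  rw [qq, min_eq_left (by linarith), max_eq_left (a := p.2.1) (b := p.2.2) (by linarith),
    max_eq_right (by linarith)]

theorem qq_W5 {p : ℝ × ℝ × ℝ} (hp : p ∈ W5) : qq p.1 p.2.1 p.2.2 = 1 / 4 - p.2.2 := by
  obtain ⟨⟨h1, h2⟩, ⟨h3, h4⟩, h5, h6⟩ := hp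
  rw [qq, min_eq_left (by linarith), max_eq_right (a := p.2.1) (by linarith),
    max_eq_right (by linarith)]

theorem qq_W6 {p : ℝ × ℝ × ℝ} (hp : p ∈ W6) : qq p.1 p.2.1 p.2.2 = 0 := by
  obtain ⟨⟨h1, h2⟩, ⟨h3, h4⟩, h5, h6⟩ := hp
  rw [qq, min_eq_left (by linarith), max_eq_right (a := p.2.1) (by linarith),
    max_eq_left (by linarith)]

/-- F4 -/
theorem vol_dq : ∫ p in OW, dl p.1 p.2.1 p.2.2 * qq p.1 p.2.1 p.2.2 = 2689 / 41287680 := by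
  have hc : Continuous fun p : ℝ × ℝ × ℝ => dl p.1 p.2.1 p.2.2 * qq p.1 p.2.1 p.2.2 :=
    (by unfold dl; fun_prop : Continuous fun p : ℝ × ℝ × ℝ => dl p.1 p.2.1 p.2.2).mul qq_cont
  rw [OW_split (OW_int hc),
    setIntegral_congr_fun W1_meas fun p hp => by
      show _ = dl p.1 p.2.1 p.2.2 * (p.1 - p.2.1); rw [qq_W1 hp],
    setIntegral_congr_fun W2_meas fun p hp => by
      show _ = dl p.1 p.2.1 p.2.2 * (p.1 - p.2.2); rw [qq_W2 hp],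
    setIntegral_congr_fun W3_meas fun p hp => by
      show _ = (0 : ℝ); rw [qq_W3 hp, mul_zero],
    setIntegral_congr_fun W4_meas fun p hp => by
      show _ = dl p.1 p.2.1 p.2.2 * (1 / 4 - p.2.1); rw [qq_W4 hp],
    setIntegral_congr_fun W5_meas fun p hp => by
      show _ = dl p.1 p.2.1 p.2.2 * (1 / 4 - p.2.2); rw [qq_W5 hp],
    setIntegral_congr_fun W6_meas fun p hp => by
      show _ = (0 : ℝ); rw [qq_W6 hp, mul_zero]]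
  simp only [dl]
  rw [dq_W1, dq_W2, dq_W4, dq_W5]
  simp only [integral_zero]
  norm_num

/-- F5 -/
theorem vol_q : ∫ p in OW, qq p.1 p.2.1 p.2.2 ^ 2 = 3 / 20480 := by
  have hc : Continuous fun p : ℝ × ℝ × ℝ => qq p.1 p.2.1 p.2.2 ^ 2 := qq_cont.pow 2
  rw [OW_split (OW_int hc),
    setIntegral_congr_fun W1_meas fun p hp => by
      show _ = (p.1 - p.2.1) ^ 2; rw [qq_W1 hp],
    setIntegral_congr_fun W2_meas fun p hp => by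
      show _ = (p.1 - p.2.2) ^ 2; rw [qq_W2 hp],
    setIntegral_congr_fun W3_meas fun p hp => by
      show _ = (0 : ℝ); rw [qq_W3 hp]; norm_num,
    setIntegral_congr_fun W4_meas fun p hp => by
      show _ = (1 / 4 - p.2.1) ^ 2; rw [qq_W4 hp],
    setIntegral_congr_fun W5_meas fun p hp => by
      show _ = (1 / 4 - p.2.2) ^ 2; rw [qq_W5 hp],
    setIntegral_congr_fun W6_meas fun p hp => by
      show _ = (0 : ℝ); rw [qq_W6 hp]; norm_num]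
  rw [SixPoly.qq_W1, SixPoly.qq_W2, SixPoly.qq_W4, SixPoly.qq_W5]
  simp only [integral_zero]
  norm_num

/-! ### F2 -/

theorem mm_meas : Measurable fun p : ℝ × ℝ × ℝ => mm p.1 p.2.1 p.2.2 := by
  unfold mm
  refine Measurable.ite (measurableSet_le (by fun_prop) (by fun_prop)) (by fun_prop) ?_
  exact Measurable.mul (by fun_prop) (Measurable.max (by fun_prop) (by fun_prop))

theorem mm_bound {p : ℝ × ℝ × ℝ} (h1 : 0 < p.2.1) (h2 : p.2.1 < p.1) (h3 : 0 < p.2.2)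
    (h4 : p.1 + p.2.1 + p.2.2 < 1) : |mm p.1 p.2.1 p.2.2| ≤ 1 := by
  unfold mm
  split_ifs with h
  · rw [abs_mul, abs_of_pos (by linarith)]
    have : |1 - p.2.2 - 1 / 4| ≤ 1 := by rw [abs_le]; constructor <;> linarith
    calc (p.1 - p.2.1) * |1 - p.2.2 - 1 / 4| ≤ 1 * 1 := by
          apply mul_le_mul (by linarith) this (abs_nonneg _) (by norm_num)
      _ = 1 := one_mul 1
  · rw [abs_mul, abs_of_pos (by linarith), abs_of_nonneg (le_max_left _ _)]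
    calc (1 - p.2.2 - p.1) * max 0 (1 / 4 - p.2.1) ≤ 1 * 1 := by
          apply mul_le_mul (by linarith) (max_le (by norm_num) (by linarith)) (le_max_left _ _)
            (by norm_num)
      _ = 1 := one_mul 1

theorem OAB_int : IntegrableOn (fun p : ℝ × ℝ × ℝ => mm p.1 p.2.1 p.2.2 ^ 2) (OA ∪ OB) := by
  have hsub : OA ∪ OB ⊆ Icc ((0, 0, 0) : ℝ × ℝ × ℝ) (1, 1, 1) := by
    rintro p (⟨h1, h2, h3, h4, h5, h6⟩ | ⟨h1, h2, h3, h4, h5, h6⟩)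
    · refine ⟨⟨?_, ?_, ?_⟩, ⟨?_, ?_, ?_⟩⟩ <;> simp only <;> linarith
    · refine ⟨⟨?_, ?_, ?_⟩, ⟨?_, ?_, ?_⟩⟩ <;> simp only <;> linarith
  have hm : MeasurableSet (OA ∪ OB) := OA_isOpen.measurableSet.union OB_isOpen.measurableSet
  refine Measure.integrableOn_of_bounded (M := 1) ?_ (mm_meas.pow_const 2).aestronglyMeasurable ?_
  · have hc : IsCompact (Icc ((0, 0, 0) : ℝ × ℝ × ℝ) (1, 1, 1)) := isCompact_Icc
    exact ((measure_mono hsub).trans_lt hc.measure_lt_top).ne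
  · refine (ae_restrict_iff' hm).2 (Eventually.of_forall fun p hp => ?_)
    have : |mm p.1 p.2.1 p.2.2| ≤ 1 := by
      rcases hp with ⟨h1, h2, h3, h4, h5, h6⟩ | ⟨h1, h2, h3, h4, h5, h6⟩
      · exact mm_bound h1 h2 h3 h5
      · exact mm_bound h1 h2 h3 h6
    rw [Real.norm_eq_abs, abs_pow]
    exact pow_le_one₀ (abs_nonneg _) this

theorem OA_split {f : ℝ × ℝ × ℝ → ℝ} (hf : IntegrableOn f OA) :
    ∫ p in OA, f p = (∫ p in K1, f p) + (((∫ p in K2, f p) + ∫ p in K3, f p) +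
      ∫ p in K4, f p) := by
  have hmx : Measurable fun p : ℝ × ℝ × ℝ => p.1 := by fun_prop
  have hO := OA_isOpen.measurableSet
  obtain ⟨⟨i1, iA2⟩, e1⟩ := split (O₁ := K1) (O₂ := OA ∩ {p | 1 / 8 < p.1})
    hf (g := fun p => p.1) (h := fun p => 1 / 8) (ae_ne_x _)
    (hO.inter (measurableSet_lt measurable_const hmx))
    (fun p => by
      simp only [K1, cell, OA, mem_inter_iff, mem_ofPred_eq]
      constructor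
      · rintro ⟨⟨h1, h2⟩, ⟨h3, h4⟩, h5, h6⟩
        refine ⟨⟨?_, ?_, ?_, ?_, ?_, ?_⟩, ?_⟩ <;> linarith
      · rintro ⟨⟨h1, h2, h3, h4, h5, h6⟩, g0⟩
        refine ⟨⟨?_, ?_⟩, ⟨?_, ?_⟩, ?_, ?_⟩ <;> linarith)
    (fun p => Iff.rfl)
  obtain ⟨⟨iA3, i4⟩, e2⟩ := split (O₁ := OA ∩ {p | 1 / 8 < p.1} ∩ {p | p.1 < 1 / 4}) (O₂ := K4)
    iA2 (g := fun p => p.1) (h := fun p => 1 / 4) (ae_ne_x _)
    (K4_meas)
    (fun p => Iff.rfl)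
    (fun p => by
      simp only [K4, cell, OA, mem_inter_iff, mem_ofPred_eq]
      constructor
      · rintro ⟨⟨h1, h2⟩, ⟨h3, h4⟩, h5, h6⟩
        refine ⟨⟨⟨?_, ?_, ?_, ?_, ?_, ?_⟩, ?_⟩, ?_⟩ <;> linarith
      · rintro ⟨⟨⟨h1, h2, h3, h4, h5, h6⟩, g0⟩, g1⟩
        refine ⟨⟨?_, ?_⟩, ⟨?_, ?_⟩, ?_, ?_⟩ <;> linarith)
  obtain ⟨⟨i2, i3⟩, e3⟩ := split (O₁ := K2) (O₂ := K3)
    iA3 (g := fun p => p.1 + p.2.1) (h := fun p => 1 / 4) (ae_ne_xy _)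
    (K3_meas)
    (fun p => by
      simp only [K2, cell, OA, mem_inter_iff, mem_ofPred_eq]
      constructor
      · rintro ⟨⟨h1, h2⟩, ⟨h3, h4⟩, h5, h6⟩
        refine ⟨⟨⟨⟨?_, ?_, ?_, ?_, ?_, ?_⟩, ?_⟩, ?_⟩, ?_⟩ <;> linarith
      · rintro ⟨⟨⟨⟨h1, h2, h3, h4, h5, h6⟩, g0⟩, g1⟩, g2⟩
        refine ⟨⟨?_, ?_⟩, ⟨?_, ?_⟩, ?_, ?_⟩ <;> linarith)
    (fun p => by
      simp only [K3, cell, OA, mem_inter_iff, mem_ofPred_eq]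
      constructor
      · rintro ⟨⟨h1, h2⟩, ⟨h3, h4⟩, h5, h6⟩
        refine ⟨⟨⟨⟨?_, ?_, ?_, ?_, ?_, ?_⟩, ?_⟩, ?_⟩, ?_⟩ <;> linarith
      · rintro ⟨⟨⟨⟨h1, h2, h3, h4, h5, h6⟩, g0⟩, g1⟩, g2⟩
        refine ⟨⟨?_, ?_⟩, ⟨?_, ?_⟩, ?_, ?_⟩ <;> linarith)
  rw [e1, e2, e3]

theorem OB_split {f : ℝ × ℝ × ℝ → ℝ} (hf : IntegrableOn f OB) :
    ∫ p in OB, f p = ((∫ p in K5, f p) + (((∫ p in K6, f p) + ∫ p in K7, f p) +
      ∫ p in K8, f p)) + ∫ p in OB ∩ {p | 1 / 4 < p.2.1}, f p := by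
  have hmx : Measurable fun p : ℝ × ℝ × ℝ => p.1 := by fun_prop
  have hmy : Measurable fun p : ℝ × ℝ × ℝ => p.2.1 := by fun_prop
  have hO := OB_isOpen.measurableSet
  obtain ⟨⟨iB1, iB0⟩, e0⟩ := split (O₁ := OB ∩ {p | p.2.1 < 1 / 4}) (O₂ := OB ∩ {p | 1 / 4 < p.2.1})
    hf (g := fun p => p.2.1) (h := fun p => 1 / 4) (ae_ne_y _)
    (hO.inter (measurableSet_lt measurable_const hmy))
    (fun p => Iff.rfl)
    (fun p => Iff.rfl)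
  obtain ⟨⟨i5, iB2⟩, e1⟩ := split (O₁ := K5) (O₂ := OB ∩ {p | p.2.1 < 1 / 4} ∩ {p | 1 / 2 < p.1})
    iB1 (g := fun p => p.1) (h := fun p => 1 / 2) (ae_ne_x _)
    ((hO.inter (measurableSet_lt hmy measurable_const)).inter (measurableSet_lt measurable_const hmx))
    (fun p => by
      simp only [K5, cell, OB, mem_inter_iff, mem_ofPred_eq]
      constructor
      · rintro ⟨⟨h1, h2⟩, ⟨h3, h4⟩, h5, h6⟩
        refine ⟨⟨⟨?_, ?_, ?_, ?_, ?_, ?_⟩, ?_⟩, ?_⟩ <;> linarith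
      · rintro ⟨⟨⟨h1, h2, h3, h4, h5, h6⟩, g0⟩, g1⟩
        refine ⟨⟨?_, ?_⟩, ⟨?_, ?_⟩, ?_, ?_⟩ <;> linarith)
    (fun p => Iff.rfl)
  obtain ⟨⟨iB3, i8⟩, e2⟩ := split (O₁ := OB ∩ {p | p.2.1 < 1 / 4} ∩ {p | 1 / 2 < p.1} ∩ {p | p.1 < 3 / 4}) (O₂ := K8)
    iB2 (g := fun p => p.1) (h := fun p => 3 / 4) (ae_ne_x _)
    (K8_meas)
    (fun p => Iff.rfl)
    (fun p => by
      simp only [K8, cell, OB, mem_inter_iff, mem_ofPred_eq]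
      constructor
      · rintro ⟨⟨h1, h2⟩, ⟨h3, h4⟩, h5, h6⟩
        refine ⟨⟨⟨⟨?_, ?_, ?_, ?_, ?_, ?_⟩, ?_⟩, ?_⟩, ?_⟩ <;> linarith
      · rintro ⟨⟨⟨⟨h1, h2, h3, h4, h5, h6⟩, g0⟩, g1⟩, g2⟩
        refine ⟨⟨?_, ?_⟩, ⟨?_, ?_⟩, ?_, ?_⟩ <;> linarith)
  obtain ⟨⟨i6, i7⟩, e3⟩ := split (O₁ := K6) (O₂ := K7)
    iB3 (g := fun p => p.1 + p.2.1) (h := fun p => 3 / 4) (ae_ne_xy _)
    (K7_meas)
    (fun p => by
      simp only [K6, cell, OB, mem_inter_iff, mem_ofPred_eq]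
      constructor
      · rintro ⟨⟨h1, h2⟩, ⟨h3, h4⟩, h5, h6⟩
        refine ⟨⟨⟨⟨⟨?_, ?_, ?_, ?_, ?_, ?_⟩, ?_⟩, ?_⟩, ?_⟩, ?_⟩ <;> linarith
      · rintro ⟨⟨⟨⟨⟨h1, h2, h3, h4, h5, h6⟩, g0⟩, g1⟩, g2⟩, g3⟩
        refine ⟨⟨?_, ?_⟩, ⟨?_, ?_⟩, ?_, ?_⟩ <;> linarith)
    (fun p => by
      simp only [K7, cell, OB, mem_inter_iff, mem_ofPred_eq]
      constructor
      · rintro ⟨⟨h1, h2⟩, ⟨h3, h4⟩, h5, h6⟩
        refine ⟨⟨⟨⟨⟨?_, ?_, ?_, ?_, ?_, ?_⟩, ?_⟩, ?_⟩, ?_⟩, ?_⟩ <;> linarith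
      · rintro ⟨⟨⟨⟨⟨h1, h2, h3, h4, h5, h6⟩, g0⟩, g1⟩, g2⟩, g3⟩
        refine ⟨⟨?_, ?_⟩, ⟨?_, ?_⟩, ?_, ?_⟩ <;> linarith)
  rw [e0, e1, e2, e3]

theorem mm_K1 {p : ℝ × ℝ × ℝ} (hp : p ∈ K1) :
    mm p.1 p.2.1 p.2.2 = (p.1 - p.2.1) * (1 - p.2.2 - 1 / 4) := by
  obtain ⟨⟨h1, h2⟩, ⟨h3, h4⟩, h5, h6⟩ := hp
  rw [mm, if_pos (by linarith)]

theorem mm_K2 {p : ℝ × ℝ × ℝ} (hp : p ∈ K2) :
    mm p.1 p.2.1 p.2.2 = (p.1 - p.2.1) * (1 - p.2.2 - 1 / 4) := by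
  obtain ⟨⟨h1, h2⟩, ⟨h3, h4⟩, h5, h6⟩ := hp
  rw [mm, if_pos (by linarith)]

theorem mm_K3 {p : ℝ × ℝ × ℝ} (hp : p ∈ K3) :
    mm p.1 p.2.1 p.2.2 = (p.1 - p.2.1) * (1 - p.2.2 - 1 / 4) := by
  obtain ⟨⟨h1, h2⟩, ⟨h3, h4⟩, h5, h6⟩ := hp
  rw [mm, if_pos (by linarith)]

theorem mm_K4 {p : ℝ × ℝ × ℝ} (hp : p ∈ K4) :
    mm p.1 p.2.1 p.2.2 = (1 - p.2.2 - p.1) * (1 / 4 - p.2.1) := by
  obtain ⟨⟨h1, h2⟩, ⟨h3, h4⟩, h5, h6⟩ := hp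
  rw [mm, if_neg (by linarith), max_eq_right (by linarith)]

theorem mm_K5 {p : ℝ × ℝ × ℝ} (hp : p ∈ K5) :
    mm p.1 p.2.1 p.2.2 = (1 - p.2.2 - p.1) * (1 / 4 - p.2.1) := by
  obtain ⟨⟨h1, h2⟩, ⟨h3, h4⟩, h5, h6⟩ := hp
  rw [mm, if_neg (by linarith), max_eq_right (by linarith)]

theorem mm_K6 {p : ℝ × ℝ × ℝ} (hp : p ∈ K6) :
    mm p.1 p.2.1 p.2.2 = (1 - p.2.2 - p.1) * (1 / 4 - p.2.1) := by
  obtain ⟨⟨h1, h2⟩, ⟨h3, h4⟩, h5, h6⟩ := hp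
  rw [mm, if_neg (by linarith), max_eq_right (by linarith)]

theorem mm_K7 {p : ℝ × ℝ × ℝ} (hp : p ∈ K7) :
    mm p.1 p.2.1 p.2.2 = (1 - p.2.2 - p.1) * (1 / 4 - p.2.1) := by
  obtain ⟨⟨h1, h2⟩, ⟨h3, h4⟩, h5, h6⟩ := hp
  rw [mm, if_neg (by linarith), max_eq_right (by linarith)]

theorem mm_K8 {p : ℝ × ℝ × ℝ} (hp : p ∈ K8) :
    mm p.1 p.2.1 p.2.2 = (1 - p.2.2 - p.1) * (1 / 4 - p.2.1) := by
  obtain ⟨⟨h1, h2⟩, ⟨h3, h4⟩, h5, h6⟩ := hp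
  rw [mm, if_neg (by linarith), max_eq_right (by linarith)]

/-- F2 -/
theorem vol_m : ∫ p in OA ∪ OB, mm p.1 p.2.1 p.2.2 ^ 2 = 2447 / 13762560 := by
  have hd : Disjoint OA OB := Set.disjoint_left.2 fun p h1 h2 => by
    have := h1.2.2.2.1
    have := h2.2.2.2.2.1
    linarith
  have hA : IntegrableOn (fun p : ℝ × ℝ × ℝ => mm p.1 p.2.1 p.2.2 ^ 2) OA :=
    OAB_int.mono_set subset_union_left
  have hB : IntegrableOn (fun p : ℝ × ℝ × ℝ => mm p.1 p.2.1 p.2.2 ^ 2) OB :=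
    OAB_int.mono_set subset_union_right
  have hz : ∫ p in OB ∩ {p | 1 / 4 < p.2.1}, mm p.1 p.2.1 p.2.2 ^ 2 = 0 := by
    rw [setIntegral_congr_fun (g := fun _ => (0 : ℝ)) (OB_isOpen.measurableSet.inter
      (measurableSet_lt measurable_const (by fun_prop))) fun p hp => ?_, integral_zero]
    obtain ⟨⟨h1, h2, h3, h4, h5, h6⟩, h7⟩ := hp
    simp only [mem_ofPred_eq] at h7
    rw [mm, if_neg (by linarith), max_eq_left (by linarith)]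
    ring
  rw [setIntegral_union hd OB_isOpen.measurableSet hA hB, OA_split hA, OB_split hB, hz,
    setIntegral_congr_fun K1_meas fun p hp => by
      show _ = ((p.1 - p.2.1) * (1 - p.2.2 - 1 / 4)) ^ 2; rw [mm_K1 hp],
    setIntegral_congr_fun K2_meas fun p hp => by
      show _ = ((p.1 - p.2.1) * (1 - p.2.2 - 1 / 4)) ^ 2; rw [mm_K2 hp],
    setIntegral_congr_fun K3_meas fun p hp => by
      show _ = ((p.1 - p.2.1) * (1 - p.2.2 - 1 / 4)) ^ 2; rw [mm_K3 hp],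
    setIntegral_congr_fun K4_meas fun p hp => by
      show _ = ((1 - p.2.2 - p.1) * (1 / 4 - p.2.1)) ^ 2; rw [mm_K4 hp],
    setIntegral_congr_fun K5_meas fun p hp => by
      show _ = ((1 - p.2.2 - p.1) * (1 / 4 - p.2.1)) ^ 2; rw [mm_K5 hp],
    setIntegral_congr_fun K6_meas fun p hp => by
      show _ = ((1 - p.2.2 - p.1) * (1 / 4 - p.2.1)) ^ 2; rw [mm_K6 hp],
    setIntegral_congr_fun K7_meas fun p hp => by
      show _ = ((1 - p.2.2 - p.1) * (1 / 4 - p.2.1)) ^ 2; rw [mm_K7 hp],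
    setIntegral_congr_fun K8_meas fun p hp => by
      show _ = ((1 - p.2.2 - p.1) * (1 / 4 - p.2.1)) ^ 2; rw [mm_K8 hp]]
  rw [SixPoly.mm_K1, SixPoly.mm_K2, SixPoly.mm_K3, SixPoly.mm_K4, SixPoly.mm_K5, SixPoly.mm_K6,
    SixPoly.mm_K7, SixPoly.mm_K8]
  norm_num

end Pool.Agent.SixT
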